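import Mathlib

set_option autoImplicit false

namespace Pool.Agent.H82.LadA

open Set Cardinal Order

universe u

section
variable {W : Type u} [LinearOrder W]

/-- limit points from below -/
def lim (A : Set W) : Set W := {x | ∀ y < x, ∃ a ∈ A, y < a ∧ a < x}

lemma lim_mono {A B : Set W} (h : A ⊆ B) : lim A ⊆ lim B := fun _ hx y hy =>
  let ⟨a, ha, h1⟩ := hx y hy; ⟨a, h ha, h1⟩

variable [WellFoundedLT W]

lemma exmin {P : W → Prop} (h : ∃ x, P x) : ∃ x, P x ∧ ∀ y < x, ¬ P y := by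
  obtain ⟨x, hx, h1⟩ := wellFounded_lt.has_min {x | P x} h
  exact ⟨x, hx, fun y hy hp => h1 y hp hy⟩

lemma card_lim (A : Set W) : #(lim A) ≤ #A + 1 := by
  classical
  have h1 : ∀ x : W, ∃ o : Option A, (o = none ∧ ∀ a ∈ A, a ≤ x) ∨
      ∃ a : A, o = some a ∧ x < a ∧ ∀ b ∈ A, x < b → a ≤ b := by
    intro x
    by_cases h : ∃ a, a ∈ A ∧ x < a
    · obtain ⟨a, ha, h2⟩ := exmin h
      exact ⟨some ⟨a, ha.1⟩, Or.inr ⟨_, rfl, ha.2, fun b hb h3 => not_lt.1 fun h4 =>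
        h2 b h4 ⟨hb, h3⟩⟩⟩
    · exact ⟨none, Or.inl ⟨rfl, fun a ha => not_lt.1 fun h2 => h ⟨a, ha, h2⟩⟩⟩
  choose f hf using h1
  have h2 : ∀ x y : W, y ∈ lim A → x < y → f x ≠ f y := by
    intro x y hy hxy he
    obtain ⟨a, ha, h3, h4⟩ := hy x hxy
    rcases hf x with ⟨-, h5⟩ | ⟨b, h5, h6, h7⟩
    · exact absurd (h5 a ha) (not_le.2 h3)
    · rcases hf y with ⟨h8, -⟩ | ⟨c, h8, h9, -⟩
      · rw [he, h8] at h5; cases h5
      · rw [he, h8] at h5
        cases h5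
        exact absurd ((h7 a ha h3).trans h4.le) (not_le.2 h9)
  rw [← mk_option]
  refine mk_le_of_injective (f := fun x : lim A => f x) fun x y he => ?_
  rcases lt_trichotomy x.1 y.1 with h | h | h
  · exact absurd he (h2 _ _ y.2 h)
  · exact Subtype.ext h
  · exact absurd he.symm (h2 _ _ x.2 h)

lemma countable_lim {A : Set W} (h : A.Countable) : (lim A).Countable := by
  rw [← le_aleph0_iff_set_countable] at h ⊢
  exact (card_lim A).trans (add_le_aleph0.2 ⟨h, one_le_aleph0⟩)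

end

/-- `W` is the well order of the regular cardinal `θ` -/
structure Reg (W : Type) [LinearOrder W] (θ : Cardinal.{0}) : Prop where
  reg : θ.IsRegular
  card : #W = θ
  iio : ∀ x : W, #(Iio x) < θ

lemma reg_toType {θ : Cardinal.{0}} (h : θ.IsRegular) : Reg θ.ord.ToType θ :=
  ⟨h, mk_ord_toType θ, fun x => by simpa using mk_Iio_lt x⟩

variable {W : Type} [LinearOrder W] {θ : Cardinal.{0}}

lemma Reg.iic (h : Reg W θ) (x : W) : #(Iic x) < θ := by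
  rw [← Iio_insert]
  exact mk_insert_le.trans_lt (add_lt_of_lt h.reg.aleph0_le (h.iio x)
    (one_lt_aleph0.trans_le h.reg.aleph0_le))

lemma Reg.bdd (h : Reg W θ) {A : Set W} (hA : #A < θ) : ∃ x, ∀ a ∈ A, a < x := by
  by_contra hn
  push Not at hn
  have h1 : #(⋃ a ∈ A, Iic a) < θ :=
    (card_biUnion_lt_iff_forall_of_isRegular (t := fun a _ => Iic a) h.reg hA).2 fun a _ => h.iic a
  have h2 : (⋃ a ∈ A, Iic a) = Set.univ := eq_univ_of_forall fun x =>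
    let ⟨a, ha, h3⟩ := hn x; mem_biUnion ha h3
  rw [h2, mk_univ, h.card] at h1
  exact lt_irrefl _ h1

/-- uncountable cofinality -/
def Unc (η : W) : Prop := ∀ E : Set W, E.Countable → (∀ y ∈ E, y < η) → ∃ x < η, ∀ y ∈ E, y < x

/-- cofinality at most `ω₁` -/
def Lad (η : W) : Prop := ∃ D : Set W, (∀ d ∈ D, d < η) ∧ (∀ x < η, ∃ d ∈ D, x < d) ∧
  ∀ x < η, (D ∩ Iio x).Countable

variable [WellFoundedLT W]

theorem Reg.clo (h : Reg W θ) (h1 : ℵ₁ < θ) (g : W → W) (β : W) :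
    ∃ η, β < η ∧ (∀ x < η, g x < η) ∧ Unc η ∧ Lad η := by
  let C : Set W := {η | β < η ∧ ∀ x < η, g x < η}
  have h0 : ℵ₀ < θ := aleph0_lt_aleph_one.trans h1
  have hC : ∀ y, ∃ η ∈ C, y < η := by
    intro y
    have h2 : ∀ x : W, ∃ x', ∀ a ∈ Iic x ∪ g '' Iic x, a < x' := fun x => h.bdd
      ((mk_union_le _ _).trans_lt (add_lt_of_lt h0.le (h.iic x) (mk_image_le.trans_lt (h.iic x))))
    choose nx hnx using h2
    let s : ℕ → W := fun n => nx^[n] (max β y)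
    have hs : ∀ n, s (n + 1) = nx (s n) := fun n => Function.iterate_succ_apply' _ _ _
    obtain ⟨η, h3, h4⟩ := exmin (h.bdd (A := range s)
      ((le_aleph0_iff_set_countable.2 (countable_range s)).trans_lt h0))
    refine ⟨η, ⟨(le_max_left β y).trans_lt (h3 _ ⟨0, rfl⟩), fun x hx => ?_⟩,
      (le_max_right β y).trans_lt (h3 _ ⟨0, rfl⟩)⟩
    have h5 := h4 x hx
    push Not at h5
    obtain ⟨_, ⟨n, rfl⟩, h5⟩ := h5
    exact (hnx (s n) _ (Or.inr ⟨x, h5, rfl⟩)).trans (hs n ▸ h3 _ ⟨n + 1, rfl⟩)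
  have h2 : ℵ₁ ≤ #C := by
    by_contra hn
    obtain ⟨x, hx⟩ := h.bdd ((not_le.1 hn).trans h1)
    obtain ⟨η, h3, h4⟩ := hC x
    exact lt_asymm h4 (hx η h3)
  obtain ⟨p, hp, hp1⟩ := le_mk_iff_exists_subset.1 h2
  obtain ⟨x, hx⟩ := h.bdd (hp1.trans_lt h1)
  obtain ⟨η, h3, h4⟩ := exmin (P := fun η => ¬ (C ∩ Iio η).Countable) ⟨x, fun hc => by
    have : p.Countable := hc.mono (subset_inter hp hx)
    exact absurd hp1 ((le_aleph0_iff_set_countable.2 this).trans_lt aleph0_lt_aleph_one).ne⟩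
  have h5 : ∀ y < η, (C ∩ Iic y).Countable := fun y hy =>
    ((not_not.1 (h4 y hy)).insert y).mono fun a ha => by
      rcases ha.2.eq_or_lt with h | h
      exacts [Or.inl h, Or.inr ⟨ha.1, h⟩]
  have h6 : ∀ E : Set W, E.Countable → (∀ y ∈ E, y < η) → ∃ x ∈ C, x < η ∧ ∀ y ∈ E, y < x := by
    intro E hE hE'
    by_contra hn
    push Not at hn
    refine h3 ((hE.biUnion fun y hy => h5 y (hE' y hy)).mono fun a ha => ?_)
    obtain ⟨y, hy, h7⟩ := hn a ha.1 ha.2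
    exact mem_biUnion hy ⟨ha.1, h7⟩
  have h7 : ∀ y < η, ∃ d ∈ C ∩ Iio η, y < d := fun y hy => by
    obtain ⟨d, hd, h7, h8⟩ := h6 {y} (countable_singleton y) (by simpa using hy)
    exact ⟨d, ⟨hd, h7⟩, h8 y rfl⟩
  obtain ⟨d, hd, h8, -⟩ := h6 ∅ countable_empty (by simp)
  refine ⟨η, hd.1.trans h8, fun y hy => ?_, fun E hE hE' => ?_, C ∩ Iio η, fun d hd => hd.2, h7,
    fun y hy => (not_not.1 (h4 y hy)).mono (inter_subset_inter_left _ inter_subset_left)⟩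
  · obtain ⟨d, hd, h9⟩ := h7 y hy
    exact (hd.1.2 y h9).trans hd.2
  · obtain ⟨x, -, h9⟩ := h6 E hE hE'
    exact ⟨x, h9⟩

end Pool.Agent.H82.LadA
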