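import Pool.Agent.H82.ScEG2
import Pool.Agent.H82.LadA

set_option autoImplicit false

/-! Strongly Luzin families of points in a Cantor cube, under CH. -/

namespace Pool.Agent.H82.Luz

open Set Cardinal Filter Topology Function

abbrev W : Type := (ℵ₁ : Cardinal.{0}).ord.ToType

lemma bdd {A : Set W} (h : A.Countable) : ∃ β, ∀ a ∈ A, a < β :=
  (LadA.reg_toType isRegular_aleph_one).bdd
    ((le_aleph0_iff_set_countable.2 h).trans_lt aleph0_lt_aleph_one)

lemma iic (β : W) : (Iic β).Countable := by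
  have := ((LadA.reg_toType isRegular_aleph_one).iic β).trans_eq succ_aleph0.symm
  exact le_aleph0_iff_set_countable.1 (Order.lt_succ_iff.1 this)

lemma iio (β : W) : (Iio β).Countable := (iic β).mono Iio_subset_Iic_self

lemma mkW : #W = ℵ₁ := mk_ord_toType _

instance : Nonempty W := mk_ne_zero_iff.1 (by rw [mkW]; exact (aleph_pos 1).ne')

lemma gen_rec {Z : Type} [TopologicalSpace Z] [BaireSpace Z] (Φ : W → Set Z → Set (Set Z))
    (hΦ : ∀ β H, H.Countable → (Φ β H).Countable) (e : W → Set Z) (he : ∀ β, IsOpen (e β))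
    (he' : ∀ β, (e β).Nonempty) :
    ∃ r : W → Z, ∀ β, r β ∈ e β ∧ ∀ D ∈ Φ β (r '' Iio β), IsOpen D → Dense D → r β ∈ D := by
  have h1 : ∀ (β : W) (H : Set Z), ∃ z ∈ e β, H.Countable → ∀ D ∈ Φ β H, IsOpen D → Dense D →
      z ∈ D := by
    intro β H
    by_cases h : H.Countable
    · obtain ⟨z, h1, h2⟩ := (dense_sInter_of_isOpen (S := {D | D ∈ Φ β H ∧ IsOpen D ∧ Dense D})
        (fun D hD => hD.2.1) ((hΦ β H h).mono fun D hD => hD.1)
        fun D hD => hD.2.2).inter_open_nonempty _ (he β) (he' β)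
      exact ⟨z, h1, fun _ D h3 h4 h5 => h2 D ⟨h3, h4, h5⟩⟩
    · exact let ⟨z, hz⟩ := he' β; ⟨z, hz, fun h1 => absurd h1 h⟩
  choose p hp1 hp2 using h1
  let r : W → Z := wellFounded_lt.fix fun β ih => p β (range fun α : Iio β => ih α.1 α.2)
  have hr : ∀ β, r β = p β (r '' Iio β) := fun β => by
    rw [image_eq_range]; exact wellFounded_lt.fix_eq _ β
  refine ⟨r, fun β => ?_⟩
  rw [hr β]
  exact ⟨hp1 _ _, hp2 _ _ ((iio β).image r)⟩

variable {I : Type}

lemma basis {O : Set (ℕ → I → Bool)} (hO : IsOpen O) {t : ℕ → I → Bool} (ht : t ∈ O) :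
    ∃ a : Finset (ℕ × I), ∀ t' : ℕ → I → Bool, (∀ p ∈ a, t' p.1 p.2 = t p.1 p.2) → t' ∈ O := by
  have h1 : IsOpen ((fun (u : ℕ × I → Bool) n i => u (n, i)) ⁻¹' O) :=
    hO.preimage (by fun_prop)
  obtain ⟨a, u, h2, h3⟩ := isOpen_pi_iff.1 h1 (fun p => t p.1 p.2) ht
  exact ⟨a, fun t' h => h3 (a := fun p => t' p.1 p.2) fun p hp => by
    simp only [h p hp]; exact (h2 p hp).2⟩

lemma isOpen_agree (a : Finset (ℕ × I)) (t : ℕ → I → Bool) :
    IsOpen {t' : ℕ → I → Bool | ∀ p ∈ a, t' p.1 p.2 = t p.1 p.2} := by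
  have : {t' : ℕ → I → Bool | ∀ p ∈ a, t' p.1 p.2 = t p.1 p.2} =
    ⋂ p ∈ a, (fun t' => t' p.1 p.2) ⁻¹' {t p.1 p.2} := by ext; simp
  rw [this]
  exact isOpen_biInter_finset fun p _ => (isOpen_discrete _).preimage (by fun_prop)

lemma dense_iff {G : Set (ℕ → I → Bool)} : Dense G ↔
    ∀ (a : Finset (ℕ × I)) (t : ℕ → I → Bool), ∃ t' ∈ G, ∀ p ∈ a, t' p.1 p.2 = t p.1 p.2 := by
  refine ⟨fun h a t => ?_, fun h => dense_iff_inter_open.2 fun O hO ⟨t, ht⟩ => ?_⟩
  · obtain ⟨t', h1, h2⟩ := h.inter_open_nonempty _ (isOpen_agree a t) ⟨t, fun _ _ => rfl⟩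
    exact ⟨t', h2, h1⟩
  · obtain ⟨a, ha⟩ := basis hO ht
    obtain ⟨t', h1, h2⟩ := h a t
    exact ⟨t', ha t' h2, h1⟩

open Classical in
/-- the point coded by a finite set -/
noncomputable def pt (b : Finset (ℕ × I)) : ℕ → I → Bool := fun n i => decide ((n, i) ∈ b)

def cyl (c : Finset (ℕ × I) × Finset (ℕ × I)) : Set (ℕ → I → Bool) :=
  {t | ∀ p ∈ c.1, t p.1 p.2 = pt c.2 p.1 p.2}

lemma exists_cond (a : Finset (ℕ × I)) (t : ℕ → I → Bool) :
    ∃ b ⊆ a, ∀ p ∈ a, pt b p.1 p.2 = t p.1 p.2 := by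
  classical
  refine ⟨a.filter fun p => t p.1 p.2, Finset.filter_subset _ _, fun p hp => ?_⟩
  simp [pt, hp]

lemma conds {A : Set I} (hA : A.Countable) : {c : Finset (ℕ × I) × Finset (ℕ × I) |
    (∀ p ∈ c.1, p.2 ∈ A) ∧ c.2 ⊆ c.1}.Countable := by
  have h1 : {a : Finset (ℕ × I) | ∀ p ∈ a, p.2 ∈ A}.Countable :=
    ((countable_ofPred_finite_subset (countable_univ.prod hA)).preimage
      Finset.coe_injective).mono fun a ha =>
        And.intro a.finite_toSet fun p hp => And.intro (mem_univ _) (ha p hp)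
  exact (h1.prod h1).mono fun c hc => And.intro hc.1 fun p hp => hc.1 p (hc.2 hp)

lemma small_dense {G : Set (ℕ → I → Bool)} (h1 : IsOpen G) (h2 : Dense G) :
    ∃ B : ℕ → Finset (ℕ × I) × Finset (ℕ × I), (∀ n, cyl (B n) ⊆ G) ∧ Dense (⋃ n, cyl (B n)) := by
  classical
  have h3 : ∀ c : Finset (ℕ × I) × Finset (ℕ × I), ∃ c' : Finset (ℕ × I) × Finset (ℕ × I),
      cyl c' ⊆ G ∧ cyl c' ⊆ cyl c := by
    intro c
    obtain ⟨t, h3, h4⟩ := dense_iff.1 h2 c.1 (pt c.2)
    obtain ⟨a, ha⟩ := basis (h1.inter (isOpen_agree c.1 (pt c.2))) ⟨h3, h4⟩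
    obtain ⟨b, -, hb⟩ := exists_cond a t
    exact ⟨(a, b), fun t' h => (ha t' fun p hp => (h p hp).trans (hb p hp)).1,
      fun t' h => (ha t' fun p hp => (h p hp).trans (hb p hp)).2⟩
  choose nx h3 h4 using h3
  obtain ⟨A, -, h5, h6⟩ := ScEG2.hull (fun l : List I => ⋃ c ∈ {c : Finset (ℕ × I) × Finset (ℕ × I) |
      (∀ p ∈ c.1, p.2 ∈ {i | i ∈ l}) ∧ c.2 ⊆ c.1}, Prod.snd '' ((nx c).1 : Set (ℕ × I)))
    (fun l => (conds l.finite_toSet.countable).biUnion fun c _ =>
      (Finset.countable_toSet _).image _) ∅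
  have hA : A.Countable := le_aleph0_iff_set_countable.1 (h6 _ le_rfl (by simp))
  obtain ⟨B, hB⟩ := (conds hA).exists_eq_range ⟨(∅, ∅), by simp⟩
  refine ⟨fun n => nx (B n), fun n => h3 _, dense_iff.2 fun a t => ?_⟩
  obtain ⟨b, h7, h8⟩ := exists_cond (a.filter fun p => p.2 ∈ A) t
  obtain ⟨n, hn⟩ : (a.filter fun p => p.2 ∈ A, b) ∈ range B :=
    hB ▸ ⟨fun p hp => (Finset.mem_filter.1 hp).2, h7⟩
  have h9 : ∀ p ∈ (nx (B n)).1, p.2 ∈ A := fun p hp =>
    h5 (((B n).1.image Prod.snd).toList) (by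
      intro i hi
      obtain ⟨q, hq, rfl⟩ := Finset.mem_image.1 (Finset.mem_toList.1 hi)
      rw [hn] at hq
      exact (Finset.mem_filter.1 hq).2)
    (mem_biUnion (x := B n) ⟨fun q hq => Finset.mem_toList.2 (Finset.mem_image_of_mem _ hq),
      by rw [hn]; exact h7⟩ ⟨p, hp, rfl⟩)
  refine ⟨fun m i => if i ∈ A then pt (nx (B n)).2 m i else t m i,
    mem_iUnion.2 ⟨n, fun p hp => if_pos (h9 p hp)⟩, fun p hp => ?_⟩
  simp only
  split_ifs with h
  · have h10 := h4 (B n) (a := pt (nx (B n)).2) (fun _ _ => rfl) p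
      (by rw [hn]; exact Finset.mem_filter.2 ⟨hp, h⟩)
    rw [h10, hn]
    exact h8 p (Finset.mem_filter.2 ⟨hp, h⟩)
  · rfl

/-- the strong Luzin property of the rows `r`, as seen below a level -/
def Luzin (ht : I → W) (r : W → I → Bool) : Prop :=
  ∀ G : Set (ℕ → I → Bool), IsOpen G → Dense G → ∃ γ : W, ∀ (k : ℕ) (u : ℕ → W),
    InjOn u (Iio k) → (∀ j < k, γ ≤ u j) → ∀ z O, IsOpen O → z ∈ O →
      (∀ j < k, ∀ i, ht i < γ → z j i = r (u j) i) → ∃ z' ∈ O ∩ G, ∀ j < k, z' j = z j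

theorem luzin (CH : continuum.{0} = ℵ₁) (ht : I → W) (hI : #I ≤ ℵ₁)
    (hht : ∀ γ, {i | ht i < γ}.Countable) (e : W → Set (I → Bool)) (he : ∀ β, IsOpen (e β))
    (he' : ∀ β, (e β).Nonempty) : ∃ r : W → I → Bool, (∀ β, r β ∈ e β) ∧ Luzin ht r := by
  classical
  obtain ⟨E, hE⟩ : ∃ E : W → ℕ → Finset (ℕ × I) × Finset (ℕ × I), Surjective E := by
    have h1 : #(Finset (ℕ × I)) ≤ ℵ₁ := by
      refine (mk_le_of_surjective (f := List.toFinset) fun a => ⟨a.toList, by simp⟩).trans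
        ((mk_list_le_max _).trans (max_le aleph0_lt_aleph_one.le ?_))
      simp only [mk_prod, lift_id, mk_nat]
      exact (mul_le_mul' aleph0_lt_aleph_one.le hI).trans (mul_eq_self (aleph0_le_aleph 1)).le
    have h2 : #(ℕ → Finset (ℕ × I) × Finset (ℕ × I)) ≤ #W := by
      rw [mkW, ← power_def, mk_nat, mk_prod, lift_id]
      refine (power_le_power_right ((mul_le_mul' h1 h1).trans
        (mul_eq_self (aleph0_le_aleph 1)).le)).trans ?_
      rw [← CH, continuum_power_aleph0]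
    obtain ⟨j⟩ := (Cardinal.le_def _ _).1 h2
    exact ⟨_, invFun_surjective j.injective⟩
  let R : W → Set (ℕ → I → Bool) := fun ξ => ⋃ n, cyl (E ξ n)
  have hR : ∀ ξ, IsOpen (R ξ) := fun ξ => isOpen_iUnion fun n => isOpen_agree _ _
  let fill : Finset ℕ → (ℕ → I → Bool) → (ℕ → I → Bool) → ℕ → I → Bool :=
    fun s v t j => if j ∈ s then v j else t j
  have hfill : ∀ s v, Continuous (fill s v) := fun s v => continuous_pi fun j => by
    simp only [fill]
    split_ifs
    · exact continuous_const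
    · exact continuous_apply j
  let D : W → Finset ℕ → (ℕ → I → Bool) → ℕ → Finset (ℕ × I) × Finset (ℕ × I) → Set (I → Bool) :=
    fun ξ s v i c => {q | ∃ t ∈ cyl c, fill s v (update t i q) ∈ R ξ}
  obtain ⟨r, hr⟩ := gen_rec (fun β H => ⋃ ξ ∈ Iio β, ⋃ s : Finset ℕ, ⋃ v : s → H, ⋃ i : ℕ,
      D ξ s (fun j => if h : j ∈ s then (v ⟨j, h⟩).1 else default) i ''
        {c | (∀ p ∈ c.1, p.2 ∈ {i | ht i < β}) ∧ c.2 ⊆ c.1})
    (fun β H hH => (iio β).biUnion fun ξ _ => countable_iUnion fun s => by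
      have := hH.to_subtype
      exact countable_iUnion fun v => countable_iUnion fun i => (conds (hht β)).image _) e he he'
  refine ⟨r, fun β => (hr β).1, fun G h1 h2 => ?_⟩
  obtain ⟨B, h3, h4⟩ := small_dense h1 h2
  obtain ⟨ξ, rfl⟩ := hE B
  obtain ⟨γ, hγ⟩ := bdd (A := insert ξ (⋃ n, (fun p => ht p.2) '' ((E ξ n).1 : Set (ℕ × I))))
    ((countable_iUnion fun n => (Finset.countable_toSet _).image _).insert _)
  have hsupp : ∀ t t' : ℕ → I → Bool, (∀ j i, ht i < γ → t' j i = t j i) → t ∈ R ξ → t' ∈ R ξ := by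
    intro t t' h5 h6
    obtain ⟨n, hn⟩ := mem_iUnion.1 h6
    exact mem_iUnion.2 ⟨n, fun p hp =>
      (h5 _ _ (hγ _ (Or.inr (mem_iUnion.2 ⟨n, p, hp, rfl⟩)))).trans (hn p hp)⟩
  refine ⟨γ, fun k u hu h5 z O hO hz h6 => ?_⟩
  have h7 : ∀ s : Finset ℕ, (∀ j ∈ s, j < k) → Dense (fill s (r ∘ u) ⁻¹' R ξ) := by
    intro s
    induction s using Finset.induction_on_max_value u with
    | empty =>
      intro _
      have : fill ∅ (r ∘ u) = id := by ext; simp [fill]
      rw [this]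
      exact h4
    | insert i s hi h7 ih =>
      intro h8
      have h9 := ih fun j hj => h8 j (Finset.mem_insert_of_mem hj)
      have hik := h8 i (Finset.mem_insert_self _ _)
      have h10 : ∀ j ∈ s, u j < u i := fun j hj => (h7 j hj).lt_of_ne fun h =>
        hi (hu (h8 j (Finset.mem_insert_of_mem hj)) hik h ▸ hj)
      refine dense_iff.2 fun a t => ?_
      obtain ⟨b, h11, h12⟩ := exists_cond (a.filter fun p => ht p.2 < u i) t
      have h13 : fill s (fun j => if h : j ∈ s then r (u j) else default) = fill s (r ∘ u) := by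
        ext t j
        simp only [fill]
        split_ifs <;> rfl
      obtain ⟨t', h14, h15⟩ := (hr (u i)).2 (D ξ s (fun j => if h : j ∈ s then r (u j) else default)
        i (a.filter fun p => ht p.2 < u i, b))
        (mem_biUnion (x := ξ) ((hγ ξ (Or.inl rfl)).trans_le (h5 i hik)) (mem_iUnion.2 ⟨s,
          mem_iUnion.2 ⟨fun j => ⟨r (u j), u j, h10 j j.2, rfl⟩, mem_iUnion.2 ⟨i, _,
            ⟨fun p hp => by simpa using (Finset.mem_filter.1 (show p ∈ a.filter _ from hp)).2, h11⟩,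
              rfl⟩⟩⟩))
        (by
          simp only [D, ofPred_exists, ofPred_and]
          exact isOpen_iUnion fun t => isOpen_const.inter ((hR ξ).preimage ((hfill _ _).comp
            (continuous_const.update i continuous_id))))
        (by
          refine dense_iff_inter_open.2 fun U hU ⟨q, hq⟩ => ?_
          obtain ⟨t', ⟨h14, h15⟩, h16⟩ := h9.inter_open_nonempty
            ((fun t => t i) ⁻¹' U ∩ (fun t => update t i (pt b i)) ⁻¹'
              cyl (a.filter fun p => ht p.2 < u i, b))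
            ((hU.preimage (continuous_apply i)).inter ((isOpen_agree _ _).preimage
              (continuous_id.update i continuous_const)))
            ⟨update (pt b) i q, by simpa using hq, fun p _ => by simp⟩
          exact ⟨t' i, h14, _, h15, by rw [h13]; simpa using h16⟩)
      rw [h13] at h15
      refine ⟨fun j i' => if ht i' < u i then t' j i' else t j i', hsupp _ _ (fun j i' h16 => ?_) h15,
        fun p hp => ?_⟩
      · simp only [fill, Finset.mem_insert]
        by_cases h17 : j ∈ s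
        · simp [h17]
        · by_cases h18 : j = i
          · simp [h18, hi]
          · simp [h17, h18, h16.trans_le (h5 i hik)]
      · simp only
        split_ifs with h16
        · exact (h14 p (Finset.mem_filter.2 ⟨hp, h16⟩)).trans
            (h12 p (Finset.mem_filter.2 ⟨hp, h16⟩))
        · rfl
  obtain ⟨t, h8, h9⟩ := (h7 (Finset.range k) fun j => Finset.mem_range.1).inter_open_nonempty
    (fill (Finset.range k) z ⁻¹' O) (hO.preimage (hfill _ _))
    ⟨z, by simpa only [mem_preimage, fill, ite_self] using hz⟩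
  refine ⟨_, ⟨h8, ?_⟩, fun j hj => if_pos (Finset.mem_range.2 hj)⟩
  obtain ⟨n, hn⟩ := mem_iUnion.1 (hsupp _ (fill (Finset.range k) z t) (fun j i h => by
    simp only [fill]
    split_ifs with h10
    · exact h6 j (Finset.mem_range.1 h10) i h
    · rfl) h9)
  exact h3 n hn

end Pool.Agent.H82.Luz
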