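import Pool.Agent.H82.LuzC

set_option autoImplicit false

/-! Under CH: a strong L-space all of whose countable subsets are closed and discrete. -/

namespace Pool.Agent.H82.Luz

open Set Cardinal Filter Topology Function

lemma isClosed_cyl {I : Type} (c : Finset (ℕ × I) × Finset (ℕ × I)) : IsClosed (cyl c) := by
  have : cyl c = ⋂ p ∈ c.1, (fun t => t p.1 p.2) ⁻¹' {pt c.2 p.1 p.2} := by ext; simp [cyl]
  rw [this]
  exact isClosed_biInter fun p _ => (isClosed_discrete _).preimage (by fun_prop)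

theorem hl_pow {I : Type} {x : W → I → Bool}
    (hL : ∀ G : Set (ℕ → I → Bool), IsOpen G → Dense G → ∃ γ : W, ∀ (k : ℕ) (u : ℕ → W),
      InjOn u (Iio k) → (∀ j < k, γ ≤ u j) → ∀ z O, IsOpen O → z ∈ O →
        (∀ j < k, z j = x (u j)) → ∃ z' ∈ O ∩ G, ∀ j < k, z' j = z j) (n : ℕ) :
    HereditarilyLindelofSpace (Fin n → range x) := by
  classical
  induction n with
  | zero => exact ⟨fun s _ => s.toFinite.isLindelof⟩
  | succ k ih =>
    refine HereditarilyLindelofSpace.of_forall_isOpen fun O hO =>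
      isLindelof_of_countable_subcover fun {ι} U hU h1 => ?_
    have he : IsInducing fun (t : Fin (k + 1) → range x) n => (t n).1 :=
      IsInducing.piMap fun _ => IsInducing.subtypeVal
    choose V h2 h3 using fun s => he.isOpen_iff.1 (hU s)
    let π : (ℕ → I → Bool) → Fin (k + 1) → I → Bool := fun z i => z i
    have hπ : Continuous π := by fun_prop
    have h4 : IsOpen (⋃ s, π ⁻¹' V s) := isOpen_iUnion fun s => (h2 s).preimage hπ
    obtain ⟨B, h5, h6⟩ := small_dense (h4.union isClosed_closure.isOpen_compl)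
      (dense_iff_inter_open.2 fun Q hQ ⟨z, hz⟩ => by
        by_cases h : z ∈ closure (⋃ s, π ⁻¹' V s)
        · exact let ⟨y, h5, h6⟩ := mem_closure_iff.1 h Q hQ hz; ⟨y, h5, Or.inl h6⟩
        · exact ⟨z, hz, Or.inr h⟩)
    obtain ⟨S, h7, h8⟩ := (isLindelof_iUnion fun m => ((isClosed_cyl (B m)).inter
      (isClosed_closure (s := ⋃ s, π ⁻¹' V s))).isCompact.isLindelof).elim_countable_subcover
      (fun s => π ⁻¹' V s) (fun s => (h2 s).preimage hπ)
      (iUnion_subset fun m z hz => (h5 m hz.1).resolve_right fun h => h hz.2)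
    obtain ⟨γ, h9⟩ := hL ((⋃ s ∈ S, π ⁻¹' V s) ∪ (closure (⋃ s, π ⁻¹' V s))ᶜ)
      ((isOpen_biUnion fun s _ => (h2 s).preimage hπ).union isClosed_closure.isOpen_compl)
      (h6.mono (iUnion_subset fun m z hz => by
        by_cases h : z ∈ closure (⋃ s, π ⁻¹' V s)
        · exact Or.inl (h8 (mem_iUnion.2 ⟨m, hz, h⟩))
        · exact Or.inr h))
    have := (iio γ).to_subtype
    let g : Fin (k + 1) × (Iio γ ⊕ Fin k) → (Fin k → range x) → Fin (k + 1) → range x :=
      fun p y => p.1.insertNth (Sum.elim (fun α : Iio γ => (⟨x α, α, rfl⟩ : range x)) y p.2) y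
    have hg : ∀ p, Continuous (g p) := by
      rintro ⟨i, α | j⟩
      · exact continuous_const.finInsertNth i continuous_id
      · exact (continuous_apply j).finInsertNth i continuous_id
    obtain ⟨S', h10, h11⟩ := (isLindelof_iUnion fun p => (HereditarilyLindelofSpace.isLindelof
      (g p ⁻¹' O)).image (hg p)).elim_countable_subcover U hU
      (iUnion_subset fun p => (image_preimage_subset _ _).trans h1)
    refine ⟨S ∪ S', h7.union h10, fun y hy => ?_⟩
    rw [biUnion_union]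
    by_cases h : ∃ p y', g p y' = y
    · obtain ⟨p, y', rfl⟩ := h
      exact Or.inr (h11 (mem_iUnion.2 ⟨p, y', hy, rfl⟩))
    push Not at h
    choose t ht using fun i => (y i).2
    let u : ℕ → W := fun j => if h : j < k + 1 then t ⟨j, h⟩ else γ
    have h12 : π (x ∘ u) = fun n => (y n).1 := funext fun i => by
      simp only [π, u, comp_apply, dif_pos i.2, ht]
    obtain ⟨z, ⟨h13, h14⟩, h15⟩ := h9 (k + 1) u (fun i hi j hj h13 => by
        by_contra h14
        simp only [u, dif_pos (mem_Iio.1 hi), dif_pos (mem_Iio.1 hj)] at h13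
        obtain ⟨j', h15⟩ := Fin.exists_succAbove_eq (x := ⟨j, hj⟩) (y := ⟨i, hi⟩)
          (fun h => h14 (congrArg Fin.val h).symm)
        refine h (⟨i, hi⟩, Sum.inr j') (Fin.removeNth ⟨i, hi⟩ y) ?_
        have h16 : Fin.removeNth ⟨i, hi⟩ y j' = y ⟨i, hi⟩ := by
          rw [Fin.removeNth, h15]
          exact Subtype.ext (by rw [← ht, ← ht, h13])
        simp only [g, Sum.elim_inr, h16, Fin.insertNth_self_removeNth])
      (fun j hj => not_lt.1 fun h13 => h (⟨j, hj⟩, Sum.inl ⟨_, h13⟩) (Fin.removeNth ⟨j, hj⟩ y) (by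
        have h16 : (⟨x (u j), u j, rfl⟩ : range x) = y ⟨j, hj⟩ :=
          Subtype.ext (by simp only [u, dif_pos hj, ht])
        simp only [g, Sum.elim_inl, h16, Fin.insertNth_self_removeNth]))
      (x ∘ u) _ h4 (by
        obtain ⟨s, hs⟩ := mem_iUnion.1 (h1 hy)
        rw [← h3] at hs
        exact mem_iUnion.2 ⟨s, by rwa [mem_preimage, h12]⟩) fun _ _ => rfl
    obtain ⟨s, h16, h17⟩ := mem_iUnion₂.1 (h14.resolve_right fun h => h (subset_closure h13))
    refine Or.inl (mem_biUnion h16 ?_)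
    have h18 : π z = π (x ∘ u) := funext fun i => h15 i i.2
    rwa [← h3, mem_preimage, ← h12, ← h18]

theorem lspace (CH : continuum.{0} = ℵ₁) : ∃ x : W → W → Bool,
    (∀ n, HereditarilyLindelofSpace (Fin n → range x)) ∧
    ∀ η β, ∃ ξ, x β ξ = true ∧ ∀ α < η, x α ξ = true → α = β := by
  classical
  obtain ⟨e, he⟩ := book
  obtain ⟨r, -, h2⟩ := luzin CH (id : W → W) mkW.le iio (fun _ => Set.univ)
    (fun _ => isOpen_univ) fun _ => univ_nonempty
  refine ⟨fun α i => if i < α then r α i else decide ((e i).1 = {α}), hl_pow fun G h3 h4 => ?_,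
    fun η β => ?_⟩
  · obtain ⟨γ, h5⟩ := h2 G h3 h4
    exact ⟨γ, fun k u h6 h7 z O h8 h9 h10 => h5 k u h6 h7 z O h8 h9 fun j hj i hi => by
      rw [h10 j hj]; exact if_pos (lt_of_lt_of_le hi (h7 j hj))⟩
  · obtain ⟨ξ, h3, h4⟩ := he ({β}, ∅, true) (max η β)
    refine ⟨ξ, ?_, fun α hα h => ?_⟩
    · simp [((le_max_right _ _).trans h3.le).not_gt, h4]
    · simp only [(hα.le.trans ((le_max_left _ _).trans h3.le)).not_gt, h4] at h
      simpa [eq_comm] using h

theorem no_lindelof (CH : continuum.{0} = ℵ₁) : ∃ (X : Type) (_ : TopologicalSpace X),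
    T35Space X ∧ (∀ n, HereditarilyLindelofSpace (Fin n → X)) ∧
    ¬ ∃ Z : Set (X → ℝ), {f | Continuous f} ⊆ Z ∧ IsLindelof Z := by
  classical
  obtain ⟨x, h1, h2⟩ := lspace CH
  refine ⟨range x, inferInstance, inferInstance, h1, fun ⟨Z, h3, h4⟩ => ?_⟩
  let ι : W → range x := fun α => ⟨x α, α, rfl⟩
  obtain ⟨S, h5, h6⟩ := h4.elim_countable_subcover
    (fun p : {p : W × W // p.1 ≠ p.2} => {f | |f (ι p.1.1) - f (ι p.1.2)| < 1})
    (fun p => isOpen_lt (by fun_prop) continuous_const) (fun f _ => by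
      have : ¬ Injective fun α => ⌊f (ι α)⌋ := fun h => by
        obtain ⟨β, h5⟩ := bdd (countable_of_injective_of_countable_image (s := Set.univ) h.injOn
          (to_countable _))
        exact lt_irrefl _ (h5 β (mem_univ β))
      obtain ⟨α, β, h5, h6⟩ := not_injective_iff.1 this
      exact mem_iUnion.2 ⟨⟨(α, β), h6⟩, Int.abs_sub_lt_one_of_floor_eq_floor h5⟩)
  obtain ⟨η, h7⟩ := bdd ((h5.image fun p => p.1.1).union (h5.image fun p => p.1.2))
  choose ξ h8 h9 using h2 η
  have := h1 1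
  have hc : ∀ i, Continuous fun y : range x => y.1 i := fun i =>
    (continuous_apply i).comp continuous_subtype_val
  obtain ⟨T, h10, h11⟩ := (HereditarilyLindelofSpace.isLindelof (Set.univ : Set (Fin 1 → range x))
    ).elim_countable_subcover (fun β => {y | (y 0).1 (ξ β) = true})
    (fun β => (isOpen_discrete {true}).preimage (f := fun y : Fin 1 → range x => (y 0).1 (ξ β))
      ((hc _).comp (continuous_apply 0))) fun y _ => let ⟨β, h⟩ := (y 0).2; mem_iUnion.2 ⟨β, by
        show (y 0).1 _ = _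
        rw [← h, h8]⟩
  obtain ⟨b, hb⟩ := (h10.insert η).exists_eq_range (insert_nonempty _ _)
  have h12 : ∀ y : range x, ∃ m, y.1 (ξ (b m)) = true := fun y => by
    obtain ⟨β, h12, h13⟩ := mem_iUnion₂.1 (h11 (mem_univ fun _ => y))
    obtain ⟨m, rfl⟩ : β ∈ range b := hb ▸ Or.inr h12
    exact ⟨m, h13⟩
  have h13 : Continuous fun y => Nat.find (h12 y) := continuous_discrete_rng.2 fun m => by
    have : (fun y => Nat.find (h12 y)) ⁻¹' {m} = (fun y => y.1 (ξ (b m))) ⁻¹' {true} ∩
      ⋂ j ∈ Iio m, (fun y => y.1 (ξ (b j))) ⁻¹' {true}ᶜ := by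
      ext y; simp [Nat.find_eq_iff]
    rw [this]
    exact ((isOpen_discrete _).preimage (hc _)).inter ((finite_Iio m).isOpen_biInter
      fun j _ => (isOpen_discrete _).preimage (hc _))
  obtain ⟨p, h14, h15⟩ := mem_iUnion₂.1 (h6 (h3 (a := fun y => (Nat.find (h12 y) : ℝ))
    ((continuous_of_discreteTopology (f := (Nat.cast : ℕ → ℝ))).comp h13)))
  have h16 : Nat.find (h12 (ι p.1.1)) = Nat.find (h12 (ι p.1.2)) := by
    have h16 := abs_lt.1 (show |(Nat.find (h12 (ι p.1.1)) : ℝ) - Nat.find (h12 (ι p.1.2))| < 1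
      from h15)
    have h17 : Nat.find (h12 (ι p.1.1)) < Nat.find (h12 (ι p.1.2)) + 1 := by
      exact_mod_cast (by linarith [h16.2] :
        (Nat.find (h12 (ι p.1.1)) : ℝ) < Nat.find (h12 (ι p.1.2)) + 1)
    have h18 : Nat.find (h12 (ι p.1.2)) < Nat.find (h12 (ι p.1.1)) + 1 := by
      exact_mod_cast (by linarith [h16.1] :
        (Nat.find (h12 (ι p.1.2)) : ℝ) < Nat.find (h12 (ι p.1.1)) + 1)
    omega
  refine p.2 ((h9 _ _ (h7 _ (Or.inl ⟨p, h14, rfl⟩)) (Nat.find_spec (h12 (ι p.1.1)))).trans ?_)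
  rw [h16]
  exact (h9 _ _ (h7 _ (Or.inr ⟨p, h14, rfl⟩)) (Nat.find_spec (h12 (ι p.1.2)))).symm

end Pool.Agent.H82.Luz
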