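import Mathlib

set_option autoImplicit false

namespace Pool.Agent.H82.CpDefs

/-- the topology of pointwise convergence on the continuous real functions -/
abbrev ptw (X : Type) [TopologicalSpace X] : TopologicalSpace C(X, ℝ) :=
  TopologicalSpace.induced (fun f : C(X, ℝ) => (f : X → ℝ)) inferInstance

/-- there is an extender continuous for the pointwise topologies -/
def TEmbedded {X : Type} [TopologicalSpace X] (A : Set X) : Prop :=
  ∃ φ : C(A, ℝ) → C(X, ℝ), @Continuous _ _ (ptw A) (ptw X) φ ∧
    ∀ (f : C(A, ℝ)) (a : A), φ f a = f a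

/-- there is a linear extender continuous for the pointwise topologies -/
def LEmbedded {X : Type} [TopologicalSpace X] (A : Set X) : Prop :=
  ∃ φ : C(A, ℝ) →ₗ[ℝ] C(X, ℝ), @Continuous _ _ (ptw A) (ptw X) φ ∧
    ∀ (f : C(A, ℝ)) (a : A), φ f a = f a

def Extendial (X : Type) [TopologicalSpace X] : Prop := ∀ A : Set X, IsClosed A → LEmbedded A

def TExtendial (X : Type) [TopologicalSpace X] : Prop := ∀ A : Set X, IsClosed A → TEmbedded A

/-- linear homeomorphism of the pointwise function spaces -/
def LEquiv (X Y : Type) [TopologicalSpace X] [TopologicalSpace Y] : Prop :=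
  ∃ e : C(X, ℝ) ≃ₗ[ℝ] C(Y, ℝ), @Continuous _ _ (ptw X) (ptw Y) e ∧
    @Continuous _ _ (ptw Y) (ptw X) e.symm

def LStable (X : Type) [TopologicalSpace X] : Prop :=
  ∀ A : Set X, LEmbedded A → LEquiv X (X ⊕ A)

def SStable (X : Type) [TopologicalSpace X] : Prop := LEquiv (X × OnePoint ℕ) X

end Pool.Agent.H82.CpDefs
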