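import Mathlib

set_option autoImplicit false

namespace Pool.Agent.H82.MonoAdd

open Set Filter Topology BoundedContinuousFunction

variable {X : Type}

lemma basic_nhd {U : Set (X → ℝ)} (hU : IsOpen U) {u : X → ℝ} (hu : u ∈ U) :
    ∃ (I : Finset X) (δ : ℝ), 0 < δ ∧ ∀ v : X → ℝ, (∀ x ∈ I, |v x - u x| < δ) → v ∈ U := by
  have h := hU.mem_nhds hu
  rw [nhds_pi, Filter.mem_pi'] at h
  obtain ⟨I, t, ht, hsub⟩ := h
  have : ∀ x, ∃ δ : ℝ, 0 < δ ∧ ∀ y, |y - u x| < δ → y ∈ t x := by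
    intro x
    obtain ⟨δ, hδ, hb⟩ := Metric.mem_nhds_iff.1 (ht x)
    exact ⟨δ, hδ, fun y hy => hb (by simpa [Real.dist_eq] using hy)⟩
  choose d hd hdt using this
  by_cases hI : I.Nonempty
  · refine ⟨I, I.inf' hI d, ?_, fun v hv => hsub fun x hx => hdt x _ ?_⟩
    · rw [Finset.lt_inf'_iff]; exact fun x _ => hd x
    · exact (hv x hx).trans_le (Finset.inf'_le d hx)
  · refine ⟨I, 1, one_pos, fun v _ => hsub fun x hx => absurd ⟨x, hx⟩ hI⟩

lemma box_open (I : Finset X) (u : X → ℝ) (δ : ℝ) :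
    IsOpen {v : X → ℝ | ∀ x ∈ I, |v x - u x| < δ} := by
  have : {v : X → ℝ | ∀ x ∈ I, |v x - u x| < δ} = ⋂ x ∈ I, {v : X → ℝ | |v x - u x| < δ} := by
    ext v; simp
  rw [this]
  exact isOpen_biInter_finset fun x _ => isOpen_lt (by fun_prop) continuous_const

def tr (r t : ℝ) : ℝ := max (-r) (min r t)

lemma tr_cont (r : ℝ) : Continuous (tr r) := by unfold tr; fun_prop

lemma tr_abs {r : ℝ} (hr : 0 ≤ r) (t : ℝ) : |tr r t| ≤ r := by
  unfold tr; rw [abs_le]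
  exact ⟨le_max_left _ _, max_le (by linarith) (min_le_left _ _)⟩

lemma tr_id {r t : ℝ} (h : |t| ≤ r) : tr r t = t := by
  unfold tr; rw [abs_le] at h
  rw [min_eq_right h.2, max_eq_right h.1]

theorem main [TopologicalSpace X] (Y : ℕ → Set (X → ℝ))
    (hY : (⋃ n, Y n) = {f : X → ℝ | Continuous f})
    (hm : ∀ n, ∀ A : Set (X → ℝ), A ⊆ Y n → A.Countable →
      ∃ 𝒩 : Set (Set (X → ℝ)), 𝒩.Countable ∧
        ∀ x ∈ closure A ∩ Y n, ∀ U : Set (X → ℝ), IsOpen U → x ∈ U →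
          ∃ N ∈ 𝒩, x ∈ N ∧ N ⊆ U)
    (A : Set (X → ℝ)) (hA : A ⊆ {f : X → ℝ | Continuous f}) (hAc : A.Countable) :
    ∃ 𝒩 : Set (Set (X → ℝ)), 𝒩.Countable ∧
        ∀ x ∈ closure A ∩ {f : X → ℝ | Continuous f}, ∀ U : Set (X → ℝ), IsOpen U → x ∈ U →
          ∃ N ∈ 𝒩, x ∈ N ∧ N ⊆ U := by
  classical
  have : Countable A := hAc.to_subtype
  let σ : ℝ → unitInterval := unitInterval.sigmoid
  have hσ : IsEmbedding σ := Topology.isEmbedding_sigmoid
  let Φ : X → (A → unitInterval) := fun x a => σ (a.1 x)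
  have hΦ : Continuous Φ := continuous_pi fun a => hσ.continuous.comp (hA a.2)
  let ι : C(A → unitInterval, ℝ) → (X → ℝ) := fun h x => h (Φ x)
  have hι : Continuous ι := continuous_pi fun x => continuous_eval_const (Φ x)
  let S : Set (X → ℝ) := closure (range ι)
  have hSadd : ∀ u ∈ S, ∀ v ∈ S, u + v ∈ S := by
    intro u hu v hv
    refine map_mem_closure₂ (f := fun u v : X → ℝ => u + v) (by fun_prop) hu hv ?_
    rintro _ ⟨a, rfl⟩ _ ⟨b, rfl⟩
    exact ⟨a + b, rfl⟩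
  have hScomp : ∀ (θ : ℝ → ℝ), Continuous θ → ∀ u ∈ S, (fun x => θ (u x)) ∈ S := by
    intro θ hθ u hu
    refine map_mem_closure (f := fun (u : X → ℝ) x => θ (u x)) (by fun_prop) hu ?_
    rintro _ ⟨a, rfl⟩
    exact ⟨(⟨θ, hθ⟩ : C(ℝ, ℝ)).comp a, rfl⟩
  let V : Set (X →ᵇ ℝ) := {g | (⇑g : X → ℝ) ∈ S}
  have hVc : IsClosed V :=
    isClosed_closure.preimage (continuous_pi fun x => continuous_eval_const x)
  have : CompleteSpace V := hVc.completeSpace_coe
  have : Nonempty V := ⟨⟨0, subset_closure ⟨0, by ext x; simp [ι]⟩⟩⟩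
  obtain ⟨n, v0, hv0⟩ := nonempty_interior_of_iUnion_of_closed
    (f := fun n => closure {v : V | (⇑v.1 : X → ℝ) ∈ Y n}) (fun _ => isClosed_closure) (by
      refine eq_univ_of_forall fun v => ?_
      have : (⇑v.1 : X → ℝ) ∈ ⋃ n, Y n := by rw [hY]; exact v.1.continuous
      obtain ⟨n, hn⟩ := mem_iUnion.1 this
      exact mem_iUnion.2 ⟨n, subset_closure hn⟩)
  obtain ⟨ε, hε, hball⟩ := Metric.mem_nhds_iff.1 (mem_interior_iff_mem_nhds.1 hv0)
  -- approximation inside the ball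
  have happ : ∀ u : X → ℝ, Continuous u → u ∈ S → (∀ x, |u x| ≤ ε / 2) → ∀ δ : ℝ, 0 < δ →
      ∃ y : X → ℝ, y ∈ Y n ∧ y ∈ S ∧ ∀ x, |y x - (v0.1 x + u x)| ≤ δ := by
    intro u hu huS hub δ hδ
    let ub : X →ᵇ ℝ := BoundedContinuousFunction.ofNormedAddCommGroup u hu (ε / 2) hub
    let w : V := ⟨v0.1 + ub, hSadd _ v0.2 _ huS⟩
    have hw : w ∈ Metric.ball v0 ε := by
      rw [Metric.mem_ball, Subtype.dist_eq]
      have : dist w.1 v0.1 ≤ ε / 2 := by
        rw [BoundedContinuousFunction.dist_le (by linarith)]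
        intro x
        simpa [w, ub, Real.dist_eq] using hub x
      linarith
    obtain ⟨y, hy, hd⟩ := Metric.mem_closure_iff.1 (hball hw) δ hδ
    refine ⟨y.1, hy, y.2, fun x => ?_⟩
    have := (BoundedContinuousFunction.dist_coe_le_dist (f := w.1) (g := y.1) x).trans
      (le_of_lt hd)
    rw [Real.dist_eq, abs_sub_comm] at this
    simpa [w, ub] using this
  obtain ⟨D, hDc, hDd⟩ := TopologicalSpace.exists_countable_dense C(A → unitInterval, ℝ)
  have hex : ∀ (h : C(A → unitInterval, ℝ)) (k : ℕ), ∃ y : X → ℝ, y ∈ Y n ∧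
      ∀ x, |y x - (v0.1 x + tr (ε / 2) (ι h x))| ≤ 1 / ((k : ℝ) + 1) := by
    intro h k
    obtain ⟨y, h1, -, h2⟩ := happ (fun x => tr (ε / 2) (ι h x))
      ((tr_cont _).comp (h.continuous.comp hΦ))
      (hScomp _ (tr_cont _) _ (subset_closure ⟨h, rfl⟩)) (fun x => tr_abs (by linarith) _)
      (1 / ((k : ℝ) + 1)) Nat.one_div_pos_of_nat
    exact ⟨y, h1, h2⟩
  choose b hbY hb using hex
  let B : Set (X → ℝ) := image2 b D univ
  have hBc : B.Countable := hDc.image2 countable_univ _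
  have hBY : B ⊆ Y n := by rintro _ ⟨h, -, k, -, rfl⟩; exact hbY h k
  have hclB : ∀ y ∈ S, (∀ x, |y x - v0.1 x| ≤ ε / 2) → y ∈ closure B := by
    intro y hy hyb
    have h1 : (fun x => y x - v0.1 x) ∈ S := by
      have := hSadd _ hy _ (hScomp (fun t => -t) continuous_neg _ v0.2)
      convert this using 1
      ext x; simp [sub_eq_add_neg]
    have h2 : S ⊆ closure (ι '' D) := by
      refine closure_minimal ?_ isClosed_closure
      rintro _ ⟨h, rfl⟩
      exact map_mem_closure hι (hDd h) fun _ hh => mem_image_of_mem _ hh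
    have h3 : (fun x => v0.1 x + tr (ε / 2) (y x - v0.1 x)) ∈ closure (closure B) := by
      refine map_mem_closure (f := fun (u : X → ℝ) x => v0.1 x + tr (ε / 2) (u x))
        (continuous_pi fun x => continuous_const.add ((tr_cont _).comp (continuous_apply x)))
        (h2 h1) ?_
      rintro _ ⟨h, hh, rfl⟩
      refine mem_closure_of_tendsto (f := fun k => b h k) (b := atTop) ?_
        (Eventually.of_forall fun k => ⟨h, hh, k, trivial, rfl⟩)
      rw [tendsto_pi_nhds]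
      intro x
      rw [tendsto_iff_dist_tendsto_zero]
      refine squeeze_zero (fun _ => dist_nonneg) (fun k => ?_)
        tendsto_one_div_add_atTop_nhds_zero_nat
      rw [Real.dist_eq]; exact hb h k x
    rw [closure_closure] at h3
    convert h3 using 1
    ext x; rw [tr_id (hyb x)]; ring
  obtain ⟨𝒩, h𝒩c, h𝒩⟩ := hm n B hBY hBc
  let Ψ : (X → ℝ) → (X → ℝ) := fun g x => v0.1 x + ε / 4 * (σ (g x) : ℝ)
  have hΨ : IsInducing Ψ := by
    have h1 : ∀ x, IsInducing (fun t : ℝ => v0.1 x + ε / 4 * (σ t : ℝ)) := fun x =>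
      (((Homeomorph.mulLeft₀ (ε / 4) (by positivity)).trans
        (Homeomorph.addLeft (v0.1 x))).isInducing.comp IsInducing.subtypeVal).comp hσ.isInducing
    exact IsInducing.piMap h1
  let M : Set (X → ℝ) → ℕ → Set (X → ℝ) := fun N k =>
    {g | ∃ y ∈ N, ∀ x, |y x - Ψ g x| ≤ 1 / ((k : ℝ) + 1)}
  refine ⟨image2 M 𝒩 univ, h𝒩c.image2 countable_univ _, ?_⟩
  rintro f ⟨hf, hfc⟩ U hU hfU
  obtain ⟨U', hU', rfl⟩ := hΨ.isOpen_iff.1 hU
  obtain ⟨I, δ, hδ, hI⟩ := basic_nhd hU' hfU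
  obtain ⟨k, hk⟩ := exists_nat_one_div_lt (lt_min (by positivity : 0 < δ / 3)
    (by positivity : 0 < ε / 4))
  have hk1 := (lt_min_iff.1 hk).1
  have hk2 := (lt_min_iff.1 hk).2
  have hσb : ∀ t, |ε / 4 * (σ t : ℝ)| ≤ ε / 4 := fun t => by
    have h0 := (σ t).2.1
    have h1 := (σ t).2.2
    rw [abs_of_nonneg (by positivity)]
    nlinarith
  have hfS : (fun x => ε / 4 * (σ (f x) : ℝ)) ∈ S := by
    refine map_mem_closure (f := fun (g : X → ℝ) x => ε / 4 * (σ (g x) : ℝ))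
      (continuous_pi fun x => continuous_const.mul
        (continuous_subtype_val.comp (hσ.continuous.comp (continuous_apply x)))) hf ?_
    intro a ha
    exact ⟨⟨fun z => ε / 4 * (z ⟨a, ha⟩ : ℝ), by fun_prop⟩, rfl⟩
  obtain ⟨y, hyY, hyS, hy⟩ := happ (fun x => ε / 4 * (σ (f x) : ℝ))
    (continuous_const.mul (continuous_subtype_val.comp (hσ.continuous.comp hfc))) hfS
    (fun x => (hσb _).trans (by linarith)) (1 / ((k : ℝ) + 1)) Nat.one_div_pos_of_nat
  have hyB : y ∈ closure B := hclB y hyS fun x => by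
    have h1 := abs_le.1 (hy x)
    have h2 := abs_le.1 (hσb (f x))
    rw [abs_le]; constructor <;> linarith
  obtain ⟨N, hN, hyN, hNs⟩ := h𝒩 y ⟨hyB, hyY⟩ _ (box_open I y (1 / ((k : ℝ) + 1)))
    (fun x _ => by rw [sub_self, abs_zero]; exact Nat.one_div_pos_of_nat)
  refine ⟨M N k, ⟨N, hN, k, trivial, rfl⟩, ⟨y, hyN, hy⟩, ?_⟩
  rintro g ⟨z, hzN, hz⟩
  refine hI _ fun x hx => ?_
  have h1 := abs_le.1 (hz x)
  have h2 := abs_lt.1 (hNs hzN x hx)
  have h3 := abs_le.1 (hy x)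
  have h4 : Ψ f x = v0.1 x + ε / 4 * (σ (f x) : ℝ) := rfl
  rw [abs_lt]; constructor <;> linarith

end Pool.Agent.H82.MonoAdd
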