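import Mathlib
import Pool.Agent.H82.MonoAdd
import Pool.Agent.H82.CpDefs

set_option autoImplicit false

namespace Pool.Agent.H82.Extd

open Set Filter Topology OnePoint CpDefs

/-- the double arrow space as the monotone two valued functions on the line -/
abbrev D : Type := {u : ℝ → Bool // Monotone u}

instance : CompactSpace D := by
  refine isCompact_iff_compactSpace.1 (IsClosed.isCompact ?_)
  have : {u : ℝ → Bool | Monotone u} = ⋂ a, ⋂ b, ⋂ (_ : a ≤ b), {u | u a ≤ u b} := by
    ext u; simp [Monotone]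
  show IsClosed {u : ℝ → Bool | Monotone u}
  rw [this]
  have hc : IsClosed {p : Bool × Bool | p.1 ≤ p.2} := isClosed_discrete _
  exact isClosed_iInter fun a => isClosed_iInter fun b => isClosed_iInter fun _ =>
    hc.preimage (f := fun u : ℝ → Bool => (u a, u b)) (by fun_prop)

lemma nhd_D {u : D} {s : Set D} (hs : s ∈ 𝓝 u) :
    ∃ I : Finset ℝ, ∀ v : D, (∀ y ∈ I, v.1 y = u.1 y) → v ∈ s := by
  obtain ⟨t, ht, hts⟩ := (mem_nhds_subtype _ u s).1 hs
  rw [nhds_pi, Filter.mem_pi'] at ht
  obtain ⟨I, w, hw, hsub⟩ := ht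
  exact ⟨I, fun v hv => hts (hsub fun y hy => by rw [hv y hy]; exact mem_of_mem_nhds (hw y))⟩

lemma mono_true (u : D) {a b : ℝ} (h : a ≤ b) (ha : u.1 a = true) : u.1 b = true := by
  have := u.2 h
  rw [ha] at this
  exact top_le_iff.1 this

lemma mono_false (u : D) {a b : ℝ} (h : a ≤ b) (hb : u.1 b = false) : u.1 a = false := by
  by_contra ha
  rw [mono_true u h (by simpa using ha)] at hb
  exact absurd hb (by simp)

theorem retract (A : Set D) (hA : IsClosed A) (hne : A.Nonempty) :
    ∃ r : D → D, Continuous r ∧ (∀ u, r u ∈ A) ∧ ∀ v ∈ A, r v = v := by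
  classical
  let cls : ℝ → Set ℝ := fun y => {z | ∀ v ∈ A, v.1 z = v.1 y}
  let pick : Set ℝ → ℝ := fun S => if h : S.Nonempty then h.some else 0
  let κ : ℝ → ℝ := fun y => pick (cls y)
  have hκ : ∀ y, ∀ v ∈ A, v.1 (κ y) = v.1 y := by
    intro y
    have h : (cls y).Nonempty := ⟨y, fun _ _ => rfl⟩
    have : κ y = h.some := by simp only [κ, pick, dif_pos h]
    rw [this]
    exact h.some_mem
  have hκe : ∀ y y', (∀ v ∈ A, v.1 y = v.1 y') → κ y = κ y' := by
    intro y y' h
    have : cls y = cls y' := by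
      ext z; exact forall₂_congr fun v hv => by rw [h v hv]
    simp only [κ, this]
  let r0 : D → ℝ → Bool := fun u y =>
    if ∀ v ∈ A, v.1 y = true then true else if ∀ v ∈ A, v.1 y = false then false else u.1 (κ y)
  have hsame : ∀ u y y', (∀ v ∈ A, v.1 y = v.1 y') → r0 u y = r0 u y' := by
    intro u y y' h
    have h1 : (∀ v ∈ A, v.1 y = true) ↔ ∀ v ∈ A, v.1 y' = true :=
      forall₂_congr fun v hv => by rw [h v hv]
    have h2 : (∀ v ∈ A, v.1 y = false) ↔ ∀ v ∈ A, v.1 y' = false :=
      forall₂_congr fun v hv => by rw [h v hv]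
    simp only [r0, h1, h2, hκe y y' h]
  have hmono : ∀ u, Monotone (r0 u) := by
    intro u y y' hy
    by_cases hs : ∀ v ∈ A, v.1 y = v.1 y'
    · exact (hsame u y y' hs).le
    push Not at hs
    obtain ⟨v, hv, hvy⟩ := hs
    have h0 : v.1 y = false := by
      by_contra h
      have h' : v.1 y = true := by simpa using h
      exact hvy (h'.trans (mono_true v hy h').symm)
    have h1 : v.1 y' = true := by
      rw [h0] at hvy; simpa using hvy.symm
    have hk : κ y ≤ κ y' := by
      by_contra h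
      have := mono_true v (not_le.1 h).le ((hκ y' v hv).trans h1)
      rw [hκ y v hv, h0] at this
      exact absurd this (by simp)
    have n1 : ¬ ∀ v ∈ A, v.1 y = true := fun h => by
      have := h v hv; rw [h0] at this; exact absurd this (by simp)
    have n2 : ¬ ∀ v ∈ A, v.1 y' = false := fun h => by
      have := h v hv; rw [h1] at this; exact absurd this (by simp)
    simp only [r0, if_neg n1, if_neg n2]
    split_ifs
    · exact bot_le
    · exact bot_le
    · exact le_top
    · exact u.2 hk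
  let r : D → D := fun u => ⟨r0 u, hmono u⟩
  have ht : ∀ u y, r0 u y = true → ∃ v ∈ A, v.1 y = true := by
    intro u y h
    by_contra hc
    push Not at hc
    obtain ⟨v, hv⟩ := hne
    have n1 : ¬ ∀ v ∈ A, v.1 y = true := fun h => hc v hv (h v hv)
    have n2 : ∀ v ∈ A, v.1 y = false := fun v hv => by simpa using hc v hv
    simp only [r0, if_neg n1, if_pos n2] at h
    exact absurd h (by simp)
  have hf : ∀ u y, r0 u y = false → ∃ v ∈ A, v.1 y = false := by
    intro u y h
    by_contra hc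
    push Not at hc
    have n2 : ∀ v ∈ A, v.1 y = true := fun v hv => by simpa using hc v hv
    simp only [r0, if_pos n2] at h
    exact absurd h (by simp)
  have hft : ∀ u y y', r0 u y = false → r0 u y' = true →
      ∃ v ∈ A, v.1 y = false ∧ v.1 y' = true := by
    intro u y y' h h'
    have hs : ¬ ∀ v ∈ A, v.1 y = v.1 y' := fun hs => by
      rw [hsame u y y' hs, h'] at h; exact absurd h (by simp)
    push Not at hs
    obtain ⟨v, hv, hvy⟩ := hs
    have hy : y ≤ y' := by
      by_contra hc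
      have := mono_true (r u) (not_le.1 hc).le h'
      rw [show (r u).1 y = r0 u y from rfl, h] at this
      exact absurd this (by simp)
    have h0 : v.1 y = false := by
      by_contra h
      have h' : v.1 y = true := by simpa using h
      exact hvy (h'.trans (mono_true v hy h').symm)
    exact ⟨v, hv, h0, by rw [h0] at hvy; simpa using hvy.symm⟩
  refine ⟨r, ?_, ?_, ?_⟩
  · refine Continuous.subtype_mk (continuous_pi fun y => ?_) _
    simp only [r0]
    split_ifs
    · exact continuous_const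
    · exact continuous_const
    · exact (continuous_apply _).comp continuous_subtype_val
  · intro u
    rw [← hA.closure_eq, mem_closure_iff_nhds]
    intro s hs
    obtain ⟨I, hI⟩ := nhd_D hs
    suffices h : ∃ v ∈ A, (∀ y ∈ I.filter (r0 u · = false), v.1 y = false) ∧
        ∀ y ∈ I.filter (r0 u · = true), v.1 y = true by
      obtain ⟨v, hv, h0, h1⟩ := h
      refine ⟨v, hI v fun y hy => ?_, hv⟩
      show v.1 y = r0 u y
      cases h : r0 u y
      · exact h0 y (Finset.mem_filter.2 ⟨hy, h⟩)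
      · exact h1 y (Finset.mem_filter.2 ⟨hy, h⟩)
    rcases (I.filter (r0 u · = false)).eq_empty_or_nonempty with h0 | h0 <;>
      rcases (I.filter (r0 u · = true)).eq_empty_or_nonempty with h1 | h1
    · obtain ⟨v, hv⟩ := hne
      exact ⟨v, hv, by simp [h0], by simp [h1]⟩
    · obtain ⟨v, hv, h⟩ := ht u _ (Finset.mem_filter.1 (Finset.min'_mem _ h1)).2
      exact ⟨v, hv, by simp [h0], fun y hy => mono_true v (Finset.min'_le _ y hy) h⟩
    · obtain ⟨v, hv, h⟩ := hf u _ (Finset.mem_filter.1 (Finset.max'_mem _ h0)).2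
      exact ⟨v, hv, fun y hy => mono_false v (Finset.le_max' _ y hy) h, by simp [h1]⟩
    · obtain ⟨v, hv, h, h'⟩ := hft u _ _ (Finset.mem_filter.1 (Finset.max'_mem _ h0)).2
        (Finset.mem_filter.1 (Finset.min'_mem _ h1)).2
      exact ⟨v, hv, fun y hy => mono_false v (Finset.le_max' _ y hy) h,
        fun y hy => mono_true v (Finset.min'_le _ y hy) h'⟩
  · intro v hv
    ext y
    show r0 v y = v.1 y
    simp only [r0]
    split_ifs with h1 h2
    · exact (h1 v hv).symm
    · exact (h2 v hv).symm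
    · exact hκ y v hv

lemma unif {Z : Type} [TopologicalSpace Z] [CompactSpace Z] {p : Z → OnePoint ℕ}
    (hp : Continuous p) {H : Z → ℝ} (hH : Continuous H) (h0 : ∀ z, p z = ∞ → H z = 0)
    {ε : ℝ} (hε : 0 < ε) : ∀ᶠ k in 𝓝 (∞ : OnePoint ℕ), ∀ z, p z = k → |H z| < ε := by
  have hc : IsClosed (p '' {z | ε ≤ |H z|}) :=
    ((isClosed_le continuous_const hH.abs).isCompact.image hp).isClosed
  have : (p '' {z | ε ≤ |H z|})ᶜ ∈ 𝓝 (∞ : OnePoint ℕ) := by
    refine hc.isOpen_compl.mem_nhds ?_
    rintro ⟨z, hz, hzp⟩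
    simp only [mem_ofPred_eq, h0 z hzp, abs_zero] at hz
    linarith
  filter_upwards [this] with k hk z hz
  by_contra h
  exact hk ⟨z, not_lt.1 h, hz⟩

lemma cont_prod {Z : Type} [TopologicalSpace Z] {F : Z × OnePoint ℕ → ℝ}
    (h1 : ∀ k, Continuous fun u => F (u, k))
    (h2 : ∀ ε > 0, ∀ᶠ k in 𝓝 (∞ : OnePoint ℕ), ∀ u, |F (u, k) - F (u, ∞)| < ε) :
    Continuous F := by
  rw [continuous_iff_continuousAt]
  rintro ⟨u, k⟩
  induction k using OnePoint.rec with
  | infty =>
    rw [ContinuousAt, Metric.tendsto_nhds]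
    intro ε hε
    have e1 := Metric.tendsto_nhds.1 ((h1 ∞).tendsto u) (ε / 2) (by linarith)
    rw [nhds_prod_eq]
    filter_upwards [e1.prod_mk (h2 (ε / 2) (by linarith))] with z hz
    have h3 := abs_lt.1 (hz.2 z.1)
    have h4 := hz.1
    rw [Real.dist_eq, abs_lt] at h4 ⊢
    constructor <;> linarith [h4.1, h4.2]
  | coe n =>
    refine (((h1 n).comp continuous_fst).continuousAt (x := (u, (n : OnePoint ℕ)))).congr ?_
    have : ∀ᶠ k : OnePoint ℕ in 𝓝 (n : OnePoint ℕ), k = (n : OnePoint ℕ) := by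
      have h := OnePoint.isOpenEmbedding_coe.isOpenMap {n} (isOpen_discrete _)
      rw [image_singleton] at h
      exact h.mem_nhds rfl
    filter_upwards [(continuous_snd.tendsto (u, (n : OnePoint ℕ))).eventually this] with z hz
    show F (z.1, n) = F z
    have hz' : z.2 = n := hz
    rw [← hz']

theorem extendial : Extendial (D × OnePoint ℕ) := by
  classical
  intro A hA
  have : CompactSpace A := isCompact_iff_compactSpace.1 hA.isCompact
  have hρ : ∀ k : OnePoint ℕ, ∃ ρ : D → D, Continuous ρ ∧ (∀ u, (u, k) ∈ A → ρ u = u) ∧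
      ((∀ u, (ρ u, k) ∈ A) ∨ ∀ u, (u, k) ∉ A) := by
    intro k
    by_cases h : {u | (u, k) ∈ A}.Nonempty
    · obtain ⟨r, h1, h2, h3⟩ := retract {u | (u, k) ∈ A} (hA.preimage (by fun_prop)) h
      exact ⟨r, h1, h3, Or.inl h2⟩
    · exact ⟨id, continuous_id, fun _ _ => rfl, Or.inr fun u hu => h ⟨u, hu⟩⟩
  choose ρ hρc hρ1 hρ2 using hρ
  let ex : C(A, ℝ) → D × OnePoint ℕ → ℝ := fun f z => if h : z ∈ A then f ⟨z, h⟩ else 0
  let ind : D × OnePoint ℕ → ℝ := fun z => if z ∈ A then 1 else 0
  let g : C(A, ℝ) → D → ℝ := fun f u => ex f (ρ ∞ u, ∞)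
  let F : C(A, ℝ) → D × OnePoint ℕ → ℝ := fun f z =>
    g f z.1 + (ex f (ρ z.2 z.1, z.2) - ind (ρ z.2 z.1, z.2) * g f (ρ z.2 z.1))
  have hex : ∀ f k, Continuous fun u => ex f (ρ k u, k) := by
    intro f k
    rcases hρ2 k with h | h
    · simp only [ex, dif_pos (h _)]
      exact f.continuous.comp (Continuous.subtype_mk ((hρc k).prodMk continuous_const) _)
    · simp only [ex, dif_neg (h _)]
      exact continuous_const
  have hind : ∀ k, Continuous fun u => ind (ρ k u, k) := by
    intro k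
    rcases hρ2 k with h | h
    · simp only [ind, if_pos (h _)]; exact continuous_const
    · simp only [ind, if_neg (h _)]; exact continuous_const
  have hg : ∀ f, Continuous (g f) := fun f => hex f ∞
  have hH : ∀ f, ∀ ε > 0, ∀ᶠ k in 𝓝 (∞ : OnePoint ℕ), ∀ u,
      |ex f (u, k) - ind (u, k) * g f u| < ε := by
    intro f ε hε
    have := unif (Z := A) (p := fun z => z.1.2) (by fun_prop) (H := fun z => f z - g f z.1.1)
      (f.continuous.sub ((hg f).comp (by fun_prop))) (by
        rintro ⟨⟨u, k⟩, hz⟩ h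
        simp only at h
        subst h
        simp only [g, ex, hρ1 ∞ u hz, dif_pos hz, sub_self]) hε
    filter_upwards [this] with k hk u
    by_cases h : (u, k) ∈ A
    · simpa only [ex, ind, dif_pos h, if_pos h, one_mul] using hk ⟨(u, k), h⟩ rfl
    · simpa only [ex, ind, dif_neg h, if_neg h, zero_mul, sub_self, abs_zero] using hε
  have hF0 : ∀ f u, F f (u, ∞) = g f u := by
    intro f u
    by_cases h : (ρ ∞ u, ∞) ∈ A
    · simp only [F, g, ind, if_pos h, hρ1 ∞ _ h]; ring
    · simp only [F, g, ind, if_neg h, ex, dif_neg h]; ring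
  have hF : ∀ f, Continuous (F f) := by
    intro f
    refine cont_prod (fun k => (hg f).add ((hex f k).sub ((hind k).mul ((hg f).comp (hρc k)))))
      fun ε hε => ?_
    filter_upwards [hH f ε hε] with k hk u
    rw [hF0]
    simpa only [F, add_sub_cancel_left] using hk (ρ k u)
  have exadd : ∀ f f' z, ex (f + f') z = ex f z + ex f' z := by
    intro f f' z; simp only [ex]; split_ifs <;> simp
  have exsmul : ∀ (c : ℝ) f z, ex (c • f) z = c * ex f z := by
    intro c f z; simp only [ex]; split_ifs <;> simp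
  have excont : ∀ z, @Continuous _ _ (ptw A) _ fun f => ex f z := by
    intro z
    by_cases h : z ∈ A
    · simp only [ex, dif_pos h]
      exact @Continuous.comp _ _ _ (ptw A) _ _ _ _ (continuous_apply (⟨z, h⟩ : A))
        continuous_induced_dom
    · simp only [ex, dif_neg h]; exact @continuous_const _ _ (ptw A) _ _
  refine ⟨{ toFun := fun f => ⟨F f, hF f⟩, map_add' := ?_, map_smul' := ?_ }, ?_, ?_⟩
  · intro f f'; ext z
    simp only [ContinuousMap.coe_mk, ContinuousMap.add_apply, F, g, exadd]; ring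
  · intro c f; ext z
    simp only [ContinuousMap.coe_mk, ContinuousMap.smul_apply, F, g, exsmul, RingHom.id_apply,
      smul_eq_mul]; ring
  · let _ := ptw A
    refine continuous_induced_rng.2 (continuous_pi fun z => ?_)
    exact (excont _).add ((excont _).sub (continuous_const.mul (excont _)))
  · rintro f ⟨⟨u, k⟩, h⟩
    show F f (u, k) = _
    simp only [F, hρ1 k u h, ind, if_pos h, ex, dif_pos h]; ring

lemma exists_c : ∃ c : ℝ → ℕ, ∀ n (J : Set ℝ), IsOpen J → J.Nonempty →
    ¬ (J ∩ {x | c x = n}).Countable := by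
  let H : AddSubgroup ℝ := (Rat.castHom ℝ).toAddMonoidHom.range
  let Q := ℝ ⧸ H
  have hcos : ∀ (q : Q) (J : Set ℝ), IsOpen J → J.Nonempty →
      ∃ x ∈ J, (QuotientAddGroup.mk x : Q) = q := by
    intro q J hJ hne
    obtain ⟨r, rfl⟩ := QuotientAddGroup.mk_surjective q
    obtain ⟨t, ht⟩ := Rat.denseRange_cast.exists_mem_open
      (hJ.preimage (continuous_const_add r)) (by
        obtain ⟨x, hx⟩ := hne
        exact ⟨x - r, by simpa using hx⟩)
    refine ⟨r + t, ht, ?_⟩
    rw [eq_comm, QuotientAddGroup.eq]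
    exact ⟨t, by simp⟩
  have hQ : ¬ Countable Q := by
    intro h
    have : Function.Surjective fun p : Q × ℚ => p.1.out + (p.2 : ℝ) := by
      intro x
      obtain ⟨t, ht⟩ := QuotientAddGroup.eq.1 (QuotientAddGroup.out_eq' (QuotientAddGroup.mk x : Q))
      refine ⟨(QuotientAddGroup.mk x, t), ?_⟩
      have ht' : (t : ℝ) = -(QuotientAddGroup.mk x : Q).out + x := ht
      simp only [ht']; ring
    exact not_countable (α := ℝ) this.countable
  have : Infinite Q := by
    by_contra h
    have := not_infinite_iff_finite.1 h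
    exact hQ inferInstance
  obtain ⟨e⟩ : Nonempty (Q ≃ Q × ℕ) := by
    rw [← Cardinal.eq]
    simp
  refine ⟨fun x => (e (QuotientAddGroup.mk x)).2, fun n J hJ hne hc => hQ ?_⟩
  choose x hxJ hx using fun q : Q => hcos (e.symm (q, n)) J hJ hne
  have := hc.to_subtype
  let ι : Q → (J ∩ {x | (e (QuotientAddGroup.mk x)).2 = n} : Set ℝ) := fun q =>
    ⟨x q, hxJ q, by simp [hx q]⟩
  refine Function.Injective.countable (f := ι) fun q q' h => ?_
  have h1 : x q = x q' := congrArg Subtype.val h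
  have h2 := hx q
  rw [h1, hx q'] at h2
  simpa using h2.symm

noncomputable def up (x : ℝ) : D := ⟨fun s => decide (x ≤ s), fun a b h => by
  by_cases h1 : x ≤ a
  · simp [h1, h1.trans h]
  · simp [h1]⟩

noncomputable def up' (x : ℝ) : D := ⟨fun s => decide (x < s), fun a b h => by
  by_cases h1 : x < a
  · simp [h1, h1.trans_le h]
  · simp [h1]⟩

lemma up_inj : Function.Injective up := by
  intro x y h
  have h1 := congrFun (congrArg Subtype.val h) x
  have h2 := congrFun (congrArg Subtype.val h) y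
  simp only [up, le_refl, decide_true, true_eq_decide_iff, decide_eq_true_eq] at h1 h2
  exact le_antisymm h2 h1

lemma up'_inj : Function.Injective up' := by
  intro x y h
  have h1 := congrFun (congrArg Subtype.val h) x
  have h2 := congrFun (congrArg Subtype.val h) y
  simp only [up', lt_self_iff_false, decide_false, false_eq_decide_iff, decide_eq_false_iff_not,
    not_lt] at h1 h2
  exact le_antisymm h1 h2

lemma tend_right (x : ℝ) : Tendsto up (𝓝[>] x) (𝓝 (up' x)) := by
  rw [tendsto_subtype_rng, tendsto_pi_nhds]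
  intro s
  refine tendsto_const_nhds.congr' ?_
  by_cases h : x < s
  · filter_upwards [nhdsWithin_le_nhds (Iio_mem_nhds h)] with y hy
    simp [up, up', h, le_of_lt (show y < s from hy)]
  · filter_upwards [self_mem_nhdsWithin] with y hy
    have : ¬ y ≤ s := fun h' => h (lt_of_lt_of_le hy h')
    simp [up, up', h, this]

lemma tend_left (x : ℝ) : Tendsto up (𝓝[<] x) (𝓝 (up x)) := by
  rw [tendsto_subtype_rng, tendsto_pi_nhds]
  intro s
  refine tendsto_const_nhds.congr' ?_
  by_cases h : x ≤ s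
  · filter_upwards [self_mem_nhdsWithin] with y hy
    simp [up, h, (le_of_lt (show y < x from hy)).trans h]
  · filter_upwards [nhdsWithin_le_nhds (Ioi_mem_nhds (not_le.1 h))] with y hy
    simp [up, h, not_le.2 (show s < y from hy)]

lemma loc_const (u : D) (x : ℝ) : ∀ᶠ s in 𝓝 x, u = up x ∨ u = up' x ∨ u.1 s = u.1 x := by
  by_cases h1 : u = up x
  · exact Eventually.of_forall fun _ => Or.inl h1
  by_cases h2 : u = up' x
  · exact Eventually.of_forall fun _ => Or.inr (Or.inl h2)
  cases h : u.1 x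
  · have : ∃ t, x < t ∧ u.1 t = false := by
      by_contra hc
      push Not at hc
      refine h2 (Subtype.ext (funext fun s => ?_))
      by_cases hs : x < s
      · simpa [up', hs] using hc s hs
      · simpa [up', hs] using mono_false u (not_lt.1 hs) h
    obtain ⟨t, ht, hu⟩ := this
    filter_upwards [Iio_mem_nhds ht] with s hs
    exact Or.inr (Or.inr (mono_false u (le_of_lt hs) hu))
  · have : ∃ t, t < x ∧ u.1 t = true := by
      by_contra hc
      push Not at hc
      refine h1 (Subtype.ext (funext fun s => ?_))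
      by_cases hs : x ≤ s
      · simpa [up, hs] using mono_true u hs h
      · simpa [up, hs] using hc s (not_le.1 hs)
    obtain ⟨t, ht, hu⟩ := this
    filter_upwards [Ioi_mem_nhds ht] with s hs
    exact Or.inr (Or.inr (mono_true u (le_of_lt hs) hu))

open Classical in
noncomputable def Φ (c : ℝ → ℕ) (z : D × OnePoint ℕ) : (ℝ → Bool) × OnePoint ℕ :=
  (fun y => if z.2 = (c y : OnePoint ℕ) then false else z.1.1 y, z.2)

lemma Φ_cont (c : ℝ → ℕ) : Continuous (Φ c) := by
  classical
  refine Continuous.prodMk (continuous_pi fun y => ?_) continuous_snd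
  refine @Continuous.if _ _ _ _ _ _ _ (_) ?_ continuous_const
    ((continuous_apply y).comp (continuous_subtype_val.comp continuous_fst))
  have h : IsClopen {k : OnePoint ℕ | k = (c y : OnePoint ℕ)} := by
    refine ⟨isClosed_singleton, ?_⟩
    have := OnePoint.isOpenEmbedding_coe.isOpenMap {c y} (isOpen_discrete _)
    rwa [image_singleton] at this
  have h2 : IsClopen {z : D × OnePoint ℕ | z.2 = (c y : OnePoint ℕ)} := h.preimage continuous_snd
  simp [h2.frontier_eq]

def bb (b : Bool) : ℝ := if b then 1 else 0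

lemma ptw_nhd {Z : Type} [TopologicalSpace Z] {ψ : C(Z, ℝ) → ℝ}
    (hψ : @Continuous _ _ (ptw Z) _ ψ) (f : C(Z, ℝ)) {ε : ℝ} (hε : 0 < ε) :
    ∃ F : Finset Z, ∀ g : C(Z, ℝ), (∀ z ∈ F, g z = f z) → |ψ g - ψ f| < ε := by
  let _ := ptw Z
  have h : IsOpen {g | |ψ g - ψ f| < ε} := isOpen_lt (hψ.sub continuous_const).abs continuous_const
  obtain ⟨U, hU, hUe⟩ := isOpen_induced_iff.1 h
  have hf : f ∈ {g | |ψ g - ψ f| < ε} := by simpa using hε
  rw [← hUe] at hf
  obtain ⟨I, δ, hδ, hI⟩ := MonoAdd.basic_nhd hU hf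
  refine ⟨I, fun g hg => ?_⟩
  have : g ∈ {g | |ψ g - ψ f| < ε} := by
    rw [← hUe]
    exact hI _ fun x hx => by simpa [hg x hx] using hδ
  exact this

theorem not_text (c : ℝ → ℕ) (hc : ∀ n (J : Set ℝ), IsOpen J → J.Nonempty →
    ¬ (J ∩ {x | c x = n}).Countable) : ¬ TExtendial (range (Φ c)) := by
  classical
  intro hT
  let A : Set (range (Φ c)) := {y | y.1.2 = ∞}
  have hA : IsClosed A := isClosed_eq (by fun_prop) continuous_const
  have : CompactSpace (range (Φ c)) := isCompact_iff_compactSpace.1 (isCompact_range (Φ_cont c))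
  have : CompactSpace A := isCompact_iff_compactSpace.1 hA.isCompact
  obtain ⟨φ, hφ, hφe⟩ := hT A hA
  have hm : ∀ z : A, ∃ u : D, u.1 = z.1.1.1 := by
    rintro ⟨⟨_, ⟨u, k⟩, rfl⟩, hz⟩
    have hk : k = ∞ := hz
    subst hk
    exact ⟨u, by ext y; simp [Φ]⟩
  choose m hm using hm
  let χ : ℝ → C(A, ℝ) := fun x =>
    ⟨fun z => bb (z.1.1.1 x), (continuous_of_discreteTopology (f := bb)).comp (by fun_prop)⟩
  let P : D × OnePoint ℕ → range (Φ c) := fun z => ⟨Φ c z, z, rfl⟩
  have hP : Continuous P := (Φ_cont c).subtype_mk _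
  let T : ℕ → Set ℝ := fun n => {x | ∀ u : D, |φ (χ x) (P (u, n)) - bb (u.1 x)| < 1 / 4}
  have hcov : ∀ x, ∃ n, x ∈ T n := by
    intro x
    have := unif (Z := D × OnePoint ℕ) continuous_snd
      (H := fun z => φ (χ x) (P z) - bb (z.1.1 x))
      (((φ (χ x)).continuous.comp hP).sub ((continuous_of_discreteTopology (f := bb)).comp
        ((continuous_apply x).comp (continuous_subtype_val.comp continuous_fst))))
      (by
        rintro ⟨u, k⟩ h
        simp only at h
        subst h
        have := hφe (χ x) ⟨P (u, ∞), rfl⟩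
        simp only at this
        rw [this]
        simp [χ, P, Φ]) (show (0 : ℝ) < 1 / 4 by norm_num)
    have h2 : Tendsto (fun n : ℕ => (n : OnePoint ℕ)) atTop (𝓝 ∞) := by
      have := OnePoint.tendsto_coe_infty (X := ℕ)
      rwa [coclosedCompact_eq_cocompact, cocompact_eq_cofinite, Nat.cofinite_eq_atTop] at this
    obtain ⟨n, hn⟩ := (h2.eventually this).exists
    exact ⟨n, fun u => hn (u, n) rfl⟩
  obtain ⟨n, hJ⟩ := nonempty_interior_of_iUnion_of_closed (f := fun n => closure (T n))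
    (fun _ => isClosed_closure) (eq_univ_of_forall fun x => by
      obtain ⟨n, hn⟩ := hcov x
      exact mem_iUnion.2 ⟨n, subset_closure hn⟩)
  let ψ : ℝ → C(A, ℝ) → ℝ := fun y f => φ f (P (up y, n))
  have hψ : ∀ y, @Continuous _ _ (ptw A) _ (ψ y) := fun y =>
    @Continuous.comp _ _ _ (ptw A) _ _ _ _ (continuous_apply (P (up y, n)))
      (@Continuous.comp _ _ _ (ptw A) (ptw _) _ _ _ continuous_induced_dom hφ)
  let E : ℚ × ℚ × ℚ → Set ℝ := fun q => {x | x ∈ Ioo (q.2.1 : ℝ) q.2.2 ∧
    Ioo (q.2.1 : ℝ) q.2.2 ⊆ closure (T n) ∧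
    (∀ s ∈ Ioo (q.2.1 : ℝ) q.2.2, (up q.1).1 s = (up q.1).1 x) ∧
    3 / 8 < |ψ q.1 (χ x) - bb ((up q.1).1 x)| ∧
    ∃ F : Finset A, (∀ g : C(A, ℝ), (∀ z ∈ F, g z = χ x z) → |ψ q.1 g - ψ q.1 (χ x)| < 1 / 16) ∧
      ∀ z ∈ F, ∀ s ∈ Ioo (q.2.1 : ℝ) q.2.2, m z = up x ∨ m z = up' x ∨ (m z).1 s = (m z).1 x}
  have hE : interior (closure (T n)) ∩ {x | c x = n} ⊆ ⋃ q, E q := by
    rintro x ⟨hxJ, hxn⟩
    have hPe : P (up' x, n) = P (up x, n) := by
      refine Subtype.ext (Prod.ext (funext fun y => ?_) rfl)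
      simp only [P, Φ]
      split_ifs with h
      · rfl
      · have : x ≠ y := by
          rintro rfl
          exact h (by rw [show c x = n from hxn])
        simp [up, up', lt_iff_le_and_ne, this]
    have hcont : Continuous fun u : D => φ (χ x) (P (u, n)) :=
      (φ (χ x)).continuous.comp (hP.comp (by fun_prop))
    have hy : ∃ y : ℚ, (y : ℝ) ≠ x ∧ 3 / 8 < |ψ y (χ x) - bb ((up y).1 x)| := by
      by_cases h : 1 / 2 ≤ φ (χ x) (P (up x, n))
      · have h1 := ((hcont.tendsto _).comp (tend_right x)).eventually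
          (lt_mem_nhds (show 3 / 8 < φ (χ x) (P (up' x, n)) by rw [hPe]; linarith))
        obtain ⟨b, hb, hs⟩ := mem_nhdsGT_iff_exists_Ioo_subset.1 h1
        obtain ⟨y, hy1, hy2⟩ := exists_rat_btwn (show x < b from hb)
        refine ⟨y, hy1.ne', ?_⟩
        have : 3 / 8 < ψ y (χ x) := hs ⟨hy1, hy2⟩
        simp only [up, not_le.2 hy1, decide_false, bb]
        exact lt_of_lt_of_le (by simpa using this) (le_abs_self _)
      · have h1 := ((hcont.tendsto _).comp (tend_left x)).eventually
          (gt_mem_nhds (show φ (χ x) (P (up x, n)) < 5 / 8 by linarith))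
        obtain ⟨b, hb, hs⟩ := mem_nhdsLT_iff_exists_Ioo_subset.1 h1
        obtain ⟨y, hy1, hy2⟩ := exists_rat_btwn (show b < x from hb)
        refine ⟨y, hy2.ne, ?_⟩
        have : ψ y (χ x) < 5 / 8 := hs ⟨hy1, hy2⟩
        simp only [up, hy2.le, decide_true, bb, if_true]
        exact lt_of_lt_of_le (by linarith) (neg_le_abs _)
    obtain ⟨y, hyx, hy⟩ := hy
    obtain ⟨F, hF⟩ := ptw_nhd (hψ y) (χ x) (show (0 : ℝ) < 1 / 16 by norm_num)
    have e1 : ∀ᶠ s in 𝓝 x, ∀ z ∈ F, m z = up x ∨ m z = up' x ∨ (m z).1 s = (m z).1 x :=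
      (eventually_all_finset F).2 fun z _ => loc_const (m z) x
    have e2 : ∀ᶠ s in 𝓝 x, (up y).1 s = (up y).1 x := by
      rcases lt_or_gt_of_ne hyx with h | h
      · filter_upwards [Ioi_mem_nhds h] with s hs
        simp [up, h.le, le_of_lt (show (y : ℝ) < s from hs)]
      · filter_upwards [Iio_mem_nhds h] with s hs
        simp [up, not_le.2 h, not_le.2 (show s < (y : ℝ) from hs)]
    obtain ⟨a, b, ⟨ha, hb⟩, hs⟩ := mem_nhds_iff_exists_Ioo_subset.1
      ((e1.and e2).and (mem_interior_iff_mem_nhds.1 hxJ))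
    obtain ⟨a', ha1, ha2⟩ := exists_rat_btwn ha
    obtain ⟨b', hb1, hb2⟩ := exists_rat_btwn hb
    have hs' := (Ioo_subset_Ioo ha1.le hb2.le).trans hs
    exact mem_iUnion.2 ⟨(y, a', b'), ⟨ha2, hb1⟩, fun s h => (hs' h).2, fun s h => (hs' h).1.2, hy,
      F, hF, fun z hz s h => (hs' h).1.1 z hz⟩
  have hinf : ∃ q, (E q).Infinite := by
    by_contra h
    push Not at h
    exact hc n _ isOpen_interior hJ ((countable_iUnion fun q => (h q).countable).mono hE)
  obtain ⟨⟨y, a, b⟩, hq⟩ := hinf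
  obtain ⟨x0, hx0, hsub, -⟩ := hq.nonempty
  obtain ⟨t, htI, htT⟩ := mem_closure_iff.1 (hsub hx0) _ isOpen_Ioo hx0
  obtain ⟨Ft, hFt⟩ := ptw_nhd (hψ y) (χ t) (show (0 : ℝ) < 1 / 16 by norm_num)
  have hfin : (up ⁻¹' (m '' Ft) ∪ up' ⁻¹' (m '' Ft)).Finite :=
    ((Ft.finite_toSet.image m).preimage up_inj.injOn).union
      ((Ft.finite_toSet.image m).preimage up'_inj.injOn)
  obtain ⟨x, ⟨hxI, -, h3, h4, F, hF, hF2⟩, hxn⟩ := (hq.sdiff hfin).nonempty
  have hagree : ∀ z ∈ F, z ∈ Ft → χ x z = χ t z := by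
    intro z hz hzt
    rcases hF2 z hz t htI with h | h | h
    · exact absurd (Or.inl ⟨z, hzt, h⟩) hxn
    · exact absurd (Or.inr ⟨z, hzt, h⟩) hxn
    · simp only [χ, ContinuousMap.coe_mk, ← hm z, h]
  have hfin2 : ((F ∪ Ft : Finset A) : Set A).Finite := Finset.finite_toSet _
  have : Finite ((F ∪ Ft : Finset A) : Set A) := hfin2.to_subtype
  obtain ⟨g, hg⟩ := ContinuousMap.exists_restrict_eq (Y := ℝ) hfin2.isClosed
    ⟨fun s => if s.1 ∈ F then χ x s.1 else χ t s.1, continuous_of_discreteTopology⟩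
  have hg' : ∀ z (hz : z ∈ F ∪ Ft), g z = if z ∈ F then χ x z else χ t z := fun z hz =>
    congrArg (fun G : C(((F ∪ Ft : Finset A) : Set A), ℝ) => G ⟨z, hz⟩) hg
  have k1 := abs_lt.1 (hF g fun z hz => by rw [hg' z (Finset.mem_union_left _ hz), if_pos hz])
  have k2 := abs_lt.1 (hFt g fun z hz => by
    rw [hg' z (Finset.mem_union_right _ hz)]
    split_ifs with h
    · exact hagree z h hz
    · rfl)
  have k3 := abs_lt.1 (htT (up y))
  rw [h3 t htI] at k3
  have k4 : φ (χ t) (P (up y, n)) = ψ y (χ t) := rfl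
  simp only at k1 k2 k3 h4
  rcases lt_abs.1 h4 with h | h <;> linarith [k1.1, k1.2, k2.1, k2.2, k3.1, k3.2]

end Pool.Agent.H82.Extd
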