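import Mathlib
import Pool.Agent.H82.CpDefs
import Pool.Agent.H82.Extd

set_option autoImplicit false

namespace Pool.Agent.H82.BetaL

open Set Filter Topology Pool.Agent.H82.CpDefs OnePoint

abbrev X := Ultrafilter ℕ

lemma fext {Z : Type} [TopologicalSpace Z] [T2Space Z] {f g : X → Z} (hf : Continuous f)
    (hg : Continuous g) (h : ∀ n, f (pure n) = g (pure n)) (x : X) : f x = g x :=
  congrFun (denseRange_pure.equalizer hf hg (funext h)) x

lemma exists_ext {b : ℕ → ℝ} {c : ℝ} (h : ∀ n, |b n| ≤ c) :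
    ∃ f : C(X, ℝ), ∀ n, f (pure n) = b n := by
  let b' : ℕ → Icc (-c) c := fun n => ⟨b n, abs_le.1 (h n)⟩
  refine ⟨⟨fun x => (Ultrafilter.extend b' x).1,
    continuous_subtype_val.comp (continuous_ultrafilter_extend b')⟩, fun n => ?_⟩
  simp [b']

lemma norm_le {f : C(X, ℝ)} {c : ℝ} (h : ∀ n, |f (pure n)| ≤ c) : ‖f‖ ≤ c := by
  refine (ContinuousMap.norm_le _ ((abs_nonneg _).trans (h 0))).2 fun x => ?_
  exact denseRange_pure.induction_on (p := fun x => ‖f x‖ ≤ c) x
    (isClosed_le f.continuous.norm continuous_const) h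

lemma ptw_cont {Y Z : Type} [TopologicalSpace Y] [TopologicalSpace Z] {φ : C(Y, ℝ) → C(Z, ℝ)}
    (h : ∀ z, @Continuous _ _ (ptw Y) _ fun f => φ f z) : @Continuous _ _ (ptw Y) (ptw Z) φ := by
  let _ := ptw Y
  exact continuous_induced_rng.2 (continuous_pi h)

lemma ev_cont {Y : Type} [TopologicalSpace Y] (y : Y) :
    @Continuous _ _ (ptw Y) _ fun f : C(Y, ℝ) => f y := by
  let _ := ptw Y
  exact (continuous_apply y).comp continuous_induced_dom

lemma ev_comp {Y Z : Type} [TopologicalSpace Y] [TopologicalSpace Z] {φ : C(Y, ℝ) → C(Z, ℝ)}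
    (h : @Continuous _ _ (ptw Y) (ptw Z) φ) (z : Z) :
    @Continuous _ _ (ptw Y) _ fun f => φ f z :=
  @Continuous.comp _ _ _ (ptw Y) (ptw Z) _ _ _ (ev_cont z) h

lemma bounded {Y Z : Type} [TopologicalSpace Y] [TopologicalSpace Z] [CompactSpace Y]
    [CompactSpace Z] (φ : C(Y, ℝ) →ₗ[ℝ] C(Z, ℝ)) (h : @Continuous _ _ (ptw Y) (ptw Z) φ) :
    ∃ M : ℝ, 0 < M ∧ ∀ f, ‖φ f‖ ≤ M * ‖f‖ := by
  have hid : @Continuous _ _ _ (ptw Y) (fun f : C(Y, ℝ) => f) :=
    continuous_induced_rng.2 (continuous_pi fun y => ContinuousEvalConst.continuous_eval_const y)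
  have hc : Continuous φ := by
    refine φ.continuous_of_seq_closed_graph fun u f g hu hg => ?_
    ext z
    have h1 : Continuous fun f => φ f z :=
      @Continuous.comp _ _ _ _ (ptw Y) _ _ _ (ev_comp h z) hid
    exact tendsto_nhds_unique
      (((ContinuousEvalConst.continuous_eval_const z).tendsto g).comp hg) ((h1.tendsto f).comp hu)
  exact (⟨φ, hc⟩ : C(Y, ℝ) →L[ℝ] C(Z, ℝ)).bound

lemma exists_ad : ∃ A : (ℕ → Bool) → Set ℕ, (∀ σ, (A σ).Infinite) ∧
    ∀ σ τ, σ ≠ τ → (A σ ∩ A τ).Finite := by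
  let a : (ℕ → Bool) → ℕ → ℕ := fun σ n => Encodable.encode ((List.range n).map σ)
  refine ⟨fun σ => range (a σ), fun σ => infinite_range_of_injective fun n m h => ?_,
    fun σ τ h => ?_⟩
  · simpa using congrArg List.length (Encodable.encode_injective h)
  · obtain ⟨m, hm⟩ := Function.ne_iff.1 h
    refine ((finite_Iic m).image (a σ)).subset ?_
    rintro _ ⟨⟨n, rfl⟩, n', h'⟩
    have h1 := Encodable.encode_injective h'
    obtain rfl : n' = n := by simpa using congrArg List.length h1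
    refine ⟨n', ?_, rfl⟩
    by_contra hlt
    exact hm (List.map_inj_left.1 h1 m (List.mem_range.2 (not_le.1 hlt))).symm

theorem not_sstable : ¬ SStable X := by
  classical
  rintro ⟨e, he, he'⟩
  obtain ⟨M, hM0, hM⟩ := bounded e.toLinearMap he
  obtain ⟨M', hM0', hM'⟩ := bounded e.symm.toLinearMap he'
  have hχc : ∀ k : ℕ, Continuous fun s : OnePoint ℕ => if s = k then (1 : ℝ) else 0 := by
    intro k
    have : IsClopen ({(k : OnePoint ℕ)} : Set (OnePoint ℕ)) := ⟨isClosed_singleton, by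
      rw [← image_singleton]; exact isOpenEmbedding_coe.isOpenMap _ (isOpen_discrete _)⟩
    exact Continuous.if (by
      intro a ha
      have h0 : frontier {s : OnePoint ℕ | s = k} = ∅ := this.frontier_eq
      rw [h0] at ha; exact ha.elim) continuous_const continuous_const
  let χ : ℕ → C(X × OnePoint ℕ, ℝ) := fun k => ⟨fun p => if p.2 = k then 1 else 0,
    (hχc k).comp continuous_snd⟩
  let u : ℕ → C(X, ℝ) := fun k => e (χ k)
  have hsum : ∀ (x : X) (G : Finset ℕ), ∑ k ∈ G, |u k x| ≤ M := by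
    intro x G
    let s : ℕ → ℝ := fun k => if 0 ≤ u k x then 1 else -1
    have h1 : ‖∑ k ∈ G, s k • χ k‖ ≤ 1 := by
      refine (ContinuousMap.norm_le _ zero_le_one).2 fun p => ?_
      rcases p with ⟨y, _ | m⟩
      · have : ∀ k : ℕ, χ k (y, none) = 0 := fun k => if_neg (infty_ne_coe k)
        simp [ContinuousMap.sum_apply, this]
      · have : ∀ k : ℕ, χ k (y, Option.some m) = if m = k then 1 else 0 := fun k =>
          if_congr coe_eq_coe rfl rfl
        simp only [ContinuousMap.coe_sum, Finset.sum_apply, ContinuousMap.coe_smul, Pi.smul_apply,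
          this, smul_eq_mul, mul_ite, mul_one, mul_zero, Finset.sum_ite_eq, s]
        split_ifs <;> simp
    have h2 : ∑ k ∈ G, |u k x| = e (∑ k ∈ G, s k • χ k) x := by
      simp only [map_sum, _root_.map_smul, ContinuousMap.coe_sum, Finset.sum_apply,
        ContinuousMap.coe_smul, Pi.smul_apply, smul_eq_mul]
      refine Finset.sum_congr rfl fun k _ => ?_
      simp only [s]
      split_ifs with h
      · rw [abs_of_nonneg h, one_mul]
      · rw [abs_of_neg (not_le.1 h), neg_one_mul]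
    rw [h2]
    exact (le_abs_self _).trans ((ContinuousMap.norm_coe_le_norm _ x).trans
      ((hM _).trans (mul_le_of_le_one_right hM0.le h1)))
  have hW : ∀ b : ℕ → ℝ, (∀ k, |b k| ≤ 1) → ∃ w : C(X, ℝ), ‖w‖ ≤ M ∧
      ∀ n, HasSum (fun k => b k * u k (pure n)) (w (pure n)) := by
    intro b hb
    have hs : ∀ n : ℕ, Summable fun k => |u k (pure n)| := fun n =>
      summable_of_sum_le (fun k => abs_nonneg _) (hsum _)
    have hle : ∀ (n : ℕ) k, ‖b k * u k (pure n)‖ ≤ |u k (pure n)| := fun n k => by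
      rw [Real.norm_eq_abs, abs_mul]; exact mul_le_of_le_one_left (abs_nonneg _) (hb k)
    have hbd : ∀ n : ℕ, |∑' k, b k * u k (pure n)| ≤ M := fun n =>
      (tsum_of_norm_bounded (hs n).hasSum (hle n)).trans ((hs n).tsum_le_of_sum_le (hsum _))
    obtain ⟨w, hw⟩ := exists_ext hbd
    exact ⟨w, norm_le fun n => by rw [hw]; exact hbd n,
      fun n => by rw [hw]; exact (Summable.of_norm_bounded (hs n) (hle n)).hasSum⟩
  choose! W hWn hW using hW
  let q : ℕ → C(X, ℝ) → ℝ := fun k f => e.symm f (pure 0, k) - e.symm f (pure 0, ∞)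
  obtain ⟨A, hAi, hAd⟩ := exists_ad
  let I : (ℕ → Bool) → ℕ → ℝ := fun σ k => if k ∈ A σ then 1 else 0
  have hI : ∀ σ k, |I σ k| ≤ 1 := fun σ k => by simp only [I]; split_ifs <;> simp
  let t : ℕ → (ℕ → Bool) → ℝ := fun k σ => I σ k - q k (W (I σ))
  have key : ∀ k (T : Finset (ℕ → Bool)), ∑ σ ∈ T, |t k σ| ≤ 1 + 2 * (M' * M) := by
    intro k T
    let s : (ℕ → Bool) → ℝ := fun σ => if 0 ≤ t k σ then 1 else -1
    have hG : (⋃ σ ∈ T, ⋃ τ ∈ T.erase σ, A σ ∩ A τ).Finite :=
      T.finite_toSet.biUnion fun σ _ => (T.erase σ).finite_toSet.biUnion fun τ hτ =>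
        hAd σ τ (Finset.ne_of_mem_erase hτ).symm
    let G := hG.toFinset
    let b : ℕ → ℝ := fun j => ∑ σ ∈ T, s σ * I σ j
    let b' : ℕ → ℝ := fun j => b j - if j ∈ G then b j else 0
    have hb' : ∀ j, |b' j| ≤ 1 := by
      intro j
      by_cases hj : j ∈ G
      · simp [b', hj]
      simp only [b', if_neg hj, sub_zero, b]
      by_cases h : ∃ σ ∈ T, j ∈ A σ
      · obtain ⟨σ, hσ, hjσ⟩ := h
        rw [Finset.sum_eq_single_of_mem σ hσ]
        · simp only [s, I, if_pos hjσ]; split_ifs <;> simp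
        · intro τ hτ hne
          have : j ∉ A τ := fun h' => hj (hG.mem_toFinset.2 (mem_biUnion hσ
            (mem_biUnion (Finset.mem_coe.2 (Finset.mem_erase.2 ⟨hne, hτ⟩)) ⟨hjσ, h'⟩)))
          simp [I, this]
      · rw [Finset.sum_eq_zero]
        · simp
        · intro σ hσ
          have : j ∉ A σ := fun h' => h ⟨σ, hσ, h'⟩
          simp [I, this]
    have hWb : W b' = ∑ σ ∈ T, s σ • W (I σ) - ∑ j ∈ G, b j • u j := by
      refine ContinuousMap.ext (fext (W b').continuous (ContinuousMap.continuous _) fun n => ?_)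
      have h1 := hasSum_sum (s := T) fun σ _ => (hW (I σ) (hI σ) n).mul_left (s σ)
      have h2 : HasSum (fun j => if j ∈ G then b j * u j (pure n) else 0)
          (∑ j ∈ G, if j ∈ G then b j * u j (pure n) else 0) :=
        hasSum_sum_of_ne_finset_zero fun j hj => if_neg hj
      refine (hW b' hb' n).unique ?_
      have e1 : (fun j => b' j * u j (pure n)) = fun j => ∑ σ ∈ T, s σ * (I σ j * u j (pure n)) -
          if j ∈ G then b j * u j (pure n) else 0 := by
        ext j
        simp only [b', sub_mul, ite_mul, zero_mul]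
        simp only [b, Finset.sum_mul, mul_assoc]
      have e2 : (∑ σ ∈ T, s σ • W (I σ) - ∑ j ∈ G, b j • u j) (pure n) =
          ∑ i ∈ T, s i * (W (I i)) (pure n) -
            ∑ j ∈ G, if j ∈ G then b j * (u j) (pure n) else 0 := by
        simp only [ContinuousMap.coe_sub, ContinuousMap.coe_sum, Pi.sub_apply, Finset.sum_apply,
          ContinuousMap.coe_smul, Pi.smul_apply, smul_eq_mul]
        congr 1
        exact Finset.sum_congr rfl fun j hj => (if_pos hj).symm
      rw [e1, e2]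
      exact h1.sub h2
    have hq : q k (W b') = ∑ σ ∈ T, s σ * q k (W (I σ)) - if k ∈ G then b k else 0 := by
      have h1 : ∀ j : ℕ, χ j (pure 0, ∞) = 0 := fun j => if_neg (infty_ne_coe j)
      have h2 : ∀ j : ℕ, χ j (pure 0, (k : OnePoint ℕ)) = if k = j then 1 else 0 := fun j =>
        if_congr coe_eq_coe rfl rfl
      simp only [q, hWb, u, map_sub, map_sum, _root_.map_smul, LinearEquiv.symm_apply_apply,
        ContinuousMap.coe_sub, ContinuousMap.coe_sum, Pi.sub_apply, Finset.sum_apply,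
        ContinuousMap.coe_smul, Pi.smul_apply, smul_eq_mul, h1, h2, mul_ite, mul_one, mul_zero,
        Finset.sum_ite_eq, Finset.sum_const_zero, sub_zero, mul_sub, Finset.sum_sub_distrib]
      ring
    have h3 : ∑ σ ∈ T, |t k σ| = b' k - q k (W b') := by
      have : ∀ σ, |t k σ| = s σ * I σ k - s σ * q k (W (I σ)) := fun σ => by
        rw [← mul_sub]
        simp only [s]
        split_ifs with h
        · rw [abs_of_nonneg h, one_mul]
        · rw [abs_of_neg (not_le.1 h), neg_one_mul]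
      simp only [this, Finset.sum_sub_distrib, hq, b', b]
      ring
    have h4 : ∀ p, |e.symm (W b') p| ≤ M' * M := fun p =>
      (ContinuousMap.norm_coe_le_norm _ p).trans ((hM' _).trans
        (mul_le_mul_of_nonneg_left (hWn b' hb') hM0'.le))
    rw [h3]
    have := abs_le.1 (hb' k)
    have := abs_le.1 (h4 (pure 0, k))
    have := abs_le.1 (h4 (pure 0, ∞))
    simp only [q]
    linarith
  have hc : (⋃ k, Function.support fun σ => |t k σ|).Countable :=
    countable_iUnion fun k => (summable_of_sum_le (fun σ => abs_nonneg _) (key k)).countable_support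
  have : Uncountable (ℕ → Bool) := by
    rw [← Cardinal.aleph0_lt_mk_iff]; simp [Cardinal.aleph0_lt_continuum]
  obtain ⟨σ, hσ⟩ : ∃ σ, σ ∉ ⋃ k, Function.support fun σ => |t k σ| := by
    by_contra h
    push Not at h
    exact not_countable_univ (hc.mono fun σ _ => h σ)
  have h0 : ∀ k, I σ k = q k (W (I σ)) := fun k => by
    by_contra h
    exact hσ (mem_iUnion.2 ⟨k, abs_ne_zero.2 (sub_ne_zero.2 h)⟩)
  have h1 : Tendsto (fun k => q k (W (I σ))) cofinite (𝓝 0) := by
    have h2 : Tendsto (fun k : ℕ => (k : OnePoint ℕ)) cofinite (𝓝 ∞) := by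
      rw [Nat.cofinite_eq_atTop]
      simpa using tendsto_coe_infty (X := ℕ)
    have h3 : Continuous fun s : OnePoint ℕ =>
        e.symm (W (I σ)) (pure 0, s) - e.symm (W (I σ)) (pure 0, ∞) := by fun_prop
    have h4 := (h3.tendsto ∞).comp h2
    rw [sub_self] at h4
    exact h4
  have h2 := h1.eventually (gt_mem_nhds zero_lt_one)
  refine hAi σ ((eventually_cofinite.1 h2).subset fun k hk hlt => ?_)
  rw [← h0] at hlt
  simp [I, hk] at hlt

noncomputable def ex (f : ℕ → X) : C(X, X) :=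
  ⟨Ultrafilter.extend f, continuous_ultrafilter_extend f⟩

lemma ex_pure (f : ℕ → X) (n : ℕ) : ex f (pure n) = f n := ultrafilter_extend_pure f n

theorem swindle {A : Type} [TopologicalSpace A] (i : C(A, X)) (r : C(X, A))
    (hri : ∀ a, r (i a) = a) : LEquiv X (X ⊕ A) := by
  let j : ℕ → C(X, X) := fun n => ex fun m => pure (Nat.pair n m)
  let E : C(X, X) := ex fun k => j k.unpair.1 (i (r (pure k.unpair.2)))
  let S : C(X, X) := ex fun k => pure (Nat.pair (k.unpair.1 + 1) k.unpair.2)
  let S' : C(X, X) := ex fun k => pure (Nat.pair (k.unpair.1 - 1) k.unpair.2)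
  let π : C(X, X) := ex fun k => pure k.unpair.2
  obtain ⟨χ, hχ⟩ := exists_ext (b := fun k => if k.unpair.1 = 0 then 1 else 0) (c := 1)
    fun k => by split_ifs <;> simp
  have hE : ∀ n x, E (j n x) = j n (i (r x)) := fun n =>
    fext (by fun_prop) (by fun_prop) fun m => by simp only [E, j, ex_pure, Nat.unpair_pair]
  have hS : ∀ n x, S (j n x) = j (n + 1) x := fun n =>
    fext (by fun_prop) (by fun_prop) fun m => by simp only [S, j, ex_pure, Nat.unpair_pair]
  have hS' : ∀ n x, S' (j n x) = j (n - 1) x := fun n =>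
    fext (by fun_prop) (by fun_prop) fun m => by simp only [S', j, ex_pure, Nat.unpair_pair]
  have hπ : ∀ n x, π (j n x) = x := fun n =>
    fext (by fun_prop) continuous_id fun m => by simp only [π, j, ex_pure, Nat.unpair_pair]
  have hχ' : ∀ n x, χ (j n x) = if n = 0 then 1 else 0 := fun n =>
    fext (by fun_prop) continuous_const fun m => by simp only [j, ex_pure, hχ, Nat.unpair_pair]
  have hext : ∀ f g : C(X, ℝ), (∀ n x, f (j n x) = g (j n x)) → ∀ x, f x = g x := fun f g h =>
    fext f.continuous g.continuous fun k => by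
      have := h k.unpair.1 (pure k.unpair.2)
      simpa only [j, ex_pure, Nat.pair_unpair] using this
  let T : C(X, ℝ) → C(X ⊕ A, ℝ) := fun f =>
    ⟨Sum.elim (fun z => f z - f (E z) + f (E (S z))) fun a => f (j 0 (i a)),
      Continuous.sumElim (by fun_prop) (by fun_prop)⟩
  let T' : C(X ⊕ A, ℝ) → C(X, ℝ) := fun g =>
    ⟨fun z => g (.inl z) - g (.inl (E z)) + χ z * g (.inr (r (π z))) +
      (1 - χ z) * g (.inl (E (S' z))), by fun_prop⟩
  refine ⟨{ toFun := T, invFun := T', map_add' := fun f g => ?_, map_smul' := fun c f => ?_,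
            left_inv := fun f => ?_, right_inv := fun g => ?_ }, ptw_cont ?_, ptw_cont ?_⟩
  · ext (z | a) <;> simp [T]; ring
  · ext (z | a) <;> simp [T]; ring
  · refine ContinuousMap.ext (hext _ _ fun n x => ?_)
    rcases n with _ | n <;> simp [T, T', hE, hS, hS', hπ, hχ', hri]
  · ext (z | a)
    · refine hext ((T (T' g)).comp ⟨Sum.inl, continuous_inl⟩) (g.comp ⟨Sum.inl, continuous_inl⟩)
        (fun n x => ?_) z
      rcases n with _ | n <;> simp [T, T', hE, hS, hS', hπ, hχ', hri]
    · simp [T, T', hE, hπ, hχ', hri]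
  · let _ := ptw X
    rintro (z | a)
    · exact ((ev_cont z).sub (ev_cont (E z))).add (ev_cont (E (S z)))
    · exact ev_cont (j 0 (i a))
  · let _ := ptw (X ⊕ A)
    intro z
    exact (((ev_cont _).sub (ev_cont _)).add (continuous_const.mul (ev_cont _))).add
      (continuous_const.mul (ev_cont _))

lemma supp {Y : Type} [TopologicalSpace Y] (ψ : C(Y, ℝ) →ₗ[ℝ] ℝ)
    (h : @Continuous _ _ (ptw Y) _ ψ) :
    ∃ F : Finset Y, ∀ g : C(Y, ℝ), (∀ z ∈ F, g z = 0) → ψ g = 0 := by
  obtain ⟨F, hF⟩ := Extd.ptw_nhd h 0 zero_lt_one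
  refine ⟨F, fun g hg => by_contra fun h0 => ?_⟩
  have := hF ((ψ g)⁻¹ • g) fun z hz => by simp [hg z hz]
  simp [h0] at this

lemma sep {D : ℕ → X} {U V : Set X} (hU : IsOpen U) (hV : IsOpen V)
    (hUV : ∀ n, D n ∈ U → D n ∉ closure (range D ∩ V))
    (hVU : ∀ n, D n ∈ V → D n ∉ closure (range D ∩ U)) :
    Disjoint (closure (range D ∩ U)) (closure (range D ∩ V)) := by
  have hb : ∀ (x : X) (C : Set X), IsClosed C → x ∉ C → ∃ P : Set ℕ, P ∈ x ∧ ∀ y ∈ C, P ∉ y := by
    intro x C hC hx
    obtain ⟨_, ⟨P, rfl⟩, h1, h2⟩ :=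
      (ultrafilterBasis_is_basis (α := ℕ)).exists_subset_of_mem_open hx hC.isOpen_compl
    exact ⟨P, h1, fun y hy hP => h2 hP hy⟩
  choose! P hP hP' using fun n (h : D n ∈ U) => hb _ _ isClosed_closure (hUV n h)
  choose! Q hQ hQ' using fun n (h : D n ∈ V) => hb _ _ isClosed_closure (hVU n h)
  let B : Set ℕ := ⋃ n ∈ {n | D n ∈ U}, P n ∩ ⋂ m ∈ {m | m ≤ n ∧ D m ∈ V}, (Q m)ᶜ
  have h1 : closure (range D ∩ U) ⊆ {x | B ∈ x} := by
    refine closure_minimal ?_ (ultrafilter_isClosed_basic B)
    rintro _ ⟨⟨n, rfl⟩, hn⟩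
    refine mem_of_superset (f := (D n : Filter ℕ)) (inter_mem (hP n hn) ((biInter_mem
      ((finite_Iic n).subset fun m hm => hm.1)).2 fun m hm => ?_))
      (subset_biUnion_of_mem (u := fun n => P n ∩ ⋂ m ∈ {m | m ≤ n ∧ D m ∈ V}, (Q m)ᶜ) hn)
    exact Ultrafilter.compl_mem_iff_notMem.2 (hQ' m hm.2 _ (subset_closure ⟨⟨n, rfl⟩, hn⟩))
  have h2 : closure (range D ∩ V) ⊆ {x | Bᶜ ∈ x} := by
    refine closure_minimal ?_ (ultrafilter_isClosed_basic Bᶜ)
    rintro _ ⟨⟨m, rfl⟩, hm⟩
    have h3 : (⋂ n ∈ {n | n ≤ m ∧ D n ∈ U}, (P n)ᶜ) ∈ (D m : Filter ℕ) :=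
      (biInter_mem ((finite_Iic m).subset fun n hn => hn.1)).2 fun n hn =>
        Ultrafilter.compl_mem_iff_notMem.2 (hP' n hn.2 _ (subset_closure ⟨⟨m, rfl⟩, hm⟩))
    refine mem_of_superset (f := (D m : Filter ℕ)) (inter_mem (hQ m hm) h3) ?_
    rintro k ⟨hk1, hk2⟩ hk
    obtain ⟨n, hn, hk3, hk4⟩ := mem_iUnion₂.1 hk
    rcases le_total m n with h | h
    · exact mem_iInter₂.1 hk4 m ⟨h, hm⟩ hk1
    · exact mem_iInter₂.1 hk2 n ⟨h, hn⟩ hk3
  refine disjoint_left.2 fun x hx hx' => ?_
  exact Ultrafilter.compl_mem_iff_notMem.1 (h2 hx') (h1 hx)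

theorem lstable : LStable X := by
  classical
  rintro A ⟨φ, hφ, hext⟩
  rcases A.eq_empty_or_nonempty with rfl | hne
  · let T : C(X, ℝ) → C(X ⊕ (∅ : Set X), ℝ) := fun f =>
      ⟨Sum.elim f fun _ => 0, Continuous.sumElim f.continuous continuous_const⟩
    refine ⟨{ toFun := T, invFun := fun g => g.comp ⟨Sum.inl, continuous_inl⟩,
              map_add' := fun f g => ?_, map_smul' := fun c f => ?_,
              left_inv := fun f => rfl, right_inv := fun g => ?_ }, ptw_cont ?_,
              ptw_cont fun z => ev_cont _⟩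
    · ext (z | a) <;> simp [T]
    · ext (z | a) <;> simp [T]
    · ext (z | a)
      · rfl
      · exact a.2.elim
    · rintro (z | a)
      · exact ev_cont z
      · exact a.2.elim
  have hF : ∀ x : X, ∃ F : Finset A, ∀ g : C(A, ℝ), (∀ z ∈ F, g z = 0) → φ g x = 0 := fun x =>
    supp ((ContinuousMap.evalCLM ℝ x).toLinearMap.comp φ) (ev_comp hφ x)
  choose F hF using hF
  have hcl : IsClosed A := by
    refine closure_subset_iff_isClosed.1 fun x hx => by_contra fun hxA => ?_
    obtain ⟨g, hg0, hg1, -⟩ := exists_continuous_zero_one_of_isClosed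
      ((F x).finite_toSet.image Subtype.val).isClosed (isClosed_singleton (x := x))
      (disjoint_singleton_right.2 (by rintro ⟨a, -, rfl⟩; exact hxA a.2))
    have h1 := hF x (g.restrict A) fun z hz => hg0 ⟨z, hz, rfl⟩
    have h2 : EqOn (φ (g.restrict A)) g (closure A) :=
      EqOn.closure (fun a ha => hext _ ⟨a, ha⟩) (ContinuousMap.continuous _) g.continuous
    rw [h2 hx, hg1 rfl] at h1
    simp at h1
  have : CompactSpace A := isCompact_iff_compactSpace.1 hcl.isCompact
  have hd : Dense (⋃ n : ℕ, (F (pure n) : Set A)) := by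
    intro a
    by_contra ha
    obtain ⟨g, hg0, hg1, -⟩ := exists_continuous_zero_one_of_isClosed isClosed_closure
      (isClosed_singleton (x := a)) (disjoint_singleton_right.2 ha)
    have h1 := fext (φ g).continuous continuous_const (fun n => hF (pure n) g fun z hz =>
      hg0 (subset_closure (mem_iUnion.2 ⟨n, hz⟩))) a
    rw [hext, hg1 rfl] at h1
    simp at h1
  have : TopologicalSpace.SeparableSpace A :=
    ⟨⟨_, countable_iUnion fun n => (F (pure n)).countable_toSet, hd⟩⟩
  have : Nonempty A := hne.to_subtype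
  obtain ⟨d, hd⟩ := TopologicalSpace.exists_dense_seq A
  let D : ℕ → X := fun n => d n
  have hcls : ∀ U : Set X, IsOpen U → ∀ a : A,
      a ∈ closure (Subtype.val ⁻¹' U) ↔ a.1 ∈ closure (range D ∩ U) := by
    intro U hU a
    have h1 : closure (Subtype.val ⁻¹' U : Set A) = closure (range d ∩ Subtype.val ⁻¹' U) := by
      refine Subset.antisymm (closure_minimal ?_ isClosed_closure) (closure_mono inter_subset_right)
      rw [inter_comm]
      exact Dense.open_subset_closure_inter hd (hU.preimage continuous_subtype_val)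
    rw [h1, closure_subtype, image_inter_preimage, ← range_comp]
    rfl
  have : ExtremallyDisconnected A := by
    refine ⟨fun U' hU' => ?_⟩
    obtain ⟨U, hU, rfl⟩ := isOpen_induced_iff.1 hU'
    obtain ⟨V, hV, hV'⟩ := isOpen_induced_iff.1
      (isClosed_closure (s := (Subtype.val ⁻¹' U : Set A))).isOpen_compl
    have h1 := sep (D := D) hU hV (fun n hn h => by
      have h2 := (hcls V hV (d n)).2 h
      rw [hV'] at h2
      exact disjoint_left.1 (Disjoint.closure_right
        (disjoint_compl_right.mono_left subset_closure) hU') hn h2) fun n hn h => by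
      have h2 : d n ∈ (Subtype.val ⁻¹' V : Set A) := hn
      rw [hV'] at h2
      exact h2 ((hcls U hU (d n)).2 h)
    rw [← isClosed_compl_iff, ← closure_subset_iff_isClosed, ← hV']
    intro a ha
    rw [hV']
    exact fun h => disjoint_left.1 h1 ((hcls U hU a).1 h) ((hcls V hV a).1 ha)
  have hr := continuous_ultrafilter_extend d
  have hsurj : Function.Surjective (Ultrafilter.extend d) := by
    rw [← range_eq_univ, ← (isCompact_range hr).isClosed.closure_eq]
    exact (hd.mono (by rintro _ ⟨n, rfl⟩; exact ⟨pure n, ultrafilter_extend_pure d n⟩)).closure_eq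
  obtain ⟨i, hi, hi'⟩ := CompactT2.ExtremallyDisconnected.projective (A := A) continuous_id hr hsurj
  exact swindle ⟨i, hi⟩ ⟨_, hr⟩ (congrFun hi')

end Pool.Agent.H82.BetaL
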