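import Mathlib

set_option autoImplicit false

namespace Pool.Agent.H82.Myc

open Set Cardinal

variable {A : Type}

/-- agreement below `n` -/
def ag (n : ℕ) (z s : ℕ → A) : Prop := ∀ i < n, z i = s i

lemma ag.trans {n m : ℕ} {a b c : ℕ → A} (h : ag n a b) (h' : ag m b c) {k : ℕ} (h1 : k ≤ n)
    (h2 : k ≤ m) : ag k a c := fun i hi => (h i (hi.trans_le h1)).trans (h' i (hi.trans_le h2))

/-- Mycielski-type lemma -/
theorem myc {J : Type} [Countable J] [Nonempty J] (R : J → (ℕ → A) → (ℕ → A) → Prop) (n0 : ℕ)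
    (s0 : ℕ → A) (H : ∀ j n a b, n0 ≤ n → ag n0 a s0 → ag n0 b s0 → ∃ n' ≥ n, ∃ a' b',
      ag n a' a ∧ ag n b' b ∧ ∀ z z', ag n' z a' → ag n' z' b' → ¬ R j z z') :
    ∃ F : Set ℕ → ℕ → A, ∀ S T, S ≠ T → ∀ j, ¬ R j (F S) (F T) := by
  classical
  obtain ⟨e, he⟩ := exists_surjective_nat J
  have h1 : ∀ T : Set (Set ℕ × Set ℕ × ℕ), T.Finite → (∀ t ∈ T, t.1 ≠ t.2.1) →
      ∀ (n : ℕ) (s : Set ℕ → ℕ → A), n0 ≤ n → (∀ i, ag n0 (s i) s0) → ∃ n' > n,
      ∃ s' : Set ℕ → ℕ → A, (∀ i, ag n (s' i) (s i)) ∧ ∀ t ∈ T, ∀ z z', ag n' z (s' t.1) →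
        ag n' z' (s' t.2.1) → ¬ R (e t.2.2) z z' := by
    intro T hT
    induction T, hT using Set.Finite.induction_on with
    | empty => exact fun _ n s _ _ => ⟨n + 1, n.lt_succ_self, s, fun _ _ _ => rfl, by simp⟩
    | @insert t T _ _ ih =>
      intro hne n s hn hs
      obtain ⟨n1, hn1, s1, h2, h3⟩ := ih (fun u hu => hne u (Or.inr hu)) n s hn hs
      obtain ⟨n2, hn2, a, b, ha, hb, h4⟩ := H (e t.2.2) n1 (s1 t.1) (s1 t.2.1) (by omega)
        ((h2 _).trans (hs _) hn le_rfl) ((h2 _).trans (hs _) hn le_rfl)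
      have h5 : ∀ i, ag n1 (Function.update (Function.update s1 t.1 a) t.2.1 b i) (s1 i) := by
        intro i
        by_cases h : i = t.2.1
        · rw [h, Function.update_self]; exact hb
        · rw [Function.update_of_ne h]
          by_cases h' : i = t.1
          · rw [h', Function.update_self]; exact ha
          · rw [Function.update_of_ne h']; exact fun _ _ => rfl
      refine ⟨n2, by omega, _, fun i => (h5 i).trans (h2 i) hn1.le le_rfl, ?_⟩
      rintro u (rfl | hu) z z' hz hz'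
      · rw [Function.update_of_ne (hne u (Or.inl rfl)), Function.update_self] at hz
        rw [Function.update_self] at hz'
        exact h4 z z' hz hz'
      · exact h3 u hu z z' (hz.trans (h5 _) hn2 le_rfl) (hz'.trans (h5 _) hn2 le_rfl)
  let St := {p : ℕ × (Set ℕ → ℕ → A) // n0 ≤ p.1 ∧ ∀ i, ag n0 (p.2 i) s0}
  have h2 : ∀ (k : ℕ) (p : St), ∃ q : St, p.1.1 < q.1.1 ∧
      (∀ B, ag p.1.1 (q.1.2 B) (p.1.2 (B ∩ Iio k))) ∧ ∀ B ⊆ Iio (k + 1), ∀ B' ⊆ Iio (k + 1),
      B ≠ B' → ∀ j ≤ k, ∀ z z', ag q.1.1 z (q.1.2 B) → ag q.1.1 z' (q.1.2 B') → ¬ R (e j) z z' := by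
    intro k p
    have hf := (finite_Iio (k + 1)).finite_subsets
    obtain ⟨n', hn', s', h3, h4⟩ := h1 {t | t ∈ {B | B ⊆ Iio (k + 1)} ×ˢ {B | B ⊆ Iio (k + 1)} ×ˢ
      Iic k ∧ t.1 ≠ t.2.1} ((hf.prod (hf.prod (finite_Iic k))).subset fun t ht => ht.1)
      (fun t ht => ht.2) p.1.1 (fun B => p.1.2 (B ∩ Iio k)) p.2.1 fun _ => p.2.2 _
    exact ⟨⟨(n', s'), p.2.1.trans hn'.le, fun i => (h3 i).trans (p.2.2 _) p.2.1 le_rfl⟩, hn', h3,
      fun B hB B' hB' hne j hj => h4 (B, B', j) ⟨⟨hB, hB', hj⟩, hne⟩⟩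
  choose nx h3 h4 h5 using h2
  let st : ℕ → St := fun k => Nat.rec ⟨(n0, fun _ => s0), le_rfl, fun _ _ _ => rfl⟩ nx k
  have hs : ∀ k, st (k + 1) = nx k (st k) := fun _ => rfl
  have hm : StrictMono fun k => (st k).1.1 := strictMono_nat_of_lt_succ fun k => h3 k (st k)
  have h6 : ∀ (S : Set ℕ) (k m : ℕ), k ≤ m →
      ag (st k).1.1 ((st m).1.2 (S ∩ Iio m)) ((st k).1.2 (S ∩ Iio k)) := by
    intro S k m hkm
    induction m, hkm using Nat.le_induction with
    | base => exact fun _ _ => rfl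
    | succ m hkm ih =>
      have h7 := h4 m (st m) (S ∩ Iio (m + 1))
      rw [inter_assoc, Iio_inter_Iio, min_eq_right m.le_succ] at h7
      exact h7.trans ih (hm.monotone hkm) le_rfl
  let F : Set ℕ → ℕ → A := fun S i => (st (i + 1)).1.2 (S ∩ Iio (i + 1)) i
  have h7 : ∀ S k, ag (st k).1.1 (F S) ((st k).1.2 (S ∩ Iio k)) := fun S k i hi =>
    (h6 S (i + 1) _ (le_max_left _ k) i (hm.id_le (i + 1))).symm.trans
      (h6 S k _ (le_max_right _ _) i hi)
  refine ⟨F, fun S T hST j => ?_⟩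
  obtain ⟨j, rfl⟩ := he j
  obtain ⟨i, hi⟩ : ∃ i, ¬ (i ∈ S ↔ i ∈ T) := not_forall.1 fun h => hST (Set.ext h)
  refine h5 (max i j) (st _) (S ∩ Iio _) inter_subset_right (T ∩ Iio _) inter_subset_right
    (fun h => hi ?_) j (le_max_right _ _) _ _ (h7 S (max i j + 1)) (h7 T (max i j + 1))
  have h8 := Set.ext_iff.1 h i
  have h9 : i < max i j + 1 := Nat.lt_succ_of_le (le_max_left _ _)
  simpa [h9] using h8

/-- transfinite recursion of length at most continuum -/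
theorem kill {Φ P : Type} (hΦ : #Φ ≤ 𝔠) (inv : Set P → Prop) (K : Φ → P → Prop)
    (h0 : inv ∅) (h1 : ∀ S T, T ⊆ S → inv S → inv T)
    (h2 : ∀ S, (∀ T ⊆ S, T.Finite → inv T) → inv S) :
    ∃ S, inv S ∧ ∀ φ, (∃ p ∈ S, K φ p) ∨
      ∃ S' ⊆ S, #S' < 𝔠 ∧ ∀ q, inv (insert q S') → ¬ K φ q := by
  classical
  obtain ⟨_, _, ho⟩ := Cardinal.exists_ord_eq_type_lt Φ
  let nx : Φ → Set P → Option P := fun φ S =>
    if h : ∃ q, inv (insert q S) ∧ K φ q then some h.choose else none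
  let c : Φ → Option P := (wellFounded_lt (α := Φ)).fix fun a r =>
    nx a {p | ∃ b, ∃ h : b < a, r b h = some p}
  have hc : ∀ a, c a = nx a {p | ∃ b < a, c b = some p} := fun a => by
    have : c a = nx a {p | ∃ b, ∃ _ : b < a, c b = some p} := WellFounded.fix_eq _ _ _
    simpa using this
  have h3 : ∀ B : Set Φ, (∀ b ∈ B, inv {p | ∃ d ≤ b, c d = some p}) →
      inv {p | ∃ b ∈ B, c b = some p} := by
    intro B hB
    refine h2 _ fun T hT hf => ?_
    rcases T.eq_empty_or_nonempty with rfl | hne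
    · exact h0
    have := hf.to_subtype
    have := hne.to_subtype
    choose g hg hg' using fun t : T => hT t.2
    obtain ⟨t, ht⟩ := Finite.exists_max g
    refine h1 _ _ (fun u hu => ?_) (hB _ (hg t))
    exact ⟨g ⟨u, hu⟩, ht _, hg' _⟩
  have h4 : ∀ a, inv {p | ∃ d ≤ a, c d = some p} := by
    intro a
    induction a using WellFoundedLT.induction with
    | ind a ih =>
      by_cases h : ∃ q, inv (insert q {p | ∃ b < a, c b = some p}) ∧ K a q
      · refine h1 _ _ ?_ h.choose_spec.1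
        rintro p ⟨d, hd, hp⟩
        rcases hd.eq_or_lt with rfl | hd
        · rw [hc, show nx d _ = some h.choose from dif_pos h] at hp
          exact Or.inl (Option.some_injective _ hp).symm
        · exact Or.inr ⟨d, hd, hp⟩
      · refine h1 _ _ ?_ (h3 (Iio a) ih)
        rintro p ⟨d, hd, hp⟩
        rcases hd.eq_or_lt with rfl | hd
        · rw [hc, show nx d _ = none from dif_neg h] at hp
          cases hp
        · exact ⟨d, hd, hp⟩
  refine ⟨_, h3 univ fun b _ => h4 b, fun a => ?_⟩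
  by_cases h : ∃ q, inv (insert q {p | ∃ b < a, c b = some p}) ∧ K a q
  · exact Or.inl ⟨_, ⟨a, trivial, (hc a).trans (dif_pos h)⟩, h.choose_spec.2⟩
  · refine Or.inr ⟨{p | ∃ b < a, c b = some p}, fun p ⟨b, _, hb⟩ => ⟨b, trivial, hb⟩, ?_,
      fun q hq hK => h ⟨q, hq, hK⟩⟩
    exact ((mk_preimage_of_injective some (c '' Iio a) (Option.some_injective _)).trans
      mk_image_le).trans_lt ((mk_Iio_lt a ho).trans_le hΦ)

end Pool.Agent.H82.Myc
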