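import Mathlib
import Pool.Agent.H82.Myc

set_option autoImplicit false

namespace Pool.Agent.H82.ConeG

open Set Filter Topology Cardinal Pool.Agent.H82.Myc

abbrev D : Type := ℕ →₀ ℚ

/-- basic neighbourhoods of the cone topology -/
def N (n : ℕ) (x : D) : Set D := {y | (∀ j < n, y j = x j) ∧ ∀ j, x j ≤ y j}

instance top : TopologicalSpace D where
  IsOpen U := ∀ x ∈ U, ∃ n, N n x ⊆ U
  isOpen_univ := fun _ _ => ⟨0, subset_univ _⟩
  isOpen_inter := fun _ _ hU hV x hx => by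
    obtain ⟨n, hn⟩ := hU x hx.1
    obtain ⟨m, hm⟩ := hV x hx.2
    exact ⟨max n m, fun y hy => ⟨hn ⟨fun j hj => hy.1 j (lt_max_of_lt_left hj), hy.2⟩,
      hm ⟨fun j hj => hy.1 j (lt_max_of_lt_right hj), hy.2⟩⟩⟩
  isOpen_sUnion := fun _ h x ⟨U, hU, hx⟩ => by
    obtain ⟨n, hn⟩ := h U hU x hx
    exact ⟨n, fun y hy => ⟨U, hU, hn hy⟩⟩

lemma isOpen_iff {U : Set D} : IsOpen U ↔ ∀ x ∈ U, ∃ n, N n x ⊆ U := Iff.rfl

lemma N_self (n : ℕ) (x : D) : x ∈ N n x := ⟨fun _ _ => rfl, fun _ => le_rfl⟩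

lemma N_clopen (n : ℕ) (x : D) : IsClopen (N n x) := by
  refine ⟨⟨isOpen_iff.2 fun z hz => ?_⟩, isOpen_iff.2 fun y hy => ⟨n, fun z hz =>
    ⟨fun j hj => (hz.1 j hj).trans (hy.1 j hj), fun j => (hy.2 j).trans (hz.2 j)⟩⟩⟩
  rcases not_and_or.1 hz with h | h
  · exact ⟨n, fun y hy hy' => h fun j hj => (hy.1 j hj).symm.trans (hy'.1 j hj)⟩
  · obtain ⟨j, hj⟩ := not_forall.1 h
    exact ⟨j + 1, fun y hy hy' => hj ((hy'.2 j).trans_eq (hy.1 j j.lt_succ_self))⟩

lemma basis (x : D) : (𝓝 x).HasBasis (fun _ : ℕ => True) fun n => N n x := by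
  refine ⟨fun U => ⟨fun h => ?_, fun ⟨n, _, hn⟩ =>
    mem_of_superset ((N_clopen n x).isOpen.mem_nhds (N_self n x)) hn⟩⟩
  obtain ⟨V, hV, h1, h2⟩ := mem_nhds_iff.1 h
  obtain ⟨n, hn⟩ := h1 x h2
  exact ⟨n, trivial, hn.trans hV⟩

lemma co_clopen (j : ℕ) (c : ℚ) : IsClopen {d : D | d j = c} :=
  ⟨⟨isOpen_iff.2 fun _ hz => ⟨j + 1, fun _ hy hy' => hz ((hy.1 j j.lt_succ_self).symm.trans hy')⟩⟩,
    isOpen_iff.2 fun _ hz => ⟨j + 1, fun _ hy => (hy.1 j j.lt_succ_self).trans hz⟩⟩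

lemma cont2 {f : D × D → D} (h : ∀ x y n, ∃ m, ∀ x' ∈ N m x, ∀ y' ∈ N m y,
    f (x', y') ∈ N n (f (x, y))) : Continuous f := by
  refine continuous_iff_continuousAt.2 fun ⟨x, y⟩ => (basis _).tendsto_right_iff.2 fun n _ => ?_
  obtain ⟨m, hm⟩ := h x y n
  exact mem_of_superset (prod_mem_nhds ((basis x).mem_of_mem (i := m) trivial)
    ((basis y).mem_of_mem (i := m) trivial)) fun p hp => hm _ hp.1 _ hp.2

instance : ContinuousAdd D := ⟨cont2 fun x y n => ⟨n, fun x' hx y' hy =>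
  ⟨fun j hj => by simp [hx.1 j hj, hy.1 j hj], fun j => add_le_add (hx.2 j) (hy.2 j)⟩⟩⟩

instance : T35Space D := by
  have : CompletelyRegularSpace D :=
    .of_isTopologicalBasis_clopens (TopologicalSpace.isTopologicalBasis_of_isOpen_of_nhds
      (fun u hu => hu.isOpen) fun x U hx hU =>
        (hU x hx).elim fun n hn => ⟨_, N_clopen n x, N_self n x, hn⟩)
  have : T0Space D := (t0Space_iff_exists_isOpen_xor_mem _).2 fun x y hxy => by
    obtain ⟨j, hj⟩ := DFunLike.ne_iff.1 hxy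
    exact ⟨_, (co_clopen j (x j)).isOpen, Or.inl ⟨rfl, hj.symm⟩⟩
  exact {}

/-- the coordinatewise swap: a rectification of `D` -/
noncomputable def sw (x y : D) : D :=
  Finsupp.zipWith (fun a b => Equiv.swap a 0 b) (by simp) x y

lemma sw_sw (x y : D) : sw x (sw x y) = y := by ext j; simp [sw]

lemma sw_self (x : D) : sw x x = 0 := by ext j; simp [sw]

lemma sw_cont : Continuous fun p : D × D => sw p.1 p.2 := by
  refine cont2 fun x y n => ?_
  obtain ⟨k, hk⟩ := (x.support ∪ y.support).bddAbove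
  refine ⟨max n (k + 1), fun x' hx y' hy => ⟨fun j hj => ?_, fun j => ?_⟩⟩
  · simp [sw, hx.1 j (lt_max_of_lt_left hj), hy.1 j (lt_max_of_lt_left hj)]
  · by_cases hj : j < max n (k + 1)
    · simp [sw, hx.1 j hj, hy.1 j hj]
    · have h1 : j ∉ x.support ∪ y.support := fun h => by have := hk h; omega
      simp only [Finset.mem_union, Finsupp.mem_support_iff, not_or, not_not] at h1
      have h2 := hx.2 j
      have h3 := hy.2 j
      simp only [sw, Finsupp.zipWith_apply, h1.1, h1.2, Equiv.swap_self, Equiv.refl_apply] at *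
      rw [Equiv.swap_apply_def]
      split_ifs <;> simp [*]

lemma tend (x : D) : Tendsto (fun k => x + Finsupp.single k 1) atTop (𝓝 x) :=
  (basis x).tendsto_right_iff.2 fun n _ => eventually_atTop.2 ⟨n, fun k hk =>
    ⟨fun j hj => by simp [show k ≠ j by omega], fun j => by
      simp only [Finsupp.coe_add, Pi.add_apply, Finsupp.single_apply]
      split_ifs <;> simp⟩⟩

abbrev E : Type := ℕ → D

instance : T35Space E := by
  have : CompletelyRegularSpace E :=
    completelyRegularSpace_iInf fun _ => completelyRegularSpace_induced inferInstance _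
  exact {}

/-- vanishing on the square below `i` -/
def W (i : ℕ) (z : E) : Prop := ∀ a < i, ∀ b < i, z a b = 0

lemma W_clopen (i : ℕ) : IsClopen {z | W i z} := by
  have : {z | W i z} = ⋂ a ∈ Iio i, ⋂ b ∈ Iio i, (fun z : E => z a) ⁻¹' {d | d b = 0} := by
    ext z; simp [W]
  rw [this]
  exact (finite_Iio i).isClopen_biInter fun a _ => (finite_Iio i).isClopen_biInter fun b _ =>
    (co_clopen b 0).preimage (continuous_apply a)

open Classical in
/-- glue `z` and `y` -/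
noncomputable def gl (z u y : E) : E := fun i => if W i z then u i else y i

lemma W_gl (z y : E) (i : ℕ) : W i (gl z z y) ↔ W i z := by
  have h0 : ∀ {i k z}, W i z → k ≤ i → W k z := fun h hk a ha b hb =>
    h a (ha.trans_le hk) b (hb.trans_le hk)
  refine ⟨fun h => ?_, fun h a ha b hb => by rw [gl, if_pos (h0 h ha.le)]; exact h a ha b hb⟩
  induction i with
  | zero => exact fun _ h => absurd h (by omega)
  | succ i ih =>
    intro a ha b hb
    have := h a ha b hb
    rwa [gl, if_pos (h0 (ih (h0 h i.le_succ)) (Nat.lt_succ_iff.1 ha))] at this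

open Classical in
lemma gl_cont {X : Type} [TopologicalSpace X] {z u y : X → E} (hz : Continuous z)
    (hu : Continuous u) (hy : Continuous y) : Continuous fun p => gl (z p) (u p) (y p) := by
  refine continuous_pi fun i => Continuous.if (fun p hp => ?_)
    ((continuous_apply i).comp hu) ((continuous_apply i).comp hy)
  rw [show {p | W i (z p)} = z ⁻¹' {z | W i z} from rfl,
    ((W_clopen i).preimage hz).frontier_eq] at hp
  exact hp.elim

noncomputable def SW (x y : E) : E := fun i => sw (x i) (y i)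

lemma SW_cont {X : Type} [TopologicalSpace X] {x y : X → E} (hx : Continuous x)
    (hy : Continuous y) : Continuous fun p => SW (x p) (y p) :=
  continuous_pi fun i => sw_cont.comp
    (((continuous_apply i).comp hx).prodMk ((continuous_apply i).comp hy))

/-- truncation -/
def tr (n : ℕ) (x : E) : E := fun i => if i < n then x i else 0

section
variable (G : Submodule ℚ E) (hG : ∀ n x, tr n x ∈ G)
include hG

lemma gl_mem {z u y : E} (hy : y ∈ G) (h : z = 0 → u ∈ G) : gl z u y ∈ G := by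
  by_cases hz : z = 0
  · have : gl z u y = u := funext fun i => if_pos (by simp [W, hz])
    rw [this]; exact h hz
  obtain ⟨a, ha⟩ := Function.ne_iff.1 hz
  obtain ⟨b, hb⟩ := DFunLike.ne_iff.1 ha
  have : gl z u y = tr (max a b + 1) (gl z u y - y) + y := by
    funext i
    by_cases hi : i < max a b + 1
    · simp [tr, hi]
    · rw [gl, if_neg fun h => hb (h a (by omega) b (by omega))]
      simp [tr, hi]
  exact this ▸ G.add_mem (hG _ _) hy

lemma rect : ∃ φ : (G × G) ≃ₜ (G × G), (∀ p, (φ p).1 = p.1) ∧ ∀ x, φ (x, x) = (x, 0) := by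
  have c1 : Continuous fun p : G × G => (p.1 : E) := by fun_prop
  have c2 : Continuous fun p : G × G => (p.2 : E) := by fun_prop
  refine ⟨⟨⟨fun p => (p.1, ⟨gl (SW p.1 p.2) (SW p.1 p.2) p.2, gl_mem G hG p.2.2
    fun h => h ▸ G.zero_mem⟩), fun p => (p.1, ⟨gl p.2 (SW p.1 p.2) p.2, gl_mem G hG p.2.2
    fun h => ?_⟩), fun p => ?_, fun p => ?_⟩, continuous_fst.prodMk ((gl_cont (SW_cont c1 c2)
      (SW_cont c1 c2) c2).subtype_mk _), continuous_fst.prodMk ((gl_cont c2
      (SW_cont c1 c2) c2).subtype_mk _)⟩, fun _ => rfl, fun x => ?_⟩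
  · have : SW p.1 p.2 = p.1 := funext fun i => by
      rw [SW, h, Pi.zero_apply, ← sw_self ((p.1 : E) i), sw_sw]
    rw [this]; exact p.1.2
  · refine Prod.ext rfl (Subtype.ext (funext fun i => ?_))
    change gl (gl (SW p.1 p.2) (SW p.1 p.2) p.2) (SW p.1 (gl (SW p.1 p.2) (SW p.1 p.2) p.2))
      (gl (SW p.1 p.2) (SW p.1 p.2) p.2) i = (p.2 : E) i
    by_cases h : W i (SW p.1 p.2)
    · rw [gl, if_pos ((W_gl _ _ _).2 h), SW, gl, if_pos h, SW, sw_sw]
    · rw [gl, if_neg (mt (W_gl _ _ _).1 h), gl, if_neg h]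
  · refine Prod.ext rfl (Subtype.ext (funext fun i => ?_))
    change gl (SW p.1 (gl p.2 (SW p.1 p.2) p.2)) (SW p.1 (gl p.2 (SW p.1 p.2) p.2))
      (gl p.2 (SW p.1 p.2) p.2) i = (p.2 : E) i
    have h1 : SW p.1 (gl p.2 (SW p.1 p.2) p.2) = gl p.2 p.2 (SW p.1 p.2) := funext fun k => by
      by_cases h : W k p.2
      · rw [SW, gl, gl, if_pos h, if_pos h, SW, sw_sw]
      · rw [SW, gl, gl, if_neg h, if_neg h, SW]
    rw [h1]
    by_cases h : W i p.2
    · rw [gl, if_pos ((W_gl _ _ _).2 h), gl, if_pos h]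
    · rw [gl, if_neg (mt (W_gl _ _ _).1 h), gl, if_neg h]
  · refine Prod.ext rfl (Subtype.ext (funext fun i => ?_))
    have : SW x x = 0 := funext fun i => sw_self _
    change gl (SW x x) (SW x x) x i = 0
    rw [this, gl, if_pos (by simp [W])]
    rfl

end

abbrev Q : Type := (ℕ →₀ D) × (ℕ →₀ D)

def ι (q : Q) : E × E := (q.1, q.2)

lemma tr_mem (n : ℕ) (x : E) : tr n x ∈ range (DFunLike.coe : (ℕ →₀ D) → E) :=
  ⟨Finsupp.onFinset (Finset.range n) (tr n x) fun i hi => by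
    by_contra h; exact hi (if_neg (by simpa using h)), rfl⟩

lemma ag_tr (n : ℕ) (x : E) : ag n (tr n x) x := fun _ hi => if_pos hi

lemma cylE {x : E} {O : Set E} (h : O ∈ 𝓝 x) : ∃ m, ∀ u, ag m u x → u ∈ O := by
  rw [nhds_pi, Filter.mem_pi] at h
  obtain ⟨I, hI, t, ht, hO⟩ := h
  obtain ⟨k, hk⟩ := hI.bddAbove
  exact ⟨k + 1, fun u hu => hO fun i hi =>
    hu i (Nat.lt_succ_of_le (hk hi)) ▸ mem_of_mem_nhds (ht i)⟩

lemma cyl2 {z : E × E} {O : Set (E × E)} (h : O ∈ 𝓝 z) :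
    ∃ m, ∀ u : E × E, ag m u.1 z.1 → ag m u.2 z.2 → u ∈ O := by
  obtain ⟨U, hU, V, hV, hO⟩ := mem_nhds_prod_iff.1 h
  obtain ⟨m, hm⟩ := cylE hU
  obtain ⟨k, hk⟩ := cylE hV
  exact ⟨max m k, fun u h1 h2 => hO ⟨hm _ fun i hi => h1 i (lt_max_of_lt_left hi),
    hk _ fun i hi => h2 i (lt_max_of_lt_right hi)⟩⟩

instance (z : E × E) : NeBot (comap ι (𝓝 z)) := comap_neBot fun t ht => by
  obtain ⟨m, hm⟩ := cyl2 ht
  obtain ⟨a, ha⟩ := tr_mem m z.1
  obtain ⟨b, hb⟩ := tr_mem m z.2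
  exact ⟨(a, b), hm _ (ha ▸ ag_tr m z.1 :) (hb ▸ ag_tr m z.2 :)⟩

def Lim (φ : Q → E) (z : E × E) (w : E) : Prop := Tendsto φ (comap ι (𝓝 z)) (𝓝 w)

lemma loc {φ : Q → E} {z : E × E} {w : E} (h : Lim φ z w) (i k : ℕ) : ∃ m, ∀ u : E × E,
    ag m u.1 z.1 → ag m u.2 z.2 → ∀ w', Lim φ u w' → w' i k = w i k := by
  have hc := (co_clopen k (w i k)).preimage (continuous_apply (A := fun _ : ℕ => D) i)
  obtain ⟨t, ht, h1⟩ := mem_comap.1 (h (hc.isOpen.mem_nhds rfl))
  obtain ⟨m, hm⟩ := cyl2 (interior_mem_nhds.2 ht)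
  exact ⟨m, fun u h2 h3 w' hw => hc.isClosed.mem_of_tendsto hw
    (mem_comap.2 ⟨t, mem_interior_iff_mem_nhds.1 (hm u h2 h3), h1⟩)⟩

abbrev P : Type := (E × E) × Option E

noncomputable def V (S : Set P) : Submodule ℚ E := Submodule.span ℚ
  (range (DFunLike.coe : (ℕ →₀ D) → E) ∪ (fun p => p.1.1) '' S ∪ (fun p => p.1.2) '' S)

lemma V_mono {S T : Set P} (h : S ⊆ T) : V S ≤ V T := Submodule.span_mono <| by gcongr

lemma V_ins {S : Set P} {q : P} {x : E} (h : x ∈ V (insert q S)) :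
    ∃ g ∈ V S, ∃ a b : ℚ, x = g + a • q.1.1 + b • q.1.2 := by
  rw [V, image_insert_eq, image_insert_eq, union_insert, union_insert, insert_union,
    Submodule.mem_span_insert] at h
  obtain ⟨b, y, hy, rfl⟩ := h
  obtain ⟨a, g, hg, rfl⟩ := Submodule.mem_span_insert.1 hy
  exact ⟨g, hg, a, b, by abel⟩

lemma V_fin {S : Set P} {x : E} (h : x ∈ V S) : ∃ T ⊆ S, T.Finite ∧ x ∈ V T := by
  induction h using Submodule.span_induction with
  | mem x hx =>
    rcases hx with (hx | ⟨p, hp, rfl⟩) | ⟨p, hp, rfl⟩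
    · exact ⟨∅, empty_subset _, finite_empty, Submodule.subset_span (Or.inl (Or.inl hx))⟩
    · exact ⟨{p}, by simpa, finite_singleton _,
        Submodule.subset_span (Or.inl (Or.inr ⟨p, rfl, rfl⟩))⟩
    · exact ⟨{p}, by simpa, finite_singleton _, Submodule.subset_span (Or.inr ⟨p, rfl, rfl⟩)⟩
  | zero => exact ⟨∅, empty_subset _, finite_empty, zero_mem _⟩
  | add x y _ _ h1 h2 =>
    obtain ⟨T, a, b, c⟩ := h1
    obtain ⟨T', a', b', c'⟩ := h2
    exact ⟨T ∪ T', union_subset a a', b.union b',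
      add_mem (V_mono subset_union_left c) (V_mono subset_union_right c')⟩
  | smul r x _ h =>
    obtain ⟨T, a, b, c⟩ := h
    exact ⟨T, a, b, Submodule.smul_mem _ r c⟩

lemma span_lt {T : Set E} (h : #T < 𝔠) : #(Submodule.span ℚ T) < 𝔠 := by
  rw [Finsupp.span_eq_range_linearCombination]
  refine (mk_range_le (f := Finsupp.linearCombination ℚ ((↑) : T → E))).trans_lt ?_
  rcases isEmpty_or_nonempty T with h0 | h0
  · exact mk_le_aleph0.trans_lt aleph0_lt_continuum
  · rw [mk_finsupp_of_infinite']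
    exact max_lt h (mk_le_aleph0.trans_lt aleph0_lt_continuum)

/-- every continuous binary operation is affine on a dense family of cylinders -/
def LA (G : Submodule ℚ E) (f : G × G → G) : Prop :=
  ∀ (n0 : ℕ) (s0 : E × E), ∃ n ≥ n0, ∃ s : E × E, ag n0 s.1 s0.1 ∧ ag n0 s.2 s0.2 ∧
    ∃ (g : E) (a b : ℚ), ∀ x y : G, ag n x s.1 → ag n y s.2 →
      (f (x, y) : E) = g + a • (x : E) + b • (y : E)

theorem exG : ∃ G : Submodule ℚ E, (∀ n x, tr n x ∈ G) ∧
    ∀ f : G × G → G, Continuous f → LA G f := by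
  classical
  have hΦ : #(Q → E) ≤ 𝔠 := by
    simp [Q, E]
  let inv : Set P → Prop := fun S => ∀ p ∈ S, ∀ w, p.2 = some w → w ∉ V S
  have hmono : ∀ S T, T ⊆ S → inv S → inv T :=
    fun S T hT h p hp w hw h' => h p (hT hp) w hw (V_mono hT h')
  obtain ⟨S, hS, hK⟩ := kill hΦ inv (fun φ q => ∀ w, Lim φ q.1 w → q.2 = some w)
    (fun _ h => h.elim) hmono fun S h p hp w hw h' => by
      obtain ⟨T, a, b, c⟩ := V_fin h'
      exact h (insert p T) (insert_subset hp a) (b.insert p) p (Or.inl rfl) w hw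
        (V_mono (subset_insert _ _) c)
  have hQ : ∀ S, ∀ q : ℕ →₀ D, (q : E) ∈ V S := fun S q =>
    Submodule.subset_span (Or.inl (Or.inl ⟨q, rfl⟩))
  have htr : ∀ n x, tr n x ∈ V S := fun n x => (tr_mem n x).elim fun q hq => hq ▸ hQ S q
  refine ⟨V S, htr, fun f hf n0 s0 => ?_⟩
  let φ : Q → E := fun q => f (⟨q.1, hQ S _⟩, ⟨q.2, hQ S _⟩)
  have hL : ∀ x y : V S, Lim φ (x, y) (f (x, y)) := fun x y =>
    ((continuous_subtype_val.comp hf).tendsto (x, y)).comp
      ((IsInducing.subtypeVal.prodMap IsInducing.subtypeVal).tendsto_nhds_iff.2 tendsto_comap)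
  rcases hK φ with ⟨p, hp, h⟩ | ⟨S', hS', hc, h⟩
  · exact (hS p hp _ (h _ (hL ⟨_, Submodule.subset_span (Or.inl (Or.inr ⟨p, hp, rfl⟩))⟩
      ⟨_, Submodule.subset_span (Or.inr ⟨p, hp, rfl⟩)⟩)) (Subtype.prop _)).elim
  by_contra hne
  push Not at hne
  let Val : Bool × ℚ × ℚ → E × E → E → Prop := fun j z v =>
    (j.1 = true ∧ (j.2.1 ≠ 0 ∨ j.2.2 ≠ 0) ∧ v = j.2.1 • z.1 + j.2.2 • z.2) ∨
    (j.1 = false ∧ ∃ w, Lim φ z w ∧ w = v + j.2.1 • z.1 + j.2.2 • z.2)
  let pr : (ℕ → D × D) → E × E := fun z => (fun i => (z i).1, fun i => (z i).2)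
  let Wd := Submodule.span ℚ ((V S' : Set E) ∪ (fun p : P => p.2.getD 0) '' S')
  have hW : #Wd < 𝔠 := by
    refine span_lt ((mk_union_le _ _).trans_lt (add_lt_of_lt aleph0_le_continuum (span_lt ?_)
      (mk_image_le.trans_lt hc)))
    refine (mk_union_le _ _).trans_lt (add_lt_of_lt aleph0_le_continuum
      ((mk_union_le _ _).trans_lt (add_lt_of_lt aleph0_le_continuum ?_
      (mk_image_le.trans_lt hc))) (mk_image_le.trans_lt hc))
    exact (countable_range _).le_aleph0.trans_lt aleph0_lt_continuum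
  have hcov : ∀ z, ∃ j, ∃ v : Wd, Val j z v := by
    intro z
    obtain ⟨o, ho, ho'⟩ : ∃ o : Option E, (∀ w, Lim φ z w → o = some w) ∧
        ∀ w, o = some w → Lim φ z w := by
      by_cases hd : ∃ w, Lim φ z w
      · obtain ⟨w, hw⟩ := hd
        exact ⟨some w, fun w' hw' => congrArg some (tendsto_nhds_unique hw hw'),
          fun w' h => Option.some_injective _ h ▸ hw⟩
      · exact ⟨none, fun w hw => (hd ⟨w, hw⟩).elim, fun w h => by cases h⟩
    have h1 : ¬ inv (insert (z, o) S') := fun h' => h _ h' ho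
    simp only [inv, not_forall, not_not] at h1
    obtain ⟨p, hp, w, hw, h2⟩ := h1
    obtain ⟨g, hg, a, b, h3⟩ := V_ins h2
    rcases hp with rfl | hp
    · exact ⟨(false, a, b), ⟨g, Submodule.subset_span (Or.inl hg)⟩, Or.inr ⟨rfl, w, ho' w hw, h3⟩⟩
    · refine ⟨(true, a, b), ⟨w - g, sub_mem (Submodule.subset_span (Or.inr ⟨p, hp, by simp [hw]⟩))
        (Submodule.subset_span (Or.inl hg))⟩, Or.inl ⟨rfl, ?_, by simp [h3, add_assoc]⟩⟩
      by_contra h4
      push Not at h4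
      exact hmono S S' hS' hS p hp w hw (by simpa [h3, show a = 0 from h4.1, show b = 0 from h4.2])
  obtain ⟨F, hF⟩ := myc (fun j z z' => ∃ v, Val j (pr z) v ∧ Val j (pr z') v) n0
    (fun i => (s0.1 i, s0.2 i)) <| by
    rintro ⟨_ | _, a, b⟩ n A B hn hA hB
    · let x' : V S := ⟨_, htr n (pr B).1⟩
      let y' : V S := ⟨_, htr n (pr B).2⟩
      obtain ⟨x, y, hx, hy, h1⟩ := hne n hn (pr A) (fun i hi => congrArg Prod.fst (hA i hi))
        (fun i hi => congrArg Prod.snd (hA i hi)) (f (x', y') - a • (x' : E) - b • (y' : E)) a b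
      obtain ⟨i, hi⟩ := Function.ne_iff.1 h1
      obtain ⟨k, hk⟩ := DFunLike.ne_iff.1 hi
      obtain ⟨m, hm⟩ := loc (hL x y) i k
      obtain ⟨m', hm'⟩ := loc (hL x' y') i k
      refine ⟨n + m + m' + i + 1, by omega, fun i => (x.1 i, y.1 i), fun i => (x'.1 i, y'.1 i),
        fun i hi => Prod.ext (hx i hi) (hy i hi),
        fun i hi => Prod.ext (ag_tr n _ i hi) (ag_tr n _ i hi), ?_⟩
      rintro z z' hz hz' ⟨v, ⟨h, -⟩ | ⟨-, w, hw, h2⟩, ⟨h', -⟩ | ⟨-, w', hw', h3⟩⟩ <;>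
        try contradiction
      have h4 := hm (pr z) (fun i hi => congrArg Prod.fst (hz i (by omega)))
        (fun i hi => congrArg Prod.snd (hz i (by omega))) w hw
      have h5 := hm' (pr z') (fun i hi => congrArg Prod.fst (hz' i (by omega)))
        (fun i hi => congrArg Prod.snd (hz' i (by omega))) w' hw'
      apply hk
      simp only [h2, h3, pr, hz i (by omega), hz' i (by omega), Pi.add_apply, Pi.smul_apply,
        Pi.sub_apply, Finsupp.coe_add, Finsupp.coe_smul, Finsupp.coe_sub, smul_eq_mul] at h4 h5 ⊢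
      linarith
    · refine ⟨n + 1, by omega, Function.update A n 0,
        Function.update B n (Finsupp.single 0 a, Finsupp.single 0 b),
        fun i hi => Function.update_of_ne hi.ne _ _, fun i hi => Function.update_of_ne hi.ne _ _, ?_⟩
      rintro z z' hz hz' ⟨v, ⟨-, h1, h2⟩ | ⟨h, -⟩, ⟨-, -, h3⟩ | ⟨h', -⟩⟩ <;> try contradiction
      have h4 := congrArg (fun e : E => e n 0) (h2.symm.trans h3)
      simp [pr, hz n n.lt_succ_self, hz' n n.lt_succ_self] at h4
      rcases h1 with h1 | h1 <;> nlinarith [mul_self_pos.2 h1, mul_self_nonneg a, mul_self_nonneg b]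
  choose j v hv using fun T => hcov (pr (F T))
  have h1 : #(Set ℕ) ≤ #((Bool × ℚ × ℚ) × Wd) := mk_le_of_injective (f := fun T => (j T, v T))
    fun T T' hT => by
      by_contra h2
      have h3 := hv T'
      rw [← show j T = j T' from congrArg Prod.fst hT,
        ← show v T = v T' from congrArg Prod.snd hT] at h3
      exact hF T T' h2 _ ⟨_, hv T, h3⟩
  rw [mk_set_nat, mk_prod, lift_id, lift_id] at h1
  exact h1.not_gt (mul_lt_of_lt aleph0_le_continuum
    (mk_le_aleph0.trans_lt aleph0_lt_continuum) hW)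

section
variable {G : Submodule ℚ E} (hG : ∀ n x, tr n x ∈ G)
include hG

lemma single_mem (n : ℕ) (d : D) : (Pi.single n d : E) ∈ G := by
  convert hG (n + 1) (Pi.single n d) using 1
  funext i
  by_cases h : i < n + 1
  · exact (if_pos h).symm
  · rw [tr, if_neg h, Pi.single_eq_of_ne (by omega)]

lemma pos {u : G → G} (hu : Continuous u) (hi : Function.Injective u) {n : ℕ} {s g : E} {a : ℚ}
    (h : ∀ x : G, ag n x s → (u x : E) = g + a • (x : E)) : 0 < a := by
  let x0 : G := ⟨_, hG n s⟩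
  let x : ℕ → G := fun k => x0 + ⟨_, single_mem hG n (Finsupp.single k 1)⟩
  have h0 := h x0 (ag_tr n s)
  have hx : ∀ k, (u (x k) : E) = u x0 + a • (Pi.single n (Finsupp.single k 1) : E) := fun k => by
    rw [h0, h (x k) fun i hi => by
      simp [x, x0, Pi.single_eq_of_ne hi.ne, ag_tr n s i hi]]
    simp [x, add_assoc]
  have h1 : Tendsto x atTop (𝓝 x0) := by
    refine tendsto_subtype_rng.2 (tendsto_pi_nhds.2 fun i => ?_)
    by_cases hi : i = n
    · simpa [x, hi] using tend (x0.1 n)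
    · simp [x, Pi.single_eq_of_ne hi]
  have h2 := (((continuous_apply n).comp (continuous_subtype_val.comp hu)).tendsto x0).comp h1
  obtain ⟨k, hk⟩ := ((basis _).tendsto_right_iff.1 h2 0 trivial).exists
  have h3 := hk.2 k
  simp only [Function.comp, hx] at h3
  refine lt_of_le_of_ne (by simpa using h3) fun h4 => ?_
  have h5 := congrArg (fun y : G => y.1 n k) (hi (Subtype.ext (by rw [hx, ← h4]; simp) :
    u (x k) = u x0))
  simp [x] at h5

theorem not_group (hA : ∀ f : G × G → G, Continuous f → LA G f) {H : Type} [Group H]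
    [TopologicalSpace H] [IsTopologicalGroup H] (e : G ≃ₜ H) : False := by
  let f : G × G → G := fun p => e.symm ((e p.1)⁻¹ * e p.2)
  have hf : Continuous f := by fun_prop
  have hp : ∀ {n : ℕ} {s : E × E} {g : E} {a b : ℚ}, (∀ x y : G, ag n x s.1 → ag n y s.2 →
      (f (x, y) : E) = g + a • (x : E) + b • (y : E)) → 0 < a ∧ 0 < b := by
    intro n s g a b h
    refine ⟨pos hG (u := fun x => f (x, ⟨_, hG n s.2⟩)) (by fun_prop) (fun x y hxy => ?_)
      (g := g + b • tr n s.2) (n := n) (s := s.1) fun x hx => ?_,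
      pos hG (u := fun y => f (⟨_, hG n s.1⟩, y)) (by fun_prop) (fun x y hxy => ?_)
      fun y hy => h _ y (ag_tr n _) hy⟩
    · simpa [f] using hxy
    · rw [h x _ hx (ag_tr n _)]; abel
    · simpa [f] using hxy
  obtain ⟨n, -, s, -, -, g, a, b, h⟩ := hA f hf 0 0
  obtain ⟨m, hm, w, hw1, hw2, g', a', b', h'⟩ := hA f hf n
    (g + a • tr n s.1 + b • s.2, g + a • tr n s.1 + b • s.2)
  obtain ⟨ha, hb⟩ := hp h
  obtain ⟨ha', hb'⟩ := hp h'
  let y : E → G := fun v => ⟨_, hG m (b⁻¹ • (v - g - a • tr n s.1))⟩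
  have hy : ∀ v, ag n v (g + a • tr n s.1 + b • s.2) → ag n (y v) s.2 := fun v hv i hi => by
    simp only [y, ag_tr m _ i (hi.trans_le hm), Pi.smul_apply, Pi.sub_apply, hv i hi, Pi.add_apply]
    ext k
    simp only [Finsupp.coe_add, Finsupp.coe_smul, Finsupp.coe_sub, Pi.smul_apply, Pi.add_apply,
      Pi.sub_apply, smul_eq_mul]
    field_simp
    ring
  have key : ∀ x : G, ag m x (tr n s.1) → (f (y w.1, y w.2) : E) = g' +
      a' • (g + a • (x : E) + b • (y w.1 : E)) + b' • (g + a • (x : E) + b • (y w.2 : E)) := by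
    intro x hx
    have h1 : ag n x s.1 := hx.trans (ag_tr n _) hm le_rfl
    have h2 : ∀ v, ag m (g + a • (x : E) + b • (y v : E)) v := fun v i hi => by
      simp only [y, ag_tr m _ i hi, Pi.smul_apply, Pi.sub_apply, hx i hi, Pi.add_apply]
      ext k
      simp only [Finsupp.coe_add, Finsupp.coe_smul, Finsupp.coe_sub, Pi.smul_apply, Pi.add_apply,
        Pi.sub_apply, smul_eq_mul]
      field_simp
      ring
    have h3 := h x _ h1 (hy _ hw1)
    have h4 := h x _ h1 (hy _ hw2)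
    rw [← h3, ← h4, ← h' _ _ (h3 ▸ h2 _) (h4 ▸ h2 _)]
    simp [f, mul_assoc]
  have h1 := (key ⟨_, hG n s.1⟩ fun _ _ => rfl).symm.trans
    (key (⟨_, hG n s.1⟩ + ⟨_, single_mem hG m (Finsupp.single 0 1)⟩) fun i hi => by
      simp [Pi.single_eq_of_ne hi.ne])
  have h2 := congrArg (fun v : E => v m 0) h1
  simp at h2
  nlinarith [mul_pos ha' ha, mul_pos hb' ha]

end

theorem main : ∃ (G : Type) (_ : Group G) (_ : TopologicalSpace G), ContinuousMul G ∧
    T35Space G ∧ (∃ (φ : (G × G) ≃ₜ (G × G)) (e : G),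
      (∀ p : G × G, (φ p).1 = p.1) ∧ ∀ x : G, φ (x, x) = (x, e)) ∧
    ∀ (H : Type) [Group H] [TopologicalSpace H] [IsTopologicalGroup H], IsEmpty (G ≃ₜ H) := by
  obtain ⟨G, hG, hA⟩ := exG
  obtain ⟨φ, h⟩ := rect G hG
  have : ContinuousAdd G := ⟨Continuous.subtype_mk (f := fun p : G × G => (p.1 : E) + p.2)
    (by fun_prop) _⟩
  exact ⟨Multiplicative G, inferInstance, inferInstance, inferInstance,
    inferInstanceAs (T35Space G), ⟨φ, (0 : G), h⟩, fun H _ _ _ => ⟨fun e => not_group hG hA e⟩⟩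

end Pool.Agent.H82.ConeG
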