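import Mathlib
import Pool.Agent.H33.Contin

/-! A disc with a helix winding onto its boundary, and the squaring map. -/

set_option autoImplicit false

namespace Pool.Agent.H82.ConfA

open Set Metric Topology Filter Complex

abbrev E := ℂ × ℝ

noncomputable def ex (θ : ℝ) : ℂ := exp (θ * I)

@[fun_prop] theorem ex_cont : Continuous ex := by unfold ex; fun_prop

theorem ex_norm (θ : ℝ) : ‖ex θ‖ = 1 := norm_exp_ofReal_mul_I θ

theorem ex_add (a b : ℝ) : ex (a + b) = ex a * ex b := by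
  unfold ex; rw [← exp_add]; push_cast; ring_nf

theorem ex_sq (t : ℝ) : ex (1 / t) ^ 2 = ex (2 / t) := by
  rw [sq, ← ex_add]; congr 1; ring

def S (k : ℝ) : Set E :=
  {p | (p.2 = 0 ∧ ‖p.1‖ ≤ 1) ∨ (0 < p.2 ∧ p.2 ≤ 1 ∧ p.1 = ex (k / p.2))}

def Z (k δ : ℝ) : Set E :=
  {p | 0 ≤ p.2 ∧ p.2 ≤ 1 ∧ ‖p.1‖ ≤ 1 ∧ (p.2 ≤ δ ∨ p.1 = ex (k / max p.2 δ))}

theorem cq (k : ℝ) {δ : ℝ} (hδ : 0 < δ) : Continuous fun p : E => k / max p.2 δ :=
  continuous_const.div (by fun_prop) fun p => (hδ.trans_le (le_max_right _ _)).ne'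

theorem Z_compact (k : ℝ) {δ : ℝ} (hδ : 0 < δ) : IsCompact (Z k δ) :=
  ((isCompact_closedBall (0:ℂ) 1).prod (isCompact_Icc (a := (0:ℝ)) (b := 1))).of_isClosed_subset
    (IsClosed.and (isClosed_le continuous_const continuous_snd) (IsClosed.and
      (isClosed_le continuous_snd continuous_const) (IsClosed.and
      (isClosed_le continuous_fst.norm continuous_const)
      ((isClosed_le continuous_snd continuous_const).union
        (isClosed_eq continuous_fst (ex_cont.comp (cq k hδ)))))))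
    fun _ h => ⟨mem_closedBall_zero_iff.2 h.2.2.1, h.1, h.2.1⟩

theorem Z_mono (k : ℝ) {δ δ' : ℝ} (h : δ ≤ δ') : Z k δ ⊆ Z k δ' := fun p hp =>
  ⟨hp.1, hp.2.1, hp.2.2.1, (le_or_gt p.2 δ').imp_right fun h' => by
    rcases hp.2.2.2 with k1 | k1
    · linarith
    · rwa [max_eq_left (h.trans h'.le), ← max_eq_left h'.le] at k1⟩

theorem S_eq (k : ℝ) : S k = ⋂ n : ℕ, Z k (1 / (n + 1)) := by
  ext p
  refine ⟨fun h => mem_iInter.2 fun n => ?_, fun h => ?_⟩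
  · have hn : (0:ℝ) < 1 / (n + 1) := Nat.one_div_pos_of_nat
    rcases h with ⟨h1, h2⟩ | ⟨h1, h2, h3⟩
    · exact ⟨h1.ge, h1.le.trans zero_le_one, h2, Or.inl (h1.le.trans hn.le)⟩
    · exact ⟨h1.le, h2, by rw [h3, ex_norm], (le_total p.2 _).imp_right fun h' => by
        rwa [max_eq_left h']⟩
  · have h0 := mem_iInter.1 h 0
    rcases h0.1.eq_or_lt with e | e
    · exact Or.inl ⟨e.symm, h0.2.2.1⟩
    obtain ⟨n, hn⟩ := exists_nat_one_div_lt e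
    exact Or.inr ⟨e, h0.2.1, by
      have := (mem_iInter.1 h n).2.2.2.resolve_left (not_le.2 hn)
      rwa [max_eq_left hn.le] at this⟩

theorem S_compact (k : ℝ) : IsCompact (S k) := by
  rw [S_eq]
  exact (Z_compact k Nat.one_div_pos_of_nat).of_isClosed_subset
    (isClosed_iInter fun n => (Z_compact k Nat.one_div_pos_of_nat).isClosed) (iInter_subset _ 0)

theorem Z_contr (k : ℝ) {δ : ℝ} (hδ : 0 < δ) (h1 : δ ≤ 1) : ContractibleSpace (Z k δ) := by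
  have inv : ∀ θ, ex (-θ) * ex θ = 1 := fun θ => by rw [← ex_add]; simp [ex]
  let Φ : E ≃ₜ E :=
    { toFun := fun p => (p.1 * ex (-(k / max p.2 δ)), p.2)
      invFun := fun p => (p.1 * ex (k / max p.2 δ), p.2)
      left_inv := fun p => by simp only [mul_assoc, inv, mul_one]
      right_inv := fun p => by simp only [mul_assoc, mul_comm (ex _) (ex (-_)), inv, mul_one]
      continuous_toFun := (continuous_fst.mul (ex_cont.comp (cq k hδ).neg)).prodMk continuous_snd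
      continuous_invFun := (continuous_fst.mul (ex_cont.comp (cq k hδ))).prodMk continuous_snd }
  have hs : StarConvex ℝ ((1, δ) : E)
      {p : E | 0 ≤ p.2 ∧ p.2 ≤ 1 ∧ ‖p.1‖ ≤ 1 ∧ (p.2 ≤ δ ∨ p.1 = 1)} := by
    rintro p ⟨p1, p2, p3, p4⟩ a b ha hb hab
    refine ⟨show 0 ≤ a * δ + b * p.2 by positivity, show a * δ + b * p.2 ≤ 1 by nlinarith,
      (norm_add_le _ _).trans ?_, p4.imp (fun h => show a * δ + b * p.2 ≤ δ by nlinarith)
      fun h => ?_⟩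
    · show ‖a • (1:ℂ)‖ + ‖b • p.1‖ ≤ 1
      rw [norm_smul, norm_smul, Real.norm_of_nonneg ha, Real.norm_of_nonneg hb, norm_one]
      nlinarith
    · show a • (1:ℂ) + b • p.1 = 1
      rw [h, ← add_smul, hab, one_smul]
  have := hs.contractibleSpace ⟨(1, δ), hδ.le, h1, by simp, Or.inr rfl⟩
  refine (Φ.sets (t := {p : E | 0 ≤ p.2 ∧ p.2 ≤ 1 ∧ ‖p.1‖ ≤ 1 ∧ (p.2 ≤ δ ∨ p.1 = 1)})
    (ext fun p => and_congr_right' (and_congr_right' (and_congr ?_ (or_congr_right ?_))))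
    ).contractibleSpace
  · show _ ↔ ‖p.1 * ex _‖ ≤ 1
    rw [norm_mul, ex_norm, mul_one]
  · show _ ↔ p.1 * ex _ = 1
    exact ⟨fun h => by rw [h, mul_comm, inv], fun h => by
      rw [← mul_one p.1, ← inv (k / max p.2 δ), ← mul_assoc, h, one_mul]⟩

/-- the part of the helix up to height s -/
def Hx (k s : ℝ) : Set E := (fun t => (ex (k / t), t)) '' Ioc 0 s

theorem Hx_conn (k s : ℝ) : IsPreconnected (Hx k s) :=
  isPreconnected_Ioc.image _ ((ex_cont.comp_continuousOn (continuousOn_const.div continuousOn_id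
    fun _ h => h.1.ne')).prodMk continuousOn_id)

theorem circ {k s : ℝ} (hk : 0 < k) (hs : 0 < s) {w : ℂ} (hw : ‖w‖ = 1) :
    ((w, 0) : E) ∈ closure (Hx k s) := by
  have h1 : Tendsto (fun n : ℕ => arg w + n * (2 * Real.pi)) atTop atTop :=
    tendsto_atTop_add_const_left _ _ (tendsto_natCast_atTop_atTop.atTop_mul_const (by positivity))
  have h2 := h1.const_div_atTop k
  refine mem_closure_of_tendsto (tendsto_const_nhds.prodMk_nhds h2) ?_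
  filter_upwards [h1.eventually_gt_atTop 0, h2.eventually (gt_mem_nhds hs)] with n n1 n2
  refine ⟨_, ⟨div_pos hk n1, n2.le⟩, Prod.ext ?_ rfl⟩
  show ex _ = w
  rw [div_div_cancel₀ hk.ne', ex_add]
  have e1 : ex (arg w) = w := by simpa [hw, ex] using norm_mul_exp_arg_mul_I w
  have e2 : ex (n * (2 * Real.pi)) = 1 := by
    unfold ex; push_cast
    rw [mul_assoc, exp_nat_mul_two_pi_mul_I]
  rw [e1, e2, mul_one]

theorem Hx_sub (k : ℝ) : Hx k 1 ⊆ S k := by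
  rintro _ ⟨t, ht, rfl⟩
  exact Or.inr ⟨ht.1, ht.2, rfl⟩

theorem S_conn {k : ℝ} (hk : 0 < k) : IsConnected (S k) := by
  refine ⟨⟨(0, 0), Or.inl ⟨rfl, by simp⟩⟩, isPreconnected_of_forall (1, 0) fun y hy => ?_⟩
  rcases hy with ⟨h1, h2⟩ | ⟨h1, h2, h3⟩
  · exact ⟨closedBall 0 1 ×ˢ {0}, fun p h => Or.inl ⟨h.2, mem_closedBall_zero_iff.1 h.1⟩,
      ⟨by simp, rfl⟩, ⟨mem_closedBall_zero_iff.2 h2, h1⟩,
      (convex_closedBall _ _).isPreconnected.prod isPreconnected_singleton⟩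
  · exact ⟨closure (Hx k 1), closure_minimal (Hx_sub k) (S_compact k).isClosed,
      circ hk one_pos norm_one, subset_closure ⟨y.2, ⟨h1, h2⟩, Prod.ext h3.symm rfl⟩,
      (Hx_conn k 1).closure⟩

noncomputable def f (p : E) : E := (p.1 ^ 2, p.2)

theorem f_cont : Continuous f := by unfold f; fun_prop

theorem f_img : f '' S 1 = S 2 := by
  refine Subset.antisymm (image_subset_iff.2 ?_) ?_
  · rintro p (⟨h1, h2⟩ | ⟨h1, h2, h3⟩)
    · exact Or.inl ⟨h1, by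
        show ‖p.1 ^ 2‖ ≤ 1
        rw [norm_pow]; exact pow_le_one₀ (norm_nonneg _) h2⟩
    · exact Or.inr ⟨h1, h2, show p.1 ^ 2 = _ by rw [h3, ex_sq]; rfl⟩
  · rintro p (⟨h1, h2⟩ | ⟨h1, h2, h3⟩)
    · obtain ⟨z, hz⟩ := IsAlgClosed.exists_pow_nat_eq p.1 two_pos
      refine ⟨(z, p.2), Or.inl ⟨h1, ?_⟩, Prod.ext hz rfl⟩
      rw [← hz, norm_pow] at h2
      exact (pow_le_one_iff_of_nonneg (norm_nonneg _) two_ne_zero).1 h2
    · exact ⟨(ex (1 / p.2), p.2), Or.inr ⟨h1, h2, rfl⟩, Prod.ext ((ex_sq _).trans h3.symm) rfl⟩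

theorem disc {K : Set E} (hK : IsClosed K) (hc : IsPreconnected K)
    (h0 : ∀ p ∈ K, p.2 = 0 ∧ ‖p.1‖ ≤ 1) {x : E} (hx : f x ∈ K) :
    ∃ C ⊆ S 1 ∩ f ⁻¹' K, IsPreconnected C ∧ x ∈ C ∧ K ⊆ f '' C := by
  have ho : IsOpenMap fun z : ℂ => z ^ 2 := (AnalyticOnNhd.is_constant_or_isOpenMap
    (g := fun z : ℂ => z ^ 2) fun z _ => by fun_prop).resolve_left fun ⟨w, h⟩ => by
      have := (h 0).trans (h 1).symm
      norm_num at this
  have e : (fun z : ℂ => z ^ 2) ⁻¹' closedBall 0 1 = closedBall 0 1 := by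
    ext z
    simp only [mem_preimage, mem_closedBall_zero_iff, norm_pow]
    exact pow_le_one_iff_of_nonneg (norm_nonneg _) two_ne_zero
  have : CompactSpace ((fun z : ℂ => z ^ 2) ⁻¹' closedBall 0 1 : Set ℂ) :=
    isCompact_iff_compactSpace.1 (e.symm ▸ isCompact_closedBall 0 1)
  have hK' : IsPreconnected {w : closedBall (0:ℂ) 1 | ((w.1, 0) : E) ∈ K} := by
    refine IsInducing.subtypeVal.isPreconnected_image.1 ?_
    convert hc.image _ continuous_fst.continuousOn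
    ext w
    exact ⟨fun ⟨u, h, e⟩ => ⟨_, h, e⟩, fun ⟨p, h, e⟩ => ⟨⟨p.1, mem_closedBall_zero_iff.2 (h0 p h).2⟩,
      show (p.1, 0) ∈ K from (h0 p h).1 ▸ h, e⟩⟩
  have x0 : x.2 = 0 := (h0 _ hx).1
  have := H33.Contin.whyburn (f := (closedBall (0:ℂ) 1).restrictPreimage fun z : ℂ => z ^ 2)
    ((continuous_pow 2).restrictPreimage) (ho.restrictPreimage _)
    (hK.preimage (continuous_subtype_val.prodMk continuous_const)) hK'
    (x := ⟨x.1, mem_closedBall_zero_iff.2 (h0 _ hx).2⟩) (show (x.1 ^ 2, 0) ∈ K from x0 ▸ hx)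
  refine ⟨(fun z => ((z.1, 0) : E)) '' connectedComponentIn
    ((closedBall (0:ℂ) 1).restrictPreimage (fun z : ℂ => z ^ 2) ⁻¹'
      {w : closedBall (0:ℂ) 1 | ((w.1, 0) : E) ∈ K}) ⟨x.1, mem_closedBall_zero_iff.2 (h0 _ hx).2⟩,
    ?_, isPreconnected_connectedComponentIn.image _
    (continuous_subtype_val.prodMk continuous_const).continuousOn,
    ⟨_, mem_connectedComponentIn (show (x.1 ^ 2, 0) ∈ K from x0 ▸ hx), Prod.ext rfl x0.symm⟩,
    fun p hp => ?_⟩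
  · rintro _ ⟨z, hz, rfl⟩
    have := connectedComponentIn_subset _ _ hz
    exact ⟨Or.inl ⟨rfl, mem_closedBall_zero_iff.1 (e.le z.2)⟩, this⟩
  · obtain ⟨z, hz, e1⟩ := this.ge (show (⟨p.1, mem_closedBall_zero_iff.2 (h0 p hp).2⟩ :
      closedBall (0:ℂ) 1) ∈ _ from show (p.1, 0) ∈ K from (h0 p hp).1 ▸ hp)
    exact ⟨_, ⟨z, hz, rfl⟩, Prod.ext (congrArg Subtype.val e1) (h0 p hp).1.symm⟩

theorem conf {K : Set E} (hY : K ⊆ S 2) (hK : IsClosed K) (hc : IsPreconnected K) {x : E}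
    (hX : x ∈ S 1) (hx : f x ∈ K) : f '' connectedComponentIn (S 1 ∩ f ⁻¹' K) x = K := by
  suffices ∃ C ⊆ S 1 ∩ f ⁻¹' K, IsPreconnected C ∧ x ∈ C ∧ K ⊆ f '' C by
    obtain ⟨C, h1, h2, h3, h4⟩ := this
    exact Subset.antisymm (image_subset_iff.2 fun z hz => (connectedComponentIn_subset _ _ hz).2)
      (h4.trans (image_mono (h2.subset_connectedComponentIn h3 h1)))
  by_cases h0 : ∀ p ∈ K, p.2 = 0
  · exact disc hK hc (fun p hp => (hY hp).resolve_right fun h => h.1.ne' (h0 p hp)) hx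
  by_cases h1 : ∀ p ∈ K, p.2 ≠ 0
  · have k : ∀ p ∈ K, 0 < p.2 ∧ p.2 ≤ 1 ∧ p.1 = ex (2 / p.2) := fun p hp =>
      (hY hp).resolve_left fun h => h1 p hp h.1
    have e : ∀ p ∈ K, f (ex (1 / p.2), p.2) = p := fun p hp =>
      Prod.ext ((ex_sq _).trans (k p hp).2.2.symm) rfl
    refine ⟨(fun p : E => ((ex (1 / p.2), p.2) : E)) '' K, ?_, hc.image _
      ((ex_cont.comp_continuousOn (continuousOn_const.div continuousOn_snd h1)).prodMk
        continuousOn_snd), ⟨_, hx, Prod.ext ?_ rfl⟩, fun p hp => ⟨_, ⟨p, hp, rfl⟩, e p hp⟩⟩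
    · rintro _ ⟨p, hp, rfl⟩
      exact ⟨Or.inr ⟨(k p hp).1, (k p hp).2.1, rfl⟩, show f _ ∈ K from (e p hp).symm ▸ hp⟩
    · exact (hX.resolve_left fun h => h1 _ hx h.1).2.2.symm
  push Not at h0 h1
  obtain ⟨q, hq, q0⟩ := h1
  have lev : ∀ p ∈ K, Hx 2 p.2 ⊆ K := by
    rintro p hp _ ⟨t, ht, rfl⟩
    obtain ⟨r, hr, rfl⟩ := hc.intermediate_value hq hp continuousOn_snd
      (show t ∈ Icc q.2 p.2 from ⟨q0 ▸ ht.1.le, ht.2⟩)
    exact (Prod.ext ((hY hr).resolve_left fun h => ht.1.ne' h.1).2.2.symm rfl :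
      ((ex (2 / r.2), r.2) : E) = r) ▸ hr
  obtain ⟨p, hp, p0⟩ := h0
  have ci : ∀ w : ℂ, ‖w‖ = 1 → ((w, 0) : E) ∈ K := fun w hw => closure_minimal (lev p hp) hK
    (circ two_pos ((hY hp).resolve_left fun h => p0 h.1).1 hw)
  have e0 : K ∩ {p | p.2 = 0} = (fun p : E => ((p.1, 0) : E)) '' K := by
    refine Subset.antisymm (fun p h => ⟨p, h.1, Prod.ext rfl h.2.symm⟩) ?_
    rintro _ ⟨p, hp, rfl⟩
    refine ⟨?_, rfl⟩
    rcases hY hp with h | h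
    exacts [show (p.1, 0) ∈ K from h.1 ▸ hp, ci _ (h.2.2 ▸ ex_norm _)]
  have sph : sphere (0:ℂ) 1 ×ˢ ({0} : Set ℝ) ⊆ S 1 ∩ f ⁻¹' K := fun z h =>
    ⟨Or.inl ⟨h.2, (mem_sphere_zero_iff_norm.1 h.1).le⟩, show (z.1 ^ 2, z.2) ∈ K from
      (show z.2 = 0 from h.2).symm ▸ ci _ (by rw [norm_pow, mem_sphere_zero_iff_norm.1 h.1, one_pow])⟩
  refine ⟨_, subset_rfl, isPreconnected_of_forall (1, 0) fun y hy => ?_, ⟨hX, hx⟩, fun z hz => by
    obtain ⟨w, hw, rfl⟩ := f_img.ge (hY hz)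
    exact ⟨w, ⟨hw, hz⟩, rfl⟩⟩
  rcases hy.1 with h | h
  · obtain ⟨C, c1, c2, c3, c4⟩ := disc (hK.inter (isClosed_eq continuous_snd continuous_const))
      (e0 ▸ hc.image _ (by fun_prop)) (fun p hp => (hY hp.1).resolve_right fun h => h.1.ne' hp.2)
      (x := y) ⟨hy.2, h.1⟩
    obtain ⟨z, hz, e⟩ := c4 (show ((1, 0) : E) ∈ _ from ⟨ci 1 norm_one, rfl⟩)
    have z1 : ‖z.1‖ = 1 := (pow_eq_one_iff_of_nonneg (norm_nonneg _) two_ne_zero).1 (by
      rw [← norm_pow, show z.1 ^ 2 = 1 from congrArg Prod.fst e, norm_one])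
    exact ⟨C ∪ sphere 0 1 ×ˢ {0}, union_subset (c1.trans fun p h => ⟨h.1, h.2.1⟩) sph,
      Or.inr ⟨by simp, rfl⟩, Or.inl c3, c2.union z hz ⟨mem_sphere_zero_iff_norm.2 z1,
      congrArg Prod.snd e⟩ ((isPreconnected_sphere (by simp) _ _).prod isPreconnected_singleton)⟩
  · refine ⟨closure (Hx 1 y.2), closure_minimal ?_ ((S_compact 1).isClosed.inter
      (hK.preimage f_cont)), circ one_pos h.1 norm_one,
      subset_closure ⟨y.2, ⟨h.1, le_rfl⟩, Prod.ext h.2.2.symm rfl⟩, (Hx_conn _ _).closure⟩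
    rintro _ ⟨t, ht, rfl⟩
    exact ⟨Or.inr ⟨ht.1, ht.2.trans h.2.1, rfl⟩, lev _ hy.2 ⟨t, ht, Prod.ext (ex_sq t).symm rfl⟩⟩

theorem not_conf : ∃ L ⊆ S 2 ×ˢ S 2, IsCompact L ∧ IsConnected L ∧ ∃ x ∈ S 1 ×ˢ S 1,
    Prod.map f f x ∈ L ∧
      Prod.map f f '' connectedComponentIn (S 1 ×ˢ S 1 ∩ Prod.map f f ⁻¹' L) x ≠ L := by
  have cl : closure (Hx 1 1) ⊆ S 1 ∩ {p | ‖p.1‖ = 1} := closure_minimal (fun p h => ⟨Hx_sub 1 h, by
    obtain ⟨t, -, rfl⟩ := h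
    exact ex_norm _⟩) ((S_compact 1).isClosed.inter (isClosed_eq (by fun_prop) continuous_const))
  have cψ : Continuous fun p : E => ((f p, (p.1, 0)) : E × E) := f_cont.prodMk (by fun_prop)
  have m1 : ((ex (1 / 1), 1) : E) ∈ closure (Hx 1 1) := subset_closure ⟨1, ⟨one_pos, le_rfl⟩, rfl⟩
  have m2 : Prod.map f f (((-1, 0), (1, 0)) : E × E) ∈
      (fun p : E => ((f p, (p.1, 0)) : E × E)) '' closure (Hx 1 1) :=
    ⟨(1, 0), circ one_pos one_pos norm_one, by simp [f]⟩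
  have m3 : (((-1, 0), (1, 0)) : E × E) ∈ S 1 ×ˢ S 1 :=
    ⟨Or.inl ⟨rfl, by simp⟩, Or.inl ⟨rfl, by simp⟩⟩
  refine ⟨(fun p : E => ((f p, (p.1, 0)) : E × E)) '' closure (Hx 1 1), ?_,
    ((S_compact 1).of_isClosed_subset isClosed_closure fun p h => (cl h).1).image cψ,
    ⟨⟨_, _, m1, rfl⟩, (Hx_conn 1 1).closure.image _ cψ.continuousOn⟩, _, m3, m2, fun h => ?_⟩
  · rintro _ ⟨p, hp, rfl⟩
    exact ⟨f_img.le ⟨p, (cl hp).1, rfl⟩, Or.inl ⟨rfl, (cl hp).2.le⟩⟩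
  have key : ∀ x ∈ S 1 ×ˢ S 1 ∩ Prod.map f f ⁻¹'
      ((fun p : E => ((f p, (p.1, 0)) : E × E)) '' closure (Hx 1 1)),
      x.2.1 ^ 2 ≠ 0 ∧ (x.1.1 = x.2.1 ^ 2 ∨ x.1.1 = -x.2.1 ^ 2) ∧
        (x.1.2 ≠ 0 → x.1.1 = x.2.1 ^ 2) := by
    rintro x ⟨hx, p, hp, e⟩
    have e1 : p.1 ^ 2 = x.1.1 ^ 2 := congrArg (fun z : E × E => z.1.1) e
    have e2 : p.2 = x.1.2 := congrArg (fun z : E × E => z.1.2) e
    have e3 : p.1 = x.2.1 ^ 2 := congrArg (fun z : E × E => z.2.1) e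
    rw [← e3]
    refine ⟨norm_pos_iff.1 ((cl hp).2.symm ▸ one_pos), sq_eq_sq_iff_eq_or_eq_neg.1 e1.symm,
      fun h => ?_⟩
    rw [(hx.1.resolve_left fun k => h k.1).2.2,
      ((cl hp).1.resolve_left fun k => h (e2 ▸ k.1)).2.2, e2]
  have sub := connectedComponentIn_subset (S 1 ×ˢ S 1 ∩ Prod.map f f ⁻¹'
    ((fun p : E => ((f p, (p.1, 0)) : E × E)) '' closure (Hx 1 1))) ((-1, 0), (1, 0))
  have two : ∀ a b : ℂ, b ≠ 0 → a = b → a = -b → False := fun a b h h1 h2 =>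
    h (by linear_combination (h2 - h1) / 2)
  obtain ⟨x, hx, e⟩ := h.ge ⟨_, m1, rfl⟩
  rcases isPreconnected_iff_subset_of_disjoint_closed.1 isPreconnected_connectedComponentIn
    {x : E × E | x.1.1 = x.2.1 ^ 2} {x : E × E | x.1.1 = -x.2.1 ^ 2}
    (isClosed_eq (by fun_prop) (by fun_prop)) (isClosed_eq (by fun_prop) (by fun_prop))
    (fun z hz => (key z (sub hz)).2.1) (eq_empty_of_forall_notMem fun z hz =>
      two _ _ (key z (sub hz.1)).1 hz.2.1 hz.2.2) with k | k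
  · have := k (mem_connectedComponentIn ⟨m3, m2⟩)
    norm_num at this
  · exact two _ _ (key x (sub hx)).1 ((key x (sub hx)).2.2
      ((congrArg (fun z : E × E => z.1.2) e).trans_ne one_ne_zero)) (k hx)

end Pool.Agent.H82.ConfA
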