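import Mathlib
import Pool.Agent.H82.MonoAdd

set_option autoImplicit false

namespace Pool.Agent.H82.IsoG

open Set Filter Topology

abbrev N : Type := ℕ × ℕ

theorem mad : ∃ M : Set (Set N), (∀ k, {q : N | q.1 = k} ∈ M) ∧
    (M.Pairwise fun A A' => (A ∩ A').Finite) ∧
    ∀ E : Set N, E.Infinite → ∃ A ∈ M, (A ∩ E).Infinite := by
  obtain ⟨M, h0, hM⟩ := zorn_subset_nonempty
    {M : Set (Set N) | M.Pairwise fun A A' => (A ∩ A').Finite} (by
    intro c hc hch _
    exact ⟨⋃₀ c, (pairwise_sUnion hch.directedOn).2 fun s hs => hc hs,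
      fun s hs => subset_sUnion_of_mem hs⟩) (range fun k => {q : N | q.1 = k}) (by
    rintro _ ⟨k, rfl⟩ _ ⟨l, rfl⟩ h
    refine finite_empty.subset ?_
    rintro q ⟨h1, h2⟩
    exact h (by rw [← show q.1 = k from h1, ← show q.1 = l from h2]))
  refine ⟨M, fun k => h0 ⟨k, rfl⟩, hM.prop, fun E hE => ?_⟩
  by_contra hn
  push Not at hn
  have : insert E M ⊆ M :=
    hM.le_of_ge (hM.prop.insert fun A hA _ => ⟨inter_comm A E ▸ hn A hA, hn A hA⟩)
      (subset_insert _ _)
  exact hE (by simpa using hn E (this (mem_insert _ _)))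

theorem closing {α : Type} (h : Finset α → Set α) (hh : ∀ F, (h F).Countable) (C0 : Set α)
    (hC0 : C0.Countable) :
    ∃ C : Set α, C0 ⊆ C ∧ C.Countable ∧ ∀ F : Finset α, ↑F ⊆ C → h F ⊆ C := by
  let c : ℕ → Set α := fun n => Nat.rec C0 (fun _ S => S ∪ ⋃ F ∈ {F : Finset α | ↑F ⊆ S}, h F) n
  have hc : ∀ n, (c n).Countable := by
    intro n
    induction n with
    | zero => exact hC0
    | succ n ih =>
      refine ih.union (Countable.biUnion ?_ fun F _ => hh F)
      refine ((countable_ofPred_finite_subset ih).preimage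
        (f := fun F : Finset α => (F : Set α)) Finset.coe_injective).mono fun F hF => ?_
      exact And.intro F.finite_toSet hF
  have hm : Monotone c := monotone_nat_of_le_succ fun n => subset_union_left
  refine ⟨⋃ n, c n, subset_iUnion c 0, countable_iUnion hc, fun F hF => ?_⟩
  have : ∀ᶠ n in atTop, ∀ a ∈ F, a ∈ c n := (eventually_all_finset F).2 fun a ha => by
    obtain ⟨i, hi⟩ := mem_iUnion.1 (hF ha)
    exact (eventually_ge_atTop i).mono fun n hn => hm hn hi
  obtain ⟨n, hn⟩ := this.exists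
  exact (subset_biUnion_of_mem (u := h) (show F ∈ {F : Finset α | ↑F ⊆ c n} from hn)).trans
    (subset_union_right.trans (subset_iUnion c (n + 1)))

variable {M : Set (Set N)}

def sp (b : N ⊕ M → Bool) : Set M := {A | b (Sum.inr A) = true}

def df (b : N ⊕ M → Bool) : Set N := {q | ¬ (b (Sum.inl q) = true ↔ ∃ A ∈ sp b, q ∈ A.1)}

def Good (b : N ⊕ M → Bool) : Prop := (sp b).Finite ∧ (df b).Finite

abbrev X (M : Set (Set N)) : Type := {b : N ⊕ M → Bool // Good b ∨ b = fun _ => true}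

lemma ctble {C : Set (N ⊕ M)} (hC : C.Countable) :
    {x : X M | Good x.1 ∧ ∀ A ∈ sp x.1, Sum.inr A ∈ C}.Countable := by
  have hinj : Function.Injective fun x : X M => (sp x.1, df x.1) := by
    intro x y h
    have h1 : sp x.1 = sp y.1 := congrArg Prod.fst h
    have h2 : df x.1 = df y.1 := congrArg Prod.snd h
    refine Subtype.ext (funext fun p => Bool.eq_iff_iff.2 ?_)
    rcases p with q | A
    · have := Set.ext_iff.1 h2 q
      simp only [df, mem_ofPred_eq, h1] at this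
      rw [not_iff_not] at this
      by_cases h3 : ∃ A ∈ sp y.1, q ∈ A.1
      · simpa only [h3, iff_true] using this
      · simpa only [h3, iff_false, not_iff_not] using this
    · exact Set.ext_iff.1 h1 A
  refine (((countable_ofPred_finite_subset (hC.preimage Sum.inr_injective)).prod
    (countable_ofPred_finite_subset countable_univ)).preimage hinj).mono fun x hx => ?_
  exact And.intro (And.intro hx.1.1 hx.2) (And.intro hx.1.2 (subset_univ _))

lemma dens (w : N ⊕ M → Bool) (H : Finset (N ⊕ M)) :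
    ∃ x : X M, Good x.1 ∧ (∀ p ∈ H, x.1 p = w p) ∧
      ∀ A ∈ sp x.1, Sum.inr A ∈ H ∧ w (Sum.inr A) = true := by
  classical
  let s : Set M := {A | Sum.inr A ∈ H ∧ w (Sum.inr A) = true}
  let b : N ⊕ M → Bool := Sum.elim
    (fun q => if Sum.inl q ∈ H then w (Sum.inl q) else decide (∃ A ∈ s, q ∈ A.1))
    (fun A => decide (A ∈ s))
  have hs : sp b = s := by ext A; simp [sp, b]
  have hg : Good b := by
    refine ⟨?_, ?_⟩
    · rw [hs]
      exact (H.finite_toSet.preimage Sum.inr_injective.injOn).subset fun A hA => hA.1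
    · refine (H.finite_toSet.preimage Sum.inl_injective.injOn).subset fun q hq => ?_
      by_contra h
      have h' : Sum.inl q ∉ H := h
      apply hq
      rw [hs]
      simp only [b, Sum.elim_inl, if_neg h', decide_eq_true_eq]
  refine ⟨⟨b, Or.inl hg⟩, hg, ?_, fun A hA => by rw [hs] at hA; exact hA⟩
  rintro (q | A) hp
  · simp only [b, Sum.elim_inl, if_pos hp]
  · simp only [b, Sum.elim_inr, s, mem_ofPred_eq, hp, true_and, Bool.decide_eq_true]

lemma nhd_X {x : X M} {s : Set (X M)} (hs : s ∈ 𝓝 x) :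
    ∃ I : Finset (N ⊕ M), ∀ v : X M, (∀ y ∈ I, v.1 y = x.1 y) → v ∈ s := by
  obtain ⟨t, ht, hts⟩ := (mem_nhds_subtype _ x s).1 hs
  rw [nhds_pi, Filter.mem_pi'] at ht
  obtain ⟨I, w, hw, hsub⟩ := ht
  exact ⟨I, fun v hv => hts (hsub fun y hy => by rw [hv y hy]; exact mem_of_mem_nhds (hw y))⟩

lemma cont_loc {ψ : X M → ℝ} (hψ : Continuous ψ) (x : X M) {ε : ℝ} (hε : 0 < ε) :
    ∃ I : Finset (N ⊕ M), ∀ v : X M, (∀ y ∈ I, v.1 y = x.1 y) → |ψ v - ψ x| < ε :=
  nhd_X (s := {v | |ψ v - ψ x| < ε})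
    ((isOpen_lt (hψ.sub continuous_const).abs continuous_const).mem_nhds (by simpa using hε))

lemma cluster_eq {Z : Type} [TopologicalSpace Z] {u : ℕ → {f : Z → ℝ // Continuous f}}
    {z : {f : Z → ℝ // Continuous f}} (h : MapClusterPt z atTop u) (x : Z) {r : ℝ}
    (hr : Tendsto (fun n => (u n).1 x) atTop (𝓝 r)) : z.1 x = r := by
  have h1 := h.continuousAt_comp (f := fun f : {f : Z → ℝ // Continuous f} => f.1 x)
    ((continuous_apply x).comp continuous_subtype_val).continuousAt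
  exact eq_of_nhds_neBot (h1.clusterPt.mono hr)

theorem iso (K : Set {f : X M → ℝ // Continuous f})
    (hK : ∀ u : ℕ → {f : X M → ℝ // Continuous f}, (∀ n, u n ∈ K) →
      ∃ z ∈ K, MapClusterPt z atTop u) : IsCompact K := by
  classical
  have hb : ∀ x, ∃ r : ℝ, ∀ ψ ∈ K, |ψ.1 x| ≤ r := by
    intro x
    by_contra h
    push Not at h
    choose u hu hu' using fun n : ℕ => h n
    obtain ⟨z, -, hz⟩ := hK u hu
    have h1 := (mapClusterPt_iff_frequently.1 hz) {f | |f.1 x| < |z.1 x| + 1}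
      ((isOpen_lt (((continuous_apply x).comp continuous_subtype_val).abs)
        continuous_const).mem_nhds (by simp))
    obtain ⟨n, h2, h3⟩ := (h1.and_eventually
      (tendsto_natCast_atTop_atTop.eventually_ge_atTop (|z.1 x| + 1))).exists
    have := hu' n
    simp only [mem_ofPred_eq] at h2
    linarith
  choose r hr using hb
  rw [Subtype.isCompact_iff]
  have hcl : IsCompact (closure (Subtype.val '' K)) := by
    refine (isCompact_univ_pi fun x => isCompact_Icc (a := -r x) (b := r x)).closure_of_subset ?_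
    rintro _ ⟨ψ, hψ, rfl⟩ x -
    exact abs_le.1 (hr x ψ hψ)
  suffices h : closure (Subtype.val '' K) ⊆ Subtype.val '' K by
    rwa [(closure_subset_iff_isClosed.1 h).closure_eq] at hcl
  intro φ hφ
  have hA : ∀ S : Set (X M), S.Countable → ∃ ψ ∈ K, ∀ x ∈ S, ψ.1 x = φ x := by
    intro S hS
    obtain ⟨e, he⟩ := (hS.insert ⟨_, Or.inr rfl⟩).exists_eq_range (insert_nonempty _ _)
    have : ∀ n : ℕ, ∃ ψ ∈ K, ∀ x ∈ (Finset.range (n + 1)).image e,
        |ψ.1 x - φ x| < 1 / ((n : ℝ) + 1) := by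
      intro n
      obtain ⟨_, h1, ψ, h2, rfl⟩ := mem_closure_iff.1 hφ _
        (MonoAdd.box_open ((Finset.range (n + 1)).image e) φ (1 / ((n : ℝ) + 1)))
        (fun x _ => by rw [sub_self, abs_zero]; exact Nat.one_div_pos_of_nat)
      exact ⟨ψ, h2, h1⟩
    choose u hu hu' using this
    obtain ⟨z, hz, hzc⟩ := hK u hu
    refine ⟨z, hz, fun x hx => cluster_eq hzc x ?_⟩
    obtain ⟨i, rfl⟩ : x ∈ range e := he ▸ mem_insert_of_mem _ hx
    rw [tendsto_iff_dist_tendsto_zero]
    refine squeeze_zero' (Eventually.of_forall fun _ => dist_nonneg) ?_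
      tendsto_one_div_add_atTop_nhds_zero_nat
    filter_upwards [eventually_ge_atTop i] with n hn
    exact (hu' n _ (Finset.mem_image_of_mem _ (Finset.mem_range.2 (by omega)))).le
  have h1 : ∀ b : X M, Good b.1 → ∀ ε > 0, ∃ H : Finset (N ⊕ M), ∀ z : X M, Good z.1 →
      (∀ p ∈ H, z.1 p = b.1 p) → |φ z - φ b| < ε := by
    intro b hb ε hε
    by_contra h
    push Not at h
    choose m hm1 hm2 hm3 using h
    obtain ⟨C, hC0, hCc, hC⟩ := closing (fun F => Sum.inr '' sp (m F).1)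
      (fun F => ((hm1 F).1.image _).countable) (range Sum.inl ∪ Sum.inr '' sp b.1)
      ((countable_range _).union (hb.1.image _).countable)
    obtain ⟨ψ, -, hψ⟩ := hA _ (ctble hCc)
    obtain ⟨G, hG⟩ := cont_loc ψ.2 b hε
    let F := G.filter (· ∈ C)
    have hF : Sum.inr '' sp (m F).1 ⊆ C := hC F fun p hp => (Finset.mem_filter.1 hp).2
    have h2 := hG (m F) (by
      intro p hp
      by_cases hpC : p ∈ C
      · exact hm2 F p (Finset.mem_filter.2 ⟨hp, hpC⟩)
      · rcases p with q | A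
        · exact absurd (hC0 (Or.inl ⟨q, rfl⟩)) hpC
        · refine Bool.eq_iff_iff.2 ⟨fun h => absurd (hF ⟨A, h, rfl⟩) hpC,
            fun h => absurd (hC0 (Or.inr ⟨A, h, rfl⟩)) hpC⟩)
    rw [hψ _ ⟨hm1 F, fun A hA => hF ⟨A, hA, rfl⟩⟩,
      hψ _ ⟨hb, fun A hA => hC0 (Or.inr ⟨A, hA, rfl⟩)⟩] at h2
    exact absurd h2 (not_lt.2 (hm3 F))
  let Y : Finset (N ⊕ M) → Set (X M) := fun F => {x | Good x.1 ∧ ∀ A ∈ sp x.1, Sum.inr A ∈ F}
  have hY : ∀ F, (Y F).Countable := fun F => ctble F.countable_toSet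
  choose ψ hψK hψ using fun F => hA _ ((hY F).insert ⟨_, Or.inr rfl⟩)
  have h2 : ∀ F (b : X M), Good b.1 → ∀ ε > 0, ∃ H : Finset (N ⊕ M), ∀ z : X M, Good z.1 →
      (∀ p ∈ H, z.1 p = b.1 p) → |((ψ F).1 z - φ z) - ((ψ F).1 b - φ b)| < ε := by
    intro F b hb ε hε
    obtain ⟨H1, hH1⟩ := h1 b hb (ε / 2) (by linarith)
    obtain ⟨H2, hH2⟩ := cont_loc (ψ F).2 b (show 0 < ε / 2 by linarith)
    refine ⟨H1 ∪ H2, fun z hz h => ?_⟩
    have k1 := abs_lt.1 (hH1 z hz fun p hp => h p (Finset.mem_union_left _ hp))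
    have k2 := abs_lt.1 (hH2 z fun p hp => h p (Finset.mem_union_right _ hp))
    rw [abs_lt]; constructor <;> linarith [k1.1, k1.2, k2.1, k2.2]
  choose H hH using fun F (y : Y F) (k : ℕ) => h2 F y.1 y.2.1 (1 / ((k : ℝ) + 1))
    Nat.one_div_pos_of_nat
  obtain ⟨C, hC0, hCc, hC⟩ := closing (fun F => ⋃ y, ⋃ k, (H F y k : Set (N ⊕ M)))
    (fun F => by
      have := (hY F).to_subtype
      exact countable_iUnion fun y => countable_iUnion fun k => Finset.countable_toSet _)
    (range Sum.inl) (countable_range _)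
  have key : ∀ F : Finset (N ⊕ M), ↑F ⊆ C → ∀ b : X M, Good b.1 →
      (∀ A ∈ sp b.1, Sum.inr A ∈ C → Sum.inr A ∈ F) → (ψ F).1 b = φ b := by
    intro F hF b hb hbF
    by_contra hne
    have hpos : 0 < |(ψ F).1 b - φ b| / 2 := by
      have := abs_pos.2 (sub_ne_zero.2 hne); linarith
    obtain ⟨k, hk⟩ := exists_nat_one_div_lt hpos
    obtain ⟨H', hH'⟩ := h2 F b hb _ hpos
    obtain ⟨y, hy1, hy2, hy3⟩ := dens b.1 (H'.filter (· ∈ C))
    have hyY : y ∈ Y F := ⟨hy1, fun A hA =>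
      hbF A (hy3 A hA).2 (Finset.mem_filter.1 (hy3 A hA).1).2⟩
    obtain ⟨z, hz1, hz2, -⟩ := dens (fun p => if p ∈ H F ⟨y, hyY⟩ k then y.1 p else b.1 p)
      (H F ⟨y, hyY⟩ k ∪ H')
    have k1 := hH F ⟨y, hyY⟩ k z hz1 fun p hp => by
      rw [hz2 p (Finset.mem_union_left _ hp), if_pos hp]
    have k2 := hH' z hz1 fun p hp => by
      rw [hz2 p (Finset.mem_union_right _ hp)]
      split_ifs with h
      · exact hy2 p (Finset.mem_filter.2
          ⟨hp, hC F hF (mem_iUnion.2 ⟨⟨y, hyY⟩, mem_iUnion.2 ⟨k, h⟩⟩)⟩)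
      · rfl
    simp only [hψ F y (mem_insert_of_mem _ hyY), sub_self, sub_zero] at k1
    have k3 := abs_sub_abs_le_abs_sub ((ψ F).1 b - φ b) ((ψ F).1 z - φ z)
    rw [abs_sub_comm] at k2
    linarith
  obtain ⟨e, he⟩ := hCc.exists_eq_range ⟨_, hC0 ⟨(0, 0), rfl⟩⟩
  let Fn : ℕ → Finset (N ⊕ M) := fun n => (Finset.range n).image e
  obtain ⟨z, hz, hzc⟩ := hK (fun n => ψ (Fn n)) fun n => hψK _
  refine ⟨z, hz, funext fun x => cluster_eq hzc x (tendsto_const_nhds.congr' ?_)⟩
  rcases x with ⟨b, hb | rfl⟩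
  · have : ∀ᶠ n in atTop, ∀ A ∈ sp b, Sum.inr A ∈ C → Sum.inr A ∈ Fn n := by
      rw [eventually_all_finite hb.1]
      intro A _
      by_cases h : Sum.inr A ∈ C
      · obtain ⟨i, hi⟩ : Sum.inr A ∈ range e := he ▸ h
        filter_upwards [eventually_gt_atTop i] with n hn _
        exact Finset.mem_image.2 ⟨i, Finset.mem_range.2 hn, hi⟩
      · exact Eventually.of_forall fun _ h' => absurd h' h
    filter_upwards [this] with n hn
    refine (key (Fn n) ?_ ⟨b, Or.inl hb⟩ hb hn).symm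
    intro p hp
    obtain ⟨i, -, rfl⟩ := Finset.mem_image.1 hp
    rw [he]; exact ⟨i, rfl⟩
  · exact Eventually.of_forall fun n => (hψ _ _ (mem_insert _ _)).symm

def bb (b : Bool) : ℝ := if b then 1 else 0

def δ (p : N ⊕ M) : {f : X M → ℝ // Continuous f} :=
  ⟨fun x => bb (x.1 p), (continuous_of_discreteTopology (f := bb)).comp
    ((continuous_apply p).comp continuous_subtype_val)⟩

lemma conv (hM : M.Pairwise fun A A' => (A ∩ A').Finite) (A : M) (x : X M) :
    {q ∈ A.1 | x.1 (Sum.inl q) ≠ x.1 (Sum.inr A)}.Finite := by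
  rcases x with ⟨b, hb | rfl⟩
  · by_cases hA : A ∈ sp b
    · refine hb.2.subset fun q hq h => hq.2 ?_
      exact (h.2 ⟨A, hA, hq.1⟩).trans (Eq.symm hA)
    · refine (hb.2.union (hb.1.biUnion (t := fun B => A.1 ∩ B.1) fun B hB =>
        hM A.2 B.2 fun h => hA (by rw [Subtype.ext h]; exact hB))).subset fun q hq => ?_
      by_contra hc
      rw [mem_union, not_or] at hc
      have h1 : b (Sum.inr A) = false := by simpa [sp] using hA
      have h2 : b (Sum.inl q) = true := by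
        have := hq.2
        simp only [h1] at this
        simpa using this
      have h3 := hc.1
      simp only [df, mem_ofPred_eq, not_not] at h3
      obtain ⟨B, hB, hqB⟩ := h3.1 h2
      exact hc.2 (mem_biUnion hB ⟨hq.1, hqB⟩)
  · simp

theorem relcc (hM : M.Pairwise fun A A' => (A ∩ A').Finite)
    (hmax : ∀ E : Set N, E.Infinite → ∃ A ∈ M, (A ∩ E).Infinite)
    (u : ℕ → {f : X M → ℝ // Continuous f}) (hu : ∀ n, u n ∈ range fun q => δ (Sum.inl q)) :
    ∃ z, MapClusterPt z atTop u := by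
  choose q hq using hu
  by_cases hf : (range q).Finite
  · obtain ⟨z, -, hz⟩ := (hf.image fun q => δ (M := M) (Sum.inl q)).isCompact.exists_mapClusterPt
      (f := atTop) (u := u) (by
        rw [le_principal_iff, mem_map]
        exact Eventually.of_forall fun n => ⟨q n, ⟨n, rfl⟩, hq n⟩)
    exact ⟨z, hz⟩
  · obtain ⟨A, hA, hinf⟩ := hmax _ hf
    refine ⟨δ (Sum.inr ⟨A, hA⟩), mapClusterPt_iff_frequently.2 fun s hs => ?_⟩
    obtain ⟨t, ht, hts⟩ := (mem_nhds_subtype _ _ s).1 hs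
    obtain ⟨U, hUt, hU, hU'⟩ := mem_nhds_iff.1 ht
    obtain ⟨I, ε, hε, hI⟩ := MonoAdd.basic_nhd hU hU'
    rw [frequently_atTop]
    intro n0
    obtain ⟨_, ⟨hqA, n, rfl⟩, hn⟩ := (hinf.sdiff
      ((I.finite_toSet.biUnion fun x _ => conv hM ⟨A, hA⟩ x).union
        ((finite_Iio n0).image q))).nonempty
    rw [mem_union, not_or] at hn
    refine ⟨n, not_lt.1 fun h => hn.2 ⟨n, h, rfl⟩, hts (hUt (hI _ fun x hx => ?_))⟩
    have : x.1 (Sum.inl (q n)) = x.1 (Sum.inr ⟨A, hA⟩) := by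
      by_contra h
      exact hn.1 (mem_biUnion hx ⟨hqA, h⟩)
    rw [← hq n]
    simpa [δ, this] using hε

theorem not_compact (h0 : ∀ k, {q : N | q.1 = k} ∈ M)
    (hM : M.Pairwise fun A A' => (A ∩ A').Finite) :
    ¬ IsCompact (closure (range fun q => δ (M := M) (Sum.inl q))) := by
  classical
  intro h
  have hcl := (h.image continuous_subtype_val).isClosed
  let col : ℕ → M := fun k => ⟨_, h0 k⟩
  have hcol : Function.Injective col := by
    intro k l h
    have : ((k, 0) : N) ∈ (col l).1 := by rw [← h]; exact rfl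
    exact this
  let χ : X M → ℝ := fun x => if Good x.1 then 0 else 1
  have hχ : χ ∈ Subtype.val '' closure (range fun q => δ (M := M) (Sum.inl q)) := by
    rw [← hcl.closure_eq, mem_closure_iff]
    intro U hU hχU
    obtain ⟨I, ε, hε, hI⟩ := MonoAdd.basic_nhd hU hχU
    have hfin : (⋃ x ∈ I.filter (fun x => Good x.1), sp x.1).Finite :=
      (Finset.finite_toSet _).biUnion fun x hx => (Finset.mem_filter.1 hx).2.1
    obtain ⟨k, hk⟩ := (hfin.preimage hcol.injOn).infinite_compl.nonempty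
    have hinf : (col k).1.Infinite :=
      infinite_of_injective_forall_mem (f := fun i : ℕ => ((k, i) : N))
        (fun a b h => congrArg Prod.snd h) fun _ => rfl
    obtain ⟨q, hq, hq'⟩ := (hinf.sdiff
      (I.finite_toSet.biUnion fun x _ => conv hM (col k) x)).nonempty
    refine ⟨(δ (Sum.inl q)).1, hI _ fun x hx => ?_, _, subset_closure ⟨q, rfl⟩, rfl⟩
    have h1 : x.1 (Sum.inl q) = x.1 (Sum.inr (col k)) := by
      by_contra h
      exact hq' (mem_biUnion hx ⟨hq, h⟩)
    by_cases hg : Good x.1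
    · have h2 : x.1 (Sum.inr (col k)) = false := by
        by_contra h
        exact hk (mem_biUnion (Finset.mem_coe.2 (Finset.mem_filter.2 ⟨hx, hg⟩))
          (show col k ∈ sp x.1 by simpa [sp] using h))
      simpa [δ, χ, hg, h1, h2, bb] using hε
    · have h2 : x.1 = fun _ => true := x.2.resolve_left hg
      simp only [δ, χ, if_neg hg]
      simpa [h2, bb] using hε
  obtain ⟨z, -, hz⟩ := hχ
  have hc : Continuous χ := hz ▸ z.2
  obtain ⟨I, hI⟩ := cont_loc hc ⟨_, Or.inr rfl⟩ one_pos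
  obtain ⟨x, hx1, hx2, -⟩ := dens (M := M) (fun _ => true) I
  have hng : ¬ Good (M := M) fun _ => true := fun hg =>
    infinite_of_injective_forall_mem hcol (fun _ => rfl) hg.1
  have := hI x hx2
  simp [χ, hx1, hng] at this

end Pool.Agent.H82.IsoG
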