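import Mathlib

set_option autoImplicit false
open Topology Filter

universe u

namespace Pool.Agent.H82.PointFinite

/-- infinitely many finite partial functions of bounded size with values in a finite set contain
infinitely many that are restrictions of a single function -/
theorem consistent {α ι κ : Type*} [Nonempty κ] (q : α → ι → κ) (Q : Finset κ) (n : ℕ) :
    ∀ (I : Set α) (T : α → Finset ι), I.Infinite →
      (∀ a ∈ I, (T a).card ≤ n ∧ ∀ i ∈ T a, q a i ∈ Q) →
      ∃ c : ι → κ, {a | a ∈ I ∧ ∀ i ∈ T a, q a i = c i}.Infinite := by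
  classical
  induction n with
  | zero =>
    intro I T hI h
    refine ⟨fun _ => Classical.arbitrary κ, hI.mono fun a ha => ⟨ha, fun i hi => ?_⟩⟩
    have := Finset.card_eq_zero.1 (Nat.le_zero.1 (h a ha).1)
    simp [this] at hi
  | succ n ih =>
    intro I T hI h
    by_cases hA : ∃ i, {a | a ∈ I ∧ i ∈ T a}.Infinite
    · obtain ⟨i, hi⟩ := hA
      have : ∃ v ∈ Q, {a | a ∈ I ∧ i ∈ T a ∧ q a i = v}.Infinite := by
        by_contra hh
        push Not at hh
        apply hi
        refine (Q.finite_toSet.biUnion fun v hv => hh v hv).subset ?_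
        intro a ha
        simp only [Set.mem_iUnion]
        exact ⟨q a i, (h a ha.1).2 i ha.2, ha.1, ha.2, rfl⟩
      obtain ⟨v, _, hv⟩ := this
      obtain ⟨c, hc⟩ := ih _ (fun a => (T a).erase i) hv (fun a ha => by
        refine ⟨?_, fun j hj => (h a ha.1).2 j (Finset.mem_of_mem_erase hj)⟩
        rw [Finset.card_erase_of_mem ha.2.1]
        have := (h a ha.1).1
        omega)
      refine ⟨Function.update c i v, hc.mono fun a ha => ⟨ha.1.1, fun j hj => ?_⟩⟩
      by_cases hji : j = i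
      · subst hji; simp [ha.1.2.2]
      · rw [Function.update_of_ne hji]
        exact ha.2 j (Finset.mem_erase.2 ⟨hji, hj⟩)
    · push Not at hA
      obtain ⟨f, hf1, hf2⟩ := exists_seq_of_forall_finset_exists (fun a => a ∈ I)
        (fun a b => a ≠ b ∧ Disjoint (T a) (T b)) (by
          intro s _
          have hfin : ((s : Set α) ∪ ⋃ a ∈ s, ⋃ i ∈ T a, {b | b ∈ I ∧ i ∈ T b}).Finite :=
            s.finite_toSet.union (s.finite_toSet.biUnion fun a _ =>
              (T a).finite_toSet.biUnion fun i _ => hA i)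
          obtain ⟨b, hbI, hb⟩ := hI.exists_notMem_finite hfin
          refine ⟨b, hbI, fun a ha => ⟨fun e => hb (Or.inl (e ▸ ha)), ?_⟩⟩
          rw [Finset.disjoint_left]
          intro i hi hi'
          apply hb
          right
          simp only [Set.mem_iUnion]
          exact ⟨a, ha, i, hi, hbI, hi'⟩)
      have hinj : Function.Injective f := by
        intro m k e
        by_contra hne
        rcases lt_or_gt_of_ne hne with h' | h'
        · exact (hf2 _ _ h').1 e
        · exact (hf2 _ _ h').1 e.symm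
      refine ⟨fun i => if hi : ∃ m, i ∈ T (f m) then q (f hi.choose) i else Classical.arbitrary κ,
        Set.infinite_of_injective_forall_mem hinj fun m => ⟨hf1 m, fun i hi => ?_⟩⟩
      have hex : ∃ m, i ∈ T (f m) := ⟨m, hi⟩
      have hm : hex.choose = m := by
        by_contra hne
        rcases lt_or_gt_of_ne hne with h' | h'
        · exact Finset.disjoint_left.1 (hf2 _ _ h').2 hex.choose_spec hi
        · exact Finset.disjoint_left.1 (hf2 _ _ h').2 hi hex.choose_spec
      simp only [dif_pos hex, hm]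

/-- a bump -/
noncomputable def bump (s : ℝ) : ℝ := max 0 (min 1 (2 - 3 * |s|))

lemma bump_cont : Continuous bump := by unfold bump; fun_prop

lemma bump_one {s : ℝ} (h : |s| < 1 / 3) : bump s = 1 := by
  unfold bump
  rw [min_eq_left (by linarith), max_eq_right (by norm_num)]

lemma bump_zero {s : ℝ} (h : 2 / 3 < |s|) : bump s = 0 := by
  unfold bump
  exact max_eq_left ((min_le_right _ _).trans (by linarith))

/-- step interpolation -/
noncomputable def step (G : Finset (ℕ × ℚ)) (t : ℝ) : ℝ := ∑ p ∈ G, (p.2 : ℝ) * bump (t - p.1)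

lemma step_cont (G : Finset (ℕ × ℚ)) : Continuous (step G) := by
  unfold step
  exact continuous_finsetSum _ fun p _ =>
    continuous_const.mul (bump_cont.comp (continuous_id.sub continuous_const))

lemma step_eq {X : Type*} [DecidableEq (ℕ × ℚ)] (F : Finset X) (k : X → ℕ) (hk : Set.InjOn k F)
    (r : X → ℚ) (x : X) (hx : x ∈ F) (t : ℝ) (ht : |t - k x| < 1 / 3) :
    step (F.image fun y => (k y, r y)) t = r x := by
  unfold step
  rw [Finset.sum_image (fun a ha b hb e => hk ha hb (congrArg Prod.fst e)),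
    Finset.sum_eq_single x]
  · simp [bump_one ht]
  · intro y hy hne
    have h1 : k y ≠ k x := fun e => hne (hk hy hx e)
    have h2 : (1 : ℝ) ≤ |(k x : ℝ) - k y| := by
      have : (1 : ℤ) ≤ |(k x : ℤ) - k y| := Int.one_le_abs (by omega)
      exact_mod_cast this
    have h3 : 2 / 3 < |t - k y| := by
      have := abs_sub_le (k x : ℝ) t (k y)
      rw [abs_sub_comm (k x : ℝ) t] at this
      linarith
    simp [bump_zero h3]
  · intro h; exact absurd hx h

lemma interpolate {X : Type*} [TopologicalSpace X] [T35Space X] (F : Finset X) (v : X → ℝ) :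
    ∃ f : X → ℝ, Continuous f ∧ ∀ x ∈ F, f x = v x := by
  classical
  induction F using Finset.induction_on with
  | empty => exact ⟨fun _ => 0, continuous_const, by simp⟩
  | insert a F ha ih =>
    obtain ⟨f, hf, hfv⟩ := ih
    obtain ⟨g, hg, hg0, hg1⟩ := CompletelyRegularSpace.completely_regular a (F : Set X)
      F.finite_toSet.isClosed ha
    refine ⟨fun x => f x + (1 - (g x : ℝ)) * (v a - f a), by fun_prop, fun x hx => ?_⟩
    rcases Finset.mem_insert.1 hx with rfl | hx
    · simp [hg0]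
    · simp [hg1 hx, hfv x hx]

lemma basic {X ι : Type*} [TopologicalSpace X] (U : Set (ι → {f : X → ℝ // Continuous f}))
    (hU : IsOpen U) (hne : U.Nonempty) : ∃ (I : Finset (ι × X)) (r : ι × X → ℚ),
      ∀ f : ι → {f : X → ℝ // Continuous f}, (∀ p ∈ I, (f p.1).1 p.2 = r p) → f ∈ U := by
  obtain ⟨g, hg⟩ := hne
  let Φ : (ι → {f : X → ℝ // Continuous f}) → (ι × X → ℝ) := fun f p => (f p.1).1 p.2
  have h1 : Tendsto id (comap Φ (𝓝 (Φ g))) (𝓝 g) := by
    rw [tendsto_pi_nhds]
    intro i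
    rw [tendsto_subtype_rng, tendsto_pi_nhds]
    intro x
    exact ((continuous_apply (i, x)).tendsto (Φ g)).comp tendsto_comap
  obtain ⟨W, hW, hWU⟩ := mem_comap.1 (h1 (hU.mem_nhds hg))
  rw [nhds_pi, Filter.mem_pi'] at hW
  obtain ⟨I, t, ht, hI⟩ := hW
  have : ∀ p, ∃ r : ℚ, (r : ℝ) ∈ t p := fun p => by
    obtain ⟨_, h, r, rfl⟩ := mem_closure_iff_nhds.1 (Rat.denseRange_cast (𝕜 := ℝ) (Φ g p)) _ (ht p)
    exact ⟨r, h⟩
  choose r hr using this
  refine ⟨I, r, fun f hf => hWU (hI fun p hp => ?_)⟩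
  change (f p.1).1 p.2 ∈ t p
  rw [hf p hp]; exact hr p

/-- the main inequality -/
theorem main {X ι : Type u} [TopologicalSpace X] [T35Space X] (p : Cardinal.{u})
    (hp0 : Cardinal.aleph0 ≤ p)
    (hp : ∀ 𝒱 : Set (Set {f : X → ℝ // Continuous f}), (∀ U ∈ 𝒱, IsOpen U ∧ U.Nonempty) →
      (∀ y, {U | U ∈ 𝒱 ∧ y ∈ U}.Finite) → Cardinal.mk 𝒱 ≤ p)
    (𝒰 : Set (Set (ι → {f : X → ℝ // Continuous f}))) (h1 : ∀ U ∈ 𝒰, IsOpen U ∧ U.Nonempty)
    (h2 : ∀ y, {U | U ∈ 𝒰 ∧ y ∈ U}.Finite) : Cardinal.mk 𝒰 ≤ p := by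
  classical
  have hb := fun U : 𝒰 => basic U.1 (h1 U.1 U.2).1 (h1 U.1 U.2).2
  choose I r hr using hb
  have hk := fun U : 𝒰 =>
    Set.countable_iff_exists_injOn.1 ((I U).image Prod.snd).finite_toSet.countable
  choose k hk using hk
  let F : 𝒰 → Finset X := fun U => (I U).image Prod.snd
  let T : 𝒰 → Finset ι := fun U => (I U).image Prod.fst
  let q : 𝒰 → ι → Finset (ℕ × ℚ) := fun U i => (F U).image fun x => (k U x, r U (i, x))
  let τ : 𝒰 → ULift.{u} (ℕ × Finset (Finset (ℕ × ℚ))) :=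
    fun U => ⟨((T U).card, (T U).image (q U))⟩
  let V : 𝒰 → Set {f : X → ℝ // Continuous f} :=
    fun U => {f | ∀ x ∈ F U, |f.1 x - k U x| < 1 / 3}
  have hVo : ∀ U, IsOpen (V U) := by
    intro U
    have : V U = ⋂ x ∈ F U, {f : {f : X → ℝ // Continuous f} | |f.1 x - k U x| < 1 / 3} := by
      ext f; simp [V]
    rw [this]
    refine isOpen_biInter_finset fun x _ => isOpen_lt ?_ continuous_const
    exact (((continuous_apply x).comp continuous_subtype_val).sub continuous_const).abs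
  have hVn : ∀ U, (V U).Nonempty := by
    intro U
    obtain ⟨f, hf, hfv⟩ := interpolate (F U) (fun x => (k U x : ℝ))
    exact ⟨⟨f, hf⟩, fun x hx => by simp [hfv x hx]⟩
  have hpf : ∀ t f, {U : 𝒰 | τ U = t ∧ f ∈ V U}.Finite := by
    intro t f
    by_contra hinf
    obtain ⟨c, hc⟩ := consistent q t.down.2 t.down.1 _ T hinf (by
      rintro U ⟨rfl, _⟩
      exact ⟨le_rfl, fun i hi => Finset.mem_image_of_mem _ hi⟩)
    apply hc
    have hfin := h2 fun i => ⟨step (c i) ∘ f.1, (step_cont _).comp f.2⟩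
    refine (hfin.preimage (f := fun U : 𝒰 => U.1) Subtype.val_injective.injOn).subset ?_
    rintro U ⟨⟨_, hfU⟩, hU⟩
    refine ⟨U.2, hr U _ fun z hz => ?_⟩
    have hz2 : z.2 ∈ F U := Finset.mem_image_of_mem _ hz
    change step (c z.1) (f.1 z.2) = _
    rw [← hU z.1 (Finset.mem_image_of_mem _ hz)]
    exact step_eq (F U) (k U) (hk U) (fun x => r U (z.1, x)) z.2 hz2 _ (hfU _ hz2)
  have hfib : ∀ t, Cardinal.mk (τ ⁻¹' {t}) ≤ p := by
    intro t
    have h3 : Cardinal.mk (V '' (τ ⁻¹' {t})) ≤ p := by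
      apply hp
      · rintro _ ⟨U, _, rfl⟩; exact ⟨hVo U, hVn U⟩
      · intro f
        refine ((hpf t f).image V).subset ?_
        rintro _ ⟨⟨U, hU, rfl⟩, hf⟩
        exact ⟨U, ⟨hU, hf⟩, rfl⟩
    let φ : τ ⁻¹' {t} → V '' (τ ⁻¹' {t}) := fun U => ⟨V U.1, U.1, U.2, rfl⟩
    have h4 := Cardinal.mk_le_mk_mul_of_mk_preimage_le (c := Cardinal.aleph0) φ (by
      rintro ⟨_, U, hU, rfl⟩
      obtain ⟨f, hf⟩ := hVn U
      refine (Cardinal.lt_aleph0_iff_set_finite.2 ?_).le
      refine ((hpf t f).preimage (f := fun W : τ ⁻¹' {t} => W.1)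
        Subtype.val_injective.injOn).subset ?_
      intro W hW
      have e : V W.1 = V U := congrArg Subtype.val hW
      exact ⟨W.2, e ▸ hf⟩)
    calc _ ≤ _ := h4
      _ ≤ p * p := mul_le_mul' h3 hp0
      _ = p := Cardinal.mul_eq_self hp0
  calc _ ≤ _ := Cardinal.mk_le_mk_mul_of_mk_preimage_le τ hfib
    _ ≤ p * p := mul_le_mul' (Cardinal.mk_le_aleph0.trans hp0) le_rfl
    _ = p := Cardinal.mul_eq_self hp0

end Pool.Agent.H82.PointFinite
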