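import Mathlib
import Pool.Agent.H82.MonoAdd
import Pool.Agent.H82.IsoG
import Pool.Agent.H82.PointFinite

set_option autoImplicit false

namespace Pool.Agent.H82.CpCp

open Set Filter Topology BoundedContinuousFunction

abbrev Cp (X : Type) [TopologicalSpace X] : Type := {f : X → ℝ // Continuous f}

variable {X W : Type} [TopologicalSpace X] [TopologicalSpace W]

lemma sub_nhd {Y : Type} {q : (Y → ℝ) → Prop} {U : Set (Subtype q)} (hU : IsOpen U)
    {u : Subtype q} (hu : u ∈ U) : ∃ (I : Finset Y) (δ : ℝ), 0 < δ ∧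
      ∀ v : Subtype q, (∀ x ∈ I, |v.1 x - u.1 x| < δ) → v ∈ U := by
  obtain ⟨V, hV, rfl⟩ := isOpen_induced_iff.1 hU
  obtain ⟨I, δ, h1, h2⟩ := MonoAdd.basic_nhd hV hu
  exact ⟨I, δ, h1, fun v hv => h2 _ hv⟩

lemma ev {Y : Type} {q : (Y → ℝ) → Prop} (y : Y) : Continuous fun f : Subtype q => f.1 y :=
  (continuous_apply y).comp continuous_subtype_val

lemma cut [T35Space W] (E : Finset W) {O : Set W} (hO : IsOpen O) (h : ↑E ⊆ O) :
    ∃ b : W → ℝ, Continuous b ∧ (∀ w, 0 ≤ b w ∧ b w ≤ 1) ∧ (∀ w ∈ E, b w = 0) ∧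
      ∀ w ∉ O, b w = 1 := by
  choose f hf h0 h1 using fun w : E =>
    CompletelyRegularSpace.completely_regular_isOpen w.1 O hO (h w.2)
  refine ⟨fun x => ∏ w, (f w x : ℝ), continuous_finsetProd _ fun w _ =>
    continuous_subtype_val.comp (hf w), fun x => ⟨Finset.prod_nonneg fun w _ => (f w x).2.1,
    Finset.prod_le_one (fun w _ => (f w x).2.1) fun w _ => (f w x).2.2⟩, fun w hw =>
    Finset.prod_eq_zero (Finset.mem_univ ⟨w, hw⟩) (by rw [h0]; rfl), fun x hx =>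
    Finset.prod_eq_one fun w _ => by rw [h1 w hx]; rfl⟩

def ι (f : X →ᵇ ℝ) : Cp X := ⟨f, f.continuous⟩

lemma ι_cont : Continuous (ι : (X →ᵇ ℝ) → Cp X) :=
  (continuous_pi fun _ => ContinuousEvalConst.continuous_eval_const _).subtype_mk _

theorem core [T35Space W] (Ψ : Cp W → Cp (Cp X)) (hΨ : IsInducing Ψ) (g0 : Cp W)
    (h0 : ∀ f, (Ψ g0).1 f = 0) :
    ∃ (G : Finset W) (c : ℝ) (f1 : X →ᵇ ℝ) (δ : ℝ) (F : Finset (Cp X)), 0 < δ ∧
      (∀ g, (∀ h ∈ F, (Ψ g).1 h = 0) → ∀ w ∈ G, |g.1 w - g0.1 w| < c) ∧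
      ∀ O : Set W, IsOpen O → ↑G ⊆ O → ∃ X0 : Finset X, ∀ f : X →ᵇ ℝ, (∀ x ∈ X0, f x = f1 x) →
        dist f f1 ≤ δ → ∃ P : Finset W, ↑P ⊆ O ∧
          ∀ g, (∀ p ∈ P, |g.1 p - g0.1 p| < c) → |(Ψ g).1 (ι f)| ≤ 1 := by
  classical
  let H : Cp X → Set (Cp W) := fun z => {g | 1 < |(Ψ g).1 z|}
  let A : ℕ → Cp W → Set W := fun m g => {w | 1 / ((m : ℝ) + 1) ≤ |g.1 w - g0.1 w|}
  have hA : ∀ m g, IsClosed (A m g) := fun m g => isClosed_le continuous_const (g.2.sub g0.2).abs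
  have hH : ∀ z, IsOpen (H z) := fun z =>
    isOpen_lt continuous_const ((ev z).comp hΨ.continuous).abs
  have shrink : ∀ m z, ∀ g ∈ H z, ∃ E : Finset W, ↑E ⊆ A m g ∧ ∀ O : Set W, IsOpen O → ↑E ⊆ O →
      ∃ g' ∈ H z, A m g' ⊆ O ∩ A m g := by
    intro m z g hg
    obtain ⟨I, δ, hδ, hI⟩ := sub_nhd (hH z) hg
    refine ⟨I.filter (· ∈ A m g), fun w hw => (Finset.mem_filter.1 hw).2, fun O hO hIO => ?_⟩
    obtain ⟨b, hb, hb0, hb1, hb2⟩ := cut I (hO.union (hA m g).isOpen_compl) fun w hw =>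
      (em (w ∈ A m g)).imp (fun h => hIO (Finset.mem_coe.2 (Finset.mem_filter.2 ⟨hw, h⟩))) id
    refine ⟨⟨fun w => g0.1 w + (1 - b w) * (g.1 w - g0.1 w), g0.2.add
      ((continuous_const.sub hb).mul (g.2.sub g0.2))⟩, hI _ fun w hw => by simpa [hb1 w hw] using hδ,
      fun w hw => ?_⟩
    have h1 : 1 / ((m : ℝ) + 1) ≤ (1 - b w) * |g.1 w - g0.1 w| := by
      have := hw
      simp only [A, mem_ofPred_eq, add_sub_cancel_left, abs_mul] at this
      rwa [abs_of_nonneg (by linarith [(hb0 w).2])] at this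
    have h2 : w ∈ A m g :=
      h1.trans (mul_le_of_le_one_left (abs_nonneg _) (by linarith [(hb0 w).1]))
    refine ⟨by_contra fun h => ?_, h2⟩
    rw [hb2 w fun h' => h'.elim h fun h' => h' h2, sub_self, zero_mul] at h1
    exact absurd h1 (not_le.2 (by positivity))
  choose! E hE hE' using shrink
  let Tr : ℕ → ℕ → Finset (Cp W) → Prop := fun m n 𝒜 =>
    ∃ P : Finset W, P.card < n ∧ ∀ g ∈ 𝒜, ∃ p ∈ P, p ∈ A m g
  let C : ℕ → ℕ → Set (X →ᵇ ℝ) := fun m n =>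
    {f | ∀ 𝒜 : Finset (Cp W), (∀ g ∈ 𝒜, g ∈ H (ι f)) → Tr m n 𝒜}
  have hV : ∀ 𝒜 : Finset (Cp W), IsOpen {z | ∀ g ∈ 𝒜, g ∈ H z} := fun 𝒜 => by
    simp only [ofPred_forall]
    exact isOpen_biInter_finset fun g _ => isOpen_lt continuous_const (Ψ g).2.abs
  have hC : ∀ m n, IsClosed (C m n) := fun m n => by
    simp only [C, ofPred_forall (ι := Finset (Cp W))]
    exact isClosed_iInter fun 𝒜 => isClosed_imp ((hV 𝒜).preimage ι_cont) isClosed_const
  obtain ⟨⟨m, n0⟩, hn0⟩ := nonempty_interior_of_iUnion_of_closed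
    (fun p : ℕ × ℕ => hC p.1 p.2) (eq_univ_of_forall fun f => by
      obtain ⟨I, δ, hδ, hI⟩ := sub_nhd (U := {g | |(Ψ g).1 (ι f)| < 1})
        (isOpen_lt ((ev _).comp hΨ.continuous).abs continuous_const) (u := g0) (by simp [h0])
      obtain ⟨m, hm⟩ := exists_nat_one_div_lt hδ
      refine mem_iUnion.2 ⟨(m, I.card + 1), fun 𝒜 h => ⟨I, Nat.lt_succ_self _, fun g hg => ?_⟩⟩
      by_contra h'
      push Not at h'
      have h3 : |(Ψ g).1 (ι f)| < 1 := hI g fun w hw => (not_le.1 (h' w hw)).trans hm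
      exact lt_asymm h3 (h g hg))
  have hex : ∃ n, (interior (C m n)).Nonempty := ⟨n0, hn0⟩
  obtain ⟨n, hn⟩ : ∃ n, Nat.find hex = n + 1 := Nat.exists_eq_succ_of_ne_zero fun h => by
    obtain ⟨f, hf⟩ := Nat.find_spec hex
    obtain ⟨P, hP, -⟩ := interior_subset hf ∅ (by simp)
    omega
  have h1 := Nat.find_spec hex
  have h2 := Nat.find_min hex (show n < Nat.find hex by omega)
  rw [hn] at h1
  obtain ⟨f1, hf1, hf1'⟩ : ∃ f1 ∈ interior (C m (n + 1)), f1 ∉ C m n := by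
    by_contra h
    push Not at h
    exact h2 (h1.mono (interior_maximal h isOpen_interior))
  obtain ⟨δ, hδ, hball⟩ := Metric.nhds_basis_closedBall.mem_iff.1 (mem_interior_iff_mem_nhds.1 hf1)
  obtain ⟨𝒜, h𝒜, hT⟩ : ∃ 𝒜 : Finset (Cp W), (∀ g ∈ 𝒜, g ∈ H (ι f1)) ∧ ¬ Tr m n 𝒜 := by
    simpa only [C, mem_ofPred_eq, not_forall, exists_prop] using hf1'
  have sh2 : ∀ z (ℬ : Finset (Cp W)) (O : Set W), (∀ g ∈ ℬ, g ∈ H z) → ¬ Tr m n ℬ → IsOpen O →
      ↑(ℬ.biUnion (E m z)) ⊆ O →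
      ∃ ℬ' : Finset (Cp W), (∀ g ∈ ℬ', g ∈ H z ∧ A m g ⊆ O) ∧ ¬ Tr m n ℬ' := by
    intro z ℬ O h1 h2 hO h3
    choose! s hs hs' using fun g (hg : g ∈ ℬ) => hE' m z g (h1 g hg) O hO fun w hw =>
      h3 (Finset.mem_coe.2 (Finset.mem_biUnion.2 ⟨g, hg, hw⟩))
    refine ⟨ℬ.image s, fun g hg => ?_, fun ⟨P, hP, h⟩ => h2 ⟨P, hP, fun g hg => ?_⟩⟩
    · obtain ⟨g1, hg1, rfl⟩ := Finset.mem_image.1 hg
      exact ⟨hs g1 hg1, (hs' g1 hg1).trans inter_subset_left⟩
    · obtain ⟨p, hp, hp'⟩ := h _ (Finset.mem_image_of_mem s hg)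
      exact ⟨p, hp, (hs' g hg hp').2⟩
  obtain ⟨U, hU, hU'⟩ := hΨ.isOpen_iff.1 ((MonoAdd.box_open (𝒜.biUnion (E m (ι f1))) g0.1
    (1 / ((m : ℝ) + 1))).preimage (continuous_subtype_val (p := fun g : W → ℝ => Continuous g)))
  obtain ⟨F, ε, hε, hF⟩ := sub_nhd hU (u := Ψ g0) (by
    rw [← mem_preimage, hU']
    exact fun w _ => by simpa using Nat.cast_add_one_pos m)
  refine ⟨𝒜.biUnion (E m (ι f1)), 1 / ((m : ℝ) + 1), f1, δ, F, hδ, fun g hg => ?_,
    fun O hO hGO => ?_⟩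
  · have := hF (Ψ g) fun h hh => by simpa [hg h hh, h0] using hε
    rwa [← mem_preimage, hU'] at this
  obtain ⟨ℬ, hℬ, hT'⟩ := sh2 _ 𝒜 O h𝒜 hT hO hGO
  obtain ⟨X0, η, hη, hX0⟩ := sub_nhd (hV ℬ) (u := ι f1) fun g hg => (hℬ g hg).1
  refine ⟨X0, fun f hf hd => ?_⟩
  have h3 : ∀ g ∈ ℬ, g ∈ H (ι f) := hX0 (ι f) fun x hx => by simpa [ι, hf x hx] using hη
  refine ⟨ℬ.biUnion (E m (ι f)), fun p hp => ?_, fun g hg => not_lt.1 fun hgH => ?_⟩
  · obtain ⟨g, hg, hp⟩ := Finset.mem_biUnion.1 hp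
    exact (hℬ g hg).2 (hE m _ g (h3 g hg) hp)
  obtain ⟨ℬ', hℬ', hT2⟩ := sh2 _ ℬ (A m g)ᶜ h3 hT' (hA m g).isOpen_compl
    fun p hp => not_le.2 (hg p hp)
  obtain ⟨Q, hQ, hQ'⟩ := hball hd (insert g ℬ') fun g' hg' =>
    (Finset.mem_insert.1 hg').elim (fun e => e ▸ hgH) fun h => (hℬ' g' h).1
  obtain ⟨q, hq, hq'⟩ := hQ' g (Finset.mem_insert_self _ _)
  refine hT2 ⟨Q.erase q, ?_, fun g' hg' => ?_⟩
  · have := Finset.card_erase_add_one hq
    omega
  · obtain ⟨p, hp, hp'⟩ := hQ' g' (Finset.mem_insert_of_mem hg')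
    exact ⟨p, Finset.mem_erase.2 ⟨fun e => (hℬ' g' hg').2 hp' (e ▸ hq'), hp⟩, hp'⟩

/-- bump functions of one coordinate -/
noncomputable def u (x : X) (a : ℝ) (r : ℕ) : Cp (Cp X) :=
  ⟨fun f => 2 * max 0 (1 - ((r : ℝ) + 1) * |f.1 x - a|), continuous_const.mul
    (continuous_const.max (continuous_const.sub (continuous_const.mul
      ((ev x).sub continuous_const).abs)))⟩

lemma u_cont (r : ℕ) : Continuous fun p : X × ℝ => u p.1 p.2 r :=
  (continuous_pi fun f : Cp X => continuous_const.mul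
    (continuous_const.max (continuous_const.sub (continuous_const.mul
      ((f.2.comp continuous_fst).sub continuous_snd).abs)))).subtype_mk _

theorem core2 [T35Space W] [T35Space X] (Ψ : Cp W → Cp (Cp X)) (hΨ : IsInducing Ψ) (g0 : Cp W)
    (h0 : ∀ f, (Ψ g0).1 f = 0) :
    ∃ (G : Finset W) (c : ℝ) (a : ℕ → X → ℝ), (∀ l, Continuous (a l)) ∧
      (∀ x, ∃ l r, ∀ g, Ψ g = u x (a l x) r → ∀ w ∈ G, |g.1 w - g0.1 w| < c) ∧
      ∀ O : Set W, IsOpen O → ↑G ⊆ O → ∃ X0 : Finset X, ∀ N : Set X, IsOpen N → ↑X0 ⊆ N → ∀ l,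
        ∃ P : Finset W, ↑P ⊆ O ∧ ∀ x ∉ N, ∀ r g, Ψ g = u x (a l x) r →
          ∃ p ∈ P, c ≤ |g.1 p - g0.1 p| := by
  obtain ⟨G, c, f1, δ, F, hδ, h1, h2⟩ := core Ψ hΨ g0 h0
  refine ⟨G, c, fun l x => f1 x + δ / (l + 1), fun l => by fun_prop, fun x => ?_,
    fun O hO hG => ?_⟩
  · have hinj : Function.Injective fun l : ℕ => f1 x + δ / (l + 1) := fun l k h => by
      have h' : δ / ((l : ℝ) + 1) = δ / (k + 1) := add_left_cancel h
      field_simp at h'
      exact_mod_cast (add_right_cancel h').symm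
    obtain ⟨_, ⟨l, rfl⟩, hl⟩ := (infinite_range_of_injective hinj).exists_notMem_finite
      (F.finite_toSet.image fun h => h.1 x)
    obtain ⟨r, hr⟩ := ((eventually_all_finset F).2 fun h hh =>
      (tendsto_one_div_add_atTop_nhds_zero_nat (𝕜 := ℝ)).eventually (gt_mem_nhds
        (abs_pos.2 (sub_ne_zero.2 fun e : h.1 x = f1 x + δ / (l + 1) => hl ⟨h, hh, e⟩)))).exists
    refine ⟨l, r, fun g hg => h1 g fun h hh => ?_⟩
    have := (div_lt_iff₀' (by positivity)).1 (hr h hh)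
    rw [hg]
    simp only [u]
    rw [max_eq_left (by linarith), mul_zero]
  · obtain ⟨X0, h3⟩ := h2 O hO hG
    refine ⟨X0, fun N hN hXN l => ?_⟩
    obtain ⟨b, hb, hb0, hb1, hb2⟩ := cut X0 hN hXN
    have ht : 0 < δ / ((l : ℝ) + 1) := by positivity
    have hb3 : ∀ x, ‖b x‖ ≤ 1 := fun x => by rw [Real.norm_of_nonneg (hb0 x).1]; exact (hb0 x).2
    let b' := ofNormedAddCommGroup b hb 1 hb3
    obtain ⟨P, hP, h4⟩ := h3 (f1 + (δ / ((l : ℝ) + 1)) • b') (fun x hx => by simp [b', hb1 x hx]) (by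
      rw [dist_eq_norm, add_sub_cancel_left, norm_smul, Real.norm_of_nonneg ht.le]
      exact (mul_le_of_le_one_right ht.le (norm_ofNormedAddCommGroup_le _ zero_le_one _)).trans
        (div_le_self hδ.le (by simp)))
    refine ⟨P, hP, fun x hx r g hg => by_contra fun h => ?_⟩
    push Not at h
    have := h4 g h
    rw [hg] at this
    norm_num [u, ι, b', hb2 x hx] at this

/-- union of basic boxes around the points of `G` -/
def box {Y : Type} {q : (Y → ℝ) → Prop} (G : Finset (Subtype q)) (s : Finset Y) (j : ℕ) :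
    Set (Subtype q) := ⋃ w ∈ G, {p | ∀ y ∈ s, |p.1 y - w.1 y| < 1 / ((j : ℝ) + 1)}

lemma box_open {Y : Type} {q : (Y → ℝ) → Prop} (G : Finset (Subtype q)) (s : Finset Y) (j : ℕ) :
    IsOpen (box G s j) := isOpen_biUnion fun w _ =>
  (MonoAdd.box_open s w.1 _).preimage continuous_subtype_val

lemma sub_box {Y : Type} {q : (Y → ℝ) → Prop} (G : Finset (Subtype q)) (s : Finset Y) (j : ℕ) :
    ↑G ⊆ box G s j := fun w hw =>
  mem_biUnion hw fun y _ => by simpa using Nat.cast_add_one_pos j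

lemma exists_box {Y : Type} {q : (Y → ℝ) → Prop} (G : Finset (Subtype q)) {U : Set (Subtype q)}
    (hU : IsOpen U) (h : ↑G ⊆ U) : ∃ s j, box G s j ⊆ U := by
  classical
  choose! I δ h1 h2 using fun w (hw : w ∈ G) => sub_nhd hU (h hw)
  obtain ⟨j, hj⟩ := ((eventually_all_finset G).2 fun w hw =>
    (tendsto_one_div_add_atTop_nhds_zero_nat (𝕜 := ℝ)).eventually (gt_mem_nhds (h1 w hw))).exists
  exact ⟨G.biUnion I, j, iUnion₂_subset fun w hw p hp => h2 w hw p fun y hy =>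
    (hp y (Finset.mem_biUnion.2 ⟨w, hw, hy⟩)).trans (hj w hw)⟩

open Cardinal in
theorem card_le {Y : Type} {q : (Y → ℝ) → Prop} [T35Space X] (Ψ : Cp (Subtype q) → Cp (Cp X))
    (hΨ : IsInducing Ψ) (g0 : Cp (Subtype q)) (h0 : ∀ f, (Ψ g0).1 f = 0) (T : Set X)
    (hT : ∀ x ∈ T, ∀ a r, u x a r ∈ range Ψ) {κ : Cardinal} (hκ : ℵ₀ ≤ κ) (hY : #Y ≤ κ) :
    #T ≤ κ := by
  obtain ⟨G, c, a, -, h1, h2⟩ := core2 Ψ hΨ g0 h0
  choose X0 hX0 using fun p : Finset Y × ℕ => h2 _ (box_open G p.1 p.2) (sub_box G p.1 p.2)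
  have h3 : T ⊆ ⋃ p, ↑(X0 p) := fun x hx => by
    obtain ⟨l, r, h⟩ := h1 x
    obtain ⟨g, hg⟩ := hT x hx (a l x) r
    obtain ⟨s, j, hs⟩ := exists_box G (isOpen_lt (g.2.sub g0.2).abs continuous_const) (h g hg)
    refine mem_iUnion.2 ⟨(s, j), by_contra fun hx' => ?_⟩
    obtain ⟨P, hP, h4⟩ := hX0 (s, j) {x}ᶜ isOpen_compl_singleton
      (subset_compl_singleton_iff.2 hx') l
    obtain ⟨p, hp, h5⟩ := h4 x (by simp) r g hg
    exact absurd (hs (hP hp)) (not_lt.2 h5)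
  refine (mk_le_mk_of_subset h3).trans ((mk_iUnion_le _).trans ?_)
  have h4 : #(Finset Y) ≤ κ := by
    cases finite_or_infinite Y
    · exact mk_le_aleph0.trans hκ
    · rwa [mk_finset_of_infinite]
  refine (mul_le_mul' (show _ ≤ κ * κ by simpa using mul_le_mul' h4 hκ)
    (ciSup_le' fun p => mk_le_aleph0.trans hκ)).trans ?_
  rw [mul_eq_self hκ, mul_eq_self hκ]

theorem sigma {Y : Type} [TopologicalSpace Y] [T35Space X] [SigmaCompactSpace Y]
    (e : Cp (Cp X) ≃ₜ Cp (Cp Y)) : SigmaCompactSpace X := by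
  classical
  obtain ⟨G, c, a, ha, h1, h2⟩ := core2 e.symm e.symm.isInducing (e ⟨0, continuous_zero⟩)
    (by simp)
  let g0 := e ⟨0, continuous_zero⟩
  let B : (k : ℕ) → ℕ → (Fin k → Y) → Set (Cp Y) := fun k j s => box G (Finset.univ.image s) j
  have hB : ∀ k j p, IsOpen {s | p ∈ B k j s} := fun k j p => by
    have : {s | p ∈ B k j s} = ⋃ w ∈ G, ⋂ i, {s : Fin k → Y |
        |p.1 (s i) - w.1 (s i)| < 1 / ((j : ℝ) + 1)} := by
      ext s; simp [B, box]
    rw [this]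
    exact isOpen_iUnion fun w => isOpen_iUnion fun _ => isOpen_iInter_of_finite fun i =>
      isOpen_lt ((p.2.sub w.2).comp (continuous_apply i)).abs continuous_const
  let R : (k : ℕ) → ℕ → ℕ → ℕ → ℕ → ℕ → Set ((Fin k → Y) × X) := fun k n j l r i =>
    {z | z.1 ∈ univ.pi (fun _ => compactCovering Y n) ∧
      ∀ p ∈ B k j z.1, |(e (u z.2 (a l z.2) r)).1 p - g0.1 p| ≤ c - 1 / ((i : ℝ) + 1)}
  have hR : ∀ k n j l r i, IsCompact (R k n j l r i) := by
    intro k n j l r i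
    have hK := isCompact_univ_pi fun _ : Fin k => isCompact_compactCovering Y n
    refine isCompact_iff_ultrafilter_le_nhds.2 fun 𝒰 h𝒰 => ?_
    rw [le_principal_iff] at h𝒰
    obtain ⟨s, hs, hs'⟩ := isCompact_iff_ultrafilter_le_nhds.1 hK (𝒰.map Prod.fst)
      (le_principal_iff.2 (mem_map.2 (mem_of_superset h𝒰 fun z hz => hz.1)))
    obtain ⟨X0, h3⟩ := h2 _ (box_open G (Finset.univ.image s) j) (sub_box _ _ _)
    obtain ⟨x, hx⟩ : ∃ x, ↑(𝒰.map Prod.snd) ≤ 𝓝 x := by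
      by_contra h
      push Not at h
      have h' : ∀ x : X, ∃ N : Set X, x ∈ N ∧ IsOpen N ∧ N ∉ 𝒰.map Prod.snd := fun x => by
        by_contra h'
        push Not at h'
        refine h x (le_nhds_iff.2 fun s h1 h2 => ?_)
        exact h' s h1 h2
      choose N hN hN' using h'
      obtain ⟨P, hP, h4⟩ := h3 (⋃ x ∈ X0, N x) (isOpen_biUnion fun x _ => (hN' x).1)
        (fun x hx => mem_biUnion hx (hN x)) l
      have h5 : ∀ᶠ z : (Fin k → Y) × X in 𝒰, z.2 ∉ ⋃ x ∈ X0, N x := by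
        simp only [mem_iUnion, not_exists]
        exact (eventually_all_finset X0).2 fun x _ =>
          Ultrafilter.compl_mem_iff_notMem.2 (hN' x).2
      have h6 : ∀ᶠ z : (Fin k → Y) × X in 𝒰, ∀ p ∈ P, p ∈ B k j z.1 := (eventually_all_finset P).2 fun p hp =>
        hs' ((hB k j p).mem_nhds (hP hp))
      obtain ⟨z, h7, h8, h9⟩ := (h5.and (h6.and h𝒰)).exists
      obtain ⟨p, hp, h10⟩ := h4 z.2 h7 r _ (e.symm_apply_apply _)
      have := h9.2 p (h8 p hp)
      linarith [Nat.one_div_pos_of_nat (α := ℝ) (n := i)]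
    refine ⟨(s, x), ⟨hs, fun p hp => ?_⟩, by rw [nhds_prod_eq]; exact le_prod.2 ⟨hs', hx⟩⟩
    have h4 : Continuous fun x => |(e (u x (a l x) r)).1 p - g0.1 p| :=
      (((ev p).comp (e.continuous.comp ((u_cont r).comp
        (continuous_id.prodMk (ha l))))).sub continuous_const).abs
    have h5 : ∀ᶠ z : (Fin k → Y) × X in 𝒰, p ∈ B k j z.1 := hs' ((hB k j p).mem_nhds hp)
    exact le_of_tendsto (f := fun z : (Fin k → Y) × X => |(e (u z.2 (a l z.2) r)).1 p - g0.1 p|)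
      (x := 𝒰) ((h4.tendsto x).comp hx) ((h5.and h𝒰).mono fun z hz => hz.2.2 p hz.1)
  refine ⟨?_⟩
  rw [show (univ : Set X) = ⋃ t : ℕ × ℕ × ℕ × ℕ × ℕ × ℕ,
    Prod.snd '' R t.1 t.2.1 t.2.2.1 t.2.2.2.1 t.2.2.2.2.1 t.2.2.2.2.2 from ?_]
  · exact isSigmaCompact_iUnion_of_isCompact _ fun t => (hR ..).image continuous_snd
  refine (eq_univ_of_forall fun x => ?_).symm
  obtain ⟨l, r, h⟩ := h1 x
  let g := e (u x (a l x) r)
  obtain ⟨i, hi⟩ := ((eventually_all_finset G).2 fun w hw =>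
    (tendsto_one_div_add_atTop_nhds_zero_nat (𝕜 := ℝ)).eventually (gt_mem_nhds
      (sub_pos.2 (h g (e.symm_apply_apply _) w hw)))).exists
  obtain ⟨s, j, hs⟩ := exists_box G (U := {p | |g.1 p - g0.1 p| < c - 1 / ((i : ℝ) + 1)})
    (isOpen_lt (g.2.sub g0.2).abs continuous_const) fun w hw => lt_sub_comm.1 (hi w hw)
  obtain ⟨n, hn⟩ := ((eventually_all_finset s).2 fun y _ => by
    obtain ⟨n, hn⟩ := exists_mem_compactCovering y
    exact (eventually_ge_atTop n).mono fun m hm => compactCovering_subset Y hm hn).exists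
  refine mem_iUnion.2 ⟨(s.card, n, j, l, r, i), (fun t => s.equivFin.symm t, x),
    ⟨fun t _ => hn _ (s.equivFin.symm t).2, fun p hp => le_of_lt (hs ?_)⟩, rfl⟩
  convert hp
  ext y
  simp only [Finset.mem_image, Finset.mem_univ, true_and]
  exact ⟨fun hy => ⟨s.equivFin ⟨y, hy⟩, by simp⟩, by rintro ⟨t, rfl⟩; exact (s.equivFin.symm t).2⟩

def Dep (S : Set X) (g : Cp (Cp X)) : Prop :=
  ∀ f f' : Cp X, (∀ x ∈ S, f.1 x = f'.1 x) → g.1 f = g.1 f'

lemma dep_closed (S : Set X) : IsClosed {g : Cp (Cp X) | Dep S g} := by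
  simp only [Dep, ofPred_forall]
  exact isClosed_iInter fun f => isClosed_iInter fun f' => isClosed_iInter fun _ =>
    isClosed_eq (ev f) (ev f')

lemma exists_dep [T35Space X] (g : Cp (Cp X)) : ∃ S : Set X, S.Countable ∧ Dep S g := by
  classical
  have h : ∀ (s : Finset X) (d : (s → ℚ) × ℕ × ℚ), ∃ (f0 : Cp X) (t : Finset X),
      (∃ f : Cp X, (∀ x : s, |f.1 x - d.1 x| < 1 / ((d.2.1 : ℝ) + 1)) ∧ g.1 f < d.2.2) →
      (∀ x : s, |f0.1 x - d.1 x| < 1 / ((d.2.1 : ℝ) + 1)) ∧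
        ∀ p : Cp X, (∀ x ∈ t, p.1 x = f0.1 x) → g.1 p < d.2.2 := by
    intro s d
    by_cases h : ∃ f : Cp X, (∀ x : s, |f.1 x - d.1 x| < 1 / ((d.2.1 : ℝ) + 1)) ∧ g.1 f < d.2.2
    · obtain ⟨f, h1, h2⟩ := h
      obtain ⟨t, δ, hδ, ht⟩ := sub_nhd (isOpen_lt g.2 continuous_const) h2
      exact ⟨f, t, fun _ => ⟨h1, fun p hp => ht p fun x hx => by simpa [hp x hx] using hδ⟩⟩
    · exact ⟨⟨0, continuous_zero⟩, ∅, fun h' => (h h').elim⟩
  choose f0 t h using h
  obtain ⟨S, -, hS, hcl⟩ := IsoG.closing (fun s => ⋃ d, ↑(t s d))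
    (fun s => countable_iUnion fun d => (t s d).countable_toSet) ∅ countable_empty
  have key : ∀ f f' : Cp X, (∀ x ∈ S, f.1 x = f'.1 x) → ¬ g.1 f < g.1 f' := by
    intro f f' hf hlt
    obtain ⟨r, hr1, hr2⟩ := exists_rat_btwn hlt
    obtain ⟨s', ε, hε, hs'⟩ := sub_nhd (isOpen_lt continuous_const g.2) hr2
    obtain ⟨j, hj⟩ := exists_nat_one_div_lt (half_pos hε)
    let s := s'.filter (· ∈ S)
    choose v hv using fun x : s => exists_rat_near (f.1 x) (Nat.one_div_pos_of_nat (n := j))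
    obtain ⟨h1, h2⟩ := h s (v, j, r) ⟨f, hv, hr1⟩
    obtain ⟨p, hp, hp'⟩ := PointFinite.interpolate (s' ∪ t s (v, j, r))
      fun x => if x ∈ S then (f0 s (v, j, r)).1 x else f'.1 x
    have h3 := h2 ⟨p, hp⟩ fun x hx => (hp' x (Finset.mem_union_right _ hx)).trans (if_pos
      (hcl s (fun y hy => (Finset.mem_filter.1 hy).2) (mem_iUnion.2 ⟨_, hx⟩)))
    refine lt_asymm h3 (hs' ⟨p, hp⟩ fun x hx => ?_)
    simp only [hp' x (Finset.mem_union_left _ hx)]
    split_ifs with hxS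
    · have h4 := abs_lt.1 (h1 ⟨x, Finset.mem_filter.2 ⟨hx, hxS⟩⟩)
      have h5 := abs_lt.1 (hv ⟨x, Finset.mem_filter.2 ⟨hx, hxS⟩⟩)
      rw [← hf x hxS, abs_lt]
      constructor <;> linarith [h4.1, h4.2, h5.1, h5.2]
    · simpa using hε
  exact ⟨S, hS, fun f f' hf => le_antisymm (not_lt.1 (key f' f fun x hx => (hf x hx).symm))
    (not_lt.1 (key f f' hf))⟩

/-- restrictions of continuous functions to `S` -/
abbrev Res (S : Set X) : Type := {p : S → ℝ // ∃ f : Cp X, ∀ y : S, f.1 y = p y}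

def res (S : Set X) (f : Cp X) : Res S := ⟨fun y => f.1 y, f, fun _ => rfl⟩

lemma res_cont (S : Set X) : Continuous (res S) := (continuous_pi fun y : S => ev y.1).subtype_mk _

lemma res_surj (S : Set X) : Function.Surjective (res S) := fun ⟨_, f, hf⟩ =>
  ⟨f, Subtype.ext (funext hf)⟩

def pull (S : Set X) (g : Cp (Res S)) : Cp (Cp X) := ⟨g.1 ∘ res S, g.2.comp (res_cont S)⟩

lemma pull_ind (S : Set X) : IsInducing (pull S) := by
  refine IsInducing.of_comp (g := fun (g : Cp (Cp X)) (w : Res S) =>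
    g.1 (Function.surjInv (res_surj S) w)) ((continuous_pi fun f => ev _).subtype_mk _)
    (continuous_pi fun w => ev _) ?_
  have : (fun (g : Cp (Cp X)) (w : Res S) => g.1 (Function.surjInv (res_surj S) w)) ∘ pull S =
      Subtype.val := by
    ext g w
    simp [pull, Function.surjInv_eq]
  rw [this]
  exact IsInducing.subtypeVal

lemma mem_pull [T35Space X] {S : Set X} (hS : IsClosed S) {g : Cp (Cp X)} (hg : Dep S g) :
    g ∈ range (pull S) := by
  classical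
  have h : ∀ f, g.1 (Function.surjInv (res_surj S) (res S f)) = g.1 f := fun f =>
    hg _ _ fun x hx => congrFun (congrArg Subtype.val (Function.surjInv_eq (res_surj S) _)) ⟨x, hx⟩
  refine ⟨⟨fun w => g.1 (Function.surjInv (res_surj S) w), continuous_def.2 fun U hU =>
    isOpen_iff_mem_nhds.2 fun w hw => ?_⟩, Subtype.ext (funext h)⟩
  obtain ⟨f, rfl⟩ := res_surj S w
  rw [mem_preimage, h] at hw
  obtain ⟨I, δ, hδ, hI⟩ := sub_nhd (hU.preimage g.2) hw
  obtain ⟨b, hb, -, hb1, hb2⟩ := cut (I.filter (· ∉ S)) hS.isOpen_compl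
    fun x hx => (Finset.mem_filter.1 hx).2
  refine mem_of_superset (((MonoAdd.box_open (I.subtype (· ∈ S)) (res S f).1 δ).preimage
    continuous_subtype_val).mem_nhds fun y _ => by simpa using hδ) fun w hw => ?_
  obtain ⟨f', rfl⟩ := res_surj S w
  rw [mem_preimage, h, hg f' ⟨fun x => f'.1 x + (1 - b x) * (f.1 x - f'.1 x),
    f'.2.add ((continuous_const.sub hb).mul (f.2.sub f'.2))⟩ fun x hx => by
      simp [hb2 x (not_not.2 hx)]]
  refine hI _ fun x hx => ?_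
  by_cases hxS : x ∈ S
  · simpa [hb2 x (not_not.2 hxS), res] using hw ⟨x, hxS⟩ (Finset.mem_subtype.2 hx)
  · simpa [hb1 x (Finset.mem_filter.2 ⟨hx, hxS⟩)] using hδ

open Cardinal in
theorem scattered {Y : Type} [TopologicalSpace Y] [T35Space X] [T35Space Y] {κ : Cardinal}
    (hκ : ℵ₀ ≤ κ) (hX : ∀ A : Set X, #A ≤ κ → #(closure A) ≤ κ) (e : Cp (Cp X) ≃ₜ Cp (Cp Y))
    (B : Set Y) (hB : #B ≤ κ) : #(closure B) ≤ κ := by
  choose D hD hD' using exists_dep (X := X)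
  let g0 := e.symm ⟨0, continuous_zero⟩
  let S : Set X := ⋃ t : B × ℚ × ℕ, D (e.symm (u t.1.1 t.2.1 t.2.2))
  have hS : #(S ∪ D g0 : Set X) ≤ κ := by
    refine (mk_union_le _ _).trans ((add_le_add ((mk_iUnion_le _).trans ?_)
      ((le_aleph0_iff_set_countable.2 (hD _)).trans hκ)).trans (add_eq_self hκ).le)
    refine (mul_le_mul' (show _ ≤ κ * κ by simpa using mul_le_mul' hB hκ)
      (ciSup_le' fun p => (le_aleph0_iff_set_countable.2 (hD _)).trans hκ)).trans ?_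
    rw [mul_eq_self hκ, mul_eq_self hκ]
  have mono : ∀ {A : Set X} {g}, Dep A g → A ⊆ S ∪ D g0 → Dep (closure (S ∪ D g0)) g :=
    fun h hA f f' hf => h f f' fun x hx => hf x (subset_closure (hA hx))
  obtain ⟨g1, hg1⟩ := mem_pull isClosed_closure (mono (hD' g0) subset_union_right)
  refine card_le (e ∘ pull _) (e.isInducing.comp (pull_ind _)) g1 (by simp [hg1, g0]) _
    (fun y hy a r => ?_) hκ (hX _ hS)
  have h1 : (y, a) ∈ closure (B ×ˢ range ((↑) : ℚ → ℝ)) := by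
    rw [closure_prod_eq]; exact ⟨hy, Rat.denseRange_cast a⟩
  obtain ⟨g, hg⟩ := mem_pull isClosed_closure (closure_minimal (by
    rintro ⟨y, _⟩ ⟨hy, a, rfl⟩
    exact mono (hD' _) ((subset_iUnion (fun t : B × ℚ × ℕ => D (e.symm (u t.1.1 t.2.1 t.2.2)))
      (⟨y, hy⟩, a, r)).trans subset_union_left))
    ((dep_closed (closure (S ∪ D g0))).preimage (e.symm.continuous.comp (u_cont r))) h1)
  exact ⟨g, by simp [hg]⟩

def congr (e : X ≃ₜ W) : Cp X ≃ₜ Cp W where
  toFun f := ⟨f.1 ∘ e.symm, f.2.comp e.symm.continuous⟩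
  invFun f := ⟨f.1 ∘ e, f.2.comp e.continuous⟩
  left_inv f := by ext x; simp
  right_inv f := by ext x; simp
  continuous_toFun := (continuous_pi fun w => ev (e.symm w)).subtype_mk _
  continuous_invFun := (continuous_pi fun x => ev (e x)).subtype_mk _

theorem velichko [T35Space X] [SigmaCompactSpace (Cp X)] : Finite X := by
  classical
  let K := compactCovering (Cp X)
  have hK : ∀ n, IsCompact (Subtype.val '' K n) := fun n =>
    (isCompact_compactCovering _ n).image continuous_subtype_val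
  obtain ⟨n, f1, hf1⟩ := nonempty_interior_of_iUnion_of_closed
    (fun n => (isCompact_compactCovering (Cp X) n).isClosed.preimage ι_cont)
    (by rw [← preimage_iUnion, iUnion_compactCovering, preimage_univ])
  obtain ⟨δ, hδ, hball⟩ := Metric.nhds_basis_closedBall.mem_iff.1 (mem_interior_iff_mem_nhds.1 hf1)
  have hd : DiscreteTopology X := by
    refine discreteTopology_iff_isOpen_singleton.2 fun x => ?_
    have h1 : (fun y => f1 y + δ * if y = x then 0 else 1) ∈ closure (Subtype.val '' K n) := by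
      refine mem_closure_iff.2 fun U hU h => ?_
      obtain ⟨I, ε, hε, hI⟩ := MonoAdd.basic_nhd hU h
      obtain ⟨b, hb, hb0, hb1, hb2⟩ := cut {x} (I.erase x).finite_toSet.isClosed.isOpen_compl
        (by simp)
      have hb3 : ∀ x, ‖b x‖ ≤ 1 := fun x => by rw [Real.norm_of_nonneg (hb0 x).1]; exact (hb0 x).2
      let b' := ofNormedAddCommGroup b hb 1 hb3
      refine ⟨_, hI _ fun y hy => ?_, ι (f1 + δ • b'), hball ?_, rfl⟩
      · by_cases h : y = x
        · simpa [ι, b', h, hb1] using hε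
        · simpa [ι, b', h, hb2 y (by simp [h, hy])] using hε
      · rw [Metric.mem_closedBall, dist_eq_norm, add_sub_cancel_left, norm_smul,
          Real.norm_of_nonneg hδ.le]
        exact mul_le_of_le_one_right hδ.le (norm_ofNormedAddCommGroup_le _ zero_le_one _)
    obtain ⟨g, -, hg⟩ := (hK n).isClosed.closure_subset h1
    convert isOpen_lt (g.2.sub f1.continuous) (continuous_const (y := δ)) using 1
    ext y
    by_cases h : y = x <;> simp [hg, h, hδ]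
  by_contra hX
  have := not_finite_iff_infinite.1 hX
  let y := Infinite.natEmbedding X
  choose M hM using fun n => ((hK n).image (continuous_apply (y n))).bddAbove
  obtain ⟨m, hm⟩ := exists_mem_compactCovering (X := Cp X)
    ⟨Function.extend y (fun n => M n + 1) 0, continuous_of_discreteTopology⟩
  have := hM m ⟨_, ⟨_, hm, rfl⟩, rfl⟩
  simp only [y.injective.extend_apply] at this
  linarith

open Cardinal in
theorem card_eq {Y : Type} [TopologicalSpace Y] [T35Space X] [T35Space Y]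
    (e : Cp (Cp X) ≃ₜ Cp (Cp Y)) : #X ≤ max #Y ℵ₀ ∧ (Infinite Y → #X = #Y) := by
  have key : ∀ {A B : Type} [TopologicalSpace A] [TopologicalSpace B] [T35Space A]
      (_ : Cp (Cp A) ≃ₜ Cp (Cp B)), #A ≤ max #B ℵ₀ := fun e => by
    rw [← mk_univ]
    exact card_le e.symm e.symm.isInducing (e ⟨0, continuous_zero⟩) (by simp) univ
      (fun _ _ _ _ => e.symm.surjective _) (le_max_right _ _) (le_max_left _ _)
  refine ⟨key e, fun hY => ?_⟩
  have hX : Infinite X := by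
    refine not_finite_iff_infinite.1 fun hX => ?_
    have : SigmaCompactSpace (Cp X) := (IsClosed.isClosedEmbedding_subtypeVal
      (s := {f : X → ℝ | Continuous f}) (by
        convert isClosed_univ
        exact eq_univ_of_forall fun f => continuous_of_discreteTopology)).sigmaCompactSpace
    have := sigma (congr e.symm)
    exact not_finite_iff_infinite.2 hY velichko
  exact le_antisymm ((key e).trans (max_eq_left (aleph0_le_mk Y)).le)
    ((key e.symm).trans (max_eq_left (aleph0_le_mk X)).le)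

end Pool.Agent.H82.CpCp
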