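import Mathlib

set_option autoImplicit false

namespace Pool.Agent.H82.FS

open Set Filter Topology

/-- `α` with isolated points plus one point whose punctured neighbourhood filter is `F` -/
def FS {α : Type} (_F : Filter α) : Type := Option α

variable {α : Type} {F : Filter α}

def pt (F : Filter α) (a : α) : FS F := some a

def oo (F : Filter α) : FS F := none

instance : TopologicalSpace (FS F) where
  IsOpen U := oo F ∈ U → pt F ⁻¹' U ∈ F
  isOpen_univ := fun _ => univ_mem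
  isOpen_inter := fun _ _ hU hV h => inter_mem (hU h.1) (hV h.2)
  isOpen_sUnion := fun _ h ⟨U, hU, h0⟩ =>
    mem_of_superset (h U hU h0) fun _ ha => ⟨U, hU, ha⟩

lemma isOpen_iff {U : Set (FS F)} : IsOpen U ↔ (oo F ∈ U → pt F ⁻¹' U ∈ F) := Iff.rfl

lemma pt_inj : Function.Injective (pt F) := Option.some_injective α

lemma pt_ne (a : α) : pt F a ≠ oo F := Option.some_ne_none a

lemma cases' (x : FS F) : x = oo F ∨ ∃ a, x = pt F a := by
  rcases x with _ | a
  · exact Or.inl rfl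
  · exact Or.inr ⟨a, rfl⟩

lemma cont_iff {Z : Type} [TopologicalSpace Z] {f : FS F → Z} :
    Continuous f ↔ Tendsto (fun a => f (pt F a)) F (𝓝 (f (oo F))) := by
  constructor
  · intro hf s hs
    obtain ⟨t, hts, ht, h0⟩ := mem_nhds_iff.1 hs
    exact mem_map.2 (mem_of_superset (isOpen_iff.1 (ht.preimage hf) h0) fun a ha => hts ha)
  · intro h
    exact continuous_def.2 fun s hs => isOpen_iff.2 fun h0 => h (hs.mem_nhds h0)

lemma tendsto_pt : Tendsto (pt F) F (𝓝 (oo F)) := cont_iff.1 continuous_id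

lemma t35 (hF : F ≤ cofinite) : T35Space (FS F) := by
  have hs : ∀ a, IsClopen ({pt F a} : Set (FS F)) := fun a =>
    ⟨⟨isOpen_iff.2 fun _ => hF (((finite_singleton a).subset fun b hb =>
      pt_inj (not_not.1 hb)) : (pt F ⁻¹' {pt F a}ᶜ)ᶜ.Finite)⟩,
      isOpen_iff.2 fun h => (pt_ne a h.symm).elim⟩
  have : CompletelyRegularSpace (FS F) := by
    refine .of_isTopologicalBasis_clopens (TopologicalSpace.isTopologicalBasis_of_isOpen_of_nhds
      (fun u hu => hu.isOpen) fun x U hx hU => ?_)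
    rcases cases' x with rfl | ⟨a, rfl⟩
    · exact ⟨U, ⟨⟨isOpen_iff.2 fun h => (h hx).elim⟩, hU⟩, hx, subset_rfl⟩
    · exact ⟨{pt F a}, hs a, rfl, singleton_subset_iff.2 hx⟩
  have : T0Space (FS F) := by
    refine t0Space_iff_exists_isOpen_xor_mem _ |>.2 fun x y hxy => ?_
    rcases cases' x with rfl | ⟨a, rfl⟩
    · rcases cases' y with rfl | ⟨b, rfl⟩
      · exact (hxy rfl).elim
      · exact ⟨{pt F b}, (hs b).isOpen, Or.inr ⟨rfl, hxy⟩⟩
    · exact ⟨{pt F a}, (hs a).isOpen, Or.inl ⟨rfl, hxy.symm⟩⟩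
  exact {}

lemma fin_of_compact {K : Set (FS F)} (hK : IsCompact K) {B : Set α} (hB : Bᶜ ∈ F) :
    (B ∩ pt F ⁻¹' K).Finite := by
  let U : Option α → Set (FS F) := fun o => o.elim (pt F '' B)ᶜ fun a => {pt F a}
  obtain ⟨t, ht⟩ := hK.elim_finite_subcover U (by
    rintro (_ | a)
    · exact isOpen_iff.2 fun _ => by
        simpa only [U, Option.elim, preimage_compl, preimage_image_eq _ pt_inj] using hB
    · exact isOpen_iff.2 fun h => (pt_ne a h.symm).elim) (by
    intro x _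
    rcases cases' x with rfl | ⟨a, rfl⟩
    · exact mem_iUnion.2 ⟨none, by rintro ⟨a, -, h⟩; exact pt_ne a h⟩
    · exact mem_iUnion.2 ⟨some a, rfl⟩)
  refine (t.finite_toSet.preimage (Option.some_injective α).injOn).subset fun a ha => ?_
  obtain ⟨o, ho, h⟩ := mem_iUnion₂.1 (ht ha.2)
  rcases o with _ | b
  · exact (h ⟨a, ha.1, rfl⟩).elim
  · obtain rfl : a = b := pt_inj h
    exact ho

/-- if every partial selector and every fibre of `p` is `F`-small, compact sets are finite -/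
lemma compact_finite {β : Type} (p : α → β) (h1 : ∀ b, (p ⁻¹' {b})ᶜ ∈ F)
    (h2 : ∀ B : Set α, InjOn p B → Bᶜ ∈ F) {K : Set (FS F)} (hK : IsCompact K) : K.Finite := by
  obtain ⟨B, hB, hinj, him⟩ : ∃ B ⊆ pt F ⁻¹' K, InjOn p B ∧ p '' B = p '' (pt F ⁻¹' K) := by
    obtain ⟨B, hB, hb⟩ := exists_subset_bijOn (pt F ⁻¹' K) p
    exact ⟨B, hB, hb.injOn, hb.image_eq⟩
  have h3 : (p '' (pt F ⁻¹' K)).Finite := by
    rw [← him]
    exact ((fin_of_compact hK (h2 B hinj)).subset fun a ha => ⟨ha, hB ha⟩).image p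
  have h4 : (pt F ⁻¹' K).Finite :=
    (h3.biUnion fun b _ => fin_of_compact hK (h1 b)).subset fun a ha =>
      mem_biUnion (mem_image_of_mem p ha) ⟨rfl, ha⟩
  refine ((h4.image (pt F)).insert (oo F)).subset fun x hx => ?_
  rcases cases' x with rfl | ⟨a, rfl⟩
  · exact Or.inl rfl
  · exact Or.inr ⟨a, hx, rfl⟩

lemma t35_sum {X Y : Type} [TopologicalSpace X] [TopologicalSpace Y] [T35Space X] [T35Space Y] :
    T35Space (X ⊕ Y) := by
  have : CompletelyRegularSpace (X ⊕ Y) := by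
    refine completelyRegularSpace_iff_isOpen.2 ?_
    rintro (x | y) K hK hx
    · obtain ⟨f, hf, h0, h1⟩ := CompletelyRegularSpace.completely_regular_isOpen x _
        (hK.preimage continuous_inl) hx
      refine ⟨Sum.elim f fun _ => 1, hf.sumElim continuous_const, h0, ?_⟩
      rintro (a | b) h
      · exact h1 h
      · rfl
    · obtain ⟨f, hf, h0, h1⟩ := CompletelyRegularSpace.completely_regular_isOpen y _
        (hK.preimage continuous_inr) hx
      refine ⟨Sum.elim (fun _ => 1) f, continuous_const.sumElim hf, h0, ?_⟩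
      rintro (a | b) h
      · rfl
      · exact h1 h
  exact {}

/-- a uniform homeomorphism of the full powers matching the continuous functions -/
def UE (X Y : Type) [TopologicalSpace X] [TopologicalSpace Y] : Prop :=
  ∃ e : (X → ℝ) ≃ᵤ (Y → ℝ), ∀ f, Continuous f ↔ Continuous (e f)

lemma UE.mk' {X Y : Type} [TopologicalSpace X] [TopologicalSpace Y] (Φ : (X → ℝ) → Y → ℝ)
    (Ψ : (Y → ℝ) → X → ℝ) (h1 : ∀ f, Ψ (Φ f) = f) (h2 : ∀ g, Φ (Ψ g) = g)
    (h3 : ∀ y, UniformContinuous fun f => Φ f y) (h4 : ∀ x, UniformContinuous fun g => Ψ g x)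
    (h5 : ∀ f, Continuous f → Continuous (Φ f)) (h6 : ∀ g, Continuous g → Continuous (Ψ g)) :
    UE X Y :=
  ⟨⟨⟨Φ, Ψ, h1, h2⟩, uniformContinuous_pi.2 h3, uniformContinuous_pi.2 h4⟩,
    fun f => ⟨h5 f, fun h => h1 f ▸ h6 _ h⟩⟩

lemma UE.sub {X Y : Type} [TopologicalSpace X] [TopologicalSpace Y] (h : UE X Y) :
    Nonempty (UniformEquiv {f : X → ℝ // Continuous f} {g : Y → ℝ // Continuous g}) :=
  let ⟨e, he⟩ := h; ⟨e.subtype he⟩

lemma UE.homeo {X Y : Type} [TopologicalSpace X] [TopologicalSpace Y] (h : UE X Y) :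
    ∃ φ : (X → ℝ) ≃ₜ (Y → ℝ), φ '' {f : X → ℝ | Continuous f} = {g : Y → ℝ | Continuous g} := by
  obtain ⟨e, he⟩ := h
  refine ⟨e.toHomeomorph, Subset.antisymm ?_ fun g hg => ⟨e.symm g, ?_, e.apply_symm_apply g⟩⟩
  · rintro _ ⟨f, hf, rfl⟩
    exact (he f).1 hf
  · exact (he _).2 (by rwa [e.apply_symm_apply])

end Pool.Agent.H82.FS
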