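import Mathlib
import Pool.Agent.H82.FS

set_option autoImplicit false

namespace Pool.Agent.H82.DArrow

open Set Filter Topology Pool.Agent.H82.FS

/-- the double arrow over the real line -/
def DA : Type := ℝ × Bool

def mk (t : ℝ) (b : Bool) : DA := (t, b)

def π (x : DA) : ℝ := x.1

open Classical in
noncomputable def e (t : ℝ) (x : DA) : ℝ := if t < x.1 ∨ (t = x.1 ∧ x.2 = true) then 1 else 0

noncomputable def emb (x : DA) : ℝ × (ℝ → ℝ) := (π x, fun t => e t x)

noncomputable instance : TopologicalSpace DA := .induced emb inferInstance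

lemma emb_cont : Continuous emb := continuous_induced_dom

lemma π_cont : Continuous π := emb_cont.fst

lemma e_cont (t : ℝ) : Continuous (e t) := (continuous_apply t).comp (continuous_snd.comp emb_cont)

lemma t35 : T35Space DA := by
  have : IsEmbedding emb := by
    refine ⟨⟨rfl⟩, ?_⟩
    rintro ⟨s, b⟩ ⟨t, c⟩ h
    obtain rfl : s = t := congrArg Prod.fst h
    have := congrFun (congrArg Prod.snd h) s
    clear h
    cases b <;> cases c <;> first | rfl | simp [emb, e] at this
  exact this.t35Space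

lemma right (t : ℝ) (b : Bool) : Tendsto (fun s => mk s b) (𝓝[>] t) (𝓝 (mk t true)) := by
  rw [nhds_induced, tendsto_comap_iff]
  refine (tendsto_nhdsWithin_of_tendsto_nhds tendsto_id).prodMk_nhds (tendsto_pi_nhds.2 fun r => ?_)
  refine tendsto_const_nhds.congr' ?_
  rcases le_or_gt r t with h | h
  · filter_upwards [self_mem_nhdsWithin] with s hs
    have h1 : r < s := h.trans_lt hs
    rcases h.eq_or_lt with rfl | h <;> simp [e, mk, *]
  · filter_upwards [Ioo_mem_nhdsGT h] with s hs
    simp [e, mk, h.not_gt, h.ne', hs.2.not_gt, hs.2.ne']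

lemma left (t : ℝ) (b : Bool) : Tendsto (fun s => mk s b) (𝓝[<] t) (𝓝 (mk t false)) := by
  rw [nhds_induced, tendsto_comap_iff]
  refine (tendsto_nhdsWithin_of_tendsto_nhds tendsto_id).prodMk_nhds (tendsto_pi_nhds.2 fun r => ?_)
  refine tendsto_const_nhds.congr' ?_
  rcases lt_or_ge r t with h | h
  · filter_upwards [Ioo_mem_nhdsLT h] with s hs
    simp [e, mk, h, hs.1]
  · filter_upwards [self_mem_nhdsWithin] with s hs
    have h1 : s < r := lt_of_lt_of_le hs h
    simp [e, mk, h.not_gt, h1.not_gt, h1.ne']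

/-- the jump -/
def J (f : DA → ℝ) (t : ℝ) : ℝ := f (mk t true) - f (mk t false)

lemma J_tendsto {f : DA → ℝ} (hf : Continuous f) (t : ℝ) : Tendsto (J f) (𝓝[≠] t) (𝓝 0) := by
  rw [← nhdsLT_sup_nhdsGT, tendsto_sup]
  constructor
  · have := ((hf.tendsto _).comp (left t true)).sub ((hf.tendsto _).comp (left t false))
    rwa [sub_self] at this
  · have := ((hf.tendsto _).comp (right t true)).sub ((hf.tendsto _).comp (right t false))
    rwa [sub_self] at this

abbrev I : Type := Icc (0 : ℝ) 1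

lemma J_c0 {f : DA → ℝ} (hf : Continuous f) : Tendsto (fun t : I => J f t) cofinite (𝓝 0) := by
  intro s hs
  by_contra h
  have h1 : (Subtype.val '' ((fun t : I => J f t) ⁻¹' s)ᶜ).Infinite :=
    Set.Infinite.image Subtype.val_injective.injOn h
  obtain ⟨t, -, ht⟩ := h1.exists_accPt_of_subset_isCompact (isCompact_Icc (a := (0 : ℝ)) (b := 1))
    (by rintro _ ⟨a, -, rfl⟩; exact a.2)
  rw [accPt_iff_frequently_nhdsNE] at ht
  obtain ⟨_, ⟨a, ha, rfl⟩, h2⟩ := (ht.and_eventually (J_tendsto hf t hs)).exists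
  exact ha h2

lemma fin_jump {ε : ℝ} (hε : 0 ≤ ε) {h : ℝ → ℝ} (hh : ∀ t, |h t| ≤ ε) (F : Finset ℝ) :
    ∃ f : DA → ℝ, Continuous f ∧ (∀ x, |f x| ≤ ε) ∧ ∀ t, J f t = if t ∈ F then h t else 0 := by
  classical
  induction F using Finset.induction_on with
  | empty => exact ⟨0, continuous_const, fun _ => by simpa, by simp [J]⟩
  | insert a F ha ih =>
    obtain ⟨f, h1, h2, h3⟩ := ih
    obtain ⟨w, w0, w1, w2⟩ := exists_continuous_zero_one_of_isClosed (isClosed_singleton (x := a))
      F.finite_toSet.isClosed (by simpa using ha)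
    refine ⟨fun x => w (π x) * f x + (1 - w (π x)) * (h a * e a x), ?_, fun x => ?_, fun t => ?_⟩
    · have := π_cont
      have := e_cont a
      fun_prop
    · have h4 : |h a * e a x| ≤ ε := by
        unfold e
        split_ifs <;> simp [hh, hε]
      have h5 := w2 (π x)
      refine (abs_add_le _ _).trans ?_
      rw [abs_mul, abs_mul, abs_of_nonneg h5.1, abs_of_nonneg (sub_nonneg.2 h5.2)]
      nlinarith [h2 x, h5.1, h5.2]
    · have h4 : J (fun x => w (π x) * f x + (1 - w (π x)) * (h a * e a x)) t =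
          w t * J f t + (1 - w t) * h a * (e a (mk t true) - e a (mk t false)) := by
        simp only [J, π, mk]
        ring
      rw [h4, h3]
      by_cases h5 : t = a
      · subst h5
        have : w t = 0 := w0 rfl
        simp [this, e, mk]
      · have h6 : e a (mk t true) - e a (mk t false) = 0 := by simp [e, mk, Ne.symm h5]
        by_cases h7 : t ∈ F
        · have : w t = 1 := w1 h7
          simp [h6, h7, this]
        · simp [h6, h7, h5]

lemma fin_jump' {ε : ℝ} {h : ℝ → ℝ} (hh : ∀ t, |h t| ≤ ε) (hf : (Function.support h).Finite) :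
    ∃ f : DA → ℝ, Continuous f ∧ (∀ x, |f x| ≤ ε) ∧ J f = h := by
  obtain ⟨f, h1, h2, h3⟩ := fin_jump ((abs_nonneg _).trans (hh 0)) hh hf.toFinset
  refine ⟨f, h1, h2, funext fun t => ?_⟩
  rw [h3]
  split_ifs with h4
  · rfl
  · simpa [eq_comm] using h4

lemma surj {h : ℝ → ℝ} (hh : Tendsto h cofinite (𝓝 0)) :
    ∃ f : DA → ℝ, Continuous f ∧ J f = h := by
  obtain ⟨C, hC⟩ : ∃ C, ∀ t, |h t| ≤ C := by
    have := (hh.abs.bddAbove_range_of_cofinite)
    obtain ⟨C, hC⟩ := this
    exact ⟨C, fun t => hC ⟨t, rfl⟩⟩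
  let a : ℕ → ℝ := fun k => C * (1 / 2) ^ k
  have hC0 : 0 ≤ C := (abs_nonneg _).trans (hC 0)
  have ha : ∀ k, 0 ≤ a k := fun k => by positivity
  have ha' : ∀ k, a (k + 1) ≤ a k := fun k => by
    have := ha k
    simp only [a, pow_succ] at this ⊢
    linarith
  let c : ℕ → ℝ → ℝ := fun k t => max (-a k) (min (a k) (h t))
  have hc : ∀ k t, |c k t| ≤ a k := fun k t =>
    abs_le.2 ⟨le_max_left _ _, max_le (by linarith [ha k]) (min_le_left _ _)⟩
  have hc' : ∀ k t, |h t| ≤ a k → c k t = h t := fun k t ht => by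
    simp only [c, min_eq_right (abs_le.1 ht).2, max_eq_right (abs_le.1 ht).1]
  have : ∀ k, ∃ f : DA → ℝ, Continuous f ∧ (∀ x, |f x| ≤ 2 * a k) ∧ J f = c k - c (k + 1) := by
    intro k
    refine fin_jump' (fun t => (abs_sub _ _).trans (by linarith [hc k t, hc (k + 1) t, ha' k])) ?_
    rcases hC0.eq_or_lt with h0 | h0
    · convert finite_empty
      refine Function.support_eq_empty_iff.2 (funext fun t => ?_)
      have : ∀ k, |h t| ≤ a k := fun k => by simpa [a, ← h0] using hC t
      simp [hc' _ _ (this _)]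
    · have h1 : 0 < a (k + 1) := by positivity
      refine Set.Finite.subset (Metric.tendsto_nhds.1 hh _ h1) fun t ht h2 => ht ?_
      have h3 : |h t| ≤ a (k + 1) := by
        have h4 : dist (h t) 0 < a (k + 1) := h2
        simpa [Real.dist_eq] using h4.le
      simp [hc' _ _ h3, hc' _ _ (h3.trans (ha' k))]
  choose f f1 f2 f3 using this
  have hs : Summable fun k => 2 * a k := (summable_geometric_two.mul_left C).mul_left 2
  have hs' : ∀ x, Summable fun k => f k x := fun x => .of_norm_bounded hs fun k => f2 k x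
  refine ⟨fun x => ∑' k, f k x, continuous_tsum f1 hs fun k x => f2 k x, funext fun t => ?_⟩
  have h1 := ((hs' (mk t true)).sub (hs' (mk t false))).hasSum.tendsto_sum_nat
  rw [(hs' _).tsum_sub (hs' _)] at h1
  refine tendsto_nhds_unique h1 ?_
  have h2 : ∀ n, ∑ k ∈ Finset.range n, (f k (mk t true) - f k (mk t false)) = h t - c n t := by
    intro n
    rw [← hc' 0 t (by simpa [a] using hC t), ← Finset.sum_range_sub' (fun k => c k t)]
    exact Finset.sum_congr rfl fun k _ => congrFun (f3 k) t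
  simp only [h2]
  have h3 : Tendsto a atTop (𝓝 0) := by
    have := (tendsto_pow_atTop_nhds_zero_of_lt_one (r := (1 / 2 : ℝ)) (by norm_num)
      (by norm_num)).const_mul C
    rwa [mul_zero] at this
  have h4 : Tendsto (fun n => c n t) atTop (𝓝 0) := squeeze_zero_norm (fun n => hc n t) h3
  simpa using tendsto_const_nhds.sub h4

abbrev Y : Type := FS (cofinite : Filter I)

def T0 (f : DA → ℝ) (y : Y) : ℝ := Option.elim y 0 (fun t => J f t) + J f 2

lemma T0_cont {f : DA → ℝ} (hf : Continuous f) : Continuous (T0 f) :=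
  cont_iff.2 ((J_c0 hf).add_const _)

def T (f : {f : DA → ℝ // Continuous f}) : {g : Y → ℝ // Continuous g} := ⟨T0 f, T0_cont f.2⟩

lemma T_cont : Continuous T := by
  have hJ : ∀ t, Continuous fun f : {f : DA → ℝ // Continuous f} => J f.1 t := fun t =>
    ((continuous_apply _).comp continuous_subtype_val).sub
      ((continuous_apply _).comp continuous_subtype_val)
  refine Continuous.subtype_mk (continuous_pi ?_) _
  rintro (_ | t)
  · exact continuous_const.add (hJ 2)
  · exact (hJ t).add (hJ 2)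

open Classical in
noncomputable def sec (g : Y → ℝ) (t : ℝ) : ℝ :=
  if h : t ∈ Icc (0 : ℝ) 1 then g (pt _ ⟨t, h⟩) - g (oo _) else if t = 2 then g (oo _) else 0

lemma sec_cont (t : ℝ) : Continuous fun g => sec g t := by
  unfold sec
  split_ifs <;> fun_prop

lemma sec_c0 {g : Y → ℝ} (hg : Continuous g) : Tendsto (sec g) cofinite (𝓝 0) := by
  intro s hs
  have h1 := (cont_iff.1 hg).sub_const (g (oo _))
  rw [sub_self] at h1
  refine (((h1 hs : Set.Finite _).image Subtype.val).insert 2).subset fun t ht => ?_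
  by_cases h2 : t ∈ Icc (0 : ℝ) 1
  · exact Or.inr ⟨⟨t, h2⟩, by simpa [sec, h2] using ht, rfl⟩
  · by_contra h3
    have h4 : t ≠ 2 := fun h => h3 (Or.inl h)
    exact ht (by simpa [sec, h2, h4] using mem_of_mem_nhds hs)

lemma T0_sec {f : DA → ℝ} {g : Y → ℝ} (h : J f = sec g) : T0 f = g := by
  have h2 : J f 2 = g (oo _) := by rw [h]; simp [sec]
  ext (_ | t)
  · simp [T0, h2, oo]
  · simp only [T0, h2, Option.elim]
    rw [h, sec, dif_pos t.2, sub_add_cancel]
    rfl

lemma T_surj : Function.Surjective T := fun g =>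
  let ⟨f, h1, h2⟩ := surj (sec_c0 g.2); ⟨⟨f, h1⟩, Subtype.ext (T0_sec h2)⟩

lemma T_open : IsOpenMap T := by
  refine isOpenMap_iff_nhds_le.2 fun f U hU => ?_
  rw [mem_map, nhds_subtype_eq_comap, mem_comap] at hU
  obtain ⟨V, hV, hVU⟩ := hU
  rw [nhds_pi, Filter.mem_pi] at hV
  obtain ⟨F, hF, W, hW, hWV⟩ := hV
  let k : (Y → ℝ) → DA → ℝ := fun g x => f.1 x + if x.2 then sec (g - T0 f) (π x) else 0
  have hk : Continuous k := continuous_pi fun x => continuous_const.add (by
    split_ifs
    · exact (sec_cont _).comp (continuous_id.sub continuous_const)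
    · exact continuous_const)
  have hk0 : k (T f).1 = f.1 := by
    ext x
    simp [k, T, sec]
  have h1 : F.pi W ∈ 𝓝 (k (T f).1) := by rw [hk0]; exact set_pi_mem_nhds hF fun x _ => hW x
  filter_upwards [(hk.comp continuous_subtype_val).tendsto (T f) h1] with g hg
  obtain ⟨p, p1, p2⟩ := surj (sec_c0 (g.2.sub (T0_cont f.2)))
  obtain ⟨u, hu⟩ := ContinuousMap.exists_restrict_eq (hF.image π).isClosed
    (⟨fun t : π '' F => p (mk t false), by
      have := (hF.image π).to_subtype
      exact continuous_of_discreteTopology⟩ : C(π '' F, ℝ))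
  have hq : Continuous fun x => f.1 x + p x - u (π x) :=
    (f.2.add p1).sub (u.continuous.comp π_cont)
  have h2 : T ⟨_, hq⟩ = g := by
    refine Subtype.ext (funext fun y => ?_)
    have h3 : T0 p y = g.1 y - T0 f y := congrFun (T0_sec p2) y
    have h4 : ∀ t, J (fun x => f.1 x + p x - u (π x)) t = J f.1 t + J p t := fun t => by
      simp only [J, π, mk]; ring
    rcases y with _ | t <;> simp only [T, T0, h4, Option.elim] at h3 ⊢ <;> linarith
  rw [← h2]
  refine hVU (hWV fun x hx => ?_)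
  have h5 : u (π x) = p (mk (π x) false) := DFunLike.congr_fun hu ⟨π x, x, hx, rfl⟩
  convert hg x hx using 1
  have h6 := congrFun p2 (π x)
  rcases x with ⟨t, _ | _⟩
  · exact (add_sub_assoc _ _ _).trans (congrArg _ (sub_eq_zero.2 h5.symm))
  · exact (add_sub_assoc _ _ _).trans (congrArg _ (by rw [h5]; exact h6))

lemma sep (A : Set DA) : ∃ D ⊆ A, D.Countable ∧ A ⊆ closure D := by
  have key : ∀ B : Set ℝ, ∃ D ⊆ B, D.Countable ∧
      (∀ t ∈ B, t ∈ D ∨ ∃ᶠ s in 𝓝[>] t, s ∈ D) ∧ ∀ t ∈ B, t ∈ D ∨ ∃ᶠ s in 𝓝[<] t, s ∈ D := by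
    intro B
    obtain ⟨D, h2, h1, h3⟩ :=
      (TopologicalSpace.IsSeparable.of_separableSpace B).exists_countable_dense_subset
    refine ⟨D ∪ ({x ∈ B | 𝓝[B ∩ Ioi x] x = ⊥} ∪ {x ∈ B | 𝓝[B ∩ Iio x] x = ⊥}),
      union_subset h2 (union_subset (sep_subset _ _) (sep_subset _ _)),
      h1.union (countable_setOfPred_isolated_right_within.union
        countable_setOfPred_isolated_left_within),
      fun t ht => ?_, fun t ht => ?_⟩
    · refine or_iff_not_imp_right.2 fun h => Or.inr (Or.inl ⟨ht, ?_⟩)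
      obtain ⟨u, hu, h⟩ := mem_nhdsGT_iff_exists_Ioo_subset.1 (not_frequently.1 h)
      rw [← empty_mem_iff_bot]
      filter_upwards [self_mem_nhdsWithin, nhdsWithin_le_nhds (Iio_mem_nhds hu)] with s hs hs'
      obtain ⟨r, r1, r2⟩ := mem_closure_iff.1 (h3 hs.1) _ isOpen_Ioo ⟨hs.2, hs'⟩
      exact h r1 (Or.inl r2)
    · refine or_iff_not_imp_right.2 fun h => Or.inr (Or.inr ⟨ht, ?_⟩)
      obtain ⟨u, hu, h⟩ := mem_nhdsLT_iff_exists_Ioo_subset.1 (not_frequently.1 h)
      rw [← empty_mem_iff_bot]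
      filter_upwards [self_mem_nhdsWithin, nhdsWithin_le_nhds (Ioi_mem_nhds hu)] with s hs hs'
      obtain ⟨r, r1, r2⟩ := mem_closure_iff.1 (h3 hs.1) _ isOpen_Ioo ⟨hs', hs.2⟩
      exact h r1 (Or.inl r2)
  obtain ⟨D0, a1, a2, -, a3⟩ := key {t | mk t false ∈ A}
  obtain ⟨D1, b1, b2, b3, -⟩ := key {t | mk t true ∈ A}
  refine ⟨(fun t => mk t false) '' D0 ∪ (fun t => mk t true) '' D1,
    union_subset (image_subset_iff.2 a1) (image_subset_iff.2 b1), (a2.image _).union (b2.image _),
    ?_⟩
  rintro ⟨t, _ | _⟩ hx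
  · rcases a3 t hx with h | h
    · exact subset_closure (Or.inl ⟨t, h, rfl⟩)
    · exact mem_closure_of_frequently_of_tendsto (h.mono fun s hs => Or.inl ⟨s, hs, rfl⟩)
        (left t false)
  · rcases b3 t hx with h | h
    · exact subset_closure (Or.inr ⟨t, h, rfl⟩)
    · exact mem_closure_of_frequently_of_tendsto (h.mono fun s hs => Or.inr ⟨s, hs, rfl⟩)
        (right t true)

end Pool.Agent.H82.DArrow
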