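import Mathlib

set_option autoImplicit false

namespace Pool.Agent.H82.FEmb

open Set Filter Topology

/-- functionally closed set -/
def FClosed {X : Type} [TopologicalSpace X] (A : Set X) : Prop :=
  ∃ f : X → unitInterval, Continuous f ∧ A = f ⁻¹' {0}

/-- functionally open set -/
def FOpen {X : Type} [TopologicalSpace X] (A : Set X) : Prop :=
  ∃ f : X → unitInterval, Continuous f ∧ A = f ⁻¹' Ioc 0 1

/-- functionally F-sigma set -/
def FFs {X : Type} [TopologicalSpace X] (A : Set X) : Prop :=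
  ∃ Z : ℕ → Set X, (∀ n, FClosed (Z n)) ∧ A = ⋃ n, Z n

/-- functionally G-delta set -/
def FGd {X : Type} [TopologicalSpace X] (A : Set X) : Prop :=
  ∃ U : ℕ → Set X, (∀ n, FOpen (U n)) ∧ A = ⋂ n, U n

/-- 1-embedded subset -/
def OneEmb {X : Type} [TopologicalSpace X] (E : Set X) : Prop :=
  (∀ A : Set E, FFs A → ∃ B : Set X, FFs B ∧ A = Subtype.val ⁻¹' B) ∧
  (∀ A : Set E, FGd A → ∃ B : Set X, FGd B ∧ A = Subtype.val ⁻¹' B)

variable {X Y : Type} [TopologicalSpace X] [TopologicalSpace Y]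

lemma FClosed.compl {A : Set X} (h : FClosed A) : FOpen Aᶜ := by
  obtain ⟨f, hf, rfl⟩ := h
  refine ⟨f, hf, ?_⟩
  ext x
  simp [unitInterval.le_one', unitInterval.pos_iff_ne_zero]

lemma FFs.compl {A : Set X} (h : FFs A) : FGd Aᶜ := by
  obtain ⟨Z, hZ, rfl⟩ := h
  exact ⟨fun n => (Z n)ᶜ, fun n => (hZ n).compl, compl_iUnion _⟩

lemma FClosed.preimage {A : Set Y} (h : FClosed A) {g : X → Y} (hg : Continuous g) :
    FClosed (g ⁻¹' A) := by
  obtain ⟨f, hf, rfl⟩ := h
  exact ⟨f ∘ g, hf.comp hg, rfl⟩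

lemma FClosed.isClosed {A : Set X} (h : FClosed A) : IsClosed A := by
  obtain ⟨f, hf, rfl⟩ := h
  exact isClosed_singleton.preimage hf

lemma fclosed_single (q : ℕ → Bool) : FClosed ({q} : Set (ℕ → Bool)) := by
  letI := TopologicalSpace.metrizableSpaceMetric (ℕ → Bool)
  refine ⟨fun x => projIcc 0 1 zero_le_one (dist x q), continuous_projIcc.comp (by fun_prop), ?_⟩
  ext x
  simp only [mem_singleton_iff, mem_preimage]
  rw [show (0 : unitInterval) = ⟨0, left_mem_Icc.2 zero_le_one⟩ from rfl,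
    projIcc_eq_left zero_lt_one, dist_le_zero]

open Classical in
lemma fclosed_iInter {C : ℕ → Set X} (h : ∀ n, IsClopen (C n)) : FClosed (⋂ n, C n) := by
  have h1 : Continuous fun x n => decide (x ∈ C n) := by
    refine continuous_pi fun n => (IsLocallyConstant.iff_continuous _).1 ?_
    refine (IsLocallyConstant.iff_isOpen_fiber).2 fun b => ?_
    cases b
    · convert (h n).compl.isOpen using 1; ext y; simp
    · convert (h n).isOpen using 1; ext y; simp
  convert (fclosed_single fun _ => true).preimage h1 using 1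
  ext x
  simp [funext_iff]

lemma fclosed_clopen {C : Set X} (h : IsClopen C) : FClosed C := by
  simpa [iInter_const] using fclosed_iInter (C := fun _ => C) fun _ => h

lemma FClosed.ffs {A : Set X} (h : FClosed A) : FFs A :=
  ⟨fun _ => A, fun _ => h, (iUnion_const _).symm⟩

lemma ffs_iUnion {ι : Type} [Countable ι] {A : ι → Set X} (h : ∀ i, FFs (A i)) :
    FFs (⋃ i, A i) := by
  rcases isEmpty_or_nonempty ι with hι | hι
  · simpa using (fclosed_clopen (isClopen_empty (X := X))).ffs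
  choose Z hZ hA using h
  obtain ⟨e, he⟩ := exists_surjective_nat (ι × ℕ)
  refine ⟨fun n => Z (e n).1 (e n).2, fun n => hZ _ _, ?_⟩
  rw [he.iUnion_comp (fun p => Z p.1 p.2), iUnion_prod']
  exact iUnion_congr hA

lemma FFs.union {A B : Set X} (hA : FFs A) (hB : FFs B) : FFs (A ∪ B) := by
  rw [union_eq_iUnion]
  exact ffs_iUnion fun b => by cases b <;> assumption

lemma FClosed.inter {A B : Set X} (hA : FClosed A) (hB : FClosed B) : FClosed (A ∩ B) := by
  obtain ⟨f, hf, rfl⟩ := hA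
  obtain ⟨g, hg, rfl⟩ := hB
  refine ⟨fun x => max (f x) (g x), hf.max hg, ?_⟩
  ext x
  simp only [mem_inter_iff, mem_preimage, mem_singleton_iff]
  exact max_eq_bot.symm

lemma FFs.inter {A B : Set X} (hA : FFs A) (hB : FFs B) : FFs (A ∩ B) := by
  obtain ⟨Z, hZ, rfl⟩ := hA
  obtain ⟨W, hW, rfl⟩ := hB
  rw [iUnion_inter]
  refine ffs_iUnion fun n => ?_
  rw [inter_iUnion]
  exact ffs_iUnion fun m => ((hZ n).inter (hW m)).ffs

lemma FFs.preimage {A : Set Y} (h : FFs A) {g : X → Y} (hg : Continuous g) :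
    FFs (g ⁻¹' A) := by
  obtain ⟨Z, hZ, rfl⟩ := h
  exact ⟨fun n => g ⁻¹' Z n, fun n => (hZ n).preimage hg, preimage_iUnion⟩

lemma oneEmb_of_all (h : ∀ A : Set X, FFs A) (E : Set X) : OneEmb E :=
  ⟨fun A _ => ⟨Subtype.val '' A, h _, (preimage_image_eq _ Subtype.val_injective).symm⟩,
   fun A _ => ⟨Subtype.val '' A, by simpa using (h (Subtype.val '' A)ᶜ).compl,
    (preimage_image_eq _ Subtype.val_injective).symm⟩⟩

end Pool.Agent.H82.FEmb
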