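import Mathlib
import Pool.Agent.H82.FS

set_option autoImplicit false

namespace Pool.Agent.H82.UAleph

open Set Filter Topology Pool.Agent.H82.FS

variable {α : Type}

/-- boundedly many exceptions in each square block -/
def blow (F : Filter α) (ℓ : α → ℕ) : Filter (α × ℕ × ℕ) where
  sets := {A | ∃ c : ℕ, ∀ᶠ n in F, ∃ E : Finset (ℕ × ℕ), E.card ≤ c ∧
    ∀ i ≤ ℓ n, ∀ j ≤ ℓ n, (i, j) ∉ E → (n, i, j) ∈ A}
  univ_sets := ⟨0, Eventually.of_forall fun _ => ⟨∅, le_rfl, fun _ _ _ _ _ => trivial⟩⟩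
  sets_of_superset := fun ⟨c, hc⟩ h => ⟨c, hc.mono fun _ ⟨E, h1, h2⟩ =>
    ⟨E, h1, fun i hi j hj hE => h (h2 i hi j hj hE)⟩⟩
  inter_sets := fun ⟨c, hc⟩ ⟨d, hd⟩ => ⟨c + d, (hc.and hd).mono fun _ ⟨⟨E, h1, h2⟩, E', h3, h4⟩ =>
    ⟨E ∪ E', (Finset.card_union_le _ _).trans (add_le_add h1 h3), fun i hi j hj hE =>
      ⟨h2 i hi j hj fun h => hE (Finset.mem_union_left _ h),
       h4 i hi j hj fun h => hE (Finset.mem_union_right _ h)⟩⟩⟩

variable {F : Filter α} {ℓ : α → ℕ}

lemma tendsto_fst' : Tendsto Prod.fst (blow F ℓ) F := fun _ hs =>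
  ⟨0, mem_of_superset hs fun _ hn => ⟨∅, le_rfl, fun _ _ _ _ _ => hn⟩⟩

lemma sel {B : Set (α × ℕ × ℕ)} (hB : InjOn Prod.fst B) : Bᶜ ∈ blow F ℓ := by
  refine ⟨1, Eventually.of_forall fun n => ?_⟩
  by_cases h : ∃ s, (n, s) ∈ B
  · obtain ⟨s, hs⟩ := h
    exact ⟨{s}, by simp, fun i _ j _ hE h' =>
      hE (Finset.mem_singleton.2 (congrArg Prod.snd (hB h' hs rfl)))⟩
  · exact ⟨∅, by simp, fun i _ j _ _ h' => h ⟨_, h'⟩⟩

lemma fib (hF : F ≤ cofinite) (n : α) : (Prod.fst ⁻¹' {n})ᶜ ∈ blow F ℓ :=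
  tendsto_fst' (F := F) (ℓ := ℓ) (hF (finite_singleton n).compl_mem_cofinite)

lemma blow_le (hF : F ≤ cofinite) : blow F ℓ ≤ cofinite := by
  rw [le_cofinite_iff_compl_singleton_mem]
  exact fun s => mem_of_superset (fib hF s.1) fun t ht h => ht (by rw [h]; rfl)

/-- minimax value over a square block -/
noncomputable def med (m : ℕ) (x : ℕ × ℕ → ℝ) : ℝ :=
  (Finset.range (m + 1)).inf' (by simp) fun i =>
    (Finset.range (m + 1)).sup' (by simp) fun j => x (i, j)

lemma med_le {m : ℕ} {x y : ℕ × ℕ → ℝ} {c : ℝ} (h : ∀ i ≤ m, ∀ j ≤ m, x (i, j) ≤ y (i, j) + c) :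
    med m x ≤ med m y + c := by
  rw [← sub_le_iff_le_add]
  refine Finset.le_inf' _ _ fun i hi => sub_le_iff_le_add.2 ((Finset.inf'_le _ hi).trans ?_)
  refine Finset.sup'_le _ _ fun j hj => ?_
  have := h i (Nat.lt_succ_iff.1 (Finset.mem_range.1 hi)) j
    (Nat.lt_succ_iff.1 (Finset.mem_range.1 hj))
  have h2 := Finset.le_sup' (fun j => y (i, j)) hj
  linarith

lemma med_add (m : ℕ) (x : ℕ × ℕ → ℝ) (c : ℝ) : med m (fun s => x s + c) = med m x + c := by
  have h1 := med_le (m := m) (x := fun s => x s + c) (y := x) (c := c) fun _ _ _ _ => le_rfl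
  have h2 := med_le (m := m) (x := x) (y := fun s => x s + c) (c := -c) fun _ _ _ _ => by simp
  linarith

lemma med_uc (m : ℕ) : UniformContinuous (med m) := by
  let r : (ℕ × ℕ → ℝ) → Fin (m + 1) × Fin (m + 1) → ℝ := fun x s => x (s.1, s.2)
  have hr : UniformContinuous r := uniformContinuous_pi.2 fun s => Pi.uniformContinuous_proj _ _
  intro s hs
  obtain ⟨ε, hε, h⟩ := Metric.mem_uniformity_dist.1 hs
  refine mem_map.2 (mem_of_superset (hr (Metric.dist_mem_uniformity (half_pos hε))) ?_)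
  rintro ⟨x, y⟩ (hxy : dist (r x) (r y) < ε / 2)
  have h0 : ∀ i ≤ m, ∀ j ≤ m, |x (i, j) - y (i, j)| < ε / 2 := fun i hi j hj =>
    (dist_le_pi_dist (r x) (r y) (⟨i, by omega⟩, ⟨j, by omega⟩)).trans_lt hxy
  have h1 := med_le (x := x) (y := y) (c := ε / 2) fun i hi j hj => by
    linarith [(abs_lt.1 (h0 i hi j hj)).2]
  have h2 := med_le (x := y) (y := x) (c := ε / 2) fun i hi j hj => by
    linarith [(abs_lt.1 (h0 i hi j hj)).1]
  exact h (abs_lt.2 ⟨by linarith, by linarith⟩ : |med m x - med m y| < ε)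

lemma exists_free (E : Finset ℕ) {m : ℕ} (h : E.card ≤ m) : ∃ i ≤ m, i ∉ E := by
  obtain ⟨i, hi, hE⟩ := Finset.exists_mem_notMem_of_card_lt_card (s := E)
    (t := Finset.range (m + 1)) (by simpa using Nat.lt_succ_of_le h)
  exact ⟨i, Nat.lt_succ_iff.1 (Finset.mem_range.1 hi), hE⟩

lemma med_tendsto (hℓ : Tendsto ℓ F atTop) {f : α × ℕ × ℕ → ℝ} {L : ℝ}
    (hf : Tendsto f (blow F ℓ) (𝓝 L)) :
    Tendsto (fun n => med (ℓ n) fun s => f (n, s)) F (𝓝 L) := by
  refine Metric.tendsto_nhds.2 fun ε hε => ?_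
  obtain ⟨c, hc⟩ := Metric.tendsto_nhds.1 hf ε hε
  filter_upwards [hc, hℓ.eventually_ge_atTop c] with n ⟨E, h1, h2⟩ hn
  rw [Real.dist_eq, abs_lt]
  constructor
  · rw [lt_sub_iff_add_lt, med, Finset.lt_inf'_iff]
    intro i hi
    obtain ⟨j, hj, hE⟩ := exists_free (E.image Prod.snd) (Finset.card_image_le.trans (h1.trans hn))
    have h3 : |f (n, i, j) - L| < ε := h2 i (Nat.lt_succ_iff.1 (Finset.mem_range.1 hi)) j hj
      fun h => hE (Finset.mem_image_of_mem Prod.snd h)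
    refine lt_of_lt_of_le ?_ (Finset.le_sup' _ (Finset.mem_range.2 (Nat.lt_succ_of_le hj)))
    linarith [(abs_lt.1 h3).1]
  · obtain ⟨i, hi, hE⟩ := exists_free (E.image Prod.fst) (Finset.card_image_le.trans (h1.trans hn))
    rw [sub_lt_iff_lt_add]
    refine (Finset.inf'_le _ (Finset.mem_range.2 (Nat.lt_succ_of_le hi))).trans_lt ?_
    rw [Finset.sup'_lt_iff]
    intro j hj
    have h3 : |f (n, i, j) - L| < ε := h2 i hi j (Nat.lt_succ_iff.1 (Finset.mem_range.1 hj))
      fun h => hE (Finset.mem_image_of_mem Prod.fst h)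
    linarith [(abs_lt.1 h3).2]

lemma cont_prod {Z : Type} [TopologicalSpace Z] {f : ℕ × Z → ℝ} :
    Continuous f ↔ ∀ j, Continuous fun x => f (j, x) :=
  ⟨fun h j => h.comp (by fun_prop), fun h => continuous_prod_of_discrete_left.2 h⟩

theorem swindle0 {P Q : Type} [TopologicalSpace P] [TopologicalSpace Q] {π : P → Q}
    (hπ : Continuous π) (μ : (P → ℝ) → Q → ℝ) (hμ : ∀ u, Continuous u → Continuous (μ u))
    (hμu : ∀ o, UniformContinuous fun u => μ u o)
    (hadd : ∀ (u : P → ℝ) (v w : Q → ℝ) (o : Q),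
      μ (fun x => u x - v (π x) + w (π x)) o = μ u o - v o + w o) : UE (ℕ × P) (Q ⊕ ℕ × P) := by
  let Φ : (ℕ × P → ℝ) → Q ⊕ ℕ × P → ℝ := fun f => Sum.elim (μ fun x => f (0, x))
    fun p => f p - μ (fun x => f (p.1, x)) (π p.2) + μ (fun x => f (p.1 + 1, x)) (π p.2)
  let ν : (Q ⊕ ℕ × P → ℝ) → ℕ → Q → ℝ := fun g j =>
    Nat.casesOn j (fun o => g (.inl o)) fun i => μ fun x => g (.inr (i, x))
  let Ψ : (Q ⊕ ℕ × P → ℝ) → ℕ × P → ℝ := fun g p =>
    g (.inr p) - μ (fun x => g (.inr (p.1, x))) (π p.2) + ν g p.1 (π p.2)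
  have hrow : ∀ j (o : Q), UniformContinuous fun f : ℕ × P → ℝ => μ (fun x => f (j, x)) o :=
    fun j o => (hμu o).comp (uniformContinuous_pi.2 fun x => Pi.uniformContinuous_proj _ _)
  have hrow' : ∀ j (o : Q), UniformContinuous fun g : Q ⊕ ℕ × P → ℝ =>
      μ (fun x => g (.inr (j, x))) o :=
    fun j o => (hμu o).comp (uniformContinuous_pi.2 fun x => Pi.uniformContinuous_proj _ _)
  refine UE.mk' Φ Ψ (fun f => ?_) (fun g => ?_) ?_ ?_ (fun f hf => ?_) fun g hg => ?_
  · ext ⟨_ | j, x⟩ <;> simp [Φ, Ψ, ν, hadd]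
  · ext (o | ⟨j, x⟩)
    · exact (hadd (fun x => g (.inr (0, x))) (μ fun x => g (.inr (0, x))) (fun o => g (.inl o))
        o).trans (by simp)
    · have h1 := fun j => hadd (fun x => g (.inr (j, x))) (μ fun x => g (.inr (j, x))) (ν g j) (π x)
      simp only [Φ, Ψ, Sum.elim_inr, h1]
      simp [ν]
  · rintro (o | ⟨j, x⟩)
    · exact hrow 0 o
    · exact ((Pi.uniformContinuous_proj _ (j, x)).sub (hrow j _)).add (hrow (j + 1) _)
  · rintro ⟨_ | j, x⟩
    · exact ((Pi.uniformContinuous_proj _ (Sum.inr (0, x))).sub (hrow' 0 _)).add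
        (Pi.uniformContinuous_proj _ (Sum.inl (π x)))
    · exact ((Pi.uniformContinuous_proj _ (Sum.inr (j + 1, x))).sub (hrow' _ _)).add (hrow' j _)
  · have h := cont_prod.1 hf
    exact (hμ _ (h 0)).sumElim (cont_prod.2 fun j =>
      ((h j).sub ((hμ _ (h j)).comp hπ)).add ((hμ _ (h (j + 1))).comp hπ))
  · have h := cont_prod.1 (hg.comp continuous_inr)
    have h2 : ∀ j, Continuous (ν g j) := by
      rintro (_ | j)
      · exact hg.comp continuous_inl
      · exact hμ _ (h j)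
    exact cont_prod.2 fun j => ((h j).sub ((hμ _ (h j)).comp hπ)).add ((h2 j).comp hπ)

noncomputable def mu (F : Filter α) (ℓ : α → ℕ) (u : FS (blow F ℓ) → ℝ) : FS F → ℝ
  | none => u (oo _)
  | some n => med (ℓ n) fun s => u (pt _ (n, s))

def pr (F : Filter α) (ℓ : α → ℕ) : FS (blow F ℓ) → FS F := Option.map Prod.fst

theorem swindle (hℓ : Tendsto ℓ F atTop) :
    UE (ℕ × FS (blow F ℓ)) (FS F ⊕ ℕ × FS (blow F ℓ)) := by
  have h0 : Continuous (pr F ℓ) := by
    rw [cont_iff]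
    exact (tendsto_pt (F := F)).comp tendsto_fst'
  refine swindle0 h0 (mu F ℓ) (fun u hu => ?_) ?_ ?_
  · rw [cont_iff] at hu ⊢
    have h1 := med_tendsto (f := fun a => u (pt _ a)) hℓ hu
    exact h1
  · rintro (_ | n)
    · exact Pi.uniformContinuous_proj (fun _ => ℝ) (oo (blow F ℓ))
    · exact (med_uc (ℓ n)).comp (uniformContinuous_pi.2 fun s =>
        Pi.uniformContinuous_proj (fun _ => ℝ) (pt (blow F ℓ) (n, s)))
  · rintro u v w (_ | n)
    · rfl
    · have := med_add (ℓ n) (fun s => u (pt _ (n, s))) (w (some n) - v (some n))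
      simp only [add_sub_assoc', add_sub_right_comm] at this
      exact this

def node (σ : ℕ → Bool) (n : ℕ) : List Bool := (List.range n).map σ

lemma node_eq {σ τ : ℕ → Bool} {n m : ℕ} : node σ n = node τ m ↔ n = m ∧ ∀ i < n, σ i = τ i := by
  constructor
  · intro h
    obtain rfl : n = m := by simpa [node] using congrArg List.length h
    exact ⟨rfl, fun i hi => List.map_inj_left.1 h i (List.mem_range.2 hi)⟩
  · rintro ⟨rfl, h⟩
    exact List.map_inj_left.2 fun i hi => h i (List.mem_range.1 hi)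

/-- complements of finite unions of branches -/
def brF : Filter (List Bool) := cofinite ⊓ ⨅ σ, 𝓟 (range (node σ))ᶜ

theorem not_aleph0 {Z : Type} [TopologicalSpace Z] (N : Set (Set (FS brF ⊕ Z))) (hN : N.Countable)
    (h : ∀ K U : Set (FS brF ⊕ Z), IsCompact K → IsOpen U → K ⊆ U →
      ∃ S : Set (Set (FS brF ⊕ Z)), S.Finite ∧ S ⊆ N ∧ K ⊆ ⋃₀ S ∧ ⋃₀ S ⊆ U) : False := by
  let k : (ℕ → Bool) → ℕ → List Bool := fun σ n => node (Function.update σ n (!σ n)) (n + 1)
  have hk0 : ∀ σ τ n, (∀ i < n, σ i = τ i) → σ n ≠ τ n → k σ n = node τ (n + 1) := by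
    intro σ τ n h1 h2
    refine node_eq.2 ⟨rfl, fun i hi => ?_⟩
    rcases (Nat.lt_succ_iff.1 hi).eq_or_lt with rfl | h
    · rw [Function.update_self]
      revert h2; cases σ i <;> cases τ i <;> simp
    · rw [Function.update_of_ne h.ne, h1 i h]
  have hk1 : ∀ σ n, k σ n ∉ range (node σ) := by
    rintro σ n ⟨m, hm⟩
    have := (node_eq.1 hm.symm).2 n (Nat.lt_succ_self n)
    simp at this
  have hk : ∀ σ, Tendsto (k σ) atTop brF := by
    intro σ
    refine tendsto_inf.2 ⟨?_, tendsto_iInf.2 fun τ => tendsto_principal.2 ?_⟩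
    · rw [← Nat.cofinite_eq_atTop]
      exact Function.Injective.tendsto_cofinite fun n m h => Nat.succ_injective (node_eq.1 h).1
    · by_cases hτ : σ = τ
      · exact Eventually.of_forall (hτ ▸ hk1 σ)
      · obtain ⟨m, hm⟩ := Function.ne_iff.1 hτ
        filter_upwards [eventually_gt_atTop m] with n hn
        rintro ⟨l, hl⟩
        have := (node_eq.1 hl.symm).2 m (by omega)
        rw [Function.update_of_ne hn.ne] at this
        exact hm this
  let q : List Bool → FS brF ⊕ Z := fun s => .inl (pt brF s)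
  have hq : Function.Injective q := Sum.inl_injective.comp pt_inj
  choose S h1 h2 h3 h4 using fun σ => h (insert (.inl (oo brF)) (range (q ∘ k σ)))
    (q '' range (node σ))ᶜ
    (((continuous_inl.tendsto _).comp (tendsto_pt.comp (hk σ))).isCompact_insert_range)
    (isOpen_sum_iff.2 ⟨isOpen_iff.2 fun _ => by
      have : (range (node σ))ᶜ ∈ brF := mem_inf_of_right (mem_iInf_of_mem σ (mem_principal_self _))
      exact mem_of_superset this fun s hs h => hs (hq.mem_set_image.1 h), by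
      convert isOpen_univ (X := Z)
      exact eq_univ_of_forall fun z ⟨_, _, h⟩ => Sum.inl_ne_inr h⟩) (by
      rintro _ (rfl | ⟨n, rfl⟩)
      · rintro ⟨s, -, h⟩
        exact pt_ne s (Sum.inl_injective h)
      · exact fun h => hk1 σ n (hq.mem_set_image.1 h))
  have hinj : Function.Injective S := by
    intro σ τ hS
    by_contra hne
    have hex := Function.ne_iff.1 hne
    have h5 := hk0 σ τ (Nat.find hex) (fun i hi => not_not.1 (Nat.find_min hex hi))
      (Nat.find_spec hex)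
    refine h4 τ (hS ▸ h3 σ (Or.inr ⟨Nat.find hex, rfl⟩)) ⟨_, ⟨Nat.find hex + 1, rfl⟩, ?_⟩
    rw [Function.comp_apply, h5]
  have : Uncountable (ℕ → Bool) := by
    rw [← Cardinal.aleph0_lt_mk_iff]; simp [Cardinal.aleph0_lt_continuum]
  exact not_countable_univ (((countable_ofPred_finite_subset hN).preimage_of_injOn
    hinj.injOn).mono fun σ _ => And.intro (h1 σ) (h2 σ))

abbrev G : Filter (List Bool × ℕ × ℕ) := blow brF Encodable.encode

lemma brF_le : brF ≤ cofinite := inf_le_left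

lemma ue : UE (ℕ × FS G) (FS brF ⊕ ℕ × FS G) :=
  swindle (by
    rw [← Nat.cofinite_eq_atTop]
    exact (Encodable.encode_injective (α := List Bool)).tendsto_cofinite.mono_left brF_le)

lemma fin_compact {K : Set (ℕ × FS G)} (hK : IsCompact K) : K.Finite :=
  ((hK.image continuous_fst).finite_of_discrete.prod
    (compact_finite Prod.fst (fib brF_le) (fun _ => sel) (hK.image continuous_snd))).subset
    subset_prod

instance : Countable (FS G) := inferInstanceAs (Countable (Option _))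

end Pool.Agent.H82.UAleph
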