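import Mathlib
import Pool.Agent.H82.BetaL
import Pool.Agent.H82.UAleph

set_option autoImplicit false

namespace Pool.Agent.H82.Fold

open Set Filter Topology Real Pool.Agent.H82.FS

noncomputable def fold (a : ℝ) (p : ℝ × ℝ) : ℝ × ℝ :=
  (max (-(a + exp (-p.2))) (min (a + exp (-p.2)) p.1), p.2 + max 0 (|p.1| - (a + exp (-p.2))))

noncomputable def unfold (a : ℝ) (p : ℝ × ℝ) : ℝ × ℝ :=
  (p.1 + max (-1) (min 1 p.1) * (p.2 + log (max (exp (-p.2)) (|p.1| - a))),
    -log (max (exp (-p.2)) (|p.1| - a)))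

lemma fold_id {a : ℝ} {p : ℝ × ℝ} (h : |p.1| ≤ a + exp (-p.2)) : fold a p = p := by
  rw [fold, min_eq_right (abs_le.1 h).2, max_eq_right (abs_le.1 h).1, max_eq_left (by linarith)]
  simp

lemma unfold_id {a : ℝ} {p : ℝ × ℝ} (h : |p.1| ≤ a + exp (-p.2)) : unfold a p = p := by
  rw [unfold, max_eq_left (b := |p.1| - a) (by linarith), log_exp]
  simp

lemma unfold_fold {a : ℝ} (ha : 1 ≤ a) (p : ℝ × ℝ) : unfold a (fold a p) = p := by
  rcases le_or_gt |p.1| (a + exp (-p.2)) with h | h
  · rw [fold_id h, unfold_id h]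
  obtain ⟨t, x⟩ := p
  have h0 := exp_pos (-x)
  have h1 : exp (-(x + (|t| - (a + exp (-x))))) ≤ exp (-x) := exp_le_exp.2 (by simp at h; linarith)
  simp only at h
  rcases le_or_gt 0 t with ht | ht
  · rw [abs_of_nonneg ht] at h h1
    simp only [fold, unfold, abs_of_nonneg ht]
    rw [min_eq_left h.le, max_eq_right (a := -(a + exp (-x))) (by linarith),
      max_eq_right (a := 0) (by linarith), abs_of_nonneg (by linarith), add_sub_cancel_left,
      max_eq_right h1, log_exp, min_eq_left (by linarith), max_eq_right (by linarith)]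
    simp
  · rw [abs_of_neg ht] at h h1
    simp only [fold, unfold, abs_of_neg ht]
    rw [min_eq_right (by linarith), max_eq_left (a := -(a + exp (-x))) (by linarith),
      max_eq_right (a := 0) (by linarith), abs_neg, abs_of_nonneg (by linarith),
      add_sub_cancel_left, max_eq_right h1, log_exp, min_eq_right (by linarith),
      max_eq_left (by linarith)]
    refine Prod.ext ?_ ?_ <;> simp only <;> ring

lemma fold_unfold {a : ℝ} (ha : 1 ≤ a) (p : ℝ × ℝ) : fold a (unfold a p) = p := by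
  rcases le_or_gt |p.1| (a + exp (-p.2)) with h | h
  · rw [unfold_id h, fold_id h]
  obtain ⟨s, v⟩ := p
  have h0 := exp_pos (-v)
  simp only at h
  have h1 : 0 ≤ v + log (|s| - a) := by
    have := log_le_log h0 (show exp (-v) ≤ |s| - a by linarith)
    rw [log_exp] at this
    linarith
  simp only [fold, unfold]
  rw [max_eq_right (a := exp (-v)) (by linarith), neg_neg, exp_log (by linarith), add_sub_cancel]
  rcases le_or_gt 0 s with hs | hs
  · rw [abs_of_nonneg hs] at *
    rw [min_eq_left (a := 1) (by linarith), max_eq_right (a := -1) (by linarith), one_mul,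
      min_eq_left (by linarith), max_eq_right (by linarith), abs_of_nonneg (by linarith),
      max_eq_right (by linarith)]
    simp
  · rw [abs_of_neg hs] at *
    rw [min_eq_right (a := 1) (by linarith), max_eq_left (a := -1) (by linarith),
      min_eq_right (by linarith), max_eq_left (by linarith), abs_of_neg (by linarith),
      max_eq_right (by linarith)]
    simp

lemma unfold_cont (a : ℝ) : Continuous (unfold a) := by
  have : Continuous fun p : ℝ × ℝ => log (max (exp (-p.2)) (|p.1| - a)) :=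
    Continuous.log (by fun_prop) fun p => ((exp_pos _).trans_le (le_max_left _ _)).ne'
  unfold unfold
  fun_prop

lemma fold_le {a : ℝ} (ha : 1 ≤ a) (p : ℝ × ℝ) :
    |(fold a p).1| ≤ |p.1| ∧ |(fold a p).1| ≤ a + exp (-p.2) := by
  have h0 := exp_pos (-p.2)
  have h1 := le_abs_self p.1
  have h2 := neg_abs_le p.1
  simp only [fold, abs_le, max_def, min_def]
  split_ifs <;> refine ⟨⟨?_, ?_⟩, ?_, ?_⟩ <;> linarith [abs_nonneg p.1]

lemma fold_small {a : ℝ} (ha : 1 ≤ a) {p : ℝ × ℝ} (h : |(fold a p).1| ≤ a) : fold a p = p := by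
  have h0 := exp_pos (-p.2)
  refine fold_id ?_
  simp only [fold, abs_le, max_def, min_def] at h ⊢
  split_ifs at h <;> constructor <;> linarith [h.1, h.2]

abbrev S : Type := ℝ × (ℕ → ℝ)

noncomputable def lift (φ : ℝ × ℝ → ℝ × ℝ) (j : ℕ) (p : S) : S :=
  ((φ (p.1, p.2 j)).1, Function.update p.2 j (φ (p.1, p.2 j)).2)

lemma lift_lift {φ ψ : ℝ × ℝ → ℝ × ℝ} (h : ∀ p, ψ (φ p) = p) (j : ℕ) (p : S) :
    lift ψ j (lift φ j p) = p := by
  simp [lift, h]

noncomputable def F : ℕ → S → S
  | 0 => id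
  | m + 1 => lift (fold (m + 1)) m ∘ F m

noncomputable def U : ℕ → S → S
  | 0 => id
  | m + 1 => U m ∘ lift (unfold (m + 1)) m

lemma one_le (m : ℕ) : (1 : ℝ) ≤ m + 1 := by linarith [Nat.cast_nonneg (α := ℝ) m]

lemma UF (m : ℕ) (p : S) : U m (F m p) = p := by
  induction m with
  | zero => rfl
  | succ m ih => simp only [F, U, Function.comp, lift_lift (unfold_fold (one_le m)), ih]

lemma FU (m : ℕ) (p : S) : F m (U m p) = p := by
  induction m generalizing p with
  | zero => rfl
  | succ m ih => simp only [F, U, Function.comp, ih, lift_lift (fold_unfold (one_le m))]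

lemma U_cont (m : ℕ) : Continuous (U m) := by
  induction m with
  | zero => exact continuous_id
  | succ m ih =>
    have : Continuous fun p : S => unfold (m + 1) (p.1, p.2 m) :=
      (unfold_cont (m + 1)).comp (by fun_prop)
    exact ih.comp (this.fst.prodMk (continuous_snd.update m this.snd))

lemma F_ge {m j : ℕ} (h : m ≤ j) (p : S) : (F m p).2 j = p.2 j := by
  induction m with
  | zero => rfl
  | succ m ih =>
    simp only [F, Function.comp, lift]
    rw [Function.update_of_ne (by omega), ih (by omega)]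

lemma F_le {m j : ℕ} (h : j < m) (p : S) : |(F m p).1| ≤ j + 1 + exp (-p.2 j) := by
  induction m with
  | zero => omega
  | succ m ih =>
    have := fold_le (one_le m) ((F m p).1, (F m p).2 m)
    rcases (Nat.lt_succ_iff.1 h).eq_or_lt with rfl | h
    · rw [← F_ge le_rfl p]
      exact this.2
    · exact this.1.trans (ih h)

lemma F_eq {m j : ℕ} {p : S} (h : |(F m p).1| ≤ j + 1) : (F m p).2 j = p.2 j := by
  induction m with
  | zero => rfl
  | succ m ih =>
    rcases le_or_gt (m + 1) j with h1 | h1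
    · exact F_ge h1 p
    have h2 : (j : ℝ) ≤ m := by exact_mod_cast Nat.lt_succ_iff.1 h1
    have h3 := fold_small (one_le m) (p := ((F m p).1, (F m p).2 m)) (h.trans (by linarith))
    have h4 : F (m + 1) p = F m p := by simp [F, lift, h3]
    rw [h4] at h ⊢
    exact ih h

abbrev G : Filter (ℕ × ℕ) := comap Prod.fst atTop

lemma G_le : G ≤ cofinite := by
  rw [le_cofinite_iff_compl_singleton_mem]
  exact fun s => mem_of_superset (preimage_mem_comap (eventually_ne_atTop s.1))
    fun t ht h => ht (by rw [h])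

lemma F_ev {p : ℕ → S} {C : ℝ} (h : ∀ n, |(F n (p n)).1| ≤ C) :
    (fun s : ℕ × ℕ => (F s.2 (p s.2)).2 s.1) =ᶠ[G] fun s => (p s.2).2 s.1 := by
  filter_upwards [preimage_mem_comap (tendsto_natCast_atTop_atTop.eventually_ge_atTop C)] with s hs
  exact F_eq ((h _).trans (le_add_of_le_of_nonneg hs zero_le_one))

lemma F_bdd {p : ℕ → S} (h : Tendsto (fun s : ℕ × ℕ => (p s.2).2 s.1) G (𝓝 0)) :
    ∃ C, ∀ n, |(F n (p n)).1| ≤ C := by
  obtain ⟨j, hj⟩ := (eventually_comap.1 (h.eventually (lt_mem_nhds (neg_lt_zero.2 one_pos)))).exists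
  obtain ⟨C, hC⟩ := ((finite_Iic j).image fun n => |(F n (p n)).1|).bddAbove
  refine ⟨max C (j + 1 + exp 1), fun n => ?_⟩
  rcases le_or_gt n j with h1 | h1
  · exact le_max_of_le_left (hC ⟨n, h1, rfl⟩)
  · refine le_max_of_le_right ((F_le h1 _).trans (add_le_add_right (exp_le_exp.2 ?_) _))
    linarith [hj (j, n) rfl]

abbrev Cp (X : Type) [TopologicalSpace X] : Type := {f : X → ℝ // Continuous f}

def Cond (X Y : Type) [TopologicalSpace X] [TopologicalSpace Y] : Prop :=
  ∃ φ : Cp X → Cp Y, Continuous φ ∧ Function.Bijective φ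

section
variable {X Y Z W : Type} [TopologicalSpace X] [TopologicalSpace Y] [TopologicalSpace Z]
  [TopologicalSpace W]

lemma ev (x : X) : Continuous fun f : Cp X => f.1 x :=
  (continuous_apply x).comp continuous_subtype_val

lemma Cond.refl : Cond X X := ⟨id, continuous_id, Function.bijective_id⟩

lemma Cond.trans (h : Cond X Y) (h' : Cond Y Z) : Cond X Z :=
  let ⟨φ, h1, h2⟩ := h; let ⟨ψ, h3, h4⟩ := h'; ⟨ψ ∘ φ, h3.comp h1, h4.comp h2⟩

def pull {i : Y → X} (hi : Continuous i) (f : Cp X) : Cp Y := ⟨f.1 ∘ i, f.2.comp hi⟩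

lemma pull_cont {i : Y → X} (hi : Continuous i) : Continuous (pull hi) :=
  Continuous.subtype_mk (continuous_pi fun y => ev (i y)) _

lemma Cond.of_dense {i : Y → X} (hi : Continuous i) (hd : DenseRange i)
    (he : ∀ g : Cp Y, ∃ f : Cp X, f.1 ∘ i = g.1) : Cond X Y :=
  ⟨pull hi, pull_cont hi, fun f g h => Subtype.ext (hd.equalizer f.2 g.2 (congrArg Subtype.val h)),
    fun g => let ⟨f, h⟩ := he g; ⟨f, Subtype.ext h⟩⟩

lemma Cond.of_homeo (e : Y ≃ₜ X) : Cond X Y :=
  .of_dense e.continuous e.surjective.denseRange fun g =>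
    ⟨pull e.symm.continuous g, funext fun y => by simp [pull]⟩

lemma Cond.sum (h : Cond X Y) (h' : Cond Z W) : Cond (X ⊕ Z) (Y ⊕ W) := by
  obtain ⟨φ, h1, h2⟩ := h
  obtain ⟨ψ, h3, h4⟩ := h'
  refine ⟨fun f => ⟨Sum.elim (φ (pull continuous_inl f)).1 (ψ (pull continuous_inr f)).1,
    Continuous.sumElim (Subtype.prop _) (Subtype.prop _)⟩,
    Continuous.subtype_mk (continuous_pi ?_) _, fun f g h => Subtype.ext (funext ?_), fun g => ?_⟩
  · rintro (y | w)
    · exact (ev y).comp (h1.comp (pull_cont _))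
    · exact (ev w).comp (h3.comp (pull_cont _))
  · have h5 := congrFun (congrArg Subtype.val h)
    rintro (x | z)
    · exact congrFun (congrArg Subtype.val (h2.1 (Subtype.ext (funext fun y => h5 (.inl y))))) x
    · exact congrFun (congrArg Subtype.val (h4.1 (Subtype.ext (funext fun y => h5 (.inr y))))) z
  · obtain ⟨a, ha⟩ := h2.2 (pull continuous_inl g)
    obtain ⟨b, hb⟩ := h4.2 (pull continuous_inr g)
    refine ⟨⟨Sum.elim a.1 b.1, a.2.sumElim b.2⟩, Subtype.ext (funext ?_)⟩
    rintro (y | w)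
    · exact congrFun (congrArg Subtype.val ha) y
    · exact congrFun (congrArg Subtype.val hb) w

lemma Cond.hotel : Cond (ℕ × X) (X ⊕ ℕ × X) := by
  refine .of_dense (i := Sum.elim (fun x => (0, x)) fun p => (p.1 + 1, p.2))
    (Continuous.sumElim (by fun_prop) (by fun_prop)) (Function.Surjective.denseRange ?_) fun g =>
    ⟨⟨fun p => Nat.casesOn p.1 (g.1 (.inl p.2)) fun n => g.1 (.inr (n, p.2)), ?_⟩, ?_⟩
  · rintro ⟨_ | n, x⟩
    · exact ⟨.inl x, rfl⟩
    · exact ⟨.inr (n, x), rfl⟩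
  · refine UAleph.cont_prod.2 ?_
    rintro (_ | n)
    · exact g.2.comp continuous_inl
    · exact g.2.comp (continuous_inr.comp (Continuous.prodMk_right n))
  · ext (x | p) <;> rfl

end

abbrev B : Type := Ultrafilter ℕ

abbrev Y0 : Type := {q : B // q ≠ hyperfilter ℕ}

def pu (n : ℕ) : Y0 := ⟨pure n, fun h =>
  (finite_singleton n).notMem_hyperfilter (h ▸ Ultrafilter.mem_pure.2 rfl)⟩

lemma two {φ : ℕ → ℕ} (h : Function.Injective φ) :
    ∃ q : Y0, (q.1 : Filter ℕ) ≤ map φ atTop := by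
  have h1 : ∀ i, ((hyperfilter ℕ).map fun k => φ (2 * k + i) : B) ≤ map φ atTop := fun i =>
    Tendsto.comp (g := φ) tendsto_map ((tendsto_atTop_mono (fun k => by simp only [id]; omega)
      tendsto_id).mono_left Nat.hyperfilter_le_atTop)
  by_contra h2
  have h3 : ∀ i, ((hyperfilter ℕ).map fun k => φ (2 * k + i) : B) = hyperfilter ℕ := fun i =>
    by_contra fun h3 => h2 ⟨⟨_, h3⟩, h1 i⟩
  have h4 : ∀ i, range (fun k => φ (2 * k + i)) ∈ hyperfilter ℕ := fun i =>
    h3 i ▸ range_mem_map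
  obtain ⟨_, ⟨k, rfl⟩, l, hl⟩ := Ultrafilter.nonempty_of_mem (inter_mem (h4 0) (h4 1))
  have := h hl
  omega

lemma pu_tendsto (q : Y0) : Tendsto pu q.1 (𝓝 q) :=
  tendsto_subtype_rng.2 q.1.tendsto_pure_self

lemma pu_dense : DenseRange pu := fun q =>
  mem_closure_of_tendsto (pu_tendsto q) (Eventually.of_forall fun n => ⟨n, rfl⟩)

lemma bdd (h : Cp Y0) : ∃ C, ∀ n, |h.1 (pu n)| ≤ C := by
  by_contra h1
  obtain ⟨φ, h2, h3⟩ := extraction_forall_of_frequently
    (P := fun k n => (k : ℝ) ≤ |h.1 (pu n)|) fun k => frequently_atTop.2 fun a => by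
      by_contra h4
      obtain ⟨C, hC⟩ := ((finite_Iic a).image fun n => |h.1 (pu n)|).bddAbove
      refine h1 ⟨max C k, fun n => ?_⟩
      rcases le_total n a with h5 | h5
      · exact le_max_of_le_left (hC ⟨n, h5, rfl⟩)
      · exact le_max_of_le_right (le_of_not_ge fun h6 => h4 ⟨n, h5, h6⟩)
  obtain ⟨q, hq⟩ := two h2.injective
  exact not_tendsto_atTop_of_tendsto_nhds ((h.2.tendsto q).comp (pu_tendsto q)).abs
    (Tendsto.mono_left (f := fun n => |h.1 (pu n)|)
      (tendsto_map' (tendsto_atTop_mono h3 tendsto_natCast_atTop_atTop)) hq)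

lemma ext_bdd {b : ℕ → ℝ} {C : ℝ} (h : ∀ n, |b n| ≤ C) : ∃ f : Cp Y0, ∀ n, f.1 (pu n) = b n :=
  let ⟨f, hf⟩ := BetaL.exists_ext h; ⟨⟨fun q => f q.1, f.continuous.comp continuous_subtype_val⟩, hf⟩

lemma cond_B : Cond B Y0 := by
  refine .of_dense continuous_subtype_val (denseRange_pure.mono ?_) fun g => ?_
  · rintro _ ⟨n, rfl⟩
    exact ⟨pu n, rfl⟩
  · obtain ⟨C, hC⟩ := bdd g
    obtain ⟨f, hf⟩ := BetaL.exists_ext hC
    exact ⟨⟨f, f.continuous⟩, pu_dense.equalizer (f.continuous.comp continuous_subtype_val) g.2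
      (funext hf)⟩

lemma not_sigma : ¬ SigmaCompactSpace Y0 := by
  intro _
  have : ∀ m, ∃ A ∈ hyperfilter ℕ, ∀ q ∈ compactCovering Y0 m, A ∉ q.1 := fun m => by
    obtain ⟨_, ⟨A, rfl⟩, h1, h2⟩ := (ultrafilterBasis_is_basis (α := ℕ)).exists_subset_of_mem_open
      (a := hyperfilter ℕ) (u := (Subtype.val '' compactCovering Y0 m)ᶜ)
      (fun ⟨q, _, h⟩ => q.2 h)
      ((isCompact_compactCovering Y0 m).image continuous_subtype_val).isClosed.isOpen_compl
    exact ⟨A, h1, fun q hq h => h2 h ⟨q, hq, rfl⟩⟩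
  choose A h1 h2 using this
  obtain ⟨φ, h3, h4⟩ := extraction_forall_of_frequently (P := fun k n => ∀ i ≤ k, n ∈ A i)
    fun k => (Eventually.frequently ((biInter_mem (finite_Iic k)).2 fun i _ => h1 i)
      |>.filter_mono Nat.hyperfilter_le_atTop).mono fun n hn i hi => mem_iInter₂.1 hn i hi
  obtain ⟨q, hq⟩ := two h3.injective
  obtain ⟨m, hm⟩ := exists_mem_compactCovering q
  exact h2 m q hm (hq ((eventually_ge_atTop m).mono fun k hk => h4 k m hk))

abbrev Z : Type := FS G

def col (p : ℕ → S) (s : ℕ × ℕ) : ℝ := Nat.casesOn s.1 (p s.2).1 (p s.2).2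

lemma col_iff {p : ℕ → S} :
    Tendsto (col p) G (𝓝 0) ↔ Tendsto (fun s : ℕ × ℕ => (p s.2).2 s.1) G (𝓝 0) := by
  constructor
  · exact fun h => h.comp (f := fun s : ℕ × ℕ => (s.1 + 1, s.2))
      (tendsto_comap_iff.2 ((tendsto_add_atTop_nat 1).comp tendsto_comap))
  · intro h
    refine (h.comp (f := fun s : ℕ × ℕ => (s.1 - 1, s.2))
      (tendsto_comap_iff.2 ((tendsto_sub_atTop_nat 1).comp tendsto_comap))).congr' ?_
    filter_upwards [preimage_mem_comap (eventually_ge_atTop 1)]
    rintro ⟨_ | j, n⟩ hs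
    · simp at hs
    · rfl

def src (f : Z ⊕ Y0 → ℝ) (n : ℕ) : S :=
  (f (.inr (pu n)), fun j => f (.inl (pt G (j, n))) - f (.inl (oo G)))

noncomputable def Φ (f : Z ⊕ Y0 → ℝ) (z : Z) : ℝ :=
  Option.elim z 0 (col fun n => U n (src f n)) + f (.inl (oo G))

lemma Φ_cont {f : Z ⊕ Y0 → ℝ} (hf : Continuous f) : Continuous (Φ f) := by
  refine cont_iff.2 (Tendsto.add_const _ ((col_iff (p := fun n => U n (src f n))).2 ?_))
  obtain ⟨C, hC⟩ := bdd ⟨_, hf.comp continuous_inr⟩
  refine Tendsto.congr' (F_ev (p := fun n => U n (src f n)) (C := C) (by simpa [FU, src] using hC)) ?_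
  have := (cont_iff.1 (hf.comp continuous_inl)).sub_const (f (.inl (oo G)))
  simpa [FU, src] using this

theorem core : Cond (Z ⊕ Y0) Z := by
  refine ⟨fun f => ⟨Φ f.1, Φ_cont f.2⟩, Continuous.subtype_mk (continuous_pi fun z => ?_) _,
    fun f g h => Subtype.ext (funext ?_), fun k => ?_⟩
  · refine Continuous.add ?_ (ev _)
    have hs : ∀ n, Continuous fun f : Cp (Z ⊕ Y0) => U n (src f.1 n) := fun n =>
      (U_cont n).comp ((ev _).prodMk (continuous_pi fun j => (ev _).sub (ev _)))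
    rcases z with _ | ⟨_ | j, n⟩
    · exact continuous_const
    · exact (hs n).fst
    · exact (continuous_apply j).comp (hs n).snd
  · have h1 := congrFun (congrArg Subtype.val h)
    have h2 : f.1 (.inl (oo G)) = g.1 (.inl (oo G)) := by simpa [Φ, oo] using h1 none
    have h3 : ∀ n, src f.1 n = src g.1 n := fun n => by
      rw [← FU n (src f.1 n), ← FU n (src g.1 n)]
      congr 1
      refine Prod.ext ?_ (funext fun j => ?_)
      · simpa [Φ, h2, col] using h1 (some (0, n))
      · simpa [Φ, h2, col] using h1 (some (j + 1, n))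
    rintro ((_ | ⟨j, n⟩) | y)
    · exact h2
    · have := congrFun (congrArg Prod.snd (h3 n)) j
      simp only [src, h2, sub_left_inj] at this
      exact this
    · exact congrFun (pu_dense.equalizer (f.2.comp continuous_inr) (g.2.comp continuous_inr)
        (funext fun n => congrArg Prod.fst (h3 n))) y
  · let p : ℕ → S := fun n =>
      (k.1 (pt G (0, n)) - k.1 (oo G), fun j => k.1 (pt G (j + 1, n)) - k.1 (oo G))
    have hp : col p = fun s => k.1 (pt G s) - k.1 (oo G) := by
      ext ⟨_ | j, n⟩ <;> rfl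
    have h1 := col_iff.1 (show Tendsto (col p) G (𝓝 0) by
      rw [hp, ← sub_self (k.1 (oo G))]
      exact (cont_iff.1 k.2).sub_const _)
    obtain ⟨C, hC⟩ := F_bdd h1
    obtain ⟨h, hh⟩ := ext_bdd hC
    let g : Z → ℝ := fun z => Option.elim z 0 (fun s => (F s.2 (p s.2)).2 s.1) + k.1 (oo G)
    have hg : Continuous g := cont_iff.2 (Tendsto.add_const _ (h1.congr' (F_ev hC).symm))
    refine ⟨⟨Sum.elim g h.1, hg.sumElim h.2⟩, Subtype.ext (funext fun z => ?_)⟩
    have h2 : ∀ n, src (Sum.elim g h.1) n = F n (p n) := fun n =>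
      Prod.ext (hh n) (funext fun j => (add_sub_add_right_eq_sub _ _ _).trans (sub_zero _))
    have h3 : Sum.elim g h.1 (.inl (oo G)) = k.1 (oo G) := zero_add _
    simp only [Φ, h2, UF, hp, h3]
    rcases z with _ | s
    · exact zero_add _
    · exact sub_add_cancel _ _

end Pool.Agent.H82.Fold
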