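import Mathlib

/-! The Sierpinski gasket: connected, locally connected, rational points meet every
nondegenerate connected subset, and no other point is a local cut point. -/

set_option autoImplicit false

namespace Pool.Agent.H82.GasA

open Set Metric Topology Filter

abbrev P := ℝ × ℝ

def e : Fin 3 → P := ![(0, 0), (1, 0), (0, 1)]

noncomputable def f (i : Fin 3) : P ≃ₜ P where
  toFun p := ((p.1 + (e i).1) / 2, (p.2 + (e i).2) / 2)
  invFun p := (2 * p.1 - (e i).1, 2 * p.2 - (e i).2)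
  left_inv p := by ext <;> simp only <;> ring
  right_inv p := by ext <;> simp only <;> ring
  continuous_toFun := by fun_prop
  continuous_invFun := by fun_prop

theorem f_app (i : Fin 3) (p : P) : f i p = ((p.1 + (e i).1) / 2, (p.2 + (e i).2) / 2) := rfl

def T : Set P := {p | 0 ≤ p.1 ∧ 0 ≤ p.2 ∧ p.1 + p.2 ≤ 1}

/-- the gasket -/
def G : Set P := ⋃₀ {A | A ⊆ T ∧ A ⊆ ⋃ i, f i '' A}

def M : Set P := {p | ¬ Irrational p.1 ∧ ¬ Irrational p.2}

theorem M_count : M.Countable :=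
  ((countable_range ((↑) : ℚ → ℝ)).prod (countable_range ((↑) : ℚ → ℝ))).mono
    fun _ h => And.intro (not_not.1 h.1) (not_not.1 h.2)

theorem f_dist (i : Fin 3) (p q : P) : dist (f i p) (f i q) = dist p q / 2 := by
  simp only [f_app, Prod.dist_eq, Real.dist_eq]
  rw [← max_div_div_right (by norm_num : (0:ℝ) ≤ 2)]
  congr 1
  · rw [show (p.1 + (e i).1) / 2 - (q.1 + (e i).1) / 2 = (p.1 - q.1) / 2 by ring, abs_div,
      abs_two]
  · rw [show (p.2 + (e i).2) / 2 - (q.2 + (e i).2) / 2 = (p.2 - q.2) / 2 by ring, abs_div,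
      abs_two]

theorem f_T (i : Fin 3) {p : P} (h : p ∈ T) : f i p ∈ T := by
  obtain ⟨h1, h2, h3⟩ := h
  fin_cases i <;> simp [T, f_app, e] <;> refine ⟨?_, ?_, ?_⟩ <;> linarith

theorem T_diam {p q : P} (hp : p ∈ T) (hq : q ∈ T) : dist p q ≤ 1 := by
  obtain ⟨h1, h2, h3⟩ := hp
  obtain ⟨k1, k2, k3⟩ := hq
  simp only [Prod.dist_eq, Real.dist_eq, max_le_iff, abs_le]
  refine ⟨⟨?_, ?_⟩, ?_, ?_⟩ <;> linarith

theorem T_compact : IsCompact T :=
  (isCompact_Icc (a := ((0:ℝ), (0:ℝ))) (b := (1, 1))).of_isClosed_subset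
    (IsClosed.and (isClosed_le continuous_const continuous_fst) (IsClosed.and
      (isClosed_le continuous_const continuous_snd)
      (isClosed_le (continuous_fst.add continuous_snd) continuous_const)))
    fun p h => ⟨⟨h.1, h.2.1⟩, ⟨show p.1 ≤ 1 by linarith [h.2.1, h.2.2],
      show p.2 ≤ 1 by linarith [h.1, h.2.2]⟩⟩

theorem G_T : G ⊆ T := sUnion_subset fun _ h => h.1

theorem G_sub : G ⊆ ⋃ i, f i '' G := sUnion_subset fun _ h =>
  h.2.trans (iUnion_mono fun _ => image_mono (subset_sUnion_of_mem h))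

theorem f_G (i : Fin 3) {p : P} (h : p ∈ G) : f i p ∈ G :=
  ⟨⋃ i, f i '' G, ⟨iUnion_subset fun j => image_subset_iff.2 fun _ h => f_T j (G_T h),
    iUnion_mono fun _ => image_mono G_sub⟩, mem_iUnion.2 ⟨i, p, h, rfl⟩⟩

theorem G_eq : G = ⋃ i, f i '' G :=
  G_sub.antisymm (iUnion_subset fun i => image_subset_iff.2 fun _ h => f_G i h)

theorem G_closed : IsClosed G := by
  refine isClosed_of_closure_subset (subset_sUnion_of_mem (S := {A | A ⊆ T ∧ A ⊆ ⋃ i, f i '' A})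
    ⟨closure_minimal G_T T_compact.isClosed, closure_minimal (G_sub.trans (iUnion_mono fun _ =>
      image_mono subset_closure)) (isClosed_iUnion_of_finite fun i =>
        (f i).isClosedMap _ isClosed_closure)⟩)

theorem G_compact : IsCompact G := T_compact.of_isClosed_subset G_closed G_T

theorem f_e (i j : Fin 3) : f i (e j) = f j (e i) := by
  simp only [f_app, add_comm]

theorem f_ee (i : Fin 3) : f i (e i) = e i := by
  simp [f_app]

theorem e_G (i : Fin 3) : e i ∈ G :=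
  ⟨{e i}, ⟨singleton_subset_iff.2 (by fin_cases i <;> simp [T, e]),
    singleton_subset_iff.2 (mem_iUnion.2 ⟨i, e i, rfl, f_ee i⟩)⟩, rfl⟩

theorem f_M (i : Fin 3) {p : P} (h : p ∈ M) : f i p ∈ M := by
  obtain ⟨⟨a, ha⟩, b, hb⟩ := And.intro (not_not.1 h.1) (not_not.1 h.2)
  have : ∃ c d : ℚ, e i = ((c:ℝ), (d:ℝ)) := by
    fin_cases i
    exacts [⟨0, 0, by simp [e]⟩, ⟨1, 0, by simp [e]⟩, ⟨0, 1, by simp [e]⟩]
  obtain ⟨c, d, k⟩ := this
  refine ⟨not_not.2 ⟨(a + c) / 2, ?_⟩, not_not.2 ⟨(b + d) / 2, ?_⟩⟩ <;>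
    simp [f_app, k, ha, hb]

theorem meet {i j : Fin 3} (h : i ≠ j) {x : P} (hi : x ∈ f i '' G) (hj : x ∈ f j '' G) :
    x ∈ M := by
  obtain ⟨p, hp, rfl⟩ := hi
  obtain ⟨q, hq, k⟩ := hj
  obtain ⟨h1, h2, h3⟩ := G_T hp
  obtain ⟨k1, k2, k3⟩ := G_T hq
  have : p = e j := by
    simp only [f_app, Prod.mk.injEq] at k
    obtain ⟨l1, l2⟩ := k
    fin_cases i <;> fin_cases j <;> simp [e] at h l1 l2 ⊢ <;> ext <;> simp only <;> linarith
  refine f_M i (this ▸ ?_)
  fin_cases j <;> simp [M, e]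

theorem G_conn : IsPreconnected G := by
  have key : ∀ n : ℕ, ∀ c : P → Prop, (∀ p ∈ G, ∀ q ∈ G, dist p q ≤ (1 / 2) ^ n → c p → c q) →
      ∀ p ∈ G, ∀ q ∈ G, c p → c q := by
    intro n
    induction n with
    | zero => exact fun c h p hp q hq => h p hp q hq (by simpa using T_diam (G_T hp) (G_T hq))
    | succ n ih =>
      intro c h p hp q hq hc
      have k := fun i => ih (fun p => c (f i p)) fun p hp q hq hd =>
        h _ (f_G i hp) _ (f_G i hq) (by rw [f_dist, pow_succ]; linarith)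
      obtain ⟨i, p', hp', rfl⟩ := mem_iUnion.1 (G_sub hp)
      obtain ⟨j, q', hq', rfl⟩ := mem_iUnion.1 (G_sub hq)
      exact k j _ (e_G i) _ hq' (f_e i j ▸ k i _ hp' _ (e_G j) hc)
  refine isPreconnected_iff_subset_of_disjoint_closed.2 fun u v hu hv hc hd => ?_
  obtain ⟨δ, hδ, h⟩ := lebesgue_number_lemma_of_metric (c := fun b : Bool => if b then uᶜ else vᶜ)
    G_compact (fun b => by cases b <;> simp [hu, hv]) fun p hp => by
      by_cases k : p ∈ u
      · exact mem_iUnion.2 ⟨false, fun k' => (hd ▸ ⟨hp, k, k'⟩ : p ∈ (∅ : Set P))⟩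
      · exact mem_iUnion.2 ⟨true, k⟩
  obtain ⟨n, hn⟩ := exists_pow_lt_of_lt_one hδ (by norm_num : (1 / 2 : ℝ) < 1)
  by_contra hn'
  push Not at hn'
  obtain ⟨p, hp, h1⟩ := not_subset.1 hn'.1
  obtain ⟨q, hq, h2⟩ := not_subset.1 hn'.2
  refine h1 (key n (· ∈ u) (fun p hp q hq hd hu' => ?_) q hq p hp ((hc hq).resolve_right h2))
  obtain ⟨b, hb⟩ := h p hp
  cases b
  · exact (hc hq).resolve_right (hb (mem_ball'.2 (hd.trans_lt hn)))
  · exact (hb (mem_ball_self hδ) hu').elim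

theorem cell_conn (i : Fin 3) : IsPreconnected (f i '' G) := G_conn.image _ (f i).continuous.continuousOn

/-- the rational points meet every nondegenerate connected subset -/
theorem tot {K : Set P} (hK : IsPreconnected K) (hG : K ⊆ G \ M) : K.Subsingleton := by
  have key : ∀ n : ℕ, ∀ K : Set P, IsPreconnected K → K ⊆ G \ M → ∀ x ∈ K, ∀ y ∈ K,
      dist x y ≤ (1 / 2) ^ n := by
    intro n
    induction n with
    | zero => exact fun K _ h x hx y hy => by simpa using T_diam (G_T (h hx).1) (G_T (h hy).1)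
    | succ n ih =>
      intro K hK hG x hx y hy
      obtain ⟨i, hi⟩ := mem_iUnion.1 (G_sub (hG hx).1)
      have h1 : K ⊆ f i '' G := by
        refine (isPreconnected_iff_subset_of_disjoint_closed.1 hK _ (⋃ j ∈ {j | j ≠ i}, f j '' G)
          ((f i).isClosedMap _ G_closed) ((toFinite _).isClosed_biUnion fun j _ =>
            (f j).isClosedMap _ G_closed) (fun z hz => ?_) (eq_empty_of_forall_notMem
            fun z hz => ?_)).resolve_right fun h => ?_
        · obtain ⟨j, hj⟩ := mem_iUnion.1 (G_sub (hG hz).1)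
          by_cases k : j = i
          exacts [Or.inl (k ▸ hj), Or.inr (mem_iUnion₂.2 ⟨j, k, hj⟩)]
        · obtain ⟨j, k, hj⟩ := mem_iUnion₂.1 hz.2.2
          exact (hG hz.1).2 (meet k hj hz.2.1)
        · obtain ⟨j, k, hj⟩ := mem_iUnion₂.1 (h hx)
          exact (hG hx).2 (meet k hj hi)
      obtain ⟨x', -, rfl⟩ := hi
      obtain ⟨y', -, rfl⟩ := h1 hy
      have := ih (f i ⁻¹' K) ((f i).isPreconnected_preimage.2 hK) (fun z hz => by
        obtain ⟨w, hw, k⟩ := h1 hz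
        exact ⟨(f i).injective k ▸ hw, fun h => (hG hz).2 (f_M i h)⟩) x' hx y' hy
      rw [f_dist, pow_succ]; linarith
  intro x hx y hy
  by_contra hn
  obtain ⟨n, h⟩ := exists_pow_lt_of_lt_one (dist_pos.2 hn) (by norm_num : (1 / 2 : ℝ) < 1)
  exact absurd (key n K hK hG x hx y hy) (not_le.2 h)

/-- a point that is not rational does not cut the gasket -/
theorem one_pt {a : P} (ha : a ∈ G \ M) : IsPreconnected (G \ {a}) := by
  have key : ∀ n : ℕ, ∀ a ∈ G \ M, ∃ D ⊆ G \ {a}, IsPreconnected D ∧ (∃ i, ∀ j ≠ i, e j ∈ D) ∧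
      ∀ x ∈ G, (1 / 2) ^ n < dist x a → x ∈ D := by
    have base : ∀ i, ∀ a ∈ f i '' G, a ∉ M → (⋃ j ∈ {j | j ≠ i}, f j '' G) ⊆ G \ {a} ∧
        IsPreconnected (⋃ j ∈ {j | j ≠ i}, f j '' G) ∧
        ∀ j ≠ i, e j ∈ ⋃ j ∈ {j | j ≠ i}, f j '' G := fun i a ha hM => by
      refine ⟨fun z hz => ?_, isPreconnected_of_forall_pair fun x hx y hy => ?_,
        fun j hj => mem_iUnion₂.2 ⟨j, hj, e j, e_G j, f_ee j⟩⟩
      · obtain ⟨j, k, hj⟩ := mem_iUnion₂.1 hz
        exact ⟨G_eq ▸ mem_iUnion.2 ⟨j, hj⟩, fun h => hM (meet k (h ▸ hj) ha)⟩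
      · obtain ⟨j, k, hj⟩ := mem_iUnion₂.1 hx
        obtain ⟨l, k', hl⟩ := mem_iUnion₂.1 hy
        exact ⟨f j '' G ∪ f l '' G, union_subset (subset_biUnion_of_mem (u := fun j => f j '' G) k)
          (subset_biUnion_of_mem (u := fun j => f j '' G) k'), Or.inl hj, Or.inr hl,
          (cell_conn j).union (f j (e l)) ⟨_, e_G l, rfl⟩ ⟨_, e_G j, f_e l j⟩ (cell_conn l)⟩
    intro n
    induction n with
    | zero =>
      intro a ha
      obtain ⟨i, hi⟩ := mem_iUnion.1 (G_sub ha.1)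
      obtain ⟨h1, h2, h3⟩ := base i a hi ha.2
      exact ⟨_, h1, h2, ⟨i, h3⟩, fun x hx h => absurd (T_diam (G_T hx) (G_T ha.1))
        (not_le.2 (by simpa using h))⟩
    | succ n ih =>
      intro a ha
      obtain ⟨i, hi⟩ := mem_iUnion.1 (G_sub ha.1)
      obtain ⟨h1, h2, h3⟩ := base i a hi ha.2
      obtain ⟨b, hb, rfl⟩ := hi
      obtain ⟨D, k1, k2, ⟨l, k3⟩, k4⟩ := ih b ⟨hb, fun h => ha.2 (f_M i h)⟩
      obtain ⟨j, j1, j2⟩ := (by decide : ∀ i l : Fin 3, ∃ j, j ≠ i ∧ j ≠ l) i l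
      refine ⟨_ ∪ f i '' D, union_subset h1 (image_subset_iff.2 fun z hz => ⟨f_G i (k1 hz).1,
        fun h => (k1 hz).2 ((f i).injective h)⟩), h2.union (f i (e j))
        (mem_iUnion₂.2 ⟨j, j1, _, e_G i, f_e j i⟩) ⟨_, k3 j j2, rfl⟩
        (k2.image _ (f i).continuous.continuousOn), ⟨i, fun j hj => Or.inl (h3 j hj)⟩,
        fun x hx h => ?_⟩
      obtain ⟨m, y, hy, rfl⟩ := mem_iUnion.1 (G_sub hx)
      by_cases hm : m = i
      · subst hm
        refine Or.inr ⟨y, k4 y hy ?_, rfl⟩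
        rw [f_dist, pow_succ] at h; linarith
      · exact Or.inl (mem_iUnion₂.2 ⟨m, hm, y, hy, rfl⟩)
  refine isPreconnected_of_forall_pair fun x hx y hy => ?_
  obtain ⟨n, h⟩ := exists_pow_lt_of_lt_one (lt_min (dist_pos.2 hx.2) (dist_pos.2 hy.2))
    (by norm_num : (1 / 2 : ℝ) < 1)
  obtain ⟨D, h1, h2, -, h3⟩ := key n a ha
  exact ⟨D, h1, h3 x hx.1 (lt_min_iff.1 h).1, h3 y hy.1 (lt_min_iff.1 h).2, h2⟩

theorem nb (n : ℕ) : ∀ x ∈ G, ∃ N ⊆ G, IsPreconnected N ∧ x ∈ N ∧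
    (∀ y ∈ N, dist y x ≤ (1 / 2) ^ n) ∧ N ∈ 𝓝[G] x ∧ (x ∉ M → IsPreconnected (N \ {x})) := by
  induction n with
  | zero => exact fun x hx => ⟨G, subset_rfl, G_conn, hx, fun y hy => by
      simpa using T_diam (G_T hy) (G_T hx), self_mem_nhdsWithin, fun h => one_pt ⟨hx, h⟩⟩
  | succ n ih =>
    intro x hx
    have h : ∀ i, ∃ N ⊆ G, IsPreconnected N ∧ (N.Nonempty → x ∈ f i '' G) ∧
        (x ∈ f i '' G → x ∈ N) ∧ (∀ y ∈ N, dist y x ≤ (1 / 2) ^ (n + 1)) ∧ N ∈ 𝓝[f i '' G] x ∧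
        (x ∉ M → IsPreconnected (N \ {x})) := fun i => by
      by_cases hi : x ∈ f i '' G
      · obtain ⟨b, hb, rfl⟩ := hi
        obtain ⟨N, h1, h2, h3, h4, h5, h6⟩ := ih b hb
        refine ⟨f i '' N, image_subset_iff.2 fun z hz => f_G i (h1 hz),
          h2.image _ (f i).continuous.continuousOn, fun _ => ⟨b, hb, rfl⟩, fun _ => ⟨b, h3, rfl⟩,
          ?_, ?_, fun hM => ?_⟩
        · rintro _ ⟨z, hz, rfl⟩
          rw [f_dist, pow_succ]; linarith [h4 z hz]
        · rw [← (f i).isEmbedding.map_nhdsWithin_eq]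
          exact image_mem_map h5
        · rw [← image_singleton, ← image_sdiff (f i).injective]
          exact (h6 fun h => hM (f_M i h)).image _ (f i).continuous.continuousOn
      · refine ⟨∅, empty_subset _, isPreconnected_empty, fun h => absurd h not_nonempty_empty,
          fun h => (hi h).elim, fun _ h => h.elim, ?_, fun _ => by simpa using isPreconnected_empty⟩
        rw [← ((f i).isClosedMap _ G_closed).closure_eq, mem_closure_iff_nhdsWithin_neBot,
          not_neBot] at hi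
        rw [hi]; trivial
    choose N h1 h2 h3 h4 h5 h6 h7 using h
    obtain ⟨i, hi⟩ := mem_iUnion.1 (G_sub hx)
    refine ⟨⋃ i, N i, iUnion_subset h1, isPreconnected_of_forall x fun y hy => ?_,
      mem_iUnion.2 ⟨i, h4 i hi⟩, fun y hy => ?_, ?_, fun hM => ?_⟩
    · obtain ⟨j, hj⟩ := mem_iUnion.1 hy
      exact ⟨N j, subset_iUnion _ j, h4 j (h3 j ⟨y, hj⟩), hj, h2 j⟩
    · obtain ⟨j, hj⟩ := mem_iUnion.1 hy
      exact h5 j y hj
    · rw [G_eq, nhdsWithin_iUnion, mem_iSup]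
      exact fun j => mem_of_superset (h6 j) (subset_iUnion _ j)
    · have : ⋃ i, N i = N i := (iUnion_subset fun j y hy => by
        by_cases k : j = i
        exacts [k ▸ hy, (hM (meet k (h3 j ⟨y, hy⟩) hi)).elim]).antisymm (subset_iUnion _ i)
      rw [this]; exact h7 i hM

end Pool.Agent.H82.GasA
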