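import Mathlib
import Pool.Agent.H33.Contin
import Pool.Agent.H51.LebN

/-! Crossing lemmas in a rectangle and the staircase lemma. -/

set_option autoImplicit false

namespace Pool.Agent.H82.SpanB

open Set Topology TopologicalSpace Metric Filter

theorem meet {c e : ℝ → ℝ × ℝ} (hc : Continuous c) (he : Continuous e)
    (h0 : ∀ t, (c 0).1 ≤ (e t).1) (h1 : ∀ t, (e t).1 ≤ (c 1).1)
    (h2 : ∀ s, (e 0).2 ≤ (c s).2) (h3 : ∀ s, (c s).2 ≤ (e 1).2) : ∃ s t, c s = e t := by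
  obtain ⟨x, -, hx⟩ := H51.LebN.miranda 2 1 one_pos
    (fun x => ![(c (x 0)).1 - (e (x 1)).1, (e (x 1)).2 - (c (x 0)).2]) (by fun_prop)
    (fun x i hi => by
      fin_cases i
      · have : x 0 = 0 := hi
        simp [this, h0]
      · have : x 1 = 0 := hi
        simp [this, h2])
    (fun x i hi => by
      fin_cases i
      · have : x 0 = 1 := hi
        simp [this, h1]
      · have : x 1 = 1 := hi
        simp [this, h3])
  have a := congrFun hx 0
  have b := congrFun hx 1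
  simp at a b
  exact ⟨x 0, x 1, Prod.ext (by linarith) (by linarith)⟩

theorem sepAB {X : Type} [TopologicalSpace X] [T2Space X] {F A B : Set X} (hF : IsCompact F)
    (hA : IsClosed A) (hB : IsClosed B)
    (h : ∀ K ⊆ F, IsCompact K → IsConnected K → (K ∩ A).Nonempty → (K ∩ B).Nonempty → False) :
    ∃ F1 F2 : Set X, IsClosed F1 ∧ IsClosed F2 ∧ Disjoint F1 F2 ∧ F ⊆ F1 ∪ F2 ∧ Disjoint F1 B ∧
      Disjoint F2 A := by
  have : CompactSpace F := isCompact_iff_compactSpace.1 hF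
  have cv : IsClosedEmbedding (Subtype.val : F → X) := hF.isClosed.isClosedEmbedding_subtypeVal
  have key : ∀ x : F, x.1 ∈ A → ∃ Z Z' : Set F, IsClosed Z ∧ IsClosed Z' ∧ Disjoint Z Z' ∧
      Z ∪ Z' = univ ∧ x ∈ Z ∧ Disjoint Z (Subtype.val ⁻¹' B) := by
    intro x hx
    refine H33.Contin.sep isClosed_univ (hB.preimage continuous_subtype_val) (mem_univ x) ?_
    rw [connectedComponentIn_univ, Set.disjoint_left]
    intro z hz hz'
    exact h (Subtype.val '' connectedComponent x) (by rintro _ ⟨w, -, rfl⟩; exact w.2)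
      (isClosed_connectedComponent.isCompact.image continuous_subtype_val)
      (isConnected_connectedComponent.image _ continuous_subtype_val.continuousOn)
      ⟨x, ⟨x, mem_connectedComponent, rfl⟩, hx⟩ ⟨z, ⟨z, hz, rfl⟩, hz'⟩
  choose! Z Z' h1 h2 h3 h4 h5 h6 using key
  obtain ⟨t, ht, hcov⟩ := (hA.preimage continuous_subtype_val (f := (Subtype.val : F → X))).isCompact.elim_nhds_subcover
    (fun x => (Z' x)ᶜ) (fun x hx => (h2 x hx).isOpen_compl.mem_nhds
      (Set.disjoint_left.1 (h3 x hx) (h5 x hx)))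
  refine ⟨Subtype.val '' ⋃ x ∈ t, Z x, Subtype.val '' ⋂ x ∈ t, Z' x,
    cv.isClosedMap _ (t.finite_toSet.isClosed_biUnion fun x hx => h1 x (ht x hx)),
    cv.isClosedMap _ (isClosed_biInter fun x hx => h2 x (ht x hx)), ?_, ?_, ?_, ?_⟩
  · rw [disjoint_image_iff Subtype.val_injective, Set.disjoint_left]
    intro z hz hz'
    obtain ⟨x, hx, hz⟩ := mem_iUnion₂.1 hz
    exact Set.disjoint_left.1 (h3 x (ht x hx)) hz (mem_iInter₂.1 hz' x hx)
  · intro z hz
    by_cases hh : (⟨z, hz⟩ : F) ∈ ⋃ x ∈ t, Z x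
    · exact Or.inl ⟨_, hh, rfl⟩
    · refine Or.inr ⟨⟨z, hz⟩, mem_iInter₂.2 fun x hx => ?_, rfl⟩
      have : (⟨z, hz⟩ : F) ∈ Z x ∪ Z' x := by rw [h4 x (ht x hx)]; trivial
      exact this.resolve_left fun h => hh (mem_iUnion₂.2 ⟨x, hx, h⟩)
  · rw [Set.disjoint_left]
    rintro _ ⟨z, hz, rfl⟩ hz'
    obtain ⟨x, hx, hz⟩ := mem_iUnion₂.1 hz
    exact Set.disjoint_left.1 (h6 x (ht x hx)) hz hz'
  · rw [Set.disjoint_left]
    rintro _ ⟨z, hz, rfl⟩ hz'
    obtain ⟨x, hx, hz''⟩ := mem_iUnion₂.1 (hcov hz')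
    exact hz'' (mem_iInter₂.1 hz x hx)

def HC (h : ℝ × ℝ → ℝ) (ε a b c d : ℝ) : Prop :=
  ∃ γ : ℝ → ℝ × ℝ, Continuous γ ∧ (γ 0).1 = a ∧ (γ 1).1 = b ∧
    ∀ t, γ t ∈ Icc a b ×ˢ Icc c d ∧ h (γ t) < ε

theorem dual {h : ℝ × ℝ → ℝ} (hh : Continuous h) {ε a b c d : ℝ} (hab : a ≤ b) (hcd : c < d)
    (hn : ¬ HC h ε a b c d) : ∃ K ⊆ Icc a b ×ˢ Icc c d ∩ {p | ε ≤ h p}, IsCompact K ∧
      IsConnected K ∧ (K ∩ {p | p.2 ≤ c}).Nonempty ∧ (K ∩ {p | d ≤ p.2}).Nonempty := by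
  classical
  by_contra hK
  obtain ⟨F1, F2, c1, c2, d12, hcov, d1, d2⟩ := sepAB
    (F := Icc a b ×ˢ Icc c d ∩ {p | ε ≤ h p}) (A := {p | p.2 ≤ c}) (B := {p | d ≤ p.2})
    ((isCompact_Icc.prod isCompact_Icc).inter_right (isClosed_le continuous_const hh))
    (isClosed_le continuous_snd continuous_const) (isClosed_le continuous_const continuous_snd)
    (fun K a1 a2 a3 a4 a5 => hK ⟨K, a1, a2, a3, a4, a5⟩)
  obtain ⟨u, u0, u1, -⟩ := exists_continuous_zero_one_of_isClosed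
    (c1.union (isClosed_le continuous_snd continuous_const : IsClosed {p : ℝ × ℝ | p.2 ≤ c}))
    (c2.union (isClosed_le continuous_const continuous_snd : IsClosed {p : ℝ × ℝ | d ≤ p.2})) (by
      rw [disjoint_union_left, disjoint_union_right, disjoint_union_right]
      refine ⟨⟨d12, d1⟩, d2.symm, Set.disjoint_left.2 fun p (h1 : p.2 ≤ c) (h2 : d ≤ p.2) => ?_⟩
      linarith)
  let pr : ℝ × ℝ → ℝ × ℝ := fun p => (max a (min b p.1), max c (min d p.2))
  have prc : Continuous pr := by fun_prop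
  have prm : ∀ p, pr p ∈ Icc a b ×ˢ Icc c d := fun p =>
    ⟨⟨le_max_left _ _, max_le hab (min_le_left _ _)⟩,
      ⟨le_max_left _ _, max_le hcd.le (min_le_left _ _)⟩⟩
  let D : Set (ℝ × ℝ) := {p | h (pr p) < ε}
  have Do : IsOpen D := isOpen_lt (hh.comp prc) continuous_const
  let D1 : Set (ℝ × ℝ) := {p | ∃ q : ℝ × ℝ, q.1 ≤ a ∧ JoinedIn D q p}
  let m : ℝ × ℝ → ℝ := fun p => max (ε - h (pr p)) 0
  have mc : Continuous m := (continuous_const.sub (hh.comp prc)).max continuous_const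
  let ψ : ℝ × ℝ → ℝ := fun p => if p ∈ D1 then -m p else m p
  have ψc : Continuous ψ := by
    rw [continuous_iff_continuousAt]
    intro p
    by_cases hp : p ∈ D
    · have hn : pathComponentIn D p ∈ 𝓝 p :=
        (Do.pathComponentIn p).mem_nhds (mem_pathComponentIn_self hp)
      by_cases h1 : p ∈ D1
      · refine mc.neg.continuousAt.congr (mem_of_superset hn fun q hq => ?_)
        obtain ⟨r, hr, hj⟩ := h1
        have : q ∈ D1 := ⟨r, hr, hj.trans hq⟩
        simp [ψ, this]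
      · refine mc.continuousAt.congr (mem_of_superset hn fun q hq => ?_)
        have : q ∉ D1 := fun ⟨r, hr, hj⟩ => h1 ⟨r, hr, hj.trans (JoinedIn.symm hq)⟩
        simp [ψ, this]
    · have m0 : m p = 0 := max_eq_right (by have : ¬ h (pr p) < ε := hp; linarith)
      have : ψ p = 0 := by simp [ψ, m0]
      rw [ContinuousAt, this]
      refine squeeze_zero_norm (fun q => ?_) (m0 ▸ mc.continuousAt.tendsto)
      have : 0 ≤ m q := le_max_right _ _
      simp only [ψ]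
      split_ifs <;> simp [abs_of_nonneg this]
  let P : (Fin 2 → ℝ) → ℝ × ℝ := fun x => (a + x 0 * (b - a), c + x 1 * (d - c))
  have Pc : Continuous P := by fun_prop
  obtain ⟨x, -, hx⟩ := H51.LebN.miranda 2 1 one_pos
    (fun x => ![ψ (P x), u (pr (P x)) - 1 / 2]) (by fun_prop)
    (fun x i hi => by
      fin_cases i
      · have e : x 0 = 0 := hi
        show ψ (P x) ≤ 0
        have : 0 ≤ m (P x) := le_max_right _ _
        by_cases hp : P x ∈ D
        · have : P x ∈ D1 := ⟨P x, by simp [P, e], JoinedIn.refl hp⟩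
          simp [ψ, *]
        · have m0 : m (P x) = 0 := max_eq_right (by have : ¬ h (pr (P x)) < ε := hp; linarith)
          simp [ψ, m0]
      · have e : x 1 = 0 := hi
        show u (pr (P x)) - 1 / 2 ≤ 0
        rw [u0 (Or.inr (show (pr (P x)).2 ≤ c by simp [pr, P, e]))]
        norm_num)
    (fun x i hi => by
      fin_cases i
      · have e : x 0 = 1 := hi
        show 0 ≤ ψ (P x)
        have : P x ∉ D1 := by
          rintro ⟨q, hq, γ, hγ⟩
          refine hn ⟨fun t => pr (γ.extend t), prc.comp γ.continuous_extend, ?_, ?_, fun t =>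
            ⟨prm _, ?_⟩⟩
          · simp only [Path.extend_zero, pr]
            exact max_eq_left ((min_le_right _ _).trans hq)
          · simp [pr, P, e, hab]
          · exact hγ _
        simp only [ψ, this, if_false]
        exact le_max_right _ _
      · have e : x 1 = 1 := hi
        show 0 ≤ u (pr (P x)) - 1 / 2
        rw [u1 (Or.inr (show d ≤ (pr (P x)).2 by simp [pr, P, e]))]
        norm_num)
  have a1 : ψ (P x) = 0 := congrFun hx 0
  have a2 : u (pr (P x)) - 1 / 2 = 0 := congrFun hx 1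
  have m0 : m (P x) = 0 := by
    simp only [ψ] at a1
    split_ifs at a1 <;> simpa using a1
  have : ε ≤ h (pr (P x)) := by
    have := le_max_left (ε - h (pr (P x))) 0
    have e : max (ε - h (pr (P x))) 0 = 0 := m0
    linarith
  rcases hcov ⟨prm (P x), this⟩ with h | h
  · rw [u0 (Or.inl h)] at a2; norm_num at a2
  · rw [u1 (Or.inl h)] at a2; norm_num at a2

variable {E : Type} [MetricSpace E]

theorem cross {T M : Set E} (hT : IsCompact T) (hM : IsClosed M) (hne : M.Nonempty)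
    (H : ∀ Z ⊆ M ×ˢ M, IsCompact Z → IsConnected Z → M ⊆ Prod.snd '' Z → ∃ p ∈ Z, p.1 = p.2)
    {ε : ℝ} (hε : 0 < ε) : ∃ δ > 0, ∀ p q : ℝ → E, Continuous p → Continuous q → ∀ a b c d : ℝ,
      a ≤ b → c < d → (∀ s ∈ Icc a b, p s ∈ T ∧ infDist (p s) M ≤ δ) →
      (∀ s ∈ Icc c d, q s ∈ T ∧ infDist (q s) M ≤ δ) → (∀ m ∈ M, ∃ u ∈ Icc c d, dist (q u) m ≤ δ) →
      HC (fun z => dist (p z.1) (q z.2)) ε a b c d := by
  by_contra hn
  push Not at hn
  let S : ℕ → Set (NonemptyCompacts (E × E)) := fun n =>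
    {K | (K : Set (E × E)) ⊆ T ×ˢ T} ∩ ({K | IsPreconnected (K : Set (E × E))} ∩
      ({K | (K : Set (E × E)) ⊆ {z | infDist z.1 M ≤ 1 / ((n:ℝ) + 1) ∧
        infDist z.2 M ≤ 1 / ((n:ℝ) + 1) ∧ ε ≤ dist z.1 z.2}} ∩
      ⋂ m ∈ M, {K | ((K : Set (E × E)) ∩ {z | dist z.2 m ≤ 1 / ((n:ℝ) + 1)}).Nonempty}))
  have Sc : ∀ n, IsClosed (S n) := fun n =>
    (NonemptyCompacts.isClosed_subsets_of_isClosed (hT.prod hT).isClosed).inter
      (H33.Contin.closed_conn.inter ((NonemptyCompacts.isClosed_subsets_of_isClosed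
        (IsClosed.and (isClosed_le ((continuous_infDist_pt M).comp continuous_fst) continuous_const)
          (IsClosed.and (isClosed_le ((continuous_infDist_pt M).comp continuous_snd) continuous_const)
            (isClosed_le continuous_const continuous_dist)))).inter
        (isClosed_biInter fun m _ => NonemptyCompacts.isClosed_inter_nonempty_of_isClosed
          (isClosed_le (by fun_prop) continuous_const))))
  obtain ⟨K, hK⟩ := IsCompact.nonempty_iInter_of_sequence_nonempty_isCompact_isClosed S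
    (fun n K hK => by
      have := Nat.one_div_le_one_div (α := ℝ) (Nat.le_succ n)
      refine ⟨hK.1, hK.2.1, fun z hz => ?_, mem_iInter₂.2 fun m hm => ?_⟩
      · obtain ⟨a1, a2, a3⟩ := hK.2.2.1 hz
        exact And.intro (a1.trans this) (And.intro (a2.trans this) a3)
      · obtain ⟨z, a1, a2⟩ := mem_iInter₂.1 hK.2.2.2 m hm
        exact ⟨z, a1, le_trans (show dist z.2 m ≤ _ from a2) this⟩)
    (fun n => by
      obtain ⟨p, q, hp, hq, a, b, c, d, hab, hcd, h1, h2, h3, h4⟩ :=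
        hn (1 / ((n:ℝ) + 1)) Nat.one_div_pos_of_nat
      obtain ⟨K, k1, k2, k3, ⟨x, k4, k5⟩, y, k6, k7⟩ := dual (by fun_prop) hab hcd h4
      have hc : Continuous (Prod.map p q) := hp.prodMap hq
      refine ⟨⟨⟨Prod.map p q '' K, k2.image hc⟩, k3.1.image _⟩, ?_,
        k3.2.image _ hc.continuousOn, ?_, mem_iInter₂.2 fun m hm => ?_⟩
      · rintro _ ⟨z, hz, rfl⟩
        exact ⟨(h1 _ (k1 hz).1.1).1, (h2 _ (k1 hz).1.2).1⟩
      · rintro _ ⟨z, hz, rfl⟩
        exact And.intro (h1 _ (k1 hz).1.1).2 (And.intro (h2 _ (k1 hz).1.2).2 (k1 hz).2)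
      · obtain ⟨u, hu, hu'⟩ := h3 m hm
        obtain ⟨z, hz, e⟩ := k3.2.intermediate_value k4 k6 continuous_snd.continuousOn
          ⟨le_trans k5 hu.1, le_trans hu.2 k7⟩
        exact ⟨_, ⟨z, hz, rfl⟩, show dist (q z.2) m ≤ _ by rw [e]; exact hu'⟩)
    ((NonemptyCompacts.isCompact_subsets_of_isCompact (hT.prod hT)).of_isClosed_subset (Sc 0)
      inter_subset_left) Sc
  rw [mem_iInter] at hK
  have lim : ∀ x : ℝ, (∀ n : ℕ, x ≤ 1 / ((n:ℝ) + 1)) → x ≤ 0 := fun x h =>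
    ge_of_tendsto' tendsto_one_div_add_atTop_nhds_zero_nat h
  have mem : ∀ x, (∀ n : ℕ, infDist x M ≤ 1 / ((n:ℝ) + 1)) → x ∈ M := fun x h =>
    (hM.mem_iff_infDist_zero hne).2 (le_antisymm (lim _ h) infDist_nonneg)
  obtain ⟨z, hz, e⟩ := H K (fun z hz => ⟨mem _ fun n => ((hK n).2.2.1 hz).1,
    mem _ fun n => ((hK n).2.2.1 hz).2.1⟩) K.isCompact ⟨K.nonempty, (hK 0).2.1⟩ (fun m hm => by
      rw [(K.isCompact.image continuous_snd).isClosed.mem_iff_infDist_zero (K.nonempty.image _)]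
      refine le_antisymm (lim _ fun n => ?_) infDist_nonneg
      obtain ⟨z, a1, a2⟩ := mem_iInter₂.1 (hK n).2.2.2 m hm
      refine (infDist_le_dist_of_mem (mem_image_of_mem _ a1)).trans ?_
      rw [dist_comm]; exact a2)
  have := ((hK 0).2.2.1 hz).2.2
  rw [e, dist_self] at this
  linarith

theorem concat {α : Type} [TopologicalSpace α] (P : ℕ → α) (O : ℕ → Set α)
    (h : ∀ n, JoinedIn (O n) (P n) (P (n + 1))) : ∃ c : ℝ → α, Continuous c ∧
      (∀ t, c t ∈ O ⌊t⌋₊) ∧ ∀ n : ℕ, c n = P n := by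
  choose γ hγ using h
  let c : ℝ → α := fun t => (γ ⌊t⌋₊).extend (t - ⌊t⌋₊)
  have hc : ∀ n : ℕ, ∀ t ≤ (n:ℝ) + 1, (n = 0 ∨ (n:ℝ) ≤ t) → c t = (γ n).extend (t - n) := by
    intro n t h1 h2
    rcases h1.eq_or_lt with rfl | h1
    · have : ⌊(n:ℝ) + 1⌋₊ = n + 1 := by exact_mod_cast Nat.floor_natCast (R := ℝ) (n + 1)
      simp only [c]
      rw [this]
      simp
    · have : ⌊t⌋₊ = n := by
        rcases h2 with rfl | h2
        · exact Nat.floor_eq_zero.2 (by simpa using h1)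
        · exact (Nat.floor_eq_iff (le_trans (Nat.cast_nonneg n) h2)).2 ⟨h2, h1⟩
      simp only [c]
      rw [this]
  have hc2 : ∀ n : ℕ, ContinuousOn c (Iic ((n:ℝ) + 1)) := by
    intro n
    have cn : ∀ n : ℕ, Continuous fun t : ℝ => (γ n).extend (t - n) := fun n =>
      (γ n).continuous_extend.comp (by fun_prop)
    induction n with
    | zero => exact (cn 0).continuousOn.congr fun t ht => hc 0 t ht (Or.inl rfl)
    | succ n ih =>
      have := ih.union_of_isClosed (t := Icc ((n:ℝ) + 1) ((n:ℝ) + 1 + 1))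
        ((cn (n + 1)).continuousOn.congr fun t ht => hc (n + 1) t (by push_cast; exact ht.2)
          (Or.inr (by push_cast; exact ht.1))) isClosed_Iic isClosed_Icc
      refine this.mono fun t ht => ?_
      rcases le_total t ((n:ℝ) + 1) with h | h
      · exact Or.inl h
      · exact Or.inr ⟨h, by simpa using ht⟩
  refine ⟨c, continuous_iff_continuousAt.2 fun t => (hc2 ⌊t⌋₊).continuousAt
    (Iic_mem_nhds (Nat.lt_floor_add_one t)), fun t => hγ _ _, fun n => ?_⟩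
  simp only [c]
  rw [Nat.floor_natCast]
  simp

def Ray (M : Set E) (p : ℝ → E) : Prop :=
  Continuous p ∧ (∀ δ > 0, ∃ a, ∀ s, a ≤ s → infDist (p s) M ≤ δ) ∧
    ∀ δ > 0, ∀ a, ∀ m ∈ M, ∃ s, a ≤ s ∧ dist (p s) m < δ

theorem ray_compact {M : Set E} (hM : IsCompact M) (hne : M.Nonempty) {p : ℝ → E}
    (hp : Continuous p) (h : ∀ δ > 0, ∃ a, ∀ s, a ≤ s → infDist (p s) M ≤ δ) :
    IsCompact (M ∪ p '' Ici 0) := by
  refine isCompact_of_finite_subcover fun {ι} U hU hcov => ?_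
  classical
  obtain ⟨t, ht⟩ := hM.elim_finite_subcover U hU (subset_union_left.trans hcov)
  obtain ⟨δ, hδ, hδ'⟩ := hM.exists_thickening_subset_open (isOpen_biUnion fun i _ => hU i) ht
  obtain ⟨a, ha⟩ := h (δ / 2) (by linarith)
  obtain ⟨t', ht'⟩ := ((isCompact_Icc (a := 0) (b := a)).image hp).elim_finite_subcover U hU
    (((image_mono Icc_subset_Ici_self).trans subset_union_right).trans hcov)
  refine ⟨t ∪ t', ?_⟩
  have s1 : (⋃ i ∈ t, U i) ⊆ ⋃ i ∈ t ∪ t', U i :=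
    biUnion_subset_biUnion_left fun i hi => Finset.mem_union_left _ hi
  have s2 : (⋃ i ∈ t', U i) ⊆ ⋃ i ∈ t ∪ t', U i :=
    biUnion_subset_biUnion_left fun i hi => Finset.mem_union_right _ hi
  rintro _ (hx | ⟨s, hs, rfl⟩)
  · exact s1 (ht hx)
  · rcases le_total s a with h | h
    · exact s2 (ht' ⟨s, ⟨hs, h⟩, rfl⟩)
    · exact s1 (hδ' ((mem_thickening_iff_infDist_lt hne).2 (by linarith [ha s h])))

theorem Ray.block {M : Set E} (hM : IsCompact M) {p : ℝ → E} (hp : Ray M p) {δ : ℝ} (hδ : 0 < δ)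
    (a : ℝ) : ∃ b, ∀ b', b ≤ b' → ∀ m ∈ M, ∃ s ∈ Icc a b', dist (p s) m ≤ δ := by
  obtain ⟨b, hb⟩ := hM.elim_directed_cover (fun b : ℝ => ⋃ s ∈ Icc a b, ball (p s) δ)
    (fun b => isOpen_biUnion fun _ _ => isOpen_ball) (fun m hm => by
      obtain ⟨s, h1, h2⟩ := hp.2.2 δ hδ a m hm
      exact mem_iUnion.2 ⟨s, mem_iUnion₂.2 ⟨s, ⟨h1, le_rfl⟩, mem_ball'.2 h2⟩⟩)
    (Monotone.directed_le fun b b' h => biUnion_subset_biUnion_left (Icc_subset_Icc_right h))
  refine ⟨b, fun b' h m hm => ?_⟩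
  obtain ⟨s, h1, h2⟩ := mem_iUnion₂.1 (hb hm)
  exact ⟨s, ⟨h1.1, h1.2.trans h⟩, (mem_ball'.1 h2).le⟩

theorem stair {M : Set E} (hM : IsCompact M) (hne : M.Nonempty)
    (H : ∀ Z ⊆ M ×ˢ M, IsCompact Z → IsConnected Z → M ⊆ Prod.snd '' Z → ∃ p ∈ Z, p.1 = p.2)
    {p q : ℝ → E} (hp : Ray M p) (hq : Ray M q) : ∃ c : ℝ → ℝ × ℝ, Continuous c ∧
      ∀ ε > 0, ∀ a : ℝ, ∃ t0, ∀ t, t0 ≤ t → a ≤ (c t).1 ∧ a ≤ (c t).2 ∧
        dist (p (c t).1) (q (c t).2) < ε := by
  have hT := (ray_compact hM hne hp.1 hp.2.1).union (ray_compact hM hne hq.1 hq.2.1)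
  choose δ hδ hX using fun n : ℕ => cross hT hM.isClosed hne H (Nat.one_div_pos_of_nat (n := n))
  have st : ∀ (n : ℕ), ∃ a, 0 ≤ a ∧ ∀ s, a ≤ s → infDist (p s) M ≤ δ n ∧ infDist (q s) M ≤ δ n := by
    intro n
    obtain ⟨a, ha⟩ := hp.2.1 _ (hδ n)
    obtain ⟨b, hb⟩ := hq.2.1 _ (hδ n)
    exact ⟨max 0 (max a b), le_max_left _ _, fun s hs =>
      ⟨ha s (by simp at hs; tauto), hb s (by simp at hs; tauto)⟩⟩
  choose a0 ha0 ha1 using st
  have nx : ∀ (n : ℕ) (a : ℝ), ∃ b, a + 1 ≤ b ∧ a0 (n + 1) ≤ b ∧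
      (∀ m ∈ M, ∃ s ∈ Icc a b, dist (p s) m ≤ δ (n - 1)) ∧
      ∀ m ∈ M, ∃ s ∈ Icc a b, dist (q s) m ≤ δ n := by
    intro n a
    obtain ⟨b, hb⟩ := hp.block hM (hδ (n - 1)) a
    obtain ⟨b', hb'⟩ := hq.block hM (hδ n) a
    exact ⟨max (max (a + 1) (a0 (n + 1))) (max b b'), by simp, by simp, hb _ (by simp),
      hb' _ (by simp)⟩
  choose nx n1 n2 n3 n4 using nx
  let a : ℕ → ℝ := fun n => Nat.rec (a0 0) (fun n a => nx n a) n
  have a1 : ∀ n, a n + 1 ≤ a (n + 1) := fun n => n1 n (a n)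
  have a2 : ∀ n, a0 n ≤ a n := fun n => by
    cases n with
    | zero => exact le_rfl
    | succ n => exact n2 n (a n)
  have a3 : ∀ n : ℕ, (n:ℝ) ≤ a n := fun n => by
    induction n with
    | zero => simpa using (ha0 0).trans (a2 0)
    | succ n ih => push_cast; linarith [a1 n]
  have gp : ∀ n s, a n ≤ s → p s ∈ (M ∪ p '' Ici 0) ∪ (M ∪ q '' Ici 0) ∧ infDist (p s) M ≤ δ n :=
    fun n s h => ⟨Or.inl (Or.inr ⟨s, ((ha0 n).trans (a2 n)).trans h, rfl⟩),
      (ha1 n s ((a2 n).trans h)).1⟩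
  have gq : ∀ n s, a n ≤ s → q s ∈ (M ∪ p '' Ici 0) ∪ (M ∪ q '' Ici 0) ∧ infDist (q s) M ≤ δ n :=
    fun n s h => ⟨Or.inr (Or.inr ⟨s, ((ha0 n).trans (a2 n)).trans h, rfl⟩),
      (ha1 n s ((a2 n).trans h)).2⟩
  choose c cc c0 c1 c2 using fun n => hX n p q hp.1 hq.1 (a n) (a (n + 2)) (a n) (a (n + 1))
    (by linarith [a1 n, a1 (n + 1)]) (by linarith [a1 n]) (fun s hs => gp n s hs.1)
    (fun s hs => gq n s hs.1) (n4 n (a n))
  choose e ec e0 e1 e2 using fun n => hX n q p hq.1 hp.1 (a n) (a (n + 2)) (a (n + 1)) (a (n + 2))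
    (by linarith [a1 n, a1 (n + 1)]) (by linarith [a1 (n + 1)]) (fun s hs => gq n s hs.1)
    (fun s hs => gp n s (by linarith [a1 n, hs.1])) (n3 (n + 1) (a (n + 1)))
  have m1 : ∀ n, ∃ s t, c n s = (e n t).swap := fun n =>
    meet (cc n) (continuous_swap.comp (ec n))
      (fun t => by rw [c0]; have := (e2 n t).1.2.1; simp; linarith [a1 n])
      (fun t => by rw [c1]; exact (e2 n t).1.2.2)
      (fun s => by have := (c2 n s).1.2.1; simpa [e0] using this)
      (fun s => by have := (c2 n s).1.2.2; simp [e1]; linarith [a1 (n + 1)])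
  have m2 : ∀ n, ∃ s t, c (n + 1) s = (e n t).swap := fun n =>
    meet (cc (n + 1)) (continuous_swap.comp (ec n))
      (fun t => by rw [c0]; exact (e2 n t).1.2.1)
      (fun t => by rw [c1]; have := (e2 n t).1.2.2; simp; linarith [a1 (n + 2)])
      (fun s => by have := (c2 (n + 1) s).1.2.1; simp [e0]; linarith [a1 n])
      (fun s => by have := (c2 (n + 1) s).1.2.2; simpa [e1] using this)
  choose s1 t1 m1 using m1
  choose s2 t2 m2 using m2
  let O : ℕ → Set (ℝ × ℝ) := fun n =>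
    {z | a n ≤ z.1 ∧ a n ≤ z.2 ∧ dist (p z.1) (q z.2) < 1 / ((n:ℝ) + 1)}
  obtain ⟨C, Cc, C1, -⟩ := concat (fun n => c n (s1 n)) O (fun n => by
    have j1 : JoinedIn (O n) (c n (s1 n)) (c (n + 1) (s2 n)) := by
      rw [m1, m2]
      refine ((isPathConnected_range (continuous_swap.comp (ec n))).joinedIn _ ⟨t1 n, rfl⟩ _
        ⟨t2 n, rfl⟩).mono ?_
      rintro _ ⟨t, rfl⟩
      refine And.intro ?_ (And.intro (e2 n t).1.1.1 ?_)
      · have := (e2 n t).1.2.1; simp; linarith [a1 n]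
      · rw [dist_comm]; exact (e2 n t).2
    refine j1.trans (((isPathConnected_range (cc (n + 1))).joinedIn _ ⟨s2 n, rfl⟩ _
      ⟨s1 (n + 1), rfl⟩).mono ?_)
    rintro _ ⟨t, rfl⟩
    have := c2 (n + 1) t
    exact And.intro (by linarith [a1 n, this.1.1.1]) (And.intro (by linarith [a1 n, this.1.2.1])
      (this.2.trans_le (Nat.one_div_le_one_div (Nat.le_succ n)))))
  refine ⟨C, Cc, fun ε hε b => ?_⟩
  obtain ⟨n, hn⟩ := exists_nat_one_div_lt hε
  obtain ⟨k, hk⟩ := exists_nat_ge b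
  refine ⟨(max n k : ℕ), fun t ht => ?_⟩
  have h1 : max n k ≤ ⌊t⌋₊ := Nat.le_floor ht
  obtain ⟨b1, b2, b3⟩ := C1 t
  have h2 : b ≤ a ⌊t⌋₊ := (hk.trans (by exact_mod_cast (le_max_right n k).trans h1)).trans (a3 _)
  exact ⟨h2.trans b1, h2.trans b2,
    (b3.trans_le (Nat.one_div_le_one_div ((le_max_left n k).trans h1))).trans hn⟩

end Pool.Agent.H82.SpanB
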