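import Mathlib
import Pool.Agent.H82.SpanB

/-! Covering dimension at most one: unions of two zero-dimensional sets, squares, and the
crossing form of the theorem of Mazurkiewicz in three-space. -/

set_option autoImplicit false

namespace Pool.Agent.H82.MazA

open Set Metric Topology Filter

/-- covering dimension at most one, by finite open covers of the ambient space -/
def D1 {X : Type} [TopologicalSpace X] (S : Set X) : Prop :=
  ∀ 𝒰 : Finset (Set X), (∀ U ∈ 𝒰, IsOpen U) → S ⊆ ⋃₀ (↑𝒰 : Set (Set X)) →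
    ∃ 𝒱 : Finset (Set X), (∀ V ∈ 𝒱, IsOpen V ∧ ∃ U ∈ 𝒰, V ∩ S ⊆ U) ∧
      S ⊆ ⋃₀ (↑𝒱 : Set (Set X)) ∧ ∀ z ∈ S, ∀ V1 ∈ 𝒱, ∀ V2 ∈ 𝒱, ∀ V3 ∈ 𝒱,
        z ∈ V1 → z ∈ V2 → z ∈ V3 → V1 = V2 ∨ V1 = V3 ∨ V2 = V3

/-- a base of relatively clopen sets -/
def ZD {X : Type} [TopologicalSpace X] (Z : Set X) : Prop :=
  ∀ z ∈ Z, ∀ U ∈ 𝓝 z, ∃ K : Set X, z ∈ K ∧ K ∩ Z ⊆ U ∧
    ∀ y ∈ Z, ∀ᶠ w in 𝓝[Z] y, (w ∈ K ↔ y ∈ K)

theorem ext_lab {X ι : Type} [MetricSpace X] (Z : Set X) (c : X → ι)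
    (hc : ∀ y ∈ Z, ∀ᶠ w in 𝓝[Z] y, c w = c y) :
    ∃ O : ι → Set X, (∀ i, IsOpen (O i)) ∧ (∀ y ∈ Z, y ∈ O (c y)) ∧
      ∀ p i j, p ∈ O i → p ∈ O j → i = j := by
  refine ⟨fun i => {p | infEDist p Z < infEDist p (Z \ {y | c y = i})},
    fun i => isOpen_lt continuous_infEDist continuous_infEDist, fun y hy => ?_, fun p i j hi hj => ?_⟩
  · show infEDist y Z < infEDist y (Z \ {w | c w = c y})
    rw [infEDist_zero_of_mem hy, infEDist_pos_iff_notMem_closure, mem_closure_iff_nhds]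
    push Not
    obtain ⟨t, ht, h⟩ := mem_nhdsWithin_iff_exists_mem_nhds_inter.1 (hc y hy)
    exact ⟨t, ht, eq_empty_of_forall_notMem fun w hw => hw.2.2 (h ⟨hw.1, hw.2.1⟩)⟩
  · obtain ⟨b, hb, h⟩ := infEDist_lt_iff.1 (lt_min hi hj)
    have k : ∀ l, edist p b < infEDist p (Z \ {y | c y = l}) → c b = l := fun l hl => by
      by_contra hn
      exact absurd (infEDist_le_edist_of_mem (x := p) (s := Z \ {y | c y = l}) ⟨hb, hn⟩)
        (not_le.2 hl)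
    exact (k i (lt_min_iff.1 h).1).symm.trans (k j (lt_min_iff.1 h).2)

theorem zd_cover {X : Type} [MetricSpace X] [SecondCountableTopology X] {Z : Set X} (hZ : ZD Z)
    (𝒰 : Set (Set X)) (hU : ∀ U ∈ 𝒰, IsOpen U) (hc : Z ⊆ ⋃₀ 𝒰) :
    ∃ W : Set X → Set X, (∀ U ∈ 𝒰, IsOpen (W U) ∧ W U ⊆ U) ∧ (∀ z ∈ Z, ∃ U ∈ 𝒰, z ∈ W U) ∧
      ∀ p U U', p ∈ W U → p ∈ W U' → U = U' := by
  rcases Z.eq_empty_or_nonempty with rfl | hne
  · exact ⟨fun _ => ∅, fun U _ => ⟨isOpen_empty, empty_subset _⟩, fun z hz => hz.elim,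
      fun p U U' h => h.elim⟩
  have h1 : ∀ z : X, ∃ U K : Set X, z ∈ Z → U ∈ 𝒰 ∧ z ∈ K ∧ K ∩ Z ⊆ U ∧
      ∀ y ∈ Z, ∀ᶠ w in 𝓝[Z] y, (w ∈ K ↔ y ∈ K) := fun z => by
    by_cases hz : z ∈ Z
    · obtain ⟨U, hU', hzU⟩ := hc hz
      obtain ⟨K, hK⟩ := hZ z hz U ((hU U hU').mem_nhds hzU)
      exact ⟨U, K, fun _ => ⟨hU', hK⟩⟩
    · exact ⟨∅, ∅, fun h => (hz h).elim⟩
  choose U K hK using h1
  obtain ⟨t, htZ, htc, hcov⟩ := TopologicalSpace.countable_cover_nhdsWithin (f := K) (s := Z)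
    fun z hz => ((hK z hz).2.2.2 z hz).mono fun w hw => hw.2 (hK z hz).2.1
  have htn : t.Nonempty := by
    obtain ⟨z, hz⟩ := hne
    obtain ⟨x, hx, -⟩ := mem_iUnion₂.1 (hcov hz)
    exact ⟨x, hx⟩
  obtain ⟨a, rfl⟩ := htc.exists_eq_range htn
  have ha : ∀ n, a n ∈ Z := fun n => htZ ⟨n, rfl⟩
  let N : X → ℕ := fun y => sInf {n | y ∈ K (a n)}
  have hN : ∀ y ∈ Z, y ∈ K (a (N y)) := fun y hy => by
    obtain ⟨x, ⟨n, rfl⟩, h⟩ := mem_iUnion₂.1 (hcov hy)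
    exact Nat.sInf_mem (s := {n | y ∈ K (a n)}) ⟨n, h⟩
  obtain ⟨O, hO, hO1, hO2⟩ := ext_lab Z (fun y => U (a (N y))) fun y hy => by
    have : ∀ᶠ w in 𝓝[Z] y, ∀ m ∈ Finset.range (N y + 1), (w ∈ K (a m) ↔ y ∈ K (a m)) :=
      (eventually_all_finset _).2 fun m _ => (hK _ (ha m)).2.2.2 y hy
    filter_upwards [this, self_mem_nhdsWithin] with w hw hwZ
    have e1 : N w ≤ N y := Nat.sInf_le ((hw _ (by simp)).2 (hN y hy))
    have e2 : N y ≤ N w := Nat.sInf_le ((hw _ (by simp; omega)).1 (hN w hwZ))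
    rw [le_antisymm e1 e2]
  refine ⟨fun V => O V ∩ V, fun V hV => ⟨(hO V).inter (hU V hV), inter_subset_right⟩,
    fun z hz => ⟨_, (hK _ (ha (N z))).1, hO1 z hz, (hK _ (ha (N z))).2.2.1 ⟨hN z hz, hz⟩⟩,
    fun p V V' h h' => hO2 p V V' h.1 h'.1⟩

theorem d1_of_zd {X : Type} [MetricSpace X] [SecondCountableTopology X] {A Z0 Z1 : Set X}
    (h0 : ZD Z0) (h1 : ZD Z1) (hA : A = Z0 ∪ Z1) : D1 A := by
  classical
  intro 𝒰 hU hc
  obtain ⟨W, a1, a2, a3⟩ := zd_cover h0 𝒰 hU ((hA ▸ subset_union_left : Z0 ⊆ A).trans hc)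
  obtain ⟨W', b1, b2, b3⟩ := zd_cover h1 𝒰 hU ((hA ▸ subset_union_right : Z1 ⊆ A).trans hc)
  refine ⟨𝒰.image W ∪ 𝒰.image W', fun V hV => ?_, fun z hz => ?_, ?_⟩
  · simp only [Finset.mem_union, Finset.mem_image] at hV
    rcases hV with ⟨U, h, rfl⟩ | ⟨U, h, rfl⟩
    · exact ⟨(a1 U h).1, U, h, inter_subset_left.trans (a1 U h).2⟩
    · exact ⟨(b1 U h).1, U, h, inter_subset_left.trans (b1 U h).2⟩
  · rw [hA] at hz
    rcases hz with hz | hz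
    · obtain ⟨U, h, h'⟩ := a2 z hz
      exact ⟨W U, by
        simp only [Finset.coe_union, Finset.coe_image]; exact Or.inl ⟨U, h, rfl⟩, h'⟩
    · obtain ⟨U, h, h'⟩ := b2 z hz
      exact ⟨W' U, by
        simp only [Finset.coe_union, Finset.coe_image]; exact Or.inr ⟨U, h, rfl⟩, h'⟩
  · intro z _ V1 h1 V2 h2 V3 h3 k1 k2 k3
    simp only [Finset.mem_union, Finset.mem_image] at h1 h2 h3
    rcases h1 with ⟨U1, -, rfl⟩ | ⟨U1, -, rfl⟩ <;> rcases h2 with ⟨U2, -, rfl⟩ | ⟨U2, -, rfl⟩ <;>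
      rcases h3 with ⟨U3, -, rfl⟩ | ⟨U3, -, rfl⟩
    all_goals first
      | exact Or.inl (by rw [a3 z _ _ k1 k2])
      | exact Or.inl (by rw [b3 z _ _ k1 k2])
      | exact Or.inr (Or.inl (by rw [a3 z _ _ k1 k3]))
      | exact Or.inr (Or.inl (by rw [b3 z _ _ k1 k3]))
      | exact Or.inr (Or.inr (by rw [a3 z _ _ k2 k3]))
      | exact Or.inr (Or.inr (by rw [b3 z _ _ k2 k3]))

/-- a set that embeds in the points with irrational coordinates has a clopen base -/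
theorem zd_of_irr {X : Type} [TopologicalSpace X] {Z : Set X} {n : ℕ} (f : X → Fin n → ℝ)
    (hf : ContinuousOn f Z) (hi : ∀ z ∈ Z, ∀ i, Irrational (f z i)) (g : (Fin n → ℝ) → X)
    (hg : ∀ z ∈ Z, ContinuousWithinAt g (f '' Z) (f z)) (hgf : ∀ z ∈ Z, g (f z) = z) : ZD Z := by
  intro z hz U hU
  have h1 : g ⁻¹' U ∈ 𝓝[f '' Z] (f z) := hg z hz (by rw [hgf z hz]; exact hU)
  obtain ⟨ε, hε, h2⟩ := Metric.mem_nhdsWithin_iff.1 h1
  have h3 : ∀ i, ∃ q : ℚ, f z i - ε < q ∧ (q:ℝ) < f z i := fun i => exists_rat_btwn (by linarith)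
  have h4 : ∀ i, ∃ q : ℚ, f z i < q ∧ (q:ℝ) < f z i + ε := fun i => exists_rat_btwn (by linarith)
  choose a ha using h3
  choose b hb using h4
  refine ⟨{w | ∀ i, (a i : ℝ) < f w i ∧ f w i < b i}, fun i => ⟨(ha i).2, (hb i).1⟩,
    fun w hw => ?_, fun y hy => ?_⟩
  · have := h2 ⟨(dist_pi_lt_iff hε).2 fun i => by
      rw [Real.dist_eq, abs_lt]
      constructor <;> linarith [(hw.1 i).1, (hw.1 i).2, (ha i).1, (hb i).2],
      mem_image_of_mem f hw.2⟩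
    rwa [mem_preimage, hgf w hw.2] at this
  · have k : ∀ i, ∀ q : ℚ, ∀ᶠ w in 𝓝[Z] y, ((q:ℝ) < f w i ↔ (q:ℝ) < f y i) ∧
        (f w i < q ↔ f y i < q) := fun i q => by
      have hc : Tendsto (fun w => f w i) (𝓝[Z] y) (𝓝 (f y i)) :=
        ((continuous_apply i).continuousAt.comp_continuousWithinAt (hf y hy))
      rcases lt_or_gt_of_ne ((hi y hy i).ne_rat q) with h | h
      · filter_upwards [hc.eventually (gt_mem_nhds h)] with w hw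
        exact ⟨iff_of_false (not_lt.2 hw.le) (not_lt.2 h.le), iff_of_true hw h⟩
      · filter_upwards [hc.eventually (lt_mem_nhds h)] with w hw
        exact ⟨iff_of_true hw h, iff_of_false (not_lt.2 hw.le) (not_lt.2 h.le)⟩
    have : ∀ᶠ w in 𝓝[Z] y, ∀ i, ((a i:ℝ) < f w i ↔ (a i:ℝ) < f y i) ∧
        (f w i < b i ↔ f y i < b i) :=
      eventually_all.2 fun i => ((k i (a i)).and (k i (b i))).mono fun w hw => ⟨hw.1.1, hw.2.2⟩
    filter_upwards [this] with w hw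
    exact forall_congr' fun i => and_congr (hw i).1 (hw i).2

theorem tri {X : Type} [TopologicalSpace X] {S : Set X} (hS : D1 S) {Ua Ub Uc : Set X}
    (ha : IsOpen Ua) (hb : IsOpen Ub) (hc : IsOpen Uc) (h : ∀ p, p ∈ Ua ∨ p ∈ Ub ∨ p ∈ Uc) :
    ∃ Oa Ob Oc : Set X, IsOpen Oa ∧ IsOpen Ob ∧ IsOpen Oc ∧ Oa ⊆ Ua ∧ Ob ⊆ Ub ∧ Oc ⊆ Uc ∧
      ∀ p ∈ S, (p ∈ Oa ∨ p ∈ Ob ∨ p ∈ Oc) ∧ ¬ (p ∈ Oa ∧ p ∈ Ob ∧ p ∈ Oc) := by
  classical
  obtain ⟨𝒱, h1, h2, h3⟩ := hS {Ua, Ub, Uc} (fun U hU => by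
      simp only [Finset.mem_insert, Finset.mem_singleton] at hU
      rcases hU with rfl | rfl | rfl <;> assumption) (fun p _ => by
      rcases h p with k | k | k
      exacts [⟨Ua, by simp, k⟩, ⟨Ub, by simp, k⟩, ⟨Uc, by simp, k⟩])
  refine ⟨Ua ∩ ⋃₀ {V | V ∈ 𝒱 ∧ V ∩ S ⊆ Ua}, Ub ∩ ⋃₀ {V | V ∈ 𝒱 ∧ ¬ V ∩ S ⊆ Ua ∧ V ∩ S ⊆ Ub},
    Uc ∩ ⋃₀ {V | V ∈ 𝒱 ∧ ¬ V ∩ S ⊆ Ua ∧ ¬ V ∩ S ⊆ Ub},
    ha.inter (isOpen_sUnion fun V hV => (h1 V hV.1).1),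
    hb.inter (isOpen_sUnion fun V hV => (h1 V hV.1).1),
    hc.inter (isOpen_sUnion fun V hV => (h1 V hV.1).1), inter_subset_left, inter_subset_left,
    inter_subset_left, fun p hp => ⟨?_, ?_⟩⟩
  · obtain ⟨V, hV, hpV⟩ := h2 hp
    by_cases k1 : V ∩ S ⊆ Ua
    · exact Or.inl ⟨k1 ⟨hpV, hp⟩, V, ⟨hV, k1⟩, hpV⟩
    by_cases k2 : V ∩ S ⊆ Ub
    · exact Or.inr (Or.inl ⟨k2 ⟨hpV, hp⟩, V, ⟨hV, k1, k2⟩, hpV⟩)
    obtain ⟨U, hU, k3⟩ := (h1 V hV).2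
    simp only [Finset.mem_insert, Finset.mem_singleton] at hU
    rcases hU with rfl | rfl | rfl
    · exact (k1 k3).elim
    · exact (k2 k3).elim
    · exact Or.inr (Or.inr ⟨k3 ⟨hpV, hp⟩, V, ⟨hV, k1, k2⟩, hpV⟩)
  · rintro ⟨⟨-, V1, k1, l1⟩, ⟨-, V2, k2, l2⟩, ⟨-, V3, k3, l3⟩⟩
    rcases h3 p hp V1 k1.1 V2 k2.1 V3 k3.1 l1 l2 l3 with rfl | rfl | rfl
    exacts [k2.2.1 k1.2, k3.2.1 k1.2, k3.2.2 k2.2.2]

theorem bumpf {X : Type} [MetricSpace X] {O : Set X} (hO : IsOpen O) :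
    ∃ f : X → ℝ, Continuous f ∧ ∀ p, 0 ≤ f p ∧ (f p = 0 ↔ p ∉ O) := by
  rcases (Oᶜ).eq_empty_or_nonempty with h | h
  · exact ⟨fun _ => 1, continuous_const, fun p => ⟨zero_le_one, iff_of_false one_ne_zero
      fun k => (h ▸ k : p ∈ (∅ : Set X))⟩⟩
  · exact ⟨fun p => infDist p Oᶜ, continuous_infDist_pt _, fun p => ⟨infDist_nonneg,
      (hO.isClosed_compl.mem_iff_infDist_zero h).symm⟩⟩

abbrev E := EuclideanSpace ℝ (Fin 3)

theorem two_fun {S : Set E} (hS : D1 S) (a b : ℝ) {δ : ℝ} (hδ : 0 < δ) :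
    ∃ g1 g2 : E → ℝ, Continuous g1 ∧ Continuous g2 ∧ (∀ p : E, p 1 = a → g1 p ≤ 0) ∧
      (∀ p : E, p 1 = a + δ → 0 ≤ g1 p) ∧ (∀ p : E, p 2 = b → g2 p ≤ 0) ∧
      (∀ p : E, p 2 = b + δ → 0 ≤ g2 p) ∧ ∀ p ∈ S, g1 p = 0 → g2 p = 0 → False := by
  obtain ⟨Oa, Ob, Oc, ha, hb, hc, ka, kb, kc, h⟩ := tri hS (Ua := {p : E | a < p 1})
    (Ub := {p : E | b < p 2}) (Uc := {p : E | p 1 < a + δ} ∩ {p : E | p 2 < b + δ})
    (isOpen_lt (by fun_prop) (by fun_prop)) (isOpen_lt (by fun_prop) (by fun_prop))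
    ((isOpen_lt (by fun_prop) (by fun_prop)).inter (isOpen_lt (by fun_prop) (by fun_prop)))
    fun p => by
      by_cases h1 : a < p 1
      · exact Or.inl h1
      by_cases h2 : b < p 2
      · exact Or.inr (Or.inl h2)
      exact Or.inr (Or.inr ⟨show p 1 < a + δ by linarith, show p 2 < b + δ by linarith⟩)
  obtain ⟨fa, ca, la⟩ := bumpf ha
  obtain ⟨fb, cb, lb⟩ := bumpf hb
  obtain ⟨fc, cc, lc⟩ := bumpf hc
  refine ⟨fun p => fa p - fc p, fun p => fb p - fc p, ca.sub cc, cb.sub cc, fun p hp => ?_,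
    fun p hp => ?_, fun p hp => ?_, fun p hp => ?_, fun p hp h1 h2 => ?_⟩
  · have := (la p).2.2 fun k => (ka k).ne' hp
    linarith [(lc p).1]
  · have := (lc p).2.2 fun k => (kc k).1.ne hp
    linarith [(la p).1]
  · have := (lb p).2.2 fun k => (kb k).ne' hp
    linarith [(lc p).1]
  · have := (lc p).2.2 fun k => (kc k).2.ne hp
    linarith [(lb p).1]
  · have e1 : fa p = fc p := by linarith
    have e2 : fb p = fc p := by linarith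
    have i1 : p ∈ Oa ↔ p ∈ Oc := not_iff_not.1 (by rw [← (la p).2, ← (lc p).2, e1])
    have i2 : p ∈ Ob ↔ p ∈ Oc := not_iff_not.1 (by rw [← (lb p).2, ← (lc p).2, e2])
    have := h p hp
    tauto

/-- a set containing a square has dimension above one -/
theorem square {S : Set E} (hS : D1 S) (r a b : ℝ) {δ : ℝ} (hδ : 0 < δ)
    (h : ∀ s ∈ Icc 0 δ, ∀ t ∈ Icc 0 δ, (!₂[r, a + s, b + t] : E) ∈ S) : False := by
  obtain ⟨g1, g2, c1, c2, k1, k2, k3, k4, k⟩ := two_fun hS a b hδ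
  have hP : Continuous fun x : Fin 2 → ℝ => (!₂[r, a + x 0, b + x 1] : E) :=
    (PiLp.continuous_toLp 2 _).comp (by fun_prop)
  obtain ⟨x, hx, h0⟩ := H51.LebN.miranda 2 δ hδ
    (fun x => ![g1 !₂[r, a + x 0, b + x 1], g2 !₂[r, a + x 0, b + x 1]])
    (continuous_pi fun i => by
      fin_cases i
      exacts [c1.comp hP, c2.comp hP])
    (fun x i hi => by
      fin_cases i
      · exact k1 _ (by simpa using hi)
      · exact k3 _ (by simpa using hi))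
    (fun x i hi => by
      fin_cases i
      · exact k2 _ (by simpa using hi)
      · exact k4 _ (by simpa using hi))
  exact k _ (h _ (hx 0) _ (hx 1)) (congrFun h0 0) (congrFun h0 1)

/-- Mazurkiewicz: a continuum crossing the slab and missing a set of dimension at most one -/
theorem maz {B : Set E} (hB : D1 B) : ∃ K ⊆ Bᶜ, IsCompact K ∧ IsConnected K ∧
    (∃ p ∈ K, p 0 ≤ 0) ∧ ∃ q ∈ K, 1 ≤ q 0 := by
  by_contra hn
  obtain ⟨g1, g2, c1, c2, k1, k2, k3, k4, k⟩ := two_fun hB 0 0 one_pos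
  have hP : Continuous fun x : Fin 3 → ℝ => (WithLp.toLp 2 x : E) := PiLp.continuous_toLp 2 _
  obtain ⟨F1, F2, d1, d2, d12, hcov, e1, e2⟩ := SpanB.sepAB
    (F := (fun x : Fin 3 → ℝ => (WithLp.toLp 2 x : E)) '' Icc 0 1 ∩ ({p | g1 p = 0} ∩ {p | g2 p = 0}))
    (A := {p : E | p 0 ≤ 0}) (B := {p : E | 1 ≤ p 0})
    ((isCompact_Icc.image hP).inter_right ((isClosed_eq c1 continuous_const).inter
      (isClosed_eq c2 continuous_const))) (isClosed_le (by fun_prop) (by fun_prop))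
    (isClosed_le (by fun_prop) (by fun_prop)) fun K hK h1 h2 h3 h4 =>
      hn ⟨K, fun p hp hpB => k p hpB (hK hp).2.1 (hK hp).2.2, h1, h2, h3, h4⟩
  obtain ⟨f, f0, f1, -⟩ := exists_continuous_zero_one_of_isClosed
    (d1.union (isClosed_le (f := fun p : E => p 0) (g := fun _ => (0:ℝ)) (by fun_prop) (by fun_prop)))
    (d2.union (isClosed_le (f := fun _ => (1:ℝ)) (g := fun p : E => p 0) (by fun_prop) (by fun_prop)))
    (disjoint_union_left.2 ⟨disjoint_union_right.2 ⟨d12, e1⟩, disjoint_union_right.2 ⟨e2.symm,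
      disjoint_left.2 fun p (h : p 0 ≤ 0) (h' : 1 ≤ p 0) => by linarith⟩⟩)
  obtain ⟨x, hx, h0⟩ := H51.LebN.miranda 3 1 one_pos
    (fun x => ![f (WithLp.toLp 2 x) - 1 / 2, g1 (WithLp.toLp 2 x), g2 (WithLp.toLp 2 x)])
    (continuous_pi fun i => by
      fin_cases i
      exacts [(f.continuous.comp hP).sub continuous_const, c1.comp hP, c2.comp hP])
    (fun x i hi => by
      fin_cases i
      · have : f (WithLp.toLp 2 x) = 0 := f0 (Or.inr (le_of_eq hi))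
        show f (WithLp.toLp 2 x) - 1 / 2 ≤ 0
        linarith
      · exact k1 _ hi
      · exact k3 _ hi)
    (fun x i hi => by
      fin_cases i
      · have : f (WithLp.toLp 2 x) = 1 := f1 (Or.inr (le_of_eq hi.symm))
        show 0 ≤ f (WithLp.toLp 2 x) - 1 / 2
        linarith
      · exact k2 _ (by simpa using hi)
      · exact k4 _ (by simpa using hi))
  have h1 : f (WithLp.toLp 2 x) - 1 / 2 = 0 := congrFun h0 0
  rcases hcov ⟨⟨x, ⟨fun i => (hx i).1, fun i => (hx i).2⟩, rfl⟩, congrFun h0 1, congrFun h0 2⟩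
    with h | h
  · have : f (WithLp.toLp 2 x) = 0 := f0 (Or.inl h)
    linarith
  · have : f (WithLp.toLp 2 x) = 1 := f1 (Or.inl h)
    linarith

end Pool.Agent.H82.MazA
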