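import Mathlib
import Pool.Agent.H82.GasA
import Pool.Agent.H82.MazA

/-! The gasket with a square attached at a corner, and monotone inverse limits. -/

set_option autoImplicit false

namespace Pool.Agent.H82.GasB

open Set Metric Topology Filter GasA

section lim

variable {X : Type} [TopologicalSpace X] [CompactSpace X] {Q : ℕ → Type}
  [∀ k, TopologicalSpace (Q k)] [∀ k, T2Space (Q k)] {g : ∀ k, Q (k + 1) → Q k}
  {π : ∀ k, X → Q k}

theorem lift_seq (k : ℕ) : ∀ (Q : ℕ → Type) (g : ∀ k, Q (k + 1) → Q k),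
    (∀ k, Function.Surjective (g k)) → ∀ y : Q k, ∃ x : ∀ j, Q j,
      (∀ j, g j (x (j + 1)) = x j) ∧ x k = y := by
  induction k with
  | zero => exact fun Q g h y => ⟨fun j => Nat.rec y (fun j z => Function.surjInv (h j) z) j,
      fun j => Function.surjInv_eq (h j) _, rfl⟩
  | succ k ih =>
    intro Q g h y
    obtain ⟨x, h1, h2⟩ := ih (fun j => Q (j + 1)) (fun j => g (j + 1)) (fun j => h (j + 1)) y
    exact ⟨fun j => Nat.casesOn j (g 0 (x 0)) x, fun j => Nat.casesOn j rfl h1, h2⟩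

omit [TopologicalSpace X] [CompactSpace X] [∀ k, TopologicalSpace (Q k)] [∀ k, T2Space (Q k)] in
theorem down (hc : ∀ k x, g k (π (k + 1) x) = π k x) {a b : X} {m n : ℕ} (h : m ≤ n)
    (e : π n a = π n b) : π m a = π m b := by
  induction h with
  | refl => exact e
  | step _ ih => exact ih ((hc _ a).symm.trans ((congrArg (g _) e).trans (hc _ b)))

theorem far (hp : ∀ k, Continuous (π k)) (hc : ∀ k x, g k (π (k + 1) x) = π k x)
    (hi : ∀ a b, (∀ k, π k a = π k b) → a = b) {A B : Set X} (hA : IsClosed A) (hB : IsClosed B)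
    (hd : Disjoint A B) : ∃ n, ∀ j, n ≤ j → ∀ a ∈ A, ∀ b ∈ B, π j a ≠ π j b := by
  obtain ⟨n, hn⟩ := (hA.isCompact.prod hB.isCompact).elim_directed_family_closed
    (fun n => {p : X × X | π n p.1 = π n p.2})
    (fun n => isClosed_eq ((hp n).comp continuous_fst) ((hp n).comp continuous_snd))
    (eq_empty_of_forall_notMem fun p h => disjoint_left.1 hd h.1.1
      ((hi p.1 p.2 (mem_iInter.1 h.2)).symm ▸ h.1.2))
    (Antitone.directed_ge fun m n h p e => down hc h e)
  exact ⟨n, fun j hj a ha b hb e => eq_empty_iff_forall_notMem.1 hn (a, b)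
    ⟨⟨ha, hb⟩, down hc hj e⟩⟩

theorem fib_conn [∀ k, CompactSpace (Q k)] (hp : ∀ k, Continuous (π k))
    (hc : ∀ k x, g k (π (k + 1) x) = π k x) (hi : ∀ a b, (∀ k, π k a = π k b) → a = b)
    (hs : ∀ k, Function.Surjective (π k)) (hg : ∀ k, Continuous (g k))
    (hm : ∀ k y, IsConnected (g k ⁻¹' {y})) (k : ℕ) (y : Q k) : IsConnected (π k ⁻¹' {y}) := by
  have cl : IsClosed (π k ⁻¹' {y}) := isClosed_singleton.preimage (hp k)
  have key : ∀ j, k ≤ j → IsConnected (π j '' (π k ⁻¹' {y})) := fun j hj => by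
    induction hj with
    | refl => rw [image_preimage_eq _ (hs k)]; exact isConnected_singleton
    | @step j hj ih =>
      have : π (j + 1) '' (π k ⁻¹' {y}) = g j ⁻¹' (π j '' (π k ⁻¹' {y})) := by
        refine Subset.antisymm (image_subset_iff.2 fun x hx => ⟨x, hx, (hc j x).symm⟩)
          fun z ⟨x, hx, e⟩ => ?_
        obtain ⟨x', rfl⟩ := hs _ z
        exact ⟨x', (down hc hj (e.trans (hc j x'))).symm.trans hx, rfl⟩
      rw [this]
      exact ((hg j).isClosedMap.isQuotientMap (hg j) fun y => (hm j y).1).isCoinducing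
        |>.isConnected_preimage_of_isClosed (hm j) (cl.isCompact.image (hp j)).isClosed ih
  refine ⟨hs k y, isPreconnected_iff_subset_of_disjoint_closed.2 fun u v hu hv h hd => ?_⟩
  obtain ⟨n, hn⟩ := far hp hc hi (cl.inter hu) (cl.inter hv) (disjoint_left.2 fun z h1 h2 =>
    (hd ▸ ⟨h1.1, h1.2, h2.2⟩ : z ∈ (∅ : Set X)))
  by_contra hx
  push Not at hx
  obtain ⟨a, ha, a1⟩ := not_subset.1 hx.1
  obtain ⟨b, hb, b1⟩ := not_subset.1 hx.2
  obtain ⟨_, -, ⟨c, hc1, rfl⟩, d, hd1, e⟩ := isPreconnected_closed_iff.1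
    (key _ (le_max_left k n)).2 _ _ ((cl.inter hu).isCompact.image (hp _)).isClosed
    ((cl.inter hv).isCompact.image (hp _)).isClosed (by
      rw [← image_union, ← inter_union_distrib_left]
      exact image_mono (subset_inter subset_rfl h))
    ⟨_, ⟨b, hb, rfl⟩, b, ⟨hb, (h hb).resolve_right b1⟩, rfl⟩
    ⟨_, ⟨a, ha, rfl⟩, a, ⟨ha, (h ha).resolve_left a1⟩, rfl⟩
  exact hn _ (le_max_right k n) c hc1 d hd1 e.symm

end lim

def D : Set P := Icc (-1) 0 ×ˢ Icc (-1) 0

theorem D_compact : IsCompact D := isCompact_Icc.prod isCompact_Icc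

theorem D_convex : Convex ℝ D := (convex_Icc _ _).prod (convex_Icc _ _)

/-- the example -/
abbrev X : Type := ↥(G ∪ D)

instance : CompactSpace X := isCompact_iff_compactSpace.1 (G_compact.union D_compact)

instance : ConnectedSpace X := isConnected_iff_connectedSpace.1 ⟨⟨_, Or.inl (e_G 0)⟩,
  G_conn.union (e 0) (e_G 0) (by simp [D, e]) D_convex.isPreconnected⟩

instance : LocallyConnectedSpace X := by
  refine locallyConnectedSpace_iff_connected_subsets.2 fun x U hU => ?_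
  obtain ⟨ε, hε, h⟩ := Metric.mem_nhds_iff.1 hU
  have k : ∀ S : Set P, IsClosed S → (x.1 ∈ S → ∃ N ⊆ S ∩ ball x.1 ε, IsPreconnected N ∧ x.1 ∈ N ∧
      N ∈ 𝓝[S] x.1) → ∃ N ⊆ S ∩ ball x.1 ε, IsPreconnected (insert x.1 N) ∧ N ∈ 𝓝[S] x.1 := by
    intro S hS h
    by_cases hx : x.1 ∈ S
    · obtain ⟨N, h1, h2, h3, h4⟩ := h hx
      exact ⟨N, h1, (insert_eq_of_mem h3).symm ▸ h2, h4⟩
    · refine ⟨∅, empty_subset _, by simpa using isPreconnected_singleton, ?_⟩
      rw [← hS.closure_eq, mem_closure_iff_nhdsWithin_neBot, not_neBot] at hx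
      rw [hx]; trivial
  obtain ⟨N, a1, a2, a3⟩ := k G G_closed fun hx => by
    obtain ⟨n, hn⟩ := exists_pow_lt_of_lt_one hε (by norm_num : (1 / 2 : ℝ) < 1)
    obtain ⟨N, h1, h2, h3, h4, h5, -⟩ := nb n x.1 hx
    exact ⟨N, fun y hy => ⟨h1 hy, (h4 y hy).trans_lt hn⟩, h2, h3, h5⟩
  obtain ⟨N', b1, b2, b3⟩ := k D D_compact.isClosed fun hx =>
    ⟨_, subset_rfl, (D_convex.inter (convex_ball _ _)).isPreconnected, ⟨hx, mem_ball_self hε⟩,
      inter_mem_nhdsWithin _ (ball_mem_nhds _ hε)⟩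
  refine ⟨Subtype.val ⁻¹' (insert x.1 N ∪ insert x.1 N'), preimage_coe_mem_nhds_subtype.2 ?_,
    IsInducing.subtypeVal.isPreconnected_image.1 ?_, fun y hy => h ?_⟩
  · rw [nhdsWithin_union, mem_sup]
    exact ⟨mem_of_superset a3 fun y hy => Or.inl (Or.inr hy),
      mem_of_superset b3 fun y hy => Or.inr (Or.inr hy)⟩
  · rw [Subtype.image_preimage_coe, inter_eq_right.2 (union_subset
      (insert_subset x.2 fun y hy => Or.inl (a1 hy).1)
      (insert_subset x.2 fun y hy => Or.inr (b1 hy).1))]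
    exact a2.union x.1 (Or.inl rfl) (Or.inl rfl) b2
  · show dist y.1 x.1 < ε
    rcases hy with (hy | hy) | hy | hy
    exacts [hy ▸ mem_ball_self hε, (a1 hy).2, hy ▸ mem_ball_self hε, (b1 hy).2]

theorem zd_aux (Z : Set X) (F : P → Fin 2 → ℝ) (hF : Continuous F) (hi : Function.Injective F)
    (h : ∀ z ∈ Z, ∀ i, Irrational (F z.1 i)) : MazA.ZD Z := by
  have hE : IsClosedEmbedding fun z : X => F z.1 := (hF.comp continuous_subtype_val).isClosedEmbedding
    (hi.comp Subtype.val_injective)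
  have inv : ∀ z : X, Function.invFun (fun z : X => F z.1) (F z.1) = z :=
    Function.leftInverse_invFun hE.injective
  refine MazA.zd_of_irr (fun z : X => F z.1) hE.continuous.continuousOn h
    (Function.invFun fun z : X => F z.1) (fun z _ => ?_) fun z _ => inv z
  rw [ContinuousWithinAt, inv, ← hE.isEmbedding.map_nhdsWithin_eq, tendsto_map'_iff]
  exact (tendsto_id'.2 nhdsWithin_le_nhds).congr fun w => (inv w).symm

theorem dim_le (k : ℕ) (U : Fin k → Set X) (hU : ∀ i, IsOpen (U i)) (hc : ⋃ i, U i = univ) :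
    ∃ V : Fin k → Set X, (∀ i, IsOpen (V i)) ∧ (∀ i, V i ⊆ U i) ∧ (⋃ i, V i) = univ ∧
      ∀ x : X, {i | x ∈ V i}.ncard ≤ 2 + 1 := by
  classical
  let F : Fin 3 → P → Fin 2 → ℝ := ![fun p => ![p.1, p.2], fun p => ![p.1 + p.2, p.1 - p.2],
    fun p => ![p.1 + √2, p.2 + √2]]
  have h : ∀ c : Fin 3, ∃ W : Set X → Set X, (∀ A ∈ range U, IsOpen (W A) ∧ W A ⊆ A) ∧
      (∀ z ∈ {z : X | ∀ i, Irrational (F c z.1 i)}, ∃ A ∈ range U, z ∈ W A) ∧
      ∀ p A A', p ∈ W A → p ∈ W A' → A = A' := fun c =>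
    MazA.zd_cover (zd_aux _ (F c) (by
      fin_cases c
      exacts [(by fun_prop : Continuous fun p : P => ![p.1, p.2]),
        (by fun_prop : Continuous fun p : P => ![p.1 + p.2, p.1 - p.2]),
        (by fun_prop : Continuous fun p : P => ![p.1 + √2, p.2 + √2])]) (fun p q h => by
      have h0 := congrFun h 0
      have h1 := congrFun h 1
      fin_cases c <;> simp [F] at h0 h1 <;> ext <;> linarith) fun z hz => hz) (range U)
      (forall_mem_range.2 hU) (by rw [sUnion_range, hc]; exact subset_univ _)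
  choose W h1 h2 h3 using h
  have hz : ∀ z : X, ∃ c, ∀ i, Irrational (F c z.1 i) := fun z => by
    by_cases a : Irrational z.1.1 <;> by_cases b : Irrational z.1.2
    · exact ⟨0, fun i => by fin_cases i; exacts [a, b]⟩
    · obtain ⟨q, hq⟩ := not_not.1 b
      exact ⟨1, fun i => by
        fin_cases i
        exacts [show Irrational (z.1.1 + z.1.2) from hq ▸ a.add_ratCast q,
          show Irrational (z.1.1 - z.1.2) from hq ▸ a.sub_ratCast q]⟩
    · obtain ⟨q, hq⟩ := not_not.1 a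
      exact ⟨1, fun i => by
        fin_cases i
        exacts [show Irrational (z.1.1 + z.1.2) from hq ▸ b.ratCast_add q,
          show Irrational (z.1.1 - z.1.2) from hq ▸ b.ratCast_sub q]⟩
    · obtain ⟨q, hq⟩ := not_not.1 a
      obtain ⟨r, hr⟩ := not_not.1 b
      exact ⟨2, fun i => by
        fin_cases i
        exacts [show Irrational (z.1.1 + √2) from hq ▸ irrational_sqrt_two.ratCast_add q,
          show Irrational (z.1.2 + √2) from hr ▸ irrational_sqrt_two.ratCast_add r]⟩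
  refine ⟨fun i => ⋃ c, ⋃ (_ : ∀ j, U j = U i → i ≤ j), W c (U i),
    fun i => isOpen_iUnion fun c => isOpen_iUnion fun _ => (h1 c _ ⟨i, rfl⟩).1,
    fun i => iUnion₂_subset fun c _ => (h1 c _ ⟨i, rfl⟩).2, eq_univ_of_forall fun z => ?_,
    fun x => ?_⟩
  · obtain ⟨c, hc⟩ := hz z
    obtain ⟨_, ⟨i, rfl⟩, hi⟩ := h2 c z hc
    obtain ⟨j, hj, hm⟩ := (wellFounded_lt (α := Fin k)).has_min {j | U j = U i} ⟨i, rfl⟩
    exact mem_iUnion.2 ⟨j, mem_iUnion₂.2 ⟨c, fun l hl => not_lt.1 (hm l (hl.trans hj)),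
      (show U j = U i from hj).symm ▸ hi⟩⟩
  · have : ∀ i ∈ {i | x ∈ ⋃ c, ⋃ (_ : ∀ j, U j = U i → i ≤ j), W c (U i)}, ∃ c : Fin 3,
        (∀ j, U j = U i → i ≤ j) ∧ x ∈ W c (U i) := fun i hi => by
      obtain ⟨c, h, h'⟩ := mem_iUnion₂.1 hi
      exact ⟨c, h, h'⟩
    choose! c hc using this
    refine (ncard_le_ncard_of_injOn c (t := univ) (fun _ _ => trivial) fun i hi j hj e => ?_).trans
      (by simp [ncard_univ])
    have := h3 (c i) x _ _ (hc i hi).2 (e ▸ (hc j hj).2)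
    exact le_antisymm ((hc i hi).1 j this.symm) ((hc j hj).1 i this)

theorem dim_ge : ¬ ∀ (k : ℕ) (U : Fin k → Set X), (∀ i, IsOpen (U i)) → (⋃ i, U i) = univ →
    ∃ V : Fin k → Set X, (∀ i, IsOpen (V i)) ∧ (∀ i, V i ⊆ U i) ∧ (⋃ i, V i) = univ ∧
      ∀ x : X, {i | x ∈ V i}.ncard ≤ 2 := by
  intro H
  obtain ⟨V, h1, h2, h3, h4⟩ := H 3 ![{p | p.1.1 < 0}, {p | p.1.2 < 0},
    {p | -1 < p.1.1} ∩ {p | -1 < p.1.2}] (fun i => by
      fin_cases i
      exacts [isOpen_lt (by fun_prop) (by fun_prop), isOpen_lt (by fun_prop) (by fun_prop),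
        (isOpen_lt (by fun_prop) (by fun_prop)).inter (isOpen_lt (by fun_prop) (by fun_prop))])
    (eq_univ_of_forall fun p => by
      by_cases a : p.1.1 < 0
      · exact mem_iUnion.2 ⟨0, a⟩
      by_cases b : p.1.2 < 0
      · exact mem_iUnion.2 ⟨1, b⟩
      exact mem_iUnion.2 ⟨2, show -1 < p.1.1 by linarith, show -1 < p.1.2 by linarith⟩)
  choose φ c1 c2 using fun i => MazA.bumpf (h1 i)
  let r : ℝ → ℝ := fun t => -max 0 (min 1 t)
  have hr : ∀ t, r t ∈ Icc (-1:ℝ) 0 := fun t =>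
    ⟨neg_le_neg (max_le zero_le_one (min_le_left _ _)), neg_nonpos.2 (le_max_left _ _)⟩
  let s : (Fin 2 → ℝ) → X := fun x => ⟨(r (x 0), r (x 1)), Or.inr ⟨hr _, hr _⟩⟩
  have hs : Continuous s := Continuous.subtype_mk (by fun_prop) _
  obtain ⟨x, -, h0⟩ := H51.LebN.miranda 2 1 one_pos
    (fun x => ![φ 0 (s x) - φ 2 (s x), φ 1 (s x) - φ 2 (s x)])
    (continuous_pi fun i => by
      fin_cases i
      exacts [((c1 0).comp hs).sub ((c1 2).comp hs), ((c1 1).comp hs).sub ((c1 2).comp hs)])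
    (fun x i hi => by
      fin_cases i
      · have := (c2 0 (s x)).2.2 fun k => by simpa [s, r, show x 0 = 0 from hi] using h2 0 k
        show φ 0 (s x) - φ 2 (s x) ≤ 0
        linarith [(c2 2 (s x)).1]
      · have := (c2 1 (s x)).2.2 fun k => by simpa [s, r, show x 1 = 0 from hi] using h2 1 k
        show φ 1 (s x) - φ 2 (s x) ≤ 0
        linarith [(c2 2 (s x)).1])
    (fun x i hi => by
      fin_cases i
      · have := (c2 2 (s x)).2.2 fun k => by simpa [s, r, show x 0 = 1 from hi] using (h2 2 k).1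
        show 0 ≤ φ 0 (s x) - φ 2 (s x)
        linarith [(c2 0 (s x)).1]
      · have := (c2 2 (s x)).2.2 fun k => by simpa [s, r, show x 1 = 1 from hi] using (h2 2 k).2
        show 0 ≤ φ 1 (s x) - φ 2 (s x)
        linarith [(c2 1 (s x)).1])
  have e1 : φ 0 (s x) = φ 2 (s x) := sub_eq_zero.1 (congrFun h0 0)
  have e2 : φ 1 (s x) = φ 2 (s x) := sub_eq_zero.1 (congrFun h0 1)
  have e3 : ∀ i, φ i (s x) = φ 2 (s x) := fun i => by fin_cases i; exacts [e1, e2, rfl]
  obtain ⟨i, hi⟩ := mem_iUnion.1 (h3 ▸ mem_univ (s x))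
  have : {i | s x ∈ V i} = univ := eq_univ_of_forall fun j => by
    by_contra hn
    exact (c2 i _).2.1 ((e3 i).trans ((e3 j).symm.trans ((c2 j _).2.2 hn))) hi
  simpa [this, ncard_univ] using h4 (s x)

theorem no_map {F : Type} [NormedAddCommGroup F] [NormedSpace ℝ F]
    (K : Geometry.SimplicialComplex ℝ F) (hf : K.faces.Finite) (h3 : ∃ s ∈ K.faces, s.card = 2 + 1)
    (π : X → K.space) (hp : Continuous π) (hs : Function.Surjective π)
    (hm : ∀ y, IsConnected (π ⁻¹' {y})) (x0 : X) (hx0 : ∀ x : X, x.1 ∈ D → π x0 ≠ π x) :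
    False := by
  classical
  set W : Set K.space := (π '' {x | x.1 ∈ D})ᶜ
  have hW : IsOpen W := ((D_compact.isClosed.preimage continuous_subtype_val).isCompact.image
    hp).isClosed.isOpen_compl
  have w0 : π x0 ∈ W := fun ⟨x, h, e⟩ => hx0 x h e.symm
  set B : Set K.space := π '' {x | x.1 ∈ M}
  have hB : B.Countable := (M_count.preimage Subtype.val_injective).image π
  have hq := (hp.isClosedMap.isQuotientMap hp hs).isCoinducing
  have A : ∀ C ⊆ W, IsClosed C → IsConnected C → Disjoint C B → (π ⁻¹' C).Subsingleton :=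
    fun C h1 h2 h3 h4 => subsingleton_of_image Subtype.val_injective _ (tot
      ((hq.isConnected_preimage_of_isClosed hm h2 h3).2.image _ continuous_subtype_val.continuousOn)
      (image_subset_iff.2 fun x hx => ⟨x.2.resolve_right fun h => h1 hx ⟨x, h, rfl⟩,
        fun h => disjoint_left.1 h4 hx ⟨x, h, rfl⟩⟩))
  by_cases hc : ∃ s ∈ K.faces, 2 < s.card ∧ ∃ y ∈ W, y.1 ∈ convexHull ℝ (s : Set F)
  · obtain ⟨s, hs', h2, y, hy, hys⟩ := hc
    obtain ⟨a, ha, b, hb, c, hc, ab, ac, bc⟩ := Finset.two_lt_card.1 h2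
    have ind : ∀ u v : ℝ, u • (b - a) + v • (c - a) = 0 → u = 0 ∧ v = 0 := fun u v h => by
      have n1 : (⟨b, hb⟩ : s) ≠ ⟨a, ha⟩ := fun e => ab (congrArg Subtype.val e).symm
      have n2 : (⟨c, hc⟩ : s) ≠ ⟨a, ha⟩ := fun e => ac (congrArg Subtype.val e).symm
      have n3 : (⟨c, hc⟩ : s) ≠ ⟨b, hb⟩ := fun e => bc (congrArg Subtype.val e).symm
      have := affineIndependent_iff.1 (K.indep hs') {⟨a, ha⟩, ⟨b, hb⟩, ⟨c, hc⟩}
        (fun z => if z = ⟨a, ha⟩ then -(u + v) else if z = ⟨b, hb⟩ then u else v)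
        (by
          rw [Finset.sum_insert (by simp [ab, ac]), Finset.sum_pair n3.symm]
          simp [n1, n2, n3])
        (by
          rw [Finset.sum_insert (by simp [ab, ac]), Finset.sum_pair n3.symm]
          simp only [n1, n2, n3, if_true, if_false]
          rw [← h]; module)
      exact ⟨by simpa [n1] using this ⟨b, hb⟩ (by simp),
        by simpa [n2, n3] using this ⟨c, hc⟩ (by simp)⟩
    obtain ⟨r, hr, hrW⟩ := Metric.isOpen_iff.1 hW y hy
    obtain ⟨R, hR, hRs⟩ := (s.finite_toSet.isCompact_convexHull ℝ).isBounded.subset_ball_lt r y.1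
    have R0 : 0 < R := hr.trans hR
    have cv := convex_convexHull ℝ (s : Set F)
    have sb := subset_convexHull ℝ (s : Set F)
    have m1 : ∀ u v : Icc (0:ℝ) (1 / 2), a + u.1 • (b - a) + v.1 • (c - a) ∈
        convexHull ℝ (s : Set F) := fun u v => by
      have := cv (cv.add_smul_sub_mem (sb ha) (sb hb) (t := 2 * u.1) ⟨by linarith [u.2.1],
        by linarith [u.2.2]⟩) (cv.add_smul_sub_mem (sb ha) (sb hc) (t := 2 * v.1)
        ⟨by linarith [v.2.1], by linarith [v.2.2]⟩) (a := 1 / 2) (b := 1 / 2) (by norm_num)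
        (by norm_num) (by norm_num)
      convert this using 1; module
    have δ0 : 0 < r / R := div_pos hr R0
    let γ : Icc (0:ℝ) (1 / 2) → Icc (0:ℝ) (1 / 2) → K.space := fun u v =>
      ⟨y.1 + (r / R) • (a + u.1 • (b - a) + v.1 • (c - a) - y.1), K.convexHull_subset_space hs'
        (cv.add_smul_sub_mem hys (m1 u v) ⟨δ0.le, (div_le_one R0).2 hR.le⟩)⟩
    have γc : ∀ u, Continuous (γ u) := fun u => Continuous.subtype_mk (by fun_prop) _
    have γi : ∀ u v u' v', γ u v = γ u' v' → u = u' ∧ v = v' := fun u v u' v' h => by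
      have h1 := sub_left_injective (smul_right_injective F δ0.ne'
        (add_left_cancel (congrArg Subtype.val h)))
      obtain ⟨k1, k2⟩ := ind (u.1 - u'.1) (v.1 - v'.1) (by
        rw [← sub_eq_zero.2 h1]; module)
      exact ⟨Subtype.ext (sub_eq_zero.1 k1), Subtype.ext (sub_eq_zero.1 k2)⟩
    have γW : ∀ u v, γ u v ∈ W := fun u v => hrW (by
      have := hRs (m1 u v)
      rw [mem_ball, dist_eq_norm] at this
      show dist (γ u v).1 y.1 < r
      rw [dist_eq_norm, add_sub_cancel_left, norm_smul, Real.norm_of_nonneg δ0.le,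
        div_mul_eq_mul_div, div_lt_iff₀ R0]
      exact mul_lt_mul_of_pos_left this hr)
    have : ConnectedSpace (Icc (0:ℝ) (1 / 2)) :=
      isConnected_iff_connectedSpace.1 (isConnected_Icc (by norm_num))
    have k : ∀ u, ∃ v, γ u v ∈ B := fun u => by
      by_contra hn
      push Not at hn
      obtain ⟨p, hp'⟩ := hs (γ u ⟨0, by norm_num⟩)
      obtain ⟨q, hq'⟩ := hs (γ u ⟨1 / 2, by norm_num⟩)
      have := A (range (γ u)) (range_subset_iff.2 (γW u)) (isCompact_range (γc u)).isClosed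
        (isConnected_range (γc u)) (disjoint_left.2 (forall_mem_range.2 hn)) ⟨_, hp'.symm⟩
        ⟨_, hq'.symm⟩
      have := congrArg Subtype.val (γi _ _ _ _ (hp'.symm.trans (this ▸ hq'))).2
      norm_num at this
    choose v hv using k
    have := (hB.preimage (f := fun u => γ u (v u)) fun u u' h => (γi _ _ _ _ h).1).mono
      (s₁ := univ) fun u _ => hv u
    rw [countable_univ_iff, countable_coe_iff] at this
    exact Cardinal.aleph0_lt_continuum.not_ge ((Cardinal.mk_Icc_real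
      (by norm_num : (0:ℝ) < 1 / 2)).symm.le.trans (Cardinal.le_aleph0_iff_set_countable.2 this))
  push Not at hc
  have hV : (⋃ s ∈ K.faces, (s : Set F)).Finite := hf.biUnion fun s _ => s.finite_toSet
  obtain ⟨y, hy, yB, yV⟩ : ∃ y ∈ W, y ∉ B ∧ y.1 ∉ ⋃ s ∈ K.faces, (s : Set F) := by
    by_contra hn
    push Not at hn
    have cW : W.Countable := (hB.union (hV.countable.preimage Subtype.val_injective)).mono
      fun y hy => (em (y ∈ B)).imp id (hn y hy)
    obtain ⟨s, hs', h2⟩ := h3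
    obtain ⟨a, ha, hne⟩ : ∃ a ∈ s, a ≠ (π x0).1 := Finset.exists_mem_ne (by omega) _
    obtain ⟨x1, e1⟩ := hs ⟨a, K.subset_space hs' ha⟩
    obtain ⟨r, hr, hrW⟩ := Metric.isOpen_iff.1 hW _ w0
    have d0 : 0 < dist (π x1) (π x0) := dist_pos.2 fun e => hne (congrArg Subtype.val (e1 ▸ e))
    have := (cW.image fun z => dist z (π x0)).mono (s₁ := Ioo 0 (min r (dist (π x1) (π x0))))
      fun t ht => by
        obtain ⟨x, -, e⟩ := isPreconnected_univ.intermediate_value (mem_univ x0) (mem_univ x1)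
          (f := fun x => dist (π x) (π x0)) (by fun_prop)
          (show t ∈ _ from ⟨by simpa using ht.1.le, (ht.2.trans_le (min_le_right _ _)).le⟩)
        exact ⟨π x, hrW (show dist _ _ < r from e.trans_lt (ht.2.trans_le (min_le_left _ _))), e⟩
    exact Cardinal.aleph0_lt_continuum.not_ge ((Cardinal.mk_Ioo_real (lt_min hr d0)).symm.le.trans
      (Cardinal.le_aleph0_iff_set_countable.2 this))
  obtain ⟨s, hs', hys⟩ := Geometry.SimplicialComplex.mem_space_iff.1 y.2
  have one : ∀ t : Finset F, t ⊆ s → t.card ≤ 1 → y.1 ∉ convexHull ℝ (t : Set F) := by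
    intro t ht h1 h2
    rcases Finset.card_le_one_iff_subset_singleton.1 h1 with ⟨a, ha⟩
    obtain ⟨b, hb⟩ := convexHull_nonempty_iff.1 ⟨_, h2⟩
    have := convexHull_mono (𝕜 := ℝ) (Finset.coe_subset.2 ha) h2
    rw [Finset.coe_singleton, convexHull_singleton] at this
    have e : b = a := Finset.mem_singleton.1 (ha hb)
    exact yV (mem_iUnion₂.2 ⟨s, hs', this.symm ▸ e ▸ ht hb⟩)
  have c2 : ∀ t ∈ K.faces, y.1 ∈ convexHull ℝ (t : Set F) → t.card ≤ 2 := fun t ht h =>
    not_lt.1 fun k => hc t ht k y hy h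
  obtain ⟨a, b, ab, rfl⟩ := Finset.card_eq_two.1 (le_antisymm (c2 s hs' hys)
    (not_le.1 fun h => one s subset_rfl h hys))
  have oth : ∀ t ∈ K.faces \ {{a, b}}, y.1 ∉ convexHull ℝ (t : Set F) := fun t ht h => by
    have h1 := K.inter_subset_convexHull hs' ht.1 ⟨hys, h⟩
    rw [← Finset.coe_inter] at h1
    refine one _ Finset.inter_subset_left (not_lt.1 fun k => ht.2 ?_) h1
    have e1 : {a, b} ∩ t = {a, b} := Finset.eq_of_subset_of_card_le Finset.inter_subset_left
      (by rw [Finset.card_pair ab]; exact k)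
    exact (Finset.eq_of_subset_of_card_le (Finset.inter_eq_left.1 e1)
      (by rw [Finset.card_pair ab]; exact c2 t ht.1 h)).symm
  have cl : IsClosed (⋃ t ∈ K.faces \ {{a, b}}, convexHull ℝ (t : Set F)) :=
    (hf.subset sdiff_subset).isClosed_biUnion fun t _ =>
      (t.finite_toSet.isCompact_convexHull ℝ).isClosed
  have seg : convexHull ℝ (({a, b} : Finset F) : Set F) = (fun t : ℝ => a + t • (b - a)) '' Icc 0 1 := by
    rw [Finset.coe_pair, convexHull_pair, segment_eq_image']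
  have nab : 0 < ‖b - a‖ := norm_pos_iff.2 (sub_ne_zero.2 ab.symm)
  have ds : ∀ t : ℝ, 0 ≤ t → dist (a + t • (b - a)) a = t * ‖b - a‖ := fun t ht => by
    rw [dist_eq_norm, add_sub_cancel_left, norm_smul, Real.norm_of_nonneg ht]
  obtain ⟨t0, ht0, e0⟩ := seg ▸ hys
  have t1 : 0 < t0 := ht0.1.lt_of_ne fun e => yV (mem_iUnion₂.2 ⟨_, hs', by
    rw [← e0, ← e]; simp⟩)
  have t2 : t0 < 1 := ht0.2.lt_of_ne fun e => yV (mem_iUnion₂.2 ⟨_, hs', by
    rw [← e0, e]; simp⟩)
  obtain ⟨x, rfl⟩ := hs y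
  have xD : x.1 ∉ D := fun h => hy ⟨x, h, rfl⟩
  have fib := A {π x} (singleton_subset_iff.2 hy) isClosed_singleton isConnected_singleton
    (disjoint_singleton_left.2 yB)
  obtain ⟨ε, hε, hb⟩ := Metric.isOpen_iff.1 (cl.isOpen_compl.preimage
    (continuous_subtype_val.comp hp)) x (fun h => by
      obtain ⟨t, ht, h⟩ := mem_iUnion₂.1 h
      exact oth t ht h)
  obtain ⟨n, hn⟩ := exists_pow_lt_of_lt_one hε (by norm_num : (1 / 2 : ℝ) < 1)
  obtain ⟨N, n1, -, -, n4, n5, n6⟩ := nb n x.1 (x.2.resolve_right xD)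
  have n7 : Subtype.val ⁻¹' N ∈ 𝓝 x := preimage_coe_mem_nhds_subtype.2 (by
    rw [nhdsWithin_union, mem_sup]
    have : 𝓝[D] x.1 = ⊥ := not_neBot.1 fun h => xD (D_compact.isClosed.closure_subset
      (mem_closure_iff_nhdsWithin_neBot.2 h))
    exact ⟨n5, this ▸ mem_bot⟩)
  have n8 : IsPreconnected (Subtype.val ⁻¹' (N \ {x.1}) : Set X) :=
    IsInducing.subtypeVal.isPreconnected_image.1 (by
      rw [Subtype.image_preimage_coe, inter_eq_right.2
        ((sdiff_subset.trans n1).trans subset_union_left)]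
      exact n6 fun h => yB ⟨x, h, rfl⟩)
  have cY : IsClosed (Subtype.val '' (π '' (interior (Subtype.val ⁻¹' N))ᶜ)) :=
    ((isOpen_interior.isClosed_compl.isCompact.image hp).image continuous_subtype_val).isClosed
  have ev : ∀ᶠ t in 𝓝 t0, a + t • (b - a) ∉ Subtype.val '' (π '' (interior (Subtype.val ⁻¹' N))ᶜ)
      ∧ t ∈ Icc (0:ℝ) 1 := by
    refine Eventually.and (ContinuousAt.eventually_mem (f := fun t : ℝ => a + t • (b - a))
      (by fun_prop) (cY.isOpen_compl.mem_nhds ?_)) (Icc_mem_nhds t1 t2)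
    rintro ⟨_, ⟨z, hz, rfl⟩, e⟩
    exact hz (fib (show π z = π x from Subtype.ext (e.trans e0)) rfl ▸ mem_interior_iff_mem_nhds.2 n7)
  have pt : ∀ᶠ t in 𝓝 t0, t ≠ t0 → ∃ p ∈ (Subtype.val ⁻¹' (N \ {x.1}) : Set X),
      dist (π p).1 a = t * ‖b - a‖ := ev.mono fun t ht hne => by
    obtain ⟨p, hp'⟩ := hs ⟨a + t • (b - a), K.convexHull_subset_space hs' (seg ▸ ⟨t, ht.2, rfl⟩)⟩
    have e1 : dist (π p).1 a = t * ‖b - a‖ := by rw [hp']; exact ds t ht.2.1
    refine ⟨p, ⟨interior_subset (s := (Subtype.val ⁻¹' N : Set X))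
      (not_not.1 fun h => ht.1 ⟨_, ⟨p, h, hp'⟩, rfl⟩), fun h => ?_⟩, e1⟩
    rw [Subtype.ext h, ← e0, ds t0 t1.le] at e1
    exact hne (mul_right_cancel₀ nab.ne' e1).symm
  obtain ⟨u, u1, u2⟩ := ((pt.filter_mono nhdsWithin_le_nhds).and self_mem_nhdsWithin).exists
    (f := 𝓝[<] t0)
  obtain ⟨v, v1, v2⟩ := ((pt.filter_mono nhdsWithin_le_nhds).and self_mem_nhdsWithin).exists
    (f := 𝓝[>] t0)
  obtain ⟨p, p1, p2⟩ := u1 (ne_of_lt u2)
  obtain ⟨q, q1, q2⟩ := v1 (ne_of_gt v2)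
  obtain ⟨z, hz, e⟩ := n8.intermediate_value p1 q1 (f := fun z => dist (π z).1 a) (by fun_prop)
    (show t0 * ‖b - a‖ ∈ _ from ⟨p2.trans_le (mul_le_mul_of_nonneg_right (le_of_lt u2) nab.le),
      (mul_le_mul_of_nonneg_right (le_of_lt v2) nab.le).trans_eq q2.symm⟩)
  obtain ⟨t, ht, hzt⟩ := Geometry.SimplicialComplex.mem_space_iff.1 (π z).2
  by_cases k : t = {a, b}
  · obtain ⟨w, hw, e1⟩ := seg ▸ k ▸ hzt
    have e2 : dist (π z).1 a = t0 * ‖b - a‖ := e
    rw [← e1, ds w hw.1] at e2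
    have e3 : π z = π x := Subtype.ext (e1.symm.trans (mul_right_cancel₀ nab.ne' e2 ▸ e0))
    exact hz.2 (congrArg Subtype.val (fib e3 rfl))
  · exact hb ((n4 z.1 hz.1).trans_lt hn) (mem_iUnion₂.2 ⟨t, ⟨ht, k⟩, hzt⟩)

end Pool.Agent.H82.GasB
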