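import Mathlib

set_option autoImplicit false

namespace Pool.Agent.H82.GrothDefs

/-- every infinite subset of `A` has an accumulation point in the ambient space -/
def RelCC {Z : Type} [TopologicalSpace Z] (A : Set Z) : Prop :=
  ∀ B ⊆ A, B.Infinite → ∃ z : Z, AccPt z (Filter.principal B)

def GSpace (Z : Type) [TopologicalSpace Z] : Prop :=
  ∀ A : Set Z, RelCC A → IsCompact (closure A)

/-- every subspace of the pointwise function space is a g-space -/
def Grothendieck (X : Type) [TopologicalSpace X] : Prop :=
  ∀ S : Set {f : X → ℝ // Continuous f}, GSpace S

end Pool.Agent.H82.GrothDefs
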