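import Mathlib

set_option autoImplicit false

/-! The Helly space: basic facts. -/

namespace Pool.Agent.H82.Hel

open Set Filter Topology Function TopologicalSpace

/-- the Helly space -/
def H : Set (ℝ → ℝ) := {f | Monotone f ∧ ∀ x, f x ∈ Icc (0 : ℝ) 1}

lemma isClosed_H : IsClosed H := by
  have : H = (⋂ x, ⋂ y, ⋂ (_ : x ≤ y), {f : ℝ → ℝ | f x ≤ f y}) ∩
      ⋂ x, (fun f : ℝ → ℝ => f x) ⁻¹' Icc 0 1 := by
    ext f; simp only [H, Monotone, mem_ofPred_eq, mem_inter_iff, mem_iInter, mem_preimage]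
  rw [this]
  exact (isClosed_iInter fun x => isClosed_iInter fun y => isClosed_iInter fun _ =>
    isClosed_le (continuous_apply x) (continuous_apply y)).inter
    (isClosed_iInter fun x => isClosed_Icc.preimage (continuous_apply x))

lemma isCompact_H : IsCompact H :=
  (isCompact_univ_pi fun _ => isCompact_Icc (a := (0 : ℝ)) (b := 1)).of_isClosed_subset isClosed_H
    fun _ hf x _ => hf.2 x

lemma interp {f : ℝ → ℝ} (hf : f ∈ H) (s : Finset ℝ) :
    ∃ g ∈ H, Continuous g ∧ ∀ x ∈ s, g x = f x := by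
  induction s using Finset.induction_on_max with
  | empty => exact ⟨fun _ => 0, ⟨monotone_const, by simp⟩, continuous_const, by simp⟩
  | insert a s h ih =>
    obtain ⟨g, ⟨h1, h2⟩, h3, h4⟩ := ih
    obtain ⟨c, h5, h6⟩ : ∃ c < a, ∀ x ∈ s, x ≤ c := by
      rcases s.eq_empty_or_nonempty with rfl | hs
      · exact ⟨a - 1, sub_one_lt a, by simp⟩
      · exact ⟨s.max' hs, h _ (s.max'_mem hs), fun x hx => s.le_max' x hx⟩
    have h7 := sub_pos.2 h5
    refine ⟨fun x => max (min (g x) (f a)) (min (f a) ((x - c) / (a - c))), ⟨fun x y hxy =>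
      max_le_max (min_le_min_right _ (h1 hxy)) (min_le_min_left _ (by gcongr)), fun x =>
      ⟨le_max_of_le_left (le_min (h2 x).1 (hf.2 a).1), max_le (min_le_of_left_le (h2 x).2)
        (min_le_of_left_le (hf.2 a).2)⟩⟩, by fun_prop, fun x hx => ?_⟩
    rcases Finset.mem_insert.1 hx with rfl | hx
    · simp only [div_self h7.ne', min_eq_left (hf.2 x).2]
      exact max_eq_right (min_le_right _ _)
    · simp only [h4 x hx, min_eq_left (hf.1 (h x hx).le)]
      exact max_eq_left ((min_le_right _ _).trans ((div_nonpos_of_nonpos_of_nonneg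
        (sub_nonpos.2 (h6 x hx)) h7.le).trans (hf.2 x).1))

lemma exists_D : ∃ D ⊆ H, D.Countable ∧ (∀ d ∈ D, Continuous d) ∧ H ⊆ closure D := by
  have : SecondCountableTopology C(ℝ, ℝ) := inferInstance
  have : SecondCountableTopology {g : C(ℝ, ℝ) // ⇑g ∈ H} :=
    TopologicalSpace.Subtype.secondCountableTopology _
  obtain ⟨c, h1, h2⟩ := exists_countable_dense {g : C(ℝ, ℝ) // ⇑g ∈ H}
  have h3 : Continuous fun g : {g : C(ℝ, ℝ) // ⇑g ∈ H} => ⇑g.1 :=
    continuous_pi fun x => (continuous_eval_const x).comp continuous_subtype_val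
  refine ⟨(fun g : {g : C(ℝ, ℝ) // ⇑g ∈ H} => ⇑g.1) '' c, image_subset_iff.2 fun g _ => g.2, h1.image _,
    forall_mem_image.2 fun g _ => g.1.2, fun f hf => ?_⟩
  rw [← closure_closure]
  refine mem_closure_iff.2 fun U hU h4 => ?_
  obtain ⟨s, u, h5, h6⟩ := isOpen_pi_iff.1 hU f h4
  obtain ⟨g, h7, h8, h9⟩ := interp hf s
  exact ⟨g, h6 fun x hx => h9 x hx ▸ (h5 x hx).2, image_closure_subset_closure_image h3
    ⟨⟨⟨g, h8⟩, h7⟩, h2 _, rfl⟩⟩

lemma ratl {b : ℝ → ℝ} {x c : ℝ} (h : ContinuousAt b x) (hc : c < b x) :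
    ∃ q : ℚ, q < x ∧ c < b q := by
  obtain ⟨l, u, h1, h2⟩ := mem_nhds_iff_exists_Ioo_subset.1 (h (Ioi_mem_nhds hc))
  obtain ⟨q, h3, h4⟩ := exists_rat_btwn h1.1
  exact ⟨q, h4, h2 ⟨h3, h4.trans h1.2⟩⟩

lemma ratr {b : ℝ → ℝ} {x c : ℝ} (h : ContinuousAt b x) (hc : b x < c) :
    ∃ q : ℚ, x < q ∧ b q < c := by
  obtain ⟨l, u, h1, h2⟩ := mem_nhds_iff_exists_Ioo_subset.1 (h (Iio_mem_nhds hc))
  obtain ⟨q, h3, h4⟩ := exists_rat_btwn h1.2
  exact ⟨q, h3, h2 ⟨h1.1.trans h3, h4⟩⟩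

lemma baire1 {f : ℝ → ℝ} (hf : f ∈ H) : ∃ u : ℕ → ℝ → ℝ, (∀ n, Continuous (u n)) ∧
    ∀ x, Tendsto (fun n => u n x) atTop (𝓝 (f x)) := by
  classical
  obtain ⟨a, ha⟩ := (hf.1.countable_not_continuousAt.union
    (countable_range ((↑) : ℚ → ℝ))).exists_eq_range (range_nonempty _).inr
  choose u h1 h2 h3 using fun n => interp hf ((Finset.range n).image a)
  have h4 : ∀ x ∈ range a, ∀ᶠ n in atTop, u n x = f x := by
    rintro _ ⟨k, rfl⟩
    exact (eventually_gt_atTop k).mono fun n hn =>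
      h3 n _ (Finset.mem_image_of_mem _ (Finset.mem_range.2 hn))
  refine ⟨u, h2, fun x => ?_⟩
  by_cases h : ContinuousAt f x
  · refine tendsto_order.2 ⟨fun c hc => ?_, fun c hc => ?_⟩
    · obtain ⟨q, h5, h6⟩ := ratl h hc
      exact (h4 q (ha ▸ Or.inr ⟨q, rfl⟩)).mono fun n hn => (hn ▸ h6).trans_le ((h1 n).1 h5.le)
    · obtain ⟨q, h5, h6⟩ := ratr h hc
      exact (h4 q (ha ▸ Or.inr ⟨q, rfl⟩)).mono fun n hn => ((h1 n).1 h5.le).trans_lt (hn ▸ h6)
  · exact tendsto_const_nhds.congr' (EventuallyEq.symm (h4 x (ha ▸ Or.inl h)))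

lemma upd {b : ℝ → ℝ} (hb : b ∈ H) {y v : ℝ} (h1 : b y ≤ v) (h2 : ∀ x > y, v ≤ b x) :
    update b y v ∈ H := by
  refine ⟨fun x x' h => ?_, fun x => ?_⟩
  · by_cases h3 : x = y <;> by_cases h4 : x' = y
    · rw [h3, h4]
    · rw [h3, update_self, update_of_ne h4]
      exact h2 _ (lt_of_le_of_ne (h3 ▸ h) (Ne.symm h4))
    · rw [h4, update_self, update_of_ne h3]
      exact (hb.1 (h4 ▸ h)).trans h1
    · rw [update_of_ne h3, update_of_ne h4]
      exact hb.1 h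
  · by_cases h3 : x = y
    · rw [h3, update_self]
      exact ⟨(hb.2 y).1.trans h1, (h2 _ (lt_add_one y)).trans (hb.2 _).2⟩
    · rw [update_of_ne h3]
      exact hb.2 x

lemma small {v : ℝ} {U : Set ℝ} (h : U ∈ 𝓝 v) :
    ∃ W ∈ countableBasis ℝ, v ∈ W ∧ closure W ⊆ U := by
  obtain ⟨t, h1, h2, h3⟩ := exists_mem_nhds_isClosed_subset h
  obtain ⟨W, h4, h5, h6⟩ := (isBasis_countableBasis ℝ).mem_nhds_iff.1 h1
  exact ⟨W, h4, h5, (closure_minimal h6 h2).trans h3⟩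

variable {P : Type} {e : (ℝ → ℝ) → P → ℝ}

lemma cont [TopologicalSpace P] (hc : ContinuousOn e H) (p : P) : ContinuousOn (fun f => e f p) H :=
  (continuous_apply p).comp_continuousOn hc

lemma cl {D : Set (ℝ → ℝ)} (hD : D ⊆ H) (hD1 : ∀ d ∈ D, Continuous d) (hD2 : H ⊆ closure D)
    (hc : ∀ p, ContinuousOn (fun f => e f p) H) {Z ι : Type} [TopologicalSpace Z]
    {pt : Z → ι → ℝ} (hpt : Continuous pt) (q : Z → P) {z : Z}
    (hz : ∀ d ∈ D, ContinuousAt (fun z => e d (q z)) z) {O : Set (ι → ℝ)} (hO : IsOpen O)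
    {J : Set ℝ} (hJ : IsClosed J) (h : z ∈ closure {z | ∀ f ∈ H, f ∘ pt z ∈ O → e f (q z) ∈ J}) :
    ∀ f ∈ H, f ∘ pt z ∈ O → e f (q z) ∈ J := by
  intro f hf h1
  have h2 : IsOpen {g : ℝ → ℝ | g ∘ pt z ∈ O} :=
    hO.preimage (continuous_pi fun i => continuous_apply _)
  refine hJ.closure_subset (((hc (q z) f hf).mono (inter_subset_right.trans hD)).mem_closure
    (h2.inter_closure ⟨h1, hD2 hf⟩) fun d hd => ?_)
  refine hJ.mem_of_frequently_of_tendsto (((mem_closure_iff_frequently.1 h).and_eventually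
    ((hO.preimage (f := fun z => d ∘ pt z) (continuous_pi fun i => (hD1 d hd.2).comp
      ((continuous_apply i).comp hpt))).mem_nhds hd.1)).mono fun z' h3 => h3.1 d (hD hd.2) h3.2)
    (hz d hd.2)

lemma mid (hc : ∀ p, ContinuousOn (fun f => e f p) H) {b : ℝ → ℝ} (hb : b ∈ H) {y u t : ℝ}
    (h1 : b y ≤ u) (h2 : u ≤ t) (h3 : ∀ x > y, t ≤ b x) (p : P) : ∃ w ∈ Icc u t,
      e (update b y w) p = midpoint ℝ (e (update b y u) p) (e (update b y t) p) := by
  have h4 : ContinuousOn (fun w => e (update b y w) p) (uIcc u t) :=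
    (hc p).comp (f := fun w => update b y w) (by fun_prop) fun w hw => by
      rw [uIcc_of_le h2] at hw
      exact upd hb (h1.trans hw.1) fun x hx => hw.2.trans (h3 x hx)
  obtain ⟨w, h5, h6⟩ := intermediate_value_uIcc h4
    (by rw [← segment_eq_uIcc]; exact midpoint_mem_segment (𝕜 := ℝ) _ _)
  exact ⟨w, uIcc_of_le h2 ▸ h5, h6⟩

/-- a jump of `b` at `y` with a reserve `[u, t]` seen by the coordinate `p` -/
def Node (e : (ℝ → ℝ) → P → ℝ) (b : ℝ → ℝ) (y : ℝ) (p : P) (J : Set ℝ) (u t : ℝ) : Prop :=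
  IsOpen J ∧ Convex ℝ J ∧ b y ≤ u ∧ u ≤ t ∧ (∀ x > y, t ≤ b x) ∧ e (update b y u) p ∈ J ∧
    e (update b y t) p ∈ J ∧ e (update b y u) p ≠ e (update b y t) p

lemma create (hc : ∀ p, ContinuousOn (fun f => e f p) H) {b : ℝ → ℝ} (hb : b ∈ H) {y t : ℝ}
    (h2 : b y ≤ t) (h3 : ∀ x > y, t ≤ b x) {p : P} (h : e b p ≠ e (update b y t) p) :
    ∃ J u, Node e b y p J u t ∧ e b p ∉ closure J := by
  obtain ⟨u, h4, h5⟩ := mid hc hb le_rfl h2 h3 p
  rw [update_eq_self] at h5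
  have h6 := dist_pos.2 h
  refine ⟨Metric.ball (e (update b y t) p) (3 / 4 * dist (e b p) (e (update b y t) p)), u,
    ⟨Metric.isOpen_ball, convex_ball _ _, h4.1, h4.2, h3, ?_, Metric.mem_ball_self (by linarith),
      ?_⟩, fun h7 => ?_⟩
  · rw [h5, Metric.mem_ball, dist_midpoint_right]
    norm_num
    linarith
  · rw [h5]
    exact fun h7 => h ((midpoint_eq_right_iff ℝ).1 h7)
  · have := Metric.closure_ball_subset_closedBall h7
    rw [Metric.mem_closedBall] at this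
    linarith

end Pool.Agent.H82.Hel
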