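import Pool.Agent.H82.HelA

set_option autoImplicit false

/-! The Helly space: splitting jumps. -/

namespace Pool.Agent.H82.Hel

open Set Filter Topology Function TopologicalSpace

structure St : Type where
  b : ℝ → ℝ
  N : Set (ℝ → ℝ)
  s : Finset ℕ
  J : ℕ → Set ℝ
  u : ℕ → ℝ
  t : ℕ → ℝ

variable {P : Type} {e : (ℝ → ℝ) → P → ℝ}

def Inv (e : (ℝ → ℝ) → P → ℝ) (Y : ℕ → ℝ) (Q : ℕ → P) (σ : St) : Prop :=
  σ.b ∈ H ∧ (∀ x ∉ range Y, ContinuousAt σ.b x) ∧ σ.N ⊆ H ∧ IsClosed σ.N ∧ σ.N ∈ 𝓝[H] σ.b ∧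
    ∀ i ∈ σ.s, Node e σ.b (Y i) (Q i) (σ.J i) (σ.u i) (σ.t i) ∧
      ∀ f ∈ σ.N, e f (Q i) ∉ closure (σ.J i)

lemma shrink {b : ℝ → ℝ} {M : Set (ℝ → ℝ)} (h : M ∈ 𝓝[H] b) :
    ∃ N ⊆ H, IsClosed N ∧ N ∈ 𝓝[H] b ∧ N ⊆ M := by
  obtain ⟨U, h1, h2⟩ := mem_nhdsWithin_iff_exists_mem_nhds_inter.1 h
  obtain ⟨C, h3, h4, h5⟩ := exists_mem_nhds_isClosed_subset h1
  exact ⟨C ∩ H, inter_subset_right, h4.inter isClosed_H, inter_mem (mem_nhdsWithin_of_mem_nhds h3)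
    self_mem_nhdsWithin, (inter_subset_inter_left _ h5).trans h2⟩

lemma contAt_update {b : ℝ → ℝ} {x y v : ℝ} (h : ContinuousAt b x) (hx : x ≠ y) :
    ContinuousAt (update b y v) x :=
  h.congr ((eventually_ne_nhds hx).mono fun _ h => (update_of_ne h _ _).symm)

lemma step (hc : ∀ p, ContinuousOn (fun f => e f p) H) {Y : ℕ → ℝ} (hY : Injective Y) {Q : ℕ → P}
    {i : ℕ} {L : Filter ℕ} [L.NeBot] (hL : Tendsto Y L (𝓝[>] (Y i)))
    (TR : ∀ b ∈ H, (∀ x ∉ range Y, ContinuousAt b x) → ∀ g : ℕ → ℝ → ℝ,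
      (∀ᶠ j in L, g j ∈ H ∧ g j (Y j) = b (Y i)) → (∀ x ≠ Y i, ∀ᶠ j in L, g j x = b x) →
        Tendsto (fun j => e (g j) (Q j)) L (𝓝 (e b (Q i))))
    {σ : St} (hσ : Inv e Y Q σ) (hi : i ∈ σ.s) {V : Set ℕ} (hV : V ∈ L) :
    ∃ σ' : St, Inv e Y Q σ' ∧ σ'.N ⊆ σ.N ∧ σ.s ⊆ σ'.s ∧ (∀ m ∈ σ.s, σ'.J m = σ.J m) ∧
      ∃ j ∈ σ'.s, j ∈ V ∧ ∀ f ∈ σ'.N, e f (Q j) ∈ σ.J i := by
  classical
  obtain ⟨b, N, s, J, u, t⟩ := σ
  obtain ⟨h1, h2, h3, h4, h5, h6⟩ := hσ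
  simp only at h1 h2 h3 h4 h5 h6 hi ⊢
  obtain ⟨⟨h7, h8, h9, h10, h11, h12, h13, h14⟩, -⟩ := h6 i hi
  obtain ⟨w, ⟨h15, h16⟩, h17⟩ := mid hc h1 h9 h10 h11 (Q i)
  have h18 : e (update b (Y i) w) (Q i) ∈ J i := h17 ▸ h8.midpoint_mem h12 h13
  let g : ℕ → ℝ → ℝ := fun j r => if r ≤ Y j then min (b r) w else b r
  have hg : ∀ j, g j ∈ H := fun j => ⟨fun r r' h => by
      simp only [g]
      split_ifs with h19 h20 h20
      · exact min_le_min_right _ (h1.1 h)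
      · exact (min_le_left _ _).trans (h1.1 h)
      · exact absurd (h.trans h20) h19
      · exact h1.1 h, fun r => by
      simp only [g]
      split_ifs
      · exact ⟨le_min (h1.2 r).1 ((h1.2 _).1.trans (h9.trans h15)), min_le_of_left_le (h1.2 r).2⟩
      · exact h1.2 r⟩
  have hgle : ∀ j r, g j r ≤ b r := fun j r => by
    simp only [g]
    split_ifs
    exacts [min_le_left _ _, le_rfl]
  have hgge : ∀ j r c, c ≤ b r → c ≤ w → c ≤ g j r := fun j r c h19 h20 => by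
    simp only [g]
    split_ifs
    exacts [le_min h19 h20, h19]
  have hlt : ∀ r, Y i < r → ∀ᶠ j in L, Y j < r := fun r hr =>
    hL.eventually (mem_nhdsWithin_of_mem_nhds (Iio_mem_nhds hr))
  have hgt : ∀ᶠ j in L, Y i < Y j := hL.eventually self_mem_nhdsWithin
  have hgb : ∀ r, ∀ᶠ j in L, g j r = b r := fun r => by
    rcases le_or_gt r (Y i) with h | h
    · refine Eventually.of_forall fun j => ?_
      simp only [g, min_eq_left ((h1.1 h).trans (h9.trans h15)), ite_self]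
    · exact (hlt r h).mono fun j hj => if_neg hj.not_ge
  have hgj : ∀ᶠ j in L, g j (Y j) = w ∧ ∀ x > Y j, t i ≤ g j x := hgt.mono fun j hj =>
    ⟨(if_pos le_rfl).trans (min_eq_right (h16.trans (h11 _ hj))), fun x hx =>
      (h11 x (hj.trans hx)).trans_eq (if_neg hx.not_ge).symm⟩
  have h19 : ∀ v ∈ Icc w (t i), Tendsto (fun j => e (update (g j) (Y j) v) (Q j)) L
      (𝓝 (e (update b (Y i) v) (Q i))) := fun v hv =>
    TR _ (upd h1 (h9.trans (h15.trans hv.1)) fun x hx => hv.2.trans (h11 x hx))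
      (fun x hx => contAt_update (h2 x hx) fun h => hx ⟨i, h.symm⟩) _
      (hgj.mono fun j hj => ⟨upd (hg j) (hj.1.trans_le hv.1) fun x hx => hv.2.trans (hj.2 x hx),
        by rw [update_self, update_self]⟩) fun x hx => by
      filter_upwards [hgb x, (hL.mono_right nhdsWithin_le_nhds).eventually
        (eventually_ne_nhds hx.symm)] with j h19 h20
      rw [update_of_ne h20.symm, update_of_ne hx, h19]
  let t' := update t i w
  have h20 : ∀ m ∈ s, ∀ᶠ j in L, j ≠ m ∧ Node e (g j) (Y m) (Q m) (J m) (u m) (t' m) := by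
    intro m hm
    obtain ⟨⟨k1, k2, k3, k4, k5, k6, k7, k8⟩, -⟩ := h6 m hm
    have k9 : u m ≤ t' m ∧ t' m ≤ t m ∧ e (update b (Y m) (t' m)) (Q m) ∈ J m ∧
        e (update b (Y m) (u m)) (Q m) ≠ e (update b (Y m) (t' m)) (Q m) ∧
        ∀ᶠ j in L, j ≠ m ∧ ∀ x > Y m, t' m ≤ g j x := by
      by_cases h : m = i
      · subst h
        simp only [t', update_self]
        exact ⟨h15, h16, h18, fun h => h14 ((left_eq_midpoint_iff ℝ).1 (h.trans h17)), hgt.mono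
          fun j hj => ⟨fun h => hj.ne' (h ▸ rfl), fun x hx =>
            hgge j x w (h16.trans (h11 x hx)) le_rfl⟩⟩
      · simp only [t', update_of_ne h]
        refine ⟨k4, le_rfl, k7, k8, ?_⟩
        rcases lt_or_gt_of_ne (hY.ne h) with h21 | h21
        · exact hgt.mono fun j hj => ⟨fun h => (h21.trans hj).ne' (h ▸ rfl), fun x hx =>
            hgge j x _ (k5 x hx) ((k5 _ h21).trans (h9.trans h15))⟩
        · exact (hlt _ h21).mono fun j hj => ⟨fun h => hj.ne (h ▸ rfl), fun x hx =>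
            (k5 x hx).trans_eq (if_neg (hj.trans hx).not_ge).symm⟩
    obtain ⟨k9, k10, k11, k12, k13⟩ := k9
    have k14 : ∀ v ∈ Icc (u m) (t' m), Tendsto (fun j => e (update (g j) (Y m) v) (Q m)) L
        (𝓝 (e (update b (Y m) v) (Q m))) := fun v hv =>
      (hc (Q m) _ (upd h1 (k3.trans hv.1) fun x hx => hv.2.trans (k10.trans (k5 x hx)))).tendsto.comp
        (tendsto_nhdsWithin_iff.2 ⟨(continuous_id.update (Y m) continuous_const).continuousAt.tendsto.comp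
          (tendsto_pi_nhds.2 fun r => tendsto_const_nhds.congr' (EventuallyEq.symm (hgb r))),
          k13.mono fun j hj => upd (hg j) ((hgle j _).trans (k3.trans hv.1))
            fun x hx => hv.2.trans (hj.2 x hx)⟩)
    have k15 := k14 _ ⟨le_rfl, k9⟩
    have k16 := k14 _ ⟨k9, le_rfl⟩
    filter_upwards [k13, k15.eventually (k1.mem_nhds k6), k16.eventually (k1.mem_nhds k11),
      (k15.prodMk_nhds k16).eventually (isClosed_diagonal.isOpen_compl.mem_nhds k12)]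
      with j k17 k18 k19 k20
    exact ⟨k17.1, k1, k2, (hgle j _).trans k3, k9, k17.2, k18, k19, k20⟩
  have h21 := h19 w ⟨le_rfl, h16⟩
  have h22 := h19 _ ⟨h16, le_rfl⟩
  obtain ⟨j, ⟨h23, h24⟩, h25, h26, h27, h28, h29⟩ := (hgj.and ((show ∀ᶠ j in L, j ∈ V from hV).and
    (((eventually_all_finset s).2 h20).and ((h21.eventually (h7.mem_nhds h18)).and
      (((h21.prodMk_nhds h22).eventually (isClosed_diagonal.isOpen_compl.mem_nhds
        fun h => h14 ((midpoint_eq_right_iff ℝ).1 (h17.symm.trans h)))).and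
      ((tendsto_nhdsWithin_iff.2 ⟨tendsto_pi_nhds.2 fun r => tendsto_const_nhds.congr'
        (EventuallyEq.symm (hgb r)), Eventually.of_forall hg⟩).eventually
        (eventually_eventually_nhdsWithin.2 h5))))))).exists
  have h30 : update (g j) (Y j) w = g j := by rw [← h23, update_eq_self]
  simp only [h30] at h27 h28
  obtain ⟨J', u', h31, h32⟩ := create hc (hg j) (h23.trans_le h16) h24 h28
  obtain ⟨N', h33, h34, h35, h36⟩ := shrink (inter_mem h29 (hc (Q j) _ (hg j)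
    (inter_mem (h7.mem_nhds h27) (isClosed_closure.isOpen_compl.mem_nhds h32))))
  have h37 : ∀ m ∈ s, m ≠ j := fun m hm => (h26 m hm).1.symm
  refine ⟨⟨g j, N', insert j s, update J j J', update u j u', update t' j (t i)⟩,
    ⟨hg j, fun x hx => ?_, h33, h34, h35, fun m hm => ?_⟩, fun f hf => (h36 hf).1,
    Finset.subset_insert _ _, fun m hm => update_of_ne (h37 m hm) _ _, j,
    Finset.mem_insert_self _ _, h25, fun f hf => (h36 hf).2.1⟩
  · rcases lt_or_gt_of_ne (show x ≠ Y j from fun h => hx ⟨j, h.symm⟩) with h | h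
    · exact ContinuousAt.congr (f := fun r => min (b r) w) (by have := h2 x hx; fun_prop)
        ((eventually_lt_nhds h).mono fun r hr => (if_pos hr.le).symm)
    · exact (h2 x hx).congr ((eventually_gt_nhds h).mono fun r hr => (if_neg hr.not_ge).symm)
  · rcases Finset.mem_insert.1 hm with rfl | hm
    · simp only [update_self]
      exact ⟨h31, fun f hf => (h36 hf).2.2⟩
    · simp only [update_of_ne (h37 m hm)]
      exact ⟨(h26 m hm).2, fun f hf => (h6 m hm).2 f (h36 hf).1⟩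

/-- a step function -/
noncomputable def stp (y : ℝ) : ℝ → ℝ := fun x => if y < x then 1 else 0

lemma stp_mem (y : ℝ) : stp y ∈ H :=
  ⟨fun x x' h => by
    simp only [stp]
    split_ifs with h1 h2 h2
    exacts [le_rfl, absurd (h1.trans_le h) h2, zero_le_one, le_rfl], fun x => by
    simp only [stp]
    split_ifs <;> simp⟩

theorem final [TopologicalSpace P] (hc : ∀ p, ContinuousOn (fun f => e f p) H)
    (hs : ∀ f ∈ H, ∀ A : Set P, A.Nonempty → ∃ a ∈ A, ContinuousWithinAt (e f) A a)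
    {Y : ℕ → ℝ} (hY : Injective Y) {Q : ℕ → P} {L : ℕ → Filter ℕ} [∀ i, (L i).NeBot]
    [∀ i, (L i).IsCountablyGenerated] (hL : ∀ i, Tendsto Y (L i) (𝓝[>] (Y i)))
    (hQ : ∀ i, Tendsto Q (L i) (𝓝 (Q i)))
    (TR : ∀ i, ∀ b ∈ H, (∀ x ∉ range Y, ContinuousAt b x) → ∀ g : ℕ → ℝ → ℝ,
      (∀ᶠ j in L i, g j ∈ H ∧ g j (Y j) = b (Y i)) → (∀ x ≠ Y i, ∀ᶠ j in L i, g j x = b x) →
        Tendsto (fun j => e (g j) (Q j)) (L i) (𝓝 (e b (Q i))))
    (h0 : e (stp (Y 0)) (Q 0) ≠ e (update (stp (Y 0)) (Y 0) 1) (Q 0)) : False := by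
  obtain ⟨J, u, h1, h2⟩ := create hc (stp_mem (Y 0)) ((stp_mem _).2 _).2
    (fun x hx => (if_pos hx).ge) h0
  obtain ⟨N, h3, h4, h5, h6⟩ := shrink (hc (Q 0) _ (stp_mem (Y 0))
    (isClosed_closure.isOpen_compl.mem_nhds h2))
  have h7 : Inv e Y Q ⟨stp (Y 0), N, {0}, fun _ => J, fun _ => u, fun _ => 1⟩ :=
    ⟨stp_mem _, fun x hx => by
      rcases lt_or_gt_of_ne (show x ≠ Y 0 from fun h => hx ⟨0, h.symm⟩) with h | h
      · exact continuousAt_const.congr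
          ((eventually_lt_nhds h).mono fun r hr => (if_neg hr.le.not_gt).symm)
      · exact continuousAt_const.congr ((eventually_gt_nhds h).mono fun r hr => (if_pos hr).symm),
      h3, h4, h5, fun i hi => by
        rw [Finset.mem_singleton.1 hi]
        exact ⟨h1, fun f hf => h6 hf⟩⟩
  choose V hV using fun i => (L i).exists_antitone_basis
  have h8 : ∀ (σ : {σ // Inv e Y Q σ}) (k : ℕ), ∃ σ' : {σ // Inv e Y Q σ}, σ'.1.N ⊆ σ.1.N ∧
      σ.1.s ⊆ σ'.1.s ∧ (∀ m ∈ σ.1.s, σ'.1.J m = σ.1.J m) ∧ (k.unpair.1 ∈ σ.1.s → ∃ j ∈ σ'.1.s,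
        j ∈ V k.unpair.1 k.unpair.2 ∧ ∀ f ∈ σ'.1.N, e f (Q j) ∈ σ.1.J k.unpair.1) := by
    intro σ k
    by_cases h : k.unpair.1 ∈ σ.1.s
    · obtain ⟨σ', h8, h9, h10, h11, h12⟩ := step hc hY (hL _) (TR _) σ.2 h ((hV _).mem _)
      exact ⟨⟨σ', h8⟩, h9, h10, h11, fun _ => h12⟩
    · exact ⟨σ, subset_rfl, subset_rfl, fun _ _ => rfl, fun h8 => absurd h8 h⟩
  choose nx h8 h9 h10 h11 using h8
  let σ : ℕ → {σ // Inv e Y Q σ} := fun k => Nat.rec ⟨_, h7⟩ (fun k σ => nx σ k) k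
  obtain ⟨f, hf⟩ := IsCompact.nonempty_iInter_of_sequence_nonempty_isCompact_isClosed
    (fun k => (σ k).1.N) (fun k => h8 _ k)
    (fun k => ⟨_, mem_of_mem_nhdsWithin (σ k).2.1 (σ k).2.2.2.2.2.1⟩)
    (isCompact_H.of_isClosed_subset h4 h3) fun k => (σ k).2.2.2.2.1
  rw [mem_iInter] at hf
  obtain ⟨_, ⟨i, hi, rfl⟩, h12⟩ := hs f (h3 (hf 0)) (Q '' ⋃ k, (σ k).1.s)
    ⟨_, 0, mem_iUnion.2 ⟨0, Finset.mem_singleton_self 0⟩, rfl⟩
  obtain ⟨k, hk⟩ := mem_iUnion.1 hi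
  have h13 : ∀ k' ≥ k, i ∈ (σ k').1.s ∧ (σ k').1.J i = (σ k).1.J i := fun k' hk' =>
    Nat.le_induction ⟨hk, rfl⟩ (fun k' _ ih => ⟨h9 _ k' ih.1, (h10 _ k' i ih.1).trans ih.2⟩) k' hk'
  obtain ⟨U, h14, h15⟩ := mem_nhdsWithin_iff_exists_mem_nhds_inter.1 (h12
    (isClosed_closure.isOpen_compl.mem_nhds (((σ k).2.2.2.2.2.2 i hk).2 f (hf k))))
  obtain ⟨n, hn⟩ := (hV i).mem_iff.1 (hQ i h14)
  have h16 := h13 (i.pair (max n k)) ((le_max_right _ _).trans (Nat.right_le_pair _ _))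
  obtain ⟨j, h17, h18, h19⟩ := h11 (σ (i.pair (max n k))) (i.pair (max n k))
    (by rw [Nat.unpair_pair]; exact h16.1)
  rw [Nat.unpair_pair] at h18 h19
  exact h15 ⟨hn ((hV i).antitone (le_max_left _ _) h18), j, mem_iUnion.2 ⟨_ + 1, h17⟩, rfl⟩
    (subset_closure (h16.2 ▸ h19 f (hf (_ + 1))))

end Pool.Agent.H82.Hel
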