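import Pool.Agent.H82.HelB

set_option autoImplicit false

/-! The Helly space does not embed in a space of scatteredly continuous functions on a Polish
space. -/

namespace Pool.Agent.H82.Hel

open Set Filter Topology Function TopologicalSpace

variable {P : Type} {e : (ℝ → ℝ) → P → ℝ}

lemma fiber {ι : Type} {pt : ι → ℝ} (h1 : ∀ r : ℚ, (r : ℝ) ∈ range pt) {b : ℝ → ℝ}
    (h2 : ∀ x ∉ range pt, ContinuousAt b x) {N : Set (ℝ → ℝ)} (hN : N ∈ 𝓝[H] b) :
    ∃ O ∈ 𝓝 (b ∘ pt), ∀ f ∈ H, f ∘ pt ∈ O → f ∈ N := by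
  obtain ⟨U, h3, h4, h5⟩ := mem_nhdsWithin.1 hN
  refine ⟨_, ((isCompact_H.diff h3).image (f := fun f => f ∘ pt)
    (continuous_pi fun i => continuous_apply _)).isClosed.isOpen_compl.mem_nhds ?_,
    fun f hf h => h5 ⟨by_contra fun h6 => h ⟨f, ⟨hf, h6⟩, rfl⟩, hf⟩⟩
  rintro ⟨f, ⟨hf, h6⟩, h7⟩
  have h8 : ∀ x ∈ range pt, f x = b x := forall_mem_range.2 fun i => congrFun h7 i
  refine h6 ((funext fun x => ?_ : f = b) ▸ h4)
  by_cases h : x ∈ range pt
  · exact h8 x h
  refine le_antisymm (le_of_forall_gt fun c hc => ?_) (le_of_forall_lt fun c hc => ?_)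
  · obtain ⟨r, h9, h10⟩ := ratr (h2 x h) hc
    exact (hf.1 h9.le).trans_lt (h8 r (h1 r) ▸ h10)
  · obtain ⟨r, h9, h10⟩ := ratl (h2 x h) hc
    exact (h8 r (h1 r) ▸ h10).trans_le (hf.1 h9.le)

theorem generic [TopologicalSpace P] (hc : ∀ p, ContinuousOn (fun f => e f p) H)
    (hs : ∀ f ∈ H, ∀ A : Set P, A.Nonempty → ∃ a ∈ A, ContinuousWithinAt (e f) A a)
    {D : Set (ℝ → ℝ)} (hD : D ⊆ H) (hD0 : D.Countable) (hD1 : ∀ d ∈ D, Continuous d)
    (hD2 : H ⊆ closure D) {Z : Type} [TopologicalSpace Z] [PolishSpace Z] [Nonempty Z]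
    {y : Z → ℝ} (hy : Continuous y) {q : Z → P} (hq : Continuous q)
    (hU : ∀ V, IsOpen V → V.Nonempty → ¬ (y '' V).Countable)
    (h0 : ∀ z, (∀ d ∈ D, ContinuousAt (fun z => e d (q z)) z) → (∀ r : ℚ, y z ≠ r) →
      e (stp (y z)) (q z) ≠ e (update (stp (y z)) (y z) 1) (q z)) : False := by
  classical
  let pt : (ℕ → Z) → ℕ ⊕ ℚ → ℝ := fun z => Sum.elim (fun m => y (z m)) (↑)
  have hpt : Continuous pt := continuous_pi fun m => by
    cases m with
    | inl m => exact hy.comp (continuous_apply m)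
    | inr r => exact continuous_const
  have hne : ∀ V, IsOpen V → V.Nonempty → ∀ c, ∃ w ∈ V, y w ≠ c := fun V h1 h2 c =>
    by_contra fun h => hU V h1 h2 ((countable_singleton c).mono (by
      rintro _ ⟨w, hw, rfl⟩
      exact by_contra fun h3 => h ⟨w, hw, h3⟩))
  have hup : ∀ (U : Set (ℕ → Z)) (z : ℕ → Z) (i : ℕ), IsOpen U →
      IsOpen {w | update z i w ∈ U} := fun U z i h =>
    h.preimage (continuous_const.update i continuous_id)
  have g1 : ∀ᶠ z in residual (ℕ → Z), ∀ i, ∀ d ∈ D, ContinuousAt (fun z => e d (q z)) (z i) :=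
    eventually_countable_forall.2 fun i => (eventually_countable_ball hD0).2 fun d hd =>
      residual_of_dense_Gδ (s := (fun z : ℕ → Z => z i) ⁻¹' {x | ContinuousAt (fun z => e d (q z)) x})
        ((IsGδ.setOfPred_continuousAt fun z => e d (q z)).preimage
        (continuous_apply i)) (Dense.preimage (dense_iff_inter_open.2 fun V h1 h2 => by
          obtain ⟨_, ⟨w, hw, rfl⟩, h3⟩ := hs d (hD hd) _ (h2.image q)
          exact ⟨w, hw, (h3.comp hq.continuousWithinAt (mapsTo_image q V)).continuousAt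
            (h1.mem_nhds hw)⟩) (isOpenMap_eval i))
  have g2 : ∀ᶠ z in residual (ℕ → Z), ∀ i, ∀ m, m ≠ Sum.inl i → y (z i) ≠ pt z m :=
    eventually_countable_forall.2 fun i => eventually_countable_forall.2 fun m =>
      eventually_countable_forall.2 fun h => residual_of_dense_open
        (isOpen_ne_fun (hy.comp (continuous_apply i)) ((continuous_apply m).comp hpt))
        (dense_iff_inter_open.2 fun U h1 ⟨z, hz⟩ => by
          obtain ⟨w, h2, h3⟩ := hne _ (hup U z i h1) ⟨z i, by simpa using hz⟩ (pt z m)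
          refine ⟨_, h2, ?_⟩
          cases m with
          | inl m => simpa [pt, update_of_ne fun h4 : m = i => h (h4 ▸ rfl)] using h3
          | inr r => simpa [pt] using h3)
  have g4 : ∀ᶠ z in residual (ℕ → Z), ∀ i, ∀ V ∈ countableBasis Z,
      z i ∉ closure V ∨ ∃ j, z j ∈ V ∧ y (z i) < y (z j) :=
    eventually_countable_forall.2 fun i => (eventually_countable_ball
      (countable_countableBasis Z)).2 fun V hV => residual_of_dense_open
      ((isClosed_closure.isOpen_compl.preimage (continuous_apply i)).union (by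
        show IsOpen {z : ℕ → Z | ∃ j, z j ∈ V ∧ y (z i) < y (z j)}
        rw [ofPred_exists]
        exact isOpen_iUnion fun j => ((isOpen_of_mem_countableBasis hV).preimage
          (continuous_apply j)).inter (isOpen_lt (hy.comp (continuous_apply i))
            (hy.comp (continuous_apply j)))))
      (dense_iff_inter_open.2 fun U h1 ⟨z, hz⟩ => by
        by_cases h : z i ∈ closure V
        swap
        · exact ⟨z, hz, Or.inl h⟩
        have h2 := (hup U z i h1).inter (isOpen_of_mem_countableBasis hV)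
        obtain ⟨w, hw⟩ := mem_closure_iff.1 h _ (hup U z i h1) (by simpa using hz)
        obtain ⟨w', hw', h3⟩ := hne _ h2 ⟨w, hw⟩ (y w)
        wlog h4 : y w < y w' generalizing w w'
        · exact this w' hw' w hw h3.symm (h3.lt_of_le (not_lt.1 h4))
        obtain ⟨I, u, h5, h6⟩ := isOpen_pi_iff.1 h1 _ hw.1
        obtain ⟨j, hj⟩ := (insert i I).exists_notMem
        rw [Finset.mem_insert, not_or] at hj
        refine ⟨update (update z i w) j w', h6 fun m hm => ?_, Or.inr ⟨j, ?_, ?_⟩⟩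
        · rw [update_of_ne fun h7 : m = j => hj.2 (h7 ▸ hm)]
          exact (h5 m hm).2
        · simpa using hw'.2
        · simpa [update_of_ne (Ne.symm hj.1)] using h4)
  let E : ℕ → Set (ℕ ⊕ ℚ → ℝ) → Set ℝ → Set (ℕ → Z) := fun i O W =>
    {z | ∀ f ∈ H, f ∘ pt z ∈ O → e f (q (z i)) ∈ closure W}
  have g5 : ∀ᶠ z in residual (ℕ → Z), ∀ i, ∀ O ∈ countableBasis (ℕ ⊕ ℚ → ℝ),
      ∀ W ∈ countableBasis ℝ, z ∉ frontier (closure (E i O W)) :=
    eventually_countable_forall.2 fun i => (eventually_countable_ball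
      (countable_countableBasis _)).2 fun O _ => (eventually_countable_ball
      (countable_countableBasis _)).2 fun W _ => residual_of_dense_open
      isClosed_frontier.isOpen_compl
      (interior_eq_empty_iff_dense_compl.1 (interior_frontier isClosed_closure))
  obtain ⟨z, g1, g2, g4, g5⟩ := (dense_of_mem_residual (g1.and (g2.and (g4.and g5)))).nonempty
  let L : ℕ → Filter ℕ := fun i => comap z (𝓝 (z i)) ⊓ 𝓟 {j | y (z i) < y (z j)}
  have hL : ∀ i, Tendsto z (L i) (𝓝 (z i)) := fun i => tendsto_comap.mono_left inf_le_left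
  have : ∀ i, (L i).NeBot := fun i => inf_principal_neBot_iff.2 fun U hU => by
    obtain ⟨U', h1, h2⟩ := mem_comap.1 hU
    obtain ⟨V, h3, h4, h5⟩ := (isBasis_countableBasis Z).mem_nhds_iff.1 h1
    obtain ⟨j, h6, h7⟩ := (g4 i V h3).resolve_left fun h => h (subset_closure h4)
    exact ⟨j, h2 (h5 h6), h7⟩
  refine final hc hs (Y := fun m => y (z m)) (fun m m' h => by_contra fun h1 =>
    g2 m (Sum.inl m') (fun h2 => h1 (Sum.inl_injective h2).symm) h) (Q := fun m => q (z m))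
    (L := L) (fun i => tendsto_nhdsWithin_iff.2 ⟨(hy.tendsto _).comp (hL i),
      mem_inf_of_right (mem_principal_self _)⟩) (fun i => (hq.tendsto _).comp (hL i))
    (fun i b hb h1 g h2 h3 U hU => ?_) (h0 _ (g1 0) fun r => g2 0 (Sum.inr r) (by simp))
  obtain ⟨W, h4, h5, h6⟩ := small hU
  obtain ⟨O', h7, h8⟩ := fiber (pt := pt z) (fun r => ⟨Sum.inr r, rfl⟩)
    (fun x hx => h1 x fun ⟨m, hm⟩ => hx ⟨Sum.inl m, hm⟩)
    (hc (q (z i)) b hb ((isOpen_of_mem_countableBasis h4).mem_nhds h5))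
  obtain ⟨O, h9, h10, h11⟩ := (isBasis_countableBasis _).mem_nhds_iff.1 h7
  have h12 : z ∈ interior (closure (E i O W)) := by_contra fun h => g5 i O h9 W h4
    ⟨subset_closure (subset_closure fun f hf h12 => subset_closure (h8 f hf (h11 h12))), h⟩
  have h13 : Tendsto (fun j => g j ∘ pt (update z i (z j))) (L i) (𝓝 (b ∘ pt z)) :=
    tendsto_pi_nhds.2 fun m => tendsto_const_nhds.congr' (by
      by_cases h : m = Sum.inl i
      · exact h2.mono fun j hj => by simpa [h, pt] using hj.2.symm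
      · refine (h3 _ (g2 i m h).symm).mono fun j hj => hj.symm.trans (congrArg (g j) ?_)
        cases m with
        | inl m => simp [pt, update_of_ne fun h4 : m = i => h (h4 ▸ rfl)]
        | inr r => rfl)
  rw [mem_map]
  filter_upwards [h2, h13.eventually ((isOpen_of_mem_countableBasis h9).mem_nhds h10),
    (hL i).eventually ((hup _ z i isOpen_interior).mem_nhds (by simpa using h12))]
    with j h14 h15 h16
  have h17 := cl hD hD1 hD2 hc hpt (fun z' => q (z' i)) (z := update z i (z j))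
    (fun d hd => ContinuousAt.comp (g := fun z => e d (q z)) (f := fun z' : ℕ → Z => z' i)
      (by simpa using g1 j d hd) (continuous_apply i).continuousAt)
    (isOpen_of_mem_countableBasis h9) isClosed_closure (interior_subset h16) _ h14.1 h15
  exact h6 (by simpa using h17)

lemma base {y v : ℝ} {N : Set (ℝ → ℝ)} (hN : N ∈ 𝓝[H] update (stp y) y v) :
    ∃ n : ℕ, ∀ f ∈ H, |f y - v| ≤ 1 / (n + 1) → f (y - 1 / (n + 1)) ≤ 1 / (n + 1) →
      1 - 1 / (n + 1) ≤ f (y + 1 / (n + 1)) → f ∈ N := by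
  obtain ⟨U, h3, h4, h5⟩ := mem_nhdsWithin.1 hN
  have h6 : ∀ n : ℕ, IsClosed {f : ℝ → ℝ | |f y - v| ≤ 1 / (n + 1) ∧
      f (y - 1 / (n + 1)) ≤ 1 / (n + 1) ∧ 1 - 1 / (n + 1) ≤ f (y + 1 / (n + 1))} := fun n =>
    IsClosed.and (isClosed_le (by fun_prop) continuous_const) (IsClosed.and (isClosed_le
      (by fun_prop) continuous_const) (isClosed_le continuous_const (by fun_prop)))
  have h7 := tendsto_one_div_add_atTop_nhds_zero_nat (𝕜 := ℝ)
  obtain ⟨n, hn⟩ := exists_subset_nhds_of_isCompact' (V := fun n : ℕ => H ∩ {f : ℝ → ℝ |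
    |f y - v| ≤ 1 / (n + 1) ∧ f (y - 1 / (n + 1)) ≤ 1 / (n + 1) ∧
      1 - 1 / (n + 1) ≤ f (y + 1 / (n + 1))}) (U := U)
    (Antitone.directed_ge fun n m h f ⟨hf, h8, h9, h10⟩ => by
      have h11 : (1 : ℝ) / (m + 1) ≤ 1 / (n + 1) := Nat.one_div_le_one_div h
      exact ⟨hf, h8.trans h11, (hf.1 (by linarith)).trans (h9.trans h11),
        (by linarith : 1 - 1 / ((n : ℝ) + 1) ≤ 1 - 1 / (m + 1)).trans
          (h10.trans (hf.1 (by linarith)))⟩)
    (fun n => isCompact_H.inter_right (h6 n)) (fun n => isClosed_H.inter (h6 n)) fun f hf => by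
      rw [mem_iInter] at hf
      have h8 := (hf 0).1
      refine h3.mem_nhds ((funext fun x => ?_ : f = _) ▸ h4)
      rcases lt_trichotomy x y with h | rfl | h
      · rw [update_of_ne h.ne, stp, if_neg h.le.not_gt]
        refine le_antisymm (ge_of_tendsto h7 ((h7.eventually (gt_mem_nhds (sub_pos.2 h))).mono
          fun n hn => (h8.1 (by linarith)).trans (hf n).2.2.1)) (h8.2 x).1
      · rw [update_self]
        exact sub_eq_zero.1 (abs_nonpos_iff.1 (ge_of_tendsto' h7 fun n => (hf n).2.1))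
      · rw [update_of_ne h.ne', stp, if_pos h]
        refine le_antisymm (h8.2 x).2 (le_of_tendsto (by simpa using h7.const_sub 1)
          ((h7.eventually (gt_mem_nhds (sub_pos.2 h))).mono fun n hn => ?_))
        simpa using (hf n).2.2.2.trans (h8.1 (by linarith : _ ≤ x))
  exact ⟨n, fun f hf h8 h9 h10 => h5 ⟨hn ⟨hf, h8, h9, h10⟩, hf⟩⟩

theorem main [TopologicalSpace P] [PolishSpace P] (hc : ∀ p, ContinuousOn (fun f => e f p) H)
    (hi : InjOn e H)
    (hs : ∀ f ∈ H, ∀ A : Set P, A.Nonempty → ∃ a ∈ A, ContinuousWithinAt (e f) A a) : False := by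
  obtain ⟨D, hD, hD0, hD1, hD2⟩ := exists_D
  have hu : ∀ y, ∀ v ∈ Icc (0 : ℝ) 1, update (stp y) y v ∈ H := fun y v hv =>
    upd (stp_mem y) ((if_neg (lt_irrefl y)).trans_le hv.1) fun x hx => hv.2.trans (if_pos hx).ge
  have h00 : ∀ y, update (stp y) y 0 = stp y := fun y => update_eq_self_iff.2
    (if_neg (lt_irrefl y)).symm
  let O : ℕ → ℝ → Set (Fin 3 → ℝ) := fun n v =>
    {g | |g 0 - v| < 1 / (n + 1) ∧ g 1 < 1 / (n + 1) ∧ 1 - 1 / (n + 1) < g 2}
  have hO : ∀ n v, IsOpen (O n v) := fun n v => IsOpen.and (isOpen_lt (by fun_prop)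
    continuous_const) (IsOpen.and (isOpen_lt (by fun_prop) continuous_const)
      (isOpen_lt continuous_const (by fun_prop)))
  let T : ℕ × ℚ × ℚ × countableBasis ℝ × countableBasis ℝ → Set (ℝ × P) := fun c =>
    {z | Disjoint (closure c.2.2.2.1.1) (closure c.2.2.2.2.1) ∧ z.1 ∈ Icc (c.2.1 : ℝ) c.2.2.1 ∧
      (∀ f ∈ H, f ∘ ![z.1, c.2.1, c.2.2.1] ∈ O c.1 0 → e f z.2 ∈ closure c.2.2.2.1.1) ∧
      ∀ f ∈ H, f ∘ ![z.1, c.2.1, c.2.2.1] ∈ O c.1 1 → e f z.2 ∈ closure c.2.2.2.2.1}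
  obtain ⟨c, h1⟩ : ∃ c, ¬ (Prod.fst '' T c).Countable := by
    by_contra h
    push Not at h
    have := (countable_countableBasis ℝ).to_subtype
    refine not_countable_univ ((countable_iUnion h).mono fun y _ => mem_iUnion.2 ?_)
    obtain ⟨p, hp⟩ := Function.ne_iff.1 (show e (update (stp y) y 0) ≠ e (update (stp y) y 1) from
      fun h => zero_ne_one' ℝ (update_injective _ _ (hi (hu y 0 (by simp)) (hu y 1 (by simp)) h)))
    obtain ⟨A, B, h1, h2, h3, h4, h5⟩ := t2_separation hp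
    obtain ⟨W0, h6, h7, h8⟩ := small (h1.mem_nhds h3)
    obtain ⟨W1, h9, h10, h11⟩ := small (h2.mem_nhds h4)
    obtain ⟨n, hn⟩ := base (inter_mem (hc p _ (hu y 0 (by simp))
      ((isOpen_of_mem_countableBasis h6).mem_nhds h7)) self_mem_nhdsWithin)
    obtain ⟨m, hm⟩ := base (inter_mem (hc p _ (hu y 1 (by simp))
      ((isOpen_of_mem_countableBasis h9).mem_nhds h10)) self_mem_nhdsWithin)
    have h12 : (1 : ℝ) / ((max n m : ℕ) + 1) ≤ 1 / (n + 1) :=
      Nat.one_div_le_one_div (le_max_left _ _)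
    have h13 : (1 : ℝ) / ((max n m : ℕ) + 1) ≤ 1 / (m + 1) :=
      Nat.one_div_le_one_div (le_max_right _ _)
    have h14 : (0 : ℝ) < 1 / ((max n m : ℕ) + 1) := Nat.one_div_pos_of_nat
    obtain ⟨l, h15, h16⟩ := exists_rat_btwn (sub_lt_self y h14)
    obtain ⟨r, h17, h18⟩ := exists_rat_btwn (lt_add_of_pos_right y h14)
    refine ⟨(max n m, l, r, ⟨W0, h6⟩, ⟨W1, h9⟩), (y, p), ⟨h5.mono h8 h11, ⟨h16.le, h17.le⟩,
      fun f hf ⟨h19, h20, h21⟩ => subset_closure (hn f hf (h19.le.trans h12) ?_ ?_).1,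
      fun f hf ⟨h19, h20, h21⟩ => subset_closure (hm f hf (h19.le.trans h13) ?_ ?_).1⟩, rfl⟩
    · exact (hf.1 (by linarith : _ ≤ (l : ℝ))).trans (h20.le.trans h12)
    · exact (by linarith : _ ≤ _).trans (h21.le.trans (hf.1 (by linarith : (r : ℝ) ≤ _)))
    · exact (hf.1 (by linarith : _ ≤ (l : ℝ))).trans (h20.le.trans h13)
    · exact (by linarith : _ ≤ _).trans (h21.le.trans (hf.1 (by linarith : (r : ℝ) ≤ _)))
  let F : Set (ℝ × P) := {z | ∀ U ∈ 𝓝 z, ¬ (Prod.fst '' (T c ∩ U)).Countable}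
  have hF : IsClosed F := isClosed_of_closure_subset fun z hz U hU =>
    let ⟨z', h2, h3⟩ := mem_closure_iff_nhds.1 hz _ (eventually_mem_nhds_iff.2 hU); h3 U h2
  have h2 : (Prod.fst '' (T c ∩ Fᶜ)).Countable := (HereditarilyLindelofSpace.isLindelof Fᶜ).induction_on
    (p := fun s => (Prod.fst '' (T c ∩ s)).Countable)
    (fun s t h h2 => h2.mono (image_mono (inter_subset_inter_right _ h)))
    (fun S hS h => (hS.biUnion h).mono (by
      rintro _ ⟨z, ⟨h2, s, h3, h4⟩, rfl⟩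
      exact mem_biUnion h3 ⟨z, ⟨h2, h4⟩, rfl⟩)) fun z hz => by
      simp only [F, mem_compl_iff, mem_ofPred_eq, not_forall, not_not] at hz
      obtain ⟨U, h2, h3⟩ := hz
      exact ⟨U, mem_nhdsWithin_of_mem_nhds h2, h3⟩
  have h3 : ∀ V : Set F, IsOpen V → V.Nonempty →
      ¬ ((fun z : F => z.1.1) '' (V ∩ Subtype.val ⁻¹' T c)).Countable := by
    rintro _ ⟨U, hU, rfl⟩ ⟨z, hz⟩ h
    refine z.2 U (hU.mem_nhds hz) ((h.union h2).mono ?_)
    rintro _ ⟨w, ⟨h3, h4⟩, rfl⟩
    by_cases h5 : w ∈ F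
    · exact Or.inl ⟨⟨w, h5⟩, ⟨h4, h3⟩, rfl⟩
    · exact Or.inr ⟨w, ⟨h3, h5⟩, rfl⟩
  have h4 : Dense (Subtype.val ⁻¹' T c : Set F) := dense_iff_inter_open.2 fun V h4 h5 =>
    nonempty_iff_ne_empty.2 fun h => h3 V h4 h5 (by simp [h])
  have := hF.polishSpace
  have : Nonempty F := by_contra fun h => h1 (h2.mono (image_mono fun z hz =>
    And.intro hz fun h5 => h ⟨z, h5⟩))
  obtain ⟨z0, h5⟩ := h4.nonempty
  refine generic hc hs hD hD0 hD1 hD2 (y := fun z : F => z.1.1) (by fun_prop)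
    (q := fun z : F => z.1.2) (by fun_prop)
    (fun V h6 h7 h8 => h3 V h6 h7 (h8.mono (image_mono inter_subset_left))) fun z h6 h7 h8 => ?_
  have h9 : z.1.1 ∈ Icc (c.2.1 : ℝ) c.2.2.1 := closure_minimal (s := Subtype.val ⁻¹' T c)
    (t := {z : F | z.1.1 ∈ Icc (c.2.1 : ℝ) c.2.2.1}) (fun z hz => hz.2.1)
    (isClosed_Icc.preimage (by fun_prop)) (h4 z)
  have h10 := h9.1.lt_of_ne (h7 _).symm
  have h11 := h9.2.lt_of_ne (h7 _)
  have h12 : Continuous fun z : F => ![z.1.1, (c.2.1 : ℝ), c.2.2.1] := by fun_prop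
  have h13 : ∀ v, update (stp z.1.1) z.1.1 v ∘ ![z.1.1, (c.2.1 : ℝ), c.2.2.1] ∈ O c.1 v := fun v => by
    have h13 : (0 : ℝ) < 1 / (c.1 + 1) := Nat.one_div_pos_of_nat
    refine ⟨by simpa using h13, ?_, ?_⟩
    · simpa [update_of_ne h10.ne, stp, h10.le.not_gt] using h13
    · simpa [update_of_ne h11.ne', stp, h11] using h13
  have h14 := cl hD hD1 hD2 hc h12 (fun z : F => z.1.2) h6 (hO c.1 0) isClosed_closure
    (closure_mono (fun z hz => hz.2.2.1) (h4 z)) _ (hu _ 0 (by simp)) (h13 0)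
  rw [h00, h8] at h14
  exact disjoint_left.1 h5.1 h14 (cl hD hD1 hD2 hc h12 (fun z : F => z.1.2) h6 (hO c.1 1)
    isClosed_closure (closure_mono (fun z hz => hz.2.2.2) (h4 z)) _ (hu _ 1 (by simp)) (h13 1))

end Pool.Agent.H82.Hel
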