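import Mathlib
import Pool.Agent.H82.PointFinite

set_option autoImplicit false
open Topology Filter Cardinal

namespace Pool.Agent.H82.HewittPF

/-- subsets of size at most continuum of a set of size larger than continuum -/
abbrev W : Type := {s : Set (Set ℝ) // #s ≤ 𝔠}

lemma un {J : Type} (hJ : #J ≤ 𝔠) (u : J → W) : #(⋃ j, (u j).1 : Set (Set ℝ)) ≤ 𝔠 := by
  refine (Cardinal.mk_iUnion_le _).trans ?_
  calc _ ≤ 𝔠 * 𝔠 := mul_le_mul' hJ (ciSup_le' fun j => (u j).2)
    _ = 𝔠 := Cardinal.continuum_mul_self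

instance : Nonempty W := ⟨⟨∅, by simp⟩⟩

instance : IsDirectedOrder W := ⟨fun a b =>
  ⟨⟨a.1 ∪ b.1, (Cardinal.mk_union_le _ _).trans
    ((add_le_add a.2 b.2).trans Cardinal.continuum_add_self.le)⟩,
    Set.subset_union_left, Set.subset_union_right⟩⟩

/-- `𝒟` is a countably directed family with union `s` -/
def Dir (𝒟 : Set W) (s : W) : Prop :=
  𝒟.Nonempty ∧ (∀ u : ℕ → W, (∀ n, u n ∈ 𝒟) → ∃ d ∈ 𝒟, ∀ n, u n ≤ d) ∧ (∀ d ∈ 𝒟, d ≤ s) ∧
    ∀ k ∈ s.1, ∃ d ∈ 𝒟, k ∈ d.1

/-- the space -/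
def X : Type := Option (ℝ × W)

/-- the points of the columns -/
def pt (p : ℝ × W) : X := some p

/-- the special point -/
def y : X := none

def Good (f : X → ℝ) : Prop :=
  (∀ (a : ℝ) (𝒟 : Set W) (s : W), Dir 𝒟 s →
    Tendsto (fun e : 𝒟 => f (pt (a, e.1))) atTop (𝓝 (f (pt (a, s))))) ∧
  Tendsto (fun p : ℝ × W => f (pt p)) (cofinite ×ˢ atTop) (𝓝 (f y))

instance : TopologicalSpace X :=
  ⨅ a : {a : X → ℝ // Good a}, TopologicalSpace.induced a.1 inferInstance

instance : CompletelyRegularSpace X :=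
  completelyRegularSpace_iInf fun _ => completelyRegularSpace_induced inferInstance _

lemma cont_of_good {a : X → ℝ} (h : Good a) : Continuous a :=
  continuous_iInf_dom (i := (⟨a, h⟩ : {a : X → ℝ // Good a})) continuous_induced_dom

lemma tend_of {J : Type} (l : Filter J) (u : J → X) (p : X)
    (h : ∀ a : X → ℝ, Good a → Tendsto (fun n => a (u n)) l (𝓝 (a p))) : Tendsto u l (𝓝 p) := by
  rw [nhds_iInf, tendsto_iInf]
  intro a
  rw [nhds_induced, tendsto_comap_iff]
  exact h a.1 a.2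

lemma good_of_cont {a : X → ℝ} (h : Continuous a) : Good a :=
  ⟨fun b 𝒟 s hs => (h.tendsto _).comp (tend_of _ _ _ fun _ hg => hg.1 b 𝒟 s hs),
    (h.tendsto _).comp (tend_of _ _ _ fun _ hg => hg.2)⟩

lemma depN {N : Set (Set ℝ)} (hN : N.Countable) {𝒟 : Set W} {s : W} (h : Dir 𝒟 s) :
    ∃ d ∈ 𝒟, ∀ e ∈ 𝒟, d ≤ e → e.1 ∩ N = s.1 ∩ N := by
  have : ∀ k, ∃ d ∈ 𝒟, k ∈ s.1 → k ∈ d.1 := by
    intro k
    by_cases hk : k ∈ s.1
    · obtain ⟨d, hd, hkd⟩ := h.2.2.2 k hk
      exact ⟨d, hd, fun _ => hkd⟩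
    · obtain ⟨d, hd⟩ := h.1
      exact ⟨d, hd, fun h' => absurd h' hk⟩
  choose g hg1 hg2 using this
  obtain ⟨z, hz⟩ := Set.countable_iff_exists_subset_range.1 hN
  obtain ⟨d, hd, hdu⟩ := h.2.1 (fun n => g (z n)) (fun n => hg1 _)
  refine ⟨d, hd, fun e he hde => Set.Subset.antisymm
    (Set.inter_subset_inter_left _ (h.2.2.1 e he)) ?_⟩
  rintro k ⟨hk, hkN⟩
  obtain ⟨n, rfl⟩ := hz hkN
  exact ⟨hde (hdu n (hg2 _ hk)), hkN⟩

/-- every real function on a countable subset extends continuously -/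
theorem ext_countable (A : Set X) (hA : A.Countable) (v : X → ℝ) :
    ∃ f : X → ℝ, Continuous f ∧ ∀ x ∈ A, f x = v x := by
  classical
  let S : Set W := Prod.snd '' (pt ⁻¹' A)
  have hS : S.Countable :=
    (hA.preimage_of_injOn (fun a _ b _ h => Option.some.inj h)).image _
  have hsep : ∀ p : W × W, ∃ k : Set ℝ, p.1 ≠ p.2 → ¬ (k ∈ p.1.1 ↔ k ∈ p.2.1) := by
    intro p
    by_cases h : p.1 = p.2
    · exact ⟨∅, fun h' => absurd h h'⟩
    · by_contra hh
      push Not at hh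
      exact h (Subtype.ext (Set.ext fun k => (hh k).2))
  choose sep hsep using hsep
  obtain ⟨k0, hk0⟩ : ∃ k0 : Set ℝ, ∀ s ∈ S, k0 ∉ s.1 := by
    by_contra hh
    push Not at hh
    have h1 := un (J := S) ((Cardinal.le_aleph0_iff_set_countable.2 hS).trans
      Cardinal.aleph0_le_continuum) (fun s => s.1)
    have h2 : (⋃ j : S, j.1.1 : Set (Set ℝ)) = Set.univ := by
      refine Set.eq_univ_of_forall fun k => ?_
      obtain ⟨s, hs, hk⟩ := hh k
      exact Set.mem_iUnion.2 ⟨⟨s, hs⟩, hk⟩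
    rw [h2, Cardinal.mk_univ, Cardinal.mk_set, Cardinal.mk_real] at h1
    exact absurd h1 (not_le.2 (Cardinal.cantor _))
  let N : Set (Set ℝ) := insert k0 (sep '' (S ×ˢ S))
  have hN : N.Countable := ((hS.prod hS).image _).insert _
  let F : ℝ → Set (Set ℝ) → ℝ := fun a t =>
    if h : ∃ s : W, pt (a, s) ∈ A ∧ s.1 ∩ N = t then v (pt (a, h.choose)) else v y
  let f : X → ℝ := fun x => match x with
    | none => v y
    | some p => F p.1 (p.2.1 ∩ N)
  refine ⟨f, cont_of_good ⟨?_, ?_⟩, ?_⟩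
  · intro a 𝒟 s hs
    obtain ⟨d, hd, hde⟩ := depN hN hs
    refine tendsto_const_nhds.congr' ?_
    filter_upwards [eventually_ge_atTop (⟨d, hd⟩ : 𝒟)] with e he
    change F a (s.1 ∩ N) = F a (e.1.1 ∩ N)
    rw [hde e.1 e.2 he]
  · refine tendsto_const_nhds.congr' ?_
    have : ∀ᶠ p : ℝ × W in cofinite ×ˢ atTop, (⟨{k0}, by simpa using Cardinal.one_le_aleph0.trans Cardinal.aleph0_le_continuum⟩ : W) ≤ p.2 :=
      (eventually_ge_atTop _).prod_inr _
    filter_upwards [this] with p hp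
    change v y = F p.1 (p.2.1 ∩ N)
    have hno : ¬ ∃ s : W, pt (p.1, s) ∈ A ∧ s.1 ∩ N = p.2.1 ∩ N := by
      rintro ⟨s, hs, e⟩
      have : k0 ∈ s.1 ∩ N := e ▸ ⟨hp rfl, Set.mem_insert _ _⟩
      exact hk0 s ⟨(p.1, s), hs, rfl⟩ this.1
    simp only [F, dif_neg hno]
  · intro x hx
    cases x with
    | none => rfl
    | some p =>
      change F p.1 (p.2.1 ∩ N) = v (pt p)
      have hex : ∃ s : W, pt (p.1, s) ∈ A ∧ s.1 ∩ N = p.2.1 ∩ N := ⟨p.2, hx, rfl⟩
      have : hex.choose = p.2 := by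
        by_contra hne
        have h1 : sep (hex.choose, p.2) ∈ N := Set.mem_insert_of_mem _
          ⟨_, ⟨⟨(p.1, hex.choose), hex.choose_spec.1, rfl⟩, ⟨p, hx, rfl⟩⟩, rfl⟩
        apply hsep (hex.choose, p.2) hne
        have h2 := hex.choose_spec.2
        exact ⟨fun h => (h2.subset (Set.mem_inter h h1)).1,
          fun h => (h2.symm.subset (Set.mem_inter h h1)).1⟩
      simp only [F, dif_pos hex, this]

instance : T0Space X := by
  classical
  refine ⟨fun v w hins => ?_⟩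
  obtain ⟨f, hf, hfv⟩ := ext_countable {v, w} (Set.toFinite _).countable
    (fun z => if z = w then 1 else 0)
  have := (hins.map hf).eq
  rw [hfv v (by simp), hfv w (by simp)] at this
  by_contra h
  simp [h] at this

instance : T35Space X := {}

/-- arities -/
def Ar : Bool → Type
  | true => ℕ
  | false => Empty

lemma mk_Tm : #(WType Ar) ≤ 𝔠 := by
  apply WType.cardinalMk_le_of_le
  calc _ ≤ Cardinal.sum fun _ : Bool => 𝔠 := by
        apply Cardinal.sum_le_sum
        intro b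
        cases b
        · have : #(Ar false) = 0 := Cardinal.mk_eq_zero Empty
          rw [this, Cardinal.power_zero]
          exact Cardinal.one_le_aleph0.trans Cardinal.aleph0_le_continuum
        · have : #(Ar true) = ℵ₀ := Cardinal.mk_nat
          rw [this, Cardinal.continuum_power_aleph0]
    _ = 𝔠 := by
        rw [Cardinal.sum_const', Cardinal.mk_bool]
        exact Cardinal.mul_eq_right Cardinal.aleph0_le_continuum
          ((Cardinal.natCast_lt_aleph0 (n := 2)).le.trans Cardinal.aleph0_le_continuum) two_ne_zero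

/-- countable unions -/
def cup (u : ℕ → W) : W :=
  ⟨⋃ n, (u n).1, un (Cardinal.mk_nat.le.trans Cardinal.aleph0_le_continuum) u⟩

/-- closing off -/
def val (t : W → W) : WType Ar → W
  | WType.mk true u => t (cup fun n => val t (u n))
  | WType.mk false _ => ⟨∅, by simp⟩

/-- continuous functions are eventually constant on every column -/
theorem ev_const {f : X → ℝ} (hf : Continuous f) (a : ℝ) :
    ∃ s0 : W, ∀ s, s0 ≤ s → f (pt (a, s)) = f (pt (a, s0)) := by
  by_contra hh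
  push Not at hh
  choose t ht1 ht2 using hh
  have hdir : Dir (Set.range (val t)) ⟨⋃ j, (val t j).1, un mk_Tm _⟩ := by
    refine ⟨⟨_, WType.mk false Empty.elim, rfl⟩, ?_, ?_, ?_⟩
    · intro u hu
      choose τ hτ using hu
      refine ⟨_, ⟨WType.mk true τ, rfl⟩, fun n => le_trans ?_ (ht1 _)⟩
      rw [← hτ n]
      exact Set.subset_iUnion (fun n => (val t (τ n)).1) n
    · rintro _ ⟨j, rfl⟩
      exact Set.subset_iUnion (fun j => (val t j).1) j
    · intro k hk
      obtain ⟨j, hj⟩ := Set.mem_iUnion.1 hk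
      exact ⟨_, ⟨j, rfl⟩, hj⟩
  have hten := (good_of_cont hf).1 a _ _ hdir
  generalize f (pt (a, ⟨⋃ j, (val t j).1, un mk_Tm _⟩)) = c at hten
  have : Nonempty (Set.range (val t)) := hdir.1.to_subtype
  have : IsDirectedOrder (Set.range (val t)) := ⟨fun d e => by
    obtain ⟨g, hg, hgu⟩ := hdir.2.1 (fun n => if n = 0 then d.1 else e.1)
      (fun n => by split_ifs; exacts [d.2, e.2])
    have a0 : d.1 ≤ g := by simpa using hgu 0
    have a1 : e.1 ≤ g := by simpa using hgu 1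
    exact ⟨⟨g, hg⟩, a0, a1⟩⟩
  have h1 : ∀ n : ℕ, ∃ d : Set.range (val t), ∀ e, d ≤ e →
      dist (f (pt (a, e.1))) c < 1 / ((n : ℝ) + 1) := fun n =>
    eventually_atTop.1 (Metric.tendsto_nhds.1 hten _ (by positivity))
  choose d hd using h1
  obtain ⟨_, ⟨τ, rfl⟩, hg⟩ := hdir.2.1 (fun n => (d n).1) (fun n => (d n).2)
  have h2 : ∀ e : Set.range (val t), val t τ ≤ e.1 → f (pt (a, e.1)) = c := by
    intro e he
    by_contra hne
    obtain ⟨n, hn⟩ := exists_nat_one_div_lt (dist_pos.2 hne)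
    exact lt_asymm hn (hd n e (show (d n).1 ≤ e.1 from le_trans (hg n) he))
  have h3 : val t (WType.mk true fun _ => τ) = t (val t τ) := by
    change t (cup fun _ => val t τ) = _
    congr 1
    exact Subtype.ext (Set.iUnion_const _)
  apply ht2 (val t τ)
  rw [h2 ⟨_, τ, rfl⟩ le_rfl]
  exact h2 ⟨_, _, h3⟩ (ht1 _)

/-- point-finite families of nonempty open sets of the function space are countable -/
theorem pf_countable (𝒰 : Set (Set {f : X → ℝ // Continuous f}))
    (h1 : ∀ U ∈ 𝒰, IsOpen U ∧ U.Nonempty) (h2 : ∀ z, {U | U ∈ 𝒰 ∧ z ∈ U}.Finite) :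
    𝒰.Countable := by
  classical
  have hb : ∀ U : 𝒰, ∃ (F : Finset X) (r : X → ℚ), ∀ f : {f : X → ℝ // Continuous f},
      (∀ x ∈ F, f.1 x = r x) → f ∈ U.1 := by
    intro U
    obtain ⟨I, r, hr⟩ := PointFinite.basic (ι := Unit) ((fun g => g ()) ⁻¹' U.1)
      ((h1 U.1 U.2).1.preimage (continuous_apply ()))
      ((h1 U.1 U.2).2.preimage fun g => ⟨fun _ => g, rfl⟩)
    exact ⟨I.image Prod.snd, fun x => r ((), x), fun f hf =>
      hr (fun _ => f) fun p hp => hf p.2 (Finset.mem_image_of_mem _ hp)⟩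
  choose F r hr using hb
  let τ : 𝒰 → ℕ × Finset ℚ := fun U => ((F U).card, (F U).image (r U))
  have hfin : ∀ t, {U | τ U = t}.Finite := by
    intro t
    by_contra hinf
    obtain ⟨c, hc⟩ := PointFinite.consistent r t.2 t.1 _ F hinf (by
      rintro U rfl
      exact ⟨le_rfl, fun i hi => Finset.mem_image_of_mem _ hi⟩)
    obtain ⟨J, hJ, hJc, hJi⟩ := hc.exists_subset_countable_infinite
    obtain ⟨f, hf, hfc⟩ := ext_countable (⋃ U ∈ J, (F U : Set X))
      (hJc.biUnion fun U _ => (F U).countable_toSet) (fun x => c x)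
    apply hJi
    refine ((h2 ⟨f, hf⟩).preimage (f := fun U : 𝒰 => U.1) Subtype.val_injective.injOn).subset ?_
    intro U hU
    refine ⟨U.2, hr U _ fun x hx => ?_⟩
    rw [(hJ hU).2 x hx]
    exact hfc x (Set.mem_biUnion hU hx)
  have : (Set.univ : Set 𝒰).Countable := by
    refine (Set.countable_iUnion fun t => (hfin t).countable).mono fun U _ => ?_
    exact Set.mem_iUnion.2 ⟨τ U, rfl⟩
  exact Set.countable_univ_iff.1 this

lemma exists_top (a : ℝ) : ∃ p : StoneCech X, ∀ (s0 : W) (C : Set (StoneCech X)), IsClosed C →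
    (∀ s, s0 ≤ s → stoneCechUnit (pt (a, s)) ∈ C) → p ∈ C := by
  obtain ⟨p, hp⟩ := exists_clusterPt_of_compactSpace
    (map (fun s : W => stoneCechUnit (pt (a, s))) atTop)
  refine ⟨p, fun s0 C hC h => ?_⟩
  rw [← hC.closure_eq]
  exact hp.mem_closure_of_mem C (mem_map.2 ((eventually_ge_atTop s0).mono h))

open Classical in
/-- indicator of a column -/
noncomputable def col (a : ℝ) : X → Set.Icc (-1 : ℝ) 1
  | none => ⟨0, by norm_num⟩
  | some p => if p.1 = a then ⟨1, by norm_num⟩ else ⟨0, by norm_num⟩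

lemma col_cont (a : ℝ) : Continuous (col a) := by
  refine continuous_induced_rng.2 (cont_of_good ⟨?_, ?_⟩)
  · intro b 𝒟 s _
    exact tendsto_const_nhds
  · refine tendsto_const_nhds.congr' ?_
    have : ∀ᶠ p : ℝ × W in cofinite ×ˢ atTop, p.1 ≠ a := (eventually_cofinite_ne a).prod_inl _
    filter_upwards [this] with p hp
    change (col a none : ℝ) = col a (some p)
    simp only [col, if_neg hp]

end Pool.Agent.H82.HewittPF
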