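import Mathlib

set_option autoImplicit false

namespace Pool.Agent.H82.Hur

universe u

/-- The small inductive dimension is at most zero: each point has arbitrarily small open
neighbourhoods with empty boundary. -/
def IndLeZero {X : Type u} (t : TopologicalSpace X) : Prop :=
  ∀ (p : X) (O : Set X), @IsOpen X t O → p ∈ O →
    ∃ U : Set X, @IsOpen X t U ∧ p ∈ U ∧ U ⊆ O ∧ @frontier X t U = ∅

/-- The Hurewicz covering property. -/
def Hurewicz {X : Type u} (t : TopologicalSpace X) : Prop :=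
  ∀ 𝒰 : ℕ → Set (Set X), (∀ n, (∀ U ∈ 𝒰 n, @IsOpen X t U) ∧ ⋃₀ 𝒰 n = Set.univ) →
    ∃ 𝒱 : ℕ → Set (Set X), (∀ n, 𝒱 n ⊆ 𝒰 n ∧ (𝒱 n).Finite) ∧
      ∀ x : X, {n | x ∉ ⋃₀ 𝒱 n}.Finite

end Pool.Agent.H82.Hur
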