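import Mathlib
import Pool.Agent.H82.HurDefs

set_option autoImplicit false

open Set Filter Topology

namespace Pool.Agent.H82.Hur

universe u

variable {X : Type u} [τ : TopologicalSpace X] [CompactSpace X] [T2Space X]

def HurP {X : Type u} (Op : Set X → Prop) : Prop :=
  ∀ 𝒰 : ℕ → Set (Set X), (∀ n, (∀ U ∈ 𝒰 n, Op U) ∧ ⋃₀ 𝒰 n = Set.univ) →
    ∃ 𝒱 : ℕ → Set (Set X), (∀ n, 𝒱 n ⊆ 𝒰 n ∧ (𝒱 n).Finite) ∧
      ∀ x : X, {n | x ∉ ⋃₀ 𝒱 n}.Finite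

structure Fine (t : Set X → Prop) : Prop where
  un : ∀ a b, t a → t b → t (a ∪ b)
  op : ∀ s, IsOpen s → t s

def Cont (L : Set X) : Prop := IsClosed L ∧ IsPreconnected L ∧ L.Nontrivial

theorem bump {L W : Set X} {d : X} (hL : Cont L) (hd : d ∈ L) (hW : W ∈ 𝓝 d) :
    ∃ L' ⊆ L ∩ W, Cont L' := by
  obtain ⟨b, hb, hbd⟩ := hL.2.2.exists_ne d
  obtain ⟨N, hN, hNc, hNW⟩ := exists_mem_nhds_isClosed_subset
    (inter_mem hW (isOpen_compl_singleton.mem_nhds hbd.symm))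
  have hK : IsClosed (L ∩ N) := hL.1.inter hNc
  by_contra hn
  have htd : IsTotallyDisconnected (L ∩ N) := by
    intro t ht ht'
    by_contra hs
    refine hn ⟨closure t, (closure_minimal ht hK).trans (inter_subset_inter_right _
      (hNW.trans inter_subset_left)), isClosed_closure, ht'.closure, ?_⟩
    exact (not_subsingleton_iff.1 hs).mono subset_closure
  have : TotallyDisconnectedSpace (L ∩ N : Set X) := by
    refine ⟨IsEmbedding.subtypeVal.isTotallyDisconnected ?_⟩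
    simpa using htd
  have : CompactSpace (L ∩ N : Set X) := isCompact_iff_compactSpace.1 hK.isCompact
  obtain ⟨V, hV, hdV, hVN⟩ := compact_exists_isClopen_in_isOpen
    (x := (⟨d, hd, mem_of_mem_nhds hN⟩ : (L ∩ N : Set X)))
    (isOpen_interior.preimage continuous_subtype_val) (mem_interior_iff_mem_nhds.2 hN)
  have hQ : IsClosed (Subtype.val '' V) := hK.isClosedEmbedding_subtypeVal.isClosedMap _ hV.1
  obtain ⟨O, hO, rfl⟩ := isOpen_induced_iff.1 hV.2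
  obtain ⟨y, hy, ⟨h1, h2⟩, h3⟩ := hL.2.1 _ _ (hO.inter isOpen_interior) hQ.isOpen_compl (by
    intro y hy
    by_cases h : y ∈ Subtype.val '' (Subtype.val ⁻¹' O : Set (L ∩ N : Set X))
    · obtain ⟨z, hz, rfl⟩ := h
      exact Or.inl ⟨hz, hVN hz⟩
    · exact Or.inr h) ⟨d, hd, hdV, mem_interior_iff_mem_nhds.2 hN⟩ ⟨b, hb, by
      rintro ⟨z, -, rfl⟩
      exact (hNW z.2.2).2 rfl⟩
  exact h3 ⟨⟨y, hy, interior_subset h2⟩, h1, rfl⟩

omit τ [CompactSpace X] [T2Space X] in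
theorem fin_mono {G : ℕ → Set X} (hG : Monotone G) {𝒱 : Set (Set X)} (h : 𝒱 ⊆ range G)
    (hf : 𝒱.Finite) : ∃ k, ⋃₀ 𝒱 ⊆ G k := by
  have : ∀ V ∈ 𝒱, ∀ᶠ k in atTop, V ⊆ G k := by
    intro V hV
    obtain ⟨j, rfl⟩ := h hV
    filter_upwards [eventually_ge_atTop j] with k hk using hG hk
  obtain ⟨k, hk⟩ := ((eventually_all_finite hf).2 this).exists
  exact ⟨k, sUnion_subset hk⟩

theorem lind (t : Set X → Prop) (ht : Fine t) (H : HurP t) {V : Set X} {d : X}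
    (hV : t Vᶜ) (hd : d ∉ V) : ∃ W : ℕ → Set X, Antitone W ∧
      (∀ k, W k ∈ 𝓝 d ∧ IsClosed (W k)) ∧ ∀ x ∈ V, ∃ k, x ∉ W k := by
  obtain ⟨𝒱, h1, h2⟩ := H (fun _ => (fun N => Vᶜ ∪ Nᶜ) '' {N | N ∈ 𝓝 d ∧ IsClosed N}) (by
    refine fun _ => ⟨?_, eq_univ_of_forall fun x => ?_⟩
    · rintro _ ⟨N, hN, rfl⟩
      exact ht.un _ _ hV (ht.op _ hN.2.isOpen_compl)
    · by_cases hx : x = d
      · exact ⟨_, ⟨univ, ⟨univ_mem, isClosed_univ⟩, rfl⟩, Or.inl (hx ▸ hd)⟩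
      · obtain ⟨N, a, b, c⟩ := exists_mem_nhds_isClosed_subset
          (isOpen_compl_singleton.mem_nhds (Ne.symm hx))
        exact ⟨_, ⟨N, ⟨a, b⟩, rfl⟩, Or.inr fun h => c h rfl⟩)
  have : ∀ n, ∃ N, (N ∈ 𝓝 d ∧ IsClosed N) ∧ ⋃₀ 𝒱 n ⊆ Vᶜ ∪ Nᶜ := by
    intro n
    obtain ⟨s, hs, hf, e⟩ := (h1 n).2.exists_subset_finite_image_eq (h1 n).1
    refine ⟨⋂₀ s, ⟨(sInter_mem hf).2 fun N hN => (hs hN).1,
      isClosed_sInter fun N hN => (hs hN).2⟩, ?_⟩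
    rw [← e]
    rintro x ⟨_, ⟨N, hN, rfl⟩, hx⟩
    exact hx.imp id fun h h' => h (h' N hN)
  choose N hN hN' using this
  refine ⟨fun k => ⋂ j ∈ Iic k, N j, fun a b hab => biInter_subset_biInter_left
    (Iic_subset_Iic.2 hab), fun k => ⟨(biInter_mem (finite_Iic k)).2 fun j _ => (hN j).1,
      isClosed_biInter fun j _ => (hN j).2⟩, fun x hx => ?_⟩
  obtain ⟨n, hn⟩ := (h2 x).infinite_compl.nonempty
  exact ⟨n, fun h => (hN' n (not_not.1 hn)).elim (fun h' => h' hx)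
    fun h' => h' (mem_iInter₂.1 h n (le_refl n))⟩

theorem tree (t : Set X → Prop) (R : Bool → Set X) (hR : ∀ x, ∃ i, x ∈ R i)
    (P : Set X → Prop) (hP : ∀ L, P L → IsClosed L ∧ L.Nonempty) (L₀ : Set X) (h₀ : P L₀)
    (step : ∀ L, P L → ∀ i, ∃ G L' : ℕ → Set X, Monotone G ∧ (∀ k, t (G k)) ∧
      (∀ x, ∃ k, x ∈ G k) ∧ ∀ k, P (L' k) ∧ L' k ⊆ L ∧ Disjoint (L' k ∩ R i) (G k)) :
    ¬ HurP t := by
  intro H
  choose G L' h1 h2 h3 h4 using step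
  let par : List ℕ → Bool := fun s => decide (s.length % 2 = 0)
  let L : List ℕ → {L // P L} := fun s => List.rec ⟨L₀, h₀⟩
    (fun k s L => ⟨L' L.1 L.2 (par s) k, (h4 L.1 L.2 (par s) k).1⟩) s
  have hL : ∀ k s, (L (k :: s)).1 = L' (L s).1 (L s).2 (par s) k := fun _ _ => rfl
  let e := Denumerable.eqv (List ℕ)
  obtain ⟨𝒱, a1, a2⟩ := H (fun n => range (G _ (L (e.symm n)).2 (par (e.symm n)))) (by
    refine fun n => ⟨?_, eq_univ_of_forall fun x => ?_⟩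
    · rintro _ ⟨k, rfl⟩
      exact h2 _ _ _ k
    · obtain ⟨k, hk⟩ := h3 _ (L (e.symm n)).2 (par (e.symm n)) x
      exact ⟨_, ⟨k, rfl⟩, hk⟩)
  have : ∀ s, ∃ k, ⋃₀ 𝒱 (e s) ⊆ G _ (L s).2 (par s) k := by
    intro s
    have := fin_mono (h1 _ _ _) (a1 (e s)).1 (a1 (e s)).2
    rwa [e.symm_apply_apply] at this
  choose k hk using this
  let s : ℕ → List ℕ := fun j => Nat.rec [] (fun _ s => k s :: s) j
  have hs : ∀ j, s (j + 1) = k (s j) :: s j := fun _ => rfl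
  have hl : ∀ j, (s j).length = j := by
    intro j
    induction j with
    | zero => rfl
    | succ j ih => rw [hs, List.length_cons, ih]
  obtain ⟨x, hx⟩ := IsCompact.nonempty_iInter_of_sequence_nonempty_isCompact_isClosed
    (fun j => (L (s j)).1) (fun j => (h4 _ _ _ _).2.1) (fun j => (hP _ (L _).2).2)
    (hP _ (L (s 0)).2).1.isCompact (fun j => (hP _ (L _).2).1)
  obtain ⟨i, hi⟩ := hR x
  have hinj : Function.Injective fun j => e (s (2 * j + if i then 0 else 1)) := by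
    intro a b hab
    have := congrArg List.length (e.injective hab)
    rw [hl, hl] at this
    omega
  refine infinite_range_of_injective hinj ((a2 x).subset ?_)
  rintro _ ⟨j, rfl⟩ h
  have hp : par (s (2 * j + if i then 0 else 1)) = i := by
    simp only [par, hl]
    cases i <;> simp <;> omega
  refine disjoint_left.1 (h4 _ _ _ _).2.2 ⟨mem_iInter.1 hx (_ + 1), ?_⟩ (hk _ h)
  rwa [hp]

theorem step_of (t : Set X → Prop) (ht : Fine t) (H : HurP t) {V L : Set X} {d : X}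
    (hV : t Vᶜ) (hd : d ∉ V) (P : Set X → Prop) (R : Set X)
    (h : ∀ W ∈ 𝓝 d, ∃ L', P L' ∧ L' ⊆ L ∧ L' ∩ R ⊆ V ∩ W) :
    ∃ G L' : ℕ → Set X, Monotone G ∧ (∀ k, t (G k)) ∧
      (∀ x, ∃ k, x ∈ G k) ∧ ∀ k, P (L' k) ∧ L' k ⊆ L ∧ Disjoint (L' k ∩ R) (G k) := by
  obtain ⟨W, h1, h2, h3⟩ := lind t ht H hV hd
  choose L' a b c using fun k => h (W k) (h2 k).1
  refine ⟨fun k => Vᶜ ∪ (W k)ᶜ, L', fun a b hab => union_subset_union_right _
    (compl_subset_compl.2 (h1 hab)), fun k => ht.un _ _ hV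
      (ht.op _ (h2 k).2.isOpen_compl), fun x => ?_, fun k => ⟨a k, b k, disjoint_left.2 ?_⟩⟩
  · by_cases hx : x ∈ V
    · exact (h3 x hx).imp fun k hk => Or.inr hk
    · exact ⟨0, Or.inl hx⟩
  · rintro x hx (h | h)
    · exact h (c k hx).1
    · exact h (c k hx).2

theorem lemA (t : Set X → Prop) (ht : Fine t) (H : HurP t) {V L : Set X}
    (hV : t V) (hV' : t Vᶜ) (hL : Cont L) :
    ∃ L' ⊆ L, Cont L' ∧ (L' ⊆ V ∨ L' ⊆ Vᶜ) := by
  by_contra hn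
  refine tree t (fun i => if i then V else Vᶜ) (fun x => ?_) (fun L' => L' ⊆ L ∧ Cont L')
    (fun L' h => ⟨h.2.1, h.2.2.2.nonempty⟩) L ⟨subset_rfl, hL⟩ ?_ H
  · by_cases hx : x ∈ V
    · exact ⟨true, hx⟩
    · exact ⟨false, hx⟩
  · rintro K ⟨hK, hK'⟩ i
    have key : ∀ R : Set X, t Rᶜ → ¬ K ⊆ R → ∃ G L' : ℕ → Set X, Monotone G ∧
        (∀ k, t (G k)) ∧ (∀ x, ∃ k, x ∈ G k) ∧
        ∀ k, (L' k ⊆ L ∧ Cont (L' k)) ∧ L' k ⊆ K ∧ Disjoint (L' k ∩ R) (G k) := by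
      intro R hR hKR
      obtain ⟨d, hd, hd'⟩ := not_subset.1 hKR
      refine step_of t ht H hR hd' (fun L' => L' ⊆ L ∧ Cont L') R fun W hW => ?_
      obtain ⟨L', a, b⟩ := bump hK' hd hW
      exact ⟨L', ⟨(a.trans inter_subset_left).trans hK, b⟩, a.trans inter_subset_left,
        fun x hx => ⟨hx.2, (a hx.1).2⟩⟩
    cases i
    · exact key Vᶜ (by rwa [compl_compl]) fun h => hn ⟨K, hK, hK', Or.inr h⟩
    · exact key V hV' fun h => hn ⟨K, hK, hK', Or.inl h⟩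

theorem main (t : Set X → Prop) (ht : Fine t)
    (h1 : ∀ p O, t O → p ∈ O → ∃ V, t V ∧ p ∈ V ∧ V ⊆ O ∧ t Vᶜ) (h2 : ¬ IndLeZero τ) :
    ¬ HurP t := by
  intro H
  obtain ⟨L₀, h₀⟩ : ∃ L : Set X, Cont L := by
    by_contra hn
    have : TotallyDisconnectedSpace X := ⟨fun s _ hs => by
      by_contra h
      exact hn ⟨closure s, isClosed_closure, hs.closure,
        (not_subsingleton_iff.1 h).mono subset_closure⟩⟩
    refine h2 fun p O hO hp => ?_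
    obtain ⟨V, a, b, c⟩ := compact_exists_isClopen_in_isOpen hO hp
    exact ⟨V, a.2, b, c, a.frontier_eq⟩
  refine tree t (fun _ => univ) (fun x => ⟨true, trivial⟩) Cont
    (fun L h => ⟨h.1, h.2.2.nonempty⟩) L₀ h₀ (fun L hL _ => ?_) H
  obtain ⟨a, ha, b, hb, hab⟩ := hL.2.2
  obtain ⟨V, hV, haV, hbV, hV'⟩ := h1 a {b}ᶜ (ht.op _ isOpen_compl_singleton) hab
  have key : ∀ R : Set X, t Rᶜ →
      ¬ closure (⋃₀ {K | K ⊆ L ∧ Cont K ∧ K ⊆ R}) ⊆ R → ∃ G L' : ℕ → Set X, Monotone G ∧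
        (∀ k, t (G k)) ∧ (∀ x, ∃ k, x ∈ G k) ∧
        ∀ k, Cont (L' k) ∧ L' k ⊆ L ∧ Disjoint (L' k ∩ univ) (G k) := by
    intro R hR h
    obtain ⟨d, hd, hd'⟩ := not_subset.1 h
    refine step_of t ht H hR hd' _ univ fun W hW => ?_
    obtain ⟨y, hy, K, hK, hyK⟩ := mem_closure_iff_nhds.1 hd _ (interior_mem_nhds.2 hW)
    obtain ⟨L', c, d⟩ := bump hK.2.1 hyK (mem_interior_iff_mem_nhds.1 hy)
    exact ⟨L', d, (c.trans inter_subset_left).trans hK.1,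
      fun x hx => ⟨hK.2.2 (c hx.1).1, (c hx.1).2⟩⟩
  by_cases c1 : closure (⋃₀ {K | K ⊆ L ∧ Cont K ∧ K ⊆ V}) ⊆ V
  swap
  · exact key V hV' c1
  by_cases c2 : closure (⋃₀ {K | K ⊆ L ∧ Cont K ∧ K ⊆ Vᶜ}) ⊆ Vᶜ
  swap
  · exact key Vᶜ (by rwa [compl_compl]) c2
  exfalso
  have hc : L ⊆ closure (⋃₀ {K | K ⊆ L ∧ Cont K ∧ K ⊆ V}) ∪
      closure (⋃₀ {K | K ⊆ L ∧ Cont K ∧ K ⊆ Vᶜ}) := by
    rw [← closure_union]
    intro d hd
    refine mem_closure_iff_nhds.2 fun W hW => ?_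
    obtain ⟨K, k1, k2⟩ := bump hL hd hW
    obtain ⟨K', k3, k4, k5⟩ := lemA t ht H hV hV' k2
    obtain ⟨y, hy⟩ := k4.2.2.nonempty
    have k6 : K' ⊆ L := (k3.trans k1).trans inter_subset_left
    exact ⟨y, (k1 (k3 hy)).2, k5.imp (fun h => ⟨K', ⟨k6, k4, h⟩, hy⟩)
      fun h => ⟨K', ⟨k6, k4, h⟩, hy⟩⟩
  obtain ⟨y, -, y1, y2⟩ := isPreconnected_closed_iff.1 hL.2.1 _ _ isClosed_closure isClosed_closure
    hc ⟨a, ha, (hc ha).resolve_right fun h => c2 h haV⟩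
    ⟨b, hb, (hc hb).resolve_left fun h => hbV (c1 h) rfl⟩
  exact c2 y2 (c1 y1)

end Pool.Agent.H82.Hur
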