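import Mathlib

/-! Realisation of a combinatorial tower (a set with a decreasing sequence of relations) as a
metric continuum. -/

set_option autoImplicit false
set_option linter.style.haveILetI false

namespace Pool.Agent.H82.Irr

open Set Topology Filter Complex Uniformity

theorem re_pos {a b : Circle} (h : dist a b < 1) : 0 < ((b / a : Circle) : ℂ).re := by
  have h1 : ‖((b / a : Circle) : ℂ) - 1‖ < 1 := by
    have e : ((b / a : Circle) : ℂ) - 1 = ((b : ℂ) - a) / a := by
      rw [Circle.coe_div, sub_div, div_self (Circle.coe_ne_zero a)]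
    rw [e, norm_div, Circle.norm_coe, div_one, norm_sub_rev, ← dist_eq_norm]
    exact h
  have h2 := (abs_re_le_norm (((b / a : Circle) : ℂ) - 1)).trans_lt h1
  rw [sub_re, one_re, abs_lt] at h2
  linarith [h2.1]

theorem arg_small {a b : Circle} (h : dist a b < 1) :
    |arg ((b / a : Circle) : ℂ)| < Real.pi / 2 :=
  abs_arg_lt_pi_div_two_iff.2 (Or.inl (re_pos h))

theorem log_step {a b : Circle} {x y : ℝ} (h : dist a b < 1) (hx : Circle.exp x = a)
    (hy : Circle.exp y = b) (hxy : |x - y| < 3 * Real.pi / 2) :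
    y = x + arg ((b / a : Circle) : ℂ) := by
  have e : Circle.exp y = Circle.exp (x + arg ((b / a : Circle) : ℂ)) := by
    rw [Circle.exp_add, Circle.exp_arg, hx, hy, mul_div_cancel]
  obtain ⟨m, hm⟩ := Circle.exp_eq_exp.1 e
  have h1 := abs_lt.1 (arg_small h)
  have h2 := abs_lt.1 hxy
  have hp := Real.pi_pos
  have h3 : (m : ℝ) < 1 := by nlinarith [h1.1, h1.2, h2.1, h2.2]
  have h4 : (-1 : ℝ) < m := by nlinarith [h1.1, h1.2, h2.1, h2.2]
  have h5 : m < 1 := by exact_mod_cast h3
  have h6 : -1 < m := by exact_mod_cast h4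
  have h7 : m = 0 := by omega
  rw [hm, h7]; simp

theorem realize {P : Type} [Nonempty P] (R : ℕ → P → P → Prop) (hr : ∀ n p, R n p p)
    (hs : ∀ n p q, R n p q → R n q p)
    (hc : ∀ n p q r, R (n + 1) p q → R (n + 1) q r → R n p r)
    (hk : ∀ U : Ultrafilter P, ∃ p, ∀ n, ∀ᶠ q in (U : Filter P), R n p q)
    (s : P → P) (hsurj : Function.Surjective s)
    (hsR : ∀ n p q, R (n + 1) p q → R n (s p) (s q))
    (hnt : ∃ n p q, ¬ R n p q)
    (hconn : ∀ n p q, Relation.ReflTransGen (R n) p q)
    (hirr : ∀ n (K : Set P) p, p ∈ K →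
      Relation.ReflTransGen (fun a b => b ∈ K ∧ R (n + 1) a b) p (s p) →
      ∀ q, ∃ k ∈ K, R n q k)
    (hlog : ∀ n (h : P → Circle), (∀ p q, R n p q → dist (h p) (h q) < 1) →
      ∃ L : P → ℝ, (∀ p, Circle.exp (L p) = h p) ∧
        ∀ p q, R (n + 1) p q → |L p - L q| < 3 * Real.pi / 2) :
    ¬ (∀ (X : Type) [MetricSpace X] [CompactSpace X] [ConnectedSpace X] [Nontrivial X]
      (f : C(X, X)), Function.Surjective f →
      (∀ x : X, ∀ K : Set X, IsClosed K → IsConnected K → x ∈ K → f x ∈ K → K = Set.univ) →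
      ∃ g : C(X, Circle), Function.Surjective g ∧
        ∀ c : Circle, ¬ ContinuousMap.Homotopic g (ContinuousMap.const X c)) := by
  intro H
  let E : ℕ → Set (P × P) := fun n => {z | R n z.1 z.2}
  have hanti : Antitone E := antitone_nat_of_succ_le fun n z hz => hc n _ _ _ hz (hr _ _)
  have hb : (⨅ n, 𝓟 (E n)).HasBasis (fun _ => True) E :=
    hasBasis_iInf_principal hanti.directed_ge
  letI : UniformSpace P := UniformSpace.ofCore (UniformSpace.Core.mk' (⨅ n, 𝓟 (E n))
    (fun r h x => by obtain ⟨n, -, hn⟩ := hb.mem_iff.1 h; exact hn (hr n x))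
    (fun r h => by
      obtain ⟨n, -, hn⟩ := hb.mem_iff.1 h
      exact hb.mem_iff.2 ⟨n, trivial, fun z hz => hn (hs n _ _ hz)⟩)
    (fun r h => by
      obtain ⟨n, -, hn⟩ := hb.mem_iff.1 h
      exact ⟨E (n + 1), hb.mem_of_mem trivial, fun z ⟨y, h1, h2⟩ => hn (hc n _ _ _ h1 h2)⟩))
  have hU : (𝓤 P).HasBasis (fun _ => True) E := hb
  haveI : IsCountablyGenerated (𝓤 P) := hU.isCountablyGenerated
  letI : PseudoMetricSpace P := UniformSpace.pseudoMetricSpace P
  have hN : ∀ p : P, (𝓝 p).HasBasis (fun _ : ℕ => True) fun n => {q | R n p q} :=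
    fun p => nhds_basis_uniformity' hU
  have hNm : ∀ p n, ∀ᶠ q in 𝓝 p, R n p q := fun p n => (hN p).mem_of_mem trivial
  haveI : CompactSpace P := ⟨isCompact_iff_ultrafilter_le_nhds.2 fun U _ => by
    obtain ⟨p, hp⟩ := hk U
    exact ⟨p, mem_univ _, (hN p).ge_iff.2 fun n _ => hp n⟩⟩
  have hsc : Continuous s := continuous_iff_continuousAt.2 fun p =>
    (hN (s p)).tendsto_right_iff.2 fun n _ => (hNm p (n + 1)).mono fun q hq => hsR n _ _ hq
  have hunif : ∀ (Z : Type) [MetricSpace Z] (h : P → Z), Continuous h →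
      ∃ n, ∀ p q, R n p q → dist (h p) (h q) < 1 := by
    intro Z _ h hh
    have := CompactSpace.uniformContinuous_of_continuous hh
    obtain ⟨n, -, hn⟩ := hU.mem_iff.1 (this (Metric.dist_mem_uniformity one_pos))
    exact ⟨n, fun p q hpq => hn (show (p, q) ∈ E n from hpq)⟩
  haveI : PreconnectedSpace P := preconnectedSpace_of_forall_constant fun f hf x y => by
    obtain ⟨n, hn⟩ := hunif ℤ (fun p => if f p then 1 else 0)
      ((continuous_of_discreteTopology (f := fun b : Bool => if b then (1 : ℤ) else 0)).comp hf)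
    induction hconn n x y with
    | refl => rfl
    | tail _ h ih =>
      rw [ih]
      have := hn _ _ h
      revert this
      rw [Int.dist_eq]
      cases f _ <;> cases f _ <;> simp
  haveI : ConnectedSpace P := { toNonempty := inferInstance }
  let X := SeparationQuotient P
  let mk : P → X := SeparationQuotient.mk
  have hmk : Continuous mk := SeparationQuotient.continuous_mk
  have hms : Function.Surjective mk := SeparationQuotient.surjective_mk
  haveI : CompactSpace X := ⟨by
    rw [← hms.range_eq]; exact isCompact_range hmk⟩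
  haveI : ConnectedSpace X := hms.connectedSpace hmk
  haveI : Nontrivial X := by
    obtain ⟨n, p, q, h⟩ := hnt
    refine ⟨mk p, mk q, fun e => h ?_⟩
    have hi := SeparationQuotient.mk_eq_mk.1 e
    have := hNm p n
    rw [hi.nhds_eq] at this
    exact this.self_of_nhds
  let f : C(X, X) := ⟨SeparationQuotient.lift (mk ∘ s)
    (fun x y h => SeparationQuotient.mk_eq_mk.2 (h.map hsc)),
    SeparationQuotient.continuous_lift_iff.2 (hmk.comp hsc)⟩
  have hf : ∀ p, f (mk p) = mk (s p) := fun p => rfl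
  obtain ⟨g, -, hg⟩ := H X f
    (fun x => by
      obtain ⟨p, rfl⟩ := hms x
      obtain ⟨q, rfl⟩ := hsurj p
      exact ⟨mk q, hf q⟩)
    (fun x K hK hKc hx hfx => by
      obtain ⟨p, rfl⟩ := hms x
      have hpre : IsPreconnected (mk ⁻¹' K) := by
        rw [← SeparationQuotient.isInducing_mk.isPreconnected_image, image_preimage_eq K hms]
        exact hKc.2
      refine eq_univ_of_forall fun y => ?_
      obtain ⟨q, rfl⟩ := hms y
      have hcl : IsClosed (mk ⁻¹' K) := hK.preimage hmk
      show q ∈ mk ⁻¹' K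
      rw [← hcl.closure_eq, mem_closure_iff_nhds_basis (hN q)]
      intro n _
      refine hirr n (mk ⁻¹' K) p hx ?_ q
      exact hpre.induction₂'
        (Relation.ReflTransGen (fun a b => b ∈ mk ⁻¹' K ∧ R (n + 1) a b))
        (fun a ha => by
          filter_upwards [self_mem_nhdsWithin, mem_nhdsWithin_of_mem_nhds (hNm a (n + 1))]
            with b hb hab
          exact ⟨.single ⟨hb, hab⟩, .single ⟨ha, hs _ _ _ hab⟩⟩)
        (fun a b c _ _ _ h1 h2 => h1.trans h2) (x := p) (y := s p) hx hfx)
  have hgc : Continuous (fun p => g (mk p)) := g.continuous.comp hmk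
  obtain ⟨n, hn⟩ := hunif Circle _ hgc
  obtain ⟨L, hL, hLR⟩ := hlog n _ hn
  have hLc : Continuous L := continuous_iff_continuousAt.2 fun p => by
    have h1 : ContinuousAt (fun q => L p + arg ((g (mk q) / g (mk p) : Circle) : ℂ)) p := by
      refine continuousAt_const.add (ContinuousAt.comp (g := arg) (continuousAt_arg ?_) ?_)
      · exact Or.inl (re_pos (by simp))
      · exact (continuous_subtype_val.comp (hgc.div' continuous_const)).continuousAt
    refine h1.congr ?_
    filter_upwards [hNm p (n + 1), hNm p n] with q h2 h3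
    exact (log_step (hn _ _ h3) (hL p) (hL q) (hLR _ _ h2)).symm
  let L' : X → ℝ := SeparationQuotient.lift L fun x y h => (h.map hLc).eq
  have hL'c : Continuous L' := SeparationQuotient.continuous_lift_iff.2 hLc
  refine hg 1 ⟨⟨⟨fun z => Circle.exp ((1 - (z.1 : ℝ)) * L' z.2), by fun_prop⟩, fun x => ?_,
    fun x => ?_⟩⟩
  · obtain ⟨p, rfl⟩ := hms x
    have : L' (mk p) = L p := rfl
    simpa [this] using hL p
  · simp

end Pool.Agent.H82.Irr
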