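import Mathlib

/-! Walks of colourings of the integers and their refinements. -/

set_option autoImplicit false

namespace Pool.Agent.H82.Irr

open Finset

section Generic
variable {α : Type}

def sh (a : ℤ) (y : ℤ → α) : ℤ → α := fun j => y (j + a)

def Ag (r : ℕ) (y y' : ℤ → α) : Prop := ∀ j : ℤ, j.natAbs ≤ r → y j = y' j

def cat (γ : ℕ → α) (T : ℕ) (γ' : ℕ → α) : ℕ → α := fun t => if t ≤ T then γ t else γ' (t - T)

def rev (γ : ℕ → α) (T : ℕ) : ℕ → α := fun t => γ (T - t)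

noncomputable def wind (ω : α → α → ℝ) (γ : ℕ → α) (T : ℕ) : ℝ :=
  ∑ t ∈ range T, ω (γ t) (γ (t + 1))

def Wk (P : α → Prop) (A : α → α → Prop) (γ : ℕ → α) : Prop :=
  ∀ t, P (γ t) ∧ A (γ t) (γ (t + 1))

theorem cat_le {γ γ' : ℕ → α} {T t : ℕ} (h : t ≤ T) : cat γ T γ' t = γ t := if_pos h

theorem cat_zero (γ γ' : ℕ → α) (T : ℕ) : cat γ T γ' 0 = γ 0 := cat_le (Nat.zero_le _)

theorem cat_add {γ γ' : ℕ → α} {T : ℕ} (h : γ T = γ' 0) (t : ℕ) : cat γ T γ' (T + t) = γ' t := by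
  rcases Nat.eq_zero_or_pos t with rfl | ht
  · rw [add_zero, cat_le le_rfl, h]
  · unfold cat
    rw [if_neg (by omega), Nat.add_sub_cancel_left]

theorem rev_zero (γ : ℕ → α) (T : ℕ) : rev γ T 0 = γ T := rfl

theorem rev_end (γ : ℕ → α) (T : ℕ) : rev γ T T = γ 0 := by simp [rev]

theorem wind_cat (ω : α → α → ℝ) {γ γ' : ℕ → α} {T : ℕ} (h : γ T = γ' 0) (T' : ℕ) :
    wind ω (cat γ T γ') (T + T') = wind ω γ T + wind ω γ' T' := by
  unfold wind
  rw [sum_range_add]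
  congr 1
  · refine sum_congr rfl fun t ht => ?_
    have := mem_range.1 ht
    rw [cat_le (by omega), cat_le (by omega)]
  · refine sum_congr rfl fun t _ => ?_
    rw [add_assoc, cat_add h, cat_add h]

theorem wind_rev {ω : α → α → ℝ} (hω : ∀ a b, ω a b = -ω b a) (γ : ℕ → α) (T : ℕ) :
    wind ω (rev γ T) T = -wind ω γ T := by
  unfold wind
  rw [← sum_range_reflect, ← sum_neg_distrib]
  refine sum_congr rfl fun t ht => ?_
  have := mem_range.1 ht
  unfold rev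
  rw [hω, show T - (T - 1 - t + 1) = t by omega, show T - (T - 1 - t) = t + 1 by omega]

theorem Wk.cat {P : α → Prop} {A : α → α → Prop} {γ γ' : ℕ → α} {T : ℕ} (h1 : Wk P A γ)
    (h2 : Wk P A γ') (h : γ T = γ' 0) : Wk P A (cat γ T γ') := by
  intro t
  rcases Nat.lt_or_ge t T with ht | ht
  · rw [cat_le ht.le, cat_le ht]; exact h1 t
  · obtain ⟨u, rfl⟩ := Nat.exists_eq_add_of_le ht
    rw [add_assoc, cat_add h, cat_add h]; exact h2 u

theorem Wk.rev {P : α → Prop} {A : α → α → Prop} {γ : ℕ → α} (h1 : Wk P A γ)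
    (hr : ∀ a, A a a) (hs : ∀ a b, A a b → A b a) (T : ℕ) : Wk P A (rev γ T) := by
  intro t
  refine ⟨(h1 _).1, ?_⟩
  unfold Irr.rev
  rcases Nat.lt_or_ge t T with ht | ht
  · rw [show T - t = T - (t + 1) + 1 by omega]; exact hs _ _ (h1 _).2
  · rw [show T - t = T - (t + 1) by omega]; exact hr _

theorem Wk.mono {P P' : α → Prop} {A : α → α → Prop} {γ : ℕ → α} (h1 : Wk P A γ)
    (h : ∀ a, P a → P' a) : Wk P' A γ := fun t => ⟨h _ (h1 t).1, (h1 t).2⟩

theorem cat_congr {γ γ' δ δ' : ℕ → ℤ → α} {T : ℕ} {l : ℤ} (h1 : ∀ t, γ t l = δ t l)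
    (h2 : ∀ t, γ' t l = δ' t l) (t : ℕ) : cat γ T γ' t l = cat δ T δ' t l := by
  unfold cat
  split_ifs
  · exact h1 _
  · exact h2 _

theorem rev_congr {γ δ : ℕ → ℤ → α} {T : ℕ} {l : ℤ} (h1 : ∀ t, γ t l = δ t l) (t : ℕ) :
    rev γ T t l = rev δ T t l := h1 _

theorem sum_shift (F : ℤ → ℝ) (r : ℕ) (hF : ∀ j : ℤ, r < j.natAbs → F j = 0) (e : ℤ) (N : ℕ)
    (h1 : e ≤ -r) (h2 : r < e + N) :
    ∑ k ∈ range N, F (k + e) = ∑ j ∈ Icc (-r : ℤ) r, F j := by
  rw [← sum_image (s := range N) (g := fun k : ℕ => (k : ℤ) + e) (f := F)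
    (fun a _ b _ h => by simpa using h)]
  refine (sum_subset (fun j hj => ?_) fun j _ hj => hF j ?_).symm
  · rw [mem_Icc] at hj
    exact mem_image.2 ⟨(j - e).toNat, mem_range.2 (by omega), by omega⟩
  · rw [mem_Icc] at hj
    omega

end Generic

abbrev K : Type := ZMod 3 × Fin 5
abbrev Cfg : Type := ℤ → K
abbrev Y : Type := ℤ → K × ℕ

def Pr (x : Cfg) : Prop := ∀ j, x j ≠ x (j + 1)

def adj (a b : K × ℕ) : Prop :=
  (a.1 = b.1 ∧ a.2 ≤ b.2 + 1 ∧ b.2 ≤ a.2 + 1) ∨ (a.2 = 0 ∧ b.2 = 0)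

theorem adj_refl (a : K × ℕ) : adj a a := Or.inl ⟨rfl, by omega, by omega⟩

theorem adj_symm {a b : K × ℕ} (h : adj a b) : adj b a := by
  rcases h with h | h
  · exact Or.inl ⟨h.1.symm, h.2.2, h.2.1⟩
  · exact Or.inr h.symm

def tip (L : ℕ) (x : Cfg) : Y := fun j => (x j, L)

def col (y : Y) : Cfg := fun j => (y j).1

def Adj (y y' : Y) : Prop := ∀ j, adj (y j) (y' j)

theorem Adj_refl (y : Y) : Adj y y := fun _ => adj_refl _

theorem Adj_symm (y y' : Y) (h : Adj y y') : Adj y' y := fun j => adj_symm (h j)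

/-- Admissible positions of a walk that starts at `x`. -/
def Ok (ρ L : ℕ) (x : Cfg) (y : Y) : Prop :=
  Pr (col y) ∧ (∀ j, (y j).2 ≤ L) ∧ (∀ j j', (y j).2 < L → (y j').2 < L → j = j') ∧
    ∀ j : ℤ, ρ < j.natAbs → y j = (x j, L)

def step (L : ℕ) (c c' : Cfg) (s : ℕ) : Y := fun j =>
  if s ≤ L then (c j, if c j = c' j then L else L - s)
  else (c' j, if c j = c' j then L else min L (s - L - 1))

theorem step_zero (L : ℕ) (c c' : Cfg) : step L c c' 0 = tip L c := by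
  funext j; simp [step, tip]

theorem step_end (L : ℕ) (c c' : Cfg) : step L c c' (2 * L + 1) = tip L c' := by
  funext j
  simp only [step, tip]
  rw [if_neg (by omega), show min L (2 * L + 1 - L - 1) = L by omega]
  simp

theorem step_of_eq {L : ℕ} {c c' : Cfg} {j : ℤ} (h : c j = c' j) (s : ℕ) :
    step L c c' s j = (c j, L) := by
  simp [step, h]

theorem step_congr {L : ℕ} {c c' d d' : Cfg} {j : ℤ} (h : c j = d j) (h' : c' j = d' j) (s : ℕ) :
    step L c c' s j = step L d d' s j := by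
  simp only [step, h, h']

theorem step_wk {ρ L : ℕ} {x c c' : Cfg} (hc : Pr c) (hc' : Pr c')
    (h1 : ∀ j j', c j ≠ c' j → c j' ≠ c' j' → j = j')
    (ho : ∀ j : ℤ, ρ < j.natAbs → c j = x j ∧ c' j = x j) :
    Wk (Ok ρ L x) Adj (step L c c') := by
  intro s
  refine ⟨⟨?_, fun j => ?_, fun j j' a b => h1 j j' (fun e => ?_) fun e => ?_, fun j hj => ?_⟩,
    fun j => ?_⟩
  · by_cases hs : s ≤ L
    · intro j; simpa [col, step, hs] using hc j
    · intro j; simpa [col, step, hs] using hc' j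
  · unfold step; split_ifs <;> simp only <;> omega
  · rw [step_of_eq e] at a; exact lt_irrefl _ a
  · rw [step_of_eq e] at b; exact lt_irrefl _ b
  · rw [step_of_eq ((ho j hj).1.trans (ho j hj).2.symm), (ho j hj).1]
  · by_cases e : c j = c' j
    · rw [step_of_eq e, step_of_eq e]; exact adj_refl _
    · unfold step adj
      simp only [e, if_false]
      split_ifs
      · exact Or.inl ⟨rfl, by simp only; omega, by simp only; omega⟩
      · exact Or.inr ⟨by simp only; omega, by simp only; omega⟩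
      · omega
      · exact Or.inl ⟨rfl, by simp only; omega, by simp only; omega⟩

def fine (L : ℕ) (w : ℕ → Cfg) : ℕ → ℕ → Y
  | 0 => fun _ => tip L (w 0)
  | n + 1 => cat (fine L w n) (n * (2 * L + 1)) (step L (w n) (w (n + 1)))

theorem fine_zero (L : ℕ) (w : ℕ → Cfg) (n : ℕ) : fine L w n 0 = tip L (w 0) := by
  induction n with
  | zero => rfl
  | succ n ih => rw [fine, cat_zero, ih]

theorem fine_end (L : ℕ) (w : ℕ → Cfg) (n : ℕ) : fine L w n (n * (2 * L + 1)) = tip L (w n) := by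
  induction n with
  | zero => rfl
  | succ n ih =>
    have h : fine L w n (n * (2 * L + 1)) = step L (w n) (w (n + 1)) 0 := by rw [ih, step_zero]
    rw [fine, add_mul n 1, one_mul, cat_add h, step_end]

theorem fine_wind (ω : Y → Y → ℝ) (L : ℕ) (w : ℕ → Cfg) (n : ℕ) :
    wind ω (fine L w n) (n * (2 * L + 1)) =
      ∑ k ∈ range n, wind ω (step L (w k) (w (k + 1))) (2 * L + 1) := by
  induction n with
  | zero => simp [wind]
  | succ n ih =>
    have h : fine L w n (n * (2 * L + 1)) = step L (w n) (w (n + 1)) 0 := by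
      rw [fine_end, step_zero]
    rw [fine, add_mul n 1, one_mul, wind_cat _ h, ih, sum_range_succ]

theorem fine_wk {P : Y → Prop} {L : ℕ} {w : ℕ → Cfg}
    (h : ∀ k, Wk P Adj (step L (w k) (w (k + 1)))) (n : ℕ) : Wk P Adj (fine L w n) := by
  induction n with
  | zero =>
    intro t
    have := (h 0 0).1
    rw [step_zero] at this
    exact ⟨this, Adj_refl _⟩
  | succ n ih => exact ih.cat (h n) (by rw [fine_end, step_zero])

theorem fine_congr {L : ℕ} {w w' : ℕ → Cfg} {l : ℤ} (h : ∀ k, w k l = w' k l) (n t : ℕ) :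
    fine L w n t l = fine L w' n t l := by
  induction n generalizing t with
  | zero => simp only [fine, tip, h]
  | succ n ih => exact cat_congr ih (step_congr (h _) (h _)) t

theorem exists_eps : ∀ a b c d : Fin 5, ∃ e : Fin 5, e ≠ a ∧ e ≠ b ∧ e ≠ c ∧ e ≠ d := by decide

noncomputable def eps (a b c d : K) : Fin 5 := (exists_eps a.2 b.2 c.2 d.2).choose

theorem eps_ne (z : ZMod 3) (a b c d : K) : (z, eps a b c d) ≠ a ∧ (z, eps a b c d) ≠ b ∧
    (z, eps a b c d) ≠ c ∧ (z, eps a b c d) ≠ d := by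
  obtain ⟨h1, h2, h3, h4⟩ := (exists_eps a.2 b.2 c.2 d.2).choose_spec
  exact ⟨fun e => h1 (congrArg Prod.snd e), fun e => h2 (congrArg Prod.snd e),
    fun e => h3 (congrArg Prod.snd e), fun e => h4 (congrArg Prod.snd e)⟩

noncomputable def mid (ζ : ℤ → ZMod 3) (c x : Cfg) : Cfg := fun l =>
  (ζ l, eps (x (l - 1)) (x (l + 1)) (c (l - 1)) (c (l + 1)))

/-- The two sweeps that carry `x` to `c` near the origin. -/
noncomputable def Q (r : ℕ) (ζ : ℤ → ZMod 3) (c x : Cfg) (k : ℕ) : Cfg := fun l =>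
  if l.natAbs ≤ 2 * r + 1 ∧ l + (6 * r + 6) < k then c l
  else if l.natAbs ≤ 2 * r + 2 ∧ l + (2 * r + 2) < k then mid ζ c x l else x l

theorem Q_zero (r : ℕ) (ζ : ℤ → ZMod 3) (c x : Cfg) : Q r ζ c x 0 = x := by
  funext l; unfold Q; rw [if_neg (by omega), if_neg (by omega)]

theorem Q_end (r : ℕ) (ζ : ℤ → ZMod 3) (c x : Cfg) {l : ℤ} (h : l.natAbs ≤ 2 * r + 1) :
    Q r ζ c x (8 * r + 8) l = c l := by
  unfold Q; rw [if_pos (by omega)]

theorem Q_out (r : ℕ) (ζ : ℤ → ZMod 3) (c x : Cfg) (k : ℕ) {l : ℤ} (h : 2 * r + 2 < l.natAbs) :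
    Q r ζ c x k l = x l := by
  unfold Q; rw [if_neg (by omega), if_neg (by omega)]

theorem Q_congr {r : ℕ} {ζ : ℤ → ZMod 3} {c x x' : Cfg} {l : ℤ} (h1 : x (l - 1) = x' (l - 1))
    (h2 : x l = x' l) (h3 : x (l + 1) = x' (l + 1)) (k : ℕ) :
    Q r ζ c x k l = Q r ζ c x' k l := by
  simp only [Q, mid, h1, h2, h3]

theorem Q_pr {r : ℕ} {ζ : ℤ → ZMod 3} {c x : Cfg} (hζ : ∀ j, ζ j ≠ ζ (j + 1)) (hc : Pr c)
    (hx : Pr x) (k : ℕ) : Pr (Q r ζ c x k) := by
  intro l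
  have a1 := eps_ne (ζ l) (x (l - 1)) (x (l + 1)) (c (l - 1)) (c (l + 1))
  have a2 := eps_ne (ζ (l + 1)) (x (l + 1 - 1)) (x (l + 1 + 1)) (c (l + 1 - 1)) (c (l + 1 + 1))
  have e : l + 1 - 1 = l := by ring
  unfold Q
  split_ifs
  · exact hc l
  · exact fun h => a2.2.2.1 (h.symm.trans (congrArg c e.symm))
  · omega
  · exact a1.2.2.2
  · exact fun h => hζ l (congrArg Prod.fst h)
  · exact a1.2.1
  · omega
  · exact fun h => a2.1 (h.symm.trans (congrArg x e.symm))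
  · exact hx l

theorem Q_one {r : ℕ} {ζ : ℤ → ZMod 3} {c x : Cfg} {k : ℕ} {l : ℤ}
    (h : Q r ζ c x k l ≠ Q r ζ c x (k + 1) l) :
    (l + (2 * r + 2) = k ∧ k ≤ 4 * r + 4) ∨ (l + (6 * r + 6) = k ∧ 4 * r + 5 ≤ k) := by
  by_contra hn
  apply h
  unfold Q
  split_ifs <;> first | rfl | omega

noncomputable def Qf (r L : ℕ) (ζ : ℤ → ZMod 3) (c x : Cfg) : ℕ → Y :=
  fine L (Q r ζ c x) (8 * r + 8)

def Tq (r L : ℕ) : ℕ := (8 * r + 8) * (2 * L + 1)

theorem Qf_zero (r L : ℕ) (ζ : ℤ → ZMod 3) (c x : Cfg) : Qf r L ζ c x 0 = tip L x := by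
  rw [Qf, fine_zero, Q_zero]

theorem Qf_end (r L : ℕ) (ζ : ℤ → ZMod 3) (c x : Cfg) :
    Qf r L ζ c x (Tq r L) = tip L (Q r ζ c x (8 * r + 8)) := fine_end _ _ _

theorem Qf_wk (r L : ℕ) {ζ : ℤ → ZMod 3} {c x : Cfg} (hζ : ∀ j, ζ j ≠ ζ (j + 1)) (hc : Pr c)
    (hx : Pr x) : Wk (Ok (2 * r + 2) L x) Adj (Qf r L ζ c x) :=
  fine_wk (fun k => step_wk (Q_pr hζ hc hx _) (Q_pr hζ hc hx _)
    (fun j j' h h' => by have := Q_one h; have := Q_one h'; omega)
    fun j hj => ⟨Q_out _ _ _ _ _ hj, Q_out _ _ _ _ _ hj⟩) _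

theorem Qf_congr {r L : ℕ} {ζ : ℤ → ZMod 3} {c x x' : Cfg} {l : ℤ} (h1 : x (l - 1) = x' (l - 1))
    (h2 : x l = x' l) (h3 : x (l + 1) = x' (l + 1)) (t : ℕ) :
    Qf r L ζ c x t l = Qf r L ζ c x' t l := fine_congr (Q_congr h1 h2 h3) _ _

end Pool.Agent.H82.Irr
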