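import Pool.Agent.H82.IrrA
import Pool.Agent.H82.IrrB

/-! The long walk: it visits every window, and its winding numbers have a potential. -/

set_option autoImplicit false

namespace Pool.Agent.H82.Irr

open Finset Complex

def z3 (s : ZMod 3) : ℤ → ZMod 3 := fun j => s + j

def z2 (s : ZMod 2) : ℤ → ZMod 3 := fun j => ((s + (j : ZMod 2)).val : ZMod 3)

theorem z3_ne (s : ZMod 3) (j : ℤ) : z3 s j ≠ z3 s (j + 1) := by
  have : ∀ a : ZMod 3, a ≠ a + 1 := by decide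
  unfold z3
  push_cast
  rw [← add_assoc]
  exact this _

theorem z2_ne (s : ZMod 2) (j : ℤ) : z2 s j ≠ z2 s (j + 1) := by
  have : ∀ a : ZMod 2, (a.val : ZMod 3) ≠ ((a + 1).val : ZMod 3) := by decide
  unfold z2
  rw [Int.cast_add, Int.cast_one, ← add_assoc]
  exact this _

theorem z3_sh (s : ZMod 3) (i : ℤ) : sh (-i) (z3 s) = z3 (s - i) := by
  funext j; simp only [sh, z3]; push_cast; ring

theorem z2_sh (s : ZMod 2) (i : ℤ) : sh (-i) (z2 s) = z2 (s - i) := by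
  funext j
  simp only [sh, z2]
  rw [show s + ((j + -i : ℤ) : ZMod 2) = s - i + j by push_cast; ring]

def zc (ζ : ℤ → ZMod 3) : Cfg := fun j => (ζ j, 0)

theorem zc_pr {ζ : ℤ → ZMod 3} (h : ∀ j, ζ j ≠ ζ (j + 1)) : Pr (zc ζ) :=
  fun j e => h j (congrArg Prod.fst e)

noncomputable def x0 (x : Cfg) : Cfg := fun l =>
  if l = 0 then (0, eps (x (-1)) (x 1) (x (-1)) (x 1)) else x l

theorem x0_ne (x : Cfg) {l : ℤ} (h : l ≠ 0) : x0 x l = x l := if_neg h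

theorem x0_congr {x x' : Cfg} {l : ℤ} (h1 : x (-1) = x' (-1)) (h2 : x 1 = x' 1)
    (h : l ≠ 0 → x l = x' l) : x0 x l = x0 x' l := by
  unfold x0
  split_ifs with e
  · rw [h1, h2]
  · exact h e

theorem x0_pr {x : Cfg} (h : Pr x) : Pr (x0 x) := by
  intro l
  have a := eps_ne 0 (x (-1)) (x 1) (x (-1)) (x 1)
  unfold x0
  split_ifs with e1 e2 e2
  · omega
  · subst e1; exact a.2.1
  · rw [show l = -1 by omega]; exact a.1.symm
  · exact h l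

theorem Ok.of_x0 {ρ L : ℕ} {x : Cfg} {y : Y} (h : Ok ρ L (x0 x) y) : Ok ρ L x y :=
  ⟨h.1, h.2.1, h.2.2.1, fun j hj => by rw [h.2.2.2 j hj, x0_ne x (by omega)]⟩

theorem Q_x0 (r : ℕ) (ζ : ℤ → ZMod 3) (c x : Cfg) :
    Q r ζ c (x0 x) (8 * r + 8) = Q r ζ c x (8 * r + 8) := by
  funext l
  by_cases h : l.natAbs ≤ 2 * r + 1
  · rw [Q_end _ _ _ _ h, Q_end _ _ _ _ h]
  · exact Q_congr (x0_ne _ (by omega)) (x0_ne _ (by omega)) (x0_ne _ (by omega)) _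

def desc (L : ℕ) (c : Cfg) (j : ℤ) (s : ℕ) : Y := fun l => (c l, if l = j then L - s else L)

theorem desc_zero (L : ℕ) (c : Cfg) (j : ℤ) : desc L c j 0 = tip L c := by
  funext l; simp [desc, tip]

theorem desc_wk {ρ L : ℕ} {x c : Cfg} {j : ℤ} (hc : Pr c) (hj : j.natAbs ≤ ρ)
    (ho : ∀ l : ℤ, ρ < l.natAbs → c l = x l) : Wk (Ok ρ L x) Adj (desc L c j) := by
  intro s
  refine ⟨⟨hc, fun l => ?_, fun l l' a b => ?_, fun l hl => ?_⟩, fun l => Or.inl ⟨rfl, ?_, ?_⟩⟩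
  · unfold desc; split_ifs <;> simp only <;> omega
  · unfold desc at a b
    split_ifs at a b <;> simp only at a b <;> omega
  · unfold desc; rw [if_neg (by omega), ho l hl]
  · unfold desc; split_ifs <;> simp only <;> omega
  · unfold desc; split_ifs <;> simp only <;> omega

noncomputable def half (r L : ℕ) (a : Cfg × ℤ) (x : Cfg) : ℕ → Y :=
  cat (Qf r L (z3 0) a.1 x) (Tq r L) (desc L (Q r (z3 0) a.1 x (8 * r + 8)) a.2)

noncomputable def piece (r L : ℕ) (a : Cfg × ℤ) (x : Cfg) : ℕ → Y :=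
  cat (half r L a x) (Tq r L + L) (rev (half r L a x) (Tq r L + L))

theorem half_glue (r L : ℕ) (a : Cfg × ℤ) (x : Cfg) :
    Qf r L (z3 0) a.1 x (Tq r L) = desc L (Q r (z3 0) a.1 x (8 * r + 8)) a.2 0 := by
  rw [Qf_end, desc_zero]

theorem piece_zero (r L : ℕ) (a : Cfg × ℤ) (x : Cfg) : piece r L a x 0 = tip L x := by
  rw [piece, cat_zero, half, cat_zero, Qf_zero]

theorem piece_end (r L : ℕ) (a : Cfg × ℤ) (x : Cfg) :
    piece r L a x (Tq r L + L + (Tq r L + L)) = tip L x := by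
  rw [piece, cat_add (rev_zero _ _).symm, rev_end, half, cat_zero, Qf_zero]

theorem piece_wk {r L : ℕ} {a : Cfg × ℤ} {x : Cfg} (ha : Pr a.1) (hj : a.2.natAbs ≤ r)
    (hx : Pr x) : Wk (Ok (2 * r + 2) L x) Adj (piece r L a x) := by
  have h : Wk (Ok (2 * r + 2) L x) Adj (half r L a x) :=
    (Qf_wk r L (z3_ne 0) ha hx).cat (desc_wk (Q_pr (z3_ne 0) ha hx _) (by omega)
      fun l hl => Q_out _ _ _ _ _ hl) (half_glue r L a x)
  exact h.cat (h.rev Adj_refl Adj_symm _) rfl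

theorem piece_congr {r L : ℕ} {a : Cfg × ℤ} {x x' : Cfg} {l : ℤ} (h1 : x (l - 1) = x' (l - 1))
    (h2 : x l = x' l) (h3 : x (l + 1) = x' (l + 1)) (t : ℕ) :
    piece r L a x t l = piece r L a x' t l := by
  have h : ∀ t, half r L a x t l = half r L a x' t l :=
    cat_congr (Qf_congr h1 h2 h3) fun t => by simp only [desc, Q_congr h1 h2 h3]
  exact cat_congr h (rev_congr h) t

theorem piece_wind {ω : Y → Y → ℝ} (hω : ∀ a b, ω a b = -ω b a) (r L : ℕ) (a : Cfg × ℤ)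
    (x : Cfg) : wind ω (piece r L a x) (Tq r L + L + (Tq r L + L)) = 0 := by
  rw [piece, wind_cat _ (rev_zero _ _).symm, wind_rev hω, add_neg_cancel]

theorem piece_val (r L : ℕ) (a : Cfg × ℤ) (x : Cfg) {s : ℕ} (hs : s ≤ L) :
    piece r L a x (Tq r L + s) = desc L (Q r (z3 0) a.1 x (8 * r + 8)) a.2 s := by
  rw [piece, cat_le (by omega), half, cat_add (half_glue r L a x)]

noncomputable def U (r L : ℕ) (ζ : ℤ → ZMod 3) (x x' : Cfg) : ℕ → Y :=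
  cat (Qf r L ζ (zc ζ) x) (Tq r L) (rev (Qf r L ζ (zc ζ) x') (Tq r L))

theorem glue1 (r L : ℕ) (ζ : ℤ → ZMod 3) (x : Cfg) :
    Qf r L ζ (zc ζ) x (Tq r L) = rev (Qf r L ζ (zc ζ) (x0 x)) (Tq r L) 0 := by
  rw [rev_zero, Qf_end, Qf_end, Q_x0]

theorem glue2 (r L : ℕ) (ζ : ℤ → ZMod 3) (x : Cfg) :
    Qf r L ζ (zc ζ) (x0 x) (Tq r L) = rev (Qf r L ζ (zc ζ) x) (Tq r L) 0 := by
  rw [rev_zero, Qf_end, Qf_end, Q_x0]

theorem U_zero (r L : ℕ) (ζ : ℤ → ZMod 3) (x x' : Cfg) : U r L ζ x x' 0 = tip L x := by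
  rw [U, cat_zero, Qf_zero]

theorem U_end1 (r L : ℕ) (ζ : ℤ → ZMod 3) (x : Cfg) :
    U r L ζ x (x0 x) (Tq r L + Tq r L) = tip L (x0 x) := by
  rw [U, cat_add (glue1 r L ζ x), rev_end, Qf_zero]

theorem U_end2 (r L : ℕ) (ζ : ℤ → ZMod 3) (x : Cfg) :
    U r L ζ (x0 x) x (Tq r L + Tq r L) = tip L x := by
  rw [U, cat_add (glue2 r L ζ x), rev_end, Qf_zero]

theorem U_wk1 (r L : ℕ) {ζ : ℤ → ZMod 3} (hζ : ∀ j, ζ j ≠ ζ (j + 1)) {x : Cfg} (hx : Pr x) :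
    Wk (Ok (2 * r + 2) L x) Adj (U r L ζ x (x0 x)) :=
  (Qf_wk r L hζ (zc_pr hζ) hx).cat (((Qf_wk r L hζ (zc_pr hζ) (x0_pr hx)).mono
    fun _ => Ok.of_x0).rev Adj_refl Adj_symm _) (glue1 r L ζ x)

theorem U_wk2 (r L : ℕ) {ζ : ℤ → ZMod 3} (hζ : ∀ j, ζ j ≠ ζ (j + 1)) {x : Cfg} (hx : Pr x) :
    Wk (Ok (2 * r + 2) L x) Adj (U r L ζ (x0 x) x) :=
  ((Qf_wk r L hζ (zc_pr hζ) (x0_pr hx)).mono fun _ => Ok.of_x0).cat
    ((Qf_wk r L hζ (zc_pr hζ) hx).rev Adj_refl Adj_symm _) (glue2 r L ζ x)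

noncomputable def five (r L : ℕ) (x : Cfg) : ℕ → Y :=
  cat (U r L (z3 0) x (x0 x)) (Tq r L + Tq r L) (cat (U r L (z2 0) (x0 x) x) (Tq r L + Tq r L)
    (cat (U r L (z3 1) x (x0 x)) (Tq r L + Tq r L) (cat (U r L (z2 1) (x0 x) x) (Tq r L + Tq r L)
      (U r L (z3 2) x (x0 x)))))

def T5 (r L : ℕ) : ℕ := (Tq r L + Tq r L) + ((Tq r L + Tq r L) + ((Tq r L + Tq r L) +
  ((Tq r L + Tq r L) + (Tq r L + Tq r L))))

theorem g12 (r L : ℕ) (ζ ζ' : ℤ → ZMod 3) (x : Cfg) (T : ℕ) (γ : ℕ → Y) :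
    U r L ζ x (x0 x) (Tq r L + Tq r L) = cat (U r L ζ' (x0 x) x) T γ 0 := by
  rw [cat_zero, U_end1, U_zero]

theorem g21 (r L : ℕ) (ζ ζ' : ℤ → ZMod 3) (x : Cfg) (T : ℕ) (γ : ℕ → Y) :
    U r L ζ (x0 x) x (Tq r L + Tq r L) = cat (U r L ζ' x (x0 x)) T γ 0 := by
  rw [cat_zero, U_end2, U_zero]

theorem g21' (r L : ℕ) (ζ ζ' : ℤ → ZMod 3) (x : Cfg) :
    U r L ζ (x0 x) x (Tq r L + Tq r L) = U r L ζ' x (x0 x) 0 := by
  rw [U_end2, U_zero]

theorem five_zero (r L : ℕ) (x : Cfg) : five r L x 0 = tip L x := by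
  rw [five, cat_zero, U_zero]

theorem five_end (r L : ℕ) (x : Cfg) : five r L x (T5 r L) = tip L (x0 x) := by
  rw [five, T5, cat_add (g12 ..), cat_add (g21 ..), cat_add (g12 ..), cat_add (g21' ..), U_end1]

theorem five_wk (r L : ℕ) {x : Cfg} (hx : Pr x) : Wk (Ok (2 * r + 2) L x) Adj (five r L x) :=
  (U_wk1 r L (z3_ne 0) hx).cat ((U_wk2 r L (z2_ne 0) hx).cat ((U_wk1 r L (z3_ne 1) hx).cat
    ((U_wk2 r L (z2_ne 1) hx).cat (U_wk1 r L (z3_ne 2) hx) (g21' ..)) (g12 ..)) (g21 ..)) (g12 ..)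

theorem five_congr {r L : ℕ} {x x' : Cfg} {l : ℤ} (a1 : x (-1) = x' (-1)) (a2 : x 1 = x' 1)
    (h1 : x (l - 1) = x' (l - 1)) (h2 : x l = x' l) (h3 : x (l + 1) = x' (l + 1)) (t : ℕ) :
    five r L x t l = five r L x' t l := by
  have q : ∀ ζ t, Qf r L ζ (zc ζ) x t l = Qf r L ζ (zc ζ) x' t l := fun ζ => Qf_congr h1 h2 h3
  have q0 : ∀ ζ t, Qf r L ζ (zc ζ) (x0 x) t l = Qf r L ζ (zc ζ) (x0 x') t l := fun ζ =>
    Qf_congr (x0_congr a1 a2 fun _ => h1) (x0_congr a1 a2 fun _ => h2)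
      (x0_congr a1 a2 fun _ => h3)
  have u1 : ∀ ζ t, U r L ζ x (x0 x) t l = U r L ζ x' (x0 x') t l := fun ζ =>
    cat_congr (q ζ) (rev_congr (q0 ζ))
  have u2 : ∀ ζ t, U r L ζ (x0 x) x t l = U r L ζ (x0 x') x' t l := fun ζ =>
    cat_congr (q0 ζ) (rev_congr (q ζ))
  exact cat_congr (u1 _) (cat_congr (u2 _) (cat_congr (u1 _) (cat_congr (u2 _) (u1 _)))) t

theorem five_wind {ω : Y → Y → ℝ} (hω : ∀ a b, ω a b = -ω b a) (r L : ℕ) (x : Cfg) :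
    wind ω (five r L x) (T5 r L) =
      (∑ s, wind ω (Qf r L (z3 s) (zc (z3 s)) x) (Tq r L) -
        ∑ s, wind ω (Qf r L (z2 s) (zc (z2 s)) x) (Tq r L)) -
      (∑ s, wind ω (Qf r L (z3 s) (zc (z3 s)) (x0 x)) (Tq r L) -
        ∑ s, wind ω (Qf r L (z2 s) (zc (z2 s)) (x0 x)) (Tq r L)) := by
  have s3 : ∀ f : ZMod 3 → ℝ, ∑ s, f s = f 0 + f 1 + f 2 := fun f => Fin.sum_univ_three f
  have s2 : ∀ f : ZMod 2 → ℝ, ∑ s, f s = f 0 + f 1 := fun f => Fin.sum_univ_two f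
  rw [five, T5, wind_cat _ (g12 ..), wind_cat _ (g21 ..), wind_cat _ (g12 ..),
    wind_cat _ (g21' ..), s3, s3, s2, s2]
  simp only [U, wind_cat _ (glue1 ..), wind_cat _ (glue2 ..), wind_rev hω]
  ring

noncomputable def WL (r L : ℕ) (x : Cfg) : List (Cfg × ℤ) → ℕ → Y
  | [] => five r L x
  | a :: l => cat (piece r L a x) (Tq r L + L + (Tq r L + L)) (WL r L x l)

def len (r L : ℕ) : List (Cfg × ℤ) → ℕ
  | [] => T5 r L
  | _ :: l => (Tq r L + L + (Tq r L + L)) + len r L l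

theorem WL_zero (r L : ℕ) (x : Cfg) (l : List (Cfg × ℤ)) : WL r L x l 0 = tip L x := by
  cases l with
  | nil => exact five_zero r L x
  | cons a l => rw [WL, cat_zero, piece_zero]

theorem WL_glue (r L : ℕ) (x : Cfg) (a : Cfg × ℤ) (l : List (Cfg × ℤ)) :
    piece r L a x (Tq r L + L + (Tq r L + L)) = WL r L x l 0 := by rw [piece_end, WL_zero]

theorem WL_end (r L : ℕ) (x : Cfg) (l : List (Cfg × ℤ)) :
    WL r L x l (len r L l) = tip L (x0 x) := by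
  induction l with
  | nil => exact five_end r L x
  | cons a l ih => rw [WL, len, cat_add (WL_glue ..), ih]

theorem WL_wk (r L : ℕ) {x : Cfg} (hx : Pr x) (l : List (Cfg × ℤ))
    (hl : ∀ a ∈ l, Pr a.1 ∧ a.2.natAbs ≤ r) : Wk (Ok (2 * r + 2) L x) Adj (WL r L x l) := by
  induction l with
  | nil => exact five_wk r L hx
  | cons a l ih =>
    exact (piece_wk (hl a (by simp)).1 (hl a (by simp)).2 hx).cat
      (ih fun b hb => hl b (by simp [hb])) (WL_glue ..)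

theorem WL_congr {r L : ℕ} {x x' : Cfg} {j : ℤ} (a1 : x (-1) = x' (-1)) (a2 : x 1 = x' 1)
    (h1 : x (j - 1) = x' (j - 1)) (h2 : x j = x' j) (h3 : x (j + 1) = x' (j + 1))
    (l : List (Cfg × ℤ)) (t : ℕ) : WL r L x l t j = WL r L x' l t j := by
  induction l generalizing t with
  | nil => exact five_congr a1 a2 h1 h2 h3 t
  | cons a l ih => exact cat_congr (piece_congr h1 h2 h3) ih t

theorem WL_wind {ω : Y → Y → ℝ} (hω : ∀ a b, ω a b = -ω b a) (r L : ℕ) (x : Cfg)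
    (l : List (Cfg × ℤ)) : wind ω (WL r L x l) (len r L l) = wind ω (five r L x) (T5 r L) := by
  induction l with
  | nil => rfl
  | cons a l ih => rw [WL, len, wind_cat _ (WL_glue ..), piece_wind hω, ih, zero_add]

theorem WL_cover (r L : ℕ) (l : List (Cfg × ℤ)) (a : Cfg × ℤ) (ha : a ∈ l) {s : ℕ}
    (hs : s ≤ Tq r L + L + (Tq r L + L)) :
    ∃ t ≤ len r L l, ∀ x, WL r L x l t = piece r L a x s := by
  induction l with
  | nil => simp at ha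
  | cons b l ih =>
    rcases List.mem_cons.1 ha with rfl | h
    · exact ⟨s, by rw [len]; omega, fun x => by rw [WL, cat_le hs]⟩
    · obtain ⟨t, ht, h⟩ := ih h
      exact ⟨Tq r L + L + (Tq r L + L) + t, by rw [len]; omega,
        fun x => by rw [WL, cat_add (WL_glue ..), h]⟩

theorem list_exists (r : ℕ) : ∃ l : List (Cfg × ℤ), (∀ a ∈ l, Pr a.1 ∧ a.2.natAbs ≤ r) ∧
    ∀ c j, Pr c → j.natAbs ≤ r → ∃ a ∈ l, Ag r a.1 c ∧ a.2 = j := by
  classical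
  have h : ∀ φ : Set.Icc (-r : ℤ) r → K, ∃ c : Cfg, Pr c ∧
      ((∃ c' : Cfg, Pr c' ∧ ∀ i : Set.Icc (-r : ℤ) r, c' i = φ i) →
        ∀ i : Set.Icc (-r : ℤ) r, c i = φ i) := by
    intro φ
    by_cases h : ∃ c' : Cfg, Pr c' ∧ ∀ i : Set.Icc (-r : ℤ) r, c' i = φ i
    · obtain ⟨c, h1, h2⟩ := h
      exact ⟨c, h1, fun _ => h2⟩
    · exact ⟨_, zc_pr (z3_ne 0), fun h' => (h h').elim⟩
  choose rep h1 h2 using h
  refine ⟨(univ : Finset ((Set.Icc (-r : ℤ) r → K) × Set.Icc (-r : ℤ) r)).toList.map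
    fun a => (rep a.1, a.2.1), fun a ha => ?_, fun c j hc hj => ?_⟩
  · obtain ⟨b, -, rfl⟩ := List.mem_map.1 ha
    have := b.2.2
    rw [Set.mem_Icc] at this
    exact ⟨h1 _, by simp only; omega⟩
  · refine ⟨(rep fun i => c i, j), List.mem_map.2 ⟨(fun i => c i, ⟨j, by omega, by omega⟩),
      by simp, rfl⟩, fun i hi => ?_, rfl⟩
    exact h2 (fun i => c i) ⟨c, hc, fun _ => rfl⟩ ⟨i, by omega, by omega⟩

end Pool.Agent.H82.Irr
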