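import Pool.Agent.H82.IrrC

/-! The potential of the winding numbers, and the interface of the long walk. -/

set_option autoImplicit false

namespace Pool.Agent.H82.Irr

open Finset Complex

/-- Configurations of a level: proper colouring, bounded heights, sparse active sites. -/
def C (r L : ℕ) (y : Y) : Prop :=
  Pr (col y) ∧ (∀ j, (y j).2 ≤ L) ∧
    ∀ i j : ℤ, (y i).2 < L → (y j).2 < L → (i - j).natAbs ≤ 2 * r → i = j

def A (r : ℕ) (y y' : Y) : Prop := ∀ j : ℤ, j.natAbs ≤ r → adj (y j) (y' j)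

theorem Pr.sh {x : Cfg} (h : Pr x) (a : ℤ) : Pr (sh a x) := fun j => by
  have := h (j + a)
  rwa [add_right_comm] at this

theorem C.sh {r L : ℕ} {y : Y} (h : C r L y) (a : ℤ) : C r L (sh a y) :=
  ⟨h.1.sh a, fun j => h.2.1 _, fun i j h1 h2 h3 => by
    have := h.2.2 (i + a) (j + a) h1 h2 (by omega)
    omega⟩

theorem Ok.toC {ρ r L : ℕ} {x : Cfg} {y : Y} (h : Ok ρ L x y) : C r L y :=
  ⟨h.1, h.2.1, fun i j h1 h2 _ => h.2.2.1 i j h1 h2⟩

noncomputable def om (H : Y → Circle) (a b : Y) : ℝ :=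
  if dist (H a) (H b) < 1 then arg ((H b / H a : Circle) : ℂ) else 0

theorem om_anti (H : Y → Circle) (a b : Y) : om H a b = -om H b a := by
  unfold om
  rw [dist_comm (H b)]
  split_ifs with h
  · have h1 := abs_lt.1 (arg_small (a := H b) (b := H a) (by rwa [dist_comm]))
    have e : ((H b / H a : Circle) : ℂ) = ((H a / H b : Circle) : ℂ)⁻¹ := by
      rw [← Circle.coe_inv, inv_div]
    rw [e, arg_inv, if_neg]
    intro h2
    have := Real.pi_pos
    linarith [h1.2]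
  · simp

theorem om_lt (H : Y → Circle) (a b : Y) : |om H a b| < Real.pi / 2 := by
  unfold om
  split_ifs with h
  · exact arg_small h
  · simpa using Real.pi_pos

theorem om_congr {H : Y → Circle} {a b a' b' : Y} (h1 : H a = H a') (h2 : H b = H b') :
    om H a b = om H a' b' := by
  unfold om; rw [h1, h2]

theorem om_self {H : Y → Circle} {a b : Y} (h : H a = H b) : om H a b = 0 := by
  unfold om; simp [h]

theorem exp_wind {H : Y → Circle} {γ : ℕ → Y} (h : ∀ t, dist (H (γ t)) (H (γ (t + 1))) < 1)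
    (t : ℕ) : Circle.exp (wind (om H) γ t) * H (γ 0) = H (γ t) := by
  induction t with
  | zero => simp [wind]
  | succ t ih =>
    unfold wind at ih ⊢
    rw [sum_range_succ, Circle.exp_add, mul_right_comm, ih, om, if_pos (h t), Circle.exp_arg,
      mul_div_cancel]

theorem wind_congr {H : Y → Circle} {γ γ' : ℕ → Y} (h : ∀ t, H (γ t) = H (γ' t)) (T : ℕ) :
    wind (om H) γ T = wind (om H) γ' T :=
  sum_congr rfl fun _ _ => om_congr (h _) (h _)

theorem wind_const {H : Y → Circle} {γ : ℕ → Y} {c : Circle} (h : ∀ t, H (γ t) = c) (T : ℕ) :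
    wind (om H) γ T = 0 :=
  sum_eq_zero fun _ _ => om_self ((h _).trans (h _).symm)

noncomputable def del (H : Y → Circle) (L : ℕ) (a b : Cfg) : ℝ :=
  wind (om H) (step L a b) (2 * L + 1)

noncomputable def M1 (ζ : ℤ → ZMod 3) (c x : Cfg) (j : ℤ) : Cfg := fun l =>
  if l < j then mid ζ c x l else x l

noncomputable def M2 (ζ : ℤ → ZMod 3) (c x : Cfg) (j : ℤ) : Cfg := fun l =>
  if l < j then c l else mid ζ c x l

noncomputable def Phi (H : Y → Circle) (r L : ℕ) (ζ : ℤ → ZMod 3) (x : Cfg) : ℝ :=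
  ∑ j ∈ Icc (-r : ℤ) r, del H L (M1 ζ (zc ζ) x j) (M1 ζ (zc ζ) x (j + 1)) +
    ∑ j ∈ Icc (-r : ℤ) r, del H L (M2 ζ (zc ζ) x j) (M2 ζ (zc ζ) x (j + 1))

section Pot
variable {H : Y → Circle} {r : ℕ} (hH : ∀ a b, Ag r a b → H a = H b)
include hH

theorem del_congr (L : ℕ) {a b a' b' : Cfg} (h1 : Ag r a a') (h2 : Ag r b b') :
    del H L a b = del H L a' b' :=
  wind_congr (fun t => hH _ _ fun j hj => step_congr (h1 j hj) (h2 j hj) t) _

theorem del_zero (L : ℕ) {a b : Cfg} (h : Ag r a b) : del H L a b = 0 :=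
  wind_const (c := H (tip L a)) (fun t => hH _ _ fun j hj => step_of_eq (h j hj) t) _

theorem Phi_congr (L : ℕ) (ζ : ℤ → ZMod 3) {x x' : Cfg} (h : Ag (r + 1) x x') :
    Phi H r L ζ x = Phi H r L ζ x' := by
  have hm : ∀ l : ℤ, l.natAbs ≤ r → mid ζ (zc ζ) x l = mid ζ (zc ζ) x' l := fun l hl => by
    simp only [mid, h (l - 1) (by omega), h (l + 1) (by omega)]
  have h1 : ∀ j, Ag r (M1 ζ (zc ζ) x j) (M1 ζ (zc ζ) x' j) := fun j l hl => by
    simp only [M1, hm l hl, h l (by omega)]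
  have h2 : ∀ j, Ag r (M2 ζ (zc ζ) x j) (M2 ζ (zc ζ) x' j) := fun j l hl => by
    simp only [M2, hm l hl]
  unfold Phi
  congr 1
  · exact sum_congr rfl fun j _ => del_congr hH L (h1 _) (h1 _)
  · exact sum_congr rfl fun j _ => del_congr hH L (h2 _) (h2 _)

theorem Qf_wind (L : ℕ) (ζ : ℤ → ZMod 3) (x : Cfg) {i : ℤ} (hi : i.natAbs ≤ r + 1) :
    wind (fun a b => om H (sh (-i) a) (sh (-i) b)) (Qf r L ζ (zc ζ) (sh i x)) (Tq r L) =
      Phi H r L (sh (-i) ζ) x := by
  have hm : ∀ l : ℤ, mid ζ (zc ζ) (sh i x) (l + -i) = mid (sh (-i) ζ) (zc (sh (-i) ζ)) x l := by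
    intro l
    simp only [mid, sh, zc]
    rw [show l + -i - 1 + i = l - 1 by ring, show l + -i + 1 + i = l + 1 by ring,
      show l + -i - 1 = l - 1 + -i by ring, show l + -i + 1 = l + 1 + -i by ring]
  have e1 : ∀ k : ℕ, k ≤ 4 * r + 5 → ∀ j : ℤ, j = k + (i - 2 * r - 2) →
      Ag r (sh (-i) (Q r ζ (zc ζ) (sh i x) k)) (M1 (sh (-i) ζ) (zc (sh (-i) ζ)) x j) := by
    intro k hk j hj l hl
    show Q r ζ (zc ζ) (sh i x) k (l + -i) = _
    unfold Q M1
    rw [if_neg (by omega), hm]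
    split_ifs
    · rfl
    · omega
    · omega
    · simp [sh]
  have e2 : ∀ k : ℕ, ∀ j : ℤ, j = k + (i - 2 * r - 1) →
      Ag r (sh (-i) (Q r ζ (zc ζ) (sh i x) (4 * r + 5 + k)))
        (M2 (sh (-i) ζ) (zc (sh (-i) ζ)) x j) := by
    intro k j hj l hl
    show Q r ζ (zc ζ) (sh i x) (4 * r + 5 + k) (l + -i) = _
    unfold Q M2
    rw [hm]
    split_ifs <;> first | omega | rfl
  rw [Qf, Tq, fine_wind, show 8 * r + 8 = (4 * r + 5) + (4 * r + 3) by ring, sum_range_add, Phi]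
  congr 1
  · rw [← sum_shift (fun j => del H L (M1 (sh (-i) ζ) (zc (sh (-i) ζ)) x j)
      (M1 (sh (-i) ζ) (zc (sh (-i) ζ)) x (j + 1))) r (fun j hj => del_zero hH L fun l hl => by
        unfold M1; split_ifs <;> first | rfl | omega) (i - 2 * r - 2) (4 * r + 5)
      (by omega) (by omega)]
    refine sum_congr rfl fun k hk => ?_
    have := mem_range.1 hk
    exact del_congr hH L (e1 k (by omega) _ rfl) (e1 (k + 1) (by omega) _ (by push_cast; ring))
  · rw [← sum_shift (fun j => del H L (M2 (sh (-i) ζ) (zc (sh (-i) ζ)) x j)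
      (M2 (sh (-i) ζ) (zc (sh (-i) ζ)) x (j + 1))) r (fun j hj => del_zero hH L fun l hl => by
        unfold M2; split_ifs <;> first | rfl | omega) (i - 2 * r - 1) (4 * r + 3)
      (by omega) (by omega)]
    refine sum_congr rfl fun k _ => ?_
    exact del_congr hH L (e2 k _ rfl) (e2 (k + 1) _ (by push_cast; ring))

end Pot

theorem sh_zero {α : Type} (y : ℤ → α) : sh 0 y = y := by funext j; simp [sh]

theorem walk_exists (r L : ℕ) : ∃ (T : ℕ) (W : Cfg → ℕ → Y),
    (∀ x, W x 0 = tip L x) ∧ (∀ x, W x T = tip L (x0 x)) ∧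
    (∀ x, Pr x → Wk (Ok (2 * r + 2) L x) Adj (W x)) ∧
    (∀ (x x' : Cfg) (l : ℤ), x (-1) = x' (-1) → x 1 = x' 1 → x (l - 1) = x' (l - 1) →
      x l = x' l → x (l + 1) = x' (l + 1) → ∀ t, W x t l = W x' t l) ∧
    (∀ y, C r L y → ∃ t ≤ T, ∀ x, Ag r (W x t) y) ∧
    ∀ H : Y → Circle, (∀ a b, Ag r a b → H a = H b) →
      (∀ a b, C r L a → C r L b → Adj a b → dist (H a) (H b) < 1) →
      ∃ ψ : Cfg → ℝ, (∀ x x', Ag (r + 1) x x' → ψ x = ψ x') ∧
        (∀ x, Pr x → Circle.exp (ψ x) = H (tip L x)) ∧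
        ∀ x i, ψ x + wind (om H) (fun t => sh (-i) (W (sh i x) t)) T =
          ψ (sh (-i) (x0 (sh i x))) := by
  obtain ⟨l, hl, hcov⟩ := list_exists r
  refine ⟨len r L l, fun x => WL r L x l, fun x => WL_zero .., fun x => WL_end ..,
    fun x hx => WL_wk r L hx l hl, fun x x' j a1 a2 h1 h2 h3 => WL_congr a1 a2 h1 h2 h3 l,
    fun y hy => ?_, fun H hH hd => ?_⟩
  · obtain ⟨j, hj, hj'⟩ : ∃ j : ℤ, j.natAbs ≤ r ∧
        ∀ i : ℤ, i.natAbs ≤ r → i ≠ j → (y i).2 = L := by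
      by_cases h : ∃ j : ℤ, j.natAbs ≤ r ∧ (y j).2 < L
      · obtain ⟨j, h1, h2⟩ := h
        refine ⟨j, h1, fun i hi hij => ?_⟩
        by_contra h3
        exact hij (hy.2.2 i j (lt_of_le_of_ne (hy.2.1 i) h3) h2 (by omega))
      · refine ⟨0, by simp, fun i hi _ => ?_⟩
        by_contra h3
        exact h ⟨i, hi, lt_of_le_of_ne (hy.2.1 i) h3⟩
    obtain ⟨a, ha, h1, h2⟩ := hcov (col y) j hy.1 hj
    obtain ⟨t, ht, h3⟩ := WL_cover r L l a ha (s := Tq r L + (L - (y j).2)) (by omega)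
    refine ⟨t, ht, fun x i hi => ?_⟩
    show WL r L x l t i = y i
    rw [h3, piece_val _ _ _ _ (by omega), desc, Q_end _ _ _ _ (by omega), h1 i hi, h2]
    refine Prod.ext rfl ?_
    have := hy.2.1 j
    split_ifs with e
    · subst e; simp only; omega
    · exact (hj' i hi e).symm
  · let θ : (ℤ → ZMod 3) → Cfg → ℝ := fun ζ x =>
      arg (H (tip L (zc ζ)) : ℂ) - Phi H r L ζ x
    have hθ : ∀ ζ : ℤ → ZMod 3, (∀ j, ζ j ≠ ζ (j + 1)) → ∀ x, Pr x →
        Circle.exp (θ ζ x) = H (tip L x) := by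
      intro ζ hζ x hx
      have h1 := Qf_wind hH L ζ x (i := 0) (by simp)
      simp only [neg_zero, sh_zero] at h1
      have hw := Qf_wk r L hζ (zc_pr hζ) hx
      have h2 := exp_wind (H := H) (γ := Qf r L ζ (zc ζ) x)
        (fun t => hd _ _ (hw t).1.toC (hw (t + 1)).1.toC (hw t).2) (Tq r L)
      rw [h1, Qf_zero, Qf_end, hH (tip L (Q r ζ (zc ζ) x (8 * r + 8))) (tip L (zc ζ))
        fun j hj => by simp only [tip]; rw [Q_end _ _ _ _ (by omega)]] at h2
      simp only [θ]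
      rw [Circle.exp_sub, Circle.exp_arg, ← h2, mul_div_cancel_left]
    refine ⟨fun x => ∑ s, θ (z3 s) x - ∑ s, θ (z2 s) x, fun x x' h => ?_, fun x hx => ?_,
      fun x i => ?_⟩
    · simp only [θ, Phi_congr hH L _ h]
    · have s3 : ∀ f : ZMod 3 → ℝ, ∑ s, f s = f 0 + f 1 + f 2 := fun f => Fin.sum_univ_three f
      have s2 : ∀ f : ZMod 2 → ℝ, ∑ s, f s = f 0 + f 1 := fun f => Fin.sum_univ_two f
      simp only [s3, s2, Circle.exp_sub, Circle.exp_add, hθ _ (z3_ne _) x hx,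
        hθ _ (z2_ne _) x hx]
      rw [mul_div_cancel_left]
    · have hω : ∀ a b, om H (sh (-i) a) (sh (-i) b) = -om H (sh (-i) b) (sh (-i) a) :=
        fun a b => om_anti ..
      have e0 : wind (om H) (fun t => sh (-i) (WL r L (sh i x) l t)) (len r L l) =
          wind (fun a b => om H (sh (-i) a) (sh (-i) b)) (WL r L (sh i x) l) (len r L l) := rfl
      rw [e0, WL_wind hω, five_wind hω]
      by_cases hi : i.natAbs ≤ r + 1
      · have e : x0 (sh i x) = sh i (sh (-i) (x0 (sh i x))) := by funext j; simp [sh]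
        have q1 := fun ζ => Qf_wind hH L ζ x hi
        have q2 := fun ζ => Qf_wind hH L ζ (sh (-i) (x0 (sh i x))) hi
        rw [← e] at q2
        simp only [q1, q2, z3_sh, z2_sh, θ, sum_sub_distrib]
        have r3 := fun y => Equiv.sum_comp (Equiv.subRight (i : ZMod 3))
          fun s => Phi H r L (z3 s) y
        have r2 := fun y => Equiv.sum_comp (Equiv.subRight (i : ZMod 2))
          fun s => Phi H r L (z2 s) y
        simp only [Equiv.subRight_apply] at r3 r2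
        rw [r3, r3, r2, r2]
        ring
      · have q : ∀ ζ, wind (fun a b => om H (sh (-i) a) (sh (-i) b))
            (Qf r L ζ (zc ζ) (x0 (sh i x))) (Tq r L) =
            wind (fun a b => om H (sh (-i) a) (sh (-i) b)) (Qf r L ζ (zc ζ) (sh i x)) (Tq r L) :=
          fun ζ => wind_congr (γ := fun t => sh (-i) (Qf r L ζ (zc ζ) (x0 (sh i x)) t))
            (γ' := fun t => sh (-i) (Qf r L ζ (zc ζ) (sh i x) t))
            (fun t => hH _ _ fun j hj => Qf_congr (x0_ne _ (by omega)) (x0_ne _ (by omega))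
              (x0_ne _ (by omega)) t) _
        have h : Ag (r + 1) (sh (-i) (x0 (sh i x))) x := fun j hj => by
          show x0 (sh i x) (j + -i) = _
          rw [x0_ne _ (by omega)]; simp [sh]
        simp only [q, θ, Phi_congr hH L _ h]
        ring

end Pool.Agent.H82.Irr
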