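import Pool.Agent.H82.IrrD

/-! One level of the tower. -/

set_option autoImplicit false

namespace Pool.Agent.H82.Irr

open Finset Complex

theorem uniq {r L β : ℕ} {y : Y} (hy : C r L y) (hβ : β ≤ r) (j : ℤ) :
    ∃ i : ℤ, (i - j).natAbs ≤ β ∧ ∀ i' : ℤ, (i' - j).natAbs ≤ β → (y i').2 < L → i' = i := by
  by_cases h : ∃ i : ℤ, (i - j).natAbs ≤ β ∧ (y i).2 < L
  · obtain ⟨i, h1, h2⟩ := h
    exact ⟨i, h1, fun i' h3 h4 => hy.2.2 i' i h4 h2 (by omega)⟩
  · exact ⟨j, by simp, fun i' h3 h4 => (h ⟨i', h3, h4⟩).elim⟩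

def tau (T u : ℕ) : ℕ := min T ((3 * T + 3 - u) / 3)

theorem d2 {a b c : K × ℕ} (h1 : adj a b) (h2 : adj b c) :
    (a.1 = c.1 ∧ a.2 ≤ c.2 + 2 ∧ c.2 ≤ a.2 + 2) ∨ a.2 + c.2 ≤ 1 := by
  rcases h1 with h1 | h1 <;> rcases h2 with h2 | h2
  · exact Or.inl ⟨h1.1.trans h2.1, by omega, by omega⟩
  · right; omega
  · right; omega
  · right; omega

theorem cases2 {r T : ℕ} {y y' y'' : Y} (hy : C (3 * r + 4) (3 * T + 3) y)
    (hy'' : C (3 * r + 4) (3 * T + 3) y'') (h1 : A (3 * r + 4) y y') (h2 : A (3 * r + 4) y' y'') :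
    (∀ i : ℤ, i.natAbs ≤ 3 * r + 3 →
      tau T (y i).2 = 0 ∧ tau T (y'' i).2 = 0 ∧ col y i = col y'' i) ∨
    ∃ i : ℤ, i.natAbs ≤ 3 * r + 3 ∧
      (∀ i' : ℤ, i'.natAbs ≤ 3 * r + 4 → (y i').2 < 3 * T + 3 → i' = i) ∧
      (∀ i' : ℤ, i'.natAbs ≤ 3 * r + 4 → (y'' i').2 < 3 * T + 3 → i' = i) ∧
      (∀ i' : ℤ, i'.natAbs ≤ 3 * r + 4 → i' ≠ i → col y i' = col y'' i') ∧
      ((col y i = col y'' i ∧ tau T (y i).2 ≤ tau T (y'' i).2 + 1 ∧
        tau T (y'' i).2 ≤ tau T (y i).2 + 1) ∨ (tau T (y i).2 = T ∧ tau T (y'' i).2 = T)) := by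
  have hd := fun (i : ℤ) (hi : i.natAbs ≤ 3 * r + 4) => d2 (h1 i hi) (h2 i hi)
  by_cases h : ∃ i : ℤ, i.natAbs ≤ 3 * r + 3 ∧ ((y i).2 ≤ 3 * T ∨ (y'' i).2 ≤ 3 * T)
  · right
    obtain ⟨i, hi, h⟩ := h
    have hdi := hd i (by omega)
    have a1 : (y i).2 < 3 * T + 3 := by omega
    have a2 : (y'' i).2 < 3 * T + 3 := by omega
    have b1 : ∀ i' : ℤ, i'.natAbs ≤ 3 * r + 4 → (y i').2 < 3 * T + 3 → i' = i :=
      fun i' hi' h => hy.2.2 i' i h a1 (by omega)
    have b2 : ∀ i' : ℤ, i'.natAbs ≤ 3 * r + 4 → (y'' i').2 < 3 * T + 3 → i' = i :=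
      fun i' hi' h => hy''.2.2 i' i h a2 (by omega)
    refine ⟨i, hi, b1, b2, fun i' hi' hne => ?_, ?_⟩
    · rcases hd i' hi' with h | h
      · exact h.1
      · exact (hne (b1 i' hi' (by omega))).elim
    · unfold tau
      rcases hdi with h | h
      · exact Or.inl ⟨h.1, by omega, by omega⟩
      · exact Or.inr ⟨by omega, by omega⟩
  · left
    intro i hi
    have h3 : ¬ ((y i).2 ≤ 3 * T ∨ (y'' i).2 ≤ 3 * T) := fun h' => h ⟨i, hi, h'⟩
    unfold tau
    refine ⟨by omega, by omega, ?_⟩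
    rcases hd i (by omega) with h | h
    · exact h.1
    · omega

theorem level_exists (r L : ℕ) : ∃ (T : ℕ) (g : Y → Y),
    (∀ y, C (3 * r + 4) (3 * T + 3) y → C r L (g y)) ∧
    (∀ a y, g (sh a y) = sh a (g y)) ∧
    (∀ y y', C (3 * r + 4) (3 * T + 3) y → C (3 * r + 4) (3 * T + 3) y' →
      Ag (3 * r + 4) y y' → Ag r (g y) (g y')) ∧
    (∀ y y' y'', C (3 * r + 4) (3 * T + 3) y → C (3 * r + 4) (3 * T + 3) y'' →
      A (3 * r + 4) y y' → A (3 * r + 4) y' y'' → A (r + 1) (g y) (g y'')) ∧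
    (∀ z, C r L z → ∃ u < 3 * T + 3, ∀ y, C (3 * r + 4) (3 * T + 3) y → (y 0).2 = u →
      Ag r (g y) z) ∧
    (∃ γ : ℕ → Y, Wk (C r L) Adj γ ∧ ∀ z, C r L z → ∃ t, Ag r (γ t) z) ∧
    ∀ H : Y → Circle, (∀ a b, Ag r a b → H a = H b) →
      (∀ a b, C r L a → C r L b → Adj a b → dist (H a) (H b) < 1) →
      ∃ ℓ : Y → ℝ, (∀ y, C (3 * r + 4) (3 * T + 3) y → Circle.exp (ℓ y) = H (g y)) ∧
        ∀ y y', C (3 * r + 4) (3 * T + 3) y → C (3 * r + 4) (3 * T + 3) y' →
          A (3 * r + 4) y y' → |ℓ y - ℓ y'| < Real.pi / 2 := by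
  classical
  obtain ⟨T, W, w0, wT, wk, loc, tour, key⟩ := walk_exists r L
  let G : Y → K × ℕ := fun y =>
    if h : ∃ i : ℤ, i.natAbs ≤ 2 * r + 2 ∧ (y i).2 < 3 * T + 3 then
      W (sh h.choose (col y)) (tau T (y h.choose).2) (-h.choose) else (col y 0, L)
  let g : Y → Y := fun y j => G (sh j y)
  let V : Cfg → ℤ → ℕ → Y := fun x i t => sh (-i) (W (sh i x) t)
  have V0 : ∀ x i, V x i 0 = tip L x := fun x i => by
    funext j; simp [V, w0, sh, tip]
  have Vout : ∀ x, Pr x → ∀ (i : ℤ) t (j : ℤ), 2 * r + 2 < (j - i).natAbs →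
      V x i t j = (x j, L) := fun x hx i t j h => by
    show W (sh i x) t (j + -i) = _
    rw [(wk _ (hx.sh i) t).1.2.2.2 _ (by omega)]; simp [sh]
  have VC : ∀ x, Pr x → ∀ i, Wk (C r L) Adj (V x i) := fun x hx i t =>
    ⟨(wk _ (hx.sh i) t).1.toC.sh _, fun j => (wk _ (hx.sh i) t).2 _⟩
  have Vloc : ∀ (x x' : Cfg) (i j : ℤ), i.natAbs ≤ 3 * r + 3 → j.natAbs ≤ r + 1 →
      Ag (3 * r + 4) x x' → ∀ t, V x i t j = V x' i t j := fun x x' i j hi hj h =>
    loc _ _ _ (h _ (by omega)) (h _ (by omega)) (h _ (by omega)) (h _ (by omega)) (h _ (by omega))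
  have X0 : ∀ (x x' : Cfg) (i j : ℤ), i.natAbs ≤ 3 * r + 3 → j.natAbs ≤ r + 1 →
      (∀ i' : ℤ, i'.natAbs ≤ 3 * r + 4 → i' ≠ i → x i' = x' i') →
      x0 (sh i x) (j + -i) = x0 (sh i x') (j + -i) := fun x x' i j hi hj h =>
    x0_congr (h _ (by omega) (by omega)) (h _ (by omega) (by omega))
      fun e => h _ (by omega) (by omega)
  have hG : ∀ y : Y, Pr (col y) → ∀ i j : ℤ,
      (∀ i' : ℤ, (i' - j).natAbs ≤ 2 * r + 2 → (y i').2 < 3 * T + 3 → i' = i) →
      g y j = V (col y) i (tau T (y i).2) j := by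
    intro y hy i j h
    show G (sh j y) = _
    simp only [G]
    split_ifs with h1
    · have h2 := h1.choose_spec
      generalize h1.choose = i0 at h2 ⊢
      have h3 : i0 + j = i := h _ (by omega) h2.2
      subst h3
      show W _ _ _ = W _ _ _
      congr 1
      · funext l; simp only [sh, col, add_assoc]
      · ring
    · have e : col (sh j y) 0 = col y j := by simp [col, sh]
      rw [e]
      by_cases h2 : (y i).2 < 3 * T + 3
      · rw [Vout _ hy]
        by_contra h3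
        exact h1 ⟨i - j, by omega, by simpa [sh] using h2⟩
      · rw [show tau T (y i).2 = 0 by unfold tau; omega, V0]; rfl
  refine ⟨T, g, fun y hy => ⟨fun j => ?_, fun j => ?_, fun j j' h1 h2 h3 => ?_⟩, fun a y => ?_,
    fun y y' hy hy' h j hj => ?_, fun y y' y'' hy hy'' h1 h2 j hj => ?_, fun z hz => ?_,
    ⟨W (zc (z3 0)), (wk _ (zc_pr (z3_ne 0))).mono fun _ h => h.toC, fun z hz => ?_⟩,
    fun H hH hd => ?_⟩
  · obtain ⟨i, -, hi⟩ := uniq hy (β := 2 * r + 3) (by omega) j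
    show (g y j).1 ≠ (g y (j + 1)).1
    rw [hG y hy.1 i j fun i' h => hi i' (by omega),
      hG y hy.1 i (j + 1) fun i' h => hi i' (by omega)]
    exact (VC _ hy.1 i _).1.1 j
  · obtain ⟨i, -, hi⟩ := uniq hy (β := 2 * r + 2) (by omega) j
    rw [hG y hy.1 i j hi]
    exact (VC _ hy.1 i _).1.2.1 j
  · obtain ⟨i, -, hi⟩ := uniq hy (β := 3 * r + 3) (by omega) ((j + j') / 2)
    rw [hG y hy.1 i j fun i' h => hi i' (by omega)] at h1
    rw [hG y hy.1 i j' fun i' h => hi i' (by omega)] at h2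
    exact (VC _ hy.1 i _).1.2.2 j j' h1 h2 h3
  · funext j
    show G _ = G _
    congr 1
    funext l; simp only [sh, add_assoc]
  · obtain ⟨i, hi0, hi⟩ := uniq hy (β := 3 * r + 3) (by omega) 0
    rw [hG y hy.1 i j fun i' h => hi i' (by omega),
      hG y' hy'.1 i j fun i' h' h'' => hi i' (by omega) (by rwa [h i' (by omega)]),
      h i (by omega)]
    exact Vloc _ _ i j (by omega) (by omega) (fun l hl => congrArg Prod.fst (h l hl)) _
  · rcases cases2 hy hy'' h1 h2 with h | ⟨i, hi, b1, b2, b3, h⟩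
    · obtain ⟨i, hi0, hi⟩ := uniq hy (β := 2 * r + 2) (by omega) j
      obtain ⟨i'', hi0'', hi''⟩ := uniq hy'' (β := 2 * r + 2) (by omega) j
      rw [hG y hy.1 i j hi, hG y'' hy''.1 i'' j hi'', (h i (by omega)).1,
        (h i'' (by omega)).2.1, V0, V0]
      exact Or.inl ⟨(h j (by omega)).2.2, by simp [tip], by simp [tip]⟩
    · rw [hG y hy.1 i j fun i' h => b1 i' (by omega),
        hG y'' hy''.1 i j fun i' h => b2 i' (by omega)]
      rcases h with ⟨h, t1, t2⟩ | ⟨t1, t2⟩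
      · have hag : Ag (3 * r + 4) (col y) (col y'') := fun l hl => by
          by_cases e : l = i
          · rw [e, h]
          · exact b3 l hl e
        rw [← Vloc _ _ i j hi hj hag]
        generalize tau T (y i).2 = t at *
        generalize tau T (y'' i).2 = t' at *
        rcases (by omega : t' = t ∨ t' = t + 1 ∨ t = t' + 1) with e | e | e
        · rw [e]; exact adj_refl _
        · rw [e]; exact (VC _ hy.1 i _).2 j
        · rw [e]; exact adj_symm ((VC _ hy.1 i _).2 j)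
      · rw [t1, t2]
        show adj (W _ T _) (W _ T _)
        rw [wT, wT]
        exact Or.inl ⟨X0 _ _ i j hi hj b3, by simp [tip], by simp [tip]⟩
  · obtain ⟨t, ht, h⟩ := tour z hz
    refine ⟨3 * T + 3 - 3 * t - 1, by omega, fun y hy h0 j hj => ?_⟩
    rw [hG y hy.1 0 j fun i' h1 h2 => hy.2.2 i' 0 h2 (by omega) (by omega), h0,
      show tau T (3 * T + 3 - 3 * t - 1) = t by unfold tau; omega, ← h (sh 0 (col y)) j hj]
    simp [V, sh]
  · obtain ⟨t, -, h⟩ := tour z hz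
    exact ⟨t, h _⟩
  obtain ⟨ψ, ψ1, ψ2, ψ3⟩ := key H hH hd
  let ℓ : Y → ℝ := fun y => ψ (col y) +
    if h : ∃ i : ℤ, i.natAbs ≤ 3 * r + 2 ∧ (y i).2 < 3 * T + 3 then
      wind (om H) (V (col y) h.choose) (tau T (y h.choose).2) else 0
  have hℓ : ∀ y : Y, Pr (col y) → ∀ i : ℤ,
      (∀ i' : ℤ, i'.natAbs ≤ 3 * r + 2 → (y i').2 < 3 * T + 3 → i' = i) →
      ℓ y = ψ (col y) + wind (om H) (V (col y) i) (tau T (y i).2) := by
    intro y hy i h
    simp only [ℓ]
    congr 1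
    split_ifs with h1
    · rw [h _ h1.choose_spec.1 h1.choose_spec.2]
    · by_cases h2 : (y i).2 < 3 * T + 3
      · refine (wind_const (c := H (tip L (col y))) (fun t => hH _ _ fun j hj => ?_) _).symm
        refine Vout _ hy _ _ _ ?_
        by_contra h3
        exact h1 ⟨i, by omega, h2⟩
      · rw [show tau T (y i).2 = 0 by unfold tau; omega]; simp [wind]
  refine ⟨ℓ, fun y hy => ?_, fun y y' hy hy' h1 => ?_⟩
  · obtain ⟨i, -, hi⟩ := uniq hy (β := 3 * r + 2) (by omega) 0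
    have hw := VC _ hy.1 i
    have := exp_wind (H := H) (γ := V (col y) i)
      (fun t => hd _ _ (hw t).1 (hw (t + 1)).1 (hw t).2) (tau T (y i).2)
    rw [hℓ y hy.1 i fun i' h => hi i' (by omega), Circle.exp_add, ψ2 _ hy.1, mul_comm, ← V0 _ i,
      this]
    exact hH _ _ fun j hj => (hG y hy.1 i j fun i' h => hi i' (by omega)).symm
  have hpi : |(0 : ℝ)| < Real.pi / 2 := by simpa using Real.pi_pos
  rcases cases2 hy hy' h1 (fun j _ => adj_refl _) with h | ⟨i, hi, b1, b2, b3, h⟩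
  · obtain ⟨i, hi0, hi⟩ := uniq hy (β := 3 * r + 2) (by omega) 0
    obtain ⟨i'', hi0'', hi''⟩ := uniq hy' (β := 3 * r + 2) (by omega) 0
    rw [hℓ y hy.1 i fun i' h => hi i' (by omega), hℓ y' hy'.1 i'' fun i' h => hi'' i' (by omega),
      (h i (by omega)).1, (h i'' (by omega)).2.1,
      ψ1 (col y) (col y') fun j hj => (h j (by omega)).2.2]
    simpa [wind] using Real.pi_pos
  · rw [hℓ y hy.1 i fun i' h => b1 i' (by omega), hℓ y' hy'.1 i fun i' h => b2 i' (by omega)]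
    rcases h with ⟨h, t1, t2⟩ | ⟨t1, t2⟩
    · have hag : Ag (3 * r + 4) (col y) (col y') := fun l hl => by
        by_cases e : l = i
        · rw [e, h]
        · exact b3 l hl e
      rw [← ψ1 (col y) (col y') fun j hj => hag j (by omega),
        ← wind_congr (γ := V (col y) i) (γ' := V (col y') i)
          fun t => hH _ _ fun j hj => Vloc _ _ i j hi (by omega) hag t]
      generalize tau T (y i).2 = t at *
      generalize tau T (y' i).2 = t' at *
      rcases (by omega : t' = t ∨ t' = t + 1 ∨ t = t' + 1) with e | e | e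
      · rw [e, sub_self]; exact hpi
      · rw [e, abs_sub_comm]
        unfold wind
        rw [sum_range_succ, add_sub_add_left_eq_sub, add_sub_cancel_left]
        exact om_lt ..
      · rw [e]
        unfold wind
        rw [sum_range_succ, add_sub_add_left_eq_sub, add_sub_cancel_left]
        exact om_lt ..
    · rw [t1, t2, ψ3, ψ3, ψ1 (sh (-i) (x0 (sh i (col y)))) (sh (-i) (x0 (sh i (col y'))))
        fun j hj => X0 _ _ i j hi hj b3, sub_self]
      exact hpi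

end Pool.Agent.H82.Irr
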