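import Pool.Agent.H82.IrrE

/-! The tower and the counterexample. -/

set_option autoImplicit false

namespace Pool.Agent.H82.Irr

open Complex Filter

theorem Ag.toA {r : ℕ} {y y' : Y} (h : Ag r y y') : A r y y' := fun j hj => by
  rw [h j hj]; exact adj_refl _

theorem A.congr {r : ℕ} {a b a' b' : Y} (h : A r a b) (h1 : Ag r a' a) (h2 : Ag r b' b) :
    A r a' b' := fun j hj => by rw [h1 j hj, h2 j hj]; exact h j hj

theorem tip_C (r L : ℕ) {x : Cfg} (h : Pr x) : C r L (tip L x) :=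
  ⟨h, fun _ => le_rfl, fun _ _ h => (lt_irrefl _ h).elim⟩

theorem desc_C (r L : ℕ) {x : Cfg} (h : Pr x) (s : ℕ) : C r L (desc L x 0 s) :=
  (desc_wk (ρ := 0) (x := x) h (by simp) (fun _ _ => rfl) s).1.toC

theorem counterexample :
    ¬ (∀ (X : Type) [MetricSpace X] [CompactSpace X] [ConnectedSpace X] [Nontrivial X]
      (f : C(X, X)), Function.Surjective f →
      (∀ x : X, ∀ K : Set X, IsClosed K → IsConnected K → x ∈ K → f x ∈ K → K = Set.univ) →
      ∃ g : C(X, Circle), Function.Surjective g ∧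
        ∀ c : Circle, ¬ ContinuousMap.Homotopic g (ContinuousMap.const X c)) := by
  classical
  choose T g h1 h2 h3 h4 h5 h6 h7 using level_exists
  obtain ⟨r, L, hr, hL⟩ : ∃ r L : ℕ → ℕ, (∀ n, r (n + 1) = 3 * r n + 4) ∧
      ∀ n, L (n + 1) = 3 * T (r n) (L n) + 3 :=
    ⟨fun n => (Nat.rec (0, 0) (fun _ a => (3 * a.1 + 4, 3 * T a.1 a.2 + 3)) n : ℕ × ℕ).1,
      fun n => (Nat.rec (0, 0) (fun _ a => (3 * a.1 + 4, 3 * T a.1 a.2 + 3)) n : ℕ × ℕ).2,
      fun _ => rfl, fun _ => rfl⟩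
  let D : ℕ → Y → Prop := fun n => C (r n) (L n)
  let G : ℕ → Y → Y := fun n => g (r n) (L n)
  have k1 : ∀ n y, D (n + 1) y → D n (G n y) := fun n y => by
    simp only [D, hr, hL]; exact h1 _ _ y
  have k2 : ∀ n a y, G n (sh a y) = sh a (G n y) := fun n => h2 _ _
  have k3 : ∀ n y y', D (n + 1) y → D (n + 1) y' → Ag (r (n + 1)) y y' →
      Ag (r n) (G n y) (G n y') := fun n y y' => by
    simp only [D, hr, hL]; exact h3 _ _ y y'
  have k4 : ∀ n y y' y'', D (n + 1) y → D (n + 1) y'' → A (r (n + 1)) y y' →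
      A (r (n + 1)) y' y'' → A (r n + 1) (G n y) (G n y'') := fun n y y' y'' => by
    simp only [D, hr, hL]; exact h4 _ _ y y' y''
  have k5 : ∀ n z, D n z → ∃ u < L (n + 1), ∀ y, D (n + 1) y → (y 0).2 = u →
      Ag (r n) (G n y) z := fun n z => by
    simp only [D, hr, hL]; exact h5 _ _ z
  have k7 : ∀ n (H : Y → Circle), (∀ a b, Ag (r n) a b → H a = H b) →
      (∀ a b, D n a → D n b → Adj a b → dist (H a) (H b) < 1) →
      ∃ ℓ : Y → ℝ, (∀ y, D (n + 1) y → Circle.exp (ℓ y) = H (G n y)) ∧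
        ∀ y y', D (n + 1) y → D (n + 1) y' → A (r (n + 1)) y y' →
          |ℓ y - ℓ y'| < Real.pi / 2 := fun n H => by
    simp only [D, hr, hL]; exact h7 _ _ H
  let P : Type := {p : ℕ → Y // (∀ n, D n (p n)) ∧ ∀ n, G n (p (n + 1)) = p n}
  have lim : ∀ U : Ultrafilter (ℕ → Y),
      (∀ k, ∀ᶠ q in (U : Filter (ℕ → Y)), (∀ n, D n (q n)) ∧ ∀ n < k, G n (q (n + 1)) = q n) →
      ∃ p : P, ∀ n e, ∀ᶠ q in (U : Filter (ℕ → Y)), Ag e (q n) (p.1 n) := by
    intro U hU
    have a1 : ∀ n j, ∃ a : K × ℕ, ∀ᶠ q in (U : Filter (ℕ → Y)), q n j = a := by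
      intro n j
      obtain ⟨a, -, ha⟩ := Ultrafilter.eq_pure_of_finite_mem (f := U.map fun q => q n j)
        (s := Set.univ ×ˢ Set.Iic (L n)) (Set.finite_univ.prod (Set.finite_Iic _))
        (Ultrafilter.mem_map.2 ((hU 0).mono fun q hq => ⟨trivial, (hq.1 n).2.1 j⟩))
      refine ⟨a, ?_⟩
      have : {a} ∈ U.map fun q => q n j := by rw [ha]; simp
      exact this
    choose p hp using a1
    have a2 : ∀ n e, ∀ᶠ q in (U : Filter (ℕ → Y)), Ag e (q n) (p n) := fun n e =>
      ((eventually_all_finite (Set.finite_Icc (-e : ℤ) e)).2 fun j _ => hp n j).mono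
        fun q hq j hj => hq j ⟨by omega, by omega⟩
    have a3 : ∀ n, D n (p n) := fun n => by
      refine ⟨fun j => ?_, fun j => ?_, fun i j => ?_⟩
      · obtain ⟨q, q1, q2, q3⟩ := ((hU 0).and ((hp n j).and (hp n (j + 1)))).exists
        show (p n j).1 ≠ (p n (j + 1)).1
        rw [← q2, ← q3]; exact (q1.1 n).1 j
      · obtain ⟨q, q1, q2⟩ := ((hU 0).and (hp n j)).exists
        rw [← q2]; exact (q1.1 n).2.1 j
      · obtain ⟨q, q1, q2, q3⟩ := ((hU 0).and ((hp n i).and (hp n j))).exists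
        rw [← q2, ← q3]; exact (q1.1 n).2.2 i j
    refine ⟨⟨p, a3, fun n => funext fun j => ?_⟩, a2⟩
    obtain ⟨q, q1, q2, q3⟩ :=
      ((hU (n + 1)).and ((hp n j).and (a2 (n + 1) (r (n + 1) + j.natAbs)))).exists
    have := k3 n _ _ ((q1.1 (n + 1)).sh j) ((a3 (n + 1)).sh j) (fun l hl => q3 _ (by omega)) 0
      (by simp)
    rw [k2, k2, q1.2 n (by omega)] at this
    simp only [sh, zero_add] at this
    rw [← this, q2]
  have up : ∀ d n y, D n y → ∃ p : ℕ → Y, (∀ m, D m (p m)) ∧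
      (∀ m, n ≤ m → m < n + d → G m (p (m + 1)) = p m) ∧ Ag (r n) (p n) y := by
    intro d
    induction d with
    | zero =>
      intro n y hy
      refine ⟨fun m => if m = n then y else tip (L m) (zc (z3 0)), fun m => ?_,
        fun m _ _ => by omega, fun j _ => by simp⟩
      dsimp only
      split_ifs with e
      · rw [e]; exact hy
      · exact tip_C _ _ (zc_pr (z3_ne 0))
    | succ d ih =>
      intro n y hy
      obtain ⟨u, hu, h⟩ := k5 n y hy
      have hy' : D (n + 1) (desc (L (n + 1)) (zc (z3 0)) 0 (L (n + 1) - u)) :=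
        desc_C _ _ (zc_pr (z3_ne 0)) _
      obtain ⟨p, p1, p2, p3⟩ := ih (n + 1) _ hy'
      refine ⟨fun m => if m = n then G n (p (n + 1)) else p m, fun m => ?_, fun m m1 m2 => ?_,
        fun j hj => ?_⟩
      · dsimp only
        split_ifs with e
        · rw [e]; exact k1 _ _ (p1 _)
        · exact p1 m
      · dsimp only
        rw [if_neg (by omega)]
        split_ifs with e
        · rw [e]
        · exact p2 m (by omega) (by omega)
      · dsimp only
        rw [if_pos rfl, k3 n _ _ (p1 _) hy' p3 j hj]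
        exact h _ hy' (by simp only [desc, if_true]; omega) j hj
  have down : ∀ n k (p : ℕ → Y), (∀ m, D m (p m)) →
      (∀ m, n ≤ m → m < k → G m (p (m + 1)) = p m) → ∃ p' : ℕ → Y, (∀ m, D m (p' m)) ∧
        (∀ m < k, G m (p' (m + 1)) = p' m) ∧ ∀ m, n ≤ m → p' m = p m := by
    intro n k
    induction n with
    | zero => exact fun p p1 p2 => ⟨p, p1, fun m => p2 m (Nat.zero_le _), fun _ _ => rfl⟩
    | succ n ih =>
      intro p p1 p2
      obtain ⟨p', q1, q2, q3⟩ := ih (fun m => if m = n then G n (p (n + 1)) else p m)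
        (fun m => by
          split_ifs with e
          · rw [e]; exact k1 _ _ (p1 _)
          · exact p1 m)
        (fun m m1 m2 => by
          rw [if_neg (by omega)]
          split_ifs with e
          · rw [e]
          · exact p2 m (by omega) m2)
      exact ⟨p', q1, q2, fun m hm => by rw [q3 m (by omega), if_neg (by omega)]⟩
  have lift : ∀ n y, D n y → ∃ p : P, Ag (r n) (p.1 n) y := by
    intro n y hy
    have : ∀ d, ∃ p : ℕ → Y, ((∀ m, D m (p m)) ∧ ∀ m < n + d, G m (p (m + 1)) = p m) ∧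
        Ag (r n) (p n) y := fun d => by
      obtain ⟨p, p1, p2, p3⟩ := up d n y hy
      obtain ⟨p', q1, q2, q3⟩ := down n (n + d) p p1 p2
      exact ⟨p', ⟨q1, q2⟩, by rwa [q3 n le_rfl]⟩
    choose s s1 s2 using this
    obtain ⟨p, hp⟩ := lim ((hyperfilter ℕ).map s) fun k =>
      ((eventually_ge_atTop k).filter_mono Nat.hyperfilter_le_atTop).mono
        fun d hd => ⟨(s1 d).1, fun m hm => (s1 d).2 m (by omega)⟩
    obtain ⟨d, hd⟩ := (show ∀ᶠ d in (hyperfilter ℕ : Filter ℕ), Ag (r n) (s d n) (p.1 n) from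
      hp n (r n)).exists
    exact ⟨p, fun j hj => (hd j hj).symm.trans (s2 d j hj)⟩
  have : Nonempty P := (lift 0 _ (tip_C _ _ (zc_pr (z3_ne 0)))).nonempty
  let S : ℤ → P → P := fun a p => ⟨fun n => sh a (p.1 n), fun n => (p.2.1 n).sh a,
    fun n => by rw [k2, p.2.2]⟩
  have k4' : ∀ n (p q w : P), A (r (n + 1)) (p.1 (n + 1)) (q.1 (n + 1)) →
      A (r (n + 1)) (q.1 (n + 1)) (w.1 (n + 1)) → A (r n + 1) (p.1 n) (w.1 n) := by
    intro n p q w a b
    have := k4 n _ _ _ (p.2.1 _) (w.2.1 _) a b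
    rwa [p.2.2, w.2.2] at this
  refine realize (P := P) (fun n p q => A (r n) (p.1 n) (q.1 n)) (fun n p j _ => adj_refl _)
    (fun n p q h j hj => adj_symm (h j hj)) (fun n p q w a b j hj => k4' n p q w a b j (by omega))
    (fun U => ?_) (S 1) (fun p => ⟨S (-1) p, Subtype.ext (funext fun n => funext fun j => ?_)⟩)
    (fun n p q a j hj => k4' n p q q a (fun _ _ => adj_refl _) (j + 1) (by omega)) ?_
    (fun n p q => ?_) (fun n K p hp hc q => ?_) fun n h hh => ?_
  · obtain ⟨p, hp⟩ := lim (U.map Subtype.val) fun k =>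
      (Eventually.of_forall fun q : P => ⟨q.2.1, fun n _ => q.2.2 n⟩ :
        ∀ᶠ q in (U : Filter P), (∀ n, D n (q.1 n)) ∧ ∀ n < k, G n (q.1 (n + 1)) = q.1 n)
    exact ⟨p, fun n => (show ∀ᶠ q in (U : Filter P), Ag (r n) (q.1 n) (p.1 n) from
      hp n (r n)).mono fun q hq j hj => by rw [hq j hj]; exact adj_refl _⟩
  · simp [S, sh]
  · obtain ⟨p, hp⟩ := lift 1 _ (tip_C _ _ (zc_pr (z3_ne 0)))
    obtain ⟨q, hq⟩ := lift 1 _ (tip_C _ _ (zc_pr (z3_ne 1)))
    refine ⟨1, p, q, fun h => ?_⟩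
    have := h 0 (by simp)
    rw [hp 0 (by simp), hq 0 (by simp)] at this
    rcases this with h | h
    · exact absurd h.1 (by simp [tip, zc, z3])
    · have h2 : L 1 = 0 := h.1
      have h3 : L 1 = _ := hL 0
      omega
  · obtain ⟨γ, γ1, γ2⟩ := h6 (r n) (L n)
    choose f hf using fun t => lift n (γ t) (γ1 t).1
    have c1 : ∀ t, Relation.ReflTransGen (fun p q : P => A (r n) (p.1 n) (q.1 n)) (f 0) (f t) ∧
        Relation.ReflTransGen (fun p q : P => A (r n) (p.1 n) (q.1 n)) (f t) (f 0) := by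
      intro t
      induction t with
      | zero => exact ⟨.refl, .refl⟩
      | succ t ih =>
        have : A (r n) ((f t).1 n) ((f (t + 1)).1 n) :=
          A.congr (fun j _ => (γ1 t).2 j) (hf t) (hf (t + 1))
        exact ⟨ih.1.tail this, .head (fun j hj => adj_symm (this j hj)) ih.2⟩
    obtain ⟨t, ht⟩ := γ2 _ (p.2.1 n)
    obtain ⟨t', ht'⟩ := γ2 _ (q.2.1 n)
    refine .head (b := f t) (Ag.toA fun j hj => ((hf t j hj).trans (ht j hj)).symm)
      (((c1 t).2.trans (c1 t').1).tail (Ag.toA fun j hj => (hf t' j hj).trans (ht' j hj)))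
  · obtain ⟨u, hu, h⟩ := k5 n _ (q.2.1 n)
    by_cases hk : ∃ k ∈ K, (k.1 (n + 1) 0).2 = u
    · obtain ⟨k, k1, k2⟩ := hk
      have := h _ (k.2.1 _) k2
      rw [k.2.2] at this
      exact ⟨k, k1, Ag.toA fun j hj => (this j hj).symm⟩
    exfalso
    push Not at hk
    rcases lt_or_gt_of_ne (hk p hp) with h0 | h0
    · have : ∀ b, Relation.ReflTransGen (fun a b : P => b ∈ K ∧
          A (r (n + 1)) (a.1 (n + 1)) (b.1 (n + 1))) p b → (b.1 (n + 1) 0).2 < u := by
        intro b hb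
        induction hb with
        | refl => exact h0
        | tail _ h ih =>
          have := hk _ h.1
          rcases h.2 0 (by simp) with h | h <;> omega
      have h1 : (p.1 (n + 1) (0 + 1)).2 < u := this _ hc
      have := (p.2.1 (n + 1)).2.2 0 (0 + 1) (by omega) (by omega) (by rw [hr]; omega)
      omega
    · have : ∀ b, Relation.ReflTransGen (fun a b : P => b ∈ K ∧
          A (r (n + 1)) (a.1 (n + 1)) (b.1 (n + 1))) p b →
          u < (b.1 (n + 1) 0).2 ∧ (p.1 (n + 1) 0).1 = (b.1 (n + 1) 0).1 := by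
        intro b hb
        induction hb with
        | refl => exact ⟨h0, rfl⟩
        | tail _ h ih =>
          have := hk _ h.1
          rcases h.2 0 (by simp) with h | h
          · exact ⟨by omega, ih.2.trans h.1⟩
          · omega
      exact (p.2.1 (n + 1)).1 0 (this _ hc).2
  · let lf : Y → P := fun y => Classical.epsilon fun p : P => Ag (r n) (p.1 n) y
    have lf1 : ∀ y, D n y → Ag (r n) ((lf y).1 n) y := fun y hy =>
      Classical.epsilon_spec (lift n y hy)
    obtain ⟨ℓ, l1, l2⟩ := k7 n (fun y => h (lf y))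
      (fun a b hab => by
        have : (fun p : P => Ag (r n) (p.1 n) a) = fun p : P => Ag (r n) (p.1 n) b :=
          funext fun p => propext ⟨fun h j hj => (h j hj).trans (hab j hj),
            fun h j hj => (h j hj).trans (hab j hj).symm⟩
        simp only [lf, this])
      fun a b ha hb hab => hh _ _ (A.congr (fun j _ => hab j) (lf1 a ha) (lf1 b hb))
    refine ⟨fun p => ℓ (p.1 (n + 1)) + arg ((h p / h (lf (p.1 n)) : Circle) : ℂ), fun p => ?_,
      fun p q hpq => ?_⟩
    · rw [Circle.exp_add, l1 _ (p.2.1 _), p.2.2, Circle.exp_arg, mul_div_cancel]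
    · have b1 := abs_lt.1 (l2 _ _ (p.2.1 _) (q.2.1 _) hpq)
      have b2 := abs_lt.1 (arg_small (hh _ p (lf1 _ (p.2.1 n)).toA))
      have b3 := abs_lt.1 (arg_small (hh _ q (lf1 _ (q.2.1 n)).toA))
      rw [abs_lt]
      constructor <;> linarith [b1.1, b1.2, b2.1, b2.2, b3.1, b3.2]

end Pool.Agent.H82.Irr
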