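import Mathlib

/-! The van Kampen obstruction: the complete graph on five vertices has no almost embedding in the
plane; consequences for monotone maps of plane continua. -/

set_option autoImplicit false

namespace Pool.Agent.H82.KFive

open Set Topology Filter Complex

theorem exists_log {A : Type} [TopologicalSpace A] [SimplyConnectedSpace A]
    [LocallyPathConnectedSpace A] (g : A → ℂ) (hg : Continuous g) (h0 : ∀ a, g a ≠ 0) :
    ∃ L : A → ℂ, Continuous L ∧ ∀ a, exp (L a) = g a := by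
  obtain ⟨a0⟩ : Nonempty A := inferInstance
  obtain ⟨F, hF, -⟩ := isCoveringMap_exp.existsUnique_continuousMap_lifts
    (⟨fun a => ⟨g a, h0 a⟩, hg.subtype_mk _⟩ : C(A, {z : ℂ // z ≠ 0})) a0 (log (g a0))
    (Subtype.ext (exp_log (h0 a0)))
  exact ⟨F, F.continuous, fun a => congrArg Subtype.val (congrFun hF.2 a)⟩

theorem log_diff {L l g : ℝ → ℂ} (hL : Continuous L) (hl : Continuous l) (h0 : ∀ s, g s ≠ 0)
    {k : ℂ} (e1 : ∀ s, exp (L s) = k * g s) (e2 : ∀ s, exp (l s) = g s) :
    L 1 - L 0 = l 1 - l 0 := by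
  have := isCoveringMap_exp.const_of_comp (g := fun s => L s - l s) (hL.sub hl)
    (fun s t => Subtype.ext (by
      show exp (L s - l s) = exp (L t - l t)
      rw [exp_sub, exp_sub, e1, e1, e2, e2, mul_div_cancel_right₀ _ (h0 s),
        mul_div_cancel_right₀ _ (h0 t)])) 1 0
  linear_combination this

theorem no_almost_embedding (p : Fin 5 → ℂ) (γ : Fin 5 → Fin 5 → ℝ → ℂ)
    (hc : ∀ a b, Continuous (γ a b)) (h0 : ∀ a b, γ a b 0 = p a) (h1 : ∀ a b, γ a b 1 = p b)
    (hd : ∀ a b c d, a ≠ c → a ≠ d → b ≠ c → b ≠ d → ∀ s t, γ a b s ≠ γ c d t) : False := by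
  have hv : ∀ v a b, a ≠ v → b ≠ v → ∀ s, γ a b s - p v ≠ 0 := fun v a b ha hb s =>
    sub_ne_zero.2 (by rw [← h0 v v]; exact hd a b v v ha ha hb hb s 0)
  have hp : ∀ u v, u ≠ v → p u - p v ≠ 0 := fun u v h => by
    rw [← h0 u u]; exact hv v u u h h 0
  have hl : ∀ v a b, ∃ l : ℝ → ℂ, a ≠ v → b ≠ v →
      Continuous l ∧ ∀ s, exp (l s) = γ a b s - p v := by
    intro v a b
    by_cases h : a ≠ v ∧ b ≠ v
    · obtain ⟨l, h1, h2⟩ := exists_log _ ((hc a b).sub continuous_const) (hv v a b h.1 h.2)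
      exact ⟨l, fun _ _ => ⟨h1, h2⟩⟩
    · exact ⟨0, fun ha hb => (h ⟨ha, hb⟩).elim⟩
  choose l hl using hl
  have hn : ∀ v a b, ∃ n : ℤ, a ≠ v → b ≠ v →
      l v a b 1 - l v a b 0 = log (p b - p v) - log (p a - p v) + n * (2 * Real.pi * I) := by
    intro v a b
    by_cases h : a ≠ v ∧ b ≠ v
    · obtain ⟨n1, e1⟩ := exp_eq_exp_iff_exists_int.1
        (show exp (l v a b 1) = exp (log (p b - p v)) by
          rw [(hl v a b h.1 h.2).2, h1, exp_log (hp _ _ h.2)])
      obtain ⟨n0, e0⟩ := exp_eq_exp_iff_exists_int.1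
        (show exp (l v a b 0) = exp (log (p a - p v)) by
          rw [(hl v a b h.1 h.2).2, h0, exp_log (hp _ _ h.1)])
      exact ⟨n1 - n0, fun _ _ => by rw [e1, e0]; push_cast; ring⟩
    · exact ⟨0, fun ha hb => (h ⟨ha, hb⟩).elim⟩
  choose n hn using hn
  have hm : ∀ u v, ∃ m : ℤ, u ≠ v →
      log (p v - p u) - log (p u - p v) = (2 * m + 1) * (Real.pi * I) := by
    intro u v
    by_cases h : u ≠ v
    · obtain ⟨m, e⟩ := exp_eq_exp_iff_exists_int.1
        (show exp (log (p v - p u)) = exp (log (p u - p v) + Real.pi * I) by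
          rw [exp_add, exp_pi_mul_I, exp_log (hp _ _ h), exp_log (hp _ _ h.symm)]; ring)
      exact ⟨m, fun _ => by rw [e]; ring⟩
    · exact ⟨0, fun ha => (h ha).elim⟩
  choose m hm using hm
  have hpi : (Real.pi * I : ℂ) ≠ 0 := mul_ne_zero (by exact_mod_cast Real.pi_ne_zero) I_ne_zero
  have anti : ∀ u v, u ≠ v → m v u = -m u v - 1 := by
    intro u v h
    have e : ((2 * m v u + 1 + (2 * m u v + 1) : ℤ) : ℂ) * (Real.pi * I) = 0 := by
      push_cast; linear_combination -(hm u v h) - hm v u h.symm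
    have := (mul_eq_zero.1 e).resolve_right hpi
    have : 2 * m v u + 1 + (2 * m u v + 1) = 0 := by exact_mod_cast this
    omega
  have rel : ∀ a b c d, a ≠ c → a ≠ d → b ≠ c → b ≠ d →
      m c b + m a c + m b d + m d a + 2 + (n c a b - n d a b + n b c d - n a c d) = 0 := by
    intro a b c d ac ad bc bd
    obtain ⟨L, hL, eL⟩ := exists_log (fun q : ℝ × ℝ => γ a b q.1 - γ c d q.2)
      (((hc a b).comp continuous_fst).sub ((hc c d).comp continuous_snd))
      fun q => sub_ne_zero.2 (hd a b c d ac ad bc bd _ _)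
    have s1 := log_diff (L := fun s => L (s, 0)) (k := 1) (by fun_prop) (hl c a b ac bc).1
      (hv c a b ac bc) (fun s => by rw [eL, h0, one_mul]) (hl c a b ac bc).2
    have s2 := log_diff (L := fun s => L (s, 1)) (k := 1) (by fun_prop) (hl d a b ad bd).1
      (hv d a b ad bd) (fun s => by rw [eL, h1, one_mul]) (hl d a b ad bd).2
    have s3 := log_diff (L := fun t => L (1, t)) (k := -1) (by fun_prop)
      (hl b c d bc.symm bd.symm).1 (hv b c d bc.symm bd.symm) (fun s => by rw [eL, h1]; ring)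
      (hl b c d bc.symm bd.symm).2
    have s4 := log_diff (L := fun t => L (0, t)) (k := -1) (by fun_prop)
      (hl a c d ac.symm ad.symm).1 (hv a c d ac.symm ad.symm) (fun s => by rw [eL, h0]; ring)
      (hl a c d ac.symm ad.symm).2
    have e : ((2 * (m c b + m a c + m b d + m d a + 2 +
        (n c a b - n d a b + n b c d - n a c d)) : ℤ) : ℂ) * (Real.pi * I) = 0 := by
      push_cast
      linear_combination -(hm c b bc.symm) - hm a c ac - hm b d bd - hm d a ad.symm
        - hn c a b ac bc + hn d a b ad bd - hn b c d bc.symm bd.symm + hn a c d ac.symm ad.symm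
        - s1 + s2 - s3 + s4
    have := (mul_eq_zero.1 e).resolve_right hpi
    have : 2 * (m c b + m a c + m b d + m d a + 2 +
        (n c a b - n d a b + n b c d - n a c d)) = 0 := by exact_mod_cast this
    omega
  have r1 := rel 0 1 2 3 (by decide) (by decide) (by decide) (by decide)
  have r2 := rel 0 1 2 4 (by decide) (by decide) (by decide) (by decide)
  have r3 := rel 0 1 3 4 (by decide) (by decide) (by decide) (by decide)
  have r4 := rel 0 2 1 3 (by decide) (by decide) (by decide) (by decide)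
  have r5 := rel 0 2 1 4 (by decide) (by decide) (by decide) (by decide)
  have r6 := rel 0 2 3 4 (by decide) (by decide) (by decide) (by decide)
  have r7 := rel 0 3 1 2 (by decide) (by decide) (by decide) (by decide)
  have r8 := rel 0 3 1 4 (by decide) (by decide) (by decide) (by decide)
  have r9 := rel 0 3 2 4 (by decide) (by decide) (by decide) (by decide)
  have r10 := rel 0 4 1 2 (by decide) (by decide) (by decide) (by decide)
  have r11 := rel 0 4 1 3 (by decide) (by decide) (by decide) (by decide)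
  have r12 := rel 0 4 2 3 (by decide) (by decide) (by decide) (by decide)
  have r13 := rel 1 2 3 4 (by decide) (by decide) (by decide) (by decide)
  have r14 := rel 1 3 2 4 (by decide) (by decide) (by decide) (by decide)
  have r15 := rel 1 4 2 3 (by decide) (by decide) (by decide) (by decide)
  have a1 := anti 0 1 (by decide)
  have a2 := anti 0 2 (by decide)
  have a3 := anti 0 3 (by decide)
  have a4 := anti 0 4 (by decide)
  have a5 := anti 1 2 (by decide)
  have a6 := anti 1 3 (by decide)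
  have a7 := anti 1 4 (by decide)
  have a8 := anti 2 3 (by decide)
  have a9 := anti 2 4 (by decide)
  have a10 := anti 3 4 (by decide)
  omega

theorem conn_thick {E : Type} [NormedAddCommGroup E] [NormedSpace ℝ E] {C : Set E}
    (hC : IsConnected C) {ε : ℝ} (hε : 0 < ε) : IsPathConnected (Metric.thickening ε C) := by
  rw [← Metric.isOpen_thickening.isConnected_iff_isPathConnected]
  have : Metric.thickening ε C = (fun q : E × E => q.1 + q.2) '' (C ×ˢ Metric.ball 0 ε) := by
    ext x
    rw [Metric.mem_thickening_iff]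
    constructor
    · rintro ⟨z, hz, h⟩
      exact ⟨(z, x - z), ⟨hz, by simpa [dist_eq_norm] using h⟩, by simp⟩
    · rintro ⟨⟨z, w⟩, ⟨hz, hw⟩, rfl⟩
      exact ⟨z, hz, by simpa [dist_eq_norm] using hw⟩
  rw [this]
  exact (hC.prod (Metric.isConnected_ball hε)).image _ (by fun_prop)

theorem no_continua (p : Fin 5 → ℂ) (C : Fin 5 → Fin 5 → Set ℂ) (hk : ∀ a b, IsCompact (C a b))
    (hc : ∀ a b, IsConnected (C a b)) (h0 : ∀ a b, p a ∈ C a b) (h1 : ∀ a b, p b ∈ C a b)
    (hd : ∀ a b c d, a ≠ c → a ≠ d → b ≠ c → b ≠ d → Disjoint (C a b) (C c d)) : False := by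
  have : ∀ q : Fin 5 × Fin 5 × Fin 5 × Fin 5, ∀ᶠ ε in 𝓝[>] (0:ℝ),
      q.1 ≠ q.2.2.1 → q.1 ≠ q.2.2.2 → q.2.1 ≠ q.2.2.1 → q.2.1 ≠ q.2.2.2 →
      Disjoint (Metric.thickening ε (C q.1 q.2.1)) (Metric.thickening ε (C q.2.2.1 q.2.2.2)) := by
    rintro ⟨a, b, c, d⟩
    by_cases h : a ≠ c ∧ a ≠ d ∧ b ≠ c ∧ b ≠ d
    · obtain ⟨δ, δ0, hδ⟩ := (hd a b c d h.1 h.2.1 h.2.2.1 h.2.2.2).exists_thickenings (hk a b)
        (hk c d).isClosed
      filter_upwards [Ioo_mem_nhdsGT δ0] with ε hε _ _ _ _
      exact hδ.mono (Metric.thickening_mono hε.2.le _) (Metric.thickening_mono hε.2.le _)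
    · exact Eventually.of_forall fun _ a b c d => (h ⟨a, b, c, d⟩).elim
  obtain ⟨ε, hε, ε0⟩ := ((eventually_all.2 this).and self_mem_nhdsWithin).exists
  have ε0' : 0 < ε := ε0
  choose γ hγ using fun a b => (conn_thick (hc a b) ε0').joinedIn _
    (Metric.self_subset_thickening ε0' _ (h0 a b)) _ (Metric.self_subset_thickening ε0' _ (h1 a b))
  refine no_almost_embedding p (fun a b => (γ a b).extend) (fun a b => (γ a b).continuous_extend)
    (fun a b => (γ a b).extend_zero) (fun a b => (γ a b).extend_one)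
    fun a b c d ac ad bc bd s t e => ?_
  have m : ∀ a b s, (γ a b).extend s ∈ Metric.thickening ε (C a b) := fun a b s => by
    obtain ⟨u, hu⟩ : (γ a b).extend s ∈ range (γ a b) := (γ a b).extend_range ▸ mem_range_self s
    exact hu ▸ hγ a b u
  exact Set.disjoint_left.1 (hε (a, b, c, d) ac ad bc bd) (m a b s) (e ▸ m c d t)

/-! ### the geometric complete graph -/

def P (i j : Fin 5) (t : ℝ) : Fin 5 → ℝ :=
  fun k => (if k = i then 1 - t else 0) + (if k = j then t else 0)

theorem P_cont : Continuous fun q : Fin 5 × Fin 5 × unitInterval => P q.1 q.2.1 q.2.2 := by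
  have h : ∀ i j, Continuous fun t : unitInterval => P i j t := fun i j =>
    continuous_pi fun k => by unfold P; split_ifs <;> fun_prop
  exact continuous_prod_of_discrete_left.2 fun i => continuous_prod_of_discrete_left.2 (h i)

abbrev Y : Type := range fun q : Fin 5 × Fin 5 × unitInterval => P q.1 q.2.1 q.2.2

def φ (q : Fin 5 × Fin 5 × unitInterval) : Y := ⟨_, mem_range_self q⟩

theorem φ_cont : Continuous φ := P_cont.subtype_mk _

theorem φ_surj : Function.Surjective φ := by rintro ⟨_, q, rfl⟩; exact ⟨q, rfl⟩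

instance : CompactSpace Y := isCompact_iff_compactSpace.1 (isCompact_range P_cont)

instance : LocallyConnectedSpace Y := by
  have : LocallyPathConnectedSpace unitInterval := (convex_Icc (0:ℝ) 1).locallyPathConnectedSpace
  have := (φ_cont.isClosedMap.isQuotientMap φ_cont φ_surj).locallyPathConnectedSpace
  infer_instance

def V (a : Fin 5) : Y := φ (a, a, 0)

def Ed (a b : Fin 5) : Set Y := range fun t : unitInterval => φ (a, b, t)

theorem Ed_cont (a b : Fin 5) : Continuous fun t : unitInterval => φ (a, b, t) :=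
  φ_cont.comp (by fun_prop)

theorem Ed_conn (a b : Fin 5) : IsConnected (Ed a b) := isConnected_range (Ed_cont a b)

theorem Ed_closed (a b : Fin 5) : IsClosed (Ed a b) := (isCompact_range (Ed_cont a b)).isClosed

theorem V_left (a b : Fin 5) : V a ∈ Ed a b :=
  ⟨0, Subtype.ext (by funext k; simp [V, φ, P])⟩

theorem V_right (a b : Fin 5) : V b ∈ Ed a b :=
  ⟨1, Subtype.ext (by funext k; simp [V, φ, P])⟩

theorem Ed_disj {a b c d : Fin 5} (ac : a ≠ c) (ad : a ≠ d) (bc : b ≠ c) (bd : b ≠ d) :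
    Disjoint (Ed a b) (Ed c d) := by
  rw [Set.disjoint_left]
  rintro _ ⟨s, rfl⟩ ⟨t, e⟩
  have e1 := congrFun (congrArg Subtype.val e) a
  have e2 := congrFun (congrArg Subtype.val e) b
  by_cases h : a = b
  · subst h; simp [φ, P, ac, ad] at e1
  · simp [φ, P, ac, ad, bc, bd, h, Ne.symm h] at e1 e2
    rw [← e2] at e1
    simp at e1

instance : ConnectedSpace Y := by
  refine connectedSpace_iff_univ.2 ⟨⟨V 0, trivial⟩, isPreconnected_of_forall_pair ?_⟩
  intro x _ y _
  obtain ⟨⟨a, b, s⟩, rfl⟩ := φ_surj x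
  obtain ⟨⟨c, d, t⟩, rfl⟩ := φ_surj y
  refine ⟨(Ed a b ∪ Ed b c) ∪ Ed c d, subset_univ _, Or.inl (Or.inl ⟨s, rfl⟩), Or.inr ⟨t, rfl⟩, ?_⟩
  have h1 : IsConnected (Ed a b ∪ Ed b c) :=
    IsConnected.union ⟨V b, V_right a b, V_left b c⟩ (Ed_conn a b) (Ed_conn b c)
  exact (IsConnected.union ⟨V c, Or.inr (V_right b c), V_left c d⟩ h1 (Ed_conn c d)).isPreconnected

instance : Nontrivial Y :=
  ⟨⟨V 0, V 1, fun h => by simpa [V, φ, P] using congrFun (congrArg Subtype.val h) 0⟩⟩

theorem on_edge {i j : Fin 5} (hij : i ≠ j) (w : Y) (hi : 0 < w.1 i) (hj : 0 < w.1 j) :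
    w.1 = P i j (w.1 j) := by
  obtain ⟨⟨c, d, s⟩, rfl⟩ := φ_surj w
  simp only [φ, P] at hi hj ⊢
  by_cases ic : i = c
  · subst ic
    by_cases jd : j = d
    · subst jd
      simp [Ne.symm hij]
    · simp [Ne.symm hij, jd] at hj
  · by_cases id : i = d
    · subst id
      by_cases jc : j = c
      · subst jc
        funext k
        simp only [P, Ne.symm hij, if_true, if_false]
        split_ifs <;> ring
      · simp [Ne.symm hij, jc] at hj
    · simp [ic, id] at hi

theorem has_interior {L : Set Y} (hL : IsPreconnected L) (hn : L.Nontrivial) :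
    ∃ U : Set Y, IsOpen U ∧ U.Nonempty ∧ U ⊆ L := by
  obtain ⟨y, hy, hyV⟩ : ∃ y ∈ L, y ∉ range V := by
    by_contra h
    push Not at h
    exact hL.infinite_of_nontrivial hn ((finite_range V).subset h)
  obtain ⟨⟨i, j, t⟩, rfl⟩ := φ_surj y
  have hij : i ≠ j := by
    rintro rfl
    exact hyV ⟨i, Subtype.ext (by funext k; simp only [V, φ, P]; split_ifs <;> simp)⟩
  have t0 : 0 < (t : ℝ) := lt_of_le_of_ne t.2.1 fun h =>
    hyV ⟨i, Subtype.ext (by funext k; simp [V, φ, P, ← h])⟩
  have t1 : (t : ℝ) < 1 := lt_of_le_of_ne t.2.2 fun h =>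
    hyV ⟨j, Subtype.ext (by funext k; simp [V, φ, P, h])⟩
  let e : ℝ → Y := fun s => φ (i, j, projIcc 0 1 zero_le_one s)
  have ec : Continuous e := (Ed_cont i j).comp continuous_projIcc
  have ev : ∀ s, 0 ≤ s → s ≤ 1 → (e s).1 = P i j s := fun s h0 h1 => by
    simp only [e, φ, projIcc_of_mem zero_le_one ⟨h0, h1⟩]
  have ei : ∀ s, P i j s i = 1 - s := fun s => by simp [P, hij]
  have ej : ∀ s, P i j s j = s := fun s => by simp [P, Ne.symm hij]
  let W : ℝ → ℝ → Set Y := fun a b => {w | 0 < w.1 i ∧ a < w.1 j ∧ w.1 j < b}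
  have Wo : ∀ a b, IsOpen (W a b) := fun a b =>
    IsOpen.and (isOpen_lt continuous_const ((continuous_apply i).comp continuous_subtype_val))
      (IsOpen.and (isOpen_lt continuous_const ((continuous_apply j).comp continuous_subtype_val))
        (isOpen_lt ((continuous_apply j).comp continuous_subtype_val) continuous_const))
  have We : ∀ a b, 0 ≤ a → b ≤ 1 → ∀ w ∈ W a b, w = e (w.1 j) := fun a b ha hb w hw =>
    Subtype.ext ((on_edge hij w hw.1 (ha.trans_lt hw.2.1)).trans
      (ev _ (ha.trans hw.2.1.le) (hw.2.2.le.trans hb)).symm)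
  have eW : ∀ a b s, 0 ≤ a → b ≤ 1 → a < s → s < b → e s ∈ W a b := fun a b s ha hb h1 h2 => by
    have := ev s (by linarith) (by linarith)
    refine And.intro ?_ (And.intro ?_ ?_) <;> rw [this]
    · rw [ei]; linarith
    · rwa [ej]
    · rwa [ej]
  by_contra hc
  push Not at hc
  have miss : ∀ a b, 0 ≤ a → b ≤ 1 → a < b → ∃ s, a < s ∧ s < b ∧ e s ∉ L := by
    intro a b ha hb hab
    obtain ⟨w, hw, hwL⟩ := not_subset.1 (hc (W a b) (Wo a b)
      ⟨_, eW a b ((a + b) / 2) ha hb (by linarith) (by linarith)⟩)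
    exact ⟨w.1 j, hw.2.1, hw.2.2, We a b ha hb w hw ▸ hwL⟩
  have yt : φ (i, j, t) = e t := Subtype.ext (ev _ t0.le t1.le).symm
  have key : ∀ a b : ℝ, 0 ≤ a → a < (t:ℝ) → (t:ℝ) < b → b ≤ 1 → L ⊆ W a b := by
    intro a b ha hat htb hb
    obtain ⟨a', a1, a2, a3⟩ := miss a t ha t1.le hat
    obtain ⟨b', b1, b2, b3⟩ := miss t b t0.le hb htb
    have hcl : IsClosed (e '' Icc a' b') := (isCompact_Icc.image ec).isClosed
    have := hL.subset_left_of_subset_union (Wo a' b') hcl.isOpen_compl
      (Set.disjoint_left.2 fun w hw hw' => hw' ⟨w.1 j, ⟨hw.2.1.le, hw.2.2.le⟩,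
        (We a' b' (by linarith) (by linarith) w hw).symm⟩)
      (fun w hw => by
        by_cases h : w ∈ e '' Icc a' b'
        · obtain ⟨s, hs, rfl⟩ := h
          exact Or.inl (eW a' b' s (by linarith) (by linarith)
            (lt_of_le_of_ne hs.1 fun h => a3 (h ▸ hw)) (lt_of_le_of_ne hs.2 fun h => b3 (h ▸ hw)))
        · exact Or.inr h)
      ⟨_, hy, yt ▸ eW a' b' t (by linarith) (by linarith) a2 b1⟩
    exact fun w hw => And.intro (this hw).1
      (And.intro (a1.trans (this hw).2.1) ((this hw).2.2.trans b2))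
  obtain ⟨z, hz, hne⟩ := hn.exists_ne (φ (i, j, t))
  have z1 := key 0 1 le_rfl t0 t1 le_rfl hz
  rcases lt_trichotomy (z.1 j) t with h | h | h
  · exact lt_irrefl _ (key (z.1 j) 1 z1.2.1.le h t1 le_rfl hz).2.1
  · exact hne (by rw [We 0 1 le_rfl le_rfl z z1, h, yt])
  · exact lt_irrefl _ (key 0 (z.1 j) le_rfl t0 h z1.2.2.le hz).2.2

theorem no_monotone (S : Set (EuclideanSpace ℝ (Fin 2))) (f : S → Y) (hS : IsCompact S)
    (hf : Continuous f) (hs : Function.Surjective f)
    (hm : ∀ y, IsConnected (Subtype.val '' (f ⁻¹' {y}))) : False := by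
  have : CompactSpace S := isCompact_iff_compactSpace.1 hS
  have hq := hf.isClosedMap.isQuotientMap hf hs
  have hm' : ∀ y, IsConnected (f ⁻¹' {y}) := fun y =>
    ⟨(hm y).1.of_image, IsInducing.subtypeVal.isPreconnected_image.1 (hm y).2⟩
  let g : S → ℂ := fun x => orthonormalBasisOneI.repr.symm x.1
  have gc : Continuous g := orthonormalBasisOneI.repr.symm.continuous.comp continuous_subtype_val
  have gi : Function.Injective g :=
    orthonormalBasisOneI.repr.symm.injective.comp Subtype.val_injective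
  choose x hx using fun a => hs (V a)
  refine no_continua (fun a => g (x a)) (fun a b => g '' (f ⁻¹' Ed a b))
    (fun a b => ((Ed_closed a b).preimage hf).isCompact.image gc)
    (fun a b => (hq.isCoinducing.isConnected_preimage_of_isClosed hm' (Ed_closed a b)
      (Ed_conn a b)).image _ gc.continuousOn)
    (fun a b => ⟨x a, by simpa [hx] using V_left a b, rfl⟩)
    (fun a b => ⟨x b, by simpa [hx] using V_right a b, rfl⟩)
    fun a b c d ac ad bc bd => (disjoint_image_iff gi).2 ((Ed_disj ac ad bc bd).preimage f)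

end Pool.Agent.H82.KFive
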