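import Mathlib
import Pool.Agent.H82.BetaL

set_option autoImplicit false

namespace Pool.Agent.H82.LinSurj

open Set Filter Topology Pool.Agent.H82.CpDefs Pool.Agent.H82.BetaL

lemma repr {X : Type} [TopologicalSpace X] (ψ : C(X, ℝ) →ₗ[ℝ] ℝ)
    (h : @Continuous _ _ (ptw X) _ ψ) :
    ∃ (F : Finset X) (a : F → ℝ), ∀ g, ψ g = ∑ x : F, a x * g x := by
  obtain ⟨F, hF⟩ := supp ψ h
  let L : F → C(X, ℝ) →ₗ[ℝ] ℝ := fun x => ⟨⟨fun g => g x, fun _ _ => rfl⟩, fun _ _ => rfl⟩
  have : ψ ∈ Submodule.span ℝ (range L) := mem_span_of_iInf_ker_le_ker fun g hg =>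
    hF g fun z hz => (Submodule.mem_iInf _).1 hg ⟨z, hz⟩
  obtain ⟨a, ha⟩ := (Submodule.mem_span_range_iff_exists_fun ℝ).1 this
  exact ⟨F, a, fun g => by simp [← ha, L]⟩

variable {E Y : Type} [TopologicalSpace Y] {T : E → C(Y, ℝ)}

lemma emb [T35Space Y] (hT : Function.Surjective T) :
    IsEmbedding fun (y : Y) (g : E) => T g y := by
  have hc : Continuous fun (y : Y) (g : E) => T g y := continuous_pi fun g => (T g).continuous
  refine IsInducing.isEmbedding (isInducing_iff_nhds.2 fun y =>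
    le_antisymm (hc.tendsto y).le_comap fun U hU => ?_)
  obtain ⟨V, h1, h2, h3⟩ := mem_nhds_iff.1 hU
  obtain ⟨f, f1, f2, f3⟩ := CompletelyRegularSpace.completely_regular y Vᶜ h2.isClosed_compl
    (not_not.2 h3)
  obtain ⟨g, hg⟩ := hT ⟨fun z => (f z : ℝ), continuous_subtype_val.comp f1⟩
  refine ⟨{η | η g < 1}, (isOpen_lt (continuous_apply g) continuous_const).mem_nhds ?_,
    fun z hz => h1 (by_contra fun h => ?_)⟩
  · simp [hg, f2]
  · have := f3 h
    simp [hg, this] at hz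

lemma closed [LindelofSpace Y] (hT : Function.Surjective T) :
    IsClosed (range fun (y : Y) (g : E) => T g y) := by
  refine isClosed_of_closure_subset fun ξ hξ => by_contra fun h => ?_
  have h1 : ∀ y, ∃ g, T g y ≠ ξ g := fun y => Function.ne_iff.1 fun h' => h ⟨y, h'⟩
  choose g hg using h1
  obtain ⟨s, hs, hs'⟩ := isLindelof_univ.elim_countable_subcover (fun y => {z | T (g y) z ≠ ξ (g y)})
    (fun y => isOpen_ne_fun (T (g y)).continuous continuous_const)
    fun y _ => mem_iUnion.2 ⟨y, hg y⟩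
  obtain ⟨y0, -⟩ : (range fun (y : Y) (g : E) => T g y).Nonempty := closure_nonempty_iff.1 ⟨ξ, hξ⟩
  obtain ⟨u, hu⟩ : ∃ u : ℕ → E, ∀ z, ∃ n, T (u n) z ≠ ξ (u n) := by
    rcases s.eq_empty_or_nonempty with rfl | h0
    · obtain ⟨_, z, -⟩ := closure_nonempty_iff.1 ⟨ξ, hξ⟩
      simpa using hs' (mem_univ z)
    obtain ⟨v, rfl⟩ := hs.exists_eq_range h0
    refine ⟨fun n => g (v n), fun z => ?_⟩
    simpa using hs' (mem_univ z)
  let φ : ℕ → (E → ℝ) → ℝ := fun n η => (1 / 2) ^ n * min 1 |η (u n) - ξ (u n)|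
  have h0 : ∀ n η, 0 ≤ φ n η := fun n η => by positivity
  have hb : ∀ n η, ‖φ n η‖ ≤ (1 / 2) ^ n := fun n η => by
    rw [Real.norm_of_nonneg (h0 n η)]
    exact mul_le_of_le_one_right (by positivity) (min_le_left _ _)
  have hΦ : Continuous fun η => ∑' n, φ n η :=
    continuous_tsum (fun n => by fun_prop) summable_geometric_two hb
  have hp : ∀ z, ∑' n, φ n (fun g => T g z) ≠ 0 := fun z => by
    obtain ⟨n, hn⟩ := hu z
    refine ((Summable.of_norm_bounded summable_geometric_two fun n =>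
      hb n fun g => T g z).tsum_pos (fun n => h0 n fun g => T g z) n ?_).ne'
    have := abs_pos.2 (sub_ne_zero.2 hn)
    simp only [φ]
    positivity
  obtain ⟨k, hk⟩ := hT ⟨fun z => (∑' n, φ n (fun g => T g z))⁻¹,
    (hΦ.comp (continuous_pi fun g => (T g).continuous)).inv₀ hp⟩
  have := closure_minimal (t := {η | (∑' n, φ n η) * η k = 1}) (by
    rintro _ ⟨z, rfl⟩
    simp only [mem_ofPred_eq, hk]
    exact mul_inv_cancel₀ (hp z)) (isClosed_eq (hΦ.mul (continuous_apply k)) continuous_const) hξ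
  simp [φ] at this

theorem analytic {X Y : Type} [TopologicalSpace X] [TopologicalSpace Y] [T35Space Y] [Nonempty Y]
    {π : (ℕ → ℕ) → X} (h1 : Continuous π) (h2 : Function.Surjective π) (T : C(X, ℝ) →ₗ[ℝ] C(Y, ℝ))
    (hc : @Continuous _ _ (ptw X) (ptw Y) T) (hT : Function.Surjective T) :
    ∃ ρ : (ℕ → ℕ) → Y, Continuous ρ ∧ Function.Surjective ρ := by
  let Λ : (Σ n : ℕ, Fin n → (ℕ → ℕ) × ℝ) → C(X, ℝ) → ℝ :=
    fun p g => ∑ i, (p.2 i).2 * g (π (p.2 i).1)
  have hΛ : Continuous Λ := continuous_sigma fun n => continuous_pi fun g => by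
    simp only [Λ]
    exact continuous_finsetSum (f := fun i (a : Fin n → (ℕ → ℕ) × ℝ) => (a i).2 * g (π (a i).1))
      Finset.univ fun i _ => by fun_prop
  let e := fun (y : Y) (g : C(X, ℝ)) => T g y
  have he : IsEmbedding e := emb hT
  let r : Λ ⁻¹' range e → Y := fun p => p.2.choose
  have hr : ∀ p, e (r p) = Λ p := fun p => p.2.choose_spec
  have hr1 : Continuous r := he.continuous_iff.2 (by
    rw [show e ∘ r = Λ ∘ Subtype.val from funext hr]
    exact hΛ.comp continuous_subtype_val)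
  have hr2 : Function.Surjective r := fun y => by
    obtain ⟨F, a, ha⟩ := repr (((⟨⟨fun g => g y, fun _ _ => rfl⟩, fun _ _ => rfl⟩ :
      C(Y, ℝ) →ₗ[ℝ] ℝ)).comp T) (ev_comp hc y)
    let κ := (Fintype.equivFin F).symm
    have : e y = Λ ⟨_, fun i => (Function.surjInv h2 (κ i), a (κ i))⟩ := funext fun g => by
      simp only [Λ, Function.surjInv_eq]
      exact (ha g).trans (κ.sum_comp fun x => a x * g x).symm
    exact ⟨⟨_, y, this⟩, he.injective ((hr _).trans this.symm)⟩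
  have : LindelofSpace Y := LindelofSpace.of_continuous_surjective hr1 hr2
  have := ((closed hT).preimage hΛ).polishSpace
  have : Nonempty (Λ ⁻¹' range e) := hr2.nonempty
  obtain ⟨f, f1, f2⟩ := PolishSpace.exists_nat_nat_continuous_surjective (Λ ⁻¹' range e)
  exact ⟨r ∘ f, hr1.comp f1, hr2.comp f2⟩

end Pool.Agent.H82.LinSurj
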