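import Mathlib
import Pool.Agent.H82.LinSurj

set_option autoImplicit false

namespace Pool.Agent.H82.KSD

open Set Filter Topology Pool.Agent.H82.CpDefs Pool.Agent.H82.BetaL Pool.Agent.H82.LinSurj

variable {X Y K : Type} [TopologicalSpace X] [TopologicalSpace Y] [TopologicalSpace K]

lemma ext_beta {h : X → ℝ} (hc : Continuous h) {C : ℝ} (hb : ∀ x, |h x| ≤ C) :
    ∃ H : C(StoneCech X, ℝ), ∀ x, H (stoneCechUnit x) = h x := by
  have h1 : Continuous fun x => (⟨h x, abs_le.1 (hb x)⟩ : Icc (-C) C) := hc.subtype_mk _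
  exact ⟨⟨fun z => (stoneCechExtend h1 z).1,
    continuous_subtype_val.comp (continuous_stoneCechExtend h1)⟩, fun x => by simp⟩

lemma at_le (t : ℝ) : |Real.arctan t| ≤ Real.pi / 2 :=
  abs_le.2 ⟨(Real.neg_pi_div_two_lt_arctan t).le, (Real.arctan_lt_pi_div_two t).le⟩

lemma mem_closure_iff_comap_neBot' {i : X → Y} (z : Y) :
    z ∈ closure (range i) ↔ (comap i (𝓝 z)).NeBot := by
  rw [comap_neBot_iff_frequently, mem_closure_iff_frequently]

lemma rem [CompactSpace K] [T2Space K] {e : X → K} (he : IsInducing e) {z : StoneCech X} {x : X}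
    (h : stoneCechExtend he.continuous z = e x) : z = stoneCechUnit x := by
  have : (comap stoneCechUnit (𝓝 z)).NeBot := (mem_closure_iff_comap_neBot' z).1
    (denseRange_stoneCechUnit z)
  refine tendsto_nhds_unique (l := comap stoneCechUnit (𝓝 z)) tendsto_comap
    ((continuous_stoneCechUnit.tendsto x).mono_left ?_)
  rw [he.nhds_eq_comap, ← h, ← tendsto_iff_comap]
  exact (((continuous_stoneCechExtend _).tendsto z).comp tendsto_comap).congr fun x => by simp

def evl (y : Y) : C(Y, ℝ) →ₗ[ℝ] ℝ := ⟨⟨fun g => g y, fun _ _ => rfl⟩, fun _ _ => rfl⟩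

def Xm (M : C(Y, ℝ) → C(X, ℝ)) (m : ℕ) : Set X := {x | ∀ g, (∀ y, |g y| ≤ 1) → |M g x| ≤ m}

def D (L : C(X, ℝ) → C(Y, ℝ)) (P : Set X) (k m : ℕ) : Set (Y × (Fin k → ℝ) × (Fin k → X)) :=
  {d | (∀ i, |d.2.1 i| ≤ m) ∧ (∀ i, d.2.2 i ∈ P) ∧ ∀ f, L f d.1 = ∑ i, d.2.1 i * f (d.2.2 i)}

lemma lim {L : C(X, ℝ) → C(Y, ℝ)} {P : Set X} {k m : ℕ} {p : StoneCech Y}
    (hp : p ∈ closure ((fun d => stoneCechUnit d.1) '' D L P k m)) :
    ∃ (a : Fin k → ℝ) (z : Fin k → StoneCech X), (∀ i, z i ∈ closure (stoneCechUnit '' P)) ∧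
      ∀ (φ : C(StoneCech X, ℝ)) (f : C(X, ℝ)) (H : C(StoneCech Y, ℝ)),
        (∀ x ∈ P, φ (stoneCechUnit x) = f x) →
        (∀ y, H (stoneCechUnit y) = Real.arctan (L f y)) →
        H p = Real.arctan (∑ i, a i * φ (z i)) := by
  rw [image_eq_range] at hp
  obtain ⟨U, h1, h2⟩ := mem_closure_iff_ultrafilter.1 hp
  have := U.neBot.comap_of_range_mem h1
  let V := Ultrafilter.of (comap (fun d : D L P k m => stoneCechUnit d.1.1) U)
  have h3 : Tendsto (fun d : D L P k m => stoneCechUnit d.1.1) V (𝓝 p) :=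
    (tendsto_comap.mono_left (Ultrafilter.of_le _)).mono_right h2
  obtain ⟨a, -, ha⟩ := (isCompact_Icc (a := fun _ : Fin k => -(m : ℝ)) (b := fun _ => m)
    ).ultrafilter_le_nhds' (V.map fun d => d.1.2.1) (Ultrafilter.mem_map.2 (univ_mem' fun d =>
      ⟨fun i => (abs_le.1 (d.2.1 i)).1, fun i => (abs_le.1 (d.2.1 i)).2⟩))
  obtain ⟨z, -, hz⟩ := isCompact_univ.ultrafilter_le_nhds'
    (V.map fun d i => stoneCechUnit (d.1.2.2 i)) univ_mem
  have ha' := tendsto_pi_nhds.1 (show Tendsto (fun d : D L P k m => d.1.2.1) V (𝓝 a) from ha)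
  have hz' := tendsto_pi_nhds.1
    (show Tendsto (fun (d : D L P k m) i => stoneCechUnit (d.1.2.2 i)) V (𝓝 z) from hz)
  refine ⟨a, z, fun i => mem_closure_of_tendsto (hz' i)
    (Eventually.of_forall fun d => ⟨_, d.2.2.1 i, rfl⟩), fun φ f H h4 h5 => ?_⟩
  refine tendsto_nhds_unique ((H.continuous.tendsto p).comp h3)
    (((Real.continuous_arctan.tendsto _).comp (tendsto_finsetSum _ fun i _ =>
      (ha' i).mul ((φ.continuous.tendsto _).comp (hz' i)))).congr fun d => ?_)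
  simp only [Function.comp, h5, d.2.2.2, h4 _ (d.2.2.1 _)]

theorem main [T35Space Y] [CompactSpace K] [T2Space K] {e : X → K} (he : IsInducing e)
    {A : ℕ → ℕ → Set K} (hA : ∀ n m, IsCompact (A n m)) (hr : range e = ⋂ n, ⋃ m, A n m)
    (L : C(X, ℝ) ≃ₗ[ℝ] C(Y, ℝ)) (h1 : @Continuous _ _ (ptw X) (ptw Y) L)
    (h2 : @Continuous _ _ (ptw Y) (ptw X) L.symm) :
    ∃ G : ℕ → ℕ → Set (StoneCech Y), (∀ n m, IsCompact (G n m)) ∧
      range stoneCechUnit = ⋂ n, ⋃ m, G n m := by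
  let B : ℕ → ℕ → Set K := fun N m => ⋂ n ≤ N, ⋃ j ≤ m, A n j
  have hB : ∀ N m, IsClosed (B N m) := fun N m => isClosed_biInter fun n _ =>
    (finite_Iic m).isClosed_biUnion fun j _ => (hA n j).isClosed
  let P : ℕ → ℕ → Set X := fun N m => Xm L.symm m ∩ e ⁻¹' B N m
  refine ⟨fun N r => closure ((fun d => stoneCechUnit d.1) ''
    D L (P N r.unpair.2) r.unpair.1 r.unpair.2), fun _ _ => isClosed_closure.isCompact,
    Subset.antisymm ?_ fun p hp => by_contra fun hp' => ?_⟩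
  · rintro _ ⟨y, rfl⟩
    refine mem_iInter.2 fun N => mem_iUnion.2 ?_
    obtain ⟨F, a, ha⟩ := LinSurj.repr ((evl y).comp L.toLinearMap) (ev_comp h1 y)
    have h3 : ∀ x, ∀ᶠ m in atTop, x ∈ P N m := fun x => by
      obtain ⟨S, b, hb⟩ := LinSurj.repr ((evl x).comp L.symm.toLinearMap) (ev_comp h2 x)
      refine Eventually.and ?_ ?_
      · filter_upwards [tendsto_natCast_atTop_atTop.eventually_ge_atTop (∑ s, |b s|)] with m hm g hg
        refine le_trans ?_ hm
        rw [show L.symm g x = _ from hb g]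
        refine (Finset.abs_sum_le_sum_abs _ _).trans (Finset.sum_le_sum fun s _ => ?_)
        rw [abs_mul]
        exact mul_le_of_le_one_right (abs_nonneg _) (hg _)
      · refine ((eventually_all_finite (finite_Iic N) (p := fun n m => e x ∈ ⋃ j ≤ m, A n j)).2
          fun n _ => ?_).mono fun m hm => mem_iInter₂.2 hm
        obtain ⟨j, hj⟩ := mem_iUnion.1 (mem_iInter.1 (hr ▸ mem_range_self x) n)
        exact (eventually_ge_atTop j).mono fun m hm => mem_iUnion₂.2 ⟨j, hm, hj⟩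
    obtain ⟨m, h4, h5⟩ := ((eventually_all.2 fun x : F => h3 x).and (eventually_all.2 fun x : F =>
      tendsto_natCast_atTop_atTop.eventually_ge_atTop |a x|)).exists
    let κ := (Fintype.equivFin F).symm
    refine ⟨Nat.pair (Fintype.card F) m, subset_closure ?_⟩
    rw [Nat.unpair_pair]
    exact ⟨(y, fun i => a (κ i), fun i => κ i), ⟨fun i => h5 _, fun i => h4 _,
      fun f => (ha f).trans (κ.sum_comp fun x => a x * f x).symm⟩, rfl⟩
  have h3 := fun N => mem_iUnion.1 (mem_iInter.1 hp N)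
  obtain ⟨r, h4⟩ := h3 0
  obtain ⟨a, z, -, hz⟩ := lim h4
  let π := stoneCechExtend he.continuous
  have h5 : ∀ i, ∃ n, z i ∉ range stoneCechUnit → π (z i) ∉ ⋃ m, A n m := fun i => by
    by_contra h
    push Not at h
    obtain ⟨x, hx⟩ : π (z i) ∈ range e := hr ▸ mem_iInter.2 fun n => (h n).2
    exact (h 0).1 ⟨x, (rem he hx.symm).symm⟩
  choose n hn using h5
  obtain ⟨r', h6⟩ := h3 (Finset.univ.sup n)
  obtain ⟨a', z', hz1, hz'⟩ := lim h6
  have h7 : ∀ i, ∃ S : Finset Y, ∀ x, stoneCechUnit x = z i → ∀ g : C(Y, ℝ),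
      (∀ y ∈ S, g y = 0) → L.symm g x = 0 := fun i => by
    by_cases h : ∃ x, stoneCechUnit x = z i
    · obtain ⟨x, hx⟩ := h
      obtain ⟨S, hS⟩ := supp ((evl x).comp L.symm.toLinearMap) (ev_comp h2 x)
      refine ⟨S, fun x' hx' g hg => ?_⟩
      obtain ⟨φ, hφ⟩ := ext_beta (Real.continuous_arctan.comp (L.symm g).continuous)
        (C := Real.pi / 2) fun x => at_le _
      have h8 : L.symm g x = 0 := hS g hg
      have h9 := (hφ x').symm.trans ((congrArg φ (hx'.trans hx.symm)).trans (hφ x))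
      exact (Real.arctan_injective h9).trans h8
    · exact ⟨∅, fun x hx => (h ⟨x, hx⟩).elim⟩
  choose S hS using h7
  obtain ⟨g, g0, g1, g2⟩ := exists_continuous_zero_one_of_isClosed
    ((finite_iUnion fun i => (S i).finite_toSet).image stoneCechUnit).isClosed
    (isClosed_singleton (x := p)) (disjoint_singleton_right.2 fun ⟨y, _, h⟩ => hp' ⟨y, h⟩)
  let g' : C(Y, ℝ) := g.comp ⟨_, continuous_stoneCechUnit⟩
  let m : ℝ := r.unpair.2
  have hm : 0 ≤ m := Nat.cast_nonneg _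
  obtain ⟨φ, hφ⟩ := ext_beta (h := fun x => max (-m) (min m (L.symm g' x))) (by fun_prop) (C := m)
    fun x => abs_le.2 ⟨le_max_left _ _, max_le (by linarith) (min_le_left _ _)⟩
  have h8 := hz φ (L.symm g') ⟨_, Real.continuous_arctan.comp g.continuous⟩ (fun x hx => by
    have := abs_le.1 (hx.1 g' fun y => abs_le.2 ⟨(neg_nonpos.2 zero_le_one).trans (g2 _).1, (g2 _).2⟩)
    rw [hφ, min_eq_right this.2, max_eq_right this.1]) fun y => by simp [g']
  obtain ⟨ψ, ψ0, ψ1, -⟩ := exists_continuous_zero_one_of_isClosed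
    ((hB (Finset.univ.sup n) r'.unpair.2).preimage (continuous_stoneCechExtend he.continuous))
    ((toFinite {i | z i ∉ range stoneCechUnit}).image z).isClosed (by
      rw [disjoint_right]
      rintro _ ⟨i, hi, rfl⟩ h
      obtain ⟨j, -, hj⟩ := mem_iUnion₂.1 (mem_iInter₂.1 h (n i) (Finset.le_sup (Finset.mem_univ i)))
      exact hn i hi (mem_iUnion.2 ⟨j, hj⟩))
  let f' : C(X, ℝ) := (φ * ψ).comp ⟨_, continuous_stoneCechUnit⟩
  obtain ⟨H, hH⟩ := ext_beta (Real.continuous_arctan.comp (L f').continuous)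
    (C := Real.pi / 2) fun x => at_le _
  have h9 := (hz (φ * ψ) f' H (fun _ _ => rfl) hH).symm.trans (hz' (φ * ψ) f' H (fun _ _ => rfl) hH)
  have h10 : ∀ i, (φ * ψ) (z i) = φ (z i) := fun i => by
    by_cases h : z i ∈ range stoneCechUnit
    · obtain ⟨x, hx⟩ := h
      have : φ (z i) = 0 := by
        rw [← hx, hφ, hS i x hx g' fun y hy => g0 ⟨y, mem_iUnion.2 ⟨i, hy⟩, rfl⟩, min_eq_right hm,
          max_eq_right (by linarith)]
      simp [this]
    · have : ψ (z i) = 1 := ψ1 ⟨i, h, rfl⟩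
      simp [this]
  have h11 : ∀ i, (φ * ψ) (z' i) = 0 := fun i => by
    have : ψ (z' i) = 0 := ψ0 (closure_minimal (by
      rintro _ ⟨x, hx, rfl⟩
      simpa using hx.2) ((hB _ _).preimage (continuous_stoneCechExtend he.continuous)) (hz1 i))
    simp [this]
  simp only [h10, h11, ← h8] at h9
  have h12 : g p = 1 := g1 rfl
  simp [h12] at h9

end Pool.Agent.H82.KSD
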