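import Mathlib

set_option autoImplicit false

namespace Pool.Agent.H82.WTheta

universe u

/-- Weakly theta-refinable: every open cover has an open refinement split into countably many
families such that each point lies in a positive finite number of members of one family. -/
def WeaklyThetaRefinable (X : Type u) [TopologicalSpace X] : Prop :=
  ∀ 𝒰 : Set (Set X), (∀ U ∈ 𝒰, IsOpen U) → ⋃₀ 𝒰 = Set.univ →
    ∃ 𝒱 : ℕ → Set (Set X), (∀ n, ∀ V ∈ 𝒱 n, IsOpen V ∧ ∃ U ∈ 𝒰, V ⊆ U) ∧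
      ∀ x : X, ∃ n, {V | V ∈ 𝒱 n ∧ x ∈ V}.Nonempty ∧ {V | V ∈ 𝒱 n ∧ x ∈ V}.Finite

end Pool.Agent.H82.WTheta
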