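import Mathlib
import Pool.Agent.H82.WThetaDefs

set_option autoImplicit false

open Set Filter Topology Cardinal

namespace Pool.Agent.H82.Walks

abbrev W : Type := (ℵ_ 2).ord.ToType
abbrev W1 : Type := (ℵ_ 1).ord.ToType

theorem countable_Iic1 (a : W1) : (Iic a).Countable := by
  have h := (Cardinal.mk_Iio_toType_ord_lt a).trans_eq Cardinal.succ_aleph0.symm
  rw [Order.lt_succ_iff, Cardinal.le_aleph0_iff_set_countable] at h
  rw [← Iio_insert]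
  exact h.insert a

theorem mk_Iio_le (a : W) : #(Iio a) ≤ ℵ_ 1 := by
  have h := Cardinal.mk_Iio_toType_ord_lt a
  have e : (ℵ_ 2 : Cardinal.{0}) = Order.succ (ℵ_ 1) := by
    rw [Cardinal.succ_aleph, one_add_one_eq_two]
  exact Order.lt_succ_iff.1 (h.trans_eq e)

theorem mk_Iic_le (a : W) : #(Iic a) ≤ ℵ_ 1 := by
  rw [← Iio_insert]
  refine Cardinal.mk_insert_le.trans ?_
  exact (add_le_add (mk_Iio_le a) (Cardinal.one_le_aleph0.trans (Cardinal.aleph0_le_aleph 1))).trans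
    (Cardinal.add_eq_self (Cardinal.aleph0_le_aleph 1)).le

theorem bdd (A : Set W) (hA : #A ≤ ℵ_ 1) : ∃ b, ∀ a ∈ A, a < b := by
  by_contra hn
  push Not at hn
  have h1 : (univ : Set W) ⊆ ⋃ a ∈ A, Iic a := fun b _ => by
    obtain ⟨a, ha, h⟩ := hn b
    exact mem_biUnion ha h
  have h2 := (Cardinal.mk_le_mk_of_subset h1).trans (Cardinal.mk_biUnion_le _ _)
  rw [Cardinal.mk_univ, Cardinal.mk_ord_toType] at h2
  have h3 : #A * ⨆ x : A, #(Iic x.1) ≤ ℵ_ 1 * ℵ_ 1 :=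
    mul_le_mul' hA (ciSup_le' fun x => mk_Iic_le x.1)
  rw [Cardinal.mul_eq_self (Cardinal.aleph0_le_aleph 1)] at h3
  have := h2.trans h3
  rw [Cardinal.aleph_le_aleph] at this
  exact absurd this (by simp)

theorem bdd_c (A : Set W) (hA : A.Countable) : ∃ b, ∀ a ∈ A, a < b :=
  bdd A ((Cardinal.le_aleph0_iff_set_countable.2 hA).trans (Cardinal.aleph0_le_aleph 1))

theorem exists_j (ξ : W) : ∃ j : W → W1, InjOn j (Iio ξ) := by
  have h : #(Iio ξ) ≤ #W1 := by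
    rw [Cardinal.mk_ord_toType]
    exact mk_Iio_le ξ
  obtain ⟨e⟩ := (Cardinal.le_def _ _).1 h
  have : Nonempty W1 := by
    rw [← Cardinal.mk_ne_zero_iff, Cardinal.mk_ord_toType]
    exact (Cardinal.aleph_pos 1).ne'
  refine ⟨Function.extend Subtype.val e (fun _ => Classical.arbitrary _), fun a ha b hb hab => ?_⟩
  have h1 := Subtype.val_injective.extend_apply e (fun _ => Classical.arbitrary _) (⟨a, ha⟩ : Iio ξ)
  have h2 := Subtype.val_injective.extend_apply e (fun _ => Classical.arbitrary _) (⟨b, hb⟩ : Iio ξ)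
  simp only at h1 h2
  rw [h1, h2] at hab
  exact congrArg Subtype.val (e.injective hab)

def Unc (δ : W) : Prop := ∀ A : Set W, A.Countable → A ⊆ Iio δ → ∃ l < δ, ∀ a ∈ A, a ≤ l

theorem exists_next : ∃ nx : W → W → W, (∀ γ ξ, γ < ξ → γ ≤ nx γ ξ ∧ nx γ ξ < ξ) ∧
    ∀ δ ξ, Unc δ → δ < ξ → ∃ l < δ, ∀ γ, l < γ → γ ≤ δ → nx γ ξ = nx δ ξ := by
  classical
  choose j hj using exists_j
  let nx : W → W → W := fun γ ξ =>
    if h : γ < ξ then Function.argminOn (j ξ) (Ico γ ξ) ⟨γ, le_rfl, h⟩ else γ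
  have h1 : ∀ γ ξ, γ < ξ → nx γ ξ ∈ Ico γ ξ ∧ ∀ a ∈ Ico γ ξ, j ξ (nx γ ξ) ≤ j ξ a := by
    intro γ ξ h
    simp only [nx, dif_pos h]
    exact ⟨Function.argminOn_mem _ _ _, fun a ha => Function.argminOn_le _ _ ha⟩
  refine ⟨nx, fun γ ξ h => (h1 γ ξ h).1, fun δ ξ hδ h => ?_⟩
  obtain ⟨l, hl, hb⟩ := hδ {x | x < δ ∧ j ξ x ≤ j ξ (nx δ ξ)} (by
    refine countable_of_injective_of_countable_image (f := j ξ)
      ((hj ξ).mono fun x hx => hx.1.trans h) ((countable_Iic1 (j ξ (nx δ ξ))).mono ?_)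
    rintro _ ⟨x, hx, rfl⟩
    exact hx.2) (fun x hx => hx.1)
  refine ⟨l, hl, fun γ hγ hγ' => ?_⟩
  obtain ⟨a1, a2⟩ := h1 γ ξ (hγ'.trans_lt h)
  obtain ⟨b1, b2⟩ := h1 δ ξ h
  have c1 := a2 _ ⟨hγ'.trans b1.1, b1.2⟩
  have c2 : δ ≤ nx γ ξ := by
    by_contra hc
    exact absurd (hb _ ⟨not_le.1 hc, c1⟩) (not_le.2 (hγ.trans_le a1.1))
  exact hj ξ a1.2 b1.2 (le_antisymm c1 (b2 _ ⟨c2, a1.2⟩))

theorem exists_c : ∃ c : W → W → ℕ, (∀ γ, c γ γ = 0) ∧ (∀ γ ξ, γ < ξ → c γ ξ ≠ 0) ∧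
    ∀ δ ξ, Unc δ → δ ≤ ξ → ∃ l < δ, ∀ γ, l < γ → γ ≤ δ → c γ ξ = c γ δ + c δ ξ := by
  classical
  obtain ⟨nx, h1, h2⟩ := exists_next
  let F : W → ∀ ξ : W, (∀ y, y < ξ → ℕ) → ℕ := fun γ ξ ih =>
    if h : γ < ξ then ih (nx γ ξ) (h1 γ ξ h).2 + 1 else 0
  let c : W → W → ℕ := fun γ => (wellFounded_lt (α := W)).fix (F γ)
  have hc : ∀ γ ξ, c γ ξ = if γ < ξ then c γ (nx γ ξ) + 1 else 0 := by
    intro γ ξ
    simp only [c]
    rw [WellFounded.fix_eq]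
    simp only [F, dite_eq_ite]
  have h0 : ∀ γ, c γ γ = 0 := fun γ => by rw [hc, if_neg (lt_irrefl _)]
  refine ⟨c, h0, fun γ ξ h => by rw [hc, if_pos h]; omega, fun δ ξ hδ => ?_⟩
  induction ξ using WellFoundedLT.induction with
  | ind ξ ih =>
    intro h
    rcases h.eq_or_lt with rfl | h
    · obtain ⟨l, hl, -⟩ := hδ ∅ countable_empty (empty_subset _)
      exact ⟨l, hl, fun γ _ _ => by rw [h0]; rfl⟩
    · obtain ⟨l, hl, hb⟩ := h2 δ ξ hδ h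
      obtain ⟨l', hl', hb'⟩ := ih _ (h1 δ ξ h).2 (h1 δ ξ h).1
      refine ⟨max l l', max_lt hl hl', fun γ hγ hγ' => ?_⟩
      rw [hc γ ξ, if_pos (hγ'.trans_lt h), hb γ ((le_max_left _ _).trans_lt hγ) hγ',
        hb' γ ((le_max_right _ _).trans_lt hγ) hγ', hc δ ξ, if_pos h, add_assoc]

theorem exists_closed (g : W → W) : ∃ δ, Unc δ ∧ ∀ β < δ, g β < δ := by
  have hh : ∀ γ : W, ∃ b, γ < b ∧ ∀ β ≤ γ, g β < b := by
    intro γ
    obtain ⟨b, hb⟩ := bdd (g '' Iic γ) (Cardinal.mk_image_le.trans (mk_Iic_le γ))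
    obtain ⟨b', hb'⟩ := bdd_c {γ} (countable_singleton _)
    exact ⟨max b b', (hb' γ rfl).trans_le (le_max_right _ _),
      fun β hβ => (hb _ ⟨β, hβ, rfl⟩).trans_le (le_max_left _ _)⟩
  choose h h1 h2 using hh
  let C : Set W := {δ | ∀ β < δ, g β < δ}
  have hC : ∀ γ, ∃ δ ∈ C, γ < δ := by
    intro γ
    obtain ⟨b, hb⟩ := bdd_c (range fun n => h^[n] γ) (countable_range _)
    have hne : {b | ∀ n, h^[n] γ ≤ b}.Nonempty := ⟨b, fun n => (hb _ ⟨n, rfl⟩).le⟩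
    have hm := (wellFounded_lt (α := W)).min_mem _ hne
    refine ⟨_, fun β hβ => ?_, (h1 γ).trans_le (hm 1)⟩
    have : ∃ n, β < h^[n] γ := by
      by_contra hn
      push Not at hn
      exact (wellFounded_lt (α := W)).not_lt_min {b | ∀ n, h^[n] γ ≤ b} hn hβ
    obtain ⟨n, hn⟩ := this
    refine (h2 _ β hn.le).trans_le ?_
    have := hm (n + 1)
    rwa [Function.iterate_succ_apply'] at this
  have hU : ¬ C.Countable := by
    intro hc
    obtain ⟨b, hb⟩ := bdd_c C hc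
    obtain ⟨δ, hδ, h'⟩ := hC b
    exact lt_asymm h' (hb δ hδ)
  have hne : {δ | ¬ (C ∩ Iio δ).Countable}.Nonempty := by
    have : ℵ_ 1 ≤ #C := by
      rw [← Cardinal.succ_aleph0, Order.succ_le_iff, ← not_le, Cardinal.le_aleph0_iff_set_countable]
      exact hU
    obtain ⟨t, ht, ht'⟩ := Cardinal.le_mk_iff_exists_subset.1 this
    obtain ⟨b, hb⟩ := bdd t ht'.le
    refine ⟨b, fun hc => ?_⟩
    have := Cardinal.le_aleph0_iff_set_countable.2 (hc.mono fun x hx => And.intro (ht hx) (hb x hx) :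
      t.Countable)
    rw [ht'] at this
    exact absurd this (not_le.2 Cardinal.aleph0_lt_aleph_one)
  have hm := (wellFounded_lt (α := W)).min_mem _ hne
  have hlt : ∀ β < (wellFounded_lt (α := W)).min _ hne, (C ∩ Iic β).Countable := by
    intro β hβ
    have : (C ∩ Iio β).Countable := by
      by_contra hn
      exact (wellFounded_lt (α := W)).not_lt_min _ hn hβ
    refine (this.insert β).mono ?_
    rintro x ⟨hx, hx'⟩
    rcases (show x ≤ β from hx').eq_or_lt with h | h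
    · exact Or.inl h
    · exact Or.inr ⟨hx, h⟩
  refine ⟨(wellFounded_lt (α := W)).min _ hne, fun A hA hA' => ?_, fun β hβ => ?_⟩
  · by_contra hn
    push Not at hn
    refine hm ((hA.biUnion fun a ha => hlt a (hA' ha)).mono ?_)
    rintro x ⟨hx, hx'⟩
    obtain ⟨a, ha, h⟩ := hn x hx'
    exact mem_biUnion ha ⟨hx, h.le⟩
  · by_contra hn
    refine hm ((hlt β hβ).mono ?_)
    rintro x ⟨hx, hx'⟩
    refine ⟨hx, ?_⟩
    by_contra hc
    exact hn ((hx β (not_le.1 hc)).trans hx')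

def S := {δ : W // Unc δ}

@[instance_reducible] def topo {Z : Type} (h : Z → S) (R : Z → Z → Prop) : TopologicalSpace Z where
  IsOpen U := ∀ p ∈ U, ∃ β < (h p).1, ∀ q, β < (h q).1 → (h q).1 ≤ (h p).1 → R q p → q ∈ U
  isOpen_univ := fun p _ => by
    obtain ⟨l, hl, -⟩ := (h p).2 ∅ countable_empty (empty_subset _)
    exact ⟨l, hl, fun _ _ _ _ => trivial⟩
  isOpen_inter := by
    intro s t hs ht p hp
    obtain ⟨a, ha, h1⟩ := hs p hp.1
    obtain ⟨b, hb, h2⟩ := ht p hp.2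
    exact ⟨max a b, max_lt ha hb, fun q k1 k2 k3 =>
      ⟨h1 q ((le_max_left _ _).trans_lt k1) k2 k3, h2 q ((le_max_right _ _).trans_lt k1) k2 k3⟩⟩
  isOpen_sUnion := by
    rintro s hs p ⟨t, ht, hp⟩
    obtain ⟨a, ha, h1⟩ := hs t ht p hp
    exact ⟨a, ha, fun q k1 k2 k3 => ⟨t, ht, h1 q k1 k2 k3⟩⟩

theorem clopen_B {Z : Type} (h : Z → S) (R : Z → Z → Prop)
    (h2 : ∀ q p, (h q).1 ≤ (h p).1 → ∃ l < (h q).1, ∀ r, l < (h r).1 → (h r).1 ≤ (h q).1 →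
      R r q → (R r p ↔ R q p)) (p : Z) (β : W) :
    @IsClopen Z (topo h R) {q | β < (h q).1 ∧ (h q).1 ≤ (h p).1 ∧ R q p} := by
  let := topo h R
  constructor
  · rw [← isOpen_compl_iff]
    intro q hq
    by_cases c1 : β < (h q).1
    · by_cases c2 : (h q).1 ≤ (h p).1
      · obtain ⟨l, hl, hb⟩ := h2 q p c2
        exact ⟨l, hl, fun r k1 k2 k3 hr => hq ⟨c1, c2, (hb r k1 k2 k3).1 hr.2.2⟩⟩
      · exact ⟨_, not_le.1 c2, fun r k1 _ _ hr => absurd hr.2.1 (not_le.2 k1)⟩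
    · obtain ⟨l, hl, -⟩ := (h q).2 ∅ countable_empty (empty_subset _)
      exact ⟨l, hl, fun r _ k2 _ hr => c1 (hr.1.trans_le k2)⟩
  · intro q hq
    obtain ⟨l, hl, hb⟩ := h2 q p hq.2.1
    exact ⟨max l β, max_lt hl hq.1, fun r k1 k2 k3 => ⟨(le_max_right _ _).trans_lt k1,
      k2.trans hq.2.1, (hb r ((le_max_left _ _).trans_lt k1) k2 k3).2 hq.2.2⟩⟩

theorem t35 {Z : Type} (h : Z → S) (R : Z → Z → Prop) (h1 : ∀ p, R p p)
    (h2 : ∀ q p, (h q).1 ≤ (h p).1 → ∃ l < (h q).1, ∀ r, l < (h r).1 → (h r).1 ≤ (h q).1 →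
      R r q → (R r p ↔ R q p)) (h3 : ∀ q p, (h q).1 = (h p).1 → R q p → q = p) :
    @T35Space Z (topo h R) := by
  let := topo h R
  have : CompletelyRegularSpace Z := by
    refine CompletelyRegularSpace.of_isTopologicalBasis_clopens ?_
    refine TopologicalSpace.isTopologicalBasis_of_isOpen_of_nhds (fun U hU => hU.2) ?_
    intro p U hp hU
    obtain ⟨β, hβ, hb⟩ := hU p hp
    exact ⟨_, clopen_B h R h2 p β, ⟨hβ, le_rfl, h1 p⟩, fun q hq => hb q hq.1 hq.2.1 hq.2.2⟩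
  have : T0Space Z := by
    have key : ∀ p q : Z, p ≠ q → (h p).1 ≤ (h q).1 → ∃ U, IsOpen U ∧ p ∈ U ∧ q ∉ U := by
      intro p q hne hle
      obtain ⟨l, hl, -⟩ := (h p).2 ∅ countable_empty (empty_subset _)
      exact ⟨_, (clopen_B h R h2 p l).2, ⟨hl, le_rfl, h1 p⟩,
        fun hq => hne (h3 q p (le_antisymm hq.2.1 hle) hq.2.2).symm⟩
    rw [t0Space_iff_exists_isOpen_xor_mem]
    intro p q hne
    rcases le_total (h p).1 (h q).1 with k | k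
    · obtain ⟨U, a, b, c⟩ := key p q hne k
      exact ⟨U, a, Or.inl ⟨b, c⟩⟩
    · obtain ⟨U, a, b, c⟩ := key q p hne.symm k
      exact ⟨U, a, Or.inr ⟨b, c⟩⟩
  exact {}

open WTheta

theorem not_wtr : ¬ @WeaklyThetaRefinable S (topo id fun _ _ => True) := by
  let := topo (id : S → S) fun _ _ => True
  intro H
  obtain ⟨𝒱, h1, h2⟩ := H (range fun a : W => {x : S | x.1 ≤ a}) (by
    rintro _ ⟨a, rfl⟩ p hp
    obtain ⟨l, hl, -⟩ := p.2 ∅ countable_empty (empty_subset _)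
    exact ⟨l, hl, fun q _ k _ => le_trans k hp⟩)
    (eq_univ_of_forall fun x => ⟨_, ⟨x.1, rfl⟩, le_refl x.1⟩)
  let T : ℕ → S → Set (Set S) := fun n x => {V | V ∈ 𝒱 n ∧ x ∈ V}
  let E : ℕ → ℕ → W → Set S := fun n k β => {δ | (T n δ).Nonempty ∧ (T n δ).Finite ∧
    (T n δ).ncard = k ∧ β < δ.1 ∧ ∀ γ : S, β < γ.1 → γ.1 ≤ δ.1 → T n δ ⊆ T n γ}
  have hE : ∀ n k β, ∃ b, ∀ δ ∈ E n k β, δ.1 ≤ b := by
    intro n k β
    rcases eq_empty_or_nonempty (E n k β) with h | ⟨δ₀, ⟨V, hV⟩, a2, a3, a4, -⟩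
    · obtain ⟨b, -⟩ := bdd_c ∅ countable_empty
      exact ⟨b, by simp [h]⟩
    · obtain ⟨-, _, ⟨a, rfl⟩, hVa⟩ := h1 n V hV.1
      refine ⟨max a δ₀.1, fun δ ⟨_, _, b3, _, b5⟩ => ?_⟩
      rcases le_total δ.1 δ₀.1 with h | h
      · exact h.trans (le_max_right _ _)
      · have : T n δ = T n δ₀ := eq_of_subset_of_ncard_le (b5 δ₀ a4 h) (by rw [a3, b3]) a2
        rw [← this] at hV
        exact le_trans (hVa hV.2) (le_max_left _ _)
  choose b hb using hE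
  have hg : ∀ β, ∃ c, ∀ n k, b n k β < c := by
    intro β
    obtain ⟨c, hc⟩ := bdd_c (range fun i : ℕ × ℕ => b i.1 i.2 β) (countable_range _)
    exact ⟨c, fun n k => hc _ ⟨(n, k), rfl⟩⟩
  choose g hg using hg
  obtain ⟨δ, hδ, hc⟩ := exists_closed g
  obtain ⟨n, k1, k2⟩ := h2 ⟨δ, hδ⟩
  have ho : IsOpen (⋂₀ T n ⟨δ, hδ⟩) := k2.isOpen_sInter fun V hV => (h1 n V hV.1).1
  obtain ⟨β, hβ, hβ'⟩ := ho ⟨δ, hδ⟩ fun V hV => hV.2
  have := hb n _ β ⟨δ, hδ⟩ ⟨k1, k2, rfl, hβ, fun γ a1 a2 V hV =>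
    ⟨hV.1, hβ' γ a1 a2 trivial V hV⟩⟩
  exact lt_irrefl _ ((this.trans_lt (hg β n _)).trans (hc β hβ))

theorem main : ∃ (X Y : Type) (_ : TopologicalSpace X) (_ : TopologicalSpace Y),
    T35Space X ∧ T35Space Y ∧ WeaklyThetaRefinable X ∧
    ∃ f : X → Y, Continuous f ∧ Function.Surjective f ∧ IsClosedMap f ∧
      ¬ WeaklyThetaRefinable Y := by
  obtain ⟨c, c0, c1, c2⟩ := exists_c
  let R : S × ℕ → S × ℕ → Prop := fun q p => q.2 + c q.1.1 p.1.1 = p.2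
  have h1 : ∀ p, R p p := fun p => by simp only [R, c0, add_zero]
  have h2 : ∀ q p : S × ℕ, q.1.1 ≤ p.1.1 → ∃ l < q.1.1, ∀ r : S × ℕ, l < r.1.1 → r.1.1 ≤ q.1.1 →
      R r q → (R r p ↔ R q p) := by
    intro q p h
    obtain ⟨l, hl, hb⟩ := c2 _ _ q.1.2 h
    refine ⟨l, hl, fun r k1 k2 k3 => ?_⟩
    simp only [R] at k3 ⊢
    rw [hb _ k1 k2]
    omega
  have h3 : ∀ q p : S × ℕ, q.1.1 = p.1.1 → R q p → q = p := by
    intro q p h k
    simp only [R, h, c0, add_zero] at k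
    exact Prod.ext (Subtype.ext h) k
  let tX := topo (Prod.fst : S × ℕ → S) R
  let tY := topo (id : S → S) fun _ _ => True
  refine ⟨S × ℕ, S, tX, tY, t35 _ R h1 h2 h3, t35 _ _ (fun _ => trivial) (fun q p _ => ?_)
    (fun q p h _ => Subtype.ext h), ?_, Prod.fst, ?_, Prod.fst_surjective, ?_, not_wtr⟩
  · obtain ⟨l, hl, -⟩ := q.2 ∅ countable_empty (empty_subset _)
    exact ⟨l, hl, fun _ _ _ _ => Iff.rfl⟩
  · intro 𝒰 hU hc
    have : ∀ p : S × ℕ, ∃ β < p.1.1, ∃ U ∈ 𝒰,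
        {q : S × ℕ | β < q.1.1 ∧ q.1.1 ≤ p.1.1 ∧ R q p} ⊆ U := by
      intro p
      obtain ⟨U, hU', hp⟩ : p ∈ ⋃₀ 𝒰 := hc ▸ mem_univ p
      obtain ⟨β, hβ, hb⟩ := hU U hU' p hp
      exact ⟨β, hβ, U, hU', fun q hq => hb q hq.1 hq.2.1 hq.2.2⟩
    choose β hβ hb using this
    refine ⟨fun n => (fun p => {q : S × ℕ | β p < q.1.1 ∧ q.1.1 ≤ p.1.1 ∧ R q p}) ''
      {p | p.2 = n}, ?_, fun x => ⟨x.2, ⟨_, ⟨x, rfl, rfl⟩, hβ x, le_rfl, h1 x⟩, ?_⟩⟩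
    · rintro n _ ⟨p, -, rfl⟩
      exact ⟨(clopen_B _ R h2 p _).2, hb p⟩
    · refine (finite_singleton {q : S × ℕ | β x < q.1.1 ∧ q.1.1 ≤ x.1.1 ∧ R q x}).subset ?_
      rintro _ ⟨⟨p, hp, rfl⟩, -, k2, k3⟩
      have : x = p := by
        refine h3 _ _ ?_ k3
        by_contra hne
        have := c1 _ _ (lt_of_le_of_ne k2 hne)
        simp only [R] at k3
        simp only [mem_ofPred_eq] at hp
        omega
      subst this
      rfl
  · refine @continuous_def _ _ tX tY _ |>.2 fun U hU p hp => ?_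
    obtain ⟨β, hβ, hb⟩ := hU p.1 hp
    exact ⟨β, hβ, fun q k1 k2 _ => hb q.1 k1 k2 trivial⟩
  · intro C hC
    refine (@isOpen_compl_iff _ _ tY).1 fun δ hδ => ?_
    have hC' := (@isOpen_compl_iff _ _ tX).2 hC
    have := fun n : ℕ => hC' (δ, n) fun h => hδ ⟨_, h, rfl⟩
    choose β hβ hb using this
    obtain ⟨l, hl, hl'⟩ := δ.2 (range β) (countable_range _) (by
      rintro _ ⟨n, rfl⟩
      exact hβ n)
    refine ⟨l, hl, ?_⟩
    rintro _ k1 k2 - ⟨q, hq, rfl⟩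
    exact hb (q.2 + c q.1.1 δ.1) q ((hl' _ ⟨_, rfl⟩).trans_lt k1) k2 rfl hq

end Pool.Agent.H82.Walks
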