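import Mathlib
import Pool.Agent.H82.BetaL
import Pool.Agent.H82.Walks
import Pool.Agent.H82.UAleph

set_option autoImplicit false

namespace Pool.Agent.H82.KSep

open Set Filter Topology Pool.Agent.H82.CpDefs Pool.Agent.H82.BetaL Pointwise

theorem lswindle {P Q : Type} [TopologicalSpace P] [TopologicalSpace Q] (i : C(Q, P))
    (e : C(Q, ℝ) →ₗ[ℝ] C(P, ℝ)) (he : @Continuous _ _ (ptw Q) (ptw P) e)
    (hext : ∀ v q, e v (i q) = v q) : LEquiv (ℕ × P) (Q ⊕ ℕ × P) := by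
  let r : ℕ → C(Q, ℕ × P) := fun j => ⟨fun q => (j, i q), by fun_prop⟩
  let r' : ℕ → C(Q, Q ⊕ ℕ × P) := fun j => ⟨fun q => .inr (j, i q), by fun_prop⟩
  let ν : ℕ → C(Q, Q ⊕ ℕ × P) := fun j => Nat.casesOn j ⟨.inl, continuous_inl⟩ r'
  let T : C(ℕ × P, ℝ) → C(Q ⊕ ℕ × P, ℝ) := fun f => ⟨Sum.elim (f.comp (r 0))
    fun p => f p - e (f.comp (r p.1)) p.2 + e (f.comp (r (p.1 + 1))) p.2,
    Continuous.sumElim (by fun_prop) (UAleph.cont_prod.2 fun j => by simp only []; fun_prop)⟩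
  let T' : C(Q ⊕ ℕ × P, ℝ) → C(ℕ × P, ℝ) := fun g =>
    ⟨fun p => g (.inr p) - e (g.comp (r' p.1)) p.2 + e (g.comp (ν p.1)) p.2,
      UAleph.cont_prod.2 fun j => by simp only []; fun_prop⟩
  have hc : ∀ {Z : Type} [TopologicalSpace Z] (s : C(Q, Z)) (p : P),
      @Continuous _ _ (ptw Z) _ fun f => e (f.comp s) p := fun {Z} _ s p =>
    @Continuous.comp _ _ _ (ptw Z) (ptw Q) _ _ _ (ev_comp he p) (ptw_cont fun q => ev_cont (s q))
  refine ⟨{ toFun := T, invFun := T', map_add' := fun f g => ?_, map_smul' := fun c f => ?_,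
            left_inv := fun f => ?_, right_inv := fun g => ?_ }, ptw_cont ?_, ptw_cont ?_⟩
  · ext (q | p) <;> simp [T]; ring
  · ext (q | p) <;> simp [T]; ring
  · have h1 : ∀ j, (T f).comp (r' j) = f.comp (r (j + 1)) := fun j => by
      ext q; simp [T, r, r', hext]
    have h2 : ∀ j, (T f).comp (ν j) = f.comp (r j) := by
      rintro (_ | j)
      · rfl
      · exact h1 j
    ext ⟨j, x⟩
    simp only [T', ContinuousMap.coe_mk, h1, h2]
    simp [T]
  · have h1 : ∀ j, (T' g).comp (r j) = g.comp (ν j) := fun j => by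
      ext q; simp [T', r, r', hext]
    ext (q | ⟨j, x⟩)
    · exact congrFun (congrArg DFunLike.coe (h1 0)) q
    · simp only [T, ContinuousMap.coe_mk, Sum.elim_inr, h1]
      simp [T', ν]
  · let _ := ptw (ℕ × P)
    rintro (q | p)
    · exact ev_cont _
    · exact ((ev_cont p).sub (hc _ _)).add (hc _ _)
  · let _ := ptw (Q ⊕ ℕ × P)
    exact fun p => ((ev_cont _).sub (hc _ _)).add (hc _ _)

def Om : Type := Walks.W1

noncomputable instance : LinearOrder Om := inferInstanceAs (LinearOrder Walks.W1)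
instance : WellFoundedLT Om := inferInstanceAs (WellFoundedLT Walks.W1)
noncomputable instance : TopologicalSpace Om := Preorder.topology Om
instance : OrderTopology Om := ⟨rfl⟩

lemma bdd {A : Set Om} (hA : A.Countable) : ∃ b, ∀ a ∈ A, a < b := by
  by_contra h
  push Not at h
  have : Uncountable Om := by
    rw [← Cardinal.aleph0_lt_mk_iff]
    exact Cardinal.aleph0_lt_aleph_one.trans_eq (Cardinal.mk_ord_toType _).symm
  refine not_countable_univ (α := Om) ((hA.biUnion fun a _ => Walks.countable_Iic1 a).mono fun b _ => ?_)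
  obtain ⟨a, ha, hb⟩ := h b
  exact mem_biUnion ha hb

instance : NoMaxOrder Om := ⟨fun a => let ⟨b, hb⟩ := bdd (countable_singleton a); ⟨b, hb a rfl⟩⟩
instance : Nonempty Om := let ⟨b, _⟩ := bdd countable_empty; ⟨b⟩
noncomputable instance : OrderBot Om := WellFoundedLT.toOrderBot Om
noncomputable instance : SuccOrder Om := SuccOrder.ofLinearWellFoundedLT Om

noncomputable def δ (a : Om) (f : C(Om, ℝ)) : ℝ := f a

lemma δ_cont : Continuous δ := continuous_pi fun f => f.continuous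

lemma tend : Tendsto (fun a => δ (Order.succ a) - δ a) cofinite (𝓝 0) := by
  refine tendsto_pi_nhds.2 fun f => Metric.tendsto_nhds.2 fun ε hε => ?_
  let T : Set Om := {a | ¬ dist (f (Order.succ a) - f a) 0 < ε}
  show T.Finite
  have h : ∀ γ, (T ∩ Iio γ).Finite := by
    intro γ
    induction γ using WellFoundedLT.induction with
    | ind γ ih =>
    rcases eq_bot_or_bot_lt γ with rfl | hγ
    · simp
    obtain ⟨β, hβ, h⟩ := exists_Ioc_subset_of_mem_nhds
      (Metric.tendsto_nhds.1 (f.continuous.tendsto γ) (ε / 2) (half_pos hε)) ⟨⊥, hγ⟩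
    refine ((ih β hβ).insert β).subset fun a ⟨ha, ha'⟩ => ?_
    rcases lt_trichotomy a β with h1 | h1 | h1
    · exact Or.inr ⟨ha, h1⟩
    · exact Or.inl h1
    · have h2 : dist _ _ < _ := h ⟨h1, le_of_lt ha'⟩
      have h3 : dist _ _ < _ := h ⟨h1.trans_le (Order.le_succ a), Order.succ_le_of_lt ha'⟩
      refine (ha ?_).elim
      rw [dist_zero_right, ← dist_eq_norm]
      linarith [dist_triangle_right (f (Order.succ a)) (f a) (f γ)]
  by_contra hT
  obtain ⟨T', h1, h3, h2⟩ := Set.Infinite.exists_subset_countable_infinite hT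
  obtain ⟨b, hb⟩ := bdd h3
  exact h2 ((h b).subset fun a ha => ⟨h1 ha, hb a ha⟩)

def K : Set (C(Om, ℝ) → ℝ) := insert 0 (range fun a => δ (Order.succ a) - δ a)

def S : ℕ → Set (C(Om, ℝ) → ℝ)
  | 0 => {δ ⊥}
  | n + 1 => S n + K

lemma S_compact : ∀ n, IsCompact (S n)
  | 0 => isCompact_singleton
  | n + 1 => (S_compact n).add tend.isCompact_insert_range_of_cofinite

def Good (ψ : C(Om, ℝ) → ℝ) : Prop := IsLinearMap ℝ ψ ∧ @Continuous _ _ (ptw Om) _ ψ

lemma good_δ (a : Om) : Good (δ a) := ⟨⟨fun _ _ => rfl, fun _ _ => rfl⟩, ev_cont a⟩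

lemma Good.add {ψ φ : C(Om, ℝ) → ℝ} (h : Good ψ) (h' : Good φ) : Good (ψ + φ) := by
  let _ := ptw Om
  exact ⟨⟨fun f g => by simp [h.1.map_add, h'.1.map_add]; ring,
    fun c f => by simp [h.1.map_smul, h'.1.map_smul]; ring⟩, h.2.add h'.2⟩

lemma S_good : ∀ n, ∀ ψ ∈ S n, Good ψ
  | 0, _, rfl => good_δ _
  | n + 1, _, ⟨ψ, h, φ, h', rfl⟩ => (S_good n ψ h).add (by
    let _ := ptw Om
    rcases h' with rfl | ⟨a, rfl⟩
    · exact ⟨⟨fun _ _ => by simp, fun _ _ => by simp⟩, continuous_const⟩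
    · exact ⟨⟨fun f g => by simp [δ]; ring, fun c f => by simp [δ]; ring⟩,
        (ev_cont _).sub (ev_cont _)⟩)

lemma δ_mem (a : Om) : δ a ∈ closure (⋃ n, S n) := by
  induction a using SuccOrder.limitRecOn with
  | isMin a ha => exact subset_closure (mem_iUnion.2 ⟨0, congrArg δ ha.eq_bot⟩)
  | succ a _ ih =>
    have := map_mem_closure (t := ⋃ n, S n) (continuous_add_const (δ (Order.succ a) - δ a)) ih
      fun ψ hψ => let ⟨n, hn⟩ := mem_iUnion.1 hψ
        mem_iUnion.2 ⟨n + 1, ψ, hn, _, Or.inr ⟨a, rfl⟩, rfl⟩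
    simpa using this
  | isSuccLimit a ha ih =>
    have h : a ∈ closure (Iio a) := by
      refine mem_closure_iff_nhds.2 fun t ht => ?_
      obtain ⟨β, hβ, h⟩ := exists_Ioc_subset_of_mem_nhds ht ⟨⊥, ha.bot_lt⟩
      exact ⟨Order.succ β, h ⟨Order.lt_succ β, (ha.succ_lt hβ).le⟩, ha.succ_lt hβ⟩
    exact closure_minimal subset_rfl isClosed_closure (map_mem_closure δ_cont h ih)

abbrev X : Type := {ψ : C(Om, ℝ) → ℝ // Good ψ ∧ ψ ∈ closure (⋃ n, S n)}

theorem lequiv : LEquiv (ℕ × X) (Om ⊕ ℕ × X) :=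
  lswindle ⟨fun a => ⟨δ a, good_δ a, δ_mem a⟩, δ_cont.subtype_mk _⟩
    { toFun := fun f => ⟨fun ψ => ψ.1 f, (continuous_apply f).comp continuous_subtype_val⟩
      map_add' := fun f g => ContinuousMap.ext fun ψ => ψ.2.1.1.map_add f g
      map_smul' := fun c f => ContinuousMap.ext fun ψ => ψ.2.1.1.map_smul c f }
    (ptw_cont fun ψ => ψ.2.1.2) fun _ _ => rfl

theorem ksep : ∃ A : Set (ℕ × X), Dense A ∧ IsSigmaCompact A := by
  have h : ∀ n, S n ⊆ range (Subtype.val : X → _) := fun n ψ hψ =>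
    ⟨⟨ψ, S_good n ψ hψ, subset_closure (mem_iUnion.2 ⟨n, hψ⟩)⟩, rfl⟩
  refine ⟨⋃ p : ℕ × ℕ, {p.1} ×ˢ (Subtype.val ⁻¹' S p.2), ?_, isSigmaCompact_iUnion_of_isCompact _
    fun p => isCompact_singleton.prod (IsInducing.subtypeVal.isCompact_preimage' (S_compact _) (h _))⟩
  have h1 : Dense (Subtype.val ⁻¹' ⋃ n, S n : Set X) := fun ψ => by
    rw [closure_subtype, image_preimage_eq_of_subset (iUnion_subset h)]
    exact ψ.2.2
  refine (dense_univ.prod h1).mono ?_
  rintro ⟨j, ψ⟩ ⟨-, h2⟩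
  obtain ⟨n, hn⟩ := mem_iUnion.1 h2
  exact mem_iUnion.2 ⟨(j, n), rfl, hn⟩

theorem not_ksep {Z : Type} [TopologicalSpace Z] {A : Set (Om ⊕ Z)} (h1 : Dense A)
    (h2 : IsSigmaCompact A) : False := by
  obtain ⟨K, hK, rfl⟩ := h2
  choose b hb using fun n => (IsClosedEmbedding.inl.isCompact_preimage (hK n)).bddAbove
  obtain ⟨c, hc⟩ := bdd (countable_range b)
  obtain ⟨a, ha, ha'⟩ := (h1.preimage isOpenMap_inl).inter_open_nonempty _ isOpen_Ioi
    (nonempty_Ioi (a := c))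
  obtain ⟨n, hn⟩ := mem_iUnion.1 ha'
  exact absurd (hb n hn) (not_le.2 ((hc _ ⟨n, rfl⟩).trans ha))

end Pool.Agent.H82.KSep
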