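import Mathlib

/-! A Kaufman-type planar map: locally into axis-parallel lines off rational heights. -/

set_option autoImplicit false

namespace Pool.Agent.H82.Kauf

open Set Topology Filter

/-- clamp to the unit interval -/
noncomputable def cl (x : ℝ) : ℝ := max 0 (min 1 x)

@[fun_prop] theorem cont_cl : Continuous cl := by unfold cl; fun_prop
theorem cl0 {x : ℝ} (h : x ≤ 0) : cl x = 0 := by unfold cl; rw [min_eq_right (by linarith), max_eq_left h]
theorem cl1 {x : ℝ} (h : 1 ≤ x) : cl x = 1 := by unfold cl; rw [min_eq_left h]; simp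
theorem clm {x : ℝ} (h : 0 ≤ x) (h' : x ≤ 1) : cl x = x := by
  unfold cl; rw [min_eq_right h', max_eq_right h]
theorem cl_nonneg (x : ℝ) : 0 ≤ cl x := le_max_left _ _
theorem cl_le (x : ℝ) : cl x ≤ 1 := max_le zero_le_one (min_le_left _ _)

noncomputable def G1 (u t : ℝ) : ℝ :=
  cl (3*u-1) + cl (5*t) * ((cl (21*u-4) + cl (21*u-16)) / 2 - cl (3*u-1))
    + cl (5*t-2) * (cl (21*u-10) - (cl (21*u-4) + cl (21*u-16)) / 2)
    + cl (5*t-4) * (cl (3*u-1) - cl (21*u-10))

noncomputable def G2 (u t : ℝ) : ℝ :=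
  cl (5*t-1) * (cl (21*u-7) - cl (21*u-13)) + cl (5*t-2) * (1 - cl (21*u-1) + cl (21*u-19))
    + cl (5*t-3) * (cl (21*u-1) - cl (21*u-7) + cl (21*u-13) - cl (21*u-19))
    + (cl (1-21*u) + cl (21*u-20)) * (cl t - cl (5*t-2))

/-- outside the open unit square -/
def Out (u t : ℝ) : Prop := u ≤ 0 ∨ 1 ≤ u ∨ t ≤ 0 ∨ 1 ≤ t

theorem G_out {u t : ℝ} (h : Out u t) : G1 u t - cl (3*u-1) = 0 ∧ G2 u t - cl t = 0 := by
  rcases h with h | h | h | h <;> constructor <;> simp only [G1, G2] <;>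
    simp (disch := with_unfolding_all linarith) only [cl0, cl1] <;> ring

noncomputable def ab : ℕ → (ℝ → ℝ → ℝ) × (ℝ → ℝ → ℝ)
  | 0 => (fun u t => G1 u t - cl (3*u-1), fun u t => G2 u t - cl t)
  | n+1 => (fun u t => (-(ab n).2 (7*u-2) (5*t-2) + (ab n).2 (7*u-4) (5*t-2)) / 2,
      fun u t => (ab n).1 (7*u-2) (5*t-2) - (ab n).1 (7*u-4) (5*t-2))

theorem ab_cont (n : ℕ) : Continuous (fun p : ℝ × ℝ => (ab n).1 p.1 p.2) ∧
    Continuous (fun p : ℝ × ℝ => (ab n).2 p.1 p.2) := by
  induction n with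
  | zero => constructor <;> simp only [ab, G1, G2] <;> fun_prop
  | succ n ih =>
    have c1 : Continuous fun p : ℝ × ℝ => (7*p.1-2, 5*p.2-2) := by fun_prop
    have c2 : Continuous fun p : ℝ × ℝ => (7*p.1-4, 5*p.2-2) := by fun_prop
    exact ⟨((ih.2.comp c1).neg.add (ih.2.comp c2)).div_const 2, (ih.1.comp c1).sub (ih.1.comp c2)⟩

theorem ab_out (n : ℕ) : ∀ u t, Out u t → (ab n).1 u t = 0 ∧ (ab n).2 u t = 0 := by
  induction n with
  | zero => exact fun u t h => G_out h
  | succ n ih =>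
    intro u t h
    have h1 : Out (7*u-2) (5*t-2) := by
      rcases h with h | h | h | h
      exacts [Or.inl (by linarith), Or.inr (Or.inl (by linarith)),
        Or.inr (Or.inr (Or.inl (by linarith))), Or.inr (Or.inr (Or.inr (by linarith)))]
    have h2 : Out (7*u-4) (5*t-2) := by
      rcases h with h | h | h | h
      exacts [Or.inl (by linarith), Or.inr (Or.inl (by linarith)),
        Or.inr (Or.inr (Or.inl (by linarith))), Or.inr (Or.inr (Or.inr (by linarith)))]
    simp [ab, ih _ _ h1, ih _ _ h2]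

theorem bdd_of_out {f : ℝ → ℝ → ℝ} (hf : Continuous fun p : ℝ × ℝ => f p.1 p.2)
    (h : ∀ u t, Out u t → f u t = 0) : ∃ C, 0 ≤ C ∧ ∀ u t, |f u t| ≤ C := by
  obtain ⟨C, hC⟩ := (isCompact_Icc.prod isCompact_Icc :
    IsCompact (Icc (0:ℝ) 1 ×ˢ Icc (0:ℝ) 1)).exists_bound_of_continuousOn hf.continuousOn
  refine ⟨max C 0, le_max_right _ _, fun u t => ?_⟩
  by_cases ho : Out u t
  · rw [h u t ho]; simp
  · simp only [Out, not_or, not_le] at ho
    exact (hC (u, t) ⟨⟨ho.1.le, ho.2.1.le⟩, ⟨ho.2.2.1.le, ho.2.2.2.le⟩⟩).trans (le_max_left _ _)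

theorem ab_bdd : ∃ C : ℝ, ∀ n u t, |(ab n).1 u t| ≤ C * (2/3) * (3/4)^n ∧
    |(ab n).2 u t| ≤ C * (3/4)^n := by
  obtain ⟨C1, p1, h1⟩ := bdd_of_out (ab_cont 0).1 fun u t h => (ab_out 0 u t h).1
  obtain ⟨C2, p2, h2⟩ := bdd_of_out (ab_cont 0).2 fun u t h => (ab_out 0 u t h).2
  refine ⟨2 * C1 + C2, fun n => ?_⟩
  induction n with
  | zero => intro u t; have := h1 u t; have := h2 u t; constructor <;> simp <;> linarith
  | succ n ih =>
    intro u t
    have hp : 0 ≤ (2 * C1 + C2) * (3/4:ℝ)^n := by positivity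
    by_cases hu : u ≤ 1/2
    · have o := ab_out n (7*u-4) (5*t-2) (Or.inl (by linarith))
      have i := ih (7*u-2) (5*t-2)
      simp only [ab, o.1, o.2, add_zero, sub_zero, abs_div, abs_neg, abs_two, pow_succ]
      constructor <;> nlinarith [i.1, i.2]
    · have o := ab_out n (7*u-2) (5*t-2) (Or.inr (Or.inl (by linarith)))
      have i := ih (7*u-4) (5*t-2)
      simp only [ab, o.1, o.2, neg_zero, zero_add, zero_sub, abs_div, abs_neg, abs_two, pow_succ]
      constructor <;> nlinarith [i.1, i.2]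

theorem exists_E : ∃ E1 E2 : ℝ → ℝ → ℝ, Continuous (fun p : ℝ × ℝ => E1 p.1 p.2) ∧
    Continuous (fun p : ℝ × ℝ => E2 p.1 p.2) ∧ (∀ u t, Out u t → E1 u t = 0 ∧ E2 u t = 0) ∧
    (∀ u t, cl (3*u-1) + E1 u t = G1 u t + (-E2 (7*u-2) (5*t-2) + E2 (7*u-4) (5*t-2)) / 2) ∧
    (∀ u t, cl t + E2 u t = G2 u t + (E1 (7*u-2) (5*t-2) - E1 (7*u-4) (5*t-2))) := by
  obtain ⟨C, hC⟩ := ab_bdd
  have g : Summable fun n : ℕ => (3/4:ℝ)^n := summable_geometric_of_lt_one (by norm_num) (by norm_num)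
  have s1 : ∀ u t, Summable fun n => (ab n).1 u t := fun u t =>
    Summable.of_norm_bounded (g.mul_left (C * (2/3))) fun n => (hC n u t).1
  have s2 : ∀ u t, Summable fun n => (ab n).2 u t := fun u t =>
    Summable.of_norm_bounded (g.mul_left C) fun n => (hC n u t).2
  refine ⟨fun u t => ∑' n, (ab n).1 u t, fun u t => ∑' n, (ab n).2 u t,
    continuous_tsum (fun n => (ab_cont n).1) (g.mul_left (C * (2/3))) fun n p => (hC n _ _).1,
    continuous_tsum (fun n => (ab_cont n).2) (g.mul_left C) fun n p => (hC n _ _).2,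
    fun u t h => by simp [(ab_out _ u t h).1, (ab_out _ u t h).2], fun u t => ?_, fun u t => ?_⟩
  · dsimp only
    rw [(s1 u t).tsum_eq_zero_add]
    simp only [ab]
    rw [tsum_div_const, (s2 _ _).neg.tsum_add (s2 _ _), tsum_neg]
    ring
  · dsimp only
    rw [(s2 u t).tsum_eq_zero_add]
    simp only [ab]
    rw [(s1 _ _).tsum_sub (s1 _ _)]
    ring

/-- locally one coordinate is constant -/
def Flat {Z : Type} [TopologicalSpace Z] (f g : Z → ℝ) (p : Z) : Prop :=
  (∃ c, ∀ᶠ q in 𝓝 p, f q = c) ∨ (∃ c, ∀ᶠ q in 𝓝 p, g q = c)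

theorem Flat.symm {Z : Type} [TopologicalSpace Z] {f g : Z → ℝ} {p : Z} (h : Flat f g p) :
    Flat g f p := Or.symm h

/-- transfer of flatness along a continuous change of variables and affine maps -/
theorem Flat.transfer {Z W : Type} [TopologicalSpace Z] [TopologicalSpace W] {f g : Z → ℝ}
    {f' g' : W → ℝ} {A : W → Z} {p : W} (hA : ContinuousAt A p) (h : Flat f g (A p))
    (φ ψ : ℝ → ℝ) (he : ∀ᶠ q in 𝓝 p, f' q = φ (f (A q)) ∧ g' q = ψ (g (A q))) : Flat f' g' p := by
  rcases h with ⟨c, h⟩ | ⟨c, h⟩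
  · refine Or.inl ⟨φ c, ?_⟩
    filter_upwards [hA.eventually h, he] with q h1 h2
    rw [h2.1, h1]
  · refine Or.inr ⟨ψ c, ?_⟩
    filter_upwards [hA.eventually h, he] with q h1 h2
    rw [h2.2, h1]

theorem ev_box {a b c d : ℝ} {p : ℝ × ℝ} (h1 : a < p.1) (h2 : p.1 < b) (h3 : c < p.2)
    (h4 : p.2 < d) : ∀ᶠ q : ℝ × ℝ in 𝓝 p, a < q.1 ∧ q.1 < b ∧ c < q.2 ∧ q.2 < d :=
  (continuous_fst.continuousAt.eventually (lt_mem_nhds h1)).and
    ((continuous_fst.continuousAt.eventually (gt_mem_nhds h2)).and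
    ((continuous_snd.continuousAt.eventually (lt_mem_nhds h3)).and
    (continuous_snd.continuousAt.eventually (gt_mem_nhds h4))))

theorem exists_F : ∃ F1 F2 : ℝ → ℝ → ℝ, Continuous (fun p : ℝ × ℝ => F1 p.1 p.2) ∧
    Continuous (fun p : ℝ × ℝ => F2 p.1 p.2) ∧
    (∀ u t, Out u t → F1 u t = cl (3*u-1) ∧ F2 u t = cl t) ∧
    (∀ u t, u < 4/21 → F1 u t = 0) ∧ (∀ u t, 17/21 < u → F1 u t = 1) ∧
    ∀ u t, 0 < t → t < 1 → Irrational t →
      Flat (fun p : ℝ × ℝ => F1 p.1 p.2) (fun p => F2 p.1 p.2) (u, t) := by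
  obtain ⟨E1, E2, c1, c2, ho, e1, e2⟩ := exists_E
  have a1 : ∀ {u t}, u ≤ 0 → E1 u t = 0 := fun h => (ho _ _ (Or.inl h)).1
  have a2 : ∀ {u t}, 1 ≤ u → E1 u t = 0 := fun h => (ho _ _ (Or.inr (Or.inl h))).1
  have a3 : ∀ {u t}, t ≤ 0 → E1 u t = 0 := fun h => (ho _ _ (Or.inr (Or.inr (Or.inl h)))).1
  have a4 : ∀ {u t}, 1 ≤ t → E1 u t = 0 := fun h => (ho _ _ (Or.inr (Or.inr (Or.inr h)))).1
  have b1 : ∀ {u t}, u ≤ 0 → E2 u t = 0 := fun h => (ho _ _ (Or.inl h)).2
  have b2 : ∀ {u t}, 1 ≤ u → E2 u t = 0 := fun h => (ho _ _ (Or.inr (Or.inl h))).2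
  have b3 : ∀ {u t}, t ≤ 0 → E2 u t = 0 := fun h => (ho _ _ (Or.inr (Or.inr (Or.inl h)))).2
  have b4 : ∀ {u t}, 1 ≤ t → E2 u t = 0 := fun h => (ho _ _ (Or.inr (Or.inr (Or.inr h)))).2
  have left : ∀ u t, u < 4/21 → cl (3*u-1) + E1 u t = 0 := by
    intro u t h
    rw [e1]; simp only [G1]; simp (disch := with_unfolding_all linarith) only [cl0, b1]; ring
  have right : ∀ u t, 17/21 < u → cl (3*u-1) + E1 u t = 1 := by
    intro u t h
    rw [e1]; simp only [G1]; simp (disch := with_unfolding_all linarith) only [cl1, b2]; ring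
  refine ⟨fun u t => cl (3*u-1) + E1 u t, fun u t => cl t + E2 u t, by fun_prop, by fun_prop,
    fun u t h => by simp [ho u t h], left, right, ?_⟩
  -- flatness in a box
  have fl1 : ∀ {u t : ℝ} (a b c d k : ℝ), a < u → u < b → c < t → t < d →
      (∀ u t, a < u → u < b → c < t → t < d → cl (3*u-1) + E1 u t = k) →
      Flat (fun p : ℝ × ℝ => cl (3*p.1-1) + E1 p.1 p.2) (fun p => cl p.2 + E2 p.1 p.2) (u, t) :=
    fun a b c d k h1 h2 h3 h4 h => Or.inl ⟨k, (ev_box (p := (_, _)) h1 h2 h3 h4).mono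
      fun q hq => h _ _ hq.1 hq.2.1 hq.2.2.1 hq.2.2.2⟩
  have fl2 : ∀ {u t : ℝ} (a b c d k : ℝ), a < u → u < b → c < t → t < d →
      (∀ u t, a < u → u < b → c < t → t < d → cl t + E2 u t = k) →
      Flat (fun p : ℝ × ℝ => cl (3*p.1-1) + E1 p.1 p.2) (fun p => cl p.2 + E2 p.1 p.2) (u, t) :=
    fun a b c d k h1 h2 h3 h4 h => Or.inr ⟨k, (ev_box (p := (_, _)) h1 h2 h3 h4).mono
      fun q hq => h _ _ hq.1 hq.2.1 hq.2.2.1 hq.2.2.2⟩
  have key : ∀ n : ℕ, ∀ u t, 0 < t → t < 1 → Irrational t → 1 < |t - 1/2| * 5^n →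
      Flat (fun p : ℝ × ℝ => cl (3*p.1-1) + E1 p.1 p.2) (fun p => cl p.2 + E2 p.1 p.2) (u, t) := by
    intro n
    induction n with
    | zero =>
      intro u t h0 h1 _ h
      have : |t - 1/2| < 1 := abs_lt.2 ⟨by linarith, by linarith⟩
      simp at h; linarith
    | succ n ih =>
      intro u t h0 h1 hi hn
      have ne : ∀ q : ℚ, t ≠ q := fun q => hi.ne_rat q
      have n1 : t ≠ 1/5 := by simpa using ne (1/5)
      have n2 : t ≠ 2/5 := by simpa using ne (2/5)
      have n3 : t ≠ 3/5 := by simpa using ne (3/5)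
      have n4 : t ≠ 4/5 := by simpa using ne (4/5)
      by_cases u1 : u < 4/21
      · exact fl1 (u-1) (4/21) 0 1 0 (by linarith) u1 h0 h1 fun u t _ h _ _ => left u t h
      by_cases u2 : 17/21 < u
      · exact fl1 (17/21) (u+1) 0 1 1 u2 (by linarith) h0 h1 fun u t h _ _ _ => right u t h
      push Not at u1 u2
      rcases lt_or_gt_of_ne n1 with t1 | t1
      · refine fl2 (1/7) (6/7) 0 (1/5) 0 (by linarith) (by linarith) h0 t1 fun u t _ _ _ _ => ?_
        rw [e2]; simp only [G2]; simp (disch := with_unfolding_all linarith) only [cl0, cl1, a3]; ring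
      rcases lt_or_gt_of_ne n2 with t2 | t2
      · by_cases w1 : u < 1/3
        · refine fl2 (1/7) (1/3) (1/5) (2/5) 0 (by linarith) w1 t1 t2 fun u t _ _ _ _ => ?_
          rw [e2]; simp only [G2]; simp (disch := with_unfolding_all linarith) only [cl0, cl1, a3]; ring
        by_cases w2 : 2/3 < u
        · refine fl2 (2/3) (6/7) (1/5) (2/5) 0 w2 (by linarith) t1 t2 fun u t _ _ _ _ => ?_
          rw [e2]; simp only [G2]; simp (disch := with_unfolding_all linarith) only [cl0, cl1, a3]; ring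
        · refine fl1 (5/21) (16/21) (1/5) (2/5) (1/2) (by linarith) (by linarith) t1 t2
            fun u t _ _ _ _ => ?_
          rw [e1]; simp only [G1]; simp (disch := with_unfolding_all linarith) only [cl0, cl1, b3]; ring
      rcases lt_or_gt_of_ne n3 with t3 | t3
      · have hi' : Irrational (5*t-2) := by
          have := (hi.natCast_mul (m := 5) (by norm_num)).sub_natCast 2
          simpa using this
        have hn' : 1 < |5*t-2 - 1/2| * 5^n := by
          have : 5*t-2 - 1/2 = 5 * (t - 1/2) := by ring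
          rw [this, abs_mul, abs_of_pos (by norm_num : (0:ℝ) < 5)]
          rw [pow_succ] at hn; linarith
        by_cases w1 : u < 2/7
        · refine fl2 (1/7) (2/7) (2/5) (3/5) 0 (by linarith) w1 t2 t3 fun u t _ _ _ _ => ?_
          rw [e2]; simp only [G2]; simp (disch := with_unfolding_all linarith) only [cl0, cl1, a1]; ring
        by_cases w2 : u < 10/21
        · refine Flat.transfer (A := fun p : ℝ × ℝ => (7*p.1-2, 5*p.2-2)) (by fun_prop)
            (ih (7*u-2) (5*t-2) (by linarith) (by linarith) hi' hn').symm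
            (fun y => (1 - y) / 2) (fun x => x) ?_
          filter_upwards [ev_box (p := (u, t)) (a := 5/21) (by linarith) w2 t2 t3] with q hq
          obtain ⟨q1, q2, q3, q4⟩ := hq
          have e : 3 * (7 * q.1 - 2) - 1 = 21 * q.1 - 7 := by ring
          constructor
          · rw [e1]; simp only [G1]; simp (disch := with_unfolding_all linarith) only [cl0, cl1, b1]; ring
          · rw [e2, e]; simp only [G2]; simp (disch := with_unfolding_all linarith) only [cl0, cl1, a1]; ring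
        by_cases w3 : u < 4/7
        · refine fl2 (3/7) (4/7) (2/5) (3/5) 1 (by linarith) w3 t2 t3 fun u t _ _ _ _ => ?_
          rw [e2]; simp only [G2]; simp (disch := with_unfolding_all linarith) only [cl0, cl1, a1, a2]; ring
        by_cases w4 : u < 16/21
        · refine Flat.transfer (A := fun p : ℝ × ℝ => (7*p.1-4, 5*p.2-2)) (by fun_prop)
            (ih (7*u-4) (5*t-2) (by linarith) (by linarith) hi' hn').symm
            (fun y => (1 + y) / 2) (fun x => 1 - x) ?_
          filter_upwards [ev_box (p := (u, t)) (a := 11/21) (by linarith) w4 t2 t3] with q hq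
          obtain ⟨q1, q2, q3, q4⟩ := hq
          have e : 3 * (7 * q.1 - 4) - 1 = 21 * q.1 - 13 := by ring
          constructor
          · rw [e1]; simp only [G1]; simp (disch := with_unfolding_all linarith) only [cl0, cl1, b2]; ring
          · rw [e2, e]; simp only [G2]; simp (disch := with_unfolding_all linarith) only [cl0, cl1, a2]; ring
        · refine fl2 (5/7) (6/7) (2/5) (3/5) 0 (by linarith) (by linarith) t2 t3
            fun u t _ _ _ _ => ?_
          rw [e2]; simp only [G2]; simp (disch := with_unfolding_all linarith) only [cl0, cl1, a2]; ring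
      rcases lt_or_gt_of_ne n4 with t4 | t4
      · by_cases w1 : u < 10/21
        · refine fl1 (1/7) (10/21) (3/5) (4/5) 0 (by linarith) w1 t3 t4 fun u t _ _ _ _ => ?_
          rw [e1]; simp only [G1]; simp (disch := with_unfolding_all linarith) only [cl0, cl1, b4]; ring
        by_cases w2 : 11/21 < u
        · refine fl1 (11/21) (6/7) (3/5) (4/5) 1 w2 (by linarith) t3 t4 fun u t _ _ _ _ => ?_
          rw [e1]; simp only [G1]; simp (disch := with_unfolding_all linarith) only [cl0, cl1, b4]; ring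
        · refine fl2 (8/21) (13/21) (3/5) (4/5) 1 (by linarith) (by linarith) t3 t4
            fun u t _ _ _ _ => ?_
          rw [e2]; simp only [G2]; simp (disch := with_unfolding_all linarith) only [cl0, cl1, a4]; ring
      · refine fl2 (1/7) (6/7) (4/5) 1 1 (by linarith) (by linarith) t4 h1 fun u t _ _ _ _ => ?_
        rw [e2]; simp only [G2]; simp (disch := with_unfolding_all linarith) only [cl0, cl1, a4]; ring
  intro u t h0 h1 hi
  have hp : 0 < |t - 1/2| := abs_pos.2 (sub_ne_zero.2 (by simpa using hi.ne_rat (1/2)))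
  obtain ⟨n, hn⟩ := pow_unbounded_of_one_lt (1 / |t - 1/2|) (by norm_num : (1:ℝ) < 5)
  refine key n u t h0 h1 hi ?_
  rw [div_lt_iff₀ hp] at hn
  linarith

end Pool.Agent.H82.Kauf
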