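import Mathlib
import Pool.Agent.H82.KaufA

/-! The Kaufman-type map on a strip and on the half plane. -/

set_option autoImplicit false

namespace Pool.Agent.H82.Kauf

open Set Topology Filter

theorem exists_D : ∃ (D1 D2 : ℝ → ℝ → ℝ) (C : ℝ), Continuous (fun p : ℝ × ℝ => D1 p.1 p.2) ∧
    Continuous (fun p : ℝ × ℝ => D2 p.1 p.2) ∧ (∀ u v, |D1 u v| ≤ C ∧ |D2 u v| ≤ C) ∧
    (∀ u v, v ≤ 0 ∨ 1 ≤ v → D1 u v = 0 ∧ D2 u v = 0) ∧
    ∀ u v, 0 < v → v < 1 → Irrational v →
      Flat (fun p : ℝ × ℝ => p.1 + D1 p.1 p.2) (fun p => p.2 + D2 p.1 p.2) (u, v) := by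
  obtain ⟨F1, F2, c1, c2, ho, hl, hr, hf⟩ := exists_F
  let d1 : ℝ → ℝ → ℝ := fun v u =>
    F1 u (cl (3*v-1)) + (cl (1-3*v) + cl (3*v-2)) * (u - cl (3*u-1)) - u
  let d2 : ℝ → ℝ → ℝ := fun v u => F2 u (cl (3*v-1)) - cl v
  have cA : Continuous fun p : ℝ × ℝ => (p.2, cl (3*p.1-1)) := by fun_prop
  have cd1 : Continuous (Function.uncurry d1) :=
    ((c1.comp cA).add (by fun_prop : Continuous fun p : ℝ × ℝ =>
      (cl (1-3*p.1) + cl (3*p.1-2)) * (p.2 - cl (3*p.2-1)))).sub continuous_snd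
  have cd2 : Continuous (Function.uncurry d2) :=
    (c2.comp cA).sub (by fun_prop : Continuous fun p : ℝ × ℝ => cl p.1)
  have z : ∀ u v, v ≤ 0 ∨ 1 ≤ v → d1 v u = 0 ∧ d2 v u = 0 := by
    rintro u v (h | h)
    · have o := ho u 0 (Or.inr (Or.inr (Or.inl le_rfl)))
      simp only [d1, d2]
      simp (disch := with_unfolding_all linarith) only [cl0, cl1, o.1, o.2]
      constructor <;> ring
    · have o := ho u 1 (Or.inr (Or.inr (Or.inr le_rfl)))
      simp only [d1, d2]
      simp (disch := with_unfolding_all linarith) only [cl0, cl1, o.1, o.2]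
      constructor <;> ring
  have p1 : ∀ s, d1 s 0 = d1 s 1 := by
    intro s
    simp only [d1]
    rw [hl 0 _ (by norm_num), hr 1 _ (by norm_num), cl0 (x := 3*0-1) (by norm_num),
      cl1 (x := 3*1-1) (by norm_num)]
    ring
  have p2 : ∀ s, d2 s 0 = d2 s 1 := by
    intro s
    simp only [d2]
    rw [(ho 0 _ (Or.inl le_rfl)).2, (ho 1 _ (Or.inr (Or.inl le_rfl))).2]
  have K : IsCompact (Icc (0:ℝ) 1 ×ˢ Icc (0:ℝ) 1) := isCompact_Icc.prod isCompact_Icc
  obtain ⟨C1, hC1⟩ := K.exists_bound_of_continuousOn cd1.continuousOn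
  obtain ⟨C2, hC2⟩ := K.exists_bound_of_continuousOn cd2.continuousOn
  refine ⟨fun u v => d1 v (Int.fract u), fun u v => d2 v (Int.fract u), max (max C1 C2) 0,
    (ContinuousOn.comp_fract' cd1.continuousOn p1).comp continuous_swap,
    (ContinuousOn.comp_fract' cd2.continuousOn p2).comp continuous_swap, fun u v => ?_,
    fun u v h => z _ v h, fun u v h0 h1 hi => ?_⟩
  · by_cases h : v ≤ 0 ∨ 1 ≤ v
    · simp [z _ v h]
    · push Not at h
      have m : (v, Int.fract u) ∈ Icc (0:ℝ) 1 ×ˢ Icc (0:ℝ) 1 :=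
        ⟨⟨h.1.le, h.2.le⟩, ⟨Int.fract_nonneg _, (Int.fract_lt_one _).le⟩⟩
      exact ⟨(hC1 _ m).trans ((le_max_left _ _).trans (le_max_left _ _)),
        (hC2 _ m).trans ((le_max_right _ _).trans (le_max_left _ _))⟩
  · have n1 : v ≠ 1/3 := by simpa using hi.ne_rat (1/3)
    have n2 : v ≠ 2/3 := by simpa using hi.ne_rat (2/3)
    rcases lt_or_gt_of_ne n1 with t1 | t1
    · refine Or.inr ⟨0, ?_⟩
      filter_upwards [ev_box (p := (u, v)) (a := u-1) (b := u+1) (by simp) (by simp) h0 t1]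
        with q hq
      obtain ⟨-, -, q3, q4⟩ := hq
      simp only [d2]
      rw [cl0 (x := 3*q.2-1) (by linarith), (ho _ 0 (Or.inr (Or.inr (Or.inl le_rfl)))).2,
        clm q3.le (by linarith), cl0 le_rfl]
      ring
    rcases lt_or_gt_of_ne n2 with t2 | t2
    · by_cases hu : Int.fract u = 0
      · have hu' : u = ⌊u⌋ := by have := Int.floor_add_fract u; linarith
        refine Or.inl ⟨u, ?_⟩
        filter_upwards [ev_box (p := (u, v)) (a := u-1/7) (b := u+1/7) (by simp) (by simp) t1 t2]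
          with q hq
        obtain ⟨q1, q2, q3, q4⟩ := hq
        simp only [d1]
        rw [cl0 (x := 1-3*q.2) (by linarith), cl0 (x := 3*q.2-2) (by linarith)]
        by_cases hq : u ≤ q.1
        · have fl : ⌊q.1⌋ = ⌊u⌋ := Int.floor_eq_iff.2 ⟨by linarith, by linarith⟩
          have fr : Int.fract q.1 = q.1 - u := by rw [Int.fract, fl, ← hu']
          rw [fr, hl _ _ (by linarith)]; ring
        · have fl : ⌊q.1⌋ = ⌊u⌋ - 1 :=
            Int.floor_eq_iff.2 ⟨by push_cast; linarith, by push_cast; linarith⟩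
          have fr : Int.fract q.1 = q.1 - u + 1 := by
            rw [Int.fract, fl]; push_cast; linarith
          rw [fr, hr _ _ (by linarith)]; ring
      · have f0 : 0 < Int.fract u := lt_of_le_of_ne (Int.fract_nonneg _) (Ne.symm hu)
        have f1 := Int.fract_lt_one u
        have f2 := Int.floor_add_fract u
        have hi' : Irrational (3*v-1) := by
          have := (hi.natCast_mul (m := 3) (by norm_num)).sub_natCast 1
          simpa using this
        refine Flat.transfer (A := fun p : ℝ × ℝ => (p.1 - ⌊u⌋, 3*p.2-1)) (by fun_prop)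
          (hf (u - ⌊u⌋) (3*v-1) (by linarith) (by linarith) hi')
          (fun x => ⌊u⌋ + x) (fun y => y) ?_
        filter_upwards [ev_box (p := (u, v)) (a := ⌊u⌋) (b := ⌊u⌋ + 1) (by dsimp only; linarith)
          (by dsimp only; linarith) t1 t2] with q hq
        obtain ⟨q1, q2, q3, q4⟩ := hq
        have fl : ⌊q.1⌋ = ⌊u⌋ := Int.floor_eq_iff.2 ⟨q1.le, q2⟩
        have fr : Int.fract q.1 = q.1 - ⌊u⌋ := by rw [Int.fract, fl]
        simp only [d1, d2]
        rw [cl0 (x := 1-3*q.2) (by linarith), cl0 (x := 3*q.2-2) (by linarith), fr,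
          clm (x := 3*q.2-1) (by linarith) (by linarith), clm (x := q.2) (by linarith) (by linarith)]
        constructor <;> ring
    · refine Or.inr ⟨1, ?_⟩
      filter_upwards [ev_box (p := (u, v)) (a := u-1) (b := u+1) (by simp) (by simp) t2 h1]
        with q hq
      obtain ⟨-, -, q3, q4⟩ := hq
      simp only [d2]
      rw [cl1 (x := 3*q.2-1) (by linarith), (ho _ 1 (Or.inr (Or.inr (Or.inr le_rfl)))).2,
        clm (x := q.2) (by linarith) q4.le, cl1 le_rfl]
      ring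

theorem exists_R : ∃ R1 R2 : ℝ → ℝ → ℝ, Continuous (fun p : ℝ × ℝ => R1 p.1 p.2) ∧
    Continuous (fun p : ℝ × ℝ => R2 p.1 p.2) ∧
    (∀ u v, 0 ≤ v → v ≤ 1 → |R1 u v| ≤ 2 * v ∧ |R2 u v| ≤ 2 * v) ∧
    (∀ u v, 0 < v → v ≤ 1 → 0 < R2 u v) ∧
    ∀ u v, 0 < v → v < 1 → Irrational v →
      Flat (fun p : ℝ × ℝ => p.1 + R1 p.1 p.2) (fun p => R2 p.1 p.2) (u, v) := by
  obtain ⟨D1, D2, C, c1, c2, hb, hz, hf⟩ := exists_D
  have C0 : 0 ≤ C := (abs_nonneg _).trans (hb 0 0).1
  obtain ⟨K, hK⟩ := exists_nat_gt C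
  have K0 : (0:ℝ) < K := C0.trans_lt hK
  set q : ℝ := K / (K+1) with hq
  have q0 : 0 < q := by positivity
  have q1 : q < 1 := by rw [hq, div_lt_one (by positivity)]; linarith
  let s : ℕ → ℝ := fun k => q^k / (K+1)
  have s0 : ∀ k, 0 < s k := fun k => by simp only [s]; positivity
  have e1 : ∀ k, (K+1) * s k = q^k := fun k => by simp only [s]; field_simp
  have e2 : ∀ k, K * s k = q^(k+1) := fun k => by
    simp only [s]; rw [pow_succ, hq]; field_simp
  have sm : Summable fun k => s k * C :=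
    ((summable_geometric_of_lt_one q0.le q1).div_const _).mul_right C
  have single : ∀ (D : ℝ → ℝ → ℝ), (∀ u v, v ≤ 0 ∨ 1 ≤ v → D u v = 0) → ∀ k u v,
      q^(k+1) ≤ v → v ≤ q^k →
      ∑' j, s j * D (u / s j) (v / s j - K) = s k * D (u / s k) (v / s k - K) := by
    intro D hD k u v h1 h2
    refine tsum_eq_single k fun j hj => ?_
    rw [hD, mul_zero]
    rcases lt_or_gt_of_ne hj with l | l
    · left
      have : q^k ≤ q^(j+1) := pow_le_pow_of_le_one q0.le q1.le l
      rw [sub_nonpos, div_le_iff₀ (s0 j), e2]; linarith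
    · right
      have : q^j ≤ q^(k+1) := pow_le_pow_of_le_one q0.le q1.le l
      rw [le_sub_iff_add_le, le_div_iff₀ (s0 j), add_comm, e1]; linarith
  have zero : ∀ (D : ℝ → ℝ → ℝ), (∀ u v, v ≤ 0 ∨ 1 ≤ v → D u v = 0) → ∀ u,
      ∑' j, s j * D (u / s j) (0 / s j - K) = 0 := by
    intro D hD u
    have : ∀ j, s j * D (u / s j) (0 / s j - K) = 0 := fun j => by
      rw [hD _ _ (Or.inl (by simp)), mul_zero]
    simp only [this, tsum_zero]
  have cont : ∀ (D : ℝ → ℝ → ℝ), Continuous (fun p : ℝ × ℝ => D p.1 p.2) → (∀ u v, |D u v| ≤ C) →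
      Continuous fun p : ℝ × ℝ => ∑' j, s j * D (p.1 / s j) (p.2 / s j - K) := by
    intro D hD hB
    refine continuous_tsum (fun j => continuous_const.mul
      (hD.comp (by fun_prop : Continuous fun p : ℝ × ℝ => (p.1 / s j, p.2 / s j - K)))) sm
      fun j p => ?_
    rw [Real.norm_eq_abs, abs_mul, abs_of_pos (s0 j)]
    exact mul_le_mul_of_nonneg_left (hB _ _) (s0 j).le
  have bd : ∀ (D : ℝ → ℝ → ℝ), (∀ u v, v ≤ 0 ∨ 1 ≤ v → D u v = 0) → (∀ u v, |D u v| ≤ C) →
      ∀ u v, 0 < v → v ≤ 1 → |∑' j, s j * D (u / s j) (v / s j - K)| < v := by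
    intro D hD hB u v h0 h1
    obtain ⟨k, k1, k2⟩ := exists_nat_pow_near_of_lt_one h0 h1 q0 q1
    rw [single D hD k u v k1.le k2, abs_mul, abs_of_pos (s0 k)]
    have := mul_le_mul_of_nonneg_left (hB (u / s k) (v / s k - K)) (s0 k).le
    have := e2 k
    have := mul_lt_mul_of_pos_left hK (s0 k)
    linarith
  have z1 : ∀ u v, v ≤ 0 ∨ 1 ≤ v → D1 u v = 0 := fun u v h => (hz u v h).1
  have z2 : ∀ u v, v ≤ 0 ∨ 1 ≤ v → D2 u v = 0 := fun u v h => (hz u v h).2
  have b1 : ∀ u v, |D1 u v| ≤ C := fun u v => (hb u v).1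
  have b2 : ∀ u v, |D2 u v| ≤ C := fun u v => (hb u v).2
  refine ⟨fun u v => ∑' j, s j * D1 (u / s j) (v / s j - K),
    fun u v => v + ∑' j, s j * D2 (u / s j) (v / s j - K), cont D1 c1 b1,
    continuous_snd.add (cont D2 c2 b2), fun u v h0 h1 => ?_, fun u v h0 h1 => ?_,
    fun u v h0 h1 hi => ?_⟩
  · rcases eq_or_lt_of_le h0 with rfl | h0
    · dsimp only
      rw [zero D1 z1, zero D2 z2]; simp
    · have a := bd D1 z1 b1 u v h0 h1
      have b := abs_lt.1 (bd D2 z2 b2 u v h0 h1)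
      exact ⟨by linarith, abs_le.2 ⟨by linarith [b.1], by linarith [b.2]⟩⟩
  · have b := abs_lt.1 (bd D2 z2 b2 u v h0 h1)
    dsimp only
    linarith [b.1]
  · obtain ⟨k, k1, k2⟩ := exists_nat_pow_near_of_lt_one h0 h1.le q0 q1
    have hsq : s k = (((K / (K+1))^k / (K+1) : ℚ) : ℝ) := by simp only [s, hq]; push_cast; rfl
    have k3 : v < q^k := lt_of_le_of_ne k2 (by
      have := hi.ne_rat ((K / (K+1))^k)
      rw [hq]; push_cast at this; exact this)
    have hi' : Irrational (v / s k - K) := by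
      refine Irrational.sub_natCast ?_ K
      rw [hsq]
      refine hi.div_ratCast ?_
      have := s0 k
      rw [hsq] at this
      exact_mod_cast this.ne'
    have a0 : 0 < v / s k - K := by rw [sub_pos, lt_div_iff₀ (s0 k), e2]; exact k1
    have a1 : v / s k - K < 1 := by
      rw [sub_lt_iff_lt_add, div_lt_iff₀ (s0 k), add_comm, e1]; exact k3
    refine Flat.transfer (A := fun p : ℝ × ℝ => (p.1 / s k, p.2 / s k - K)) (by fun_prop)
      (hf (u / s k) (v / s k - K) a0 a1 hi') (fun x => s k * x) (fun y => s k * (y + K)) ?_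
    filter_upwards [ev_box (p := (u, v)) (a := u-1) (b := u+1) (by simp) (by simp) k1 k3]
      with p hp
    obtain ⟨-, -, q3, q4⟩ := hp
    rw [single D1 z1 k _ _ q3.le q4.le, single D2 z2 k _ _ q3.le q4.le]
    have := (s0 k).ne'
    constructor <;> field_simp <;> ring

end Pool.Agent.H82.Kauf
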