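import Mathlib

/-! Covers of order three for spaces with a suitable light map to the plane. -/

set_option autoImplicit false

namespace Pool.Agent.H82.Kauf

open Set Topology Filter

noncomputable def off : Option Bool → Bool → ℝ × ℝ × ℝ × ℝ
  | none, true => (-1/3, 1/3, -1/3, 1/3)
  | none, false => (0, 0, 0, 0)
  | some true, true => (-1/5, 1/5, 1/4, 3/4)
  | some true, false => (1/4, 3/4, -1/5, 1/5)
  | some false, true => (1/6, 5/6, 1/6, 5/6)
  | some false, false => (0, 0, 0, 0)

def Box (c : Option Bool) (l : Bool × ℤ × ℤ) (a b : ℝ) : Prop :=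
  l.2.1 + (off c l.1).1 < a ∧ a < l.2.1 + (off c l.1).2.1 ∧
    l.2.2 + (off c l.1).2.2.1 < b ∧ b < l.2.2 + (off c l.1).2.2.2

theorem int_eq {i j : ℤ} (h1 : (i:ℝ) < j + 1) (h2 : (j:ℝ) < i + 1) : i = j := by
  have a : i < j + 1 := by exact_mod_cast h1
  have b : j < i + 1 := by exact_mod_cast h2
  omega

theorem int_no {i j : ℤ} (h1 : (i:ℝ) < j + 1) (h2 : (j:ℝ) < i) : False := by
  have a : i < j + 1 := by exact_mod_cast h1
  have b : j < i := by exact_mod_cast h2
  omega

theorem Box.unique {c : Option Bool} {l l' : Bool × ℤ × ℤ} {a b : ℝ} (h : Box c l a b)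
    (h' : Box c l' a b) : l = l' := by
  obtain ⟨t, i, j⟩ := l
  obtain ⟨t', i', j'⟩ := l'
  obtain ⟨h1, h2, h3, h4⟩ := h
  obtain ⟨k1, k2, k3, k4⟩ := h'
  rcases c with _ | _ | _ <;> cases t <;> cases t' <;> simp only [off] at h1 h2 h3 h4 k1 k2 k3 k4 <;>
    first
    | (exfalso; linarith)
    | (rw [int_eq (i := i) (j := i') (by linarith) (by linarith),
        int_eq (i := j) (j := j') (by linarith) (by linarith)]; done)
    | exact (int_no (i := i') (j := i) (by linarith) (by linarith)).elim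
    | exact (int_no (i := i) (j := i') (by linarith) (by linarith)).elim

theorem Box.near {c : Option Bool} {l : Bool × ℤ × ℤ} {a b : ℝ} (h : Box c l a b) :
    |a - l.2.1| ≤ 1 ∧ |b - l.2.2| ≤ 1 := by
  obtain ⟨t, i, j⟩ := l
  obtain ⟨h1, h2, h3, h4⟩ := h
  rcases c with _ | _ | _ <;> cases t <;> simp only [off] at h1 h2 h3 h4 <;>
    exact ⟨abs_le.2 ⟨by linarith, by linarith⟩, abs_le.2 ⟨by linarith, by linarith⟩⟩

theorem dich (a r s : ℝ) (hs : s < r) :
    (∃ i : ℤ, i - r < a ∧ a < i + r) ∨ ∃ i : ℤ, i + s < a ∧ a < i + (1 - s) := by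
  have h1 := Int.floor_le a
  have h2 := Int.lt_floor_add_one a
  by_cases c1 : a < ⌊a⌋ + r
  · by_cases c0 : ⌊a⌋ - r < a
    · exact Or.inl ⟨_, c0, c1⟩
    · exact Or.inr ⟨⌊a⌋, by linarith, by linarith⟩
  by_cases c2 : ⌊a⌋ + 1 - r < a
  · exact Or.inl ⟨⌊a⌋ + 1, by push_cast; linarith, by push_cast; linarith⟩
  · exact Or.inr ⟨⌊a⌋, by linarith, by linarith⟩

theorem box_cover (a b : ℝ) : ∃ c l, Box c l a b := by
  rcases dich b (1/3) (1/4) (by norm_num) with ⟨j, j1, j2⟩ | ⟨j, j1, j2⟩
  · rcases dich a (1/3) (1/4) (by norm_num) with ⟨i, i1, i2⟩ | ⟨i, i1, i2⟩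
    · exact ⟨none, (true, i, j), by simp only [off]; linarith, by simp only [off]; linarith,
        by simp only [off]; linarith, by simp only [off]; linarith⟩
    · rcases dich b (1/5) (1/6) (by norm_num) with ⟨j, j1, j2⟩ | ⟨j, j1, j2⟩
      · exact ⟨some true, (false, i, j), by simp only [off]; linarith, by simp only [off]; linarith,
          by simp only [off]; linarith, by simp only [off]; linarith⟩
      · exact ⟨some false, (true, i, j), by simp only [off]; linarith, by simp only [off]; linarith,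
          by simp only [off]; linarith, by simp only [off]; linarith⟩
  · rcases dich a (1/5) (1/6) (by norm_num) with ⟨i, i1, i2⟩ | ⟨i, i1, i2⟩
    · exact ⟨some true, (true, i, j), by simp only [off]; linarith, by simp only [off]; linarith,
        by simp only [off]; linarith, by simp only [off]; linarith⟩
    · exact ⟨some false, (true, i, j), by simp only [off]; linarith, by simp only [off]; linarith,
        by simp only [off]; linarith, by simp only [off]; linarith⟩

theorem small_of_sep {S ι : Type} [MetricSpace S] [CompactSpace S] (φ : ι → S → ℝ)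
    (hφ : ∀ i, Continuous (φ i)) (sep : ∀ y y', (∀ i, φ i y = φ i y') → y = y') {ε : ℝ}
    (hε : 0 < ε) : ∃ (J : Finset ι) (δ : ℝ), 0 < δ ∧
      ∀ y y', (∀ i ∈ J, |φ i y - φ i y'| ≤ δ) → dist y y' < ε := by
  classical
  by_contra hc
  push Not at hc
  have hK : IsCompact {p : S × S | ε ≤ dist p.1 p.2} :=
    (isClosed_le continuous_const (by fun_prop)).isCompact
  obtain ⟨p, hp, hp'⟩ := hK.inter_iInter_nonempty
    (fun a : ι × ℕ => {p : S × S | |φ a.1 p.1 - φ a.1 p.2| ≤ 1 / (a.2 + 1)})
    (fun a => isClosed_le (by have := hφ a.1; fun_prop) continuous_const) (by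
      intro u
      obtain ⟨y, y', h1, h2⟩ := hc (u.image Prod.fst) (1 / ((u.sup Prod.snd : ℕ) + 1))
        (by positivity)
      refine ⟨(y, y'), h2, mem_iInter₂.2 fun a ha => ?_⟩
      refine (h1 a.1 (Finset.mem_image_of_mem _ ha)).trans ?_
      have : (a.2 : ℝ) ≤ (u.sup Prod.snd : ℕ) := by exact_mod_cast Finset.le_sup (f := Prod.snd) ha
      exact one_div_le_one_div_of_le (by positivity) (by linarith))
  have e : p.1 = p.2 := sep _ _ fun i => by
    by_contra hne
    obtain ⟨n, hn⟩ := exists_nat_one_div_lt (abs_pos.2 (sub_ne_zero.2 hne))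
    exact absurd (mem_iInter.1 hp' (i, n)) (not_le.2 hn)
  have : ε ≤ dist p.1 p.2 := hp
  rw [e, dist_self] at this
  linarith

theorem cover3 {S ι : Type} [MetricSpace S] [CompactSpace S] (π1 π2 : S → ℝ)
    (c1 : Continuous π1) (c2 : Continuous π2) (g : ι → S → ℝ) (cg : ∀ i, Continuous (g i))
    (d : ι → ℝ → ℝ → ℝ) (d0 : ∀ i a b, 0 ≤ d i a b)
    (dl : ∀ i a b a' b' δ, |a - a'| ≤ δ → |b - b'| ≤ δ → |d i a b - d i a' b'| ≤ δ)
    (hg : ∀ i y, g i y = 0 ∨ g i y = d i (π1 y) (π2 y))
    (sep : ∀ y y', π1 y = π1 y' → π2 y = π2 y' → (∀ i, g i y = g i y') → y = y')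
    {ε : ℝ} (hε : 0 < ε) : ∃ (n : ℕ) (U : Fin n → Set S), (∀ j, IsOpen (U j)) ∧
      (∀ j, ∀ a ∈ U j, ∀ b ∈ U j, dist a b < ε) ∧ (∀ y, y ∈ ⋃ j, U j) ∧
      ∀ y, {j : Fin n | y ∈ U j}.ncard ≤ 3 := by
  classical
  obtain ⟨J, δ0, δp, hJ⟩ := small_of_sep (ι := Bool ⊕ ι)
    (Sum.elim (fun b => if b then π1 else π2) g)
    (by rintro (b | i); cases b; exacts [c2, c1, cg i])
    (fun y y' h => sep y y' (h (Sum.inl true)) (h (Sum.inl false)) fun i => h (Sum.inr i)) hε
  set δ := δ0 / 4 with hδ
  have δ1 : 0 < δ := by positivity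
  let J' : Finset ι := J.preimage Sum.inr Sum.inr_injective.injOn
  let θ : Bool × ℤ × ℤ → ι → ℝ := fun l i =>
    if 2 * δ < d i (δ * l.2.1) (δ * l.2.2) then δ else 4 * δ
  let U : Option Bool × (Bool × ℤ × ℤ) × (J' → Bool) → Set S := fun w =>
    {y | Box w.1 w.2.1 (π1 y / δ) (π2 y / δ) ∧
      ∀ i : J', if w.2.2 i then θ w.2.1 i < g i y else g i y < θ w.2.1 i}
  have hU : ∀ w, IsOpen (U w) := by
    intro w
    refine IsOpen.and (IsOpen.and (isOpen_lt continuous_const (by fun_prop))
      (IsOpen.and (isOpen_lt (by fun_prop) continuous_const)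
      (IsOpen.and (isOpen_lt continuous_const (by fun_prop))
      (isOpen_lt (by fun_prop) continuous_const)))) ?_
    rw [ofPred_forall]
    refine isOpen_iInter_of_finite fun i => ?_
    split_ifs
    · exact isOpen_lt continuous_const (cg _)
    · exact isOpen_lt (cg _) continuous_const
  have near : ∀ {c l y}, Box c l (π1 y / δ) (π2 y / δ) →
      |π1 y - δ * l.2.1| ≤ δ ∧ |π2 y - δ * l.2.2| ≤ δ := by
    intro c l y h
    have a : ∀ x z : ℝ, |x / δ - z| ≤ 1 → |x - δ * z| ≤ δ := by
      intro x z h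
      have : x - δ * z = δ * (x / δ - z) := by field_simp
      rw [this, abs_mul, abs_of_pos δ1]
      nlinarith
    exact ⟨a _ _ h.near.1, a _ _ h.near.2⟩
  have θp : ∀ l i, δ ≤ θ l i ∧ θ l i ≤ 4 * δ := by
    intro l i; simp only [θ]; split_ifs <;> constructor <;> linarith
  have hcov : ∀ y, y ∈ ⋃ w, U w := by
    intro y
    obtain ⟨c, l, h⟩ := box_cover (π1 y / δ) (π2 y / δ)
    refine mem_iUnion.2 ⟨(c, l, fun i => decide (θ l i < g i y)), And.intro h fun i => ?_⟩
    by_cases hi : θ l i < g i y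
    · simp [hi]
    · simp only [hi, decide_false, Bool.false_eq_true, if_false]
      refine lt_of_le_of_ne (not_lt.1 hi) fun e => ?_
      have b := abs_le.1 (dl i _ _ _ _ δ (near h).1 (near h).2)
      rcases hg i y with e' | e'
      · linarith [(θp l i).1]
      · simp only [θ] at e
        split_ifs at e <;> linarith [b.1, b.2]
  obtain ⟨t, ht⟩ := isCompact_univ.elim_finite_subcover U hU fun y _ => hcov y
  refine ⟨t.card, fun j => U (t.equivFin.symm j), fun j => hU _, fun j a ha b hb => ?_,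
    fun y => ?_, fun y => ?_⟩
  · set w := (t.equivFin.symm j).1
    have na := near ha.1
    have nb := near hb.1
    have p1 : |π1 a - π1 b| ≤ 2 * δ :=
      abs_le.2 ⟨by linarith [(abs_le.1 na.1).1, (abs_le.1 nb.1).2],
        by linarith [(abs_le.1 na.1).2, (abs_le.1 nb.1).1]⟩
    have p2 : |π2 a - π2 b| ≤ 2 * δ :=
      abs_le.2 ⟨by linarith [(abs_le.1 na.2).1, (abs_le.1 nb.2).2],
        by linarith [(abs_le.1 na.2).2, (abs_le.1 nb.2).1]⟩
    refine hJ a b ?_
    rintro (β | i) hi
    · cases β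
      · exact p2.trans (by linarith)
      · exact p1.trans (by linarith)
    · have hi' : i ∈ J' := Finset.mem_preimage.2 hi
      have sa := ha.2 ⟨i, hi'⟩
      have sb := hb.2 ⟨i, hi'⟩
      have tp := θp w.2.1 i
      show |g i a - g i b| ≤ δ0
      have g0 : ∀ y, 0 ≤ g i y := fun y => by
        rcases hg i y with e | e <;> rw [e]
        exact d0 _ _ _
      split_ifs at sa sb
      · have ea : g i a = d i (π1 a) (π2 a) := (hg i a).resolve_left (by dsimp only at sa; linarith)
        have eb : g i b = d i (π1 b) (π2 b) := (hg i b).resolve_left (by dsimp only at sb; linarith)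
        rw [ea, eb]
        exact (dl i _ _ _ _ _ p1 p2).trans (by linarith)
      · dsimp only at sa sb
        exact abs_le.2 ⟨by linarith [g0 a], by linarith [g0 b]⟩
  · obtain ⟨w, hw, hy⟩ := mem_iUnion₂.1 (ht (mem_univ y))
    exact mem_iUnion.2 ⟨t.equivFin ⟨w, hw⟩, by simpa using hy⟩
  · have := Set.ncard_le_ncard_of_injOn (s := {j : Fin t.card | y ∈ U (t.equivFin.symm j)})
      (t := (univ : Set (Option Bool))) (fun j => (t.equivFin.symm j).1.1) (fun _ _ => trivial) (by
        intro j hj j' hj' e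
        apply t.equivFin.symm.injective
        apply Subtype.ext
        have hj1 : y ∈ U (t.equivFin.symm j).1 := hj
        have hj2 : y ∈ U (t.equivFin.symm j').1 := hj'
        have e' : (t.equivFin.symm j).1.1 = (t.equivFin.symm j').1.1 := e
        generalize (t.equivFin.symm j).1 = w at hj1 e'
        generalize (t.equivFin.symm j').1 = w' at hj2 e'
        obtain ⟨c, l, s⟩ := w
        obtain ⟨c', l', s'⟩ := w'
        obtain rfl : c = c' := e'
        obtain rfl : l = l' := hj1.1.unique hj2.1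
        obtain rfl : s = s' := by
          funext i
          have a := hj1.2 i
          have b := hj2.2 i
          cases h1 : s i <;> cases h2 : s' i <;> simp [h1, h2] at a b ⊢ <;> linarith
        rfl) finite_univ
    simpa using this

end Pool.Agent.H82.Kauf
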