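import Mathlib
import Pool.Agent.H82.KaufB
import Pool.Agent.H82.KaufC

/-! A map of 3-space to the plane for which every point with irrational coordinates is a trivial
component of its fibre. -/

set_option autoImplicit false

namespace Pool.Agent.H82.Kauf

open Set Topology Filter

abbrev E := Fin 3 → ℝ

noncomputable def R1 : ℝ → ℝ → ℝ := exists_R.choose
noncomputable def R2 : ℝ → ℝ → ℝ := exists_R.choose_spec.choose

theorem R_spec : Continuous (fun p : ℝ × ℝ => R1 p.1 p.2) ∧
    Continuous (fun p : ℝ × ℝ => R2 p.1 p.2) ∧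
    (∀ u v, 0 ≤ v → v ≤ 1 → |R1 u v| ≤ 2 * v ∧ |R2 u v| ≤ 2 * v) ∧
    (∀ u v, 0 < v → v ≤ 1 → 0 < R2 u v) ∧
    ∀ u v, 0 < v → v < 1 → Irrational v →
      Flat (fun p : ℝ × ℝ => p.1 + R1 p.1 p.2) (fun p => R2 p.1 p.2) (u, v) :=
  exists_R.choose_spec.choose_spec

/-- distance to the integers -/
noncomputable def zz (a : ℝ) : ℝ := min (Int.fract a) (1 - Int.fract a)

@[fun_prop] theorem cont_zz : Continuous zz :=
  ContinuousOn.comp_fract'' (f := fun s : ℝ => min s (1 - s)) (by fun_prop) (by simp)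

theorem zz_nonneg (a : ℝ) : 0 ≤ zz a :=
  le_min (Int.fract_nonneg a) (by linarith [Int.fract_lt_one a])

theorem zz_le (a : ℝ) : zz a ≤ 1/2 := by
  unfold zz
  rcases le_total (Int.fract a) (1/2) with h | h
  · exact (min_le_left _ _).trans h
  · exact (min_le_right _ _).trans (by linarith)

theorem zz_pos {a : ℝ} : 0 < zz a ↔ Int.fract a ≠ 0 := by
  unfold zz
  have := Int.fract_lt_one a
  have := Int.fract_nonneg a
  rw [lt_min_iff]
  exact ⟨fun h => h.1.ne', fun h => ⟨lt_of_le_of_ne this (Ne.symm h), by linarith⟩⟩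

theorem irr_min {a b : ℝ} (ha : Irrational a) (hb : Irrational b) : Irrational (min a b) := by
  rcases min_choice a b with h | h <;> rwa [h]

theorem zz_irr {a : ℝ} (h : Irrational a) : Irrational (zz a) := by
  have h1 : Irrational (Int.fract a) := h.sub_intCast _
  exact irr_min h1 (by simpa using h1.natCast_sub 1)

noncomputable def kk (m : ℕ) (x : E) : Fin 3 → ℤ := fun i => ⌊2^m * x i⌋

noncomputable def rr (m : ℕ) (x : E) : ℝ :=
  min (zz (2^m * x 0)) (min (zz (2^m * x 1)) (zz (2^m * x 2)))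

@[fun_prop] theorem cont_rr (m : ℕ) : Continuous (rr m) := by unfold rr; fun_prop

theorem rr_nonneg (m : ℕ) (x : E) : 0 ≤ rr m x :=
  le_min (zz_nonneg _) (le_min (zz_nonneg _) (zz_nonneg _))

theorem rr_le (m : ℕ) (x : E) : rr m x ≤ 1/2 := (min_le_left _ _).trans (zz_le _)

theorem rr_pos {m : ℕ} {x : E} : 0 < rr m x ↔ ∀ i, Int.fract (2^m * x i) ≠ 0 := by
  simp only [rr, lt_min_iff, zz_pos, Fin.forall_fin_succ]
  simp

theorem rr_irr (m : ℕ) {x : E} (h : ∀ i, Irrational (x i)) : Irrational (rr m x) := by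
  have : ∀ i, Irrational (zz (2^m * x i)) := fun i =>
    zz_irr (by simpa using (h i).natCast_mul (m := 2^m) (by positivity))
  exact irr_min (this 0) (irr_min (this 1) (this 2))

theorem rr_pos_of_irr (m : ℕ) {x : E} (h : ∀ i, Irrational (x i)) : 0 < rr m x :=
  lt_of_le_of_ne (rr_nonneg m x) (rr_irr m h).ne_zero.symm

theorem rr_pos_pred {m : ℕ} {x : E} (h : 0 < rr (m+1) x) : 0 < rr m x := by
  rw [rr_pos] at h ⊢
  intro i hi
  apply h i
  have e := Int.floor_add_fract (2^m * x i)
  rw [hi, add_zero] at e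
  have : (2:ℝ)^(m+1) * x i = ((2 * ⌊2^m * x i⌋ : ℤ) : ℝ) := by push_cast; rw [e]; ring
  rw [this, Int.fract_intCast]

theorem rr_pos_le {m m' : ℕ} (hm : m ≤ m') {x : E} (h : 0 < rr m' x) : 0 < rr m x := by
  induction m', hm using Nat.le_induction with
  | base => exact h
  | succ k _ ih => exact ih (rr_pos_pred h)

theorem kk_pred {m : ℕ} {x y : E} (h : kk (m+1) x = kk (m+1) y) : kk m x = kk m y := by
  funext i
  have e : ∀ x : E, kk m x i = kk (m+1) x i / (2:ℕ) := fun x => by
    simp only [kk]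
    rw [← Int.floor_div_natCast]
    congr 1
    push_cast; ring
  rw [e, e, h]

theorem kk_dist {m : ℕ} {x y : E} (h : kk m x = kk m y) : dist x y ≤ (1/2)^m := by
  refine (dist_pi_le_iff (by positivity)).2 fun i => ?_
  have := Int.abs_sub_lt_one_of_floor_eq_floor (congrFun h i)
  rw [← mul_sub, abs_mul, abs_of_pos (by positivity)] at this
  rw [Real.dist_eq, one_div, inv_pow, ← one_div, le_div_iff₀ (by positivity)]
  linarith

theorem kk_ev {m : ℕ} {x : E} (h : 0 < rr m x) : ∀ᶠ y in 𝓝 x, 0 < rr m y ∧ kk m y = kk m x := by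
  refine ((cont_rr m).continuousAt.eventually (lt_mem_nhds h)).and ?_
  have : ∀ i, ∀ᶠ y in 𝓝 x, kk m y i = kk m x i := by
    intro i
    have f0 : 0 < Int.fract (2^m * x i) :=
      lt_of_le_of_ne (Int.fract_nonneg _) (Ne.symm (rr_pos.1 h i))
    have f1 := Int.fract_lt_one (2^m * x i)
    have f2 := Int.floor_add_fract (2^m * x i)
    have c : ContinuousAt (fun y : E => (2:ℝ)^m * y i) x :=
      (continuous_const.mul (continuous_apply i)).continuousAt
    filter_upwards [c.eventually (lt_mem_nhds (show (⌊2^m * x i⌋ : ℝ) < 2^m * x i by linarith)),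
      c.eventually (gt_mem_nhds (show 2^m * x i < (⌊2^m * x i⌋ : ℝ) + 1 by linarith))] with y y1 y2
    exact Int.floor_eq_iff.2 ⟨y1.le, y2⟩
  exact (eventually_all.2 this).mono fun y hy => funext hy

abbrev St := (Bool → E → ℝ) × (E → ℝ)

def Act (m : ℕ) (s : St) (k : Fin 3 → ℤ) (d : Bool × ℝ × ℝ) : Prop :=
  0 < d.2.2 ∧ d.2.2 ≤ (1/2)^m ∧
    ∀ x, 0 < rr m x → kk m x = k → s.1 d.1 x = d.2.1 ∧ 2 * d.2.2 ≤ s.2 x

open Classical in
noncomputable def dat (m : ℕ) (s : St) (k : Fin 3 → ℤ) : Bool × ℝ × ℝ :=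
  if h : ∃ d, Act m s k d then h.choose else (true, 0, 0)

theorem dat_act {m : ℕ} {s : St} {k : Fin 3 → ℤ} (h : ∃ d, Act m s k d) :
    Act m s k (dat m s k) := by
  simp only [dat, h, dif_pos]; exact h.choose_spec

theorem dat_not {m : ℕ} {s : St} {k : Fin 3 → ℤ} (h : ¬ ∃ d, Act m s k d) :
    (dat m s k).2.2 = 0 := by
  simp only [dat, h, dif_neg, not_false_eq_true]

theorem dat_bd (m : ℕ) (s : St) (k : Fin 3 → ℤ) :
    0 ≤ (dat m s k).2.2 ∧ (dat m s k).2.2 ≤ (1/2)^m := by
  by_cases h : ∃ d, Act m s k d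
  · exact ⟨(dat_act h).1.le, (dat_act h).2.1⟩
  · rw [dat_not h]; exact ⟨le_rfl, by positivity⟩

noncomputable def del (m : ℕ) (s : St) (d : Bool × ℝ × ℝ) (b : Bool) (x : E) : ℝ :=
  d.2.2 * (if b = d.1 then R2 else R1) (s.1 (!d.1) x / d.2.2) (rr m x)

theorem del_bd (m : ℕ) (s : St) {d : Bool × ℝ × ℝ} (hd : 0 ≤ d.2.2) (b : Bool) (x : E) :
    |del m s d b x| ≤ d.2.2 * (2 * rr m x) := by
  have := R_spec.2.2.1 (s.1 (!d.1) x / d.2.2) (rr m x) (rr_nonneg _ _)
    ((rr_le _ _).trans (by norm_num))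
  unfold del
  rw [abs_mul, abs_of_nonneg hd]
  refine mul_le_mul_of_nonneg_left ?_ hd
  split_ifs
  exacts [this.2, this.1]

theorem del_cont (m : ℕ) {s : St} (hs : ∀ b, Continuous (s.1 b)) (d : Bool × ℝ × ℝ) (b : Bool) :
    Continuous (del m s d b) := by
  have c : Continuous fun x : E => (s.1 (!d.1) x / d.2.2, rr m x) := by
    have := hs (!d.1); fun_prop
  unfold del
  split_ifs
  exacts [continuous_const.mul (R_spec.2.1.comp c), continuous_const.mul (R_spec.1.comp c)]

noncomputable def Δ (m : ℕ) (s : St) (b : Bool) (x : E) : ℝ := del m s (dat m s (kk m x)) b x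

theorem Δ_bd (m : ℕ) (s : St) (b : Bool) (x : E) : |Δ m s b x| ≤ (1/2)^m * (2 * rr m x) :=
  (del_bd m s (dat_bd _ _ _).1 b x).trans
    (mul_le_mul_of_nonneg_right (dat_bd _ _ _).2 (by linarith [rr_nonneg m x]))

theorem Δ_cont (m : ℕ) {s : St} (hs : ∀ b, Continuous (s.1 b)) (b : Bool) :
    Continuous (Δ m s b) := by
  refine continuous_iff_continuousAt.2 fun x => ?_
  rcases eq_or_lt_of_le (rr_nonneg m x) with h | h
  · have h0 : Δ m s b x = 0 := by
      have := Δ_bd m s b x
      rw [← h] at this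
      simpa using this
    unfold ContinuousAt
    rw [h0]
    refine squeeze_zero_norm (fun y => Δ_bd m s b y) ?_
    have : Continuous fun y => (1/2:ℝ)^m * (2 * rr m y) := by fun_prop
    simpa [← h] using this.tendsto x
  · refine (del_cont m hs (dat m s (kk m x)) b).continuousAt.congr ?_
    filter_upwards [kk_ev h] with y hy
    simp only [Δ, hy.2]

open Classical in
noncomputable def step (m : ℕ) (s : St) : St :=
  (fun b x => s.1 b x + Δ m s b x, fun x =>
    if ∃ d, Act m s (kk m x) d then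
      min (s.2 x / 2) (|Δ m s (dat m s (kk m x)).1 x| / 2) else s.2 x)

noncomputable def st : ℕ → St
  | 0 => (fun _ _ => 0, fun _ => 1)
  | m+1 => step m (st m)

theorem st_cont (m : ℕ) : ∀ b, Continuous ((st m).1 b) := by
  induction m with
  | zero => exact fun _ => continuous_const
  | succ m ih => exact fun b => (ih b).add (Δ_cont m ih b)

theorem β_nonneg (m : ℕ) (x : E) : 0 ≤ (st m).2 x := by
  induction m with
  | zero => exact zero_le_one
  | succ m ih =>
    simp only [st, step]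
    split_ifs
    · exact le_min (by linarith) (by positivity)
    · exact ih

theorem Δ_le (m : ℕ) (b : Bool) (x : E) :
    |Δ m (st m) b x| ≤ (st m).2 x - (st (m+1)).2 x := by
  have h0 := β_nonneg m x
  have h1 := del_bd m (st m) (dat_bd m (st m) (kk m x)).1 b x
  simp only [st, step]
  split_ifs with h
  · have h2 := min_le_left ((st m).2 x / 2) (|Δ m (st m) (dat m (st m) (kk m x)).1 x| / 2)
    rcases eq_or_lt_of_le (rr_nonneg m x) with e | e
    · rw [← e] at h1
      simp only [Δ] at h2 ⊢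
      linarith
    · have h3 := ((dat_act h).2.2 x e rfl).2
      have h4 := mul_le_mul_of_nonneg_left (show 2 * rr m x ≤ 1 by linarith [rr_le m x])
        (dat_act h).1.le
      simp only [Δ] at h2 ⊢
      linarith
  · rw [dat_not h] at h1
    simpa [Δ] using h1

theorem Δ_bd' (m : ℕ) (s : St) (b : Bool) (x : E) : |Δ m s b x| ≤ (1/2)^m := by
  refine (Δ_bd m s b x).trans ?_
  have := mul_le_mul_of_nonneg_left (show 2 * rr m x ≤ 1 by linarith [rr_le m x])
    (show (0:ℝ) ≤ (1/2)^m by positivity)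
  linarith

noncomputable def H (b : Bool) (x : E) : ℝ := ∑' m, Δ m (st m) b x

theorem H_cont (b : Bool) : Continuous (H b) :=
  continuous_tsum (fun m => Δ_cont m (st_cont m) b) summable_geometric_two
    fun m x => Δ_bd' m _ b x

theorem st_tendsto (b : Bool) (x : E) : Tendsto (fun m => (st m).1 b x) atTop (𝓝 (H b x)) := by
  have s : Summable fun m => Δ m (st m) b x :=
    Summable.of_norm_bounded summable_geometric_two fun m => Δ_bd' m _ b x
  refine s.hasSum.tendsto_sum_nat.congr fun m => ?_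
  induction m with
  | zero => simp [st]
  | succ m ih => rw [Finset.sum_range_succ, ih]; rfl

theorem H_close (m : ℕ) (b : Bool) (x : E) : |H b x - (st m).1 b x| ≤ (st m).2 x := by
  have key : ∀ n, m ≤ n → |(st n).1 b x - (st m).1 b x| ≤ (st m).2 x - (st n).2 x := by
    intro n hn
    induction n, hn using Nat.le_induction with
    | base => simp
    | succ n _ ih =>
      have e : (st (n+1)).1 b x - (st m).1 b x =
          ((st n).1 b x - (st m).1 b x) + Δ n (st n) b x := by
        show (st n).1 b x + Δ n (st n) b x - _ = _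
        ring
      rw [e]
      linarith [abs_add_le ((st n).1 b x - (st m).1 b x) (Δ n (st n) b x), Δ_le n b x]
  refine le_of_tendsto ((st_tendsto b x).sub_const _).abs ?_
  filter_upwards [eventually_ge_atTop m] with n hn
  linarith [key n hn, β_nonneg n x]

theorem H_eq (m : ℕ) (b : Bool) {x : E} (h : rr m x = 0) : H b x = (st m).1 b x := by
  refine tendsto_nhds_unique (st_tendsto b x) (tendsto_const_nhds.congr' ?_)
  filter_upwards [eventually_ge_atTop m] with n hn
  induction n, hn using Nat.le_induction with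
  | base => rfl
  | succ n hn ih =>
    have h0 : rr n x = 0 := by
      by_contra hne
      exact (rr_pos_le hn (lt_of_le_of_ne (rr_nonneg _ _) (Ne.symm hne))).ne' h
    have := Δ_bd n (st n) b x
    rw [h0] at this
    have h1 : Δ n (st n) b x = 0 := by simpa using this
    show _ = (st n).1 b x + Δ n (st n) b x
    rw [h1, ← ih, add_zero]

theorem Δ_pos {m : ℕ} {s : St} {x : E} (h : ∃ d, Act m s (kk m x) d) (hx : 0 < rr m x) :
    0 < Δ m s (dat m s (kk m x)).1 x := by
  simp only [Δ, del, if_true]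
  exact mul_pos (dat_act h).1 (R_spec.2.2.2.1 _ _ hx ((rr_le _ _).trans (by norm_num)))

theorem H_ne {m : ℕ} {x : E} (h : ∃ d, Act m (st m) (kk m x) d) (hx : 0 < rr m x) :
    H (dat m (st m) (kk m x)).1 x ≠ (dat m (st m) (kk m x)).2.1 := by
  have h1 := H_close (m+1) (dat m (st m) (kk m x)).1 x
  have h2 := Δ_pos h hx
  have h3 := ((dat_act h).2.2 x hx rfl).1
  simp only [st, step, h, if_true] at h1
  have h4 := (abs_le.1 (h1.trans (min_le_right _ _))).1
  rw [abs_of_pos h2] at h4
  intro e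
  linarith

def Inv (m : ℕ) (x : E) : Prop :=
  Flat ((st m).1 true) ((st m).1 false) x ∧ ∃ c, 0 < c ∧ ∀ᶠ y in 𝓝 x, c ≤ (st m).2 y

theorem inv (m : ℕ) {x : E} (hx : ∀ i, Irrational (x i)) : Inv m x := by
  induction m with
  | zero => exact ⟨Or.inl ⟨0, Eventually.of_forall fun _ => rfl⟩, 1, one_pos,
      Eventually.of_forall fun _ => le_rfl⟩
  | succ m ih =>
    obtain ⟨hf, c, c0, hc⟩ := ih
    have r0 := rr_pos_of_irr m hx
    by_cases h : ∃ d, Act m (st m) (kk m x) d
    · have a := dat_act h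
      have hp := Δ_pos h r0
      set d := dat m (st m) (kk m x) with hd
      constructor
      · have key : Flat ((st (m+1)).1 (!d.1)) ((st (m+1)).1 d.1) x := by
          refine Flat.transfer (A := fun y : E => ((st m).1 (!d.1) y / d.2.2, rr m y))
            (by have := st_cont m (!d.1); fun_prop)
            (R_spec.2.2.2.2 _ _ r0 ((rr_le _ _).trans_lt (by norm_num)) (rr_irr m hx))
            (fun z => d.2.2 * z) (fun z => d.2.1 + d.2.2 * z) ?_
          filter_upwards [kk_ev r0] with y hy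
          have e := (a.2.2 y hy.1 hy.2).1
          have n := a.1.ne'
          simp only [st, step, Δ, hy.2, ← hd, del, if_true, e]
          refine ⟨?_, trivial⟩
          rw [if_neg (by cases d.1 <;> simp)]
          field_simp
        cases e : d.1 <;> rw [e] at key
        · exact key
        · exact key.symm
      · refine ⟨min (c / 2) (Δ m (st m) d.1 x / 4), by positivity, ?_⟩
        filter_upwards [kk_ev r0, hc, (Δ_cont m (st_cont m) d.1).continuousAt.eventually
          (lt_mem_nhds (show Δ m (st m) d.1 x / 2 < Δ m (st m) d.1 x by linarith))] with y y1 y2 y3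
        simp only [st, step, y1.2, h, if_true, ← hd]
        refine min_le_min (by linarith) ?_
        linarith [le_abs_self (Δ m (st m) d.1 y)]
    · have e : ∀ᶠ y in 𝓝 x, (∀ b, (st (m+1)).1 b y = (st m).1 b y) ∧
          (st (m+1)).2 y = (st m).2 y := by
        filter_upwards [kk_ev r0] with y hy
        simp [st, step, Δ, hy.2, h, del, dat_not h]
      refine ⟨Flat.transfer (A := id) continuousAt_id hf id id
        (e.mono fun y hy => ⟨hy.1 _, hy.1 _⟩), c, c0, ?_⟩
      filter_upwards [e, hc] with y y1 y2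
      rw [y1.2]; exact y2

theorem often {x : E} (hx : ∀ i, Irrational (x i)) (m0 : ℕ) :
    ∃ m, m0 ≤ m ∧ ∃ d, Act m (st m) (kk m x) d := by
  by_contra hc
  push Not at hc
  have key : ∀ m, m0 ≤ m → ∀ y, kk m y = kk m x → (∀ b, (st m).1 b y = (st m0).1 b y) ∧
      (st m).2 y = (st m0).2 y := by
    intro m hm
    induction m, hm using Nat.le_induction with
    | base => exact fun y _ => ⟨fun _ => rfl, rfl⟩
    | succ m hm ih =>
      intro y hy
      have e := kk_pred hy
      have h : ¬ ∃ d, Act m (st m) (kk m x) d := fun ⟨d, hd⟩ => hc m hm d hd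
      have := ih y e
      simp [st, step, Δ, e, h, del, dat_not h, this.1, this.2]
  obtain ⟨hf, c, c0, hb⟩ := inv m0 hx
  obtain ⟨o, v, hv⟩ : ∃ o v, ∀ᶠ y in 𝓝 x, (st m0).1 o y = v := by
    rcases hf with ⟨v, h⟩ | ⟨v, h⟩
    exacts [⟨true, v, h⟩, ⟨false, v, h⟩]
  obtain ⟨ε, ε0, hε⟩ := Metric.eventually_nhds_iff.1 (hv.and hb)
  obtain ⟨n, hn⟩ := exists_pow_lt_of_lt_one ε0 (by norm_num : (1/2:ℝ) < 1)
  refine hc (max m0 n) (le_max_left _ _) (o, v, min ((1/2)^(max m0 n)) (c / 2))
    ⟨by positivity, min_le_left _ _, fun y _ hy => ?_⟩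
  have h1 := hε (y := y) (((kk_dist hy).trans
    (pow_le_pow_of_le_one (by norm_num) (by norm_num) (le_max_right _ _))).trans_lt hn)
  have h2 := key _ (le_max_left _ _) y hy
  refine ⟨(h2.1 o).trans h1.1, ?_⟩
  rw [h2.2]
  linarith [min_le_right ((1/2:ℝ)^(max m0 n)) (c / 2), h1.2]

open Classical in
noncomputable def gg (i : ℕ × (Fin 3 → ℤ)) (x : E) : ℝ :=
  if 0 < rr i.1 x ∧ kk i.1 x = i.2 ∧ ∃ d, Act i.1 (st i.1) i.2 d then
    |H (dat i.1 (st i.1) i.2).1 x - (dat i.1 (st i.1) i.2).2.1| else 0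

theorem gg_cont (i : ℕ × (Fin 3 → ℤ)) : Continuous (gg i) := by
  obtain ⟨m, k⟩ := i
  set d := dat m (st m) k with hd
  refine continuous_iff_continuousAt.2 fun x => ?_
  rcases eq_or_lt_of_le (rr_nonneg m x) with h | h
  · have h0 : gg (m, k) x = 0 := by simp [gg, ← h]
    unfold ContinuousAt
    rw [h0]
    refine squeeze_zero_norm (a := fun y => |H d.1 y - (st m).1 d.1 y|) (fun y => ?_) ?_
    · simp only [gg, ← hd]
      split_ifs with hy
      · have := ((dat_act hy.2.2).2.2 y hy.1 hy.2.1).1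
        rw [← hd] at this
        rw [this]; simp
      · simp
    · have : Continuous fun y => |H d.1 y - (st m).1 d.1 y| :=
        ((H_cont _).sub (st_cont m _)).abs
      simpa [H_eq m d.1 h.symm] using this.tendsto x
  · by_cases hk : kk m x = k ∧ ∃ d, Act m (st m) k d
    · refine (((H_cont d.1).sub (continuous_const (y := d.2.1))).abs.continuousAt).congr ?_
      filter_upwards [kk_ev h] with y hy
      simp [gg, ← hd, hy.1, hy.2, hk.1, hk.2]
    · refine (continuousAt_const (y := (0:ℝ))).congr ?_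
      filter_upwards [kk_ev h] with y hy
      simp only [gg, hy.2, hk, and_false, if_false]

theorem gg_sep {z w : E} (hz : ∀ i, Irrational (z i)) (h : ∀ i, gg i w = gg i z) : w = z := by
  refine eq_of_dist_eq_zero (le_antisymm ?_ dist_nonneg)
  refine le_of_forall_pos_le_add fun ε ε0 => ?_
  obtain ⟨n, hn⟩ := exists_pow_lt_of_lt_one ε0 (by norm_num : (1/2:ℝ) < 1)
  obtain ⟨m, hm, ha⟩ := often hz n
  have r0 := rr_pos_of_irr m hz
  have h1 : gg (m, kk m z) z ≠ 0 := by
    simp only [gg, r0, ha, and_self, if_true]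
    exact abs_ne_zero.2 (sub_ne_zero.2 (H_ne ha r0))
  rw [← h] at h1
  have h2 : kk m w = kk m z := by
    by_contra hne
    exact h1 (by simp [gg, hne])
  have := (kk_dist h2).trans (pow_le_pow_of_le_one (by norm_num) (by norm_num) hm)
  linarith

/-- the unit cube -/
def K : Set E := {x | ∀ i, 0 ≤ x i ∧ x i ≤ 1}

theorem K_compact : IsCompact K := by
  have : K = Icc (0 : E) 1 := by
    ext x; simp [K, Pi.le_def, forall_and]
  rw [this]; exact isCompact_Icc

noncomputable def Φ (x : E) : ℝ × ℝ × (ℕ × (Fin 3 → ℤ) → ℝ) := (H true x, H false x, fun i => gg i x)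

theorem Φ_cont : Continuous Φ :=
  (H_cont _).prodMk ((H_cont _).prodMk (continuous_pi gg_cont))

abbrev Y : Type := Φ '' K

instance : CompactSpace Y := isCompact_iff_compactSpace.1 (K_compact.image Φ_cont)

noncomputable def ff (x : E) : Y :=
  ⟨Φ fun i => cl (x i), mem_image_of_mem _ fun _ => ⟨cl_nonneg _, cl_le _⟩⟩

theorem ff_cont : Continuous ff := (Φ_cont.comp (by fun_prop)).subtype_mk _

theorem ff_val {x : E} (hx : x ∈ K) : (ff x).1 = Φ x := by
  have : (fun i => cl (x i)) = x := funext fun i => clm (hx i).1 (hx i).2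
  simp only [ff, this]

theorem ff_inj {z w : E} (hz : ∀ i, Irrational (z i)) (hzK : z ∈ K) (hwK : w ∈ K)
    (h : ff w = ff z) : w = z := by
  have e := congrArg Subtype.val h
  rw [ff_val hzK, ff_val hwK] at e
  exact gg_sep hz fun i => congrFun (congrArg (fun p => p.2.2) e) i

noncomputable def plane (p : Fin 3 × ℚ) : AffineSubspace ℝ E :=
  AffineSubspace.mk' (fun _ => (p.2 : ℝ)) (LinearMap.ker (LinearMap.proj p.1 : E →ₗ[ℝ] ℝ))

theorem plane_dim (p : Fin 3 × ℚ) : Module.finrank ℝ (plane p).direction = 2 := by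
  rw [plane, AffineSubspace.direction_mk']
  have h := (LinearMap.proj p.1 : E →ₗ[ℝ] ℝ).finrank_range_add_finrank_ker
  rw [LinearMap.range_eq_top.2 (LinearMap.proj_surjective p.1)] at h
  simp at h
  omega

theorem mem_plane {p : Fin 3 × ℚ} {x : E} (h : x p.1 = p.2) : x ∈ plane p := by
  rw [plane, AffineSubspace.mem_mk']
  simp [h]

noncomputable instance mY : MetricSpace Y := TopologicalSpace.metrizableSpaceMetric Y

theorem Y_cover {ε : ℝ} (hε : 0 < ε) :
    ∃ (n : ℕ) (U : Fin n → Set Y), (∀ j, IsOpen (U j)) ∧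
      (∀ j, ∀ a ∈ U j, ∀ b ∈ U j, dist a b < ε) ∧ (∀ y, y ∈ ⋃ j, U j) ∧
      ∀ y, {j : Fin n | y ∈ U j}.ncard ≤ 3 := by
  classical
  have cv : Continuous (Subtype.val : Y → _) := continuous_subtype_val
  refine cover3 (S := Y) (ι := ℕ × (Fin 3 → ℤ)) (fun y => y.1.1) (fun y => y.1.2.1)
    (continuous_fst.comp cv) ((continuous_fst.comp continuous_snd).comp cv)
    (fun i y => y.1.2.2 i)
    (fun i => ((continuous_apply i).comp (continuous_snd.comp continuous_snd)).comp cv)
    (fun i a b => |(if (dat i.1 (st i.1) i.2).1 then a else b) - (dat i.1 (st i.1) i.2).2.1|)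
    (fun _ _ _ => abs_nonneg _) (fun i a b a' b' δ h1 h2 => ?_) (fun i y => ?_)
    (fun y y' h1 h2 h3 => Subtype.ext (Prod.ext h1 (Prod.ext h2 (funext h3)))) hε
  · refine (abs_abs_sub_abs_le_abs_sub _ _).trans ?_
    split_ifs
    · simpa using h1
    · simpa using h2
  · obtain ⟨_, x, -, rfl⟩ := y
    simp only [Φ, gg]
    split_ifs with h1 h2 h2
    · right; rw [h2]
    · right; rw [Bool.eq_false_iff.2 h2]
    · left; rfl
    · left; rfl

end Pool.Agent.H82.Kauf
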