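import Mathlib

set_option autoImplicit false

namespace Pool.Agent.H82.KingA

open Set Filter Topology

variable {X : Type*} [TopologicalSpace X]

structure Tour (r : X → X → Prop) : Prop where
  opn : IsOpen {p : X × X | r p.1 p.2}
  asy : ∀ a b, r a b → ¬ r b a
  tot : ∀ a b, a ≠ b → r a b ∨ r b a

def KF (X : Type*) [TopologicalSpace X] : Prop :=
  ∃ r : X → X → Prop, Tour r ∧ ∀ z, ∃ x, ∀ y, (y = z ∨ r y z) → r y x

theorem Tour.rev {r : X → X → Prop} (h : Tour r) : Tour (fun a b => r b a) :=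
  ⟨h.opn.preimage continuous_swap, fun a b => h.asy b a, fun a b hab => (h.tot a b hab).symm⟩

theorem Tour.irr {r : X → X → Prop} (h : Tour r) (a : X) : ¬ r a a := fun h' => h.asy a a h' h'

theorem Tour.up {r : X → X → Prop} (h : Tour r) (a : X) : IsOpen {y | r a y} :=
  h.opn.preimage (Continuous.prodMk_right a)

theorem Tour.dn {r : X → X → Prop} (h : Tour r) (a : X) : IsOpen {y | r y a} := h.rev.up a

theorem Tour.lex {r : X → X → Prop} (h : Tour r) (l : X → ℕ)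
    (hl : ∀ x, ∀ᶠ y in 𝓝 x, l y = l x) :
    Tour (fun a b => l a < l b ∨ (l a = l b ∧ r a b)) := by
  refine ⟨isOpen_iff_mem_nhds.2 fun p hp => ?_, ?_, ?_⟩
  · have h1 : ∀ᶠ q in 𝓝 p, l q.1 = l p.1 := continuous_fst.continuousAt.eventually (hl p.1)
    have h2 : ∀ᶠ q in 𝓝 p, l q.2 = l p.2 := continuous_snd.continuousAt.eventually (hl p.2)
    rcases hp with hp | hp
    · filter_upwards [h1, h2] with q a b
      exact Or.inl (by rw [a, b]; exact hp)
    · filter_upwards [h1, h2, h.opn.mem_nhds hp.2] with q a b c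
      exact Or.inr ⟨by rw [a, b]; exact hp.1, c⟩
  · rintro a b (h1 | h1) (h2 | h2)
    · omega
    · omega
    · omega
    · exact h.asy a b h1.2 h2.2
  · intro a b hab
    rcases lt_trichotomy (l a) (l b) with h1 | h1 | h1
    · exact Or.inl (Or.inl h1)
    · rcases h.tot a b hab with h2 | h2
      · exact Or.inl (Or.inr ⟨h1, h2⟩)
      · exact Or.inr (Or.inr ⟨h1.symm, h2⟩)
    · exact Or.inr (Or.inl h1)

theorem kf_glue {r : X → X → Prop} (h : Tour r) {A : Set X} (hA : IsOpen A) (hB : IsOpen Aᶜ)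
    (hne : A.Nonempty) (hk : ∀ z ∈ A, ∃ x ∈ A, ∀ y ∈ A, (y = z ∨ r y z) → r y x) : KF X := by
  classical
  refine ⟨_, h.lex (fun x => if x ∈ A then 1 else 0) (fun x => ?_), fun z => ?_⟩
  · by_cases hx : x ∈ A
    · filter_upwards [hA.mem_nhds hx] with y hy
      simp [hx, hy]
    · filter_upwards [hB.mem_nhds hx] with y hy
      simp [hx, show y ∉ A from hy]
  · by_cases hz : z ∈ A
    · obtain ⟨x, hx, hx'⟩ := hk z hz
      refine ⟨x, fun y hy => ?_⟩
      by_cases hyA : y ∈ A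
      · refine Or.inr ⟨by simp [hx, hyA], hx' y hyA ?_⟩
        rcases hy with hy | hy | hy
        · exact Or.inl hy
        · simp [hz, hyA] at hy
        · exact Or.inr hy.2
      · exact Or.inl (by simp [hx, hyA])
    · obtain ⟨x, hx⟩ := hne
      refine ⟨x, fun y hy => Or.inl ?_⟩
      have : y ∉ A := by
        rcases hy with hy | hy | hy
        · rw [hy]; exact hz
        · simp [hz] at hy
        · intro hyA; simp [hz, hyA] at hy
      simp [hx, this]

def Small (H : Set X) : Prop :=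
  ∀ f : X → Set X, (∀ y ∈ H, ∀ᶠ y' in 𝓝 y, f y' = f y) → (f '' H).Finite

theorem Small.union {H H' : Set X} (h : Small H) (h' : Small H') : Small (H ∪ H') := by
  intro f hf
  rw [image_union]
  exact (h f fun y hy => hf y (Or.inl hy)).union (h' f fun y hy => hf y (Or.inr hy))

theorem kf_of_not_small {r : X → X → Prop} (h : Tour r) {H : Set X} (hH : IsClopen H)
    (hs : ¬ Small H) : KF X := by
  classical
  simp only [Small, not_forall] at hs
  obtain ⟨f, hf, hinf⟩ := hs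
  let t : ℕ ↪ (f '' H) := Set.Infinite.natEmbedding _ hinf
  let l : X → ℕ := fun x => if hx : x ∈ H ∧ ∃ n, f x = t n then Nat.find hx.2 + 1 else 0
  have hl : ∀ x, ∀ᶠ y in 𝓝 x, l y = l x := by
    intro x
    by_cases hx : x ∈ H
    · filter_upwards [hH.isOpen.mem_nhds hx, hf x hx] with y hy hy'
      simp only [l, hx, hy, hy', true_and]
    · filter_upwards [hH.compl.isOpen.mem_nhds hx] with y hy
      simp only [l, hx, show y ∉ H from hy, false_and, dif_neg, not_false_iff]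
  refine ⟨_, h.lex l hl, fun z => ?_⟩
  obtain ⟨x, hx, hx'⟩ := (t (l z)).2
  have hlx : l x = l z + 1 := by
    have h1 : x ∈ H ∧ ∃ n, f x = t n := ⟨hx, l z, hx'⟩
    have h2 := Nat.find_spec h1.2
    have h3 : Nat.find h1.2 = l z := t.injective (Subtype.ext (h2.symm.trans hx'))
    show (if hx : x ∈ H ∧ ∃ n, f x = t n then Nat.find hx.2 + 1 else 0) = _
    rw [dif_pos h1, h3]
  refine ⟨x, fun y hy => Or.inl ?_⟩
  rcases hy with hy | hy | hy
  · rw [hy]; omega
  · omega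
  · omega

def FC (L : Set X) : Prop :=
  ∀ O : ℕ → Set X, (∀ n, IsOpen (O n) ∧ (O n ∩ L).Nonempty) →
    ∃ p ∈ L, ∀ N ∈ 𝓝 p, ∀ m, ∃ n ≥ m, (N ∩ O n ∩ L).Nonempty

theorem FC.closure {K O : Set X} (h : FC K) (hO : IsOpen O) (hK : O ⊆ K) : FC (closure O) := by
  intro U hU
  obtain ⟨p, -, hp⟩ := h (fun n => U n ∩ O) (fun n => ⟨(hU n).1.inter hO, by
    obtain ⟨x, hx, hx'⟩ := (hU n).2
    obtain ⟨y, hy⟩ := mem_closure_iff.1 hx' _ (hU n).1 hx
    exact ⟨y, hy, hK hy.2⟩⟩)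
  refine ⟨p, mem_closure_iff_nhds.2 fun N hN => ?_, fun N hN m => ?_⟩
  · obtain ⟨n, -, y, hy⟩ := hp N hN 0
    exact ⟨y, hy.1.1, hy.1.2.2⟩
  · obtain ⟨n, hn, y, hy⟩ := hp N hN m
    exact ⟨n, hn, y, ⟨hy.1.1, hy.1.2.1⟩, subset_closure hy.1.2.2⟩

theorem FC.small {H : Set X} (h : FC H) : Small H := by
  intro f hf
  by_contra hinf
  let t : ℕ ↪ (f '' H) := Set.Infinite.natEmbedding _ hinf
  obtain ⟨p, hp, hc⟩ := h (fun n => interior {y | f y = t n}) (fun n => ⟨isOpen_interior, by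
    obtain ⟨x, hx, hx'⟩ := (t n).2
    exact ⟨x, mem_interior_iff_mem_nhds.2 ((hf x hx).mono fun y hy => hy.trans hx'), hx⟩⟩)
  obtain ⟨n, -, y, hy⟩ := hc _ (hf p hp) 0
  obtain ⟨m, hm, y', hy'⟩ := hc _ (hf p hp) (n + 1)
  have e1 : f y = t n := interior_subset (s := {y | f y = t n}) hy.1.2
  have e2 : f y' = t m := interior_subset (s := {y | f y = t m}) hy'.1.2
  have e3 : f y = f p := hy.1.1
  have e4 : f y' = f p := hy'.1.1
  have : n = m := t.injective (Subtype.ext (by rw [← e1, ← e2, e3, e4]))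
  omega

theorem FC.of_compact {K : Set X} (h : IsCompact K) : FC K := by
  intro O hO
  choose x hx using fun n => (hO n).2
  obtain ⟨p, hp, hc⟩ := h (f := map x atTop) (le_principal_iff.2 (mem_map.2
    (Eventually.of_forall fun n => (hx n).2)))
  refine ⟨p, hp, fun N hN m => ?_⟩
  have := (mapClusterPt_iff_frequently.1 hc) N hN
  obtain ⟨n, hn, hn'⟩ := frequently_atTop.1 this m
  exact ⟨n, hn, x n, ⟨hn', (hx n).1⟩, (hx n).2⟩

/-- finitely many traces give uniform local constancy -/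
theorem unif_of_small {r : X → X → Prop} (h : Tour r) {S L : Set X} (hS : Small S)
    (hd : ∀ w ∈ S, w ∉ L) (hc : ∀ w ∈ S, ∀ᶠ w' in 𝓝 w, ∀ y ∈ L, (r w' y ↔ r w y))
    {y₀ : X} (hL : L ∈ 𝓝 y₀) : ∀ᶠ y in 𝓝 y₀, ∀ w ∈ S, (r w y ↔ r w y₀) := by
  have hy0 := mem_of_mem_nhds hL
  have hf := hS (fun w => {y ∈ L | r w y}) (fun w hw => (hc w hw).mono fun w' hw' => by
    ext y
    exact and_congr_right fun hy => hw' y hy)
  have : ∀ᶠ y in 𝓝 y₀, ∀ T ∈ (fun w => {y ∈ L | r w y}) '' S, (y ∈ T ↔ y₀ ∈ T) := by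
    rw [eventually_all_finite hf]
    rintro _ ⟨w, hw, rfl⟩
    have hne : w ≠ y₀ := fun e => hd w hw (e ▸ hy0)
    rcases h.tot w y₀ hne with h1 | h1
    · filter_upwards [hL, (h.up w).mem_nhds h1] with y a b
      exact ⟨fun _ => ⟨hy0, h1⟩, fun _ => ⟨a, b⟩⟩
    · filter_upwards [(h.dn w).mem_nhds h1] with y b
      exact ⟨fun c => (h.asy _ _ c.2 b).elim, fun c => (h.asy _ _ c.2 h1).elim⟩
  filter_upwards [this, hL] with y hy hyL w hw
  have := hy _ ⟨w, hw, rfl⟩
  exact ⟨fun c => (this.1 ⟨hyL, c⟩).2, fun c => (this.2 ⟨hy0, c⟩).2⟩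

omit [TopologicalSpace X] in
theorem ultra_const (U : Ultrafilter X) {H : Set X} (hH : H ∈ U) (f : X → Set X)
    (hf : (f '' H).Finite) : ∃ T, {y ∈ H | f y = T} ∈ U := by
  have : H ⊆ ⋃ T ∈ f '' H, {y ∈ H | f y = T} := fun y hy =>
    mem_biUnion (mem_image_of_mem f hy) ⟨hy, rfl⟩
  obtain ⟨T, -, hT⟩ := (Ultrafilter.finite_biUnion_mem_iff hf).1 (mem_of_superset hH this)
  exact ⟨T, hT⟩

def LC (r : X → X → Prop) : Prop :=
  ∀ L : Set X, IsClosed L → FC L → ∀ w ∉ L, ∀ᶠ w' in 𝓝 w, ∀ y ∈ L, (r w' y ↔ r w y)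

theorem LC.rev {r : X → X → Prop} (h : Tour r) (hl : LC r) : LC (fun a b => r b a) := by
  intro L hL hF w hw
  filter_upwards [hl L hL hF w hw, hL.isOpen_compl.mem_nhds hw] with w' h1 h2 y hy
  have n1 : w' ≠ y := fun e => h2 (e ▸ hy)
  have n2 : w ≠ y := fun e => hw (e ▸ hy)
  have := h1 y hy
  have a1 := h.tot _ _ n1
  have a2 := h.tot _ _ n2
  have a3 := h.asy w' y
  have a4 := h.asy w y
  tauto

theorem exists_LS [RegularSpace X] (hcov : ∀ x : X, ∃ K, IsClopen K ∧ FC K ∧ x ∈ K)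
    (hnp : ∀ H : Set X, IsClopen H → Small H) {y₀ : X} {O : Set X} (hO : O ∈ 𝓝 y₀) :
    ∃ L S, L ∈ 𝓝 y₀ ∧ IsClosed L ∧ FC L ∧ Small S ∧ (∀ w ∈ S, w ∉ L) ∧ Oᶜ ⊆ S := by
  obtain ⟨K, hK, hF, hy⟩ := hcov y₀
  obtain ⟨L', h1, h2, h3⟩ := exists_mem_nhds_isClosed_subset (inter_mem hO (hK.isOpen.mem_nhds hy))
  obtain ⟨L, h4, h5, h6⟩ := exists_mem_nhds_isClosed_subset (interior_mem_nhds.2 h1)
  have hc : closure (interior L) ⊆ L := closure_minimal interior_subset h5
  refine ⟨closure (interior L), Kᶜ ∪ closure (K \ L'),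
    mem_of_superset (interior_mem_nhds.2 h4) subset_closure, isClosed_closure,
    hF.closure isOpen_interior fun x hx => (h3 (interior_subset (h6 (interior_subset hx)))).2,
    (hnp _ hK.compl).union (hF.closure (hK.isOpen.sdiff h2) sdiff_subset).small, ?_, ?_⟩
  · rintro w (hw | hw) hwL
    · exact hw (h3 (interior_subset (h6 (hc hwL)))).2
    · obtain ⟨y, a, b⟩ := mem_closure_iff.1 hw _ isOpen_interior (h6 (hc hwL))
      exact b.2 (interior_subset a)
  · intro w hw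
    by_cases hwK : w ∈ K
    · exact Or.inr (subset_closure ⟨hwK, fun c => hw (h3 c).1⟩)
    · exact Or.inl hwK

theorem cover_half [RegularSpace X] {r : X → X → Prop} (h : Tour r) (hl : LC r)
    (hcov : ∀ x : X, ∃ K, IsClopen K ∧ FC K ∧ x ∈ K)
    (hnp : ∀ H : Set X, IsClopen H → Small H) (U : Ultrafilter X)
    (hU : ∀ x : X, ∃ O ∈ 𝓝 x, Oᶜ ∈ U) :
    IsOpen {x | {y | r x y} ∈ U} ∧
      ∀ z, {y | r z y} ∈ U → ∃ H ∈ U, ∀ x ∈ H, ∀ w, {y | r w y} ∈ U → (w = z ∨ r w z) → r w x := by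
  classical
  have hl' := hl.rev h
  constructor
  · refine isOpen_iff_mem_nhds.2 fun x hx => ?_
    obtain ⟨O, hO, hOU⟩ := hU x
    obtain ⟨L, S, h1, h2, h3, h4, h5, h6⟩ := exists_LS hcov hnp hO
    have hf := h4 (fun y => {w ∈ L | r w y}) (fun y hy =>
      (hl' L h2 h3 y (h5 y hy)).mono fun y' hy' => by
        ext w
        exact and_congr_right fun hw => hy' w hw)
    obtain ⟨T, hT⟩ := ultra_const U (mem_of_superset hOU h6) _ hf
    obtain ⟨y, hy1, hy2⟩ := Ultrafilter.nonempty_of_mem (inter_mem hT hx)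
    filter_upwards [h1, (h.dn y).mem_nhds hy2] with x' a b
    refine mem_of_superset hT fun y' hy' => ?_
    have : x' ∈ T := hy1.2 ▸ ⟨a, b⟩
    rw [← hy'.2] at this
    exact this.2
  · intro z hz
    obtain ⟨O, hO, hOU⟩ := hU z
    obtain ⟨L, S, h1, h2, h3, h4, h5, h6⟩ := exists_LS hcov hnp hO
    have hf := h4 (fun y => if r z y then {w | (w = z ∨ r w z) ∧ r w y} else ∅) (fun y hy => by
      have hne : z ≠ y := fun e => h5 y hy (e ▸ mem_of_mem_nhds h1)
      rcases h.tot z y hne with c | c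
      · obtain ⟨L', S', k1, k2, k3, k4, k5, k6⟩ := exists_LS hcov hnp ((h.up z).mem_nhds c)
        filter_upwards [unif_of_small h k4 k5 (fun w hw => hl L' k2 k3 w (k5 w hw)) k1,
          (h.up z).mem_nhds c] with y' a b
        rw [if_pos c, if_pos (show r z y' from b)]
        ext w
        refine and_congr_right fun hw => a w (k6 ?_)
        rcases hw with hw | hw
        · rw [hw]; exact h.irr z
        · exact h.asy _ _ hw
      · filter_upwards [(h.dn z).mem_nhds c] with y' b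
        rw [if_neg (h.asy _ _ c), if_neg (h.asy _ _ b)])
    obtain ⟨T, hT⟩ := ultra_const U (mem_of_superset hOU h6) _ hf
    refine ⟨_, inter_mem hT hz, fun x hx w hw hwz => ?_⟩
    obtain ⟨y, ⟨hy1, hy2⟩, hy3⟩ := Ultrafilter.nonempty_of_mem (inter_mem (inter_mem hT hz) hw)
    have e1 := hy1.2
    have e2 := hx.1.2
    rw [if_pos (show r z y from hy2)] at e1
    rw [if_pos (show r z x from hx.2)] at e2
    have : w ∈ T := e1 ▸ ⟨hwz, hy3⟩
    rw [← e2] at this
    exact this.2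

theorem cover_case [RegularSpace X] {r : X → X → Prop} (h : Tour r) (hl : LC r)
    (hcov : ∀ x : X, ∃ K, IsClopen K ∧ FC K ∧ x ∈ K) (hnc : ¬ CompactSpace X) : KF X := by
  by_cases hnp : ∀ H : Set X, IsClopen H → Small H
  swap
  · simp only [not_forall] at hnp
    obtain ⟨H, a, b⟩ := hnp
    exact kf_of_not_small h a b
  have : ∃ U : Ultrafilter X, ∀ x : X, ∃ O ∈ 𝓝 x, Oᶜ ∈ U := by
    by_contra hn
    simp only [not_exists, not_forall, not_and] at hn
    refine hnc ⟨isCompact_iff_ultrafilter_le_nhds.2 fun U _ => ?_⟩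
    obtain ⟨x, hx⟩ := hn U
    exact ⟨x, mem_univ _, fun O hO => Ultrafilter.compl_notMem_iff.1 (hx O hO)⟩
  obtain ⟨U, hU⟩ := this
  obtain ⟨a1, a2⟩ := cover_half h hl hcov hnp U hU
  obtain ⟨b1, b2⟩ := cover_half h.rev (hl.rev h) hcov hnp U hU
  have hc : {x | {y | r x y} ∈ U}ᶜ = {x | {y | r y x} ∈ U} := by
    ext x
    constructor
    · intro hx
      obtain ⟨O, hO, hOU⟩ := hU x
      refine mem_of_superset (inter_mem (Ultrafilter.compl_mem_iff_notMem.2 hx) hOU) fun y hy => ?_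
      have : x ≠ y := fun e => hy.2 (e ▸ mem_of_mem_nhds hO)
      exact (h.tot x y this).resolve_left hy.1
    · intro hx hx'
      obtain ⟨y, hy1, hy2⟩ := Ultrafilter.nonempty_of_mem (inter_mem hx hx')
      exact h.asy _ _ hy1 hy2
  rcases U.mem_or_compl_mem {x | {y | r x y} ∈ U} with c | c
  · refine kf_glue h a1 (hc ▸ b1) (Ultrafilter.nonempty_of_mem c) fun z hz => ?_
    obtain ⟨H, hH, hH'⟩ := a2 z hz
    obtain ⟨x, hx1, hx2⟩ := Ultrafilter.nonempty_of_mem (inter_mem hH c)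
    exact ⟨x, hx2, fun y hy => hH' x hx1 y hy⟩
  · rw [hc] at c
    refine kf_glue h.rev b1 (by rw [← hc, compl_compl]; exact a1)
      (Ultrafilter.nonempty_of_mem c) fun z hz => ?_
    obtain ⟨H, hH, hH'⟩ := b2 z hz
    obtain ⟨x, hx1, hx2⟩ := Ultrafilter.nonempty_of_mem (inter_mem hH c)
    exact ⟨x, hx2, fun y hy => hH' x hx1 y hy⟩

end Pool.Agent.H82.KingA
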