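import Pool.Agent.H82.KingA

set_option autoImplicit false

namespace Pool.Agent.H82.KingA

open Set Filter Topology

variable {X : Type*} [TopologicalSpace X] {r : X → X → Prop}

theorem Tour.not_ge (h : Tour r) (x y : X) : ¬ (y = x ∨ r x y) ↔ r y x := by
  constructor
  · intro c
    exact (h.tot y x fun e => c (Or.inl e)).resolve_right fun e => c (Or.inr e)
  · rintro c (e | e)
    · exact h.irr x (e ▸ c)
    · exact h.asy _ _ c e

theorem Tour.ge_closed (h : Tour r) (x : X) : IsClosed {y | y = x ∨ r x y} := by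
  rw [← isOpen_compl_iff]
  convert h.dn x using 1
  ext y
  exact h.not_ge x y

theorem Tour.side (h : Tour r) {S : Set X} (hS : IsPreconnected S) {y s s' : X} (hy : y ∉ S)
    (hs : s ∈ S) (hs' : s' ∈ S) (c : r y s) : r y s' := by
  by_contra hn
  have hcov : S ⊆ {w | r y w} ∪ {w | r w y} := fun w hw => h.tot y w fun e => hy (e ▸ hw)
  obtain ⟨w, -, a, b⟩ := hS _ _ (h.up y) (h.dn y) hcov ⟨s, hs, c⟩
    ⟨s', hs', (hcov hs').resolve_left hn⟩
  exact h.asy _ _ a b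

theorem Tour.up_pre (h : Tour r) {C : Set X} (hC : IsPreconnected C) {x : X} (hx : x ∈ C) :
    IsPreconnected (C ∩ {y | y = x ∨ r x y}) := by
  have key : ∀ u v : Set X, IsOpen u → IsOpen v → C ∩ {y | y = x ∨ r x y} ⊆ u ∪ v → x ∈ u →
      (C ∩ {y | y = x ∨ r x y} ∩ v).Nonempty →
      (C ∩ {y | y = x ∨ r x y} ∩ (u ∩ v)).Nonempty := by
    intro u v hu hv hcov hxu ⟨b, hb, hbv⟩
    by_cases hxv : x ∈ v
    · exact ⟨x, ⟨hx, Or.inl rfl⟩, hxu, hxv⟩
    obtain ⟨y, hy, a, c⟩ := hC (u ∪ {w | r w x}) (v ∩ {w | r x w}) (hu.union (h.dn x))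
      (hv.inter (h.up x)) (fun w hw => by
        by_cases e : w = x ∨ r x w
        · rcases hcov ⟨hw, e⟩ with e' | e'
          · exact Or.inl (Or.inl e')
          · exact Or.inr ⟨e', e.resolve_left fun e'' => hxv (e'' ▸ e')⟩
        · exact Or.inl (Or.inr ((h.not_ge x w).1 e))) ⟨x, hx, Or.inl hxu⟩
      ⟨b, hb.1, hbv, hb.2.resolve_left fun e => hxv (e ▸ hbv)⟩
    exact ⟨y, ⟨hy, Or.inr c.2⟩, a.resolve_right fun e => h.asy _ _ e c.2, c.1⟩
  intro u v hu hv hcov h1 h2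
  rcases hcov ⟨hx, Or.inl rfl⟩ with e | e
  · exact key u v hu hv hcov e h2
  · rw [inter_comm u v]
    exact key v u hv hu (by rwa [union_comm]) e h1

theorem Tour.trans (h : Tour r) {C : Set X} (hC : IsPreconnected C) {a b c : X}
    (hb : b ∈ C) (hc : c ∈ C) (h1 : r a b) (h2 : r b c) : r a c :=
  h.side (h.up_pre hC hb) (fun e => (h.not_ge b a).2 h1 e.2) ⟨hb, Or.inl rfl⟩ ⟨hc, Or.inr h2⟩ h1

theorem kf_no_max (h : Tour r) {C : Set X} (hC : IsPreconnected C) (hc : IsClosed C)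
    (hne : C.Nonempty) (hm : ∀ c ∈ C, ∃ c' ∈ C, r c c') : KF X := by
  obtain ⟨c0, hc0⟩ := hne
  have hA : ∀ x c, c ∈ C → r x c → x ∈ C ∨ ∀ c ∈ C, r x c := fun x c hcC e =>
    or_iff_not_imp_left.2 fun hx c' hc' => h.side hC hx hcC hc' e
  refine kf_glue h (A := {x | x ∈ C ∨ ∀ c ∈ C, r x c}) (isOpen_iff_mem_nhds.2 fun x hx => ?_)
    (isOpen_iff_mem_nhds.2 fun x hx => ?_) ⟨c0, Or.inl hc0⟩ fun z hz => ?_
  · obtain ⟨c, a, b⟩ : ∃ c ∈ C, r x c := hx.elim (hm x) fun e => ⟨c0, hc0, e c0 hc0⟩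
    filter_upwards [(h.dn c).mem_nhds b] with y hy using hA y c a hy
  · have hxC : x ∉ C := fun e => hx (Or.inl e)
    have : r c0 x := (h.tot c0 x fun e => hxC (e ▸ hc0)).resolve_right fun e => hx (hA x c0 hc0 e)
    filter_upwards [hc.isOpen_compl.mem_nhds hxC, (h.up c0).mem_nhds this] with y a b
    rintro (e | e)
    · exact a e
    · exact h.asy _ _ b (e c0 hc0)
  · obtain ⟨c, a, b⟩ : ∃ c ∈ C, r z c := hz.elim (hm z) fun e => ⟨c0, hc0, e c0 hc0⟩
    refine ⟨c, Or.inl a, fun y hy e => ?_⟩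
    rcases e with e | e
    · rw [e]; exact b
    · rcases hy with hy | hy
      · rcases hz with hz | hz
        · exact h.trans hC hz a e b
        · exact (h.asy _ _ e (hz y hy)).elim
      · exact hy c a

theorem FC.union {K K' : Set X} (h : FC K) (h' : FC K') : FC (K ∪ K') := by
  have key : ∀ (L : Set X) (O : ℕ → Set X), FC L → L ⊆ K ∪ K' → (∀ n, IsOpen (O n)) →
      (∃ᶠ n in atTop, (O n ∩ L).Nonempty) →
      ∃ p ∈ K ∪ K', ∀ N ∈ 𝓝 p, ∀ m, ∃ n ≥ m, (N ∩ O n ∩ (K ∪ K')).Nonempty := by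
    intro L O hL hs hO hf
    obtain ⟨φ, h1, h2⟩ := extraction_of_frequently_atTop hf
    obtain ⟨p, hp, hc⟩ := hL (fun k => O (φ k)) fun k => ⟨hO _, h2 k⟩
    refine ⟨p, hs hp, fun N hN m => ?_⟩
    obtain ⟨n, hn, y, hy⟩ := hc N hN m
    exact ⟨φ n, hn.trans (h1.id_le n), y, hy.1, hs hy.2⟩
  intro O hO
  by_cases c : ∃ᶠ n in atTop, (O n ∩ K).Nonempty
  · exact key K O h subset_union_left (fun n => (hO n).1) c
  · refine key K' O h' subset_union_right (fun n => (hO n).1) ((not_frequently.1 c).mono fun n hn => ?_).frequently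
    obtain ⟨y, a, b | b⟩ := (hO n).2
    · exact (hn ⟨y, a, b⟩).elim
    · exact ⟨y, a, b⟩

def CUT (r : X → X → Prop) : Prop := ∀ x : X, ∀ O ∈ 𝓝 x,
  (∃ E ⊆ O, IsPreconnected E ∧ x ∈ E ∧ ∃ q ∈ E, r x q) ∨
  (∃ G : Set X, IsOpen G ∧ x ∈ G ∧ G ⊆ O ∧ IsClosed (G ∩ {y | y = x ∨ r x y}))

theorem cut [RegularSpace X] (h : Tour r) (hl : LC r)
    (hloc : ∀ x : X, ∃ K ∈ 𝓝 x, FC K) : CUT r := by
  intro x O hO
  obtain ⟨K0, hK0, hF⟩ := hloc x
  obtain ⟨K, k1, k2, k3⟩ := exists_mem_nhds_isClosed_subset (inter_mem hO (interior_mem_nhds.2 hK0))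
  obtain ⟨K1, m1, m2, m3⟩ := exists_mem_nhds_isClosed_subset (interior_mem_nhds.2 k1)
  set F := K ∩ {y | y = x ∨ r x y} with hFd
  have hFc : IsClosed F := k2.inter (h.ge_closed x)
  have hxF : x ∈ F := ⟨mem_of_mem_nhds k1, Or.inl rfl⟩
  by_cases hq : ∃ q ∈ F, r x q ∧ ∀ G : Set X, IsOpen G → IsClosed (G ∩ F) → x ∈ G → q ∈ G
  · obtain ⟨q, hqF, hxq, hq⟩ := hq
    have hI : IsClosed (F ∩ {y | y = q ∨ r y q}) := hFc.inter (h.rev.ge_closed q)
    refine Or.inl ⟨F ∩ {y | y = q ∨ r y q}, fun y hy => (k3 hy.1.1).1, ?_, ⟨hxF, Or.inr hxq⟩, q,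
      ⟨hqF, Or.inl rfl⟩, hxq⟩
    have key : ∀ u v : Set X, IsOpen u → IsOpen v → F ∩ {y | y = q ∨ r y q} ⊆ u ∪ v → x ∈ u →
        (F ∩ {y | y = q ∨ r y q} ∩ v).Nonempty →
        (F ∩ {y | y = q ∨ r y q} ∩ (u ∩ v)).Nonempty := by
      intro u v hu hv hcov hxu ⟨b, hb, hbv⟩
      by_contra hn
      have hd : ∀ y ∈ F, (y = q ∨ r y q) → y ∈ u → y ∉ v := fun y a c d e => hn ⟨y, ⟨a, c⟩, d, e⟩
      have hxv : x ∉ v := hd x hxF (Or.inr hxq) hxu
      by_cases hqv : q ∈ v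
      · have : u ∩ {y | r y q} ∩ F = F ∩ {y | y = q ∨ r y q} ∩ vᶜ := by
          ext y
          constructor
          · rintro ⟨⟨a, c⟩, d⟩
            exact ⟨⟨d, Or.inr c⟩, hd y d (Or.inr c) a⟩
          · rintro ⟨a, c⟩
            exact ⟨⟨(hcov a).resolve_right c, a.2.resolve_left fun e => c (e ▸ hqv)⟩, a.1⟩
        exact h.irr q (hq _ (hu.inter (h.dn q)) (this ▸ hI.inter hv.isClosed_compl) ⟨hxu, hxq⟩).2
      · have hbq : r b q := hb.2.resolve_left fun e => hqv (e ▸ hbv)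
        have hxb : r x b := hb.1.2.resolve_left fun e => hxv (e ▸ hbv)
        have hbu : b ∉ u := fun e => hd b hb.1 hb.2 e hbv
        have : (u ∪ {y | r q y}) ∩ {y | r y b} ∩ F =
            F ∩ {y | y = b ∨ r y b} ∩ (v ∩ {y | r y q})ᶜ := by
          ext y
          constructor
          · rintro ⟨⟨a, c⟩, d⟩
            refine ⟨⟨d, Or.inr c⟩, fun e => ?_⟩
            rcases a with a | a
            · exact hd y d (Or.inr e.2) a e.1
            · exact h.asy _ _ a e.2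
          · rintro ⟨a, c⟩
            have hyb : r y b := a.2.resolve_left fun e => c (e ▸ ⟨hbv, hbq⟩)
            refine ⟨⟨?_, hyb⟩, a.1⟩
            by_cases e : y = q ∨ r y q
            · refine Or.inl ((hcov ⟨a.1, e⟩).resolve_right fun e' => ?_)
              rcases e with e | e
              · exact hqv (e ▸ e')
              · exact c ⟨e', e⟩
            · exact Or.inr ((h.rev.not_ge q y).1 e)
        exact h.asy _ _ hbq (hq _ ((hu.union (h.up q)).inter (h.dn b))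
          (this ▸ (hFc.inter (h.rev.ge_closed b)).inter (hv.inter (h.dn q)).isClosed_compl)
          ⟨Or.inl hxu, hxb⟩).2
    intro u v hu hv hcov h1 h2
    rcases hcov ⟨hxF, Or.inr hxq⟩ with e | e
    · exact key u v hu hv hcov e h2
    · rw [inter_comm u v]
      exact key v u hv hu (by rwa [union_comm]) e h1
  · right
    have hS : FC (closure (interior K0 \ K1)) :=
      hF.closure (isOpen_interior.sdiff m2) fun y hy => interior_subset hy.1
    have hxS : x ∉ closure (interior K0 \ K1) := fun e => by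
      obtain ⟨y, a, b⟩ := mem_closure_iff_nhds.1 e _ m1
      exact b.2 a
    have hN := hl _ isClosed_closure hS x hxS
    by_cases hd : ∃ d ∈ F, r x d ∧ ∀ y ∈ closure (interior K0 \ K1), (r d y ↔ r x y)
    · obtain ⟨d, d1, d2, d3⟩ := hd
      have : ∃ G : Set X, IsOpen G ∧ IsClosed (G ∩ F) ∧ x ∈ G ∧ d ∉ G := by
        by_contra hn
        refine hq ⟨d, d1, d2, fun G a b c => ?_⟩
        by_contra e
        exact hn ⟨G, a, b, c, e⟩
      obtain ⟨G, g1, g2, g3, g4⟩ := this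
      refine ⟨G ∩ {y | r y d} ∩ interior K, (g1.inter (h.dn d)).inter isOpen_interior,
        ⟨⟨g3, d2⟩, mem_interior_iff_mem_nhds.2 k1⟩, fun y hy => (k3 (interior_subset hy.2)).1, ?_⟩
      convert g2.inter (h.rev.ge_closed d) using 1
      ext y
      constructor
      · rintro ⟨⟨⟨a, b⟩, c⟩, e⟩
        exact ⟨⟨a, interior_subset c, e⟩, Or.inr b⟩
      · rintro ⟨⟨a, b, c⟩, e⟩
        have hyd : r y d := e.resolve_left fun e' => g4 (e' ▸ a)
        refine ⟨⟨⟨a, hyd⟩, ?_⟩, c⟩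
        by_contra hy
        have hy1 : y ∉ K1 := fun e' => hy (m3 e')
        have hyS : y ∈ closure (interior K0 \ K1) := subset_closure ⟨(k3 b).2, hy1⟩
        have : r x y := c.resolve_left fun e' => hxS (e' ▸ hyS)
        exact h.asy _ _ hyd ((d3 y hyS).2 this)
    · obtain ⟨G, g1, g2, g3⟩ := mem_nhds_iff.1 (inter_mem hN k1)
      refine ⟨G, g2, g3, fun y hy => (k3 (g1 hy).2).1, ?_⟩
      convert (h.ge_closed x).inter (h.rev.ge_closed x) using 1
      ext y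
      constructor
      · rintro ⟨a, b⟩
        refine ⟨b, Or.inl (b.resolve_right fun e => hd ⟨y, ⟨(g1 a).2, b⟩, e, (g1 a).1⟩)⟩
      · rintro ⟨a, b | b⟩
        · exact ⟨b ▸ g3, a⟩
        · exact ((h.not_ge x y).2 b a).elim

theorem CUT.step (h : Tour r) (hc : CUT r) {x m : X} {O : Set X} (hO : O ∈ 𝓝 x)
    (hm : m ∈ connectedComponent x) (hxm : r x m) :
    ∃ q ∈ connectedComponent x, r x q ∧ ∀ y, r x y → r y q → y ∈ O := by
  rcases hc x _ (inter_mem hO ((h.dn m).mem_nhds hxm)) with ⟨E, e1, e2, e3, q, e4, e5⟩ |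
    ⟨G, g1, g2, g3, g4⟩
  · refine ⟨q, e2.subset_connectedComponent e3 e4, e5, fun y a b => (e1 ?_).1⟩
    by_contra hy
    exact h.asy _ _ a (h.side e2 hy e4 e3 b)
  · exfalso
    obtain ⟨y, -, a, b⟩ := isPreconnected_connectedComponent (x := x) (G ∪ {y | r y x})
      ({y | r x y} ∩ (G ∩ {y | y = x ∨ r x y})ᶜ) (g1.union (h.dn x))
      ((h.up x).inter g4.isOpen_compl) (fun w _ => by
        by_cases e : w = x ∨ r x w
        · by_cases e' : w ∈ G
          · exact Or.inl (Or.inl e')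
          · exact Or.inr ⟨e.resolve_left fun e'' => e' (e'' ▸ g2), fun c => e' c.1⟩
        · exact Or.inl (Or.inr ((h.not_ge x w).1 e)))
      ⟨x, mem_connectedComponent, Or.inl g2⟩
      ⟨m, hm, hxm, fun c => h.irr m (g3 c.1).2⟩
    rcases a with a | a
    · exact b.2 ⟨a, Or.inr b.1⟩
    · exact h.asy _ _ a b.1

theorem kf_main [RegularSpace X] (h : Tour r) (hl : LC r)
    (hloc : ∀ x : X, ∃ K ∈ 𝓝 x, FC K) (hnc : ¬ CompactSpace X) : KF X := by
  by_contra hkf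
  refine hkf (cover_case h hl (fun x0 => ?_) hnc)
  have c1 := cut h hl hloc
  have c2 := cut h.rev (hl.rev h) hloc
  set C := connectedComponent x0 with hCd
  have hC : IsPreconnected C := isPreconnected_connectedComponent
  have hCc : IsClosed C := isClosed_connectedComponent
  have hx0 : x0 ∈ C := mem_connectedComponent
  have hce : ∀ x ∈ C, connectedComponent x = C := fun x hx => (connectedComponent_eq hx).symm
  obtain ⟨M, hM, hM'⟩ : ∃ M ∈ C, ∀ c ∈ C, ¬ r M c := by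
    by_contra hn
    push Not at hn
    exact hkf (kf_no_max h hC hCc ⟨x0, hx0⟩ hn)
  obtain ⟨l, hl0, hl'⟩ : ∃ l ∈ C, ∀ c ∈ C, ¬ r c l := by
    by_contra hn
    push Not at hn
    exact hkf (kf_no_max h.rev hC hCc ⟨x0, hx0⟩ hn)
  let S : Set X := {x | ∃ K, FC K ∧ ∀ y ∈ C, (y = x ∨ r y x) → y ∈ interior K}
  have hlS : l ∈ S := by
    obtain ⟨K, a, b⟩ := hloc l
    refine ⟨K, b, fun y hy e => ?_⟩
    rw [e.resolve_right (hl' y hy)]
    exact mem_interior_iff_mem_nhds.2 a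
  have hMS : M ∈ S := by
    by_contra hMS
    have o1 : ∀ x ∈ C, x ∈ S → ∃ G, IsOpen G ∧ x ∈ G ∧ ∀ y ∈ C, y ∈ G → y ∈ S := by
      rintro x hx ⟨K, a, b⟩
      have hxM : r x M := (h.tot x M fun e => hMS (e ▸ ⟨K, a, b⟩)).resolve_right (hM' x hx)
      obtain ⟨q, q1, q2, q3⟩ := c1.step h (isOpen_interior.mem_nhds (b x hx (Or.inl rfl)))
        (by rw [hce x hx]; exact hM) hxM
      rw [hce x hx] at q1
      refine ⟨_, h.dn q, q2, fun y hy hyq => ⟨K, a, fun w hw e => ?_⟩⟩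
      by_cases e' : w = x ∨ r w x
      · exact b w hw e'
      · refine q3 w ((h.rev.not_ge x w).1 e') ?_
        rcases e with e | e
        · rw [e]; exact hyq
        · exact h.trans hC hy q1 e hyq
    have o2 : ∀ x ∈ C, x ∉ S → ∃ G, IsOpen G ∧ x ∈ G ∧ ∀ y ∈ C, y ∈ G → y ∉ S := by
      intro x hx hxS
      have hlx : r l x := (h.tot l x fun e => hxS (e ▸ hlS)).resolve_right (hl' x hx)
      obtain ⟨K', a', b'⟩ := hloc x
      obtain ⟨p, q1, q2, q3⟩ := c2.step h.rev (interior_mem_nhds.2 a')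
        (by rw [hce x hx]; exact hl0) hlx
      rw [hce x hx] at q1
      refine ⟨_, h.up p, q2, ?_⟩
      rintro y hy hpy ⟨K, a, b⟩
      refine hxS ⟨K ∪ K', a.union b', fun w hw e => ?_⟩
      by_cases e' : w = y ∨ r w y
      · exact interior_mono subset_union_left (b w hw e')
      · refine interior_mono subset_union_right ?_
        rcases e with e | e
        · rw [e]; exact mem_interior_iff_mem_nhds.2 a'
        · exact q3 w e (h.trans hC hy hw hpy ((h.rev.not_ge y w).1 e'))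
    choose! G1 g1 g2 g3 using o1
    choose! G2 g4 g5 g6 using o2
    obtain ⟨y, hy, a, b⟩ := hC (⋃ x ∈ C ∩ S, G1 x) (⋃ x ∈ C \ S, G2 x)
      (isOpen_biUnion fun x hx => g1 x hx.1 hx.2) (isOpen_biUnion fun x hx => g4 x hx.1 hx.2)
      (fun w hw => by
        by_cases e : w ∈ S
        · exact Or.inl (mem_biUnion (x := w) ⟨hw, e⟩ (g2 w hw e))
        · exact Or.inr (mem_biUnion (x := w) ⟨hw, e⟩ (g5 w hw e)))
      ⟨l, hl0, mem_biUnion (x := l) ⟨hl0, hlS⟩ (g2 l hl0 hlS)⟩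
      ⟨M, hM, mem_biUnion (x := M) ⟨hM, hMS⟩ (g5 M hM hMS)⟩
    obtain ⟨x1, e1, e2⟩ := mem_iUnion₂.1 a
    obtain ⟨x2, e3, e4⟩ := mem_iUnion₂.1 b
    exact g6 x2 e3.1 e3.2 y hy e4 (g3 x1 e1.1 e1.2 y hy e2)
  obtain ⟨K, hK, hK'⟩ := hMS
  have hle : ∀ y ∈ C, y = M ∨ r y M := fun y hy =>
    or_iff_not_imp_left.2 fun e => (h.tot y M e).resolve_right (hM' y hy)
  have hge : ∀ y ∈ C, y = l ∨ r l y := fun y hy =>
    or_iff_not_imp_left.2 fun e => (h.tot y l e).resolve_left (hl' y hy)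
  have hCK : C ⊆ interior K := fun y hy => hK' y hy (hle y hy)
  rcases c1 M _ (isOpen_interior.mem_nhds (hCK hM)) with ⟨E, -, e2, e3, q, e4, e5⟩ |
    ⟨G, g1, g2, g3, g4⟩
  · exact (hM' q (hce M hM ▸ e2.subset_connectedComponent e3 e4) e5).elim
  rcases c2 l _ (isOpen_interior.mem_nhds (hCK hl0)) with ⟨E, -, e2, e3, q, e4, e5⟩ |
    ⟨G', k1, k2, k3, k4⟩
  · exact (hl' q (hce l hl0 ▸ e2.subset_connectedComponent e3 e4) e5).elim
  have hV : (G ∪ {y | r y M}) ∩ (G' ∪ {y | r l y}) =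
      C ∪ (G ∩ {y | y = M ∨ r M y}) ∪ (G' ∩ {y | y = l ∨ r y l}) := by
    ext w
    have hin : w ∈ C → w ∈ (G ∪ {y | r y M}) ∩ (G' ∪ {y | r l y}) := fun hw =>
      ⟨(hle w hw).elim (fun e => Or.inl (by rw [e]; exact g2)) Or.inr,
        (hge w hw).elim (fun e => Or.inl (by rw [e]; exact k2)) Or.inr⟩
    by_cases hw : w ∈ C
    · exact ⟨fun _ => Or.inl (Or.inl hw), fun _ => hin hw⟩
    rcases h.tot w M (fun e => hw (e ▸ hM)) with e | e
    · have e' := h.side hC hw hM hl0 e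
      constructor
      · rintro ⟨-, b⟩
        exact Or.inr ⟨b.resolve_right (h.asy _ _ e'), Or.inr e'⟩
      · rintro ((a | a) | a)
        · exact hin a
        · exact ((h.not_ge M w).2 e a.2).elim
        · exact ⟨Or.inr e, Or.inl a.1⟩
    · have e' : r l w := h.rev.side hC hw hM hl0 e
      constructor
      · rintro ⟨b, -⟩
        exact Or.inl (Or.inr ⟨b.resolve_right (h.asy _ _ e), Or.inr e⟩)
      · rintro ((a | a) | a)
        · exact hin a
        · exact ⟨Or.inl a.1, Or.inr e'⟩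
        · exact ((h.rev.not_ge l w).2 e' a.2).elim
  have ho : IsOpen (C ∪ (G ∩ {y | y = M ∨ r M y}) ∪ (G' ∩ {y | y = l ∨ r y l})) :=
    hV ▸ (g1.union (h.dn M)).inter (k1.union (h.up l))
  have hcl : IsClosed (C ∪ (G ∩ {y | y = M ∨ r M y}) ∪ (G' ∩ {y | y = l ∨ r y l})) :=
    (hCc.union g4).union k4
  refine ⟨_, ⟨hcl, ho⟩, ?_, Or.inl (Or.inl hx0)⟩
  rw [← hcl.closure_eq]
  refine hK.closure ho fun w hw => interior_subset ?_
  rcases hw with (a | a) | a
  · exact hCK a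
  · exact g3 a.1
  · exact k3 a.1

end Pool.Agent.H82.KingA
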