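import Pool.Agent.H82.KingB

set_option autoImplicit false

namespace Pool.Agent.H82.KingA

open Set Filter Topology

variable {X : Type*} [TopologicalSpace X] {r : X → X → Prop}

theorem Tour.box (h : Tour r) {a b : X} (c : r a b) :
    ∃ U V : Set X, IsOpen U ∧ IsOpen V ∧ a ∈ U ∧ b ∈ V ∧ ∀ x ∈ U, ∀ y ∈ V, r x y := by
  obtain ⟨U, V, h1, h2, h3, h4, h5⟩ := isOpen_prod_iff.1 h.opn a b c
  exact ⟨U, V, h1, h2, h3, h4, fun x hx y hy => h5 (mk_mem_prod hx hy)⟩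

theorem half_step (h : Tour r) {M : Set X} (hM : FC M) {T : ℕ → Set X} {P : ℕ → Prop}
    (hT : ∀ n, IsOpen (T n) ∧ T n ⊆ M) {x : X} {B : Set X} (hB : IsOpen B) (hx : x ∈ B)
    (hf : ∃ᶠ n in atTop, P n ∧ Disjoint B (T n) ∧ (T n ∩ {y | r x y}).Nonempty) :
    ∃ B' N : Set X, IsOpen B' ∧ IsOpen N ∧ x ∈ B' ∧ B' ⊆ B ∧ (∀ a ∈ B', ∀ b ∈ N, r a b) ∧
      ∃ᶠ n in atTop, P n ∧ (T n ∩ N).Nonempty := by
  obtain ⟨φ, h1, h2⟩ := extraction_of_frequently_atTop hf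
  obtain ⟨p, -, hp⟩ := hM (fun k => T (φ k) ∩ {y | r x y}) fun k =>
    ⟨(hT _).1.inter (h.up x), by
      obtain ⟨y, hy⟩ := (h2 k).2.2
      exact ⟨y, hy, (hT _).2 hy.1⟩⟩
  have hxp : r x p := by
    by_contra hn
    by_cases e : x = p
    · obtain ⟨n, -, y, hy⟩ := hp B (hB.mem_nhds (e ▸ hx)) 0
      exact Set.disjoint_left.1 (h2 n).2.1 hy.1.1 hy.1.2.1
    · obtain ⟨n, -, y, hy⟩ := hp _ ((h.dn x).mem_nhds ((h.tot x p e).resolve_left hn)) 0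
      exact h.asy _ _ hy.1.1 hy.1.2.2
  obtain ⟨U, V, u1, u2, u3, u4, u5⟩ := h.box hxp
  refine ⟨U ∩ B, V, u1.inter hB, u2, ⟨u3, hx⟩, inter_subset_right,
    fun a ha b hb => u5 a ha.1 b hb, frequently_atTop.2 fun m => ?_⟩
  obtain ⟨n, hn, y, hy⟩ := hp V (u2.mem_nhds u4) m
  exact ⟨φ n, hn.trans (h1.id_le n), (h2 n).1, y, hy.1.2.1, hy.1.1⟩

theorem mono_conv (h : Tour r) {M : Set X} (hM : FC M) {B : ℕ → Set X}
    (hB : ∀ n, IsOpen (B n) ∧ (B n).Nonempty ∧ B n ⊆ M)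
    (hm : ∀ j k, j < k → ∀ a ∈ B j, ∀ b ∈ B k, r a b) :
    ∃ w ∈ M, ∀ N ∈ 𝓝 w, ∀ᶠ k in atTop, (N ∩ B k).Nonempty := by
  have ne : ∀ n, (B n ∩ M).Nonempty := fun n => by
    obtain ⟨y, hy⟩ := (hB n).2.1
    exact ⟨y, hy, (hB n).2.2 hy⟩
  have uniq : ∀ p q : X, (∀ N ∈ 𝓝 p, ∀ m, ∃ n ≥ m, (N ∩ B n).Nonempty) →
      (∀ N ∈ 𝓝 q, ∀ m, ∃ n ≥ m, (N ∩ B n).Nonempty) → ¬ r p q := by
    intro p q hp hq c
    obtain ⟨U, V, u1, u2, u3, u4, u5⟩ := h.box c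
    obtain ⟨j, -, a, ha⟩ := hq V (u2.mem_nhds u4) 0
    obtain ⟨k, hk, b, hb⟩ := hp U (u1.mem_nhds u3) (j + 1)
    exact h.asy _ _ (u5 b hb.1 a ha.1) (hm j k hk a ha.2 b hb.2)
  obtain ⟨w, hw, hc⟩ := hM B fun n => ⟨(hB n).1, ne n⟩
  have hc' : ∀ N ∈ 𝓝 w, ∀ m, ∃ n ≥ m, (N ∩ B n).Nonempty := fun N hN m => by
    obtain ⟨n, hn, y, hy⟩ := hc N hN m
    exact ⟨n, hn, y, hy.1⟩
  refine ⟨w, hw, fun N hN => ?_⟩
  by_contra hn
  obtain ⟨φ, h1, h2⟩ := extraction_of_frequently_atTop (not_eventually.1 hn)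
  obtain ⟨w', -, hd⟩ := hM (fun k => B (φ k)) fun k => ⟨(hB _).1, ne _⟩
  have hd' : ∀ N ∈ 𝓝 w', ∀ m, ∃ n ≥ m, (N ∩ B n).Nonempty := fun N hN m => by
    obtain ⟨n, hn, y, hy⟩ := hd N hN m
    exact ⟨φ n, hn.trans (h1.id_le n), y, hy.1⟩
  have : w ≠ w' := fun e => by
    obtain ⟨n, -, y, hy⟩ := hd N (e ▸ hN) 0
    exact h2 n ⟨y, hy.1⟩
  rcases h.tot w w' this with c | c
  · exact uniq _ _ hc' hd' c
  · exact uniq _ _ hd' hc' c

theorem gfs (h : Tour r) {M : Set X} (hM : FC M) {V : ℕ → Set X}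
    (hV : ∀ n, IsOpen (V n) ∧ (V n).Nonempty ∧ V n ⊆ M)
    (hd : ∀ j k, j < k → Disjoint (V j) (V k)) :
    ∃ φ : ℕ → ℕ, StrictMono φ ∧ ∃ w ∈ M, ∀ N ∈ 𝓝 w, ∀ᶠ k in atTop, (N ∩ V (φ k)).Nonempty := by
  let St := {s : ℕ × Set X // IsOpen s.2 ∧ ∃ᶠ n in atTop, (V n ∩ s.2).Nonempty}
  have step : ∀ s : St, ∃ (s' : St) (a : ℕ) (B : Set X) (b : Bool), s.1.1 ≤ a ∧ a < s'.1.1 ∧
      s'.1.2 ⊆ s.1.2 ∧ IsOpen B ∧ B.Nonempty ∧ B ⊆ V a ∩ s.1.2 ∧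
      ∀ x ∈ B, ∀ y ∈ s'.1.2, (if b then r x y else r y x) := by
    rintro ⟨⟨m, N⟩, hN, hf⟩
    obtain ⟨a, ha, x, hx⟩ := frequently_atTop.1 hf m
    have hT : ∀ n, IsOpen (V n ∩ N) ∧ V n ∩ N ⊆ M := fun n =>
      ⟨(hV n).1.inter hN, fun y hy => (hV n).2.2 hy.1⟩
    have : (∃ᶠ n in atTop, True ∧ Disjoint (V a ∩ N) (V n ∩ N) ∧ (V n ∩ N ∩ {y | r x y}).Nonempty) ∨
        (∃ᶠ n in atTop, True ∧ Disjoint (V a ∩ N) (V n ∩ N) ∧ (V n ∩ N ∩ {y | r y x}).Nonempty) := by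
      rw [← frequently_or_distrib]
      refine (hf.and_eventually (eventually_gt_atTop a)).mono ?_
      rintro n ⟨⟨y, hy⟩, hn⟩
      have hdj : Disjoint (V a ∩ N) (V n ∩ N) :=
        (hd a n hn).mono inter_subset_left inter_subset_left
      have : x ≠ y := fun e => Set.disjoint_left.1 hdj hx (e ▸ hy)
      exact (h.tot x y this).imp (fun c => ⟨trivial, hdj, y, hy, c⟩) fun c => ⟨trivial, hdj, y, hy, c⟩
    rcases this with c | c
    · obtain ⟨B, N', b1, b2, b3, b4, b5, b6⟩ := half_step h hM hT (hT a).1 hx c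
      exact ⟨⟨(a + 1, N ∩ N'), hN.inter b2, b6.mono fun n hn => by
        rw [← inter_assoc]; exact hn.2⟩, a, B, true, ha, Nat.lt_succ_self a, inter_subset_left, b1,
        ⟨x, b3⟩, b4, fun u hu v hv => by simpa using b5 u hu v hv.2⟩
    · obtain ⟨B, N', b1, b2, b3, b4, b5, b6⟩ := half_step h.rev hM hT (hT a).1 hx c
      exact ⟨⟨(a + 1, N ∩ N'), hN.inter b2, b6.mono fun n hn => by
        rw [← inter_assoc]; exact hn.2⟩, a, B, false, ha, Nat.lt_succ_self a, inter_subset_left, b1,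
        ⟨x, b3⟩, b4, fun u hu v hv => by simpa using b5 u hu v hv.2⟩
  choose nx a B b s1 s2 s3 s4 s5 s6 s7 using step
  let s0 : St := ⟨(0, univ), isOpen_univ, Frequently.of_forall fun n => by
    rw [inter_univ]; exact (hV n).2.1⟩
  let s : ℕ → St := fun n => nx^[n] s0
  have hs : ∀ n, s (n + 1) = nx (s n) := fun n => Function.iterate_succ_apply' nx n s0
  have hanti : Antitone fun n => (s n).1.2 := antitone_nat_of_succ_le fun n => by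
    rw [hs]; exact s3 _
  have hφ : StrictMono fun n => a (s n) := strictMono_nat_of_lt_succ fun n =>
    (s2 (s n)).trans_le (by rw [← hs]; exact s1 _)
  have hrel : ∀ j k, j < k → ∀ x ∈ B (s j), ∀ y ∈ B (s k), (if b (s j) then r x y else r y x) :=
    fun j k hjk x hx y hy => s7 _ x hx y (by rw [← hs]; exact hanti hjk (s6 _ hy).2)
  have hB : ∀ n, IsOpen (B (s n)) ∧ (B (s n)).Nonempty ∧ B (s n) ⊆ M := fun n =>
    ⟨s4 _, s5 _, fun y hy => (hV _).2.2 (s6 _ hy).1⟩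
  have : (∃ᶠ n in atTop, b (s n) = true) ∨ (∃ᶠ n in atTop, b (s n) = false) := by
    rw [← frequently_or_distrib]
    exact Frequently.of_forall fun n => by cases b (s n) <;> simp
  rcases this with c | c
  · obtain ⟨ψ, p1, p2⟩ := extraction_of_frequently_atTop c
    obtain ⟨w, hw, hc⟩ := mono_conv h hM (B := fun k => B (s (ψ k))) (fun k => hB _)
      fun j k hjk x hx y hy => by simpa [p2 j] using hrel _ _ (p1 hjk) x hx y hy
    exact ⟨_, hφ.comp p1, w, hw, fun N hN => (hc N hN).mono fun k ⟨y, hy⟩ =>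
      ⟨y, hy.1, (s6 _ hy.2).1⟩⟩
  · obtain ⟨ψ, p1, p2⟩ := extraction_of_frequently_atTop c
    obtain ⟨w, hw, hc⟩ := mono_conv h.rev hM (B := fun k => B (s (ψ k))) (fun k => hB _)
      fun j k hjk x hx y hy => by simpa [p2 j] using hrel _ _ (p1 hjk) x hx y hy
    exact ⟨_, hφ.comp p1, w, hw, fun N hN => (hc N hN).mono fun k ⟨y, hy⟩ =>
      ⟨y, hy.1, (s6 _ hy.2).1⟩⟩

theorem Tour.box' (h : Tour r) {a b : X} (c : a ≠ b) :
    ∃ U V : Set X, IsOpen U ∧ IsOpen V ∧ a ∈ U ∧ b ∈ V ∧ ∀ x ∈ U, ∀ y ∈ V, (r x y ↔ r a b) := by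
  rcases h.tot a b c with e | e
  · obtain ⟨U, V, h1, h2, h3, h4, h5⟩ := h.box e
    exact ⟨U, V, h1, h2, h3, h4, fun x hx y hy => ⟨fun _ => e, fun _ => h5 x hx y hy⟩⟩
  · obtain ⟨U, V, h1, h2, h3, h4, h5⟩ := h.box e
    exact ⟨V, U, h2, h1, h4, h3, fun x hx y hy =>
      ⟨fun d => (h.asy _ _ d (h5 y hy x hx)).elim, fun d => (h.asy _ _ d e).elim⟩⟩

theorem lc [RegularSpace X] (h : Tour r) (hloc : ∀ x : X, ∃ K ∈ 𝓝 x, FC K) : LC r := by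
  intro L hL hF w0 hw0
  by_contra hn
  obtain ⟨K0, hK0, hF0⟩ := hloc w0
  obtain ⟨K, k1, k2, k3⟩ := exists_mem_nhds_isClosed_subset
    (inter_mem (hL.isOpen_compl.mem_nhds hw0) hK0)
  have hM : FC (closure (interior K)) :=
    hF0.closure isOpen_interior fun y hy => (k3 (interior_subset hy)).2
  have hML : ∀ w ∈ closure (interior K), w ∉ L := fun w hw =>
    (k3 (closure_minimal interior_subset k2 hw)).1
  let St := {W : Set X // IsOpen W ∧ w0 ∈ W ∧ W ⊆ interior K}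
  have step : ∀ s : St, ∃ (s' : St) (V U : Set X), s'.1 ⊆ s.1 ∧ IsOpen V ∧ V.Nonempty ∧ V ⊆ s.1 ∧
      IsOpen U ∧ (U ∩ L).Nonempty ∧ ∀ y ∈ U, ∀ a ∈ V, ∀ b ∈ s'.1, ¬ (r a y ↔ r b y) := by
    rintro ⟨W, w1, w2, w3⟩
    obtain ⟨w, hw, hw'⟩ := ((not_eventually.1 hn).and_eventually (w1.mem_nhds w2)).exists
    simp only [not_forall] at hw
    obtain ⟨y, hy, hy'⟩ := hw
    obtain ⟨V, U, a1, a2, a3, a4, a5⟩ := h.box' (a := w) (b := y)
      fun e => hML w (subset_closure (w3 hw')) (e ▸ hy)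
    obtain ⟨W', U', b1, b2, b3, b4, b5⟩ := h.box' (a := w0) (b := y) fun e => hw0 (e ▸ hy)
    refine ⟨⟨W ∩ W', w1.inter b1, ⟨w2, b3⟩, fun z hz => w3 hz.1⟩, V ∩ W, U ∩ U',
      inter_subset_left, a1.inter w1, ⟨w, a3, hw'⟩, inter_subset_right, a2.inter b2,
      ⟨y, ⟨a4, b4⟩, hy⟩, fun z hz a ha b hb => ?_⟩
    rw [a5 a ha.1 z hz.1, b5 b hb.2 z hz.2]
    exact hy'
  choose nx V U s1 s2 s3 s4 s5 s6 s7 using step
  let s0 : St := ⟨interior K, isOpen_interior, mem_interior_iff_mem_nhds.2 k1, Subset.rfl⟩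
  let s : ℕ → St := fun n => nx^[n] s0
  have hs : ∀ n, s (n + 1) = nx (s n) := fun n => Function.iterate_succ_apply' nx n s0
  have hanti : Antitone fun n => (s n).1 := antitone_nat_of_succ_le fun n => by
    rw [hs]; exact s1 _
  have hsub : ∀ j k, j < k → V (s k) ⊆ (nx (s j)).1 := fun j k hjk y hy => by
    rw [← hs]; exact hanti hjk (s4 _ hy)
  obtain ⟨φ, p1, w, hw, hc⟩ := gfs h hM (V := fun n => V (s n))
    (fun n => ⟨s2 _, s3 _, fun y hy => subset_closure ((s n).2.2.2 (s4 _ hy))⟩)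
    (fun j k hjk => Set.disjoint_left.2 fun a ha ha' => by
      obtain ⟨y, hy, -⟩ := s6 (s j)
      exact s7 _ y hy a ha a (hsub j k hjk ha') Iff.rfl)
  obtain ⟨y, hy, hd⟩ := hF (fun k => U (s (φ k))) fun k => ⟨s5 _, s6 _⟩
  obtain ⟨A, B, a1, a2, a3, a4, a5⟩ := h.box' (a := w) (b := y) fun e => hML w hw (e ▸ hy)
  obtain ⟨m, hm⟩ := eventually_atTop.1 (hc A (a1.mem_nhds a3))
  obtain ⟨n, hn', z, hz⟩ := hd B (a2.mem_nhds a4) m
  obtain ⟨u, hu⟩ := hm n hn'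
  obtain ⟨v, hv⟩ := hm (n + 1) (hn'.trans (Nat.le_succ n))
  refine s7 _ z hz.1.2 u hu.2 v (hsub _ _ (p1 (Nat.lt_succ_self n)) hv.2) ?_
  rw [a5 u hu.1 z hz.1.1, a5 v hv.1 z hz.1.1]

theorem fc_of_pseudo [CompletelyRegularSpace X] {L : Set X}
    (hL : ∀ f : L → ℝ, Continuous f → ∃ c, ∀ x, |f x| ≤ c) : FC L := by
  intro O hO
  by_contra hn
  push Not at hn
  choose x hx using fun n => (hO n).2
  have hf : ∀ n, ∃ f : X → unitInterval, Continuous f ∧ f (x n) = 0 ∧ EqOn f 1 (O n)ᶜ := fun n =>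
    CompletelyRegularSpace.completely_regular (x n) _ (hO n).1.isClosed_compl
      (fun e => e (hx n).1)
  choose f f1 f2 f3 using hf
  let g : ℕ → L → ℝ := fun n y => n * (1 - (f n y.1 : ℝ))
  have gc : ∀ n, Continuous (g n) := fun n =>
    continuous_const.mul (continuous_const.sub
      (continuous_subtype_val.comp ((f1 n).comp continuous_subtype_val)))
  have g0 : ∀ n y, 0 ≤ g n y := fun n y =>
    mul_nonneg (Nat.cast_nonneg n) (sub_nonneg.2 (f n y.1).2.2)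
  have hlf : LocallyFinite fun n => Function.support (g n) := by
    intro p
    obtain ⟨N, hN, m, hm⟩ := hn p.1 p.2
    refine ⟨Subtype.val ⁻¹' N, continuous_subtype_val.continuousAt hN,
      (Set.finite_lt_nat m).subset fun n hn' => ?_⟩
    obtain ⟨y, hy1, hy2⟩ := hn'
    by_contra hge
    have hyO : y.1 ∈ O n := by
      by_contra e
      apply hy1
      show (n : ℝ) * (1 - (f n y.1 : ℝ)) = 0
      rw [f3 n e]
      simp
    have := hm n (not_lt.1 hge)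
    exact (this ▸ (⟨⟨hy2, hyO⟩, y.2⟩ : y.1 ∈ N ∩ O n ∩ L) : y.1 ∈ (∅ : Set X))
  obtain ⟨c, hc⟩ := hL (fun y => ∑ᶠ n, g n y) (continuous_finsum gc hlf)
  obtain ⟨n, hn'⟩ := exists_nat_gt c
  have h1 : g n ⟨x n, (hx n).2⟩ = n := by
    show (n : ℝ) * (1 - (f n (x n) : ℝ)) = n
    rw [f2 n]
    simp
  have h2 : g n ⟨x n, (hx n).2⟩ ≤ ∑ᶠ k, g k ⟨x n, (hx n).2⟩ :=
    single_le_finsum n (hlf.point_finite ⟨x n, (hx n).2⟩) (fun k => g0 k _)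
  have h3 := (le_abs_self _).trans (hc ⟨x n, (hx n).2⟩)
  linarith

end Pool.Agent.H82.KingA
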