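import Pool.Agent.H82.LadA

set_option autoImplicit false

namespace Pool.Agent.H82.LadB

open Set Cardinal Order Pool.Agent.H82.LadA Topology

variable {W : Type} [LinearOrder W]

def le (r : W → W → Prop) (s t : W) : Prop := s = t ∨ r s t

/-- a tree order on a well order whose limit nodes are suprema of their predecessors -/
structure Tr (r : W → W → Prop) : Prop where
  lt : ∀ {s t}, r s t → s < t
  trans : ∀ {s t u}, r s t → r t u → r s u
  lin : ∀ {s t u}, r s u → r t u → s < t → r s t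
  sup : ∀ {t}, (∃ s, r s t) → (∀ s, r s t → ∃ s', r s s' ∧ r s' t) → ∀ x < t, ∃ s, r s t ∧ x ≤ s

variable {r : W → W → Prop}

lemma Tr.lin' (h : Tr r) {s t u : W} (h1 : le r s u) (h2 : le r t u) (h3 : s < t) : r s t := by
  rcases h2 with rfl | h2
  · exact h1.resolve_left h3.ne
  · rcases h1 with rfl | h1
    · exact absurd (h.lt h2) h3.asymm
    · exact h.lin h1 h2 h3

lemma Tr.le_le (h : Tr r) {s t : W} (h1 : le r s t) : s ≤ t := h1.elim le_of_eq fun h2 => (h.lt h2).le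

lemma Tr.le_trans (h : Tr r) {s t u : W} (h1 : le r s t) (h2 : le r t u) : le r s u := by
  rcases h1 with rfl | h1
  · exact h2
  · rcases h2 with rfl | h2
    exacts [Or.inr h1, Or.inr (h.trans h1 h2)]

lemma Tr.of_not (h : Tr r) {s p u : W} (h1 : le r s u) (h2 : le r p u) (h3 : ¬ le r s p) :
    r p s := by
  rcases lt_trichotomy s p with h4 | h4 | h4
  · exact absurd (Or.inr (h.lin' h1 h2 h4)) h3
  · exact absurd (Or.inl h4) h3
  · exact h.lin' h2 h1 h4

open Classical in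
noncomputable def cone (r : W → W → Prop) (s : W) : W → Bool := fun t => decide (le r s t)

omit [LinearOrder W] in
lemma cone_iff {s t : W} : cone r s t = true ↔ le r s t := by simp [cone]

def S (r : W → W → Prop) : Set (W → Bool) := insert (fun _ => false) (range (cone r))

omit [LinearOrder W] in
lemma near {A : Set (W → Bool)} {f : W → Bool} (hf : f ∈ closure A) (a b c : W) :
    ∃ g ∈ A, g a = f a ∧ g b = f b ∧ g c = f c := by
  have h : ∀ a, IsOpen {g : W → Bool | g a = f a} := fun a =>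
    (continuous_apply (A := fun _ : W => Bool) a).isOpen_preimage {f a} (isOpen_discrete _)
  obtain ⟨g, h1, h2⟩ := mem_closure_iff.1 hf _ ((h a).inter ((h b).inter (h c))) ⟨rfl, rfl, rfl⟩
  exact ⟨g, h2, h1⟩

omit [LinearOrder W] in
lemma of_true {g : W → Bool} (hg : g ∈ S r) {t : W} (ht : g t = true) :
    ∃ s, g = cone r s ∧ le r s t := by
  rcases hg with rfl | ⟨s, rfl⟩
  · simp at ht
  · exact ⟨s, rfl, cone_iff.1 ht⟩

variable [WellFoundedLT W]

lemma closed (h : Tr r) : IsClosed (S r) := by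
  refine isClosed_of_closure_subset fun f hf => ?_
  by_cases h0 : ∃ t, f t = true
  swap
  · exact Or.inl (funext fun t => by simpa using fun h1 => h0 ⟨t, h1⟩)
  obtain ⟨t, ht, h1⟩ := exmin h0
  refine Or.inr ⟨t, funext fun t' => Bool.eq_iff_iff.2 ⟨fun h2 => ?_, fun h2 => ?_⟩⟩
  · obtain ⟨g, hg, h3, h4, -⟩ := near hf t t' t
    obtain ⟨s, rfl, h5⟩ := of_true hg (h3.trans ht)
    exact h4 ▸ cone_iff.2 (h.le_trans h5 (cone_iff.1 h2))
  · rw [cone_iff]
    by_contra hn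
    have h3 : ∀ p, ∃ s, r s t ∧ le r s t' ∧ (p < t → ¬ le r s p) := by
      intro p
      obtain ⟨g, hg, h3, h4, h5⟩ := near hf t t' p
      obtain ⟨s, rfl, h6⟩ := of_true hg (h3.trans ht)
      have h7 := cone_iff.1 (h4.trans h2)
      exact ⟨s, h6.resolve_left fun h8 => hn (h8 ▸ h7), h7, fun h8 h9 =>
        h1 p h8 (h5 ▸ cone_iff.2 h9)⟩
    have h4 : ∀ p, r p t → ∃ s, r p s ∧ r s t ∧ le r s t' := fun p hp => by
      obtain ⟨s, h4, h5, h6⟩ := h3 p
      exact ⟨s, h.of_not (Or.inr h4) (Or.inr hp) (h6 (h.lt hp)), h4, h5⟩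
    obtain ⟨s0, h5, h6, -⟩ := h3 t
    have h7 := h.sup ⟨s0, h5⟩ fun p hp => let ⟨s, a, b, _⟩ := h4 p hp; ⟨s, a, b⟩
    obtain ⟨m, ⟨h8, h9⟩, h10⟩ := exmin (P := fun m => le r m t' ∧ t ≤ m)
      ⟨t', Or.inl rfl, not_lt.1 fun h8 => h1 t' h8 h2⟩
    have h11 : t < m := h9.lt_of_ne fun h11 => hn (h11 ▸ h8)
    have h12 : ∀ u, r u m → u < t := fun u hu => not_le.1 fun h12 =>
      h10 u (h.lt hu) ⟨h.le_trans (Or.inr hu) h8, h12⟩
    obtain ⟨u, h13, h14⟩ := h.sup ⟨s0, h.lin' h6 h8 ((h.lt h5).trans h11)⟩ (fun u hu => by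
      obtain ⟨p, h13, h14⟩ := h7 u (h12 u hu)
      obtain ⟨s, h15, h16, h17⟩ := h4 p h13
      exact ⟨s, h.lin' (h.le_trans (Or.inr hu) h8) h17 (h14.trans_lt (h.lt h15)),
        h.lin' h17 h8 ((h.lt h16).trans h11)⟩) t h11
    exact absurd (h12 u h13) (not_lt.2 h14)

lemma compact (h : Tr r) : CompactSpace (S r) :=
  isCompact_iff_compactSpace.1 (closed h).isCompact

noncomputable def pt (r : W → W → Prop) (s : W) : S r := ⟨cone r s, Or.inr ⟨s, rfl⟩⟩

omit [WellFoundedLT W] in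
lemma pt_inj (h : Tr r) : Function.Injective (pt r) := fun s t he => by
  have h1 : cone r s = cone r t := congrArg Subtype.val he
  exact le_antisymm (h.le_le (cone_iff.1 (h1 ▸ cone_iff.2 (Or.inl rfl))))
    (h.le_le (cone_iff.1 (h1 ▸ cone_iff.2 (Or.inl rfl))))

lemma card_closure (h : Tr r) (A : Set (S r)) : #(closure A) ≤ max #A ℵ₀ := by
  have h1 : closure A ⊆ insert ⟨_, Or.inl rfl⟩ (A ∪ pt r '' lim (pt r ⁻¹' A)) := by
    rintro ⟨f, rfl | ⟨t, rfl⟩⟩ hf
    · exact Or.inl rfl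
    by_cases hA : pt r t ∈ A
    · exact Or.inr (Or.inl hA)
    refine Or.inr (Or.inr ⟨t, ?_, rfl⟩)
    have h3 : ∀ p, ∃ s ∈ pt r ⁻¹' A, r s t ∧ (p < t → ¬ le r s p) := by
      intro p
      obtain ⟨_, ⟨g, hg, rfl⟩, h3, h5, -⟩ := near (closure_subtype.1 hf) t p p
      obtain ⟨s, h4, h6⟩ := of_true g.2 (h3.trans (cone_iff.2 (Or.inl rfl)))
      have h7 : g = pt r s := Subtype.ext h4
      subst h7
      exact ⟨s, hg, h6.resolve_left fun h8 => hA (h8 ▸ hg), fun h8 h9 =>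
        absurd (h.le_le (cone_iff.1 (h5.symm.trans (cone_iff.2 h9)))) (not_le.2 h8)⟩
    have h4 : ∀ p, r p t → ∃ s ∈ pt r ⁻¹' A, r p s ∧ r s t := fun p hp => by
      obtain ⟨s, h4, h5, h6⟩ := h3 p
      exact ⟨s, h4, h.of_not (Or.inr h5) (Or.inr hp) (h6 (h.lt hp)), h5⟩
    obtain ⟨s0, -, h5, -⟩ := h3 t
    intro y hy
    obtain ⟨p, h6, h7⟩ := h.sup ⟨s0, h5⟩ (fun p hp => let ⟨s, _, b⟩ := h4 p hp; ⟨s, b⟩) y hy
    obtain ⟨s, h8, h9, h10⟩ := h4 p h6
    exact ⟨s, h8, h7.trans_lt (h.lt h9), h.lt h10⟩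
  have h2 := le_max_right #A ℵ₀
  have h3 := one_le_aleph0.trans h2
  refine (mk_le_mk_of_subset h1).trans (mk_insert_le.trans (add_le_of_le h2 ((mk_union_le _ _).trans
    (add_le_of_le h2 (le_max_left _ _) (mk_image_le.trans ((card_lim _).trans (add_le_of_le h2
    ((mk_preimage_of_injective _ _ (pt_inj h)).trans (le_max_left _ _)) h3))))) h3))

/-- top node -/
def Top (r : W → W → Prop) (δ : W) : Prop :=
  (∀ B : Set W, B.Countable → (∀ b ∈ B, r b δ) → ∃ t, r t δ ∧ ∀ b ∈ B, r b t) ∧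
    ∀ t, r t δ → {s | r s t}.Countable

noncomputable def e (r : W → W → Prop) (t : W) : {h : S r → ℝ // Continuous h} :=
  ⟨fun x => if x.1 t then 1 else 0, (continuous_of_discreteTopology
    (f := fun b : Bool => if b then (1 : ℝ) else 0)).comp
    ((continuous_apply t).comp continuous_subtype_val)⟩

omit [WellFoundedLT W] in
lemma e_inj (h : Tr r) : Function.Injective (e r) := by
  have h1 : ∀ s t, e r s = e r t → s ≤ t := fun s t he => by
    have h2 := congrFun (congrArg Subtype.val he) (pt r s)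
    have h3 : cone r s s = true := cone_iff.2 (Or.inl rfl)
    simp only [e, pt, h3, if_true] at h2
    by_contra hn
    rw [if_neg fun h4 => hn (h.le_le (cone_iff.1 h4))] at h2
    exact one_ne_zero h2
  exact fun s t he => le_antisymm (h1 s t he) (h1 t s he.symm)

theorem bound (h : Tr r) {θ : Cardinal.{0}} (hW : Reg W θ) (hc : 𝔠 < θ) (h1 : ℵ₁ < θ) {ι : Type}
    (Φ : {h : S r → ℝ // Continuous h} → ι → ℝ) (hΦ : Continuous Φ) (hi : Function.Injective Φ)
    (hs : ∀ g, {i | Φ g i ≠ 0}.Countable) : ∃ b : W → W, ∀ δ, Top r δ → ∃ t < δ, δ ≤ b t := by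
  classical
  let sp : W → Set ι := fun u => {i | Φ (e r u) i ≠ 0}
  have h0 : ℵ₀ < θ := aleph0_lt_aleph_one.trans h1
  have h2 : ∀ u i, ∃ F : Set W, F.Finite ∧ (i ∈ sp u → ∀ w, le r u w → i ∉ sp w →
      ∃ s ∈ F, r u s ∧ le r s w) := by
    intro u i
    by_cases hu : i ∈ sp u
    swap
    · exact ⟨∅, finite_empty, fun h => absurd h hu⟩
    have h2 : {g | Φ g i ≠ 0} ∈ 𝓝 (e r u) :=
      (isOpen_ne.preimage ((continuous_apply i).comp hΦ)).mem_nhds hu
    rw [nhds_subtype, Filter.mem_comap] at h2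
    obtain ⟨V, hV, h2⟩ := h2
    rw [nhds_pi, Filter.mem_pi] at hV
    obtain ⟨I, hI, V', h3, h4⟩ := hV
    refine ⟨pt r ⁻¹' I, hI.preimage (pt_inj h).injOn, fun _ w hw hn => ?_⟩
    by_contra h5
    refine hn (h2 (h4 fun x hx => ?_))
    suffices h6 : (e r w).1 x = (e r u).1 x from h6 ▸ mem_of_mem_nhds (h3 x)
    obtain ⟨_, rfl | ⟨s, rfl⟩⟩ := x
    · rfl
    · have : cone r s w = cone r s u := Bool.eq_iff_iff.2 ⟨fun h6 => cone_iff.2 (by
        by_contra h7
        exact h5 ⟨s, hx, h.of_not (cone_iff.1 h6) hw h7, cone_iff.1 h6⟩), fun h6 =>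
        cone_iff.2 (h.le_trans (cone_iff.1 h6) hw)⟩
      simp only [e, this]
  choose F hF h2 using h2
  have h3 : ∀ u, ∃ x, ∀ a ∈ ⋃ i ∈ sp u, F u i, a < x := fun u => hW.bdd
    ((le_aleph0_iff_set_countable.2 ((hs _).biUnion fun i _ => (hF u i).countable)).trans_lt h0)
  choose g hg using h3
  choose η h3 h4 h5 _ using hW.clo h1 g
  have h6 : ∀ t, ∃ x, {s | r s t}.Countable →
      ∀ a ∈ {u | sp u ⊆ ⋃ v ∈ {s | r s t}, sp v}, a < x := by
    intro t
    by_cases ht : {s | r s t}.Countable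
    swap
    · exact ⟨t, fun h => absurd h ht⟩
    let G := ⋃ v ∈ {s | r s t}, sp v
    have hG : G.Countable := ht.biUnion fun v _ => hs _
    have := hG.to_subtype
    have h6 : #{u | sp u ⊆ G} ≤ #(G → ℝ) := by
      refine mk_le_of_injective (f := fun u i => Φ (e r u.1) i.1) fun u v he =>
        Subtype.ext (e_inj h (hi (funext fun i => ?_)))
      by_cases hi : i ∈ G
      · exact congrFun he ⟨i, hi⟩
      · rw [not_not.1 fun h6 => hi (u.2 h6), not_not.1 fun h6 => hi (v.2 h6)]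
    have h7 : #(G → ℝ) ≤ 𝔠 := by
      rw [← power_def, mk_real]
      exact (power_le_power_left continuum_ne_zero mk_le_aleph0).trans_eq continuum_power_aleph0
    obtain ⟨x, hx⟩ := hW.bdd ((h6.trans h7).trans_lt hc)
    exact ⟨x, fun _ => hx⟩
  choose b hb using h6
  refine ⟨fun t => max (η t) (b t), fun δ hδ => ?_⟩
  have h7 : ∀ s, r s δ → ∃ s', r s s' ∧ r s' δ := fun s hs => by
    obtain ⟨t, h7, h8⟩ := hδ.1 {s} (countable_singleton s) (by simpa using hs)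
    exact ⟨t, h8 s rfl, h7⟩
  obtain ⟨s0, h8, -⟩ := hδ.1 ∅ countable_empty (by simp)
  by_cases hc : ∃ t, r t δ ∧ ∀ u, le r t u → r u δ → ¬ sp u ⊆ sp δ
  · obtain ⟨t, ht, hc⟩ := hc
    refine ⟨t, h.lt ht, le_max_of_le_left (not_lt.1 fun hn => ?_)⟩
    obtain ⟨u, ⟨h9, h10⟩, h11⟩ := exmin (P := fun u => le r u δ ∧ η t ≤ u) ⟨δ, Or.inl rfl, hn.le⟩
    have h12 : ∀ p, r p u → p < η t := fun p hp => not_le.1 fun h12 =>
      h11 p (h.lt hp) ⟨h.le_trans (Or.inr hp) h9, h12⟩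
    have h13 : r t u := h.lin' (Or.inr ht) h9 ((h3 t).trans_le h10)
    have h14 := h.sup ⟨t, h13⟩ fun p hp => by
      by_cases h14 : p < t
      · exact ⟨t, h.lin hp h13 h14, h13⟩
      have h15 : r p δ := (h.le_trans (Or.inr hp) h9).resolve_left ((h12 p hp).trans hn).ne
      obtain ⟨i, h16, h17⟩ := not_subset.1 (hc p ((not_lt.1 h14).eq_or_lt.imp_right
        (h.lin h13 hp)) h15)
      obtain ⟨s, h18, h19, h20⟩ := h2 p i h16 δ (Or.inr h15) h17
      exact ⟨s, h19, h.lin' h20 h9 (((hg p s (mem_biUnion h16 h18)).trans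
        (h4 t p (h12 p hp))).trans_le h10)⟩
    have h15 : u = η t := le_antisymm (not_lt.1 fun h15 => by
      obtain ⟨s, h16, h17⟩ := h14 _ h15
      exact absurd (h12 s h16) (not_lt.2 h17)) h10
    obtain ⟨x, h16, h17⟩ := h5 t _ (hδ.2 u (h9.resolve_left (h15 ▸ hn.ne))) h12
    obtain ⟨s, h18, h19⟩ := h14 x (h15 ▸ h16)
    exact absurd (h17 s h18) (not_lt.2 h19)
  · push Not at hc
    have h9 : ∀ i, ∃ u, r u δ ∧ ((∃ u, r u δ ∧ i ∈ sp u) → i ∈ sp u) := fun i => by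
      by_cases h9 : ∃ u, r u δ ∧ i ∈ sp u
      · obtain ⟨u, h9, h10⟩ := h9
        exact ⟨u, h9, fun _ => h10⟩
      · exact ⟨s0, h8, fun h => absurd h h9⟩
    choose v h9 h10 using h9
    obtain ⟨t, ht, h11⟩ := hδ.1 (v '' sp δ) ((hs _).image v) (by rintro _ ⟨i, -, rfl⟩; exact h9 i)
    refine ⟨t, h.lt ht, le_max_of_le_right (not_lt.1 fun hn => ?_)⟩
    obtain ⟨s, h12, h13⟩ := h.sup ⟨s0, h8⟩ h7 _ hn
    obtain ⟨u, h14, h15, h16⟩ := hc s h12
    exact absurd (hb t (hδ.2 t ht) u fun i hi => mem_biUnion (h11 _ ⟨i, h16 hi, rfl⟩)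
      (h10 i ⟨u, h15, hi⟩)) (not_lt.2 (h13.trans (h.le_le h14)))

end Pool.Agent.H82.LadB
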