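import Pool.Agent.H82.LadB

set_option autoImplicit false

namespace Pool.Agent.H82.LadC

open Set Cardinal Order Pool.Agent.H82.LadA Pool.Agent.H82.LadB

variable {K L : Type} [LinearOrder K] [LinearOrder L] (E : K → K → L)

def a (i : L) (t : K) : Set K := {s | s < t ∧ E t s < i}

def Good (i : L) (t : K) : Prop := (∀ s ∈ a E i t, a E i s = a E i t ∩ Iio s) ∧
  ∀ A ⊆ a E i t, A.Countable → ∀ σ ∈ lim A, σ < t → σ ∈ a E i t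

variable {E} {i : L}

lemma Good.mem {s t u : K} (h : Good E i u) (hs : s ∈ a E i u) (ht : t ∈ a E i u) (h1 : s < t) :
    s ∈ a E i t := h.1 t ht ▸ ⟨hs, h1⟩

lemma Good.up {s t u : K} (h : Good E i u) (hs : s ∈ a E i t) (ht : t ∈ a E i u) :
    s ∈ a E i u := (h.1 t ht ▸ hs : s ∈ a E i u ∩ Iio t).1

lemma Good.her {t u : K} (h : Good E i u) (ht : t ∈ a E i u) : Good E i t :=
  ⟨fun _ hs => Set.ext fun _ => ⟨fun hx => ⟨h.mem (h.up hx (h.up hs ht)) ht (hx.1.trans hs.1),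
    hx.1⟩, fun hx => h.mem (h.up hx.1 ht) (h.up hs ht) hx.2⟩, fun A hA hc σ h1 h2 =>
    h.mem (h.2 A (fun _ hx => h.up (hA hx) ht) hc σ h1 (h2.trans ht.1)) ht h2⟩

variable [WellFoundedLT K]

instance wf (i : L) : IsWellFounded K fun s t => s ∈ a E i t :=
  ⟨Subrelation.wf (fun h => h.1) wellFounded_lt⟩

variable (E) in
noncomputable def rk (i : L) : K → Ordinal.{0} := IsWellFounded.rank fun s t => s ∈ a E i t

lemma rk_lt {s t : K} (h : s ∈ a E i t) : rk E i s < rk E i t :=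
  IsWellFounded.rank_lt_of_rel (r := fun s t => s ∈ a E i t) h

lemma lt_rk {t : K} {ζ : Ordinal} (h : ζ < rk E i t) : ∃ s ∈ a E i t, ζ ≤ rk E i s := by
  rw [rk, IsWellFounded.rank_eq, Ordinal.lt_iSup_iff] at h
  obtain ⟨s, hs⟩ := h
  exact ⟨s.1, s.2, lt_succ_iff.1 hs⟩

lemma Good.att {t : K} (h : Good E i t) {ζ : Ordinal} (h1 : ζ < rk E i t) :
    ∃ s ∈ a E i t, rk E i s = ζ := by
  obtain ⟨s, ⟨h2, h3⟩, h4⟩ := exmin (P := fun s => s ∈ a E i t ∧ ζ ≤ rk E i s) (lt_rk h1)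
  refine ⟨s, h2, le_antisymm (not_lt.1 fun h5 => ?_) h3⟩
  obtain ⟨s', h6, h7⟩ := lt_rk h5
  exact h4 s' h6.1 ⟨h.up h6 h2, h7⟩

lemma Good.le_of {s t u : K} (h : Good E i u) (hs : s ∈ a E i u) (ht : t ∈ a E i u)
    (h1 : rk E i s ≤ rk E i t) : s ≤ t :=
  not_lt.1 fun h2 => absurd (rk_lt (h.mem ht hs h2)) (not_lt.2 h1)

def Cl (ρ : Ordinal.{0}) (c : Set Ordinal.{0}) : Prop := (∀ ζ ∈ c, ζ < ρ) ∧
  (∀ η < ρ, η ∈ lim c → η ∈ c) ∧ (∀ η < ρ, (c ∩ Iio η).Countable) ∧ ∀ η < ρ, ∃ ζ ∈ c, η ≤ ζ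

variable (E i) in
def tr (ρ : Ordinal.{0}) (c : Set Ordinal.{0}) (s t : K) : Prop := Good E i t ∧ s ∈ a E i t ∧
  rk E i s ∈ c ∧ (rk E i t ∈ c ∨ (rk E i t = ρ ∧ ∀ x < t, ∃ β ∈ a E i t, x ≤ β))

variable {ρ : Ordinal.{0}} {c : Set Ordinal.{0}}

lemma ctble (hc : Cl ρ c) {t : K} (ht : rk E i t ∈ c) : {s | tr E i ρ c s t}.Countable :=
  countable_of_injective_of_countable_image (f := rk E i) (fun _ hs _ hs' he => le_antisymm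
    (hs.1.le_of hs.2.1 hs'.2.1 he.le) (hs.1.le_of hs'.2.1 hs.2.1 he.ge))
    ((hc.2.2.1 _ (hc.1 _ ht)).mono (by rintro _ ⟨s, hs, rfl⟩; exact ⟨hs.2.2.1, rk_lt hs.2.1⟩))

lemma cof (hc : Cl ρ c) {t : K} (hg : Good E i t) (h1 : rk E i t = ρ)
    (h2 : ∀ x < t, ∃ β ∈ a E i t, x ≤ β) : ∀ x < t, ∃ s, tr E i ρ c s t ∧ x ≤ s := by
  intro x hx
  obtain ⟨β, h3, h4⟩ := h2 x hx
  obtain ⟨ζ, h5, h6⟩ := hc.2.2.2 _ (h1 ▸ rk_lt h3)
  obtain ⟨s, h7, rfl⟩ := hg.att (h1 ▸ hc.1 ζ h5 : ζ < rk E i t)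
  exact ⟨s, ⟨hg, h7, h5, Or.inr ⟨h1, h2⟩⟩, h4.trans (hg.le_of h3 h7 h6)⟩

lemma isTr (hc : Cl ρ c) : Tr (tr E i ρ c) where
  lt h := h.2.1.1
  trans h h' := ⟨h'.1, h'.1.up h.2.1 h'.2.1, h.2.2.1, h'.2.2.2⟩
  lin h h' h1 := ⟨h.1.her h'.2.1, h.1.mem h.2.1 h'.2.1 h1, h.2.2.1, Or.inl h'.2.2.1⟩
  sup := by
    rintro t ⟨s0, hg, -, -, ht | ⟨h1, h2⟩⟩ hm x hx
    swap
    · exact cof hc hg h1 h2 x hx
    by_contra hn
    push Not at hn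
    obtain ⟨σ, h1, h2⟩ := exmin (P := fun y => ∀ s, tr E i ρ c s t → s < y) ⟨x, hn⟩
    have h3 : σ ∈ lim {s | tr E i ρ c s t} := fun y hy => by
      have h3 := h2 y hy
      push Not at h3
      obtain ⟨s, h3, h4⟩ := h3
      obtain ⟨s', h5, h6⟩ := hm s h3
      exact ⟨s', h6, h4.trans_lt h5.2.1.1, h1 s' h6⟩
    have h4 : σ ∈ a E i t := hg.2 _ (fun s hs => hs.2.1) (ctble hc ht) σ h3
      ((not_lt.1 fun h => h2 x h hn).trans_lt hx)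
    refine lt_irrefl _ (h1 σ ⟨hg, h4, hc.2.1 _ ((rk_lt h4).trans (hc.1 _ ht)) fun ζ hζ => ?_,
      Or.inl ht⟩)
    obtain ⟨β, h5, h6⟩ := lt_rk hζ
    obtain ⟨s, h7, h8, h9⟩ := h3 β h5.1
    exact ⟨_, h7.2.2.1, h6.trans_lt (rk_lt (hg.mem (hg.up h5 h4) h7.2.1 h8)),
      rk_lt (hg.mem h7.2.1 h4 h9)⟩

lemma top (hc : Cl ρ c) {δ : K} (hg : Good E i δ) (h1 : rk E i δ = ρ)
    (h2 : ∀ x < δ, ∃ β ∈ a E i δ, x ≤ β) (hu : Unc δ) : Top (tr E i ρ c) δ := by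
  refine ⟨fun B hB h3 => ?_, fun t ht => ctble hc ht.2.2.1⟩
  obtain ⟨x, h4, h5⟩ := hu B hB fun y hy => (h3 y hy).2.1.1
  obtain ⟨s, h6, h7⟩ := cof hc hg h1 h2 x h4
  exact ⟨s, h6, fun b hb => (isTr hc).lin (h3 b hb) h6 ((h5 b hb).trans_le h7)⟩

lemma exCl {δ : K} (hg : Good E i δ) {D : Set K} (h1 : D ⊆ a E i δ) (h2 : ∀ x < δ, ∃ d ∈ D, x < d)
    (h3 : ∀ x < δ, (D ∩ Iio x).Countable) : ∃ c, Cl (rk E i δ) c := by
  refine ⟨(rk E i '' D ∪ lim (rk E i '' D)) ∩ Iio (rk E i δ), fun _ h => h.2,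
    fun η h4 h5 => ⟨Or.inr fun y hy => ?_, h4⟩, fun η h4 => ?_, fun η h4 => ?_⟩
  · obtain ⟨ζ, ⟨h6 | h6, -⟩, h7, h8⟩ := h5 y hy
    · exact ⟨ζ, h6, h7, h8⟩
    · obtain ⟨b, h9, h10, h11⟩ := h6 y h7
      exact ⟨b, h9, h10, h11.trans h8⟩
  · obtain ⟨β, h5, rfl⟩ := hg.att h4
    have h6 : (rk E i '' D ∩ Iio (rk E i β)).Countable := ((h3 β h5.1).image (rk E i)).mono (by
      rintro _ ⟨⟨d, hd, rfl⟩, h6⟩
      exact ⟨d, ⟨hd, (hg.le_of (h1 hd) h5 (le_of_lt h6)).lt_of_ne fun h =>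
        lt_irrefl _ (h ▸ h6 : rk E i β < rk E i β)⟩, rfl⟩)
    refine (h6.union (countable_lim h6)).mono ?_
    rintro ζ ⟨⟨h7 | h7, -⟩, h8⟩
    · exact Or.inl ⟨h7, h8⟩
    · exact Or.inr fun y hy => let ⟨b, h9, h10, h11⟩ := h7 y hy; ⟨b, ⟨h9, h11.trans h8⟩, h10, h11⟩
  · obtain ⟨β, h5, rfl⟩ := hg.att h4
    obtain ⟨d, h6, h7⟩ := h2 β h5.1
    exact ⟨_, ⟨Or.inl ⟨d, h6, rfl⟩, rk_lt (h1 h6)⟩, (rk_lt (hg.mem h5 (h1 h6) h7)).le⟩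

variable {θ : Cardinal.{0}}

omit [WellFoundedLT K] in
lemma card_a (hL : Reg L θ) (hE : ∀ t, InjOn (E t) (Iio t)) (i : L) (t : K) : #(a E i t) < θ :=
  (mk_le_of_injective (f := fun s : a E i t => (⟨E t s, s.2.2⟩ : Iio i)) fun s s' he =>
    Subtype.ext (hE t s.2.1 s'.2.1 (congrArg Subtype.val he))).trans_lt (hL.iio i)

lemma rk_lt_ord (hL : Reg L θ) (hE : ∀ t, InjOn (E t) (Iio t)) (t : K) : rk E i t < θ.ord := by
  induction t using WellFoundedLT.induction with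
  | ind t ih =>
    rw [rk, IsWellFounded.rank_eq]
    exact Ordinal.iSup_lt_of_lt_cof (hL.reg.cof_ord.symm ▸ card_a hL hE i t) fun s =>
      (isSuccLimit_ord hL.reg.aleph0_le).succ_lt (ih s s.2.1)

lemma exGood [WellFoundedLT L] (hL : Reg L θ) (h1 : ℵ₁ < θ) (hE : ∀ t, InjOn (E t) (Iio t))
    {δ : K} {D : Set K} (hD : #D < θ) (hD' : ∀ d ∈ D, d < δ) :
    ∃ i, Good E i δ ∧ D ⊆ a E i δ := by
  have h0 := hL.reg.aleph0_le
  have hc := card_a hL hE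
  have h2 : ∀ j, ∃ k, ∀ x ∈ (⋃ β ∈ a E j δ, E δ '' a E j β ∪ E β '' a E j δ) ∪
      E δ '' lim (a E j δ), x < k := fun j => hL.bdd ((mk_union_le _ _).trans_lt (add_lt_of_lt h0
    ((card_biUnion_lt_iff_forall_of_isRegular (t := fun β _ => E δ '' a E j β ∪ E β '' a E j δ)
      hL.reg (hc j δ)).2 fun β _ => (mk_union_le _ _).trans_lt (add_lt_of_lt h0
      (mk_image_le.trans_lt (hc _ _)) (mk_image_le.trans_lt (hc _ _))))
    (mk_image_le.trans_lt ((card_lim _).trans_lt (add_lt_of_lt h0 (hc _ _)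
      (one_lt_aleph0.trans_le h0))))))
  choose g hg using h2
  obtain ⟨j0, h2⟩ := hL.bdd (mk_image_le.trans_lt hD : #(E δ '' D) < θ)
  obtain ⟨i, h3, h4, h5, -⟩ := hL.clo h1 g j0
  refine ⟨i, ⟨fun β hβ => Set.ext fun γ => ⟨fun hγ => ?_, fun hγ => ?_⟩, fun A hA h6 σ h7 h8 => ?_⟩,
    fun d hd => ⟨hD' d hd, (h2 _ ⟨d, hd, rfl⟩).trans h3⟩⟩
  · obtain ⟨j, h6, h7⟩ := h5 {E δ β, E β γ} (toFinite _).countable (by
      rintro _ (rfl | rfl); exacts [hβ.2, hγ.2])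
    exact ⟨⟨hγ.1.trans hβ.1, (hg j _ (Or.inl (mem_biUnion (t := fun β => E δ '' a E j β ∪
      E β '' a E j δ) ⟨hβ.1, h7 _ (Or.inl rfl)⟩
      (Or.inl ⟨γ, ⟨hγ.1, h7 _ (Or.inr rfl)⟩, rfl⟩)))).trans (h4 j h6)⟩, hγ.1⟩
  · obtain ⟨j, h6, h7⟩ := h5 {E δ β, E δ γ} (toFinite _).countable (by
      rintro _ (rfl | rfl); exacts [hβ.2, hγ.1.2])
    exact ⟨hγ.2, (hg j _ (Or.inl (mem_biUnion (t := fun β => E δ '' a E j β ∪
      E β '' a E j δ) ⟨hβ.1, h7 _ (Or.inl rfl)⟩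
      (Or.inr ⟨γ, ⟨hγ.1.1, h7 _ (Or.inr rfl)⟩, rfl⟩)))).trans (h4 j h6)⟩
  · obtain ⟨j, h9, h10⟩ := h5 _ (h6.image (E δ)) (by rintro _ ⟨x, hx, rfl⟩; exact (hA hx).2)
    exact ⟨h8, (hg j _ (Or.inr ⟨σ, lim_mono (B := a E j δ) (fun x hx => ⟨(hA hx).1, h10 _ ⟨x, hx, rfl⟩⟩) h7,
      rfl⟩)).trans (h4 j h9)⟩

/-- pressing down on the top nodes of some tree -/
theorem main [WellFoundedLT L] (hK : Reg K (succ θ)) (hL : Reg L θ) (h1 : ℵ₁ < θ)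
    (q : L → Ordinal.{0}) (hq : ∀ ρ < θ.ord, ∃ l, q l = ρ) :
    ∃ r : K → K → Prop, Tr r ∧ ∀ b : K → K, ∃ δ, Top r δ ∧ ∀ t < δ, b t < δ := by
  have h0 := hL.reg.aleph0_le
  have hne : Nonempty L := mk_ne_zero_iff.1 (hL.card ▸ hL.reg.pos.ne')
  have h2 : ∀ t : K, ∃ f : K → L, InjOn f (Iio t) := fun t => by
    obtain ⟨f⟩ := (le_def _ _).1 ((lt_succ_iff.1 (hK.iio t)).trans hL.card.ge)
    exact ⟨Function.extend Subtype.val f fun _ => hne.some, fun x hx y hy he => by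
      rw [show x = (⟨x, hx⟩ : Iio t).1 from rfl, show y = (⟨y, hy⟩ : Iio t).1 from rfl,
        Subtype.val_injective.extend_apply, Subtype.val_injective.extend_apply] at he
      exact congrArg Subtype.val (f.injective he)⟩
  choose E hE using h2
  by_contra hn
  push Not at hn
  have h2 : ∀ p : L × L, ∃ b : K → K, (∃ c, Cl (q p.2) c) → ∃ c, Cl (q p.2) c ∧
      ∀ δ, Top (tr E p.1 (q p.2) c) δ → ∃ t < δ, δ ≤ b t := fun p => by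
    by_cases h : ∃ c, Cl (q p.2) c
    · obtain ⟨c, hc⟩ := h
      obtain ⟨b, hb⟩ := hn _ (isTr (E := E) (i := p.1) hc)
      exact ⟨b, fun _ => ⟨c, hc, hb⟩⟩
    · exact ⟨id, fun h' => absurd h' h⟩
  choose b hb using h2
  have h3 : ∀ t, ∃ x, ∀ y ∈ range fun p => b p t, y < x := fun t => hK.bdd
    (mk_range_le.trans_lt (by simp [hL.card, mul_eq_self h0]))
  choose g hg using h3
  obtain ⟨x0, -⟩ := hK.bdd (A := ∅) (by simp)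
  obtain ⟨δ, -, h3, h4, D, h5, h6, h7⟩ := hK.clo (h1.trans (lt_succ θ)) g x0
  have h8 : #D < θ := by
    by_contra h8
    obtain ⟨p, hp, hp1⟩ := le_mk_iff_exists_subset.1 (h1.le.trans (not_lt.1 h8))
    have h9 : ∀ {A : Set K}, A.Countable → #A < ℵ₁ := fun h =>
      (le_aleph0_iff_set_countable.2 h).trans_lt aleph0_lt_aleph_one
    refine h8 ((mk_le_mk_of_subset fun d hd => ?_).trans_lt
      ((card_biUnion_lt_iff_forall_of_isRegular (t := fun x _ => insert x (D ∩ Iio x)) hL.reg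
      (hp1.trans_lt h1)).2 fun x hx => (h9 ((h7 x (h5 x (hp hx))).insert x)).trans h1))
    by_contra h10
    refine (h9 ((h7 d (h5 d hd)).mono (subset_inter hp fun x hx => not_le.1 fun h => h10
      (mem_biUnion hx ?_)))).ne hp1
    exact h.eq_or_lt.imp_right fun h => ⟨hd, h⟩
  obtain ⟨i, h9, h10⟩ := exGood hL h1 hE h8 h5
  obtain ⟨l, hl⟩ := hq _ (rk_lt_ord (i := i) hL hE δ)
  obtain ⟨c, h11, h12⟩ := hb (i, l) (hl ▸ exCl h9 h10 h6 h7)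
  obtain ⟨t, h13, h14⟩ := h12 δ (top h11 h9 hl.symm (fun x hx =>
    let ⟨d, hd, h⟩ := h6 x hx; ⟨d, h10 hd, h.le⟩) h4)
  exact absurd ((hg t _ ⟨(i, l), rfl⟩).trans (h3 t h13)) (not_lt.2 h14)

theorem final : ∃ (X : Type) (_ : TopologicalSpace X), CompactSpace X ∧ T2Space X ∧
    (∀ A : Set X, #(closure A) ≤ max #A ℵ₀) ∧ ∀ (ι : Type)
      (f : {h : X → ℝ // Continuous h} → (ι → ℝ)), Continuous f → Function.Injective f →
        ¬ ∀ g, Set.Countable {i : ι | f g i ≠ 0} := by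
  have h0 := isRegular_succ aleph0_le_continuum.{0}
  have h1 : ℵ₁ < succ continuum.{0} := lt_succ_iff.2 aleph_one_le_continuum
  have hK := reg_toType (isRegular_succ h0.aleph0_le)
  obtain ⟨r, hr, h2⟩ := main hK (reg_toType h0) h1 (fun l => (Ordinal.ToType.toOrd l).1) fun ρ h =>
    ⟨Ordinal.ToType.mk ⟨ρ, h⟩, by simp⟩
  refine ⟨S r, inferInstance, compact hr, inferInstance, card_closure hr, fun ι f h3 h4 h5 => ?_⟩
  obtain ⟨b, hb⟩ := bound hr hK ((lt_succ _).trans (lt_succ _)) (h1.trans (lt_succ _)) f h3 h4 h5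
  obtain ⟨δ, h6, h7⟩ := h2 b
  obtain ⟨t, h8, h9⟩ := hb δ h6
  exact absurd (h7 t h8) (not_lt.2 h9)

end Pool.Agent.H82.LadC
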