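import Pool.Agent.H82.LuzA

set_option autoImplicit false

/-! Closed subsets of the countable power of a strongly Luzin set with many countable dense
subsets are separable. -/

namespace Pool.Agent.H82.Luz

open Set Cardinal Filter Topology Function Sum

lemma lists {α : Type} {S : Set α} (h : S.Countable) : {l : List α | ∀ e ∈ l, e ∈ S}.Countable := by
  have := h.to_subtype
  refine (countable_range fun l : List S => l.map Subtype.val).mono fun l hl =>
    mem_range.2 ⟨l.attach.map fun e => ⟨e.1, hl e.1 e.2⟩, ?_⟩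
  simp [List.map_map, Function.comp_def]

lemma pats {B : Set W} (h : B.Countable) :
    {p : ℕ × List (W ⊕ ℕ) | ∀ v, inl v ∈ p.2 → v ∈ B}.Countable :=
  (countable_univ.prod (lists ((h.image inl).union (countable_range inr)))).mono fun p hp =>
    And.intro (mem_univ _) fun e he => by
      cases e with
      | inl v => exact Or.inl ⟨v, hp v he, rfl⟩
      | inr j => exact Or.inr ⟨j, rfl⟩

def pre (t : ℕ → W) (n : ℕ) : List W := (List.range n).map t

lemma pre_succ (t : ℕ → W) (n : ℕ) : pre t (n + 1) = pre t n ++ [t n] := by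
  simp [pre, List.range_succ]

lemma both {σ : List (W ⊕ ℕ)} {u u' t t' : ℕ → W} {n m : ℕ} (h : σ.map (Sum.elim id u) = pre t n)
    (h' : σ.map (Sum.elim id u') = pre t' n) (hm : m < n) :
    ∃ s ∈ σ, t m = Sum.elim id u s ∧ t' m = Sum.elim id u' s := by
  have h0 : σ.length = n := by simpa [pre] using congrArg List.length h
  have h1 : m < σ.length := h0 ▸ hm
  have h2 := congrArg (·[m]?) h
  have h3 := congrArg (·[m]?) h'
  simp only [pre, List.getElem?_map, List.getElem?_eq_getElem h1, List.getElem?_range hm,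
    Option.map_some, Option.some.injEq] at h2 h3
  exact ⟨_, List.getElem_mem h1, h2.symm, h3.symm⟩

lemma ext_seq {P : List W → Prop} (step : ∀ l, P l → ∃ w, P (l ++ [w])) {l : List W} (hl : P l) :
    ∃ t, pre t l.length = l ∧ ∀ n, P (pre t (l.length + n)) := by
  choose! nx hnx using step
  let L : ℕ → List W := fun n => Nat.rec l (fun _ l => l ++ [nx l]) n
  have hL : ∀ n, P (L n) := fun n => Nat.rec hl (fun n ih => hnx _ ih) n
  let t : ℕ → W := fun i => if h : i < l.length then l[i] else nx (L (i - l.length))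
  have h1 : ∀ n, pre t (l.length + n) = L n := by
    intro n
    induction n with
    | zero => exact List.ext_getElem (by simp [pre, L]) fun i h1 h2 => by
                simp only [L, Nat.rec_zero] at h2
                simp [pre, t, L, h2]
    | succ n ih =>
      rw [← add_assoc, pre_succ, ih]
      simp [t, L]
  exact ⟨t, h1 0, fun n => h1 n ▸ hL n⟩

lemma map_update {σ : List (W ⊕ ℕ)} {k : ℕ} (h : ∀ j, inr j ∈ σ → j < k) (u : ℕ → W) (w : W) :
    σ.map (Sum.elim id (update u k w)) = σ.map (Sum.elim id u) :=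
  List.map_congr_left fun s hs => by
    cases s with
    | inl v => rfl
    | inr j => exact update_of_ne (h j hs).ne _ _

lemma map_new {σ : List (W ⊕ ℕ)} {k : ℕ} (h : ∀ j, inr j ∈ σ → j < k) (u : ℕ → W) (w : W) :
    (σ ++ [inr k]).map (Sum.elim id (update u k w)) = σ.map (Sum.elim id u) ++ [w] := by
  rw [List.map_append, map_update h, List.map_singleton, elim_inr, update_self]

lemma injOn_update {u : ℕ → W} {k : ℕ} (h : InjOn u (Iio k)) {w : W} (hw : ∀ j < k, u j ≠ w) :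
    InjOn (update u k w) (Iio (k + 1)) := by
  intro i hi j hj he
  rcases (Nat.lt_succ_iff.1 hi).eq_or_lt with rfl | hi <;>
    rcases (Nat.lt_succ_iff.1 hj).eq_or_lt with rfl | hj
  · rfl
  · rw [update_self, update_of_ne hj.ne] at he
    exact absurd he.symm (hw j hj)
  · rw [update_self, update_of_ne hi.ne] at he
    exact absurd he (hw i hi)
  · rw [update_of_ne hi.ne, update_of_ne hj.ne] at he
    exact h hi hj he

lemma all_update {α : Type} {P : ℕ → α → Prop} {u : ℕ → α} {k : ℕ} {w : α}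
    (h : ∀ j < k, P j (u j)) (hw : P k w) : ∀ j < k + 1, P j (update u k w j) := by
  intro j hj
  rcases (Nat.lt_succ_iff.1 hj).eq_or_lt with rfl | hj
  · rwa [update_self]
  · rw [update_of_ne hj.ne]; exact h j hj

lemma all_update₂ {α β : Type} {x : α → β} {u : ℕ → α} {z : ℕ → β} {k : ℕ} (w : α)
    (h : ∀ j < k, z j = x (u j)) : ∀ j < k + 1, update z k (x w) j = x (update u k w j) := by
  intro j hj
  rcases (Nat.lt_succ_iff.1 hj).eq_or_lt with rfl | hj
  · rw [update_self, update_self]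
  · rw [update_of_ne hj.ne, update_of_ne hj.ne]; exact h j hj

variable {I : Type} {x : W → I → Bool}

lemma fresh {A : Set W} (hA : ∀ O, IsOpen O → O.Nonempty → {w | w ∈ A ∧ x w ∈ O}.Infinite)
    {O : Set (ℕ → I → Bool)} (hO : IsOpen O) {z : ℕ → I → Bool} {k : ℕ} {q : I → Bool}
    (h : update z k q ∈ O) (u : ℕ → W) :
    ∃ w ∈ A, (∀ j < k, u j ≠ w) ∧ update z k (x w) ∈ O := by
  obtain ⟨w, h1, h2⟩ := (hA _ (hO.preimage (continuous_const.update k continuous_id))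
    ⟨q, h⟩).exists_notMem_finite ((finite_Iio k).image u)
  exact ⟨w, h1.1, fun j hj h3 => h2 ⟨j, hj, h3⟩, h1.2⟩

lemma pick {A : Set W} (hA : ∀ O, IsOpen O → O.Nonempty → {w | w ∈ A ∧ x w ∈ O}.Infinite)
    {O : Set (ℕ → I → Bool)} (hO : IsOpen O) (h : O.Nonempty) (k : ℕ) :
    ∃ u : ℕ → W, InjOn u (Iio k) ∧ (∀ j < k, u j ∈ A) ∧ ∃ z ∈ O, ∀ j < k, z j = x (u j) := by
  induction k with
  | zero =>
    obtain ⟨z, hz⟩ := h
    exact ⟨fun _ => Classical.arbitrary W, fun _ h => by simp at h, by simp, z, hz, by simp⟩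
  | succ k ih =>
    obtain ⟨u, h1, h2, z, h3, h4⟩ := ih
    obtain ⟨w, h5, h6, h7⟩ := fresh hA hO (z := z) (k := k) (q := z k) (by simpa using h3) u
    exact ⟨_, injOn_update h1 h6, all_update (P := fun _ w => w ∈ A) h2 h5, _, h7,
      all_update₂ w h4⟩

lemma isOpen_near (k : ℕ) (b : Finset I) (z : ℕ → I → Bool) :
    IsOpen {z' : ℕ → I → Bool | ∀ j < k, ∀ i ∈ b, z' j i = z j i} := by
  have : {z' : ℕ → I → Bool | ∀ j < k, ∀ i ∈ b, z' j i = z j i} =
    {z' | ∀ p ∈ Finset.range k ×ˢ b, z' p.1 p.2 = z p.1 p.2} := by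
    ext z'
    exact ⟨fun h p hp => h _ (Finset.mem_range.1 (Finset.mem_product.1 hp).1) _
      (Finset.mem_product.1 hp).2, fun h j hj i hi =>
        h (j, i) (Finset.mem_product.2 ⟨Finset.mem_range.2 hj, hi⟩)⟩
  rw [this]
  exact isOpen_agree _ _

theorem closed_sep
    (hL : ∀ G : Set (ℕ → I → Bool), IsOpen G → Dense G → ∃ γ : W, ∀ (k : ℕ) (u : ℕ → W),
      InjOn u (Iio k) → (∀ j < k, γ ≤ u j) → ∀ z O, IsOpen O → z ∈ O →
        (∀ j < k, z j = x (u j)) → ∃ z' ∈ O ∩ G, ∀ j < k, z' j = z j)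
    (hD : ∀ γ, ∃ A : Set W, A.Countable ∧ (∀ w ∈ A, γ ≤ w) ∧
      ∀ O, IsOpen O → O.Nonempty → {w | w ∈ A ∧ x w ∈ O}.Infinite)
    {F : Set (ℕ → I → Bool)} (hF : IsClosed F) :
    ∃ D : Set (ℕ → W), D.Countable ∧ (∀ t ∈ D, x ∘ t ∈ F) ∧
      ∀ t, x ∘ t ∈ F → x ∘ t ∈ closure ((x ∘ ·) '' D) := by
  classical
  have : TopologicalSpace.SeparableSpace (I → Bool) := by
    obtain ⟨A, h1, -, h2⟩ := hD (Classical.arbitrary W)
    exact ⟨_, h1.image x, dense_iff_inter_open.2 fun O hO h3 =>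
      let ⟨w, hw⟩ := (h2 O hO h3).nonempty; ⟨_, hw.2, w, hw.1, rfl⟩⟩
  let Ext : ℕ × List (W ⊕ ℕ) → W → Set (ℕ → I → Bool) := fun p γ =>
    {z | ∃ u, InjOn u (Iio p.1) ∧ (∀ j < p.1, γ ≤ u j) ∧ (∀ j < p.1, z j = x (u j)) ∧
      ∃ t, x ∘ t ∈ F ∧ p.2.map (Sum.elim id u) = pre t p.2.length}
  have hmono : ∀ p γ γ', γ ≤ γ' → Ext p γ' ⊆ Ext p γ := fun p γ γ' h z ⟨u, h1, h2, h3⟩ =>
    ⟨u, h1, fun j hj => h.trans (h2 j hj), h3⟩
  let O : ℕ × List (W ⊕ ℕ) → Set (ℕ → I → Bool) := fun p => interior (⋂ γ, closure (Ext p γ))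
  have hA : ∀ p, ∃ γ, Ext p γ ⊆ closure (O p) := by
    intro p
    obtain ⟨d, hd⟩ := TopologicalSpace.exists_dense_seq (ℕ → I → Bool)
    have h1 : ∀ n, ∃ γ, d n ∈ closure (Ext p γ) → ∀ γ, d n ∈ closure (Ext p γ) := by
      intro n
      by_cases h : ∀ γ, d n ∈ closure (Ext p γ)
      · exact ⟨Classical.arbitrary W, fun _ => h⟩
      · exact let ⟨γ, h1⟩ := not_forall.1 h; ⟨γ, fun h2 => absurd h2 h1⟩
    choose g hg using h1
    obtain ⟨γ1, h1⟩ := bdd (countable_range g)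
    have h2 : interior (closure (Ext p γ1)) ⊆ O p := interior_maximal
      (subset_iInter fun γ => (hd.open_subset_closure_inter isOpen_interior).trans
        (closure_minimal (by
          rintro _ ⟨h2, n, rfl⟩
          exact hg n (closure_mono (hmono p _ _ (h1 _ ⟨n, rfl⟩).le) (interior_subset h2)) γ)
          isClosed_closure)) isOpen_interior
    obtain ⟨γ2, h3⟩ := hL (O p ∪ (closure (Ext p γ1))ᶜ)
      (isOpen_interior.union isClosed_closure.isOpen_compl)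
      (dense_iff_inter_open.2 fun U hU ⟨z, hz⟩ => by
        by_cases h : U ⊆ closure (Ext p γ1)
        · exact ⟨z, hz, Or.inl (h2 (interior_maximal h hU hz))⟩
        · exact let ⟨y, h3, h4⟩ := not_subset.1 h; ⟨y, h3, Or.inr h4⟩)
    refine ⟨max γ1 γ2, fun z ⟨u, h4, h5, h6, h7⟩ => mem_closure_iff.2 fun U hU hz => ?_⟩
    obtain ⟨z', ⟨h8, h9⟩, h10⟩ := h3 p.1 u h4 (fun j hj => (le_max_right _ _).trans (h5 j hj))
      z U hU hz h6
    exact ⟨z', h8, h9.resolve_right fun h => h (subset_closure ⟨u, h4,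
      fun j hj => (le_max_left _ _).trans (h5 j hj), fun j hj => (h10 j hj).trans (h6 j hj), h7⟩)⟩
  choose γ0 hγ0 using hA
  obtain ⟨A, -, h1, h2⟩ := ScEG2.hull (fun l : List W => ⋃ p ∈ {p : ℕ × List (W ⊕ ℕ) |
    ∀ v, inl v ∈ p.2 → v ∈ {v | v ∈ l}}, Iio (γ0 p))
    (fun l => (pats l.finite_toSet.countable).biUnion fun p _ => iio _) ∅
  have hAc : A.Countable := le_aleph0_iff_set_countable.1 (h2 _ le_rfl (by simp))
  have hbig : ∀ p : ℕ × List (W ⊕ ℕ), (∀ v, inl v ∈ p.2 → v ∈ A) → ∀ w, w ∉ A → γ0 p ≤ w := by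
    intro p hp w hw
    refine not_lt.1 fun h => hw (h1 (p.2.filterMap getLeft?) (fun v hv => hp v ?_)
      (mem_biUnion (x := p) (fun v hv => ?_) h))
    · obtain ⟨s, h3, h4⟩ := List.mem_filterMap.1 hv
      rwa [getLeft?_eq_some_iff.1 h4] at h3
    · exact List.mem_filterMap.2 ⟨_, hv, rfl⟩
  have hsm : ∀ (σ : List (W ⊕ ℕ)) s, (∀ v, inl v ∈ σ → v ∈ A) → (∀ v, s = inl v → v ∈ A) →
      ∀ v, inl v ∈ σ ++ [s] → v ∈ A := fun σ s h3 h4 v hv =>
    (List.mem_append.1 hv).elim (h3 v) fun h => h4 v (List.mem_singleton.1 h).symm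
  have hwf : ∀ (σ : List (W ⊕ ℕ)) s k k', (∀ j, inr j ∈ σ → j < k) → k ≤ k' →
      (∀ j, s = inr j → j < k') → ∀ j, inr j ∈ σ ++ [s] → j < k' := fun σ s k k' h3 h4 h5 j hj =>
    (List.mem_append.1 hj).elim (fun h => (h3 j h).trans_le h4)
      fun h => h5 j (List.mem_singleton.1 h).symm
  let V : ℕ × List (W ⊕ ℕ) → Set (ℕ → I → Bool) := fun p =>
    (⋃ v ∈ A, O (p.1, p.2 ++ [inl v])) ∪ (⋃ j ∈ Iio p.1, O (p.1, p.2 ++ [inr j])) ∪
      ⋃ q, (fun z => update z p.1 q) ⁻¹' O (p.1 + 1, p.2 ++ [inr p.1])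
  have hV : ∀ p, IsOpen (V p) := fun p => ((isOpen_biUnion fun _ _ => isOpen_interior).union
    (isOpen_biUnion fun _ _ => isOpen_interior)).union (isOpen_iUnion fun q =>
      isOpen_interior.preimage (continuous_id.update _ continuous_const))
  obtain ⟨γA, hγA⟩ := bdd hAc
  have hB : ∀ k σ, (∀ v, inl v ∈ σ → v ∈ A) → (∀ j, inr j ∈ σ → j < k) →
      O (k, σ) ⊆ closure (V (k, σ)) := by
    intro k σ h3 h4 z0 hz0
    refine mem_closure_iff.2 fun U hU h5 => ?_
    obtain ⟨z, hz, u, h6, h7, h8, t, h9, h10⟩ :=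
      mem_closure_iff.1 (mem_iInter.1 (interior_subset hz0) γA) U hU h5
    simp only at h6 h7 h8 h10
    have h11 : ∀ j < k, u j ∉ A := fun j hj h => absurd (hγA _ h) (not_lt.2 (h7 j hj))
    by_cases h12 : t σ.length ∈ A
    · obtain ⟨y, h13, h14⟩ := mem_closure_iff.1 (hγ0 (k, σ ++ [inl (t σ.length)])
        ⟨u, h6, fun j hj => hbig _ (hsm _ _ h3 fun v hv => inl_injective hv ▸ h12) _ (h11 j hj),
          h8, t, h9, by simp [pre_succ, h10]⟩) U hU hz
      exact ⟨y, h13, Or.inl (Or.inl (mem_biUnion h12 h14))⟩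
    by_cases h13 : ∃ j < k, u j = t σ.length
    · obtain ⟨j, hj, h13⟩ := h13
      obtain ⟨y, h14, h15⟩ := mem_closure_iff.1 (hγ0 (k, σ ++ [inr j])
        ⟨u, h6, fun j hj => hbig _ (hsm _ _ h3 (fun v hv => by cases hv)) _ (h11 j hj),
          h8, t, h9, by simp [pre_succ, h10, h13]⟩) U hU hz
      exact ⟨y, h14, Or.inl (Or.inr (mem_biUnion hj h15))⟩
    · push Not at h13
      obtain ⟨y, h14, h15⟩ := mem_closure_iff.1 (hγ0 (k + 1, σ ++ [inr k])
        (a := update z k (x (t σ.length))) ⟨_, injOn_update h6 h13, fun j hj =>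
          hbig _ (hsm _ _ h3 (fun v hv => by cases hv)) _
            (all_update (P := fun _ w => w ∉ A) h11 h12 j hj), all_update₂ _ h8, t, h9,
          by rw [map_new h4, h10, List.length_append, List.length_singleton, pre_succ]⟩) ((fun y => update y k (z k)) ⁻¹' U)
        (hU.preimage (continuous_id.update _ continuous_const)) (by simpa using hz)
      exact ⟨_, h14, Or.inr (mem_iUnion.2 ⟨y k, by simpa using h15⟩)⟩
  have hC : ∀ p : ℕ × List (W ⊕ ℕ), ∃ γ : W, (∀ v, inl v ∈ p.2 → v ∈ A) →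
      (∀ j, inr j ∈ p.2 → j < p.1) → ∀ u : ℕ → W, InjOn u (Iio p.1) → (∀ j < p.1, γ ≤ u j) →
        ∀ z ∈ O p, (∀ j < p.1, z j = x (u j)) → ∃ z' ∈ V p, ∀ j < p.1, z' j = x (u j) := by
    intro p
    by_cases h : (∀ v, inl v ∈ p.2 → v ∈ A) ∧ ∀ j, inr j ∈ p.2 → j < p.1
    swap
    · exact ⟨γA, fun h3 h4 => absurd ⟨h3, h4⟩ h⟩
    obtain ⟨γ, h3⟩ := hL (V p ∪ (closure (O p))ᶜ) ((hV p).union isClosed_closure.isOpen_compl)
      (dense_iff_inter_open.2 fun U hU ⟨z, hz⟩ => by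
        by_cases h3 : z ∈ closure (O p)
        · obtain ⟨y, h4, h5⟩ := mem_closure_iff.1 h3 U hU hz
          obtain ⟨y', h6, h7⟩ := mem_closure_iff.1 (hB _ _ h.1 h.2 h5) U hU h4
          exact ⟨y', h6, Or.inl h7⟩
        · exact ⟨z, hz, Or.inr h3⟩)
    refine ⟨γ, fun _ _ u h4 h5 z hz h6 => ?_⟩
    obtain ⟨z', ⟨h7, h8⟩, h9⟩ := h3 p.1 u h4 h5 z _ isOpen_interior hz h6
    exact ⟨z', h8.resolve_right fun h10 => h10 (subset_closure h7),
      fun j hj => (h9 j hj).trans (h6 j hj)⟩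
  choose γ1 hγ1 using hC
  obtain ⟨γ, hγ⟩ := bdd ((pats hAc).image γ1)
  obtain ⟨A', h3, h4, h5⟩ := hD γ
  let P : List W → Prop := fun l => ∃ k σ u z, (∀ v, inl v ∈ σ → v ∈ A) ∧
    (∀ j, inr j ∈ σ → j < k) ∧ InjOn u (Iio k) ∧ (∀ j < k, γ ≤ u j) ∧ z ∈ O (k, σ) ∧
      (∀ j < k, z j = x (u j)) ∧ σ.map (Sum.elim id u) = l
  have hstep : ∀ l, P l → ∃ w, P (l ++ [w]) := by
    rintro _ ⟨k, σ, u, z, h6, h7, h8, h9, h10, h11, rfl⟩
    obtain ⟨z', (h12 | h12) | h12, h13⟩ := hγ1 (k, σ) h6 h7 u h8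
      (fun j hj => (hγ _ ⟨(k, σ), h6, rfl⟩).le.trans (h9 j hj)) z h10 h11
    · obtain ⟨v, hv, h12⟩ := mem_iUnion₂.1 h12
      exact ⟨v, k, _, u, z', hsm _ _ h6 fun v' h => inl_injective h ▸ hv,
        hwf _ _ k k h7 le_rfl (fun j h => by cases h), h8, h9, h12, h13, by simp⟩
    · obtain ⟨j, hj, h12⟩ := mem_iUnion₂.1 h12
      exact ⟨u j, k, _, u, z', hsm _ _ h6 (fun v' h => by cases h),
        hwf _ _ k k h7 le_rfl fun j' h => inr_injective h ▸ hj, h8, h9, h12, h13, by simp⟩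
    · obtain ⟨q, h12⟩ := mem_iUnion.1 h12
      obtain ⟨w, h14, h15, h16⟩ := fresh h5 isOpen_interior h12 u
      exact ⟨w, k + 1, _, _, _, hsm _ _ h6 (fun v' h => by cases h),
        hwf _ _ k _ h7 k.le_succ fun j' h => inr_injective h ▸ k.lt_succ_self,
        injOn_update h8 h15, all_update (P := fun _ w => γ ≤ w) h9 (h4 w h14), h16,
        all_update₂ w h13, map_new h7 _ _⟩
  have hbd : ∀ a : Finset (ℕ × I), ∃ n, ∀ p ∈ a, p.1 < n := fun a =>
    ⟨a.sup Prod.fst + 1, fun p hp => Nat.lt_succ_of_le (Finset.le_sup (f := Prod.fst) hp)⟩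
  have hcl : ∀ (S : Set (ℕ → I → Bool)) z, (∀ a : Finset (ℕ × I), ∃ z' ∈ S,
      ∀ p ∈ a, z' p.1 p.2 = z p.1 p.2) → z ∈ closure S := fun S z h =>
    mem_closure_iff.2 fun U hU hz =>
      let ⟨a, ha⟩ := basis hU hz; let ⟨z', h6, h7⟩ := h a; ⟨z', ha z' h7, h6⟩
  have hext : ∀ l, ∃ t, P l → x ∘ t ∈ F ∧ pre t l.length = l := by
    intro l
    by_cases hl : P l
    swap
    · exact ⟨fun _ => γ, fun h => absurd h hl⟩
    obtain ⟨t, h6, h7⟩ := ext_seq hstep hl
    refine ⟨t, fun _ => ⟨hF.closure_subset (hcl _ _ fun a => ?_), h6⟩⟩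
    obtain ⟨n, hn⟩ := hbd a
    obtain ⟨k, σ, u, z, -, h8, -, -, h9, h10, h11⟩ := h7 n
    obtain ⟨z', h12, u', -, -, h13, t', h14, h15⟩ := mem_closure_iff.1
      (mem_iInter.1 (interior_subset h9) γ) _ (isOpen_near k (a.image Prod.snd) z)
      fun _ _ _ _ => rfl
    have h16 : σ.length = l.length + n := by simpa [pre] using congrArg List.length h11
    simp only [h16] at h15
    refine ⟨_, h14, fun p hp => ?_⟩
    obtain ⟨s, hs, h17, h18⟩ := both h11 h15 ((hn p hp).trans_le (Nat.le_add_left _ _))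
    simp only [comp_apply, h17, h18]
    cases s with
    | inl v => rfl
    | inr j =>
      simp only [elim_inr, ← h13 j (h8 j hs), ← h10 j (h8 j hs)]
      exact h12 j (h8 j hs) _ (Finset.mem_image_of_mem _ hp)
  choose T hT using hext
  refine ⟨T '' {l | (∀ w ∈ l, w ∈ A ∪ A') ∧ P l},
    ((lists (hAc.union h3)).mono fun l hl => hl.1).image _, ?_, fun t ht => hcl _ _ fun a => ?_⟩
  · rintro _ ⟨l, hl, rfl⟩
    exact (hT l hl.2).1
  obtain ⟨n, hn⟩ := hbd a
  obtain ⟨k, σ, u, h6, h7, h8, h9, h10⟩ : ∃ (k : ℕ) (σ : List (W ⊕ ℕ)) (u : ℕ → W),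
      (∀ v, inl v ∈ σ → v ∈ A) ∧ (∀ j, inr j ∈ σ → j < k) ∧ InjOn u (Iio k) ∧
      (∀ j < k, u j ∉ A) ∧ σ.map (Sum.elim id u) = pre t n := by
    clear hn
    induction n with
    | zero => exact ⟨0, [], t, by simp, by simp, fun _ h => by simp at h, by simp, by simp [pre]⟩
    | succ n ih =>
      obtain ⟨k, σ, u, h6, h7, h8, h9, h10⟩ := ih
      by_cases h11 : t n ∈ A
      · exact ⟨k, σ ++ [inl (t n)], u, hsm _ _ h6 fun v h => inl_injective h ▸ h11,
          hwf _ _ k k h7 le_rfl (fun j h => by cases h), h8, h9, by simp [pre_succ, h10]⟩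
      by_cases h12 : ∃ j < k, u j = t n
      · obtain ⟨j, hj, h12⟩ := h12
        exact ⟨k, σ ++ [inr j], u, hsm _ _ h6 (fun v h => by cases h),
          hwf _ _ k k h7 le_rfl fun j' h => inr_injective h ▸ hj, h8, h9,
          by simp [pre_succ, h10, h12]⟩
      · push Not at h12
        exact ⟨k + 1, σ ++ [inr k], _, hsm _ _ h6 (fun v h => by cases h),
          hwf _ _ k _ h7 k.le_succ fun j' h => inr_injective h ▸ k.lt_succ_self,
          injOn_update h8 h12, all_update (P := fun _ w => w ∉ A) h9 h11,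
          by rw [map_new h7, h10, pre_succ]⟩
  have h11 : σ.length = n := by simpa [pre] using congrArg List.length h10
  obtain ⟨u', h12, h13, z, ⟨h14, h15⟩, h16⟩ := pick h5
    ((isOpen_near k (a.image Prod.snd) (x ∘ u)).inter (isOpen_interior (s := ⋂ γ,
      closure (Ext (k, σ) γ)))) (mem_closure_iff.1 (hγ0 (k, σ) (a := x ∘ u)
      ⟨u, h8, fun j hj => hbig _ h6 _ (h9 j hj), fun _ _ => rfl, t, ht, h11 ▸ h10⟩) _
      (isOpen_near k (a.image Prod.snd) (x ∘ u)) fun _ _ _ _ => rfl) k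
  have h17 : P (σ.map (Sum.elim id u')) :=
    ⟨k, σ, u', z, h6, h7, h12, fun j hj => h4 _ (h13 j hj), h15, h16, rfl⟩
  have h18 := (hT _ h17).2
  rw [List.length_map, h11] at h18
  refine ⟨_, ⟨_, ⟨_, ⟨fun w hw => ?_, h17⟩, rfl⟩, rfl⟩, fun p hp => ?_⟩
  · obtain ⟨s, hs, rfl⟩ := List.mem_map.1 hw
    cases s with
    | inl v => exact Or.inl (h6 v hs)
    | inr j => exact Or.inr (h13 j (h7 j hs))
  · obtain ⟨s, hs, h19, h20⟩ := both h10 h18.symm (hn p hp)
    simp only [comp_apply, h19, h20]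
    cases s with
    | inl v => rfl
    | inr j =>
      simp only [elim_inr, ← h16 j (h7 j hs)]
      exact h14 j (h7 j hs) _ (Finset.mem_image_of_mem _ hp)

end Pool.Agent.H82.Luz
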