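import Pool.Agent.H82.LuzB

set_option autoImplicit false

/-! Under CH: a space with closed-separable countable power whose second function space has a
non-separable closed subspace. -/

namespace Pool.Agent.H82.Luz

open Set Cardinal Filter Topology Function

lemma book : ∃ e : W → Finset W × Finset W × Bool, ∀ v γ, ∃ α, γ < α ∧ e α = v := by
  have h1 : #((Finset W × Finset W × Bool) × W) ≤ #W := by
    have : Infinite W := infinite_iff.2 (by rw [mkW]; exact aleph0_le_aleph 1)
    have h1 : (ℵ₁ : Cardinal.{0}) * 2 = ℵ₁ := mul_eq_left (aleph0_le_aleph 1)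
      ((natCast_lt_aleph0 (n := 2)).le.trans (aleph0_le_aleph 1)) two_ne_zero
    simp [h1]
  obtain ⟨j⟩ := (Cardinal.le_def _ _).1 h1
  have h2 := invFun_surjective j.injective
  refine ⟨fun α => (invFun j α).1, fun v γ => ?_⟩
  by_contra h
  push Not at h
  have h3 : (Set.univ : Set W).Countable := ((iic γ).image fun α => (invFun j α).2).mono
    fun w _ => by
      obtain ⟨α, h3⟩ := h2 (v, w)
      exact ⟨α, not_lt.1 fun h4 => h α h4 (congrArg Prod.fst h3), congrArg Prod.snd h3⟩
  obtain ⟨β, h4⟩ := bdd h3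
  exact lt_irrefl _ (h4 β (mem_univ β))

theorem points (CH : continuum.{0} = ℵ₁) : ∃ (τ : W → Prop) (x : W → {α // τ α} → Bool),
    (∀ G : Set (ℕ → {α // τ α} → Bool), IsOpen G → Dense G → ∃ γ : W, ∀ (k : ℕ) (u : ℕ → W),
      InjOn u (Iio k) → (∀ j < k, γ ≤ u j) → ∀ z O, IsOpen O → z ∈ O →
        (∀ j < k, z j = x (u j)) → ∃ z' ∈ O ∩ G, ∀ j < k, z' j = z j) ∧
    (∀ γ, ∃ Δ : Set W, Δ.Countable ∧ ∀ (a : Finset {α // τ α}) (q : {α // τ α} → Bool)
      (m : Set W), m.Finite → ∀ y ∉ Δ, ¬ τ y → ∀ b, ∃ α : {α // τ α}, α.1 ∈ Δ ∧ γ ≤ α.1 ∧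
        α.1 ∉ m ∧ (∀ i ∈ a, x α i = q i) ∧ x y α = b) ∧
    (∀ s s' : {α // τ α}, x s s' = x s' s) ∧ (∀ y, ¬ τ y → ∀ i, y ≤ i.1 → x y i = false) ∧
    ∀ γ, ∃ i : {α // τ α}, γ < i.1 ∧ ∃ y, ¬ τ y ∧ γ < y ∧ x y i = true := by
  classical
  obtain ⟨e, he⟩ := book
  let τ : W → Prop := fun α => (e α).2.2 = true
  obtain ⟨r, h1, h2⟩ := luzin CH (Subtype.val : {α // τ α} → W)
    ((mk_subtype_le _).trans mkW.le) (fun γ => (iio γ).preimage Subtype.val_injective)
    (fun α => {q | ∀ i, i.1 ∈ (e α).1 → q i = decide (i.1 ∈ (e α).2.1)})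
    (fun α => by
      have : {q : {α // τ α} → Bool | ∀ i, i.1 ∈ (e α).1 → q i = decide (i.1 ∈ (e α).2.1)} =
        ⋂ i ∈ Subtype.val ⁻¹' ((e α).1 : Set W), (fun q => q i) ⁻¹' {decide (i.1 ∈ (e α).2.1)} := by
        ext; simp
      rw [this]
      exact ((Finset.finite_toSet _).preimage Subtype.val_injective.injOn).isOpen_biInter
        fun i _ => (isOpen_discrete _).preimage (continuous_apply i))
    fun α => ⟨fun i => decide (i.1 ∈ (e α).2.1), fun _ _ => rfl⟩
  let x : W → {α // τ α} → Bool := fun α i =>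
    if i.1 < α then r α i else if h : τ α then r i.1 ⟨α, h⟩ else false
  refine ⟨τ, x, fun G h3 h4 => ?_, fun γ => ?_, fun s s' => ?_, fun y hy i hi => ?_, fun γ => ?_⟩
  · obtain ⟨γ, h5⟩ := h2 G h3 h4
    exact ⟨γ, fun k u h6 h7 z O h8 h9 h10 => h5 k u h6 h7 z O h8 h9 fun j hj i hi => by
      rw [h10 j hj]; exact if_pos (hi.trans_le (h7 j hj))⟩
  · have h3 : ∀ c : Finset W × Finset W,
        {α | e α = (c.1, c.2, true) ∧ γ ≤ α ∧ ∀ i ∈ c.1, i < α}.Infinite := by
      intro c h3
      obtain ⟨β, h4⟩ := bdd ((h3.union c.1.finite_toSet).countable.insert γ)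
      obtain ⟨α, h5, h6⟩ := he (c.1, c.2, true) β
      exact lt_asymm h5 (h4 α (Or.inr (Or.inl ⟨h6, ((h4 γ (Or.inl rfl)).trans h5).le,
        fun i hi => (h4 i (Or.inr (Or.inr hi))).trans h5⟩)))
    let s : Finset W × Finset W → ℕ → {α // τ α} := fun c n =>
      ⟨((h3 c).natEmbedding _ n).1, by
        simp only [τ, ((h3 c).natEmbedding _ n).2.1]⟩
    have hs : ∀ c, Injective (s c) := fun c n n' h => ((h3 c).natEmbedding _).injective
      (Subtype.ext (congrArg (fun i : {α // τ α} => i.1) h))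
    have hs' : ∀ c, ∀ m : Set {α // τ α}, m.Finite → ∀ᶠ n in atTop, s c n ∉ m := fun c m hm => by
      rw [← Nat.cofinite_eq_atTop]
      exact (hm.preimage (hs c).injOn).eventually_cofinite_notMem
    have h4 := fun (c : Finset W × Finset W) (p : List Bool) (n0 : ℕ) => h2
      {t | ∃ n ≥ n0, ∀ j < p.length, t j (s c n) = p.getD j false}
      (by
        have : {t : ℕ → {α // τ α} → Bool | ∃ n ≥ n0, ∀ j < p.length,
            t j (s c n) = p.getD j false} = ⋃ n ∈ Ici n0, {t | ∀ j < p.length, ∀ i ∈ ({s c n} :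
            Finset {α // τ α}), t j i = p.getD j false} := by ext; simp
        rw [this]
        exact isOpen_biUnion fun n _ => isOpen_near _ _ fun j _ => p.getD j false)
      (dense_iff.2 fun a t => by
        obtain ⟨n, h4, h5⟩ := ((eventually_ge_atTop n0).and
          (hs' c _ (a.image Prod.snd).finite_toSet)).exists
        exact ⟨fun j => update (t j) (s c n) (p.getD j false), ⟨n, h4, fun j _ => update_self ..⟩,
          fun q hq => update_of_ne (fun h => h5 (by rw [← h]; exact Finset.mem_image_of_mem _ hq)) _ _⟩)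
    choose Γ hΓ using h4
    obtain ⟨Δ, -, h5, h6⟩ := ScEG2.hull (fun l : List W => (⋃ w ∈ {w | w ∈ l}, Iic w) ∪
      ⋃ c ∈ (l.toFinset.powerset ×ˢ l.toFinset.powerset : Finset (Finset W × Finset W)),
        range (fun n => (s c n).1) ∪ ⋃ p, ⋃ n0, Iio (Γ c p n0))
      (fun l => (l.finite_toSet.countable.biUnion fun w _ => iic w).union
        ((Finset.countable_toSet _).biUnion fun c _ => (countable_range _).union
          (countable_iUnion fun p => countable_iUnion fun n0 => iio _))) ∅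
    refine ⟨Δ, le_aleph0_iff_set_countable.1 (h6 _ le_rfl (by simp)), fun a q m hm y hy h7 b => ?_⟩
    let c : Finset W × Finset W := ((a.filter fun i => i.1 ∈ Δ).image Subtype.val,
      (a.filter fun i => i.1 ∈ Δ ∧ q i = true).image Subtype.val)
    have h8 : range (fun n => (s c n).1) ∪ (⋃ p, ⋃ n0, Iio (Γ c p n0)) ⊆ Δ := by
      refine Subset.trans ?_ (subset_union_right.trans (h5 c.1.toList fun w hw => ?_))
      · refine subset_biUnion_of_mem (u := fun c => range (fun n => (s c n).1) ∪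
          ⋃ p, ⋃ n0, Iio (Γ c p n0)) (Finset.mem_coe.2 (Finset.mem_product.2 ⟨by simp, ?_⟩))
        rw [Finset.toList_toFinset, Finset.mem_powerset]
        exact Finset.image_subset_image (Finset.monotone_filter_right _ fun i _ h => h.1)
      · obtain ⟨i, hi, rfl⟩ := Finset.mem_image.1 (Finset.mem_toList.1 hw)
        exact (Finset.mem_filter.1 hi).2
    let col : W → Bool := fun w => if h : τ w then q ⟨w, h⟩ else b
    let L := (insert y ((a.filter fun i => i.1 ∉ Δ).image Subtype.val)).toList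
    have hL : ∀ w ∈ L, w ∉ Δ := by
      intro w hw
      rcases Finset.mem_insert.1 (Finset.mem_toList.1 hw) with rfl | hw
      · exact hy
      · obtain ⟨i, hi, rfl⟩ := Finset.mem_image.1 hw
        exact (Finset.mem_filter.1 hi).2
    obtain ⟨n0, h9⟩ := eventually_atTop.1 (hs' c _ (hm.preimage Subtype.val_injective.injOn))
    obtain ⟨z, ⟨-, n, h10, h11⟩, h12⟩ := hΓ c (L.map col) n0 L.length (fun j => L.getD j y)
      (fun i hi j hj h => by
        simp only [List.getD_eq_getElem _ _ hi, List.getD_eq_getElem _ _ hj] at h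
        exact (Finset.nodup_toList _).getElem_inj_iff.1 h)
      (fun j hj => not_lt.1 fun h => hL _ (by
        simp only [List.getD_eq_getElem _ _ hj]; exact List.getElem_mem hj)
        (h8 (Or.inr (mem_iUnion₂.2 ⟨_, _, h⟩))))
      (fun j => r (L.getD j y)) _ isOpen_univ (mem_univ _) fun _ _ _ _ => rfl
    have h13 : (s c n).1 ∈ Δ := h8 (Or.inl ⟨n, rfl⟩)
    have h14 : ∀ w ∈ L, (s c n).1 < w ∧ r w (s c n) = col w := by
      intro w hw
      refine ⟨not_le.1 fun h => hL w hw (h5 [(s c n).1] (by simpa using h13)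
        (Or.inl (mem_biUnion (x := (s c n).1) (by simp) h))), ?_⟩
      obtain ⟨j, hj, rfl⟩ := List.getElem_of_mem hw
      have h14 := h11 j (by simpa using hj)
      rw [h12 j hj, List.getD_eq_getElem _ _ hj, List.getD_eq_getElem _ _ (by simpa using hj),
        List.getElem_map] at h14
      exact h14
    obtain ⟨h15, h16, h17⟩ := ((h3 c).natEmbedding _ n).2
    refine ⟨s c n, h13, h16, h9 n h10, fun i hi => ?_, ?_⟩
    · by_cases h : i.1 ∈ Δ
      · have h18 : i.1 ∈ c.1 := Finset.mem_image_of_mem _ (Finset.mem_filter.2 ⟨hi, h⟩)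
        refine (if_pos (h17 _ h18)).trans ((h1 (s c n).1 i (h15.symm ▸ h18)).trans ?_)
        have h19 : (e (s c n).1).2.1 = c.2 := congrArg (·.2.1) h15
        rw [h19]
        cases hq : q i <;> simp [c, hi, h, hq, Subtype.val_injective.eq_iff]
      · obtain ⟨h18, h19⟩ := h14 i.1 (Finset.mem_toList.2 (Finset.mem_insert_of_mem
          (Finset.mem_image_of_mem _ (Finset.mem_filter.2 ⟨hi, h⟩))))
        exact (if_neg h18.le.not_gt).trans ((dif_pos (s c n).2).trans (h19.trans (dif_pos i.2)))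
    · obtain ⟨h18, h19⟩ := h14 y (Finset.mem_toList.2 (Finset.mem_insert_self _ _))
      exact (if_pos h18).trans (h19.trans (dif_neg h7))
  · rcases lt_trichotomy s.1 s'.1 with h | h | h
    · simp only [x, if_pos h, if_neg h.le.not_gt, dif_pos s.2]
    · rw [Subtype.ext h]
    · simp only [x, if_pos h, if_neg h.le.not_gt, dif_pos s'.2]
  · simp only [x, if_neg hi.not_gt, dif_neg hy]
  · obtain ⟨i, h3, h4⟩ := he (∅, ∅, true) γ
    obtain ⟨y, h5, h6⟩ := he ({i}, {i}, false) i
    refine ⟨⟨i, by simp only [τ, h4]⟩, h3, y, by simp [τ, h6], h3.trans h5,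
      (if_pos h5).trans ((h1 y _ (by simp [h6])).trans (by simp [h6]))⟩

abbrev Cp (X : Type) [TopologicalSpace X] : Type := {f : X → ℝ // Continuous f}

lemma exists_rho : ∃ ρ : (ℕ → ℝ) × (ℕ → ℝ) → ℝ, Continuous ρ ∧ ∀ a b, ρ (a, b) = 0 ↔ a = b := by
  let _ := TopologicalSpace.metrizableSpaceMetric (ℕ → ℝ)
  exact ⟨fun p => dist p.1 p.2, continuous_dist, fun _ _ => dist_eq_zero⟩

lemma basis₁ {I : Type} {O : Set (I → Bool)} (hO : IsOpen O) {q : I → Bool} (hq : q ∈ O) :
    ∃ a : Finset I, ∀ q' : I → Bool, (∀ i ∈ a, q' i = q i) → q' ∈ O := by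
  obtain ⟨a, u, h2, h3⟩ := isOpen_pi_iff.1 hO q hq
  exact ⟨a, fun q' h => h3 fun i hi => by rw [h i hi]; exact (h2 i hi).2⟩

theorem main (CH : continuum.{0} = ℵ₁) : ∃ (X : Type) (_ : TopologicalSpace X), T35Space X ∧
    (∀ F : Set (ℕ → X), IsClosed F → TopologicalSpace.SeparableSpace F) ∧
    ∃ F : Set (Cp (Cp X)), IsClosed F ∧ ¬ TopologicalSpace.SeparableSpace F := by
  classical
  obtain ⟨τ, x, h1, h2, h3, h4, h5⟩ := points CH
  let X := range x
  let ι : W → X := fun α => ⟨x α, α, rfl⟩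
  refine ⟨X, inferInstance, inferInstance, fun F hF => ?_, ?_⟩
  · have he : IsInducing fun (t : ℕ → X) n => (t n).1 :=
      IsInducing.piMap fun _ => IsInducing.subtypeVal
    obtain ⟨F', hF', rfl⟩ := he.isClosed_iff.1 hF
    obtain ⟨D, h6, h7, h8⟩ := closed_sep h1 (fun γ => by
      obtain ⟨Δ, h6, h7⟩ := h2 γ
      obtain ⟨β, h8⟩ := bdd h6
      obtain ⟨-, -, y, h9, h10, -⟩ := h5 β
      refine ⟨{w | w ∈ Δ ∧ γ ≤ w}, h6.mono fun _ h => h.1, fun _ h => h.2, fun O hO ⟨q, hq⟩ hm => ?_⟩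
      obtain ⟨a, ha⟩ := basis₁ hO hq
      obtain ⟨α, h11, h12, h13, h14, -⟩ := h7 a q _ hm y (fun h => lt_asymm h10 (h8 y h)) h9 true
      exact h13 ⟨⟨h11, h12⟩, ha _ h14⟩) hF'
    refine ⟨_, (h6.image (ι ∘ ·)).preimage Subtype.val_injective, Subtype.dense_iff.2 fun p hp => ?_⟩
    choose t ht using fun n => (p n).2
    have h9 : x ∘ t = fun n => (p n).1 := funext ht
    rw [he.closure_eq_preimage_closure_image]
    refine closure_mono ?_ (h9 ▸ h8 t (h9 ▸ hp))
    rintro _ ⟨d, hd, rfl⟩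
    exact ⟨ι ∘ d, ⟨⟨ι ∘ d, h7 d hd⟩, ⟨d, hd, rfl⟩, rfl⟩, rfl⟩
  obtain ⟨Δ, h6, h7⟩ := h2 (Classical.arbitrary W)
  obtain ⟨β, h8⟩ := bdd h6
  obtain ⟨c, hc⟩ := (h6.preimage (Subtype.val_injective (p := τ))).exists_eq_range (by
    obtain ⟨-, -, y, h9, h10, -⟩ := h5 β
    obtain ⟨α, h11, -⟩ := h7 ∅ default ∅ finite_empty y (fun h => lt_asymm h10 (h8 y h)) h9 true
    exact ⟨α, h11⟩)
  obtain ⟨ρ, hρ, hρ0⟩ := exists_rho
  let val : Bool → ℝ := fun b => if b then -1 else -2
  let g : ({α // τ α} → Bool) → ℕ → ℝ := fun p n => val (p (c n))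
  have hg : Continuous g := continuous_pi fun n =>
    (continuous_of_discreteTopology (f := val)).comp (continuous_apply (c n))
  let res : Cp X → ℕ → ℝ := fun f n => f.1 (ι (c n))
  have hev : ∀ p : X, Continuous fun f : Cp X => f.1 p := fun p =>
    (continuous_apply p).comp continuous_subtype_val
  have hres : Continuous res := continuous_pi fun n => hev _
  let Y := {y // ¬ τ y ∧ β < y}
  have h9 : ∀ (y : Y) f, ρ (res f, g (x y)) ≠ 0 := by
    intro y f h
    rw [hρ0] at h
    obtain ⟨O, hO, h9⟩ := isOpen_induced_iff.1 ((Metric.isOpen_ball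
      (x := f.1 (ι (c 0))) (ε := 1 / 2)).preimage f.2)
    obtain ⟨a, ha⟩ := basis₁ hO (q := x (c 0)) (show ι (c 0) ∈ Subtype.val ⁻¹' O by
      rw [h9]; exact Metric.mem_ball_self one_half_pos)
    have h10 : ∀ b, |val b - f.1 (ι (c 0))| < 1 / 2 := by
      intro b
      obtain ⟨α, h10, -, -, h11, h12⟩ := h7 a _ ∅ finite_empty y
        (fun h => lt_asymm y.2.2 (h8 y h)) y.2.1 b
      obtain ⟨n, rfl⟩ : α ∈ range c := hc ▸ h10
      have h13 : ι (c n) ∈ Subtype.val ⁻¹' O := ha _ h11
      rw [h9] at h13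
      have h14 : f.1 (ι (c n)) = val b := (congrFun h n).trans (congrArg val h12)
      rw [← h14]
      exact h13
    have h11 := abs_lt.1 (h10 true)
    have h12 := abs_lt.1 (h10 false)
    simp only [val, if_true, Bool.false_eq_true, if_false] at h11 h12
    linarith [h11.1, h11.2, h12.1, h12.2]
  let φ : Y → Cp (Cp X) := fun y => ⟨fun f => max (res f 0) 0 * f.1 (ι y) +
      max (-res f 0) 0 / ρ (res f, g (x y)),
    (((hev _).max continuous_const).mul (hev _)).add (((hev _).neg.max continuous_const).div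
      (hρ.comp (hres.prodMk continuous_const)) (h9 y))⟩
  have hpos : ∀ y f, 0 < res f 0 → (φ y).1 f = res f 0 * f.1 (ι y) := fun y f h => by
    simp only [φ, max_eq_left h.le, max_eq_right (neg_nonpos.2 h.le), zero_div, add_zero]
  have h10 : ∀ ψ ∈ closure (range φ), ∃ w, ¬ τ w ∧ ∀ f, 0 < res f 0 →
      ψ.1 f = res f 0 * f.1 (ι w) := by
    intro ψ hψ
    have : (comap φ (𝓝 ψ)).NeBot := comap_neBot fun t ht =>
      let ⟨_, h10, y, h11⟩ := mem_closure_iff_nhds.1 hψ t ht; ⟨y, h11 ▸ h10⟩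
    let v := Ultrafilter.of (comap φ (𝓝 ψ))
    have h10 : ∀ f, Tendsto (fun y => (φ y).1 f) v (𝓝 (ψ.1 f)) := fun f =>
      (((continuous_apply f).comp continuous_subtype_val).tendsto ψ).comp
        (tendsto_iff_comap.2 (Ultrafilter.of_le _))
    obtain ⟨p, -, hp⟩ := isCompact_univ.ultrafilter_le_nhds (v.map fun y => x y) (by simp)
    have hp' : Tendsto (fun y : Y => x y) v (𝓝 p) := hp
    obtain ⟨w, rfl⟩ : p ∈ range x := by
      by_contra h
      obtain ⟨a, ha, δ, hδ, h11⟩ := ScEG2.exists_box (f := fun (f : Cp X) => f.1)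
        IsInducing.subtypeVal (ψ.2.continuousAt (x := ⟨fun _ => 1, continuous_const⟩)
          (Metric.ball_mem_nhds _ one_pos))
      obtain ⟨b, hb⟩ := basis₁ ((ha.insert (ι (c 0))).image Subtype.val).isClosed.isOpen_compl
        (q := p) (by rintro ⟨z, -, rfl⟩; exact h z.2)
      have h12 : Continuous fun q : {α // τ α} → Bool => if ∀ i ∈ b, q i = p i then (3 : ℝ) else 1 :=
        (continuous_of_discreteTopology (f := fun q : b → Bool =>
          if ∀ i : b, q i = p i then (3 : ℝ) else 1)).comp (continuous_pi fun i : b =>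
            continuous_apply i.1) |>.congr fun q => by simp
      let f : Cp X := ⟨_, h12.comp continuous_subtype_val⟩
      have h13 : ∀ z ∈ insert (ι (c 0)) a, f.1 z = 1 := fun z hz => if_neg fun h13 =>
        hb _ h13 ⟨z, hz, rfl⟩
      have h14 : res f 0 = 1 := h13 _ (Or.inl rfl)
      have h15 : ψ.1 f = 3 := tendsto_nhds_unique (h10 f) (by
        simp only [hpos _ f (h14 ▸ one_pos), h14, one_mul]
        have h15 := (h12.tendsto p).comp hp'
        rwa [if_pos fun _ _ => rfl] at h15)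
      have h16 : ψ.1 ⟨fun _ => 1, continuous_const⟩ = 1 := tendsto_nhds_unique (h10 _) (by
        simp only [hpos _ ⟨fun _ => 1, continuous_const⟩ one_pos, res, one_mul]
        exact tendsto_const_nhds)
      have h17 := h11 (a := f) fun z hz => by simpa [h13 z (Or.inr hz)] using hδ
      simp only [mem_preimage, Metric.mem_ball, h15, h16, Real.dist_eq] at h17
      norm_num at h17
    have h11 : Tendsto (fun y : Y => ι y) v (𝓝 (ι w)) := tendsto_subtype_rng.2 hp'
    refine ⟨w, fun hw => ?_, fun f hf => tendsto_nhds_unique (h10 f) ?_⟩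
    · let f : Cp X := ⟨fun p => val (p.1 ⟨w, hw⟩), (continuous_of_discreteTopology (f := val)).comp
        ((continuous_apply _).comp continuous_subtype_val)⟩
      have h12 : res f = g (x w) := funext fun n => congrArg val (h3 (c n) ⟨w, hw⟩)
      have h13 : res f 0 < 0 := by
        simp only [res, f, val]
        split_ifs <;> norm_num
      have h14 := (h10 f).mul ((hρ.tendsto _).comp
        ((tendsto_const_nhds (x := res f)).prodMk_nhds ((hg.tendsto _).comp hp')))
      rw [(hρ0 _ _).2 h12, mul_zero] at h14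
      have h15 : ∀ y, (φ y).1 f * ρ (res f, g (x y)) = -res f 0 := fun y => by
        simp only [φ, max_eq_right h13.le, max_eq_left (neg_nonneg.2 h13.le), zero_mul, zero_add]
        exact div_mul_cancel₀ _ (h9 y f)
      have h16 := tendsto_nhds_unique (h14.congr h15) tendsto_const_nhds
      linarith
    · simp only [hpos _ f hf]
      exact ((f.2.tendsto _).comp h11).const_mul _
  refine ⟨closure (range φ), isClosed_closure, fun ⟨Q, h11, h12⟩ => ?_⟩
  choose! w hw1 hw2 using h10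
  obtain ⟨η, h13⟩ := bdd ((h11.image fun ψ => w ψ.1).insert β)
  obtain ⟨i, h14, y, h15, h16, h17⟩ := h5 η
  let f : Cp X := ⟨fun p => if p.1 i then 2 else 1,
    (continuous_of_discreteTopology (f := fun b : Bool => if b then (2 : ℝ) else 1)).comp
      ((continuous_apply i).comp continuous_subtype_val)⟩
  have h18 : 0 < res f 0 := by
    simp only [res, f]
    split_ifs <;> norm_num
  have h19 := closure_minimal (t := {ψ : closure (range φ) | ψ.1.1 f = res f 0})
    (fun ψ hψ => by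
      have h19 : (ι (w ψ.1)).1 i = false :=
        h4 _ (hw1 _ ψ.2) i ((h13 _ (Or.inr ⟨ψ, hψ, rfl⟩)).trans h14).le
      show _ = _
      rw [hw2 _ ψ.2 f h18]
      simp [f, h19])
    (isClosed_eq (((continuous_apply f).comp continuous_subtype_val).comp continuous_subtype_val)
      continuous_const)
    (h12 ⟨φ ⟨y, h15, (h13 β (Or.inl rfl)).trans h16⟩, subset_closure ⟨_, rfl⟩⟩)
  have h20 := (hpos ⟨y, h15, (h13 β (Or.inl rfl)).trans h16⟩ f h18).symm.trans h19
  have h21 : f.1 (ι y) = 2 := if_pos h17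
  rw [h21] at h20
  linarith

end Pool.Agent.H82.Luz
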