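import Mathlib
import Pool.Agent.H82.FS

set_option autoImplicit false

namespace Pool.Agent.H82.UKw

open Set Filter Topology Pool.Agent.H82.FS Metric

section soft
variable {I : Type} [Fintype I]

def C (I : Type) (a : ℕ) : Set (I → ℝ) := {y | ∃ E : Finset I, E.card ≤ a ∧ ∀ s ∉ E, y s = 0}

/-- soft thresholding at the distance to the `a`-sparse vectors -/
noncomputable def γ (a : ℕ) (x : I → ℝ) (s : I) : ℝ :=
  x s - max (-infDist x (C I a)) (min (infDist x (C I a)) (x s))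

omit [Fintype I] in
lemma C_ne (a : ℕ) : (C I a).Nonempty := ⟨0, ∅, Nat.zero_le _, fun _ _ => rfl⟩

lemma sub_γ (a : ℕ) (x : I → ℝ) (s : I) : |x s - γ a x s| ≤ infDist x (C I a) := by
  have := infDist_nonneg (x := x) (s := C I a)
  rw [γ, sub_sub_cancel, abs_le]
  exact ⟨le_max_left _ _, max_le (by linarith) (min_le_left _ _)⟩

lemma γ_mem (a : ℕ) (x : I → ℝ) : γ a x ∈ C I a := by
  classical
  let G := Finset.univ.filter fun s => infDist x (C I a) < |x s|
  refine ⟨G, ?_, fun s hs => ?_⟩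
  · rcases G.eq_empty_or_nonempty with h | h
    · simp [h]
    obtain ⟨s0, h0, hmin⟩ := G.exists_min_image (fun s => |x s|) h
    obtain ⟨y, ⟨E, hE, hy⟩, hd⟩ := (infDist_lt_iff (C_ne a)).1 (Finset.mem_filter.1 h0).2
    refine (Finset.card_le_card fun s hs => by_contra fun h' => ?_).trans hE
    have h1 := (dist_le_pi_dist x y s).trans_lt hd
    rw [hy s h', Real.dist_eq, sub_zero] at h1
    exact absurd (hmin s hs) (not_le.2 h1)
  · have h := abs_le.1 (not_lt.1 fun h => hs (Finset.mem_filter.2 ⟨Finset.mem_univ _, h⟩))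
    rw [γ, min_eq_right h.2, max_eq_right h.1, sub_self]

lemma inf_le {a : ℕ} {x : I → ℝ} {ε : ℝ} (hε : 0 ≤ ε) {E : Finset I} (hE : E.card ≤ a)
    (h : ∀ s ∉ E, |x s| ≤ ε) : infDist x (C I a) ≤ ε := by
  classical
  have h0 : (fun s => if s ∈ E then x s else 0) ∈ C I a := ⟨E, hE, fun s hs => if_neg hs⟩
  refine (infDist_le_dist_of_mem h0).trans ((dist_pi_le_iff hε).2 fun s => ?_)
  by_cases hs : s ∈ E
  · simp [hs, hε]
  · simpa [hs, Real.dist_eq] using h s hs

lemma γ_uc (a : ℕ) (s : I) : UniformContinuous fun x : I → ℝ => γ a x s := by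
  have h := uniformContinuous_infDist_pt (C I a)
  have h2 := Pi.uniformContinuous_proj (fun _ : I => ℝ) s
  exact h2.sub (lipschitzWith_max.uniformContinuous.comp (h.neg.prodMk
    (lipschitzWith_min.uniformContinuous.comp (h.prodMk h2))))

end soft

abbrev J : Type := Σ k : ℕ, Fin (2 ^ k)

def a (k i : ℕ) : ℕ := 2 ^ k / 2 ^ (i + 1)

lemma a_half (k i : ℕ) : a k (i + 1) + a k (i + 1) ≤ a k i := by
  have : a k (i + 1) = a k i / 2 := by rw [a, a, Nat.div_div_eq_div_mul, ← pow_succ]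
  omega

lemma a_zero {k i : ℕ} (h : k ≤ i) : a k i = 0 :=
  Nat.div_eq_of_lt (Nat.pow_lt_pow_right one_lt_two (by omega))

lemma a_pos {k i : ℕ} (h : i + 1 ≤ k) : 1 ≤ a k i :=
  Nat.div_pos (Nat.pow_le_pow_right two_pos h) (by positivity)

/-- the density filter on dyadic blocks -/
def Z : Filter J where
  sets := {A | ∀ i, ∀ᶠ k in atTop, ∃ E : Finset (Fin (2 ^ k)), E.card ≤ a k i ∧
    ∀ s ∉ E, (⟨k, s⟩ : J) ∈ A}
  univ_sets := fun _ => Eventually.of_forall fun _ => ⟨∅, Nat.zero_le _, fun _ _ => trivial⟩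
  sets_of_superset := fun hc h i => (hc i).mono fun _ ⟨E, h1, h2⟩ =>
    ⟨E, h1, fun s hs => h (h2 s hs)⟩
  inter_sets := fun hc hd i => ((hc (i + 1)).and (hd (i + 1))).mono
    fun k ⟨⟨E, h1, h2⟩, E', h3, h4⟩ =>
    ⟨E ∪ E', (Finset.card_union_le _ _).trans ((add_le_add h1 h3).trans (a_half k i)), fun s hs =>
      ⟨h2 s fun h => hs (Finset.mem_union_left _ h), h4 s fun h => hs (Finset.mem_union_right _ h)⟩⟩

lemma fib (k : ℕ) : (Sigma.fst ⁻¹' {k})ᶜ ∈ Z := fun _ =>
  (eventually_ne_atTop k).mono fun _ h => ⟨∅, Nat.zero_le _, fun _ _ => h⟩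

lemma sel {B : Set J} (hB : InjOn Sigma.fst B) : Bᶜ ∈ Z := by
  refine fun i => (eventually_ge_atTop (i + 1)).mono fun k hk => ?_
  by_cases h : ∃ s, (⟨k, s⟩ : J) ∈ B
  · obtain ⟨s, hs⟩ := h
    exact ⟨{s}, by simpa using a_pos hk, fun t ht h' =>
      ht (Finset.mem_singleton.2 (eq_of_heq (Sigma.mk.inj (hB h' hs rfl)).2))⟩
  · exact ⟨∅, Nat.zero_le _, fun t _ h' => h ⟨t, h'⟩⟩

lemma Z_le : Z ≤ cofinite := by
  rw [le_cofinite_iff_compl_singleton_mem]
  exact fun s => mem_of_superset (fib s.1) fun t ht h => ht (by rw [h]; rfl)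

lemma Z_ne : ∅ ∉ Z := by
  intro h
  obtain ⟨k, E, h1, h2⟩ := (h 0).exists
  obtain ⟨s, -, hs⟩ := Finset.exists_mem_notMem_of_card_lt_card (s := E) (t := Finset.univ)
    (h1.trans_lt (by simpa [a] using Nat.div_lt_self (by positivity) one_lt_two))
  exact h2 s hs

def Sm (i : ℕ) (x : J → ℝ) : Prop := ∀ ε > 0, ∀ᶠ k in atTop, ∃ E : Finset (Fin (2 ^ k)),
  E.card ≤ a k i ∧ ∀ s ∉ E, |x ⟨k, s⟩| < ε

abbrev C0 {A : Type} (x : A → ℝ) : Prop := Tendsto x cofinite (𝓝 0)

lemma Z_iff {x : J → ℝ} : Tendsto x Z (𝓝 0) ↔ ∀ i, Sm i x := by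
  simp only [Metric.tendsto_nhds, Real.dist_eq, sub_zero]
  exact ⟨fun h i ε hε => h ε hε i, fun h ε hε i => h i ε hε⟩

lemma C0_iff {x : J → ℝ} : C0 x ↔ ∀ ε > 0, ∀ᶠ k in atTop, ∀ s, |x ⟨k, s⟩| < ε := by
  simp only [Metric.tendsto_nhds, Real.dist_eq, sub_zero, ← Nat.cofinite_eq_atTop,
    eventually_cofinite]
  refine forall₂_congr fun ε _ => ⟨fun h => (h.image Sigma.fst).subset fun k hk => ?_, fun h => ?_⟩
  · obtain ⟨s, hs⟩ := not_forall.1 hk
    exact ⟨⟨k, s⟩, hs, rfl⟩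
  · refine (h.biUnion fun k _ => finite_range (Sigma.mk k)).subset ?_
    rintro ⟨k, s⟩ hs
    exact mem_biUnion (fun h' => hs (h' s)) ⟨s, rfl⟩

noncomputable def Γ (i : ℕ) (x : J → ℝ) (j : J) : ℝ := γ (a j.1 i) (fun s => x ⟨j.1, s⟩) j.2

lemma L1 {i : ℕ} {x : J → ℝ} (h : Sm i x) : C0 (x - Γ i x) := by
  refine C0_iff.2 fun ε hε => (h _ (half_pos hε)).mono fun k ⟨E, h1, h2⟩ s => ?_
  exact ((sub_γ (a k i) (fun s => x ⟨k, s⟩) s).trans
    (inf_le (half_pos hε).le h1 fun s hs => (h2 s hs).le)).trans_lt (half_lt_self hε)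

lemma L2 (i : ℕ) (x : J → ℝ) : Sm i (Γ i x) := fun ε hε => Eventually.of_forall fun k => by
  obtain ⟨E, h1, h2⟩ := γ_mem (a k i) fun s => x ⟨k, s⟩
  exact ⟨E, h1, fun s hs => by rw [show Γ i x ⟨k, s⟩ = 0 from h2 s hs, abs_zero]; exact hε⟩

lemma L3 {i : ℕ} {x y : J → ℝ} (h : Sm i x) (hy : C0 y) : Sm i (x + y) := fun ε hε =>
  ((h _ (half_pos hε)).and (C0_iff.1 hy _ (half_pos hε))).mono fun k ⟨⟨E, h1, h2⟩, h3⟩ =>
    ⟨E, h1, fun s hs => (abs_add_le _ _).trans_lt (by linarith [h2 s hs, h3 s])⟩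

lemma L4 {i : ℕ} {x : J → ℝ} (h : Sm (i + 1) x) : Sm i x := fun ε hε =>
  (h ε hε).mono fun k ⟨E, h1, h2⟩ => ⟨E, by have := a_half k i; omega, h2⟩

lemma C0.sub {A : Type} {x y : A → ℝ} (hx : C0 x) (hy : C0 y) : C0 (x - y) := by
  have h := Tendsto.sub hx hy
  rwa [sub_zero] at h

lemma C0.add {A : Type} {x y : A → ℝ} (hx : C0 x) (hy : C0 y) : C0 (x + y) := by
  have h := Tendsto.add hx hy
  rwa [add_zero] at h

lemma main {x : ℕ → J → ℝ} : (∀ i, C0 (x i - Γ i (x (i + 1)))) ↔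
    (∀ i, Sm i (x 0)) ∧ ∀ i, C0 (x (i + 1) - x i) := by
  have key : (∀ i, C0 (x (i + 1) - x i)) → ∀ i, C0 (x i - x 0) := fun h i => by
    induction i with
    | zero => rw [sub_self]; exact tendsto_const_nhds
    | succ i ih => simpa using (h i).add ih
  constructor
  · intro h
    have h1 : ∀ i, Sm i (x i) := fun i => by simpa using L3 (L2 i (x (i + 1))) (h i)
    have h2 : ∀ i, C0 (x (i + 1) - x i) := fun i => by simpa using (L1 (L4 (h1 (i + 1)))).sub (h i)
    refine ⟨fun i => ?_, h2⟩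
    simpa using L3 (h1 i) (C0.sub (x := 0) tendsto_const_nhds (key h2 i))
  · rintro ⟨h1, h2⟩ i
    have h3 : Sm i (x (i + 1)) := by simpa using L3 (h1 i) (key h2 (i + 1))
    simpa using (L1 h3).sub (h2 i)

lemma Γ_zero {i : ℕ} (x : J → ℝ) {j : J} (h : j.1 ≤ i) : Γ i x j = 0 := by
  obtain ⟨E, h1, h2⟩ := γ_mem (a j.1 i) fun s => x ⟨j.1, s⟩
  rw [a_zero h, Nat.le_zero, Finset.card_eq_zero] at h1
  exact h2 _ (by simp [h1])

lemma Γ_uc {V : Type} [UniformSpace V] {x : V → J → ℝ} (h : ∀ j, UniformContinuous fun v => x v j)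
    (i : ℕ) (j : J) : UniformContinuous fun v => Γ i (x v) j :=
  (γ_uc (a j.1 i) j.2).comp (uniformContinuous_pi.2 fun s => h ⟨j.1, s⟩)

noncomputable def R (z : ℕ → J → ℝ) : ℕ → ℕ → J → ℝ
  | 0, i => z i
  | m + 1, i => z i + Γ i (R z m (i + 1))

noncomputable def X (z : ℕ → J → ℝ) (i : ℕ) (j : J) : ℝ := R z (j.1 - i) i j

lemma X_eq (z : ℕ → J → ℝ) (i : ℕ) : X z i - Γ i (X z (i + 1)) = z i := by
  ext j
  rcases le_or_gt j.1 i with h | h
  · simp [X, Γ_zero _ h, Nat.sub_eq_zero_of_le h, R]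
  · have : j.1 - i = j.1 - (i + 1) + 1 := by omega
    simp only [Pi.sub_apply, X, this, R, Pi.add_apply]
    exact add_sub_cancel_right _ _

lemma X_uniq (x : ℕ → J → ℝ) : X (fun i => x i - Γ i (x (i + 1))) = x := by
  have : ∀ m i (j : J), j.1 ≤ i + m → R (fun i => x i - Γ i (x (i + 1))) m i j = x i j := by
    intro m
    induction m with
    | zero => intro i j h; simp [R, Γ_zero _ (show j.1 ≤ i from h)]
    | succ m ih =>
      intro i j h
      have : Γ i (R (fun i => x i - Γ i (x (i + 1))) m (i + 1)) j = Γ i (x (i + 1)) j := by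
        simp only [Γ]
        congr 1
        exact funext fun s => ih _ _ (by simp only; omega)
      simp [R, this]
  ext i j
  exact this _ _ _ (by omega)

lemma X_uc (i : ℕ) (j : J) : UniformContinuous fun z => X z i j := by
  have : ∀ m i j, UniformContinuous fun z => R z m i j := by
    have h0 : ∀ i j, UniformContinuous fun z : ℕ → J → ℝ => z i j := fun i j =>
      (Pi.uniformContinuous_proj _ j).comp (Pi.uniformContinuous_proj _ i)
    intro m
    induction m with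
    | zero => exact h0
    | succ m ih => exact fun i j => (h0 i j).add (Γ_uc (ih (i + 1)) i j)
  exact this _ _ _

theorem absorb {R N V : Type} [TopologicalSpace R] [TopologicalSpace N] [AddCommGroup V]
    [UniformSpace V] (W : V → Prop) (ext : V → R → ℝ) (res : (R → ℝ) → V)
    (hlin : ∀ f g h, res (f - g + h) = res f - res g + res h) (hre : ∀ z, res (ext z) = z)
    (ue : UniformContinuous ext) (ur : UniformContinuous res)
    (w1 : ∀ z, W z → Continuous (ext z)) (w2 : ∀ f, Continuous f → W (res f))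
    (θ1 : V → N → ℝ) (θ2 : V → V) (η : (N → ℝ) × V → V) (e1 : ∀ z, η (θ1 z, θ2 z) = z)
    (e2 : ∀ p, θ1 (η p) = p.1) (e3 : ∀ p, θ2 (η p) = p.2) (u1 : UniformContinuous θ1)
    (u2 : UniformContinuous θ2) (u3 : UniformContinuous η)
    (hW : ∀ z, W z ↔ Continuous (θ1 z) ∧ W (θ2 z)) : UE (N ⊕ R) R := by
  have ul : UniformContinuous fun (g : N ⊕ R → ℝ) => g ∘ Sum.inl :=
    uniformContinuous_pi.2 fun n => Pi.uniformContinuous_proj _ _
  have ur' : UniformContinuous fun (g : N ⊕ R → ℝ) => g ∘ Sum.inr :=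
    uniformContinuous_pi.2 fun n => Pi.uniformContinuous_proj _ _
  refine UE.mk'
    (fun g => g ∘ .inr - ext (res (g ∘ .inr)) + ext (η (g ∘ .inl, res (g ∘ .inr))))
    (fun f => Sum.elim (θ1 (res f)) (f - ext (res f) + ext (θ2 (res f))))
    (fun g => ?_) (fun f => ?_) (uniformContinuous_pi.1 ?_) ?_ (fun g hg => ?_) fun f hf => ?_
  · ext (n | t) <;> simp [hlin, hre, e2, e3]
  · simp [hlin, hre, e1]
  · exact (ur'.sub (ue.comp (ur.comp ur'))).add (ue.comp (u3.comp (ul.prodMk (ur.comp ur'))))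
  · rintro (n | t)
    · exact uniformContinuous_pi.1 (u1.comp ur) n
    · exact uniformContinuous_pi.1
        ((uniformContinuous_id.sub (ue.comp ur)).add (ue.comp (u2.comp ur))) t
  · have h1 := hg.comp continuous_inr
    refine (h1.sub (w1 _ (w2 _ h1))).add (w1 _ ((hW _).2 ?_))
    rw [e2, e3]
    exact ⟨hg.comp continuous_inl, w2 _ h1⟩
  · have h1 := (hW _).1 (w2 f hf)
    exact h1.1.sumElim ((hf.sub (w1 _ (w2 f hf))).add (w1 _ h1.2))

lemma glue (g : ℤ → ℝ → ℝ) (hg : ∀ i, ContinuousOn (g i) (Icc 0 1)) (h0 : ∀ i, g i 0 = 0)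
    (h1 : ∀ i, g i 1 = 0) : Continuous fun t : ℝ => g ⌊t⌋ (Int.fract t) := by
  have hl : LocallyFinite fun i : ℤ => Icc (i : ℝ) (i + 1) := by
    intro x
    refine ⟨Ioo (x - 1) (x + 1), Ioo_mem_nhds (by linarith) (by linarith),
      (finite_Icc ⌊x - 2⌋ ⌈x + 1⌉).subset ?_⟩
    rintro i ⟨t, h2, h3⟩
    exact ⟨Int.floor_le_iff.2 (by linarith [h2.2, h3.1]),
      Int.le_ceil_iff.2 (by linarith [h2.1, h3.2])⟩
  refine hl.continuous (iUnion_Icc_intCast ℝ) (fun _ => isClosed_Icc) fun i => ?_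
  refine ((hg i).comp (f := fun t : ℝ => t - i) (by fun_prop) fun t ht =>
    ⟨by linarith [ht.1], by linarith [ht.2]⟩).congr fun t ht => ?_
  rcases ht.2.eq_or_lt with rfl | h
  · simp [h0, h1]
  · have : ⌊t⌋ = i := Int.floor_eq_iff.2 ⟨ht.1, h⟩
    simp [Int.fract, this]

noncomputable def H (z : ℕ → ℝ) (s : ℝ) : ℝ :=
  z (⌊s⌋ - 1).toNat * (4 * Int.fract s * (1 - Int.fract s))

lemma H_cont (z : ℕ → ℝ) : Continuous (H z) :=
  glue (fun i u => z (i - 1).toNat * (4 * u * (1 - u))) (fun _ => by fun_prop) (by simp) (by simp)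

lemma H_inv {z : ℕ → ℝ} (hz : C0 z) : ContinuousOn (fun u => H z u⁻¹) (Icc 0 1) := by
  intro u hu
  rcases hu.1.eq_or_lt with rfl | h
  · refine (continuousWithinAt_Ioi_iff_Ici.1 ?_).mono Icc_subset_Ici_self
    have h1 : Tendsto (fun s : ℝ => z (⌊s⌋ - 1).toNat) atTop (𝓝 0) := by
      rw [C0, Nat.cofinite_eq_atTop] at hz
      refine hz.comp (tendsto_atTop.2 fun n => ?_)
      filter_upwards [tendsto_floor_atTop.eventually_ge_atTop ((n : ℤ) + 1)] with s hs
      omega
    have h2 : Tendsto (H z) atTop (𝓝 0) := by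
      refine squeeze_zero_norm (fun s => ?_) (tendsto_zero_iff_norm_tendsto_zero.1 h1)
      have := Int.fract_nonneg s
      have := Int.fract_lt_one s
      rw [H, norm_mul]
      refine mul_le_of_le_one_right (norm_nonneg _) ?_
      rw [Real.norm_of_nonneg (by apply mul_nonneg <;> linarith)]
      nlinarith [sq_nonneg (2 * Int.fract s - 1)]
    have h3 : H z 0⁻¹ = 0 := by simp [H]
    rw [ContinuousWithinAt, h3]
    exact h2.comp tendsto_inv_nhdsGT_zero
  · exact ((H_cont z).continuousAt.comp (continuousAt_inv₀ h.ne')).continuousWithinAt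

noncomputable def q (n : ℕ) : ℝ := ((n : ℝ) + 3 / 2)⁻¹

lemma q_mem (n : ℕ) : q n ∈ Ico (0 : ℝ) 1 :=
  ⟨by rw [q]; positivity, inv_lt_one_of_one_lt₀ (by linarith [Nat.cast_nonneg (α := ℝ) n])⟩

lemma H_q (z : ℕ → ℝ) (n : ℕ) : H z (q n)⁻¹ = z n := by
  have h1 : ⌊(n : ℝ) + 3 / 2⌋ = n + 1 :=
    Int.floor_eq_iff.2 ⟨by push_cast; linarith, by push_cast; linarith⟩
  rw [q, inv_inv, H, Int.fract, h1]
  simp
  ring

theorem ue : UE (FS Z ⊕ ℝ) ℝ := by
  let ρ : ℤ ≃ ℕ := Equiv.intEquivNat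
  have : Infinite J := Infinite.of_injective (fun k => (⟨k, 0⟩ : J)) fun _ _ h => congrArg Sigma.fst h
  obtain ⟨κ⟩ : Nonempty (ℕ ≃ Option J) := nonempty_equiv_of_countable
  have hp : ∀ i o, UniformContinuous fun z : ℕ → Option J → ℝ => z i o := fun i o =>
    (Pi.uniformContinuous_proj _ o).comp (Pi.uniformContinuous_proj _ i)
  let y : (ℕ → Option J → ℝ) → ℕ → J → ℝ := fun z => X fun i j => z i (some j)
  have hy : ∀ i j, UniformContinuous fun z => y z i j := fun i j => (X_uc i j).comp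
    (uniformContinuous_pi.2 fun i => uniformContinuous_pi.2 fun j => hp i (some j))
  let x : (FS Z → ℝ) × (ℕ → Option J → ℝ) → ℕ → J → ℝ := fun p i j =>
    p.1 (pt Z j) - p.1 (oo Z) + ∑ l ∈ Finset.range i, p.2 l (some j)
  have hx : ∀ i j, UniformContinuous fun p => x p i j := by
    intro i j
    refine (((Pi.uniformContinuous_proj _ (pt Z j)).comp uniformContinuous_fst).sub
      ((Pi.uniformContinuous_proj _ (oo Z)).comp uniformContinuous_fst)).add ?_
    induction i with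
    | zero => simpa using uniformContinuous_const
    | succ i ih =>
      simp only [Finset.sum_range_succ]
      exact ih.add ((hp i _).comp uniformContinuous_snd)
  have hc : ∀ w : Option J → ℝ, C0 w ↔ C0 fun j => w (some j) := fun w =>
    ⟨fun h => h.comp (Option.some_injective J).tendsto_cofinite, fun h s hs => by
      refine (((h hs : Set.Finite _).image some).insert none).subset ?_
      rintro (_ | j) hj
      · exact Or.inl rfl
      · exact Or.inr ⟨j, hj, rfl⟩⟩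
  refine absorb (V := ℕ → Option J → ℝ) (fun z => ∀ i, C0 (z i))
    (fun z t => H (fun n => z (ρ ⌊t⌋) (κ n)) (Int.fract t)⁻¹)
    (fun f i o => f (ρ.symm i + q (κ.symm o)) - f (ρ.symm i))
    (fun f g h => ?_) (fun z => ?_) ?_ ?_ (fun z hz => ?_) (fun f hf i => ?_)
    (fun z o => Option.elim o 0 (y z 0) + z 0 none)
    (fun z i o => Option.elim o (z (i + 1) none) (y z (i + 1) - y z i))
    (fun p i o => Option.elim o (Nat.casesOn i (p.1 (oo Z)) fun l => p.2 l none)
      (x p i - Γ i (x p (i + 1))))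
    (fun z => ?_) (fun p => ?_) (fun p => ?_) ?_ ?_ ?_ fun z => ?_
  · ext i o
    simp only [Pi.add_apply, Pi.sub_apply]
    ring
  · ext i o
    have h1 : ⌊(ρ.symm i : ℝ) + q (κ.symm o)⌋ = ρ.symm i := by
      rw [Int.floor_intCast_add, Int.floor_eq_zero_iff.2 (q_mem _), add_zero]
    simp only []
    rw [h1, Int.fract_intCast_add, Int.fract_eq_self.2 (q_mem _), H_q]
    simp [H]
  · exact uniformContinuous_pi.2 fun t => (hp _ _).mul_const' _
  · exact uniformContinuous_pi.2 fun i => uniformContinuous_pi.2 fun o =>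
      (Pi.uniformContinuous_proj _ _).sub (Pi.uniformContinuous_proj _ _)
  · exact glue (fun i u => H (fun n => z (ρ i) (κ n)) u⁻¹)
      (fun i => H_inv ((hz _).comp κ.injective.tendsto_cofinite)) (by simp [H]) (by simp [H])
  · have h1 : Tendsto q cofinite (𝓝 0) := by
      rw [Nat.cofinite_eq_atTop]
      exact tendsto_inv_atTop_zero.comp (tendsto_atTop_add_const_right _ _ tendsto_natCast_atTop_atTop)
    have h2 : Continuous fun u : ℝ => f (ρ.symm i + u) - f (ρ.symm i) := by fun_prop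
    have h3 := (h2.tendsto 0).comp (h1.comp κ.symm.injective.tendsto_cofinite)
    rwa [add_zero, sub_self] at h3
  · have h1 : x (fun o => Option.elim o 0 (y z 0) + z 0 none,
        fun i o => Option.elim o (z (i + 1) none) (y z (i + 1) - y z i)) = y z := by
      ext i j
      simp only [x, pt, oo, Option.elim, Pi.sub_apply]
      rw [Finset.sum_range_sub (fun l => y z l j)]
      ring
    ext i (_ | j)
    · cases i <;> simp [oo]
    · simp only [h1]
      exact congrFun (X_eq _ i) j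
  · ext (_ | j)
    · simp [oo]
    · simp only [y, Option.elim]
      rw [show (fun i j => (x p i - Γ i (x p (i + 1))) j) = _ from rfl, X_uniq]
      simp [x, pt]
  · ext i (_ | j)
    · rfl
    · simp only [y, Option.elim]
      rw [show (fun i j => (x p i - Γ i (x p (i + 1))) j) = _ from rfl, X_uniq]
      simp [x, Finset.sum_range_succ]
  · refine uniformContinuous_pi.2 ?_
    rintro (_ | j)
    · exact uniformContinuous_const.add (hp 0 none)
    · exact (hy 0 j).add (hp 0 none)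
  · refine uniformContinuous_pi.2 fun i => uniformContinuous_pi.2 ?_
    rintro (_ | j)
    · exact hp _ _
    · exact (hy _ j).sub (hy _ j)
  · refine uniformContinuous_pi.2 fun i => uniformContinuous_pi.2 ?_
    rintro (_ | j)
    · rcases i with _ | i
      · exact (Pi.uniformContinuous_proj _ (oo Z)).comp uniformContinuous_fst
      · exact (hp i none).comp uniformContinuous_snd
    · exact (hx i j).sub (Γ_uc (hx _) i j)
  · have h1 := main (x := y z)
    simp only [y, X_eq] at h1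
    simp only [hc, cont_iff, pt, oo, Option.elim, zero_add]
    rw [h1, ← Z_iff]
    refine and_congr ⟨fun h => by simpa using h.add_const (z 0 none), fun h => ?_⟩ Iff.rfl
    simpa using h.sub_const (z 0 none)

/-- the non-closed set with finite traces on compact sets -/
def bad : Set (FS Z ⊕ ℝ) := range fun j => .inl (pt Z j)

lemma bad_not_closed : ¬ IsClosed bad := by
  intro h
  refine Z_ne (mem_of_superset (isOpen_iff.1 (h.isOpen_compl.preimage continuous_inl) ?_)
    fun j hj => hj ⟨j, rfl⟩)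
  rintro ⟨j, hj⟩
  exact pt_ne j (Sum.inl_injective hj)

lemma bad_fin {K : Set (FS Z ⊕ ℝ)} (hK : IsCompact K) : (bad ∩ K).Finite := by
  refine ((compact_finite Sigma.fst fib (fun _ => sel)
    (IsClosedEmbedding.inl.isCompact_preimage hK)).image Sum.inl).subset ?_
  rintro _ ⟨⟨j, rfl⟩, h⟩
  exact ⟨_, h, rfl⟩

end Pool.Agent.H82.UKw
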