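import Mathlib
import Pool.Agent.H82.FS
import Pool.Agent.H82.UKw

set_option autoImplicit false

namespace Pool.Agent.H82.MSp

universe u

open Set Filter Topology Pool.Agent.H82.FS Pool.Agent.H82.UKw

/-- isolated points `D` plus points `j` with punctured neighbourhood filters `F j` -/
def MS {D J : Type} (_F : J → Filter D) : Type := D ⊕ J

variable {D J : Type} {F : J → Filter D}

def dp (F : J → Filter D) (a : D) : MS F := Sum.inl a

def jp (F : J → Filter D) (j : J) : MS F := Sum.inr j

instance : TopologicalSpace (MS F) where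
  IsOpen U := ∀ j, jp F j ∈ U → dp F ⁻¹' U ∈ F j
  isOpen_univ := fun _ _ => univ_mem
  isOpen_inter := fun _ _ hU hV j h => inter_mem (hU j h.1) (hV j h.2)
  isOpen_sUnion := fun _ h j ⟨U, hU, h0⟩ =>
    mem_of_superset (h U hU j h0) fun _ ha => ⟨U, hU, ha⟩

lemma isOpen_iff {U : Set (MS F)} : IsOpen U ↔ ∀ j, jp F j ∈ U → dp F ⁻¹' U ∈ F j := Iff.rfl

lemma dp_inj : Function.Injective (dp F) := Sum.inl_injective

lemma jp_inj : Function.Injective (jp F) := Sum.inr_injective

lemma dp_ne (a : D) (j : J) : dp F a ≠ jp F j := Sum.inl_ne_inr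

lemma cases' (x : MS F) : (∃ a, x = dp F a) ∨ ∃ j, x = jp F j := by
  rcases x with a | j
  · exact Or.inl ⟨a, rfl⟩
  · exact Or.inr ⟨j, rfl⟩

lemma cont_iff {Z : Type} [TopologicalSpace Z] {f : MS F → Z} :
    Continuous f ↔ ∀ j, Tendsto (fun a => f (dp F a)) (F j) (𝓝 (f (jp F j))) := by
  constructor
  · intro hf j s hs
    obtain ⟨t, hts, ht, h0⟩ := mem_nhds_iff.1 hs
    exact mem_map.2 (mem_of_superset (isOpen_iff.1 (ht.preimage hf) j h0) fun a ha => hts ha)
  · intro h
    exact continuous_def.2 fun s hs => isOpen_iff.2 fun j h0 => h j (hs.mem_nhds h0)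

lemma open_dp (A : Set D) : IsOpen (dp F '' A) :=
  isOpen_iff.2 fun j ⟨a, _, h⟩ => (dp_ne a j h).elim

lemma closed_dp {A : Set D} (h : ∀ j, Aᶜ ∈ F j) : IsClosed (dp F '' A) :=
  ⟨isOpen_iff.2 fun j _ => by simpa only [preimage_compl, preimage_image_eq _ dp_inj] using h j⟩

lemma clopen_jp {A : Set D} {j : J} (h1 : A ∈ F j) (h2 : ∀ k ≠ j, Aᶜ ∈ F k) :
    IsClopen (insert (jp F j) (dp F '' A)) := by
  have h : dp F ⁻¹' (insert (jp F j) (dp F '' A)) = A := by
    ext a; simp [dp_ne, dp_inj.eq_iff]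
  refine ⟨⟨isOpen_iff.2 fun k hk => ?_⟩, isOpen_iff.2 fun k hk => ?_⟩
  · rw [preimage_compl, h]
    exact h2 k fun e => hk (Or.inl (by rw [e]))
  · rcases hk with hk | ⟨a, -, hk⟩
    · rw [h, jp_inj hk]; exact h1
    · exact (dp_ne a k hk).elim

lemma t35 (hF : ∀ j, F j ≤ cofinite) (hs : ∀ j, ∃ A ∈ F j, ∀ k ≠ j, Aᶜ ∈ F k) :
    T35Space (MS F) := by
  have h1 : ∀ a, IsClopen ({dp F a} : Set (MS F)) := fun a => by
    rw [← image_singleton]
    exact ⟨closed_dp fun j => hF j (finite_singleton a).compl_mem_cofinite, open_dp _⟩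
  have : CompletelyRegularSpace (MS F) := by
    refine .of_isTopologicalBasis_clopens (TopologicalSpace.isTopologicalBasis_of_isOpen_of_nhds
      (fun u hu => hu.isOpen) fun x U hx hU => ?_)
    rcases cases' x with ⟨a, rfl⟩ | ⟨j, rfl⟩
    · exact ⟨{dp F a}, h1 a, rfl, singleton_subset_iff.2 hx⟩
    · obtain ⟨A, hA, hA'⟩ := hs j
      refine ⟨_, clopen_jp (inter_mem hA (isOpen_iff.1 hU j hx)) fun k hk =>
        mem_of_superset (hA' k hk) fun a ha h => ha h.1, Or.inl rfl, ?_⟩
      rintro _ (rfl | ⟨a, ha, rfl⟩)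
      · exact hx
      · exact ha.2
  have : T0Space (MS F) := by
    refine t0Space_iff_exists_isOpen_xor_mem _ |>.2 fun x y hxy => ?_
    rcases cases' x with ⟨a, rfl⟩ | ⟨j, rfl⟩
    · exact ⟨{dp F a}, (h1 a).isOpen, Or.inl ⟨rfl, hxy.symm⟩⟩
    · obtain ⟨A, hA, hA'⟩ := hs j
      rcases cases' y with ⟨a, rfl⟩ | ⟨k, rfl⟩
      · exact ⟨{dp F a}, (h1 a).isOpen, Or.inr ⟨rfl, hxy⟩⟩
      · refine ⟨_, (clopen_jp hA hA').isOpen, Or.inl ⟨Or.inl rfl, ?_⟩⟩
        rintro (h | ⟨a, -, h⟩)
        · exact hxy h.symm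
        · exact dp_ne a k h
  exact {}

/-- a space carrying a complemented copy of `c₀` absorbs a convergent sequence -/
theorem absorb_seq {R : Type} [TopologicalSpace R] (ext : (ℕ → ℝ) → R → ℝ) (res : (R → ℝ) → ℕ → ℝ)
    (hlin : ∀ f g h, res (f - g + h) = res f - res g + res h) (hre : ∀ z, res (ext z) = z)
    (ue : UniformContinuous ext) (ur : UniformContinuous res)
    (w1 : ∀ z, C0 z → Continuous (ext z)) (w2 : ∀ f, Continuous f → C0 (res f)) :
    UE (FS (cofinite : Filter ℕ) ⊕ R) R := by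
  obtain ⟨κ⟩ : Nonempty (Option ℕ ⊕ ℕ ≃ ℕ) := nonempty_equiv_of_countable
  have hp := fun n => Pi.uniformContinuous_proj (fun _ : ℕ => ℝ) n
  refine absorb C0 ext res hlin hre ue ur w1 w2
    (fun z o => Option.elim o 0 (fun n => z (κ (.inl (some n)))) + z (κ (.inl none)))
    (fun z n => z (κ (.inr n)))
    (fun p n => Sum.elim (fun o => Option.elim o (p.1 (oo _)) fun m => p.1 (pt _ m) - p.1 (oo _))
      p.2 (κ.symm n)) (fun z => ?_) (fun p => ?_) (fun p => ?_) ?_ ?_ ?_ fun z => ?_
  · ext n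
    obtain ⟨(_ | m) | m, rfl⟩ := κ.surjective n <;> simp [oo, pt]
  · ext (_ | m) <;> simp [oo, pt]
  · ext m; simp
  · refine uniformContinuous_pi.2 ?_
    rintro (_ | m)
    · exact uniformContinuous_const.add (hp _)
    · exact (hp _).add (hp _)
  · exact uniformContinuous_pi.2 fun n => hp _
  · refine uniformContinuous_pi.2 fun n => ?_
    have h1 : ∀ o, UniformContinuous fun p : (FS (cofinite : Filter ℕ) → ℝ) × (ℕ → ℝ) => p.1 o :=
      fun o => (Pi.uniformContinuous_proj _ o).comp uniformContinuous_fst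
    obtain ⟨(_ | m) | m, rfl⟩ := κ.surjective n <;> simp only [Equiv.symm_apply_apply]
    · exact h1 _
    · exact (h1 _).sub (h1 _)
    · exact (hp _).comp uniformContinuous_snd
  · simp only [FS.cont_iff, pt, oo, Option.elim, zero_add]
    constructor
    · intro h
      refine ⟨?_, h.comp (κ.injective.comp Sum.inr_injective).tendsto_cofinite⟩
      simpa using (h.comp (κ.injective.comp (Sum.inl_injective.comp
        (Option.some_injective ℕ))).tendsto_cofinite).add_const (z (κ (.inl none)))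
    · rintro ⟨h1, h2⟩ s hs
      have h3 : Tendsto (fun n => z (κ (.inl (some n)))) cofinite (𝓝 0) := by
        simpa using h1.sub_const (z (κ (.inl none)))
      refine ((((h3 hs : Set.Finite _).image fun n => κ (.inl (some n))).union
        ((h2 hs : Set.Finite _).image fun n => κ (.inr n))).insert (κ (.inl none))).subset
        fun n hn => ?_
      obtain ⟨(_ | m) | m, rfl⟩ := κ.surjective n
      · exact Or.inl rfl
      · exact Or.inr (Or.inl ⟨m, hn, rfl⟩)
      · exact Or.inr (Or.inr ⟨m, hn, rfl⟩)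

abbrev I : Type := ℕ × Bool

noncomputable def G : I ⊕ ℝ → Filter (I × ℝ × ℝ)
  | .inl i => map (fun p => (i, p)) (cocountable.curry ⊤)
  | .inr α => map (fun p : I × ℝ => (p.1, α, p.2)) (cofinite.curry cocountable)

lemma mem_G1 {i : I} {A : Set (I × ℝ × ℝ)} :
    A ∈ G (.inl i) ↔ ∀ᶠ α in cocountable, ∀ β, (i, α, β) ∈ A := Iff.rfl

lemma mem_G2 {α : ℝ} {A : Set (I × ℝ × ℝ)} :
    A ∈ G (.inr α) ↔ ∀ᶠ i in cofinite, ∀ᶠ β in cocountable, (i, α, β) ∈ A := Iff.rfl

lemma G_le (j : I ⊕ ℝ) {A : Set (I × ℝ × ℝ)} (hA : A.Countable) : Aᶜ ∈ G j := by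
  rcases j with i | α
  · refine mem_G1.2 (mem_cocountable.2 ((hA.image fun d => d.2.1).mono fun α h => ?_))
    obtain ⟨β, hβ⟩ := not_forall.1 h
    exact ⟨_, not_not.1 hβ, rfl⟩
  · exact mem_G2.2 (Eventually.of_forall fun i => mem_cocountable.2
      ((hA.image fun d => d.2.2).mono fun β h => mem_image_of_mem _ (not_not.1 h)))

lemma G_t35 : T35Space (MS G) := by
  refine t35 (fun j s hs => ?_) ?_
  · simpa using G_le j (Set.Finite.countable hs)
  · rintro (i | α)
    · refine ⟨{d | d.1 = i}, mem_G1.2 (Eventually.of_forall fun _ _ => rfl), ?_⟩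
      rintro (k | β) h
      · exact mem_G1.2 (Eventually.of_forall fun _ _ e => h (congrArg _ e))
      · exact mem_G2.2 ((eventually_cofinite_ne i).mono fun k hk =>
          Eventually.of_forall fun _ => hk)
    · refine ⟨{d | d.2.1 = α}, mem_G2.2 (Eventually.of_forall fun _ =>
        Eventually.of_forall fun _ => rfl), ?_⟩
      rintro (k | β) h
      · exact mem_G1.2 (mem_cocountable.2 ((countable_singleton α).mono fun γ hγ =>
          by_contra fun e => hγ fun _ e' => e e'))
      · exact mem_G2.2 (Eventually.of_forall fun _ => Eventually.of_forall fun _ e =>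
          h (congrArg _ e))

lemma G_closed (s : Set (MS G)) (hs : s.Countable) : IsClosed s :=
  ⟨isOpen_iff.2 fun j _ => G_le j (hs.preimage dp_inj)⟩

theorem G_ue : UE (FS (cofinite : Filter ℕ) ⊕ MS G) (MS G) := by
  have hne : (cocountable : Filter ℝ).NeBot := ⟨fun h => not_countable_univ (α := ℝ)
    (by simpa using mem_cocountable.1 (empty_mem_iff_bot.2 h))⟩
  let e : (ℕ → ℝ) → I → ℝ := fun z i => if i.2 then z i.1 else 0
  have he : ∀ i, UniformContinuous fun z => e z i := by
    rintro ⟨n, _ | _⟩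
    · exact uniformContinuous_const
    · exact Pi.uniformContinuous_proj _ n
  refine absorb_seq (fun z => Sum.elim (fun d => e z d.1) (Sum.elim (e z) fun _ => 0))
    (fun f n => f (jp G (.inl (n, true))) - f (jp G (.inl (n, false))))
    (fun f g h => ?_) (fun z => ?_) (uniformContinuous_pi.2 ?_)
    (uniformContinuous_pi.2 fun n => (Pi.uniformContinuous_proj _ _).sub
      (Pi.uniformContinuous_proj _ _)) (fun z hz => cont_iff.2 ?_) fun f hf => ?_
  · ext n
    simp only [Pi.add_apply, Pi.sub_apply]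
    ring
  · ext n
    simp [jp, e]
  · rintro (d | i | α)
    · exact he _
    · exact he _
    · exact uniformContinuous_const
  · rintro (i | α) s hs
    · have h0 := mem_of_mem_nhds hs
      exact mem_G1.2 (Eventually.of_forall fun _ _ => h0)
    · have h0 := mem_of_mem_nhds hs
      refine mem_G2.2 (Eventually.mono ?_ fun i (hi : e z i ∈ s) => Eventually.of_forall fun _ => hi)
      refine ((hz hs : Set.Finite _).image fun n => (n, true)).subset ?_
      rintro ⟨n, _ | _⟩ h
      · exact (h h0).elim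
      · exact ⟨n, h, rfl⟩
  · refine Metric.tendsto_nhds.2 fun ε hε => ?_
    have h := fun j => Metric.tendsto_nhds.1 (cont_iff.1 hf j) (ε / 4) (by positivity)
    have : CountableInterFilter (cocountable : Filter ℝ) := ⟨fun S hS h => mem_cocountable.2 (by
      rw [compl_sInter, sUnion_image]
      exact hS.biUnion fun s hs => mem_cocountable.1 (h s hs))⟩
    obtain ⟨α, hα⟩ := (eventually_countable_forall.2 fun i => mem_G1.1 (h (.inl i))).exists
    have h2 : ∀ᶠ i in cofinite, dist (f (jp G (.inl i))) (f (jp G (.inr α))) < ε / 2 :=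
      (mem_G2.1 (h (.inr α))).mono fun i hi => by
        obtain ⟨β, hβ⟩ := hi.exists
        have h3 : dist _ _ < _ := hα i β
        have h4 : dist _ _ < _ := hβ
        linarith [dist_triangle_left (f (jp G (.inl i))) (f (jp G (.inr α))) (f (dp G (i, α, β)))]
    have h3 : ∀ b : Bool, Tendsto (fun n : ℕ => (n, b)) cofinite cofinite := fun b =>
      Function.Injective.tendsto_cofinite fun _ _ h => congrArg Prod.fst h
    filter_upwards [(h3 true).eventually h2, (h3 false).eventually h2] with n h4 h5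
    rw [dist_zero_right, ← dist_eq_norm]
    linarith [dist_triangle_right (f (jp G (.inl (n, true)))) (f (jp G (.inl (n, false))))
      (f (jp G (.inr α)))]

lemma not_closed {Z : Type} [TopologicalSpace Z] :
    ¬ IsClosed (range fun n => (.inl (pt cofinite n) : FS (cofinite : Filter ℕ) ⊕ Z)) := by
  intro h
  refine empty_notMem (cofinite : Filter ℕ) (mem_of_superset
    (FS.isOpen_iff.1 (h.isOpen_compl.preimage continuous_inl) ?_) fun j hj => hj ⟨j, rfl⟩)
  rintro ⟨j, hj⟩
  exact pt_ne j (Sum.inl_injective hj)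

def liftH (X : Type) [TopologicalSpace X] :
    {f : ULift.{u} X → ℝ // Continuous f} ≃ₜ {f : X → ℝ // Continuous f} where
  toFun f := ⟨fun x => f.1 ⟨x⟩, f.2.comp continuous_uliftUp⟩
  invFun f := ⟨fun x => f.1 x.down, f.2.comp continuous_uliftDown⟩
  left_inv _ := rfl
  right_inv _ := rfl
  continuous_toFun := by
    have h : Continuous fun (f : {f : ULift.{u} X → ℝ // Continuous f}) (x : X) => f.1 ⟨x⟩ :=
      continuous_pi fun x => (continuous_apply (ULift.up x)).comp continuous_subtype_val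
    exact h.subtype_mk _
  continuous_invFun := by
    have h : Continuous fun (f : {f : X → ℝ // Continuous f}) (x : ULift.{u} X) => f.1 x.down :=
      continuous_pi fun x => (continuous_apply x.down).comp continuous_subtype_val
    exact h.subtype_mk _

end Pool.Agent.H82.MSp
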