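import Mathlib
import Pool.Agent.H82.MazA

/-! A one-dimensional set in three-space whose complement contains no one-dimensional
continuum with two different first coordinates. -/

set_option autoImplicit false

namespace Pool.Agent.H82.MazB

open Set Metric Topology Filter MazA

noncomputable def cw (r : ℚ) : ℝ := (1 / 2 : ℝ) ^ Encodable.encode r

theorem cw_pos (r : ℚ) : 0 < cw r := by unfold cw; positivity

noncomputable def ps (g : ℝ → ℝ) (x : ℝ) : ℝ := ∑' r : ℚ, cw r * g (x - r)⁻¹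

noncomputable def pk (g : ℝ → ℝ) (k : ℚ) (x : ℝ) : ℝ :=
  ∑' r : ℚ, if r = k then 0 else cw r * g (x - r)⁻¹

theorem bd {g : ℝ → ℝ} (hb : ∀ t, |g t| ≤ 1) (r : ℚ) (t : ℝ) : ‖cw r * g t‖ ≤ cw r := by
  rw [Real.norm_eq_abs, abs_mul, abs_of_pos (cw_pos r)]
  exact mul_le_of_le_one_right (cw_pos r).le (hb t)

theorem split {g : ℝ → ℝ} (hb : ∀ t, |g t| ≤ 1) (k : ℚ) (x : ℝ) :
    ps g x = cw k * g (x - k)⁻¹ + pk g k x :=
  Summable.tsum_eq_add_tsum_ite (f := fun r : ℚ => cw r * g (x - r)⁻¹)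
    (Summable.of_norm_bounded summable_geometric_two_encode fun r => bd hb r _) k

theorem ps_cont {g : ℝ → ℝ} (hg : Continuous g) (hb : ∀ t, |g t| ≤ 1) :
    ContinuousOn (ps g) {x | Irrational x} :=
  continuousOn_tsum (u := cw) (fun r => continuousOn_const.mul (hg.comp_continuousOn
    (ContinuousOn.inv₀ (by fun_prop) fun x hx => sub_ne_zero.2 (Irrational.ne_rat hx r))))
    summable_geometric_two_encode fun r x _ => bd hb r _

theorem pk_cont {g : ℝ → ℝ} (hg : Continuous g) (hb : ∀ t, |g t| ≤ 1) (k : ℚ) :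
    ContinuousOn (pk g k) {x | Irrational x ∨ x = k} :=
  continuousOn_tsum (u := cw) (fun r => by
    by_cases h : r = k
    · simp only [h, if_true]; exact continuousOn_const
    · simp only [h, if_false]
      exact continuousOn_const.mul (hg.comp_continuousOn
        (ContinuousOn.inv₀ (by fun_prop) fun x hx => sub_ne_zero.2 (by
          rcases hx with hx | rfl
          · exact Irrational.ne_rat hx r
          · exact fun e => h (by exact_mod_cast e.symm)))))
    summable_geometric_two_encode fun r x _ => by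
      by_cases h : r = k
      · simp only [h, if_true, norm_zero]; exact (cw_pos k).le
      · simp only [h, if_false]; exact bd hb r _

noncomputable def s2 (t : ℝ) : ℝ := Real.sin (t ^ 2)

theorem s2_cont : Continuous s2 := by unfold s2; fun_prop

theorem s2_bd (t : ℝ) : |s2 t| ≤ 1 := Real.abs_sin_le_one _

theorem cluster {s t : ℝ} (hs : s ∈ Icc (-1:ℝ) 1) (ht : t ∈ Icc (-1:ℝ) 1) {ε : ℝ} (hε : 0 < ε)
    (T : ℝ) : ∃ τ, T < τ ∧ |Real.sin τ - s| ≤ ε ∧ s2 τ = t := by
  have hpi := Real.pi_pos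
  obtain ⟨n, hn⟩ := exists_nat_gt ((max T (Real.pi / ε) - Real.arcsin s) / (2 * Real.pi))
  rw [div_lt_iff₀ (by positivity)] at hn
  set a := Real.arcsin s + n * (2 * Real.pi) with ha
  have h1 : T < a := by linarith [le_max_left T (Real.pi / ε)]
  have h2 : Real.pi / ε < a := by linarith [le_max_right T (Real.pi / ε)]
  have h3 : 0 < a := (div_pos hpi hε).trans h2
  rw [div_lt_iff₀ hε] at h2
  set b := Real.arcsin t
  set m := ⌈(a ^ 2 - b) / (2 * Real.pi)⌉
  have m1 : (a ^ 2 - b) / (2 * Real.pi) ≤ m := Int.le_ceil _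
  have m2 : (m:ℝ) < (a ^ 2 - b) / (2 * Real.pi) + 1 := Int.ceil_lt_add_one _
  rw [div_le_iff₀ (by positivity)] at m1
  rw [div_add_one (by positivity), lt_div_iff₀ (by positivity)] at m2
  have l1 : a ≤ √(b + m * (2 * Real.pi)) := Real.le_sqrt_of_sq_le (by linarith)
  have l2 : √(b + m * (2 * Real.pi)) ≤ a + ε := Real.sqrt_le_iff.2 ⟨by linarith, by nlinarith⟩
  refine ⟨√(b + m * (2 * Real.pi)), h1.trans_le l1, ?_, ?_⟩
  · have e : Real.sin a = s := by
      rw [ha, Real.sin_add_nat_mul_two_pi, Real.sin_arcsin hs.1 hs.2]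
    rw [← e]
    refine (Real.abs_sin_sub_sin_le _ _).trans ?_
    rw [abs_of_nonneg (by linarith)]; linarith
  · unfold s2
    rw [Real.sq_sqrt (by nlinarith), Real.sin_add_int_mul_two_pi, Real.sin_arcsin ht.1 ht.2]

/-- the example -/
def A : Set E := {p | Irrational (p 0) ∧
  (Irrational (p 1 - ps Real.sin (p 0)) ∨ Irrational (p 2 - ps s2 (p 0)))}

theorem c0 {Z : Set E} (hZ : ∀ z ∈ Z, Irrational (z 0)) {g : ℝ → ℝ} (hg : Continuous g)
    (hb : ∀ t, |g t| ≤ 1) : ContinuousOn (fun p : E => ps g (p 0)) Z :=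
  (ps_cont hg hb).comp (by fun_prop) hZ

theorem c1 {Z : Set (Fin 3 → ℝ)} (hZ : ∀ z ∈ Z, Irrational (z 0)) {g : ℝ → ℝ} (hg : Continuous g)
    (hb : ∀ t, |g t| ≤ 1) : ContinuousOn (fun p : Fin 3 → ℝ => ps g (p 0)) Z :=
  (ps_cont hg hb).comp (by fun_prop) hZ

theorem A_d1 : D1 A := by
  have sc := Real.continuous_sin
  have sb := Real.abs_sin_le_one
  refine d1_of_zd (Z0 := {p : E | Irrational (p 0) ∧ Irrational (p 1 - ps Real.sin (p 0)) ∧
      Irrational (p 2 - ps s2 (p 0))})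
    (Z1 := A ∩ {p : E | Irrational ((p 1 - ps Real.sin (p 0)) + (p 2 - ps s2 (p 0))) ∧
      Irrational ((p 1 - ps Real.sin (p 0)) - (p 2 - ps s2 (p 0)))}) ?_ ?_ ?_
  · refine zd_of_irr (fun p : E => ![p 0, p 1 - ps Real.sin (p 0), p 2 - ps s2 (p 0)])
      (continuousOn_pi.2 fun i => ?_) (fun z hz i => ?_)
      (fun t => !₂[t 0, t 1 + ps Real.sin (t 0), t 2 + ps s2 (t 0)]) ?_ fun z hz => ?_
    · fin_cases i
      · exact (by fun_prop : Continuous fun p : E => p 0).continuousOn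
      · exact (by fun_prop : Continuous fun p : E => p 1).continuousOn.sub
          (c0 (fun z hz => hz.1) sc sb)
      · exact (by fun_prop : Continuous fun p : E => p 2).continuousOn.sub
          (c0 (fun z hz => hz.1) s2_cont s2_bd)
    · fin_cases i
      exacts [hz.1, hz.2.1, hz.2.2]
    · refine forall_mem_image.1 ((PiLp.continuous_toLp 2 _).comp_continuousOn
        (continuousOn_pi.2 fun i => ?_))
      fin_cases i
      · exact (continuous_apply 0).continuousOn
      · exact (continuous_apply 1).continuousOn.add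
          (c1 (forall_mem_image.2 fun z hz => hz.1) sc sb)
      · exact (continuous_apply 2).continuousOn.add
          (c1 (forall_mem_image.2 fun z hz => hz.1) s2_cont s2_bd)
    · ext i; fin_cases i <;> simp
  · refine zd_of_irr (fun p : E => ![p 0, (p 1 - ps Real.sin (p 0)) + (p 2 - ps s2 (p 0)),
        (p 1 - ps Real.sin (p 0)) - (p 2 - ps s2 (p 0))])
      (continuousOn_pi.2 fun i => ?_) (fun z hz i => ?_)
      (fun t => !₂[t 0, (t 1 + t 2) / 2 + ps Real.sin (t 0), (t 1 - t 2) / 2 + ps s2 (t 0)]) ?_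
      fun z hz => ?_
    · have k1 := (by fun_prop : Continuous fun p : E => p 1).continuousOn.sub
          (c0 (Z := A) (fun z hz => hz.1) sc sb)
      have k2 := (by fun_prop : Continuous fun p : E => p 2).continuousOn.sub
          (c0 (Z := A) (fun z hz => hz.1) s2_cont s2_bd)
      fin_cases i
      · exact (by fun_prop : Continuous fun p : E => p 0).continuousOn
      · exact (k1.add k2).mono inter_subset_left
      · exact (k1.sub k2).mono inter_subset_left
    · fin_cases i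
      exacts [hz.1.1, hz.2.1, hz.2.2]
    · refine forall_mem_image.1 ((PiLp.continuous_toLp 2 _).comp_continuousOn
        (continuousOn_pi.2 fun i => ?_))
      fin_cases i
      · exact (continuous_apply 0).continuousOn
      · exact (by fun_prop : Continuous fun t : Fin 3 → ℝ => (t 1 + t 2) / 2).continuousOn.add
          (c1 (forall_mem_image.2 fun z hz => hz.1.1) sc sb)
      · exact (by fun_prop : Continuous fun t : Fin 3 → ℝ => (t 1 - t 2) / 2).continuousOn.add
          (c1 (forall_mem_image.2 fun z hz => hz.1.1) s2_cont s2_bd)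
    · ext i; fin_cases i <;> simp
  · ext p
    refine ⟨fun hp => ?_, fun hp => hp.elim (fun h => ⟨h.1, Or.inl h.2.1⟩) fun h => h.1⟩
    by_cases h1 : Irrational (p 1 - ps Real.sin (p 0)) <;>
      by_cases h2 : Irrational (p 2 - ps s2 (p 0))
    · exact Or.inl ⟨hp.1, h1, h2⟩
    · obtain ⟨q, hq⟩ := not_not.1 h2
      exact Or.inr ⟨hp, hq ▸ h1.add_ratCast q, hq ▸ h1.sub_ratCast q⟩
    · obtain ⟨q, hq⟩ := not_not.1 h1
      exact Or.inr ⟨hp, hq ▸ h2.ratCast_add q, hq ▸ h2.ratCast_sub q⟩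
    · exact (hp.2.elim h1 h2).elim

/-- a closed connected set missing the example with two first coordinates holds a square -/
theorem has_square {C : Set E} (hC : IsClosed C) (hc : IsPreconnected C) (hA : C ⊆ Aᶜ)
    {p q : E} (hp : p ∈ C) (hq : q ∈ C) (hpq : p 0 < q 0) :
    ∃ r a b δ : ℝ, 0 < δ ∧ ∀ s ∈ Icc 0 δ, ∀ t ∈ Icc 0 δ, (!₂[r, a + s, b + t] : E) ∈ C := by
  have sc := Real.continuous_sin
  have sb := Real.abs_sin_le_one
  let S : ℚ × ℚ → Set ℝ := fun d => {x | Irrational x ∧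
    (!₂[x, d.1 + ps Real.sin x, d.2 + ps s2 x] : E) ∈ C}
  have h1 : ∀ x ∈ Ioo (p 0) (q 0), Irrational x → ∃ d, x ∈ S d := fun x hx hi => by
    obtain ⟨c, hcC, rfl⟩ := (hc.image (fun z : E => z 0) (by fun_prop)).Icc_subset
      ⟨p, hp, rfl⟩ ⟨q, hq, rfl⟩ (Ioo_subset_Icc_self hx)
    have := hA hcC
    simp only [A, mem_compl_iff, mem_ofPred_eq, not_and, not_or] at this
    obtain ⟨⟨d1, e1⟩, ⟨d2, e2⟩⟩ := And.intro (not_not.1 (this hi).1) (not_not.1 (this hi).2)
    refine ⟨(d1, d2), hi, ?_⟩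
    have : (!₂[c 0, d1 + ps Real.sin (c 0), d2 + ps s2 (c 0)] : E) = c := by
      ext i; fin_cases i <;> simp [e1, e2]
    exact this.symm ▸ hcC
  have h2 : ∃ d, (interior (closure (S d))).Nonempty := by
    by_contra hn
    push Not at hn
    have k1 : Dense (⋂ d, (closure (S d))ᶜ) := dense_iInter_of_isOpen
      (fun d => isClosed_closure.isOpen_compl) fun d => interior_eq_empty_iff_dense_compl.1 (hn d)
    have k2 := k1.inter_of_Gδ (IsGδ.iInter_of_isOpen fun d => isClosed_closure.isOpen_compl)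
      IsGδ.setOfPred_irrational dense_irrational
    obtain ⟨x, hx, h3, h4⟩ := k2.inter_open_nonempty _ isOpen_Ioo (nonempty_Ioo.2 hpq)
    obtain ⟨d, hd⟩ := h1 x hx h4
    exact mem_iInter.1 h3 d (subset_closure hd)
  obtain ⟨d, hd⟩ := h2
  obtain ⟨k, hk⟩ := Rat.denseRange_cast.exists_mem_open isOpen_interior hd
  have hw := cw_pos k
  refine ⟨k, d.1 + pk Real.sin k k, d.2 + pk s2 k k, cw k, hw, fun s hs t ht => ?_⟩
  have m1 : ∀ u ∈ Icc 0 (cw k), u / cw k ∈ Icc (-1:ℝ) 1 := fun u hu =>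
    ⟨by linarith [div_nonneg hu.1 hw.le], (div_le_one hw).2 hu.2⟩
  have key : ∀ n : ℕ, ∃ x ∈ S d, |x - k| < 1 / (n + 1) ∧
      |Real.sin (x - k)⁻¹ - s / cw k| < 1 / (n + 1) ∧ |s2 (x - k)⁻¹ - t / cw k| < 1 / (n + 1) := by
    intro n
    have hn : (0:ℝ) < 1 / (n + 1) := Nat.one_div_pos_of_nat
    obtain ⟨η, hη, hb⟩ := Metric.isOpen_iff.1 isOpen_interior _ hk
    obtain ⟨τ, t1, t2, t3⟩ := cluster (m1 s hs) (m1 t ht) (half_pos hn) (min η (1 / (n + 1)))⁻¹
    have hm : 0 < min η (1 / (n + 1)) := lt_min hη hn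
    have hτ : 0 < τ := (inv_pos.2 hm).trans t1
    have t4 : τ⁻¹ < min η (1 / (n + 1)) := inv_lt_of_inv_lt₀ hm t1
    have t5 := inv_pos.2 hτ
    have hx : (k:ℝ) + τ⁻¹ ∈ closure (S d) := interior_subset (hb (by
      rw [mem_ball, Real.dist_eq, add_sub_cancel_left, abs_of_pos t5]
      exact t4.trans_le (min_le_left _ _)))
    have ci : ContinuousAt (fun x : ℝ => (x - k)⁻¹) ((k:ℝ) + τ⁻¹) :=
      ContinuousAt.inv₀ (by fun_prop) (by rw [add_sub_cancel_left]; exact t5.ne')
    have e0 : ((k:ℝ) + τ⁻¹ - k)⁻¹ = τ := by rw [add_sub_cancel_left, inv_inv]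
    have v1 : ∀ᶠ x : ℝ in 𝓝 ((k:ℝ) + τ⁻¹), |x - k| < 1 / (n + 1) :=
      ContinuousAt.eventually_lt (by fun_prop) continuousAt_const (by
        rw [add_sub_cancel_left, abs_of_pos t5]; exact t4.trans_le (min_le_right _ _))
    have v2 : ∀ᶠ x : ℝ in 𝓝 ((k:ℝ) + τ⁻¹), |Real.sin (x - k)⁻¹ - s / cw k| < 1 / (n + 1) :=
      ContinuousAt.eventually_lt ((sc.continuousAt.comp ci).sub continuousAt_const).abs
        continuousAt_const (by
          show |Real.sin ((k:ℝ) + τ⁻¹ - k)⁻¹ - s / cw k| < _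
          rw [e0]; linarith)
    have v3 : ∀ᶠ x : ℝ in 𝓝 ((k:ℝ) + τ⁻¹), |s2 (x - k)⁻¹ - t / cw k| < 1 / (n + 1) :=
      ContinuousAt.eventually_lt ((s2_cont.continuousAt.comp ci).sub continuousAt_const).abs
        continuousAt_const (by
          show |s2 ((k:ℝ) + τ⁻¹ - k)⁻¹ - t / cw k| < _
          rw [e0, t3, sub_self, abs_zero]; exact hn)
    obtain ⟨x, h3, h4⟩ := mem_closure_iff_nhds.1 hx _ (v1.and (v2.and v3))
    exact ⟨x, h4, h3⟩
  choose x hx h3 h4 h5 using key
  have lim : ∀ (f : ℕ → ℝ) (c : ℝ), (∀ n, |f n - c| < 1 / (n + 1)) → Tendsto f atTop (𝓝 c) :=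
    fun f c h => tendsto_iff_dist_tendsto_zero.2 (squeeze_zero (fun _ => dist_nonneg)
      (fun n => (h n).le) tendsto_one_div_add_atTop_nhds_zero_nat)
  have lx : Tendsto x atTop (𝓝[{x | Irrational x ∨ x = k}] (k:ℝ)) :=
    tendsto_nhdsWithin_iff.2 ⟨lim _ _ h3, Eventually.of_forall fun n => Or.inl (hx n).1⟩
  have l2 : ∀ g : ℝ → ℝ, Continuous g → (∀ t, |g t| ≤ 1) → ∀ u e : ℝ,
      (∀ n, |g (x n - k)⁻¹ - u / cw k| < 1 / (n + 1)) →
      Tendsto (fun n => e + ps g (x n)) atTop (𝓝 (e + pk g k k + u)) := fun g hg hb u e h => by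
    have := (((lim _ _ h).const_mul (cw k)).add
      ((pk_cont hg hb k k (Or.inr rfl)).tendsto.comp lx)).const_add e
    rw [mul_div_cancel₀ _ hw.ne'] at this
    simp only [split hb k]
    rw [add_assoc, add_comm _ u]
    exact this
  refine hC.mem_of_tendsto (b := atTop) (f := fun n =>
    (!₂[x n, d.1 + ps Real.sin (x n), d.2 + ps s2 (x n)] : E)) ?_
    (Eventually.of_forall fun n => (hx n).2)
  refine ((PiLp.continuous_toLp 2 _).tendsto _).comp (tendsto_pi_nhds.2 fun i => ?_)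
  fin_cases i
  exacts [lim _ _ h3, l2 _ sc sb _ _ h4, l2 _ s2_cont s2_bd _ _ h5]

theorem no_cont {C S : Set E} (hC : IsClosed C) (hc : IsPreconnected C) (hA : C ⊆ Aᶜ)
    {p q : E} (hp : p ∈ C) (hq : q ∈ C) (hpq : p 0 < q 0) (hS : C ⊆ S) : ¬ D1 S := fun h => by
  obtain ⟨r, a, b, δ, hδ, k⟩ := has_square hC hc hA hp hq hpq
  exact square h r a b hδ fun s hs t ht => hS (k s hs t ht)

/-- no superset of dimension at most one has a complement of dimension at most one -/
theorem no_pair {B : Set E} (hAB : A ⊆ B) (hB : D1 B) : ¬ D1 Bᶜ := by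
  obtain ⟨K, h1, h2, h3, ⟨p, hp, k1⟩, q, hq, k2⟩ := maz hB
  exact no_cont h2.isClosed h3.isPreconnected (h1.trans (compl_subset_compl.2 hAB)) hp hq
    (by linarith) h1

/-- the example contains a line -/
theorem line (t : ℝ) : (!₂[√2, √2 + ps Real.sin √2, t] : E) ∈ A :=
  ⟨irrational_sqrt_two, Or.inl (by simpa using irrational_sqrt_two)⟩

end Pool.Agent.H82.MazB
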