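import Mathlib
import Pool.Agent.H82.Myc

set_option autoImplicit false

namespace Pool.Agent.H82.MenB

open Set Filter Topology Pool.Agent.H82.Myc

/-- a nice countable base at the identity -/
structure Base (G : Type) [Group G] [TopologicalSpace G] where
  U : ℕ → Set G
  nh : ∀ n, U n ∈ 𝓝 1
  sy : ∀ n x, x ∈ U n → x⁻¹ ∈ U n
  mu : ∀ n x y, x ∈ U (n + 1) → y ∈ U (n + 1) → x * y ∈ U n
  ba : ∀ V ∈ 𝓝 (1 : G), ∃ n, U n ⊆ V

variable {G : Type} [Group G] [TopologicalSpace G]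

lemma exBase [IsTopologicalGroup G] [FirstCountableTopology G] : Nonempty (Base G) := by
  obtain ⟨u, hu, h⟩ := IsTopologicalGroup.exists_antitone_basis_nhds_one G
  refine ⟨⟨fun n => u n ∩ (u n)⁻¹, fun n => inter_mem (hu.mem n) (inv_mem_nhds_one G (hu.mem n)),
    fun n x hx => ⟨hx.2, by simpa using hx.1⟩, fun n x y hx hy => ⟨h n (mul_mem_mul hx.1 hy.1), ?_⟩,
    fun V hV => (hu.mem_iff.1 hV).imp fun n hn => inter_subset_left.trans hn⟩⟩
  rw [Set.mem_inv, mul_inv_rev]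
  exact h n (mul_mem_mul hy.2 hx.2)

namespace Base

variable (b : Base G)

lemma anti : Antitone b.U := antitone_nat_of_succ_le fun n x hx => by
  simpa using b.mu n x 1 hx (mem_of_mem_nhds (b.nh _))

def cl (n : ℕ) (x y : G) : Prop := x⁻¹ * y ∈ b.U n

def In (F : Set G) (n : ℕ) (z : G) : Prop := ∃ f ∈ F, b.cl n f z

def Bd (A : Set G) : Prop := ∀ n, ∃ F : Set G, F.Finite ∧ ∀ z ∈ A, b.In F n z

def SB (A : Set G) : Prop := ∃ S : Set (Set G), S.Countable ∧ (∀ B ∈ S, b.Bd B) ∧ A ⊆ ⋃₀ S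

variable {b}

lemma cl.symm {n : ℕ} {x y : G} (h : b.cl n x y) : b.cl n y x := by
  simpa [cl] using b.sy n _ h

lemma cl.trans {n m k : ℕ} {x y z : G} (h : b.cl n x y) (h' : b.cl m y z) (h1 : k < n)
    (h2 : k < m) : b.cl k x z := by
  simpa [cl, mul_assoc] using b.mu k _ _ (b.anti h1 h) (b.anti h2 h')

lemma cl.left {n : ℕ} {x y : G} (h : b.cl n x y) (g : G) : b.cl n (g * x) (g * y) := by
  simpa [cl, mul_assoc] using h

lemma cl_nhds [IsTopologicalGroup G] (n : ℕ) (x : G) : {y | b.cl n x y} ∈ 𝓝 x :=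
  (show Continuous fun y : G => x⁻¹ * y by fun_prop).continuousAt.preimage_mem_nhds
    (by simpa using b.nh n)

lemma bad {F : ℕ → Set G} (hF : Monotone F) {n m k l : ℕ} {w w' z : G} (h : ¬ b.In (F l) n w)
    (h1 : b.cl m w w') (h2 : b.cl m w' z) (hm : n + 1 < m) (hk : n < k) (hl : k ≤ l) :
    ¬ b.In (F k) k z := fun ⟨f, hf, h3⟩ =>
  h ⟨f, hF hl hf, h3.trans (h1.trans h2 hm hm).symm hk n.lt_succ_self⟩

lemma pigeon {y : ℕ → G} {n : ℕ} (hy : Pairwise fun i j => ¬ b.cl n (y i) (y j)) {I : Set ℕ}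
    (hI : I.Infinite) {F : Set G} (hF : F.Finite) (g : ℕ → G) :
    ∃ i ∈ I, ∀ᶠ v in hyperfilter ℕ, ¬ b.In F (n + 1) (g v * y i) := by
  by_contra h
  have h1 : ∀ i, ∃ f, i ∈ I → f ∈ F ∧ ∀ᶠ v in hyperfilter ℕ, b.cl (n + 1) f (g v * y i) := by
    intro i
    by_cases hi : i ∈ I
    · obtain ⟨f, h2, h3⟩ := (Ultrafilter.eventually_exists_mem_iff hF).1
        (not_not.1 (mt Ultrafilter.eventually_not.2 fun h' => h ⟨i, hi, h'⟩))
      exact ⟨f, fun _ => ⟨h2, h3⟩⟩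
    · exact ⟨1, fun h => (hi h).elim⟩
  choose f hf using h1
  obtain ⟨i, hi, j, hj, hij, h2⟩ := hI.exists_ne_map_eq_of_mapsTo (fun i hi => (hf i hi).1) hF
  obtain ⟨v, h3, h4⟩ := ((hf i hi).2.and (hf j hj).2).exists
  rw [← h2] at h4
  simpa using hy hij (by simpa using (h3.symm.trans h4 n.lt_succ_self n.lt_succ_self).left (g v)⁻¹)

lemma escape {y : ℕ → G} {n : ℕ} (hy : Pairwise fun i j => ¬ b.cl n (y i) (y j))
    {F : Set G} (hF : F.Finite) : ∀ᶠ v in hyperfilter ℕ, ¬ b.In F (n + 1) (y v) := by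
  refine Ultrafilter.eventually_not.2 fun h => ?_
  obtain ⟨f, -, h1⟩ := (Ultrafilter.eventually_exists_mem_iff hF).1 h
  obtain ⟨i, hi⟩ := h1.exists
  obtain ⟨j, hj, hij⟩ := (h1.and (hyperfilter_le_cofinite (eventually_cofinite_ne i))).exists
  exact hy hij (hj.symm.trans hi n.lt_succ_self n.lt_succ_self)

variable (b) (f : (ℕ → ℕ) → G)

def C : Set (ℕ → ℕ) := {β | ∀ k, ¬ b.SB (f '' {γ | ag k γ β})}

lemma kernel {W : Set (ℕ → ℕ)} (h : b.SB (f '' (b.C f ∩ W))) : b.SB (f '' W) := by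
  obtain ⟨S, h1, h2, h3⟩ := h
  let T := {q : ℕ × (ℕ →₀ ℕ) // b.SB (f '' {γ | ag q.1 γ q.2})}
  choose S' h4 h5 h6 using fun q : T => q.2
  refine ⟨S ∪ ⋃ q, S' q, h1.union (countable_iUnion h4), ?_, ?_⟩
  · rintro B (hB | hB)
    · exact h2 B hB
    · obtain ⟨q, hq⟩ := mem_iUnion.1 hB
      exact h5 q B hq
  · rintro _ ⟨β, hβ, rfl⟩
    by_cases hC : β ∈ b.C f
    · exact sUnion_subset_sUnion subset_union_left (h3 ⟨β, ⟨hC, hβ⟩, rfl⟩)
    · obtain ⟨k, hk⟩ := not_forall.1 hC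
      let δ : ℕ →₀ ℕ := Finsupp.onFinset (Finset.range k) (fun i => if i < k then β i else 0)
        fun i hi => by by_contra h; exact hi (if_neg (by simpa using h))
      have h7 : {γ | ag k γ δ} = {γ | ag k γ β} := by
        ext γ
        exact forall₂_congr fun i hi => by simp [δ, hi]
      obtain ⟨B, hB, h8⟩ := h6 ⟨(k, δ), h7 ▸ not_not.1 hk⟩ ⟨β, h7.symm.subset fun _ _ => rfl, rfl⟩
      exact ⟨B, Or.inr (mem_iUnion.2 ⟨_, hB⟩), h8⟩

/-- nodes of the perfect kernel -/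
structure Nd where
  k : ℕ
  β : ℕ → ℕ
  hβ : β ∈ b.C f

variable {b f}

def Nd.A (s : Nd b f) : Set G := f '' (b.C f ∩ {γ | ag s.k γ s.β})

def Nd.R (s t : Nd b f) : Prop := s.k < t.k ∧ ag s.k t.β s.β

lemma Nd.R.trans {s t u : Nd b f} (h : s.R t) (h' : t.R u) : s.R u :=
  ⟨h.1.trans h'.1, h'.2.trans h.2 h.1.le le_rfl⟩

lemma Nd.R.sub {s t : Nd b f} (h : s.R t) : t.A ⊆ s.A :=
  image_mono fun _ hγ => ⟨hγ.1, ag.trans hγ.2 h.2 h.1.le le_rfl⟩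

lemma Nd.shrink (hf : Continuous f) (s : Nd b f) {x : G} (hx : x ∈ s.A) {W : Set G}
    (hW : W ∈ 𝓝 x) : ∃ t, s.R t ∧ t.A ⊆ W := by
  obtain ⟨γ, ⟨h1, h2⟩, rfl⟩ := hx
  have h := hf.continuousAt.preimage_mem_nhds hW
  rw [nhds_pi, Filter.mem_pi] at h
  obtain ⟨I, hI, t, ht, hO⟩ := h
  obtain ⟨k, hk⟩ := hI.bddAbove
  refine ⟨⟨max s.k k + 1, γ, h1⟩, ⟨Nat.lt_succ_of_le (le_max_left _ _), h2⟩, ?_⟩
  rintro _ ⟨δ, hδ, rfl⟩
  exact hO fun i hi => hδ.2 i (Nat.lt_succ_of_le (le_max_of_le_right (hk hi))) ▸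
    mem_of_mem_nhds (ht i)

lemma Nd.sep (s : Nd b f) : ∃ n ≥ s.k, ∃ x : ℕ → G, (∀ v, x v ∈ s.A) ∧
    Pairwise fun i j => ¬ b.cl n (x i) (x j) := by
  have h : ¬ b.Bd s.A := fun h => s.hβ s.k (b.kernel f ⟨{s.A}, countable_singleton _,
    by simpa using h, by simp [Nd.A]⟩)
  simp only [Bd, not_forall, not_exists, not_and] at h
  obtain ⟨n, hn⟩ := h
  have : Std.Symm fun x y => ¬ b.cl n x y := ⟨fun _ _ h h' => h h'.symm⟩
  obtain ⟨x, h1, h2⟩ := exists_seq_of_forall_finset_exists' (· ∈ s.A) (fun x y => ¬ b.cl n x y)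
    fun F _ => by
      obtain ⟨z, hz, h⟩ := hn F F.finite_toSet
      exact ⟨z, hz, fun x hx h' => h ⟨x, hx, h'⟩⟩
  exact ⟨max n s.k, le_max_right _ _, x, h1, fun i j hij h =>
    h2 hij (b.anti (le_max_left _ _) h)⟩

lemma Nd.lim (s : ℕ → Nd b f) (h : ∀ m, (s m).R (s (m + 1))) : ∃ x, ∀ m, x ∈ (s m).A := by
  have hm : StrictMono fun m => (s m).k := strictMono_nat_of_lt_succ fun m => (h m).1
  have h1 : ∀ k m, k ≤ m → ag (s k).k (s m).β (s k).β := by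
    intro k m hkm
    induction m, hkm using Nat.le_induction with
    | base => exact fun _ _ => rfl
    | succ m hkm ih => exact (h m).2.trans ih (hm.monotone hkm) le_rfl
  let β : ℕ → ℕ := fun i => (s (i + 1)).β i
  have h2 : ∀ k, ag (s k).k β (s k).β := fun k i hi =>
    (h1 (i + 1) _ (le_max_left _ k) i (hm.id_le (i + 1))).symm.trans
      (h1 k _ (le_max_right _ _) i hi)
  refine ⟨f β, fun m => ⟨β, ⟨fun k => ?_, h2 m⟩, rfl⟩⟩
  have h3 : {γ | ag k γ β} = {γ | ag k γ (s k).β} := by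
    ext γ
    exact forall₂_congr fun i hi => by rw [h2 k i (hi.trans_le (hm.id_le k))]
  exact h3 ▸ (s k).hβ k

lemma game (Φ : G → G → G → G) (Q : ℕ → G → Prop) (n : Nd b f → ℕ) (hn : ∀ s, s.k ≤ n s)
    (P : Nd b f × Nd b f × Nd b f → Prop) (h0 : ∃ σ, P σ)
    (h : ∀ σ, P σ → ∃ σ', P σ' ∧ σ.1.R σ'.1 ∧ σ.2.1.R σ'.2.1 ∧ σ.2.2.R σ'.2.2 ∧
      ∀ x ∈ σ'.1.A, ∀ y ∈ σ'.2.1.A, ∀ t ∈ σ'.2.2.A, ∀ k, n σ.2.2 + 2 ≤ k → k ≤ n σ'.2.2 + 2 →
        Q k (Φ x y t)) : ∃ z k0, ∀ k ≥ k0, Q k z := by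
  choose! nx h1 h2 h3 h4 h5 using h
  obtain ⟨σ0, h0⟩ := h0
  let σ : ℕ → Nd b f × Nd b f × Nd b f := fun m => nx^[m] σ0
  have hs : ∀ m, σ (m + 1) = nx (σ m) := fun m => Function.iterate_succ_apply' _ _ _
  have hP : ∀ m, P (σ m) := fun m => by
    induction m with
    | zero => exact h0
    | succ m ih => exact hs m ▸ h1 _ ih
  obtain ⟨x, hx⟩ := Nd.lim (fun m => (σ m).1) fun m => hs m ▸ h2 _ (hP m)
  obtain ⟨y, hy⟩ := Nd.lim (fun m => (σ m).2.1) fun m => hs m ▸ h3 _ (hP m)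
  obtain ⟨t, ht⟩ := Nd.lim (fun m => (σ m).2.2) fun m => hs m ▸ h4 _ (hP m)
  have hm : StrictMono fun m => (σ m).2.2.k :=
    strictMono_nat_of_lt_succ fun m => by simpa only [hs] using (h4 _ (hP m)).1
  have h6 : ∀ m k, n (σ 0).2.2 + 2 ≤ k → k ≤ n (σ (m + 1)).2.2 + 2 → Q k (Φ x y t) := by
    have h7 := fun m => h5 _ (hP m) x (hs m ▸ hx (m + 1)) y (hs m ▸ hy (m + 1)) t
      (hs m ▸ ht (m + 1))
    intro m
    induction m with
    | zero => exact fun k a c => h7 0 k a (hs 0 ▸ c)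
    | succ m ih =>
      intro k a c
      by_cases h : k ≤ n (σ (m + 1)).2.2 + 2
      · exact ih k a h
      · exact h7 (m + 1) k (by omega) (hs (m + 1) ▸ c)
  refine ⟨Φ x y t, _, fun k hk => h6 k k hk ?_⟩
  have := (hm.id_le (k + 1)).trans (hn _)
  simp only [id] at this
  omega

theorem main [IsTopologicalGroup G] (hf : Continuous f) (hs : Function.Surjective f)
    (hG : ¬ b.SB univ) {F : ℕ → Set G} (hF : Monotone F) (hF' : ∀ k, (F k).Finite) :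
    ∃ z k0, ∀ k ≥ k0, ¬ b.In (F k) k z := by
  obtain ⟨β, hβ⟩ : (b.C f).Nonempty := by
    by_contra h
    rw [not_nonempty_iff_eq_empty] at h
    refine hG (hs.range_eq ▸ image_univ (f := f) ▸ b.kernel f ?_)
    exact ⟨∅, countable_empty, by simp, by simp [h]⟩
  let s0 : Nd b f := ⟨0, β, hβ⟩
  choose n hn X hX hX' using Nd.sep (b := b) (f := f)
  let Esc : Nd b f → Nd b f → ℕ → Prop := fun u τ a =>
    ∀ y ∈ u.A, ∀ g : G, ∀ᶠ i in cofinite, ¬ b.cl a g ((X τ i)⁻¹ * y)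
  by_cases hc : ∃ u0 τ0 : Nd b f, ∀ u τ, u0.R u → τ0.R τ → ∃ a, Esc u τ a
  · obtain ⟨u0, τ0, hc⟩ := hc
    refine game (fun _ x y => x⁻¹ * y) (fun k z => ¬ b.In (F k) k z) n hn
      (fun σ => τ0.R σ.2.1 ∧ u0.R σ.2.2) ?_ ?_
    · obtain ⟨τ, h1, -⟩ := τ0.shrink hf (hX τ0 0) univ_mem
      obtain ⟨u, h2, -⟩ := u0.shrink hf (hX u0 0) univ_mem
      exact ⟨(s0, τ, u), h1, h2⟩
    rintro ⟨s, τ, u⟩ ⟨h1, h2⟩
    obtain ⟨a, ha⟩ := hc u τ h2 h1
    obtain ⟨w, -, hw⟩ := pigeon (hX' u) infinite_univ (hF' (a + 1)) fun i => (X τ i)⁻¹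
    obtain ⟨u', h3, h4⟩ := u.shrink hf (hX u w) (cl_nhds (b := b) (n u + a + 3) _)
    obtain ⟨i, h5, h6⟩ := (hw.and (hyperfilter_le_cofinite ((eventually_all_finite
      (hF' (n u' + 2))).2 fun g _ => ha _ (hX u w) g))).exists
    obtain ⟨τ', h7, h8⟩ := τ.shrink hf (hX τ i)
      ((show Continuous fun x : G => x⁻¹ * X u w by fun_prop).continuousAt.preimage_mem_nhds
        (cl_nhds (b := b) (n u + a + 3) _))
    obtain ⟨s', h9, -⟩ := s.shrink hf (hX s 0) univ_mem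
    refine ⟨(s', τ', u'), ⟨h1.trans h7, h2.trans h3⟩, h9, h7, h3, fun _ _ x hx y hy k hk hk' => ?_⟩
    have e1 : b.cl (n u + a + 3) ((X τ i)⁻¹ * X u w) (x⁻¹ * X u w) := h8 hx
    have e2 := cl.left (h4 hy) x⁻¹
    by_cases h : k ≤ a + 1
    · exact bad hF h5 e1 e2 (by omega) hk h
    · exact bad hF (fun ⟨g, hg, h⟩ => h6 g hg h) e1 e2 (by omega) (by omega) hk'
  · push Not at hc
    refine game (fun x y t => x * (y⁻¹ * t)) (fun k z => ¬ b.In (F k) k z) n hn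
      (fun σ => ∀ a, ¬ Esc σ.2.1 σ.2.2 a) ?_ ?_
    · obtain ⟨u, τ, -, -, h⟩ := hc s0 s0
      exact ⟨(s0, u, τ), h⟩
    rintro ⟨s, u, τ⟩ h
    have h1 := h (n s + 2)
    simp only [Esc, not_forall, not_eventually, not_not, frequently_cofinite_iff_infinite] at h1
    obtain ⟨y0, hy0, g, hI⟩ := h1
    obtain ⟨c, hc'⟩ := b.ba _
      ((show Continuous fun w : G => g⁻¹ * w * g by fun_prop).continuousAt.preimage_mem_nhds
        (by simpa using b.nh (n s + 2)))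
    obtain ⟨i, hi, h2⟩ := pigeon (hX' τ) hI (hF' (c + 2)) fun v => X s v * y0⁻¹
    have h3 : Pairwise fun v v' => ¬ b.cl c (X s v * (y0⁻¹ * X τ i)) (X s v' * (y0⁻¹ * X τ i)) := by
      intro v v' hv h3
      have h4 := b.mu _ _ _ (b.mu _ _ _ (b.sy _ _ hi) (hc' h3)) (b.anti (Nat.le_succ _) hi)
      exact hX' s hv (by simpa [cl, mul_assoc] using h4)
    obtain ⟨W1, hW1, W2, hW2, hW⟩ := mem_nhds_prod_iff.1
      ((show Continuous fun p : G × G => p.1⁻¹ * p.2 by fun_prop).continuousAt.preimage_mem_nhds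
        (x := (y0, X τ i)) (cl_nhds (b := b) (n τ + c + 3) _))
    obtain ⟨u1, h4, h5⟩ := u.shrink hf hy0 hW1
    obtain ⟨τ1, h6, h7⟩ := τ.shrink hf (hX τ i) hW2
    obtain ⟨u', τ', h8, h9, h10⟩ := hc u1 τ1
    obtain ⟨v, h11, h12⟩ := (h2.and (escape h3 (hF' (n τ' + 2)))).exists
    obtain ⟨s', h13, h14⟩ := s.shrink hf (hX s v)
      ((show Continuous fun x : G => x * (y0⁻¹ * X τ i) by
        fun_prop).continuousAt.preimage_mem_nhds (cl_nhds (b := b) (n τ + c + 3) _))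
    refine ⟨(s', u', τ'), h10, h13, h4.trans h8, h6.trans h9, fun x hx y hy t ht k hk hk' => ?_⟩
    have e1 : b.cl (n τ + c + 3) (X s v * (y0⁻¹ * X τ i)) (x * (y0⁻¹ * X τ i)) := h14 hx
    have e2 := cl.left (hW (mk_mem_prod (h5 (h8.sub hy)) (h7 (h9.sub ht)))) x
    by_cases h : k ≤ c + 2
    · exact bad hF (by simpa only [mul_assoc] using h11) e1 e2 (by omega) hk h
    · exact bad hF h12 e1 e2 (by omega) (by omega) hk'

end Base

end Pool.Agent.H82.MenB
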