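import Mathlib

set_option autoImplicit false

open Set Filter Topology TopologicalSpace

namespace Pool.Agent.H82.MonoMon

theorem metrizable_of_partitions {D Y : Type} [TopologicalSpace D] [T0Space D] (a : ℕ → D → Y)
    (hopen : ∀ n z, {w | a n w = a n z} ∈ 𝓝 z)
    (hbase : ∀ z, ∀ U ∈ 𝓝 z, ∃ n, {w | a n w = a n z} ⊆ U) : MetrizableSpace D := by
  let : UniformSpace Y := ⊥
  have : DiscreteUniformity Y := ⟨rfl⟩
  have : PseudoMetrizableSpace (ℕ → Y) := inferInstance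
  have hi : IsInducing (fun z : D => fun n => a n z) := by
    rw [isInducing_iff_nhds]
    intro z
    apply le_antisymm
    · rw [← Filter.map_le_iff_le_comap]
      refine tendsto_pi_nhds.2 fun n => ?_
      rw [nhds_discrete Y]
      exact tendsto_pure.2 (hopen n z)
    · intro U hU
      obtain ⟨n, hn⟩ := hbase z U hU
      refine ⟨{w | w n = a n z}, ?_, hn⟩
      have : IsOpen {w : ℕ → Y | w n = a n z} :=
        (continuous_apply (A := fun _ : ℕ => Y) n).isOpen_preimage _ (isOpen_discrete {a n z})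
      exact this.mem_nhds rfl
  have := hi.pseudoMetrizableSpace
  infer_instance

theorem exists_max {X : Type} [TopologicalSpace X] (G : Set (Set X)) (V : Set X) (hV : IsOpen V)
    (hG : ∀ W ∈ G, IsOpen W ∧ W.Nonempty)
    (h : ∀ U, IsOpen U → U.Nonempty → U ⊆ V → ∃ W ∈ G, W ⊆ U) :
    ∃ C ⊆ G, C.PairwiseDisjoint id ∧ V ⊆ closure (⋃₀ C) := by
  obtain ⟨C, hC⟩ := zorn_subset {C : Set (Set X) | C ⊆ G ∧ C.PairwiseDisjoint id} (by
    intro c hc hch
    refine ⟨⋃₀ c, ⟨?_, ?_⟩, fun s hs => subset_sUnion_of_mem hs⟩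
    · exact sUnion_subset fun s hs => (hc hs).1
    · exact (pairwiseDisjoint_sUnion hch.directedOn).2 fun s hs => (hc hs).2)
  refine ⟨C, hC.prop.1, hC.prop.2, ?_⟩
  by_contra hn
  obtain ⟨x, hxV, hx⟩ := not_subset.1 hn
  obtain ⟨W, hWG, hW⟩ := h (V \ closure (⋃₀ C)) (hV.sdiff isClosed_closure) ⟨x, hxV, hx⟩
    sdiff_subset
  have hd : ∀ W' ∈ C, Disjoint W W' := fun W' hW' =>
    disjoint_left.2 fun y hy hy' => (hW hy).2 (subset_closure ⟨W', hW', hy'⟩)
  have : insert W C ⊆ C := by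
    refine hC.le_of_ge ⟨insert_subset hWG hC.prop.1, ?_⟩ (subset_insert _ _)
    exact hC.prop.2.insert fun W' hW' _ => hd W' hW'
  obtain ⟨y, hy⟩ := (hG W hWG).2
  exact disjoint_left.1 (hd W (this (mem_insert _ _))) hy hy

theorem decide_fin {X : Type} [TopologicalSpace X] (S : Set (Set X)) (hS : S.Finite) :
    ∀ U : Set X, IsOpen U → U.Nonempty → ∃ W, IsOpen W ∧ W.Nonempty ∧ W ⊆ U ∧
      ∀ N ∈ S, W ⊆ closure N ∨ Disjoint W N := by
  induction S, hS using Set.Finite.induction_on with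
  | empty => exact fun U hU hne => ⟨U, hU, hne, subset_rfl, by simp⟩
  | @insert N S _ _ ih =>
    intro U hU hne
    obtain ⟨W, hW, hWne, hWU, hWS⟩ := ih U hU hne
    by_cases hc : W ⊆ closure N
    · refine ⟨W, hW, hWne, hWU, ?_⟩
      rintro N' (rfl | h)
      · exact Or.inl hc
      · exact hWS N' h
    · refine ⟨W \ closure N, hW.sdiff isClosed_closure, not_subset.1 hc,
        sdiff_subset.trans hWU, ?_⟩
      rintro N' (rfl | h)
      · exact Or.inr (disjoint_left.2 fun y hy hy' => hy.2 (subset_closure hy'))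
      · rcases hWS N' h with h' | h'
        · exact Or.inl (sdiff_subset.trans h')
        · exact Or.inr (h'.mono_left sdiff_subset)

/-- The tree of open sets. -/
theorem tree {X : Type} [TopologicalSpace X] [CompactSpace X] [T2Space X] [Nonempty X]
    (O : Set X → Set (Set X)) (hc : ∀ A : Set X, A.Finite → (O A).Countable)
    (hn : ∀ A : Set X, ∀ x ∈ closure A, ∀ U : Set X, IsOpen U → x ∈ U →
      ∃ N ∈ O A, x ∈ N ∧ N ⊆ U)
    (hu : ∀ x : ℕ → X, O (range x) ⊆ ⋃ n, O (x '' Iio n)) :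
    ∃ T : ℕ → Set (Set X × Set X),
      (∀ n, ∀ a ∈ T n, IsOpen a.1 ∧ a.1.Nonempty) ∧
      (∀ n, ∀ a ∈ T n, ∀ b ∈ T n, (a.1 ∩ b.1).Nonempty → a = b) ∧
      (∀ n, Dense (⋃ a ∈ T n, a.1)) ∧
      ∀ (z : X) (a : ℕ → Set X × Set X), (∀ n, a n ∈ T n ∧ z ∈ (a n).1) →
        ∀ U ∈ 𝓝 z, ∃ n, (a n).1 ⊆ U := by
  classical
  have he : ∀ A : Set X, ∃ e : ℕ → Set X, A.Finite → O A ⊆ range e := by
    intro A
    by_cases hA : A.Finite
    · obtain ⟨e, he⟩ := countable_iff_exists_subset_range.1 (hc A hA)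
      exact ⟨e, fun _ => he⟩
    · exact ⟨fun _ => ∅, fun h => absurd h hA⟩
  choose e he using he
  have hp : ∀ V : Set X, ∃ x : X, V.Nonempty → x ∈ V := by
    intro V
    by_cases hV : V.Nonempty
    · exact ⟨hV.some, fun _ => hV.some_mem⟩
    · exact ⟨Classical.arbitrary X, fun h => absurd h hV⟩
  choose p hp using hp
  have hC : ∀ (V F : Set X) (n : ℕ), ∃ C : Set (Set X), IsOpen V → F.Finite →
      (∀ W ∈ C, IsOpen W ∧ W.Nonempty ∧ closure W ⊆ V ∧
        ∀ G ⊆ F, ∀ i ≤ n, W ⊆ closure (e G i) ∨ Disjoint W (e G i)) ∧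
      C.PairwiseDisjoint id ∧ V ⊆ closure (⋃₀ C) := by
    intro V F n
    by_cases h : IsOpen V ∧ F.Finite
    · obtain ⟨C, h1, h2, h3⟩ := exists_max {W | IsOpen W ∧ W.Nonempty ∧ closure W ⊆ V ∧
        ∀ G ⊆ F, ∀ i ≤ n, W ⊆ closure (e G i) ∨ Disjoint W (e G i)} V h.1
        (fun W hW => ⟨hW.1, hW.2.1⟩) (by
          intro U hU hne hUV
          have hfin : (image2 e {G | G ⊆ F} (Iic n)).Finite :=
            Finite.image2 _ h.2.finite_subsets (finite_Iic n)
          obtain ⟨W, hW, ⟨x, hx⟩, hWU, hWS⟩ := decide_fin _ hfin U hU hne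
          obtain ⟨W', hW'x, hW'c, hW'W⟩ := exists_mem_nhds_isClosed_subset (hW.mem_nhds hx)
          have hi : interior W' ⊆ W := interior_subset.trans hW'W
          refine ⟨interior W', ⟨isOpen_interior, ⟨x, mem_interior_iff_mem_nhds.2 hW'x⟩, ?_, ?_⟩,
            hi.trans hWU⟩
          · exact (closure_minimal interior_subset hW'c).trans (hW'W.trans (hWU.trans hUV))
          · intro G hG i hi'
            rcases hWS _ (mem_image2_of_mem hG hi') with h' | h'
            · exact Or.inl (hi.trans h')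
            · exact Or.inr (h'.mono_left hi))
      exact ⟨C, fun _ _ => ⟨h1, h2, h3⟩⟩
    · exact ⟨∅, fun h1 h2 => absurd ⟨h1, h2⟩ h⟩
  choose C hC using hC
  let T : ℕ → Set (Set X × Set X) := fun n => Nat.rec {(univ, ∅)}
    (fun n S => {b | ∃ a ∈ S, b.2 = insert (p a.1) a.2 ∧ b.1 ∈ C a.1 b.2 n}) n
  have hT0 : T 0 = {(univ, ∅)} := rfl
  have hTs : ∀ n, T (n + 1) =
      {b | ∃ a ∈ T n, b.2 = insert (p a.1) a.2 ∧ b.1 ∈ C a.1 b.2 n} := fun n => rfl
  have h1 : ∀ n, ∀ a ∈ T n, IsOpen a.1 ∧ a.1.Nonempty ∧ a.2.Finite := by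
    intro n
    induction n with
    | zero =>
      intro a ha
      rw [hT0, mem_singleton_iff] at ha
      subst ha
      exact ⟨isOpen_univ, univ_nonempty, finite_empty⟩
    | succ n ih =>
      rintro b ⟨a, ha, hb2, hb1⟩
      have hf : b.2.Finite := hb2 ▸ (ih a ha).2.2.insert _
      have := (hC _ _ n (ih a ha).1 hf).1 _ hb1
      exact ⟨this.1, this.2.1, hf⟩
  have hpar : ∀ n, ∀ b ∈ T (n + 1), ∃ a ∈ T n, b.2 = insert (p a.1) a.2 ∧
      b.1 ∈ C a.1 b.2 n ∧ closure b.1 ⊆ a.1 ∧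
      ∀ G ⊆ b.2, ∀ i ≤ n, b.1 ⊆ closure (e G i) ∨ Disjoint b.1 (e G i) := by
    intro n b hb
    obtain ⟨a, ha, hb2, hb1⟩ := hb
    have hf : b.2.Finite := hb2 ▸ (h1 n a ha).2.2.insert _
    have := (hC _ _ n (h1 n a ha).1 hf).1 _ hb1
    exact ⟨a, ha, hb2, hb1, this.2.2.1, this.2.2.2⟩
  have h2 : ∀ n, ∀ a ∈ T n, ∀ b ∈ T n, (a.1 ∩ b.1).Nonempty → a = b := by
    intro n
    induction n with
    | zero =>
      intro a ha b hb _
      rw [hT0, mem_singleton_iff] at ha hb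
      rw [ha, hb]
    | succ n ih =>
      rintro b hb b' hb' ⟨x, hx, hx'⟩
      obtain ⟨a, ha, e2, e1, hcl, -⟩ := hpar n b hb
      obtain ⟨a', ha', e2', e1', hcl', -⟩ := hpar n b' hb'
      have haa : a = a' := ih a ha a' ha' ⟨x, hcl (subset_closure hx), hcl' (subset_closure hx')⟩
      subst haa
      have e3 : b.2 = b'.2 := e2.trans e2'.symm
      refine Prod.ext ?_ e3
      by_contra hne
      have hd := (hC _ _ n (h1 n a ha).1 (h1 (n + 1) b hb).2.2).2.1 e1 (e3 ▸ e1') hne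
      exact disjoint_left.1 hd hx hx'
  have h3 : ∀ n, Dense (⋃ a ∈ T n, a.1) := by
    intro n
    induction n with
    | zero =>
      rw [hT0]
      simp
    | succ n ih =>
      have : (⋃ a ∈ T n, a.1) ⊆ closure (⋃ a ∈ T (n + 1), a.1) := by
        intro x hx
        obtain ⟨a, ha, hxa⟩ := mem_iUnion₂.1 hx
        have := (hC a.1 (insert (p a.1) a.2) n (h1 n a ha).1 ((h1 n a ha).2.2.insert _)).2.2 hxa
        refine closure_mono ?_ this
        rintro y ⟨W, hW, hy⟩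
        exact mem_iUnion₂.2 ⟨(W, insert (p a.1) a.2), ⟨a, ha, rfl, hW⟩, hy⟩
      exact (ih.mono this).of_closure
  refine ⟨T, fun n a ha => ⟨(h1 n a ha).1, (h1 n a ha).2.1⟩, h2, h3, ?_⟩
  intro z a ha
  have hs : ∀ n, (a (n + 1)).2 = insert (p (a n).1) (a n).2 ∧ closure (a (n + 1)).1 ⊆ (a n).1 ∧
      ∀ G ⊆ (a (n + 1)).2, ∀ i ≤ n,
        (a (n + 1)).1 ⊆ closure (e G i) ∨ Disjoint (a (n + 1)).1 (e G i) := by
    intro n
    obtain ⟨b, hb, e2, -, hcl, hd⟩ := hpar n _ (ha (n + 1)).1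
    have : b = a n := h2 n b hb _ (ha n).1 ⟨z, hcl (subset_closure (ha (n + 1)).2), (ha n).2⟩
    subst this
    exact ⟨e2, hcl, hd⟩
  let x : ℕ → X := fun n => p (a n).1
  have hx : ∀ n, x n ∈ (a n).1 := fun n => hp _ ⟨z, (ha n).2⟩
  have hF : ∀ n, x '' Iio n ⊆ (a n).2 := by
    intro n
    induction n with
    | zero => simp
    | succ n ih =>
      rw [(hs n).1]
      rintro _ ⟨i, hi, rfl⟩
      rcases Nat.lt_succ_iff_lt_or_eq.1 hi with h | rfl
      · exact Or.inr (ih ⟨i, h, rfl⟩)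
      · exact Or.inl rfl
  have hanti : Antitone fun n => (a n).1 :=
    antitone_nat_of_succ_le fun n => subset_closure.trans (hs n).2.1
  obtain ⟨y, hy⟩ := exists_clusterPt_of_compactSpace (map x atTop)
  have hyc : ∀ s : Set X, (∀ᶠ n in atTop, x n ∈ s) → y ∈ closure s := fun s hs =>
    (hy.mono (le_principal_iff.2 hs)).mem_closure
  have hya : ∀ n, y ∈ (a n).1 := fun n => (hs n).2.1 (hyc _ (by
    filter_upwards [eventually_ge_atTop (n + 1)] with m hm using hanti hm (hx m)))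
  have hb : ∀ U ∈ 𝓝 y, ∃ n, (a n).1 ⊆ U := by
    intro U hU
    obtain ⟨U', hU'y, hU'c, hU'U⟩ := exists_mem_nhds_isClosed_subset hU
    obtain ⟨N, hN, hyN, hNU⟩ := hn (range x) y (hyc _ (Eventually.of_forall fun n => ⟨n, rfl⟩))
      (interior U') isOpen_interior (mem_interior_iff_mem_nhds.2 hU'y)
    obtain ⟨k, hk⟩ := mem_iUnion.1 (hu x hN)
    obtain ⟨i, rfl⟩ := he _ ((finite_Iio k).image x) hk
    refine ⟨max k i + 1, ?_⟩
    rcases (hs (max k i)).2.2 (x '' Iio k) ((image_mono (Iio_subset_Iio (by omega))).trans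
      (hF (max k i + 1))) i (le_max_right _ _) with h | h
    · exact h.trans ((closure_minimal (hNU.trans interior_subset) hU'c).trans hU'U)
    · exact absurd hyN (disjoint_left.1 h (hya _))
  have hzy : z = y := by
    by_contra hne
    obtain ⟨n, hn⟩ := hb {z}ᶜ (isOpen_compl_singleton.mem_nhds (Ne.symm hne))
    exact hn (ha n).2 rfl
  subst hzy
  exact hb

theorem dense_metrizable {X : Type} [TopologicalSpace X] [CompactSpace X] [T2Space X]
    (O : Set X → Set (Set X)) (hc : ∀ A : Set X, A.Finite → (O A).Countable)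
    (hn : ∀ A : Set X, ∀ x ∈ closure A, ∀ U : Set X, IsOpen U → x ∈ U →
      ∃ N ∈ O A, x ∈ N ∧ N ⊆ U)
    (hu : ∀ x : ℕ → X, O (range x) ⊆ ⋃ n, O (x '' Iio n)) :
    ∃ D : Set X, Dense D ∧ MetrizableSpace D := by
  rcases isEmpty_or_nonempty X with h | h
  · exact ⟨univ, dense_univ, inferInstance⟩
  obtain ⟨T, h1, h2, h3, h4⟩ := tree O hc hn hu
  refine ⟨⋂ n, ⋃ a ∈ T n, a.1, dense_iInter_of_isOpen_nat
    (fun n => isOpen_biUnion fun a ha => (h1 n a ha).1) h3, ?_⟩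
  have : ∀ n (z : (⋂ n, ⋃ a ∈ T n, a.1 : Set X)), ∃ a ∈ T n, z.1 ∈ a.1 := fun n z => by
    simpa using mem_iInter.1 z.2 n
  choose a ha hz using this
  refine metrizable_of_partitions a ?_ ?_
  · intro n z
    have : Subtype.val ⁻¹' (a n z).1 ∈ 𝓝 z :=
      continuous_subtype_val.continuousAt.preimage_mem_nhds ((h1 n _ (ha n z)).1.mem_nhds (hz n z))
    filter_upwards [this] with w hw using h2 n _ (ha n w) _ (ha n z) ⟨w, hz n w, hw⟩
  · intro z U hU
    obtain ⟨U', hU', hUU⟩ := (mem_nhds_subtype _ _ _).1 hU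
    obtain ⟨n, hn⟩ := h4 z (fun n => a n z) (fun n => ⟨ha n z, hz n z⟩) U' hU'
    refine ⟨n, fun w hw => hUU (hn ?_)⟩
    have := hz n w
    rwa [hw] at this

theorem metrizable_of_network {X : Type} [TopologicalSpace X] [CompactSpace X] [T2Space X]
    (S : Set (Set X)) (hS : S.Countable)
    (hn : ∀ x, ∀ U : Set X, IsOpen U → x ∈ U → ∃ N ∈ S, x ∈ N ∧ N ⊆ U) :
    MetrizableSpace X := by
  have hf : ∀ N M : Set X, ∃ f : C(X, ℝ), Disjoint (closure N) (closure M) →
      EqOn f 0 (closure N) ∧ EqOn f 1 (closure M) := by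
    intro N M
    by_cases h : Disjoint (closure N) (closure M)
    · obtain ⟨f, h1, h2, -⟩ := exists_continuous_zero_one_of_isClosed isClosed_closure
        isClosed_closure h
      exact ⟨f, fun _ => ⟨h1, h2⟩⟩
    · exact ⟨0, fun h' => absurd h' h⟩
  choose f hf using hf
  have := hS.to_subtype
  let : Encodable (S × S) := Encodable.ofCountable _
  refine Metric.PiNatEmbed.TopologicalSpace.MetrizableSpace.of_countable_separating
    (ι := S × S) (Y := fun _ => ℝ) (fun i => f i.1 i.2) (fun i => (f _ _).continuous) ?_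
  intro x y hxy
  obtain ⟨U, V, hU, hV, hx, hy, hUV⟩ := t2_separation hxy
  obtain ⟨U', hU'x, hU'c, hU'U⟩ := exists_mem_nhds_isClosed_subset (hU.mem_nhds hx)
  obtain ⟨V', hV'x, hV'c, hV'U⟩ := exists_mem_nhds_isClosed_subset (hV.mem_nhds hy)
  obtain ⟨N, hN, hxN, hNU⟩ := hn x _ isOpen_interior (mem_interior_iff_mem_nhds.2 hU'x)
  obtain ⟨M, hM, hyM, hMV⟩ := hn y _ isOpen_interior (mem_interior_iff_mem_nhds.2 hV'x)
  have := hf N M (hUV.mono ((closure_minimal (hNU.trans interior_subset) hU'c).trans hU'U)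
    ((closure_minimal (hMV.trans interior_subset) hV'c).trans hV'U))
  refine ⟨(⟨N, hN⟩, ⟨M, hM⟩), ?_⟩
  simp only
  rw [this.1 (subset_closure hxN), this.2 (subset_closure hyM)]
  simp

theorem ccc_metrizable {X : Type} [TopologicalSpace X] [CompactSpace X] [T2Space X]
    (hccc : ∀ F : Set (Set X), (∀ U ∈ F, IsOpen U ∧ U.Nonempty) → F.PairwiseDisjoint id →
      F.Countable)
    (O : Set X → Set (Set X)) (hc : ∀ A : Set X, A.Countable → (O A).Countable)
    (hn : ∀ A : Set X, ∀ x ∈ closure A, ∀ U : Set X, IsOpen U → x ∈ U →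
      ∃ N ∈ O A, x ∈ N ∧ N ⊆ U)
    (hu : ∀ x : ℕ → X, O (range x) ⊆ ⋃ n, O (x '' Iio n)) :
    MetrizableSpace X := by
  rcases isEmpty_or_nonempty X with h | h
  · infer_instance
  obtain ⟨T, h1, h2, h3, h4⟩ := tree O (fun A hA => hc A hA.countable) hn hu
  have hp : ∀ V : Set X, ∃ x : X, V.Nonempty → x ∈ V := by
    intro V
    by_cases hV : V.Nonempty
    · exact ⟨hV.some, fun _ => hV.some_mem⟩
    · exact ⟨Classical.arbitrary X, fun h => absurd h hV⟩
  choose p hp using hp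
  have hT : ∀ n, (Prod.fst '' T n).Countable := by
    intro n
    refine hccc _ ?_ ?_
    · rintro _ ⟨a, ha, rfl⟩
      exact h1 n a ha
    · rintro _ ⟨a, ha, rfl⟩ _ ⟨b, hb, rfl⟩ hne
      by_contra hd
      exact hne (congrArg Prod.fst (h2 n a ha b hb (not_disjoint_iff_nonempty_inter.1 hd)))
  have hA : (⋃ n, p '' (Prod.fst '' T n)).Countable := countable_iUnion fun n => (hT n).image _
  have hD := dense_iInter_of_isOpen_nat
    (fun n => isOpen_biUnion fun a ha => (h1 n a ha).1) h3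
  have hAd : Dense (⋃ n, p '' (Prod.fst '' T n)) := by
    rw [dense_iff_inter_open]
    intro U hU hne
    obtain ⟨z, hzU, hz⟩ := hD.inter_open_nonempty U hU hne
    have : ∀ n, ∃ a, a ∈ T n ∧ z ∈ a.1 := fun n => by
      simpa using mem_iInter.1 hz n
    choose a ha using this
    obtain ⟨n, hn⟩ := h4 z a ha U (hU.mem_nhds hzU)
    exact ⟨p (a n).1, hn (hp _ ⟨z, (ha n).2⟩), mem_iUnion.2 ⟨n, _, ⟨_, (ha n).1, rfl⟩, rfl⟩⟩
  exact metrizable_of_network _ (hc _ hA) fun x U hU hx => hn _ x (hAd x) U hU hx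

end Pool.Agent.H82.MonoMon
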