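import Mathlib

set_option autoImplicit false

open Set Filter Topology

namespace Pool.Agent.H82.Navy

abbrev F := ℕ → ℝ

def cone (f : F) (n : ℕ) : Set F := {g | ∀ i < n, g i = f i}

theorem self_mem (f : F) (n : ℕ) : f ∈ cone f n := fun _ _ => rfl

theorem cone_anti (f : F) {n m : ℕ} (h : n ≤ m) : cone f m ⊆ cone f n :=
  fun _ hg i hi => hg i (hi.trans_le h)

theorem cone_eq {f g : F} {n : ℕ} (h : g ∈ cone f n) : cone g n = cone f n :=
  Set.ext fun _ => ⟨fun hx i hi => (hx i hi).trans (h i hi),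
    fun hx i hi => (hx i hi).trans (h i hi).symm⟩

def LC (p : F → Set F) : Prop := ∀ f, ∃ n, ∀ g ∈ cone f n, p g = p f

def Big (p : F → Set F) : Prop := ∃ bad : F → ℕ → Set ℝ, (∀ f n, (bad f n).Countable) ∧
  (∀ f n, ∀ g ∈ cone f n, bad g n = bad f n) ∧ ∀ f, (∀ n, f n ∉ bad f n) → p f = ∅

def P := {p : F → Set F // LC p ∧ Big p}

inductive X : Type
  | pt (f : F)
  | iso (d : F × F × ℕ × (P → Set F))

def val (p : P) : X → Set F
  | X.pt g => p.1 g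
  | X.iso d => d.2.2.2 p

def near (f : F) (n : ℕ) : X → Prop
  | X.pt g => g ∈ cone f n
  | X.iso d => n ≤ d.2.2.1 ∧ (d.1 ∈ cone f n ∨ d.2.1 ∈ cone f n)

def B (f : F) (n : ℕ) (a : Set P) : Set X := {x | near f n x ∧ ∀ p ∈ a, val p x = p.1 f}

theorem near_anti {f : F} {n m : ℕ} (h : n ≤ m) {x : X} (hx : near f m x) : near f n x := by
  rcases x with g | d
  · exact cone_anti f h hx
  · exact ⟨h.trans hx.1, hx.2.imp (fun h' => cone_anti f h h') fun h' => cone_anti f h h'⟩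

theorem near_congr {f g : F} {n : ℕ} (h : g ∈ cone f n) {x : X} : near g n x ↔ near f n x := by
  rcases x with g | d <;> simp only [near, cone_eq h]

theorem B_anti (f : F) {n m : ℕ} (h : n ≤ m) {a b : Set P} (hab : a ⊆ b) : B f m b ⊆ B f n a :=
  fun _ hx => ⟨near_anti h hx.1, fun p hp => hx.2 p (hab hp)⟩

theorem B_self (f : F) (n : ℕ) (a : Set P) : (X.pt f : X) ∈ B f n a :=
  ⟨self_mem f n, fun _ _ => rfl⟩

instance : TopologicalSpace X where
  IsOpen U := ∀ f, (X.pt f : X) ∈ U → ∃ n a, a.Finite ∧ B f n a ⊆ U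
  isOpen_univ := fun _ _ => ⟨0, ∅, finite_empty, subset_univ _⟩
  isOpen_inter := by
    intro s t hs ht f hf
    obtain ⟨n, a, ha, h⟩ := hs f hf.1
    obtain ⟨m, b, hb, h'⟩ := ht f hf.2
    exact ⟨max n m, a ∪ b, ha.union hb, subset_inter
      ((B_anti f (le_max_left _ _) subset_union_left).trans h)
      ((B_anti f (le_max_right _ _) subset_union_right).trans h')⟩
  isOpen_sUnion := by
    rintro s hs f ⟨t, ht, hf⟩
    obtain ⟨n, a, ha, h⟩ := hs t ht f hf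
    exact ⟨n, a, ha, h.trans (subset_sUnion_of_mem ht)⟩

theorem isOpen_iff {U : Set X} :
    IsOpen U ↔ ∀ f, (X.pt f : X) ∈ U → ∃ n a, a.Finite ∧ B f n a ⊆ U := Iff.rfl

theorem const_fin (f : F) (n : ℕ) (a : Set P) (ha : a.Finite) :
    ∃ m, n ≤ m ∧ ∀ p ∈ a, ∀ g ∈ cone f m, p.1 g = p.1 f := by
  induction a, ha using Set.Finite.induction_on with
  | empty => exact ⟨n, le_rfl, by simp⟩
  | @insert p a _ _ ih =>
    obtain ⟨m, hm, h⟩ := ih
    obtain ⟨k, hk⟩ := p.2.1 f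
    refine ⟨max m k, hm.trans (le_max_left _ _), ?_⟩
    rintro q (rfl | hq) g hg
    · exact hk g (cone_anti f (le_max_right _ _) hg)
    · exact h q hq g (cone_anti f (le_max_left _ _) hg)

theorem isOpen_B (f : F) (n : ℕ) {a : Set P} (ha : a.Finite) : IsOpen (B f n a) := by
  intro g hg
  refine ⟨n, a, ha, fun x hx => ⟨(near_congr hg.1).1 hx.1, fun p hp => ?_⟩⟩
  exact (hx.2 p hp).trans (hg.2 p hp)

theorem mem_nhds_inl {f : F} {U : Set X} :
    U ∈ 𝓝 (X.pt f : X) ↔ ∃ n a, a.Finite ∧ B f n a ⊆ U := by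
  constructor
  · intro h
    obtain ⟨t, ht, hto, hf⟩ := mem_nhds_iff.1 h
    obtain ⟨n, a, ha, h'⟩ := hto f hf
    exact ⟨n, a, ha, h'.trans ht⟩
  · rintro ⟨n, a, ha, h⟩
    exact mem_of_superset ((isOpen_B f n ha).mem_nhds (B_self f n a)) h

theorem cone_of_nhds {f : F} {U : Set X} (h : U ∈ 𝓝 (X.pt f : X)) :
    ∃ n, ∀ g ∈ cone f n, (X.pt g : X) ∈ U := by
  obtain ⟨n, a, ha, h'⟩ := mem_nhds_inl.1 h
  obtain ⟨m, hm, hc⟩ := const_fin f n a ha
  exact ⟨m, fun g hg => h' ⟨cone_anti f hm hg, fun p hp => hc p hp g hg⟩⟩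

theorem isOpen_val (p : P) (c : Set F) : IsOpen {x : X | val p x = c} := by
  intro f hf
  exact ⟨0, {p}, finite_singleton _, fun x hx => (hx.2 p rfl).trans hf⟩

theorem isOpen_iso (d : F × F × ℕ × (P → Set F)) : IsOpen {(X.iso d : X)} := by
  intro f hf
  cases hf

instance : T1Space X := ⟨by
  intro x
  rw [← isOpen_compl_iff]
  intro f hf
  rcases x with g | d
  · have : g ≠ f := fun h => hf (by rw [h]; rfl)
    obtain ⟨i, hi⟩ := Function.ne_iff.1 this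
    refine ⟨i + 1, ∅, finite_empty, ?_⟩
    rintro x hx rfl
    exact hi (hx.1 i (Nat.lt_succ_self _))
  · refine ⟨d.2.2.1 + 1, ∅, finite_empty, ?_⟩
    rintro x hx rfl
    exact absurd hx.1.1 (by omega)⟩

open Classical in
noncomputable def pC (f : F) (n : ℕ) : P :=
  ⟨fun g => if g ∈ cone f (n + 1) then univ else ∅, by
    constructor
    · intro g
      refine ⟨n + 1, fun h hh => ?_⟩
      have : h ∈ cone f (n + 1) ↔ g ∈ cone f (n + 1) :=
        ⟨fun h' => by rw [← cone_eq h', cone_eq hh]; exact self_mem _ _,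
          fun h' => by rw [← cone_eq h']; exact hh⟩
      simp only [this]
    · refine ⟨fun _ _ => {f 0}, fun _ _ => countable_singleton _, fun _ _ _ _ => rfl,
        fun g hg => ?_⟩
      have : g ∉ cone f (n + 1) := fun h => hg 0 (h 0 (by omega))
      simp only [this, if_false]⟩

instance : RegularSpace X := by
  refine RegularSpace.of_exists_mem_nhds_isClosed_subset ?_
  rintro (f | d) s hs
  · obtain ⟨n, a, ha, h⟩ := mem_nhds_inl.1 hs
    refine ⟨B f (n + 1) (insert (pC f n) a), mem_nhds_inl.2 ⟨_, _, ha.insert _, subset_rfl⟩, ?_,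
      (B_anti f (Nat.le_succ n) (subset_insert _ _)).trans h⟩
    rw [← isOpen_compl_iff]
    intro g hg
    have : ∃ p ∈ insert (pC f n) a, p.1 g ≠ p.1 f := by
      by_contra hn
      push Not at hn
      refine hg ⟨?_, hn⟩
      by_contra hc
      have := hn _ (mem_insert _ _)
      have hc' : g ∉ cone f (n + 1) := hc
      simp only [pC, hc', self_mem, if_true, if_false] at this
      exact univ_nonempty.ne_empty this.symm
    obtain ⟨p, hp, hne⟩ := this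
    exact ⟨0, {p}, finite_singleton _, fun x hx hx' => hne ((hx.2 p rfl).symm.trans (hx'.2 p hp))⟩
  · exact ⟨{X.iso d}, (isOpen_iso d).mem_nhds rfl, isClosed_singleton,
      singleton_subset_iff.2 (mem_of_mem_nhds hs)⟩

instance : T3Space X where

theorem escape (s : Set P) (hs : s.Countable) (Z : Set ℝ) (hZ : Z.Countable) :
    ∃ f : F, f 0 ∉ Z ∧ ∀ p ∈ s, p.1 f = ∅ := by
  have hb := fun p : P => p.2.2
  choose bad h1 h2 h3 using hb
  have : ∀ (g : F) (n : ℕ), ∃ t, t ∉ Z ∪ ⋃ p ∈ s, bad p g n := by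
    intro g n
    by_contra hn
    push Not at hn
    have hc : (Z ∪ ⋃ p ∈ s, bad p g n).Countable := hZ.union (hs.biUnion fun p _ => h1 p g n)
    exact Cardinal.not_countable_real (hc.mono fun t _ => hn t)
  choose t ht using this
  let g : ℕ → F := fun n => Nat.rec 0 (fun n g => Function.update g n (t g n)) n
  have hg : ∀ n, g (n + 1) = Function.update (g n) n (t (g n) n) := fun n => rfl
  have hf : ∀ n, g n ∈ cone (fun n => t (g n) n) n := by
    intro n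
    induction n with
    | zero => intro i hi; omega
    | succ n ih =>
      intro i hi
      rw [hg]
      rcases Nat.lt_succ_iff_lt_or_eq.1 hi with h | rfl
      · rw [Function.update_of_ne h.ne]
        exact ih i h
      · simp
  refine ⟨fun n => t (g n) n, fun h => ht (g 0) 0 (Or.inl h), fun p hp => h3 p _ fun n hn => ?_⟩
  rw [← h2 p _ n _ (hf n)] at hn
  exact ht (g n) n (Or.inr (mem_biUnion hp hn))

theorem isOpen_slab (n : ℕ) (t : ℝ) : IsOpen {x : X | ∀ g, x = X.pt g → g n = t} := by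
  intro f hf
  refine ⟨n + 1, ∅, finite_empty, ?_⟩
  rintro x hx g rfl
  exact (hx.1 n (Nat.lt_succ_self _)).trans (hf f rfl)

theorem lind_countable {H : Set X} (hH : IsLindelof H) (n : ℕ) :
    {t | ∃ g : F, (X.pt g : X) ∈ H ∧ g n = t}.Countable := by
  obtain ⟨r, hr, h⟩ := hH.elim_countable_subcover _ (isOpen_slab n) (by
    rintro (g | d) _
    · exact mem_iUnion.2 ⟨g n, by rintro g' h; cases h; rfl⟩
    · exact mem_iUnion.2 ⟨0, by rintro g' h; cases h⟩)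
  refine hr.mono ?_
  rintro _ ⟨g, hg, rfl⟩
  obtain ⟨t, ht, h'⟩ := mem_iUnion₂.1 (h hg)
  rw [h' g rfl]
  exact ht

theorem slcwh (𝓕 : Set (Set X)) (h1 : ∀ H ∈ 𝓕, IsClosed H ∧ IsLindelof H)
    (h2 : ∀ x : X, ∃ N ∈ nhds x, {H : Set X | H ∈ 𝓕 ∧ (H ∩ N).Nonempty}.Subsingleton) :
    ∃ U : Set X → Set X, (∀ H ∈ 𝓕, IsOpen (U H) ∧ H ⊆ U H) ∧
      (∀ H ∈ 𝓕, ∀ G ∈ 𝓕, H ≠ G → Disjoint (U H) (U G)) := by
  classical
  let E : Set X → Set F := fun H => {g | (X.pt g : X) ∈ H}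
  let thin : F → ℕ → Prop := fun f n =>
    {H : Set X | H ∈ 𝓕 ∧ (E H ∩ cone f n).Nonempty}.Subsingleton
  have hthin : ∀ f, ∃ n, thin f n := by
    intro f
    obtain ⟨N, hN, h⟩ := h2 (X.pt f)
    obtain ⟨n, hn⟩ := cone_of_nhds hN
    refine ⟨n, h.anti ?_⟩
    rintro H ⟨hH, g, hg, hg'⟩
    exact ⟨hH, X.pt g, hg, hn g hg'⟩
  have hdis : ∀ x, ∀ H ∈ 𝓕, ∀ G ∈ 𝓕, x ∈ H → x ∈ G → H = G := by
    intro x H hH G hG hx hx'
    obtain ⟨N, hN, h⟩ := h2 x
    exact h ⟨hH, x, hx, mem_of_mem_nhds hN⟩ ⟨hG, x, hx', mem_of_mem_nhds hN⟩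
  let k : F → ℕ := fun f => Nat.find (hthin f)
  have hk : ∀ f, thin f (k f) := fun f => Nat.find_spec (hthin f)
  have hkk : ∀ f, ∀ g ∈ cone f (k f), k g = k f := by
    intro f g hg
    have : ∀ j ≤ k f, thin g j ↔ thin f j := fun j hj => by
      simp only [thin, cone_eq (cone_anti f hj hg)]
    refine (Nat.find_eq_iff _).2 ⟨(this _ le_rfl).2 (hk f), fun j hj h => ?_⟩
    exact Nat.find_min (hthin f) hj ((this j hj.le).1 h)
  let p : P := ⟨fun f => {y | ∃ H ∈ 𝓕, (E H ∩ cone f (k f + 1)).Nonempty ∧ y ∈ E H}, by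
    constructor
    · intro f
      refine ⟨k f + 1, fun g hg => ?_⟩
      simp only [hkk f g (cone_anti f (Nat.le_succ _) hg), cone_eq hg]
    · refine ⟨fun f n => {t | thin f n ∧ ∃ H ∈ 𝓕, ∃ g ∈ E H ∩ cone f n, g n = t}, ?_, ?_, ?_⟩
      · intro f n
        rcases eq_empty_or_nonempty
          {t | thin f n ∧ ∃ H ∈ 𝓕, ∃ g ∈ E H ∩ cone f n, g n = t} with h | ⟨t, ht, H, hH, g, hg, -⟩
        · exact countable_empty.mono h.subset
        · refine (lind_countable (h1 H hH).2 n).mono ?_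
          rintro t ⟨-, H', hH', g', hg', rfl⟩
          have : H' = H := ht ⟨hH', g', hg'⟩ ⟨hH, g, hg⟩
          subst this
          exact ⟨g', hg'.1, rfl⟩
      · intro f n g hg
        simp only [thin, cone_eq hg]
      · intro f hf
        refine eq_empty_of_forall_notMem ?_
        rintro y ⟨H, hH, ⟨g, hg, hg'⟩, -⟩
        exact hf (k f) ⟨hk f, H, hH, g, ⟨hg, cone_anti f (Nat.le_succ _) hg'⟩,
          hg' _ (Nat.lt_succ_self _)⟩⟩
  have hp : ∀ H ∈ 𝓕, ∀ f ∈ E H, p.1 f = E H := by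
    intro H hH f hf
    ext y
    constructor
    · rintro ⟨G, hG, ⟨g, hg, hg'⟩, hy⟩
      have : G = H := hk f ⟨hG, g, hg, cone_anti f (Nat.le_succ _) hg'⟩ ⟨hH, f, hf, self_mem _ _⟩
      exact this ▸ hy
    · exact fun hy => ⟨H, hH, ⟨f, hf, self_mem _ _⟩, hy⟩
  have hop : ∀ H : Set X, IsOpen {x | ∀ G ∈ 𝓕, G ≠ H → x ∉ G} := by
    intro H
    rw [isOpen_iff_mem_nhds]
    intro x hx
    obtain ⟨N, hN, h⟩ := h2 x
    by_cases hc : ∃ G ∈ 𝓕, G ≠ H ∧ (G ∩ N).Nonempty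
    · obtain ⟨G, hG, hne, hGN⟩ := hc
      filter_upwards [hN, (h1 G hG).1.isOpen_compl.mem_nhds (hx G hG hne)] with y hy hy' G' hG' _
        hyG
      have : G' = G := h ⟨hG', y, hyG, hy⟩ ⟨hG, hGN⟩
      exact hy' (this ▸ hyG)
    · filter_upwards [hN] with y hy G hG hne hyG using hc ⟨G, hG, hne, y, hyG, hy⟩
  refine ⟨fun H => {x | (val p x = E H ∧ (E H).Nonempty ∧ ∀ G ∈ 𝓕, G ≠ H → x ∉ G) ∨ x ∈ H},
    fun H hH => ⟨?_, fun x hx => Or.inr hx⟩, ?_⟩
  · intro f hf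
    have hf' : val p (X.pt f) = E H ∧ (E H).Nonempty ∧
        ∀ G ∈ 𝓕, G ≠ H → (X.pt f : X) ∉ G := by
      rcases hf with h | h
      · exact h
      · exact ⟨hp H hH f h, ⟨f, h⟩, fun G hG hne hx => hne (hdis _ G hG H hH hx h)⟩
    obtain ⟨n, a, ha, h⟩ := ((isOpen_val p (E H)).inter (hop H)) f ⟨hf'.1, hf'.2.2⟩
    exact ⟨n, a, ha, fun x hx => Or.inl ⟨(h hx).1, hf'.2.1, (h hx).2⟩⟩
  · intro H hH G hG hne
    rw [disjoint_left]
    rintro x (h | h) (h' | h')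
    · obtain ⟨f, hf⟩ := h.2.1
      have : f ∈ E G := by rw [← h'.1, h.1]; exact hf
      exact hne (hdis _ H hH G hG hf this)
    · exact h.2.2 G hG hne.symm h'
    · exact h'.2.2 H hH hne h
    · exact hne (hdis _ H hH G hG h h')

def trunc (f : F) (n : ℕ) : F := fun i => if i < n then f i else 0

theorem trunc_mem (f : F) (n : ℕ) : trunc f n ∈ cone f n := fun _ hi => if_pos hi

theorem trunc_eq {f g : F} {n : ℕ} (h : g ∈ cone f n) : trunc g n = trunc f n := by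
  funext i
  unfold trunc
  split_ifs with hi
  · exact h i hi
  · rfl

theorem metacompact (𝒰 : Set (Set X)) (h1 : ∀ U ∈ 𝒰, IsOpen U) (h2 : ⋃₀ 𝒰 = Set.univ) :
    ∃ 𝒱 : Set (Set X), (∀ V ∈ 𝒱, IsOpen V) ∧ ⋃₀ 𝒱 = Set.univ ∧
      (∀ V ∈ 𝒱, ∃ U ∈ 𝒰, V ⊆ U) ∧ ∀ x : X, {V : Set X | V ∈ 𝒱 ∧ x ∈ V}.Finite := by
  classical
  have hU : ∀ x, ∃ U ∈ 𝒰, x ∈ U := fun x => by
    have : x ∈ ⋃₀ 𝒰 := h2 ▸ mem_univ x
    exact this
  let good : F → ℕ → Set P → Prop := fun f n a => a.Finite ∧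
    (∀ p ∈ a, ∀ g ∈ cone f n, p.1 g = p.1 f) ∧ ∃ U ∈ 𝒰, B f n a ⊆ U
  have hgc : ∀ f n a, good f n a → ∀ g ∈ cone f n, good g n a := by
    rintro f n a ⟨ha, hc, U, hU, h⟩ g hg
    refine ⟨ha, fun p hp y hy => ?_, U, hU, fun x hx => h ⟨(near_congr hg).1 hx.1, fun p hp => ?_⟩⟩
    · rw [hc p hp g hg, hc p hp y (cone_eq hg ▸ hy)]
    · rw [hx.2 p hp, hc p hp g hg]
  have hg : ∀ f, ∃ n, ∃ a, good f n a := by
    intro f
    obtain ⟨U, hU, hf⟩ := hU (X.pt f)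
    obtain ⟨n, a, ha, h⟩ := h1 U hU f hf
    obtain ⟨m, hm, hc⟩ := const_fin f n a ha
    exact ⟨m, a, ha, hc, U, hU, (B_anti f hm subset_rfl).trans h⟩
  let k : F → ℕ := fun f => Nat.find (hg f)
  have hk : ∀ f, ∃ a, good f (k f) a := fun f => Nat.find_spec (hg f)
  have hkk : ∀ f, ∀ g ∈ cone f (k f), k g = k f := by
    intro f g hgf
    obtain ⟨a, ha⟩ := hk f
    refine (Nat.find_eq_iff _).2 ⟨⟨a, hgc f _ a ha g hgf⟩, fun j hj ⟨b, hb⟩ => ?_⟩
    refine Nat.find_min (hg f) hj ⟨b, hgc g j b hb f ?_⟩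
    rw [cone_eq (cone_anti f hj.le hgf)]
    exact self_mem _ _
  have ha : ∀ f n, ∃ a, (∃ b, good f n b) → good f n a := by
    intro f n
    by_cases h : ∃ b, good f n b
    · exact ⟨h.choose, fun _ => h.choose_spec⟩
    · exact ⟨∅, fun h' => absurd h' h⟩
  choose a ha using ha
  let V : F → Set X := fun f => B (trunc f (k f)) (k f) (a (trunc f (k f)) (k f))
  have hV : ∀ f, good (trunc f (k f)) (k f) (a (trunc f (k f)) (k f)) := fun f =>
    ha _ _ ((hk f).imp fun b hb => hgc f _ b hb _ (trunc_mem _ _))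
  have hVV : ∀ f, ∀ g ∈ cone (trunc f (k f)) (k f), V f = V g := by
    intro f g hgf
    rw [cone_eq (trunc_mem _ _)] at hgf
    simp only [V, hkk f g hgf, trunc_eq hgf]
  refine ⟨range V ∪ range fun d => {X.iso d}, ?_, ?_, ?_, ?_⟩
  · rintro _ (⟨f, rfl⟩ | ⟨d, rfl⟩)
    · exact isOpen_B _ _ (hV f).1
    · exact isOpen_iso d
  · refine eq_univ_of_forall ?_
    rintro (f | d)
    · have hf : f ∈ cone (trunc f (k f)) (k f) := by
        rw [cone_eq (trunc_mem _ _)]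
        exact self_mem _ _
      exact ⟨V f, Or.inl ⟨f, rfl⟩, hf, fun p hp => (hV f).2.1 p hp f hf⟩
    · exact ⟨{X.iso d}, Or.inr ⟨d, rfl⟩, rfl⟩
  · rintro _ (⟨f, rfl⟩ | ⟨d, rfl⟩)
    · exact (hV f).2.2
    · obtain ⟨U, hU, h⟩ := hU (X.iso d)
      exact ⟨U, hU, singleton_subset_iff.2 h⟩
  · rintro (g | d)
    · refine (finite_singleton (V g)).subset ?_
      rintro _ ⟨⟨f, rfl⟩ | ⟨d, rfl⟩, h⟩
      · exact hVV f g h.1
      · cases h
    · refine (toFinite {V d.1, V d.2.1, {X.iso d}}).subset ?_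
      rintro _ ⟨⟨f, rfl⟩ | ⟨d', rfl⟩, h⟩
      · rcases h.1.2 with h' | h'
        · exact Or.inl (hVV f _ h')
        · exact Or.inr (Or.inl (hVV f _ h'))
      · cases h
        exact Or.inr (Or.inr rfl)

theorem meet (f g : F) (n m : ℕ) (a b : Set P) (h : ∀ p ∈ a, p ∈ b → p.1 f = p.1 g) :
    (B f n a ∩ B g m b).Nonempty := by
  classical
  refine ⟨X.iso (f, g, max n m, fun p => if p ∈ a then p.1 f else p.1 g),
    ⟨⟨le_max_left _ _, Or.inl (self_mem _ _)⟩, fun p hp => if_pos hp⟩,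
    ⟨le_max_right _ _, Or.inr (self_mem _ _)⟩, fun p hp => ?_⟩
  by_cases hp' : p ∈ a
  · exact (if_pos hp').trans (h p hp' hp)
  · exact if_neg hp'

theorem not_paraLindelof : ¬ ∃ 𝒱 : Set (Set X), (∀ V ∈ 𝒱, IsOpen V) ∧ ⋃₀ 𝒱 = Set.univ ∧
    (∀ V ∈ 𝒱, ∃ U ∈ range fun t => {x : X | ∀ g, x = X.pt g → g 0 = t}, V ⊆ U) ∧
    ∀ x : X, ∃ N ∈ nhds x, {V : Set X | V ∈ 𝒱 ∧ (V ∩ N).Nonempty}.Countable := by
  rintro ⟨𝒱, h1, h2, h3, h4⟩
  have hb : ∀ f : F, ∃ n a, a.Finite ∧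
      {V : Set X | V ∈ 𝒱 ∧ (V ∩ B f n a).Nonempty}.Countable := by
    intro f
    obtain ⟨N, hN, h⟩ := h4 (X.pt f)
    obtain ⟨n, a, ha, h'⟩ := mem_nhds_inl.1 hN
    exact ⟨n, a, ha, h.mono fun V hV => And.intro hV.1 (hV.2.mono (inter_subset_inter_right _ h'))⟩
  choose n a ha hb using hb
  have he : ∀ s : Set P, ∃ f : F, s.Countable → ∀ p ∈ s, p.1 f = ∅ := by
    intro s
    by_cases hs : s.Countable
    · obtain ⟨f, -, hf⟩ := escape s hs ∅ countable_empty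
      exact ⟨f, fun _ => hf⟩
    · exact ⟨0, fun h => absurd h hs⟩
  choose e he using he
  let s : ℕ → Set P := fun j => Nat.rec ∅ (fun _ s => s ∪ a (e s)) j
  have hs : ∀ j, s (j + 1) = s j ∪ a (e (s j)) := fun j => rfl
  have hsf : ∀ j, (s j).Finite := by
    intro j
    induction j with
    | zero => exact finite_empty
    | succ j ih => exact ih.union (ha _)
  have hsm : Monotone s := monotone_nat_of_le_succ fun j => subset_union_left
  have hT : ∀ V : Set X, ∃ t : ℝ, V ∈ 𝒱 → ∀ g, (X.pt g : X) ∈ V → g 0 = t := by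
    intro V
    by_cases hV : V ∈ 𝒱
    · obtain ⟨_, ⟨t, rfl⟩, h⟩ := h3 V hV
      exact ⟨t, fun _ g hg => h hg g rfl⟩
    · exact ⟨0, fun h => absurd h hV⟩
  choose T hT using hT
  obtain ⟨f, hf0, hf⟩ := escape (⋃ j, s j) (countable_iUnion fun j => (hsf j).countable)
    (T '' ⋃ j, {V : Set X | V ∈ 𝒱 ∧ (V ∩ B (e (s j)) (n (e (s j))) (a (e (s j)))).Nonempty})
    ((countable_iUnion fun j => hb _).image _)
  obtain ⟨V, hV, hfV⟩ : (X.pt f : X) ∈ ⋃₀ 𝒱 := h2 ▸ mem_univ _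
  obtain ⟨m, b, hbf, hbV⟩ := h1 V hV f hfV
  obtain ⟨j, hj⟩ : ∃ j, b ∩ ⋃ j, s j ⊆ s j := by
    have hfin : (b ∩ ⋃ j, s j).Finite := hbf.inter_of_left _
    have : ∀ p ∈ b ∩ ⋃ j, s j, ∀ᶠ j in atTop, p ∈ s j := by
      intro p hp
      obtain ⟨i, hi⟩ := mem_iUnion.1 hp.2
      filter_upwards [eventually_ge_atTop i] with j hj using hsm hj hi
    exact ((eventually_all_finite hfin).2 this).exists
  have := meet (e (s j)) f (n (e (s j))) m (a (e (s j))) b (by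
    intro p hp hpb
    have hp' : p ∈ ⋃ j, s j := mem_iUnion.2 ⟨j + 1, Or.inr hp⟩
    rw [hf p hp', he _ (hsf j).countable p (hj ⟨hpb, hp'⟩)])
  obtain ⟨x, hx, hx'⟩ := this
  exact hf0 ⟨V, mem_iUnion.2 ⟨j, hV, x, hbV hx', hx⟩, (hT V hV f hfV).symm⟩

end Pool.Agent.H82.Navy
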