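import Mathlib

set_option autoImplicit false

namespace Pool.Agent.H82.PSeq

open Set Filter Topology

variable {X : Type} [TopologicalSpace X]

def Ap (A : Set C(X, ℝ)) (g : C(X, ℝ)) : Prop :=
  ∀ (F : Finset X) (ε : ℝ), 0 < ε → ∃ f ∈ A, ∀ x ∈ F, dist (f x) (g x) < ε

theorem main (p : Ultrafilter ℕ) [T35Space X]
    (H : ∀ A : Set C(X, ℝ), (∀ (f : ℕ → C(X, ℝ)) (g : C(X, ℝ)), (∀ n, f n ∈ A) →
      (∀ x, Tendsto (fun n => f n x) p (𝓝 (g x))) → g ∈ A) → ∀ g, Ap A g → g ∈ A)
    (𝒰 : Set (Set X)) (h1 : ∀ U ∈ 𝒰, IsOpen U) (h2 : univ ∉ 𝒰)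
    (h3 : ∀ F : Finset X, ∃ U ∈ 𝒰, (↑F : Set X) ⊆ U) :
    ∃ u : ℕ → Set X, (∀ n, u n ∈ 𝒰) ∧ ∀ x : X, ∀ᶠ n in (p : Filter ℕ), x ∈ u n := by
  classical
  obtain ⟨S, hS, hS1, hS2⟩ : ∃ S ⊆ {f : C(X, ℝ) | ∃ U ∈ 𝒰, ∀ x, f x < 1 → x ∈ U},
      S.Countable ∧ Ap S 0 := by
    refine H {g | ∃ S ⊆ {f : C(X, ℝ) | ∃ U ∈ 𝒰, ∀ x, f x < 1 → x ∈ U}, S.Countable ∧ Ap S g}
      (fun f g hf hg => ?_) 0 fun F ε hε => ?_
    · choose S a b c using hf
      refine ⟨⋃ n, S n, iUnion_subset a, countable_iUnion b, fun F ε hε => ?_⟩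
      obtain ⟨n, hn⟩ := ((eventually_all_finset F).2 fun x _ =>
        Metric.tendsto_nhds.1 (hg x) (ε / 2) (half_pos hε)).exists
      obtain ⟨f', d, e⟩ := c n F (ε / 2) (half_pos hε)
      exact ⟨f', mem_iUnion.2 ⟨n, d⟩, fun x hx => by
        linarith [dist_triangle (f' x) (f n x) (g x), e x hx, hn x hx]⟩
    · obtain ⟨U, hU, hF⟩ := h3 F
      choose! g a b c using fun x (hx : x ∈ F) =>
        CompletelyRegularSpace.completely_regular_isOpen x U (h1 U hU) (hF hx)
      let f : C(X, ℝ) := ⟨fun y => ∏ x ∈ F, (g x y : ℝ), continuous_finsetProd _ fun x hx =>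
        continuous_subtype_val.comp (a x hx)⟩
      refine ⟨f, ⟨{f}, singleton_subset_iff.2 ⟨U, hU, fun y hy => by_contra fun h => hy.ne ?_⟩,
        countable_singleton _, fun _ _ h => ⟨f, rfl, fun _ _ => by simpa⟩⟩, fun x hx => ?_⟩
      · exact Finset.prod_eq_one fun x hx => by simpa using congrArg Subtype.val (c x hx h)
      · have : f x = 0 := Finset.prod_eq_zero hx (by simp [b x hx])
        simpa [this]
  obtain ⟨s, rfl⟩ := hS1.exists_eq_range (let ⟨f, h, _⟩ := hS2 ∅ 1 one_pos; ⟨f, h⟩)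
  choose u hu hu' using fun j => hS ⟨j, rfl⟩
  let _ := TopologicalSpace.metrizableSpaceMetric (ℕ → ℝ)
  let φ : X → ℕ → ℝ := fun x j => s j x
  have hφ : Continuous φ := continuous_pi fun j => (s j).continuous
  let A : ℕ → ℕ → Set C(X, ℝ) := fun k j => {f | (∀ x, f x < k → s j x < 1) ∧
    ∀ y : Fin (k + 1) → X, (∀ i, f (y i) < k) →
      ∃ q : Fin (k + 1) × Fin (k + 1), q.1 ≠ q.2 ∧ dist (φ (y q.1)) (φ (y q.2)) ≤ 1 / (j + 1)}
  have hd : ∀ c : ℕ → ℕ, (∃ k, ∀ᶠ n in (p : Filter ℕ), c n = k) ∨ Tendsto c p atTop := by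
    intro c
    rw [or_iff_not_imp_left, not_exists]
    refine fun h => tendsto_atTop.2 fun k => ?_
    filter_upwards [(eventually_all_finite (finite_Iio k)).2
      fun i _ => Ultrafilter.eventually_not.2 (h i)] with n hn
    exact not_lt.1 fun h' => hn _ h' rfl
  by_contra hne
  have h4 : (0 : C(X, ℝ)) ∈ {f | ∃ k j, 0 < k ∧ f ∈ A k j} := by
    refine H _ (fun f g hf hg => ?_) 0 fun F ε hε => ?_
    · choose k j hk a b using hf
      rcases hd k with ⟨k0, hk0⟩ | hk0
      · have h5 : ∀ x, g x < k0 → ∀ᶠ n in (p : Filter ℕ), f n x < k n := fun x hx => by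
          filter_upwards [hk0, (hg x).eventually (gt_mem_nhds hx)] with n h h'
          rwa [h]
        have h6 : ∀ y : Fin (k0 + 1) → X, (∀ i, g (y i) < k0) →
            ∃ q : Fin (k0 + 1) × Fin (k0 + 1), ∀ᶠ n in (p : Filter ℕ), q.1 ≠ q.2 ∧
              dist (φ (y q.1)) (φ (y q.2)) ≤ 1 / (j n + 1) := fun y hy => by
          refine Ultrafilter.eventually_exists_iff.1 ?_
          filter_upwards [hk0, eventually_all.2 fun i => h5 _ (hy i)] with n h h'
          subst h
          exact b n y h'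
        obtain ⟨n0, hn0⟩ := hk0.exists
        rcases hd j with ⟨j0, hj0⟩ | hj0
        · refine ⟨k0, j0, hn0 ▸ hk n0, fun x hx => ?_, fun y hy => ?_⟩
          · obtain ⟨n, c, d⟩ := (hj0.and (h5 x hx)).exists
            exact c ▸ a n x d
          · obtain ⟨q, hq⟩ := h6 y hy
            obtain ⟨n, c, d⟩ := (hj0.and hq).exists
            exact ⟨q, c ▸ d⟩
        · have h7 : ∀ y : Fin (k0 + 1) → X, (∀ i, g (y i) < k0) →
              ∃ q : Fin (k0 + 1) × Fin (k0 + 1), q.1 ≠ q.2 ∧ φ (y q.1) = φ (y q.2) := fun y hy => by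
            obtain ⟨q, hq⟩ := h6 y hy
            exact ⟨q, hq.exists.choose_spec.1, dist_le_zero.1 (ge_of_tendsto
              (tendsto_one_div_add_atTop_nhds_zero_nat.comp hj0) (hq.mono fun n hn => hn.2))⟩
          have h8 : (φ '' {x | g x < k0}).Finite := by
            by_contra h
            choose y c d using fun i : Fin (k0 + 1) => (Set.Infinite.natEmbedding _ h i).2
            obtain ⟨q, e, e'⟩ := h7 y c
            rw [d, d] at e'
            exact e (Fin.ext ((Set.Infinite.natEmbedding _ h).injective (Subtype.ext e')))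
          obtain ⟨T, c, d, e⟩ := h8.exists_subset_finite_image_eq subset_rfl
          obtain ⟨n, hn⟩ := ((eventually_all_finite d).2 fun x hx => h5 x (c hx)).exists
          refine ⟨k0, j n, hn0 ▸ hk n0, fun x hx => ?_, fun y hy => ?_⟩
          · obtain ⟨z, hz, hz'⟩ := e.symm.subset ⟨x, hx, rfl⟩
            exact (show s (j n) z = s (j n) x from congrFun hz' (j n)) ▸ a n z (hn z hz)
          · obtain ⟨q, c, d⟩ := h7 y hy
            exact ⟨q, c, by rw [d, dist_self]; positivity⟩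
      · refine (hne ⟨fun n => u (j n), fun n => hu _, fun x => ?_⟩).elim
        filter_upwards [(tendsto_natCast_atTop_atTop.comp hk0).eventually_ge_atTop (g x + 1),
          (hg x).eventually (gt_mem_nhds (lt_add_one (g x)))] with n h h'
        exact hu' _ x (a n x (h'.trans_le h))
    · obtain ⟨x0, -⟩ := (ne_univ_iff_exists_notMem _).1 fun h : u 0 = univ => h2 (h ▸ hu 0)
      let F' := insert x0 F
      obtain ⟨_, ⟨j, rfl⟩, hj⟩ := hS2 F' 1 one_pos
      have h5 : ∀ᶠ r : ℝ in 𝓝[>] 0, 0 < r ∧ 2 * r ≤ 1 / ((j : ℝ) + 1) ∧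
          ∀ y ∈ F', Metric.ball (φ y) r ⊆ {z | z j < 1} := by
        refine (eventually_mem_nhdsWithin).and (.filter_mono nhdsWithin_le_nhds
          (.and ?_ ((eventually_all_finset F').2 fun y hy => eventually_ball_subset ?_)))
        · exact (show Continuous fun r : ℝ => 2 * r by fun_prop).continuousAt.eventually
            (ge_mem_nhds (by simp only [mul_zero]; positivity))
        · exact (isOpen_lt (continuous_apply j) continuous_const).mem_nhds
            ((le_abs_self _).trans_lt (by simpa using hj y hy))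
      obtain ⟨r, hr, h6, h7⟩ := h5.exists
      have hF : (φ '' F').Nonempty := ⟨_, x0, Finset.mem_insert_self _ _, rfl⟩
      let f : C(X, ℝ) := ⟨fun x => F'.card * (Metric.infDist (φ x) (φ '' F') / r), by fun_prop⟩
      have hk : 0 < F'.card := Finset.card_pos.2 ⟨x0, Finset.mem_insert_self _ _⟩
      have h8 : ∀ x, f x < F'.card → ∃ y : F', dist (φ x) (φ y) < r := fun x hx => by
        have h9 : Metric.infDist (φ x) (φ '' F') / r < 1 :=
          (mul_lt_iff_lt_one_right (Nat.cast_pos.2 hk)).1 hx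
        obtain ⟨_, ⟨y, hy, rfl⟩, h⟩ := (Metric.infDist_lt_iff hF).1 ((div_lt_one hr).1 h9)
        exact ⟨⟨y, hy⟩, h⟩
      refine ⟨f, ⟨F'.card, j, hk, fun x hx => ?_, fun y hy => ?_⟩, fun x hx => ?_⟩
      · obtain ⟨y, hy⟩ := h8 x hx
        exact h7 y y.2 hy
      · choose z hz using fun i => h8 _ (hy i)
        obtain ⟨a, b, c, d⟩ := Fintype.exists_ne_map_eq_of_card_lt z (by simp)
        refine ⟨(a, b), c, ?_⟩
        have := dist_triangle_right (φ (y a)) (φ (y b)) (φ (z a))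
        linarith [hz a, d ▸ hz b]
      · have : f x = 0 := by
          simp [f, Metric.infDist_zero_of_mem
            (mem_image_of_mem φ (show x ∈ (F' : Set X) from Finset.mem_insert_of_mem hx))]
        simpa [this]
  obtain ⟨k, j, hk, h5, -⟩ := h4
  exact h2 (eq_univ_of_forall (fun x => hu' j x (h5 x (by simpa))) ▸ hu j)

end Pool.Agent.H82.PSeq
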