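import Mathlib

set_option autoImplicit false
open Topology Filter

namespace Pool.Agent.H82.PerfectL

/-- The common point set of the two spaces: two copies of the tree of finite sequences of
naturals, two copies of its infinite branches, one fan point for each node, and one extra point. -/
inductive W : Type
  | node : List ℕ → Bool → W
  | br : (ℕ → ℕ) → Bool → W
  | fan : List ℕ → W
  | star : W

/-- the initial segment of length `n` of a branch (listed backwards) -/
def pre (x : ℕ → ℕ) : ℕ → List ℕ
  | 0 => []
  | n + 1 => x n :: pre x n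

lemma pre_length (x : ℕ → ℕ) (n : ℕ) : (pre x n).length = n := by
  induction n with
  | zero => rfl
  | succ n ih => simp [pre, ih]

lemma pre_eq {x y : ℕ → ℕ} {n : ℕ} (h : pre x n = pre y n) : ∀ k < n, x k = y k := by
  induction n with
  | zero => intro k hk; omega
  | succ n ih =>
    simp only [pre, List.cons.injEq] at h
    intro k hk
    rcases Nat.lt_succ_iff_lt_or_eq.1 hk with h' | rfl
    · exact ih h.2 k h'
    · exact h.1

/-- functions respecting the prescribed convergent sequences -/
def Good (L : List ℕ → Bool → W) (a : W → ℝ) : Prop :=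
  (∀ x b, Tendsto (fun n => a (W.node (pre x n) b)) atTop (𝓝 (a (W.br x b)))) ∧
  ∀ s b, Tendsto (fun n => a (W.node (n :: s) b)) atTop (𝓝 (a (L s b)))

/-- the space determined by the choice `L` of the limits of the fans -/
def Sp (_L : List ℕ → Bool → W) : Type := W

instance (L : List ℕ → Bool → W) : TopologicalSpace (Sp L) :=
  ⨅ a : {a : W → ℝ // Good L a}, TopologicalSpace.induced (fun w : Sp L => a.1 w) inferInstance

instance (L : List ℕ → Bool → W) : CompletelyRegularSpace (Sp L) :=
  completelyRegularSpace_iInf fun _ => completelyRegularSpace_induced inferInstance _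

lemma cont_of_good {L : List ℕ → Bool → W} {a : Sp L → ℝ} (h : Good L a) : Continuous a :=
  continuous_iInf_dom (i := (⟨a, h⟩ : {a : W → ℝ // Good L a})) continuous_induced_dom

lemma tend_of (L : List ℕ → Bool → W) (u : ℕ → Sp L) (p : Sp L)
    (h : ∀ a : W → ℝ, Good L a → Tendsto (fun n => a (u n)) atTop (𝓝 (a p))) :
    Tendsto u atTop (𝓝 p) := by
  rw [nhds_iInf, tendsto_iInf]
  intro a
  rw [nhds_induced, tendsto_comap_iff]
  exact h a.1 a.2

lemma tend_br (L : List ℕ → Bool → W) (x : ℕ → ℕ) (b : Bool) :
    Tendsto (fun n => (W.node (pre x n) b : Sp L)) atTop (@nhds (Sp L) _ (W.br x b)) :=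
  tend_of L _ _ fun _ h => h.1 x b

lemma tend_fan (L : List ℕ → Bool → W) (s : List ℕ) (b : Bool) :
    Tendsto (fun n => (W.node (n :: s) b : Sp L)) atTop (@nhds (Sp L) _ (L s b)) :=
  tend_of L _ _ fun _ h => h.2 s b

lemma good_of_cont {L : List ℕ → Bool → W} {a : Sp L → ℝ} (h : Continuous a) : Good L a :=
  ⟨fun x b => (h.tendsto _).comp (tend_br L x b), fun s b => (h.tendsto _).comp (tend_fan L s b)⟩

/-- a set whose indicator is eventually constant along the prescribed sequences is clopen -/
lemma good_ind {L : List ℕ → Bool → W} (A : Set W)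
    (h1 : ∀ x b, ∀ᶠ n in atTop, (W.node (pre x n) b ∈ A ↔ W.br x b ∈ A))
    (h2 : ∀ s b, ∀ᶠ n in atTop, (W.node (n :: s) b ∈ A ↔ L s b ∈ A)) :
    Good L (A.indicator fun _ => (1 : ℝ)) := by
  classical
  constructor
  · intro x b
    refine tendsto_const_nhds.congr' ?_
    filter_upwards [h1 x b] with n hn
    simp only [Set.indicator_apply, hn]
  · intro s b
    refine tendsto_const_nhds.congr' ?_
    filter_upwards [h2 s b] with n hn
    simp only [Set.indicator_apply, hn]

lemma isOpen_of {L : List ℕ → Bool → W} (A : Set (Sp L))
    (h1 : ∀ x b, ∀ᶠ n in atTop, (W.node (pre x n) b ∈ A ↔ W.br x b ∈ A))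
    (h2 : ∀ s b, ∀ᶠ n in atTop, (W.node (n :: s) b ∈ A ↔ L s b ∈ A)) : IsClopen A := by
  have hc : Continuous (A.indicator fun _ : Sp L => (1 : ℝ)) := cont_of_good (good_ind A h1 h2)
  constructor
  · have : A = (A.indicator fun _ : Sp L => (1 : ℝ)) ⁻¹' {1} := by
      ext w; by_cases hw : w ∈ A <;> simp [hw]
    rw [this]; exact isClosed_singleton.preimage hc
  · have : A = (A.indicator fun _ : Sp L => (1 : ℝ)) ⁻¹' {0}ᶜ := by
      ext w; by_cases hw : w ∈ A <;> simp [hw]
    rw [this]; exact isOpen_compl_singleton.preimage hc

/-- the limits of the fans are fan points over the same node, or the extra point -/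
def Adm (L : List ℕ → Bool → W) : Prop := ∀ s b, L s b = W.fan s ∨ L s b = W.star

/-- not a node -/
def Lim : W → Prop
  | W.node _ _ => False
  | _ => True

/-- every point other than the extra one has a clopen neighbourhood containing no other
non-node point, and contained in the point itself if the point is a node -/
lemma exists_clopen {L : List ℕ → Bool → W} (hL : Adm L) (w : Sp L)
    (hw : w ≠ W.star ∨ ∀ s b, L s b ≠ W.star) :
    ∃ A : Set (Sp L), IsClopen A ∧ w ∈ A ∧ (∀ v ∈ A, Lim v → v = w) ∧
      (¬ Lim w → ∀ v ∈ A, v = w) := by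
  cases w with
  | node t c =>
    refine ⟨{W.node t c}, isOpen_of _ ?_ ?_, rfl, fun v hv _ => hv, fun _ v hv => hv⟩
    · intro x b
      filter_upwards [eventually_gt_atTop t.length] with n hn
      constructor
      · intro h
        have h' : W.node (pre x n) b = W.node t c := h
        injection h' with h1 _
        have := pre_length x n
        rw [h1] at this; omega
      · intro h; cases h
    · intro s b
      filter_upwards [eventually_gt_atTop t.headI] with n hn
      constructor
      · intro h
        have h' : W.node (n :: s) b = W.node t c := h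
        injection h' with h1 _
        subst h1
        simp at hn
      · intro h
        have h' : L s b = W.node t c := h
        rcases hL s b with h2 | h2 <;> rw [h2] at h' <;> cases h'
  | br y c =>
    refine ⟨{v | v = W.br y c ∨ ∃ m, v = W.node (pre y m) c}, isOpen_of _ ?_ ?_, Or.inl rfl, ?_,
      fun h => absurd trivial h⟩
    · intro x b
      by_cases hxy : x = y ∧ b = c
      · obtain ⟨rfl, rfl⟩ := hxy
        exact Eventually.of_forall fun n => ⟨fun _ => Or.inl rfl, fun _ => Or.inr ⟨n, rfl⟩⟩
      · have hno : ∀ᶠ n in atTop, ∀ m, W.node (pre x n) b ≠ W.node (pre y m) c := by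
          by_cases hb : b = c
          · have hne : x ≠ y := fun h => hxy ⟨h, hb⟩
            obtain ⟨k, hk⟩ := Function.ne_iff.1 hne
            filter_upwards [eventually_gt_atTop k] with n hn m h
            injection h with h1 _
            have hnm : n = m := by
              have := congrArg List.length h1
              simpa [pre_length] using this
            subst hnm
            exact hk (pre_eq h1 k hn)
          · refine Eventually.of_forall fun n m h => ?_
            injection h with _ h2
            exact hb h2
        filter_upwards [hno] with n hn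
        constructor
        · rintro (h | ⟨m, h⟩)
          · cases h
          · exact absurd h (hn m)
        · rintro (h | ⟨m, h⟩)
          · injection h with h1 h2; exact absurd ⟨h1, h2⟩ hxy
          · cases h
    · intro s b
      filter_upwards [eventually_gt_atTop (y s.length)] with n hn
      constructor
      · rintro (h | ⟨m, h⟩)
        · cases h
        · injection h with h1 _
          have hm : m = s.length + 1 := by
            have := congrArg List.length h1
            simpa [pre_length] using this.symm
          subst hm
          simp only [pre, List.cons.injEq] at h1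
          omega
      · rintro (h | ⟨m, h⟩) <;> rcases hL s b with h2 | h2 <;> rw [h2] at h <;> cases h
    · rintro v (h | ⟨m, h⟩) hv
      · exact h
      · subst h; exact hv.elim
  | fan t =>
    refine ⟨{v | v = W.fan t ∨ ∃ m b, L t b = W.fan t ∧ v = W.node (m :: t) b},
      isOpen_of _ ?_ ?_, Or.inl rfl, ?_, fun h => absurd trivial h⟩
    · intro x b
      filter_upwards [eventually_gt_atTop (t.length + 1)] with n hn
      constructor
      · rintro (h | ⟨m, c, _, h⟩)
        · cases h
        · injection h with h1 _
          have := congrArg List.length h1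
          simp [pre_length] at this
          omega
      · rintro (h | ⟨m, c, _, h⟩) <;> cases h
    · intro s b
      refine Eventually.of_forall fun n => ⟨?_, ?_⟩
      · rintro (h | ⟨m, c, hc, h⟩)
        · cases h
        · injection h with h1 h2
          injection h1 with _ h3
          subst h2 h3
          exact Or.inl hc
      · rintro (h | ⟨m, c, hc, h⟩)
        · have hst : s = t := by
            rcases hL s b with h2 | h2 <;> rw [h2] at h
            · injection h
            · cases h
          subst hst
          exact Or.inr ⟨n, b, h, rfl⟩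
        · rcases hL s b with h2 | h2 <;> rw [h2] at h <;> cases h
    · rintro v (h | ⟨m, c, _, h⟩) hv
      · exact h
      · subst h; exact hv.elim
  | star =>
    have hw' : ∀ s b, L s b ≠ W.star := hw.resolve_left (fun h => h rfl)
    refine ⟨{W.star}, isOpen_of _ ?_ ?_, rfl, fun v hv _ => hv, fun h => absurd trivial h⟩
    · intro x b
      exact Eventually.of_forall fun n => ⟨fun h => (by cases h), fun h => (by cases h)⟩
    · intro s b
      exact Eventually.of_forall fun n => ⟨fun h => (by cases h), fun h => absurd h (hw' s b)⟩

lemma t0 {L : List ℕ → Bool → W} (hL : Adm L) : T0Space (Sp L) := by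
  have key : ∀ v w : Sp L, v ≠ w → w ≠ W.star → (Lim v ∨ ¬ Lim w) → ¬ Inseparable v w := by
    intro v w hne hw hl hins
    obtain ⟨A, hA, hwA, h1, h2⟩ := exists_clopen hL w (Or.inl hw)
    have hv : v ∈ A := (hins.mem_open_iff hA.isOpen).2 hwA
    rcases hl with hl | hl
    · exact hne (h1 v hv hl)
    · exact hne (h2 hl v hv)
  refine ⟨fun v w hins => ?_⟩
  by_contra hne
  by_cases hw : Lim w
  · by_cases hv : Lim v
    · by_cases hs : w = W.star
      · exact key w v (Ne.symm hne) (fun h => hne (h.trans hs.symm)) (Or.inl hw) hins.symm
      · exact key v w hne hs (Or.inl hv) hins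
    · exact key w v (Ne.symm hne) (fun h => hv (h ▸ trivial)) (Or.inr hv) hins.symm
  · exact key v w hne (fun h => hw (h ▸ trivial)) (Or.inr hw) hins

/-- first space: both copies of a fan converge to the fan point -/
def L1 : List ℕ → Bool → W := fun s _ => W.fan s

/-- second space: the second copy of each fan converges to the extra point -/
def L2 : List ℕ → Bool → W := fun s b => match b with
  | false => W.fan s
  | true => W.star

lemma adm1 : Adm L1 := fun _ _ => Or.inl rfl

lemma adm2 : Adm L2 := fun _ b => by cases b; exacts [Or.inl rfl, Or.inr rfl]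

instance : T35Space (Sp L1) := { t0 adm1 with }

instance : T35Space (Sp L2) := { t0 adm2 with }

/-- every subset of the first space is a G-delta -/
theorem perfect1 (S : Set (Sp L1)) : IsGδ S := by
  have h1 : IsOpen (S ∪ {v : Sp L1 | ¬ Lim v}) := by
    rw [isOpen_iff_forall_mem_open]
    intro w hw
    obtain ⟨A, hA, hwA, h1, h2⟩ := exists_clopen adm1 w (Or.inr fun s b h => by cases h)
    refine ⟨A, fun v hv => ?_, hA.isOpen, hwA⟩
    by_cases hl : Lim v
    · rw [h1 v hv hl]; exact hw
    · exact Or.inr hl
  have h2 : S = (S ∪ {v : Sp L1 | ¬ Lim v}) ∩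
      ⋂ p : {p : List ℕ × Bool // (W.node p.1 p.2 : Sp L1) ∉ S},
        ({(W.node p.1.1 p.1.2 : Sp L1)} : Set (Sp L1))ᶜ := by
    ext w
    simp only [Set.mem_inter_iff, Set.mem_union, Set.mem_setOf_eq, Set.mem_iInter,
      Set.mem_compl_iff, Set.mem_singleton_iff]
    constructor
    · intro h
      exact ⟨Or.inl h, fun p hp => p.2 (hp ▸ h)⟩
    · rintro ⟨h | h, h'⟩
      · exact h
      · by_contra hS
        cases w with
        | node t c => exact h' ⟨(t, c), hS⟩ rfl
        | br y c => exact h trivial
        | fan t => exact h trivial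
        | star => exact h trivial
  rw [h2]
  exact h1.isGδ.inter (IsGδ.iInter fun p => isOpen_compl_singleton.isGδ)

/-- the extra point is not a G-delta point of the second space -/
theorem not_perfect2 : ¬ IsGδ ({W.star} : Set (Sp L2)) := by
  intro h
  obtain ⟨U, hU, hUe⟩ := isGδ_iff_eq_iInter_nat.1 h
  have hst : ∀ n, (W.star : Sp L2) ∈ U n := fun n =>
    Set.mem_iInter.1 (hUe ▸ rfl : (W.star : Sp L2) ∈ ⋂ n, U n) n
  have hV : ∀ n, ∃ V ∈ @nhds (Sp L2) _ W.star, IsClosed V ∧ V ⊆ U n := fun n =>
    exists_mem_nhds_isClosed_subset ((hU n).mem_nhds (hst n))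
  choose V hVn hVc hVU using hV
  have hstep : ∀ s : List ℕ, ∃ m : ℕ, ∀ k ≤ s.length, (W.node (m :: s) true : Sp L2) ∈ V k := by
    intro s
    have : ∀ᶠ m in atTop, ∀ k ∈ Finset.range (s.length + 1),
        (W.node (m :: s) true : Sp L2) ∈ V k := by
      rw [eventually_all_finset]
      intro k _
      exact (tend_fan L2 s true) (hVn k)
    obtain ⟨m, hm⟩ := this.exists
    exact ⟨m, fun k hk => hm k (Finset.mem_range.2 (Nat.lt_succ_of_le hk))⟩
  choose g hg using hstep
  let s : ℕ → List ℕ := fun n => Nat.rec [] (fun _ t => g t :: t) n
  let x : ℕ → ℕ := fun n => g (s n)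
  have hxs : ∀ n, pre x n = s n := by
    intro n
    induction n with
    | zero => rfl
    | succ n ih => simp only [pre, ih]; rfl
  have hmem : ∀ k, (W.br x true : Sp L2) ∈ V k := by
    intro k
    refine (hVc k).mem_of_tendsto (tend_br L2 x true) ?_
    filter_upwards [eventually_gt_atTop k] with n hn
    obtain ⟨m, rfl⟩ := Nat.exists_eq_succ_of_ne_zero (by omega : n ≠ 0)
    have := hg (s m) k (by rw [← hxs, pre_length]; omega)
    rw [hxs]; exact this
  have : (W.br x true : Sp L2) ∈ ({W.star} : Set (Sp L2)) := by
    rw [hUe]; exact Set.mem_iInter.2 fun k => hVU k (hmem k)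
  cases this

/-- the shear `f ↦ f + c * (f ∘ fold - f star)` on the second copy -/
def sh (c : ℝ) (f : W → ℝ) : W → ℝ
  | W.node s true => f (W.node s true) + c * (f (W.node s false) - f W.star)
  | W.br x true => f (W.br x true) + c * (f (W.br x false) - f W.star)
  | w => f w

/-- the folding map -/
def fold : W → W
  | W.node s _ => W.node s false
  | W.br x _ => W.br x false
  | w => w

lemma sh_cases (w : W) : (∀ c f, sh c f w = f w) ∨
    ∀ c f, sh c f w = f w + c * (f (fold w) - f W.star) := by
  cases w with
  | node s b => cases b; exacts [Or.inl fun _ _ => rfl, Or.inr fun _ _ => rfl]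
  | br s b => cases b; exacts [Or.inl fun _ _ => rfl, Or.inr fun _ _ => rfl]
  | fan s => exact Or.inl fun _ _ => rfl
  | star => exact Or.inl fun _ _ => rfl

lemma sh_sh (c : ℝ) (f : W → ℝ) : sh (-c) (sh c f) = f := by
  funext w
  cases w with
  | node s b => cases b <;> simp [sh]
  | br s b => cases b <;> simp [sh]
  | fan s => rfl
  | star => rfl

lemma good12 {f : W → ℝ} (h : Good L1 f) : Good L2 (sh (-1) f) := by
  constructor
  · intro x b
    cases b
    · exact h.1 x false
    · exact (h.1 x true).add (((h.1 x false).sub_const _).const_mul _)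
  · intro s b
    cases b
    · exact h.2 s false
    · have := (h.2 s true).add (((h.2 s false).sub_const (f W.star)).const_mul (-1))
      have e : f (L1 s true) + -1 * (f (L1 s false) - f W.star) = f W.star := by
        simp [L1]
      rw [e] at this
      exact this

lemma good21 {f : W → ℝ} (h : Good L2 f) : Good L1 (sh 1 f) := by
  constructor
  · intro x b
    cases b
    · exact h.1 x false
    · exact (h.1 x true).add (((h.1 x false).sub_const _).const_mul _)
  · intro s b
    cases b
    · exact h.2 s false
    · have := (h.2 s true).add (((h.2 s false).sub_const (f W.star)).const_mul 1)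
      have e : f (L2 s true) + 1 * (f (L2 s false) - f W.star) = f (W.fan s) := by
        simp [L2]
      rw [e] at this
      exact this

lemma cont12 {f : Sp L1 → ℝ} (h : Continuous f) : Continuous (X := Sp L2) (sh (-1) f) :=
  cont_of_good (good12 (good_of_cont h))

lemma cont21 {f : Sp L2 → ℝ} (h : Continuous f) : Continuous (X := Sp L1) (sh 1 f) :=
  cont_of_good (good21 (good_of_cont h))

lemma sh_continuous (c : ℝ) : Continuous (sh c) := by
  refine continuous_pi fun w => ?_
  rcases sh_cases w with h | h
  · simp only [h]; exact continuous_apply w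
  · simp only [h]; fun_prop

lemma sh_lin (c a : ℝ) (f g : W → ℝ) : sh c (a • f + g) = a • sh c f + sh c g := by
  funext w
  rcases sh_cases w with h | h
  · simp [h]
  · simp only [h, Pi.add_apply, Pi.smul_apply, smul_eq_mul]; ring

lemma sh_close (c : ℝ) (hc : |c| = 1) (f g : W → ℝ) (w : W) (δ : ℝ) (h1 : |f w - g w| < δ)
    (h2 : |f (fold w) - g (fold w)| < δ) (h3 : |f W.star - g W.star| < δ) :
    |sh c f w - sh c g w| < 3 * δ := by
  have hδ : 0 < δ := lt_of_le_of_lt (abs_nonneg _) h1
  rcases sh_cases w with h | h
  · simp only [h]; linarith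
  · simp only [h]
    have e : f w + c * (f (fold w) - f W.star) - (g w + c * (g (fold w) - g W.star)) =
        (f w - g w) + c * ((f (fold w) - g (fold w)) - (f W.star - g W.star)) := by ring
    rw [e]
    have := abs_add_le (f w - g w) (c * ((f (fold w) - g (fold w)) - (f W.star - g W.star)))
    rw [abs_mul, hc, one_mul] at this
    have h4 := abs_sub (f (fold w) - g (fold w)) (f W.star - g W.star)
    linarith

end Pool.Agent.H82.PerfectL
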