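import Mathlib
import Pool.Agent.H82.MonoAdd

set_option autoImplicit false

namespace Pool.Agent.H82.PiW

open Set Filter Topology

/-- piecewise linear interpolation of a two sided sequence -/
noncomputable def itp (A : ℤ → ℝ) (t : ℝ) : ℝ :=
  (1 - Int.fract t) * A ⌊t⌋ + Int.fract t * A (⌊t⌋ + 1)

lemma itp_cont (A : ℤ → ℝ) : Continuous (itp A) := by
  refine LocallyFinite.continuous (f := fun k : ℤ => Icc (k : ℝ) (k + 1)) ?_ ?_
    (fun _ => isClosed_Icc) ?_
  · intro x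
    refine ⟨Ioo (x - 1) (x + 1), Ioo_mem_nhds (by linarith) (by linarith), ?_⟩
    refine (finite_Icc (⌊x⌋ - 2) (⌊x⌋ + 2)).subset ?_
    rintro k ⟨y, ⟨h1, h2⟩, h3, h4⟩
    have h5 := Int.floor_le x
    have h6 := Int.lt_floor_add_one x
    constructor
    · have : ((⌊x⌋ - 2 : ℤ) : ℝ) ≤ k := by push_cast; linarith
      exact_mod_cast this
    · have : (k : ℝ) ≤ ((⌊x⌋ + 2 : ℤ) : ℝ) := by push_cast; linarith
      exact_mod_cast this
  · exact eq_univ_of_forall fun x =>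
      mem_iUnion.2 ⟨⌊x⌋, Int.floor_le x, (Int.lt_floor_add_one x).le⟩
  · intro k
    refine ContinuousOn.congr (f := fun t => (1 - (t - k)) * A k + (t - k) * A (k + 1))
      (by fun_prop) ?_
    rintro t ⟨h1, h2⟩
    rcases h2.lt_or_eq with h2 | h2
    · have : ⌊t⌋ = k := Int.floor_eq_iff.2 ⟨h1, h2⟩
      simp only [itp, Int.fract, this]
    · have : ⌊t⌋ = k + 1 := by rw [h2]; exact_mod_cast Int.floor_intCast (R := ℝ) (k + 1)
      simp only [itp, Int.fract, this]
      rw [h2]; push_cast; ring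

lemma itp_shift (A B : ℤ → ℝ) (s : ℝ) (w : ℤ) (h1 : A (⌊s⌋ + w) = B ⌊s⌋)
    (h2 : A (⌊s⌋ + 1 + w) = B (⌊s⌋ + 1)) : itp A (s + w) = itp B s := by
  simp only [itp, Int.fract_add_intCast, Int.floor_add_intCast, ← h1, ← h2]
  ring_nf

noncomputable def W (n : ℕ) (a : ℤ → ℝ) (p : ℝ × ℝ) : ℝ :=
  itp (fun k => if |k| ≤ n then p.2 else a k) p.1

lemma W_cont (n : ℕ) (a : ℤ → ℝ) : Continuous (W n a) := by
  have : W n a = fun p => p.2 * itp (fun k => if |k| ≤ n then 1 else 0) p.1 +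
      itp (fun k => if |k| ≤ n then 0 else a k) p.1 := by
    ext p; simp only [W, itp]; split_ifs <;> ring
  rw [this]
  exact (continuous_snd.mul ((itp_cont _).comp continuous_fst)).add
    ((itp_cont _).comp continuous_fst)

lemma W_eq (n : ℕ) (a : ℤ → ℝ) (t y : ℝ) (h : |⌊t⌋| + 1 ≤ n) : W n a (t, y) = y := by
  have h1 : |⌊t⌋| ≤ n := by omega
  have h2 : |⌊t⌋ + 1| ≤ n := (abs_add_le _ _).trans (by simpa using h)
  simp only [W, itp, if_pos h1, if_pos h2]; ring

noncomputable def val (n : ℕ) (k : ℤ) : ℕ :=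
  sSup {v : ℕ | ∃ m : ℤ, |m| ≤ n ∧ (2 : ℤ) ^ v ∣ k - m}

lemma pow_big (c : ℤ) : ∀ᶠ j : ℕ in atTop, c < 2 ^ j :=
  (tendsto_pow_atTop_atTop_of_one_lt (r := (2 : ℤ)) (by norm_num)).eventually_gt_atTop c

lemma lemA {n : ℕ} {k : ℤ} (hk : (n : ℤ) < |k|) : ∀ᶠ j : ℕ in atTop, ∀ z : ℤ,
    (n : ℤ) < |k + 2 ^ j * z| ∧ val n (k + 2 ^ j * z) = val n k := by
  filter_upwards [pow_big (|k| + n)] with j hj z
  have hno : ∀ m : ℤ, |m| ≤ n → ¬ (2 : ℤ) ^ j ∣ k - m := by
    intro m hm hd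
    have h0 : k - m ≠ 0 := by
      intro h; have : k = m := by omega
      subst this; omega
    have h1 := Int.le_of_dvd (abs_pos.2 h0) ((dvd_abs _ _).2 hd)
    have h2 : |k - m| ≤ |k| + |m| := abs_sub _ _
    omega
  constructor
  · by_contra h
    exact hno _ (not_lt.1 h) ⟨-z, by ring⟩
  · unfold val
    congr 1
    ext v
    simp only [mem_ofPred_eq]
    refine exists_congr fun m => and_congr_right fun hm => ?_
    have e : k + 2 ^ j * z - m = (k - m) + 2 ^ j * z := by ring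
    rw [e]
    rcases le_total v j with h | h
    · exact dvd_add_left ((pow_dvd_pow 2 h).mul_right z)
    · constructor
      · intro hd
        exact absurd ((dvd_add_left (dvd_mul_right _ z)).1 ((pow_dvd_pow 2 h).trans hd))
          (hno m hm)
      · intro hd
        exact absurd ((pow_dvd_pow 2 h).trans hd) (hno m hm)

lemma lemB {n : ℕ} {k : ℤ} (hk : |k| ≤ n) : ∀ᶠ v : ℕ in atTop,
    (n : ℤ) < |k + 2 ^ v| ∧ val n (k + 2 ^ v) = v := by
  filter_upwards [pow_big (2 * n)] with v hv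
  have hk' := abs_le.1 hk
  refine ⟨lt_of_lt_of_le (by omega) (le_abs_self _), IsGreatest.csSup_eq ⟨⟨k, hk, by simp⟩, ?_⟩⟩
  rintro u ⟨m, hm, hd⟩
  by_contra h
  have hm' := abs_le.1 hm
  have h1 := Int.le_of_dvd (by omega) ((pow_dvd_pow 2 (show v + 1 ≤ u by omega)).trans hd)
  rw [pow_succ] at h1
  omega

structure D where
  val : ℝ

instance : TopologicalSpace D := ⊥
instance : DiscreteTopology D := ⟨rfl⟩
instance : Nonempty D := ⟨⟨0⟩⟩

lemma exists_d : ∃ d : ℕ → (D × ℕ → ℝ), ∀ y, MapClusterPt y atTop d := by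
  classical
  let c : D × ℕ → ℝ × ℕ := fun i => (i.1.val, i.2)
  have hc : Function.Injective c := by
    rintro ⟨⟨a⟩, n⟩ ⟨⟨b⟩, m⟩ h
    simp only [c, Prod.mk.injEq] at h
    rw [h.1, h.2]
  let ρ : C(ℝ × ℕ, ℝ) → (D × ℕ → ℝ) := fun h i => h (c i)
  have hρ : Continuous ρ := continuous_pi fun i => continuous_eval_const (c i)
  have hd : DenseRange ρ := by
    refine dense_iff_inter_open.2 fun U hU ⟨u, hu⟩ => ?_
    obtain ⟨I, δ, hδ, hI⟩ := MonoAdd.basic_nhd hU hu
    have hfin : (c '' (I : Set (D × ℕ))).Finite := I.finite_toSet.image c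
    have : Finite (c '' (I : Set (D × ℕ))) := hfin.to_subtype
    obtain ⟨g, hg⟩ := ContinuousMap.exists_restrict_eq (Y := ℝ) hfin.isClosed
      ⟨fun s => u (Function.invFun c s.1), continuous_of_discreteTopology⟩
    refine ⟨ρ g, hI _ fun x hx => ?_, g, rfl⟩
    have := congrArg (fun F : C(c '' (I : Set (D × ℕ)), ℝ) => F ⟨c x, mem_image_of_mem _ hx⟩) hg
    simp only [ContinuousMap.restrict_apply, ContinuousMap.coe_mk,
      Function.leftInverse_invFun hc x] at this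
    simp [ρ, this, hδ]
  have : TopologicalSpace.SeparableSpace (D × ℕ → ℝ) := hd.separableSpace hρ
  obtain ⟨e, he⟩ := TopologicalSpace.exists_dense_seq (D × ℕ → ℝ)
  refine ⟨fun v => e (Nat.unpair v).1, fun y => mapClusterPt_iff_frequently.2 fun s hs => ?_⟩
  obtain ⟨_, hm, ⟨m, rfl⟩⟩ := mem_closure_iff_nhds.1 (he y) s hs
  rw [frequently_atTop]
  intro N
  exact ⟨Nat.pair m N, Nat.right_le_pair _ _, by simpa using hm⟩

noncomputable def hh (t : ℝ) : ℕ → UnitAddCircle := fun j => ((t / 2 ^ j : ℝ) : UnitAddCircle)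

lemma hh_cont : Continuous hh := continuous_pi fun _ =>
  (AddCircle.continuous_mk' 1).comp (continuous_id.div_const _)

lemma hh_inj : Function.Injective hh := by
  intro t s h
  obtain ⟨j, hj⟩ := ((tendsto_pow_atTop_atTop_of_one_lt (r := (2 : ℝ))
    (by norm_num)).eventually_gt_atTop |t - s|).exists
  have h1 := congrFun h j
  simp only [hh] at h1
  rw [← sub_eq_zero, ← AddCircle.coe_sub, AddCircle.coe_eq_zero_iff] at h1
  obtain ⟨z, hz⟩ := h1
  have hp : (0 : ℝ) < 2 ^ j := by positivity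
  have h2 : t - s = z * 2 ^ j := by
    simp only [zsmul_eq_mul, mul_one] at hz
    rw [hz]; field_simp
  rw [h2, abs_mul, abs_of_pos hp] at hj
  have h3 : |(z : ℝ)| < 1 := by nlinarith
  have h4 : z = 0 := by
    have : |z| < 1 := by exact_mod_cast h3
    exact Int.abs_lt_one_iff.1 this
  rw [h4] at h2
  simpa [sub_eq_zero] using h2

lemma hh_tendsto (t : ℝ) : Tendsto (fun v : ℕ => hh (t + 2 ^ v)) atTop (𝓝 (hh t)) := by
  rw [tendsto_pi_nhds]
  intro j
  refine tendsto_const_nhds.congr' ?_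
  filter_upwards [eventually_ge_atTop j] with v hv
  simp only [hh]
  rw [eq_comm, ← sub_eq_zero, ← AddCircle.coe_sub, AddCircle.coe_eq_zero_iff]
  refine ⟨2 ^ (v - j), ?_⟩
  obtain ⟨u, rfl⟩ := Nat.exists_eq_add_of_le hv
  simp only [zsmul_eq_mul, mul_one, add_tsub_cancel_left]
  push_cast
  rw [pow_add]; field_simp; ring

lemma hh_near (s δ : ℝ) (hδ : 0 < δ) (j : ℕ) :
    ∀ᶠ q in 𝓝 (hh s), ∀ t, hh t = q → ∃ z : ℤ, |t - s - 2 ^ j * z| < δ := by
  have hp : (0 : ℝ) < 2 ^ j := by positivity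
  have : ∀ᶠ q : ℕ → UnitAddCircle in 𝓝 (hh s), dist (q j) (hh s j) < δ / 2 ^ j :=
    (continuous_apply j).continuousAt.preimage_mem_nhds
      (Metric.ball_mem_nhds (hh s j) (show 0 < δ / 2 ^ j by positivity))
  filter_upwards [this] with q hq t ht
  rw [← ht, dist_eq_norm] at hq
  simp only [hh] at hq
  rw [← AddCircle.coe_sub, UnitAddCircle.norm_eq, lt_div_iff₀ hp] at hq
  refine ⟨round (t / 2 ^ j - s / 2 ^ j), ?_⟩
  refine lt_of_eq_of_lt ?_ hq
  rw [← abs_of_pos hp, ← abs_mul, abs_of_pos hp]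
  congr 1
  field_simp

noncomputable def G (d : ℕ → (D × ℕ → ℝ)) (f : D → ℝ) : (ℕ → UnitAddCircle) × (D × ℕ → ℝ) :=
  (hh (f ⟨0⟩), fun i => W i.2 (fun k => d (val i.2 k) i) (f ⟨0⟩, f i.1))

lemma G_cont (d : ℕ → (D × ℕ → ℝ)) : Continuous (G d) :=
  (hh_cont.comp (continuous_apply _)).prodMk (continuous_pi fun _ =>
    (W_cont _ _).comp ((continuous_apply _).prodMk (continuous_apply _)))

lemma G_inj (d : ℕ → (D × ℕ → ℝ)) : Function.Injective (G d) := by
  intro f g h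
  have h1 : f ⟨0⟩ = g ⟨0⟩ := hh_inj (congrArg Prod.fst h)
  ext x
  have h2 := congrFun (congrArg Prod.snd h) (x, (|⌊f ⟨0⟩⌋| + 1).toNat)
  simp only [G] at h2
  rw [← h1, W_eq, W_eq] at h2
  · exact h2
  all_goals exact Int.self_le_toNat _

lemma G_tendsto (d : ℕ → (D × ℕ → ℝ)) (f : D → ℝ) :
    Tendsto (G d) ((atTop ⊓ comap d (𝓝 fun i => f i.1)).bind fun v =>
      comap (fun g : D → ℝ => hh (g ⟨0⟩)) (𝓝 (hh (f ⟨0⟩ + 2 ^ v)))) (𝓝 (G d f)) := by
  refine Tendsto.prodMk_nhds ?_ (tendsto_pi_nhds.2 fun i => ?_)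
  · rw [tendsto_iff_eventually]
    intro p hp
    rw [eventually_bind]
    refine Eventually.filter_mono inf_le_left ?_
    filter_upwards [(hh_tendsto (f ⟨0⟩)).eventually (eventually_eventually_nhds.2 hp)] with v hv
    exact tendsto_comap.eventually hv
  · obtain ⟨x, n⟩ := i
    rw [tendsto_iff_eventually]
    intro p hp
    rw [eventually_bind]
    set t0 := f ⟨0⟩ with ht0
    set a : ℤ → ℝ := fun k => d (val n k) (x, n) with ha
    have h1 : ∀ᶠ q in 𝓝 (t0, f x), p (W n a q) := (W_cont n a).continuousAt.eventually hp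
    obtain ⟨ε, hε, h2⟩ := Metric.eventually_nhds_iff.1 h1
    let K : Finset ℤ := Finset.Icc (⌊t0⌋ - 1) (⌊t0⌋ + 2)
    have e1 : ∀ᶠ v : ℕ in atTop, ∀ k ∈ K, (n : ℤ) < |k + 2 ^ v| ∧
        a (k + 2 ^ v) = if |k| ≤ n then d v (x, n) else a k := by
      rw [eventually_all_finset]
      intro k _
      by_cases hk : |k| ≤ n
      · filter_upwards [lemB hk] with v hv
        exact ⟨hv.1, by simp only [ha, hv.2, if_pos hk]⟩
      · filter_upwards [lemA (not_le.1 hk)] with v hv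
        have := hv 1
        rw [mul_one] at this
        exact ⟨this.1, by simp only [ha, this.2, if_neg hk]⟩
    have e2 : ∀ᶠ v : ℕ in comap d (𝓝 fun i => f i.1), dist (d v (x, n)) (f x) < ε := by
      have : ∀ᶠ y : D × ℕ → ℝ in 𝓝 fun i => f i.1, dist (y (x, n)) (f x) < ε :=
        ((continuous_apply (x, n)).tendsto (fun i : D × ℕ => f i.1)).eventually
          (p := fun r => dist r (f x) < ε) (Metric.ball_mem_nhds (f x) hε)
      exact tendsto_comap.eventually this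
    filter_upwards [e1.filter_mono inf_le_left, e2.filter_mono inf_le_right] with v hv1 hv2
    have e3 : ∀ᶠ j : ℕ in atTop, ∀ k ∈ K, ∀ z : ℤ, (n : ℤ) < |k + 2 ^ v + 2 ^ j * z| ∧
        val n (k + 2 ^ v + 2 ^ j * z) = val n (k + 2 ^ v) := by
      rw [eventually_all_finset]
      exact fun k hk => lemA (hv1 k hk).1
    obtain ⟨j, hj⟩ := e3.exists
    rw [eventually_comap]
    refine (hh_near (t0 + 2 ^ v) (min ε 1) (by positivity) j).mono ?_
    intro q hq g hg
    obtain ⟨z, hz⟩ := hq _ hg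
    set s := g ⟨0⟩ - 2 ^ v - 2 ^ j * z with hs
    have hs1 : |s - t0| < min ε 1 := by
      convert hz using 2; rw [hs]; ring
    have hs2 := abs_lt.1 (hs1.trans_le (min_le_right _ _))
    have hf1 : ⌊t0⌋ - 1 ≤ ⌊s⌋ := by
      rw [← Int.floor_sub_one]; exact Int.floor_le_floor (by linarith)
    have hf2 : ⌊s⌋ ≤ ⌊t0⌋ + 1 := by
      rw [← Int.floor_add_one]; exact Int.floor_le_floor (by linarith)
    have key : ∀ k ∈ K, (if |k + (2 ^ v + 2 ^ j * z)| ≤ n then g x else a (k + (2 ^ v + 2 ^ j * z)))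
        = if |k| ≤ n then d v (x, n) else a k := by
      intro k hk
      rw [← add_assoc, if_neg (not_le.2 (hj k hk z).1), ← (hv1 k hk).2]
      simp only [ha, (hj k hk z).2]
    have e4 : W n a (g ⟨0⟩, g x) = W n a (s, d v (x, n)) := by
      have : g ⟨0⟩ = s + ((2 ^ v + 2 ^ j * z : ℤ) : ℝ) := by rw [hs]; push_cast; ring
      simp only [W]
      rw [this]
      exact itp_shift _ _ _ _ (key _ (Finset.mem_Icc.2 ⟨by omega, by omega⟩))
        (key _ (Finset.mem_Icc.2 ⟨by omega, by omega⟩))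
    show p (W n a (g ⟨0⟩, g x))
    rw [e4]
    apply h2
    rw [Prod.dist_eq, max_lt_iff]
    exact ⟨hs1.trans_le (min_le_left _ _), hv2⟩

theorem main : ∃ (Y : Type) (τ : TopologicalSpace Y), T35Space Y ∧
    ∃ g : C(D, ℝ) → Y, Function.Bijective g ∧
      @Continuous C(D, ℝ) Y
        (TopologicalSpace.induced (fun f : C(D, ℝ) => (⇑f : D → ℝ)) Pi.topologicalSpace) τ g ∧
      ∃ B : Set (Set Y), B.Countable ∧ (∀ P ∈ B, IsOpen P ∧ P.Nonempty) ∧
        ∀ U : Set Y, IsOpen U → U.Nonempty → ∃ P ∈ B, P ⊆ U := by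
  obtain ⟨d, hd⟩ := exists_d
  refine ⟨range (G d), inferInstance, inferInstance, fun f => ⟨G d f, f, rfl⟩, ⟨?_, ?_⟩, ?_, ?_⟩
  · intro f g h
    exact DFunLike.coe_injective (G_inj d (congrArg Subtype.val h))
  · rintro ⟨_, f, rfl⟩
    exact ⟨⟨f, continuous_of_discreteTopology⟩, rfl⟩
  · exact @Continuous.subtype_mk _ _ _ (_) _ _
      (@Continuous.comp _ _ _ (_) _ _ _ _ (G_cont d) continuous_induced_dom) _
  · let π : range (G d) → (ℕ → UnitAddCircle) := fun y => y.1.1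
    have hπ : Continuous π := continuous_fst.comp continuous_subtype_val
    refine ⟨{P | P ∈ (fun V => π ⁻¹' V) '' TopologicalSpace.countableBasis (ℕ → UnitAddCircle) ∧
      P.Nonempty}, ((TopologicalSpace.countable_countableBasis _).image _).mono fun _ h => h.1,
      ?_, ?_⟩
    · rintro _ ⟨⟨V, hV, rfl⟩, hne⟩
      exact ⟨(TopologicalSpace.isOpen_of_mem_countableBasis hV).preimage hπ, hne⟩
    · rintro U hU ⟨⟨_, f, rfl⟩, hf⟩
      obtain ⟨U', hU', rfl⟩ := isOpen_induced_iff.1 hU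
      have h1 := (G_tendsto d f).eventually (hU'.mem_nhds hf)
      rw [eventually_bind] at h1
      have hne : (atTop ⊓ comap d (𝓝 fun i => f i.1)).NeBot := by
        have := hd (fun i => f i.1)
        rw [mapClusterPt_def, ClusterPt, inf_comm, ← Filter.push_pull, map_neBot_iff] at this
        exact this
      obtain ⟨v, hv⟩ := h1.exists
      rw [eventually_comap] at hv
      obtain ⟨V, hV, hxV, hVs⟩ :=
        (TopologicalSpace.isBasis_countableBasis (ℕ → UnitAddCircle)).mem_nhds_iff.1 hv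
      refine ⟨π ⁻¹' V, ⟨⟨V, hV, rfl⟩, ⟨G d fun _ => f ⟨0⟩ + 2 ^ v, _, rfl⟩, hxV⟩, ?_⟩
      rintro ⟨_, g, rfl⟩ hg
      exact hVs hg g rfl

theorem not_sep : ¬ TopologicalSpace.SeparableSpace D := by
  intro h
  have : Countable D := TopologicalSpace.separableSpace_iff_countable.1 h
  have h2 : Function.Surjective D.val := fun x => ⟨⟨x⟩, rfl⟩
  exact not_countable (α := ℝ) h2.countable

end Pool.Agent.H82.PiW
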