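import Mathlib

set_option autoImplicit false

open Set Filter Topology

namespace Pool.Agent.H82.RelInd

theorem free {J ι : Type} (a : J → Set J) (ha : ∀ j, (a j).Finite) (s : Set ι) (hs : s.Finite) :
    ∀ T : ι → Set J, (∀ t ∈ s, ¬ (T t).Countable) → ∀ _ : J, ∃ c : ι → J, (∀ t ∈ s, c t ∈ T t) ∧
      ∀ t ∈ s, ∀ t' ∈ s, c t' ∈ a (c t) → c t' = c t := by
  classical
  induction s, hs using Set.Finite.induction_on with
  | empty => exact fun T _ j => ⟨fun _ => j, by simp, by simp⟩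
  | @insert t₀ s ht₀ hs ih =>
    intro T hT j₀
    have hbad : ∀ t ∈ s, {w | {z ∈ T t | w ∉ a z}.Countable}.Finite := by
      intro t ht
      by_contra hn
      obtain ⟨B, hB, hBi, hBc⟩ := Infinite.exists_subset_countable_infinite hn
      refine hT t (mem_insert_of_mem _ ht) ((hBi.biUnion fun w hw => hB hw).mono fun z hz => ?_)
      by_contra hc
      refine hBc ((ha z).subset fun w hw => ?_)
      by_contra hw'
      exact hc (mem_biUnion hw ⟨hz, hw'⟩)
    obtain ⟨z₀, hz₀, hz⟩ : (T t₀ \ ⋃ t ∈ s, {w | {z ∈ T t | w ∉ a z}.Countable}).Nonempty := by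
      by_contra hn
      rw [not_nonempty_iff_eq_empty, sdiff_eq_empty] at hn
      exact hT t₀ (mem_insert _ _) ((hs.biUnion hbad).countable.mono hn)
    obtain ⟨c, h1, h2⟩ := ih (fun t => {z ∈ T t | z₀ ∉ a z} \ a z₀) (fun t ht hc =>
      hz (mem_biUnion ht ((hc.union (ha z₀).countable).mono (subset_sdiff_union _ _)))) j₀
    have hc : ∀ t ∈ s, Function.update c t₀ z₀ t = c t := fun t ht =>
      Function.update_of_ne (fun e : t = t₀ => ht₀ (e ▸ ht)) _ _
    refine ⟨Function.update c t₀ z₀, ?_, ?_⟩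
    · rintro t (rfl | ht)
      · simpa using hz₀
      · rw [hc t ht]
        exact (h1 t ht).1.1
    · rintro t (rfl | ht) t' (rfl | ht') h
      · rfl
      · rw [hc t' ht', Function.update_self] at h
        exact absurd h (h1 t' ht').2
      · rw [hc t ht, Function.update_self] at h
        exact absurd h (h1 t ht).1.2
      · rw [hc t ht, hc t' ht'] at h ⊢
        exact h2 t ht t' ht' h

abbrev J := unitInterval × ℝ

theorem segment (O : Set ((J → Bool) × unitInterval)) (hO : IsOpen O)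
    (h : ∀ j : J, ((fun j' => by classical exact decide (j' = j), j.1) :
      (J → Bool) × unitInterval) ∈ O) : ∃ x : J → Bool, ∀ t, (x, t) ∈ O := by
  classical
  have h1 : ∀ j : J, ∃ (a : Set J) (n : ℕ), a.Finite ∧ ∀ (x : J → Bool) (t : unitInterval),
      (∀ i ∈ a, x i = decide (i = j)) → dist t j.1 < 1 / ((n : ℝ) + 1) → (x, t) ∈ O := by
    intro j
    obtain ⟨u, hu, v, hv, huv⟩ := mem_nhds_prod_iff.1 (hO.mem_nhds (h j))
    rw [nhds_pi, Filter.mem_pi] at hu
    obtain ⟨a, ha, t, ht, htu⟩ := hu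
    obtain ⟨ε, hε, hb⟩ := Metric.mem_nhds_iff.1 hv
    obtain ⟨n, hn⟩ := exists_nat_one_div_lt hε
    refine ⟨a, n, ha, fun x s hx hs => huv ⟨htu fun i hi => ?_, hb (hs.trans hn)⟩⟩
    have := mem_of_mem_nhds (ht i)
    simp only [hx i hi]
    convert this
  choose a n ha h1 using h1
  have h2 : ∀ t : unitInterval, ∃ m, ¬ {j : J | j.1 = t ∧ n j = m}.Countable := by
    intro t
    by_contra hn
    push Not at hn
    refine Cardinal.not_countable_real (((countable_iUnion hn).image Prod.snd).mono fun r _ => ?_)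
    exact ⟨(t, r), mem_iUnion.2 ⟨_, rfl, rfl⟩, rfl⟩
  choose m hm using h2
  obtain ⟨s, -, hs⟩ := isCompact_univ.elim_nhds_subcover
    (fun t : unitInterval => Metric.ball t (1 / ((m t : ℝ) + 1)))
    fun t _ => Metric.ball_mem_nhds _ Nat.one_div_pos_of_nat
  obtain ⟨c, c1, c2⟩ := free a ha (s : Set unitInterval) s.finite_toSet _ (fun t _ => hm t) (0, 0)
  refine ⟨fun i => decide (i ∈ c '' s), fun t => ?_⟩
  obtain ⟨t', ht', h⟩ := mem_iUnion₂.1 (hs (mem_univ t))
  refine h1 (c t') _ t (fun i hi => ?_) (by rw [(c1 t' ht').1, (c1 t' ht').2]; exact h)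
  rw [decide_eq_decide]
  constructor
  · rintro ⟨t'', ht'', rfl⟩
    exact c2 t' ht' t'' ht'' hi
  · rintro rfl
    exact ⟨t', ht', rfl⟩

def D {X : Type} [TopologicalSpace X] : ℕ → Set X → Set X → Prop
  | 0, Y, A => A ∩ Y = ∅
  | k + 1, Y, A => A ∩ Y = ∅ ∨
      ∀ F G : Set X, (∃ C : Set X, IsClosed C ∧ F = Y ∩ C) →
        (∃ C : Set X, IsClosed C ∧ G = Y ∩ C) → Disjoint F G →
        ∃ S U V : Set X, S ⊆ Y ∧ (∃ C : Set X, IsClosed C ∧ S = Y ∩ C) ∧
          (∃ O : Set X, IsOpen O ∧ U = Y ∩ O) ∧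
          (∃ O : Set X, IsOpen O ∧ V = Y ∩ O) ∧
          Disjoint U V ∧ Y \ S = U ∪ V ∧ F ⊆ U ∧ G ⊆ V ∧
          D k S (A ∩ S)

theorem main : ∃ Z : Set ((J → Bool) × unitInterval), D 1 Z Z ∧ ¬ D 1 univ Z := by
  classical
  let z : J → (J → Bool) × unitInterval := fun j => (fun j' => decide (j' = j), j.1)
  have hd : ∀ A ⊆ range z, ∃ O, IsOpen O ∧ A = range z ∩ O := by
    intro A hA
    refine ⟨⋃ j ∈ z ⁻¹' A, {p | p.1 j = true}, isOpen_biUnion fun j _ =>
      (show Continuous fun p : (J → Bool) × unitInterval => p.1 j by fun_prop).isOpen_preimage _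
        (isOpen_discrete {true}), ?_⟩
    ext p
    constructor
    · intro hp
      obtain ⟨j, rfl⟩ := hA hp
      exact ⟨⟨j, rfl⟩, mem_biUnion hp (by simp [z])⟩
    · rintro ⟨⟨j, rfl⟩, hp⟩
      obtain ⟨i, hi, h⟩ := mem_iUnion₂.1 hp
      obtain rfl : i = j := by simpa [z] using h
      exact hi
  refine ⟨range z, Or.inr ?_, ?_⟩
  · rintro F G ⟨C, -, rfl⟩ ⟨C', -, rfl⟩ h
    refine ⟨∅, range z ∩ C, range z \ C, empty_subset _, ⟨∅, isClosed_empty, by simp⟩,
      hd _ inter_subset_left, hd _ sdiff_subset, disjoint_left.2 fun x hx hx' => hx'.2 hx.2,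
      by simp, subset_rfl, fun x hx => ⟨hx.1, fun h' => disjoint_left.1 h ⟨hx.1, h'⟩ hx⟩,
      by simp [D]⟩
  · rintro (h | h)
    · exact (range_nonempty z).ne_empty (by simpa using h)
    obtain ⟨S, U, V, -, -, ⟨U', hU, rfl⟩, ⟨V', hV, rfl⟩, h1, h2, h3, h4, h5⟩ :=
      h {p | p.2 = 0} {p | p.2 = 1}
        ⟨_, isClosed_eq continuous_snd continuous_const, (univ_inter _).symm⟩
        ⟨_, isClosed_eq continuous_snd continuous_const, (univ_inter _).symm⟩
        (disjoint_left.2 fun p hp hp' => zero_ne_one ((Eq.symm hp).trans hp'))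
    simp only [univ_inter] at h1 h2 h3 h4
    obtain ⟨x, hx⟩ := segment (U' ∪ V') (hU.union hV) (fun j => by
      rw [← h2]
      refine ⟨trivial, fun hS => ?_⟩
      have : z j ∈ range z ∩ S ∩ S := ⟨⟨⟨j, rfl⟩, by convert hS⟩, by convert hS⟩
      rw [show range z ∩ S ∩ S = ∅ from h5] at this
      exact this)
    have hc : Continuous fun t : unitInterval => (x, t) := by fun_prop
    obtain ⟨t, -, ht, ht'⟩ := isPreconnected_univ _ _ (hU.preimage hc) (hV.preimage hc)
      (fun t _ => hx t) ⟨0, trivial, h3 rfl⟩ ⟨1, trivial, h4 rfl⟩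
    exact disjoint_left.1 h1 ht ht'

end Pool.Agent.H82.RelInd
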