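import Mathlib
import Pool.Agent.H82.LadA

set_option autoImplicit false

/-! A scattered, hereditarily meta-Lindelöf subspace of `C_p(βI)` that is not σ-discrete. -/

namespace Pool.Agent.H82.ScEG

open Set Cardinal Filter Topology

/-- families of pairs whose second coordinates can avoid every set of size at most `𝔠` -/
def Large {I : Type} (F : Set (Set I × Set I)) : Prop :=
  ∀ S : Set I, #S ≤ continuum.{0} → ∃ q ∈ F, Disjoint q.2 S

lemma ctble_le {I : Type} {S : Set I} (h : S.Countable) : #S ≤ continuum.{0} :=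
  (le_aleph0_iff_set_countable.2 h).trans aleph0_le_continuum

lemma union_le {I : Type} {S T : Set I} (h1 : #S ≤ continuum.{0}) (h2 : #T ≤ continuum.{0}) :
    #(S ∪ T : Set I) ≤ continuum.{0} :=
  (mk_union_le _ _).trans ((add_le_add h1 h2).trans (by simp))

lemma iUnion_le {I J : Type} (hJ : #J ≤ continuum.{0}) {S : J → Set I}
    (h : ∀ j, #(S j) ≤ continuum.{0}) : #(⋃ j, S j) ≤ continuum.{0} :=
  (mk_iUnion_le _).trans ((mul_le_mul' hJ (ciSup_le' h)).trans (by simp))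

lemma Large.avoid {I : Type} {F : Set (Set I × Set I)} (h : Large F) {S : Set I}
    (hS : #S ≤ continuum.{0}) : Large {q | q ∈ F ∧ Disjoint q.2 S} := fun T hT => by
  obtain ⟨q, hq, h1⟩ := h _ (union_le hS hT)
  exact ⟨q, ⟨hq, h1.mono_right subset_union_left⟩, h1.mono_right subset_union_right⟩

lemma shrink {I : Type} {F0 : Set (Set I × Set I)} (h0 : Large F0)
    (hc0 : ∀ q ∈ F0, q.2.Countable) (F : ℕ → Set (Set I × Set I)) (hF : ∀ n, Large (F n))
    (hc : ∀ n, ∀ q ∈ F n, q.1.Countable) :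
    ∃ p ∈ F0, ∀ n, Large {q | q ∈ F n ∧ Disjoint q.1 p.2} := by
  by_contra hn
  push Not at hn
  have h1 : ∀ p ∈ F0, ∃ n, ∃ S : Set I, #S ≤ continuum.{0} ∧
      ∀ q ∈ F n, Disjoint q.2 S → (q.1 ∩ p.2).Nonempty := by
    intro p hp
    obtain ⟨n, h2⟩ := hn p hp
    unfold Large at h2
    push Not at h2
    obtain ⟨S, hS, h3⟩ := h2
    exact ⟨n, S, hS, fun q hq h4 => not_disjoint_iff_nonempty_inter.1 fun h5 => h3 q ⟨hq, h5⟩ h4⟩
  choose! N S hS hN using h1
  have hne : ∀ p ∈ F0, p.2.Nonempty := by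
    intro p hp
    obtain ⟨q, hq, h2⟩ := hF (N p) (S p) (hS p hp)
    exact (hN p hp q hq h2).mono inter_subset_right
  -- a maximal subfamily with disjoint second coordinates
  obtain ⟨M, hM⟩ : ∃ M, Maximal (fun M : Set (Set I × Set I) =>
      M ⊆ F0 ∧ M.PairwiseDisjoint Prod.snd) M := by
    refine zorn_subset _ fun c hc1 hc2 => ⟨⋃₀ c, ⟨sUnion_subset fun M hM => (hc1 hM).1, ?_⟩,
      fun M hM => subset_sUnion_of_mem hM⟩
    rintro p ⟨M1, h2, h3⟩ q ⟨M2, h4, h5⟩ hpq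
    rcases hc2.total h2 h4 with h6 | h6
    · exact (hc1 h4).2 (h6 h3) h5 hpq
    · exact (hc1 h2).2 h3 (h6 h5) hpq
  have hMu : ¬ M.Countable := by
    intro h2
    obtain ⟨q, hq, h3⟩ := h0 (⋃ p ∈ M, p.2)
      (ctble_le (h2.biUnion fun p hp => hc0 p (hM.prop.1 hp)))
    have h4 : ∀ p ∈ M, Disjoint q.2 p.2 := fun p hp => h3.mono_right (subset_biUnion_of_mem hp)
    have h5 : q ∈ M := hM.mem_of_prop_insert
      (And.intro (insert_subset hq hM.prop.1) (hM.prop.2.insert fun p hp _ => h4 p hp))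
    exact (hne q hq).ne_empty (disjoint_self.1 (h4 q h5))
  obtain ⟨n, hn2⟩ : ∃ n, ¬ {p | p ∈ M ∧ N p = n}.Countable := by
    by_contra h2
    push Not at h2
    exact hMu ((countable_iUnion h2).mono fun p hp => mem_iUnion.2 ⟨N p, And.intro hp rfl⟩)
  obtain ⟨M', h2, h3⟩ := le_mk_iff_exists_subset.1
    (show ℵ₁ ≤ #{p | p ∈ M ∧ N p = n} from by
      rw [← succ_aleph0, Order.succ_le_iff, ← not_le, le_aleph0_iff_set_countable]; exact hn2)
  obtain ⟨q, hq, h4⟩ := hF n (⋃ p : M', S p)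
    (iUnion_le (h3 ▸ aleph_one_le_continuum) fun p => hS p (hM.prop.1 (h2 p.2).1))
  have h5 : ∀ p : M', ∃ z : q.1, (z : I) ∈ p.1.2 := by
    intro p
    obtain ⟨z, h6, h7⟩ := hN p (hM.prop.1 (h2 p.2).1) q ((h2 p.2).2 ▸ hq)
      (h4.mono_right (subset_iUnion (fun p : M' => S p) p))
    exact ⟨⟨z, h6⟩, h7⟩
  choose z hz using h5
  have h6 : Function.Injective z := by
    intro p p' he
    by_contra h7
    exact disjoint_left.1 (hM.prop.2 (h2 p.2).1 (h2 p'.2).1 fun h8 => h7 (Subtype.ext h8))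
      (hz p) (he ▸ hz p')
  have h7 := (mk_le_of_injective h6).trans (le_aleph0_iff_set_countable.2 (hc n q hq))
  rw [h3] at h7
  exact absurd h7 (not_le.2 aleph0_lt_aleph_one)

theorem amalg {I : Type} (F : ℕ → Set (Set I × Set I)) (hF : ∀ n, Large (F n))
    (hc : ∀ n, ∀ q ∈ F n, q.1.Countable ∧ q.2 ⊆ q.1) :
    ∃ q : ℕ → Set I × Set I, (∀ n, q n ∈ F n) ∧ ∀ n m, n ≠ m → Disjoint (q n).2 (q m).1 := by
  let St := {G : ℕ → Set (Set I × Set I) // ∀ n, Large (G n) ∧ G n ⊆ F n}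
  have h1 : ∀ (k : ℕ) (G : St), ∃ p ∈ G.1 k, ∃ G' : St, ∀ n, ∀ q ∈ G'.1 n,
      q ∈ G.1 n ∧ Disjoint q.1 p.2 ∧ Disjoint q.2 p.1 := by
    intro k G
    obtain ⟨p, hp, h2⟩ := shrink (G.2 k).1
      (fun q hq => (hc k q ((G.2 k).2 hq)).1.mono (hc k q ((G.2 k).2 hq)).2) G.1
      (fun n => (G.2 n).1) fun n q hq => (hc n q ((G.2 n).2 hq)).1
    exact ⟨p, hp, ⟨fun n => _, fun n => ⟨(h2 n).avoid (ctble_le (hc k p ((G.2 k).2 hp)).1),
      fun q hq => (G.2 n).2 hq.1.1⟩⟩, fun n q hq => ⟨hq.1.1, hq.1.2, hq.2⟩⟩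
  choose p hp nx hnx using h1
  let G : ℕ → St := fun k => Nat.rec ⟨F, fun n => ⟨hF n, Subset.rfl⟩⟩ nx k
  have hG : ∀ k, G (k + 1) = nx k (G k) := fun _ => rfl
  have h2 : ∀ k l, k ≤ l → ∀ n, (G l).1 n ⊆ (G k).1 n := by
    intro k l h n
    induction h with
    | refl => exact Subset.rfl
    | step _ ih => exact fun q hq => ih (hnx _ _ n q hq).1
  have h3 : ∀ k l, k < l → Disjoint (p l (G l)).1 (p k (G k)).2 ∧
      Disjoint (p l (G l)).2 (p k (G k)).1 := fun k l h =>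
    (hnx k (G k) l _ (h2 (k + 1) l h l (hp l (G l)))).2
  refine ⟨fun k => p k (G k), fun n => ((G n).2 n).2 (hp n (G n)), fun n m h => ?_⟩
  rcases lt_or_gt_of_ne h with h | h
  · exact (h3 n m h).1.symm
  · exact (h3 m n h).2

/-- levels -/
abbrev L : Type := (ℵ₁ : Cardinal.{0}).ord.ToType

inductive P : Type
  | base : P
  | mk (l : L) (t : Set (Set ℕ)) (a : ℕ → P) : P

lemma bdd (α : ℕ → L) : ∃ β, ∀ n, α n < β := by
  obtain ⟨β, h⟩ := (LadA.reg_toType isRegular_aleph_one).bdd (A := range α)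
    ((le_aleph0_iff_set_countable.2 (countable_range α)).trans_lt aleph0_lt_aleph_one)
  exact ⟨β, fun n => h _ ⟨n, rfl⟩⟩

def lev : P → WithBot L
  | .base => ⊥
  | .mk l _ _ => l

def A : P → Set P
  | .base => {.base}
  | .mk l t a => insert (.mk l t a) {y | y ∈ range a ∧ (l : WithBot L) < lev y}

lemma self_mem (x : P) : x ∈ A x := by cases x <;> simp [A]

lemma lev_lt {x y : P} (h : x ∈ A y) (h1 : x ≠ y) : lev y < lev x := by
  cases y with
  | base => exact absurd h h1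
  | mk l t a => exact (h.resolve_left h1).2

lemma A_countable (x : P) : (A x).Countable := by
  cases x with
  | base => exact countable_singleton _
  | mk l t a => exact ((countable_range a).mono fun _ h => h.1).insert _

lemma univ_pt (α : L) {a : Set P} (ha : a.Countable) (h : ∀ x ∈ a, (α : WithBot L) < lev x)
    {S : Set P} (hS : #S ≤ continuum.{0}) : ∃ y, y ∉ S ∧ lev y = α ∧ A y = insert y a := by
  obtain ⟨f, hf⟩ := (ha.insert P.base).exists_eq_range (insert_nonempty _ _)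
  have h1 : ∃ t, P.mk α t f ∉ S := by
    by_contra h2
    push Not at h2
    have h3 := (mk_le_of_injective (f := fun t => (⟨P.mk α t f, h2 t⟩ : S))
      fun t t' he => by simpa using he).trans hS
    simp only [mk_set, mk_nat, two_power_aleph0] at h3
    exact absurd h3 (not_le.2 (cantor _))
  obtain ⟨t, ht⟩ := h1
  refine ⟨_, ht, rfl, ?_⟩
  simp only [A]
  congr 1
  ext y
  rw [← hf]
  refine ⟨fun hy => hy.1.resolve_left fun h2 => ?_, fun hy => ⟨Or.inr hy, h y hy⟩⟩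
  have h3 := hy.2
  rw [h2] at h3
  exact not_lt_bot h3

open Classical in
noncomputable def emb (x : P) (u : Ultrafilter P) : ℝ := if A x ∈ u then 1 else 0

lemma emb_cont (x : P) : Continuous (emb x) := by
  classical
  refine continuous_const.if ?_ continuous_const
  intro u hu
  have : IsClopen {u : Ultrafilter P | A x ∈ u} :=
    ⟨ultrafilter_isClosed_basic _, ultrafilter_isOpen_basic _⟩
  rw [this.frontier_eq] at hu
  exact hu.elim

lemma emb_pure (x y : P) : emb y (pure x) = 1 ↔ x ∈ A y := by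
  unfold emb
  split_ifs with h
  · simpa using h
  · simpa using h

lemma emb_inj : Function.Injective emb := by
  intro x y he
  by_contra h
  have h1 : x ∈ A y := (emb_pure x y).1 (he ▸ (emb_pure x x).2 (self_mem x))
  have h2 : y ∈ A x := (emb_pure y x).1 (he ▸ (emb_pure y y).2 (self_mem y))
  exact lt_asymm (lev_lt h1 h) (lev_lt h2 (Ne.symm h))

noncomputable instance : TopologicalSpace P := TopologicalSpace.induced emb inferInstance

lemma emb_isEmbedding : IsEmbedding emb := ⟨⟨rfl⟩, emb_inj⟩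

lemma isOpen_W (x : P) : IsOpen {y | x ∈ A y} := by
  have h1 : {y | x ∈ A y} = (fun y => emb y (pure x)) ⁻¹' Ioi 0 := by
    ext y
    simp only [mem_preimage, mem_Ioi, emb]
    split_ifs with h
    · simpa using h
    · simpa using h
  rw [h1]
  exact isOpen_Ioi.preimage ((continuous_apply _).comp emb_isEmbedding.continuous)

theorem scattered (S : Set P) (h : S.Nonempty) :
    ∃ x ∈ S, ∃ U : Set P, IsOpen U ∧ U ∩ S = {x} := by
  obtain ⟨x, hx, h1⟩ := (InvImage.wf lev wellFounded_lt).has_min S h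
  refine ⟨x, hx, _, isOpen_W x, eq_singleton_iff_unique_mem.2 ⟨⟨self_mem x, hx⟩, fun y hy => ?_⟩⟩
  by_contra h2
  exact h1 y hy.2 (lev_lt hy.1 (Ne.symm h2))

theorem metaL (S : Set P) (𝒰 : Set (Set S)) (h1 : ∀ U ∈ 𝒰, IsOpen U) (h2 : ⋃₀ 𝒰 = Set.univ) :
    ∃ 𝒱 : Set (Set S), (∀ V ∈ 𝒱, IsOpen V) ∧ ⋃₀ 𝒱 = Set.univ ∧ (∀ V ∈ 𝒱, ∃ U ∈ 𝒰, V ⊆ U) ∧
      ∀ x : S, {V | V ∈ 𝒱 ∧ x ∈ V}.Countable := by
  have h3 : ∀ x : S, ∃ U ∈ 𝒰, x ∈ U := fun x => mem_sUnion.1 (h2 ▸ mem_univ x)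
  choose U hU hx using h3
  let V : S → Set S := fun x => U x ∩ {y | x.1 ∈ A y.1}
  refine ⟨range V, ?_, eq_univ_of_forall fun x => ⟨V x, ⟨x, rfl⟩, hx x, self_mem x.1⟩, ?_,
    fun y => ?_⟩
  · rintro _ ⟨x, rfl⟩
    exact (h1 _ (hU x)).inter ((isOpen_W x.1).preimage continuous_subtype_val)
  · rintro _ ⟨x, rfl⟩
    exact ⟨U x, hU x, inter_subset_left⟩
  · refine (((A_countable y.1).preimage Subtype.val_injective).image V).mono ?_
    rintro _ ⟨⟨x, rfl⟩, h4⟩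
    exact ⟨x, h4.2, rfl⟩

lemma isolate {D : Set P} (hD : DiscreteTopology D) {x : P} (hx : x ∈ D) :
    ∃ Z : Set P, Z.Countable ∧ A x ⊆ Z ∧ ∀ y ∈ D, y ∉ Z → A y ∩ Z ≠ A x := by
  by_contra hn
  push Not at hn
  let St := {Z : Set P // Z.Countable ∧ A x ⊆ Z}
  have h1 : ∀ Z : St, ∃ y ∈ D, y ∉ Z.1 ∧ A y ∩ Z.1 = A x := fun Z => hn Z.1 Z.2.1 Z.2.2
  choose y hyD hyZ hy using h1
  let Z : ℕ → St := fun k => Nat.rec ⟨A x, A_countable x, Subset.rfl⟩
    (fun _ Z => ⟨Z.1 ∪ A (y Z), Z.2.1.union (A_countable _), Z.2.2.trans subset_union_left⟩) k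
  have hZ : ∀ k, (Z (k + 1)).1 = (Z k).1 ∪ A (y (Z k)) := fun _ => rfl
  have h2 : Monotone fun k => (Z k).1 := monotone_nat_of_le_succ fun k => subset_union_left
  have h3 : Tendsto (fun k => y (Z k)) atTop (𝓝 x) := by
    rw [emb_isEmbedding.tendsto_nhds_iff, tendsto_pi_nhds]
    intro u
    refine tendsto_const_nhds.congr' ?_
    by_cases h4 : A x ∈ u
    · refine Eventually.of_forall fun k => ?_
      have h5 : A (y (Z k)) ∈ u := mem_of_superset h4 (hy (Z k) ▸ inter_subset_left)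
      simp [emb, h4, h5]
    · by_cases h5 : ∃ k, A (y (Z k)) ∈ u
      · obtain ⟨k, h5⟩ := h5
        filter_upwards [eventually_gt_atTop k] with j hj
        have h6 : A (y (Z j)) ∉ u := fun h6 => h4 (by
          rw [← hy (Z j)]
          exact inter_mem h6 (mem_of_superset h5 (subset_union_right.trans (h2 hj))))
        simp [emb, h4, h6]
      · push Not at h5
        exact Eventually.of_forall fun k => by simp [emb, h4, h5 k]
  obtain ⟨U, hU, h4⟩ := isOpen_induced_iff.1 (isOpen_discrete ({⟨x, hx⟩} : Set D))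
  have h5 : x ∈ U := by
    have : (⟨x, hx⟩ : D) ∈ Subtype.val ⁻¹' U := h4 ▸ rfl
    exact this
  obtain ⟨k, hk⟩ := (h3.eventually (hU.mem_nhds h5)).exists
  have h6 : (⟨y (Z k), hyD _⟩ : D) ∈ ({⟨x, hx⟩} : Set D) := h4 ▸ hk
  have h7 : y (Z k) = x := congrArg Subtype.val h6
  have h8 := (Z k).2.2 (self_mem x)
  exact hyZ (Z k) (by rw [h7]; exact h8)

theorem not_sigma (D : ℕ → Set P) (h1 : (⋃ n, D n) = Set.univ)
    (h2 : ∀ n, DiscreteTopology (D n)) : False := by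
  classical
  let F : ℕ → L → Set (Set P × Set P) := fun n α => {q | (q.1.Countable ∧ q.2 ⊆ q.1) ∧
    (∀ x ∈ q.2, (α : WithBot L) < lev x) ∧ ∀ y ∈ D n, y ∉ q.1 → A y ∩ q.1 ≠ q.2}
  have h3 : ∀ n, ∃ α : L, ∃ S : Set P, #S ≤ continuum.{0} ∧
      (¬ (∀ β, Large (F n β)) → ∀ q ∈ F n α, ¬ Disjoint q.2 S) := by
    intro n
    by_cases h : ∀ β, Large (F n β)
    · obtain ⟨α, -⟩ := bdd fun _ => Classical.choice (α := L)
        (mk_ne_zero_iff.1 (by simp [(aleph_pos 1).ne']))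
      exact ⟨α, ∅, by simp, fun h4 => absurd h h4⟩
    · unfold Large at h
      push Not at h
      obtain ⟨α, S, hS, h4⟩ := h
      exact ⟨α, S, hS, fun _ => h4⟩
  choose α S hS hα using h3
  obtain ⟨β, hβ⟩ := bdd α
  have hSS : #(⋃ n, S n) ≤ continuum.{0} := iUnion_le (by simp [aleph0_le_continuum]) hS
  let G : ℕ → Set (Set P × Set P) := fun n =>
    if ∀ β, Large (F n β) then {q | q ∈ F n β ∧ Disjoint q.2 (⋃ n, S n)} else {(∅, ∅)}
  have hG : ∀ n, ∀ q ∈ G n, (q.1.Countable ∧ q.2 ⊆ q.1) ∧ (∀ x ∈ q.2, (β : WithBot L) < lev x) ∧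
      Disjoint q.2 (⋃ n, S n) ∧ ((∀ β, Large (F n β)) → q ∈ F n β) := by
    intro n q hq
    simp only [G] at hq
    split_ifs at hq with h
    · exact ⟨hq.1.1, hq.1.2.1, hq.2, fun _ => hq.1⟩
    · rw [mem_singleton_iff.1 hq]
      exact ⟨⟨countable_empty, Subset.rfl⟩, fun _ h => h.elim, by simp, fun h4 => absurd h4 h⟩
  obtain ⟨q, hq, h4⟩ := amalg G (fun n => by
    simp only [G]
    split_ifs with h
    · exact (h β).avoid hSS
    · exact fun T _ => ⟨_, rfl, by simp⟩) fun n q hq => (hG n q hq).1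
  have hZ : (⋃ n, (q n).1).Countable := countable_iUnion fun n => (hG n _ (hq n)).1.1
  have ha : ∀ x ∈ ⋃ n, (q n).2, (β : WithBot L) < lev x := fun x hx =>
    let ⟨n, hn⟩ := mem_iUnion.1 hx; (hG n _ (hq n)).2.1 x hn
  obtain ⟨y, h5, h6, h7⟩ := univ_pt β (a := ⋃ n, (q n).2)
    (hZ.mono (iUnion_mono fun n => (hG n _ (hq n)).1.2)) ha (union_le (ctble_le hZ) hSS)
  obtain ⟨n, hn⟩ := mem_iUnion.1 (h1 ▸ mem_univ y : y ∈ ⋃ n, D n)
  have h8 : y ∉ (q n).1 := fun h => h5 (Or.inl (mem_iUnion.2 ⟨n, h⟩))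
  have h9 : ¬ ∀ β, Large (F n β) := by
    intro h
    refine ((hG n _ (hq n)).2.2.2 h).2.2 y hn h8 ?_
    rw [h7]
    refine Subset.antisymm ?_ fun x hx => ⟨Or.inr (mem_iUnion.2 ⟨n, hx⟩), (hG n _ (hq n)).1.2 hx⟩
    rintro x ⟨rfl | hx, h10⟩
    · exact absurd h10 h8
    · obtain ⟨m, hm⟩ := mem_iUnion.1 hx
      by_cases h11 : m = n
      · exact h11 ▸ hm
      · exact absurd h10 (disjoint_left.1 (h4 m n h11) hm)
  obtain ⟨Z, h10, h11, h12⟩ := isolate (h2 n) hn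
  have h13 : ((α n : L) : WithBot L) < β := WithBot.coe_lt_coe.2 (hβ n)
  refine hα n h9 (Z, A y) ⟨⟨h10, h11⟩, ?_, h12⟩ ?_
  · rw [h7]
    rintro x (rfl | hx)
    · exact h6 ▸ h13
    · exact h13.trans (ha x hx)
  · rw [h7]
    refine disjoint_left.2 ?_
    rintro x (rfl | hx) h14
    · exact h5 (Or.inr (mem_iUnion.2 ⟨n, h14⟩))
    · obtain ⟨m, hm⟩ := mem_iUnion.1 hx
      exact disjoint_left.1 (hG m _ (hq m)).2.2.1 hm (mem_iUnion.2 ⟨n, h14⟩)

end Pool.Agent.H82.ScEG
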