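import Mathlib

set_option autoImplicit false

/-! Closing-off arguments for scattered subspaces of `C_p(K)`: the chain argument. -/

namespace Pool.Agent.H82.ScEG2

open Set Cardinal Filter Topology Sum

section hull
variable {E : Type}

def Cl (g : List E → Set E) (M : Set E) : Prop := ∀ l : List E, (∀ e ∈ l, e ∈ M) → g l ⊆ M

lemma cl_dir {g : List E → Set E} {ι : Type} [Nonempty ι] {N : ι → Set E}
    (hd : Directed (· ⊆ ·) N) (h : ∀ l : List E, ∀ i, (∀ e ∈ l, e ∈ N i) → g l ⊆ ⋃ i, N i) :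
    Cl g (⋃ i, N i) := by
  intro l hl
  have h1 : ∃ i, ∀ e ∈ l, e ∈ N i := by
    induction l with
    | nil => exact ⟨Classical.arbitrary ι, fun _ h => by simp at h⟩
    | cons a l ih =>
      obtain ⟨i, hi⟩ := ih fun e he => hl e (List.mem_cons_of_mem _ he)
      obtain ⟨j, hj⟩ := mem_iUnion.1 (hl a List.mem_cons_self)
      obtain ⟨k, h2, h3⟩ := hd i j
      refine ⟨k, fun e he => ?_⟩
      rcases List.mem_cons.1 he with rfl | he
      · exact h3 hj
      · exact h2 (hi e he)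
  obtain ⟨i, hi⟩ := h1
  exact h l i hi

lemma hull (g : List E → Set E) (hg : ∀ l, (g l).Countable) (S : Set E) :
    ∃ M, S ⊆ M ∧ Cl g M ∧ ∀ c : Cardinal.{0}, ℵ₀ ≤ c → #S ≤ c → #M ≤ c := by
  let st : Set E → Set E := fun T => T ∪ ⋃ l : List T, g (l.map Subtype.val)
  let N : ℕ → Set E := fun n => st^[n] S
  have hN : ∀ n, N (n + 1) = st (N n) := fun n => Function.iterate_succ_apply' _ _ _
  have hm : Monotone N := monotone_nat_of_le_succ fun n => by rw [hN]; exact subset_union_left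
  refine ⟨⋃ n, N n, subset_iUnion N 0, cl_dir hm.directed_le fun l n hl => ?_, fun c hc hS => ?_⟩
  · refine Subset.trans ?_ (subset_iUnion N (n + 1))
    rw [hN]
    refine Subset.trans ?_ subset_union_right
    refine subset_iUnion_of_subset (l.attach.map fun e => ⟨e.1, hl e.1 e.2⟩) ?_
    simp [List.map_map, Function.comp_def]
  · have h1 : ∀ n, #(N n) ≤ c := by
      intro n
      induction n with
      | zero => exact hS
      | succ n ih =>
        rw [hN]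
        refine (mk_union_le _ _).trans ((add_le_add ih ((mk_iUnion_le _).trans
          (mul_le_mul' (b := c) (d := c) ((mk_list_le_max _).trans (max_le hc ih))
            (ciSup_le' fun l => (le_aleph0_iff_set_countable.2 (hg _)).trans hc)))).trans ?_)
        rw [mul_eq_self hc, add_eq_self hc]
    refine (mk_iUnion_le _).trans ((mul_le_mul' (b := c) (d := c) (by simpa using hc)
      (ciSup_le' h1)).trans (mul_eq_self hc).le)

end hull

variable {X K : Type}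

/-- `P` holds for all sets closed under a countable-valued operation -/
def Club (P : Set (X ⊕ K) → Prop) : Prop :=
  ∃ g : List (X ⊕ K) → Set (X ⊕ K), (∀ l, (g l).Countable) ∧ ∀ M, Cl g M → P M

lemma Club.mono {P Q : Set (X ⊕ K) → Prop} (h : Club P) (h1 : ∀ M, P M → Q M) : Club Q :=
  let ⟨g, h2, h3⟩ := h; ⟨g, h2, fun M hM => h1 M (h3 M hM)⟩

lemma Club.and {P Q : Set (X ⊕ K) → Prop} (h : Club P) (h' : Club Q) :
    Club fun M => P M ∧ Q M := by
  obtain ⟨g, h1, h2⟩ := h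
  obtain ⟨g', h3, h4⟩ := h'
  exact ⟨fun l => g l ∪ g' l, fun l => (h1 l).union (h3 l), fun M hM =>
    ⟨h2 M fun l hl => subset_union_left.trans (hM l hl),
      h4 M fun l hl => subset_union_right.trans (hM l hl)⟩⟩

lemma club_of (h : List X → List K → Set (X ⊕ K)) (hc : ∀ F a, (h F a).Countable) :
    Club fun M => ∀ F a, (∀ x ∈ F, inl x ∈ M) → (∀ k ∈ a, inr k ∈ M) → h F a ⊆ M := by
  refine ⟨fun l => h (l.filterMap getLeft?) (l.filterMap getRight?), fun l => hc _ _,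
    fun M hM F a hF ha => ?_⟩
  have h1 := hM (F.map inl ++ a.map inr) (by
    intro e he
    rcases List.mem_append.1 he with he | he
    · obtain ⟨x, hx, rfl⟩ := List.mem_map.1 he
      exact hF x hx
    · obtain ⟨x, hx, rfl⟩ := List.mem_map.1 he
      exact ha x hx)
  simpa [List.filterMap_map, Function.comp_def] using h1

lemma club_supp (a : X → Set K) (ha : ∀ x, (a x).Countable) :
    Club fun M : Set (X ⊕ K) => ∀ x, inl x ∈ M → ∀ k ∈ a x, inr k ∈ M :=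
  (club_of (fun F _ => ⋃ x ∈ {x | x ∈ F}, inr '' a x) fun F _ =>
    F.finite_toSet.countable.biUnion fun x _ => (ha x).image _).mono fun _ hM x hx k hk =>
      hM [x] [] (by simpa using hx) (by simp)
        (mem_biUnion (show x ∈ {y | y ∈ [x]} by simp) ⟨k, hk, rfl⟩)

lemma club_approx {Z : Type} [TopologicalSpace Z] [SecondCountableTopology Z]
    (v : List X → List K → X → Z) {r : X → X → Prop} (hr : WellFounded r) :
    Club fun M : Set (X ⊕ K) => ∀ F a, (∀ x ∈ F, inl x ∈ M) → (∀ k ∈ a, inr k ∈ M) →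
      ∀ x, ∀ N ∈ 𝓝 (v F a x), ∃ x', inl x' ∈ M ∧ v F a x' ∈ N ∧ ¬ r x x' := by
  classical
  let w : List X → List K → Set Z → Set X := fun F a B =>
    if h : {x | v F a x ∈ B}.Nonempty then {hr.min _ h} else ∅
  refine (club_of (fun F a => ⋃ B ∈ TopologicalSpace.countableBasis Z, inl '' w F a B)
    fun F a => (TopologicalSpace.countable_countableBasis Z).biUnion fun B _ =>
      Countable.image ?_ _).mono fun M hM F a hF ha x N hN => ?_
  · simp only [w]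
    split_ifs
    · exact countable_singleton _
    · exact countable_empty
  · obtain ⟨B, hB, h1, h2⟩ := (TopologicalSpace.isBasis_countableBasis Z).mem_nhds_iff.1 hN
    have h3 : {x | v F a x ∈ B}.Nonempty := ⟨x, h1⟩
    exact ⟨hr.min _ h3, hM F a hF ha (mem_biUnion hB ⟨_, by simp only [w, dif_pos h3]; rfl, rfl⟩),
      h2 (hr.min_mem _ h3), hr.not_lt_min _ h1⟩

variable (f : X → K → ℝ)

def box (x : X) (a : Set K) (δ : ℝ) : Set X := {w | ∀ k ∈ a, |f w k - f x k| < δ}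

def Sat (B : Set K) (U : Set X) : Prop := ∀ w w', (∀ k ∈ B, f w k = f w' k) → w ∈ U → w' ∈ U

variable {f}

lemma Sat.mono {B B' : Set K} {U : Set X} (h : Sat f B U) (h1 : B ⊆ B') : Sat f B' U :=
  fun w w' h2 => h w w' fun k hk => h2 k (h1 hk)

lemma Sat.inter {B : Set K} {U V : Set X} (h : Sat f B U) (h1 : Sat f B V) : Sat f B (U ∩ V) :=
  fun w w' h2 h3 => ⟨h w w' h2 h3.1, h1 w w' h2 h3.2⟩

lemma sat_box (x : X) (a : Set K) (δ : ℝ) : Sat f a (box f x a δ) :=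
  fun _ _ h h1 k hk => h k hk ▸ h1 k hk

lemma mem_box (x : X) (a : Set K) {δ : ℝ} (h : 0 < δ) : x ∈ box f x a δ := fun _ _ => by
  simpa using h

variable [TopologicalSpace X]

lemma isOpen_box (hf : IsInducing f) (x : X) {a : Set K} (ha : a.Finite) (δ : ℝ) :
    IsOpen (box f x a δ) := by
  have : box f x a δ = ⋂ k ∈ a, {w | |f w k - f x k| < δ} := by ext; simp [box]
  rw [this]
  exact ha.isOpen_biInter fun k _ => isOpen_lt
    ((((continuous_apply k).comp hf.continuous).sub continuous_const).abs) continuous_const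

lemma exists_box (hf : IsInducing f) {x : X} {U : Set X} (hU : U ∈ 𝓝 x) :
    ∃ a : Set K, a.Finite ∧ ∃ δ > 0, box f x a δ ⊆ U := by
  rw [hf.nhds_eq_comap, nhds_pi] at hU
  obtain ⟨V, hV, h1⟩ := hU
  obtain ⟨a, ha, t, ht, h2⟩ := mem_pi.1 hV
  have h3 : ∀ k, ∃ δ > 0, Metric.ball (f x k) δ ⊆ t k := fun k => Metric.mem_nhds_iff.1 (ht k)
  choose δ hδ h4 using h3
  have h5 : ∀ᶠ ε in 𝓝[>] (0 : ℝ), ∀ k ∈ a, ε < δ k := (eventually_all_finite ha).2 fun k _ =>
    nhdsWithin_le_nhds (eventually_lt_nhds (hδ k))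
  obtain ⟨ε, h6, h7⟩ := (h5.and self_mem_nhdsWithin).exists
  exact ⟨a, ha, ε, h7, fun w hw => h1 (h2 fun k hk => h4 k
    (show dist _ _ < _ from (hw k hk).trans (h6 k hk)))⟩

/-- σ-discreteness -/
def SD (Y : Set X) : Prop :=
  ∃ D : ℕ → Set X, Y ⊆ ⋃ n, D n ∧ ∀ n, ∀ x ∈ D n, ∃ U : Set X, IsOpen U ∧ U ∩ D n = {x}

lemma sd_countable {Y : Set X} (h : Y.Countable) : SD Y := by
  rcases Y.eq_empty_or_nonempty with rfl | h1
  · exact ⟨fun _ => ∅, empty_subset _, fun _ _ h => h.elim⟩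
  · obtain ⟨g, rfl⟩ := h.exists_eq_range h1
    refine ⟨fun n => {g n}, ?_, fun n x hx => ⟨Set.univ, isOpen_univ, ?_⟩⟩
    · rintro _ ⟨n, rfl⟩
      exact mem_iUnion.2 ⟨n, rfl⟩
    · rw [univ_inter, mem_singleton_iff.1 hx]

/-- the points having, for the index `n`, a small box with coordinates in `M` -/
def O (f : X → K → ℝ) (small : ℕ → Set X → Prop) (n : ℕ) (M : Set (X ⊕ K)) : Set X :=
  {y | M.Nonempty ∧ ∃ a : Set K, a.Finite ∧ (∀ k ∈ a, inr k ∈ M) ∧ ∃ δ > 0, small n (box f y a δ)}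

theorem chain (hf : IsInducing f) (small : ℕ → Set X → Prop)
    (hmono : ∀ n S T, S ⊆ T → small n T → small n S) (hloc : ∀ n x, ∃ U ∈ 𝓝 x, small n U)
    (hX : ℵ₀ < #X)
    (H : Club fun M : Set (X ⊕ K) => IsClosed (inl ⁻¹' M) ∧ ∀ y, (∀ n, y ∈ O f small n M) →
      ∃ z, inl z ∈ M ∧ ∀ k, inr k ∈ M → f y k = f z k)
    (ih : ∀ Y : Set X, IsClosed Y → #Y < #X → SD Y) : SD (Set.univ : Set X) := by
  classical
  -- small boxes
  have h1 : ∀ x n, ∃ a : Set K, a.Finite ∧ ∃ δ > 0, small n (box f x a δ) := by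
    intro x n
    obtain ⟨U, hU, h1⟩ := hloc n x
    obtain ⟨a, ha, δ, hδ, h2⟩ := exists_box hf hU
    exact ⟨a, ha, δ, hδ, hmono n _ _ h2 h1⟩
  choose sa hsa sδ hsδ hsm using h1
  obtain ⟨g, hg, hG⟩ := H.and (club_supp (fun x => ⋃ n, sa x n)
    fun x => countable_iUnion fun n => (hsa x n).countable)
  -- boxes missing a closed set
  have h2 : ∀ (M : Set (X ⊕ K)) (x : X), ∃ a : Set K, a.Finite ∧ ∃ δ > 0,
      IsClosed (inl ⁻¹' M : Set X) → inl x ∉ M → ∀ w ∈ box f x a δ, inl w ∉ M := by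
    intro M x
    by_cases h : IsClosed (inl ⁻¹' M : Set X) ∧ inl x ∉ M
    · obtain ⟨a, ha, δ, hδ, h2⟩ := exists_box hf (h.1.isOpen_compl.mem_nhds h.2)
      exact ⟨a, ha, δ, hδ, fun _ _ => h2⟩
    · exact ⟨∅, finite_empty, 1, one_pos, fun h2 h3 => absurd ⟨h2, h3⟩ h⟩
  choose ma hma mδ hmδ hm using h2
  have h3 : ∀ (M : Set (X ⊕ K)) (x : X), ∃ N, insert (inl x) M ⊆ N ∧ Cl g N ∧
      (∀ z, inl z ∈ N → ∀ k ∈ ma M z, inr k ∈ N) ∧
      ∀ c : Cardinal.{0}, ℵ₀ ≤ c → #M ≤ c → #N ≤ c := by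
    intro M x
    obtain ⟨g', h3, h4⟩ := club_supp (ma M) fun z => (hma M z).countable
    obtain ⟨N, h5, h6, h7⟩ := hull (fun l => g l ∪ g' l) (fun l => (hg l).union (h3 l))
      (insert (inl x) M)
    exact ⟨N, h5, fun l hl => subset_union_left.trans (h6 l hl),
      h4 N fun l hl => subset_union_right.trans (h6 l hl), fun c hc h8 => h7 c hc
        (mk_insert_le.trans ((add_le_add h8 (one_le_aleph0.trans hc)).trans (add_eq_self hc).le))⟩
  choose Φ hΦ1 hΦ2 hΦ3 hΦ4 using h3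
  let W := (#X).ord.ToType
  obtain ⟨e⟩ : Nonempty (W ≃ X) := Cardinal.eq.1 (mk_ord_toType _)
  let N : W → Set (X ⊕ K) := wellFounded_lt.fix fun ξ ih => Φ (⋃ η : Iio ξ, ih η.1 η.2) (e ξ)
  let M : W → Set (X ⊕ K) := fun ξ => ⋃ η : Iio ξ, N η
  have hN : ∀ ξ, N ξ = Φ (M ξ) (e ξ) := fun ξ => wellFounded_lt.fix_eq _ ξ
  have hNM : ∀ η ξ, η < ξ → N η ⊆ M ξ := fun η ξ h =>
    subset_iUnion (fun η : Iio ξ => N η) ⟨η, h⟩
  have hMN : ∀ ξ, M ξ ⊆ N ξ := fun ξ => hN ξ ▸ (subset_insert _ _).trans (hΦ1 _ _)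
  have hNc : ∀ ξ, Cl g (N ξ) := fun ξ => hN ξ ▸ hΦ2 _ _
  have hMc : ∀ ξ, (M ξ).Nonempty → Cl g (M ξ) := by
    rintro ξ ⟨_, h⟩
    obtain ⟨η, -⟩ := mem_iUnion.1 h
    have : Nonempty (Iio ξ) := ⟨η⟩
    refine cl_dir (Monotone.directed_le fun η η' h => ?_) fun l η hl =>
      (hNc η l hl).trans (hNM _ _ η.2)
    rcases h.eq_or_lt with rfl | h
    · exact Subset.rfl
    · exact (hNM _ _ h).trans (hMN _)
  have hMcl : ∀ ξ, IsClosed (inl ⁻¹' M ξ : Set X) := by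
    intro ξ
    rcases (M ξ).eq_empty_or_nonempty with h | h
    · rw [h]; exact isClosed_empty
    · exact (hG _ (hMc ξ h)).1.1
  have hcard : ∀ ξ, #(N ξ) ≤ max ℵ₀ #(Iio ξ) := by
    intro ξ
    induction ξ using WellFoundedLT.induction with
    | ind ξ ih =>
      rw [hN]
      refine hΦ4 _ _ _ (le_max_left _ _) ((mk_iUnion_le _).trans ((mul_le_mul' (le_max_right ℵ₀ _)
        (ciSup_le' fun η : Iio ξ => (ih η η.2).trans (max_le_max le_rfl
          (mk_le_mk_of_subset (Iio_subset_Iio η.2.le))))).trans (mul_eq_self (le_max_left _ _)).le))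
  have hsd : ∀ ξ, SD (inl ⁻¹' N ξ : Set X) := fun ξ => ih _ (hG _ (hNc ξ)).1.1
    (((mk_preimage_of_injective _ _ inl_injective).trans (hcard ξ)).trans_lt
      (max_lt hX (by simpa [W] using mk_Iio_lt ξ)))
  choose D hD1 hD2 using hsd
  have h4 : ∀ y : X, ∃ ξ, inl y ∈ N ξ ∧ inl y ∉ M ξ := by
    intro y
    obtain ⟨ξ, h4, h5⟩ := wellFounded_lt.has_min {ξ | inl y ∈ N ξ}
      ⟨e.symm y, by
        show inl y ∈ N _
        rw [hN]
        exact hΦ1 _ _ (Or.inl (by rw [e.apply_symm_apply]))⟩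
    exact ⟨ξ, h4, fun h => let ⟨η, h6⟩ := mem_iUnion.1 h; h5 η h6 η.2⟩
  choose b hb1 hb2 using h4
  have hlt : ∀ y ξ, inl y ∈ M ξ → b y < ξ := by
    intro y ξ h
    obtain ⟨η, h5⟩ := mem_iUnion.1 h
    exact (not_lt.1 fun h6 => hb2 y (hNM _ _ h6 h5)).trans_lt η.2
  -- neighbourhoods missing the earlier stage
  have h5 : ∀ y, ∃ U, IsOpen U ∧ y ∈ U ∧ Sat f (inr ⁻¹' N (b y)) U ∧ ∀ w ∈ U, b y ≤ b w := by
    intro y
    refine ⟨_, isOpen_box hf y (hma (M (b y)) y) _, mem_box y _ (hmδ (M (b y)) y),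
      (sat_box _ _ _).mono fun k hk => ?_, fun w hw => not_lt.1 fun h =>
        hm _ _ (hMcl _) (hb2 y) w hw (hNM _ _ h (hb1 w))⟩
    have h5 := hb1 y
    rw [hN] at h5 ⊢
    exact hΦ3 _ _ y h5 k hk
  let T : ℕ → ℕ → Set X := fun n j => Nat.rec {y | y ∉ O f small n (M (b y))}
    (fun _ S => {y | ∃ z ∈ S, inl z ∈ M (b y) ∧ ∀ k, inr k ∈ M (b y) → f y k = f z k}) j
  have h6 : ∀ y, ∃ n j, y ∈ T n j := by
    intro y
    induction y using (InvImage.wf b wellFounded_lt).induction with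
    | _ y ih =>
      by_cases h : ∀ n, y ∈ O f small n (M (b y))
      · obtain ⟨z, h6, h7⟩ := (hG _ (hMc _ (h 0).1)).1.2 y h
        obtain ⟨n, j, h8⟩ := ih z (hlt z _ h6)
        exact ⟨n, j + 1, z, h8, h6, h7⟩
      · push Not at h
        obtain ⟨n, h⟩ := h
        exact ⟨n, 0, h⟩
  have h7 : ∀ n j, ∀ y ∈ T n j, ∃ U, IsOpen U ∧ y ∈ U ∧ Sat f (inr ⁻¹' N (b y)) U ∧
      ∀ w ∈ U, w ∈ T n j → b w ≤ b y := by
    intro n j
    induction j with
    | zero =>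
      intro y _
      have h7 : ∀ k ∈ sa y n, inr k ∈ N (b y) := fun k hk =>
        (hG _ (hNc _)).2 y (hb1 y) k (mem_iUnion.2 ⟨n, hk⟩)
      refine ⟨_, isOpen_box hf y (hsa y n) _, mem_box y _ (half_pos (hsδ y n)),
        (sat_box _ _ _).mono h7, fun w hw h8 => not_lt.1 fun h => h8 ⟨⟨_, hNM _ _ h (hb1 y)⟩,
          sa y n, hsa y n, fun k hk => hNM _ _ h (h7 k hk), _, half_pos (hsδ y n),
          hmono n _ (box f y (sa y n) (sδ y n)) (fun u hu k hk => ?_) (hsm y n)⟩⟩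
      have := abs_sub_le (f u k) (f w k) (f y k)
      linarith [hu k hk, hw k hk]
    | succ j ih =>
      rintro y ⟨z, h7, h8, h9⟩
      obtain ⟨U, hU, h10, h11, h12⟩ := ih z h7
      obtain ⟨V, hV, h13, h14, h15⟩ := h5 y
      have h16 := hNM _ _ (hlt z _ h8)
      have h17 : Sat f (inr ⁻¹' N (b y)) (U ∩ V) :=
        (h11.mono fun k hk => hMN _ (h16 hk)).inter h14
      refine ⟨U ∩ V, hU.inter hV, ⟨h11 z y (fun k hk => (h9 k (h16 hk)).symm) h10, h13⟩, h17, ?_⟩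
      rintro w hw ⟨z', h18, -, h19⟩
      refine not_lt.1 fun h => ?_
      have h20 := h17 w z' (fun k hk => h19 k (hNM _ _ h hk)) hw
      exact absurd ((h15 z' h20.2).trans (h12 z' h20.1 h18)) (not_le.2 (hlt z _ h8))
  obtain ⟨p, hp⟩ := exists_surjective_nat (ℕ × ℕ × ℕ)
  refine ⟨fun i => {y | y ∈ T (p i).1 (p i).2.1 ∧ y ∈ D (b y) (p i).2.2}, fun y _ => ?_,
    fun i y hy => ?_⟩
  · obtain ⟨n, j, h8⟩ := h6 y
    obtain ⟨c, h9⟩ := mem_iUnion.1 (hD1 _ (hb1 y))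
    obtain ⟨i, hi⟩ := hp (n, j, c)
    exact mem_iUnion.2 ⟨i, by rw [hi]; exact ⟨h8, h9⟩⟩
  · obtain ⟨U, hU, h8, -, h9⟩ := h7 _ _ y hy.1
    obtain ⟨V, hV, h10, -, h11⟩ := h5 y
    obtain ⟨U', hU', h12⟩ := hD2 _ _ y hy.2
    have h13 : y ∈ U' ∩ D (b y) (p i).2.2 := h12 ▸ rfl
    refine ⟨U ∩ V ∩ U', (hU.inter hV).inter hU', eq_singleton_iff_unique_mem.2
      ⟨⟨⟨⟨h8, h10⟩, h13.1⟩, hy⟩, fun w hw => ?_⟩⟩
    have h14 : b w = b y := le_antisymm (h9 w hw.1.1.1 hw.2.1) (h11 w hw.1.1.2)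
    have h15 : w ∈ U' ∩ D (b y) (p i).2.2 := ⟨hw.1.2, h14 ▸ hw.2.2⟩
    rwa [h12] at h15

end Pool.Agent.H82.ScEG2
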