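import Pool.Agent.H82.ScEG2

set_option autoImplicit false

/-! Lindelöf or Čech-complete scattered subspaces of `C_p(K)` are σ-discrete. -/

namespace Pool.Agent.H82.ScEG2

open Set Cardinal Filter Topology Sum

lemma sd_sub {X : Type} [TopologicalSpace X] {Y : Set X} (h : SD (Set.univ : Set Y)) : SD Y := by
  obtain ⟨D, h1, h2⟩ := h
  refine ⟨fun n => Subtype.val '' D n, fun y hy => ?_, ?_⟩
  · obtain ⟨n, hn⟩ := mem_iUnion.1 (h1 (mem_univ ⟨y, hy⟩))
    exact mem_iUnion.2 ⟨n, _, hn, rfl⟩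
  · rintro n _ ⟨y, hy, rfl⟩
    obtain ⟨_, ⟨U, hU, rfl⟩, h3⟩ := h2 n y hy
    have h4 : y ∈ Subtype.val ⁻¹' U ∩ D n := h3 ▸ rfl
    refine ⟨U, hU, eq_singleton_iff_unique_mem.2 ⟨⟨h4.1, y, hy, rfl⟩, ?_⟩⟩
    rintro _ ⟨h5, z, hz, rfl⟩
    have h6 : z ∈ Subtype.val ⁻¹' U ∩ D n := ⟨h5, hz⟩
    rw [h3] at h6
    exact congrArg Subtype.val h6

theorem outer (Q : ∀ (X : Type) [TopologicalSpace X], Prop)
    (her : ∀ (X : Type) [TopologicalSpace X], Q X → ∀ Y : Set X, IsClosed Y → Q Y)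
    (step : ∀ (X : Type) [TopologicalSpace X], Q X → ℵ₀ < #X →
      (∀ Y : Set X, IsClosed Y → #Y < #X → SD Y) → SD (Set.univ : Set X))
    (X : Type) [TopologicalSpace X] (h : Q X) : SD (Set.univ : Set X) := by
  have h1 : ∀ c : Cardinal.{0}, ∀ (X : Type) [TopologicalSpace X], #X = c → Q X →
      SD (Set.univ : Set X) := by
    intro c
    induction c using WellFoundedLT.induction with
    | ind c ih =>
      intro X _ hc h
      rcases le_or_gt #X ℵ₀ with h1 | h1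
      · exact sd_countable (countable_univ_iff.2 (mk_le_aleph0_iff.1 h1))
      · exact step X h h1 fun Y hY h2 => sd_sub (ih _ (hc ▸ h2) Y rfl (her X h Y hY))
  exact h1 _ X rfl h

def Scat (X : Type) [TopologicalSpace X] : Prop :=
  ∀ S : Set X, S.Nonempty → ∃ x ∈ S, ∃ U : Set X, IsOpen U ∧ U ∩ S = {x}

variable {X K : Type} [TopologicalSpace X]

lemma Scat.sub (h : Scat X) (Y : Set X) : Scat Y := by
  intro S hS
  obtain ⟨_, ⟨x, hx, rfl⟩, U, hU, h1⟩ := h _ (hS.image Subtype.val)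
  have h2 : x.1 ∈ U ∩ Subtype.val '' S := h1 ▸ rfl
  refine ⟨x, hx, _, hU.preimage continuous_subtype_val,
    eq_singleton_iff_unique_mem.2 ⟨⟨h2.1, hx⟩, fun y hy => Subtype.ext ?_⟩⟩
  have h3 : y.1 ∈ U ∩ Subtype.val '' S := ⟨hy.1, y, hy.2, rfl⟩
  rwa [h1] at h3

inductive Rk : Ordinal.{0} → X → Prop
  | mk (α : Ordinal.{0}) (x : X) (U : Set X) (hU : U ∈ 𝓝 x) (β : X → Ordinal.{0})
    (h : ∀ y ∈ U, y ≠ x → β y < α) (ih : ∀ y ∈ U, y ≠ x → Rk (β y) y) : Rk α x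

lemma Scat.rank (h : Scat X) :
    ∃ rk : X → Ordinal.{0}, ∀ x, ∃ U ∈ 𝓝 x, ∀ y ∈ U, y ≠ x → rk y < rk x := by
  have h1 : ∀ x : X, ∃ α, Rk α x := by
    by_contra hn
    push Not at hn
    obtain ⟨x, hx, U, hU, h1⟩ := h {x | ∀ α, ¬ Rk α x} hn
    have h2 : ∀ y, ∃ β, y ∈ U → y ≠ x → Rk β y := by
      intro y
      by_contra h2
      push Not at h2
      have h3 : y ∈ U ∩ {x | ∀ α, ¬ Rk α x} := ⟨(h2 0).1, fun α => (h2 α).2.2⟩
      rw [h1] at h3
      exact (h2 0).2.1 h3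
    choose β hβ using h2
    have h3 : x ∈ U ∩ {x | ∀ α, ¬ Rk α x} := h1 ▸ rfl
    exact hx _ (Rk.mk (⨆ y, Order.succ (β y)) x U (hU.mem_nhds h3.1) β
      (fun y _ _ => (Order.lt_succ _).trans_le (Ordinal.le_iSup (fun y => Order.succ (β y)) y)) hβ)
  refine ⟨fun x => sInf {α | Rk α x}, fun x => ?_⟩
  have h2 : Rk (sInf {α | Rk α x}) x := csInf_mem (h1 x)
  simp only
  generalize sInf {α | Rk α x} = γ at h2
  obtain ⟨_, _, U, hU, β, h3, h4⟩ := h2
  exact ⟨U, hU, fun y hy h5 => (csInf_le' (s := {α | Rk α y}) (h4 y hy h5)).trans_lt (h3 y hy h5)⟩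

/-- closed boxes given by finitely many coordinates -/
def cbox (f : X → K → ℝ) (m l : X → ℕ) (κ : X → ℕ → K) (x : X) : Set X :=
  {w | ∀ i < m x, |f w (κ x i) - f x (κ x i)| ≤ 1 / ((l x : ℝ) + 1)}

variable {f : X → K → ℝ}

lemma Scat.cbox [Nonempty K] (h : Scat X) (hf : IsInducing f) :
    ∃ (m l : X → ℕ) (κ : X → ℕ → K), WellFounded fun w x => w ∈ cbox f m l κ x ∧ w ≠ x := by
  obtain ⟨rk, h1⟩ := h.rank
  have h2 : ∀ x, ∃ m l : ℕ, ∃ κ : ℕ → K, ∀ w, (∀ i < m, |f w (κ i) - f x (κ i)| ≤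
      1 / ((l : ℝ) + 1)) → w ≠ x → rk w < rk x := by
    intro x
    obtain ⟨U, hU, h2⟩ := h1 x
    obtain ⟨a, ha, δ, hδ, h3⟩ := exists_box hf hU
    obtain ⟨l, hl⟩ := exists_nat_one_div_lt hδ
    refine ⟨ha.toFinset.toList.length, l, fun i => ha.toFinset.toList.getD i (Classical.arbitrary K),
      fun w hw => h2 w (h3 fun k hk => ?_)⟩
    obtain ⟨i, hi, rfl⟩ := List.getElem_of_mem (Finset.mem_toList.2 (ha.mem_toFinset.2 hk))
    have h4 := hw i hi
    simp only [List.getD_eq_getElem _ _ hi] at h4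
    exact h4.trans_lt hl
  choose m l κ h2 using h2
  exact ⟨m, l, κ, Subrelation.wf (fun {w x} h => h2 x w h.1 h.2) (InvImage.wf rk wellFounded_lt)⟩

lemma cbox_closed (hf : IsInducing f) (m l : X → ℕ) (κ : X → ℕ → K) (x : X) :
    IsClosed (cbox f m l κ x) := by
  have : cbox f m l κ x = ⋂ i ∈ Iio (m x), {w | |f w (κ x i) - f x (κ x i)| ≤
    1 / ((l x : ℝ) + 1)} := by ext; simp [cbox]
  rw [this]
  exact isClosed_biInter fun k _ => isClosed_le
    ((((continuous_apply _).comp hf.continuous).sub continuous_const).abs) continuous_const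

lemma cbox_nhds (hf : IsInducing f) (m l : X → ℕ) (κ : X → ℕ → K) (x : X) :
    cbox f m l κ x ∈ 𝓝 x :=
  mem_of_superset ((isOpen_box hf x ((finite_Iio (m x)).image (κ x)) _).mem_nhds
    (mem_box x _ Nat.one_div_pos_of_nat)) fun _ hw i hi => (hw _ ⟨i, hi, rfl⟩).le

theorem club_closed [TopologicalSpace K] [CompactSpace K] [Nonempty K] (h : Scat X)
    (hf : IsInducing f) (hc : ∀ x, Continuous (f x)) :
    Club fun M : Set (X ⊕ K) => IsClosed (inl ⁻¹' M : Set X) := by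
  obtain ⟨m, l, κ, hr⟩ := h.cbox hf
  let v : List X → List K → X → ℕ × ℕ × (ℕ → ℝ) × (ℕ → ℕ → ℝ) := fun F _ x =>
    (m x, l x, fun i => f x (κ x i), fun j i => (F[j]?).elim 0 fun y => f y (κ x i))
  refine (club_approx v hr).mono fun M hM => ?_
  rw [← isOpen_compl_iff, isOpen_iff_mem_nhds]
  intro x hx
  let ε : ℝ := 1 / ((l x : ℝ) + 1)
  have hε : 0 < ε := Nat.one_div_pos_of_nat
  let C : {F : Finset X // ∀ y ∈ F, inl y ∈ M} × Ioi (0 : ℝ) → Set (ℕ → K) := fun p =>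
    {c | (∀ y ∈ p.1.1, ∀ i < m x, |f y (c i) - f y (κ x i)| ≤ p.2.1) ∧
      ∃ i < m x, ε / 2 ≤ |f x (c i) - f x (κ x i)|}
  have h1 : ∀ p, IsClosed (C p) := by
    intro p
    have : C p = (⋂ y ∈ p.1.1, ⋂ i ∈ Iio (m x), {c | |f y (c i) - f y (κ x i)| ≤ p.2.1}) ∩
      ⋃ i ∈ Iio (m x), {c | ε / 2 ≤ |f x (c i) - f x (κ x i)|} := by ext; simp [C]
    rw [this]
    exact (isClosed_biInter fun y _ => isClosed_biInter fun i _ => isClosed_le
      ((((hc y).comp (continuous_apply i)).sub continuous_const).abs) continuous_const).inter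
      ((finite_Iio _).isClosed_biUnion fun i _ => isClosed_le continuous_const
        ((((hc x).comp (continuous_apply i)).sub continuous_const).abs))
  have h2 : ∀ p, (C p).Nonempty := by
    rintro ⟨⟨F, hF⟩, δ, hδ⟩
    have h2 : ∀ᶠ u in 𝓝 (v F.toList [] x), (u.1 = m x ∧ u.2.1 = l x) ∧
        (∀ i ∈ Iio (m x), |u.2.2.1 i - f x (κ x i)| < ε / 2) ∧
        ∀ j ∈ Iio F.toList.length, ∀ i ∈ Iio (m x),
          |u.2.2.2 j i - (v F.toList [] x).2.2.2 j i| < δ := by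
      refine (Eventually.and ?_ ?_).and (Eventually.and ?_ ?_)
      · exact (continuous_fst.isOpen_preimage {m x} (isOpen_discrete _)).mem_nhds rfl
      · exact (continuous_snd.fst.isOpen_preimage {l x} (isOpen_discrete _)).mem_nhds rfl
      · refine (eventually_all_finite (finite_Iio _)).2 fun i _ =>
          (isOpen_lt (by fun_prop) continuous_const).mem_nhds ?_
        simpa [v] using hε
      · refine (eventually_all_finite (finite_Iio _)).2 fun j _ =>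
          (eventually_all_finite (finite_Iio _)).2 fun i _ =>
          (isOpen_lt (by fun_prop) continuous_const).mem_nhds ?_
        simpa using hδ
    obtain ⟨x', h3, ⟨⟨h4, h5⟩, h6, h7⟩, h8⟩ := hM F.toList []
      (fun y hy => hF y (Finset.mem_toList.1 hy)) (by simp) x _ h2
    refine ⟨κ x', fun y hy i hi => ?_, ?_⟩
    · obtain ⟨j, hj, rfl⟩ := List.getElem_of_mem (Finset.mem_toList.2 hy)
      have h9 := h7 j hj i hi
      simp only [v, List.getElem?_eq_getElem hj, Option.elim] at h9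
      exact h9.le
    · have h9 : x ∉ cbox f m l κ x' := fun h9 => h8 ⟨h9, fun h10 => hx (h10 ▸ h3)⟩
      simp only [cbox, Set.mem_ofPred_eq, not_forall, not_le] at h9
      obtain ⟨i, hi, h9⟩ := h9
      simp only [v] at h4 h5 h6
      rw [h4] at hi
      rw [h5] at h9
      have h10 := abs_sub_le (f x (κ x' i)) (f x (κ x i)) (f x' (κ x' i))
      have h11 := h6 i hi
      rw [abs_sub_comm] at h11
      exact ⟨i, hi, by linarith⟩
  have h3 : Directed (· ⊇ ·) C := by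
    classical
    rintro ⟨⟨F, hF⟩, δ, hδ⟩ ⟨⟨F', hF'⟩, δ', hδ'⟩
    exact ⟨⟨⟨F ∪ F', fun y hy => (Finset.mem_union.1 hy).elim (hF y) (hF' y)⟩, min δ δ',
      mem_Ioi.2 (lt_min hδ hδ')⟩,
      fun c hc => ⟨fun y hy i hi => (hc.1 y (Finset.mem_union_left _ hy) i hi).trans
        (min_le_left _ _), hc.2⟩,
      fun c hc => ⟨fun y hy i hi => (hc.1 y (Finset.mem_union_right _ hy) i hi).trans
        (min_le_right _ _), hc.2⟩⟩
  have : Nonempty ({F : Finset X // ∀ y ∈ F, inl y ∈ M} × Ioi (0 : ℝ)) :=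
    ⟨⟨⟨∅, by simp⟩, 1, mem_Ioi.2 one_pos⟩⟩
  obtain ⟨c, h4⟩ := IsCompact.nonempty_iInter_of_directed_nonempty_isCompact_isClosed C h3 h2
    (fun p => (h1 p).isCompact) h1
  obtain ⟨i, hi, h5⟩ := (mem_iInter.1 h4 (Classical.arbitrary _)).2
  have h6 : IsOpen {w | 0 < |f w (c i) - f w (κ x i)|} := isOpen_lt continuous_const
    ((((continuous_apply _).comp hf.continuous).sub ((continuous_apply _).comp hf.continuous)).abs)
  refine mem_of_superset (h6.mem_nhds ((half_pos hε).trans_le h5)) fun w hw h7 => ?_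
  have h8 := (mem_iInter.1 h4 ⟨⟨{w}, by simpa using h7⟩, _, mem_Ioi.2 (half_pos hw)⟩).1 w
    (Finset.mem_singleton_self w) i hi
  exact absurd h8 (not_le.2 (half_lt_self hw))

theorem club_lindelof [LindelofSpace X] [Nonempty K] (h : Scat X) (hf : IsInducing f) :
    Club fun M : Set (X ⊕ K) => ∀ y, ∃ z, inl z ∈ M ∧ ∀ k, inr k ∈ M → f y k = f z k := by
  obtain ⟨m, l, κ, hr⟩ := h.cbox hf
  have h1 : ∀ V : Set X, ∃ T : Set X, T.Countable ∧ (IsClosed V →
      ∀ y ∈ V, ∃ t ∈ T, t ∈ V ∧ y ∈ cbox f m l κ t) := by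
    intro V
    by_cases hV : IsClosed V
    · obtain ⟨T, h1, h2, h3⟩ := hV.isLindelof.elim_nhds_subcover _
        fun x _ => cbox_nhds hf m l κ x
      exact ⟨T, h1, fun _ y hy => let ⟨t, ht, h4⟩ := mem_iUnion₂.1 (h3 hy); ⟨t, ht, h2 t ht, h4⟩⟩
    · exact ⟨∅, countable_empty, fun h => absurd h hV⟩
  choose T hT1 hT2 using h1
  let V : X → K → ℚ × ℚ → Set X := fun z k q => cbox f m l κ z ∩ {w | |f w k - q.1| ≤ q.2}
  refine (club_of (fun F a => inl '' (T Set.univ ∪ ⋃ z ∈ {z | z ∈ F}, ⋃ k ∈ {k | k ∈ a},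
    ⋃ q, T (V z k q))) fun F a => Countable.image ((hT1 _).union
      (F.finite_toSet.countable.biUnion fun z _ => a.finite_toSet.countable.biUnion fun k _ =>
        countable_iUnion fun q => hT1 _)) _).mono fun M hM y => ?_
  obtain ⟨z, ⟨h1, h2⟩, h3⟩ := hr.has_min {z | inl z ∈ M ∧ y ∈ cbox f m l κ z} (by
    obtain ⟨t, h1, -, h2⟩ := hT2 _ isClosed_univ y (mem_univ y)
    exact ⟨t, hM [] [] (by simp) (by simp) ⟨t, Or.inl h1, rfl⟩, h2⟩)
  refine ⟨z, h1, fun k hk => ?_⟩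
  by_contra h4
  have h5 : 0 < |f y k - f z k| := abs_pos.2 (sub_ne_zero.2 h4)
  obtain ⟨ρ, h6, h7⟩ := exists_rat_btwn (half_pos h5)
  obtain ⟨q, h8, h9⟩ := exists_rat_btwn (show f y k - ρ < f y k by linarith)
  have h15 : |f y k - q| ≤ ρ := abs_le.2 ⟨by linarith, by linarith⟩
  obtain ⟨t, h10, h11, h12⟩ := hT2 (V z k (q, ρ)) ((cbox_closed hf m l κ z).inter (isClosed_le
    ((((continuous_apply _).comp hf.continuous).sub continuous_const).abs) continuous_const)) y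
    ⟨h2, h15⟩
  refine h3 t ⟨hM [z] [k] (by simpa using h1) (by simpa using hk) ⟨t, Or.inr ?_, rfl⟩, h12⟩
    ⟨h11.1, ?_⟩
  · simp only [mem_iUnion]
    exact ⟨z, by simp, k, by simp, (q, ρ), h10⟩
  · rintro rfl
    have h13 : |f t k - q| ≤ ρ := h11.2
    have h14 := abs_sub_le (f y k) q (f t k)
    rw [abs_sub_comm] at h13
    linarith

theorem club_complete (hf : IsInducing f) (small : ℕ → Set X → Prop)
    (hmono : ∀ n S T, S ⊆ T → small n T → small n S)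
    (hc : ∀ F : Filter X, F.NeBot → (∀ n, ∃ S ∈ F, small n S) → ∃ x, ClusterPt x F) :
    Club fun M : Set (X ⊕ K) => IsClosed (inl ⁻¹' M : Set X) → ∀ y, (∀ n, y ∈ O f small n M) →
      ∃ z, inl z ∈ M ∧ ∀ k, inr k ∈ M → f y k = f z k := by
  let v : List X → List K → X → ℕ → ℝ := fun _ a x j => (a[j]?).elim 0 (f x)
  refine (club_approx v (r := fun _ _ => False) ⟨fun x => ⟨x, fun _ h => h.elim⟩⟩).mono
    fun M hM h1 y hy => ?_
  let ι := {a : Set K // a.Finite ∧ ∀ k ∈ a, inr k ∈ M} × Ioi (0 : ℝ)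
  let C : ι → Set X := fun p => box f y p.1.1 p.2.1 ∩ inl ⁻¹' M
  have h2 : ∀ p, (C p).Nonempty := by
    rintro ⟨⟨a, ha, h2⟩, δ, hδ⟩
    have h3 : ∀ᶠ u in 𝓝 (v [] ha.toFinset.toList y), ∀ j ∈ Iio ha.toFinset.toList.length,
        |u j - v [] ha.toFinset.toList y j| < δ :=
      (eventually_all_finite (finite_Iio _)).2 fun j _ =>
        (isOpen_lt (by fun_prop) continuous_const).mem_nhds (by simpa using hδ)
    obtain ⟨w, h4, h5, -⟩ := hM [] ha.toFinset.toList (by simp)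
      (fun k hk => h2 k (ha.mem_toFinset.1 (Finset.mem_toList.1 hk))) y _ h3
    refine ⟨w, fun k hk => ?_, h4⟩
    obtain ⟨j, hj, rfl⟩ := List.getElem_of_mem (Finset.mem_toList.2 (ha.mem_toFinset.2 hk))
    have h6 := h5 j hj
    simpa only [v, List.getElem?_eq_getElem hj, Option.elim] using h6
  have h3 : Directed (· ≥ ·) fun p => 𝓟 (C p) := by
    rintro ⟨⟨a, ha, h3⟩, δ, hδ⟩ ⟨⟨a', ha', h4⟩, δ', hδ'⟩
    exact ⟨⟨⟨a ∪ a', ha.union ha', fun k hk => hk.elim (h3 k) (h4 k)⟩, min δ δ',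
        mem_Ioi.2 (lt_min hδ hδ')⟩,
      principal_mono.2 fun w hw => ⟨fun k hk => (hw.1 k (Or.inl hk)).trans_le (min_le_left _ _),
        hw.2⟩,
      principal_mono.2 fun w hw => ⟨fun k hk => (hw.1 k (Or.inr hk)).trans_le (min_le_right _ _),
        hw.2⟩⟩
  have : Nonempty ι := ⟨⟨⟨∅, finite_empty, by simp⟩, 1, mem_Ioi.2 one_pos⟩⟩
  have h4 : ∀ p, C p ∈ ⨅ p, 𝓟 (C p) := fun p => mem_iInf_of_mem p (mem_principal_self _)
  obtain ⟨z, hz⟩ := hc _ (iInf_neBot_of_directed' h3 fun p => principal_neBot_iff.2 (h2 p))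
    fun n => by
      obtain ⟨-, a, ha, h5, δ, hδ, h6⟩ := hy n
      exact ⟨_, h4 ⟨⟨a, ha, h5⟩, δ, hδ⟩, hmono n _ _ inter_subset_left h6⟩
  have h5 : ∀ p, z ∈ closure (C p) := fun p =>
    mem_closure_iff_clusterPt.2 (hz.mono (le_principal_iff.2 (h4 p)))
  refine ⟨z, closure_minimal inter_subset_right h1 (h5 (Classical.arbitrary _)), fun k hk => ?_⟩
  by_contra h6
  have h7 : 0 < |f z k - f y k| := abs_pos.2 (sub_ne_zero.2 (Ne.symm h6))
  have h8 := closure_minimal (t := {w | |f w k - f y k| ≤ |f z k - f y k| / 2})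
    (fun w hw => (hw.1 k rfl).le) (isClosed_le
      ((((continuous_apply _).comp hf.continuous).sub continuous_const).abs) continuous_const)
    (h5 ⟨⟨{k}, finite_singleton k, by simpa using hk⟩, _, mem_Ioi.2 (half_pos h7)⟩)
  exact absurd h8 (not_le.2 (half_lt_self h7))

lemma nonempty_K (hf : IsEmbedding f) (h : ℵ₀ < #X) : Nonempty K := by
  by_contra h1
  rw [not_nonempty_iff] at h1
  have h2 := mk_le_of_injective hf.injective
  exact absurd (h2.trans (mk_le_aleph0 (α := K → ℝ))) (not_le.2 h)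

theorem lindelof (K : Type) [TopologicalSpace K] [CompactSpace K] (X : Type) [TopologicalSpace X]
    (h : (∃ f : X → K → ℝ, IsEmbedding f ∧ ∀ x, Continuous (f x)) ∧ LindelofSpace X ∧ Scat X) :
    SD (Set.univ : Set X) := by
  refine outer (fun X _ => (∃ f : X → K → ℝ, IsEmbedding f ∧ ∀ x, Continuous (f x)) ∧
    LindelofSpace X ∧ Scat X) ?_ ?_ X h
  · rintro X _ ⟨⟨f, h1, h2⟩, h3, h4⟩ Y hY
    exact ⟨⟨fun y => f y, h1.comp IsEmbedding.subtypeVal, fun y => h2 y⟩,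
      isLindelof_iff_lindelofSpace.1 hY.isLindelof, h4.sub Y⟩
  · rintro X _ ⟨⟨f, h1, h2⟩, h3, h4⟩ h5 h6
    have := nonempty_K h1 h5
    exact chain h1.isInducing (fun _ _ => True) (fun _ _ _ _ _ => trivial)
      (fun _ _ => ⟨_, univ_mem, trivial⟩) h5 (((club_closed h4 h1.isInducing h2).and
        (club_lindelof h4 h1.isInducing)).mono fun M hM => ⟨hM.1, fun y _ => hM.2 y⟩) h6

/-- a complete sequence of covers -/
def Cpl (X : Type) [TopologicalSpace X] : Prop :=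
  ∃ small : ℕ → Set X → Prop, (∀ n S T, S ⊆ T → small n T → small n S) ∧
    (∀ n x, ∃ U ∈ 𝓝 x, small n U) ∧
    ∀ F : Filter X, F.NeBot → (∀ n, ∃ S ∈ F, small n S) → ∃ x, ClusterPt x F

lemma Cpl.sub (h : Cpl X) {Y : Set X} (hY : IsClosed Y) : Cpl Y := by
  obtain ⟨small, h1, h2, h3⟩ := h
  refine ⟨fun n S => small n (Subtype.val '' S), fun n S T h => h1 n _ _ (image_mono h),
    fun n x => ?_, fun F hF h4 => ?_⟩
  · obtain ⟨U, hU, h4⟩ := h2 n x
    exact ⟨_, continuous_subtype_val.continuousAt hU, h1 n _ _ (image_preimage_subset _ _) h4⟩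
  · obtain ⟨x, hx⟩ := h3 (F.map Subtype.val) inferInstance fun n =>
      let ⟨S, hS, h5⟩ := h4 n; ⟨_, image_mem_map hS, h5⟩
    have h5 : x ∈ Y := hY.closure_subset (mem_closure_iff_clusterPt.2
      (hx.mono (le_principal_iff.2 (mem_map.2 (Eventually.of_forall fun y => y.2)))))
    exact ⟨⟨x, h5⟩, IsInducing.subtypeVal.mapClusterPt_iff.1 hx⟩

lemma cpl_of {Z : Type} [TopologicalSpace Z] [CompactSpace Z] [T2Space Z] {e : X → Z}
    (he : IsEmbedding e) (h : IsGδ (range e)) : Cpl X := by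
  obtain ⟨G, h1, h2⟩ := h.eq_iInter_nat
  refine ⟨fun n S => closure (e '' S) ⊆ G n,
    fun n S T h h3 => (closure_mono (image_mono h)).trans h3, fun n x => ?_, fun F hF h3 => ?_⟩
  · obtain ⟨t, h3, h4, h5⟩ := exists_mem_nhds_isClosed_subset ((h1 n).mem_nhds
      (mem_iInter.1 (h2 ▸ mem_range_self x : e x ∈ ⋂ n, G n) n))
    exact ⟨_, he.continuous.continuousAt h3,
      (closure_minimal (image_preimage_subset _ _) h4).trans h5⟩
  · obtain ⟨p, hp⟩ := exists_clusterPt_of_compactSpace (F.map e)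
    obtain ⟨x, rfl⟩ : p ∈ range e := by
      rw [h2]
      refine mem_iInter.2 fun n => ?_
      obtain ⟨S, hS, h4⟩ := h3 n
      exact h4 (mem_closure_iff_clusterPt.2 (hp.mono (le_principal_iff.2 (image_mem_map hS))))
    exact ⟨x, he.isInducing.mapClusterPt_iff.1 hp⟩

theorem cech (K : Type) [TopologicalSpace K] [CompactSpace K] (X : Type) [TopologicalSpace X]
    (h : (∃ f : X → K → ℝ, IsEmbedding f ∧ ∀ x, Continuous (f x)) ∧ Cpl X ∧ Scat X) :
    SD (Set.univ : Set X) := by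
  refine outer (fun X _ => (∃ f : X → K → ℝ, IsEmbedding f ∧ ∀ x, Continuous (f x)) ∧
    Cpl X ∧ Scat X) ?_ ?_ X h
  · rintro X _ ⟨⟨f, h1, h2⟩, h3, h4⟩ Y hY
    exact ⟨⟨fun y => f y, h1.comp IsEmbedding.subtypeVal, fun y => h2 y⟩, h3.sub hY, h4.sub Y⟩
  · rintro X _ ⟨⟨f, h1, h2⟩, ⟨small, h7, h8, h9⟩, h4⟩ h5 h6
    have := nonempty_K h1 h5
    exact chain h1.isInducing small h7 h8 h5 (((club_closed h4 h1.isInducing h2).and
        (club_complete h1.isInducing small h7 h9)).mono fun M hM => ⟨hM.1, hM.2 hM.1⟩) h6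

end Pool.Agent.H82.ScEG2
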