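import Pool.Agent.H82.ScEG3

set_option autoImplicit false

/-! Compact subspaces of `C_p(L)`, `L` Lindelöf scattered: retractions and covers of `C_p(K)` by
sets of small local diameter. -/

namespace Pool.Agent.H82.ScEG2

open Set Cardinal Filter Topology Sum

variable {K L : Type} [TopologicalSpace K] (f : K → L → ℝ)

def Good (M : Set (K ⊕ L)) : Prop :=
  (∀ k, ∀ a : Set L, a.Finite → (∀ y ∈ a, inr y ∈ M) → ∀ δ > 0, ∃ k' ∈ box f k a δ, inl k' ∈ M) ∧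
    ∀ y, ∃ z, inr z ∈ M ∧ ∀ k, inl k ∈ M → f k y = f k z

def IsR (M : Set (K ⊕ L)) (r : K → K) : Prop :=
  Continuous r ∧ (∀ k, r k ∈ closure (inl ⁻¹' M)) ∧ ∀ k y, inr y ∈ M → f (r k) y = f k y

variable {f}

lemma club_good [TopologicalSpace L] [RegularSpace L] [LindelofSpace L] (h : Scat L)
    (hf : ∀ k, Continuous (f k)) : Club (Good f) := by
  let v : List K → List L → K → ℕ → ℝ := fun _ a x j => (a[j]?).elim 0 (f x)
  refine Club.and ((club_approx v (r := fun _ _ => False) ⟨fun x => ⟨x, fun _ h => h.elim⟩⟩).mono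
    fun M hM y a ha h2 δ hδ => ?_) ?_
  · have h3 : ∀ᶠ u in 𝓝 (v [] ha.toFinset.toList y), ∀ j ∈ Iio ha.toFinset.toList.length,
        |u j - v [] ha.toFinset.toList y j| < δ :=
      (eventually_all_finite (finite_Iio _)).2 fun j _ =>
        (isOpen_lt (by fun_prop) continuous_const).mem_nhds (by simpa using hδ)
    obtain ⟨w, h4, h5, -⟩ := hM [] ha.toFinset.toList (by simp)
      (fun k hk => h2 k (ha.mem_toFinset.1 (Finset.mem_toList.1 hk))) y _ h3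
    refine ⟨w, fun k hk => ?_, h4⟩
    obtain ⟨j, hj, rfl⟩ := List.getElem_of_mem (Finset.mem_toList.2 (ha.mem_toFinset.2 hk))
    have h6 := h5 j hj
    simpa only [v, List.getElem?_eq_getElem hj, Option.elim] using h6
  obtain ⟨rk, hrk⟩ := h.rank
  have h0 : ∀ x : L, ∃ C ∈ 𝓝 x, IsClosed C ∧ ∀ y ∈ C, y ≠ x → rk y < rk x := fun x =>
    let ⟨_, hU, h1⟩ := hrk x
    let ⟨C, h2, h3, h4⟩ := exists_mem_nhds_isClosed_subset hU
    ⟨C, h2, h3, fun y hy => h1 y (h4 hy)⟩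
  choose C hC1 hC2 hC3 using h0
  have h1 : ∀ V : Set L, ∃ T : Set L, T.Countable ∧ (IsClosed V →
      ∀ y ∈ V, ∃ t ∈ T, t ∈ V ∧ y ∈ C t) := by
    intro V
    by_cases hV : IsClosed V
    · obtain ⟨T, h1, h2, h3⟩ := hV.isLindelof.elim_nhds_subcover _ fun x _ => hC1 x
      exact ⟨T, h1, fun _ y hy => let ⟨t, ht, h4⟩ := mem_iUnion₂.1 (h3 hy); ⟨t, ht, h2 t ht, h4⟩⟩
    · exact ⟨∅, countable_empty, fun h => absurd h hV⟩
  choose T hT1 hT2 using h1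
  let V : L → K → ℚ × ℚ → Set L := fun z k q => C z ∩ {w | |f k w - q.1| ≤ q.2}
  refine (club_of (fun a F => inr '' (T Set.univ ∪ ⋃ z ∈ {z | z ∈ F}, ⋃ k ∈ {k | k ∈ a},
    ⋃ q, T (V z k q))) fun a F => Countable.image ((hT1 _).union
      (F.finite_toSet.countable.biUnion fun z _ => a.finite_toSet.countable.biUnion fun k _ =>
        countable_iUnion fun q => hT1 _)) _).mono fun M hM y => ?_
  obtain ⟨z, ⟨h1, h2⟩, h3⟩ := (InvImage.wf rk wellFounded_lt).has_min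
    {z | inr z ∈ M ∧ y ∈ C z} (by
    obtain ⟨t, h1, -, h2⟩ := hT2 _ isClosed_univ y (mem_univ y)
    exact ⟨t, hM [] [] (by simp) (by simp) ⟨t, Or.inl h1, rfl⟩, h2⟩)
  refine ⟨z, h1, fun k hk => ?_⟩
  by_contra h4
  have h5 : 0 < |f k y - f k z| := abs_pos.2 (sub_ne_zero.2 h4)
  obtain ⟨ρ, h6, h7⟩ := exists_rat_btwn (half_pos h5)
  obtain ⟨q, h8, h9⟩ := exists_rat_btwn (show f k y - ρ < f k y by linarith)
  have h15 : |f k y - q| ≤ ρ := abs_le.2 ⟨by linarith, by linarith⟩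
  obtain ⟨t, h10, h11, h12⟩ := hT2 (V z k (q, ρ)) ((hC2 z).inter (isClosed_le
    (((hf k).sub continuous_const).abs) continuous_const)) y ⟨h2, h15⟩
  refine h3 t ⟨hM [k] [z] (by simpa using hk) (by simpa using h1) ⟨t, Or.inr ?_, rfl⟩, h12⟩
    (hC3 z t h11.1 ?_)
  · simp only [mem_iUnion]
    exact ⟨z, by simp, k, by simp, (q, ρ), h10⟩
  · rintro rfl
    have h13 : |f k t - q| ≤ ρ := h11.2
    have h14 := abs_sub_le (f k y) q (f k t)
    rw [abs_sub_comm] at h13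
    linarith

lemma Good.uniq (hf : IsEmbedding f) {M : Set (K ⊕ L)} (h : Good f M) {k k' : K}
    (h1 : k ∈ closure (inl ⁻¹' M)) (h2 : k' ∈ closure (inl ⁻¹' M))
    (h3 : ∀ y, inr y ∈ M → f k y = f k' y) : k = k' := by
  refine hf.injective (funext fun y => ?_)
  obtain ⟨z, h4, h5⟩ := h.2 y
  have h6 : closure (inl ⁻¹' M) ⊆ {k | f k y = f k z} := closure_minimal h5 (isClosed_eq
    ((continuous_apply _).comp hf.continuous) ((continuous_apply _).comp hf.continuous))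
  rw [h6 h1, h6 h2, h3 z h4]

variable [CompactSpace K]

lemma Good.exists_r (hf : IsEmbedding f) {M : Set (K ⊕ L)} (h : Good f M) : ∃ r, IsR f M r := by
  let q : K → (inr ⁻¹' M : Set L) → ℝ := fun k y => f k y
  have hq : Continuous q := continuous_pi fun y => (continuous_apply _).comp hf.continuous
  have h1 : ∀ k, ∃ k' ∈ closure (inl ⁻¹' M), q k' = q k := by
    intro k
    refine ((isClosed_closure.isCompact.image hq).isClosed.closure_subset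
      (mem_closure_iff_nhds.2 fun U hU => ?_) :)
    obtain ⟨a, ha, δ, hδ, h2⟩ := exists_box (f := fun (u : (inr ⁻¹' M : Set L) → ℝ) y => u y)
      IsInducing.id hU
    obtain ⟨k', h3, h4⟩ := h.1 k (Subtype.val '' a) (ha.image _)
      (by rintro _ ⟨y, -, rfl⟩; exact y.2) δ hδ
    exact ⟨q k', h2 fun y hy => h3 _ ⟨y, hy, rfl⟩, k', subset_closure h4, rfl⟩
  choose r h2 h3 using h1
  refine ⟨r, continuous_iff_isClosed.2 fun A hA => ?_, h2, fun k y hy => congrFun (h3 k) ⟨y, hy⟩⟩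
  have h4 : r ⁻¹' A = q ⁻¹' (q '' (A ∩ closure (inl ⁻¹' M))) := by
    ext k
    refine ⟨fun hk => ⟨r k, ⟨hk, h2 k⟩, h3 k⟩, ?_⟩
    rintro ⟨k', h4, h5⟩
    have h6 := h.uniq hf h4.2 (h2 k) fun y hy => congrFun (h5.trans (h3 k).symm) ⟨y, hy⟩
    exact show r k ∈ A from h6 ▸ h4.1
  rw [h4]
  exact ((hA.inter isClosed_closure).isCompact.image hq).isClosed.preimage hq

lemma approx (hf : IsEmbedding f) {M : Set (K ⊕ L)} (h : Good f M) {r : K → K} (hr : IsR f M r)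
    {φ : K → ℝ} (hφ : Continuous φ) {η : ℝ} (hη : 0 < η) :
    ∃ a : Set L, a.Finite ∧ (∀ y ∈ a, inr y ∈ M) ∧ ∀ M' ⊆ M, (∀ y ∈ a, inr y ∈ M') →
      ∀ r', IsR f M' r' → ∀ k, |φ (r k) - φ (r' k)| < η := by
  let C : {a : Set L // a.Finite ∧ ∀ y ∈ a, inr y ∈ M} → Set (K × K) := fun a =>
    {p | (∀ y ∈ a.1, f p.1 y = f p.2 y) ∧ η ≤ |φ (r p.1) - φ (r p.2)|}
  have h1 : ∀ a, IsClosed (C a) := by
    intro a
    have : C a = (⋂ y ∈ a.1, {p | f p.1 y = f p.2 y}) ∩ {p | η ≤ |φ (r p.1) - φ (r p.2)|} := by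
      ext; simp [C]
    rw [this]
    exact (isClosed_biInter fun y _ => isClosed_eq
      (((continuous_apply _).comp hf.continuous).comp continuous_fst)
      (((continuous_apply _).comp hf.continuous).comp continuous_snd)).inter
      (isClosed_le continuous_const ((((hφ.comp hr.1).comp continuous_fst).sub
        ((hφ.comp hr.1).comp continuous_snd)).abs))
  have h2 : ∃ a, ¬ (C a).Nonempty := by
    by_contra h2
    push Not at h2
    have : Nonempty {a : Set L // a.Finite ∧ ∀ y ∈ a, inr y ∈ M} := ⟨⟨∅, finite_empty, by simp⟩⟩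
    obtain ⟨p, hp⟩ := IsCompact.nonempty_iInter_of_directed_nonempty_isCompact_isClosed C
      (fun a a' => ⟨⟨a.1 ∪ a'.1, a.2.1.union a'.2.1, fun y hy => hy.elim (a.2.2 y) (a'.2.2 y)⟩,
        fun p hp => ⟨fun y hy => hp.1 y (Or.inl hy), hp.2⟩,
        fun p hp => ⟨fun y hy => hp.1 y (Or.inr hy), hp.2⟩⟩) h2 (fun a => (h1 a).isCompact) h1
    have h3 : r p.1 = r p.2 := h.uniq hf (hr.2.1 _) (hr.2.1 _) fun y hy => by
      rw [hr.2.2 _ y hy, hr.2.2 _ y hy]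
      exact (mem_iInter.1 hp ⟨{y}, finite_singleton y, by simpa using hy⟩).1 y rfl
    have h4 := (mem_iInter.1 hp (Classical.arbitrary _)).2
    rw [h3, sub_self, abs_zero] at h4
    exact absurd h4 (not_le.2 hη)
  obtain ⟨a, h2⟩ := h2
  refine ⟨a.1, a.2.1, a.2.2, fun M' h3 h4 r' h5 k => ?_⟩
  have h6 : r (r' k) = r' k := h.uniq hf (hr.2.1 _)
    (closure_mono (preimage_mono h3) (h5.2.1 k)) (hr.2.2 _)
  rw [← h6]
  exact not_le.1 fun h7 => h2 ⟨(k, r' k), fun y hy => (h5.2.2 k y (h4 y hy)).symm, h7⟩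

/-- a countable partition into sets of small local diameter -/
def SLD (r : K → K) (ε : ℝ) : Prop :=
  ∃ c : (K → ℝ) → ℕ, ∀ φ, Continuous φ → ∃ W : Set (K → ℝ), IsOpen W ∧ φ ∈ W ∧
    ∀ ψ ∈ W, Continuous ψ → c ψ = c φ → ∀ k, |φ (r k) - ψ (r k)| < ε

lemma sld_countable (hf : IsEmbedding f) {M : Set (K ⊕ L)} (h : Good f M) {r : K → K}
    (hr : IsR f M r) (hM : M.Countable) {ε : ℝ} (hε : 0 < ε) : SLD r ε := by
  let C := closure (inl ⁻¹' M : Set K)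
  have : CompactSpace C := isCompact_iff_compactSpace.1 isClosed_closure.isCompact
  have : Countable (inr ⁻¹' M : Set L) := hM.preimage inr_injective
  let q : C → (inr ⁻¹' M : Set L) → ℝ := fun k y => f k y
  have hq : Continuous q := continuous_pi fun y =>
    ((continuous_apply _).comp hf.continuous).comp continuous_subtype_val
  have : SecondCountableTopology C := (hq.isClosedEmbedding fun k k' he => Subtype.ext
    (h.uniq hf k.2 k'.2 fun y hy => congrFun he ⟨y, hy⟩)).isEmbedding.secondCountableTopology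
  have : T2Space K := hf.t2Space
  obtain ⟨d, hd⟩ := TopologicalSpace.exists_dense_seq C(C, ℝ)
  have h1 : ∀ φ : K → ℝ, ∃ n, Continuous φ → ∀ k : C, |φ k - d n k| < ε / 2 := by
    intro φ
    by_cases hφ : Continuous φ
    · obtain ⟨n, hn⟩ := hd.exists_dist_lt (⟨fun k => φ k, hφ.comp continuous_subtype_val⟩ : C(C, ℝ))
        (half_pos hε)
      exact ⟨n, fun _ k => (ContinuousMap.dist_apply_le_dist k).trans_lt hn⟩
    · exact ⟨0, fun h => absurd h hφ⟩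
  choose c hc using h1
  refine ⟨c, fun φ hφ => ⟨_, isOpen_univ, mem_univ _, fun ψ _ hψ he k => ?_⟩⟩
  have h2 := hc φ hφ ⟨r k, hr.2.1 k⟩
  have h3 := hc ψ hψ ⟨r k, hr.2.1 k⟩
  rw [he, abs_sub_comm] at h3
  have h4 := abs_sub_le (φ (r k)) (d (c φ) ⟨r k, hr.2.1 k⟩) (ψ (r k))
  linarith

lemma pos_inj {W : Type} [LinearOrder W] {J : Set W} (hJ : J.Finite) {ξ ξ' : W} (h : ξ ∈ J)
    (h' : ξ' ∈ J) (he : (J ∩ Iio ξ).ncard = (J ∩ Iio ξ').ncard) : ξ = ξ' := by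
  have h1 : ∀ {a b : W}, a ∈ J → a < b → (J ∩ Iio a).ncard < (J ∩ Iio b).ncard := fun ha hab =>
    ncard_lt_ncard ⟨inter_subset_inter_right _ (Iio_subset_Iio hab.le), fun h2 =>
      lt_irrefl _ (h2 ⟨ha, hab⟩).2⟩ (hJ.inter_of_left _)
  rcases lt_trichotomy ξ ξ' with h2 | h2 | h2
  · exact absurd he (h1 h h2).ne
  · exact h2
  · exact absurd he (h1 h' h2).ne'

lemma fin_dir {ι : Type} [Nonempty ι] {N : ι → Set (K ⊕ L)} (hd : Directed (· ⊆ ·) N)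
    {a : Set L} (ha : a.Finite) (h : ∀ y ∈ a, inr y ∈ ⋃ i, N i) : ∃ i, ∀ y ∈ a, inr y ∈ N i := by
  obtain ⟨i, hi⟩ := hd.exists_mem_subset_of_finset_subset_biUnion
    (s := (ha.image (inr : L → K ⊕ L)).toFinset) (by
      rw [Finite.coe_toFinset]
      rintro _ ⟨y, hy, rfl⟩
      exact h y hy)
  exact ⟨i, fun y hy => hi (by rw [Finite.coe_toFinset]; exact ⟨y, hy, rfl⟩)⟩

theorem sld_all (hf : IsEmbedding f) (H : Club (Good f)) {ε : ℝ} (hε : 0 < ε) : SLD (id : K → K) ε := by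
  classical
  obtain ⟨g, hg, hG⟩ := H
  have h0 : ∀ M : Set (K ⊕ L), ∃ r, Cl g M → IsR f M r := by
    intro M
    by_cases h : Cl g M
    · obtain ⟨r, hr⟩ := (hG M h).exists_r hf
      exact ⟨r, fun _ => hr⟩
    · exact ⟨id, fun h1 => absurd h1 h⟩
  choose r hr using h0
  suffices h : ∀ c : Cardinal.{0}, ∀ M0 : Set (K ⊕ L), #M0 = c → Cl g M0 →
      ∀ ε > 0, SLD (r M0) ε by
    have h1 : Cl g Set.univ := fun _ _ => subset_univ _
    have h2 : r Set.univ = id := funext fun k => hf.injective (funext fun y =>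
      (hr _ h1).2.2 k y (mem_univ _))
    exact h2 ▸ h _ _ rfl h1 ε hε
  intro c
  induction c using WellFoundedLT.induction with
  | ind c ih =>
  intro M0 hc hM0 ε hε
  rcases le_or_gt #M0 ℵ₀ with hX | hX
  · exact sld_countable hf (hG _ hM0) (hr _ hM0) (le_aleph0_iff_set_countable.1 hX) hε
  have h3 : ∀ (M : Set (K ⊕ L)) (x : M0), ∃ N, N ⊆ M0 ∧ M ∩ M0 ⊆ N ∧ x.1 ∈ N ∧ Cl g N ∧
      ∀ c : Cardinal.{0}, ℵ₀ ≤ c → #M ≤ c → #N ≤ c := by
    intro M x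
    obtain ⟨N, h5, h6, h7⟩ := hull g hg (insert x.1 M)
    exact ⟨N ∩ M0, inter_subset_right, inter_subset_inter_left _ ((subset_insert _ _).trans h5),
      ⟨h5 (mem_insert _ _), x.2⟩, fun l hl => subset_inter (h6 l fun e he => (hl e he).1)
        (hM0 l fun e he => (hl e he).2), fun c hc h8 => (mk_le_mk_of_subset inter_subset_left).trans
        (h7 c hc (mk_insert_le.trans ((add_le_add h8 (one_le_aleph0.trans hc)).trans
          (add_eq_self hc).le)))⟩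
  choose Φ hΦ0 hΦ1 hΦ3 hΦ2 hΦ4 using h3
  let W := (#M0).ord.ToType
  obtain ⟨e⟩ : Nonempty (W ≃ M0) := Cardinal.eq.1 (mk_ord_toType _)
  let N : W → Set (K ⊕ L) := wellFounded_lt.fix fun ξ ih => Φ (⋃ η : Iio ξ, ih η.1 η.2) (e ξ)
  let M : W → Set (K ⊕ L) := fun ξ => ⋃ η : Iio ξ, N η
  have hN : ∀ ξ, N ξ = Φ (M ξ) (e ξ) := fun ξ => wellFounded_lt.fix_eq _ ξ
  have hN0 : ∀ ξ, N ξ ⊆ M0 := fun ξ => hN ξ ▸ hΦ0 _ _
  have hNM : ∀ η ξ, η < ξ → N η ⊆ M ξ := fun η ξ h =>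
    subset_iUnion (fun η : Iio ξ => N η) ⟨η, h⟩
  have hMN : ∀ ξ, M ξ ⊆ N ξ := fun ξ => hN ξ ▸ (subset_inter Subset.rfl
    (iUnion_subset fun η : Iio ξ => hN0 η.1)).trans (hΦ1 _ _)
  have hNc : ∀ ξ, Cl g (N ξ) := fun ξ => hN ξ ▸ hΦ2 _ _
  have hmono : Monotone N := fun η η' h => by
    rcases h.eq_or_lt with rfl | h
    · exact Subset.rfl
    · exact (hNM _ _ h).trans (hMN _)
  have hdir : ∀ ξ, Directed (· ⊆ ·) fun η : Iio ξ => N η.1 := fun ξ =>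
    (hmono.comp (Subtype.mono_coe _)).directed_le
  have hMc : ∀ ξ, Nonempty (Iio ξ) → Cl g (M ξ) := fun ξ _ =>
    cl_dir (hdir ξ) fun l η hl => (hNc η l hl).trans (hNM _ _ η.2)
  have hcard : ∀ ξ, #(N ξ) ≤ max ℵ₀ #(Iio ξ) := by
    intro ξ
    induction ξ using WellFoundedLT.induction with
    | ind ξ ih =>
      rw [hN]
      refine hΦ4 _ _ _ (le_max_left _ _) ((mk_iUnion_le _).trans ((mul_le_mul' (le_max_right ℵ₀ _)
        (ciSup_le' fun η : Iio ξ => (ih η η.2).trans (max_le_max le_rfl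
          (mk_le_mk_of_subset (Iio_subset_Iio η.2.le))))).trans (mul_eq_self (le_max_left _ _)).le))
  have hε3 : 0 < ε / 3 := by positivity
  have hsd : ∀ ξ, SLD (r (N ξ)) (ε / 3) := fun ξ => ih _ (hc ▸ (hcard ξ).trans_lt
      (max_lt hX (by simpa [W] using mk_Iio_lt ξ))) _ rfl (hNc ξ) _ hε3
  choose col hcol using hsd
  have hW : Nonempty W := e.nonempty_congr.2 (mk_ne_zero_iff.1 (aleph0_pos.trans hX).ne')
  let J : ℕ → (K → ℝ) → Set W := fun l φ => {ξ | ¬ Nonempty (Iio ξ) ∨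
    ∃ k, 1 / ((l : ℝ) + 1) < |φ (r (N ξ) k) - φ (r (M ξ) k)|}
  have hJ : ∀ l φ, Continuous φ → (J l φ).Finite := by
    intro l φ hφ
    by_contra h
    obtain ⟨s, hs⟩ := (partiallyWellOrderedOn_of_wellQuasiOrdered
      (wellQuasiOrdered_le (α := W)) (J l φ)).exists_monotone_subseq
      (f := fun n => (Set.Infinite.natEmbedding _ h n).1) fun n => (Set.Infinite.natEmbedding _ h n).2
    let t : ℕ → W := fun n => (Set.Infinite.natEmbedding _ h (s n)).1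
    have ht : StrictMono t := Monotone.strictMono_of_injective (fun m n => hs m n)
      (Subtype.val_injective.comp ((Set.Infinite.natEmbedding _ h).injective.comp s.injective))
    have h1 : Directed (· ⊆ ·) fun n => N (t n) := (hmono.comp ht.monotone).directed_le
    have h2 : Cl g (⋃ n, N (t n)) := cl_dir h1 fun l n hl =>
      (hNc _ l hl).trans (subset_iUnion (fun n => N (t n)) n)
    obtain ⟨a, ha, h3, h4⟩ := approx hf (hG _ h2) (hr _ h2) hφ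
      (half_pos (Nat.one_div_pos_of_nat (n := l)))
    obtain ⟨n, hn⟩ := fin_dir h1 ha h3
    have h5 : t n < t (n + 1) := ht (Nat.lt_succ_self n)
    have h6 : N (t (n + 1)) ⊆ ⋃ n, N (t n) := subset_iUnion (fun n => N (t n)) (n + 1)
    obtain h7 | ⟨k, h7⟩ : t (n + 1) ∈ J l φ := (Set.Infinite.natEmbedding _ h (s (n + 1))).2
    · exact h7 ⟨⟨_, h5⟩⟩
    · have h8 := h4 _ h6 (fun y hy => hmono h5.le (hn y hy)) _ (hr _ (hNc _)) k
      have h9 := h4 _ ((hMN _).trans h6) (fun y hy => hNM _ _ h5 (hn y hy)) _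
        (hr _ (hMc _ ⟨⟨_, h5⟩⟩)) k
      have h10 := abs_sub_le (φ (r (N (t (n + 1))) k)) (φ (r (⋃ n, N (t n)) k))
        (φ (r (M (t (n + 1))) k))
      rw [abs_sub_comm] at h8
      linarith
  have h4 : ∀ φ : K → ℝ, ∃ ξ l, Continuous φ → ξ ∈ J l φ ∧
      ∀ k, |φ (r M0 k) - φ (r (N ξ) k)| < ε / 3 := by
    intro φ
    by_cases hφ : Continuous φ
    swap
    · exact ⟨Classical.arbitrary W, 0, fun h => absurd h hφ⟩
    obtain ⟨ξ, ⟨δ, h4, h5⟩, h6⟩ := wellFounded_lt.has_min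
      {ξ | ∃ δ < ε / 3, ∀ k, |φ (r M0 k) - φ (r (N ξ) k)| < δ} (by
        obtain ⟨a, ha, h3, h4⟩ := approx hf (hG _ hM0) (hr _ hM0) hφ (half_pos hε3)
        obtain ⟨ξ, h5⟩ := fin_dir hmono.directed_le ha fun y hy => mem_iUnion.2
          ⟨e.symm ⟨_, h3 y hy⟩, by
            have h5 := hΦ3 (M (e.symm ⟨_, h3 y hy⟩)) (e (e.symm ⟨_, h3 y hy⟩))
            rwa [← hN, e.apply_symm_apply] at h5⟩
        exact ⟨ξ, _, half_lt_self hε3, h4 _ (hN0 ξ) h5 _ (hr _ (hNc ξ))⟩)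
    suffices h : ∃ l, ξ ∈ J l φ from
      let ⟨l, h⟩ := h; ⟨ξ, l, fun _ => ⟨h, fun k => (h5 k).trans h4⟩⟩
    by_cases h7 : Nonempty (Iio ξ)
    swap
    · exact ⟨0, Or.inl h7⟩
    by_cases h8 : ∃ k, φ (r (N ξ) k) ≠ φ (r (M ξ) k)
    · obtain ⟨k, h8⟩ := h8
      obtain ⟨l, hl⟩ := exists_nat_one_div_lt (abs_pos.2 (sub_ne_zero.2 h8))
      exact ⟨l, Or.inr ⟨k, hl⟩⟩
    · push Not at h8
      obtain ⟨a, ha, h9, h10⟩ := approx hf (hG _ (hMc ξ h7)) (hr _ (hMc ξ h7)) hφ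
        (half_pos (sub_pos.2 h4))
      obtain ⟨η, h11⟩ := fin_dir (hdir ξ) ha h9
      refine (h6 η.1 ⟨δ + (ε / 3 - δ) / 2, by linarith, fun k => ?_⟩ η.2).elim
      have h12 := h10 _ (hNM _ _ η.2) h11 _ (hr _ (hNc _)) k
      have h13 := abs_sub_le (φ (r M0 k)) (φ (r (N ξ) k)) (φ (r (N η) k))
      rw [← h8] at h12
      linarith [h5 k]
  choose b l hb using h4
  refine ⟨fun φ => Encodable.encode (l φ, (J (l φ) φ).ncard, (J (l φ) φ ∩ Iio (b φ)).ncard,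
    col (b φ) φ), fun φ hφ => ?_⟩
  obtain ⟨V, hV, h5, h6⟩ := hcol (b φ) φ hφ
  refine ⟨V ∩ ⋂ ξ ∈ J (l φ) φ, {ψ | ξ ∈ J (l φ) ψ}, hV.inter ((hJ _ φ hφ).isOpen_biInter
    fun ξ _ => ?_), ⟨h5, mem_iInter₂.2 fun ξ h => h⟩, fun ψ h7 hψ he k => ?_⟩
  · have : {ψ | ξ ∈ J (l φ) ψ} = {_ψ | ¬ Nonempty (Iio ξ)} ∪ ⋃ k, {ψ : K → ℝ |
        1 / ((l φ : ℝ) + 1) < |ψ (r (N ξ) k) - ψ (r (M ξ) k)|} := by ext; simp [J]
    rw [this]
    exact isOpen_const.union (isOpen_iUnion fun k => isOpen_lt continuous_const (by fun_prop))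
  · have h8 := Encodable.encode_injective he
    simp only [Prod.mk.injEq] at h8
    obtain ⟨h8, h9, h10, h11⟩ := h8
    have h12 := hb ψ hψ
    rw [h8] at h9 h10 h12
    have h13 : J (l φ) φ = J (l φ) ψ := eq_of_subset_of_ncard_le
      (fun ξ h => mem_iInter₂.1 h7.2 ξ h) h9.le (hJ _ ψ hψ)
    rw [← h13] at h10 h12
    have h14 := pos_inj (hJ _ φ hφ) h12.1 (hb φ hφ).1 h10
    rw [h14] at h11 h12
    have h15 := h6 ψ h7.1 hψ h11 k
    have h16 := (hb φ hφ).2 k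
    have h17 := h12.2 k
    rw [abs_lt] at h15 h16 h17 ⊢
    constructor <;> linarith [h15.1, h15.2, h16.1, h16.2, h17.1, h17.2]

omit [CompactSpace K] in
theorem weak_theta (H : ∀ ε > 0, SLD (id : K → K) ε) {Y : Type} [TopologicalSpace Y]
    {F : Y → K → ℝ} (hF : IsInducing F) (hc : ∀ y, Continuous (F y)) (𝒰 : Set (Set Y))
    (h1 : ∀ U ∈ 𝒰, IsOpen U) (h2 : ⋃₀ 𝒰 = Set.univ) :
    ∃ 𝒢 : ℕ → Set (Set Y), (∀ n, ∀ G ∈ 𝒢 n, IsOpen G ∧ ∃ U ∈ 𝒰, G ⊆ U) ∧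
      ∀ y : Y, ∃ n, (∃ G ∈ 𝒢 n, y ∈ G) ∧ {G ∈ 𝒢 n | y ∈ G}.Finite := by
  choose c hc1 using fun m : ℕ => H _ (Nat.one_div_pos_of_nat (α := ℝ) (n := m))
  choose V hV1 hV2 hV3 using fun m y => hc1 m (F y) (hc y)
  have h3 : ∀ y, ∃ U, (U ∈ 𝒰 ∧ y ∈ U) ∧ ∀ U', U' ∈ 𝒰 ∧ y ∈ U' → ¬ WellOrderingRel U' U :=
    fun y => WellOrderingRel.isWellOrder.wf.has_min {U | U ∈ 𝒰 ∧ y ∈ U}
      (mem_sUnion.1 (h2 ▸ mem_univ y))
  choose U hU1 hU2 using h3
  have h4 : ∀ y, ∃ m : ℕ, ∀ w, (∀ k, |F w k - F y k| < 1 / ((m : ℝ) + 1)) → w ∈ U y := by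
    intro y
    obtain ⟨a, -, δ, hδ, h4⟩ := exists_box hF ((h1 _ (hU1 y).1).mem_nhds (hU1 y).2)
    obtain ⟨m, hm⟩ := exists_nat_one_div_lt hδ
    exact ⟨m, fun w hw => h4 fun k _ => (hw k).trans hm⟩
  choose m hm using h4
  let G : ℕ → Set Y → Set Y := fun n U' => U' ∩ ⋃ y ∈ {y | U y = U' ∧
    Nat.pair (m y) (c (m y) (F y)) = n}, F ⁻¹' V (m y) y
  refine ⟨fun n => G n '' 𝒰, ?_, fun y => ⟨Nat.pair (m y) (c (m y) (F y)),
    ⟨_, ⟨U y, (hU1 y).1, rfl⟩, (hU1 y).2, mem_biUnion (x := y) ⟨rfl, rfl⟩ (hV2 _ y)⟩,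
    (finite_singleton (G (Nat.pair (m y) (c (m y) (F y))) (U y))).subset ?_⟩⟩
  · rintro n _ ⟨U', h5, rfl⟩
    exact ⟨(h1 _ h5).inter (isOpen_biUnion fun y _ => (hV1 _ y).preimage hF.continuous),
      U', h5, inter_subset_left⟩
  · rintro _ ⟨⟨U', h5, rfl⟩, h6, h7⟩
    obtain ⟨w, ⟨rfl, h8⟩, h9⟩ := mem_iUnion₂.1 h7
    obtain ⟨h10, h11⟩ := Nat.pair_eq_pair.1 h8
    have h12 : w ∈ U y := hm y w fun k => by
      rw [← h10] at h11 ⊢
      exact hV3 _ w _ h9 (hc y) h11.symm k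
    have h13 : U w = U y := by
      rcases trichotomous_of WellOrderingRel (U w) (U y) with h | h | h
      · exact absurd h (hU2 y _ ⟨h5, h6⟩)
      · exact h
      · exact absurd h (hU2 w _ ⟨(hU1 y).1, h12⟩)
    rw [h13]
    rfl

end Pool.Agent.H82.ScEG2
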