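import Pool.Agent.H82.LadA

set_option autoImplicit false

namespace Pool.Agent.H82.Scale

open Set Cardinal Order Filter Pool.Agent.H82.LadA

variable {K : Type}

lemma cl (Φ : (ℕ → K) → ℕ → K) (b : ℕ → K) :
    ∃ S : Set K, #S ≤ 𝔠 ∧ (∀ n, b n ∈ S) ∧ ∀ g : ℕ → K, (∀ n, g n ∈ S) → ∀ n, Φ g n ∈ S := by
  let β : ℕ ⊕ ℕ → Type := Sum.elim (fun _ => Empty) fun _ => ℕ
  let ev : WType β → K := WType.elim K fun x => match x with
    | ⟨.inl n, _⟩ => b n
    | ⟨.inr n, c⟩ => Φ c n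
  refine ⟨range ev, mk_range_le.trans (WType.cardinalMk_le_of_le ((sum_le_sum _ (fun _ => 𝔠)
    fun a => ?_).trans (by simp))), fun n => ⟨.mk (.inl n) Empty.elim, rfl⟩, fun g hg n => ?_⟩
  · refine (power_le_power_left continuum_ne_zero ?_).trans_eq continuum_power_aleph0
    rcases a with a | a <;> simp [β]
  · choose t ht using hg
    exact ⟨.mk (.inr n) t, congrArg (Φ · n) (funext ht)⟩

variable [LinearOrder K] {θ : Cardinal.{0}}

lemma pigeon (hK : Reg K θ) {T : Type} (hT : #T < θ) (φ : K → T) :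
    ∃ t, ∀ x, ∃ y, x ≤ y ∧ φ y = t := by
  by_contra hn
  push Not at hn
  choose x hx using hn
  obtain ⟨y, hy⟩ := hK.bdd (mk_range_le.trans_lt hT : #(range x) < θ)
  exact hx (φ y) y (hy _ ⟨_, rfl⟩).le rfl

def Big (x : K) (m : Cardinal.{0}) : Prop :=
  ∀ C : Set K, #C ≤ m → (∀ c ∈ C, c < x) → ∃ w < x, ∀ c ∈ C, c < w

lemma inc_le {f : K → ℕ → K} (inc : ∀ β β', β < β' → ∀ᶠ n in atTop, f β n < f β' n) {β β' : K}
    (h : β ≤ β') : ∀ᶠ n in atTop, f β n ≤ f β' n := by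
  rcases h.eq_or_lt with rfl | h
  · exact Eventually.of_forall fun _ => le_rfl
  · exact (inc _ _ h).mono fun _ => le_of_lt

variable [WellFoundedLT K]

/-- exact upper bound -/
theorem eub (hK : Reg K θ) (hc : 𝔠 < θ) (f : K → ℕ → K) (b : ℕ → K) (hb : ∀ β n, f β n ≤ b n)
    (inc : ∀ β β', β < β' → ∀ᶠ n in atTop, f β n < f β' n) :
    ∃ h : ℕ → K, (∀ n, h n ≤ b n) ∧ (∀ β, ∀ᶠ n in atTop, f β n < h n) ∧
      (∀ g : ℕ → K, (∀ᶠ n in atTop, g n < h n) → ∃ β, ∀ᶠ n in atTop, g n < f β n) ∧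
      ∀ m, ℵ₀ ≤ m → m ^ ℵ₀ < θ → ∀ᶠ n in atTop, Big (h n) m := by
  classical
  have h1 : ∀ h : ℕ → K, ∃ g : ℕ → K, ((∀ᶠ n in atTop, g n < h n) →
      ∃ β, ∀ᶠ n in atTop, g n < f β n) → ∀ g : ℕ → K, (∀ᶠ n in atTop, g n < h n) →
      ∃ β, ∀ᶠ n in atTop, g n < f β n := fun h => by
    by_cases h1 : ∀ g : ℕ → K, (∀ᶠ n in atTop, g n < h n) → ∃ β, ∀ᶠ n in atTop, g n < f β n
    · exact ⟨h, fun _ => h1⟩
    · obtain ⟨g, hg⟩ := not_forall.1 h1
      exact ⟨g, fun h => absurd h hg⟩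
  choose Φ hΦ using h1
  obtain ⟨S, hS, h1, h2⟩ := cl Φ b
  have h3 := fun β n => exmin (P := fun x => x ∈ S ∧ f β n ≤ x) ⟨b n, h1 n, hb β n⟩
  choose G hG h3 using h3
  obtain ⟨h, h4⟩ := pigeon hK (T := ℕ → S) (by
    rw [← power_def, mk_nat]
    exact ((power_le_power_right hS).trans_eq continuum_power_aleph0).trans_lt hc)
    fun β n => ⟨G β n, (hG β n).1⟩
  replace h4 : ∀ x, ∃ y, x ≤ y ∧ ∀ n, G y n = h n := fun x =>
    let ⟨y, a, b⟩ := h4 x; ⟨y, a, fun n => congrArg Subtype.val (congrFun b n)⟩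
  have h5 : ∀ x : K, ∃ y, x < y := fun x => by
    simpa using hK.bdd (A := {x}) (by simpa using one_lt_aleph0.trans_le hK.reg.aleph0_le)
  obtain ⟨x0⟩ : Nonempty K := mk_ne_zero_iff.1 (hK.card ▸ hK.reg.pos.ne')
  obtain ⟨y0, -, h6⟩ := h4 x0
  have h7 : ∀ β, ∀ᶠ n in atTop, f β n < h n := fun β => by
    obtain ⟨x, hx⟩ := h5 β
    obtain ⟨y, hy, h7⟩ := h4 x
    exact (inc β y (hx.trans_le hy)).mono fun n hn => hn.trans_le (h7 n ▸ (hG y n).2)
  have h8 := hΦ (fun n => h n) fun h8 => ⟨y0, h8.mono fun n hn => not_le.1 fun h9 =>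
    h3 y0 n _ (h6 n ▸ hn) ⟨h2 _ (fun n => (h n).2) n, h9⟩⟩
  refine ⟨fun n => h n, fun n => not_lt.1 fun h9 => h3 y0 n _ (h6 n ▸ h9) ⟨h1 n, hb _ _⟩, h7, h8,
    fun m hm hm' => ?_⟩
  by_contra hn
  have h9 : ∀ n, ∃ C : Set K, #C ≤ m ∧ (∀ c ∈ C, c < h n) ∧ (¬ Big (h n).1 m →
      ∀ w < (h n).1, ∃ c ∈ C, w ≤ c) := fun n => by
    by_cases h9 : Big (h n).1 m
    · exact ⟨∅, by simp, by simp, fun h => absurd h9 h⟩
    · simp only [Big] at h9
      push Not at h9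
      obtain ⟨C, a, b, c⟩ := h9
      exact ⟨C, a, b, fun _ => c⟩
  choose C hC h9 h10 using h9
  have h11 : ∀ β n, ∃ c : ↥(⋃ n, insert (f x0 n) (C n)), (c.1 < h n ∨ c.1 = f x0 n) ∧
      ((∃ c ∈ C n, f β n ≤ c) → f β n ≤ c) := fun β n => by
    by_cases h11 : ∃ c ∈ C n, f β n ≤ c
    · obtain ⟨c, a, b⟩ := h11
      exact ⟨⟨c, mem_iUnion.2 ⟨n, Or.inr a⟩⟩, Or.inl (h9 n c a), fun _ => b⟩
    · exact ⟨⟨_, mem_iUnion.2 ⟨n, Or.inl rfl⟩⟩, Or.inr rfl, fun h => absurd h h11⟩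
  choose c h11 h12 using h11
  obtain ⟨d, hd⟩ := pigeon hK (by
    rw [← power_def, mk_nat]
    refine (power_le_power_right (mk_iUnion_le_sum_mk.trans ((sum_le_sum _ (fun _ => m)
      fun n => mk_insert_le.trans (add_le_of_le hm (hC n) (one_le_aleph0.trans hm))).trans
      ?_))).trans_lt hm'
    simp [mul_eq_right hm hm aleph0_ne_zero]) c
  obtain ⟨y1, -, rfl⟩ := hd x0
  obtain ⟨β, hβ⟩ := h8 (fun n => c y1 n) ((h7 x0).mono fun n hn =>
    (h11 y1 n).elim id fun h => h ▸ hn)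
  obtain ⟨y, hy, h13⟩ := hd β
  refine hn ((hβ.and ((inc_le inc hy).and (h7 y))).mono fun n hn => ?_)
  by_contra h14
  exact absurd (h13 ▸ h12 y n (h10 n h14 _ hn.2.2)) (not_le.2 (hn.1.trans_le hn.2.1))

lemma exb (hK : Reg K θ) {m : Cardinal.{0}} (hm : ℵ₀ ≤ m) (h : succ m < θ) :
    ∃ b : K, Big b m ∧ #(Iio b) ≤ succ m := by
  obtain ⟨p, hp⟩ := le_mk_iff_exists_set.1 (h.le.trans hK.card.ge)
  obtain ⟨x, hx⟩ := hK.bdd (hp.trans_lt h)
  obtain ⟨b, h1, h2⟩ := exmin (P := fun x => m < #(Iio x))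
    ⟨x, (lt_succ m).trans_le (hp.ge.trans (mk_le_mk_of_subset hx))⟩
  have h3 : ∀ (k : Cardinal) (C : Set K), m ≤ k → #C ≤ k → (∀ c ∈ C, c < b) →
      (∀ w < b, ∃ c ∈ C, w ≤ c) → #(Iio b) ≤ k := fun k C h3 h4 h5 h6 => by
    refine lt_succ_iff.1 ((mk_le_mk_of_subset fun w hw => ?_).trans_lt
      ((card_biUnion_lt_iff_forall_of_isRegular (t := fun c _ => insert c (Iio c))
      (isRegular_succ (hm.trans h3)) (lt_succ_iff.2 h4)).2 fun c hc => lt_succ_iff.2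
      (mk_insert_le.trans (add_le_of_le (hm.trans h3) ((not_lt.1 (h2 c (h5 c hc))).trans h3)
      (one_le_aleph0.trans (hm.trans h3))))))
    obtain ⟨c, h7, h8⟩ := h6 w hw
    exact mem_biUnion h7 h8.eq_or_lt
  refine ⟨b, fun C h4 h5 => ?_, not_lt.1 fun h4 => ?_⟩
  · by_contra hn
    push Not at hn
    exact absurd (h3 m C le_rfl h4 h5 hn) (not_le.2 h1)
  · obtain ⟨C, h5, h6⟩ := le_mk_iff_exists_subset.1 h4.le
    refine absurd (h3 _ C (le_succ m) h6.le h5 fun w hw => ?_) (not_le.2 h4)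
    by_contra hn
    push Not at hn
    exact absurd ((mk_le_mk_of_subset hn).trans (not_lt.1 (h2 w hw))) (h6 ▸ not_le.2 (lt_succ m))

/-- the tower `𝔠, 2^𝔠, …` -/
noncomputable def tw : ℕ → Cardinal.{0}
  | 0 => 𝔠
  | n + 1 => 2 ^ tw n

lemma tw_mono : StrictMono tw := strictMono_nat_of_lt_succ fun n => cantor (tw n)

lemma tw_inf (n : ℕ) : ℵ₀ ≤ tw n := aleph0_le_continuum.trans (tw_mono.monotone n.zero_le)

noncomputable def mu : Cardinal.{0} := sum tw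

lemma tw_lt (n : ℕ) : tw n < mu := (tw_mono n.lt_succ_self).trans_le (le_sum tw (n + 1))

/-- a scale of length `mu⁺` -/
theorem scale (hK : Reg K (succ mu)) : ∃ (h : ℕ → K) (f : K → ℕ → K) (m : ℕ → Cardinal.{0}),
    (∀ β n, f β n < h n) ∧ (∀ β β', β < β' → ∀ᶠ n in atTop, f β n < f β' n) ∧
    (∀ g : ℕ → K, (∀ n, g n < h n) → ∃ β, ∀ᶠ n in atTop, g n < f β n) ∧
    (∀ j, ℵ₀ ≤ m j ∧ m j ≤ mu ∧ Big (h j) (m j)) ∧ ∀ i j, i < j → #(Iio (h i)) ≤ m j := by
  classical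
  have h1 : ∀ n, succ (tw n) ≤ tw (n + 1) := fun n => succ_le_of_lt (tw_mono n.lt_succ_self)
  choose b hb hb' using fun n => exb hK (tw_inf n) ((h1 n).trans_lt ((tw_lt _).trans (lt_succ _)))
  have h2 : ∀ α : K, ∃ e : K → ℕ, ∀ n, #{β | β < α ∧ e β ≤ n} ≤ tw n := fun α => by
    obtain ⟨e⟩ := (le_def _ _).1 ((lt_succ_iff.1 (hK.iio α)).trans_eq
      (show mu = #(Σ n, (tw n).out) by simp [mu]))
    refine ⟨fun β => if h : β < α then (e ⟨β, h⟩).1 else 0, fun n => ?_⟩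
    have h2 : #{x : Σ n, (tw n).out | x.1 ≤ n} ≤ tw n := by
      refine lt_succ_iff.1 ((mk_le_mk_of_subset (t := ⋃ i ∈ Iic n, range (Sigma.mk i))
        fun x hx => mem_biUnion hx ⟨x.2, rfl⟩).trans_lt
        ((card_biUnion_lt_iff_forall_of_isRegular (t := fun i _ => range (Sigma.mk i))
        (isRegular_succ (tw_inf n)) (lt_succ_iff.2 (mk_le_aleph0.trans (tw_inf n)))).2
        fun i hi => lt_succ_iff.2 (mk_range_le.trans ?_)))
      rw [mk_out]
      exact tw_mono.monotone hi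
    refine (mk_le_of_injective (f := fun β : {β | β < α ∧ _ ≤ n} =>
      (⟨e ⟨β, β.2.1⟩, by simpa [β.2.1] using β.2.2⟩ : {x : Σ n, (tw n).out | x.1 ≤ n}))
      fun x y he => ?_).trans h2
    exact Subtype.ext (Subtype.mk.inj (e.injective (congrArg Subtype.val he)))
  choose e he using h2
  have h3 : ∀ (α : K) (F : K → ℕ → K), ∃ g : ℕ → K, ∀ n, g n < b n ∧
      ∀ β < α, e α β ≤ n → F β n < b n → F β n < g n := fun α F => by
    have := fun n => hb n ((fun β => F β n) '' {β | (β < α ∧ e α β ≤ n) ∧ F β n < b n})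
      (mk_image_le.trans ((mk_le_mk_of_subset fun _ h => h.1).trans (he α n)))
      (by rintro _ ⟨β, h, rfl⟩; exact h.2)
    choose g h3 h4 using this
    exact ⟨g, fun n => ⟨h3 n, fun β a c d => h4 n _ ⟨β, ⟨⟨a, c⟩, d⟩, rfl⟩⟩⟩
  choose nx h3 using h3
  let f : K → ℕ → K := wellFounded_lt.fix fun α F => nx α fun β => if h : β < α then F β h else b
  have hf : ∀ α, f α = nx α fun β => if β < α then f β else b := fun α => by
    rw [show f α = _ from WellFounded.fix_eq _ _ _]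
    rfl
  have h4 : ∀ α n, f α n < b n := fun α n => hf α ▸ (h3 _ _ n).1
  have inc : ∀ β β', β < β' → ∀ᶠ n in atTop, f β n < f β' n := fun β α h =>
    (eventually_ge_atTop (e α β)).mono fun n hn => by
      have := (h3 α (fun β => if β < α then f β else b) n).2 β h hn
      rw [if_pos h, ← hf] at this
      exact this (h4 β n)
  obtain ⟨h, h5, h6, h7, h8⟩ := eub hK ((tw_lt 0).trans (lt_succ _)) f b (fun β n => (h4 β n).le) inc
  have h9 : ∀ k, ∃ n > k, Big (h n) (tw (k + 1)) := fun k =>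
    (((eventually_gt_atTop k).and (h8 _ (tw_inf _) (((power_le_power_left (aleph0_pos.trans_le
      (tw_inf _)).ne' (tw_inf (k + 1))).trans_eq (power_self_eq (tw_inf _))).trans_lt
      ((tw_lt (k + 2)).trans (lt_succ _))))).exists)
  choose nn h9 h10 using h9
  let a : ℕ → ℕ := fun j => nn^[j] 0
  have ha : ∀ j, a (j + 1) = nn (a j) := fun j => Function.iterate_succ_apply' _ _ _
  have hm : StrictMono a := strictMono_nat_of_lt_succ fun j => ha j ▸ h9 _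
  have ht : Tendsto (fun j => a (j + 1)) atTop atTop :=
    hm.tendsto_atTop.comp (tendsto_add_atTop_nat 1)
  have h11 : ∀ j, ∃ x, x < h (a (j + 1)) := fun j => by
    obtain ⟨w, hw, -⟩ := h10 (a j) ∅ (by simp) (by simp)
    exact ⟨w, ha j ▸ hw⟩
  choose x hx using h11
  let f' : K → ℕ → K := fun β j => if f β (a (j + 1)) < h (a (j + 1)) then f β (a (j + 1)) else x j
  have h12 : ∀ β, ∀ᶠ j in atTop, f' β j = f β (a (j + 1)) := fun β =>
    (ht.eventually (h6 β)).mono fun j hj => if_pos hj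
  refine ⟨fun j => h (a (j + 1)), f', fun j => tw (a j + 1), fun β j => ?_, fun β β' hβ => ?_,
    fun g hg => ?_, fun j => ⟨tw_inf _, (tw_lt _).le, by simpa only [ha j] using h10 (a j)⟩, fun i j hij => ?_⟩
  · simp only [f']
    split_ifs with h13
    exacts [h13, hx j]
  · filter_upwards [h12 β, h12 β', ht.eventually (inc β β' hβ)] with j a1 a2 a3
    rwa [a1, a2]
  · have hi : Function.Injective fun j => a (j + 1) := hm.injective.comp (add_left_injective 1)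
    obtain ⟨β, hβ⟩ := h7 (Function.extend (fun j => a (j + 1)) g (f (x 0))) ((h6 (x 0)).mono
      fun n hn => by
        by_cases h13 : ∃ j, a (j + 1) = n
        · obtain ⟨j, rfl⟩ := h13
          rw [hi.extend_apply]
          exact hg j
        · rwa [Function.extend_apply' _ _ _ h13])
    refine ⟨β, ?_⟩
    filter_upwards [h12 β, ht.eventually hβ] with j a1 a2
    rwa [hi.extend_apply, ← a1] at a2
  · exact (mk_le_mk_of_subset (Iio_subset_Iio (h5 _))).trans ((hb' _).trans ((h1 _).trans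
      (tw_mono.monotone (Nat.succ_le_succ (hm.monotone hij)))))

end Pool.Agent.H82.Scale
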