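import Mathlib
import Pool.Agent.H82.FS

set_option autoImplicit false

namespace Pool.Agent.H82.SelPs

open Set Filter Topology Classical

abbrev C := ℕ → Bool

/- level sets of the Cantor set -/
def S (n : ℕ) : Set C := {x | x n = true ∧ ∀ m < n, x m = false}

def z0 : C := fun _ => false

lemma S_clopen (n : ℕ) : IsClopen (S n) := by
  have h : ∀ (m : ℕ) (b : Bool), IsClopen {x : C | x m = b} := fun m b =>
    (isClopen_discrete {b}).preimage (continuous_apply m)
  have : S n = {x : C | x n = true} ∩ ⋂ m ∈ Finset.range n, {x : C | x m = false} := by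
    ext x; simp [S]
  rw [this]
  exact (h n true).inter (isClopen_biInter_finset fun m _ => h m false)

lemma S_uniq {n m : ℕ} {x : C} (hn : x ∈ S n) (hm : x ∈ S m) : n = m := by
  rcases lt_trichotomy n m with h | h | h
  · have := hm.2 n h; rw [hn.1] at this; cases this
  · exact h
  · have := hn.2 m h; rw [hm.1] at this; cases this

lemma S_ne {n : ℕ} {x : C} (hn : x ∈ S n) : x ≠ z0 := by
  rintro rfl; have := hn.1; simp [z0] at this

lemma exists_S' {x : C} {k : ℕ} (hk : x k = true) : ∃ n ≤ k, x ∈ S n := by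
  have h : ∃ k, x k = true := ⟨k, hk⟩
  refine ⟨Nat.find h, Nat.find_min' h hk, Nat.find_spec h, fun m hm => ?_⟩
  simpa using Nat.find_min h hm

lemma exists_S {x : C} (hx : x ≠ z0) : ∃ n, x ∈ S n := by
  have : ∃ k, x k = true := by
    by_contra h
    push Not at h
    exact hx (funext fun k => by simpa [z0] using h k)
  obtain ⟨k, hk⟩ := this
  obtain ⟨n, -, hn⟩ := exists_S' hk
  exact ⟨n, hn⟩

def I0 : Type := {a : C → Bool // ContinuousOn a {z0}ᶜ}

abbrev J : Type := I0 × ℝ

def e (x : C) : J → Bool := fun j => j.1.1 x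

def WS : Set (J → Bool) :=
  {w | ∀ s : ℕ → C, (∀ n, s n ∈ S n) → ¬ MapClusterPt w atTop (fun n => e (s n))}

abbrev W : Type := WS

lemma mem_WS_of {w : J → Bool} (h : ∀ s : ℕ → C, (∀ n, s n ∈ S n) →
    ∃ j : J, ∀ᶠ n in atTop, e (s n) j ≠ w j) : w ∈ WS := by
  intro s hs hc
  obtain ⟨j, hj⟩ := h s hs
  have h1 : {v : J → Bool | v j = w j} ∈ 𝓝 w :=
    (((isOpen_discrete {w j}).preimage (continuous_apply j)) :
      IsOpen ((fun v : J → Bool => v j) ⁻¹' {w j})).mem_nhds rfl
  obtain ⟨n, h2, h3⟩ := ((mapClusterPt_iff_frequently.1 hc _ h1).and_eventually hj).exists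
  exact h3 h2

/- indicator of a set that is locally clopen away from the origin -/
lemma contOn_ind {A : Set C} (h : ∀ n, IsClopen (A ∩ S n)) :
    ContinuousOn (fun x => decide (x ∈ A)) {z0}ᶜ := by
  intro x hx
  obtain ⟨n, hn⟩ := exists_S hx
  refine ContinuousAt.continuousWithinAt ?_
  have h1 : Continuous (fun x => decide (x ∈ A ∩ S n)) := by
    refine (IsLocallyConstant.iff_continuous _).1 ?_
    refine (IsLocallyConstant.iff_isOpen_fiber).2 fun b => ?_
    cases b
    · convert (h n).compl.isOpen using 1; ext y; simp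
    · convert (h n).isOpen using 1; ext y; simp
  refine h1.continuousAt.congr ?_
  filter_upwards [(S_clopen n).isOpen.mem_nhds hn] with y hy
  simp [hy]

noncomputable def ind (A : Set C) (h : ∀ n, IsClopen (A ∩ S n)) : I0 := ⟨_, contOn_ind h⟩

lemma e_mem (x : C) : e x ∈ WS := by
  refine mem_WS_of fun s hs => ?_
  by_cases hx : x = z0
  · refine ⟨(ind {z0} fun n => ?_, 0), Eventually.of_forall fun n => ?_⟩
    · convert isClopen_empty
      exact eq_empty_of_forall_notMem fun y hy => S_ne hy.2 hy.1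
    · simp [e, ind, hx, S_ne (hs n)]
  · obtain ⟨m, hm⟩ := exists_S hx
    refine ⟨(ind (S m) fun n => (S_clopen m).inter (S_clopen n), 0), ?_⟩
    filter_upwards [eventually_gt_atTop m] with n hn
    have : s n ∉ S m := fun h => hn.ne' (S_uniq (hs n) h)
    simp [e, ind, hm, this]

def one : I0 := ⟨fun _ => true, continuousOn_const⟩

lemma sig_mem {w : J → Bool} (hw : {j | w j = true}.Countable) : w ∈ WS := by
  refine mem_WS_of fun s _ => ?_
  have : ∃ t : ℝ, w (one, t) = false := by
    by_contra h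
    push Not at h
    have h2 := hw.preimage_of_injOn (f := fun t : ℝ => (one, t))
      (fun a _ b _ hab => (Prod.ext_iff.1 hab).2)
    refine Cardinal.not_countable_real (h2.mono fun t _ => ?_)
    simpa using h t
  obtain ⟨t, ht⟩ := this
  exact ⟨(one, t), Eventually.of_forall fun n => by rw [ht]; simp [e, one]⟩

def rho (x : C) : W := ⟨e x, e_mem x⟩

noncomputable def mark (x : C) : C := fun m => decide (x = z0 ∨ x ∈ S m)

inductive Y : Type
  | iw (w : W) : Y
  | ic (x : C) : Y

open Y

noncomputable def jj : Y → (J → Bool) × C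
  | .iw w => (w.1, z0)
  | .ic x => (e x, mark x)

noncomputable instance : TopologicalSpace Y := TopologicalSpace.induced jj inferInstance

def pr (k : ℕ) : I0 := ⟨fun x => x k, (continuous_apply k).continuousOn⟩

lemma mark_ne (x : C) : mark x ≠ z0 := by
  intro h
  by_cases hx : x = z0
  · have := congrFun h 0; simp [mark, hx, z0] at this
  · obtain ⟨n, hn⟩ := exists_S hx
    have := congrFun h n; simp [mark, hn, z0] at this

lemma jj_inj : Function.Injective jj := by
  rintro (a | a) (b | b) h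
  · exact congrArg iw (Subtype.ext (congrArg Prod.fst h))
  · exact absurd (congrArg Prod.snd h).symm (mark_ne b)
  · exact absurd (congrArg Prod.snd h) (mark_ne a)
  · exact congrArg ic (funext fun k => congrFun (congrArg Prod.fst h) (pr k, 0))

lemma jj_emb : IsEmbedding jj := ⟨⟨rfl⟩, jj_inj⟩

lemma jj_cont : Continuous jj := jj_emb.continuous

lemma t35Y : T35Space Y := jj_emb.t35Space

lemma iw_cont : Continuous iw :=
  continuous_induced_rng.2 (continuous_subtype_val.prodMk continuous_const)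

lemma e_contOn : ContinuousOn e {z0}ᶜ := continuousOn_pi.2 fun j => j.1.2

lemma rho_contOn : ContinuousOn rho {z0}ᶜ := by
  rw [continuousOn_iff_continuous_domRestrict]
  exact (continuousOn_iff_continuous_domRestrict.1 e_contOn).subtype_mk _

lemma ic_contOn : ContinuousOn ic {z0}ᶜ := by
  rw [jj_emb.isInducing.continuousOn_iff]
  refine e_contOn.prodMk (continuousOn_pi.2 fun m => ?_)
  refine (contOn_ind (A := S m) fun n => (S_clopen m).inter (S_clopen n)).congr fun x hx => ?_
  have : x ≠ z0 := hx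
  simp [mark, this]

def ph : Y → C
  | .iw _ => z0
  | .ic x => x

lemma mk_cont (m : ℕ) : Continuous fun y : Y => (jj y).2 m :=
  (continuous_apply m).comp (continuous_snd.comp jj_cont)

lemma fst_cont : Continuous fun y : Y => (jj y).1 := continuous_fst.comp jj_cont

lemma ph_cont : Continuous ph := by
  refine continuous_pi fun k => ?_
  have h1 : Continuous fun y : Y => ((jj y).1 (pr k, 0), fun m : Fin (k + 1) => (jj y).2 m) :=
    ((continuous_apply _).comp fst_cont).prodMk (continuous_pi fun m => mk_cont m)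
  have h2 := (continuous_of_discreteTopology (f := fun p : Bool × (Fin (k + 1) → Bool) =>
    (p.1 && decide (∃ m, p.2 m = true)))).comp h1
  convert h2 using 1
  funext y
  rcases y with w | x
  · simp [ph, jj, z0]
  · simp only [ph, jj, Function.comp, e, pr]
    cases hk : x k
    · simp
    · obtain ⟨n, hn, hx⟩ := exists_S' hk
      simp only [Bool.true_and]
      symm
      exact decide_eq_true ⟨⟨n, by omega⟩, by simp [mark, hx]⟩

def rt : Y → W
  | .iw w => w
  | .ic x => rho x

lemma rt_cont : Continuous rt := by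
  refine continuous_induced_rng.2 ?_
  convert fst_cont using 1
  funext y
  rcases y with w | x <;> rfl

lemma iso_iff (y : Y) : y = ic z0 ↔ ((jj y).2 0 = true ∧ (jj y).2 1 = true) := by
  rcases y with w | x
  · simp [jj, z0]
  · simp only [jj, mark, decide_eq_true_iff]
    constructor
    · intro h
      have : x = z0 := Y.ic.inj h
      simp [this]
    · rintro ⟨h | h, h' | h'⟩
      · rw [h]
      · rw [h]
      · rw [h']
      · exact absurd (S_uniq h h') (by norm_num)

lemma iso_cont {G : Type} [TopologicalSpace G] (a b : G) :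
    Continuous fun y : Y => if y = ic z0 then a else b := by
  have h2 := (continuous_of_discreteTopology (f := fun p : Bool × Bool =>
    if p.1 = true ∧ p.2 = true then a else b)).comp ((mk_cont 0).prodMk (mk_cont 1))
  convert h2 using 1
  funext y
  simp only [Function.comp, iso_iff]

/- cylinder around a point -/
def cyl (z : C) (k : ℕ) : Set C := {x | ∀ i < k, x i = z i}

lemma cyl_clopen (z : C) (k : ℕ) : IsClopen (cyl z k) := by
  have : cyl z k = ⋂ m ∈ Finset.range k, {x : C | x m = z m} := by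
    ext x; simp [cyl]
  rw [this]
  exact isClopen_biInter_finset fun m _ =>
    (isClopen_discrete {z m}).preimage (continuous_apply m)

lemma exists_cyl {O : Set C} {z : C} (h : O ∈ 𝓝 z) : ∃ k, cyl z k ⊆ O := by
  rw [nhds_pi, Filter.mem_pi] at h
  obtain ⟨I, hI, t, ht, hO⟩ := h
  obtain ⟨k, hk⟩ := hI.bddAbove
  refine ⟨k + 1, fun x hx => hO fun i hi => ?_⟩
  rw [hx i (Nat.lt_succ_of_le (hk hi))]
  exact mem_of_mem_nhds (ht i)

lemma key {O : Set C} (hO : IsOpen O) (h : ∀ m, ∃ n ≥ m, (O ∩ S n).Nonempty) :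
    ∃ (w : W) (U : Filter C), U.NeBot ∧ O ∩ {z0}ᶜ ∈ U ∧ Tendsto ic U (𝓝 (iw w)) ∧
      Tendsto rho U (𝓝 w) := by
  have h1 : ∀ n, ∃ (z : C) (k : ℕ), (O ∩ S n).Nonempty → cyl z k ⊆ O ∩ S n := by
    intro n
    by_cases hn : (O ∩ S n).Nonempty
    · obtain ⟨z, hz⟩ := hn
      obtain ⟨k, hk⟩ := exists_cyl ((hO.inter (S_clopen n).isOpen).mem_nhds hz)
      exact ⟨z, k, fun _ => hk⟩
    · exact ⟨z0, 0, fun h => absurd h hn⟩
  choose z k hzk using h1
  let B : (ℕ → C) → Set C := fun s => ⋃ n, S n ∩ cyl (s n) (k n + n)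
  have hB : ∀ s n, B s ∩ S n = S n ∩ cyl (s n) (k n + n) := by
    intro s n
    ext x
    simp only [B, mem_inter_iff, mem_iUnion]
    constructor
    · rintro ⟨⟨m, h1, h2⟩, h3⟩
      obtain rfl := S_uniq h1 h3
      exact ⟨h1, h2⟩
    · rintro ⟨h1, h2⟩
      exact ⟨⟨n, h1, h2⟩, h1⟩
  have hBc : ∀ s n, IsClopen (B s ∩ S n) := fun s n => by
    rw [hB]; exact (S_clopen n).inter (cyl_clopen _ _)
  have h2 : ∀ d : Finset (ℕ → C) × ℕ, ∃ x ∈ O, (∃ n ≥ d.2, x ∈ S n) ∧ ∀ s ∈ d.1, x ∉ B s := by
    rintro ⟨t, m⟩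
    obtain ⟨n, hn, hne⟩ := h (max m t.card)
    let q := t.equivFin
    let x : C := fun i => if hi : k n ≤ i ∧ i - k n < t.card then
      !((q.symm ⟨i - k n, hi.2⟩).1 n i) else z n i
    have hx : x ∈ O ∩ S n := hzk n hne fun i hi => by
      simp only [x]; rw [dif_neg (by omega)]
    refine ⟨x, hx.1, ⟨n, le_of_max_le_left hn, hx.2⟩, fun s hs hxB => ?_⟩
    have h3 : x ∈ B s ∩ S n := ⟨hxB, hx.2⟩
    rw [hB] at h3
    have h4 := (q ⟨s, hs⟩).2
    have h5 := le_of_max_le_right hn
    have h6 := h3.2 (k n + (q ⟨s, hs⟩).1) (by omega)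
    simp only [x] at h6
    rw [dif_pos ⟨by omega, by simp⟩] at h6
    simp at h6
  choose x hxO hxS hxB using h2
  let V : Ultrafilter (Finset (ℕ → C) × ℕ) := Ultrafilter.of atTop
  have hV : (V : Filter (Finset (ℕ → C) × ℕ)) ≤ atTop := Ultrafilter.of_le _
  let U : Ultrafilter C := V.map x
  obtain ⟨w, -, hw⟩ := (isCompact_univ (X := J → Bool)).ultrafilter_le_nhds (U.map e) (by simp)
  have hw' : Tendsto e U (𝓝 w) := hw
  have hwW : w ∈ WS := by
    refine mem_WS_of fun s hs => ⟨(ind (B s) (hBc s), 0), Eventually.of_forall fun n => ?_⟩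
    have h3 : e (s n) (ind (B s) (hBc s), 0) = true := by
      simp only [e, ind, decide_eq_true_iff]
      exact mem_iUnion.2 ⟨n, hs n, fun _ _ => rfl⟩
    have h4 : w (ind (B s) (hBc s), 0) = false := by
      refine tendsto_nhds_unique (tendsto_pi_nhds.1 hw' _) (tendsto_const_nhds.congr' ?_)
      have : ∀ᶠ d in (V : Filter (Finset (ℕ → C) × ℕ)), s ∈ d.1 := by
        filter_upwards [hV (eventually_ge_atTop (({s} : Finset _), 0))] with d hd
        exact hd.1 (Finset.mem_singleton_self s)
      refine (Filter.eventually_map (m := x)).2 ?_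
      filter_upwards [this] with d hd
      simp [e, ind, hxB d s hd]
    rw [h3, h4]; simp
  refine ⟨⟨w, hwW⟩, U, inferInstance, ?_, ?_, ?_⟩
  · refine (Filter.mem_map (m := x)).2 (Eventually.of_forall fun d => ⟨hxO d, ?_⟩)
    obtain ⟨n, -, hn⟩ := hxS d
    exact S_ne hn
  · rw [jj_emb.isInducing.tendsto_nhds_iff]
    refine hw'.prodMk_nhds (tendsto_pi_nhds.2 fun m => tendsto_const_nhds.congr' ?_)
    refine (Filter.eventually_map (m := x)).2 ?_
    filter_upwards [hV (eventually_ge_atTop ((∅ : Finset _), m + 1))] with d hd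
    obtain ⟨n, hn, hn'⟩ := hxS d
    have h3 : x d ∉ S m := fun h' => by
      have := S_uniq h' hn'
      have := hd.2
      simp only at this
      omega
    simp [mark, z0, h3]
    exact S_ne hn'
  · exact tendsto_subtype_rng.2 hw'

section Grp

variable {G : Type} [AddCommGroup G] [TopologicalSpace G] [IsTopologicalAddGroup G]

lemma hlim {f : Y → G} (hf : Continuous f) :
    Continuous fun x : C => if x = z0 then 0 else f (ic x) - f (iw (rho x)) := by
  have h0 : ContinuousOn (fun x : C => f (ic x) - f (iw (rho x))) {z0}ᶜ :=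
    (hf.comp_continuousOn ic_contOn).sub ((hf.comp iw_cont).comp_continuousOn rho_contOn)
  rw [continuous_iff_continuousAt]
  intro x
  by_cases hx : x = z0
  · subst hx
    unfold ContinuousAt
    simp only [if_true]
    rw [(closed_nhds_basis (0 : G)).tendsto_right_iff]
    rintro N ⟨hN, hNc⟩
    by_contra hc
    let O : Set C := {z0}ᶜ ∩ (fun x : C => f (ic x) - f (iw (rho x))) ⁻¹' Nᶜ
    have hO : IsOpen O := h0.isOpen_inter_preimage isOpen_compl_singleton hNc.isOpen_compl
    obtain ⟨w, U, hU, h1, h2, h3⟩ := key hO fun m => by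
      by_contra h
      push Not at h
      refine hc ?_
      filter_upwards [(cyl_clopen z0 m).isOpen.mem_nhds (fun _ _ => rfl)] with x hx
      split_ifs with h4
      · exact mem_of_mem_nhds hN
      · obtain ⟨n, hn⟩ := exists_S h4
        have h5 : m ≤ n := by
          by_contra h5
          have := hx n (by omega)
          rw [hn.1] at this
          simp [z0] at this
        by_contra h6
        exact (eq_empty_iff_forall_notMem.1 (h n h5)) x ⟨⟨h4, fun h7 => h7 |> fun h8 => h6 h8⟩, hn⟩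
    have h4 := ((hf.tendsto _).comp h2).sub (((hf.comp iw_cont).tendsto _).comp h3)
    simp only [Function.comp, sub_self] at h4
    obtain ⟨x, h5, h6⟩ := (Filter.inter_mem h1 (h4 hN) |> Filter.nonempty_of_mem)
    exact h5.1.2 h6
  · refine (h0.continuousAt (isOpen_compl_singleton.mem_nhds hx)).congr ?_
    filter_upwards [isOpen_compl_singleton.mem_nhds hx] with y hy
    rw [if_neg (show ¬ y = z0 from hy)]

abbrev X : Type := W ⊕ C

noncomputable def TT (f : Y → G) : X → G
  | .inl w => f (iw w)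
  | .inr x => (if x = z0 then 0 else f (ic x) - f (iw (rho x))) + (f (ic z0) - f (iw (rho z0)))

noncomputable def SS (g : X → G) (y : Y) : G :=
  g (.inr (ph y)) + g (.inl (rt y)) - (if y = ic z0 then 0 else g (.inr z0))

lemma TT_cont {f : Y → G} (hf : Continuous f) : Continuous (TT f) :=
  continuous_sum_dom.2 ⟨hf.comp iw_cont, (hlim hf).add continuous_const⟩

lemma SS_cont {g : X → G} (hg : Continuous g) : Continuous (SS g) :=
  ((hg.comp (continuous_inr.comp ph_cont)).add (hg.comp (continuous_inl.comp rt_cont))).sub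
    (iso_cont _ _)

omit [TopologicalSpace G] [IsTopologicalAddGroup G] in
lemma ST (f : Y → G) : SS (TT f) = f := by
  funext y
  rcases y with w | x
  · simp [SS, TT, ph, rt]
  · by_cases hx : x = z0
    · simp [SS, TT, ph, rt, hx]
    · simp only [SS, TT, ph, rt, hx, ic.injEq, if_true, if_false, reduceCtorEq]; abel

omit [TopologicalSpace G] [IsTopologicalAddGroup G] in
lemma TS (g : X → G) : TT (SS g) = g := by
  funext y
  rcases y with w | x
  · simp [SS, TT, ph, rt]
  · by_cases hx : x = z0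
    · simp [SS, TT, ph, rt, hx]
    · simp only [SS, TT, ph, rt, hx, ic.injEq, if_true, if_false, reduceCtorEq]; abel

lemma TT_ptw : Continuous (TT : (Y → G) → X → G) := by
  refine continuous_pi fun y => ?_
  rcases y with w | x
  · exact continuous_apply _
  · by_cases hx : x = z0 <;> simp only [TT, hx, if_true, if_false] <;> fun_prop

lemma SS_ptw : Continuous (SS : (X → G) → Y → G) := by
  refine continuous_pi fun y => ?_
  by_cases hx : y = ic z0 <;> simp only [SS, hx, if_true, if_false] <;> fun_prop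

omit [TopologicalSpace G] [IsTopologicalAddGroup G] in
lemma SS_add (f g : X → G) : SS (f + g) = SS f + SS g := by
  funext y
  by_cases hx : y = ic z0 <;> simp only [SS, hx, if_true, if_false, Pi.add_apply] <;> abel

omit [IsTopologicalAddGroup G] in
lemma dense_of_sep {Z : Type} [TopologicalSpace Z]
    (h : ∀ a b : Z, a ≠ b → ∃ A, IsClopen A ∧ a ∈ A ∧ b ∉ A) :
    Dense {f : Z → G | Continuous f} := by
  intro v
  have h1 : ∀ F : Finset Z, ∃ f : Z → G, Continuous f ∧ ∀ z ∈ F, f z = v z := by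
    intro F
    induction F using Finset.induction_on with
    | empty => exact ⟨0, continuous_const, by simp⟩
    | insert a F ha ih =>
      obtain ⟨f, hf, hv⟩ := ih
      have h2 : ∀ b : F, ∃ A, IsClopen A ∧ a ∈ A ∧ b.1 ∉ A :=
        fun b => h a b fun hab => ha (hab ▸ b.2)
      choose A hA haA hbA using h2
      have hc : IsClopen (⋂ b, A b) := isClopen_iInter_of_finite hA
      refine ⟨(⋂ b, A b).piecewise (fun _ => v a) f, ?_, fun z hz => ?_⟩
      · exact continuous_const.piecewise (by simp [hc.frontier_eq]) hf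
      · rcases Finset.mem_insert.1 hz with rfl | hz
        · rw [piecewise_eq_of_mem _ _ _ (mem_iInter.2 haA)]
        · rw [piecewise_eq_of_notMem _ _ _ fun h3 => hbA ⟨z, hz⟩ (mem_iInter.1 h3 _), hv z hz]
  rw [mem_closure_iff_nhds]
  intro t ht
  rw [nhds_pi, Filter.mem_pi] at ht
  obtain ⟨I, hI, u, hu, hut⟩ := ht
  obtain ⟨f, hf, hv⟩ := h1 hI.toFinset
  exact ⟨f, hut fun i hi => by
    rw [hv i (hI.mem_toFinset.2 hi)]; exact mem_of_mem_nhds (hu i), hf⟩

end Grp

lemma sep_of {Z K : Type} [TopologicalSpace Z] (φ : Z → K → Bool) (hφ : Continuous φ)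
    (hi : Function.Injective φ) (a b : Z) (h : a ≠ b) : ∃ A, IsClopen A ∧ a ∈ A ∧ b ∉ A := by
  obtain ⟨k, hk⟩ := Function.ne_iff.1 (hi.ne h)
  exact ⟨_, (isClopen_discrete {φ a k}).preimage ((continuous_apply k).comp hφ), rfl,
    fun h' => hk (Eq.symm h')⟩

lemma sepY (a b : Y) (h : a ≠ b) : ∃ A, IsClopen A ∧ a ∈ A ∧ b ∉ A := by
  refine sep_of (K := J ⊕ ℕ) (fun y => Sum.elim (jj y).1 (jj y).2) ?_ ?_ a b h
  · refine continuous_pi fun k => ?_
    rcases k with k | k
    · exact (continuous_apply k).comp fst_cont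
    · exact mk_cont k
  · intro a b hab
    exact jj_inj (Prod.ext (funext fun k => congrFun hab (.inl k))
      (funext fun k => congrFun hab (.inr k)))

lemma sepX (a b : X) (h : a ≠ b) : ∃ A, IsClopen A ∧ a ∈ A ∧ b ∉ A := by
  rcases a with a | a <;> rcases b with b | b
  · obtain ⟨A, hA, h1, h2⟩ := sep_of (fun w : W => w.1) continuous_subtype_val
      Subtype.val_injective a b (fun h' => h (by rw [h']))
    exact ⟨Sum.inl '' A, ⟨IsClosedEmbedding.inl.isClosedMap _ hA.1,
      IsOpenEmbedding.inl.isOpenMap _ hA.2⟩, ⟨a, h1, rfl⟩, by simpa using h2⟩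
  · exact ⟨range Sum.inl, isClopen_range_inl, ⟨a, rfl⟩, by simp⟩
  · exact ⟨range Sum.inr, isClopen_range_inr, ⟨a, rfl⟩, by simp⟩
  · obtain ⟨A, hA, h1, h2⟩ := sep_of (fun w : C => w) continuous_id
      Function.injective_id a b (fun h' => h (by rw [h']))
    exact ⟨Sum.inr '' A, ⟨IsClosedEmbedding.inr.isClosedMap _ hA.1,
      IsOpenEmbedding.inr.isOpenMap _ hA.2⟩, ⟨a, h1, rfl⟩, by simpa using h2⟩

lemma sspW (U : ℕ → Set W) (hU : ∀ n, IsOpen (U n)) (hne : ∀ n, (U n).Nonempty) :
    ∃ x : ℕ → W, (∀ n, x n ∈ U n) ∧ ∃ (φ : ℕ → ℕ) (a : W), StrictMono φ ∧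
      Tendsto (x ∘ φ) atTop (𝓝 a) := by
  have h1 : ∀ n, ∃ (w : W) (I : Set J), I.Finite ∧ ∀ v : W, (∀ j ∈ I, v.1 j = w.1 j) → v ∈ U n := by
    intro n
    obtain ⟨w, hw⟩ := hne n
    have := (hU n).mem_nhds hw
    rw [mem_nhds_subtype] at this
    obtain ⟨t, ht, htU⟩ := this
    rw [nhds_pi, Filter.mem_pi] at ht
    obtain ⟨I, hI, u, hu, hut⟩ := ht
    exact ⟨w, I, hI, fun v hv => htU (hut fun i hi => by
      rw [hv i hi]; exact mem_of_mem_nhds (hu i))⟩
  choose w I hI hw using h1
  have hc : (⋃ n, I n).Countable := countable_iUnion fun n => (hI n).countable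
  have := hc.to_subtype
  let ex : ((⋃ n, I n) → Bool) → W := fun v =>
    ⟨fun j => if h : j ∈ ⋃ n, I n then v ⟨j, h⟩ else false, sig_mem (hc.mono fun j hj => by
      by_contra h
      simp only [mem_ofPred_eq, dif_neg h] at hj
      cases hj)⟩
  have hex : Continuous ex := by
    refine Continuous.subtype_mk (continuous_pi fun j => ?_) _
    by_cases h : j ∈ ⋃ n, I n
    · simp only [dif_pos h]; exact continuous_apply _
    · simp only [dif_neg h]; exact continuous_const
  obtain ⟨a, -, φ, hφ, ha⟩ := (isCompact_univ (X := (⋃ n, I n) → Bool)).tendsto_subseq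
    (x := fun n j => (w n).1 j.1) (fun _ => mem_univ _)
  refine ⟨fun n => ex fun j => (w n).1 j.1, fun n => hw n _ fun j hj => ?_, φ, ex a, hφ,
    (hex.tendsto a).comp ha⟩
  simp only [ex]
  rw [dif_pos (mem_iUnion.2 ⟨n, hj⟩)]

lemma sspX (U : ℕ → Set X) (hU : ∀ n, IsOpen (U n)) (hne : ∀ n, (U n).Nonempty) :
    ∃ x : ℕ → X, (∀ n, x n ∈ U n) ∧ ∃ (φ : ℕ → ℕ) (a : X), StrictMono φ ∧
      Tendsto (x ∘ φ) atTop (𝓝 a) := by
  by_cases h : ∃ᶠ n in atTop, (Sum.inl ⁻¹' U n : Set W).Nonempty
  · obtain ⟨ψ, hψ, hψU⟩ := extraction_of_frequently_atTop h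
    obtain ⟨x, hx, φ, a, hφ, ha⟩ := sspW (fun n => Sum.inl ⁻¹' U (ψ n))
      (fun n => (hU _).preimage continuous_inl) hψU
    choose y hy using hne
    refine ⟨fun n => if h : ∃ m, ψ m = n then Sum.inl (x h.choose) else y n, fun n => ?_,
      ψ ∘ φ, Sum.inl a, hψ.comp hφ, ?_⟩
    · dsimp only
      split_ifs with h
      · have := hx h.choose
        rwa [mem_preimage, h.choose_spec] at this
      · exact hy n
    · refine ((continuous_inl.tendsto a).comp ha).congr fun n => ?_
      have h1 : ∃ m, ψ m = ψ (φ n) := ⟨_, rfl⟩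
      simp only [Function.comp, dif_pos h1, hψ.injective h1.choose_spec]
  · choose y hy using hne
    have h1 : ∀ᶠ n in atTop, ∃ c, y n = Sum.inr c := by
      filter_upwards [not_frequently.1 h] with n hn
      rcases h2 : y n with a | c
      · exact absurd ⟨a, by rw [mem_preimage, ← h2]; exact hy n⟩ hn
      · exact ⟨c, rfl⟩
    obtain ⟨a, -, φ, hφ, ha⟩ := (isCompact_univ (X := C)).tendsto_subseq
      (x := fun n => Sum.elim (fun _ => z0) id (y n)) (fun _ => mem_univ _)
    refine ⟨y, hy, φ, Sum.inr a, hφ, ((continuous_inr.tendsto a).comp ha).congr' ?_⟩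
    filter_upwards [hφ.tendsto_atTop.eventually h1] with n hn
    obtain ⟨c, hc⟩ := hn
    simp [hc]

def UY (n : ℕ) : Set Y := ic '' S n

lemma UY_eq (n : ℕ) : UY n = {y | (jj y).2 n = true ∧ (jj y).2 (n + 1) = false} := by
  ext y
  rcases y with w | x
  · simp [UY, jj, z0]
  · simp only [UY, jj, mark, mem_image, ic.injEq, exists_eq_right, mem_ofPred_eq,
      decide_eq_true_iff, decide_eq_false_iff_not, not_or]
    constructor
    · intro h
      exact ⟨Or.inr h, S_ne h, fun h' => by have := S_uniq h h'; omega⟩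
    · rintro ⟨h | h, h', -⟩
      · exact absurd h h'
      · exact h

lemma UY_open (n : ℕ) : IsOpen (UY n) := by
  rw [UY_eq]
  exact ((isOpen_discrete {true}).preimage (mk_cont n)).inter
    ((isOpen_discrete {false}).preimage (mk_cont (n + 1)))

lemma UY_ne (n : ℕ) : (UY n).Nonempty :=
  ⟨_, fun m => decide (m = n), ⟨by simp, fun m hm => by simp [hm.ne]⟩, rfl⟩

lemma UY_disj : Pairwise (Function.onFun Disjoint UY) := by
  intro n m h
  refine Set.disjoint_left.2 ?_
  rintro _ ⟨x, hx, rfl⟩ ⟨x', hx', h'⟩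
  obtain rfl := Y.ic.inj h'
  exact h (S_uniq hx hx')

lemma UY_closed (y : ℕ → Y) (hy : ∀ n, y n ∈ UY n) : IsClosed (range y) := by
  have := t35Y
  choose s hs hsy using hy
  rw [← isOpen_compl_iff, isOpen_iff_mem_nhds]
  intro a ha
  rcases a with w | x
  · have h1 := w.2 s hs
    rw [mapClusterPt_iff_frequently] at h1
    push Not at h1
    obtain ⟨V, hV, h2⟩ := h1
    obtain ⟨m, hm⟩ := eventually_atTop.1 h2
    have h3 : ∀ᶠ b in 𝓝 (iw w), (jj b).1 ∈ V := fst_cont.continuousAt.preimage_mem_nhds hV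
    have h4 : ∀ᶠ b in 𝓝 (iw w), ∀ k ∈ Finset.range m, (jj b).2 k = false := by
      rw [eventually_all_finset]
      intro k _
      exact ((isOpen_discrete {false}).preimage (mk_cont k)).mem_nhds rfl
    filter_upwards [h3, h4] with b h3 h4
    rintro ⟨n, rfl⟩
    rw [← hsy n] at h3 h4
    by_cases hn : m ≤ n
    · exact hm n hn h3
    · have := h4 n (Finset.mem_range.2 (by omega))
      simp [jj, mark, hs n] at this
  · by_cases hx : x = z0
    · subst hx
      have h1 : IsOpen {b : Y | (jj b).2 0 = true ∧ (jj b).2 1 = true} :=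
        ((isOpen_discrete {true}).preimage (mk_cont 0)).inter
          ((isOpen_discrete {true}).preimage (mk_cont 1))
      filter_upwards [h1.mem_nhds ((iso_iff _).1 rfl)] with b hb
      rw [← iso_iff] at hb
      rwa [hb]
    · obtain ⟨n, hn⟩ := exists_S hx
      have h1 : ic x ≠ y n := fun h => ha ⟨n, h.symm⟩
      filter_upwards [(UY_open n).mem_nhds ⟨x, hn, rfl⟩, isOpen_compl_singleton.mem_nhds h1]
        with b h2 h3
      rintro ⟨m, rfl⟩
      by_cases hm : m = n
      · exact h3 (by rw [hm]; rfl)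
      · exact Set.disjoint_left.1 (UY_disj hm) ⟨_, hs m, hsy m⟩ h2

end Pool.Agent.H82.SelPs
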