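import Mathlib

set_option autoImplicit false

namespace Pool.Agent.H82.SeqD

open Set Filter Topology

variable {X : Type} [TopologicalSpace X]

def SeqP (X : Type) [TopologicalSpace X] : Prop :=
  ∀ A : Set (Set X), (∀ (U : ℕ → Set X) (L : Set X), IsClopen L → (∀ k, IsClopen (U k) ∧ U k ∈ A) →
    (∀ x, ∀ᶠ k in atTop, (x ∈ U k ↔ x ∈ L)) → L ∈ A) →
    (∀ F : Finset X, ∃ U ∈ A, IsClopen U ∧ ↑F ⊆ U) → univ ∈ A

lemma clopen_true (f : {f : X → Bool // Continuous f}) : IsClopen {x | f.1 x = true} :=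
  (isClopen_discrete {true}).preimage f.2

lemma seqP [SequentialSpace {f : X → Bool // Continuous f}] : SeqP X := by
  classical
  intro A hA hcov
  have hc : IsClosed {f : {f : X → Bool // Continuous f} | {x | f.1 x = true} ∈ A} := by
    refine IsSeqClosed.isClosed fun u f hu hf => hA (fun k => {x | (u k).1 x = true}) _
      (clopen_true f) (fun k => ⟨clopen_true _, hu k⟩) fun x => ?_
    have := ((continuous_apply x).comp continuous_subtype_val).continuousAt.tendsto.comp hf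
    rw [nhds_discrete, tendsto_pure] at this
    filter_upwards [this] with k hk
    simp only [Function.comp] at hk
    simp only [hk]
  have : (⟨fun _ => true, continuous_const⟩ : {f : X → Bool // Continuous f}) ∈
      {f : {f : X → Bool // Continuous f} | {x | f.1 x = true} ∈ A} := by
    rw [← hc.closure_eq, mem_closure_iff_nhds]
    intro s hs
    obtain ⟨t, ht, hts⟩ := (mem_nhds_subtype _ _ s).1 hs
    rw [nhds_pi, Filter.mem_pi'] at ht
    obtain ⟨I, w, hw, hsub⟩ := ht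
    obtain ⟨U, hUA, hU, hIU⟩ := hcov I
    refine ⟨⟨U.boolIndicator, (continuous_boolIndicator_iff_isClopen U).2 hU⟩,
      hts (hsub fun y hy => ?_), ?_⟩
    · show U.boolIndicator y ∈ w y
      rw [(mem_iff_boolIndicator U y).1 (hIU hy)]
      exact mem_of_mem_nhds (hw y)
    · have : {x | U.boolIndicator x = true} = U := by
        ext x; exact (mem_iff_boolIndicator U x).symm
      show {x | U.boolIndicator x = true} ∈ A
      rwa [this]
  simpa using this

lemma ctble (h : SeqP X) (K : Set (Set X)) (hK : ∀ F : Finset X, ∃ U ∈ K, IsClopen U ∧ ↑F ⊆ U) :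
    ∃ U : ℕ → Set X, (∀ j, U j ∈ K ∧ IsClopen (U j)) ∧ ∀ F : Finset X, ∃ j, ↑F ⊆ U j := by
  obtain ⟨K0, h1, h2, h3⟩ := h {Z | ∃ K0 : Set (Set X), (∀ U ∈ K0, U ∈ K ∧ IsClopen U) ∧
      K0.Countable ∧ ∀ F : Finset X, ↑F ⊆ Z → ∃ U ∈ K0, ↑F ⊆ U} (by
    intro U L _ hU hL
    choose K0 k1 k2 k3 using fun k => (hU k).2
    refine ⟨⋃ k, K0 k, fun V hV => ?_, countable_iUnion k2, fun F hF => ?_⟩
    · obtain ⟨k, hk⟩ := mem_iUnion.1 hV
      exact k1 k V hk
    · obtain ⟨k, hk⟩ := ((eventually_all_finset F).2 fun x _ => hL x).exists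
      obtain ⟨V, hV, hFV⟩ := k3 k F fun x hx => (hk x hx).2 (hF hx)
      exact ⟨V, mem_iUnion.2 ⟨k, hV⟩, hFV⟩) (by
    intro F
    obtain ⟨U, hU, hUc, hF⟩ := hK F
    exact ⟨U, ⟨{U}, by rintro _ rfl; exact ⟨hU, hUc⟩, countable_singleton _,
      fun G hG => ⟨U, rfl, hG⟩⟩, hUc, hF⟩)
  obtain ⟨U0, hU0, -⟩ := h3 ∅ (subset_univ _)
  obtain ⟨U, rfl⟩ := h2.exists_eq_range ⟨U0, hU0⟩
  refine ⟨U, fun j => h1 _ ⟨j, rfl⟩, fun F => ?_⟩
  obtain ⟨_, ⟨j, rfl⟩, hj⟩ := h3 F (subset_univ _)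
  exact ⟨j, hj⟩

lemma disj [T2Space X] (hz : TopologicalSpace.IsTopologicalBasis {s : Set X | IsClopen s})
    {S : Set X} (hS : S.Infinite) : ∃ (W : ℕ → Set X) (w : ℕ → X), (∀ n, IsClopen (W n)) ∧
      (∀ n, w n ∈ W n ∧ w n ∈ S) ∧ ∀ x, ∀ᶠ n in atTop, x ∉ W n := by
  have step : ∀ R : {R : Set X // IsClopen R ∧ (R ∩ S).Infinite},
      ∃ R' : {R : Set X // IsClopen R ∧ (R ∩ S).Infinite}, R'.1 ⊆ R.1 ∧
        ∃ w ∈ S, w ∈ R.1 \ R'.1 := by
    rintro ⟨R, hR, hinf⟩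
    obtain ⟨a, ha, b, hb, hab⟩ := hinf.nontrivial
    obtain ⟨C, hC, haC, hCb⟩ := hz.mem_nhds_iff.1 (isOpen_ne.mem_nhds hab)
    have hbC : b ∉ C := fun h => hCb h rfl
    by_cases h : (R ∩ C ∩ S).Infinite
    · exact ⟨⟨R ∩ C, hR.inter hC, h⟩, inter_subset_left, b, hb.2, hb.1, fun h => hbC h.2⟩
    · refine ⟨⟨R \ C, hR.diff hC, ?_⟩, sdiff_subset, a, ha.2, ha.1, fun h => h.2 haC⟩
      intro h'
      refine hinf (((not_infinite.1 h).union h').subset fun x hx => ?_)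
      by_cases hxC : x ∈ C
      · exact Or.inl ⟨⟨hx.1, hxC⟩, hx.2⟩
      · exact Or.inr ⟨⟨hx.1, hxC⟩, hx.2⟩
  choose nx h1 w h2 h3 using step
  let R : ℕ → {R : Set X // IsClopen R ∧ (R ∩ S).Infinite} := fun n =>
    nx^[n] ⟨univ, isClopen_univ, by simpa using hS⟩
  have hR : ∀ n, R (n + 1) = nx (R n) := fun n => Function.iterate_succ_apply' _ _ _
  have hanti : Antitone fun n => (R n).1 := antitone_nat_of_succ_le fun n => by
    rw [hR]; exact h1 _
  refine ⟨fun n => (R n).1 \ (R (n + 1)).1, fun n => w (R n),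
    fun n => (R n).2.1.diff (R (n + 1)).2.1, fun n => ⟨by simp only [hR]; exact h3 _, h2 _⟩, fun x => ?_⟩
  by_cases h : ∀ n, x ∈ (R n).1
  · exact Eventually.of_forall fun n hn => hn.2 (h _)
  · push Not at h
    obtain ⟨n, hn⟩ := h
    filter_upwards [eventually_ge_atTop n] with k hk hx
    exact hn (hanti hk hx.1)

def NP (X : Type) [TopologicalSpace X] : Set X :=
  {w | ∃ O : ℕ → Set X, (∀ m, IsClopen (O m) ∧ w ∈ O m) ∧ (⋂ m, O m) ∉ 𝓝 w}

theorem princA [T2Space X] (h : SeqP X)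
    (hz : TopologicalSpace.IsTopologicalBasis {s : Set X | IsClopen s}) (hNP : (NP X).Infinite)
    (V : ℕ → ℕ → Set X) (hVc : ∀ n m, IsClopen (V n m))
    (hV : ∀ n (F : Finset X), ∃ m, ↑F ⊆ V n m) (J : Set (Set X))
    (hJ : ∀ Z (Zs : ℕ → Set X), (∀ k, Zs k ∈ J) → (∀ x ∈ Z, ∀ᶠ k in atTop, x ∈ Zs k) → Z ∈ J)
    (h1 : ∀ U, IsClopen U → ∀ n m : ℕ → ℕ, Tendsto n atTop atTop →
      (∀ x ∈ U, ∀ᶠ k in atTop, x ∈ V (n k) (m k)) → U ∈ J) : univ ∈ J := by
  obtain ⟨W, w, hWc, hw, hW⟩ := disj hz hNP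
  choose O hO hO' using fun n => (hw n).2
  have hp : ∀ n, ∃ p ∈ W n, ∃ m0, p ∉ O n m0 := by
    intro n
    by_contra hc
    push Not at hc
    exact hO' n (mem_of_superset ((hWc n).isOpen.mem_nhds (hw n).1)
      fun p hp => mem_iInter.2 (hc p hp))
  choose p hpW m0 hp using hp
  let O' : ℕ → ℕ → Set X := fun n m => W n ∩ O n (m0 n) ∩ ⋂ i ∈ Finset.range (m + 1), O n i
  have hO'c : ∀ n m, IsClopen (O' n m) := fun n m =>
    ((hWc n).inter (hO n _).1).inter (isClopen_biInter_finset fun i _ => (hO n i).1)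
  let A : ℕ → ℕ → Set (Set X) := fun n m =>
    {U | w n ∈ U ∧ (∀ x ∈ U, x ∈ W n → x ∈ O' n m) ∧ ∀ x ∈ U, x ∉ W n → x ∈ V n m}
  have key := h {U | U ∈ J ∨ ∃ n m, U ∈ A n m} (by
    intro U L hL hU hUL
    by_cases c1 : ∃ᶠ k in atTop, U k ∈ J
    · obtain ⟨φ, hφ, hφJ⟩ := extraction_of_frequently_atTop c1
      exact Or.inl (hJ L (fun k => U (φ k)) hφJ fun x hx =>
        (hφ.tendsto_atTop.eventually (hUL x)).mono fun k hk => hk.2 hx)
    have c2 : ∀ k, ∃ n m, U k ∉ J → U k ∈ A n m := by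
      intro k
      rcases (hU k).2 with h | ⟨n, m, h⟩
      · exact ⟨0, 0, fun h' => absurd h h'⟩
      · exact ⟨n, m, fun _ => h⟩
    choose n m hnm using c2
    have c3 : ∀ᶠ k in atTop, U k ∈ A (n k) (m k) := (not_frequently.1 c1).mono hnm
    by_cases c4 : Tendsto n atTop atTop
    · refine Or.inl (h1 L hL n m c4 fun x hx => ?_)
      filter_upwards [c3, hUL x, c4.eventually (hW x)] with k k1 k2 k3
      exact k1.2.2 x (k2.2 hx) k3
    have c5 : ∃ N, ∃ᶠ k in atTop, n k = N := by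
      rw [tendsto_atTop] at c4
      push Not at c4
      obtain ⟨b, hb⟩ := c4
      obtain ⟨N, -, hN⟩ := (frequently_exists_finset (Finset.range b)).1
        (hb.mono fun k hk => ⟨n k, Finset.mem_range.2 hk, rfl⟩ :
          ∃ᶠ k in atTop, ∃ N ∈ Finset.range b, n k = N)
      exact ⟨N, hN⟩
    obtain ⟨N, hN⟩ := c5
    by_cases c6 : ∃ M, ∃ᶠ k in atTop, n k = N ∧ m k = M
    · obtain ⟨M, hM⟩ := c6
      have c7 : ∀ x, ∃ k, U k ∈ A N M ∧ (x ∈ U k ↔ x ∈ L) := fun x => by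
        obtain ⟨k, ⟨k1, k2⟩, k3, k4⟩ := (hM.and_eventually (c3.and (hUL x))).exists
        exact ⟨k, by rwa [k1, k2] at k3, k4⟩
      refine Or.inr ⟨N, M, ?_, fun x hx => ?_, fun x hx => ?_⟩
      · obtain ⟨k, k1, k2⟩ := c7 (w N)
        exact k2.1 k1.1
      · obtain ⟨k, k1, k2⟩ := c7 x
        exact k1.2.1 x (k2.2 hx)
      · obtain ⟨k, k1, k2⟩ := c7 x
        exact k1.2.2 x (k2.2 hx)
    · exfalso
      push Not at c6
      have c7 : ∀ x M, ∃ k, U k ∈ A N (m k) ∧ M ≤ m k ∧ (x ∈ U k ↔ x ∈ L) := fun x M => by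
        have e : ∀ᶠ k in atTop, ∀ i ∈ Finset.range M, n k = N → m k ≠ i :=
          (eventually_all_finset _).2 fun i _ => c6 i
        obtain ⟨k, k1, k2, k3, k4⟩ := (hN.and_eventually (e.and (c3.and (hUL x)))).exists
        refine ⟨k, by rwa [k1] at k3, ?_, k4⟩
        by_contra hc
        exact k2 (m k) (Finset.mem_range.2 (not_le.1 hc)) k1 rfl
      have c8 : w N ∈ L := by
        obtain ⟨k, k1, -, k2⟩ := c7 (w N) 0
        exact k2.1 k1.1
      refine hO' N (mem_of_superset ((hL.inter (hWc N)).isOpen.mem_nhds ⟨c8, (hw N).1⟩) ?_)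
      rintro x ⟨hx, hxW⟩
      refine mem_iInter.2 fun M => ?_
      obtain ⟨k, k1, k2, k3⟩ := c7 x M
      exact mem_iInter₂.1 (k1.2.1 x (k3.2 hx) hxW).2 M (Finset.mem_range.2 (by omega))) (by
    intro F
    obtain ⟨n, hn⟩ := ((eventually_all_finset F).2 fun x _ => hW x).exists
    obtain ⟨m, hm⟩ := hV n F
    refine ⟨(V n m \ W n) ∪ O' n m, Or.inr ⟨n, m, Or.inr ⟨⟨(hw n).1, (hO n _).2⟩,
      mem_iInter₂.2 fun i _ => (hO n i).2⟩, ?_, ?_⟩, ((hVc n m).diff (hWc n)).union (hO'c n m),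
      fun x hx => Or.inl ⟨hm hx, hn x hx⟩⟩
    · rintro x (hx | hx) hxW
      · exact absurd hxW hx.2
      · exact hx
    · rintro x (hx | hx) hxW
      · exact hx.1
      · exact absurd hx.1.1 hxW)
  rcases key with h | ⟨n, m, h⟩
  · exact h
  · exact absurd (h.2.1 (p n) trivial (hpW n)).1.2 (hp n)

theorem princB (h : SeqP X)
    (hz : TopologicalSpace.IsTopologicalBasis {s : Set X | IsClopen s}) (hNP : (NP X).Finite)
    (V : ℕ → ℕ → Set X) (hVc : ∀ n m, IsClopen (V n m))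
    (hV : ∀ n (F : Finset X), ∃ m, ↑F ⊆ V n m) :
    ∃ m : ℕ → ℕ, ∀ x, ∀ᶠ k in atTop, x ∈ V k (m k) := by
  classical
  let q : X → Set ℕ := fun x => {i | x ∈ V (Nat.unpair i).1 (Nat.unpair i).2}
  let O : X → ℕ → Set X := fun x i => {y | i ∈ q y ↔ i ∈ q x}
  have hO : ∀ x i, IsClopen (O x i) := by
    intro x i
    by_cases hx : i ∈ q x
    · simp only [O, hx, iff_true]; exact hVc _ _
    · simp only [O, hx, iff_false]; exact (hVc _ _).compl
  let N : ℕ → Set X := fun j => ⋃ w ∈ NP X, ⋂ i ∈ Finset.range j, O w i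
  have hN : ∀ j, IsClopen (N j) := fun j =>
    hNP.isClopen_biUnion fun w _ => isClopen_biInter_finset fun i _ => hO w i
  have h1 : ∀ j, (q '' (N j)ᶜ).Countable := by
    intro j
    obtain ⟨U, hU, hcov⟩ := ctble h {U | (q '' (U \ N j)).Countable} (by
      intro F
      have : ∀ x, ∃ U, IsClopen U ∧ x ∈ U ∧ (q '' (U \ N j)).Countable := by
        intro x
        by_cases hx : x ∈ N j
        · exact ⟨N j, hN j, hx, by simp⟩
        · have hxP : x ∉ NP X := fun hc =>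
            hx (mem_biUnion hc (mem_iInter₂.2 fun i _ => Iff.rfl))
          have : (⋂ i, O x i) ∈ 𝓝 x := by
            by_contra hc
            exact hxP ⟨O x, fun i => ⟨hO x i, Iff.rfl⟩, hc⟩
          obtain ⟨U, hU, hxU, hs⟩ := hz.mem_nhds_iff.1 this
          refine ⟨U, hU, hxU, (countable_singleton (q x)).mono ?_⟩
          rintro _ ⟨y, hy, rfl⟩
          exact Set.ext fun i => mem_iInter.1 (hs hy.1) i
      choose U k1 k2 k3 using this
      refine ⟨⋃ x ∈ F, U x, ?_, isClopen_biUnion_finset fun x _ => k1 x,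
        fun x hx => mem_biUnion hx (k2 x)⟩
      refine (F.countable_toSet.biUnion fun x _ => k3 x).mono ?_
      rintro _ ⟨y, ⟨hy, hy'⟩, rfl⟩
      obtain ⟨x, hx, hyx⟩ := mem_iUnion₂.1 hy
      exact mem_biUnion hx ⟨y, ⟨hyx, hy'⟩, rfl⟩)
    refine (countable_iUnion fun i => (hU i).1).mono ?_
    rintro _ ⟨y, hy, rfl⟩
    obtain ⟨i, hi⟩ := hcov {y}
    exact mem_iUnion.2 ⟨i, y, ⟨hi (by simp), hy⟩, rfl⟩
  have h2 : (range q).Countable := by
    refine ((countable_iUnion h1).union (hNP.image q).countable).mono ?_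
    rintro _ ⟨x, rfl⟩
    by_cases hx : ∀ j, x ∈ N j
    · have e : ∃ᶠ j in atTop, ∃ w ∈ NP X, x ∈ ⋂ i ∈ Finset.range j, O w i := by
        refine Frequently.of_forall fun j => ?_
        obtain ⟨w, hw, h⟩ := mem_iUnion₂.1 (hx j)
        exact ⟨w, hw, h⟩
      obtain ⟨w, hw, hf⟩ := (frequently_exists_finite hNP).1 e
      refine Or.inr ⟨w, hw, Set.ext fun i => ?_⟩
      obtain ⟨j, k1, k2⟩ := (hf.and_eventually (eventually_gt_atTop i)).exists
      exact Iff.symm (mem_iInter₂.1 k1 i (Finset.mem_range.2 k2))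
    · push Not at hx
      obtain ⟨j, hj⟩ := hx
      exact Or.inl (mem_iUnion.2 ⟨j, x, hj, rfl⟩)
  rcases isEmpty_or_nonempty X with hX | hX
  · exact ⟨id, fun x => hX.elim x⟩
  obtain ⟨e, he⟩ := h2.exists_eq_range (range_nonempty q)
  have : ∀ i, ∃ y, q y = e i := fun i => by
    have : e i ∈ range q := he ▸ ⟨i, rfl⟩
    exact this
  choose y hy using this
  choose m hm using fun k => hV k ((Finset.range k).image y)
  refine ⟨m, fun x => ?_⟩
  obtain ⟨i, hi⟩ : q x ∈ range e := he ▸ ⟨x, rfl⟩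
  filter_upwards [eventually_gt_atTop i] with k hk
  have k1 : y i ∈ V k (m k) :=
    hm k (Finset.mem_coe.2 (Finset.mem_image_of_mem _ (Finset.mem_range.2 hk)))
  have k2 := Set.ext_iff.1 ((hy i).trans hi) (Nat.pair k (m k))
  simp only [q, mem_ofPred_eq, Nat.unpair_pair] at k2
  exact k2.1 k1

theorem princ [T2Space X] (h : SeqP X)
    (hz : TopologicalSpace.IsTopologicalBasis {s : Set X | IsClopen s})
    (V : ℕ → ℕ → Set X) (hVc : ∀ n m, IsClopen (V n m))
    (hV : ∀ n (F : Finset X), ∃ m, ↑F ⊆ V n m) (J : Set (Set X))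
    (hJ : ∀ Z (Zs : ℕ → Set X), (∀ k, Zs k ∈ J) → (∀ x ∈ Z, ∀ᶠ k in atTop, x ∈ Zs k) → Z ∈ J)
    (h1 : ∀ U, IsClopen U → ∀ n m : ℕ → ℕ, Tendsto n atTop atTop →
      (∀ x ∈ U, ∀ᶠ k in atTop, x ∈ V (n k) (m k)) → U ∈ J) : univ ∈ J := by
  by_cases hNP : (NP X).Finite
  · obtain ⟨m, hm⟩ := princB h hz hNP V hVc hV
    exact h1 univ isClopen_univ id m tendsto_id fun x _ => hm x
  · exact princA h hz hNP V hVc hV J hJ h1

theorem sel [T2Space X] (h : SeqP X)
    (hz : TopologicalSpace.IsTopologicalBasis {s : Set X | IsClopen s})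
    (V : ℕ → ℕ → Set X) (hVc : ∀ n m, IsClopen (V n m))
    (hV : ∀ n x, ∀ᶠ m in atTop, x ∈ V n m) :
    ∃ m : ℕ → ℕ, ∀ x, ∀ᶠ n in atTop, x ∈ V n (m n) := by
  let V' : ℕ → ℕ → Set X := fun n m => ⋂ i ∈ Finset.range (n + 1), V i m
  have hV'c : ∀ n m, IsClopen (V' n m) := fun n m => isClopen_biInter_finset fun i _ => hVc i m
  have hV'a : ∀ n n' m, n ≤ n' → V' n' m ⊆ V' n m := fun n n' m hn x hx =>
    mem_iInter₂.2 fun i hi => mem_iInter₂.1 hx i
      (Finset.mem_range.2 (by have := Finset.mem_range.1 hi; omega))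
  let Cond := {a : ℕ → ℕ // Tendsto a atTop atTop}
  let L : Cond → Set X := fun a => {x | ∀ᶠ k in atTop, x ∈ V' k (a.1 k)}
  let ref : Cond → Cond → Prop := fun a' a => ∀ k, ∃ l, k ≤ l ∧ a'.1 k = a.1 l
  have step : ∀ a : Cond, ∃ U : ℕ → Set X, (∀ j, (∃ a', ref a' a ∧ U j ⊆ L a') ∧ IsClopen (U j)) ∧
      ∀ F : Finset X, ∃ j, ↑F ⊆ U j := by
    intro a
    refine ctble h {U | ∃ a', ref a' a ∧ U ⊆ L a'} fun F => ?_
    refine princ h hz (fun n m => V' n (a.1 (m + n))) (fun _ _ => hV'c _ _) ?_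
      {Z | ∀ F : Finset X, ↑F ⊆ Z → ∃ U ∈ {U | ∃ a', ref a' a ∧ U ⊆ L a'}, IsClopen U ∧ ↑F ⊆ U}
      ?_ ?_ F (subset_univ _)
    · intro n F
      have e : ∀ᶠ m in atTop, ∀ x ∈ F, ∀ i ∈ Finset.range (n + 1), x ∈ V i m :=
        (eventually_all_finset F).2 fun x _ => (eventually_all_finset _).2 fun i _ => hV i x
      obtain ⟨m, hm⟩ := ((a.2.comp (tendsto_add_atTop_nat n)).eventually e).exists
      exact ⟨m, fun x hx => mem_iInter₂.2 (hm x hx)⟩
    · intro Z Zs hZ hl F hF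
      obtain ⟨k, hk⟩ := ((eventually_all_finset F).2 fun x hx => hl x (hF hx)).exists
      exact hZ k F hk
    · intro U hU n m hn hl F hF
      choose k hk1 hk2 using fun i => ((eventually_ge_atTop i).and
        (hn.eventually (eventually_ge_atTop i))).exists
      have ht : Tendsto (fun i => m (k i) + n (k i)) atTop atTop :=
        tendsto_atTop_mono (fun i => (hk2 i).trans (Nat.le_add_left _ _)) tendsto_id
      refine ⟨U, ⟨⟨fun i => a.1 (m (k i) + n (k i)), a.2.comp ht⟩,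
        fun i => ⟨_, (hk2 i).trans (Nat.le_add_left _ _), rfl⟩, fun x hx => ?_⟩, hU, hF⟩
      filter_upwards [(tendsto_atTop_mono hk1 tendsto_id).eventually (hl x hx)] with i hi
      exact hV'a _ _ _ (hk2 i) hi
  choose U hU hcov using step
  choose nxt hn1 hn2 using fun a j => (hU a j).1
  let node : List ℕ → Cond := fun σ => List.rec ⟨id, tendsto_id⟩ (fun j _ a => nxt a j) σ
  let dec : ℕ → List ℕ := Denumerable.ofNat (List ℕ)
  obtain ⟨Zs, hZ1, hZ2⟩ := princ h hz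
    (fun n m => ⋂ i ∈ Finset.range n, U (node (dec i)) ((dec m).getD i 0))
    (fun _ _ => isClopen_biInter_finset fun i _ => (hU _ _).2) (by
      intro n F
      choose j hj using fun i => hcov (node (dec i)) F
      refine ⟨Encodable.encode ((List.range n).map j), fun x hx => mem_iInter₂.2 fun i hi => ?_⟩
      have : (dec (Encodable.encode ((List.range n).map j))).getD i 0 = j i := by
        simp [dec, Finset.mem_range.1 hi]
      rw [this]
      exact hj i hx)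
    {Z | ∃ Zs : ℕ → Set X, Z ⊆ ⋃ K, Zs K ∧ ∀ K σ, ∃ j, Zs K ⊆ U (node σ) j} (by
      intro Z Zs hZ hl
      choose Y hY1 hY2 using hZ
      refine ⟨fun K => Y (Nat.unpair K).1 (Nat.unpair K).2, fun x hx => ?_, fun K σ => hY2 _ _ σ⟩
      obtain ⟨k, hk⟩ := (hl x hx).exists
      obtain ⟨K, hK⟩ := mem_iUnion.1 (hY1 k hk)
      exact mem_iUnion.2 ⟨Nat.pair k K, by simpa using hK⟩) (by
      intro Z _ n m hn hl
      refine ⟨fun K => ⋂ k ≥ K, ⋂ i ∈ Finset.range (n k), U (node (dec i)) ((dec (m k)).getD i 0),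
        fun x hx => ?_, fun K σ => ?_⟩
      · obtain ⟨K, hK⟩ := eventually_atTop.1 (hl x hx)
        exact mem_iUnion.2 ⟨K, mem_iInter₂.2 hK⟩
      · obtain ⟨k, k1, k2⟩ := ((eventually_ge_atTop K).and
          (hn.eventually (eventually_gt_atTop (Encodable.encode σ)))).exists
        refine ⟨(dec (m k)).getD (Encodable.encode σ) 0, fun x hx => ?_⟩
        have := mem_iInter₂.1 (mem_iInter₂.1 hx k k1) _ (Finset.mem_range.2 k2)
        simpa only [dec, Denumerable.ofNat_encode] using this)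
  choose j hj using hZ2
  let σ : ℕ → List ℕ := fun K => Nat.rec [] (fun K s => j K s :: s) K
  have hσ : ∀ K, node (σ (K + 1)) = nxt (node (σ K)) (j K (σ K)) := fun K => rfl
  have hr : ∀ K K', K ≤ K' → ref (node (σ K')) (node (σ K)) := by
    intro K K' hK
    induction hK with
    | refl => exact fun k => ⟨k, le_rfl, rfl⟩
    | step _ ih =>
      intro k
      rw [hσ]
      obtain ⟨l, l1, l2⟩ := hn1 _ _ k
      obtain ⟨l', l3, l4⟩ := ih l
      exact ⟨l', l1.trans l3, l2.trans l4⟩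
  refine ⟨fun k => (node (σ k)).1 k, fun x => ?_⟩
  obtain ⟨K, hK⟩ := mem_iUnion.1 (hZ1 (mem_univ x))
  have hx : x ∈ L (node (σ (K + 1))) := by rw [hσ]; exact hn2 _ _ (hj K (σ K) hK)
  obtain ⟨k0, hk0⟩ := eventually_atTop.1 hx
  filter_upwards [eventually_ge_atTop k0, eventually_ge_atTop (K + 1)] with k k1 k2
  obtain ⟨l, l1, l2⟩ := hr _ _ k2 k
  rw [l2]
  exact mem_iInter₂.1 (hk0 l (k1.trans l1)) k (Finset.mem_range.2 (by omega))

theorem main [T2Space X] (hz : TopologicalSpace.IsTopologicalBasis {s : Set X | IsClopen s})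
    [SequentialSpace {f : X → Bool // Continuous f}] :
    FrechetUrysohnSpace {f : X → Bool // Continuous f} := by
  have conv : ∀ (u : ℕ → {f : X → Bool // Continuous f}) f, Tendsto u atTop (𝓝 f) ↔
      ∀ x, ∀ᶠ k in atTop, (u k).1 x = f.1 x := by
    intro u f
    rw [tendsto_subtype_rng, tendsto_pi_nhds]
    simp only [nhds_discrete, tendsto_pure]
  refine ⟨fun S => closure_minimal subset_seqClosure (IsSeqClosed.isClosed fun u f hu hf => ?_)⟩
  choose v hv1 hv2 using hu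
  obtain ⟨m, hm⟩ := sel seqP hz (fun n m => {x | (v n m).1 x = (u n).1 x})
    (fun n m => (isClopen_discrete (diagonal Bool)).preimage ((v n m).2.prodMk (u n).2))
    fun n => (conv _ _).1 (hv2 n)
  refine ⟨fun n => v n (m n), fun n => hv1 n _, (conv _ _).2 fun x => ?_⟩
  filter_upwards [hm x, (conv _ _).1 hf x] with n h1 h2
  exact Eq.trans h1 h2

end Pool.Agent.H82.SeqD
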