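import Mathlib
import Pool.Agent.H82.MS
import Pool.Agent.H82.UAleph
import Pool.Agent.H82.BetaL

set_option autoImplicit false

namespace Pool.Agent.H82.SigPs

open Set Filter Topology Pool.Agent.H82.FS Pool.Agent.H82.MSp Pool.Agent.H82.UAleph

theorem mad : ∃ M : Set (Set ℕ), ¬ M.Countable ∧ (∀ b ∈ M, b.Infinite) ∧
    (M.Pairwise fun a b => (a ∩ b).Finite) ∧ ∀ E : Set ℕ, E.Infinite → ∃ b ∈ M, (b ∩ E).Infinite := by
  obtain ⟨A, h1, h2⟩ := BetaL.exists_ad
  obtain ⟨M, h0, hM⟩ := zorn_subset_nonempty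
    {M : Set (Set ℕ) | (∀ b ∈ M, b.Infinite) ∧ M.Pairwise fun a b => (a ∩ b).Finite} (by
    intro c hc hch _
    exact ⟨⋃₀ c, ⟨fun b ⟨s, hs, hb⟩ => (hc hs).1 b hb,
      (pairwise_sUnion hch.directedOn).2 fun s hs => (hc hs).2⟩,
      fun s hs => subset_sUnion_of_mem hs⟩) (range A) ⟨by rintro _ ⟨σ, rfl⟩; exact h1 σ, by
    rintro _ ⟨σ, rfl⟩ _ ⟨τ, rfl⟩ h
    exact h2 σ τ fun e => h (by rw [e])⟩
  refine ⟨M, fun h => ?_, hM.prop.1, hM.prop.2, fun E hE => by_contra fun h => ?_⟩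
  · have : Uncountable (ℕ → Bool) := by
      rw [← Cardinal.aleph0_lt_mk_iff]; simp [Cardinal.aleph0_lt_continuum]
    have hA : Function.Injective A := fun σ τ e => by_contra fun hne => by
      have := h2 σ τ hne
      rw [e, inter_self] at this
      exact h1 τ this
    exact not_countable_univ (α := ℕ → Bool) ((h.preimage_of_injOn (f := A) hA.injOn).mono
      fun σ _ => h0 ⟨σ, rfl⟩)
  · push Not at h
    have hE' : E ∈ M := hM.eq_of_subset (t := insert E M) ⟨by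
      rintro b (rfl | hb)
      exacts [hE, hM.prop.1 b hb], hM.prop.2.insert
        fun b hb _ => ⟨inter_comm b E ▸ h b hb, h b hb⟩⟩
      (subset_insert _ _) ▸ mem_insert _ _
    have := h E hE'
    rw [inter_self] at this
    exact hE this

variable {M : Set (Set ℕ)}

abbrev c (b : M) : Filter ℕ := cofinite ⊓ 𝓟 b.1

abbrev FA (M : Set (Set ℕ)) (b : M) : Filter (ℕ × ℕ × ℕ) := blow (c b) id

abbrev FY (M : Set (Set ℕ)) (b : M) : Filter (ℕ ⊕ ℕ × ℕ × ℕ) :=
  map .inl (c b) ⊔ map .inr (FA M b)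

lemma c_sep (hM : M.Pairwise fun a b => (a ∩ b).Finite) {b k : M} (h : k ≠ b) : b.1ᶜ ∈ c k :=
  mem_inf_principal.2 ((hM k.2 b.2 fun e => h (Subtype.ext e)).subset fun n hn => by
    simpa using hn)

lemma tA (hM : M.Pairwise fun a b => (a ∩ b).Finite) : T35Space (MS (FA M)) :=
  MSp.t35 (fun _ => blow_le inf_le_left) fun b => ⟨Prod.fst ⁻¹' b.1,
    tendsto_fst' (mem_inf_of_right (mem_principal_self _)), fun _ hk => tendsto_fst' (c_sep hM hk)⟩

lemma tY (hM : M.Pairwise fun a b => (a ∩ b).Finite) : T35Space (MS (FY M)) :=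
  MSp.t35 (fun _ => sup_le (Sum.inl_injective.tendsto_cofinite.mono_left inf_le_left)
    (Sum.inr_injective.tendsto_cofinite.mono_left (blow_le inf_le_left)))
    fun b => ⟨Sum.elim id Prod.fst ⁻¹' b.1, ⟨mem_inf_of_right (mem_principal_self _),
      tendsto_fst' (mem_inf_of_right (mem_principal_self _))⟩,
      fun _ hk => ⟨c_sep hM hk, tendsto_fst' (c_sep hM hk)⟩⟩

lemma fin_of (hmax : ∀ E : Set ℕ, E.Infinite → ∃ b ∈ M, (b ∩ E).Infinite) {E : Set ℕ}
    (h : ∀ b : M, Eᶜ ∈ c b) : E.Finite := by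
  by_contra hE
  obtain ⟨b, hb, h'⟩ := hmax E hE
  exact h' ((mem_inf_principal.1 (h ⟨b, hb⟩) : Set.Finite _).subset fun n hn h => h hn.1 hn.2)

theorem ue (hmax : ∀ E : Set ℕ, E.Infinite → ∃ b ∈ M, (b ∩ E).Infinite) :
    UE (MS (FA M) ⊕ FS (cofinite : Filter ℕ)) (MS (FY M)) := by
  have hℓ : ∀ b : M, Tendsto id (c b) atTop := fun b => by
    rw [← Nat.cofinite_eq_atTop]; exact inf_le_left
  obtain ⟨m, hm, hmt⟩ : ∃ m : ℕ → (MS (FA M) → ℝ) → ℝ, (∀ n, UniformContinuous (m n)) ∧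
      ∀ u, Continuous u → ∀ b, Tendsto (fun n => m n u) (c b) (𝓝 (u (jp _ b))) := by
    refine ⟨fun n u => med n fun s => u (dp _ (n, s)), fun n => (med_uc n).comp
      (uniformContinuous_pi.2 fun s => Pi.uniformContinuous_proj (fun _ => ℝ) (dp _ (n, s))),
      fun u hu b => ?_⟩
    have h1 := med_tendsto (f := fun a => u (dp _ a)) (hℓ b) (MSp.cont_iff.1 hu b)
    exact h1
  let i : MS (FA M) → MS (FY M) := Sum.map .inr id
  have hi : Continuous i := MSp.cont_iff.2 fun b =>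
    (MSp.cont_iff.1 continuous_id b).comp (tendsto_map.mono_right le_sup_right)
  let t : (MS (FA M) ⊕ FS (cofinite : Filter ℕ) → ℝ) → ℕ → ℝ := fun g n =>
    Nat.casesOn n (g (.inr (oo _))) fun k =>
      g (.inr (pt _ k)) - g (.inr (oo _)) + m (k + 1) fun x => g (.inl x)
  refine UE.mk' (fun g => Sum.elim (Sum.elim (t g) fun d => g (.inl (dp _ d)))
      fun b => g (.inl (jp _ b)))
    (fun f => Sum.elim (f ∘ i) fun o => Option.elim o 0
      (fun k => f (dp _ (.inl (k + 1))) - m (k + 1) (f ∘ i)) + f (dp _ (.inl 0)))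
    (fun g => ?_) (fun f => ?_) ?_ ?_ (fun g hg => ?_) fun f hf => ?_
  · ext (x | _ | k)
    · rcases x with d | b <;> rfl
    · exact zero_add _
    · have h : ∀ u : MS (FA M) → ℝ, (u = fun x => g (.inl x)) →
          g (.inr (pt _ k)) - g (.inr (oo _)) + m (k + 1) (fun x => g (.inl x)) - m (k + 1) u +
            g (.inr (oo _)) = g (.inr (pt _ k)) := by
        rintro _ rfl
        ring
      refine h _ ?_
      ext (d | b) <;> rfl
  · ext (((_ | k) | d) | b)
    · exact zero_add _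
    · show f (dp _ (.inl (k + 1))) - m (k + 1) (f ∘ i) + f (dp _ (.inl 0)) -
        (0 + f (dp _ (.inl 0))) + m (k + 1) (f ∘ i) = f (dp _ (.inl (k + 1)))
      ring
    · rfl
    · rfl
  · have hp := fun x => Pi.uniformContinuous_proj
      (fun _ : MS (FA M) ⊕ FS (cofinite : Filter ℕ) => ℝ) x
    rintro (((_ | k) | d) | b)
    · exact hp _
    · exact ((hp _).sub (hp _)).add ((hm _).comp (uniformContinuous_pi.2 fun x => hp _))
    · exact hp _
    · exact hp _
  · have hp := fun x => Pi.uniformContinuous_proj (fun _ : MS (FY M) => ℝ) x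
    rintro (x | _ | k)
    · exact hp _
    · exact uniformContinuous_const.add (hp _)
    · exact ((hp _).sub ((hm _).comp (uniformContinuous_pi.2 fun x => hp _))).add (hp _)
  · have h1 := hg.comp continuous_inl
    refine MSp.cont_iff.2 fun b => tendsto_sup.2 ⟨tendsto_map' ?_, tendsto_map' ?_⟩
    · have h2 := (FS.cont_iff.1 (hg.comp continuous_inr)).sub_const (g (.inr (oo _)))
      rw [Function.comp_apply, sub_self, Nat.cofinite_eq_atTop] at h2
      have h3 := ((h2.comp (tendsto_sub_atTop_nat 1)).mono_left (hℓ b)).add (hmt _ h1 b)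
      rw [zero_add] at h3
      refine h3.congr' (((hℓ b).eventually_gt_atTop 0).mono ?_)
      rintro (_ | k) hk
      · exact (lt_irrefl _ hk).elim
      · rfl
    · exact MSp.cont_iff.1 h1 b
  · refine (hf.comp hi).sumElim (FS.cont_iff.2 ?_)
    have h1 : Tendsto (fun n => f (dp _ (.inl n)) - m n (f ∘ i)) cofinite (𝓝 0) := by
      refine fun s hs => fin_of hmax fun b => ?_
      have h2 := ((MSp.cont_iff.1 hf b).comp (tendsto_map.mono_right le_sup_left)).sub
        (hmt _ (hf.comp hi) b)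
      rw [show f (jp _ b) - (f ∘ i) (jp _ b) = 0 from sub_self _] at h2
      rw [compl_compl]
      exact h2 hs
    exact (h1.comp (add_left_injective 1).tendsto_cofinite).add_const _

def Ps {Z : Type} [TopologicalSpace Z] (S : Set Z) : Prop :=
  ∀ f : C(S, ℝ), ∃ K : ℝ, ∀ a, |f a| ≤ K

theorem sigY (hinf : ∀ b ∈ M, b.Infinite)
    (hmax : ∀ E : Set ℕ, E.Infinite → ∃ b ∈ M, (b ∩ E).Infinite) :
    ∃ S : ℕ → Set (MS (FY M)), (⋃ n, S n) = univ ∧ ∀ n, Ps (S n) := by
  obtain ⟨e, he⟩ := exists_surjective_nat (Option (ℕ × ℕ × ℕ))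
  let P : Set (MS (FY M)) := (range fun d => dp _ (.inr d))ᶜ
  refine ⟨fun n => Option.elim (e n) P fun d => {dp _ (.inr d)}, eq_univ_of_forall fun x => ?_,
    fun n => ?_⟩
  · by_cases hx : x ∈ P
    · obtain ⟨n, hn⟩ := he none
      exact mem_iUnion.2 ⟨n, by rw [hn]; exact hx⟩
    · obtain ⟨d, rfl⟩ := not_not.1 hx
      obtain ⟨n, hn⟩ := he (some d)
      exact mem_iUnion.2 ⟨n, by rw [hn]; rfl⟩
  show Ps (Option.elim (e n) P fun d => {dp _ (.inr d)})
  rcases e n with _ | d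
  swap
  · exact fun f => ⟨|f ⟨_, rfl⟩|, by rintro ⟨_, rfl⟩; rfl⟩
  intro f
  let p : ℕ → P := fun n => ⟨dp _ (.inl n), fun ⟨_, h⟩ => Sum.inr_ne_inl (dp_inj h)⟩
  let q : M → P := fun b => ⟨jp _ b, fun ⟨_, h⟩ => dp_ne _ _ h⟩
  have h1 : ∀ b, Tendsto (fun n => |f (p n)|) (c b) (𝓝 |f (q b)|) := fun b =>
    ((f.continuous.tendsto _).comp (tendsto_subtype_rng.2
      ((MSp.cont_iff.1 continuous_id b).comp (tendsto_map.mono_right le_sup_left)))).abs
  obtain ⟨K, hK⟩ : ∃ K : ℝ, ∀ n, |f (p n)| ≤ K := by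
    by_contra h
    push Not at h
    choose u hu using fun k : ℕ => h k
    have h2 : (range u).Finite := fin_of hmax fun b => by
      obtain ⟨N, hN⟩ := exists_nat_gt |f (q b)|
      filter_upwards [(h1 b).eventually (gt_mem_nhds hN), mem_inf_of_left
        ((finite_Iic N).image u).compl_mem_cofinite] with n h3 h4
      rintro ⟨k, rfl⟩
      exact h4 ⟨k, Nat.cast_le.1 ((hu k).trans h3).le, rfl⟩
    obtain ⟨K, hK⟩ := (h2.image fun n => |f (p n)|).bddAbove
    obtain ⟨k, hk⟩ := exists_nat_gt K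
    exact absurd (hK ⟨_, ⟨k, rfl⟩, rfl⟩) (not_le.2 (hk.trans (hu k)))
  refine ⟨K, ?_⟩
  rintro ⟨(n | d) | b, hx⟩
  · exact hK n
  · exact (hx ⟨d, rfl⟩).elim
  · have : (c b).NeBot := cofinite_inf_principal_neBot_iff.2 (hinf b.1 b.2)
    exact le_of_tendsto' (h1 b) hK

lemma fin_of_bdd {β : Type} {W : Set β} (h : ∀ φ : β → ℝ, ∃ K : ℝ, ∀ x ∈ W, |φ x| ≤ K) :
    W.Finite := by
  by_contra hW
  let u : ℕ → β := fun n => Set.Infinite.natEmbedding W hW n
  have hu : Function.Injective u := Subtype.val_injective.comp (Set.Infinite.natEmbedding W hW).injective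
  obtain ⟨K, hK⟩ := h (Function.extend u Nat.cast 0)
  obtain ⟨n, hn⟩ := exists_nat_gt K
  have := hK (u n) (Set.Infinite.natEmbedding W hW n).2
  rw [hu.extend_apply, Nat.abs_cast] at this
  exact absurd this (not_le.2 hn)

theorem nsigX {Z : Type} [TopologicalSpace Z] (hM : ¬ M.Countable)
    (S : ℕ → Set (MS (FA M) ⊕ Z)) (hS : (⋃ n, S n) = univ) (h : ∀ n, Ps (S n)) : False := by
  classical
  have key : ∀ n, {b : M | .inl (jp _ b) ∈ S n}.Finite := by
    intro n
    let T : Set (ℕ × ℕ × ℕ) := {d | .inl (dp _ d) ∈ S n}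
    have h1 : ∀ B : Set (ℕ × ℕ × ℕ), (∀ b, Bᶜ ∈ FA M b) → (B ∩ T).Finite := by
      refine fun B hB => fin_of_bdd fun φ => ?_
      let g : MS (FA M) → ℝ := Sum.elim (B.indicator φ) 0
      have hg : Continuous g := MSp.cont_iff.2 fun b => tendsto_const_nhds.congr'
        (mem_of_superset (hB b) fun d hd => (indicator_of_notMem hd φ).symm)
      obtain ⟨K, hK⟩ := h n ⟨fun x => Sum.elim g 0 x.1,
        (hg.sumElim continuous_zero).comp continuous_subtype_val⟩
      exact ⟨K, fun d hd => indicator_of_mem hd.1 φ ▸ hK ⟨_, hd.2⟩⟩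
    obtain ⟨B, hB, hb⟩ := exists_subset_bijOn T Prod.fst
    have h2 : (Prod.fst '' T).Finite := by
      rw [← hb.image_eq]
      exact ((h1 B fun _ => sel hb.injOn).subset fun a ha => ⟨ha, hB ha⟩).image _
    have h3 : T.Finite := (h2.biUnion fun k _ => h1 _ fun _ => fib inf_le_left k).subset
      fun a ha => mem_biUnion (mem_image_of_mem _ ha) ⟨rfl, ha⟩
    refine fin_of_bdd fun φ => ?_
    let g : MS (FA M) ⊕ Z → ℝ := Sum.elim (Sum.elim 0 φ) 0
    have hg : IsLocallyConstant fun x : S n => g x.1 := by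
      refine (IsLocallyConstant.iff_exists_open _).2 ?_
      rintro ⟨(d | b) | z, hx⟩
      · refine ⟨Subtype.val ⁻¹' (Sum.inl '' (dp _ '' univ)), (isOpenMap_inl _
          (open_dp _)).preimage continuous_subtype_val, ⟨_, ⟨d, trivial, rfl⟩, rfl⟩, ?_⟩
        rintro ⟨_, _⟩ ⟨_, ⟨d', -, rfl⟩, rfl⟩
        rfl
      · refine ⟨Subtype.val ⁻¹' (Sum.inl '' insert (jp _ b) (dp _ '' Tᶜ)), (isOpenMap_inl _
          (MSp.isOpen_iff.2 fun k _ => mem_of_superset (blow_le inf_le_left h3.compl_mem_cofinite)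
            fun d hd => mem_insert_of_mem _ (mem_image_of_mem _ hd))).preimage continuous_subtype_val,
          ⟨_, Or.inl rfl, rfl⟩, ?_⟩
        rintro ⟨_, hx'⟩ ⟨_, rfl | ⟨d', hd, rfl⟩, rfl⟩
        · rfl
        · exact (hd hx').elim
      · refine ⟨Subtype.val ⁻¹' range Sum.inr, isOpen_range_inr.preimage continuous_subtype_val,
          ⟨z, rfl⟩, ?_⟩
        rintro ⟨_, _⟩ ⟨z', rfl⟩
        rfl
    obtain ⟨K, hK⟩ := h n ⟨_, hg.continuous⟩
    exact ⟨K, fun b hb => hK ⟨_, hb⟩⟩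
  refine hM (countable_coe_iff.1 (countable_univ_iff.1 ((countable_iUnion fun n =>
    (key n).countable).mono fun b _ => ?_)))
  obtain ⟨n, hn⟩ := mem_iUnion.1 (eq_univ_iff_forall.1 hS (Sum.inl (jp _ b)))
  exact mem_iUnion.2 ⟨n, hn⟩

end Pool.Agent.H82.SigPs
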