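import Mathlib

set_option autoImplicit false

open Set Filter Topology

namespace Pool.Agent.H82.Simon

def col (A : Set (ℕ × ℕ)) (k : ℕ) : Set ℕ := {i | (k, i) ∈ A}

def Thin (A : Set (ℕ × ℕ)) : Prop := ∀ k, (col A k).Finite

def Pos (B : Set (ℕ × ℕ)) : Prop := {k | (col B k).Infinite}.Infinite

theorem Thin.lt {A : Set (ℕ × ℕ)} (h : Thin A) (n : ℕ) : {q ∈ A | q.1 < n}.Finite := by
  refine ((finite_Iio n).biUnion fun k _ => (h k).image (Prod.mk k)).subset ?_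
  rintro ⟨k, i⟩ ⟨h1, h2⟩
  exact mem_biUnion (show k ∈ Iio n from h2) ⟨i, h1, rfl⟩

theorem Pos.thin {B : Set (ℕ × ℕ)} (h : Pos B) : ∃ E ⊆ B, E.Infinite ∧ Thin E := by
  have : ∀ k, ∃ i, (col B k).Infinite → i ∈ col B k := fun k => by
    by_cases hk : (col B k).Infinite
    · exact ⟨hk.nonempty.some, fun _ => hk.nonempty.some_mem⟩
    · exact ⟨0, fun h => absurd h hk⟩
  choose g hg using this
  refine ⟨(fun k => (k, g k)) '' {k | (col B k).Infinite}, ?_,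
    h.image fun a _ b _ hab => congrArg Prod.fst hab, fun k => (finite_singleton (g k)).subset ?_⟩
  · rintro _ ⟨k, hk, rfl⟩
    exact hg k hk
  · rintro i ⟨k', -, h⟩
    cases h
    rfl

theorem Pos.diff {B A : Set (ℕ × ℕ)} (h : Pos B) (hA : Thin A) : Pos (B \ A) :=
  Infinite.mono (fun k hk => Infinite.sdiff hk (hA k)) h

theorem mad : ∃ M : Set (Set (ℕ × ℕ)), (∀ A ∈ M, Thin A) ∧
    (M.Pairwise fun A A' => (A ∩ A').Finite) ∧
    ∀ E, E.Infinite → Thin E → ∃ A ∈ M, (A ∩ E).Infinite := by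
  obtain ⟨M, hM⟩ := zorn_subset {M : Set (Set (ℕ × ℕ)) | (∀ A ∈ M, Thin A ∧ A.Infinite) ∧
      M.Pairwise fun A A' => (A ∩ A').Finite} (by
    intro c hc hch
    refine ⟨⋃₀ c, ⟨?_, ?_⟩, fun s hs => subset_sUnion_of_mem hs⟩
    · rintro A ⟨s, hs, hA⟩
      exact (hc hs).1 A hA
    · exact (pairwise_sUnion hch.directedOn).2 fun s hs => (hc hs).2)
  refine ⟨M, fun A hA => (hM.prop.1 A hA).1, hM.prop.2, fun E hE hE' => ?_⟩
  by_contra hn
  push Not at hn
  have : insert E M ⊆ M := by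
    refine hM.le_of_ge ⟨?_, ?_⟩ (subset_insert _ _)
    · rintro A (rfl | hA)
      · exact ⟨hE', hE⟩
      · exact hM.prop.1 A hA
    · exact hM.prop.2.insert fun A hA _ => ⟨inter_comm A E ▸ hn A hA, hn A hA⟩
  exact hE (by simpa using hn E (this (mem_insert _ _)))

theorem simon : ∃ (B : Set (ℕ × ℕ)) (M : Set (Set (ℕ × ℕ))), Pos B ∧ (∀ A ∈ M, Thin A) ∧
    (∀ B' ⊆ B, Pos B' → ∃ A ∈ M, (A ∩ B').Infinite) ∧
    ∀ B' ⊆ B, Pos B' → ∃ E ⊆ B', E.Infinite ∧ Thin E ∧ ∀ A ∈ M, (A ∩ E).Finite := by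
  obtain ⟨M, h1, h2, h3⟩ := mad
  by_cases hc : ∃ B p, Pos B ∧ ∀ B' ⊆ B, Pos B' → ∃ A ∈ M, ∃ A' ∈ M, (A ∩ B').Infinite ∧
      (A' ∩ B').Infinite ∧ p ∈ A ∧ p ∉ A'
  · obtain ⟨B, p, hB, h⟩ := hc
    refine ⟨B, {A ∈ M | p ∈ A}, hB, fun A hA => h1 A hA.1, fun B' a b => ?_, fun B' a b => ?_⟩
    · obtain ⟨A, hA, -, -, c, -, d, -⟩ := h B' a b
      exact ⟨A, ⟨hA, d⟩, c⟩
    · obtain ⟨-, -, A, hA, -, c, -, d⟩ := h B' a b
      refine ⟨A ∩ B', inter_subset_right, c, fun k => (h1 A hA k).subset fun _ h => h.1,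
        fun A' hA' => ?_⟩
      exact (h2 hA'.1 hA fun e => d (e ▸ hA'.2)).subset
        (inter_subset_inter_right _ inter_subset_left)
  exfalso
  push Not at hc
  have hc' : ∀ B p, ∃ B', Pos B → B' ⊆ B ∧ Pos B' ∧ ∀ A ∈ M, ∀ A' ∈ M, (A ∩ B').Infinite →
      (A' ∩ B').Infinite → p ∈ A → p ∈ A' := by
    intro B p
    by_cases hB : Pos B
    · obtain ⟨B', h⟩ := hc B p hB
      exact ⟨B', fun _ => h⟩
    · exact ⟨B, fun h => absurd h hB⟩
  choose F hF using hc'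
  obtain ⟨e, he⟩ := exists_surjective_nat (ℕ × ℕ)
  let B : ℕ → Set (ℕ × ℕ) := fun n => Nat.rec univ (fun n B => F B (e n)) n
  have hB : ∀ n, Pos (B n) := by
    intro n
    induction n with
    | zero =>
      refine infinite_univ.mono fun k _ => infinite_univ.mono fun i _ => mem_univ _
    | succ n ih => exact (hF _ _ ih).2.1
  have hBa : Antitone B := antitone_nat_of_succ_le fun n => (hF _ _ (hB n)).1
  have hg := fun n m => (hB n).exists_gt m
  choose g hg hg' using hg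
  let k : ℕ → ℕ := fun n => Nat.rec (g 0 0) (fun n k => g (n + 1) k) n
  have hk : ∀ n, (col (B n) (k n)).Infinite := by
    rintro (_ | n)
    · exact hg 0 0
    · exact hg (n + 1) (k n)
  have hkm : StrictMono k := strictMono_nat_of_lt_succ fun n => hg' _ _
  let C : Set (ℕ × ℕ) := {q | ∀ n, q ∈ B n ∨ q.1 < k n}
  have hC : Pos C := by
    refine (infinite_range_of_injective hkm.injective).mono ?_
    rintro _ ⟨n, rfl⟩
    refine (hk n).mono fun i hi m => ?_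
    rcases le_or_gt m n with h | h
    · exact Or.inl (hBa h hi)
    · exact Or.inr (hkm h)
  have hA : ∀ A ∈ M, (A ∩ C).Infinite → ∀ n, (A ∩ B n).Infinite := by
    intro A hA h n hf
    refine h ((hf.union ((h1 A hA).lt (k n))).subset fun q hq => ?_)
    exact (hq.2 n).imp (fun h => ⟨hq.1, h⟩) fun h => ⟨hq.1, h⟩
  obtain ⟨E, a1, a2, a3⟩ := hC.thin
  obtain ⟨A, hAM, a4⟩ := h3 E a2 a3
  obtain ⟨E', b1, b2, b3⟩ := (hC.diff (h1 A hAM)).thin
  obtain ⟨A', hAM', b4⟩ := h3 E' b2 b3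
  have c1 := hA A hAM (a4.mono (inter_subset_inter_right _ a1))
  have c2 := hA A' hAM' (b4.mono (inter_subset_inter_right _ (b1.trans sdiff_subset)))
  obtain ⟨p, hp, hp'⟩ := b4.nonempty
  obtain ⟨n, rfl⟩ := he p
  exact (b1 hp').2 ((hF _ (e n) (hB n)).2.2 A' hAM' A hAM (c2 (n + 1)) (c1 (n + 1)) hp)

inductive Y : Type
  | d (p : ℕ × ℕ)
  | s (k : ℕ)
  | top
  deriving Countable

@[instance_reducible] def topo (B : Set (ℕ × ℕ)) (M : Set (Set (ℕ × ℕ))) : TopologicalSpace Y where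
  IsOpen U := (∀ k, Y.s k ∈ U → {i ∈ col B k | Y.d (k, i) ∉ U}.Finite) ∧
    (Y.top ∈ U → {k | Y.s k ∉ U}.Finite ∧ ∀ A ∈ M, {p ∈ A ∩ B | Y.d p ∉ U}.Finite)
  isOpen_univ := by simp
  isOpen_inter := by
    intro s t hs ht
    refine ⟨fun k hk => ((hs.1 k hk.1).union (ht.1 k hk.2)).subset ?_, fun h =>
      ⟨((hs.2 h.1).1.union (ht.2 h.2).1).subset ?_, fun A hA =>
        (((hs.2 h.1).2 A hA).union ((ht.2 h.2).2 A hA)).subset ?_⟩⟩
    · intro i hi
      exact (not_and_or.1 hi.2).imp (fun h => ⟨hi.1, h⟩) fun h => ⟨hi.1, h⟩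
    · intro i hi
      exact not_and_or.1 hi
    · intro i hi
      exact (not_and_or.1 hi.2).imp (fun h => ⟨hi.1, h⟩) fun h => ⟨hi.1, h⟩
  isOpen_sUnion := by
    intro s hs
    refine ⟨fun k ⟨t, ht, hk⟩ => ((hs t ht).1 k hk).subset fun i hi =>
      ⟨hi.1, fun h => hi.2 ⟨t, ht, h⟩⟩, fun ⟨t, ht, h⟩ =>
      ⟨((hs t ht).2 h).1.subset fun i hi h => hi ⟨t, ht, h⟩, fun A hA =>
        (((hs t ht).2 h).2 A hA).subset fun i hi => ⟨hi.1, fun h => hi.2 ⟨t, ht, h⟩⟩⟩⟩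

theorem t1 (B : Set (ℕ × ℕ)) (M : Set (Set (ℕ × ℕ))) : @T1Space Y (topo B M) := by
  let := topo B M
  refine ⟨fun x => isOpen_compl_iff.1 ⟨fun k _ => ?_, fun _ => ⟨?_, fun A _ => ?_⟩⟩⟩
  · refine Subsingleton.finite fun i hi j hj => ?_
    have := (not_not.1 hi.2).trans (not_not.1 hj.2).symm
    simpa using this
  · refine Subsingleton.finite fun i hi j hj => ?_
    have := (not_not.1 hi).trans (not_not.1 hj).symm
    simpa using this
  · refine Subsingleton.finite fun i hi j hj => ?_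
    have := (not_not.1 hi.2).trans (not_not.1 hj.2).symm
    simpa using this

theorem seq_of {α Z : Type} [TopologicalSpace Z] {S : Set Z} {z : Z} (g : α → Z) (T : Set α)
    (hT : T.Infinite) (hS : ∀ a ∈ T, g a ∈ S)
    (h : ∀ U, IsOpen U → z ∈ U → {a ∈ T | g a ∉ U}.Finite) : z ∈ seqClosure S := by
  let e := hT.natEmbedding
  refine ⟨fun n => g (e n), fun n => hS _ (e n).2, tendsto_nhds.2 fun U hU hz => ?_⟩
  rw [← Nat.cofinite_eq_atTop, mem_cofinite]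
  refine ((h U hU hz).preimage (f := fun n => (e n).1)
    (Subtype.val_injective.comp e.injective).injOn).subset fun n hn => ⟨(e n).2, hn⟩

theorem frechet (B : Set (ℕ × ℕ)) (M : Set (Set (ℕ × ℕ)))
    (h : ∀ B' ⊆ B, Pos B' → ∃ A ∈ M, (A ∩ B').Infinite) :
    @FrechetUrysohnSpace Y (topo B M) := by
  let := topo B M
  refine ⟨fun S x hx => ?_⟩
  by_cases hxS : x ∈ S
  · exact subset_seqClosure hxS
  rcases x with p | k | _
  · obtain ⟨y, hy, hy'⟩ := mem_closure_iff.1 hx {Y.d p} ⟨by simp, by simp⟩ rfl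
    exact absurd (hy ▸ hy') hxS
  · by_cases hc : {i ∈ col B k | Y.d (k, i) ∈ S}.Infinite
    · exact seq_of (fun i => Y.d (k, i)) _ hc (fun a ha => ha.2) fun U hU hz =>
        (hU.1 k hz).subset fun a ha => ⟨ha.1.1, ha.2⟩
    · obtain ⟨y, hy, hy'⟩ := mem_closure_iff.1 hx (insert (Y.s k) (range Y.d \ S)) ⟨by
        intro j hj
        obtain rfl : j = k := by simpa using hj
        refine (not_infinite.1 hc).subset fun i hi => ⟨hi.1, ?_⟩
        simpa using hi.2, by simp⟩ (mem_insert _ _)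
      rcases hy with rfl | hy
      · exact absurd hy' hxS
      · exact absurd hy' hy.2
  · by_cases hc : {k | Y.s k ∈ S}.Infinite
    · exact seq_of Y.s _ hc (fun a ha => ha) fun U hU hz =>
        (hU.2 hz).1.subset fun a ha => ha.2
    by_cases hc' : ∃ A ∈ M, (A ∩ {p ∈ B | Y.d p ∈ S}).Infinite
    · obtain ⟨A, hA, hA'⟩ := hc'
      exact seq_of Y.d _ hA' (fun a ha => ha.2.2) fun U hU hz =>
        ((hU.2 hz).2 A hA).subset fun a ha => ⟨⟨ha.1.1, ha.1.2.1⟩, ha.2⟩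
    have hp : ¬ Pos {p ∈ B | Y.d p ∈ S} := fun hp => hc' (h _ (sep_subset _ _) hp)
    obtain ⟨y, hy, hy'⟩ := mem_closure_iff.1 hx
      (Sᶜ \ Y.s '' {k | (col {p ∈ B | Y.d p ∈ S} k).Infinite}) ⟨by
        intro j hj
        have : (col {p ∈ B | Y.d p ∈ S} j).Finite := not_infinite.1 fun h => hj.2 ⟨j, h, rfl⟩
        refine this.subset fun i hi => ⟨hi.1, ?_⟩
        simpa using hi.2, fun _ => ⟨by
          refine ((not_infinite.1 hc).union (not_infinite.1 hp)).subset fun k hk => ?_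
          by_contra hn
          rw [mem_union, not_or] at hn
          refine hk ⟨hn.1, ?_⟩
          rintro ⟨j, hj, e⟩
          cases e
          exact hn.2 hj, fun A hA => by
          refine (not_infinite.1 fun h => hc' ⟨A, hA, h⟩).subset fun p hp => ⟨hp.1.1, hp.1.2, ?_⟩
          simpa using hp.2⟩⟩ ⟨hxS, by simp⟩
    exact absurd hy' hy.1

theorem semistrat {Z : Type} [TopologicalSpace Z] [T1Space Z] [Countable Z] [Nonempty Z] :
    ∃ G : Set Z → ℕ → Set Z, (∀ F : Set Z, IsClosed F → ∀ n, IsOpen (G F n)) ∧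
      (∀ F : Set Z, IsClosed F → ⋂ n, G F n = F) ∧
      (∀ F K : Set Z, IsClosed F → IsClosed K → F ⊆ K → ∀ n, G F n ⊆ G K n) := by
  obtain ⟨e, he⟩ := exists_surjective_nat Z
  refine ⟨fun F n => ({e n} \ F)ᶜ, fun F _ n =>
    ((finite_singleton _).sdiff).isClosed.isOpen_compl, fun F _ => ?_,
    fun F K _ _ h n => compl_subset_compl.2 (sdiff_subset_sdiff_right h)⟩
  ext x
  obtain ⟨n, rfl⟩ := he x
  refine ⟨fun h => ?_, fun h => mem_iInter.2 fun m hm => hm.2 h⟩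
  by_contra hn
  exact mem_iInter.1 h n ⟨rfl, hn⟩

theorem not_image (B : Set (ℕ × ℕ)) (M : Set (Set (ℕ × ℕ))) (hB : Pos B)
    (h : ∀ B' ⊆ B, Pos B' → ∃ E ⊆ B', E.Infinite ∧ Thin E ∧ ∀ A ∈ M, (A ∩ E).Finite)
    {X : Type} [TopologicalSpace X] [FirstCountableTopology X] (f : X → Y)
    (hf : @Continuous _ _ _ (topo B M) f) (hcl : @IsClosedMap _ _ _ (topo B M) f)
    (hs : Function.Surjective f) : False := by
  let := topo B M
  have := t1 B M
  choose x hx using fun p => hs (Y.d p)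
  have key : ∀ (S : Set X) (y : Y), y ∈ closure (f '' S) → ∃ z ∈ closure S, f z = y :=
    fun S y hy => hcl.closure_image_subset S hy
  have h1 : ∀ k, ∃ z, (col B k).Infinite → f z = Y.s k ∧
      ∀ U, IsOpen U → z ∈ U → {i ∈ col B k | x (k, i) ∈ U}.Infinite := by
    intro k
    by_cases hk : (col B k).Infinite
    · obtain ⟨z, hz, hz'⟩ := key ((fun i => x (k, i)) '' col B k) (Y.s k) (by
        refine mem_closure_iff.2 fun U hU hk' => ?_
        obtain ⟨i, hi, hi'⟩ := (hk.sdiff (hU.1 k hk')).nonempty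
        exact ⟨Y.d (k, i), by_contra fun hn => hi' ⟨hi, hn⟩, _, ⟨i, hi, rfl⟩, hx _⟩)
      refine ⟨z, fun _ => ⟨hz', fun U hU hzU hfin => ?_⟩⟩
      have hc : IsClosed ((fun i => Y.d (k, i)) '' {i ∈ col B k | x (k, i) ∈ U}) :=
        (hfin.image _).isClosed
      obtain ⟨_, ⟨a1, a2⟩, i, hi, rfl⟩ := mem_closure_iff.1 hz _
        (hU.inter (hc.isOpen_compl.preimage hf)) ⟨hzU, by simp [hz']⟩
      exact a2 ⟨i, ⟨hi, a1⟩, (hx _).symm⟩
    · exact ⟨x 0, fun h => absurd h hk⟩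
  choose z hz using h1
  obtain ⟨w, hw, hw'⟩ := key (z '' {k | (col B k).Infinite}) Y.top (by
    refine mem_closure_iff.2 fun U hU hk' => ?_
    obtain ⟨k, hk, hk''⟩ := (hB.sdiff (hU.2 hk').1).nonempty
    exact ⟨Y.s k, not_not.1 hk'', _, ⟨k, hk, rfl⟩, (hz k hk).1⟩)
  obtain ⟨V, hV, hVb⟩ := (nhds_basis_opens w).exists_antitone_subbasis
  have h2 : ∀ m, {k | (col B k).Infinite ∧ z k ∈ V m}.Infinite := by
    intro m hfin
    have hc : IsClosed (Y.s '' {k | (col B k).Infinite ∧ z k ∈ V m}) := (hfin.image _).isClosed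
    obtain ⟨_, ⟨a1, a2⟩, k, hk, rfl⟩ := mem_closure_iff.1 hw _
      ((hV m).2.inter (hc.isOpen_compl.preimage hf)) ⟨(hV m).1, by simp [hw']⟩
    exact a2 ⟨k, ⟨hk, a1⟩, (hz k hk).1.symm⟩
  have hg := fun n m => (h2 n).exists_gt m
  choose g hg hg' using hg
  let k : ℕ → ℕ := fun n => Nat.rec (g 0 0) (fun n k => g (n + 1) k) n
  have hk : ∀ n, (col B (k n)).Infinite ∧ z (k n) ∈ V n := by
    rintro (_ | n)
    · exact hg 0 0
    · exact hg (n + 1) (k n)
  have hkm : StrictMono k := strictMono_nat_of_lt_succ fun n => hg' _ _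
  obtain ⟨E, e1, e2, e3, e4⟩ := h {q ∈ B | ∀ n, x q ∈ V n ∨ q.1 < k n} (sep_subset _ _) (by
    refine (infinite_range_of_injective hkm.injective).mono ?_
    rintro _ ⟨n, rfl⟩
    refine ((hz _ (hk n).1).2 _ (hV n).2 (hk n).2).mono fun i hi => ⟨hi.1, fun m => ?_⟩
    rcases le_or_gt m n with h | h
    · exact Or.inl (hVb.antitone h hi.2)
    · exact Or.inr (hkm h))
  have ho : IsOpen (Y.d '' E)ᶜ := by
    refine ⟨fun k _ => (e3 k).subset fun i hi => ?_, fun _ => ⟨by simp, fun A hA =>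
      (e4 A hA).subset fun p hp => ⟨hp.1.1, ?_⟩⟩⟩
    · simpa [col] using hi.2
    · simpa using hp.2
  obtain ⟨n, hn⟩ := hVb.mem_iff.1 ((ho.preimage hf).mem_nhds (x := w) (by simp [hw']))
  obtain ⟨q, hq, hq'⟩ := (e2.sdiff (e3.lt (k n))).nonempty
  exact hn (((e1 hq).2 n).resolve_right fun h => hq' ⟨hq, h⟩) ⟨q, hq, (hx q).symm⟩

end Pool.Agent.H82.Simon
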