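import Mathlib

/-! Spaces in which every zero-free complex function on a closed set has a logarithm. -/

set_option autoImplicit false

namespace Pool.Agent.H82.Smi

open Set Topology Filter Complex

/-- Every continuous function without zeros on a closed set has a continuous logarithm there. -/
def LogP (X : Type) [TopologicalSpace X] : Prop :=
  ∀ F : Set X, IsClosed F → ∀ θ : X → ℂ, Continuous θ → (∀ x ∈ F, θ x ≠ 0) →
    ∃ l : X → ℂ, Continuous l ∧ ∀ x ∈ F, exp (l x) = θ x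

theorem const_of_exp {X : Type} [TopologicalSpace X] {s : Set X} (hs : IsPreconnected s)
    {l : X → ℂ} (hl : ContinuousOn l s) {c : ℂ} (h : ∀ x ∈ s, exp (l x) = c) {a b : X}
    (ha : a ∈ s) (hb : b ∈ s) : l a = l b :=
  isCoveringMap_exp.constOn_of_comp hs hl
    (fun x hx y hy => Subtype.ext ((h x hx).trans (h y hy).symm)) ha hb

theorem extend {X : Type} [TopologicalSpace X] [NormalSpace X] {F : Set X} (hF : IsClosed F)
    {l : X → ℂ} (hl : ContinuousOn l F) : ∃ l' : X → ℂ, Continuous l' ∧ ∀ x ∈ F, l' x = l x := by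
  obtain ⟨g, hg⟩ := ContinuousMap.exists_restrict_eq hF
    (⟨F.domRestrict l, hl.domRestrict⟩ : C(F, ℂ))
  exact ⟨g, g.continuous, fun x hx => congrFun (congrArg DFunLike.coe hg) ⟨x, hx⟩⟩

theorem LogP.of_inj {X Z : Type} [TopologicalSpace X] [TopologicalSpace Z] [CompactSpace X]
    [T2Space X] [CompactSpace Z] (h : LogP X) {e : Z → X} (he : Continuous e)
    (hi : Function.Injective e) : LogP Z := by
  intro F hF θ hθ h0
  have hc := he.isClosedEmbedding hi
  obtain ⟨g, hg⟩ := ContinuousMap.exists_extension' hc (⟨θ, hθ⟩ : C(Z, ℂ))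
  have hg' : ∀ z, g (e z) = θ z := fun z => congrFun hg z
  obtain ⟨l, hl, el⟩ := h (e '' F) (hc.isClosedMap _ hF) g g.continuous (by
    rintro _ ⟨z, hz, rfl⟩; rw [hg']; exact h0 z hz)
  exact ⟨l ∘ e, hl.comp he, fun z hz => by rw [← hg']; exact el _ ⟨z, hz, rfl⟩⟩

theorem LogP.of_monotone {X Z : Type} [TopologicalSpace X] [TopologicalSpace Z] [CompactSpace X]
    [CompactSpace Z] [T2Space Z] (h : LogP X) {π : X → Z} (hπ : Continuous π)
    (hs : Function.Surjective π) (hm : ∀ z, IsPreconnected (π ⁻¹' {z})) : LogP Z := by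
  intro F hF θ hθ h0
  obtain ⟨l, hl, el⟩ := h (π ⁻¹' F) (hF.preimage hπ) (θ ∘ π) (hθ.comp hπ) fun x hx => h0 _ hx
  choose s hs' using hs
  have e : ∀ x, π x ∈ F → l (s (π x)) = l x := fun x hx =>
    const_of_exp (hm (π x)) hl.continuousOn (c := θ (π x))
      (fun y hy => by
        have hy' : π y = π x := hy
        rw [el y (by rwa [mem_preimage, hy']), Function.comp_apply, hy']) (hs' _) rfl
  have hc : ContinuousOn (fun z => l (s z)) F := by
    rw [continuousOn_iff_isClosed]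
    intro t ht
    refine ⟨π '' (π ⁻¹' F ∩ l ⁻¹' t), hπ.isClosedMap _ ((hF.preimage hπ).inter (ht.preimage hl)),
      ?_⟩
    ext z
    constructor
    · rintro ⟨h1, h2⟩
      exact ⟨⟨s z, ⟨by rwa [mem_preimage, hs'], h1⟩, hs' z⟩, h2⟩
    · rintro ⟨⟨x, ⟨h1, h2⟩, rfl⟩, h3⟩
      exact ⟨by rwa [mem_preimage, e x h1], h3⟩
  obtain ⟨l', h1, h2⟩ := extend hF hc
  refine ⟨l', h1, fun z hz => ?_⟩
  rw [h2 z hz, el _ (by rwa [mem_preimage, hs']), Function.comp_apply, hs']

theorem tree_potential {n : ℕ} {G : SimpleGraph (Fin n)} (hG : G.IsAcyclic)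
    (c : Fin n → Fin n → ℂ) (hc : ∀ i j, c j i = -c i j) :
    ∃ m : Fin n → ℂ, (∀ i j, G.Adj i j → m j - m i = c i j) ∧
      ∀ S : AddSubgroup ℂ, (∀ i j, c i j ∈ S) → ∀ i, m i ∈ S := by
  classical
  refine ⟨fun v => ∑ e : Fin n × Fin n, if e.1 < e.2 ∧ G.Adj e.1 e.2 ∧
    (G.deleteEdges {s(e.1, e.2)}).Reachable e.2 v then c e.1 e.2 else 0, ?_, fun S hS i => ?_⟩
  · have key : ∀ i j, i < j → G.Adj i j → (∑ e : Fin n × Fin n, if e.1 < e.2 ∧ G.Adj e.1 e.2 ∧
        (G.deleteEdges {s(e.1, e.2)}).Reachable e.2 j then c e.1 e.2 else 0) -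
        (∑ e : Fin n × Fin n, if e.1 < e.2 ∧ G.Adj e.1 e.2 ∧
        (G.deleteEdges {s(e.1, e.2)}).Reachable e.2 i then c e.1 e.2 else 0) = c i j := by
      intro i j hij ha
      rw [← Finset.sum_sub_distrib, Finset.sum_eq_single (i, j)]
      · have hb := SimpleGraph.isBridge_iff.1
          (SimpleGraph.isAcyclic_iff_forall_adj_isBridge.1 hG ha)
        rw [if_pos ⟨hij, ha, .refl _⟩, if_neg fun h => hb h.2.2.symm, sub_zero]
      · intro e _ he
        by_cases h : e.1 < e.2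
        · have hadj : (G.deleteEdges {s(e.1, e.2)}).Adj i j := by
            rw [SimpleGraph.deleteEdges_adj]
            refine ⟨ha, fun h' => he ?_⟩
            rcases Sym2.eq_iff.1 h' with ⟨h1, h2⟩ | ⟨h1, h2⟩
            · exact Prod.ext h1.symm h2.symm
            · rw [← h1, ← h2] at h; exact absurd hij (not_lt.2 h.le)
          have : (G.deleteEdges {s(e.1, e.2)}).Reachable e.2 j ↔
              (G.deleteEdges {s(e.1, e.2)}).Reachable e.2 i :=
            ⟨fun h => h.trans hadj.reachable.symm, fun h => h.trans hadj.reachable⟩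
          simp only [this, sub_self]
        · simp [h]
      · simp
    intro i j ha
    rcases lt_or_gt_of_ne ha.ne with h | h
    · exact key i j h ha
    · have := key j i h ha.symm
      rw [hc j i]
      linear_combination -this
  · refine S.sum_mem fun e _ => ?_
    split_ifs
    · exact hS _ _
    · exact S.zero_mem

theorem im_log_lt {z : ℂ} (h : ‖z - 1‖ < 1) : |(log z).im| < Real.pi / 2 := by
  rw [log_im]
  refine abs_arg_lt_pi_div_two_iff.2 (Or.inl ?_)
  have h2 := (abs_re_le_norm (z - 1)).trans_lt h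
  rw [sub_re, one_re, abs_lt] at h2
  linarith [h2.1]

theorem logP_of_tree {X : Type} [TopologicalSpace X] [NormalSpace X]
    (h : ∀ 𝒰 : Set (Set X), (∀ U ∈ 𝒰, IsOpen U) → ⋃₀ 𝒰 = Set.univ →
      ∃ (n : ℕ) (V : Fin n → Set X), (∀ i, IsOpen (V i)) ∧ (⋃ i, V i) = Set.univ ∧
        (∀ i, ∃ U ∈ 𝒰, V i ⊆ U) ∧
        (SimpleGraph.fromRel (fun i j : Fin n => (V i ∩ V j).Nonempty)).IsAcyclic) :
    LogP X := by
  classical
  intro F hF θ hθ h0
  obtain ⟨n, V, hV, hU, hr, hT⟩ := h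
    (insert Fᶜ {U | ∃ c : ℂ, c ≠ 0 ∧ U = {y | ‖θ y / c - 1‖ < 1}}) (by
      rintro U (rfl | ⟨c, -, rfl⟩)
      · exact hF.isOpen_compl
      · exact isOpen_lt (by fun_prop) continuous_const) (by
      refine eq_univ_of_forall fun x => ?_
      by_cases hx : x ∈ F
      · exact ⟨_, Or.inr ⟨θ x, h0 x hx, rfl⟩, by simp [div_self (h0 x hx)]⟩
      · exact ⟨_, Or.inl rfl, hx⟩)
  have h1 : ∀ i, ∃ c : ℂ, c ≠ 0 ∧ ∀ y ∈ V i, y ∈ F → ‖θ y / c - 1‖ < 1 := fun i => by
    obtain ⟨U, rfl | ⟨c, hc, rfl⟩, hU⟩ := hr i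
    · exact ⟨1, one_ne_zero, fun y hy hF => (hU hy hF).elim⟩
    · exact ⟨c, hc, fun y hy _ => hU hy⟩
  choose c hc0 hc using h1
  let a : Fin n → X → ℂ := fun i y => log (c i) + log (θ y / c i)
  have ea : ∀ i, ∀ y ∈ F, exp (a i y) = θ y := fun i y hy => by
    rw [exp_add, exp_log (hc0 i), exp_log (div_ne_zero (h0 y hy) (hc0 i)),
      mul_div_cancel₀ _ (hc0 i)]
  have hint : ∀ i j, ∀ y ∈ F, ∃ k : ℤ, a i y - a j y = k * (2 * Real.pi * I) := fun i j y hy => by
    obtain ⟨k, hk⟩ := exp_eq_exp_iff_exists_int.1 ((ea i y hy).trans (ea j y hy).symm)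
    exact ⟨k, by rw [hk]; ring⟩
  have hloc : ∀ i j, ∀ y ∈ V i ∩ V j ∩ F, ∀ z ∈ V i ∩ V j ∩ F,
      a i y - a j y = a i z - a j z := by
    intro i j y hy z hz
    obtain ⟨k, hk⟩ := hint i j y hy.2
    obtain ⟨k', hk'⟩ := hint i j z hz.2
    have b1 := abs_lt.1 (im_log_lt (hc i y hy.1.1 hy.2))
    have b2 := abs_lt.1 (im_log_lt (hc j y hy.1.2 hy.2))
    have b3 := abs_lt.1 (im_log_lt (hc i z hz.1.1 hz.2))
    have b4 := abs_lt.1 (im_log_lt (hc j z hz.1.2 hz.2))
    have e1 := congrArg im hk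
    have e2 := congrArg im hk'
    simp [a] at e1 e2
    have hp := Real.pi_pos
    have h3 : ((k - k' : ℤ) : ℝ) < 1 := by
      push_cast; nlinarith [b1.1, b1.2, b2.1, b2.2, b3.1, b3.2, b4.1, b4.2]
    have h4 : (-1 : ℝ) < ((k - k' : ℤ) : ℝ) := by
      push_cast; nlinarith [b1.1, b1.2, b2.1, b2.2, b3.1, b3.2, b4.1, b4.2]
    have h5 : k - k' < 1 := by exact_mod_cast h3
    have h6 : -1 < k - k' := by exact_mod_cast h4
    rw [hk, hk', show k = k' by omega]
  let d : Fin n → Fin n → ℂ := fun i j =>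
    if h : (V i ∩ V j ∩ F).Nonempty then a i h.some - a j h.some else 0
  have hd : ∀ i j, ∀ y ∈ V i ∩ V j ∩ F, d i j = a i y - a j y := fun i j y hy => by
    have h : (V i ∩ V j ∩ F).Nonempty := ⟨y, hy⟩
    simp only [d, dif_pos h]
    exact hloc i j _ h.some_mem y hy
  obtain ⟨m, hm, hmS⟩ := tree_potential hT d fun i j => by
    by_cases h : (V i ∩ V j ∩ F).Nonempty
    · obtain ⟨y, hy⟩ := h
      rw [hd i j y hy, hd j i y ⟨⟨hy.1.2, hy.1.1⟩, hy.2⟩]; ring
    · have h' : ¬ (V j ∩ V i ∩ F).Nonempty := by rwa [inter_comm (V j)]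
      simp only [d, dif_neg h, dif_neg h', neg_zero]
  have hm1 : ∀ i, exp (m i) = 1 := fun i => by
    obtain ⟨k, hk⟩ := AddSubgroup.mem_zmultiples_iff.1
      (hmS (AddSubgroup.zmultiples (2 * Real.pi * I)) (fun i j => by
        by_cases h : (V i ∩ V j ∩ F).Nonempty
        · obtain ⟨y, hy⟩ := h
          obtain ⟨k, hk⟩ := hint i j y hy.2
          exact AddSubgroup.mem_zmultiples_iff.2 ⟨k, by rw [hd i j y hy, hk, zsmul_eq_mul]⟩
        · simp only [d, dif_neg h]; exact AddSubgroup.zero_mem _) i)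
    rw [← hk, zsmul_eq_mul]; exact exp_int_mul_two_pi_mul_I k
  have hcov : ∀ y, ∃ i, y ∈ V i := fun y => mem_iUnion.1 (hU.ge (mem_univ y))
  choose ι hι using hcov
  have hw : ∀ i, ∀ y ∈ V i, y ∈ F → a (ι y) y + m (ι y) = a i y + m i := fun i y hy hyF => by
    by_cases e : ι y = i
    · rw [e]
    · have := hm (ι y) i (by
        rw [SimpleGraph.fromRel_adj]; exact ⟨e, Or.inl ⟨y, hι y, hy⟩⟩)
      rw [hd _ _ y ⟨⟨hι y, hy⟩, hyF⟩] at this
      linear_combination -this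
  obtain ⟨l, hl, el⟩ := extend hF (l := fun y => a (ι y) y + m (ι y)) fun y hy => by
    have h2 : ContinuousAt (fun z => a (ι y) z + m (ι y)) y := by
      refine (continuousAt_const.add (ContinuousAt.clog (by fun_prop) ?_)).add continuousAt_const
      simpa using mem_slitPlane_of_norm_lt_one (hc _ y (hι y) hy)
    refine h2.continuousWithinAt.congr_of_eventuallyEq ?_ rfl
    filter_upwards [self_mem_nhdsWithin, mem_nhdsWithin_of_mem_nhds ((hV _).mem_nhds (hι y))]
      with z hz hz'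
    exact hw _ z hz' hz
  exact ⟨l, hl, fun y hy => by rw [el y hy, exp_add, ea _ y hy, hm1, mul_one]⟩

end Pool.Agent.H82.Smi
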