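import Pool.Agent.H82.SmiA

/-! Periodic maps: the fixed point set is a continuum. -/

set_option autoImplicit false

namespace Pool.Agent.H82.Smi

open Set Topology Filter Complex

variable {X : Type} [TopologicalSpace X] [CompactSpace X] [T2Space X]

omit [CompactSpace X] [T2Space X] in
theorem approx (h : LogP X) {θ : X → ℂ} (hθ : Continuous θ) {ε : ℝ} (hε : 0 < ε) :
    ∃ θ' : X → ℂ, Continuous θ' ∧ ∀ x, θ' x ≠ 0 ∧ ‖θ' x - θ x‖ ≤ 2 * ε := by
  obtain ⟨l, hl, el⟩ := h {x | ε ≤ ‖θ x‖} (isClosed_le continuous_const hθ.norm) θ hθ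
    fun x hx => norm_pos_iff.1 (hε.trans_le hx)
  have hn : ∀ x, ‖exp (l x)‖ ≠ 0 := fun x => norm_ne_zero_iff.2 (exp_ne_zero _)
  refine ⟨fun x => ((max ‖θ x‖ ε / ‖exp (l x)‖ : ℝ) : ℂ) * exp (l x),
    (continuous_ofReal.comp ((hθ.norm.max continuous_const).div (by fun_prop) hn)).mul
      (by fun_prop), fun x => ⟨mul_ne_zero (ofReal_ne_zero.2 (div_ne_zero
        (hε.trans_le (le_max_right _ _)).ne' (hn x))) (exp_ne_zero _), ?_⟩⟩
  dsimp only
  by_cases hx : ε ≤ ‖θ x‖
  · have := hn x
    rw [el x hx] at this ⊢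
    rw [max_eq_left hx, div_self this]
    simp [hε.le]
  · push Not at hx
    refine (norm_sub_le _ _).trans ?_
    rw [norm_mul, norm_real, max_eq_right hx.le, Real.norm_of_nonneg (by positivity),
      div_mul_cancel₀ _ (hn x)]
    linarith

theorem exists_kappa (h : LogP X) {g : X → X} (hg : Continuous g) {p : ℕ} (hp : 0 < p)
    (hper : ∀ x, g^[p] x = x) {E : Set X} (hE : IsClosed E) (hgE : MapsTo g E E)
    (hfree : ∀ x ∈ E, ∀ j, 0 < j → j < p → g^[j] x ≠ x) :
    ∃ κ : X → ℂ, Continuous κ ∧ (∀ x ∈ E, exp (κ x) = 1) ∧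
      ∀ x, ∑ j ∈ Finset.range p, κ (g^[j] x) = -(2 * Real.pi * I) := by
  have hp0 : (p : ℂ) ≠ 0 := by exact_mod_cast hp.ne'
  let w : ℂ := 2 * Real.pi * I / p
  let T : (X → ℂ) → X → ℂ := fun u x => ∑ j ∈ Finset.range p, exp (-(j * w)) * u (g^[j] x)
  have hTc : ∀ u, Continuous u → Continuous (T u) := fun u hu =>
    continuous_finsetSum _ fun j _ => continuous_const.mul (hu.comp (hg.iterate j))
  have hTg : ∀ u x, T u (g x) = exp w * T u x := by
    intro u x
    have e1 := Finset.sum_range_succ (fun j => exp (-(j * w)) * u (g^[j] x)) p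
    have e2 := Finset.sum_range_succ' (fun j => exp (-(j * w)) * u (g^[j] x)) p
    have e3 : exp (-(p * w)) = 1 := by
      rw [show (p : ℂ) * w = 2 * Real.pi * I by simp only [w]; field_simp, exp_neg,
        exp_two_pi_mul_I, inv_one]
    have e4 : T u x = ∑ j ∈ Finset.range p,
        exp (-((j + 1 : ℕ) * w)) * u (g^[j + 1] x) := by
      rw [e2, hper, e3] at e1
      simp only [Nat.cast_zero, zero_mul, neg_zero, exp_zero, Function.iterate_zero, id] at e1
      exact (add_right_cancel e1).symm
    rw [e4, Finset.mul_sum]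
    refine Finset.sum_congr rfl fun j _ => ?_
    rw [← mul_assoc, ← exp_add, Function.iterate_succ_apply]
    congr 2
    push_cast; ring
  have hnw : ∀ j : ℕ, ‖exp (-(j * w))‖ = 1 := fun j => by
    rw [show -((j : ℂ) * w) = ((-(j * (2 * Real.pi / p)) : ℝ) : ℂ) * I by
      simp only [w]; push_cast; ring]
    exact norm_exp_ofReal_mul_I _
  have main : ∀ A : Set X, IsClosed A → (∃ u, Continuous u ∧ ∀ x ∈ A, T u x ≠ 0) →
      ∃ A' : Set X, IsClosed A' ∧ A ∪ E ⊆ A' ∧ ∃ u, Continuous u ∧ ∀ x ∈ A', T u x ≠ 0 := by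
    refine hE.isCompact.induction_on (p := fun S => ∀ A : Set X, IsClosed A →
      (∃ u, Continuous u ∧ ∀ x ∈ A, T u x ≠ 0) →
      ∃ A' : Set X, IsClosed A' ∧ A ∪ S ⊆ A' ∧ ∃ u, Continuous u ∧ ∀ x ∈ A', T u x ≠ 0)
      (fun A hA hu => ⟨A, hA, by simp, hu⟩)
      (fun s t hst ht A hA hu => by
        obtain ⟨A', h1, h2, h3⟩ := ht A hA hu
        exact ⟨A', h1, (union_subset_union_right _ hst).trans h2, h3⟩)
      (fun s t hs ht A hA hu => by
        obtain ⟨A', h1, h2, h3⟩ := hs A hA hu
        obtain ⟨A'', h4, h5, h6⟩ := ht A' h1 h3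
        exact ⟨A'', h4, by rw [← union_assoc]; exact (union_subset_union_left _ h2).trans h5, h6⟩)
      fun x hx => ?_
    have hW : ∃ W : Set X, IsOpen W ∧ x ∈ W ∧ ∀ y ∈ W, ∀ j, 0 < j → j < p → g^[j] y ∉ W := by
      have : ∀ j : Fin p, ∃ W ∈ 𝓝 x, 0 < j.1 → ∀ y ∈ W, g^[j] y ∉ W := fun j => by
        by_cases hj : 0 < j.1
        · obtain ⟨U, V, hU, hV, h1, h2, h3⟩ := t2_separation (hfree x hx j hj j.2)
          exact ⟨V ∩ g^[j] ⁻¹' U, inter_mem (hV.mem_nhds h2)
            ((hU.preimage (hg.iterate j)).mem_nhds h1),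
            fun _ y hy hy' => disjoint_left.1 h3 hy.2 hy'.1⟩
        · exact ⟨univ, univ_mem, fun h => (hj h).elim⟩
      choose W hW hW' using this
      exact ⟨interior (⋂ j, W j), isOpen_interior, mem_interior_iff_mem_nhds.2 (iInter_mem.2 hW),
        fun y hy j h1 h2 h3 => hW' ⟨j, h2⟩ h1 y (mem_iInter.1 (interior_subset hy) _)
          (mem_iInter.1 (interior_subset h3) ⟨j, h2⟩)⟩
    obtain ⟨W, hWo, hxW, hW⟩ := hW
    obtain ⟨F, hFn, hF, hFW⟩ := exists_mem_nhds_isClosed_subset (hWo.mem_nhds hxW)
    refine ⟨F, mem_nhdsWithin_of_mem_nhds hFn, fun A hA ⟨u, hu, hA0⟩ => ?_⟩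
    obtain ⟨δ, hδ, hδ'⟩ := hA.isCompact.exists_forall_le' (hTc u hu).norm.continuousOn
      (a := 0) fun y hy => norm_pos_iff.2 (hA0 y hy)
    have hpr : (0 : ℝ) < p := by exact_mod_cast hp
    obtain ⟨θ', h1, h2⟩ := approx h (hTc u hu) (ε := δ / (4 * p)) (by positivity)
    obtain ⟨ρ, r0, r1, r2⟩ := exists_continuous_zero_one_of_isClosed hWo.isClosed_compl hF
      (disjoint_compl_left_iff_subset.2 hFW)
    let d : X → ℂ := fun y => ρ y * (θ' y - T u y)
    have hT : ∀ y, T (fun z => u z + d z) y = T u y + T d y := fun y => by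
      simp only [T, mul_add, Finset.sum_add_distrib]
    refine ⟨A ∪ F, hA.union hF, le_rfl, fun z => u z + d z,
      hu.add ((continuous_ofReal.comp ρ.continuous).mul (h1.sub (hTc u hu))), ?_⟩
    rintro y (hy | hy)
    · have b : ‖T d y‖ ≤ δ / 2 := by
        refine (norm_sum_le _ _).trans ((Finset.sum_le_card_nsmul _ _ (2 * (δ / (4 * p)))
          fun j _ => ?_).trans ?_)
        · rw [norm_mul, hnw, one_mul, norm_mul, norm_real, Real.norm_of_nonneg (r2 _).1]
          exact (mul_le_of_le_one_left (norm_nonneg _) (r2 _).2).trans (h2 _).2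
        · rw [Finset.card_range, nsmul_eq_mul]
          exact le_of_eq (by field_simp; ring)
      rw [hT]
      intro e
      have := hδ' y hy
      rw [eq_neg_of_add_eq_zero_left e, norm_neg] at this
      linarith
    · have b : T d y = d y := by
        simp only [T]
        rw [Finset.sum_eq_single 0]
        · simp
        · intro j hj hj0
          have : ρ (g^[j] y) = 0 :=
            r0 (hW y (hFW hy) j (Nat.pos_of_ne_zero hj0) (Finset.mem_range.1 hj))
          simp [d, this]
        · intro h0; exact absurd (Finset.mem_range.2 hp) h0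
      have : ρ y = 1 := r1 hy
      rw [hT, b]
      simp only [d, this, ofReal_one, one_mul, add_sub_cancel]
      exact (h2 y).1
  obtain ⟨A', -, h1, u, hu, h2⟩ := main ∅ isClosed_empty ⟨0, continuous_const, by simp⟩
  obtain ⟨l, hl, el⟩ := h E hE (T u) (hTc u hu) fun x hx => h2 x (h1 (Or.inr hx))
  refine ⟨fun x => l (g x) - l x - w, by fun_prop, fun x hx => ?_, fun x => ?_⟩
  · rw [exp_sub, exp_sub, el _ (hgE hx), el x hx, hTg,
      mul_div_cancel_right₀ _ (h2 x (h1 (Or.inr hx))), div_self (exp_ne_zero _)]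
  · have := Finset.sum_range_sub (fun j => l (g^[j] x)) p
    simp only [Function.iterate_succ_apply', hper, Function.iterate_zero, id, sub_self] at this
    rw [Finset.sum_sub_distrib, this, Finset.sum_const, Finset.card_range, nsmul_eq_mul]
    simp only [w]
    field_simp
    ring

theorem not_dvd {p : ℕ} (hp : 1 < p) {k : ℤ}
    (h : (p : ℂ) * (k * (2 * Real.pi * I)) = -(2 * Real.pi * I)) : False := by
  have h1 : ((p * k + 1 : ℤ) : ℂ) * (2 * Real.pi * I) = 0 := by push_cast; linear_combination h
  have h2 := (mul_eq_zero.1 h1).resolve_right two_pi_I_ne_zero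
  have h3 : (p : ℤ) * k + 1 = 0 := by exact_mod_cast h2
  have h4 : (p : ℤ) ∣ 1 := ⟨-k, by linear_combination h3⟩
  have := Int.le_of_dvd one_pos h4
  omega

theorem prime_case [ConnectedSpace X] (h : LogP X) {g : X → X} (hg : Continuous g) {p : ℕ}
    (hp : p.Prime) (hper : ∀ x, g^[p] x = x) : IsConnected {x | g x = x} := by
  classical
  have hp0 : (0 : ℝ) < p := by exact_mod_cast hp.pos
  have hfree : ∀ x, g x ≠ x → ∀ j, 0 < j → j < p → g^[j] x ≠ x := fun x hx j h1 h2 e => by
    have := Function.IsPeriodicPt.gcd (show Function.IsPeriodicPt g p x from hper x)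
      (show Function.IsPeriodicPt g j x from e)
    rw [Nat.Coprime.gcd_eq_one (Nat.coprime_of_lt_prime h1.ne' h2 hp)] at this
    exact hx this
  have hcl : IsClosed {x | g x = x} := isClosed_eq hg continuous_id
  constructor
  · by_contra hne
    obtain ⟨κ, h1, h2, h3⟩ := exists_kappa h hg hp.pos hper isClosed_univ (mapsTo_univ _ _)
      fun x _ => hfree x fun e => hne ⟨x, e⟩
    obtain ⟨x⟩ : Nonempty X := inferInstance
    obtain ⟨k, hk⟩ := exp_eq_one_iff.1 (h2 x trivial)
    have := h3 x
    rw [Finset.sum_congr rfl fun j _ => (const_of_exp isPreconnected_univ h1.continuousOn h2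
      (mem_univ _) (mem_univ x)).trans hk, Finset.sum_const, Finset.card_range,
      nsmul_eq_mul] at this
    exact not_dvd hp.one_lt this
  rw [isPreconnected_iff_subset_of_fully_disjoint_closed hcl]
  intro A B hA hB hcov hd
  by_contra hn
  rw [not_or, not_subset, not_subset] at hn
  obtain ⟨⟨b, hb, hbA⟩, a, ha, haB⟩ := hn
  obtain ⟨l0, r0, r1, r2⟩ := exists_continuous_zero_one_of_isClosed hA hB hd
  let lam : X → ℝ := fun x => (∑ j ∈ Finset.range p, l0 (g^[j] x)) / p
  have hlc : Continuous lam :=
    (continuous_finsetSum _ fun j _ => l0.continuous.comp (hg.iterate j)).div_const _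
  have hlg : ∀ x, lam (g x) = lam x := fun x => by
    have e1 := Finset.sum_range_succ (fun j => l0 (g^[j] x)) p
    have e2 := Finset.sum_range_succ' (fun j => l0 (g^[j] x)) p
    rw [e2, hper] at e1
    simp only [lam]
    congr 1
    exact add_right_cancel e1
  have hli : ∀ j x, lam (g^[j] x) = lam x := fun j x => by
    induction j with
    | zero => rfl
    | succ j ih => rw [Function.iterate_succ_apply', hlg, ih]
  have hfix : ∀ x, g x = x → lam x = l0 x := fun x hx => by
    simp only [lam, Function.iterate_fixed hx, Finset.sum_const, Finset.card_range, nsmul_eq_mul]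
    field_simp
  have hla : lam a = 0 := (hfix a ha).trans (r0 ((hcov ha).resolve_right haB))
  have hlb : lam b = 1 := (hfix b hb).trans (r1 ((hcov hb).resolve_left hbA))
  let E : Set X := {x | 1 / 3 ≤ lam x ∧ lam x ≤ 2 / 3}
  have hE : IsClosed E :=
    (isClosed_le continuous_const hlc).inter (isClosed_le hlc continuous_const)
  obtain ⟨κ, h1, h2, h3⟩ := exists_kappa h hg hp.pos hper hE
    (fun x hx => by simpa only [E, mem_ofPred_eq, hlg] using hx) fun x hx => hfree x fun e => by
      have h4 : 1 / 3 ≤ lam x ∧ lam x ≤ 2 / 3 := hx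
      rw [hfix x e] at h4
      rcases hcov e with h | h
      · have : l0 x = 0 := r0 h
        linarith [h4.1]
      · have : l0 x = 1 := r1 h
        linarith [h4.2]
  let μ : X → ℝ := fun x => max 0 (min 1 (3 * lam x - 1))
  have hμ : Continuous μ := by fun_prop
  have hμ' : ∀ x, lam x ≤ 1 / 3 ∨ 2 / 3 ≤ lam x → μ x = 0 ∨ μ x = 1 := fun x hx => by
    rcases hx with hx | hx
    · exact Or.inl (max_eq_left ((min_le_right _ _).trans (by linarith)))
    · exact Or.inr (by simp only [μ]; rw [min_eq_left (by linarith), max_eq_right zero_le_one])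
  let θ : X → ℂ := fun x => if x ∈ E then exp (κ x * μ x) else 1
  have hθ : Continuous θ := by
    refine continuous_if (fun x hx => ?_) (by fun_prop) continuousOn_const
    have x1 : x ∈ E := hE.frontier_subset hx
    have x2 : x ∈ {x | lam x ≤ 1 / 3 ∨ 2 / 3 ≤ lam x} := by
      rw [← frontier_compl] at hx
      refine closure_minimal (fun y hy => ?_)
        ((isClosed_le hlc continuous_const).union (isClosed_le continuous_const hlc))
        (frontier_subset_closure hx)
      by_contra h5
      exact hy ⟨(not_le.1 fun h => h5 (Or.inl h)).le, (not_le.1 fun h => h5 (Or.inr h)).le⟩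
    rcases hμ' x x2 with e | e
    · simp [e]
    · simp [e, h2 x x1]
  obtain ⟨l, hl, el⟩ := h univ isClosed_univ θ hθ fun x _ => by
    simp only [θ]; split_ifs
    · exact exp_ne_zero _
    · exact one_ne_zero
  have hLc : Continuous fun x => ∑ j ∈ Finset.range p, l (g^[j] x) + 2 * Real.pi * I * μ x :=
    (continuous_finsetSum _ fun j _ => hl.comp (hg.iterate j)).add (by fun_prop)
  have hL := const_of_exp isPreconnected_univ hLc.continuousOn (c := 1) (fun x _ => by
    rw [exp_add, exp_sum]
    simp only [el _ (mem_univ _)]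
    by_cases hx : x ∈ E
    · have e : ∀ j, θ (g^[j] x) = exp (κ (g^[j] x) * μ x) := fun j => by
        have : g^[j] x ∈ E := by simpa only [E, mem_ofPred_eq, hli] using hx
        simp only [θ, if_pos this, μ, hli]
      simp only [e]
      rw [← exp_sum, ← exp_add, ← Finset.sum_mul, h3]
      simp
    · have e : ∀ j, θ (g^[j] x) = 1 := fun j => by
        have : g^[j] x ∉ E := by simpa only [E, mem_ofPred_eq, hli] using hx
        simp only [θ, if_neg this]
      simp only [e, Finset.prod_const_one, one_mul]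
      rcases hμ' x (by
        by_contra h5
        rw [not_or, not_le, not_le] at h5
        exact hx ⟨h5.1.le, h5.2.le⟩) with e | e
      · simp [e]
      · simp [e]) (mem_univ a) (mem_univ b)
  have ea : a ∉ E := fun h => by have := h.1; rw [hla] at this; linarith
  have eb : b ∉ E := fun h => by have := h.2; rw [hlb] at this; linarith
  obtain ⟨k, hk⟩ := exp_eq_one_iff.1 ((el a trivial).trans (if_neg ea))
  obtain ⟨k', hk'⟩ := exp_eq_one_iff.1 ((el b trivial).trans (if_neg eb))
  have μa : μ a = 0 := by simp [μ, hla]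
  have μb : μ b = 1 := by simp only [μ, hlb]; norm_num
  simp only [Function.iterate_fixed (show g a = a from ha),
    Function.iterate_fixed (show g b = b from hb), Finset.sum_const, Finset.card_range,
    nsmul_eq_mul, μa, μb, hk, hk'] at hL
  refine not_dvd hp.one_lt (k := k' - k) ?_
  push_cast at hL ⊢
  linear_combination -hL

theorem periodic_case (n : ℕ) : ∀ {X : Type} [TopologicalSpace X] [CompactSpace X] [T2Space X]
    [ConnectedSpace X], LogP X → ∀ g : X → X, Continuous g → 0 < n → (∀ x, g^[n] x = x) →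
    IsConnected {x | g x = x} := by
  induction n using Nat.strong_induction_on with
  | _ n ih =>
  intro X _ _ _ _ h g hg hn hper
  by_cases h1 : n = 1
  · subst h1
    rw [show {x | g x = x} = univ from eq_univ_of_forall hper]
    exact isConnected_univ
  obtain ⟨p, hp, m, rfl⟩ := Nat.exists_prime_and_dvd h1
  have hm : 0 < m := Nat.pos_of_mul_pos_left hn
  have hZ := prime_case h (hg.iterate m) hp fun x => by
    rw [← Function.iterate_mul, mul_comm]; exact hper x
  have hcl : IsClosed {x | g^[m] x = x} := isClosed_eq (hg.iterate m) continuous_id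
  have : CompactSpace {x | g^[m] x = x} := isCompact_iff_compactSpace.1 hcl.isCompact
  have : ConnectedSpace {x | g^[m] x = x} := isConnected_iff_connectedSpace.1 hZ
  have hmap : MapsTo g {x | g^[m] x = x} {x | g^[m] x = x} := fun x hx => by
    show g^[m] (g x) = g x
    rw [← Function.iterate_succ_apply, Function.iterate_succ_apply', show g^[m] x = x from hx]
  have := (ih m (by have := hp.one_lt; nlinarith)
    (h.of_inj continuous_subtype_val Subtype.val_injective) (hmap.restrict g _ _)
    (hg.restrict hmap) hm fun x => by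
      rw [hmap.iterate_restrict]; exact Subtype.ext x.2).image _
      continuous_subtype_val.continuousOn
  convert this using 1
  ext x
  constructor
  · intro hx
    exact ⟨⟨x, Function.iterate_fixed hx m⟩, Subtype.ext hx, rfl⟩
  · rintro ⟨z, hz, rfl⟩
    exact congrArg Subtype.val hz

end Pool.Agent.H82.Smi
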