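import Pool.Agent.H82.SmiB
import Pool.Agent.H33.Contin

/-! Pointwise periodic maps: the fixed point set is a continuum. -/

set_option autoImplicit false

namespace Pool.Agent.H82.Smi

open Set Topology Filter Pool.Agent.H33.Contin

variable {X : Type} [TopologicalSpace X] [CompactSpace X] [T2Space X]

/-- Collapse every component of `N` to a point. -/
def coll (N : Set X) : Setoid X where
  r x y := x = y ∨ (x ∈ N ∧ y ∈ N ∧ connectedComponentIn N x = connectedComponentIn N y)
  iseqv := ⟨fun _ => Or.inl rfl, fun h => h.imp Eq.symm fun h => ⟨h.2.1, h.1, h.2.2.symm⟩, by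
    rintro x y z (rfl | h1) (rfl | h2)
    · exact Or.inl rfl
    · exact Or.inr h2
    · exact Or.inr h1
    · exact Or.inr ⟨h1.1, h2.2.1, h1.2.2.trans h2.2.2⟩⟩

theorem coll_sep {N : Set X} (hN : IsClosed N) {x y : X} (h : ¬ coll N x y) :
    ∃ φ : X → ℝ, Continuous φ ∧ (∀ u v, coll N u v → φ u = φ v) ∧ φ x ≠ φ y := by
  have one : ∀ x y : X, x ≠ y → x ∉ N →
      ∃ φ : X → ℝ, Continuous φ ∧ (∀ u v, coll N u v → φ u = φ v) ∧ φ x ≠ φ y := by
    intro x y hxy hx
    obtain ⟨φ, r0, r1, -⟩ := exists_continuous_zero_one_of_isClosed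
      (hN.union (isClosed_singleton (x := y))) (isClosed_singleton (x := x))
      (disjoint_singleton_right.2 fun h => h.elim hx hxy)
    refine ⟨φ, φ.continuous, ?_, ?_⟩
    · rintro u v (rfl | h)
      · rfl
      · exact (r0 (Or.inl h.1)).trans (r0 (Or.inl h.2.1)).symm
    · rw [r1 rfl, r0 (Or.inr rfl)]; simp
  have hxy : x ≠ y := fun e => h (Or.inl e)
  by_cases hx : x ∈ N
  · by_cases hy : y ∈ N
    · obtain ⟨Z, Z', hZ, hZ', hd, hu, hxZ, hZD⟩ := sep hN (isClosed_singleton (x := y)) hx
        (disjoint_singleton_right.2 fun h' => h (Or.inr ⟨hx, hy, connectedComponentIn_eq h'⟩))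
      obtain ⟨φ, r0, r1, -⟩ := exists_continuous_zero_one_of_isClosed hZ hZ' hd
      refine ⟨φ, φ.continuous, ?_, ?_⟩
      · rintro u v (rfl | ⟨h1, h2, h3⟩)
        · rfl
        · have m1 := mem_connectedComponentIn h1
          have m2 := mem_connectedComponentIn h2
          rw [← h3] at m2
          rcases (isPreconnected_iff_subset_of_fully_disjoint_closed (comp_closed hN u)).1
            isPreconnected_connectedComponentIn Z Z' hZ hZ'
            (hu ▸ connectedComponentIn_subset N u) hd with h | h
          · exact (r0 (h m1)).trans (r0 (h m2)).symm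
          · exact (r1 (h m1)).trans (r1 (h m2)).symm
      · have : y ∈ Z' := (hu.ge hy).resolve_left fun h => disjoint_left.1 hZD h rfl
        rw [r0 hxZ, r1 this]; simp
    · obtain ⟨φ, h1, h2, h3⟩ := one y x hxy.symm hy
      exact ⟨φ, h1, h2, h3.symm⟩
  · exact one x y hxy hx

theorem coll_t2 {N : Set X} (hN : IsClosed N) : T2Space (Quotient (coll N)) := by
  refine ⟨fun a b hab => ?_⟩
  obtain ⟨x, rfl⟩ := Quotient.exists_rep a
  obtain ⟨y, rfl⟩ := Quotient.exists_rep b
  obtain ⟨φ, h1, h2, h3⟩ := coll_sep hN (x := x) (y := y) fun h => hab (Quotient.sound h)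
  exact separated_by_continuous (f := Quotient.lift (s := coll N) φ h2) (h1.quotient_lift _) h3

omit [CompactSpace X] [T2Space X] in
theorem coll_fiber (N : Set X) (a : Quotient (coll N)) :
    IsConnected (Quotient.mk (coll N) ⁻¹' {a}) := by
  obtain ⟨x, rfl⟩ := Quotient.exists_rep a
  by_cases hx : x ∈ N
  · convert isConnected_connectedComponentIn_iff.2 hx using 1
    ext y
    constructor
    · intro h
      rcases (Quotient.exact h : coll N y x) with rfl | h
      · exact mem_connectedComponentIn hx
      · rw [← h.2.2]; exact mem_connectedComponentIn h.1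
    · intro h
      exact Quotient.sound (Or.inr ⟨connectedComponentIn_subset _ _ h, hx,
        (connectedComponentIn_eq h).symm⟩)
  · convert isConnected_singleton (x := x) using 1
    ext y
    constructor
    · intro h
      rcases (Quotient.exact h : coll N y x) with rfl | h
      · rfl
      · exact (hx h.2.1).elim
    · rintro rfl; rfl

theorem core [ConnectedSpace X] (h : LogP X) {g : X → X} (hg : Continuous g)
    (hi : Function.Injective g) (hper : ∀ x, ∃ m, 0 < m ∧ g^[m] x = x) {A B : Set X}
    (hA : IsClosed A) (hB : IsClosed B) (hd : Disjoint A B) (hfix : ∀ x, g x = x → x ∈ A ∪ B)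
    {a b : X} (ha : a ∈ A) (hb : b ∈ B) (ga : g a = a) (gb : g b = b)
    (hmin : ∀ C : Set X, IsClosed C → IsPreconnected C → MapsTo g C C → a ∈ C → b ∈ C →
      C = univ) : False := by
  have hO : (A ∪ B)ᶜ.Nonempty := by
    rw [nonempty_compl]
    intro e
    rcases (isPreconnected_iff_subset_of_fully_disjoint_closed isClosed_univ).1
      isPreconnected_univ A B hA hB e.ge hd with h | h
    · exact disjoint_left.1 hd (h (mem_univ b)) hb
    · exact disjoint_left.1 hd ha (h (mem_univ a))
  have hF : ∀ m, IsClosed {x | g^[m + 1] x = x} := fun m =>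
    isClosed_eq (hg.iterate _) continuous_id
  obtain ⟨w, hwO, hw⟩ := (dense_iUnion_interior_of_closed hF (eq_univ_of_forall fun x => by
    obtain ⟨m, h1, h2⟩ := hper x
    exact mem_iUnion.2 ⟨m - 1, by
      show g^[m - 1 + 1] x = x
      rwa [Nat.sub_add_cancel h1]⟩)).inter_open_nonempty _ (hA.union hB).isOpen_compl hO
  obtain ⟨m, hw⟩ := mem_iUnion.1 hw
  let W : Set X := (A ∪ B)ᶜ ∩ interior {x | g^[m + 1] x = x}
  have hW : IsOpen W := (hA.union hB).isOpen_compl.inter isOpen_interior
  let N : Set X := (⋃ i, g^[i] ⁻¹' W)ᶜ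
  have hN : IsClosed N := (isOpen_iUnion fun i => hW.preimage (hg.iterate i)).isClosed_compl
  have hNF : ∀ x, x ∉ N → g^[m + 1] x = x := fun x hx => by
    obtain ⟨i, hi'⟩ := mem_iUnion.1 (not_not.1 hx)
    have h1 : g^[m + 1] (g^[i] x) = g^[i] x :=
      interior_subset (s := {x | g^[m + 1] x = x}) hi'.2
    rw [← Function.iterate_add_apply, add_comm, Function.iterate_add_apply] at h1
    exact hi.iterate i h1
  have hgN : MapsTo g N N := fun x hx h => by
    obtain ⟨i, hi'⟩ := mem_iUnion.1 h
    exact hx (mem_iUnion.2 ⟨i + 1, hi'⟩)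
  have hwN : w ∉ N := fun h => h (mem_iUnion.2 ⟨0, hwO, hw⟩)
  have := coll_t2 hN
  let π : X → Quotient (coll N) := Quotient.mk _
  have hπ : Continuous π := continuous_quotient_mk'
  have hπs : Function.Surjective π := Quotient.mk_surjective
  have : ConnectedSpace (Quotient (coll N)) := hπs.connectedSpace hπ
  have hgr : ∀ x y, coll N x y → coll N (g x) (g y) := by
    rintro x y (rfl | ⟨h1, h2, h3⟩)
    · exact Or.inl rfl
    · refine Or.inr ⟨hgN h1, hgN h2, connectedComponentIn_eq ?_⟩
      refine (isPreconnected_connectedComponentIn.image g hg.continuousOn).subset_connectedComponentIn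
        (mem_image_of_mem g (mem_connectedComponentIn h1))
        ((hgN.mono_left (connectedComponentIn_subset _ _)).image_subset) ⟨y, ?_, rfl⟩
      rw [h3]; exact mem_connectedComponentIn h2
  let g' : Quotient (coll N) → Quotient (coll N) := Quotient.map g hgr
  have hg' : Continuous g' := hg.quotient_map' hgr
  have hsc : Function.Semiconj π g g' := fun _ => rfl
  have hC := periodic_case (m + 1) (h.of_monotone hπ hπs fun z => (coll_fiber N z).2) g' hg'
    (Nat.succ_pos m) fun z => by
      obtain ⟨x, rfl⟩ := hπs z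
      obtain ⟨y, h1, h2⟩ : ∃ y, π y = π x ∧ g^[m + 1] y = y := by
        by_cases hx : x ∈ N
        · by_contra hn
          obtain ⟨Z, Z', hZ, hZ', hd, hu, hxZ, hZD⟩ := sep hN (hF m) hx (disjoint_left.2
            fun y hy hy' => hn ⟨y, Quotient.sound (Or.inr ⟨connectedComponentIn_subset _ _ hy, hx,
              (connectedComponentIn_eq hy).symm⟩), hy'⟩)
          rcases (isPreconnected_iff_subset_of_fully_disjoint_closed isClosed_univ).1
            isPreconnected_univ Z (Z' ∪ {x | g^[m + 1] x = x}) hZ (hZ'.union (hF m))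
            (fun y _ => by
              by_cases hy : y ∈ N
              · exact (hu.ge hy).imp_right Or.inl
              · exact Or.inr (Or.inr (hNF y hy))) (disjoint_union_right.2 ⟨hd, hZD⟩) with h | h
          · exact hwN (hu.le (Or.inl (h (mem_univ w))))
          · exact disjoint_left.1 (disjoint_union_right.2 ⟨hd, hZD⟩) hxZ (h (mem_univ x))
        · exact ⟨x, rfl, hNF x hx⟩
      rw [← h1, ← hsc.iterate_right (m + 1) y, h2]
  have hcl : IsClosed {z | g' z = z} := isClosed_eq hg' continuous_id
  have hall := hmin (π ⁻¹' {z | g' z = z}) (hcl.preimage hπ)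
    (isQuotientMap_quotient_mk'.isCoinducing.isConnected_preimage_of_isClosed (coll_fiber N)
      hcl hC).2 (fun x hx => congrArg g' (show g' (π x) = π x from hx))
    (congrArg π ga) (congrArg π gb)
  rcases (Quotient.exact (show g' (π w) = π w from hall.ge (mem_univ w)) : coll N (g w) w) with
    e | e
  · exact hwO (hfix w e)
  · exact hwN e.2.1

theorem fix_preconnected [ConnectedSpace X] (h : LogP X) {g : X → X} (hg : Continuous g)
    (hi : Function.Injective g) (hper : ∀ x, ∃ m, 0 < m ∧ g^[m] x = x) :
    IsPreconnected {x | g x = x} := by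
  have hcl : IsClosed {x | g x = x} := isClosed_eq hg continuous_id
  rw [isPreconnected_iff_subset_of_fully_disjoint_closed hcl]
  intro A B hA hB hcov hd
  by_contra hn
  rw [not_or, not_subset, not_subset] at hn
  obtain ⟨⟨b, hb, hbA⟩, a, ha, haB⟩ := hn
  obtain ⟨J, -, hJ⟩ := zorn_superset_nonempty
    {C : Set X | IsClosed C ∧ IsPreconnected C ∧ MapsTo g C C ∧ a ∈ C ∧ b ∈ C}
    (fun c hc hch hne => by
      refine ⟨⋂₀ c, ⟨isClosed_sInter fun s hs => (hc hs).1, ?_,
        fun x hx s hs => (hc hs).2.2.1 (hx s hs), fun s hs => (hc hs).2.2.2.1,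
        fun s hs => (hc hs).2.2.2.2⟩, fun s hs => sInter_subset_of_mem hs⟩
      rw [isPreconnected_iff_subset_of_fully_disjoint_closed
        (isClosed_sInter fun s hs => (hc hs).1)]
      intro u v hu hv huv hd
      obtain ⟨U, V, hU, hV, h1, h2, h3⟩ := normal_separation hu hv hd
      have : Nonempty c := hne.to_subtype
      obtain ⟨s, hs⟩ := exists_subset_nhds_of_compactSpace (V := fun s : c => s.1)
        (fun s t => by
          rcases hch.total s.2 t.2 with h | h
          · exact ⟨s, le_rfl, h⟩
          · exact ⟨t, h, le_rfl⟩) (fun s => (hc s.2).1) (U := U ∪ V) fun x hx =>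
        (hU.union hV).mem_nhds (union_subset_union h1 h2 (huv (by rwa [sInter_eq_iInter])))
      rcases (hc s.2).2.1.subset_or_subset hU hV h3 hs with h | h
      · exact Or.inl fun x hx => (huv hx).resolve_right fun h' =>
          disjoint_left.1 h3 (h (hx _ s.2)) (h2 h')
      · exact Or.inr fun x hx => (huv hx).resolve_left fun h' =>
          disjoint_left.1 h3 (h1 h') (h (hx _ s.2)))
    univ ⟨isClosed_univ, isPreconnected_univ, mapsTo_univ _ _, trivial, trivial⟩
  obtain ⟨j1, j2, j3, j4, j5⟩ := hJ.prop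
  have : CompactSpace J := isCompact_iff_compactSpace.1 j1.isCompact
  have : ConnectedSpace J := isConnected_iff_connectedSpace.1 ⟨⟨a, j4⟩, j2⟩
  refine core (X := J) (h.of_inj continuous_subtype_val Subtype.val_injective) (hg.restrict j3)
    (fun x y e => Subtype.ext (hi (congrArg Subtype.val e))) (fun x => ?_)
    (hA.preimage continuous_subtype_val) (hB.preimage continuous_subtype_val) (hd.preimage _)
    (fun x e => hcov (congrArg Subtype.val e)) (a := ⟨a, j4⟩) (b := ⟨b, j5⟩)
    ((hcov ha).resolve_right haB) ((hcov hb).resolve_left hbA) (Subtype.ext ha) (Subtype.ext hb)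
    fun C c1 c2 c3 c4 c5 => ?_
  · obtain ⟨m, h1, h2⟩ := hper x
    exact ⟨m, h1, by rw [j3.iterate_restrict]; exact Subtype.ext h2⟩
  · have := hJ.le_of_le (y := Subtype.val '' C)
      ⟨j1.isClosedEmbedding_subtypeVal.isClosedMap _ c1,
        c2.image _ continuous_subtype_val.continuousOn, by
          rintro _ ⟨x, hx, rfl⟩; exact ⟨_, c3 hx, rfl⟩, ⟨_, c4, rfl⟩, ⟨_, c5, rfl⟩⟩
      (Subtype.coe_image_subset _ _)
    refine eq_univ_of_forall fun x => ?_
    obtain ⟨y, hy, e⟩ := this x.2
    rwa [← Subtype.ext e]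

theorem fixed_point [ConnectedSpace X] (h : LogP X) {g : X → X} (hg : Continuous g)
    (hi : Function.Injective g) (hper : ∀ x, ∃ m, 0 < m ∧ g^[m] x = x) : ∃ x, g x = x := by
  obtain ⟨x⟩ : Nonempty X := inferInstance
  obtain ⟨m, hm, hx⟩ := hper x
  have hZ : IsConnected {x | g^[m] x = x} := ⟨⟨x, hx⟩, fix_preconnected h (hg.iterate m)
    (hi.iterate m) fun y => by
      obtain ⟨k, h1, h2⟩ := hper y
      exact ⟨k, h1, by
        rw [← Function.iterate_mul, mul_comm, Function.iterate_mul]
        exact Function.iterate_fixed h2 m⟩⟩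
  have hcl : IsClosed {x | g^[m] x = x} := isClosed_eq (hg.iterate m) continuous_id
  have : CompactSpace {x | g^[m] x = x} := isCompact_iff_compactSpace.1 hcl.isCompact
  have : ConnectedSpace {x | g^[m] x = x} := isConnected_iff_connectedSpace.1 hZ
  have hmap : MapsTo g {x | g^[m] x = x} {x | g^[m] x = x} := fun x hx => by
    show g^[m] (g x) = g x
    rw [← Function.iterate_succ_apply, Function.iterate_succ_apply', show g^[m] x = x from hx]
  obtain ⟨z, hz⟩ := (periodic_case m (h.of_inj continuous_subtype_val Subtype.val_injective)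
    (hmap.restrict g _ _) (hg.restrict hmap) hm fun x => by
      rw [hmap.iterate_restrict]; exact Subtype.ext x.2).1
  exact ⟨z, congrArg Subtype.val hz⟩

end Pool.Agent.H82.Smi
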