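import Mathlib
import Pool.Agent.H33.Contin
import Pool.Agent.H84.SemiA

/-! Span zero implies semispan zero. -/

set_option autoImplicit false

namespace Pool.Agent.H82.SpanA

open Set Topology TopologicalSpace Metric Filter

def Span0 (M : Type) [TopologicalSpace M] : Prop :=
  ∀ Z : Set (M × M), IsCompact Z → IsConnected Z → Prod.fst '' Z = Prod.snd '' Z →
    ∃ p ∈ Z, p.1 = p.2

variable {M : Type} [MetricSpace M]

theorem sym (H : Span0 M) {W : Set (M × M)} (hk : IsCompact W) (hc : IsPreconnected W) {p q : M}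
    (h1 : (p, q) ∈ W) (h2 : (q, p) ∈ W) : ∃ z ∈ W, z.1 = z.2 := by
  obtain ⟨z, hz, e⟩ := H (W ∪ Prod.swap '' W) (hk.union (hk.image continuous_swap))
    ⟨⟨_, Or.inl h1⟩, hc.union (p, q) h1 ⟨(q, p), h2, rfl⟩
      (hc.image _ continuous_swap.continuousOn)⟩ (by
      ext x
      constructor
      · rintro ⟨w, hw | ⟨v, hv, rfl⟩, rfl⟩
        · exact ⟨w.swap, Or.inr ⟨w, hw, rfl⟩, rfl⟩
        · exact ⟨v, Or.inl hv, rfl⟩
      · rintro ⟨w, hw | ⟨v, hv, rfl⟩, rfl⟩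
        · exact ⟨w.swap, Or.inr ⟨w, hw, rfl⟩, rfl⟩
        · exact ⟨v, Or.inl hv, rfl⟩)
  rcases hz with hz | ⟨v, hv, rfl⟩
  · exact ⟨z, hz, e⟩
  · exact ⟨v, hv, e.symm⟩

theorem chase (H : Span0 M) {x y w : M} {A B C : Set M} (kA : IsCompact A) (kB : IsCompact B)
    (kC : IsCompact C) (cA : IsPreconnected A) (cB : IsPreconnected B) (cC : IsPreconnected C)
    (xC : x ∈ C) (yC : y ∈ C) (wC : w ∉ C) (yA : y ∈ A) (wA : w ∈ A) (xA : x ∉ A)
    (xB : x ∈ B) (wB : w ∈ B) (yB : y ∉ B) : False := by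
  have c1 : IsPreconnected (({x} : Set M) ×ˢ A ∪ C ×ˢ ({w} : Set M)) :=
    (isPreconnected_singleton.prod cA).union (x, w) ⟨rfl, wA⟩ ⟨xC, rfl⟩
      (cC.prod isPreconnected_singleton)
  obtain ⟨z, hz, e⟩ := sym H (W := (({x} : Set M) ×ˢ A ∪ C ×ˢ ({w} : Set M)) ∪ ({y} : Set M) ×ˢ B)
    (((isCompact_singleton.prod kA).union (kC.prod isCompact_singleton)).union
      (isCompact_singleton.prod kB))
    (c1.union (y, w) (Or.inr ⟨yC, rfl⟩) ⟨rfl, wB⟩ (isPreconnected_singleton.prod cB))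
    (p := x) (q := y) (Or.inl (Or.inl ⟨rfl, yA⟩)) (Or.inr ⟨rfl, xB⟩)
  rcases hz with (⟨h1, h2⟩ | ⟨h1, h2⟩) | ⟨h1, h2⟩
  · exact xA (by rw [← mem_singleton_iff.1 h1, e]; exact h2)
  · exact wC (by rw [← mem_singleton_iff.1 h2, ← e]; exact h1)
  · exact yB (by rw [← mem_singleton_iff.1 h1, e]; exact h2)

theorem closed_le {X Z : Type} [TopologicalSpace X] [T2Space X] [TopologicalSpace Z]
    {f g : Z → NonemptyCompacts X} (hf : Continuous f) (hg : Continuous g) :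
    IsClosed {z | f z ≤ g z} := by
  have : {z | f z ≤ g z} = {z | f z ⊔ g z = g z} := by ext z; simp
  rw [this]
  exact isClosed_eq (hf.sup hg) hg

theorem exists_min [CompactSpace M] {Z0 : Set (M × M)} (hk : IsCompact Z0) (hc : IsConnected Z0)
    (hs : Prod.fst '' Z0 ⊆ Prod.snd '' Z0) : ∃ Z ⊆ Z0, IsCompact Z ∧ IsConnected Z ∧
      Prod.fst '' Z ⊆ Prod.snd '' Z ∧ ∀ C ⊆ Z, IsCompact C → IsConnected C →
        Prod.fst '' C ⊆ Prod.snd '' C → C = Z := by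
  have : Nonempty (M × M) := ⟨hc.1.some⟩
  obtain ⟨ν, hν, hνs⟩ := H33.Contin.whitney (X := M × M)
  let S : Set (NonemptyCompacts (M × M)) := {K | IsPreconnected (K : Set (M × M))} ∩
    ({K | (K : Set (M × M)) ⊆ Z0} ∩ {K | K.map Prod.fst continuous_fst ≤ K.map Prod.snd continuous_snd})
  have hS : IsClosed S := H33.Contin.closed_conn.inter
    ((NonemptyCompacts.isClosed_subsets_of_isClosed hk.isClosed).inter
      (closed_le continuous_fst.nonemptyCompacts_map continuous_snd.nonemptyCompacts_map))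
  obtain ⟨K, hK, hm⟩ := hS.isCompact.exists_isMaxOn
    ⟨⟨⟨Z0, hk⟩, hc.1⟩, hc.2, fun _ h => h, hs⟩ hν.continuousOn
  refine ⟨K, hK.2.1, K.isCompact, ⟨K.nonempty, hK.1⟩, hK.2.2, fun C h1 h2 h3 h4 => ?_⟩
  by_contra hne
  have : (⟨⟨C, h2⟩, h3.1⟩ : NonemptyCompacts (M × M)) < K :=
    lt_of_le_of_ne h1 fun e => hne (congrArg SetLike.coe e)
  exact absurd (hνs this) (not_lt.2 (hm ⟨h3.2, h1.trans hK.2.1, h4⟩))

theorem davis [CompactSpace M] (H : Span0 M) {Z0 : Set (M × M)} (hk0 : IsCompact Z0)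
    (hc0 : IsConnected Z0) (hs0 : Prod.fst '' Z0 ⊆ Prod.snd '' Z0) : ∃ p ∈ Z0, p.1 = p.2 := by
  by_contra hn0
  obtain ⟨Z, hZ0, hk, hc, hs, hmin⟩ := exists_min hk0 hc0 hs0
  have hn : ∀ p ∈ Z, p.1 ≠ p.2 := fun p hp e => hn0 ⟨p, hZ0 hp, e⟩
  set A := Prod.fst '' Z with hA
  have kA : IsCompact A := hk.image continuous_fst
  have cA : IsConnected A := hc.image _ continuous_fst.continuousOn
  obtain ⟨z0, hz0, hz0A⟩ : ∃ z ∈ Z, z.2 ∉ A := by
    by_contra h
    push Not at h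
    obtain ⟨p, hp, e⟩ := H Z hk hc (hs.antisymm (by rintro _ ⟨z, hz, rfl⟩; exact h z hz))
    exact hn p hp e
  have hr : 0 < infDist z0.2 A := (kA.isClosed.notMem_iff_infDist_pos cA.1).1 hz0A
  set r := infDist z0.2 A with hrd
  have φc : Continuous fun z : M × M => infDist z.2 A :=
    (continuous_infDist_pt A).comp continuous_snd
  set N : Set (M × M) := {z | infDist z.2 A ≤ r / 2} with hN
  have Nc : IsClosed N := isClosed_le φc continuous_const
  have z0N : z0 ∉ N := fun h => by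
    have : r ≤ r / 2 := h
    linarith
  have two : ∀ C1 C2 : Set (M × M), IsCompact C1 → IsConnected C1 → C1 ⊆ Z ∩ N → IsCompact C2 →
      IsConnected C2 → C2 ⊆ Z ∩ N → A ⊆ Prod.snd '' C1 ∪ Prod.snd '' C2 → False := by
    intro C1 C2 k1 c1 s1 k2 c2 s2 hcov
    have ex : ∀ C : Set (M × M), IsCompact C → IsConnected C → C ⊆ Z ∩ N →
        ∃ u ∈ C, u.1 ∉ Prod.snd '' C := by
      intro C k c s
      by_contra h
      push Not at h
      have := hmin C (fun z hz => (s hz).1) k c (by rintro _ ⟨z, hz, rfl⟩; exact h z hz)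
      exact z0N (s (this ▸ hz0)).2
    obtain ⟨u, hu, hu'⟩ := ex C1 k1 c1 s1
    obtain ⟨v, hv, hv'⟩ := ex C2 k2 c2 s2
    have a1 := (hcov ⟨u, (s1 hu).1, rfl⟩).resolve_left hu'
    have a2 := (hcov ⟨v, (s2 hv).1, rfl⟩).resolve_right hv'
    have d1 : IsPreconnected (Z ∪ ({u.1} : Set M) ×ˢ (Prod.snd '' C1)) :=
      hc.2.union u (s1 hu).1 ⟨rfl, u, hu, rfl⟩
        (isPreconnected_singleton.prod (c1.2.image _ continuous_snd.continuousOn))
    obtain ⟨z, hz, e⟩ := sym H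
      (W := (Z ∪ ({u.1} : Set M) ×ˢ (Prod.snd '' C1)) ∪ ({v.1} : Set M) ×ˢ (Prod.snd '' C2))
      ((hk.union (isCompact_singleton.prod (k1.image continuous_snd))).union
        (isCompact_singleton.prod (k2.image continuous_snd)))
      (d1.union v (Or.inl (s2 hv).1) ⟨rfl, v, hv, rfl⟩
        (isPreconnected_singleton.prod (c2.2.image _ continuous_snd.continuousOn)))
      (p := u.1) (q := v.1) (Or.inl (Or.inr ⟨rfl, a2⟩)) (Or.inr ⟨rfl, a1⟩)
    rcases hz with (h | ⟨h1, h2⟩) | ⟨h1, h2⟩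
    · exact hn z h e
    · exact hu' (by rw [← mem_singleton_iff.1 h1, e]; exact h2)
    · exact hv' (by rw [← mem_singleton_iff.1 h1, e]; exact h2)
  let C : M × M → Set (M × M) := fun z => connectedComponentIn (Z ∩ N) z
  have Ck : ∀ z, IsCompact (C z) := fun z =>
    (H84.SemiA.comp_closed (hk.isClosed.inter Nc) z).isCompact
  let D : M × M → Set M := fun z => Prod.snd '' C z
  have Dk : ∀ z, IsCompact (D z) := fun z => (Ck z).image continuous_snd
  have Dc : ∀ z, IsPreconnected (D z) := fun z =>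
    isPreconnected_connectedComponentIn.image _ continuous_snd.continuousOn
  have zN : ∀ z : M × M, z.2 ∈ A → z ∈ N := fun z h => by
    show infDist z.2 A ≤ r / 2
    rw [infDist_zero_of_mem h]; linarith
  have zC : ∀ z ∈ Z, z.2 ∈ A → z ∈ C z := fun z h1 h2 => mem_connectedComponentIn ⟨h1, zN z h2⟩
  have out : ∀ z ∈ Z, z.2 ∈ A → ∃ w ∈ D z, w ∉ A := by
    intro z h1 h2
    obtain ⟨w, hw, hw'⟩ := H84.SemiA.bump hk.isClosed hc.2 Nc
      (O := {z : M × M | infDist z.2 A < r / 2}) (isOpen_lt φc continuous_const)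
      (fun z h => show infDist z.2 A ≤ r / 2 from le_of_lt h)
      h1 (zN z h2) hz0 (fun h => z0N (show infDist z0.2 A ≤ r / 2 from le_of_lt h))
    refine ⟨w.2, ⟨w, hw, rfl⟩, fun h => hw' ?_⟩
    show infDist w.2 A < r / 2
    rw [infDist_zero_of_mem h]; linarith
  have pair : ∀ z z', ¬ A ∩ D z ⊆ D z' → ¬ A ∩ D z' ⊆ D z → ∀ w ∈ D z, w ∈ D z' → w ∈ A := by
    intro z z' h1 h2 w w1 w2
    by_contra w3
    obtain ⟨x, x1, x2⟩ := not_subset.1 h1
    obtain ⟨y, y1, y2⟩ := not_subset.1 h2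
    exact chase H (Dk z') (Dk z) kA (Dc z') (Dc z) cA.2 x1.1 y1.1 w3 y1.2 w2 x2 x1.2 w1 y2
  have fin : ∀ F : Finset A, ∃ z ∈ Z, z.2 ∈ A ∧ ∃ z' ∈ Z, z'.2 ∈ A ∧
      ∀ a ∈ F, a.1 ∈ D z ∨ a.1 ∈ D z' := by
    classical
    intro F
    induction F using Finset.induction_on with
    | empty =>
      obtain ⟨a, ha⟩ := cA.1
      obtain ⟨z, hz, e⟩ := hs ha
      exact ⟨z, hz, e ▸ ha, z, hz, e ▸ ha, by simp⟩
    | insert a F _ ih =>
      obtain ⟨z1, h1, a1, z2, h2, a2, hF⟩ := ih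
      obtain ⟨z3, h3, e⟩ := hs a.2
      have a3 : z3.2 ∈ A := e ▸ a.2
      have m3 : a.1 ∈ D z3 := ⟨z3, zC z3 h3 a3, e⟩
      by_contra hcon
      push Not at hcon
      simp only [Finset.mem_insert] at hcon
      have key : ∀ z ∈ Z, z.2 ∈ A → ∀ z' ∈ Z, z'.2 ∈ A → (∀ x ∈ A, x ∈ D z1 ∨ x ∈ D z2 ∨ x ∈ D z3 →
          x ∈ D z ∨ x ∈ D z') → False := by
        intro z b1 b2 z' b3 b4 h
        obtain ⟨x, hx, n1, n2⟩ := hcon z b1 b2 z' b3 b4
        have : x.1 ∈ D z1 ∨ x.1 ∈ D z2 ∨ x.1 ∈ D z3 := by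
          rcases hx with rfl | hx
          · exact Or.inr (Or.inr m3)
          · rcases hF x hx with h | h
            · exact Or.inl h
            · exact Or.inr (Or.inl h)
        rcases h x.1 x.2 this with h | h
        · exact n1 h
        · exact n2 h
      have n12 : ¬ A ∩ D z1 ⊆ D z2 := fun h => key z2 h2 a2 z3 h3 a3 fun x hx hx' => by
        have := @h x; simp only [mem_inter_iff] at this; tauto
      have n13 : ¬ A ∩ D z1 ⊆ D z3 := fun h => key z2 h2 a2 z3 h3 a3 fun x hx hx' => by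
        have := @h x; simp only [mem_inter_iff] at this; tauto
      have n21 : ¬ A ∩ D z2 ⊆ D z1 := fun h => key z1 h1 a1 z3 h3 a3 fun x hx hx' => by
        have := @h x; simp only [mem_inter_iff] at this; tauto
      have n23 : ¬ A ∩ D z2 ⊆ D z3 := fun h => key z1 h1 a1 z3 h3 a3 fun x hx hx' => by
        have := @h x; simp only [mem_inter_iff] at this; tauto
      have n31 : ¬ A ∩ D z3 ⊆ D z1 := fun h => key z1 h1 a1 z2 h2 a2 fun x hx hx' => by
        have := @h x; simp only [mem_inter_iff] at this; tauto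
      have n32 : ¬ A ∩ D z3 ⊆ D z2 := fun h => key z1 h1 a1 z2 h2 a2 fun x hx hx' => by
        have := @h x; simp only [mem_inter_iff] at this; tauto
      obtain ⟨w1, p1, q1⟩ := out z1 h1 a1
      obtain ⟨w2, p2, q2⟩ := out z2 h2 a2
      obtain ⟨w3, p3, q3⟩ := out z3 h3 a3
      have un : ∀ z ∈ Z, z.2 ∈ A → ∀ z' ∈ Z, z'.2 ∈ A →
          IsCompact ((D z ∪ A) ∪ D z') ∧ IsPreconnected ((D z ∪ A) ∪ D z') :=
        fun z b1 b2 z' b3 b4 => ⟨((Dk z).union kA).union (Dk z'),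
          IsPreconnected.union z'.2 (Or.inr b4) (mem_image_of_mem _ (zC z' b3 b4))
            (IsPreconnected.union z.2 (mem_image_of_mem _ (zC z b1 b2)) b2 (Dc z) cA.2) (Dc z')⟩
      refine chase H (un z2 h2 a2 z3 h3 a3).1 (un z1 h1 a1 z3 h3 a3).1 (un z1 h1 a1 z2 h2 a2).1
        (un z2 h2 a2 z3 h3 a3).2 (un z1 h1 a1 z3 h3 a3).2 (un z1 h1 a1 z2 h2 a2).2
        (x := w1) (y := w2) (w := w3) (Or.inl (Or.inl p1)) (Or.inr p2) ?_ (Or.inl (Or.inl p2))
        (Or.inr p3) ?_ (Or.inl (Or.inl p1)) (Or.inr p3) ?_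
      · rintro ((h | h) | h)
        · exact q3 (pair z1 z3 n13 n31 w3 h p3)
        · exact q3 h
        · exact q3 (pair z2 z3 n23 n32 w3 h p3)
      · rintro ((h | h) | h)
        · exact q1 (pair z1 z2 n12 n21 w1 p1 h)
        · exact q1 h
        · exact q1 (pair z1 z3 n13 n31 w1 p1 h)
      · rintro ((h | h) | h)
        · exact q2 (pair z1 z2 n12 n21 w2 h p2)
        · exact q2 h
        · exact q2 (pair z2 z3 n23 n32 w2 p2 h)
  let S : Set (NonemptyCompacts (M × M)) := {K | IsPreconnected (K : Set (M × M))} ∩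
    {K | (K : Set (M × M)) ⊆ Z ∩ N}
  have hS : IsClosed S := H33.Contin.closed_conn.inter
    (NonemptyCompacts.isClosed_subsets_of_isClosed (hk.isClosed.inter Nc))
  let T : A → Set (NonemptyCompacts (M × M)) := fun a =>
    {K | ((K : Set (M × M)) ∩ Prod.snd ⁻¹' {a.1}).Nonempty}
  have hT : ∀ a, IsClosed (T a) := fun a =>
    NonemptyCompacts.isClosed_inter_nonempty_of_isClosed (isClosed_singleton.preimage continuous_snd)
  obtain ⟨⟨K1, K2⟩, ⟨k1, k2⟩, hK⟩ := (hS.prod hS).isCompact.inter_iInter_nonempty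
    (fun a : A => Prod.fst ⁻¹' T a ∪ Prod.snd ⁻¹' T a)
    (fun a => ((hT a).preimage continuous_fst).union ((hT a).preimage continuous_snd)) (by
      intro F
      obtain ⟨z, b1, b2, z', b3, b4, h⟩ := fin F
      refine ⟨(⟨⟨C z, Ck z⟩, z, zC z b1 b2⟩, ⟨⟨C z', Ck z'⟩, z', zC z' b3 b4⟩),
        ⟨⟨isPreconnected_connectedComponentIn, connectedComponentIn_subset _ _⟩,
          ⟨isPreconnected_connectedComponentIn, connectedComponentIn_subset _ _⟩⟩,
        mem_iInter₂.2 fun a ha => ?_⟩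
      rcases h a ha with ⟨w, hw, e⟩ | ⟨w, hw, e⟩
      · exact Or.inl ⟨w, hw, e⟩
      · exact Or.inr ⟨w, hw, e⟩)
  refine two K1 K2 K1.isCompact ⟨K1.nonempty, k1.1⟩ k1.2 K2.isCompact ⟨K2.nonempty, k2.1⟩ k2.2
    fun a ha => ?_
  rcases mem_iInter.1 hK ⟨a, ha⟩ with ⟨w, hw, e⟩ | ⟨w, hw, e⟩
  · exact Or.inl ⟨w, hw, e⟩
  · exact Or.inr ⟨w, hw, e⟩

end Pool.Agent.H82.SpanA
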