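import Mathlib
import Pool.Agent.H82.SpanA
import Pool.Agent.H82.SpanB
import Pool.Agent.H82.KFive

/-! Span zero continua are continuously ray extendable. -/

set_option autoImplicit false

namespace Pool.Agent.H82.SpanC

open Set Topology TopologicalSpace Metric Filter SpanA SpanB

theorem exists_ray {V : Type} [NormedAddCommGroup V] [NormedSpace ℝ V] {G : Set V}
    (hk : IsCompact G) (hc : IsConnected G) : ∃ ρ : ℝ → V, Ray G ρ := by
  obtain ⟨S, hS, hSc, hSd⟩ := hk.isSeparable.exists_countable_dense_subset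
  obtain ⟨x, hx⟩ := hSc.exists_eq_range (closure_nonempty_iff.1 (hc.1.mono hSd))
  have xG : ∀ n, x n ∈ G := fun n => hS (hx ▸ mem_range_self n)
  obtain ⟨ρ, h1, h2, h3⟩ := concat (fun n => x (Nat.unpair n).1)
    (fun n => thickening (1 / ((n:ℝ) + 1)) G) (fun n =>
      (KFive.conn_thick hc Nat.one_div_pos_of_nat).joinedIn _
        (self_subset_thickening Nat.one_div_pos_of_nat _ (xG _)) _
        (self_subset_thickening Nat.one_div_pos_of_nat _ (xG _)))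
  refine ⟨ρ, h1, fun δ hδ => ?_, fun δ hδ a m hm => ?_⟩
  · obtain ⟨n, hn⟩ := exists_nat_one_div_lt hδ
    refine ⟨n, fun s hs => ?_⟩
    have := (mem_thickening_iff_infDist_lt hc.1).1 (h2 s)
    exact (this.le.trans (Nat.one_div_le_one_div (Nat.le_floor hs))).trans hn.le
  · obtain ⟨y, hy, hy'⟩ := Metric.mem_closure_iff.1 (hSd hm) δ hδ
    obtain ⟨k, rfl⟩ := hx ▸ hy
    obtain ⟨n, hn⟩ := exists_nat_ge a
    refine ⟨(Nat.pair k n : ℕ), hn.trans (by exact_mod_cast Nat.right_le_pair k n), ?_⟩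
    rw [h3, Nat.unpair_pair, dist_comm]
    exact hy'

theorem ray_map {E E' : Type} [MetricSpace E] [MetricSpace E'] {M : Set E} (hne : M.Nonempty)
    {p : ℝ → E} (hp : Ray M p) {g : E → E'} (hg : LipschitzWith 1 g) : Ray (g '' M) (g ∘ p) := by
  have hd : ∀ x y, dist (g x) (g y) ≤ dist x y := fun x y => by simpa using hg.dist_le_mul x y
  refine ⟨hg.continuous.comp hp.1, fun δ hδ => ?_, fun δ hδ a m hm => ?_⟩
  · obtain ⟨a, ha⟩ := hp.2.1 (δ / 2) (by linarith)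
    refine ⟨a, fun s hs => ?_⟩
    obtain ⟨y, hy, hy'⟩ := (infDist_lt_iff hne).1 (show infDist (p s) M < δ by linarith [ha s hs])
    exact (infDist_le_dist_of_mem (mem_image_of_mem g hy)).trans ((hd _ _).trans hy'.le)
  · obtain ⟨m, hm, rfl⟩ := hm
    obtain ⟨s, h1, h2⟩ := hp.2.2 δ hδ a m hm
    exact ⟨s, h1, (hd _ _).trans_lt h2⟩

theorem ray_of {Y : Type} [MetricSpace Y] [CompactSpace Y] {J : Set Y} (hJ : IsClosed J)
    (hne : J.Nonempty) (hd : Dense Jᶜ) (e : ↥(Jᶜ) ≃ₜ ↥(Ici (0:ℝ))) :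
    ∃ l : ℝ → Y, Ray J l ∧ ∀ y ∉ J, ∃ s, 0 ≤ s ∧ l s = y := by
  let l : ℝ → Y := fun s => (e.symm ⟨max s 0, mem_Ici.2 (le_max_right _ _)⟩ : Y)
  have lc : Continuous l :=
    continuous_subtype_val.comp (e.symm.continuous.comp (Continuous.subtype_mk (by fun_prop) _))
  have sj : ∀ y ∉ J, ∃ s, 0 ≤ s ∧ l s = y := fun y hy =>
    ⟨(e ⟨y, hy⟩ : ℝ), (e ⟨y, hy⟩).2, by
      simp only [l, max_eq_left (show (0:ℝ) ≤ e ⟨y, hy⟩ from (e ⟨y, hy⟩).2)]
      exact congrArg Subtype.val (e.symm_apply_apply ⟨y, hy⟩)⟩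
  refine ⟨l, ⟨lc, fun δ hδ => ?_, fun δ hδ a m hm => ?_⟩, sj⟩
  · have h1 : IsCompact {y | δ ≤ infDist y J} :=
      (isClosed_le continuous_const (continuous_infDist_pt J)).isCompact
    have h2 : IsCompact ((Subtype.val : ↥(Jᶜ) → Y) ⁻¹' {y | δ ≤ infDist y J}) := by
      refine IsInducing.subtypeVal.isCompact_preimage' h1 fun y hy => ⟨⟨y, fun h => ?_⟩, rfl⟩
      have : δ ≤ infDist y J := hy
      rw [infDist_zero_of_mem h] at this
      linarith
    obtain ⟨b, hb⟩ := (h2.image (continuous_subtype_val.comp e.continuous)).bddAbove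
    refine ⟨b + 1, fun s hs => not_lt.1 fun h => ?_⟩
    have := hb ⟨e.symm ⟨max s 0, mem_Ici.2 (le_max_right _ _)⟩, h.le, rfl⟩
    simp at this
    linarith
  · have h1 : IsClosed (l '' Icc 0 a) := (isCompact_Icc.image lc).isClosed
    obtain ⟨y, ⟨y1, y2⟩, y3⟩ := hd.inter_open_nonempty (ball m δ ∩ (l '' Icc 0 a)ᶜ)
      (isOpen_ball.inter h1.isOpen_compl) ⟨m, mem_ball_self hδ, by
        rintro ⟨s, -, hs⟩
        exact (e.symm ⟨max s 0, mem_Ici.2 (le_max_right _ _)⟩).2 (show l s ∈ J from hs ▸ hm)⟩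
    obtain ⟨s, s0, rfl⟩ := sj y y3
    exact ⟨s, not_lt.1 fun h => y2 ⟨s, ⟨s0, h.le⟩, rfl⟩, y1⟩

theorem hit {τ : ℝ → ℝ} (hc : Continuous τ) (h : ∀ a, ∃ t0, ∀ t, t0 ≤ t → a ≤ τ t) {t0 u : ℝ}
    (hu : τ t0 ≤ u) : ∃ t, t0 ≤ t ∧ τ t = u := by
  obtain ⟨t1, h1⟩ := h u
  obtain ⟨t, a, b⟩ := intermediate_value_Icc (le_max_left t0 t1) hc.continuousOn
    ⟨hu, h1 _ (le_max_right _ _)⟩
  exact ⟨t, a.1, b⟩

theorem build {X U : Type} [MetricSpace X] [CompactSpace X] [Nonempty X] [MetricSpace U]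
    {i : X → U} (ic : Continuous i) (ii : Function.Injective i) {r : ℝ → U}
    (hr : Ray (range i) r) : ∃ (W : Type) (_ : MetricSpace W) (_ : CompactSpace W) (i' : X → W),
      IsEmbedding i' ∧ Dense (range i')ᶜ ∧ Nonempty (↥((range i')ᶜ) ≃ₜ ↥(Ici (0:ℝ))) ∧
      ∃ F : W → U, Continuous F ∧ (∀ x, F (i' x) = i x) ∧ ∀ t, 0 ≤ t → r t ∈ range F := by
  let i2 : X → U × ℝ := fun x => (i x, 0)
  let Φ : ℝ → U × ℝ := fun t => (r t, Real.exp (-t))
  have i2c : Continuous i2 := by fun_prop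
  have Φc : Continuous Φ := hr.1.prodMk (by fun_prop)
  have ex : ∀ δ > 0, ∃ a, ∀ s, a ≤ s → Real.exp (-s) < δ := fun δ hδ =>
    eventually_atTop.1 (Real.tendsto_exp_neg_atTop_nhds_zero.eventually (gt_mem_nhds hδ))
  have dd : ∀ s x, dist (Φ s) (i2 x) = max (dist (r s) (i x)) (Real.exp (-s)) := fun s x => by
    simp [Φ, i2, Prod.dist_eq]
  have hW : IsCompact (range i2 ∪ Φ '' Ici 0) := by
    refine ray_compact (isCompact_range i2c) (range_nonempty _) Φc fun δ hδ => ?_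
    obtain ⟨a, ha⟩ := hr.2.1 (δ / 2) (by linarith)
    obtain ⟨b, hb⟩ := ex δ hδ
    refine ⟨max a b, fun s hs => ?_⟩
    obtain ⟨_, ⟨x, rfl⟩, hx⟩ := (infDist_lt_iff (range_nonempty i)).1
      (show infDist (r s) (range i) < δ by linarith [ha s (le_of_max_le_left hs)])
    refine (infDist_le_dist_of_mem (mem_range_self x)).trans ?_
    rw [dd]
    exact max_le hx.le (hb s (le_of_max_le_right hs)).le
  let W := ↥(range i2 ∪ Φ '' Ici 0)
  let i' : X → W := fun x => ⟨i2 x, Or.inl (mem_range_self x)⟩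
  let Φ' : Ici (0:ℝ) → W := fun t => ⟨Φ t, Or.inr ⟨t, t.2, rfl⟩⟩
  have i'c : Continuous i' := i2c.subtype_mk _
  have nr : ∀ t, Φ' t ∉ range i' := by
    rintro t ⟨x, hx⟩
    have : (0:ℝ) = Real.exp (-t) := congrArg (fun w : W => w.1.2) hx
    linarith [Real.exp_pos (-(t:ℝ))]
  have rp : ∀ w : ↥((range i')ᶜ), ∃ t : Ici (0:ℝ), w.1 = Φ' t := by
    rintro ⟨⟨_, ⟨x, rfl⟩ | ⟨t, ht, rfl⟩⟩, hw⟩
    · exact absurd ⟨x, rfl⟩ hw
    · exact ⟨⟨t, ht⟩, rfl⟩
  refine ⟨W, inferInstance, isCompact_iff_compactSpace.1 hW, i',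
    (i'c.isClosedEmbedding fun x y h => ii (congrArg (fun w : W => w.1.1) h)).isEmbedding, ?_,
    ⟨⟨⟨fun w => ⟨-Real.log w.1.1.2, ?_⟩, fun t => ⟨Φ' t, nr t⟩, fun w => ?_, fun t => ?_⟩, ?_, ?_⟩⟩,
    fun w => w.1.1, continuous_fst.comp continuous_subtype_val, fun x => rfl,
    fun t ht => ⟨Φ' ⟨t, ht⟩, rfl⟩⟩
  · intro w
    by_cases hw : w ∈ range i'
    · obtain ⟨x, rfl⟩ := hw
      refine Metric.mem_closure_iff.2 fun δ hδ => ?_
      obtain ⟨b, hb⟩ := ex δ hδ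
      obtain ⟨s, h1, h2⟩ := hr.2.2 δ hδ (max b 0) _ (mem_range_self x)
      refine ⟨Φ' ⟨s, le_of_max_le_right h1⟩, nr _, ?_⟩
      rw [dist_comm]
      show dist (Φ s) (i2 x) < δ
      rw [dd]
      exact max_lt h2 (hb s (le_of_max_le_left h1))
    · exact subset_closure hw
  · obtain ⟨t, ht⟩ := rp w
    rw [ht]
    simp [Φ', Φ]
  · obtain ⟨t, ht⟩ := rp w
    refine Subtype.ext (Subtype.ext ?_)
    simp only [Φ', ht]
    simp [Φ]
  · exact Subtype.ext (by simp [Φ', Φ])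
  · refine Continuous.subtype_mk (Continuous.neg (Continuous.log
      (continuous_snd.comp (continuous_subtype_val.comp continuous_subtype_val)) fun w => ?_)) _
    obtain ⟨t, ht⟩ := rp w
    show w.1.1.2 ≠ 0
    rw [ht]
    exact (Real.exp_pos _).ne'
  · exact Continuous.subtype_mk ((Φc.comp continuous_subtype_val).subtype_mk _) _

theorem main (M : Type) [MetricSpace M] [CompactSpace M] [ConnectedSpace M] (H : Span0 M)
    (X : Type) [MetricSpace X] [CompactSpace X] [ConnectedSpace X] (f : X → M) (fc : Continuous f)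
    (fs : Function.Surjective f) (Y : Type) [MetricSpace Y] [CompactSpace Y] (j : M → Y)
    (hj : IsEmbedding j) (hd : Dense (range j)ᶜ) (e : ↥((range j)ᶜ) ≃ₜ ↥(Ici (0:ℝ))) :
    ∃ (W : Type) (_ : MetricSpace W) (_ : CompactSpace W) (i : X → W),
      IsEmbedding i ∧ Dense (range i)ᶜ ∧ Nonempty (↥((range i)ᶜ) ≃ₜ ↥(Ici (0:ℝ))) ∧
      ∃ F : W → Y, Continuous F ∧ Function.Surjective F ∧ ∀ x, F (i x) = j (f x) := by
  obtain ⟨l, hl, ls⟩ := ray_of (isCompact_range hj.continuous).isClosed (range_nonempty j) hd e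
  let κ := kuratowskiEmbedding X
  let k := kuratowskiEmbedding Y
  have hκ : Isometry κ := kuratowskiEmbedding.isometry X
  have hk : Isometry k := kuratowskiEmbedding.isometry Y
  let g : X → lp (fun _ : ℕ => ℝ) ⊤ × lp (fun _ : ℕ => ℝ) ⊤ := fun x => (κ x, k (j (f x)))
  have gc : Continuous g := hκ.continuous.prodMk (hk.continuous.comp (hj.continuous.comp fc))
  obtain ⟨ρ, hρ⟩ := exists_ray (isCompact_range gc) (isConnected_range gc)
  have hp := ray_map (range_nonempty j) hl hk.lipschitz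
  have hq := ray_map (range_nonempty g) hρ LipschitzWith.prod_snd
  have e1 : k '' range j = range (k ∘ j) := (range_comp k j).symm
  have e2 : Prod.snd '' range g = range (k ∘ j) := by
    rw [← range_comp]
    exact fs.range_comp (k ∘ j)
  rw [e1] at hp
  rw [e2] at hq
  have hι : IsEmbedding (k ∘ j) := hk.isEmbedding.comp hj
  obtain ⟨c, cc, hc⟩ := stair (isCompact_range hι.continuous) (range_nonempty _) (by
    intro Z h1 h2 h3 h4
    have hι2 := hι.prodMap hι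
    have hZ : Prod.map (k ∘ j) (k ∘ j) '' (Prod.map (k ∘ j) (k ∘ j) ⁻¹' Z) = Z :=
      image_preimage_eq_of_subset (by rw [range_prodMap]; exact h1)
    rw [← hZ] at h2 h3
    obtain ⟨p, p1, p2⟩ := davis H (hι2.isInducing.isCompact_iff.2 h2)
      ⟨h3.1.of_image, hι2.isInducing.isPreconnected_image.1 h3.2⟩ (by
        rintro x -
        obtain ⟨z, hz, e⟩ := h4 (mem_range_self x)
        obtain ⟨⟨y, hy⟩, -⟩ := h1 hz
        exact ⟨(y, x), show ((k ∘ j) y, (k ∘ j) x) ∈ Z by rw [hy, ← e]; exact hz, rfl⟩)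
    exact ⟨_, p1, congrArg (k ∘ j) p2⟩) hp hq
  let s : ℝ → ℝ := fun t => (c t).1 * min t 1
  have sc : Continuous s := by fun_prop
  have se : ∀ t, 1 ≤ t → s t = (c t).1 := fun t h => by simp [s, min_eq_right h]
  let i : X → (lp (fun _ : ℕ => ℝ) ⊤ × lp (fun _ : ℕ => ℝ) ⊤) × Y := fun x => (g x, j (f x))
  let r : ℝ → (lp (fun _ : ℕ => ℝ) ⊤ × lp (fun _ : ℕ => ℝ) ⊤) × Y := fun t => (ρ (c t).2, l (s t))
  have ic : Continuous i := gc.prodMk (hj.continuous.comp fc)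
  have key : ∀ δ > 0, ∀ a, ∃ t0, ∀ t, t0 ≤ t → a ≤ (c t).2 ∧
      ∀ x, dist (ρ (c t).2) (g x) < δ / 2 → dist (r t) (i x) < δ := by
    intro δ hδ a
    obtain ⟨t0, h0⟩ := hc (δ / 2) (by linarith) a
    refine ⟨max t0 1, fun t ht => ⟨(h0 t (le_of_max_le_left ht)).2.1, fun x hx => ?_⟩⟩
    refine max_lt (by linarith) ?_
    show dist (l (s t)) (j (f x)) < δ
    rw [se t (le_of_max_le_right ht), ← hk.dist_eq]
    have a1 := (h0 t (le_of_max_le_left ht)).2.2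
    have a2 : dist (ρ (c t).2).2 (k (j (f x))) < δ / 2 := (le_max_right _ _).trans_lt hx
    have a3 := dist_triangle (k (l (c t).1)) (ρ (c t).2).2 (k (j (f x)))
    simp only [Function.comp] at a1
    linarith
  have hr : Ray (range i) r := by
    refine ⟨(hρ.1.comp cc.snd).prodMk (hl.1.comp sc), fun δ hδ => ?_, fun δ hδ a m hm => ?_⟩
    · obtain ⟨a, ha⟩ := hρ.2.1 (δ / 4) (by linarith)
      obtain ⟨t0, h0⟩ := key δ hδ a
      refine ⟨t0, fun t ht => ?_⟩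
      obtain ⟨_, ⟨x, rfl⟩, hx⟩ := (infDist_lt_iff (range_nonempty g)).1
        (show infDist (ρ (c t).2) (range g) < δ / 2 by linarith [ha _ (h0 t ht).1])
      exact (infDist_le_dist_of_mem (mem_range_self x)).trans ((h0 t ht).2 x hx).le
    · obtain ⟨x, rfl⟩ := hm
      obtain ⟨t0, h0⟩ := key δ hδ 0
      obtain ⟨u, u1, u2⟩ := hρ.2.2 (δ / 2) (by linarith) (c (max t0 a)).2 _ (mem_range_self x)
      obtain ⟨t, t1, rfl⟩ := hit cc.snd (fun a => by
        obtain ⟨t0, h0⟩ := hc 1 one_pos a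
        exact ⟨t0, fun t ht => (h0 t ht).2.1⟩) u1
      exact ⟨t, le_of_max_le_right t1, (h0 t (le_of_max_le_left t1)).2 x u2⟩
  obtain ⟨W, w1, w2, i', b1, b2, b3, F, b4, b5, b6⟩ := build ic
    (fun x y h => hκ.injective (congrArg (fun w => w.1.1) h)) hr
  refine ⟨W, w1, w2, i', b1, b2, b3, fun w => (F w).2, b4.snd, fun y => ?_, fun x => by
    simp only [b5, i]⟩
  by_cases hy : y ∈ range j
  · obtain ⟨m, rfl⟩ := hy
    obtain ⟨x, rfl⟩ := fs m
    exact ⟨i' x, by simp only [b5, i]⟩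
  · obtain ⟨u, u0, rfl⟩ := ls y hy
    obtain ⟨t, t0, rfl⟩ := hit sc (fun a => by
      obtain ⟨t0, h0⟩ := hc 1 one_pos a
      exact ⟨max t0 1, fun t ht => by
        rw [se t (le_of_max_le_right ht)]; exact (h0 t (le_of_max_le_left ht)).1⟩) (t0 := 0) (u := u)
      (by simpa [s] using u0)
    obtain ⟨w, hw⟩ := b6 t t0
    exact ⟨w, by simp only [hw, r]⟩

end Pool.Agent.H82.SpanC
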