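import Mathlib
import Pool.Agent.H82.PointFinite

set_option autoImplicit false
open Topology Filter Cardinal

namespace Pool.Agent.H82.TightImage

lemma tendsto_piecewise {κ : Type} [DecidableEq κ] (x y : κ → ℝ) :
    Tendsto (fun F : Finset κ => F.piecewise y x) atTop (𝓝 y) := by
  rw [tendsto_pi_nhds]
  intro b
  refine tendsto_const_nhds.congr' ?_
  filter_upwards [eventually_ge_atTop {b}] with F hF
  rw [Finset.piecewise_eq_of_mem _ _ _ (hF (Finset.mem_singleton_self b))]

/-- the box supported on `J` -/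
def Box {κ : Type} (n : ℕ) (J : Set κ) : Set (κ → ℝ) :=
  {x | ∀ b, |x b| ≤ n ∧ (b ∉ J → x b = 0)}

lemma box_compact {κ : Type} (n : ℕ) (J : Set κ) : IsCompact (Box n J) := by
  have : Box n J = Set.pi Set.univ fun b => Set.Icc (-(n : ℝ)) n ∩ {t | b ∉ J → t = 0} := by
    ext x; simp [Box, abs_le]
  rw [this]
  refine isCompact_univ_pi fun b => isCompact_Icc.inter_right ?_
  by_cases h : b ∈ J
  · simp [h]
  · simp [h]

/-- boxes with at most continuum many coordinates are separable -/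
lemma box_sep {κ : Type} (n : ℕ) (J : Set κ) (c : κ → ℝ) (hc : Set.InjOn c J) :
    ∃ D ⊆ Box n J, D.Countable ∧ Box n J ⊆ closure D := by
  classical
  let Ψ : C(ℝ, ℝ) → κ → ℝ := fun f b => if b ∈ J then max (-(n : ℝ)) (min n (f (c b))) else 0
  have hΨ : Continuous Ψ := by
    refine continuous_pi fun b => ?_
    by_cases h : b ∈ J
    · simp only [Ψ, if_pos h]
      exact continuous_const.max (continuous_const.min (continuous_eval_const (c b)))
    · simp only [Ψ, if_neg h]; exact continuous_const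
  obtain ⟨D, hD, hDd⟩ := TopologicalSpace.exists_countable_dense C(ℝ, ℝ)
  have hn : (0 : ℝ) ≤ n := Nat.cast_nonneg n
  refine ⟨Ψ '' D, ?_, hD.image _, ?_⟩
  · rintro _ ⟨f, _, rfl⟩ b
    by_cases h : b ∈ J
    · simp only [Ψ, if_pos h]
      refine ⟨abs_le.2 ⟨le_max_left _ _, max_le (by linarith) (min_le_left _ _)⟩,
        fun h' => absurd h h'⟩
    · simp [Ψ, if_neg h]
  · intro x hx
    have h1 : Set.range Ψ ⊆ closure (Ψ '' D) := by
      rw [← Set.image_univ, ← hDd.closure_eq]
      exact image_closure_subset_closure_image hΨ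
    refine closure_minimal h1 isClosed_closure ?_
    rw [mem_closure_iff_nhds]
    intro t ht
    rw [nhds_pi, Filter.mem_pi'] at ht
    obtain ⟨I, s, hs, hI⟩ := ht
    obtain ⟨f, hf, hfv⟩ := PointFinite.interpolate ((I.filter (· ∈ J)).image c)
      (fun r => if h : ∃ b ∈ J, c b = r then x h.choose else 0)
    refine ⟨Ψ ⟨f, hf⟩, hI fun b hb => ?_, _, rfl⟩
    have : Ψ ⟨f, hf⟩ b = x b := by
      by_cases h : b ∈ J
      · have hex : ∃ b' ∈ J, c b' = c b := ⟨b, h, rfl⟩
        have e : hex.choose = b := hc hex.choose_spec.1 h hex.choose_spec.2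
        simp only [Ψ, if_pos h, ContinuousMap.coe_mk]
        rw [hfv _ (Finset.mem_image_of_mem _ (Finset.mem_filter.2 ⟨hb, h⟩)), dif_pos hex, e]
        have := abs_le.1 (hx b).1
        rw [min_eq_right this.2, max_eq_right this.1]
      · simp only [Ψ, if_neg h]; exact ((hx b).2 h).symm
    rw [this]
    exact mem_of_mem_nhds (hs b)

section
variable {κ K : Type} [TopologicalSpace K] [CompactSpace K] [T2Space K]

/-- the image of such a box is the image of a box with countably many coordinates -/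
lemma box_image (ht : ∀ (A : Set K) (x : K), x ∈ closure A →
      ∃ C : Set K, C ⊆ A ∧ C.Countable ∧ x ∈ closure C)
    {φ : (κ → ℝ) → K} (hφ : Continuous φ) (n : ℕ) (J : Set κ) (c : κ → ℝ) (hc : Set.InjOn c J) :
    ∃ A : Set κ, A.Countable ∧ φ '' Box n J ⊆ φ '' Box n A := by
  classical
  let S : Set K := ⋃ A ∈ {A : Set κ | A.Countable}, φ '' Box n A
  have hL : ∀ C ⊆ S, C.Countable → ∃ A : Set κ, A.Countable ∧ closure C ⊆ φ '' Box n A := by
    intro C hCS hC
    have : ∀ p : C, ∃ A : Set κ, A.Countable ∧ p.1 ∈ φ '' Box n A := fun p => by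
      simpa [S] using hCS p.2
    choose A hA hAp using this
    have := hC.to_subtype
    refine ⟨⋃ p, A p, Set.countable_iUnion hA,
      closure_minimal ?_ ((box_compact _ _).image hφ).isClosed⟩
    intro p hp
    obtain ⟨x, hx, e⟩ := hAp ⟨p, hp⟩
    exact ⟨x, fun b => ⟨(hx b).1, fun hb => (hx b).2 fun h => hb (Set.mem_iUnion.2 ⟨_, h⟩)⟩, e⟩
  have hS : φ '' Box n J ⊆ S := by
    rintro _ ⟨x, hx, rfl⟩
    have h1 : φ x ∈ closure S := by
      refine mem_closure_of_tendsto ((hφ.tendsto x).comp (tendsto_piecewise 0 x))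
        (Eventually.of_forall fun F => ?_)
      refine Set.mem_biUnion (x := (F : Set κ)) F.countable_toSet
        ⟨F.piecewise x 0, fun b => ?_, rfl⟩
      by_cases hb : b ∈ F
      · rw [Finset.piecewise_eq_of_mem _ _ _ hb]
        exact ⟨(hx b).1, fun h => absurd hb h⟩
      · rw [Finset.piecewise_eq_of_notMem _ _ _ hb]
        simp
    obtain ⟨C, hCS, hC, hxC⟩ := ht _ _ h1
    obtain ⟨A, hA, hAC⟩ := hL C hCS hC
    exact Set.mem_biUnion (x := A) hA (hAC hxC)
  obtain ⟨D, hD, hDc, hDd⟩ := box_sep n J c hc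
  obtain ⟨A, hA, hAC⟩ := hL (φ '' D) ((Set.image_mono hD).trans hS) (hDc.image _)
  exact ⟨A, hA, ((Set.image_mono hDd).trans (image_closure_subset_closure_image hφ)).trans hAC⟩

open Classical in
/-- extension by zero -/
noncomputable def ext0 (A : Set κ) (u : A → ℝ) : κ → ℝ := fun b => if h : b ∈ A then u ⟨b, h⟩ else 0

lemma ext0_cont (A : Set κ) : Continuous (ext0 A) := by
  refine continuous_pi fun b => ?_
  by_cases h : b ∈ A
  · simp only [ext0, dif_pos h]; exact continuous_apply _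
  · simp only [ext0, dif_neg h]; exact continuous_const

lemma sep_countable {φ : (κ → ℝ) → K} (hφ : Continuous φ) (n : ℕ) (A : Set κ) (hA : A.Countable) :
    ∃ T : Set C(K, ℝ), T.Countable ∧ ∀ p ∈ φ '' Box n A, ∀ q ∈ φ '' Box n A, p ≠ q →
      ∃ g ∈ T, g p ≠ g q := by
  have := hA.to_subtype
  have hψ : Continuous (φ ∘ ext0 A) := hφ.comp (ext0_cont A)
  obtain ⟨T, hT, hTe⟩ := TopologicalSpace.isOpen_iUnion_countable
    (fun g : C(K, ℝ) => {z : (A → ℝ) × (A → ℝ) | g ((φ ∘ ext0 A) z.1) ≠ g ((φ ∘ ext0 A) z.2)})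
    (fun g => isOpen_ne_fun (g.continuous.comp (hψ.comp continuous_fst))
      (g.continuous.comp (hψ.comp continuous_snd)))
  refine ⟨T, hT, ?_⟩
  have hx : ∀ x ∈ Box n A, ext0 A (fun b => x b.1) = x := by
    intro x hx
    funext b
    by_cases h : b ∈ A
    · simp only [ext0, dif_pos h]
    · simp only [ext0, dif_neg h]; exact ((hx b).2 h).symm
  rintro _ ⟨x, hxA, rfl⟩ _ ⟨y, hyA, rfl⟩ hne
  obtain ⟨g, hg1, hg2, _⟩ := exists_continuous_zero_one_of_isClosed
    (isClosed_singleton (x := φ x)) (isClosed_singleton (x := φ y)) (by simpa using hne)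
  have : ((fun b : A => x b.1), (fun b : A => y b.1)) ∈ ⋃ g : C(K, ℝ),
      {z : (A → ℝ) × (A → ℝ) | g ((φ ∘ ext0 A) z.1) ≠ g ((φ ∘ ext0 A) z.2)} := by
    refine Set.mem_iUnion.2 ⟨g, ?_⟩
    simp only [Set.mem_ofPred_eq, Function.comp, hx x hxA, hx y hyA]
    rw [hg1 rfl, hg2 rfl]
    simp
  rw [← hTe] at this
  simp only [Set.mem_iUnion, Set.mem_ofPred_eq, Function.comp, hx x hxA, hx y hyA] at this
  obtain ⟨g, hg, hne⟩ := this
  exact ⟨g, hg, hne⟩

/-- only countably many coordinates are essential -/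
theorem essential_countable (ht : ∀ (A : Set K) (x : K), x ∈ closure A →
      ∃ C : Set K, C ⊆ A ∧ C.Countable ∧ x ∈ closure C)
    {φ : (κ → ℝ) → K} (hφ : Continuous φ) :
    {a : κ | ∃ x y : κ → ℝ, (∀ b, b ≠ a → x b = y b) ∧ φ x ≠ φ y}.Countable := by
  classical
  have h1 : {a : κ | ∃ x y : κ → ℝ, (∀ b, b ≠ a → x b = y b) ∧ φ x ≠ φ y} ⊆
      ⋃ n : ℕ, {a : κ | ∃ (F : Finset κ) (x y : κ → ℝ), x ∈ Box n (F : Set κ) ∧
        y ∈ Box n (F : Set κ) ∧ (∀ b, b ≠ a → x b = y b) ∧ φ x ≠ φ y} := by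
    rintro a ⟨x, y, hxy, hne⟩
    have h2 := ((hφ.tendsto x).comp (tendsto_piecewise 0 x)).prodMk_nhds
      ((hφ.tendsto y).comp (tendsto_piecewise 0 y))
    obtain ⟨F, hF⟩ := (h2.eventually
      ((isOpen_ne_fun continuous_fst continuous_snd).mem_nhds hne)).exists
    obtain ⟨n, hn⟩ := exists_nat_ge (∑ b ∈ F, (|x b| + |y b|))
    have hb : ∀ b ∈ F, |x b| + |y b| ≤ n := fun b hb =>
      (Finset.single_le_sum (f := fun b => |x b| + |y b|) (fun _ _ => by positivity) hb).trans hn
    refine Set.mem_iUnion.2 ⟨n, F, F.piecewise x 0, F.piecewise y 0, fun b => ?_, fun b => ?_,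
      fun b hba => ?_, hF⟩
    · by_cases h : b ∈ F
      · rw [Finset.piecewise_eq_of_mem _ _ _ h]
        exact ⟨by linarith [hb b h, abs_nonneg (y b)], fun h' => absurd h h'⟩
      · rw [Finset.piecewise_eq_of_notMem _ _ _ h]; simp
    · by_cases h : b ∈ F
      · rw [Finset.piecewise_eq_of_mem _ _ _ h]
        exact ⟨by linarith [hb b h, abs_nonneg (x b)], fun h' => absurd h h'⟩
      · rw [Finset.piecewise_eq_of_notMem _ _ _ h]; simp
    · by_cases h : b ∈ F
      · rw [Finset.piecewise_eq_of_mem _ _ _ h, Finset.piecewise_eq_of_mem _ _ _ h, hxy b hba]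
      · rw [Finset.piecewise_eq_of_notMem _ _ _ h, Finset.piecewise_eq_of_notMem _ _ _ h]
  refine Set.Countable.mono h1 (Set.countable_iUnion fun n => ?_)
  by_contra hunc
  rw [← Cardinal.le_aleph0_iff_set_countable, not_le, ← Order.succ_le_iff,
    Cardinal.le_mk_iff_exists_subset] at hunc
  obtain ⟨S, hS, hSc⟩ := hunc
  have hSle : #S ≤ 𝔠 := hSc ▸ Order.succ_le_iff.2 Cardinal.aleph0_lt_continuum
  have hch := fun a : S => hS a.2
  choose F x y hx hy hxy hne using hch
  let J : Set κ := ⋃ a, (F a : Set κ)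
  have hJ : #J ≤ #ℝ := by
    rw [Cardinal.mk_real]
    refine (Cardinal.mk_iUnion_le _).trans ?_
    calc _ ≤ 𝔠 * 𝔠 := mul_le_mul' hSle (ciSup_le' fun a =>
          (Cardinal.le_aleph0_iff_set_countable.2 (F a).countable_toSet).trans
            Cardinal.aleph0_le_continuum)
      _ = 𝔠 := Cardinal.continuum_mul_self
  obtain ⟨e⟩ := hJ
  let c : κ → ℝ := fun b => if h : b ∈ J then e ⟨b, h⟩ else 0
  have hc : Set.InjOn c J := by
    intro b hb b' hb' h
    simp only [c, dif_pos hb, dif_pos hb'] at h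
    exact congrArg Subtype.val (e.injective h)
  obtain ⟨A, hA, hAJ⟩ := box_image ht hφ n J c hc
  obtain ⟨T, hT, hTs⟩ := sep_countable hφ n A hA
  have hin : ∀ a z, z ∈ Box n (F a : Set κ) → z ∈ Box n J := fun a z hz b =>
    ⟨(hz b).1, fun hb => (hz b).2 fun h => hb (Set.mem_iUnion.2 ⟨a, h⟩)⟩
  have hten : Tendsto (fun a : S => (x a, y a)) cofinite (uniformity (κ → ℝ)) := by
    rw [Pi.uniformity, tendsto_iInf]
    intro b
    rw [tendsto_comap_iff]
    refine (tendsto_diag_uniformity (fun a : S => x a b) cofinite).congr' ?_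
    have : ∀ᶠ a : S in cofinite, a.1 ≠ b :=
      Subtype.val_injective.tendsto_cofinite.eventually (eventually_cofinite_ne b)
    filter_upwards [this] with a ha
    simp only [Function.comp, hxy a b ha.symm]
  have hg : ∀ g : C(K, ℝ), {a : S | g (φ (x a)) ≠ g (φ (y a))}.Countable := by
    intro g
    have hu := (box_compact n J).uniformContinuousOn_of_continuous
      (g.continuous.comp hφ).continuousOn
    have h3 : Tendsto (fun a : S => (g (φ (x a)), g (φ (y a)))) cofinite (uniformity ℝ) :=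
      Tendsto.comp hu (tendsto_inf.2 ⟨hten, tendsto_principal.2
        (Eventually.of_forall fun a => ⟨hin a _ (hx a), hin a _ (hy a)⟩)⟩)
    have h4 : {a : S | g (φ (x a)) ≠ g (φ (y a))} ⊆
        ⋃ m : ℕ, {a : S | ¬ dist (g (φ (x a))) (g (φ (y a))) < 1 / ((m : ℝ) + 1)} := by
      intro a ha
      obtain ⟨m, hm⟩ := exists_nat_one_div_lt (dist_pos.2 ha)
      exact Set.mem_iUnion.2 ⟨m, fun h' => lt_asymm hm h'⟩
    refine Set.Countable.mono h4 (Set.countable_iUnion fun m => Set.Finite.countable ?_)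
    exact eventually_cofinite.1 (h3.eventually (Metric.dist_mem_uniformity (by positivity)))
  have hall : (Set.univ : Set S).Countable := by
    refine (hT.biUnion fun g _ => hg g).mono fun a _ => ?_
    obtain ⟨g, hgT, hgn⟩ := hTs _ (hAJ ⟨_, hin a _ (hx a), rfl⟩) _ (hAJ ⟨_, hin a _ (hy a), rfl⟩)
      (hne a)
    exact Set.mem_biUnion hgT hgn
  have := Cardinal.mk_le_aleph0_iff.2 (Set.countable_univ_iff.1 hall)
  rw [hSc] at this
  exact absurd (Order.lt_succ ℵ₀) (not_lt.2 this)

omit [CompactSpace K] in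
/-- a continuous map only depends on its essential coordinates -/
theorem factor {φ : (κ → ℝ) → K} (hφ : Continuous φ) (x y : κ → ℝ)
    (h : ∀ a, (∃ x y : κ → ℝ, (∀ b, b ≠ a → x b = y b) ∧ φ x ≠ φ y) → x a = y a) :
    φ y = φ x := by
  classical
  have h1 : ∀ F : Finset κ, φ (F.piecewise y x) = φ x := by
    intro F
    induction F using Finset.induction_on with
    | empty => simp
    | insert a F ha ih =>
      rw [← ih]
      by_contra hne
      have hd : ∀ b, b ≠ a → (insert a F).piecewise y x b = F.piecewise y x b :=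
        fun b hb => Finset.piecewise_insert_of_ne _ _ _ hb
      have hxa := h a ⟨_, _, hd, hne⟩
      apply hne
      congr 1
      funext b
      by_cases hb : b = a
      · subst hb
        rw [Finset.piecewise_insert_self, Finset.piecewise_eq_of_notMem _ _ _ ha, hxa]
      · exact hd b hb
  have h2 := (hφ.tendsto y).comp (tendsto_piecewise x y)
  have h3 : (φ ∘ fun F : Finset κ => F.piecewise y x) = fun _ => φ x := funext h1
  rw [h3] at h2
  exact tendsto_nhds_unique h2 tendsto_const_nhds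

end

end Pool.Agent.H82.TightImage
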