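import Mathlib

set_option autoImplicit false

namespace Pool.Agent.H82.TreeA

open Set Filter Function

def dec (n : ℕ) : ℕ × ℕ × List (ℕ × ℕ) := Denumerable.ofNat _ n
def row (n : ℕ) : ℕ := (dec n).1
def lab (n : ℕ) : ℕ := (dec n).2.1
def cod (n p : ℕ) : ℕ × ℕ := (dec n).2.2.getD p (0, 0)

lemma exists_val (m j : ℕ) (F : ℕ → ℕ × ℕ) :
    ∃ e, row e = m ∧ lab e = j ∧ ∀ p ≤ m, cod e p = F p := by
  refine ⟨Encodable.encode (m, j, (List.range (m + 1)).map F), ?_, ?_, fun p hp => ?_⟩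
  · simp only [row, dec, Denumerable.ofNat_encode]
  · simp only [lab, dec, Denumerable.ofNat_encode]
  · simp only [cod, dec, Denumerable.ofNat_encode]
    rw [List.getD_eq_getElem _ _ (by simp; omega)]
    simp

structure Cond where
  k : ℕ
  y : ℕ → ℕ
  l : ℕ
  a : ℕ → ℕ
  r : ℕ → ℕ → ℕ
  L : ℕ

def al (c : Cond) (e : ℕ) : Prop :=
  (row e < c.l → c.a (row e) ≤ lab e ∧ ¬ ∀ p ≤ row e, cod e p = (c.a p, c.r p (lab e))) ∧
    (c.l ≤ row e → c.L ≤ lab e)

def body (c : Cond) : Set (ℕ → ℕ) :=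
  {x | (∀ i < c.k, x i = c.y i) ∧ ∀ i, c.k ≤ i → al c (x i)}

lemma al_top (c : Cond) (j : ℕ) (hj : c.L ≤ j) : ∃ e, al c e ∧ lab e = j := by
  obtain ⟨e, h1, h2, -⟩ := exists_val c.l j (fun _ => (0, 0))
  exact ⟨e, ⟨fun h => by omega, fun _ => by omega⟩, h2⟩

lemma body_ne (c : Cond) : (body c).Nonempty := by
  obtain ⟨e, he, -⟩ := al_top c c.L le_rfl
  refine ⟨fun i => if i < c.k then c.y i else e, fun i hi => by simp [hi], fun i hi => ?_⟩
  have : ¬ i < c.k := by omega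
  simpa [this] using he

lemma upd_mem {c : Cond} {x : ℕ → ℕ} (hx : x ∈ body c) {M e : ℕ} (hM : c.k ≤ M) (he : al c e) :
    update x M e ∈ body c := by
  refine ⟨fun i hi => ?_, fun i hi => ?_⟩
  · rw [update_of_ne (by omega)]
    exact hx.1 i hi
  · by_cases h : i = M
    · subst h
      rwa [update_self]
    · rw [update_of_ne h]
      exact hx.2 i hi

lemma al_mono {c c' : Cond} (h : body c' ⊆ body c) (e : ℕ) (he : al c' e) : al c e := by
  obtain ⟨x, hx⟩ := body_ne c'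
  have := (h (upd_mem hx (le_max_left c'.k c.k) he)).2 _ (le_max_right c'.k c.k)
  rwa [update_self] at this

lemma rigid {c c' : Cond} (h : body c' ⊆ body c) {m : ℕ} (hm : m < c.l) :
    m < c'.l ∧ ∀ j, c'.a m ≤ j → ∀ p ≤ m, c.a p = c'.a p ∧ c.r p j = c'.r p j := by
  have key : ∀ j, ∃ e, row e = m ∧ lab e = j ∧ (∀ p ≤ m, cod e p = (c.a p, c.r p j)) ∧
      ¬ al c' e := by
    intro j
    obtain ⟨e, h1, h2, h3⟩ := exists_val m j (fun p => (c.a p, c.r p j))
    refine ⟨e, h1, h2, h3, fun he => ?_⟩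
    have := (al_mono h e he).1 (by omega)
    rw [h1, h2] at this
    exact this.2 h3
  have h1 : m < c'.l := by
    by_contra hn
    obtain ⟨e, h1, h2, -, h4⟩ := key c'.L
    exact h4 ⟨fun h => by omega, fun _ => by omega⟩
  refine ⟨h1, fun j hj p hp => ?_⟩
  obtain ⟨e, e1, e2, e3, e4⟩ := key j
  by_contra hn
  refine e4 ⟨fun _ => ?_, fun _ => by omega⟩
  rw [e1, e2]
  refine ⟨hj, fun hh => hn ?_⟩
  have := (e3 p hp).symm.trans (hh p hp)
  exact ⟨congrArg Prod.fst this, congrArg Prod.snd this⟩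

def ext (c : Cond) (z : ℕ → ℕ) (m : ℕ) : Cond := { c with y := z, k := max c.k m }

lemma mem_ext {c : Cond} {z : ℕ → ℕ} (hz : z ∈ body c) (m : ℕ) (x : ℕ → ℕ) :
    x ∈ body (ext c z m) ↔ x ∈ body c ∧ ∀ i < m, x i = z i := by
  constructor
  · rintro ⟨h1, h2⟩
    have h1' : ∀ i < max c.k m, x i = z i := h1
    have h2' : ∀ i, max c.k m ≤ i → al c (x i) := h2
    refine ⟨⟨fun i hi => ?_, fun i hi => ?_⟩, fun i hi => h1' i (by omega)⟩
    · rw [h1' i (by omega)]
      exact hz.1 i hi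
    · by_cases h : i < max c.k m
      · rw [h1' i h]
        exact hz.2 i hi
      · exact h2' i (by omega)
  · rintro ⟨⟨h1, h2⟩, h3⟩
    refine ⟨fun i (hi : i < max c.k m) => ?_, fun i (hi : max c.k m ≤ i) => h2 i (by omega)⟩
    by_cases h : i < m
    · exact h3 i h
    · exact (h1 i (by omega)).trans (hz.1 i (by omega)).symm

def ND (N : Set (ℕ → ℕ)) : Prop := ∀ c, ∃ c', body c' ⊆ body c ∧ ∀ x ∈ body c', x ∉ N

lemma ND.ext {N : Set (ℕ → ℕ)} (h : ND N) (c : Cond) :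
    ∃ c', body c' ⊆ body c ∧ (∀ x ∈ body c', x ∉ N) ∧ c.k < c'.k ∧ c'.y ∈ body c' := by
  obtain ⟨c', h1, h2⟩ := h c
  obtain ⟨z, hz⟩ := body_ne c'
  refine ⟨TreeA.ext c' z (c.k + 1), fun x hx => h1 ((mem_ext hz _ x).1 hx).1,
    fun x hx => h2 x ((mem_ext hz _ x).1 hx).1, ?_, (mem_ext hz _ z).2 ⟨hz, fun _ _ => rfl⟩⟩
  show c.k < max c'.k (c.k + 1)
  omega

lemma limit (k : ℕ → ℕ) (y : ℕ → ℕ → ℕ) (P : ℕ → ℕ → Prop) (hk : ∀ t, k t < k (t + 1))
    (hy : ∀ t, ∀ i < k t, y (t + 1) i = y t i) (hP : ∀ t e, P (t + 1) e → P t e)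
    (hs : ∀ t i, k t ≤ i → i < k (t + 1) → P t (y (t + 1) i)) :
    ∃ x : ℕ → ℕ, ∀ t, (∀ i < k t, x i = y t i) ∧ ∀ i, k t ≤ i → P t (x i) := by
  have hm : StrictMono k := strictMono_nat_of_lt_succ hk
  have coh : ∀ t t', t ≤ t' → ∀ i < k t, y t' i = y t i := by
    intro t t' h i hi
    induction t', h using Nat.le_induction with
    | base => rfl
    | succ n hn ih => rw [hy n i (lt_of_lt_of_le hi (hm.monotone hn)), ih]
  have anti : ∀ t t', t ≤ t' → ∀ e, P t' e → P t e := by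
    intro t t' h e he
    induction t', h using Nat.le_induction with
    | base => exact he
    | succ n hn ih => exact ih (hP n e he)
  have hx : ∀ t, ∀ i < k t, y (i + 1) i = y t i := by
    intro t i hi
    have h1 : i < k (i + 1) := lt_of_lt_of_le (Nat.lt_succ_self i) (hm.id_le _)
    rw [← coh t (max t (i + 1)) (le_max_left _ _) i hi,
      ← coh (i + 1) (max t (i + 1)) (le_max_right _ _) i h1]
  refine ⟨fun i => y (i + 1) i, fun t => ⟨hx t, fun i hi => ?_⟩⟩
  have ex : ∃ u, i < k (t + u + 1) :=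
    ⟨i, lt_of_lt_of_le (show i < t + i + 1 by omega) (hm.id_le (t + i + 1))⟩
  classical
  have h1 := Nat.find_spec ex
  have h2 : k (t + Nat.find ex) ≤ i := by
    rcases Nat.eq_zero_or_pos (Nat.find ex) with h | h
    · rw [h]
      exact hi
    · have := Nat.find_min ex (show Nat.find ex - 1 < Nat.find ex by omega)
      rw [show t + (Nat.find ex - 1) + 1 = t + Nat.find ex by omega] at this
      omega
  show P t (y (i + 1) i)
  rw [hx _ i h1]
  exact anti t _ (Nat.le_add_right _ _) _ (hs _ i h2 h1)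

def H (m : ℕ) : Set (ℕ → ℕ) :=
  {x | ∀ j, ∃ B, ∀ i, B ≤ i → ¬ (row (x i) = m ∧ lab (x i) = j)}

def A : Set (ℕ → ℕ) := ⋃ m, H m

lemma step_one {N : Set (ℕ → ℕ)} (hN : ND N) (c : Cond) (m : ℕ) :
    ∃ c', body c' ⊆ body c ∧ (∀ x ∈ body c', x ∉ N) ∧ c.k < c'.k ∧ c'.y ∈ body c' ∧
      c.l < c'.l ∧ (m < c.l → row (c'.y c.k) = m ∧ lab (c'.y c.k) = c.a m) := by
  have he : ∃ e, al c e ∧ (m < c.l → row e = m ∧ lab e = c.a m) := by
    by_cases hm : m < c.l
    · obtain ⟨e, h1, h2, h3⟩ := exists_val m (c.a m) (fun p => (c.a p + 1, 0))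
      refine ⟨e, ⟨fun _ => ?_, fun _ => by omega⟩, fun _ => ⟨h1, h2⟩⟩
      rw [h1, h2]
      refine ⟨le_rfl, fun hh => ?_⟩
      have := congrArg Prod.fst ((h3 0 (Nat.zero_le _)).symm.trans (hh 0 (Nat.zero_le _)))
      simp at this
    · obtain ⟨e, he, -⟩ := al_top c c.L le_rfl
      exact ⟨e, he, fun h => absurd h hm⟩
  obtain ⟨e, e1, e2⟩ := he
  let c1 : Cond := ⟨c.k + 1, update c.y c.k e, c.l + 1, update c.a c.l c.L, c.r, c.L⟩
  have hal : ∀ v, al c1 v → al c v := by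
    intro v hv
    refine ⟨fun h => ?_, fun h => ?_⟩
    · obtain ⟨a1, a2⟩ := hv.1 (show row v < c.l + 1 by omega)
      refine ⟨?_, fun hh => a2 fun p hp => ?_⟩
      · have : update c.a c.l c.L (row v) ≤ lab v := a1
        rwa [update_of_ne (by omega)] at this
      · show cod v p = (update c.a c.l c.L p, c.r p (lab v))
        rw [update_of_ne (by omega)]
        exact hh p hp
    · rcases h.eq_or_lt with h | h
      · have : update c.a c.l c.L (row v) ≤ lab v := (hv.1 (show row v < c.l + 1 by omega)).1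
        rwa [← h, update_self] at this
      · exact hv.2 (show c.l + 1 ≤ row v by omega)
  have hsub : body c1 ⊆ body c := by
    rintro x ⟨h1, h2⟩
    have h1' : ∀ i < c.k + 1, x i = update c.y c.k e i := h1
    refine ⟨fun i hi => ?_, fun i hi => ?_⟩
    · rw [h1' i (by omega), update_of_ne (by omega)]
    · rcases hi.eq_or_lt with h | h
      · rw [h1' i (by omega), ← h, update_self]
        exact e1
      · exact hal _ (h2 i (show c.k + 1 ≤ i by omega))
  obtain ⟨c', h1, h2, h3, h4⟩ := hN.ext c1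
  refine ⟨c', h1.trans hsub, h2, lt_trans (Nat.lt_succ_self _) h3, h4,
    (rigid h1 (show c.l < c.l + 1 by omega)).1, fun hm => ?_⟩
  have : c'.y c.k = update c.y c.k e c.k := (h1 h4).1 c.k (show c.k < c.k + 1 by omega)
  rw [this, update_self]
  exact e2 hm

theorem one (N : ℕ → Set (ℕ → ℕ)) (hN : ∀ t, ND (N t)) (S : Cond) :
    ∃ x ∈ body S, x ∉ A ∧ ∀ t, x ∉ N t := by
  choose g g1 g2 g3 g4 g5 g6 using fun t c => step_one (hN t) c (Nat.unpair t).1
  let c : ℕ → Cond := fun t => Nat.rec S (fun t c => g t c) t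
  have hc : ∀ t, c (t + 1) = g t (c t) := fun t => rfl
  obtain ⟨x, hx⟩ := limit (fun t => (c t).k) (fun t => (c t).y) (fun t => al (c t))
    (fun t => g3 t _) (fun t i hi => (g1 t _ (g4 t _)).1 i hi)
    (fun t e he => al_mono (g1 t _) e he) (fun t i h1 _ => (g1 t _ (g4 t _)).2 i h1)
  have hl : ∀ t, t ≤ (c t).l :=
    (strictMono_nat_of_lt_succ (f := fun t => (c t).l) fun t => g5 t _).id_le
  have hk : ∀ t, t ≤ (c t).k :=
    (strictMono_nat_of_lt_succ (f := fun t => (c t).k) fun t => g3 t _).id_le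
  have hsub : Antitone fun t => body (c t) := antitone_nat_of_succ_le fun t => g1 t _
  refine ⟨x, hx 0, fun hA => ?_, fun t => g2 t _ x (hx (t + 1))⟩
  obtain ⟨m, hm⟩ := mem_iUnion.1 hA
  obtain ⟨B, hB⟩ := hm ((c (m + 1)).a m)
  let t := Nat.pair m (B + m + 1)
  have ht : B + m + 1 ≤ t := Nat.right_le_pair _ _
  have h1 := g6 t (c t) (by rw [Nat.unpair_pair]; have := hl t; show m < _; omega)
  rw [Nat.unpair_pair] at h1
  have h2 : x (c t).k = (g t (c t)).y (c t).k := (hx (t + 1)).1 _ (g3 t _)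
  have h3 := ((rigid (hsub (show m + 1 ≤ t by omega))
    (show m < (c (m + 1)).l from hl (m + 1))).2 _ le_rfl m le_rfl).1
  refine hB (c t).k (by have := hk t; omega) ?_
  rw [h2, h3]
  exact h1

end Pool.Agent.H82.TreeA
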