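import Mathlib
import Pool.Agent.H82.TreeA

set_option autoImplicit false

namespace Pool.Agent.H82.TreeA

open Set Filter Function

lemma bound {ι : Type} [Countable ι] (F : ι → ℕ → ℕ) :
    ∃ f : ℕ → ℕ, ∀ i, ∃ B, ∀ j, B ≤ j → F i j ≤ f j := by
  classical
  obtain ⟨e, he⟩ := Countable.exists_injective_nat ι
  let G : ℕ → ℕ → ℕ := fun n j => if h : ∃ i, e i = n then F h.choose j else 0
  refine ⟨fun j => ∑ n ∈ Finset.range (j + 1), G n j, fun i => ⟨e i, fun j hj => ?_⟩⟩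
  have h : ∃ i', e i' = e i := ⟨i, rfl⟩
  have h1 : G (e i) j = F i j := by
    simp only [G, dif_pos h]
    rw [he h.choose_spec]
  rw [← h1]
  exact Finset.single_le_sum (f := fun n => G n j) (fun _ _ => Nat.zero_le _)
    (Finset.mem_range.2 (by omega))

lemma pigeon (G : (ℕ → ℕ) → List ℕ) :
    ∃ u, ∀ f : ℕ → ℕ, ∃ ρ, G ρ = u ∧ ∃ B, ∀ j, B ≤ j → f j ≤ ρ j := by
  by_contra hn
  push Not at hn
  choose F hF using hn
  obtain ⟨f, hf⟩ := bound F
  obtain ⟨B, hB⟩ := hf (G f)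
  obtain ⟨j, h1, h2⟩ := hF (G f) f rfl B
  have := hB j h1
  omega

def stem (c : Cond) : List ℕ := (List.range c.k).map c.y

lemma stem_len (c : Cond) : (stem c).length = c.k := by simp [stem]

lemma stem_get (c : Cond) (i : ℕ) (hi : i < c.k) : (stem c).getD i 0 = c.y i := by
  rw [List.getD_eq_getElem _ _ (by rw [stem_len]; exact hi)]
  simp [stem]

def TT (S : Cond) (s : List ℕ) (L : ℕ) (ρ : ℕ → ℕ) : Cond :=
  ⟨s.length, fun i => s.getD i 0, S.l + 1, update S.a S.l L, update S.r S.l ρ, L⟩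

def safe (S : Cond) (L : ℕ) (bad : ℕ → Set ℕ) (e : ℕ) : Prop :=
  (row e < S.l → al S e) ∧ (S.l ≤ row e → L ≤ lab e ∧ (cod e S.l).2 ∉ bad (lab e))

lemma TT_low {S : Cond} {s : List ℕ} {L : ℕ} {ρ : ℕ → ℕ} {e : ℕ} (he : al (TT S s L ρ) e)
    (h : row e < S.l) : al S e := by
  obtain ⟨a1, a2⟩ := he.1 (show row e < S.l + 1 by omega)
  refine ⟨fun _ => ⟨?_, fun hh => a2 fun p hp => ?_⟩, fun _ => by omega⟩
  · have : update S.a S.l L (row e) ≤ lab e := a1
    rwa [update_of_ne (by omega)] at this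
  · show cod e p = (update S.a S.l L p, update S.r S.l ρ p (lab e))
    rw [update_of_ne (by omega), update_of_ne (by omega)]
    exact hh p hp

lemma TT_high {S : Cond} {s : List ℕ} {L : ℕ} {ρ : ℕ → ℕ} {e : ℕ} (he : al (TT S s L ρ) e)
    (h : S.l ≤ row e) : L ≤ lab e := by
  rcases h.eq_or_lt with h | h
  · have : update S.a S.l L (row e) ≤ lab e := (he.1 (show row e < S.l + 1 by omega)).1
    rwa [← h, update_self] at this
  · exact he.2 (show S.l + 1 ≤ row e by omega)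

lemma safe_al {S : Cond} {s : List ℕ} {L : ℕ} {ρ : ℕ → ℕ} {c : Cond}
    (h : body c ⊆ body (TT S s L ρ)) {L' : ℕ} {bad : ℕ → Set ℕ} (hb : ∀ j, ρ j ∈ bad j)
    (h1 : c.L ≤ L') (h2 : ∀ m < c.l, c.a m ≤ L') {e : ℕ} (he : safe S L' bad e) : al c e := by
  by_cases hr : row e < S.l
  · obtain ⟨r1, r2⟩ := rigid h (show row e < S.l + 1 by omega)
    obtain ⟨a1, a2⟩ := (he.1 hr).1 hr
    have e1 : update S.a S.l L (row e) = c.a (row e) := (r2 _ le_rfl _ le_rfl).1
    rw [update_of_ne (by omega)] at e1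
    refine ⟨fun _ => ⟨by omega, fun hh => a2 fun p hp => ?_⟩, fun _ => by omega⟩
    obtain ⟨e2, e3⟩ := r2 (lab e) (by omega) p hp
    have e2' : update S.a S.l L p = c.a p := e2
    have e3' : update S.r S.l ρ p (lab e) = c.r p (lab e) := e3
    rw [update_of_ne (by omega)] at e2' e3'
    rw [e2', e3']
    exact hh p hp
  · obtain ⟨a1, a2⟩ := he.2 (by omega)
    obtain ⟨r1, r2⟩ := rigid h (show S.l < S.l + 1 by omega)
    refine ⟨fun hl => ⟨(h2 _ hl).trans a1, fun hh => a2 ?_⟩, fun _ => h1.trans a1⟩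
    have e3 : update S.r S.l ρ S.l (lab e) = c.r S.l (lab e) :=
      (r2 (lab e) ((h2 _ r1).trans a1) _ le_rfl).2
    rw [update_self] at e3
    rw [hh S.l (by omega), ← e3]
    exact hb _

theorem two (N : ℕ → Set (ℕ → ℕ)) (hN : ∀ t, ND (N t)) (S : Cond) :
    ∃ x ∈ body S, x ∈ A ∧ ∀ t, x ∉ N t := by
  choose g g1 g2 g3 g4 using fun t s L ρ => (hN t).ext (TT S s L ρ)
  choose u hu using fun t s L => pigeon (fun ρ => stem (g t s L ρ))
  let hb : List ℕ → ℕ := fun w => (w.map fun e => (cod e S.l).2).sum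
  obtain ⟨f, hf⟩ := bound (fun (q : ℕ × List ℕ) j =>
    1 + ∑ L ∈ Finset.range (j + 1), hb (u q.1 q.2 L))
  let St := {p : List ℕ × ℕ × (ℕ → Set ℕ) // ∃ B, ∀ j, B ≤ j → ∀ v ∈ p.2.2 j, f j ≤ v}
  have step : ∀ (t : ℕ) (p : St), ∃ q : St, p.1.1.length < q.1.1.length ∧
      (∀ i < p.1.1.length, q.1.1.getD i 0 = p.1.1.getD i 0) ∧
      (∀ i, p.1.1.length ≤ i → i < q.1.1.length → safe S p.1.2.1 p.1.2.2 (q.1.1.getD i 0)) ∧
      p.1.2.1 < q.1.2.1 ∧ (∀ j, p.1.2.2 j ⊆ q.1.2.2 j) ∧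
      ∀ x : ℕ → ℕ, (∀ i < q.1.1.length, x i = q.1.1.getD i 0) →
        (∀ i, q.1.1.length ≤ i → safe S q.1.2.1 q.1.2.2 (x i)) → x ∉ N t := by
    rintro t ⟨⟨s, L0, bad⟩, B1, hB1⟩
    obtain ⟨B2, hB2⟩ := hf (t, s)
    obtain ⟨L, l1, l2, l3⟩ : ∃ L, L0 ≤ L ∧ B1 ≤ L ∧ B2 ≤ L :=
      ⟨L0 + B1 + B2, by omega, by omega, by omega⟩
    obtain ⟨ρ, hρ, B3, hB3⟩ := hu t s L f
    have c1 := g1 t s L ρ
    have c2 := g2 t s L ρ
    have c3 : s.length < (g t s L ρ).k := g3 t s L ρ
    have c4 := g4 t s L ρ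
    generalize g t s L ρ = c at hρ c1 c2 c3 c4
    refine ⟨⟨(stem c, L + 1 + c.L + ∑ m ∈ Finset.range c.l, c.a m,
      fun j => insert (ρ j) (bad j)), B1 + B3, fun j hj v hv => ?_⟩, ?_, ?_, ?_, ?_, ?_, ?_⟩
    · rcases hv with rfl | hv
      · exact hB3 j (by omega)
      · exact hB1 j (by omega) v hv
    · show s.length < (stem c).length
      rwa [stem_len]
    · intro i hi
      have hi' : i < s.length := hi
      show (stem c).getD i 0 = s.getD i 0
      rw [stem_get c i (by omega)]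
      exact (c1 c4).1 i hi'
    · intro i hi1 hi2
      have hi1' : s.length ≤ i := hi1
      have hi2' : i < (stem c).length := hi2
      show safe S L0 bad ((stem c).getD i 0)
      have hmem : (stem c).getD i 0 ∈ u t s L := by
        rw [← hρ, List.getD_eq_getElem _ _ hi2']
        exact List.getElem_mem _
      have hal : al (TT S s L ρ) ((stem c).getD i 0) := by
        rw [stem_get c i (by rwa [stem_len] at hi2')]
        exact (c1 c4).2 i hi1'
      generalize (stem c).getD i 0 = e at hmem hal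
      refine ⟨TT_low hal, fun h => ?_⟩
      have b1 := TT_high hal h
      refine ⟨by omega, fun hv => ?_⟩
      have b2 := hB1 (lab e) (by omega) _ hv
      have b3 := hB2 (lab e) (by omega)
      have b4 : hb (u t s L) ≤ ∑ L ∈ Finset.range (lab e + 1), hb (u t s L) :=
        Finset.single_le_sum (f := fun L => hb (u t s L)) (fun _ _ => Nat.zero_le _)
          (Finset.mem_range.2 (by omega))
      have b5 : (cod e S.l).2 ≤ hb (u t s L) :=
        List.single_le_sum (fun _ _ => Nat.zero_le _) _ (List.mem_map_of_mem hmem)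
      simp only at b3
      omega
    · show L0 < L + 1 + c.L + ∑ m ∈ Finset.range c.l, c.a m
      omega
    · exact fun j => subset_insert _ _
    · intro x h1 h2
      have h1' : ∀ i < (stem c).length, x i = (stem c).getD i 0 := h1
      have h2' : ∀ i, (stem c).length ≤ i → safe S (L + 1 + c.L + ∑ m ∈ Finset.range c.l, c.a m)
        (fun j => insert (ρ j) (bad j)) (x i) := h2
      rw [stem_len] at h1' h2'
      refine c2 x ⟨fun i hi => by rw [h1' i hi, stem_get c i hi], fun i hi => ?_⟩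
      refine safe_al c1 (fun j => mem_insert _ _) (by omega) (fun m hm => ?_) (h2' i hi)
      have : c.a m ≤ ∑ m ∈ Finset.range c.l, c.a m :=
        Finset.single_le_sum (f := fun m => c.a m) (fun _ _ => Nat.zero_le _)
          (Finset.mem_range.2 hm)
      omega
  choose G G1 G2 G3 G4 G5 G6 using step
  let p : ℕ → St := fun t =>
    Nat.rec ⟨(stem S, S.L, fun _ => ∅), 0, fun _ _ _ h => h.elim⟩ (fun t p => G t p) t
  obtain ⟨x, hx⟩ := limit (fun t => (p t).1.1.length) (fun t i => (p t).1.1.getD i 0)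
    (fun t => safe S (p t).1.2.1 (p t).1.2.2) (fun t => G1 t _) (fun t => G2 t _)
    (fun t e he => ⟨he.1, fun h => ⟨(G4 t _).le.trans (he.2 h).1,
      fun hv => (he.2 h).2 (G5 t _ _ hv)⟩⟩) (fun t => G3 t _)
  have hL : ∀ t, t ≤ (p t).1.2.1 :=
    (strictMono_nat_of_lt_succ (f := fun t => (p t).1.2.1) fun t => G4 t _).id_le
  refine ⟨x, ⟨fun i hi => ?_, fun i hi => ?_⟩, mem_iUnion.2 ⟨S.l, fun j => ?_⟩,
    fun t => G6 t _ x (hx (t + 1)).1 (hx (t + 1)).2⟩
  · have : x i = (stem S).getD i 0 := (hx 0).1 i (show i < (stem S).length by rwa [stem_len])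
    rw [this, stem_get S i hi]
  · have : safe S S.L (fun _ => ∅) (x i) :=
      (hx 0).2 i (show (stem S).length ≤ i by rwa [stem_len])
    by_cases h : row (x i) < S.l
    · exact this.1 h
    · exact ⟨fun h' => absurd h' h, fun h' => (this.2 h').1⟩
  · refine ⟨(p (j + 1)).1.1.length, fun i hi hh => ?_⟩
    have h1 := (((hx (j + 1)).2 i hi).2 hh.1.ge).1
    have h2 := hL (j + 1)
    omega

end Pool.Agent.H82.TreeA
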