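import Mathlib
import Pool.Agent.H82.TreeB

set_option autoImplicit false

namespace Pool.Agent.H82.TreeA

open Set Filter Function

def pre (x : ℕ → ℕ) (n : ℕ) : List ℕ := (List.range n).map x

lemma pre_len (x : ℕ → ℕ) (n : ℕ) : (pre x n).length = n := by simp [pre]

lemma pre_take (x : ℕ → ℕ) (n m : ℕ) : (pre x m).take n = pre x (min n m) := by
  simp only [pre, ← List.map_take, List.take_range]

lemma pre_eq {x z : ℕ → ℕ} {n : ℕ} : pre x n = pre z n ↔ ∀ i < n, x i = z i := by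
  simp [pre, List.map_inj_left]

lemma pre_prefix {x z : ℕ → ℕ} {n m : ℕ} :
    pre x n <+: pre z m ↔ n ≤ m ∧ ∀ i < n, x i = z i := by
  constructor
  · intro h
    have h1 := h.length_le
    rw [pre_len, pre_len] at h1
    rw [List.prefix_iff_eq_take, pre_len, pre_take, min_eq_left h1] at h
    exact ⟨h1, pre_eq.1 h⟩
  · rintro ⟨h1, h2⟩
    rw [List.prefix_iff_eq_take, pre_len, pre_take, min_eq_left h1]
    exact pre_eq.2 h2

def tree (c : Cond) : Set (List ℕ) := {t | ∃ x ∈ body c, ∃ n, t = pre x n}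

lemma br_tree (c : Cond) (x : ℕ → ℕ) : (∀ n, pre x n ∈ tree c) ↔ x ∈ body c := by
  refine ⟨fun h => ?_, fun h n => ⟨x, h, n, rfl⟩⟩
  have key : ∀ i, ∃ z ∈ body c, x i = z i := by
    intro i
    obtain ⟨z, hz, n, hn⟩ := h (i + 1)
    have := congrArg List.length hn
    rw [pre_len, pre_len] at this
    subst this
    exact ⟨z, hz, pre_eq.1 hn i (Nat.lt_succ_self i)⟩
  refine ⟨fun i hi => ?_, fun i hi => ?_⟩
  · obtain ⟨z, hz, e⟩ := key i
    exact e.trans (hz.1 i hi)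
  · obtain ⟨z, hz, e⟩ := key i
    rw [e]
    exact hz.2 i hi

lemma tree_sub {c c' : Cond} : tree c' ⊆ tree c ↔ body c' ⊆ body c := by
  refine ⟨fun h x hx => (br_tree c x).1 fun n => h ((br_tree c' x).2 hx n), ?_⟩
  rintro h t ⟨x, hx, n, rfl⟩
  exact ⟨x, h hx, n, rfl⟩

lemma tree_down {c : Cond} {s t : List ℕ} (h : s <+: t) (ht : t ∈ tree c) : s ∈ tree c := by
  obtain ⟨x, hx, n, rfl⟩ := ht
  rw [List.prefix_iff_eq_take, pre_take] at h
  exact ⟨x, hx, _, h⟩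

lemma tree_ne (c : Cond) : (tree c).Nonempty := by
  obtain ⟨x, hx⟩ := body_ne c
  exact ⟨_, x, hx, 0, rfl⟩

lemma tree_split {c : Cond} {s : List ℕ} (hs : s ∈ tree c) :
    ∃ t ∈ tree c, ∃ u ∈ tree c, s <+: t ∧ s <+: u ∧ ¬ t <+: u ∧ ¬ u <+: t := by
  obtain ⟨x, hx, n, rfl⟩ := hs
  obtain ⟨e1, a1, b1⟩ := al_top c c.L le_rfl
  obtain ⟨e2, a2, b2⟩ := al_top c (c.L + 1) (Nat.le_succ _)
  have hne : e1 ≠ e2 := fun h => by rw [h] at b1; omega
  obtain ⟨M, m1, m2⟩ : ∃ M, n ≤ M ∧ c.k ≤ M := ⟨n + c.k, by omega, by omega⟩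
  refine ⟨_, ⟨_, upd_mem hx m2 a1, M + 1, rfl⟩, _, ⟨_, upd_mem hx m2 a2, M + 1, rfl⟩,
    pre_prefix.2 ⟨by omega, fun i hi => ?_⟩, pre_prefix.2 ⟨by omega, fun i hi => ?_⟩,
    fun h => ?_, fun h => ?_⟩
  · rw [update_of_ne (by omega)]
  · rw [update_of_ne (by omega)]
  · have := (pre_prefix.1 h).2 M (Nat.lt_succ_self M)
    rw [update_self, update_self] at this
    exact hne this
  · have := (pre_prefix.1 h).2 M (Nat.lt_succ_self M)
    rw [update_self, update_self] at this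
    exact hne this.symm

lemma tree_univ : ∃ c, tree c = univ := by
  refine ⟨⟨0, fun _ => 0, 0, fun _ => 0, fun _ _ => 0, 0⟩, eq_univ_of_forall fun t => ?_⟩
  refine ⟨fun i => t.getD i 0, ⟨fun i hi => absurd hi (Nat.not_lt_zero i),
    fun i _ => ⟨fun h => absurd h (Nat.not_lt_zero _), fun _ => Nat.zero_le _⟩⟩, t.length, ?_⟩
  refine List.ext_getElem (by rw [pre_len]) fun i h1 h2 => ?_
  simp [pre, h1]

lemma tree_loc {c : Cond} {s : List ℕ} (hs : s ∈ tree c) :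
    ∃ c', tree c' = {t ∈ tree c | t <+: s ∨ s <+: t} := by
  obtain ⟨z, hz, m, rfl⟩ := hs
  refine ⟨ext c z m, Set.ext fun t => ⟨?_, ?_⟩⟩
  · rintro ⟨x, hx, n, rfl⟩
    obtain ⟨h1, h2⟩ := (mem_ext hz m x).1 hx
    refine ⟨⟨x, h1, n, rfl⟩, ?_⟩
    rcases le_total n m with h | h
    · exact Or.inl (pre_prefix.2 ⟨h, fun i hi => h2 i (by omega)⟩)
    · exact Or.inr (pre_prefix.2 ⟨h, fun i hi => (h2 i hi).symm⟩)
  · rintro ⟨⟨x, hx, n, rfl⟩, h | h⟩
    · exact ⟨z, (mem_ext hz m z).2 ⟨hz, fun _ _ => rfl⟩, n, pre_eq.2 (pre_prefix.1 h).2⟩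
    · exact ⟨x, (mem_ext hz m x).2 ⟨hx, fun i hi => ((pre_prefix.1 h).2 i hi).symm⟩, n, rfl⟩

lemma A_borel : @MeasurableSet (ℕ → ℕ) (borel (ℕ → ℕ)) A := by
  rw [← BorelSpace.measurable_eq (α := ℕ → ℕ)]
  refine MeasurableSet.iUnion fun m => ?_
  have : H m = ⋂ j, ⋃ B, ⋂ i, (fun x : ℕ → ℕ => x i) ⁻¹'
      {e | B ≤ i → ¬ (row e = m ∧ lab e = j)} := by
    ext x
    simp only [H, mem_setOf_eq, mem_iInter, mem_iUnion, mem_preimage]
  rw [this]
  exact MeasurableSet.iInter fun j => MeasurableSet.iUnion fun B => MeasurableSet.iInter fun i =>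
    measurable_pi_apply i (MeasurableSet.of_discrete)

end Pool.Agent.H82.TreeA
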