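import Mathlib
import Pool.Agent.H51.LebN

/-! Essential families of faces of the Hilbert cube and infinite-dimensional Cantor manifolds. -/

set_option autoImplicit false

namespace Pool.Agent.H82.Trin

open Set Topology Filter unitInterval

abbrev Q := ℕ → I

/-- sign conditions on the faces -/
def Sg (h : ℕ → C(Q, ℝ)) : Prop :=
  ∀ i (x : Q), (x i = 0 → h i x < 0) ∧ (x i = 1 → 0 < h i x)

/-- the faces with index `≥ n` are inessential on `K` -/
def Iness (K : Set Q) (n : ℕ) : Prop :=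
  ∃ h : ℕ → C(Q, ℝ), Sg h ∧ ∀ x ∈ K, ∃ i, n ≤ i ∧ h i x ≠ 0

theorem Iness.mono {K K' : Set Q} {n : ℕ} (h : Iness K n) (hK : K' ⊆ K) : Iness K' n := by
  obtain ⟨g, hg, hx⟩ := h
  exact ⟨g, hg, fun x hxK => hx x (hK hxK)⟩

theorem not_iness_univ : ¬ Iness univ 0 := by
  classical
  rintro ⟨h, hs, hx⟩
  obtain ⟨s, hsub⟩ := isCompact_univ.elim_finite_subcover (fun j => {x : Q | h j x ≠ 0})
    (fun j => isOpen_ne_fun (h j).continuous continuous_const)
    (fun x _ => by obtain ⟨i, -, hi⟩ := hx x trivial; exact mem_iUnion.2 ⟨i, hi⟩)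
  let e := s.equivFin
  let ext : (Fin s.card → ℝ) → Q := fun y j =>
    if hj : j ∈ s then projIcc 0 1 zero_le_one (y (e ⟨j, hj⟩)) else 0
  have hext : Continuous ext := by
    refine continuous_pi fun j => ?_
    by_cases hj : j ∈ s
    · simp only [ext, hj, dif_pos]
      exact continuous_projIcc.comp (continuous_apply _)
    · simp only [ext, hj, dif_neg, not_false_eq_true]
      exact continuous_const
  have hval : ∀ y i, ext y (e.symm i).1 = projIcc 0 1 zero_le_one (y i) := by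
    intro y i
    simp [ext, (e.symm i).2]
  obtain ⟨y, -, hy⟩ := Pool.Agent.H51.LebN.miranda s.card 1 one_pos
    (fun y i => h (e.symm i).1 (ext y))
    (continuous_pi fun i => (h _).continuous.comp hext)
    (fun y i hy => ((hs _ _).1 (by rw [hval, hy]; simp)).le)
    (fun y i hy => ((hs _ _).2 (by rw [hval, hy]; simp)).le)
  obtain ⟨j, hj, hxj⟩ := mem_iUnion₂.1 (hsub (mem_univ (ext y)))
  have := congrFun hy (e ⟨j, hj⟩)
  exact hxj (by simpa using this)

theorem Iness.bdd {K : Set Q} {n : ℕ} (hK : IsClosed K) (h : Iness K n) :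
    ∃ g : ℕ → C(Q, ℝ), Sg g ∧ ∃ m, ∀ x ∈ K, ∃ i, n ≤ i ∧ i < m ∧ g i x ≠ 0 := by
  obtain ⟨g, hg, hx⟩ := h
  obtain ⟨s, hsub⟩ := hK.isCompact.elim_finite_subcover (fun j => {x : Q | n ≤ j ∧ g j x ≠ 0})
    (fun j => IsOpen.and (isOpen_const) (isOpen_ne_fun (g j).continuous continuous_const))
    (fun x hxK => by obtain ⟨i, h1, hi⟩ := hx x hxK; exact mem_iUnion.2 ⟨i, And.intro h1 hi⟩)
  refine ⟨g, hg, s.sup id + 1, fun x hxK => ?_⟩
  obtain ⟨j, hj, hxj⟩ := mem_iUnion₂.1 (hsub hxK)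
  exact ⟨j, hxj.1, Nat.lt_succ_of_le (Finset.le_sup (f := id) hj), hxj.2⟩

theorem iness_union {M₁ M₂ : Set Q} {n : ℕ} (h1 : IsClosed M₁) (h2 : IsClosed M₂)
    (i1 : Iness M₁ n) (i2 : Iness M₂ n) (i3 : ∀ m, Iness (M₁ ∩ M₂) m) : Iness (M₁ ∪ M₂) n := by
  classical
  obtain ⟨g1, s1, m1, e1⟩ := i1.bdd h1
  obtain ⟨g2, s2, m2, e2⟩ := i2.bdd h2
  set m := max n (max m1 m2) with hm
  obtain ⟨g3, s3, e3⟩ := i3 m
  let Z : Set Q := {x | ∀ i, m ≤ i → g3 i x = 0}
  have hZ : IsClosed Z := by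
    simp only [Z, setOf_forall]
    exact isClosed_iInter fun i => isClosed_iInter fun _ =>
      isClosed_eq (g3 i).continuous continuous_const
  obtain ⟨φ, φ0, φ1, φI⟩ := exists_continuous_zero_one_of_isClosed (h1.inter hZ) (h2.inter hZ)
    (by
      rw [Set.disjoint_left]
      rintro x ⟨a1, a2⟩ ⟨b1, -⟩
      obtain ⟨i, hi, hne⟩ := e3 x ⟨a1, b1⟩
      exact hne (a2 i hi))
  refine ⟨fun i => if m ≤ i then g3 i else (1 - φ) * g1 i + φ * g2 i, ?_, ?_⟩
  · intro i x
    by_cases hi : m ≤ i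
    · simp only [hi, if_true]; exact s3 i x
    · simp only [hi, if_false]
      have a := (φI x).1
      have b := (φI x).2
      constructor
      · intro hx
        have c1 := (s1 i x).1 hx
        have c2 := (s2 i x).1 hx
        simp only [ContinuousMap.add_apply, ContinuousMap.mul_apply, ContinuousMap.sub_apply,
          ContinuousMap.one_apply]
        rcases eq_or_lt_of_le a with h0 | h0
        · rw [← h0]; linarith
        · nlinarith
      · intro hx
        have c1 := (s1 i x).2 hx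
        have c2 := (s2 i x).2 hx
        simp only [ContinuousMap.add_apply, ContinuousMap.mul_apply, ContinuousMap.sub_apply,
          ContinuousMap.one_apply]
        rcases eq_or_lt_of_le a with h0 | h0
        · rw [← h0]; linarith
        · nlinarith
  · intro x hx
    by_cases hxZ : x ∈ Z
    · rcases hx with hx | hx
      · obtain ⟨i, a, b, c⟩ := e1 x hx
        have hi : ¬ m ≤ i := by omega
        refine ⟨i, a, ?_⟩
        have : φ x = 0 := φ0 ⟨hx, hxZ⟩
        simpa [hi, this] using c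
      · obtain ⟨i, a, b, c⟩ := e2 x hx
        have hi : ¬ m ≤ i := by omega
        refine ⟨i, a, ?_⟩
        have : φ x = 1 := φ1 ⟨hx, hxZ⟩
        simpa [hi, this] using c
    · simp only [Z, mem_setOf_eq, not_forall] at hxZ
      obtain ⟨i, hi, hne⟩ := hxZ
      exact ⟨i, by omega, by simpa [hi] using hne⟩

/-- the standard sign functions -/
noncomputable def std (r : ℝ) (i : ℕ) : C(Q, ℝ) := ⟨fun x => (x i : ℝ) - r, by fun_prop⟩

theorem sg_std {r : ℝ} (h0 : 0 < r) (h1 : r < 1) : Sg (std r) := by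
  intro i x
  constructor
  · intro hx; simp [std, hx, h0]
  · intro hx; simp [std, hx, h1]

theorem nonconst {M : Set Q} {n : ℕ} (h : ¬ Iness M n) (k : ℕ) :
    ∃ j, k ≤ j ∧ ∃ x ∈ M, ∃ y ∈ M, x j ≠ y j := by
  by_contra hc
  push Not at hc
  apply h
  rcases M.eq_empty_or_nonempty with rfl | ⟨x0, hx0⟩
  · exact ⟨std (1/2), sg_std (by norm_num) (by norm_num), fun x hx => hx.elim⟩
  · obtain ⟨r, r0, r1, rne⟩ : ∃ r : ℝ, 0 < r ∧ r < 1 ∧ (x0 (max k n) : ℝ) ≠ r := by
      by_cases h2 : (x0 (max k n) : ℝ) = 1/2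
      · exact ⟨1/3, by norm_num, by norm_num, by rw [h2]; norm_num⟩
      · exact ⟨1/2, by norm_num, by norm_num, h2⟩
    refine ⟨std r, sg_std r0 r1, fun x hx => ⟨max k n, le_max_right _ _, ?_⟩⟩
    have := hc (max k n) (le_max_left _ _) x hx x0 hx0
    simp only [std, ContinuousMap.coe_mk, this]
    exact sub_ne_zero.2 rne

/-- every closed set on which the faces are essential contains a Cantor manifold -/
theorem cantor_manifold {K : Set Q} {n : ℕ} (hK : IsClosed K) (h : ¬ Iness K n) :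
    ∃ M, M ⊆ K ∧ IsClosed M ∧ ¬ Iness M n ∧ ∀ M₁ M₂ : Set Q, IsClosed M₁ → IsClosed M₂ →
      M ⊆ M₁ ∪ M₂ → ¬ M ⊆ M₁ → ¬ M ⊆ M₂ → ∃ m, ¬ Iness (M₁ ∩ M₂) m := by
  obtain ⟨M, hMK, hM⟩ := zorn_superset_nonempty {M : Set Q | IsClosed M ∧ ¬ Iness M n} (by
    intro c hc hch hne
    refine ⟨⋂₀ c, ⟨isClosed_sInter fun s hs => (hc hs).1, ?_⟩, fun s hs => sInter_subset_of_mem hs⟩
    rintro ⟨g, hg, hx⟩
    haveI : Nonempty c := hne.to_subtype
    have hW : IsOpen {x : Q | ∃ i, n ≤ i ∧ g i x ≠ 0} := by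
      rw [setOf_exists]
      exact isOpen_iUnion fun i =>
        IsOpen.and isOpen_const (isOpen_ne_fun (g i).continuous continuous_const)
    obtain ⟨s, hs⟩ := exists_subset_nhds_of_isCompact' (V := fun s : c => (s : Set Q))
      (U := {x : Q | ∃ i, n ≤ i ∧ g i x ≠ 0})
      (by
        intro a b
        rcases hch.total a.2 b.2 with hab | hab
        · exact ⟨a, subset_rfl, hab⟩
        · exact ⟨b, hab, subset_rfl⟩)
      (fun s => (hc s.2).1.isCompact) (fun s => (hc s.2).1)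
      (fun x hxc => hW.mem_nhds (hx x (by simpa [sInter_eq_iInter] using hxc)))
    exact (hc s.2).2 ⟨g, hg, fun x hxs => hs hxs⟩) K ⟨hK, h⟩
  refine ⟨M, hMK, hM.prop.1, hM.prop.2, fun M₁ M₂ h1 h2 hsub n1 n2 => ?_⟩
  by_contra hc
  push Not at hc
  have k1 : Iness (M ∩ M₁) n := by
    by_contra hi
    exact n1 fun x hx => (hM.le_of_le (y := M ∩ M₁) ⟨hM.prop.1.inter h1, hi⟩ inter_subset_left hx).2
  have k2 : Iness (M ∩ M₂) n := by
    by_contra hi
    exact n2 fun x hx => (hM.le_of_le (y := M ∩ M₂) ⟨hM.prop.1.inter h2, hi⟩ inter_subset_left hx).2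
  refine hM.prop.2 ((iness_union (hM.prop.1.inter h1) (hM.prop.1.inter h2) k1 k2
    (fun m => (hc m).mono fun x hx => ⟨hx.1.2, hx.2.2⟩)).mono fun x hx => ?_)
  rcases hsub hx with a | a
  · exact Or.inl ⟨hx, a⟩
  · exact Or.inr ⟨hx, a⟩

end Pool.Agent.H82.Trin
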