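import Mathlib
import Pool.Agent.H82.TrinA

/-! A compact tree-like space built from Dowker-type levels. -/

set_option autoImplicit false

namespace Pool.Agent.H82.Trin

open Set Topology Filter unitInterval

abbrev P := (ℕ → ℝ → Bool) × (ℕ → ℝ → I) × (ℕ → ℝ × ℚ → Bool)

structure Cond (p : P) : Prop where
  top : ∀ w, p.1 0 w = true
  anti : ∀ k w, p.1 (k+1) w = true → p.1 k w = true
  off : ∀ k w, p.1 k w = false → p.2.1 k w = 0
  same : ∀ k w w', p.1 k w = true → p.1 k w' = true → p.2.1 k w = p.2.1 k w'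
  lt : ∀ k w (q : ℚ), p.1 (k+1) w = true → w + q < p.2.1 k w → p.2.2 k (w, q) = true
  gt : ∀ k w (q : ℚ), p.1 (k+1) w = true → (p.2.1 k w : ℝ) < w + q → p.2.2 k (w, q) = false
  uns : ∀ k w (q : ℚ), p.1 (k+1) w = false → p.2.2 k (w, q) = false

theorem closed_imp {Z : Type} [TopologicalSpace Z] {a b : Z → Prop} (ha : IsOpen {z | a z})
    (hb : IsClosed {z | b z}) : IsClosed {z | a z → b z} := by
  have : {z | a z → b z} = {z | a z}ᶜ ∪ {z | b z} := by
    ext z; simp only [mem_ofPred_eq, mem_union, mem_compl_iff]; tauto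
  rw [this]; exact ha.isClosed_compl.union hb

theorem open_eqb {Z : Type} [TopologicalSpace Z] {f : Z → Bool} (hf : Continuous f) (b : Bool) :
    IsOpen {z | f z = b} := (isOpen_discrete {b}).preimage hf

theorem closed_eqb {Z : Type} [TopologicalSpace Z] {f : Z → Bool} (hf : Continuous f) (b : Bool) :
    IsClosed {z | f z = b} := isClosed_eq hf continuous_const

theorem closed_cond : IsClosed {p : P | Cond p} := by
  have : {p : P | Cond p} = {p : P | ∀ w, p.1 0 w = true} ∩
      ({p : P | ∀ k w, p.1 (k+1) w = true → p.1 k w = true} ∩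
      ({p : P | ∀ k w, p.1 k w = false → p.2.1 k w = 0} ∩
      ({p : P | ∀ k w w', p.1 k w = true → p.1 k w' = true → p.2.1 k w = p.2.1 k w'} ∩
      ({p : P | ∀ k w (q : ℚ), p.1 (k+1) w = true → w + q < p.2.1 k w → p.2.2 k (w, q) = true} ∩
      ({p : P | ∀ k w (q : ℚ), p.1 (k+1) w = true → (p.2.1 k w : ℝ) < w + q →
          p.2.2 k (w, q) = false} ∩
      {p : P | ∀ k w (q : ℚ), p.1 (k+1) w = false → p.2.2 k (w, q) = false}))))) := by
    ext p
    constructor
    · intro h; exact ⟨h.top, h.anti, h.off, h.same, h.lt, h.gt, h.uns⟩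
    · rintro ⟨a, b, c, d, e, f, g⟩; exact ⟨a, b, c, d, e, f, g⟩
  rw [this]
  refine IsClosed.inter ?_ (IsClosed.inter ?_ (IsClosed.inter ?_ (IsClosed.inter ?_
    (IsClosed.inter ?_ (IsClosed.inter ?_ ?_)))))
  · rw [ofPred_forall]
    exact isClosed_iInter fun w => closed_eqb (by fun_prop) _
  · simp only [ofPred_forall (p := fun (k : ℕ) (p : P) => _), ofPred_forall (p := fun (k : ℝ) (p : P) => _)]
    exact isClosed_iInter fun k => isClosed_iInter fun w =>
      closed_imp (open_eqb (by fun_prop) _) (closed_eqb (by fun_prop) _)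
  · simp only [ofPred_forall (p := fun (k : ℕ) (p : P) => _), ofPred_forall (p := fun (k : ℝ) (p : P) => _)]
    exact isClosed_iInter fun k => isClosed_iInter fun w =>
      closed_imp (open_eqb (by fun_prop) _) (isClosed_eq (by fun_prop) (by fun_prop))
  · simp only [ofPred_forall (p := fun (k : ℕ) (p : P) => _), ofPred_forall (p := fun (k : ℝ) (p : P) => _)]
    exact isClosed_iInter fun k => isClosed_iInter fun w => isClosed_iInter fun w' =>
      closed_imp (open_eqb (by fun_prop) _) (closed_imp (open_eqb (by fun_prop) _)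
        (isClosed_eq (by fun_prop) (by fun_prop)))
  · simp only [ofPred_forall (p := fun (k : ℕ) (p : P) => _), ofPred_forall (p := fun (k : ℝ) (p : P) => _), ofPred_forall (p := fun (k : ℚ) (p : P) => _)]
    exact isClosed_iInter fun k => isClosed_iInter fun w => isClosed_iInter fun q =>
      closed_imp (open_eqb (by fun_prop) _) (closed_imp (isOpen_lt (by fun_prop) (by fun_prop))
        (closed_eqb (by fun_prop) _))
  · simp only [ofPred_forall (p := fun (k : ℕ) (p : P) => _), ofPred_forall (p := fun (k : ℝ) (p : P) => _), ofPred_forall (p := fun (k : ℚ) (p : P) => _)]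
    exact isClosed_iInter fun k => isClosed_iInter fun w => isClosed_iInter fun q =>
      closed_imp (open_eqb (by fun_prop) _) (closed_imp (isOpen_lt (by fun_prop) (by fun_prop))
        (closed_eqb (by fun_prop) _))
  · simp only [ofPred_forall (p := fun (k : ℕ) (p : P) => _), ofPred_forall (p := fun (k : ℝ) (p : P) => _), ofPred_forall (p := fun (k : ℚ) (p : P) => _)]
    exact isClosed_iInter fun k => isClosed_iInter fun w => isClosed_iInter fun q =>
      closed_imp (open_eqb (by fun_prop) _) (closed_eqb (by fun_prop) _)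

/-- the space -/
abbrev X : Type := {p : P // Cond p}

instance : CompactSpace X := isCompact_iff_compactSpace.1 closed_cond.isCompact

def u (k : ℕ) (w : ℝ) (x : X) : Bool := x.1.1 k w
def t (k : ℕ) (w : ℝ) (x : X) : I := x.1.2.1 k w
def c (k : ℕ) (d : ℝ × ℚ) (x : X) : Bool := x.1.2.2 k d

@[fun_prop] theorem cont_u (k : ℕ) (w : ℝ) : Continuous (u k w) := by unfold u; fun_prop
@[fun_prop] theorem cont_t (k : ℕ) (w : ℝ) : Continuous (t k w) := by unfold t; fun_prop
@[fun_prop] theorem cont_c (k : ℕ) (d : ℝ × ℚ) : Continuous (c k d) := by unfold c; fun_prop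

theorem X_ext {x y : X} (h1 : ∀ k w, u k w x = u k w y) (h2 : ∀ k w, t k w x = t k w y)
    (h3 : ∀ k d, c k d x = c k d y) : x = y :=
  Subtype.ext (Prod.ext (funext fun k => funext fun w => h1 k w)
    (Prod.ext (funext fun k => funext fun w => h2 k w) (funext fun k => funext fun d => h3 k d)))

theorem u_anti {x : X} {j k : ℕ} (h : j ≤ k) {w : ℝ} (hw : u k w x = true) : u j w x = true := by
  induction k, h using Nat.le_induction with
  | base => exact hw
  | succ k _ ih => exact ih (x.2.anti k w hw)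

/-- truncation to the first `k` levels -/
noncomputable def Tk (k : ℕ) (x : X) : P :=
  (fun j w => if j ≤ k then u j w x else false, fun j w => if j < k then t j w x else 0,
    fun j d => if j < k then c j d x else false)

theorem cont_Tk (k : ℕ) : Continuous (Tk k) := by
  unfold Tk
  refine Continuous.prodMk ?_ (Continuous.prodMk ?_ ?_) <;>
    refine continuous_pi fun j => continuous_pi fun w => ?_ <;> split_ifs <;> fun_prop

theorem Tk_eq {k : ℕ} {x y : X} : Tk k x = Tk k y ↔ (∀ j ≤ k, ∀ w, u j w x = u j w y) ∧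
    (∀ j < k, ∀ w, t j w x = t j w y) ∧ ∀ j < k, ∀ d, c j d x = c j d y := by
  constructor
  · intro h
    refine ⟨fun j hj w => ?_, fun j hj w => ?_, fun j hj d => ?_⟩
    · simpa [Tk, hj] using congrFun (congrFun (congrArg Prod.fst h) j) w
    · simpa [Tk, hj] using congrFun (congrFun (congrArg (fun p : P => p.2.1) h) j) w
    · simpa [Tk, hj] using congrFun (congrFun (congrArg (fun p : P => p.2.2) h) j) d
  · rintro ⟨a, b, d⟩
    refine Prod.ext ?_ (Prod.ext ?_ ?_) <;> funext j w <;> simp only [Tk] <;> split_ifs with hj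
    exacts [a j hj w, rfl, b j hj w, rfl, d j hj w, rfl]

theorem Tk_mono {k k' : ℕ} (hk : k ≤ k') {x y : X} (h : Tk k' x = Tk k' y) : Tk k x = Tk k y := by
  rw [Tk_eq] at h ⊢
  exact ⟨fun j hj => h.1 j (by omega), fun j hj => h.2.1 j (by omega),
    fun j hj => h.2.2 j (by omega)⟩

theorem eq_of_Tk {x y : X} (h : ∀ k, Tk k x = Tk k y) : x = y :=
  X_ext (fun k w => (Tk_eq.1 (h k)).1 k le_rfl w)
    (fun k w => (Tk_eq.1 (h (k+1))).2.1 k (by omega) w)
    (fun k d => (Tk_eq.1 (h (k+1))).2.2 k (by omega) d)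

/-- successors of the node `(k, x)` in direction `s` avoiding `G` -/
structure Succ (k : ℕ) (x : X) (s : I) (G : Set ℝ) (y : X) : Prop where
  tr : Tk k y = Tk k x
  val : ∀ w, u k w y = true → t k w y = s
  co : {w | u (k+1) w y = false}.Countable
  av : ∀ w ∈ G, u (k+1) w y = false

theorem Succ.mono {k : ℕ} {x : X} {s : I} {G G' : Set ℝ} {y : X} (h : Succ k x s G y)
    (hG : G' ⊆ G) : Succ k x s G' y := ⟨h.tr, h.val, h.co, fun w hw => h.av w (hG hw)⟩

inductive Reach (O : Set X) (τ : Q) : ℕ → X → Prop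
  | base {k : ℕ} {x : X} : (∀ y, Tk k y = Tk k x → y ∈ O) → Reach O τ k x
  | step {k : ℕ} {x : X} (G : Set ℝ) : G.Countable →
      (∀ y, Succ k x (τ k) G y → Reach O τ (k+1) y) → Reach O τ k x

theorem Reach.mono {O O' : Set X} {τ : Q} {k : ℕ} {x : X} (h : Reach O τ k x) (hO : O ⊆ O') :
    Reach O' τ k x := by
  induction h with
  | base h => exact .base fun y hy => hO (h y hy)
  | step G hG _ ih => exact .step G hG ih

theorem Reach.inter_base {O O' : Set X} {τ : Q} {k : ℕ} {x : X} (h : Reach O τ k x)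
    (h' : ∀ y, Tk k y = Tk k x → y ∈ O') : Reach (O ∩ O') τ k x := by
  induction h with
  | base h => exact .base fun y hy => ⟨h y hy, h' y hy⟩
  | step G hG _ ih =>
    exact .step G hG fun y hy => ih y hy fun z hz =>
      h' z ((Tk_mono (Nat.le_succ _) hz).trans hy.tr)

theorem Reach.inter {O O' : Set X} {τ : Q} {k : ℕ} {x : X} (h : Reach O τ k x)
    (h' : Reach O' τ k x) : Reach (O ∩ O') τ k x := by
  induction h with
  | base h => rw [inter_comm]; exact h'.inter_base h
  | step G hG hr ih =>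
    cases h' with
    | base h' => exact (Reach.step G hG hr).inter_base h'
    | step G' hG' hr' =>
      exact .step (G ∪ G') (hG.union hG') fun y hy =>
        ih y (hy.mono subset_union_left) (hr' y (hy.mono subset_union_right))

theorem not_reach_base {O : Set X} {τ : Q} {k : ℕ} {x : X} (h : ¬ Reach O τ k x) :
    ∃ y, Tk k y = Tk k x ∧ y ∉ O := by
  by_contra hc
  push Not at hc
  exact h (.base hc)

theorem not_reach_step {O : Set X} {τ : Q} {k : ℕ} {x : X} (h : ¬ Reach O τ k x) {G : Set ℝ}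
    (hG : G.Countable) : ∃ y, Succ k x (τ k) G y ∧ ¬ Reach O τ (k+1) y := by
  by_contra hc
  push Not at hc
  exact h (.step G hG hc)

/-- the ultrafilter used for all limits -/
noncomputable abbrev 𝒰 : Filter ℕ := (hyperfilter ℕ : Filter ℕ)

theorem exists_lim (xs : ℕ → X) : ∃ y, Tendsto xs 𝒰 (𝓝 y) := by
  obtain ⟨y, -, hy⟩ := isCompact_univ.ultrafilter_le_nhds ((hyperfilter ℕ).map xs) (by simp)
  exact ⟨y, hy⟩

theorem ev_of_lim {f : X → Bool} (hf : Continuous f) {xs : ℕ → X} {y : X}
    (h : Tendsto xs 𝒰 (𝓝 y)) : ∀ᶠ n in 𝒰, f (xs n) = f y :=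
  h.eventually ((open_eqb hf (f y)).mem_nhds rfl)

theorem succ_lim {k : ℕ} {x : X} {s : I} {G : Set ℝ} {xs ys : ℕ → X} {ss : ℕ → I} {y : X}
    (hx : Tendsto (fun n => Tk k (xs n)) 𝒰 (𝓝 (Tk k x))) (hs : Tendsto ss 𝒰 (𝓝 s))
    (hy : ∀ n, Succ k (xs n) (ss n) G (ys n)) (hl : Tendsto ys 𝒰 (𝓝 y)) : Succ k x s G y := by
  refine ⟨?_, fun w hw => ?_, ?_, fun w hw => ?_⟩
  · refine tendsto_nhds_unique (((cont_Tk k).tendsto y).comp hl) ?_
    exact hx.congr fun n => (hy n).tr.symm
  · refine tendsto_nhds_unique (((cont_t k w).tendsto y).comp hl) (hs.congr' ?_)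
    filter_upwards [ev_of_lim (cont_u k w) hl] with n hn
    exact ((hy n).val w (hn.trans hw)).symm
  · refine (countable_iUnion fun n => (hy n).co).mono fun w hw => ?_
    obtain ⟨n, hn⟩ := (ev_of_lim (cont_u (k+1) w) hl).exists
    exact mem_iUnion.2 ⟨n, hn.trans hw⟩
  · obtain ⟨n, hn⟩ := (ev_of_lim (cont_u (k+1) w) hl).exists
    exact hn.symm.trans ((hy n).av w hw)

theorem Reach.open {O : Set X} (hO : IsOpen O) {τ : Q} {k : ℕ} {x : X} (h : Reach O τ k x)
    (xs : ℕ → X) (τs : ℕ → Q) (hx : Tendsto (fun n => Tk k (xs n)) 𝒰 (𝓝 (Tk k x)))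
    (hτ : Tendsto τs 𝒰 (𝓝 τ)) : ∃ n, Reach O (τs n) k (xs n) := by
  induction h generalizing xs with
  | @base k x h =>
    by_contra hc
    push Not at hc
    choose ys h1 h2 using fun n => not_reach_base (hc n)
    obtain ⟨y, hy⟩ := exists_lim ys
    have e : Tk k y = Tk k x :=
      tendsto_nhds_unique (((cont_Tk k).tendsto y).comp hy) (hx.congr fun n => (h1 n).symm)
    obtain ⟨n, hn⟩ := (hy.eventually (hO.mem_nhds (h y e))).exists
    exact h2 n hn
  | @step k x G hG _ ih =>
    by_contra hc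
    push Not at hc
    choose ys h1 h2 using fun n => not_reach_step (hc n) hG
    obtain ⟨y, hy⟩ := exists_lim ys
    obtain ⟨n, hn⟩ := ih y (succ_lim hx (((continuous_apply k).tendsto τ).comp hτ) h1 hy) ys
      (((cont_Tk (k+1)).tendsto y).comp hy)
    exact h2 n hn

theorem U_le : 𝒰 ≤ atTop := by
  rw [← Nat.cofinite_eq_atTop]; exact hyperfilter_le_cofinite

theorem closed_sh {O : Set X} (hO : IsOpen O) (k : ℕ) (x : X) :
    IsClosed {τ : Q | ¬ Reach O τ k x} := by
  refine IsSeqClosed.isClosed fun τs τ h1 h2 h3 => ?_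
  obtain ⟨n, hn⟩ := h3.open hO (fun _ => x) τs tendsto_const_nhds (h2.mono_left U_le)
  exact h1 n hn

theorem succ_unique {k : ℕ} {x : X} {s : I} {G : Set ℝ} {y y' : X} (h : Succ k x s G y)
    (h' : Succ k x s G y') (hG : ∀ q : ℚ, (s : ℝ) - q ∈ G)
    (hu : ∀ w, u (k+1) w y = u (k+1) w y') : Tk (k+1) y = Tk (k+1) y' := by
  have e := Tk_eq.1 (h.tr.trans h'.tr.symm)
  have ht : ∀ w, t k w y = t k w y' := by
    intro w
    cases hw : u k w y
    · have a : t k w y = 0 := y.2.off k w hw
      have b : t k w y' = 0 := y'.2.off k w ((e.1 k le_rfl w).symm.trans hw)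
      rw [a, b]
    · rw [h.val w hw, h'.val w ((e.1 k le_rfl w).symm.trans hw)]
  refine Tk_eq.2 ⟨fun j hj w => ?_, fun j hj w => ?_, fun j hj d => ?_⟩
  · rcases Nat.lt_or_eq_of_le hj with a | rfl
    · exact e.1 j (by omega) w
    · exact hu w
  · rcases Nat.lt_or_eq_of_le (Nat.le_of_lt_succ hj) with a | rfl
    · exact e.2.1 j a w
    · exact ht w
  · rcases Nat.lt_or_eq_of_le (Nat.le_of_lt_succ hj) with a | rfl
    · exact e.2.2 j a d
    · obtain ⟨w, q⟩ := d
      cases hw : u (j+1) w y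
      · have a : c j (w, q) y = false := y.2.uns j w q hw
        have b : c j (w, q) y' = false := y'.2.uns j w q ((hu w).symm.trans hw)
        rw [a, b]
      · have hw' := (hu w).symm.trans hw
        have hv : t j w y = s := h.val w (y.2.anti j w hw)
        have hv' : t j w y' = s := (ht w).symm.trans hv
        rcases lt_trichotomy (w + q) (s : ℝ) with l | l | l
        · have a : c j (w, q) y = true := y.2.lt j w q hw (by rw [← hv] at l; exact l)
          have b : c j (w, q) y' = true := y'.2.lt j w q hw' (by rw [← hv'] at l; exact l)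
          rw [a, b]
        · have := h.av _ (hG q)
          rw [← l, add_sub_cancel_right, hw] at this
          cases this
        · have a : c j (w, q) y = false := y.2.gt j w q hw (by rw [← hv] at l; exact l)
          have b : c j (w, q) y' = false := y'.2.gt j w q hw' (by rw [← hv'] at l; exact l)
          rw [a, b]

/-- intersection of countably many clubs -/
theorem common {k : ℕ} {x : X} {s : I} {O : ℕ → Set X} (hO : ∀ n, IsOpen (O n)) {τ : ℕ → Q}
    (hs : ∀ n, τ n k = s) (h : ∀ n, ¬ Reach (O n) (τ n) k x) {G : Set ℝ} (hG : G.Countable) :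
    ∃ y, Succ k x s G y ∧ ∀ n, ¬ Reach (O n) (τ n) (k+1) y := by
  have hch : ∀ (H : {H : Set ℝ // H.Countable}) (n : ℕ),
      ∃ y, Succ k x s H.1 y ∧ ¬ Reach (O n) (τ n) (k+1) y := fun H n => by
    rw [← hs n]; exact not_reach_step (h n) H.2
  choose F F1 F2 using hch
  let G0 : Set ℝ := G ∪ range fun q : ℚ => (s : ℝ) - q
  have hG0 : G0.Countable := hG.union (countable_range _)
  let H : ℕ → {H : Set ℝ // H.Countable} := fun m => Nat.rec ⟨G0, hG0⟩
    (fun m Hm => ⟨Hm.1 ∪ {w | u (k+1) w (F Hm m.unpair.1) = false}, Hm.2.union (F1 _ _).co⟩) m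
  let ys : ℕ → X := fun m => F (H m) m.unpair.1
  have Hmono : Monotone fun m => (H m).1 := monotone_nat_of_le_succ fun m => subset_union_left
  have hS : ∀ m, Succ k x s G0 (ys m) := fun m => (F1 _ _).mono (Hmono (Nat.zero_le m))
  have hdec : ∀ m m', m < m' → ∀ w, u (k+1) w (ys m) = false → u (k+1) w (ys m') = false :=
    fun m m' hm w hw => (F1 _ _).av w (Hmono (Nat.succ_le_of_lt hm) (Or.inr hw))
  choose z hz using fun n => exists_lim fun j => ys (Nat.pair n j)
  have hzS : ∀ n, Succ k x s G0 (z n) := fun n =>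
    succ_lim (xs := fun _ => x) (ss := fun _ => s) tendsto_const_nhds tendsto_const_nhds
      (fun j => hS _) (hz n)
  have hzu : ∀ n w, u (k+1) w (z n) = false ↔ ∃ m, u (k+1) w (ys m) = false := by
    intro n w
    constructor
    · intro hw
      obtain ⟨j, hj⟩ := (ev_of_lim (cont_u (k+1) w) (hz n)).exists
      exact ⟨_, hj.trans hw⟩
    · rintro ⟨m, hm⟩
      obtain ⟨j, hj, hj'⟩ := ((ev_of_lim (cont_u (k+1) w) (hz n)).and
        (U_le (eventually_gt_atTop m))).exists
      exact hj.symm.trans (hdec m _ (hj'.trans_le (Nat.right_le_pair n j)) w hm)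
  have hT : ∀ n, Tk (k+1) (z n) = Tk (k+1) (z 0) := fun n =>
    succ_unique (hzS n) (hzS 0) (fun q => Or.inr ⟨q, rfl⟩) fun w => by
      have := (hzu n w).trans (hzu 0 w).symm
      cases h1 : u (k+1) w (z n) <;> cases h2 : u (k+1) w (z 0) <;> simp_all
  refine ⟨z 0, (hzS 0).mono subset_union_left, fun n hr => ?_⟩
  obtain ⟨j, hj⟩ := hr.open (hO n) (fun j => ys (Nat.pair n j)) (fun _ => τ n)
    (by rw [← hT n]; exact ((cont_Tk (k+1)).tendsto _).comp (hz n)) tendsto_const_nhds
  have := F2 (H (Nat.pair n j)) (Nat.pair n j).unpair.1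
  rw [Nat.unpair_pair] at this
  apply this
  simpa [ys, Nat.unpair_pair] using hj

end Pool.Agent.H82.Trin
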