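import Mathlib
import Pool.Agent.H82.TrinB

/-! The space `X` has no small transfinite dimension but is a countable union of
zero-dimensional subspaces. -/

set_option autoImplicit false

namespace Pool.Agent.H82.Trin

open Set Topology Filter unitInterval

theorem common2 {k : ℕ} {x : X} {O₁ O₂ : Set X} (h1 : IsOpen O₁) (h2 : IsOpen O₂) {τ : Q}
    (n1 : ¬ Reach O₁ τ k x) (n2 : ¬ Reach O₂ τ k x) {G : Set ℝ} (hG : G.Countable) :
    ∃ y, Succ k x (τ k) G y ∧ ¬ Reach O₁ τ (k+1) y ∧ ¬ Reach O₂ τ (k+1) y := by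
  obtain ⟨y, hy, h⟩ := common (k := k) (x := x) (s := τ k)
    (O := fun n => if n = 0 then O₁ else O₂) (fun n => by split_ifs <;> assumption)
    (τ := fun _ => τ) (fun _ => rfl) (fun n => by split_ifs <;> assumption) hG
  exact ⟨y, hy, by simpa using h 0, by simpa using h 1⟩

theorem prime {O₁ O₂ : Set X} (h1 : IsOpen O₁) (h2 : IsOpen O₂) {τ : Q} {k : ℕ} {x : X}
    (h : Reach (O₁ ∪ O₂) τ k x) : Reach O₁ τ k x ∨ Reach O₂ τ k x := by
  induction h with
  | @step k x G hG _ ih =>
    by_contra hc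
    push Not at hc
    obtain ⟨y, hy, a, b⟩ := common2 h1 h2 hc.1 hc.2 hG
    exact (ih y hy).elim a b
  | @base k x h =>
    by_contra hc
    push Not at hc
    have hch : ∀ (j : ℕ) (y : {y : X // ¬ Reach O₁ τ j y ∧ ¬ Reach O₂ τ j y}),
        ∃ z : {y : X // ¬ Reach O₁ τ (j+1) y ∧ ¬ Reach O₂ τ (j+1) y}, Tk j z.1 = Tk j y.1 := by
      intro j y
      obtain ⟨z, hz, a, b⟩ := common2 h1 h2 y.2.1 y.2.2 countable_empty
      exact ⟨⟨z, a, b⟩, hz.tr⟩
    choose F hF using hch
    let xs : ∀ j : ℕ, {y : X // ¬ Reach O₁ τ (k+j) y ∧ ¬ Reach O₂ τ (k+j) y} := fun j =>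
      Nat.rec ⟨x, hc⟩ (fun j y => F (k+j) y) j
    have hx : ∀ i j, i ≤ j → Tk (k+i) (xs j).1 = Tk (k+i) (xs i).1 := by
      intro i j hij
      induction j, hij using Nat.le_induction with
      | base => rfl
      | succ j hij ih => exact (Tk_mono (by omega) (hF (k+j) (xs j))).trans ih
    choose a a1 a2 using fun j => not_reach_base (xs j).2.1
    choose b b1 b2 using fun j => not_reach_base (xs j).2.2
    obtain ⟨a', ha⟩ := exists_lim a
    obtain ⟨b', hb⟩ := exists_lim b
    have key : ∀ (a : ℕ → X) (a' : X), (∀ j, Tk (k+j) (a j) = Tk (k+j) (xs j).1) →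
        Tendsto a 𝒰 (𝓝 a') → ∀ i, Tk (k+i) a' = Tk (k+i) (xs i).1 := by
      intro a a' a1 ha i
      refine tendsto_nhds_unique (((cont_Tk (k+i)).tendsto a').comp ha)
        (tendsto_const_nhds.congr' ?_)
      filter_upwards [U_le (eventually_ge_atTop i)] with j hj
      exact ((Tk_mono (by omega) (a1 j)).trans (hx i j hj)).symm
    have hab : a' = b' := eq_of_Tk fun i =>
      Tk_mono (Nat.le_add_left i k) ((key a a' a1 ha i).trans (key b b' b1 hb i).symm)
    rcases h a' (key a a' a1 ha 0) with h | h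
    · obtain ⟨j, hj⟩ := (ha.eventually (h1.mem_nhds h)).exists
      exact a2 j hj
    · rw [hab] at h
      obtain ⟨j, hj⟩ := (hb.eventually (h2.mem_nhds h)).exists
      exact b2 j hj

theorem exists_succ (k : ℕ) (x : X) (s : I) {G : Set ℝ} (hG : G.Countable)
    (hx : {w | u k w x = false}.Countable) : ∃ y, Succ k x s G y := by
  classical
  let U : ℕ → ℝ → Bool := fun j w =>
    if j ≤ k then u j w x else if j = k+1 then (u k w x && decide (w ∉ G)) else false
  let T : ℕ → ℝ → I := fun j w =>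
    if j < k then t j w x else if j = k then (if u k w x = true then s else 0) else 0
  let C : ℕ → ℝ × ℚ → Bool := fun j d =>
    if j < k then c j d x else if j = k then (U (k+1) d.1 && decide (d.1 + d.2 < s)) else false
  have hU1 : ∀ w, U (k+1) w = true → u k w x = true := by
    intro w hw; simp [U] at hw; exact hw.1
  have hc : Cond (U, T, C) := by
    refine ⟨fun w => ?_, fun j w h => ?_, fun j w h => ?_, fun j w w' h h' => ?_,
      fun j w q h h' => ?_, fun j w q h h' => ?_, fun j w q h => ?_⟩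
    · have : u 0 w x = true := x.2.top w
      simpa [U] using this
    · rcases lt_trichotomy j k with l | rfl | l
      · have l1 : j + 1 ≤ k := l
        simp only [U, l1, l.le, if_true] at h ⊢
        exact x.2.anti j w h
      · simpa [U] using hU1 w h
      · have l1 : ¬ j + 1 ≤ k := by omega
        have l2 : ¬ j = k := by omega
        simp [U, l1, l2] at h
    · rcases lt_trichotomy j k with l | rfl | l
      · simp only [U, T, l, l.le, if_true] at h ⊢
        exact x.2.off j w h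
      · simp only [U, le_refl, if_true] at h
        simp [T, h]
      · simp [T, l.ne', not_lt.2 l.le]
    · rcases lt_trichotomy j k with l | rfl | l
      · simp only [U, T, l, l.le, if_true] at h h' ⊢
        exact x.2.same j w w' h h'
      · simp only [U, le_refl, if_true] at h h'
        simp [T, h, h']
      · simp [T, l.ne', not_lt.2 l.le]
    · rcases lt_trichotomy j k with l | rfl | l
      · have l1 : j + 1 ≤ k := l
        simp only [U, T, C, l, l1, if_true] at h h' ⊢
        exact x.2.lt j w q h h'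
      · have := hU1 w h
        simp only [T, lt_irrefl, if_false, if_true, this] at h'
        have h2 : U (j+1) w = true := h
        simp [C, h2, h']
      · have l1 : ¬ j + 1 ≤ k := by omega
        have l2 : ¬ j = k := by omega
        simp [U, l1, l2] at h
    · rcases lt_trichotomy j k with l | rfl | l
      · have l1 : j + 1 ≤ k := l
        simp only [U, T, C, l, l1, if_true] at h h' ⊢
        exact x.2.gt j w q h h'
      · have := hU1 w h
        simp only [T, lt_irrefl, if_false, if_true, this] at h'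
        simp [C, h'.le]
      · have l1 : ¬ j + 1 ≤ k := by omega
        have l2 : ¬ j = k := by omega
        simp [U, l1, l2] at h
    · rcases lt_trichotomy j k with l | rfl | l
      · have l1 : j + 1 ≤ k := l
        simp only [U, C, l, l1, if_true] at h ⊢
        exact x.2.uns j w q h
      · have h2 : U (j+1) w = false := h
        simp [C, h2]
      · simp [C, l.ne', not_lt.2 l.le]
  refine ⟨⟨(U, T, C), hc⟩, Tk_eq.2 ⟨fun j hj w => ?_, fun j hj w => ?_, fun j hj d => ?_⟩,
    fun w hw => ?_, ?_, fun w hw => ?_⟩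
  · show U j w = _
    simp [U, hj]
  · show T j w = _
    simp [T, hj]
  · show C j d = _
    simp [C, hj]
  · have hw' : U k w = true := hw
    simp only [U, le_refl, if_true] at hw'
    show T k w = _
    simp [T, hw']
  · refine (hx.union hG).mono fun w hw => ?_
    have hw' : U (k+1) w = false := hw
    simp only [U, Nat.succ_le_iff, lt_irrefl, if_false, if_true, Bool.and_eq_false_iff,
      decide_eq_false_iff_not, not_not] at hw'
    exact hw'
  · show U (k+1) w = false
    simp [U, hw]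

theorem not_reach_empty {τ : Q} {k : ℕ} {x : X} (hx : {w | u k w x = false}.Countable) :
    ¬ Reach ∅ τ k x := by
  intro h
  induction h with
  | base h => exact h _ rfl
  | @step k x G hG _ ih =>
    obtain ⟨y, hy⟩ := exists_succ k x (τ k) hG hx
    exact ih y hy hy.co

noncomputable def root : X := ⟨(fun j _ => decide (j = 0), fun _ _ => 0, fun _ _ => false), by
  refine ⟨fun w => ?_, fun j w h => ?_, fun j w h => ?_, fun j w w' h h' => ?_,
      fun j w q h h' => ?_, fun j w q h h' => ?_, fun j w q h => ?_⟩ <;> simp_all⟩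

/-- top points -/
structure Top (k : ℕ) (x : X) (s : I) (z : X) : Prop where
  tr : Tk k z = Tk k x
  val : ∀ w, u k w x = true → t k w z = s
  av : ∀ w, u (k+1) w z = false

theorem Top.unique {k : ℕ} {x : X} {s : I} {z z' : X} (h : Top k x s z) (h' : Top k x s z') :
    z = z' := by
  have e := Tk_eq.1 (h.tr.trans h'.tr.symm)
  have e0 := Tk_eq.1 h.tr
  have hu : ∀ {z : X}, Top k x s z → ∀ j, k < j → ∀ w, u j w z = false := by
    intro z h j hj w
    by_contra hc
    have := u_anti (Nat.succ_le_of_lt hj) (Bool.not_eq_false _ ▸ hc : u j w z = true)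
    rw [h.av w] at this; cases this
  refine X_ext (fun j w => ?_) (fun j w => ?_) (fun j d => ?_)
  · rcases le_or_gt j k with l | l
    · exact e.1 j l w
    · rw [hu h j l, hu h' j l]
  · rcases lt_trichotomy j k with l | rfl | l
    · exact e.2.1 j l w
    · cases hw : u j w x
      · have a : t j w z = 0 := z.2.off j w ((e0.1 j le_rfl w).trans hw)
        have b : t j w z' = 0 :=
          z'.2.off j w (((e.1 j le_rfl w).symm.trans (e0.1 j le_rfl w)).trans hw)
        rw [a, b]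
      · rw [h.val w hw, h'.val w hw]
    · have a : t j w z = 0 := z.2.off j w (hu h j l w)
      have b : t j w z' = 0 := z'.2.off j w (hu h' j l w)
      rw [a, b]
  · rcases lt_or_ge j k with l | l
    · exact e.2.2 j l d
    · have a : c j (d.1, d.2) z = false := z.2.uns j d.1 d.2 (hu h (j+1) (by omega) d.1)
      have b : c j (d.1, d.2) z' = false := z'.2.uns j d.1 d.2 (hu h' (j+1) (by omega) d.1)
      exact a.trans b.symm

theorem exists_top {O : Set X} (hO : IsOpen O) {τ : Q} {k : ℕ} {x : X} (h : ¬ Reach O τ k x) :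
    ∃ z, z ∉ O ∧ Top k x (τ k) z := by
  have hcl : IsClosed {z : X | z ∉ O ∧ Tk k z = Tk k x ∧ ∀ w, u k w x = true → t k w z = τ k} := by
    refine IsClosed.and hO.isClosed_compl
      (IsClosed.and (isClosed_eq (cont_Tk k) continuous_const) ?_)
    simp only [ofPred_forall]
    exact isClosed_iInter fun w => isClosed_iInter fun _ =>
      isClosed_eq (cont_t k w) continuous_const
  obtain ⟨z, hz, hz'⟩ := hcl.isCompact.inter_iInter_nonempty (fun w => {z | u (k+1) w z = false})
    (fun w => closed_eqb (cont_u _ _) _) (by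
      intro G
      obtain ⟨y, hy, hn⟩ := not_reach_step h G.countable_toSet
      obtain ⟨z, e, hz⟩ := not_reach_base hn
      have e' := Tk_eq.1 e
      refine ⟨z, And.intro hz (And.intro ((Tk_mono (Nat.le_succ _) e).trans hy.tr) ?_), ?_⟩
      · intro w hw
        rw [e'.2.1 k (by omega) w]
        exact hy.val w (((Tk_eq.1 hy.tr).1 k le_rfl w).trans hw)
      · refine mem_iInter₂.2 fun w hw => ?_
        exact (e'.1 (k+1) le_rfl w).trans (hy.av w hw))
  exact ⟨z, hz.1, hz.2.1, hz.2.2, fun w => mem_iInter.1 hz' w⟩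

theorem descend {O : Set X} (hO : IsOpen O) {M : Set Q} (hne : M.Nonempty) {k : ℕ} {x : X}
    (h : ∀ τ ∈ M, ¬ Reach O τ k x) (hc : ∀ τ ∈ M, ∀ τ' ∈ M, τ k = τ' k) :
    ∃ y, {w | u (k+1) w y = false}.Countable ∧ ∀ τ ∈ M, ¬ Reach O τ (k+1) y := by
  obtain ⟨D, hDM, hDc, hD⟩ := (TopologicalSpace.IsSeparable.of_separableSpace M).exists_countable_dense_subset
  have hDne : D.Nonempty := by
    obtain ⟨a, ha⟩ := hne
    exact closure_nonempty_iff.1 ⟨a, hD ha⟩
  obtain ⟨e, he⟩ := hDc.exists_eq_range hDne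
  have heM : ∀ n, e n ∈ M := fun n => hDM (he ▸ mem_range_self n)
  obtain ⟨y, hy, hn⟩ := common (k := k) (x := x) (s := e 0 k) (O := fun _ => O) (fun _ => hO)
    (τ := e) (fun n => hc _ (heM n) _ (heM 0)) (fun n => h _ (heM n)) countable_empty
  refine ⟨y, hy.co, fun τ hτ => ?_⟩
  refine closure_minimal (s := D) ?_ (closed_sh hO (k+1) y) (hD hτ)
  rw [he]
  rintro _ ⟨n, rfl⟩
  exact hn n

theorem descend' {O : Set X} (hO : IsOpen O) {M : Set Q} (hne : M.Nonempty) {k : ℕ} {x : X}
    (hx : {w | u k w x = false}.Countable) (h : ∀ τ ∈ M, ¬ Reach O τ k x) {j : ℕ} (hj : k ≤ j)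
    (hc : ∀ i, k ≤ i → i < j → ∀ τ ∈ M, ∀ τ' ∈ M, τ i = τ' i) :
    ∃ y, {w | u j w y = false}.Countable ∧ ∀ τ ∈ M, ¬ Reach O τ j y := by
  induction j, hj using Nat.le_induction with
  | base => exact ⟨x, hx, h⟩
  | succ j hj ih =>
    obtain ⟨y, -, hy⟩ := ih fun i a b => hc i a (by omega)
    exact descend hO hne hy (hc j hj (by omega))

theorem main (𝒮 : Set (Set X)) (f : Set X → Ordinal.{0})
    (H : ∀ S ∈ 𝒮, ∀ x ∈ S, ∀ V : Set X, IsOpen V → x ∈ V →
      ∃ U : Set X, IsOpen U ∧ x ∈ U ∧ U ∩ S ⊆ V ∧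
        ((S ∩ closure (U ∩ S)) \ U) ∈ 𝒮 ∧ f ((S ∩ closure (U ∩ S)) \ U) < f S) (ρ : Ordinal.{0}) :
    ∀ L ∈ 𝒮, f L = ρ → IsClosed L → ∀ k x, {w | u k w x = false}.Countable → ∀ n,
      Iness {τ | ¬ Reach Lᶜ τ k x} n := by
  classical
  induction ρ using WellFoundedLT.induction with
  | ind ρ ih =>
  intro L hL hρ hcl k x hx n
  by_contra hc
  obtain ⟨M, hM, -, hMn, hMc⟩ := cantor_manifold (closed_sh hcl.isOpen_compl k x) hc
  have hex := nonconst hMn k
  obtain ⟨hkj, τ, hτ, τ', hτ', hne⟩ := Nat.find_spec hex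
  set j := Nat.find hex with hj
  obtain ⟨y, hy, hMy⟩ := descend' hcl.isOpen_compl ⟨τ, hτ⟩ hx (fun ν hν => hM hν) hkj (by
    intro i a b ν hν ν' hν'
    by_contra hne'
    exact Nat.find_min hex b ⟨a, ν, hν, ν', hν', hne'⟩)
  obtain ⟨w0, hw0⟩ : ∃ w, u j w y = true := by
    by_contra hn
    push Not at hn
    exact not_countable_univ (α := ℝ) (hy.mono fun w _ => by simpa using hn w)
  obtain ⟨z, hzL, hz⟩ := exists_top hcl.isOpen_compl (hMy τ hτ)
  have hzL' : z ∈ L := not_not.1 hzL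
  have hd : 0 < dist (τ' j) (τ j) := dist_pos.2 hne.symm
  obtain ⟨U, hU, hzU, hUV, hL', hlt⟩ := H L hL z hzL'
    {a | dist (t j w0 a) (τ j) < dist (τ' j) (τ j) / 2}
    (isOpen_lt (by fun_prop) continuous_const) (by
      show dist (t j w0 z) (τ j) < _
      rw [hz.val w0 hw0, dist_self]; linarith)
  have hcU : closure (U ∩ L) ⊆ {a | dist (t j w0 a) (τ j) ≤ dist (τ' j) (τ j) / 2} :=
    closure_minimal (fun a ha => (le_of_lt (hUV ha) : dist (t j w0 a) (τ j) ≤ _)) (isClosed_le (by fun_prop) continuous_const)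
  have o1 : IsOpen (Lᶜ ∪ U) := hcl.isOpen_compl.union hU
  have o2 : IsOpen (closure (U ∩ L))ᶜ := isClosed_closure.isOpen_compl
  obtain ⟨m, hm⟩ := hMc {ν | ¬ Reach (Lᶜ ∪ U) ν j y} {ν | ¬ Reach (closure (U ∩ L))ᶜ ν j y}
    (closed_sh o1 j y) (closed_sh o2 j y) (by
      intro ν hν
      by_contra hn
      simp only [mem_union, mem_ofPred_eq, not_or, not_not] at hn
      refine hMy ν hν ((hn.1.inter hn.2).mono ?_)
      rintro a ⟨a1 | a1, a2⟩ haL
      · exact a1 haL
      · exact a2 (subset_closure ⟨a1, haL⟩))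
    (by
      intro hs
      obtain ⟨z', h1, h2⟩ := exists_top o1 (hs hτ)
      exact h1 (Or.inr (h2.unique hz ▸ hzU)))
    (by
      intro hs
      refine hs hτ' (.step ∅ countable_empty fun y' hy' => .base fun a ha hmem => ?_)
      have h1 : t j w0 a = τ' j := by
        rw [(Tk_eq.1 ha).2.1 j (by omega) w0]
        exact hy'.val w0 (((Tk_eq.1 hy'.tr).1 j le_rfl w0).trans hw0)
      have h2 : dist (t j w0 a) (τ j) ≤ dist (τ' j) (τ j) / 2 := hcU hmem
      rw [h1] at h2
      linarith)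
  refine hm ((ih _ (hρ ▸ hlt) _ hL' rfl ((hcl.inter isClosed_closure).sdiff hU) j y hy m).mono ?_)
  rintro ν ⟨a, b⟩ hr
  refine (prime o1 o2 (hr.mono ?_)).elim a b
  intro p hp
  by_contra hn
  simp only [mem_union, mem_compl_iff, not_or, not_not] at hn
  exact hp ⟨⟨hn.1.1, hn.2⟩, hn.1.2⟩

theorem no_trind : ¬ ∃ (𝒮 : Set (Set X)) (f : Set X → Ordinal.{0}), (univ : Set X) ∈ 𝒮 ∧
    ∀ S ∈ 𝒮, ∀ x ∈ S, ∀ V : Set X, IsOpen V → x ∈ V →
      ∃ U : Set X, IsOpen U ∧ x ∈ U ∧ U ∩ S ⊆ V ∧
        ((S ∩ closure (U ∩ S)) \ U) ∈ 𝒮 ∧ f ((S ∩ closure (U ∩ S)) \ U) < f S := by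
  rintro ⟨𝒮, f, hu, H⟩
  have hr : {w | u 0 w root = false}.Countable := by
    have : {w | u 0 w root = false} = ∅ := by
      ext w; simp [u, root]
    rw [this]; exact countable_empty
  refine not_iness_univ ((main 𝒮 f H _ univ hu rfl isClosed_univ 0 root hr 0).mono fun τ _ => ?_)
  rw [compl_univ]
  exact not_reach_empty hr

/-! ### zero-dimensional pieces -/

/-- open sets with empty relative boundary in `A` -/
def RC (A U : Set X) : Prop := IsOpen U ∧ ∃ C, IsClosed C ∧ U ∩ A ⊆ C ∧ C ∩ A ⊆ U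

theorem RC.clopen {A U : Set X} (h1 : IsOpen U) (h2 : IsClosed U) : RC A U :=
  ⟨h1, U, h2, inter_subset_left, inter_subset_left⟩

def rcF (A : Set X) (x : X) : Filter X where
  sets := {V | ∃ U, RC A U ∧ x ∈ U ∧ U ∩ A ⊆ V}
  univ_sets := ⟨univ, RC.clopen isOpen_univ isClosed_univ, trivial, subset_univ _⟩
  sets_of_superset := by
    rintro V V' ⟨U, a, b, c⟩ h
    exact ⟨U, a, b, c.trans h⟩
  inter_sets := by
    rintro V V' ⟨U, ⟨a, C, a1, a2, a3⟩, b, c⟩ ⟨U', ⟨a', C', a1', a2', a3'⟩, b', c'⟩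
    refine ⟨U ∩ U', ⟨a.inter a', C ∩ C', a1.inter a1', fun p hp => ⟨a2 ⟨hp.1.1, hp.2⟩,
      a2' ⟨hp.1.2, hp.2⟩⟩, fun p hp => ⟨a3 ⟨hp.1.1, hp.2⟩, a3' ⟨hp.1.2, hp.2⟩⟩⟩, ⟨b, b'⟩,
      fun p hp => ⟨c ⟨hp.1.1, hp.2⟩, c' ⟨hp.1.2, hp.2⟩⟩⟩

theorem rcF_bool (A : Set X) (x : X) {g : X → Bool} (hg : Continuous g) :
    ∀ᶠ y in rcF A x, g y = g x :=
  ⟨{y | g y = g x}, RC.clopen (open_eqb hg _) (closed_eqb hg _), rfl, inter_subset_left⟩

def piece : Option (ℕ × Bool) → Set X
  | none => {x | ∀ k, ∃ w, u k w x = true}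
  | some (k, b) => {x | (∃ w, u k w x = true) ∧ (∀ w, u (k+1) w x = false) ∧
      ∀ w, u k w x = true → (Irrational (t k w x) ↔ b = true)}

theorem piece_cover (x : X) : ∃ i, x ∈ piece i := by
  classical
  by_cases h : ∀ k, ∃ w, u k w x = true
  · exact ⟨none, h⟩
  · push Not at h
    have h0 : Nat.find h ≠ 0 := by
      intro h0
      have := Nat.find_spec h 0
      rw [h0] at this
      exact this (x.2.top 0)
    obtain ⟨k, hk⟩ := Nat.exists_eq_succ_of_ne_zero h0
    have h1 := Nat.find_min h (m := k) (by omega)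
    push Not at h1
    obtain ⟨w0, hw0⟩ := h1
    have h2 := Nat.find_spec h
    rw [hk] at h2
    refine ⟨some (k, decide (Irrational (t k w0 x))), ⟨w0, hw0⟩, fun w => by simpa using h2 w,
      fun w hw => ?_⟩
    have : t k w x = t k w0 x := x.2.same k w w0 hw hw0
    simp [this]

theorem exists_cut (b : Bool) {a a' : ℝ} (h : a < a') :
    ∃ r, a < r ∧ r < a' ∧ ¬ (Irrational r ↔ b = true) := by
  cases b
  · obtain ⟨r, h1, h2, h3⟩ := exists_irrational_btwn h
    exact ⟨r, h2, h3, by simpa using h1⟩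
  · obtain ⟨q, h2, h3⟩ := exists_rat_btwn h
    exact ⟨q, h2, h3, by simp⟩

theorem rcF_t (i : Option (ℕ × Bool)) {x : X} (hx : x ∈ piece i) (j : ℕ) (w : ℝ) :
    Tendsto (fun y => (t j w y : ℝ)) (rcF (piece i) x) (𝓝 (t j w x)) := by
  cases hw : u j w x
  · refine tendsto_const_nhds.congr' ?_
    filter_upwards [rcF_bool (piece i) x (cont_u j w)] with y hy
    have a : t j w x = 0 := x.2.off j w hw
    have b : t j w y = 0 := y.2.off j w (hy.trans hw)
    rw [a, b]
  by_cases h1 : ∃ w', u (j+1) w' x = true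
  · obtain ⟨w', hw'⟩ := h1
    have e : t j w x = t j w' x := x.2.same j w w' hw (x.2.anti j w' hw')
    refine tendsto_order.2 ⟨fun a ha => ?_, fun a ha => ?_⟩
    · obtain ⟨q, q1, q2⟩ := exists_rat_btwn (sub_lt_sub_right ha w')
      have hc : c j (w', q) x = true := x.2.lt j w' q hw' (by
        show w' + q < (t j w' x : ℝ)
        rw [← e]; linarith)
      filter_upwards [rcF_bool (piece i) x (cont_u j w), rcF_bool (piece i) x (cont_u (j+1) w'),
        rcF_bool (piece i) x (cont_c j (w', q))] with y y1 y2 y3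
      have e' : t j w y = t j w' y :=
        y.2.same j w w' (y1.trans hw) (y.2.anti j w' (y2.trans hw'))
      by_contra hn
      have : c j (w', q) y = false := y.2.gt j w' q (y2.trans hw') (by
        show (t j w' y : ℝ) < w' + q
        rw [← e']; linarith)
      rw [y3, hc] at this; cases this
    · obtain ⟨q, q1, q2⟩ := exists_rat_btwn (sub_lt_sub_right ha w')
      have hc : c j (w', q) x = false := x.2.gt j w' q hw' (by
        show (t j w' x : ℝ) < w' + q
        rw [← e]; linarith)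
      filter_upwards [rcF_bool (piece i) x (cont_u j w), rcF_bool (piece i) x (cont_u (j+1) w'),
        rcF_bool (piece i) x (cont_c j (w', q))] with y y1 y2 y3
      have e' : t j w y = t j w' y :=
        y.2.same j w w' (y1.trans hw) (y.2.anti j w' (y2.trans hw'))
      by_contra hn
      have : c j (w', q) y = true := y.2.lt j w' q (y2.trans hw') (by
        show w' + q < (t j w' y : ℝ)
        rw [← e']; linarith)
      rw [y3, hc] at this; cases this
  · rcases i with _ | ⟨k, b⟩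
    · exact (h1 (hx (j+1))).elim
    obtain ⟨⟨w1, hw1⟩, h2, h3⟩ := hx
    obtain rfl : j = k := by
      rcases lt_trichotomy j k with l | l | l
      · exact (h1 ⟨w1, u_anti (Nat.succ_le_of_lt l) hw1⟩).elim
      · exact l
      · have := u_anti (Nat.succ_le_of_lt l) hw
        rw [h2 w] at this; cases this
    refine tendsto_order.2 ⟨fun a ha => ?_, fun a ha => ?_⟩
    · obtain ⟨r, r1, r2, r3⟩ := exists_cut b ha
      refine ⟨{y | u j w y = true ∧ r < t j w y}, ⟨IsOpen.and (open_eqb (cont_u j w) _)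
        (isOpen_lt continuous_const (by fun_prop)), {y | u j w y = true ∧ r ≤ t j w y},
        IsClosed.and (closed_eqb (cont_u j w) _) (isClosed_le continuous_const (by fun_prop)),
        fun y hy => And.intro hy.1.1 hy.1.2.le, fun y hy => And.intro hy.1.1 ?_⟩,
        And.intro hw r2, fun y hy => r1.trans hy.1.2⟩
      refine lt_of_le_of_ne hy.1.2 fun e => r3 ?_
      rw [e]; exact hy.2.2.2 w hy.1.1
    · obtain ⟨r, r1, r2, r3⟩ := exists_cut b ha
      refine ⟨{y | u j w y = true ∧ (t j w y : ℝ) < r}, ⟨IsOpen.and (open_eqb (cont_u j w) _)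
        (isOpen_lt (by fun_prop) continuous_const), {y | u j w y = true ∧ (t j w y : ℝ) ≤ r},
        IsClosed.and (closed_eqb (cont_u j w) _) (isClosed_le (by fun_prop) continuous_const),
        fun y hy => And.intro hy.1.1 hy.1.2.le, fun y hy => And.intro hy.1.1 ?_⟩,
        And.intro hw r1, fun y hy => lt_trans hy.1.2 r2⟩
      refine lt_of_le_of_ne hy.1.2 fun e => r3 ?_
      rw [← e]; exact hy.2.2.2 w hy.1.1

theorem rcF_le (i : Option (ℕ × Bool)) {x : X} (hx : x ∈ piece i) : rcF (piece i) x ≤ 𝓝 x := by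
  refine tendsto_id'.1 (tendsto_subtype_rng.2 ?_)
  refine (Prod.tendsto_iff _ _).2 ⟨?_, (Prod.tendsto_iff _ _).2 ⟨?_, ?_⟩⟩
  · refine tendsto_pi_nhds.2 fun j => tendsto_pi_nhds.2 fun w => ?_
    exact tendsto_const_nhds.congr' ((rcF_bool _ x (cont_u j w)).mono fun y hy => hy.symm)
  · refine tendsto_pi_nhds.2 fun j => tendsto_pi_nhds.2 fun w => ?_
    exact tendsto_subtype_rng.2 (rcF_t i hx j w)
  · refine tendsto_pi_nhds.2 fun j => tendsto_pi_nhds.2 fun d => ?_
    exact tendsto_const_nhds.congr' ((rcF_bool _ x (cont_c j d)).mono fun y hy => hy.symm)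

theorem piece_zero (i : Option (ℕ × Bool)) {x : X} (hx : x ∈ piece i) {V : Set X} (hV : IsOpen V)
    (hxV : x ∈ V) : ∃ U : Set X, IsOpen U ∧ x ∈ U ∧ U ∩ piece i ⊆ V ∧
      (piece i ∩ closure (U ∩ piece i)) \ U = ∅ := by
  obtain ⟨U, ⟨a, C, a1, a2, a3⟩, b, c⟩ := rcF_le i hx (hV.mem_nhds hxV)
  refine ⟨U, a, b, c, eq_empty_of_forall_notMem fun p hp => ?_⟩
  exact hp.2 (a3 ⟨closure_minimal a2 a1 hp.1.2, hp.1.1⟩)

theorem piece_trind (i : Option (ℕ × Bool)) :
    ∃ (𝒮 : Set (Set X)) (f : Set X → Ordinal.{0}), piece i ∈ 𝒮 ∧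
    ∀ S ∈ 𝒮, ∀ x ∈ S, ∀ V : Set X, IsOpen V → x ∈ V →
      ∃ U : Set X, IsOpen U ∧ x ∈ U ∧ U ∩ S ⊆ V ∧
        ((S ∩ closure (U ∩ S)) \ U) ∈ 𝒮 ∧ f ((S ∩ closure (U ∩ S)) \ U) < f S := by
  classical
  refine ⟨{piece i, ∅}, fun S => if S = ∅ then 0 else 1, Or.inl rfl, ?_⟩
  rintro S (rfl | rfl) x hx V hV hxV
  · obtain ⟨U, a, b, c, d⟩ := piece_zero i hx hV hxV
    refine ⟨U, a, b, c, Or.inr d, ?_⟩
    have : piece i ≠ ∅ := Set.Nonempty.ne_empty ⟨x, hx⟩
    simp [d, this]
  · exact hx.elim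

end Pool.Agent.H82.Trin
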