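import Mathlib

set_option autoImplicit false
open Topology Filter

namespace Pool.Agent.H82.UnifDense

/-- a large index type, closed under coding a countable amount of data -/
inductive T : Type
  | base : T
  | mk : (Set ℕ → ℝ) → ℝ → (ℕ → T) → (ℕ → ℝ) → ℕ → T

/-- the space: a discrete copy of the power set of the naturals, together with the one-point
Lindelofication of the discrete space `T` -/
inductive X : Type
  | y : Set ℕ → X
  | t : T → X
  | inf : X

def Good (a : X → ℝ) : Prop := {s : T | a (X.t s) ≠ a X.inf}.Countable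

instance : TopologicalSpace X :=
  ⨅ a : {a : X → ℝ // Good a}, TopologicalSpace.induced a.1 inferInstance

instance : CompletelyRegularSpace X :=
  completelyRegularSpace_iInf fun _ => completelyRegularSpace_induced inferInstance _

lemma cont_of_good {a : X → ℝ} (h : Good a) : Continuous a :=
  continuous_iInf_dom (i := (⟨a, h⟩ : {a : X → ℝ // Good a})) continuous_induced_dom

lemma tend_inf : Tendsto X.t (cocountable : Filter T) (𝓝 X.inf) := by
  rw [nhds_iInf, tendsto_iInf]
  intro a
  rw [nhds_induced, tendsto_comap_iff]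
  refine tendsto_const_nhds.congr' ?_
  have : {s : T | a.1 (X.t s) = a.1 X.inf} ∈ (cocountable : Filter T) :=
    mem_cocountable.2 a.2
  filter_upwards [this] with s hs
  exact hs.symm

lemma good_of_cont {a : X → ℝ} (h : Continuous a) : Good a := by
  have h1 : Tendsto (a ∘ X.t) (cocountable : Filter T) (𝓝 (a X.inf)) :=
    (h.tendsto _).comp tend_inf
  have h2 : {s : T | a (X.t s) ≠ a X.inf} ⊆
      ⋃ n : ℕ, {s : T | dist (a (X.t s)) (a X.inf) < 1 / ((n : ℝ) + 1)}ᶜ := by
    intro s hs
    obtain ⟨n, hn⟩ := exists_nat_one_div_lt (dist_pos.2 hs)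
    exact Set.mem_iUnion.2 ⟨n, fun h' => lt_asymm hn h'⟩
  refine Set.Countable.mono h2 (Set.countable_iUnion fun n => ?_)
  exact mem_cocountable.1 (Metric.tendsto_nhds.1 h1 (1 / ((n : ℝ) + 1)) (by positivity))

open Classical in
lemma good_single (x : X) (hx : x ≠ X.inf) : Good (fun z => if z = x then (1 : ℝ) else 0) := by
  refine Set.Subsingleton.countable ?_
  intro s hs s' hs'
  simp only [Set.mem_ofPred_eq, if_neg hx.symm] at hs hs'
  have h1 : X.t s = x := by by_contra h; simp [h] at hs
  have h2 : X.t s' = x := by by_contra h; simp [h] at hs'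
  exact X.t.inj (h1.trans h2.symm)

instance : T0Space X := by
  classical
  have key : ∀ v w : X, Inseparable v w → w ≠ X.inf → v = w := by
    intro v w hins hw
    have := (hins.map (cont_of_good (good_single w hw))).eq
    by_contra h
    simp [h] at this
  refine ⟨fun v w hins => ?_⟩
  by_cases hw : w = X.inf
  · by_cases hv : v = X.inf
    · exact hv.trans hw.symm
    · exact (key w v hins.symm hv).symm
  · exact key v w hins hw

instance : T35Space X := {}

lemma exists_enum (h : C(X, ℝ)) : ∃ u : ℕ → T, ∀ s, h (X.t s) ≠ h X.inf → s ∈ Set.range u := by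
  obtain ⟨u, hu⟩ := ((good_of_cont h.continuous).insert T.base).exists_eq_range
    (Set.insert_nonempty _ _)
  exact ⟨u, fun s hs => hu ▸ Set.mem_insert_of_mem _ hs⟩

/-- an enumeration of the support -/
noncomputable def enum (h : C(X, ℝ)) : ℕ → T := (exists_enum h).choose

/-- a fresh coordinate for each pair -/
noncomputable def code (i : C(X, ℝ) × ℕ) : T :=
  T.mk (fun w => i.1 (X.y w)) (i.1 X.inf) (enum i.1) (fun k => i.1 (X.t (enum i.1 k))) i.2

lemma code_inj : Function.Injective code := by
  rintro ⟨h, n⟩ ⟨g, m⟩ e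
  simp only [code, T.mk.injEq] at e
  obtain ⟨e1, e2, e3, e4, e5⟩ := e
  refine Prod.ext ?_ e5
  ext x
  cases x with
  | y w => exact congrFun e1 w
  | inf => exact e2
  | t s =>
    by_cases hs : s ∈ Set.range (enum h)
    · obtain ⟨k, rfl⟩ := hs
      have := congrFun e4 k
      simp only [← e3] at this
      exact this
    · have h1 : h (X.t s) = h X.inf := by
        by_contra hh; exact hs ((exists_enum h).choose_spec s hh)
      have h2 : g (X.t s) = g X.inf := by
        by_contra hh; exact hs (e3 ▸ (exists_enum g).choose_spec s hh)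
      change h (X.t s) = g (X.t s)
      rw [h1, h2]; exact e2

lemma exists_d (i : C(X, ℝ) × ℕ) : ∃ g : C(X, ℝ), g (X.t (code i)) ≠ g X.inf ∧
    ∀ x, |i.1 x - g x| < 1 / ((i.2 : ℝ) + 1) := by
  classical
  by_cases h : i.1 (X.t (code i)) = i.1 X.inf
  · have hc := cont_of_good (good_single (X.t (code i)) (by intro h; cases h))
    refine ⟨⟨fun z => i.1 z + 1 / ((i.2 : ℝ) + 2) * (if z = X.t (code i) then (1 : ℝ) else 0),
      i.1.continuous.add (continuous_const.mul hc)⟩, ?_, ?_⟩
    · have : (0 : ℝ) < 1 / ((i.2 : ℝ) + 2) := by positivity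
      simp only [ContinuousMap.coe_mk, if_true, h, reduceCtorEq, if_false]
      linarith
    · intro x
      have h1 : (0 : ℝ) < 1 / ((i.2 : ℝ) + 2) := by positivity
      have h2 : 1 / ((i.2 : ℝ) + 2) < 1 / ((i.2 : ℝ) + 1) :=
        one_div_lt_one_div_of_lt (by positivity) (by linarith)
      simp only [ContinuousMap.coe_mk]
      split_ifs
      · rw [abs_lt]; constructor <;> linarith
      · rw [abs_lt]; constructor <;> linarith
  · exact ⟨i.1, h, fun x => by simp only [sub_self, abs_zero]; positivity⟩

/-- the perturbed functions -/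
noncomputable def d (i : C(X, ℝ) × ℕ) : C(X, ℝ) := (exists_d i).choose

lemma d_ne (i : C(X, ℝ) × ℕ) : d i (X.t (code i)) ≠ d i X.inf := (exists_d i).choose_spec.1

lemma d_close (i : C(X, ℝ) × ℕ) (x : X) : |i.1 x - d i x| < 1 / ((i.2 : ℝ) + 1) :=
  (exists_d i).choose_spec.2 x

open Classical in
/-- indicator of a set of isolated points of the first kind -/
noncomputable def ind (P : Set ℕ → Prop) : C(X, ℝ) :=
  ⟨fun x => match x with
    | X.y w => if P w then 1 else 0
    | _ => 0, cont_of_good (by simp [Good])⟩

lemma ind_tendsto (w : Set ℕ) (x : X) :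
    Tendsto (fun n : ℕ => ind (fun v => ∀ k < n, k ∈ v ↔ k ∈ w) x) atTop
      (𝓝 (ind (fun v => v = w) x)) := by
  cases x with
  | t s => exact tendsto_const_nhds
  | inf => exact tendsto_const_nhds
  | y v =>
    refine tendsto_const_nhds.congr' ?_
    by_cases h : v = w
    · subst h
      exact Eventually.of_forall fun n => by simp [ind]
    · have : ∃ k, ¬ (k ∈ v ↔ k ∈ w) := by
        by_contra hh
        push Not at hh
        exact h (Set.ext hh)
      obtain ⟨k, hk⟩ := this
      filter_upwards [eventually_gt_atTop k] with n hn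
      have : ¬ ∀ j < n, j ∈ v ↔ j ∈ w := fun hh => hk (hh k hn)
      simp only [ind, ContinuousMap.coe_mk, h, if_false]
      rw [if_neg this]

end Pool.Agent.H82.UnifDense
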