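import Mathlib
import Pool.Agent.H82.WThetaDefs

set_option autoImplicit false

open Set Filter Topology

namespace Pool.Agent.H82.WTheta

universe u v

theorem pick {X : Type u} [TopologicalSpace X] {K : Set X} (hK : IsCompact K) (hne : K.Nonempty)
    (G : ℕ × ℕ → Set X) (hG : ∀ i, IsOpen (G i)) :
    ∃ x ∈ K, ∀ i j, x ∈ G i → x ∉ G j → ∃ s : Finset (ℕ × ℕ), (K ∩ ⋂ l ∈ s, (G l)ᶜ).Nonempty ∧
      K ∩ ⋂ l ∈ s, (G l)ᶜ ⊆ G i ∩ (G j)ᶜ := by
  classical
  obtain ⟨e, he⟩ := exists_surjective_nat (ℕ × ℕ)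
  let C : Finset (ℕ × ℕ) → Set X := fun s => ⋂ l ∈ s, (G l)ᶜ
  let s : ℕ → Finset (ℕ × ℕ) := fun j => Nat.rec ∅
    (fun j s => if (K ∩ C (insert (e j) s)).Nonempty then insert (e j) s else s) j
  have hs : ∀ j, s (j + 1) =
      if (K ∩ C (insert (e j) (s j))).Nonempty then insert (e j) (s j) else s j := fun j => rfl
  have h1 : ∀ j, (K ∩ C (s j)).Nonempty := by
    intro j
    induction j with
    | zero => simpa [C, s] using hne
    | succ j ih =>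
      rw [hs]
      split_ifs with h
      · exact h
      · exact ih
  have hm : Monotone s := monotone_nat_of_le_succ fun j => by
    rw [hs]
    split_ifs
    · exact Finset.subset_insert _ _
    · exact le_rfl
  have hC : ∀ a b, a ⊆ b → C b ⊆ C a := fun a b hab => biInter_subset_biInter_left hab
  have hCi : ∀ i a, C (insert i a) = (G i)ᶜ ∩ C a := fun i a => by simp [C]
  obtain ⟨x, hx, hx'⟩ := hK.inter_iInter_nonempty (fun j => C (s j))
    (fun j => isClosed_biInter fun l _ => (hG l).isClosed_compl) (by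
      intro u
      refine (h1 (u.sup id)).mono (inter_subset_inter_right _ (subset_iInter₂ fun j hj => ?_))
      exact hC _ _ (hm (Finset.le_sup (f := id) hj)))
  have hx'' := mem_iInter.1 hx'
  refine ⟨x, hx, fun i j hi hj => ?_⟩
  obtain ⟨a, rfl⟩ := he i
  obtain ⟨b, rfl⟩ := he j
  refine ⟨s (max a (b + 1)), h1 _, fun y hy => ⟨?_, ?_⟩⟩
  · by_contra hc
    have hn : (K ∩ C (insert (e a) (s a))).Nonempty :=
      ⟨y, hy.1, by rw [hCi]; exact ⟨hc, hC _ _ (hm (le_max_left _ _)) hy.2⟩⟩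
    have := hx'' (a + 1)
    rw [hs, if_pos hn, hCi] at this
    exact this.1 hi
  · have hn : (K ∩ C (insert (e b) (s b))).Nonempty :=
      ⟨x, hx, by rw [hCi]; exact ⟨hj, hx'' b⟩⟩
    have := hC _ _ (hm (le_max_right a (b + 1))) hy.2
    rw [hs, if_pos hn, hCi] at this
    exact this.1

theorem perfect {X : Type u} {Y : Type v} [TopologicalSpace X] [TopologicalSpace Y] (f : X → Y)
    (hf : Continuous f) (hs : Function.Surjective f) (hcl : IsClosedMap f)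
    (hK : ∀ y, IsCompact (f ⁻¹' {y})) (hX : WeaklyThetaRefinable X) : WeaklyThetaRefinable Y := by
  classical
  intro 𝒰 hU hc
  obtain ⟨𝒲, h1, h2⟩ := hX (preimage f '' 𝒰) (by
    rintro _ ⟨U, h, rfl⟩
    exact (hU U h).preimage hf) (by
    rw [sUnion_image, ← preimage_sUnion, hc, preimage_univ])
  let T : ℕ → X → Set (Set X) := fun n x => {V | V ∈ 𝒲 n ∧ x ∈ V}
  have hTo : ∀ n x, ∀ t ⊆ T n x, t.Finite → IsOpen (⋂₀ t) := fun n x t ht hf =>
    hf.isOpen_sInter fun V hV => (h1 n V (ht hV).1).1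
  let G : ℕ × ℕ → Set X := fun i => {x | (i.2 : ℕ∞) ≤ (T i.1 x).encard}
  have hG : ∀ i, IsOpen (G i) := by
    intro i
    rw [isOpen_iff_forall_mem_open]
    intro x hx
    obtain ⟨t, ht, ht'⟩ := exists_subset_encard_eq hx
    refine ⟨⋂₀ t, fun y hy => ?_, hTo _ x t ht (finite_of_encard_eq_coe ht'),
      fun V hV => (ht hV).2⟩
    exact ht'.ge.trans (encard_le_encard fun V hV => And.intro (ht hV).1 (hy V hV))
  let C : Finset (ℕ × ℕ) → Set X := fun s => ⋂ l ∈ s, (G l)ᶜ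
  have hC : ∀ s, IsClosed (C s) := fun s => isClosed_biInter fun l _ => (hG l).isClosed_compl
  let Z : Finset (ℕ × ℕ) → ℕ → ℕ → Set Y := fun s n k => {y | (f ⁻¹' {y} ∩ C s).Nonempty ∧
    ∀ x ∈ f ⁻¹' {y} ∩ C s, (T n x).encard = (k + 1 : ℕ)}
  let I : Finset (ℕ × ℕ) → ℕ → Y → Set (Set (Set X)) := fun s n y => T n '' (f ⁻¹' {y} ∩ C s)
  have heq : ∀ n (k : ℕ) x x', (T n x).encard = k → (T n x').encard = k → x' ∈ ⋂₀ T n x →
      T n x = T n x' := by
    intro n k x x' a b h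
    exact (finite_of_encard_eq_coe b).eq_of_subset_of_encard_le'
      (fun V hV => And.intro hV.1 (h V hV)) (by rw [a, b])
  have hI : ∀ s n k, ∀ y ∈ Z s n k, (I s n y).Finite := by
    intro s n k y hy
    obtain ⟨t, ht, ht'⟩ := ((hK y).inter_right (hC s)).elim_nhds_subcover (fun x => ⋂₀ T n x)
      fun x hx => (hTo n x _ subset_rfl (finite_of_encard_eq_coe (hy.2 x hx))).mem_nhds
        fun V hV => hV.2
    refine (t.finite_toSet.image (T n)).subset ?_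
    rintro _ ⟨x, hx, rfl⟩
    obtain ⟨x', hx', h⟩ := mem_iUnion₂.1 (ht' hx)
    exact ⟨x', hx', heq n _ x' x (hy.2 _ (ht x' hx')) (hy.2 x hx) h⟩
  have hu : ∀ s n k J, ∃ U, (∃ y ∈ Z s n k, I s n y = J) →
      U ∈ 𝒰 ∧ ∀ y, I s n y = J → y ∈ U := by
    intro s n k J
    by_cases h : ∃ y ∈ Z s n k, I s n y = J
    · obtain ⟨y, ⟨⟨x, hx⟩, hy⟩, rfl⟩ := h
      obtain ⟨V, hV⟩ : (T n x).Nonempty := by
        rw [← encard_ne_zero, hy x hx]
        exact_mod_cast Nat.succ_ne_zero k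
      obtain ⟨-, _, ⟨U, hU', rfl⟩, hVU⟩ := h1 n V hV.1
      refine ⟨U, fun _ => ⟨hU', fun y' hy' => ?_⟩⟩
      have : T n x ∈ I s n y' := hy' ▸ ⟨x, hx, rfl⟩
      obtain ⟨x', hx', h⟩ := this
      rw [← h] at hV
      exact (show f x' = y' from hx'.1) ▸ hVU hV.2
    · exact ⟨∅, fun h' => absurd h' h⟩
  choose u hu using hu
  let V : Finset (ℕ × ℕ) → ℕ → ℕ → Set (Set (Set X)) → Set Y := fun s n k J =>
    (f '' (C s \ ⋃ σ ∈ J, ⋂₀ σ))ᶜ ∩ u s n k J
  let fam : Finset (ℕ × ℕ) × ℕ × ℕ × ℕ → Set (Set Y) := fun i =>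
    (fun y => V i.1 i.2.1 i.2.2.1 (I i.1 i.2.1 y)) ''
      {y | y ∈ Z i.1 i.2.1 i.2.2.1 ∧ (I i.1 i.2.1 y).ncard = i.2.2.2}
  obtain ⟨e, he⟩ := exists_surjective_nat (Finset (ℕ × ℕ) × ℕ × ℕ × ℕ)
  refine ⟨fun j => fam (e j), ?_, fun y => ?_⟩
  · rintro j _ ⟨y, hy, rfl⟩
    have := hu _ _ _ _ ⟨y, hy.1, rfl⟩
    refine ⟨IsOpen.inter (hcl _ ((hC _).sdiff (isOpen_biUnion ?_))).isOpen_compl (hU _ this.1),
      _, this.1, inter_subset_right⟩
    rintro _ ⟨x, hx, rfl⟩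
    exact hTo _ x _ subset_rfl (finite_of_encard_eq_coe (hy.1.2 x hx))
  · obtain ⟨x, -, hx⟩ := pick (hK y) (hs y) G hG
    obtain ⟨n, a1, a2⟩ := h2 x
    obtain ⟨k, hk⟩ : ∃ k : ℕ, (T n x).encard = (k + 1 : ℕ) := by
      obtain ⟨m, hm⟩ := a2.exists_encard_eq_coe
      rcases m with _ | m
      · exact absurd hm (by simpa using a1.ne_empty)
      · exact ⟨m, hm⟩
    obtain ⟨s, b1, b2⟩ := hx (n, k + 1) (n, k + 2) hk.ge (by
      simp only [G, mem_ofPred_eq, hk, Nat.cast_le]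
      omega)
    have hy : y ∈ Z s n k := by
      refine ⟨b1, fun x' hx' => le_antisymm ?_ (b2 hx').1⟩
      have : (T n x').encard < (k + 2 : ℕ) := not_le.1 (b2 hx').2
      exact Order.le_of_lt_add_one (by exact_mod_cast this)
    obtain ⟨j, hj⟩ := he (s, n, k, (I s n y).ncard)
    refine ⟨j, ⟨V s n k (I s n y), ?_, ?_, (hu _ _ _ _ ⟨y, hy, rfl⟩).2 y rfl⟩, ?_⟩
    · simp only [hj]
      exact ⟨y, ⟨hy, rfl⟩, rfl⟩
    · rintro ⟨x', hx', h⟩
      exact hx'.2 (mem_biUnion (show T n x' ∈ I s n y from ⟨x', ⟨h, hx'.1⟩, rfl⟩) fun V hV => hV.2)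
    · simp only [hj]
      refine (finite_singleton (V s n k (I s n y))).subset ?_
      rintro _ ⟨⟨y', ⟨c1, c2⟩, rfl⟩, h, -⟩
      have : I s n y = I s n y' := by
        refine eq_of_subset_of_ncard_le ?_ c2.le (hI _ _ _ _ c1)
        rintro _ ⟨x', hx', rfl⟩
        by_contra hn
        refine h ⟨x', ⟨hx'.2, fun h' => ?_⟩, hx'.1⟩
        obtain ⟨_, ⟨x'', hx'', rfl⟩, h''⟩ := mem_iUnion₂.1 h'
        exact hn ⟨x'', hx'', heq n _ _ _ (c1.2 _ hx'') (hy.2 _ hx') h''⟩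
      simp only [this, mem_singleton_iff]

end Pool.Agent.H82.WTheta
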