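import Mathlib
import Pool.Agent.H82.SpanB

/-! Following paths, mountain climbing and a criterion for weak chainability. -/

set_option autoImplicit false

namespace Pool.Agent.H82.WcA

open Set Topology TopologicalSpace Metric Filter

variable {E : Type} [MetricSpace E]

def Dm (ε : ℝ) (a b : ℝ → E) : Set (ℝ × ℝ) :=
  {z | (z.1 ∈ Icc (0:ℝ) 1 ∧ z.2 ∈ Icc (0:ℝ) 1) ∧ dist (a z.1) (b z.2) < ε}

def Fol (ε : ℝ) (a b : ℝ → E) : Prop := JoinedIn (Dm ε a b) (0, 0) (1, 1)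

def Fol0 (ε : ℝ) (a b : ℝ → E) : Prop := JoinedIn (Dm ε a b) (0, 0) (0, 1)

noncomputable def cat (a b : ℝ → E) (t : ℝ) : E := if t ≤ 1 / 2 then a (2 * t) else b (2 * t - 1)

noncomputable def loop (a : ℝ → E) : ℝ → E := cat (fun t => a (1 - t)) a

omit [MetricSpace E] in
theorem cat_l (a b : ℝ → E) {t : ℝ} (h : t ≤ 1) : cat a b (t / 2) = a t := by
  rw [cat, if_pos (by linarith)]; congr 1; ring

omit [MetricSpace E] in
theorem cat_r {a b : ℝ → E} (e : a 1 = b 0) {t : ℝ} (h : 0 ≤ t) : cat a b ((1 + t) / 2) = b t := by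
  rcases h.eq_or_lt with rfl | h
  · rw [add_zero, cat_l a b le_rfl, e]
  · rw [cat, if_neg (by linarith)]; congr 1; ring

theorem cat_cont {a b : ℝ → E} (ha : Continuous a) (hb : Continuous b) (e : a 1 = b 0) :
    Continuous (cat a b) :=
  Continuous.if_le (by fun_prop) (by fun_prop) continuous_id continuous_const
    (fun t h => by rw [h]; norm_num [e])

theorem emb {ε : ℝ} {a b a' b' : ℝ → E} {x y u v : ℝ} (h : JoinedIn (Dm ε a b) (x, y) (u, v))
    {f g : ℝ → ℝ} (hf : Continuous f) (hg : Continuous g)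
    (h1 : ∀ t ∈ Icc (0:ℝ) 1, f t ∈ Icc (0:ℝ) 1 ∧ a' (f t) = a t)
    (h2 : ∀ t ∈ Icc (0:ℝ) 1, g t ∈ Icc (0:ℝ) 1 ∧ b' (g t) = b t) :
    JoinedIn (Dm ε a' b') (f x, g y) (f u, g v) := by
  refine (h.map (hf.prodMap hg)).mono ?_
  rintro _ ⟨z, ⟨⟨z1, z2⟩, z3⟩, rfl⟩
  refine And.intro ⟨(h1 _ z1).1, (h2 _ z2).1⟩ ?_
  show dist (a' (f z.1)) (b' (g z.2)) < ε
  rw [(h1 _ z1).2, (h2 _ z2).2]
  exact z3

omit [MetricSpace E] in
theorem hL (a b : ℝ → E) : ∀ t ∈ Icc (0:ℝ) 1, t / 2 ∈ Icc (0:ℝ) 1 ∧ cat a b (t / 2) = a t :=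
  fun t h => ⟨⟨by linarith [h.1], by linarith [h.2]⟩, cat_l a b h.2⟩

omit [MetricSpace E] in
theorem hR {a b : ℝ → E} (e : a 1 = b 0) :
    ∀ t ∈ Icc (0:ℝ) 1, (1 + t) / 2 ∈ Icc (0:ℝ) 1 ∧ cat a b ((1 + t) / 2) = b t :=
  fun t h => ⟨⟨by linarith [h.1], by linarith [h.2]⟩, cat_r e h.1⟩

omit [MetricSpace E] in
theorem hB (a : ℝ → E) :
    ∀ t ∈ Icc (0:ℝ) 1, (1 - t) / 2 ∈ Icc (0:ℝ) 1 ∧ loop a ((1 - t) / 2) = a t :=
  fun t h => ⟨⟨by linarith [h.2], by linarith [h.1]⟩, by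
    rw [loop, cat_l _ _ (by linarith [h.1])]; simp⟩

omit [MetricSpace E] in
theorem hF (a : ℝ → E) :
    ∀ t ∈ Icc (0:ℝ) 1, (1 + t) / 2 ∈ Icc (0:ℝ) 1 ∧ loop a ((1 + t) / 2) = a t :=
  hR (by simp)

theorem Fol.cat {ε : ℝ} {a b a' b' : ℝ → E} (h : Fol ε a a') (h' : Fol ε b b') (e : a 1 = b 0)
    (e' : a' 1 = b' 0) : Fol ε (cat a b) (cat a' b') := by
  have j1 := emb h (f := fun t => t / 2) (g := fun t => t / 2) (by fun_prop) (by fun_prop)
    (hL a b) (hL a' b')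
  have j2 := emb h' (f := fun t => (1 + t) / 2) (g := fun t => (1 + t) / 2) (by fun_prop)
    (by fun_prop) (hR e) (hR e')
  norm_num at j1 j2
  exact j1.trans j2

theorem Fol0.cat {ε : ℝ} {a b a' b' : ℝ → E} (h : Fol0 ε a a') (h' : Fol ε (cat a b) b')
    (e' : a' 1 = b' 0) : Fol ε (cat a b) (cat a' b') := by
  have j1 := emb h (f := fun t => t / 2) (g := fun t => t / 2) (by fun_prop) (by fun_prop)
    (hL a b) (hL a' b')
  have j2 := emb h' (a' := WcA.cat a b) (f := fun t => t) (g := fun t => (1 + t) / 2) (by fun_prop)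
    (by fun_prop) (fun t h => ⟨h, rfl⟩) (hR e')
  norm_num at j1 j2
  exact j1.trans j2

theorem Fol.loop {ε : ℝ} {a a' : ℝ → E} (h : Fol ε a a') :
    Fol ε (loop a) (loop a') ∧ Fol0 ε (loop a) (loop a') := by
  have j1 := emb h (f := fun t => (1 - t) / 2) (g := fun t => (1 - t) / 2) (by fun_prop)
    (by fun_prop) (hB a) (hB a')
  have j2 := emb h (f := fun t => (1 + t) / 2) (g := fun t => (1 + t) / 2) (by fun_prop)
    (by fun_prop) (hF a) (hF a')
  have j3 := emb h (f := fun t => (1 - t) / 2) (g := fun t => (1 + t) / 2) (by fun_prop)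
    (by fun_prop) (hB a) (hF a')
  norm_num at j1 j2 j3
  exact ⟨j1.symm.trans j2, j1.symm.trans j3⟩

variable {C : Type}

noncomputable def Wl (x : E) (leg : C → ℝ → E) : List C → ℝ → E
  | [] => fun _ => x
  | c :: l => cat (loop (leg c)) (Wl x leg l)

omit [MetricSpace E] in
theorem loop0 (a : ℝ → E) : loop a 0 = a 1 := by simpa using (hB a 1 (by simp)).2

omit [MetricSpace E] in
theorem loop1 (a : ℝ → E) : loop a 1 = a 1 := by simpa using (hF a 1 (by simp)).2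

omit [MetricSpace E] in
theorem Wl0 {x : E} {leg : C → ℝ → E} (h : ∀ c, leg c 1 = x) (l : List C) : Wl x leg l 0 = x := by
  cases l with
  | nil => rfl
  | cons c l => simpa [Wl, loop0, h] using cat_l (loop (leg c)) (Wl x leg l) (t := 0) zero_le_one

theorem Wl_cont {x : E} {leg : C → ℝ → E} (h : ∀ c, leg c 1 = x) (hc : ∀ c, Continuous (leg c))
    (l : List C) : Continuous (Wl x leg l) := by
  induction l with
  | nil => exact continuous_const
  | cons c l ih =>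
    exact cat_cont (cat_cont ((hc c).comp (by fun_prop)) (hc c) (by simp)) ih
      (by rw [loop1, h, Wl0 h])

omit [MetricSpace E] in
theorem Wl_prop {x : E} {leg : C → ℝ → E} {Q : E → Prop} (hx : Q x) (h : ∀ c t, Q (leg c t))
    (l : List C) : ∀ t, Q (Wl x leg l t) := by
  induction l with
  | nil => exact fun _ => hx
  | cons c l ih =>
    intro t
    simp only [Wl, cat, loop]
    split_ifs
    · exact h _ _
    · exact h _ _
    · exact ih _

omit [MetricSpace E] in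
theorem Wl_tip {x : E} {leg : C → ℝ → E} (h : ∀ c, leg c 1 = x) (l : List C) :
    ∀ c ∈ l, ∃ t ∈ Icc (0:ℝ) 1, Wl x leg l t = leg c 0 := by
  induction l with
  | nil => simp
  | cons d l ih =>
    intro c hc
    rcases List.mem_cons.1 hc with rfl | hc
    · obtain ⟨a, b⟩ := hB (leg c) 0 (by simp)
      obtain ⟨a', b'⟩ := hL (loop (leg c)) (Wl x leg l) _ a
      exact ⟨_, a', b'.trans b⟩
    · obtain ⟨t, a, b⟩ := ih c hc
      obtain ⟨a', b'⟩ := hR (a := loop (leg d)) (b := Wl x leg l) (by rw [loop1, h, Wl0 h]) _ a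
      exact ⟨_, a', b'.trans b⟩

theorem refine_one {ε : ℝ} {x : E} {leg' : C → ℝ → E} (h' : ∀ c, leg' c 1 = x) {a b : ℝ → E}
    (e : a 1 = b 0) {r : List C} (hb : Fol ε b (Wl x leg' r)) (l : List C) (c : C)
    (hl : ∀ d ∈ c :: l, Fol ε a (leg' d)) : Fol ε (cat (loop a) b) (Wl x leg' (c :: l ++ r)) := by
  induction l generalizing c with
  | nil => exact (hl c (by simp)).loop.1.cat hb (by rw [loop1, e]) (by rw [loop1, h', Wl0 h'])
  | cons d l ih =>
    exact (hl c (by simp)).loop.2.cat (ih d fun k hk => hl k (List.mem_cons_of_mem _ hk))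
      (by rw [loop1, h', Wl0 h'])

theorem refine {ε : ℝ} (hε : 0 < ε) {x : E} {leg leg' : C → ℝ → E} (h : ∀ c, leg c 1 = x)
    (h' : ∀ c, leg' c 1 = x) (ch : C → List C) (hne : ∀ c, ch c ≠ [])
    (hch : ∀ c, ∀ d ∈ ch c, Fol ε (leg c) (leg' d)) (l : List C) :
    Fol ε (Wl x leg l) (Wl x leg' (l.flatMap ch)) := by
  induction l with
  | nil =>
    refine JoinedIn.ofLine (f := fun t => (t, t)) (by fun_prop) rfl rfl ?_
    rintro _ ⟨t, ht, rfl⟩
    exact And.intro ⟨ht, ht⟩ (by simpa [Wl] using hε)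
  | cons c l ih =>
    obtain ⟨d, k, hk⟩ := List.exists_cons_of_ne_nil (hne c)
    rw [List.flatMap_cons, hk]
    exact refine_one h' (by rw [h, Wl0 h]) ih k d (hk ▸ hch c)

def Rp (u : ℝ → ℝ) : Prop := Continuous u ∧ (∀ t, u t ∈ Icc (0:ℝ) 1) ∧ u 0 = 0 ∧ u 1 = 1

noncomputable def cl (x : ℝ) : ℝ := max 0 (min 1 x)

@[fun_prop] theorem cl_cont : Continuous cl := by unfold cl; fun_prop

theorem cl_mem (x : ℝ) : cl x ∈ Icc (0:ℝ) 1 :=
  ⟨le_max_left _ _, max_le zero_le_one (min_le_left _ _)⟩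

theorem cl_of_le {x : ℝ} (h : x ≤ 0) : cl x = 0 := max_eq_left ((min_le_right _ _).trans h)

theorem cl_of_ge {x : ℝ} (h : 1 ≤ x) : cl x = 1 := by simp [cl, h]

theorem cl_of_mem {x : ℝ} (h : x ∈ Icc (0:ℝ) 1) : cl x = x := by simp [cl, h.1, h.2]

theorem cl_lip (x y : ℝ) : |cl x - cl y| ≤ |x - y| := by
  unfold cl
  rw [max_comm 0, max_comm 0, min_comm 1, min_comm 1]
  exact (abs_max_sub_max_le_abs _ _ _).trans (by
    simpa using abs_min_sub_min_le_max x 1 y 1)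

theorem rp_cl : Rp cl := ⟨cl_cont, cl_mem, cl_of_le le_rfl, cl_of_ge le_rfl⟩

theorem mountain {u s : ℝ → ℝ} (hu : Rp u) (hs : Rp s) {η : ℝ} (hη : 0 < η) :
    ∃ τ θ, Rp τ ∧ Rp θ ∧ ∀ t, |u (τ t) - s (θ t)| < η := by
  let X : (ℝ → ℝ) → ℝ → ℝ := fun u x => u (cl x) + (x - cl x)
  have X0 : ∀ u, Rp u → ∀ x, x ≤ 0 → X u x = x := fun u hu x h => by
    simp [X, cl_of_le h, hu.2.2.1]
  have X1 : ∀ u, Rp u → ∀ x, 1 ≤ x → X u x = x := fun u hu x h => by
    simp [X, cl_of_ge h, hu.2.2.2]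
  have Xm : ∀ u, Rp u → ∀ x ∈ Icc (0:ℝ) 1, X u x = u x := fun u hu x h => by
    simp [X, cl_of_mem h]
  have Xc : ∀ u, Rp u → ∀ x, cl (X u x) = u (cl x) := fun u hu x => by
    rcases le_total x 0 with h | h
    · rw [X0 u hu x h, cl_of_le h, hu.2.2.1]
    rcases le_total 1 x with h' | h'
    · rw [X1 u hu x h', cl_of_ge h', hu.2.2.2]
    · rw [Xm u hu x ⟨h, h'⟩, cl_of_mem ⟨h, h'⟩, cl_of_mem (hu.2.1 x)]
  have Xb : ∀ x ∈ Icc (-1:ℝ) 2, X u x ∈ Icc (-1:ℝ) 2 := fun x hx => by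
    rcases le_total x 0 with h | h
    · rwa [X0 u hu x h]
    rcases le_total 1 x with h' | h'
    · rwa [X1 u hu x h']
    · rw [Xm u hu x ⟨h, h'⟩]
      exact ⟨by linarith [(hu.2.1 x).1], by linarith [(hu.2.1 x).2]⟩
  have c1 := hu.1
  have c2 := hs.1
  have hc : Continuous fun z : ℝ × ℝ => X u z.1 - X s z.2 := by simp only [X]; fun_prop
  have : SpanB.HC (fun z => |X u z.1 - X s z.2|) (min η 1) (-1) 2 (-1) 2 := by
    by_contra hn
    obtain ⟨K, k1, -, k3, ⟨p, p1, p2⟩, q, q1, q2⟩ := SpanB.dual hc.abs (by norm_num) (by norm_num) hn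
    have p3 : p.2 ≤ -1 := p2
    have q3 : 2 ≤ q.2 := q2
    obtain ⟨z, z1, z2⟩ := k3.2.intermediate_value q1 p1 hc.continuousOn (show (0:ℝ) ∈ _ from ⟨by
      rw [X1 s hs _ (by linarith)]; linarith [(Xb _ (k1 q1).1.1).2], by
      rw [X0 s hs _ (by linarith)]; linarith [(Xb _ (k1 p1).1.1).1]⟩)
    have : min η 1 ≤ |X u z.1 - X s z.2| := (k1 z1).2
    simp only at z2
    rw [z2, abs_zero] at this
    linarith [lt_min hη one_pos]
  obtain ⟨γ, g1, g2, g3, g4⟩ := this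
  refine ⟨fun t => cl (γ t).1, fun t => cl (γ t).2,
    ⟨by fun_prop, fun t => cl_mem _, cl_of_le (by rw [g2]; norm_num), cl_of_ge (by rw [g3]; norm_num)⟩,
    ⟨by fun_prop, fun t => cl_mem _, ?_, ?_⟩, fun t => ?_⟩
  · have := (abs_lt.1 ((g4 0).2.trans_le (min_le_right _ _))).1
    rw [g2, X0 u hu _ (by norm_num)] at this
    have h2 := Xc s hs (γ 0).2
    by_contra hne
    have h3 : 0 < (γ 0).2 := not_le.1 fun h => hne (cl_of_le h)
    rcases le_total 1 (γ 0).2 with h | h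
    · rw [X1 s hs _ h] at this; linarith
    · rw [Xm s hs _ ⟨h3.le, h⟩] at this; linarith [(hs.2.1 (γ 0).2).1]
  · have := (abs_lt.1 ((g4 1).2.trans_le (min_le_right _ _))).2
    rw [g3, X1 u hu _ (by norm_num)] at this
    by_contra hne
    have h3 : (γ 1).2 < 1 := not_le.1 fun h => hne (cl_of_ge h)
    rcases le_total (γ 1).2 0 with h | h
    · rw [X0 s hs _ h] at this; linarith
    · rw [Xm s hs _ ⟨h, h3.le⟩] at this; linarith [(hs.2.1 (γ 1).2).2]
  · rw [← Xc u hu, ← Xc s hs]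
    exact (cl_lip _ _).trans_lt ((g4 t).2.trans_le (min_le_left _ _))

theorem Rp.surj {u : ℝ → ℝ} (hu : Rp u) {x : ℝ} (hx : x ∈ Icc (0:ℝ) 1) :
    ∃ t ∈ Icc (0:ℝ) 1, u t = x :=
  intermediate_value_Icc zero_le_one hu.1.continuousOn (by rw [hu.2.2.1, hu.2.2.2]; exact hx)

theorem step {ε : ℝ} (hε : 0 < ε) {a b : ℝ → E} (ha : Continuous a) (h : Fol ε a b) {u : ℝ → ℝ}
    (hu : Rp u) : ∃ s v, Rp s ∧ Rp v ∧ ∀ t, dist (a (u (s t))) (b (v t)) ≤ 2 * ε := by
  obtain ⟨γ, hγ⟩ := h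
  have gm : ∀ t, γ.extend t ∈ Dm ε a b := fun t => hγ _
  have gc := γ.continuous_extend
  obtain ⟨η, hη, h1⟩ := Metric.uniformContinuousOn_iff.1
    ((isCompact_Icc (a := (0:ℝ)) (b := 1)).uniformContinuousOn_of_continuous ha.continuousOn) ε hε
  obtain ⟨τ, θ, h2, h3, h4⟩ := mountain hu (s := fun t => (γ.extend t).1)
    ⟨gc.fst, fun t => (gm t).1.1, by simp, by simp⟩ hη
  refine ⟨τ, fun t => (γ.extend (θ t)).2, h2,
    ⟨(gc.comp h3.1).snd, fun t => (gm _).1.2, by simp [h3.2.2.1], by simp [h3.2.2.2]⟩, fun t => ?_⟩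
  have a1 := h1 _ (hu.2.1 _) _ (gm (θ t)).1.1 (h4 t)
  have a2 := (gm (θ t)).2
  linarith [dist_triangle (a (u (τ t))) (a (γ.extend (θ t)).1) (b (γ.extend (θ t)).2)]

def WC (M : Set E) : Prop :=
  ∃ (Y : Type) (_ : MetricSpace Y), CompactSpace Y ∧ ConnectedSpace Y ∧
    (∀ ε : ℝ, ε > 0 → ∃ g : Y → ℝ, Continuous g ∧ ∀ r : ℝ, Metric.diam (g ⁻¹' {r}) < ε) ∧
    ∃ f : Y → E, Continuous f ∧ range f = M

def cmp {I : Type} (s : ℕ → I → I) : ℕ → ℕ → I → I
  | 0, _ => id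
  | k + 1, n => s n ∘ cmp s k (n + 1)

theorem invlim (s : ℕ → unitInterval → unitInterval) (hc : ∀ n, Continuous (s n))
    (hs : ∀ n, Function.Surjective (s n)) : ∃ Z : Set (ℕ → unitInterval), IsCompact Z ∧
      IsConnected Z ∧ (∀ y ∈ Z, ∀ n, y n = s n (y (n + 1))) ∧ ∀ n t, ∃ y ∈ Z, y n = t := by
  letI := metrizableSpaceMetric (ℕ → unitInterval)
  have cc : ∀ k n, Continuous (cmp s k n) ∧ Function.Surjective (cmp s k n) := by
    intro k
    induction k with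
    | zero => exact fun n => ⟨continuous_id, Function.surjective_id⟩
    | succ k ih => exact fun n => ⟨(hc n).comp (ih _).1, (hs n).comp (ih _).2⟩
  let S : ℕ → Set (NonemptyCompacts (ℕ → unitInterval)) := fun N =>
    {K | IsPreconnected (K : Set (ℕ → unitInterval))} ∩
      ({K | (K : Set (ℕ → unitInterval)) ⊆ ⋂ m < N, {y | y m = s m (y (m + 1))}} ∩
        ⋂ m < N, ⋂ t, {K | ((K : Set (ℕ → unitInterval)) ∩ {y | y m = t}).Nonempty})
  have Sc : ∀ N, IsClosed (S N) := fun N => H33.Contin.closed_conn.inter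
    ((NonemptyCompacts.isClosed_subsets_of_isClosed (isClosed_biInter fun m _ =>
      isClosed_eq (continuous_apply m) ((hc m).comp (continuous_apply _)))).inter
      (isClosed_biInter fun m _ => isClosed_iInter fun t =>
        NonemptyCompacts.isClosed_inter_nonempty_of_isClosed
          (isClosed_eq (continuous_apply m) continuous_const)))
  obtain ⟨K, hK⟩ := IsCompact.nonempty_iInter_of_sequence_nonempty_isCompact_isClosed S
    (fun N K hK => ⟨hK.1, fun y hy => mem_iInter₂.2 fun m hm =>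
      mem_iInter₂.1 (hK.2.1 hy) m (Nat.lt_succ_of_lt hm), mem_iInter₂.2 fun m hm =>
        mem_iInter₂.1 hK.2.2 m (Nat.lt_succ_of_lt hm)⟩)
    (fun N => by
      have hψ : Continuous fun (t : unitInterval) (m : ℕ) => cmp s (N - m) m t :=
        continuous_pi fun m => (cc _ _).1
      refine ⟨⟨⟨_, isCompact_range hψ⟩, range_nonempty _⟩, isPreconnected_range hψ, ?_,
        mem_iInter₂.2 fun m _ => mem_iInter.2 fun t => ?_⟩
      · rintro _ ⟨t, rfl⟩
        refine mem_iInter₂.2 fun m hm => ?_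
        show cmp s (N - m) m t = s m (cmp s (N - (m + 1)) (m + 1) t)
        rw [show N - m = N - (m + 1) + 1 by omega]
        rfl
      · obtain ⟨x, hx⟩ := (cc (N - m) m).2 t
        exact ⟨_, ⟨x, rfl⟩, hx⟩) (Sc 0).isCompact Sc
  rw [mem_iInter] at hK
  refine ⟨K, K.isCompact, ⟨K.nonempty, (hK 0).1⟩, fun y hy n =>
    mem_iInter₂.1 ((hK (n + 1)).2.1 hy) n (Nat.lt_succ_self n), fun n t => ?_⟩
  obtain ⟨y, a, b⟩ := mem_iInter.1 (mem_iInter₂.1 (hK (n + 1)).2.2 n (Nat.lt_succ_self n)) t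
  exact ⟨y, a, b⟩

theorem crit [CompleteSpace E] {M : Set E} (hM : IsClosed M) (hne : M.Nonempty) (w : ℕ → ℝ → E)
    (wc : ∀ n, Continuous (w n)) (hF : ∀ n, Fol ((1 / 2) ^ n) (w n) (w (n + 1)))
    (h1 : ∀ n t, infDist (w n t) M ≤ (1 / 2) ^ n)
    (h2 : ∀ n, ∀ m ∈ M, ∃ t ∈ Icc (0:ℝ) 1, dist (w n t) m ≤ (1 / 2) ^ n) : WC M := by
  choose S V hS hV hd using fun n (u : {u // Rp u}) => step (by positivity) (wc n) (hF n) u.2
  let u : ℕ → {u // Rp u} := fun n => Nat.rec ⟨cl, rp_cl⟩ (fun n u => ⟨V n u, hV n u⟩) n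
  let s : ℕ → unitInterval → unitInterval := fun n t => ⟨S n (u n) t, (hS n (u n)).2.1 t⟩
  obtain ⟨Z, zk, zc, z1, z2⟩ := invlim s
    (fun n => ((hS n (u n)).1.comp continuous_subtype_val).subtype_mk _) (fun n x => by
      obtain ⟨t, a, b⟩ := (hS n (u n)).surj x.2
      exact ⟨⟨t, a⟩, Subtype.ext b⟩)
  have : CompactSpace Z := isCompact_iff_compactSpace.1 zk
  have : ConnectedSpace Z := isConnected_iff_connectedSpace.1 zc
  have pc : ∀ n, Continuous fun y : Z => (y.1 n : ℝ) := fun n =>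
    continuous_subtype_val.comp ((continuous_apply n).comp continuous_subtype_val)
  let G : ℕ → C(Z, E) := fun n => ⟨fun y => w n ((u n).1 (y.1 n)), (wc n).comp ((u n).2.1.comp (pc n))⟩
  have hG : ∀ n, dist (G n) (G (n + 1)) ≤ 2 * (1 / 2) ^ n := fun n =>
    (ContinuousMap.dist_le (by positivity)).2 fun y => by
      have := hd n (u n) (y.1 (n + 1))
      show dist (w n ((u n).1 (y.1 n))) _ ≤ _
      rw [z1 y.1 y.2 n]
      exact this
  obtain ⟨F, hF⟩ := cauchySeq_tendsto_of_complete (cauchySeq_of_le_geometric _ _ (by norm_num) hG)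
  have hb : ∀ n y, dist (G n y) (F y) ≤ 4 * (1 / 2) ^ n := fun n y =>
    (ContinuousMap.dist_apply_le_dist y).trans
      ((dist_le_of_le_geometric_of_tendsto _ _ (by norm_num) hG hF n).trans (by
        rw [div_le_iff₀ (by norm_num)]; linarith))
  have lim : ∀ x : ℝ, (∀ n : ℕ, x ≤ 5 * (1 / 2) ^ n) → x ≤ 0 := fun x h =>
    ge_of_tendsto' (by simpa using (tendsto_pow_atTop_nhds_zero_of_lt_one (r := (1 / 2 : ℝ))
      (by norm_num) (by norm_num)).const_mul 5) h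
  letI := metrizableSpaceMetric Z
  refine ⟨Z, inferInstance, inferInstance, inferInstance, fun ε hε => ?_, F, F.continuous, ?_⟩
  · by_contra hn
    push Not at hn
    obtain ⟨z, hz⟩ := IsCompact.nonempty_iInter_of_sequence_nonempty_isCompact_isClosed
      (fun n => {z : Z × Z | (z.1.1 n : ℝ) = z.2.1 n ∧ ε / 2 ≤ dist z.1 z.2})
      (fun n z hz => And.intro (by
        rw [z1 _ z.1.2 n, z1 _ z.2.2 n, Subtype.ext hz.1]) hz.2)
      (fun n => by
        obtain ⟨r, hr⟩ := hn _ (pc n)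
        by_contra h
        have := diam_le_of_forall_dist_le (s := (fun y : Z => (y.1 n : ℝ)) ⁻¹' {r}) (C := ε / 2)
          (by linarith) fun x hx y hy => not_lt.1 fun h' =>
            h ⟨(x, y), And.intro (hx.trans hy.symm) h'.le⟩
        linarith)
      (IsClosed.isCompact (IsClosed.and (isClosed_eq ((pc 0).comp continuous_fst)
        ((pc 0).comp continuous_snd)) (isClosed_le continuous_const continuous_dist)))
      (fun n => IsClosed.and (isClosed_eq ((pc n).comp continuous_fst)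
        ((pc n).comp continuous_snd)) (isClosed_le continuous_const continuous_dist))
    rw [mem_iInter] at hz
    have e : z.1 = z.2 := Subtype.ext (funext fun n => Subtype.ext (hz n).1)
    have := (hz 0).2
    rw [e, dist_self] at this
    linarith
  · apply Subset.antisymm
    · rintro _ ⟨y, rfl⟩
      refine (hM.mem_iff_infDist_zero hne).2 (le_antisymm (lim _ fun n => ?_) infDist_nonneg)
      have a1 := infDist_le_infDist_add_dist (s := M) (x := F y) (y := G n y)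
      have a2 := hb n y
      have a3 : infDist (G n y) M ≤ _ := h1 n _
      rw [dist_comm] at a2
      linarith
    · intro m hm
      refine ((isCompact_range F.continuous).isClosed.mem_iff_infDist_zero (range_nonempty _)).2
        (le_antisymm (lim _ fun n => ?_) infDist_nonneg)
      obtain ⟨t, t1, t2⟩ := h2 n m hm
      obtain ⟨r, r1, rfl⟩ := (u n).2.surj t1
      obtain ⟨y, y1, y2⟩ := z2 n ⟨r, r1⟩
      have a1 := infDist_le_dist_of_mem (x := m) (mem_range_self (f := F) ⟨y, y1⟩)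
      have a2 := hb n ⟨y, y1⟩
      have a3 : G n ⟨y, y1⟩ = w n ((u n).1 r) := by
        show w n ((u n).1 (y n)) = _
        rw [y2]
      rw [a3] at a2
      linarith [dist_triangle_left m (F ⟨y, y1⟩) (w n ((u n).1 r))]

end Pool.Agent.H82.WcA
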