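import Mathlib
import Pool.Agent.H82.WcA
import Pool.Agent.H82.SpanA
import Pool.Agent.H82.KFive

/-! A general theorem producing weakly chainable continua from paths of continua. -/

set_option autoImplicit false

namespace Pool.Agent.H82.WcB

open Set Topology TopologicalSpace Metric Filter SpanB WcA

section
variable {V E : Type} [MetricSpace V] [MetricSpace E]

theorem inf_le (x : V) (A B : NonemptyCompacts V) : infDist x B ≤ infDist x A + dist A B :=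
  infDist_le_infDist_add_hausdorffDist (hausdorffEDist_ne_top_of_nonempty_of_bounded A.nonempty
    B.nonempty A.isCompact.isBounded B.isCompact.isBounded)

theorem near {x : V} {B : NonemptyCompacts V} {r : ℝ} (h : infDist x B ≤ r) :
    ∃ y ∈ (B : Set V), dist x y ≤ r := by
  obtain ⟨y, a, b⟩ := B.isCompact.exists_infDist_eq_dist B.nonempty x
  exact ⟨y, a, b ▸ h⟩

theorem near' {x : V} {A B : NonemptyCompacts V} {r : ℝ} (hx : x ∈ (A : Set V))
    (h : dist A B ≤ r) : ∃ y ∈ (B : Set V), dist x y ≤ r :=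
  near (by have := inf_le x A B; rw [infDist_zero_of_mem hx] at this; linarith)

theorem seq_compact {M : Set V} (hM : IsCompact M) (hne : M.Nonempty) {C : ℕ → Set V}
    (hC : ∀ n, IsCompact (C n)) (h : ∀ n, ∀ x ∈ C n, infDist x M ≤ 1 / ((n:ℝ) + 1)) :
    IsCompact (M ∪ ⋃ n, C n) := by
  refine isCompact_of_finite_subcover fun {ι} U hU hcov => ?_
  classical
  obtain ⟨t, ht⟩ := hM.elim_finite_subcover U hU (subset_union_left.trans hcov)
  obtain ⟨δ, hδ, hδ'⟩ := hM.exists_thickening_subset_open (isOpen_biUnion fun i _ => hU i) ht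
  obtain ⟨N, hN⟩ := exists_nat_one_div_lt hδ
  obtain ⟨t', ht'⟩ := ((finite_Iic N).isCompact_biUnion fun n _ => hC n).elim_finite_subcover U hU
    (((iUnion₂_subset fun n _ => subset_iUnion C n).trans subset_union_right).trans hcov)
  refine ⟨t ∪ t', ?_⟩
  have s1 : (⋃ i ∈ t, U i) ⊆ ⋃ i ∈ t ∪ t', U i :=
    biUnion_subset_biUnion_left fun i hi => Finset.mem_union_left _ hi
  have s2 : (⋃ i ∈ t', U i) ⊆ ⋃ i ∈ t ∪ t', U i :=
    biUnion_subset_biUnion_left fun i hi => Finset.mem_union_right _ hi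
  rintro x (hx | hx)
  · exact s1 (ht hx)
  · obtain ⟨n, hn⟩ := mem_iUnion.1 hx
    rcases le_total n N with h' | h'
    · exact s2 (ht' (mem_iUnion₂.2 ⟨n, h', hn⟩))
    · exact s1 (hδ' ((mem_thickening_iff_infDist_lt hne).2
        (((h n x hn).trans (Nat.one_div_le_one_div h')).trans_lt hN)))

def Semi (φ : V → E) (𝒦 : Set (NonemptyCompacts V)) : Prop :=
  ∀ K ∈ 𝒦, ∀ Z ⊆ (K : Set V) ×ˢ (K : Set V), IsCompact Z → IsConnected Z →
    (K : Set V) ⊆ Prod.snd '' Z → ∃ z ∈ Z, φ z.1 = φ z.2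

def Crs (φ : V → E) (𝒦 : Set (NonemptyCompacts V)) (ε δ : ℝ) : Prop :=
  ∀ K ∈ 𝒦, ∀ p q : ℝ → V, Continuous p → Continuous q → ∀ a b c d : ℝ,
    a ≤ b → c < d → (∀ s ∈ Icc a b, infDist (p s) K ≤ δ) → (∀ s ∈ Icc c d, infDist (q s) K ≤ δ) →
    (∀ m ∈ (K : Set V), ∃ u ∈ Icc c d, dist (q u) m ≤ δ) →
    HC (fun z => dist (φ (p z.1)) (φ (q z.2))) ε a b c d

theorem cross {φ : V → E} (hφ : Continuous φ) {𝒦 : Set (NonemptyCompacts V)} (hK : IsCompact 𝒦)
    (H : Semi φ 𝒦) {ε : ℝ} (hε : 0 < ε) : ∃ δ > 0, Crs φ 𝒦 ε δ := by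
  by_contra hn
  have ex : ∀ n : ℕ, ∃ K ∈ 𝒦, ∃ Z : NonemptyCompacts (V × V), IsPreconnected (Z : Set (V × V)) ∧
      (∀ z ∈ (Z : Set (V × V)), infDist z.1 K ≤ 1 / ((n:ℝ) + 1) ∧ infDist z.2 K ≤ 1 / ((n:ℝ) + 1) ∧
        ε ≤ dist (φ z.1) (φ z.2)) ∧
      ∀ m ∈ (K : Set V), ∃ z ∈ (Z : Set (V × V)), dist m z.2 ≤ 1 / ((n:ℝ) + 1) := by
    intro n
    have := fun h => hn ⟨1 / ((n:ℝ) + 1), Nat.one_div_pos_of_nat, h⟩
    simp only [Crs, imp_false] at this
    push Not at this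
    obtain ⟨K, hK, p, q, hp, hq, a, b, c, d, hab, hcd, h1, h2, h3, h4⟩ := this
    obtain ⟨Z, k1, k2, k3, ⟨x, k4, k5⟩, y, k6, k7⟩ := dual (by fun_prop) hab hcd h4
    have hc : Continuous (Prod.map p q) := hp.prodMap hq
    refine ⟨K, hK, ⟨⟨Prod.map p q '' Z, k2.image hc⟩, k3.1.image _⟩,
      k3.2.image _ hc.continuousOn, ?_, fun m hm => ?_⟩
    · rintro _ ⟨z, hz, rfl⟩
      exact ⟨h1 _ (k1 hz).1.1, h2 _ (k1 hz).1.2, (k1 hz).2⟩
    · obtain ⟨u, hu, hu'⟩ := h3 m hm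
      obtain ⟨z, hz, e⟩ := k3.2.intermediate_value k4 k6 continuous_snd.continuousOn
        ⟨le_trans k5 hu.1, le_trans hu.2 k7⟩
      exact ⟨_, ⟨z, hz, rfl⟩, show dist m (q z.2) ≤ _ by rw [e, dist_comm]; exact hu'⟩
  choose K hK' Z z1 z2 z3 using ex
  have hT := NonemptyCompacts.isCompact_biUnion_coe_of_isCompact hK
  have hT' := seq_compact (hT.prod hT) (C := fun n => Z n) (by
    obtain ⟨x, hx⟩ := (K 0).nonempty
    exact ⟨(x, x), mem_iUnion₂.2 ⟨_, hK' 0, hx⟩, mem_iUnion₂.2 ⟨_, hK' 0, hx⟩⟩)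
    (fun n => (Z n).isCompact) (fun n z hz => by
      obtain ⟨x, x1, x2⟩ := near (z2 n z hz).1
      obtain ⟨y, y1, y2⟩ := near (z2 n z hz).2.1
      exact (infDist_le_dist_of_mem (mk_mem_prod
        (mem_iUnion₂.2 ⟨_, hK' n, x1⟩) (mem_iUnion₂.2 ⟨_, hK' n, y1⟩))).trans (max_le x2 y2))
  obtain ⟨⟨W, L⟩, ⟨-, hL⟩, ψ, hψ, ht⟩ :=
    ((NonemptyCompacts.isCompact_subsets_of_isCompact hT').prod hK).tendsto_subseq
      (x := fun n => (Z n, K n)) fun n => ⟨fun z hz => Or.inr (mem_iUnion.2 ⟨n, hz⟩), hK' n⟩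
  have t1 : Tendsto (fun n => Z (ψ n)) atTop (𝓝 W) := (continuous_fst.tendsto _).comp ht
  have lim : ∀ g : NonemptyCompacts (V × V) × NonemptyCompacts V → ℝ, Continuous g →
      (∀ n, g (Z n, K n) ≤ 1 / ((n:ℝ) + 1)) → g (W, L) ≤ 0 := fun g hg h =>
    le_of_tendsto_of_tendsto' ((hg.tendsto _).comp ht)
      (tendsto_one_div_add_atTop_nhds_zero_nat.comp hψ.tendsto_atTop) fun n => h _
  have c1 := continuous_fst.nonemptyCompacts_map (α := V × V)
  have c2 := continuous_snd.nonemptyCompacts_map (α := V × V)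
  have e1 := dist_le_zero.1 (lim (fun z => dist (z.1.map Prod.fst continuous_fst ⊔ z.2) z.2)
    (((c1.comp continuous_fst).sup continuous_snd).dist continuous_snd) fun n =>
      hausdorffDist_le_of_infDist (by positivity) (by
        rintro x (⟨z, hz, rfl⟩ | hx)
        · exact (z2 n z hz).1
        · exact (infDist_zero_of_mem hx).le.trans (by positivity))
        fun x hx => (infDist_zero_of_mem (mem_union_right _ hx)).le.trans (by positivity))
  have e2 := dist_le_zero.1 (lim (fun z => dist (z.1.map Prod.snd continuous_snd) z.2)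
    ((c2.comp continuous_fst).dist continuous_snd) fun n =>
      hausdorffDist_le_of_infDist (by positivity) (by
        rintro x ⟨z, hz, rfl⟩
        exact (z2 n z hz).2.1) fun x hx => by
          obtain ⟨z, a, b⟩ := z3 n x hx
          exact (infDist_le_dist_of_mem (mem_image_of_mem _ a)).trans b)
  have f1 : Prod.fst '' (W : Set (V × V)) ∪ L = L := congrArg SetLike.coe e1
  have f2 : Prod.snd '' (W : Set (V × V)) = L := congrArg SetLike.coe e2
  obtain ⟨z, hz, e⟩ := H L hL W (fun z hz => ⟨f1 ▸ Or.inl (mem_image_of_mem _ hz),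
    f2 ▸ mem_image_of_mem _ hz⟩) W.isCompact
    ⟨W.nonempty, H33.Contin.closed_conn.mem_of_tendsto t1 (Eventually.of_forall fun n => z1 _)⟩ f2.ge
  have : ε ≤ dist (φ z.1) (φ z.2) :=
    (NonemptyCompacts.isClosed_subsets_of_isClosed (F := {z : V × V | ε ≤ dist (φ z.1) (φ z.2)})
      (isClosed_le continuous_const (by fun_prop))).mem_of_tendsto t1
      (Eventually.of_forall fun n z hz => (z2 _ z hz).2.2) hz
  rw [e, dist_self] at this
  linarith

def Ad (a : ℝ → V) (K : ℝ → NonemptyCompacts V) (δ θ : ℝ) : Prop :=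
  ∀ s, 0 ≤ s → infDist (a s) (K s) ≤ δ ∧ ∀ k ∈ (K s : Set V), ∃ u ∈ Icc s (s + θ), dist (a u) k ≤ δ

theorem Ad.mono {a : ℝ → V} {K : ℝ → NonemptyCompacts V} {δ θ δ' θ' : ℝ} (h : Ad a K δ θ)
    (h1 : δ ≤ δ') (h2 : θ ≤ θ') : Ad a K δ' θ' := fun s hs =>
  ⟨(h s hs).1.trans h1, fun k hk => by
    obtain ⟨u, a, b⟩ := (h s hs).2 k hk
    exact ⟨u, ⟨a.1, by linarith [a.2]⟩, b.trans h1⟩⟩

def Nr (a : ℝ → V) (K : ℝ → NonemptyCompacts V) (δ θ : ℝ) : Prop :=
  ∀ s r, 0 ≤ s → |s - r| ≤ 2 * θ → infDist (a s) (K r) ≤ δ ∧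
    ∀ k ∈ (K r : Set V), ∃ u ∈ Icc s (s + θ), dist (a u) k ≤ δ

theorem Ad.nr {a : ℝ → V} {K K' : ℝ → NonemptyCompacts V} {δ θ : ℝ} (h : Ad a K' (δ / 3) θ)
    (h1 : ∀ s, 0 ≤ s → dist (K s) (K' s) ≤ δ / 3)
    (h2 : ∀ s r, |s - r| ≤ 2 * θ → dist (K s) (K r) ≤ δ / 3) : Nr a K δ θ := by
  intro s r hs hr
  have d : dist (K r) (K' s) ≤ 2 * δ / 3 := by
    linarith [dist_triangle_left (K r) (K' s) (K s), h1 s hs, h2 s r hr]
  refine ⟨by linarith [inf_le (a s) (K' s) (K r), (h s hs).1, dist_comm (K r) (K' s)],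
    fun k hk => ?_⟩
  obtain ⟨y, y1, y2⟩ := near' hk d
  obtain ⟨u, u1, u2⟩ := (h s hs).2 y y1
  exact ⟨u, u1, by linarith [dist_triangle_right (a u) k y]⟩

theorem fol {φ : V → E} (hφ : LipschitzWith 1 φ) {𝒦 : Set (NonemptyCompacts V)} {ε δ θ : ℝ}
    (hX : Crs φ 𝒦 ε δ) (hδ : 2 * δ < ε) (hθ : 0 < θ) {K : ℝ → NonemptyCompacts V}
    (hK : ∀ s, K s ∈ 𝒦) {v : V} (hv : (K 0 : Set V) = {v}) {p q : ℝ → V} (pc : Continuous p)
    (qc : Continuous q) (pl : ∀ s, p (cl s) = p s) (ql : ∀ s, q (cl s) = q s) (hp : Nr p K δ θ)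
    (hq : Nr q K δ θ) : Fol ε (φ ∘ p) (φ ∘ q) := by
  let a : ℕ → ℝ := fun n => n * θ
  have a1 : ∀ n, a (n + 1) = a n + θ := fun n => by simp only [a]; push_cast; ring
  have a2 : ∀ n, a (n + 2) = a n + 2 * θ := fun n => by simp only [a]; push_cast; ring
  have a0 : ∀ n, 0 ≤ a n := fun n => by positivity
  have w : ∀ {p : ℝ → V}, Nr p K δ θ → ∀ n s, a n ≤ s → s ≤ a n + 2 * θ →
      infDist (p s) (K (a n)) ≤ δ := fun hp n s h1 h2 =>
    (hp s _ ((a0 n).trans h1) (abs_le.2 ⟨by linarith, by linarith⟩)).1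
  choose c cc c0 c1 c2 using fun n => hX _ (hK (a n)) p q pc qc (a n) (a (n + 2)) (a n) (a (n + 1))
    (by linarith [a2 n]) (by linarith [a1 n]) (fun s hs => w hp n s hs.1 (a2 n ▸ hs.2))
    (fun s hs => w hq n s hs.1 (by linarith [a1 n, hs.2]))
    (by rw [a1]; exact (hq _ _ (a0 n) (by simp [hθ.le])).2)
  choose e ec e0 e1 e2 using fun n => hX _ (hK (a n)) q p qc pc (a n) (a (n + 2)) (a (n + 1))
    (a (n + 2)) (by linarith [a2 n]) (by linarith [a1 n, a2 n])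
    (fun s hs => w hq n s hs.1 (a2 n ▸ hs.2))
    (fun s hs => w hp n s (by linarith [a1 n, hs.1]) (a2 n ▸ hs.2))
    (by
      rw [a1 (n + 1)]
      exact (hp _ _ (a0 (n + 1)) (by rw [a1]; simp [abs_of_pos hθ]; linarith)).2)
  have m1 : ∀ n, ∃ s t, c n s = (e n t).swap := fun n =>
    meet (cc n) (continuous_swap.comp (ec n))
      (fun t => by rw [c0]; have := (e2 n t).1.2.1; simp; linarith [a1 n])
      (fun t => by rw [c1]; exact (e2 n t).1.2.2)
      (fun s => by have := (c2 n s).1.2.1; simpa [e0] using this)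
      (fun s => by have := (c2 n s).1.2.2; simp [e1]; linarith [a1 (n + 1)])
  have m2 : ∀ n, ∃ s t, c (n + 1) s = (e n t).swap := fun n =>
    meet (cc (n + 1)) (continuous_swap.comp (ec n))
      (fun t => by rw [c0]; exact (e2 n t).1.2.1)
      (fun t => by rw [c1]; have := (e2 n t).1.2.2; simp; linarith [a1 (n + 2)])
      (fun s => by have := (c2 (n + 1) s).1.2.1; simp [e0]; linarith [a1 n])
      (fun s => by have := (c2 (n + 1) s).1.2.2; simpa [e1] using this)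
  choose s1 t1 m1 using m1
  choose s2 t2 m2 using m2
  let O : Set (ℝ × ℝ) := {z | dist (φ (p z.1)) (φ (q z.2)) < ε}
  have J : ∀ n, JoinedIn O (0, 0) (c n (s1 n)) := by
    intro n
    induction n with
    | zero =>
      refine ((((convex_Icc (a 0) (a 2)).prod (convex_Icc (a 0) (a 1))).isPathConnected
        ⟨_, (c2 0 0).1⟩).joinedIn _ ⟨⟨by simp [a], a0 _⟩, by simp [a], a0 _⟩ _ (c2 0 _).1).mono ?_
      rintro z ⟨z1, z2⟩
      have b1 := w hp 0 z.1 z1.1 (a2 0 ▸ z1.2)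
      have b2 := w hq 0 z.2 z2.1 (by linarith [a1 0, z2.2])
      rw [show a 0 = 0 by simp [a], hv, infDist_singleton] at b1 b2
      have := hφ.dist_le_mul (p z.1) (q z.2)
      show dist _ _ < ε
      simp only [NNReal.coe_one, one_mul] at this
      linarith [dist_triangle_right (p z.1) (q z.2) v]
    | succ n ih =>
      have j1 : JoinedIn O (c n (s1 n)) (c (n + 1) (s2 n)) := by
        rw [m1, m2]
        refine ((isPathConnected_range (continuous_swap.comp (ec n))).joinedIn _ ⟨t1 n, rfl⟩ _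
          ⟨t2 n, rfl⟩).mono ?_
        rintro _ ⟨t, rfl⟩
        show dist _ _ < ε
        rw [dist_comm]; exact (e2 n t).2
      refine (ih.trans j1).trans (((isPathConnected_range (cc (n + 1))).joinedIn _ ⟨s2 n, rfl⟩ _
        ⟨s1 (n + 1), rfl⟩).mono ?_)
      rintro _ ⟨t, rfl⟩
      exact (c2 (n + 1) t).2
  obtain ⟨n, hn⟩ := exists_nat_ge (1 / θ)
  have hn' : 1 ≤ a n := (div_le_iff₀ hθ).1 hn
  have := ((J n).map (cl_cont.prodMap cl_cont)).mono (V := Dm ε (φ ∘ p) (φ ∘ q)) (by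
    rintro _ ⟨z, hz, rfl⟩
    refine And.intro ⟨cl_mem _, cl_mem _⟩ ?_
    show dist (φ (p (cl z.1))) (φ (q (cl z.2))) < ε
    rw [pl, ql]; exact hz)
  simpa [Fol, Prod.map, cl_of_le, cl_of_ge (hn'.trans (c2 n (s1 n)).1.1.1),
    cl_of_ge (hn'.trans (c2 n (s1 n)).1.2.1)] using this

end

theorem concat2 {α : Type} [TopologicalSpace α] (P : ℕ → α) (γ : ∀ n, Path (P n) (P (n + 1))) :
    ∃ c : ℝ → α, Continuous c ∧ ∀ n : ℕ, ∀ t ∈ Icc (n:ℝ) (n + 1), c t = (γ n).extend (t - n) := by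
  let c : ℝ → α := fun t => (γ ⌊t⌋₊).extend (t - ⌊t⌋₊)
  have hc : ∀ n : ℕ, ∀ t ≤ (n:ℝ) + 1, (n = 0 ∨ (n:ℝ) ≤ t) → c t = (γ n).extend (t - n) := by
    intro n t h1 h2
    rcases h1.eq_or_lt with rfl | h1
    · have : ⌊(n:ℝ) + 1⌋₊ = n + 1 := by exact_mod_cast Nat.floor_natCast (R := ℝ) (n + 1)
      simp only [c]
      rw [this]
      simp
    · have : ⌊t⌋₊ = n := by
        rcases h2 with rfl | h2
        · exact Nat.floor_eq_zero.2 (by simpa using h1)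
        · exact (Nat.floor_eq_iff (le_trans (Nat.cast_nonneg n) h2)).2 ⟨h2, h1⟩
      simp only [c]
      rw [this]
  have hc2 : ∀ n : ℕ, ContinuousOn c (Iic ((n:ℝ) + 1)) := by
    intro n
    have cn : ∀ n : ℕ, Continuous fun t : ℝ => (γ n).extend (t - n) := fun n =>
      (γ n).continuous_extend.comp (by fun_prop)
    induction n with
    | zero => exact (cn 0).continuousOn.congr fun t ht => hc 0 t ht (Or.inl rfl)
    | succ n ih =>
      have := ih.union_of_isClosed (t := Icc ((n:ℝ) + 1) ((n:ℝ) + 1 + 1))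
        ((cn (n + 1)).continuousOn.congr fun t ht => hc (n + 1) t (by push_cast; exact ht.2)
          (Or.inr (by push_cast; exact ht.1))) isClosed_Iic isClosed_Icc
      refine this.mono fun t ht => ?_
      rcases le_total t ((n:ℝ) + 1) with h | h
      · exact Or.inl h
      · exact Or.inr ⟨h, by simpa using ht⟩
  exact ⟨c, continuous_iff_continuousAt.2 fun t => (hc2 ⌊t⌋₊).continuousAt
    (Iic_mem_nhds (Nat.lt_floor_add_one t)), fun n t ht => hc n t ht.2 (Or.inr ht.1)⟩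

theorem thru {α : Type} [TopologicalSpace α] {U F : Set α} (hU : IsPathConnected U) (hF : F.Finite)
    (h : F ⊆ U) {x y : α} (hx : x ∈ U) (hy : y ∈ U) :
    ∃ γ : Path x y, range γ ⊆ U ∧ F ⊆ range γ := by
  induction F, hF using Set.Finite.induction_on with
  | empty =>
    obtain ⟨γ, hγ⟩ := hU.joinedIn x hx y hy
    exact ⟨γ, range_subset_iff.2 hγ, empty_subset _⟩
  | @insert z F _ _ ih =>
    obtain ⟨γ, a, b⟩ := ih ((subset_insert _ _).trans h)
    obtain ⟨β, hβ⟩ := hU.joinedIn x hx z (h (mem_insert _ _))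
    refine ⟨(β.trans β.symm).trans γ, ?_, ?_⟩ <;> rw [Path.trans_range, Path.trans_range,
      Path.symm_range, union_self]
    · exact union_subset (range_subset_iff.2 hβ) a
    · exact insert_subset (Or.inl ⟨1, β.target⟩) (b.trans subset_union_right)

variable {V E : Type} [NormedAddCommGroup V] [NormedSpace ℝ V] [MetricSpace E]

theorem exists_ad {K : ℝ → NonemptyCompacts V} (hc : ∀ s, IsPreconnected (K s : Set V)) {v x : V}
    (h0 : (K 0 : Set V) = {v}) (h1 : ∀ s, 1 ≤ s → (K s : Set V) = {x})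
    (hu : ∀ η > 0, ∃ θ > 0, ∀ s r, |s - r| ≤ θ → dist (K s) (K r) ≤ η) {δ θ : ℝ} (hδ : 0 < δ)
    (hθ : 0 < θ) : ∃ a : ℝ → V, Continuous a ∧ a 0 = v ∧ a 1 = x ∧ (∀ s, a (cl s) = a s) ∧
      Ad a K δ θ := by
  obtain ⟨θ', hθ', hm⟩ := hu (δ / 3) (by linarith)
  obtain ⟨n, hn⟩ := exists_nat_one_div_lt (lt_min hθ' (half_pos hθ))
  obtain ⟨N, hN⟩ : ∃ N : ℕ, (N:ℝ) = n + 1 := ⟨n + 1, by simp⟩
  rw [← hN] at hn
  have N0 : (0:ℝ) < N := by rw [hN]; positivity
  have hm' : ∀ s r : ℝ, |N * s - r| ≤ 1 → dist (K s) (K (r / N)) ≤ δ / 3 := fun s r h => hm _ _ (by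
    rw [show s - r / N = (N * s - r) / N by field_simp, abs_div, abs_of_pos N0]
    exact ((div_le_div_of_nonneg_right h N0.le).trans hn.le).trans (min_le_left _ _))
  let P : ℕ → V := fun i => (K (i / N)).nonempty.some
  have hP : ∀ i : ℕ, P i ∈ (K (i / N) : Set V) := fun i => (K (i / N)).nonempty.some_mem
  have ex : ∀ i : ℕ, ∃ γ : Path (P i) (P (i + 1)), range γ ⊆ thickening (2 * δ / 3) (K (i / N)) ∧
      ∀ k ∈ (K (i / N) : Set V), ∃ t, dist k (γ t) < δ / 3 := by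
    intro i
    obtain ⟨F, f1, f2, f3⟩ := finite_cover_balls_of_compact (K (i / N)).isCompact
      (show 0 < δ / 3 by linarith)
    have ss := self_subset_thickening (show 0 < 2 * δ / 3 by linarith) (K (i / N) : Set V)
    obtain ⟨γ, a, b⟩ := thru (KFive.conn_thick ⟨(K (i / N)).nonempty, hc _⟩
      (show 0 < 2 * δ / 3 by linarith)) f2 (f1.trans ss) (ss (hP i)) (y := P (i + 1)) (by
        obtain ⟨y, y1, y2⟩ := near' (hP (i + 1)) (hm' _ i (by
          rw [mul_div_cancel₀ _ N0.ne']; simp))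
        exact mem_thickening_iff.2 ⟨y, y1, by linarith⟩)
    refine ⟨γ, a, fun k hk => ?_⟩
    obtain ⟨y, y1, y2⟩ := mem_iUnion₂.1 (f3 hk)
    obtain ⟨t, rfl⟩ := b y1
    exact ⟨t, y2⟩
  choose γ g1 g2 using ex
  obtain ⟨c, cc, hc⟩ := concat2 P γ
  have cP : ∀ i : ℕ, c i = P i := fun i => by rw [hc i i ⟨le_rfl, by linarith⟩]; simp
  have e1 : c (N * 1) = x := by
    have := hP N
    rwa [div_self N0.ne', h1 1 le_rfl, ← cP, ← mul_one (N:ℝ)] at this
  refine ⟨fun s => c (N * cl s), by fun_prop, ?_, by simpa [cl_of_ge] using e1,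
    fun s => by simp only [cl_of_mem (cl_mem s)], fun s hs => ?_⟩
  · have := hP 0
    rw [← cP] at this
    simpa [h0, cl_of_le] using this
  rcases le_or_gt 1 s with h | h
  · simp only [cl_of_ge h, e1, h1 s h]
    refine ⟨by simpa using hδ.le, fun k hk => ⟨s, ⟨le_rfl, by linarith⟩, ?_⟩⟩
    rw [cl_of_ge h, e1, hk]
    simpa using hδ.le
  have s0 : 0 ≤ N * s := by positivity
  refine ⟨?_, fun k hk => ?_⟩
  · have a1 := Nat.floor_le s0
    have a2 := Nat.lt_floor_add_one (N * s)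
    simp only [cl_of_mem ⟨hs, h.le⟩]
    have a3 : c (N * s) ∈ thickening (2 * δ / 3) (K (⌊N * s⌋₊ / N)) := by
      rw [hc _ _ ⟨a1, a2.le⟩]
      exact g1 _ ⟨_, rfl⟩
    have a4 := (mem_thickening_iff_infDist_lt (NonemptyCompacts.nonempty _)).1 a3
    have a5 := hm' s ⌊N * s⌋₊ (abs_le.2 ⟨by linarith, by linarith⟩)
    linarith [inf_le (c (N * s)) (K (⌊N * s⌋₊ / N)) (K s), dist_comm (K s) (K (⌊N * s⌋₊ / N))]
  · have a1 := Nat.le_ceil (N * s)
    have a2 := Nat.ceil_lt_add_one s0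
    have a3 : 2 ≤ N * θ := by
      have := (div_lt_iff₀ N0).1 (hn.trans_le (min_le_right _ _))
      linarith
    obtain ⟨y, y1, y2⟩ := near' hk (hm' s ⌈N * s⌉₊ (abs_le.2 ⟨by linarith, by linarith⟩))
    rcases (Nat.ceil_le.2 (show N * s ≤ N by nlinarith)).eq_or_lt with e | e
    · rw [e, div_self N0.ne', h1 1 le_rfl] at y1
      rw [e] at a2
      refine ⟨1, ⟨h.le, by nlinarith⟩, ?_⟩
      simp only [cl_of_ge le_rfl, e1]
      rw [← mem_singleton_iff.1 y1, dist_comm]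
      linarith
    · obtain ⟨t, ht⟩ := g2 _ y y1
      have a4 : (⌈N * s⌉₊ : ℝ) + 1 ≤ N := by exact_mod_cast e
      have t0 := t.2.1
      have t1 := t.2.2
      refine ⟨(⌈N * s⌉₊ + t) / N, ⟨by rw [le_div_iff₀ N0]; linarith,
        by rw [div_le_iff₀ N0]; linarith⟩, ?_⟩
      simp only
      rw [cl_of_mem ⟨by positivity, by rw [div_le_iff₀ N0]; linarith⟩, mul_div_cancel₀ _ N0.ne',
        hc ⌈N * s⌉₊ _ ⟨by linarith, by linarith⟩, add_sub_cancel_left, Path.extend_extends']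
      linarith [dist_triangle_left (γ ⌈N * s⌉₊ t) k y, dist_comm y k]

omit [NormedSpace ℝ V] in
theorem net {C : Type} {𝒦 : Set (NonemptyCompacts V)} (hk : IsCompact 𝒦)
    {K : C → ℝ → NonemptyCompacts V} (hK : ∀ c s, K c s ∈ 𝒦) {x : V}
    (h1 : ∀ c s, 1 ≤ s → (K c s : Set V) = {x})
    (hu : ∀ η > 0, ∃ θ > 0, ∀ c s r, |s - r| ≤ θ → dist (K c s) (K c r) ≤ η) {η : ℝ} (hη : 0 < η)
    (A : Set C) : ∃ l : List C, (∀ c ∈ l, c ∈ A) ∧
      ∀ d ∈ A, ∃ c ∈ l, ∀ s, 0 ≤ s → dist (K c s) (K d s) ≤ η := by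
  obtain ⟨θ, hθ, hm⟩ := hu (η / 3) (by linarith)
  obtain ⟨N, hN⟩ := exists_nat_gt (1 / θ)
  let g : C → Fin N → NonemptyCompacts V := fun c i => K c (i * θ)
  obtain ⟨t, t1, t2, t3⟩ := finite_approx_of_totallyBounded
    ((isCompact_univ_pi fun _ : Fin N => hk).totallyBounded.subset (s₁ := g '' A) (by
      rintro _ ⟨c, -, rfl⟩ i -
      exact hK _ _)) (η / 3) (by linarith)
  obtain ⟨u, u1, u2, rfl⟩ := t2.exists_subset_finite_image_eq t1
  refine ⟨u2.toFinset.toList, fun c hc => u1 (by simpa using hc), fun d hd => ?_⟩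
  obtain ⟨_, ⟨c, hc, rfl⟩, h⟩ := mem_iUnion₂.1 (t3 (mem_image_of_mem g hd))
  refine ⟨c, by simpa using hc, fun s hs => ?_⟩
  rcases le_or_gt 1 s with h' | h'
  · rw [SetLike.coe_injective ((h1 c s h').trans (h1 d s h').symm), dist_self]
    exact hη.le
  have s0 : 0 ≤ s / θ := by positivity
  have a1 := (le_div_iff₀ hθ).1 (Nat.floor_le s0)
  have a2 := (div_lt_iff₀ hθ).1 (Nat.lt_floor_add_one (s / θ))
  have a3 := (dist_le_pi_dist (g d) (g c) ⟨⌊s / θ⌋₊, (Nat.floor_lt s0).2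
    ((div_lt_div_of_pos_right h' hθ).trans hN)⟩).trans_lt h
  have a4 : |s - ⌊s / θ⌋₊ * θ| ≤ θ := abs_le.2 ⟨by linarith, by linarith⟩
  simp only [g] at a3
  linarith [hm c _ _ a4, hm d _ _ a4, dist_triangle4_right (K c s) (K d s) (K c (⌊s / θ⌋₊ * θ))
    (K d (⌊s / θ⌋₊ * θ)), dist_comm (K c (⌊s / θ⌋₊ * θ)) (K d (⌊s / θ⌋₊ * θ))]

theorem main [CompleteSpace E] {φ : V → E} (hφ : LipschitzWith 1 φ)
    {𝒦 : Set (NonemptyCompacts V)} (hk : IsCompact 𝒦) (hc : ∀ K ∈ 𝒦, IsPreconnected (K : Set V))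
    (H : Semi φ 𝒦) {M : Set E} (hM : IsClosed M) (hne : M.Nonempty)
    (hKM : ∀ K ∈ 𝒦, ∀ y ∈ (K : Set V), φ y ∈ M) {C : Type} {K : C → ℝ → NonemptyCompacts V}
    (hK : ∀ c s, K c s ∈ 𝒦) {x : V} (h1 : ∀ c s, 1 ≤ s → (K c s : Set V) = {x}) {v : C → V}
    (h0 : ∀ c, (K c 0 : Set V) = {v c}) (hv : ∀ m ∈ M, ∃ c, φ (v c) = m)
    (hu : ∀ η > 0, ∃ θ > 0, ∀ c s r, |s - r| ≤ θ → dist (K c s) (K c r) ≤ η) : WC M := by
  have hd : ∀ x y, dist (φ x) (φ y) ≤ dist x y := fun x y => by simpa using hφ.dist_le_mul x y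
  have ex : ∀ n : ℕ, ∃ δ > 0, Crs φ 𝒦 ((1 / 2) ^ n) δ ∧ 2 * δ < (1 / 2) ^ n := by
    intro n
    have p : (0:ℝ) < (1 / 2) ^ n := by positivity
    obtain ⟨δ, a, b⟩ := cross hφ.continuous hk H p
    refine ⟨min δ ((1 / 2) ^ n / 3), lt_min a (by linarith),
      fun K hK p q pc qc a b c d ab cd e1 e2 e3 => ?_, by linarith [min_le_right δ ((1 / 2) ^ n / 3)]⟩
    refine ‹Crs φ 𝒦 _ δ› K hK p q pc qc a b c d ab cd (fun s hs => (e1 s hs).trans (min_le_left _ _))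
      (fun s hs => (e2 s hs).trans (min_le_left _ _)) fun m hm => ?_
    obtain ⟨u, u1, u2⟩ := e3 m hm
    exact ⟨u, u1, u2.trans (min_le_left _ _)⟩
  choose δ hδ hX hδ2 using ex
  choose θ hθ hm using fun n => hu (δ n / 3) (by linarith [hδ n])
  choose leg lc l0 l1 ll lA using fun n c => exists_ad (fun s => hc _ (hK c s)) (h0 c) (h1 c)
    (fun η hη => by
      obtain ⟨θ, a, b⟩ := hu η hη
      exact ⟨θ, a, b c⟩) (δ := min (δ n / 3) (δ (n - 1) / 3)) (θ := min (θ n / 2) (θ (n - 1) / 2))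
    (lt_min (by linarith [hδ n]) (by linarith [hδ (n - 1)]))
    (lt_min (half_pos (hθ _)) (half_pos (hθ _)))
  choose ch c1 c2 using fun n A => net hk hK h1 hu (show 0 < δ n / 3 by linarith [hδ n]) A
  let A : ℕ → C → Set C := fun n c => {d | ∀ s, 0 ≤ s → dist (K c s) (K d s) ≤ δ n / 3}
  let L : ℕ → List C := fun n => Nat.rec (ch 0 univ) (fun n l => l.flatMap fun c => ch (n + 1) (A n c)) n
  have hL : ∀ n d, ∃ c ∈ L n, d ∈ A n c := by
    intro n d
    induction n with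
    | zero => exact c2 0 univ d trivial
    | succ n ih =>
      obtain ⟨c, a, b⟩ := ih
      obtain ⟨c', a', b'⟩ := c2 (n + 1) _ d b
      exact ⟨c', List.mem_flatMap.2 ⟨c, a, a'⟩, b'⟩
  have e1 : ∀ n c, (φ ∘ leg n c) 1 = φ x := fun n c => congrArg φ (l1 n c)
  have hQ : ∀ n c t, infDist ((φ ∘ leg n c) t) M ≤ (1 / 2) ^ n := by
    intro n c t
    obtain ⟨y, a, b⟩ := near (lA n c (cl t) (cl_mem t).1).1
    rw [ll] at b
    linarith [infDist_le_dist_of_mem (x := (φ ∘ leg n c) t) (hKM _ (hK c _) y a),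
      min_le_left (δ n / 3) (δ (n - 1) / 3), hδ n, hδ2 n,
      show dist ((φ ∘ leg n c) t) (φ y) ≤ _ from hd _ _]
  obtain ⟨c0, -⟩ := hv _ hne.some_mem
  refine crit hM hne (fun n => Wl (φ x) (fun c => φ ∘ leg n c) (L n))
    (fun n => Wl_cont (e1 n) (fun c => hφ.continuous.comp (lc n c)) _) (fun n => ?_)
    (fun n => Wl_prop (Q := fun y => infDist y M ≤ (1 / 2) ^ n) (e1 n c0 ▸ hQ n c0 1) (hQ n) _)
    fun n m hm => ?_
  · have self : ∀ c, c ∈ A n c := fun c s _ => by rw [dist_self]; linarith [hδ n]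
    refine refine (by positivity) (e1 n) (e1 (n + 1)) _ (fun c h => ?_) (fun c d hd => ?_) _
    · obtain ⟨d, a, -⟩ := c2 (n + 1) _ c (self c)
      simp [h] at a
    · have md : ∀ s r, |s - r| ≤ 2 * (θ n / 2) → dist (K c s) (K c r) ≤ δ n / 3 :=
        fun s r h => hm n c s r (by linarith)
      exact fol hφ (hX n) (hδ2 n) (half_pos (hθ n)) (hK c) (h0 c) (lc _ _) (lc _ _) (ll _ _) (ll _ _)
        (((lA n c).mono (min_le_left _ _) (min_le_left _ _)).nr (self c) md)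
        (((lA (n + 1) d).mono (min_le_right _ _) (min_le_right _ _)).nr (c1 _ _ d hd) md)
  · obtain ⟨d, rfl⟩ := hv m hm
    obtain ⟨c, a, b⟩ := hL n d
    obtain ⟨t, t1, t2⟩ := Wl_tip (e1 n) (L n) c a
    refine ⟨t, t1, ?_⟩
    obtain ⟨y, y1, y2⟩ := near' (show v c ∈ _ by rw [h0 c]; rfl) (b 0 le_rfl)
    rw [h0 d] at y1
    rw [t2, Function.comp_apply, l0, ← mem_singleton_iff.1 y1]
    linarith [hd (v c) y, hδ n, hδ2 n]

end Pool.Agent.H82.WcB
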