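import Mathlib
import Pool.Agent.H33.Contin
import Pool.Agent.H82.SpanA

/-! Uniform order arcs in hyperspaces of subcontinua. -/

set_option autoImplicit false

namespace Pool.Agent.H82.WcC

open Set Topology TopologicalSpace Metric Filter H33.Contin

variable {X : Type} [MetricSpace X] [CompactSpace X]

def Cn (X : Type) [TopologicalSpace X] : Set (NonemptyCompacts X) :=
  {K | IsConnected (K : Set X)}

omit [CompactSpace X] in
theorem Cn_closed : IsClosed (Cn X) := by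
  have : Cn X = {K : NonemptyCompacts X | IsPreconnected (K : Set X)} := by
    ext K; exact ⟨fun h => h.2, fun h => ⟨K.nonempty, h⟩⟩
  rw [this]; exact closed_conn

theorem modulus {w : NonemptyCompacts X → ℝ} (hw : ContinuousOn w (Cn X))
    (hs : ∀ A ∈ Cn X, ∀ B ∈ Cn X, A < B → w A < w B) {ε : ℝ} (hε : 0 < ε) :
    ∃ δ > 0, ∀ A ∈ Cn X, ∀ B ∈ Cn X, A ≤ B → w B - w A ≤ δ → dist A B ≤ ε := by
  let S : Set (NonemptyCompacts X × NonemptyCompacts X) :=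
    (Cn X ×ˢ Cn X) ∩ ({z | z.1 ≤ z.2} ∩ {z | ε ≤ dist z.1 z.2})
  have hS : IsCompact S := ((Cn_closed.prod Cn_closed).inter
    ((SpanA.closed_le continuous_fst continuous_snd).inter
      (isClosed_le continuous_const continuous_dist))).isCompact
  have hc : ContinuousOn (fun z : NonemptyCompacts X × NonemptyCompacts X => w z.2 - w z.1) S :=
    (hw.comp continuousOn_snd fun z (hz : z ∈ S) => hz.1.2).sub
      (hw.comp continuousOn_fst fun z (hz : z ∈ S) => hz.1.1)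
  obtain ⟨δ, hδ, h⟩ := hS.exists_forall_le' (a := 0) hc
    (fun z hz => sub_pos.2 (hs _ hz.1.1 _ hz.1.2 (lt_of_le_of_ne hz.2.1 fun e => by
      have : ε ≤ dist z.1 z.2 := hz.2.2
      rw [e, dist_self] at this
      linarith)))
  refine ⟨δ / 2, half_pos hδ, fun A hA B hB h1 h2 => not_lt.1 fun h3 => ?_⟩
  have := h (A, B) ⟨⟨hA, hB⟩, h1, h3.le⟩
  simp only at this
  linarith

theorem arc0 {ν : NonemptyCompacts X → ℝ} (hν : Continuous ν) (hνs : StrictAnti ν)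
    {A' : NonemptyCompacts X} (hAc : A' ∈ Cn X) {p : X} (hp : p ∈ (A' : Set X)) :
    ∃ M ⊆ Cn X, (∀ K ∈ M, ∀ L ∈ M, ν K ≤ ν L → L ≤ K) ∧ {p} ∈ M ∧ A' ∈ M ∧
      ∀ t ∈ Icc (ν A') (ν {p}), ∃ K ∈ M, ν K = t := by
  have hA := A'.isCompact.isClosed
  set P' : NonemptyCompacts X := {p} with hP'
  set S : Set (NonemptyCompacts X) := {K | IsPreconnected (K : Set X)} ∩
    ({K | ((K : Set X) ∩ {p}).Nonempty} ∩ {K | (K : Set X) ⊆ A'}) with hS
  have hSc : IsClosed S := closed_conn.inter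
    ((NonemptyCompacts.isClosed_inter_nonempty_of_isClosed isClosed_singleton).inter
      (NonemptyCompacts.isClosed_subsets_of_isClosed hA))
  obtain ⟨M, hM⟩ := zorn_subset {c : Set (NonemptyCompacts X) | c ⊆ S ∧ IsChain (· ≤ ·) c} (by
    intro c hc hch
    refine ⟨⋃₀ c, ⟨sUnion_subset fun s hs => (hc hs).1, ?_⟩, fun s hs => subset_sUnion_of_mem hs⟩
    rintro K ⟨s, hs, hK⟩ L ⟨t, ht, hL⟩ hne
    rcases hch.total hs ht with h | h
    · exact (hc ht).2 (h hK) hL hne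
    · exact (hc hs).2 hK (h hL) hne)
  have hpS : ∀ K ∈ S, P' ≤ K := fun K hK => by
    obtain ⟨z, hz, rfl⟩ := hK.2.1
    intro w hw
    have : w = z := hw
    rw [this]; exact hz
  have add : ∀ K ∈ S, (∀ L ∈ M, K ≤ L ∨ L ≤ K) → K ∈ M := fun K hK h => by
    have := hM.eq_of_subset (t := insert K M) ⟨insert_subset hK hM.prop.1,
      hM.prop.2.insert fun L hL _ => h L hL⟩ (subset_insert _ _)
    rw [this]; exact mem_insert _ _
  have hPM : P' ∈ M := add _ ⟨isPreconnected_singleton, ⟨p, rfl, rfl⟩, by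
    intro z hz
    have : z = p := hz
    rw [this]; exact hp⟩ fun L hL => Or.inl (hpS L (hM.prop.1 hL))
  have hAM : A' ∈ M := add _ ⟨hAc.2, ⟨p, hp, rfl⟩, fun _ h => h⟩
    fun L hL => Or.inr (hM.prop.1 hL).2.2
  have hMc : IsClosed M := by
    rw [← closure_subset_iff_isClosed]
    intro K hK
    refine add K (closure_minimal hM.prop.1 hSc hK) fun L hL => ?_
    exact closure_minimal (fun K hK => hM.prop.2.total hK hL)
      ((SpanA.closed_le continuous_id continuous_const).union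
        (SpanA.closed_le continuous_const continuous_id)) hK
  have hle : ∀ K ∈ M, ∀ L ∈ M, ν K ≤ ν L → L ≤ K := fun K hK L hL h => by
    rcases hM.prop.2.total hK hL with h' | h'
    · rcases h'.eq_or_lt with h'' | h''
      · exact h''.ge
      · exact absurd (hνs h'') (not_lt.mpr h)
    · exact h'
  refine ⟨M, fun K hK => ⟨K.nonempty, (hM.prop.1 hK).1⟩, hle, hPM, hAM, fun t ht => ?_⟩
  by_contra hn
  push Not at hn
  obtain ⟨K1, ⟨hK1, hK1t⟩, hK1m⟩ := ((hMc.inter (isClosed_le hν continuous_const :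
    IsClosed {K | ν K ≤ t})).isCompact).exists_isMaxOn ⟨A', hAM, ht.1⟩ hν.continuousOn
  obtain ⟨K2, ⟨hK2, hK2t⟩, hK2m⟩ := ((hMc.inter (isClosed_le continuous_const hν :
    IsClosed {K | t ≤ ν K})).isCompact).exists_isMinOn ⟨P', hPM, ht.2⟩ hν.continuousOn
  simp only [mem_ofPred_eq] at hK1t hK2t
  have hlt : ν K1 < ν K2 := (lt_of_le_of_ne hK1t (hn _ hK1)).trans_le hK2t
  have h21 : K2 < K1 := lt_of_le_of_ne (hle _ hK1 _ hK2 hlt.le) (by rintro rfl; exact lt_irrefl _ hlt)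
  obtain ⟨C, hC, hCc, hC1, hC2⟩ := bump K2.isCompact.isClosed ⟨K2.nonempty, (hM.prop.1 hK2).1⟩
    K1.isCompact.isClosed (hM.prop.1 hK1).1 h21
  set C' : NonemptyCompacts X := ⟨⟨C, hC.isCompact⟩, hCc.nonempty⟩
  have e1 : K2 < C' := hC1
  have e2 : C' < K1 := hC2
  have hCM : C' ∈ M := add _ ⟨hCc.isPreconnected, ⟨p, hC1.1 (hpS _ (hM.prop.1 hK2) rfl), rfl⟩,
    hC2.1.trans (hM.prop.1 hK1).2.2⟩ fun L hL => by
      rcases le_total (ν L) t with h | h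
      · exact Or.inl (e2.le.trans (hle _ hL _ hK1 (hK1m ⟨hL, h⟩)))
      · exact Or.inr ((hle _ hK2 _ hL (hK2m ⟨hL, h⟩)).trans e1.le)
  rcases le_total (ν C') t with h | h
  · exact absurd (hνs e2) (not_lt.mpr (hK1m ⟨hCM, h⟩))
  · exact absurd (hνs e1) (not_lt.mpr (hK2m ⟨hCM, h⟩))

/-- a marked continuum -/
def Mk (X : Type) [TopologicalSpace X] : Type :=
  {z : X × NonemptyCompacts X // z.2 ∈ Cn X ∧ z.1 ∈ (z.2 : Set X)}

def EQ {C H : Type} [MetricSpace H] (K : C → ℝ → H) : Prop :=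
  ∀ η > 0, ∃ θ > 0, ∀ c s r, |s - r| ≤ θ → dist (K c s) (K c r) ≤ η

theorem EQ.cont {C H : Type} [MetricSpace H] {K : C → ℝ → H} (h : EQ K) (c : C) :
    Continuous (K c) := Metric.continuous_iff.2 fun b ε hε => by
  obtain ⟨θ, a, b⟩ := h (ε / 2) (half_pos hε)
  exact ⟨θ, a, fun x hx => (b c _ _ hx.le).trans_lt (half_lt_self hε)⟩

theorem arcs (X : Type) [MetricSpace X] [CompactSpace X] [Nonempty X] :
    ∃ a : Mk X → ℝ → NonemptyCompacts X, EQ a ∧ ∀ z, (∀ s, a z s ∈ Cn X) ∧ Monotone (a z) ∧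
      (∀ s, s ≤ 0 → a z s = {z.1.1}) ∧ ∀ s, 1 ≤ s → a z s = z.1.2 := by
  obtain ⟨ν, hν, hνs⟩ := whitney (X := X)
  obtain ⟨D, hD⟩ := isCompact_univ.exists_bound_of_continuousOn hν.continuousOn
  have D1 : ∀ K, -D ≤ ν K ∧ ν K ≤ D := fun K => abs_le.1 (hD K trivial)
  have D0 : 0 ≤ D := by linarith [D1 (Classical.arbitrary _)]
  choose M m1 m2 m3 m4 m5 using fun z : Mk X => arc0 hν hνs z.2.1 z.2.2
  have hz : ∀ z : Mk X, ν z.1.2 ≤ ν {z.1.1} := fun z => hνs.antitone fun w hw => by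
    rw [show w = z.1.1 from hw]; exact z.2.2
  let u : Mk X → ℝ → ℝ := fun z s => max (ν z.1.2) (min (ν {z.1.1}) (D - 2 * D * s))
  choose a a1 a2 using fun z s => m5 z (u z s)
    ⟨le_max_left _ _, max_le (hz z) (min_le_left _ _)⟩
  have mono : ∀ z, Monotone (a z) := fun z s r h => m2 z _ (a1 z r) _ (a1 z s) (by
    rw [a2, a2]
    exact max_le_max le_rfl (min_le_min le_rfl (by nlinarith)))
  refine ⟨a, fun η hη => ?_, fun z => ⟨fun s => m1 z (a1 z s), mono z, fun s hs => ?_, fun s hs => ?_⟩⟩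
  · obtain ⟨δ, hδ, h⟩ := modulus (w := fun K => -ν K) hν.neg.continuousOn
      (fun A _ B _ h => neg_lt_neg (hνs h)) hη
    have key : ∀ z s r, s ≤ r → r - s ≤ δ / (2 * D + 1) → dist (a z s) (a z r) ≤ η := by
      intro z s r h1 h2
      refine h _ (m1 z (a1 z s)) _ (m1 z (a1 z r)) (mono z h1) ?_
      rw [le_div_iff₀ (by linarith)] at h2
      simp only [a2, u]
      have : D - 2 * D * s ≤ D - 2 * D * r + δ := by nlinarith
      rw [neg_sub_neg, sub_le_iff_le_add, add_comm, ← max_add_add_right, ← min_add_add_right]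
      exact max_le_max (by linarith) (min_le_min (by linarith) this)
    refine ⟨δ / (2 * D + 1), by positivity, fun z s r h => ?_⟩
    rcases le_total s r with h' | h'
    · exact key z s r h' (by linarith [(abs_le.1 h).1])
    · rw [dist_comm]; exact key z r s h' (abs_le.1 h).2
  · have e : ν (a z s) = ν {z.1.1} := by
      rw [a2]
      simp only [u]
      rw [min_eq_left (by nlinarith [(D1 {z.1.1}).2]), max_eq_right (hz z)]
    exact le_antisymm (m2 z _ (m3 z) _ (a1 z s) e.ge) (m2 z _ (a1 z s) _ (m3 z) e.le)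
  · have e : ν (a z s) = ν z.1.2 := by
      rw [a2]
      exact max_eq_left ((min_le_right _ _).trans (by nlinarith [(D1 z.1.2).1]))
    exact le_antisymm (m2 z _ (m4 z) _ (a1 z s) e.ge) (m2 z _ (a1 z s) _ (m4 z) e.le)

/-- two continua through a common point -/
def Pr (X : Type) [TopologicalSpace X] : Type := {z : Mk X × Mk X // z.1.1.1 = z.2.1.1}

theorem sweep (X : Type) [MetricSpace X] [CompactSpace X] [Nonempty X] :
    ∃ Φ : Pr X → ℝ → ℝ → NonemptyCompacts X, EQ (fun z : Pr X × ℝ => Φ z.1 z.2) ∧ ∀ z,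
      Continuous (fun q : ℝ × ℝ => Φ z q.1 q.2) ∧ (∀ x τ, Φ z x τ ∈ Cn X) ∧
      (∀ τ, Monotone fun x => Φ z x τ) ∧ (∀ τ ∈ Icc (0:ℝ) 1, Φ z 0 τ = {z.1.1.1.1}) ∧
      (∀ τ ∈ Icc (0:ℝ) 1, z.1.1.1.2 ≤ Φ z 2 τ) ∧ Φ z 1 0 = z.1.1.1.2 ∧ Φ z 1 1 = z.1.2.1.2 := by
  obtain ⟨a, a1, a2⟩ := arcs X
  have pm : ∀ z s, ({z.1.1} : NonemptyCompacts X) ≤ a z s := fun z s => by
    rw [← (a2 z).2.2.1 (min s 0) (min_le_right _ _)]
    exact (a2 z).2.1 (min_le_left _ _)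
  have pm' : ∀ z : Mk X, ({z.1.1} : NonemptyCompacts X) ≤ z.1.2 := fun z => by
    rw [← (a2 z).2.2.2 1 le_rfl]; exact pm z 1
  refine ⟨fun z x τ => a z.1.1 (x - τ) ⊔ a z.1.2 (x - (1 - τ)), fun η hη => ?_, fun z =>
    ⟨?_, fun x τ => ?_, fun τ x y h => sup_le_sup ((a2 _).2.1 (by linarith)) ((a2 _).2.1 (by linarith)),
      fun τ h => ?_, fun τ h => ?_, ?_, ?_⟩⟩
  · obtain ⟨θ, b1, b2⟩ := a1 η hη
    refine ⟨θ, b1, fun z s r h => ?_⟩
    have := NonemptyCompacts.lipschitz_sup.dist_le_mul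
      (a z.1.1.1 (z.2 - s), a z.1.1.2 (z.2 - (1 - s))) (a z.1.1.1 (z.2 - r), a z.1.1.2 (z.2 - (1 - r)))
    simp only [NNReal.coe_one, one_mul] at this
    refine this.trans (max_le (b2 _ _ _ ?_) (b2 _ _ _ ?_))
    · rw [abs_sub_comm] at h; convert h using 2; ring
    · convert h using 2; ring
  · exact ((a1.cont _).comp (by fun_prop)).sup ((a1.cont _).comp (by fun_prop))
  · exact IsConnected.union ⟨z.1.1.1.1, pm _ _ rfl, pm _ _ z.2⟩ ((a2 _).1 _) ((a2 _).1 _)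
  · simp only
    rw [(a2 _).2.2.1 _ (by linarith [h.1]), (a2 _).2.2.1 _ (by linarith [h.2]), z.2, sup_idem]
  · simp only
    rw [(a2 _).2.2.2 _ (by linarith [h.2])]
    exact le_sup_left
  · simp only
    rw [(a2 _).2.2.2 _ (by norm_num), (a2 _).2.2.1 _ (by norm_num), ← z.2]
    exact sup_eq_left.2 (pm' _)
  · simp only
    rw [(a2 _).2.2.1 _ (by norm_num), (a2 _).2.2.2 _ (by norm_num), z.2]
    exact sup_eq_right.2 (pm' _)

omit [CompactSpace X] in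
theorem hitlev {ν : NonemptyCompacts X → ℝ} (hc : ContinuousOn ν (Cn X)) {g : ℝ → NonemptyCompacts X}
    (gc : Continuous g) (hg : ∀ x, g x ∈ Cn X) {t b : ℝ} (hb : 0 ≤ b) (h0 : ν (g 0) ≤ t)
    (h1 : t ≤ ν (g b)) : ∃ x ∈ Icc 0 b, ν (g x) = t :=
  intermediate_value_Icc hb (hc.comp_continuous gc hg).continuousOn ⟨h0, h1⟩

theorem level_conn [ConnectedSpace X] {ν : NonemptyCompacts X → ℝ} (hc : ContinuousOn ν (Cn X))
    (hm : ∀ A ∈ Cn X, ∀ B ∈ Cn X, A ≤ B → ν A ≤ ν B) {t : ℝ} (h0 : ∀ p, ν {p} ≤ t)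
    (h1 : t ≤ ν ⊤) : (∀ p, ∃ B ∈ Cn X ∩ ν ⁻¹' {t}, p ∈ (B : Set X)) ∧
      IsPreconnected (Cn X ∩ ν ⁻¹' {t}) := by
  obtain ⟨Φ, -, hΦ⟩ := sweep X
  have ex : ∀ z : Pr X, t ≤ ν z.1.1.1.2 → ∀ τ ∈ Icc (0:ℝ) 1, ∃ x ∈ Icc (0:ℝ) 2, ν (Φ z x τ) = t := by
    intro z hz τ hτ
    obtain ⟨b1, b2, b3, b4, b5, -⟩ := hΦ z
    exact hitlev hc (b1.comp (Continuous.prodMk_left τ)) (fun x => b2 x τ) zero_le_two
      (by simp only [Function.comp]; rw [b4 τ hτ]; exact h0 _)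
      (hz.trans (hm _ z.1.1.2.1 _ (b2 _ _) (b5 τ hτ)))
  have cov : ∀ p, ∃ B ∈ Cn X ∩ ν ⁻¹' {t}, p ∈ (B : Set X) := by
    intro p
    let m : Mk X := ⟨(p, ⊤), isConnected_univ, trivial⟩
    obtain ⟨x, x1, x2⟩ := ex ⟨(m, m), rfl⟩ h1 0 (by simp)
    obtain ⟨b1, b2, b3, b4, -⟩ := hΦ ⟨(m, m), rfl⟩
    refine ⟨_, ⟨b2 x 0, x2⟩, b3 0 x1.1 ?_⟩
    simp only
    rw [b4 0 (by simp)]
    rfl
  refine ⟨cov, isPreconnected_closed_iff.2 fun L1 L2 c1 c2 hL n1 n2 => ?_⟩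
  have Lc : IsClosed (Cn X ∩ ν ⁻¹' {t}) := hc.preimage_isClosed_of_isClosed Cn_closed isClosed_singleton
  by_contra hn
  obtain ⟨p, -, p1, p2⟩ := isPreconnected_closed_iff.1 (isPreconnected_univ (α := X)) _ _
    (NonemptyCompacts.isCompact_biUnion_coe_of_isCompact (Lc.inter c1).isCompact).isClosed
    (NonemptyCompacts.isCompact_biUnion_coe_of_isCompact (Lc.inter c2).isCompact).isClosed
    (fun p _ => by
      obtain ⟨B, b1, b2⟩ := cov p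
      rcases hL b1 with h | h
      · exact Or.inl (mem_iUnion₂.2 ⟨B, ⟨b1, h⟩, b2⟩)
      · exact Or.inr (mem_iUnion₂.2 ⟨B, ⟨b1, h⟩, b2⟩))
    (by
      obtain ⟨B, hB⟩ := n1
      exact ⟨_, trivial, mem_iUnion₂.2 ⟨B, hB, B.nonempty.some_mem⟩⟩)
    (by
      obtain ⟨B, hB⟩ := n2
      exact ⟨_, trivial, mem_iUnion₂.2 ⟨B, hB, B.nonempty.some_mem⟩⟩)
  obtain ⟨A, hA, pA⟩ := mem_iUnion₂.1 p1
  obtain ⟨B, hB, pB⟩ := mem_iUnion₂.1 p2
  let z : Pr X := ⟨(⟨(p, A), hA.1.1, pA⟩, ⟨(p, B), hB.1.1, pB⟩), rfl⟩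
  obtain ⟨b1, b2, b3, -, -, b6, b7⟩ := hΦ z
  let R : Set (NonemptyCompacts X) → Set ℝ := fun L => Prod.snd ''
    ((Icc (0:ℝ) 2 ×ˢ Icc (0:ℝ) 1) ∩ (fun q : ℝ × ℝ => Φ z q.1 q.2) ⁻¹' (Cn X ∩ ν ⁻¹' {t} ∩ L))
  have Rc : ∀ L, IsClosed L → IsClosed (R L) := fun L h =>
    (((isCompact_Icc.prod isCompact_Icc).inter_right ((Lc.inter h).preimage b1)).image
      continuous_snd).isClosed
  obtain ⟨τ, -, ⟨⟨x, _⟩, q1, rfl⟩, ⟨x', _⟩, q2, rfl⟩ :=
    isPreconnected_closed_iff.1 (isPreconnected_Icc (a := (0:ℝ)) (b := 1)) _ _ (Rc _ c1) (Rc _ c2)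
      (fun τ hτ => by
        obtain ⟨x, x1, x2⟩ := ex z hA.1.2.ge τ hτ
        rcases hL ⟨b2 x τ, x2⟩ with h | h
        · exact Or.inl ⟨(x, τ), ⟨⟨x1, hτ⟩, ⟨b2 x τ, x2⟩, h⟩, rfl⟩
        · exact Or.inr ⟨(x, τ), ⟨⟨x1, hτ⟩, ⟨b2 x τ, x2⟩, h⟩, rfl⟩)
      ⟨0, by simp, (1, 0), ⟨by simp, show Φ z 1 0 ∈ _ by rw [b6]; exact hA⟩, rfl⟩
      ⟨1, by simp, (1, 1), ⟨by simp, show Φ z 1 1 ∈ _ by rw [b7]; exact hB⟩, rfl⟩
  rename_i τ
  have sub : (fun x => Φ z x τ) '' uIcc x x' ⊆ Cn X ∩ ν ⁻¹' {t} := by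
    rintro _ ⟨y, hy, rfl⟩
    have e1 : ν (Φ z x τ) = t := q1.2.1.2
    have e2 : ν (Φ z x' τ) = t := q2.2.1.2
    refine ⟨b2 _ _, le_antisymm ?_ ?_⟩
    · rcases le_max_iff.1 hy.2 with h | h
      · exact e1 ▸ hm _ (b2 _ _) _ (b2 _ _) (b3 τ h)
      · exact e2 ▸ hm _ (b2 _ _) _ (b2 _ _) (b3 τ h)
    · rcases min_le_iff.1 hy.1 with h | h
      · exact e1 ▸ hm _ (b2 _ _) _ (b2 _ _) (b3 τ h)
      · exact e2 ▸ hm _ (b2 _ _) _ (b2 _ _) (b3 τ h)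
  obtain ⟨K, k1, k2⟩ := isPreconnected_closed_iff.1 (isPreconnected_uIcc.image _
    (b1.comp (Continuous.prodMk_left τ)).continuousOn) _ _ c1 c2 (sub.trans hL)
    ⟨_, ⟨x, left_mem_uIcc, rfl⟩, q1.2.2⟩ ⟨_, ⟨x', right_mem_uIcc, rfl⟩, q2.2.2⟩
  exact hn ⟨K, sub k1, k2⟩

theorem trips [Nonempty X] {μ : NonemptyCompacts X → ℝ} (hc : ContinuousOn μ (Cn X))
    (hs : ∀ A ∈ Cn X, ∀ B ∈ Cn X, A < B → μ A < μ B) {t : ℝ} (h0 : ∀ p, μ {p} ≤ t) {C : Type}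
    (z : C → Pr X) (h1 : ∀ c, μ (z c).1.1.1.2 = t) (h2 : ∀ c, μ (z c).1.2.1.2 = t) :
    ∃ T : C → ℝ → NonemptyCompacts X, EQ T ∧ ∀ c, (∀ s, T c s ∈ Cn X ∧ μ (T c s) = t) ∧
      T c 0 = (z c).1.1.1.2 ∧ T c 1 = (z c).1.2.1.2 := by
  obtain ⟨Φ, hE, hΦ⟩ := sweep X
  have hm : ∀ A ∈ Cn X, ∀ B ∈ Cn X, A ≤ B → μ A ≤ μ B := fun A hA B hB h => by
    rcases h.eq_or_lt with rfl | h
    · exact le_rfl
    · exact (hs A hA B hB h).le
  let cl : ℝ → ℝ := fun s => max 0 (min 1 s)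
  have cm : ∀ s, cl s ∈ Icc (0:ℝ) 1 := fun s =>
    ⟨le_max_left _ _, max_le zero_le_one (min_le_left _ _)⟩
  have ex : ∀ c s, ∃ x ∈ Icc (0:ℝ) 2, μ (Φ (z c) x (cl s)) = t := by
    intro c s
    obtain ⟨b1, b2, b3, b4, b5, -⟩ := hΦ (z c)
    exact hitlev hc (b1.comp (Continuous.prodMk_left _)) (fun x => b2 x _) zero_le_two
      (by simp only [Function.comp]; rw [b4 _ (cm s)]; exact h0 _)
      ((h1 c).ge.trans (hm _ (z c).1.1.2.1 _ (b2 _ _) (b5 _ (cm s))))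
  choose x hx0 hx using ex
  have cmpr : ∀ η > 0, ∃ δ > 0, ∀ c τ x y, |μ (Φ (z c) x τ) - μ (Φ (z c) y τ)| ≤ δ →
      dist (Φ (z c) x τ) (Φ (z c) y τ) ≤ η := by
    intro η hη
    obtain ⟨δ, a, b⟩ := modulus hc hs hη
    refine ⟨δ, a, fun c τ x y h => ?_⟩
    obtain ⟨-, b2, b3, -⟩ := hΦ (z c)
    rcases le_total x y with h' | h'
    · exact b _ (b2 _ _) _ (b2 _ _) (b3 τ h') (by linarith [(abs_le.1 h).1])
    · rw [dist_comm]; exact b _ (b2 _ _) _ (b2 _ _) (b3 τ h') (abs_le.1 h).2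
  have uq : ∀ c τ x y, μ (Φ (z c) x τ) = μ (Φ (z c) y τ) → Φ (z c) x τ = Φ (z c) y τ :=
    fun c τ x y h => eq_of_forall_dist_le fun η hη => by
      obtain ⟨δ, a, b⟩ := cmpr η hη
      exact b c τ x y (by simpa [h] using a.le)
  refine ⟨fun c s => Φ (z c) (x c s) (cl s), fun η hη => ?_, fun c =>
    ⟨fun s => ⟨(hΦ _).2.1 _ _, hx c s⟩, ?_, ?_⟩⟩
  · obtain ⟨δ, a1, a2⟩ := cmpr (η / 2) (half_pos hη)
    obtain ⟨ρ, r1, r2⟩ := Metric.uniformContinuousOn_iff_le.1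
      (Cn_closed.isCompact.uniformContinuousOn_of_continuous hc) δ a1
    obtain ⟨θ, t1, t2⟩ := hE (min ρ (η / 2)) (lt_min r1 (half_pos hη))
    refine ⟨θ, t1, fun c s r h => ?_⟩
    have d1 := t2 (z c, x c s) (cl s) (cl r) (le_trans (by
      simp only [cl]
      rw [max_comm 0, max_comm 0, min_comm 1, min_comm 1]
      exact (abs_max_sub_max_le_abs _ _ _).trans (by
        simpa using abs_min_sub_min_le_max s 1 r 1)) h)
    have d2 := r2 _ ((hΦ _).2.1 _ _) _ ((hΦ _).2.1 _ _) (d1.trans (min_le_left _ _))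
    have d3 := a2 c (cl r) (x c s) (x c r) (by
      rw [hx c r, ← hx c s, abs_sub_comm]; exact d2)
    have d4 := d1.trans (min_le_right _ _)
    simp only at d4 ⊢
    linarith [dist_triangle (Φ (z c) (x c s) (cl s)) (Φ (z c) (x c s) (cl r)) (Φ (z c) (x c r) (cl r))]
  · have e : cl 0 = 0 := by simp [cl]
    have := hx c 0
    simp only [e] at this ⊢
    rw [← (hΦ (z c)).2.2.2.2.2.1]
    exact uq _ _ _ _ (by rw [this, (hΦ (z c)).2.2.2.2.2.1, h1])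
  · have e : cl 1 = 1 := by simp [cl]
    have := hx c 1
    simp only [e] at this ⊢
    rw [← (hΦ (z c)).2.2.2.2.2.2]
    exact uq _ _ _ _ (by rw [this, (hΦ (z c)).2.2.2.2.2.2, h2])

end Pool.Agent.H82.WcC
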