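import Mathlib
import Pool.Agent.H82.WcB
import Pool.Agent.H82.WcC

/-! Weak chainability is a Whitney property. -/

set_option autoImplicit false

namespace Pool.Agent.H82.WcD

open Set Topology TopologicalSpace Metric Filter WcA WcB WcC

theorem infd {l h R : ℝ} (h1 : l ≤ h) (h2 : -R ≤ l) (h3 : h ≤ R) :
    infDist (-R) (Icc l h) - infDist R (Icc l h) = l + h := by
  have a : infDist (-R) (Icc l h) = l + R := le_antisymm
    ((infDist_le_dist_of_mem (left_mem_Icc.2 h1)).trans (by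
      rw [Real.dist_eq, abs_le]; constructor <;> linarith))
    ((le_infDist (nonempty_Icc.2 h1)).2 fun y hy => by
      rw [Real.dist_eq]; exact le_abs.2 (Or.inr (by linarith [hy.1])))
  have b : infDist R (Icc l h) = R - h := le_antisymm
    ((infDist_le_dist_of_mem (right_mem_Icc.2 h1)).trans (by
      rw [Real.dist_eq, abs_le]; constructor <;> linarith))
    ((le_infDist (nonempty_Icc.2 h1)).2 fun y hy => by
      rw [Real.dist_eq]; exact le_abs.2 (Or.inl (by linarith [hy.2])))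
  rw [a, b]; ring

theorem nested {P : Type} [MetricSpace P] [CompactSpace P]
    (hP : ∀ ε : ℝ, ε > 0 → ∃ g : P → ℝ, Continuous g ∧ ∀ r : ℝ, diam (g ⁻¹' {r}) < ε)
    {Z : Type} [TopologicalSpace Z] {S : Set Z} (hk : IsCompact S) (hc : IsConnected S)
    {a b : Z → NonemptyCompacts P} (ha : Continuous a) (hb : Continuous b)
    (h1 : ∀ z, a z ∈ Cn P) (h2 : ∀ z, b z ∈ Cn P) (hs : ∀ z ∈ S, ∃ w ∈ S, a z = b w) :
    ∃ z ∈ S, a z ≤ b z ∨ b z ≤ a z := by
  obtain ⟨z0, hz0, hm⟩ := hk.exists_isMinOn hc.1 (f := fun z =>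
    min (dist (a z ⊔ b z) (b z)) (dist (b z ⊔ a z) (a z)))
    (((ha.sup hb).dist hb).min ((hb.sup ha).dist ha)).continuousOn
  have key : min (dist (a z0 ⊔ b z0) (b z0)) (dist (b z0 ⊔ a z0) (a z0)) ≤ 0 := by
    refine le_of_forall_pos_le_add fun ε hε => ?_
    obtain ⟨g, gc, hg⟩ := hP ε hε
    obtain ⟨R, hR⟩ := isCompact_univ.exists_bound_of_continuousOn gc.continuousOn
    let m : NonemptyCompacts P → ℝ := fun B =>
      infDist (-R) (B.map g gc : Set ℝ) - infDist R (B.map g gc : Set ℝ)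
    have mc : Continuous m :=
      ((lipschitz_infDist_set _).continuous.comp gc.nonemptyCompacts_map).sub
        ((lipschitz_infDist_set _).continuous.comp gc.nonemptyCompacts_map)
    have hI : ∀ B ∈ Cn P, ∃ l h, g '' (B : Set P) = Icc l h ∧ m B = l + h := by
      intro B hB
      have e := eq_Icc_of_connected_compact (IsConnected.image hB g gc.continuousOn)
        (B.isCompact.image gc)
      have hle := nonempty_Icc.1 (e ▸ B.nonempty.image g)
      obtain ⟨x, -, hx⟩ := e.ge (left_mem_Icc.2 hle)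
      obtain ⟨y, -, hy⟩ := e.ge (right_mem_Icc.2 hle)
      refine ⟨_, _, e, ?_⟩
      simp only [m, NonemptyCompacts.coe_map]
      rw [← infd hle (hx ▸ (abs_le.1 (hR x trivial)).1) (hy ▸ (abs_le.1 (hR y trivial)).2), ← e]
    have exc : ∀ A B : NonemptyCompacts P, g '' (A : Set P) ⊆ g '' (B : Set P) →
        dist (A ⊔ B) B ≤ ε := fun A B h =>
      hausdorffDist_le_of_infDist hε.le (by
        rintro x (hx | hx)
        · obtain ⟨y, y1, y2⟩ := h (mem_image_of_mem g hx)
          exact (infDist_le_dist_of_mem y1).trans ((dist_le_diam_of_mem (s := g ⁻¹' {g x})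
            (isCompact_univ.isBounded.subset (subset_univ _)) rfl y2).trans (hg _).le)
        · exact (infDist_zero_of_mem hx).le.trans hε.le)
        fun x hx => (infDist_zero_of_mem (mem_union_right _ hx)).le.trans hε.le
    obtain ⟨u, u1, u2⟩ := hk.exists_isMaxOn hc.1 (mc.comp hb).continuousOn
    obtain ⟨v, v1, v2⟩ := hk.exists_isMinOn hc.1 (mc.comp hb).continuousOn
    obtain ⟨z, z1, z2⟩ := hc.2.intermediate_value₂ u1 v1 (mc.comp ha).continuousOn
      (mc.comp hb).continuousOn (by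
        obtain ⟨w, w1, w2⟩ := hs u u1
        simp only [Function.comp, w2]; exact u2 w1) (by
        obtain ⟨w, w1, w2⟩ := hs v v1
        simp only [Function.comp, w2]; exact v2 w1)
    obtain ⟨l, h, e1, e2⟩ := hI _ (h1 z)
    obtain ⟨l', h', e3, e4⟩ := hI _ (h2 z)
    simp only [Function.comp, e2, e4] at z2
    rw [zero_add]
    refine le_trans (hm z1) ?_
    rcases le_total l l' with h | h
    · exact (min_le_right _ _).trans (exc _ _ (by rw [e1, e3]; exact Icc_subset_Icc h (by linarith)))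
    · exact (min_le_left _ _).trans (exc _ _ (by rw [e1, e3]; exact Icc_subset_Icc h (by linarith)))
  refine ⟨z0, hz0, (min_le_iff.1 key).imp (fun h => ?_) fun h => ?_⟩
  · exact sup_eq_right.1 (dist_le_zero.1 h)
  · exact sup_eq_right.1 (dist_le_zero.1 h)

theorem eq_ite {C H : Type} [MetricSpace H] {K K' : C → ℝ → H} (h : EQ K) (h' : EQ K') (b : ℝ)
    (e : ∀ c, K c b = K' c b) : EQ fun c s => if s ≤ b then K c s else K' c s := by
  intro η hη
  obtain ⟨θ, a1, a2⟩ := h (η / 2) (half_pos hη)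
  obtain ⟨θ', b1, b2⟩ := h' (η / 2) (half_pos hη)
  have key : ∀ c s r, s ≤ b → ¬ r ≤ b → |s - r| ≤ min θ θ' → dist (K c s) (K' c r) ≤ η := by
    intro c s r h1 h2 h3
    have := abs_le.1 h3
    have c1 := a2 c s b (abs_le.2 ⟨by linarith [min_le_left θ θ'], by linarith⟩)
    have c2 := b2 c b r (abs_le.2 ⟨by linarith [min_le_right θ θ'], by linarith⟩)
    rw [e] at c1
    linarith [dist_triangle (K c s) (K' c b) (K' c r)]
  refine ⟨min θ θ', lt_min a1 b1, fun c s r hs => ?_⟩
  simp only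
  split_ifs with h1 h2 h2
  · linarith [a2 c s r (hs.trans (min_le_left _ _))]
  · exact key c s r h1 h2 hs
  · rw [dist_comm]; exact key c r s h2 h1 (by rwa [abs_sub_comm])
  · linarith [b2 c s r (hs.trans (min_le_right _ _))]

theorem eq_lin {C C' H H' : Type} [MetricSpace H] [MetricSpace H'] {K : C → ℝ → H} (h : EQ K)
    (j : C' → C) {u : ℝ → ℝ} (hu : ∀ s r, |u s - u r| ≤ 3 * |s - r|) {G : C' → H → H'}
    (hG : ∀ η > 0, ∃ δ > 0, ∀ c x y, dist x y ≤ δ → dist (G c x) (G c y) ≤ η) :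
    EQ fun c s => G c (K (j c) (u s)) := by
  intro η hη
  obtain ⟨δ, a1, a2⟩ := hG η hη
  obtain ⟨θ, b1, b2⟩ := h δ a1
  exact ⟨θ / 3, by linarith, fun c s r hs => a2 _ _ _ (b2 _ _ _ (by linarith [hu s r]))⟩

theorem final {X : Type} [MetricSpace X] [CompactSpace X] [ConnectedSpace X] {P : Type}
    [MetricSpace P] [CompactSpace P] [ConnectedSpace P]
    (hP : ∀ ε : ℝ, ε > 0 → ∃ g : P → ℝ, Continuous g ∧ ∀ r : ℝ, diam (g ⁻¹' {r}) < ε)
    {f : P → X} (fc : Continuous f) (fs : Function.Surjective f) {μ : NonemptyCompacts X → ℝ}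
    (hc : ContinuousOn μ (Cn X)) (h0 : ∀ K : NonemptyCompacts X, (∃ x : X, (K : Set X) = {x}) → μ K = 0)
    (hs : ∀ A ∈ Cn X, ∀ B ∈ Cn X, A < B → μ A < μ B) {t : ℝ} {K0 : NonemptyCompacts X}
    (k1 : K0 ∈ Cn X) (k2 : μ K0 = t) :
    ∃ (Y : Type) (_ : MetricSpace Y), CompactSpace Y ∧ ConnectedSpace Y ∧
      (∀ ε : ℝ, ε > 0 → ∃ g : Y → ℝ, Continuous g ∧ ∀ r : ℝ, Metric.diam (g ⁻¹' {r}) < ε) ∧
      ∃ f : Y → ↥{K : NonemptyCompacts X | IsConnected (K : Set X) ∧ μ K = t},
        Continuous f ∧ Function.Surjective f := by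
  classical
  have hm : ∀ A ∈ Cn X, ∀ B ∈ Cn X, A ≤ B → μ A ≤ μ B := fun A hA B hB h => by
    rcases h.eq_or_lt with rfl | h
    · exact le_rfl
    · exact (hs A hA B hB h).le
  have t0 : ∀ p, μ {p} ≤ t := fun p => by
    obtain ⟨x, hx⟩ := K0.nonempty
    rw [h0 _ ⟨p, rfl⟩, ← h0 {x} ⟨x, rfl⟩, ← k2]
    exact hm _ isConnected_singleton _ k1 fun y hy => (show y = x from hy) ▸ hx
  have mC : ∀ B ∈ Cn P, B.map f fc ∈ Cn X := fun B hB => IsConnected.image hB f fc.continuousOn
  obtain ⟨cov, Lc⟩ := level_conn (X := P) (ν := fun B => μ (B.map f fc)) (t := t)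
    (hc.comp fc.nonemptyCompacts_map.continuousOn mC)
    (fun A hA B hB h => hm _ (mC A hA) _ (mC B hB) (image_mono h))
    (fun p => by rw [NonemptyCompacts.map_singleton]; exact t0 _)
    (k2 ▸ hm _ k1 _ (mC ⊤ isConnected_univ) fun x _ => by
      obtain ⟨p, rfl⟩ := fs x
      exact ⟨p, trivial, rfl⟩)
  let L := ↥(Cn P ∩ (fun B : NonemptyCompacts P => μ (B.map f fc)) ⁻¹' {t})
  let Lv := ↥{K : NonemptyCompacts X | IsConnected (K : Set X) ∧ μ K = t}
  have : CompactSpace L := isCompact_iff_compactSpace.1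
    ((hc.comp fc.nonemptyCompacts_map.continuousOn mC).preimage_isClosed_of_isClosed Cn_closed
      isClosed_singleton).isCompact
  have : CompactSpace Lv := isCompact_iff_compactSpace.1
    (hc.preimage_isClosed_of_isClosed Cn_closed isClosed_singleton).isCompact
  obtain ⟨B0, hB0, -⟩ := cov (Classical.arbitrary P)
  have : ConnectedSpace L := isConnected_iff_connectedSpace.1 ⟨⟨B0, hB0⟩, Lc⟩
  let F : L → Lv := fun B => ⟨B.1.map f fc, mC _ B.2.1, B.2.2⟩
  have Fc : Continuous F := (fc.nonemptyCompacts_map.comp continuous_subtype_val).subtype_mk _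
  let k := kuratowskiEmbedding L
  let k' := kuratowskiEmbedding Lv
  have hk : Isometry k := kuratowskiEmbedding.isometry L
  have hk' : Isometry k' := kuratowskiEmbedding.isometry Lv
  let g : L → lp (fun _ : ℕ => ℝ) ⊤ × lp (fun _ : ℕ => ℝ) ⊤ := fun B => (k B, k' (F B))
  have gc : Continuous g := hk.continuous.prodMk (hk'.continuous.comp Fc)
  have gi : IsEmbedding g := (gc.isClosedEmbedding fun x y h =>
    hk.injective (congrArg Prod.fst h)).isEmbedding
  have ex : ∀ A : Lv, ∃ B : L, ∃ x ∈ (A.1 : Set X), x ∈ ((F B).1 : Set X) := fun A => by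
    obtain ⟨x, hx⟩ := A.1.nonempty
    obtain ⟨p, rfl⟩ := fs x
    obtain ⟨B, b1, b2⟩ := cov p
    exact ⟨⟨B, b1⟩, _, hx, p, b2, rfl⟩
  choose B x x1 x2 using ex
  obtain ⟨T, T1, T2⟩ := trips hc hs t0 (C := Lv)
    (fun A => ⟨(⟨(x A, A.1), A.2.1, x1 A⟩, ⟨(x A, (F (B A)).1), (F (B A)).2.1, x2 A⟩), rfl⟩)
    (fun A => A.2.2) (fun A => (F (B A)).2.2)
  let T' : Lv → ℝ → Lv := fun A s => ⟨T A s, (T2 A).1 s⟩
  obtain ⟨a, a1, a2⟩ := arcs L
  let mk : L → Mk L := fun B => ⟨(B, ⊤), isConnected_univ, trivial⟩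
  have hG : ∀ η > 0, ∃ δ > 0, ∀ (_ : Lv) (x y : NonemptyCompacts L), dist x y ≤ δ →
      dist (x.map g gc) (y.map g gc) ≤ η := fun η hη => by
    obtain ⟨δ, d1, d2⟩ := Metric.uniformContinuous_iff_le.1
      (CompactSpace.uniformContinuous_of_continuous gc.nonemptyCompacts_map) η hη
    exact ⟨δ, d1, fun _ x y h => d2 h⟩
  obtain ⟨Y, y1, y2, y3, y4, e, ec, er⟩ := main (φ := Prod.snd) LipschitzWith.prod_snd
    (𝒦 := NonemptyCompacts.map g gc '' Cn L ∪ (fun v => {v}) '' (range k ×ˢ range k'))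
    ((Cn_closed.isCompact.image gc.nonemptyCompacts_map).union
      (((isCompact_range hk.continuous).prod (isCompact_range hk'.continuous)).image
        NonemptyCompacts.continuous_singleton))
    (by
      rintro _ (⟨D, hD, rfl⟩ | ⟨v, -, rfl⟩)
      · exact (IsConnected.image hD g gc.continuousOn).2
      · exact isPreconnected_singleton)
    (by
      rintro _ (⟨D, hD, rfl⟩ | ⟨v, -, rfl⟩) Z h1 h2 h3 h4
      · have g2 := gi.prodMap gi
        have hZ : Prod.map g g '' (Prod.map g g ⁻¹' Z) = Z :=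
          image_preimage_eq_of_subset (by
            rw [range_prodMap]
            exact h1.trans (prod_mono (image_subset_range _ _) (image_subset_range _ _)))
        have h5 := h1
        rw [← hZ] at h2 h3
        obtain ⟨z, z1, z2⟩ := nested hP (g2.isInducing.isCompact_iff.2 h2)
          ⟨h3.1.of_image, g2.isInducing.isPreconnected_image.1 h3.2⟩
          (a := fun z : L × L => z.1.1) (b := fun z => z.2.1)
          (continuous_subtype_val.comp continuous_fst) (continuous_subtype_val.comp continuous_snd)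
          (fun z => z.1.2.1) (fun z => z.2.2.1) (by
            intro z hz
            obtain ⟨w, w1, w2⟩ := h4 (h1 hz).1
            obtain ⟨y, -, hy⟩ := (h1 w1).1
            exact ⟨(y, z.1), show (g y, g z.1) ∈ Z by
              rw [hy, show g z.1 = w.2 from w2.symm]; exact w1, rfl⟩)
        refine ⟨_, z1, congrArg k' (Subtype.ext ?_)⟩
        have e := (F z.1).2.2.trans (F z.2).2.2.symm
        rcases z2 with h | h
        · exact (show (F z.1).1 ≤ (F z.2).1 from image_mono h).eq_or_lt.resolve_right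
            fun h => (hs _ (F z.1).2.1 _ (F z.2).2.1 h).ne e
        · exact ((show (F z.2).1 ≤ (F z.1).1 from image_mono h).eq_or_lt.resolve_right
            fun h => (hs _ (F z.2).2.1 _ (F z.1).2.1 h).ne e.symm).symm
      · obtain ⟨z, hz⟩ := h3.1
        exact ⟨z, hz, by rw [show z.1 = v from (h1 hz).1, show z.2 = v from (h1 hz).2]⟩)
    (M := range k') (isCompact_range hk'.continuous).isClosed ⟨_, F ⟨B0, hB0⟩, rfl⟩
    (by
      rintro _ (⟨D, hD, rfl⟩ | ⟨v, hv, rfl⟩) y hy
      · obtain ⟨b, -, rfl⟩ := hy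
        exact ⟨_, rfl⟩
      · rw [show y = v from hy]; exact hv.2)
    (C := Lv) (K := fun A s => if s ≤ 1 / 3 then {(k (B A), k' (T' A (3 * s)))} else
      if s ≤ 2 / 3 then (a (mk (B A)) (3 * s - 1)).map g gc else
        (a (mk ⟨B0, hB0⟩) (3 - 3 * s)).map g gc)
    (fun A s => by
      split_ifs
      · exact Or.inr ⟨_, ⟨⟨_, rfl⟩, ⟨_, rfl⟩⟩, rfl⟩
      · exact Or.inl ⟨_, (a2 _).1 _, rfl⟩
      · exact Or.inl ⟨_, (a2 _).1 _, rfl⟩)
    (x := g ⟨B0, hB0⟩) (fun A s h => by
      rw [if_neg (by linarith), if_neg (by linarith), (a2 _).2.2.1 _ (by linarith),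
        NonemptyCompacts.map_singleton]
      rfl)
    (v := fun A => (k (B A), k' A)) (fun A => by
      rw [if_pos (by norm_num), mul_zero, show T' A 0 = A from Subtype.ext (T2 A).2.1]
      rfl)
    (by rintro _ ⟨A, rfl⟩; exact ⟨A, rfl⟩)
    (eq_ite (eq_lin (K := T') T1 id (u := fun s => 3 * s) (fun s r => by
        rw [← mul_sub, abs_mul]; norm_num)
        (G := fun A y => ({(k (B A), k' y)} : NonemptyCompacts _)) fun η hη =>
          ⟨η, hη, fun c x y h => by
            rw [NonemptyCompacts.isometry_singleton.dist_eq, Prod.dist_eq, dist_self, hk'.dist_eq]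
            exact max_le hη.le h⟩)
      (eq_ite (eq_lin a1 (fun A => mk (B A)) (u := fun s => 3 * s - 1) (fun s r => by
          rw [sub_sub_sub_cancel_right, ← mul_sub, abs_mul]; norm_num) hG)
        (eq_lin a1 (fun _ => mk ⟨B0, hB0⟩) (u := fun s => 3 - 3 * s) (fun s r => by
          rw [sub_sub_sub_cancel_left, ← mul_sub, abs_mul, abs_sub_comm]; norm_num) hG) (2 / 3)
        fun A => by
          rw [(a2 _).2.2.2 _ (by norm_num), (a2 _).2.2.2 _ (by norm_num)]) (1 / 3)
      fun A => by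
        simp only [id]
        rw [if_pos (by norm_num), (a2 _).2.2.1 _ (by norm_num), NonemptyCompacts.map_singleton,
          show (3:ℝ) * (1 / 3) = 1 by norm_num, show T' A 1 = F (B A) from Subtype.ext (T2 A).2.2])
  refine ⟨Y, y1, y2, y3, y4, fun y => hk'.isEmbedding.toHomeomorph.symm ⟨e y, er ▸ mem_range_self y⟩,
    hk'.isEmbedding.toHomeomorph.symm.continuous.comp (ec.subtype_mk _), fun A => ?_⟩
  obtain ⟨y, hy⟩ := er.ge (mem_range_self A)
  exact ⟨y, hk'.isEmbedding.toHomeomorph.symm_apply_eq.2 (Subtype.ext hy)⟩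

end Pool.Agent.H82.WcD
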